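import Pool.Agent.FUE.StA

/-!
# Fueter sections: positivity at the bolt (helper81)
-/

set_option autoImplicit false

open scoped Manifold ContDiff Matrix
open MeasureTheory

namespace Pool.Agent.FUE

namespace A01x

theorem al_pos (pr : Profile) (t : ℝ) (ht : 0 ≤ t) : 0 < pr.al t := by
  rcases ht.eq_or_lt with h | h
  · rw [← h, pr.al_zero]
    norm_num
  · have h1 : 0 < Real.sqrt t := Real.sqrt_pos.2 h
    have h2 := pr.a_pos _ h1
    rw [Real.sq_sqrt ht] at h2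
    exact (mul_pos_iff_of_pos_left h1).1 h2

theorem pos (pr : Profile) (s : ℝ) (hs : 0 ≤ s) : 0 < pr.b s ∧ pr.c s < 0 ∧ 0 ≤ pr.a s ∧
    0 < pr.be (s ^ 2) - s * pr.ka (s ^ 2) ∧ 0 < pr.be (s ^ 2) + s * pr.ka (s ^ 2) := by
  have hb : 0 < pr.be (s ^ 2) + s * pr.ka (s ^ 2) := by
    rcases hs.eq_or_lt with h | h
    · rw [← h, zero_mul, add_zero, zero_pow two_ne_zero, pr.be_zero]
      exact Real.pi_pos
    · exact pr.b_pos s h
  have hc : -pr.be (s ^ 2) + s * pr.ka (s ^ 2) < 0 := by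
    rcases hs.eq_or_lt with h | h
    · rw [← h, zero_mul, add_zero, zero_pow two_ne_zero, pr.be_zero]
      linarith [Real.pi_pos]
    · exact pr.c_neg s h
  refine ⟨hb, hc, ?_, by linarith, hb⟩
  exact mul_nonneg hs (al_pos pr _ (sq_nonneg s)).le

theorem bdd (T : ℝ) (f : ℝ → ℝ) (hf : Continuous f) (h : ∀ s, 0 ≤ s → 0 < f s) :
    ∃ δ : ℝ, 0 < δ ∧ ∀ s : ℝ, 0 ≤ s → s ≤ T → δ ≤ f s ∧ f s ≤ δ⁻¹ := by
  rcases lt_or_ge T 0 with hT | hT
  · exact ⟨1, one_pos, fun s h1 h2 => absurd (h1.trans h2) (not_le.2 hT)⟩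
  · obtain ⟨x, hx, hmin⟩ := isCompact_Icc.exists_isMinOn (Set.nonempty_Icc.2 hT) hf.continuousOn
    obtain ⟨y, hy, hmax⟩ := isCompact_Icc.exists_isMaxOn (Set.nonempty_Icc.2 hT) hf.continuousOn
    have h1 := h x hx.1
    have h2 := h y hy.1
    have h3 : 0 < min (f x) (f y)⁻¹ := lt_min h1 (inv_pos.2 h2)
    refine ⟨min (f x) (f y)⁻¹, h3, fun s hs hs' => ⟨?_, ?_⟩⟩
    · exact (min_le_left _ _).trans (hmin ⟨hs, hs'⟩)
    · have h4 : f s ≤ f y := hmax ⟨hs, hs'⟩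
      refine h4.trans ?_
      rw [le_inv_comm₀ h2 h3]
      exact min_le_right _ _

end A01x

theorem thm_A01 : St_A01 := by
  refine ⟨A01x.al_pos, A01x.pos, fun pr s hs => ⟨pr.a_pos s hs, ?_, ?_, ?_⟩, fun pr T => ?_⟩
  · exact pr.ode_a s hs
  · exact pr.ode_b s hs
  · exact pr.ode_c s hs
  · have c1 := pr.smooth_al.continuous
    have c2 := pr.smooth_be.continuous
    have c3 := pr.smooth_ka.continuous
    obtain ⟨δ1, p1, h1⟩ := A01x.bdd T (fun s => pr.al (s ^ 2)) (by fun_prop)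
      (fun s _ => A01x.al_pos pr _ (sq_nonneg s))
    obtain ⟨δ2, p2, h2⟩ := A01x.bdd T (fun s => pr.be (s ^ 2) + s * pr.ka (s ^ 2)) (by fun_prop)
      (fun s hs => (A01x.pos pr s hs).1)
    obtain ⟨δ3, p3, h3⟩ := A01x.bdd T (fun s => -(-pr.be (s ^ 2) + s * pr.ka (s ^ 2)))
      (by fun_prop) (fun s hs => neg_pos.2 (A01x.pos pr s hs).2.1)
    have p : 0 < min δ1 (min δ2 δ3) := lt_min p1 (lt_min p2 p3)
    have l1 : min δ1 (min δ2 δ3) ≤ δ1 := min_le_left _ _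
    have l2 : min δ1 (min δ2 δ3) ≤ δ2 := (min_le_right _ _).trans (min_le_left _ _)
    have l3 : min δ1 (min δ2 δ3) ≤ δ3 := (min_le_right _ _).trans (min_le_right _ _)
    refine ⟨min δ1 (min δ2 δ3), p, fun s hs hs' => ?_⟩
    have a1 := h1 s hs hs'
    have a2 := h2 s hs hs'
    have a3 := h3 s hs hs'
    exact ⟨l1.trans a1.1, a1.2.trans (inv_anti₀ p l1), l2.trans a2.1,
      a2.2.trans (inv_anti₀ p l2), l3.trans a3.1, a3.2.trans (inv_anti₀ p l3)⟩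

end Pool.Agent.FUE
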