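import Pool.Agent.FUE.StA

/-!
# Fueter sections A02: inequalities of the Atiyah-Hitchin profile
-/

set_option autoImplicit false

open scoped Manifold ContDiff Matrix
open MeasureTheory Set

namespace Pool.Agent.FUE

namespace A02x

/-- the first zero argument -/
theorem first (f : ℝ → ℝ) (hf : Continuous f)
    (h0 : ∃ s1 : ℝ, 0 < s1 ∧ ∀ s : ℝ, 0 < s → s < s1 → 0 < f s)
    (H : ∀ s0 S : ℝ, 0 < s0 → s0 < S → (∀ s, s0 ≤ s → s < S → 0 < f s) → 0 < f S) :
    ∀ s : ℝ, 0 < s → 0 < f s := by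
  intro t ht
  by_contra hc
  rw [not_lt] at hc
  obtain ⟨s1, hs1, h1⟩ := h0
  have hm : 0 < min s1 t := lt_min hs1 ht
  have hs0 : 0 < min s1 t / 2 := by linarith
  have hs0t : min s1 t / 2 < t := by
    have := min_le_right s1 t
    linarith
  have hs01 : min s1 t / 2 < s1 := by
    have := min_le_left s1 t
    linarith
  have hB : IsCompact (Icc (min s1 t / 2) t ∩ f ⁻¹' Iic 0) :=
    isCompact_Icc.inter_right (isClosed_Iic.preimage hf)
  have hne : (Icc (min s1 t / 2) t ∩ f ⁻¹' Iic 0).Nonempty := ⟨t, ⟨hs0t.le, le_rfl⟩, hc⟩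
  have hS := hB.sInf_mem hne
  have hlow : ∀ s ∈ Icc (min s1 t / 2) t ∩ f ⁻¹' Iic 0,
      sInf (Icc (min s1 t / 2) t ∩ f ⁻¹' Iic 0) ≤ s := fun s hs =>
    csInf_le hB.bddBelow hs
  have hlt : min s1 t / 2 < sInf (Icc (min s1 t / 2) t ∩ f ⁻¹' Iic 0) := by
    rcases lt_or_eq_of_le hS.1.1 with h | h
    · exact h
    · exfalso
      have h2 := h1 _ hs0 hs01
      have h3 : f (sInf (Icc (min s1 t / 2) t ∩ f ⁻¹' Iic 0)) ≤ 0 := hS.2
      rw [← h] at h3
      linarith
  have h4 := H _ _ hs0 hlt (fun s hs hs' => by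
    by_contra hc2
    rw [not_lt] at hc2
    have h5 := hlow s ⟨⟨hs, le_trans hs'.le hS.1.2⟩, hc2⟩
    linarith)
  have h3 : f (sInf (Icc (min s1 t / 2) t ∩ f ⁻¹' Iic 0)) ≤ 0 := hS.2
  linarith

/-- a Gronwall argument -/
theorem gron (f p q : ℝ → ℝ) (s0 S : ℝ) (h : s0 < S) (hf : Continuous f)
    (hp : ContinuousOn p (Icc s0 S))
    (hd : ∀ s, s0 < s → s < S → HasDerivAt f (q s - p s * f s) s)
    (hq : ∀ s, s0 < s → s < S → 0 ≤ q s) (hpos : ∀ s, s0 ≤ s → s < S → 0 < f s) :
    0 < f S := by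
  obtain ⟨C, hC⟩ := isCompact_Icc.exists_bound_of_continuousOn hp
  have hder : ∀ s, s0 < s → s < S → HasDerivAt (fun r => f r * Real.exp (C * r))
      ((q s - p s * f s) * Real.exp (C * s) + f s * (Real.exp (C * s) * C)) s := by
    intro s h1 h2
    have h3 : HasDerivAt (fun r : ℝ => C * r) C s := by
      have h4 := (hasDerivAt_id s).const_mul C
      rw [mul_one] at h4
      exact h4
    exact (hd s h1 h2).mul h3.exp
  have hmono : MonotoneOn (fun r => f r * Real.exp (C * r)) (Icc s0 S) := by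
    apply monotoneOn_of_deriv_nonneg (convex_Icc s0 S)
    · exact (hf.mul (Real.continuous_exp.comp (continuous_const.mul continuous_id))).continuousOn
    · rw [interior_Icc]
      intro s hs
      exact (hder s hs.1 hs.2).differentiableAt.differentiableWithinAt
    · rw [interior_Icc]
      intro s hs
      rw [(hder s hs.1 hs.2).deriv]
      have h1 := hC s ⟨hs.1.le, hs.2.le⟩
      rw [Real.norm_eq_abs] at h1
      have h2 := le_of_abs_le h1
      have h3 := hpos s hs.1.le hs.2
      have h4 := hq s hs.1 hs.2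
      have h5 : 0 ≤ (C - p s) * f s := mul_nonneg (by linarith) h3.le
      have h6 : 0 < Real.exp (C * s) := Real.exp_pos _
      have h7 : (q s - p s * f s) * Real.exp (C * s) + f s * (Real.exp (C * s) * C) =
          (q s + (C - p s) * f s) * Real.exp (C * s) := by ring
      rw [h7]
      exact mul_nonneg (by linarith) h6.le
  have h1 := hmono ⟨le_rfl, h.le⟩ ⟨h.le, le_rfl⟩ h.le
  have h2 : 0 < f s0 * Real.exp (C * s0) := mul_pos (hpos s0 le_rfl h) (Real.exp_pos _)
  have h3 : 0 < f S * Real.exp (C * S) := lt_of_lt_of_le h2 h1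
  exact pos_of_mul_pos_left h3 (Real.exp_pos _).le

theorem near (f : ℝ → ℝ) (hf : Continuous f) (h : 0 < f 0) :
    ∃ s1 : ℝ, 0 < s1 ∧ ∀ s : ℝ, 0 < s → s < s1 → 0 < f s := by
  have h1 := hf.continuousAt.eventually (lt_mem_nhds h)
  obtain ⟨ε, hε, h2⟩ := Metric.eventually_nhds_iff.mp h1
  refine ⟨ε, hε, fun s hs hs' => h2 ?_⟩
  rw [Real.dist_eq, sub_zero, abs_of_pos hs]
  exact hs'

variable (pr : Profile)

theorem ca : Continuous pr.a := by
  unfold Profile.a
  exact continuous_id.mul (pr.smooth_al.continuous.comp (continuous_id.pow 2))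

theorem cb : Continuous pr.b := by
  unfold Profile.b
  exact (pr.smooth_be.continuous.comp (continuous_id.pow 2)).add
    (continuous_id.mul (pr.smooth_ka.continuous.comp (continuous_id.pow 2)))

theorem cc : Continuous pr.c := by
  unfold Profile.c
  exact (pr.smooth_be.continuous.comp (continuous_id.pow 2)).neg.add
    (continuous_id.mul (pr.smooth_ka.continuous.comp (continuous_id.pow 2)))

theorem a0 : pr.a 0 = 0 := by
  simp [Profile.a]

theorem b0 : pr.b 0 = Real.pi := by
  simp [Profile.b, pr.be_zero]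

theorem c0 : pr.c 0 = -Real.pi := by
  simp [Profile.c, pr.be_zero]

/-- the factor -/
noncomputable def cz (s : ℝ) : ℝ := (-2 * pr.a s * pr.b s * pr.c s)⁻¹

end A02x

open A02x

theorem thm_A02 (hA01 : St_A01) : St_A02 := by
  obtain ⟨-, hsg, hder, -⟩ := hA01
  intro pr
  have hb : ∀ s : ℝ, 0 < s → 0 < pr.b s := fun s hs => (hsg pr s hs.le).1
  have hc : ∀ s : ℝ, 0 < s → pr.c s < 0 := fun s hs => (hsg pr s hs.le).2.1
  have ha : ∀ s : ℝ, 0 < s → 0 < pr.a s := fun s hs => (hder pr s hs).1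
  have hden : ∀ s : ℝ, 0 < s → 0 < -2 * pr.a s * pr.b s * pr.c s := by
    intro s hs
    have h1 := mul_pos (mul_pos (ha s hs) (hb s hs)) (neg_pos.2 (hc s hs))
    have h2 : -2 * pr.a s * pr.b s * pr.c s = 2 * (pr.a s * pr.b s * -pr.c s) := by ring
    rw [h2]
    linarith
  have hcz : ∀ s : ℝ, 0 < s → 0 < cz pr s := fun s hs => inv_pos.2 (hden s hs)
  have ccz : ∀ s0 S : ℝ, 0 < s0 → ContinuousOn (cz pr) (Icc s0 S) := by
    intro s0 S h0
    unfold cz
    apply ContinuousOn.inv₀
    · exact (((continuous_const.mul (ca pr)).mul (cb pr)).mul (cc pr)).continuousOn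
    · intro s hs
      exact (hden s (lt_of_lt_of_le h0 hs.1)).ne'
  have hZ : ∀ s : ℝ, 0 < s → 0 < pr.a s + pr.b s - pr.c s := by
    intro s hs
    have h1 := ha s hs
    have h2 := hb s hs
    have h3 := hc s hs
    linarith
  have cX : Continuous fun s => pr.b s - pr.c s - pr.a s := ((cb pr).sub (cc pr)).sub (ca pr)
  have cY : Continuous fun s => pr.a s - pr.b s - pr.c s := ((ca pr).sub (cb pr)).sub (cc pr)
  have cZ : Continuous fun s => pr.a s + pr.b s - pr.c s := ((ca pr).add (cb pr)).sub (cc pr)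
  have dX : ∀ s : ℝ, 0 < s → HasDerivAt (fun s => pr.b s - pr.c s - pr.a s)
      (cz pr s * (pr.b s * (pr.a s - pr.b s - pr.c s) * (pr.a s + pr.b s - pr.c s)) -
        cz pr s * (pr.a s * (pr.a s + pr.b s - pr.c s) - pr.c s * (pr.a s - pr.b s - pr.c s)) *
          (pr.b s - pr.c s - pr.a s)) s := by
    intro s hs
    obtain ⟨-, h1, h2, h3⟩ := hder pr s hs
    refine ((h2.sub h3).sub h1).congr_deriv ?_
    have e1 := (ha s hs).ne'
    have e2 := (hb s hs).ne'
    have e3 := (hc s hs).ne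
    unfold cz
    field_simp
    ring
  have dY : ∀ s : ℝ, 0 < s → HasDerivAt (fun s => pr.a s - pr.b s - pr.c s)
      (cz pr s * (pr.a s * (pr.b s - pr.c s - pr.a s) * (pr.a s + pr.b s - pr.c s)) -
        cz pr s * (pr.b s * (pr.a s + pr.b s - pr.c s) - pr.c s * (pr.b s - pr.c s - pr.a s)) *
          (pr.a s - pr.b s - pr.c s)) s := by
    intro s hs
    obtain ⟨-, h1, h2, h3⟩ := hder pr s hs
    refine ((h1.sub h2).sub h3).congr_deriv ?_
    have e1 := (ha s hs).ne'
    have e2 := (hb s hs).ne'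
    have e3 := (hc s hs).ne
    unfold cz
    field_simp
    ring
  have dD : ∀ s : ℝ, 0 < s → HasDerivAt (fun s => pr.b s - pr.a s)
      (0 - cz pr s * (pr.a s + pr.b s - pr.c s) * (pr.a s + pr.b s + pr.c s) *
          (pr.b s - pr.a s)) s := by
    intro s hs
    obtain ⟨-, h1, h2, h3⟩ := hder pr s hs
    refine (h2.sub h1).congr_deriv ?_
    have e1 := (ha s hs).ne'
    have e2 := (hb s hs).ne'
    have e3 := (hc s hs).ne
    unfold cz
    field_simp
    ring
  have dW : ∀ s : ℝ, 0 < s → HasDerivAt (fun s => pr.a s + pr.b s + pr.c s)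
      (cz pr s * (pr.a s * (pr.b s - pr.c s - pr.a s) * (pr.a s + pr.b s - pr.c s) +
        pr.b s * (pr.a s - pr.b s - pr.c s) * (pr.a s + pr.b s - pr.c s) -
        pr.c s * (pr.b s - pr.c s - pr.a s) * (pr.a s - pr.b s - pr.c s))) s := by
    intro s hs
    obtain ⟨-, h1, h2, h3⟩ := hder pr s hs
    refine ((h1.add h2).add h3).congr_deriv ?_
    have e1 := (ha s hs).ne'
    have e2 := (hb s hs).ne'
    have e3 := (hc s hs).ne
    unfold cz
    field_simp
    ring
  -- `X, Y > 0`
  have hXY : ∀ s : ℝ, 0 < s → 0 < min (pr.b s - pr.c s - pr.a s) (pr.a s - pr.b s - pr.c s) := by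
    refine first (fun s => min (pr.b s - pr.c s - pr.a s) (pr.a s - pr.b s - pr.c s))
      (cX.min cY) ?_ ?_
    · obtain ⟨s1, hs1, h1⟩ := near (fun s => pr.b s - pr.c s - pr.a s) cX (by
        rw [a0, b0, c0]
        have := Real.pi_pos
        linarith)
      have cy : Continuous fun s : ℝ => pr.al (s ^ 2) - 2 * pr.ka (s ^ 2) :=
        (pr.smooth_al.continuous.comp (continuous_pow 2)).sub
          (continuous_const.mul (pr.smooth_ka.continuous.comp (continuous_pow 2)))
      obtain ⟨s2, hs2, h2⟩ := near (fun s => pr.al (s ^ 2) - 2 * pr.ka (s ^ 2)) cy (by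
        have e : (0 : ℝ) ^ 2 = 0 := by norm_num
        rw [e, pr.al_zero, pr.ka_zero]
        norm_num)
      refine ⟨min s1 s2, lt_min hs1 hs2, fun s hs hs' => lt_min ?_ ?_⟩
      · exact h1 s hs (lt_of_lt_of_le hs' (min_le_left _ _))
      · have h3 := h2 s hs (lt_of_lt_of_le hs' (min_le_right _ _))
        have e : pr.a s - pr.b s - pr.c s = s * (pr.al (s ^ 2) - 2 * pr.ka (s ^ 2)) := by
          simp only [Profile.a, Profile.b, Profile.c]
          ring
        rw [e]
        exact mul_pos hs h3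
    · intro s0 S h0 hS hp
      have hpX : ∀ s, s0 ≤ s → s < S → 0 < pr.b s - pr.c s - pr.a s :=
        fun s h1 h2 => (lt_min_iff.1 (hp s h1 h2)).1
      have hpY : ∀ s, s0 ≤ s → s < S → 0 < pr.a s - pr.b s - pr.c s :=
        fun s h1 h2 => (lt_min_iff.1 (hp s h1 h2)).2
      refine lt_min ?_ ?_
      · refine gron (fun s => pr.b s - pr.c s - pr.a s)
          (fun s => cz pr s * (pr.a s * (pr.a s + pr.b s - pr.c s) -
            pr.c s * (pr.a s - pr.b s - pr.c s)))
          (fun s => cz pr s * (pr.b s * (pr.a s - pr.b s - pr.c s) *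
            (pr.a s + pr.b s - pr.c s))) s0 S hS cX ?_ ?_ ?_ hpX
        · exact (ccz s0 S h0).mul (((ca pr).mul cZ).sub ((cc pr).mul cY)).continuousOn
        · exact fun s h1 _ => dX s (h0.trans h1)
        · intro s h1 h2
          have hs := h0.trans h1
          exact mul_nonneg (hcz s hs).le (mul_nonneg (mul_nonneg (hb s hs).le (hpY s h1.le h2).le)
            (hZ s hs).le)
      · refine gron (fun s => pr.a s - pr.b s - pr.c s)
          (fun s => cz pr s * (pr.b s * (pr.a s + pr.b s - pr.c s) -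
            pr.c s * (pr.b s - pr.c s - pr.a s)))
          (fun s => cz pr s * (pr.a s * (pr.b s - pr.c s - pr.a s) *
            (pr.a s + pr.b s - pr.c s))) s0 S hS cY ?_ ?_ ?_ hpY
        · exact (ccz s0 S h0).mul (((cb pr).mul cZ).sub ((cc pr).mul cX)).continuousOn
        · exact fun s h1 _ => dY s (h0.trans h1)
        · intro s h1 h2
          have hs := h0.trans h1
          exact mul_nonneg (hcz s hs).le (mul_nonneg (mul_nonneg (ha s hs).le (hpX s h1.le h2).le)
            (hZ s hs).le)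
  have hX : ∀ s : ℝ, 0 < s → 0 < pr.b s - pr.c s - pr.a s := fun s hs => (lt_min_iff.1 (hXY s hs)).1
  have hY : ∀ s : ℝ, 0 < s → 0 < pr.a s - pr.b s - pr.c s := fun s hs => (lt_min_iff.1 (hXY s hs)).2
  have cW : Continuous fun s => pr.a s + pr.b s + pr.c s := ((ca pr).add (cb pr)).add (cc pr)
  have hW : ∀ s : ℝ, 0 < s → 0 < pr.a s + pr.b s + pr.c s := by
    have hmono : StrictMonoOn (fun s => pr.a s + pr.b s + pr.c s) (Ici 0) := by
      apply strictMonoOn_of_deriv_pos (convex_Ici 0) cW.continuousOn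
      rw [interior_Ici]
      intro s hs
      have hs' : 0 < s := hs
      rw [(dW s hs').deriv]
      have h1 := mul_pos (mul_pos (ha s hs') (hX s hs')) (hZ s hs')
      have h2 := mul_pos (mul_pos (hb s hs') (hY s hs')) (hZ s hs')
      have h3 := mul_pos (mul_pos (neg_pos.2 (hc s hs')) (hX s hs')) (hY s hs')
      refine mul_pos (hcz s hs') ?_
      linarith
    intro s hs
    have h1 := hmono (mem_Ici.2 le_rfl) (mem_Ici.2 hs.le) hs
    have h2 : pr.a 0 + pr.b 0 + pr.c 0 < pr.a s + pr.b s + pr.c s := h1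
    rw [a0, b0, c0] at h2
    linarith
  have hD : ∀ s : ℝ, 0 < s → 0 < pr.b s - pr.a s := by
    refine first (fun s => pr.b s - pr.a s) ((cb pr).sub (ca pr)) ?_ ?_
    · refine near (fun s => pr.b s - pr.a s) ((cb pr).sub (ca pr)) ?_
      rw [a0, b0]
      have := Real.pi_pos
      linarith
    · intro s0 S h0 hS hp
      refine gron (fun s => pr.b s - pr.a s)
        (fun s => cz pr s * (pr.a s + pr.b s - pr.c s) * (pr.a s + pr.b s + pr.c s))
        (fun _ => 0) s0 S hS ((cb pr).sub (ca pr)) ?_ ?_ ?_ hp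
      · exact ((ccz s0 S h0).mul cZ.continuousOn).mul cW.continuousOn
      · exact fun s h1 _ => dD s (h0.trans h1)
      · exact fun _ _ _ => le_rfl
  intro s hs
  exact ⟨by have := hD s hs; linarith, hX s hs, hY s hs, hZ s hs, hW s hs⟩

end Pool.Agent.FUE
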