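import Pool.Agent.FUE.StA

/-!
# FUE: A03, growth of the Atiyah-Hitchin profile (helper21)
-/

set_option autoImplicit false

namespace Pool.Agent.FUE

namespace A03x

lemma mono (f f' : ℝ → ℝ) (hc : Continuous f) (hd : ∀ s, 0 < s → HasDerivAt f (f' s) s)
    (h0 : ∀ s, 0 < s → 0 ≤ f' s) (s : ℝ) (hs : 0 ≤ s) : f 0 ≤ f s := by
  have h : MonotoneOn f (Set.Ici 0) := by
    apply monotoneOn_of_deriv_nonneg (convex_Ici 0) hc.continuousOn
    · intro x hx
      rw [interior_Ici] at hx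
      exact (hd x hx).differentiableAt.differentiableWithinAt
    · intro x hx
      rw [interior_Ici] at hx
      rw [(hd x hx).deriv]
      exact h0 x hx
  exact h (Set.mem_Ici.2 le_rfl) (Set.mem_Ici.2 hs) hs

lemma cont_a (pr : Profile) : Continuous pr.a := by
  unfold Profile.a
  exact continuous_id.mul (pr.smooth_al.continuous.comp (continuous_pow 2))

lemma cont_b (pr : Profile) : Continuous pr.b := by
  unfold Profile.b
  exact (pr.smooth_be.continuous.comp (continuous_pow 2)).add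
    (continuous_id.mul (pr.smooth_ka.continuous.comp (continuous_pow 2)))

lemma cont_c (pr : Profile) : Continuous pr.c := by
  unfold Profile.c
  exact (pr.smooth_be.continuous.comp (continuous_pow 2)).neg.add
    (continuous_id.mul (pr.smooth_ka.continuous.comp (continuous_pow 2)))

lemma a_zero (pr : Profile) : pr.a 0 = 0 := by
  simp [Profile.a]

lemma b_zero (pr : Profile) : pr.b 0 = Real.pi := by
  simp [Profile.b, pr.be_zero]

lemma c_zero (pr : Profile) : pr.c 0 = -Real.pi := by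
  simp [Profile.c, pr.be_zero]

end A03x

open A03x in
theorem thm_A03 (hA01 : St_A01) (hA02 : St_A02) : St_A03 := by
  obtain ⟨-, h2, h3, -⟩ := hA01
  intro pr s hs
  have ha : ∀ s : ℝ, 0 < s →
      1 / 2 ≤ (pr.a s ^ 2 - (pr.b s - pr.c s) ^ 2) / (2 * pr.b s * pr.c s) := by
    intro s hs
    obtain ⟨hb, hc, -, -, -⟩ := h2 pr s hs.le
    obtain ⟨ha, -, -, -⟩ := h3 pr s hs
    obtain ⟨hab, hX, hY, hZ, hT⟩ := hA02 pr s hs
    rw [le_div_iff_of_neg (by nlinarith)]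
    nlinarith [mul_pos (sub_pos.2 hab) hb, mul_pos (sub_pos.2 hab) ha,
      mul_pos ha (neg_pos.2 hc), mul_pos (neg_pos.2 hc) (sub_pos.2 hab), mul_pos hb (neg_pos.2 hc),
      mul_pos (neg_pos.2 hc) (neg_pos.2 hc)]
  have hb' : ∀ s : ℝ, 0 < s →
      0 ≤ (pr.b s ^ 2 - (pr.c s - pr.a s) ^ 2) / (2 * pr.c s * pr.a s) := by
    intro s hs
    obtain ⟨hb, hc, -, -, -⟩ := h2 pr s hs.le
    obtain ⟨ha, -, -, -⟩ := h3 pr s hs
    obtain ⟨hab, hX, hY, hZ, hT⟩ := hA02 pr s hs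
    rw [le_div_iff_of_neg (by nlinarith)]
    nlinarith [mul_pos hZ hY]
  have hc' : ∀ s : ℝ, 0 < s →
      0 ≤ (pr.c s ^ 2 - (pr.a s - pr.b s) ^ 2) / (2 * pr.a s * pr.b s) := by
    intro s hs
    obtain ⟨hb, hc, -, -, -⟩ := h2 pr s hs.le
    obtain ⟨ha, -, -, -⟩ := h3 pr s hs
    obtain ⟨hab, hX, hY, hZ, hT⟩ := hA02 pr s hs
    apply div_nonneg _ (by positivity)
    nlinarith [mul_pos hX hY]
  have hba : ∀ s : ℝ, 0 < s →
      0 ≤ (pr.a s ^ 2 - (pr.b s - pr.c s) ^ 2) / (2 * pr.b s * pr.c s) -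
        (pr.b s ^ 2 - (pr.c s - pr.a s) ^ 2) / (2 * pr.c s * pr.a s) := by
    intro s hs
    obtain ⟨hb, hc, -, -, -⟩ := h2 pr s hs.le
    obtain ⟨ha, -, -, -⟩ := h3 pr s hs
    obtain ⟨hab, hX, hY, hZ, hT⟩ := hA02 pr s hs
    have e : (pr.a s ^ 2 - (pr.b s - pr.c s) ^ 2) / (2 * pr.b s * pr.c s) -
        (pr.b s ^ 2 - (pr.c s - pr.a s) ^ 2) / (2 * pr.c s * pr.a s) =
        (pr.a s + pr.b s - pr.c s) * (pr.b s - pr.a s) * (pr.a s + pr.b s + pr.c s) /
          (2 * pr.a s * pr.b s * (-pr.c s)) := by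
      have := ha.ne'
      have := hb.ne'
      have := hc.ne
      field_simp
      ring
    rw [e]
    exact (div_pos (mul_pos (mul_pos hZ (sub_pos.2 hab)) hT)
      (mul_pos (by positivity) (neg_pos.2 hc))).le
  have k1 := mono (fun s => pr.a s - s / 2) (fun s =>
    (pr.a s ^ 2 - (pr.b s - pr.c s) ^ 2) / (2 * pr.b s * pr.c s) - 1 / 2)
    ((cont_a pr).sub (continuous_id.div_const 2))
    (fun s hs => (h3 pr s hs).2.1.sub ((hasDerivAt_id s).div_const 2))
    (fun s hs => sub_nonneg.2 (ha s hs)) s hs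
  have k2 := mono (fun s => pr.a s - pr.b s) (fun s =>
    (pr.a s ^ 2 - (pr.b s - pr.c s) ^ 2) / (2 * pr.b s * pr.c s) -
        (pr.b s ^ 2 - (pr.c s - pr.a s) ^ 2) / (2 * pr.c s * pr.a s))
    ((cont_a pr).sub (cont_b pr))
    (fun s hs => (h3 pr s hs).2.1.sub (h3 pr s hs).2.2.1) hba s hs
  have k3 := mono pr.c _ (cont_c pr) (fun s hs => (h3 pr s hs).2.2.2) hc' s hs
  have k4 := mono pr.b _ (cont_b pr) (fun s hs => (h3 pr s hs).2.2.1) hb' s hs
  simp only [a_zero, b_zero, c_zero] at k1 k2 k3 k4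
  refine ⟨by linarith, by linarith, k3, (h2 pr s hs).2.1, k4, ?_⟩
  rcases hs.eq_or_lt with h | h
  · rw [← h, a_zero, b_zero]
    exact Real.pi_pos.le
  · exact (hA02 pr s h).1.le

end Pool.Agent.FUE
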