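import Pool.Agent.FUE.StA

/-!
# Module A04 of MP_9c5d3f_gt (helper90): the projections at `P = R D_s Rᵀ`
-/

set_option autoImplicit false

open scoped Manifold ContDiff Matrix

namespace Pool.Agent.FUE

private lemma a04_pos (P : V9) : 0 < (lam P) ^ 2 - tt P := by
  unfold lam tt
  nlinarith [sq_nonneg ((toM P).trace - 1 / 2)]

theorem thm_A04 : St_A04 := by
  refine ⟨a04_pos, ?_⟩
  intro P R s hR hP
  obtain ⟨h1, -⟩ := hR
  have h2 : R * Rᵀ = 1 := mul_eq_one_comm.1 h1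
  have hmul : ∀ A B : Matrix (Fin 3) (Fin 3) ℝ, (R * A * Rᵀ) * (R * B * Rᵀ) = R * (A * B) * Rᵀ := by
    intro A B
    calc (R * A * Rᵀ) * (R * B * Rᵀ) = R * A * (Rᵀ * R) * B * Rᵀ := by simp only [Matrix.mul_assoc]
      _ = R * (A * B) * Rᵀ := by rw [h1, Matrix.mul_one]; simp only [Matrix.mul_assoc]
  have hone : (1 : Matrix (Fin 3) (Fin 3) ℝ) = R * 1 * Rᵀ := by rw [Matrix.mul_one, h2]
  have hlam : lam P = 2 + s ^ 2 := by
    unfold lam
    rw [hP, Matrix.trace_mul_cycle, h1, Matrix.one_mul]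
    simp [Dg, Matrix.trace, Fin.sum_univ_three]
  have htt : tt P = s ^ 2 := by
    have : tt P = lam P - 2 := rfl
    rw [this, hlam]; ring
  have hpos := a04_pos P
  have hell : ell P = R * Matrix.diagonal ![1, 0, 0] * Rᵀ := by
    have e1 : toM P * toM P - (tt P) • (1 : Matrix (Fin 3) (Fin 3) ℝ) =
        ((lam P) ^ 2 - tt P) • (R * Matrix.diagonal ![1, 0, 0] * Rᵀ) := by
      have e2 : Dg s * Dg s - (s ^ 2) • (1 : Matrix (Fin 3) (Fin 3) ℝ) =
          ((2 + s ^ 2) ^ 2 - s ^ 2) • Matrix.diagonal ![1, 0, 0] := by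
        ext i j
        fin_cases i <;> fin_cases j <;> simp [Dg] <;> ring
      rw [hP, hmul, hlam, htt]
      conv_lhs => rw [hone]
      rw [← Matrix.smul_mul, ← Matrix.mul_smul, ← Matrix.sub_mul, ← Matrix.mul_sub, e2,
        Matrix.mul_smul, Matrix.smul_mul]
    unfold ell
    rw [e1, smul_smul, inv_mul_cancel₀ hpos.ne', one_smul]
  refine ⟨hlam, htt, hell, ?_, ?_⟩
  · unfold Zz
    have e3 : Dg s - (2 + s ^ 2) • Matrix.diagonal ![1, 0, 0] = Matrix.diagonal ![0, s, -s] := by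
      ext i j
      fin_cases i <;> fin_cases j <;> simp [Dg]
    rw [hell, hP, hlam, ← e3, Matrix.mul_sub, Matrix.sub_mul, Matrix.mul_smul, Matrix.smul_mul]
  · unfold Pp
    have e4 : (1 : Matrix (Fin 3) (Fin 3) ℝ) - Matrix.diagonal ![1, 0, 0] = Matrix.diagonal ![0, 1, 1] := by
      ext i j
      fin_cases i <;> fin_cases j <;> simp
    rw [hell, ← e4, Matrix.mul_sub, Matrix.sub_mul, Matrix.mul_one, h2]

end Pool.Agent.FUE
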