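import Pool.Agent.FUE.StA

/-!
# Fueter sections: tangent vectors (helper81)
-/

set_option autoImplicit false

open scoped Manifold ContDiff Matrix
open MeasureTheory

namespace Pool.Agent.FUE

namespace A05x

/-- the tangent vector with coefficients `h` -/
def K4 (s : ℝ) (h : Fin 4 → ℝ) : Matrix (Fin 3) (Fin 3) ℝ :=
  !![2 * s * h 0, (2 + s ^ 2 - s) * h 3, -((2 + s ^ 2 + s) * h 2);
    (2 + s ^ 2 - s) * h 3, h 0, h 1;
    -((2 + s ^ 2 + s) * h 2), h 1, -(h 0)]

theorem sum_eq (s : ℝ) (h : Fin 4 → ℝ) : ∑ k, h k • Tb s k = K4 s h := by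
  ext i j
  rw [Matrix.sum_apply, Fin.sum_univ_four]
  fin_cases i <;> fin_cases j <;> simp [Tb, K4] <;> ring

theorem K4_symm (s : ℝ) (h : Fin 4 → ℝ) : (K4 s h)ᵀ = K4 s h := by
  ext i j
  rw [Matrix.transpose_apply]
  fin_cases i <;> fin_cases j <;> simp [K4]

theorem conj_inj {R A B : Matrix (Fin 3) (Fin 3) ℝ} (hR : Rᵀ * R = 1)
    (h : R * A * Rᵀ = R * B * Rᵀ) : A = B := by
  have h1 : ∀ C : Matrix (Fin 3) (Fin 3) ℝ, Rᵀ * (R * C * Rᵀ) * R = C := by
    intro C
    calc Rᵀ * (R * C * Rᵀ) * R = (Rᵀ * R) * C * (Rᵀ * R) := by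
          simp only [Matrix.mul_assoc]
      _ = C := by rw [hR, Matrix.one_mul, Matrix.mul_one]
  rw [← h1 A, h, h1 B]

theorem conj_surj {R : Matrix (Fin 3) (Fin 3) ℝ} (hR : Rᵀ * R = 1)
    (A : Matrix (Fin 3) (Fin 3) ℝ) : R * (Rᵀ * A * R) * Rᵀ = A := by
  have hR' : R * Rᵀ = 1 := mul_eq_one_comm.1 hR
  calc R * (Rᵀ * A * R) * Rᵀ = (R * Rᵀ) * A * (R * Rᵀ) := by
        simp only [Matrix.mul_assoc]
    _ = A := by rw [hR', Matrix.one_mul, Matrix.mul_one]

theorem conj_trace {R : Matrix (Fin 3) (Fin 3) ℝ} (hR : Rᵀ * R = 1)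
    (D K : Matrix (Fin 3) (Fin 3) ℝ) :
    ((R * D * Rᵀ) * (R * K * Rᵀ)).trace = (D * K).trace := by
  have h1 : (R * D * Rᵀ) * (R * K * Rᵀ) = R * (D * K) * Rᵀ := by
    calc (R * D * Rᵀ) * (R * K * Rᵀ) = R * D * (Rᵀ * R) * K * Rᵀ := by
          simp only [Matrix.mul_assoc]
      _ = R * (D * K) * Rᵀ := by
          rw [hR, Matrix.mul_one, Matrix.mul_assoc R D K]
  rw [h1, Matrix.trace_mul_comm, ← Matrix.mul_assoc, hR, Matrix.one_mul]

theorem tan_iff (hA04 : St_A04) (P : V9) (R : Matrix (Fin 3) (Fin 3) ℝ) (s : ℝ) (hR : IsRot R)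
    (hP : toM P = R * Dg s * Rᵀ) (H : V9) (K : Matrix (Fin 3) (Fin 3) ℝ)
    (hH : toM H = R * K * Rᵀ) :
    Tan P H ↔ Kᵀ = K ∧ K 1 1 + K 2 2 = 0 ∧ K 0 0 - s * K 1 1 + s * K 2 2 = 0 := by
  obtain ⟨-, -, h1, h2, h3⟩ := hA04.2 P R s hR hP
  have e1 : (toM H)ᵀ = toM H ↔ Kᵀ = K := by
    rw [hH, Matrix.transpose_mul, Matrix.transpose_mul, Matrix.transpose_transpose,
      ← Matrix.mul_assoc]
    constructor
    · intro h
      exact conj_inj hR.1 h
    · intro h
      rw [h]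
  have e2 : (Pp P * toM H).trace = K 1 1 + K 2 2 := by
    rw [h3, hH, conj_trace hR.1, Matrix.trace_fin_three, Matrix.diagonal_mul,
      Matrix.diagonal_mul, Matrix.diagonal_mul]
    simp
  have e3 : ((ell P - Zz P) * toM H).trace = K 0 0 - s * K 1 1 + s * K 2 2 := by
    rw [Matrix.sub_mul, Matrix.trace_sub, h1, h2, hH, conj_trace hR.1, conj_trace hR.1,
      Matrix.trace_fin_three, Matrix.trace_fin_three, Matrix.diagonal_mul,
      Matrix.diagonal_mul, Matrix.diagonal_mul, Matrix.diagonal_mul,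
      Matrix.diagonal_mul, Matrix.diagonal_mul]
    simp
    ring
  unfold Tan
  rw [e1, e2, e3]

end A05x

open A05x in
theorem thm_A05 (hA04 : St_A04) : St_A05 := by
  intro P R s hR hs hP
  have p1 : (2 + s ^ 2 + s : ℝ) ≠ 0 := by positivity
  have p2 : (2 + s ^ 2 - s : ℝ) ≠ 0 := by
    have : 0 < 2 + s ^ 2 - s := by nlinarith [sq_nonneg (s - 1)]
    exact this.ne'
  constructor
  · intro H
    have hK : toM H = R * (Rᵀ * toM H * R) * Rᵀ := (conj_surj hR.1 _).symm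
    constructor
    · intro hT
      obtain ⟨t1, t2, t3⟩ := (tan_iff hA04 P R s hR hP H _ hK).1 hT
      generalize Rᵀ * toM H * R = K at *
      refine ⟨![K 1 1, K 1 2, -(K 0 2) / (2 + s ^ 2 + s), K 0 1 / (2 + s ^ 2 - s)], ?_⟩
      rw [hK, sum_eq]
      congr 2
      have s1 : K 1 0 = K 0 1 := congrFun (congrFun t1 0) 1
      have s2 : K 2 0 = K 0 2 := congrFun (congrFun t1 0) 2
      have s3 : K 2 1 = K 1 2 := congrFun (congrFun t1 1) 2
      have s4 : K 2 2 = -K 1 1 := by linarith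
      have s5 : K 0 0 = 2 * s * K 1 1 := by
        rw [s4] at t3
        linarith
      have s6 : (2 + s ^ 2 - s) * (K 0 1 / (2 + s ^ 2 - s)) = K 0 1 := mul_div_cancel₀ _ p2
      have s7 : (2 + s ^ 2 + s) * (-(K 0 2) / (2 + s ^ 2 + s)) = -K 0 2 := mul_div_cancel₀ _ p1
      ext i j
      fin_cases i <;> fin_cases j <;> simp [K4, s1, s2, s3, s4, s5, s6, s7]
    · rintro ⟨h, hh⟩
      rw [sum_eq] at hh
      refine (tan_iff hA04 P R s hR hP H _ hh).2 ⟨K4_symm s h, ?_, ?_⟩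
      · simp [K4]
      · simp [K4]
        ring
  · intro h h' he
    rw [sum_eq, sum_eq] at he
    have h1 := conj_inj hR.1 he
    have a0 : h 0 = h' 0 := by
      have := congrFun (congrFun h1 1) 1
      simpa [K4] using this
    have a1 : h 1 = h' 1 := by
      have := congrFun (congrFun h1 1) 2
      simpa [K4] using this
    have a2 : h 2 = h' 2 := by
      have := congrFun (congrFun h1 0) 2
      have h3 : -((2 + s ^ 2 + s) * h 2) = -((2 + s ^ 2 + s) * h' 2) := by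
        simpa only [K4, Matrix.of_apply, Matrix.cons_val] using this
      exact mul_left_cancel₀ p1 (neg_injective h3)
    have a3 : h 3 = h' 3 := by
      have := congrFun (congrFun h1 0) 1
      have h3 : (2 + s ^ 2 - s) * h 3 = (2 + s ^ 2 - s) * h' 3 := by
        simpa only [K4, Matrix.of_apply, Matrix.cons_val] using this
      exact mul_left_cancel₀ p2 h3
    funext i
    fin_cases i
    · exact a0
    · exact a1
    · exact a2
    · exact a3

end Pool.Agent.FUE
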