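import Pool.Agent.FUE.StA

/-!
# Fueter sections, A06: derivatives of maps into the Atiyah-Hitchin manifold are tangent
-/

set_option autoImplicit false

open scoped Manifold ContDiff Matrix
open MeasureTheory

namespace Pool.Agent.FUE

namespace A06x

theorem symm_of {P : V9} (h : P ∈ AH) (i j : Fin 3) : P (i, j) = P (j, i) := by
  obtain ⟨R, s, hR, hs, hP⟩ := h
  have h1 : (toM P)ᵀ = toM P := by
    rw [hP, Matrix.transpose_mul, Matrix.transpose_mul, Matrix.transpose_transpose]
    unfold Dg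
    rw [Matrix.diagonal_transpose, Matrix.mul_assoc]
  have h2 := congrFun (congrFun h1 j) i
  exact h2

theorem conj_mul {R A B : Matrix (Fin 3) (Fin 3) ℝ} (hR : Rᵀ * R = 1) :
    (R * A * Rᵀ) * (R * B * Rᵀ) = R * (A * B) * Rᵀ := by
  calc (R * A * Rᵀ) * (R * B * Rᵀ) = R * A * (Rᵀ * R) * B * Rᵀ := by
        simp only [Matrix.mul_assoc]
    _ = R * (A * B) * Rᵀ := by rw [hR, Matrix.mul_one]; simp only [Matrix.mul_assoc]

theorem tr_conj {R A : Matrix (Fin 3) (Fin 3) ℝ} (hR : Rᵀ * R = 1) :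
    (R * A * Rᵀ).trace = A.trace := by
  rw [Matrix.mul_assoc, Matrix.trace_mul_comm, Matrix.mul_assoc, hR, Matrix.mul_one]

theorem traces {P : V9} (h : P ∈ AH) :
    (toM P * toM P).trace = (toM P).trace ^ 2 + 2 * (toM P).trace - 4 ∧
      (toM P * toM P * toM P).trace = (toM P).trace ^ 3 := by
  obtain ⟨R, s, hR, hs, hP⟩ := h
  have h1 : (toM P).trace = 2 + s ^ 2 := by
    rw [hP, tr_conj hR.1]
    unfold Dg
    rw [Matrix.trace_diagonal, Fin.sum_univ_three]
    simp
  have h2 : toM P * toM P = R * (Dg s * Dg s) * Rᵀ := by rw [hP, conj_mul hR.1]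
  have h3 : toM P * toM P * toM P = R * (Dg s * Dg s * Dg s) * Rᵀ := by
    rw [h2, hP, conj_mul hR.1]
  rw [h1, h3, h2, tr_conj hR.1, tr_conj hR.1]
  unfold Dg
  rw [Matrix.diagonal_mul_diagonal, Matrix.diagonal_mul_diagonal, Matrix.trace_diagonal,
    Matrix.trace_diagonal, Fin.sum_univ_three, Fin.sum_univ_three]
  constructor
  · simp
    ring
  · simp
    ring

end A06x

open A06x in
theorem thm_A06 (hA04 : St_A04) : St_A06 := by
  intro u x hu hA v
  set H : V9 := fderiv ℝ u x v with hH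
  -- the curve
  have hlin : HasDerivAt (fun t : ℝ => x + t • v) v 0 := by
    have h := ((hasDerivAt_id (0 : ℝ)).smul_const v).const_add x
    simpa using h
  have hx0 : x + (0 : ℝ) • v = x := by rw [zero_smul, add_zero]
  have hcurve : HasDerivAt (fun t : ℝ => u (x + t • v)) H 0 := by
    have h1 : HasFDerivAt u (fderiv ℝ u x) (x + (0 : ℝ) • v) := by
      rw [hx0]; exact hu.hasFDerivAt
    exact h1.comp_hasDerivAt 0 hlin
  have hc : ∀ i j : Fin 3, HasDerivAt (fun t : ℝ => u (x + t • v) (i, j)) (H (i, j)) 0 := by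
    intro i j
    exact (EuclideanSpace.proj (𝕜 := ℝ) (i, j)).hasFDerivAt.comp_hasDerivAt 0 hcurve
  have hev : ∀ᶠ t : ℝ in nhds 0, u (x + t • v) ∈ AH := by
    have h1 : Filter.Tendsto (fun t : ℝ => x + t • v) (nhds 0) (nhds x) := by
      have h2 := hlin.continuousAt.tendsto
      rwa [hx0] at h2
    exact h1.eventually hA
  have huA : u x ∈ AH := hA.self_of_nhds
  -- symmetry
  have hsym : ∀ i j : Fin 3, H (i, j) = H (j, i) := by
    intro i j
    have h1 : (fun t : ℝ => u (x + t • v) (i, j)) =ᶠ[nhds 0]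
        fun t : ℝ => u (x + t • v) (j, i) := hev.mono fun t ht => symm_of ht i j
    exact (hc i j).unique ((hc j i).congr_of_eventuallyEq h1)
  -- traces
  have htr : HasDerivAt (fun t : ℝ => (toM (u (x + t • v))).trace) (toM H).trace 0 := by
    have h := HasDerivAt.fun_sum (u := Finset.univ) fun (i : Fin 3) _ => hc i i
    exact h
  have hq : HasDerivAt (fun t : ℝ => (toM (u (x + t • v)) * toM (u (x + t • v))).trace)
      (∑ i, ∑ j, (H (i, j) * u (x + (0 : ℝ) • v) (j, i) +
        u (x + (0 : ℝ) • v) (i, j) * H (j, i))) 0 := by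
    have h := HasDerivAt.fun_sum (u := Finset.univ) fun (i : Fin 3) _ =>
      HasDerivAt.fun_sum (u := Finset.univ) fun (j : Fin 3) _ => (hc i j).mul (hc j i)
    exact h
  have hr : HasDerivAt (fun t : ℝ =>
      (toM (u (x + t • v)) * toM (u (x + t • v)) * toM (u (x + t • v))).trace)
      (∑ i, ∑ k, ((∑ j, (H (i, j) * u (x + (0 : ℝ) • v) (j, k) +
        u (x + (0 : ℝ) • v) (i, j) * H (j, k))) * u (x + (0 : ℝ) • v) (k, i) +
        (∑ j, u (x + (0 : ℝ) • v) (i, j) * u (x + (0 : ℝ) • v) (j, k)) * H (k, i))) 0 := by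
    have h := HasDerivAt.fun_sum (u := Finset.univ) fun (i : Fin 3) _ =>
      HasDerivAt.fun_sum (u := Finset.univ) fun (k : Fin 3) _ =>
        (HasDerivAt.fun_sum (u := Finset.univ) fun (j : Fin 3) _ =>
          (hc i j).mul (hc j k)).mul (hc k i)
    exact h
  have e1 := hq.unique (((((htr.fun_pow 2).add (htr.const_mul 2)).sub_const 4)
    ).congr_of_eventuallyEq (hev.mono fun t ht => (traces ht).1))
  have e2 := hr.unique ((htr.fun_pow 3).congr_of_eventuallyEq (hev.mono fun t ht => (traces ht).2))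
  rw [hx0] at e1 e2
  have hD : (lam (u x)) ^ 2 - tt (u x) ≠ 0 := (hA04.1 (u x)).ne'
  have hlam : lam (u x) = (toM (u x)).trace := rfl
  have htt : tt (u x) = lam (u x) - 2 := rfl
  have f1 : (toM (u x) * toM H).trace = lam (u x) * (toM H).trace + (toM H).trace := by
    have h1 : ∑ i, ∑ j, (H (i, j) * u x (j, i) + u x (i, j) * H (j, i)) =
        2 * (toM (u x) * toM H).trace := by
      simp only [Matrix.trace_fin_three, Matrix.mul_apply, Fin.sum_univ_three, toM,
        Matrix.of_apply]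
      ring
    rw [h1] at e1
    rw [hlam]
    norm_num at e1
    linear_combination e1 / 2
  have f2 : (toM (u x) * toM (u x) * toM H).trace = (lam (u x)) ^ 2 * (toM H).trace := by
    have h1 : ∑ i, ∑ k, ((∑ j, (H (i, j) * u x (j, k) + u x (i, j) * H (j, k))) * u x (k, i) +
        (∑ j, u x (i, j) * u x (j, k)) * H (k, i)) =
        3 * (toM (u x) * toM (u x) * toM H).trace := by
      simp only [Matrix.trace_fin_three, Matrix.mul_apply, Fin.sum_univ_three, toM,
        Matrix.of_apply]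
      ring
    rw [h1] at e2
    rw [hlam]
    norm_num at e2
    linear_combination e2 / 3
  have g1 : (ell (u x) * toM H).trace = (toM H).trace := by
    unfold ell
    rw [Matrix.smul_mul, Matrix.trace_smul, Matrix.sub_mul, Matrix.trace_sub, f2,
      Matrix.smul_mul, Matrix.one_mul, Matrix.trace_smul, smul_eq_mul, smul_eq_mul]
    field_simp
  refine ⟨?_, ?_, ?_⟩
  · ext i j
    exact hsym j i
  · unfold Pp
    rw [Matrix.sub_mul, Matrix.trace_sub, g1, Matrix.one_mul, sub_self]
  · unfold Zz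
    rw [Matrix.sub_mul, Matrix.sub_mul, Matrix.trace_sub, Matrix.trace_sub, g1, f1,
      Matrix.smul_mul, Matrix.trace_smul, g1, smul_eq_mul]
    ring

end Pool.Agent.FUE
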