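import Pool.Agent.FUE.StA

/-!
# FUE / A07: `theta` is smooth, linear in `H` and equivariant (module by helper13)
-/

set_option autoImplicit false

open scoped Manifold ContDiff Matrix

namespace Pool.Agent.FUE

namespace A07x

/-- smooth families of matrices -/
def CM {X : Type} [NormedAddCommGroup X] [NormedSpace ℝ X] (A : X → Matrix (Fin 3) (Fin 3) ℝ) :
    Prop := ∀ i j, ContDiff ℝ ∞ (fun p => A p i j)

section smooth

variable {X : Type} [NormedAddCommGroup X] [NormedSpace ℝ X]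

theorem CM.mul {A B : X → Matrix (Fin 3) (Fin 3) ℝ} (hA : CM A) (hB : CM B) :
    CM (fun p => A p * B p) := by
  intro i j
  have h : (fun p => (A p * B p) i j) = fun p => ∑ k, A p i k * B p k j := by
    funext p; exact Matrix.mul_apply
  rw [h]
  exact ContDiff.sum fun k _ => (hA i k).mul (hB k j)

theorem CM.add {A B : X → Matrix (Fin 3) (Fin 3) ℝ} (hA : CM A) (hB : CM B) :
    CM (fun p => A p + B p) := fun i j => (hA i j).add (hB i j)

theorem CM.sub {A B : X → Matrix (Fin 3) (Fin 3) ℝ} (hA : CM A) (hB : CM B) :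
    CM (fun p => A p - B p) := fun i j => (hA i j).sub (hB i j)

theorem CM.transpose {A : X → Matrix (Fin 3) (Fin 3) ℝ} (hA : CM A) :
    CM (fun p => (A p)ᵀ) := fun i j => hA j i

theorem CM.smul {f : X → ℝ} {A : X → Matrix (Fin 3) (Fin 3) ℝ} (hf : ContDiff ℝ ∞ f) (hA : CM A) :
    CM (fun p => f p • A p) := fun i j => hf.mul (hA i j)

theorem CM.const (A : Matrix (Fin 3) (Fin 3) ℝ) : CM (fun _ : X => A) := fun _ _ => contDiff_const

theorem CM.trace {A : X → Matrix (Fin 3) (Fin 3) ℝ} (hA : CM A) :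
    ContDiff ℝ ∞ (fun p => (A p).trace) := by
  have h : (fun p => (A p).trace) = fun p => ∑ i, A p i i := rfl
  rw [h]
  exact ContDiff.sum fun i _ => hA i i

theorem ax_eq (A : Matrix (Fin 3) (Fin 3) ℝ) (l : Fin 3) : ax A l = A (l + 2) (l + 1) := by
  fin_cases l <;> rfl

theorem CM.ax {A : X → Matrix (Fin 3) (Fin 3) ℝ} (hA : CM A) (l : Fin 3) :
    ContDiff ℝ ∞ (fun p => ax (A p) l) := by
  have h : (fun p => FUE.ax (A p) l) = fun p => A p (l + 2) (l + 1) := by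
    funext p; exact ax_eq _ l
  rw [h]
  exact hA _ _

theorem CM.mulVec {A : X → Matrix (Fin 3) (Fin 3) ℝ} {v : X → Fin 3 → ℝ} (hA : CM A)
    (hv : ∀ l, ContDiff ℝ ∞ (fun p => v p l)) (l : Fin 3) :
    ContDiff ℝ ∞ (fun p => (A p).mulVec (v p) l) := by
  have h : (fun p => (A p).mulVec (v p) l) = fun p => ∑ k, A p l k * v p k := rfl
  rw [h]
  exact ContDiff.sum fun k _ => (hA l k).mul (hv k)

theorem cm_toM {P : X → V9} (hP : ContDiff ℝ ∞ P) : CM (fun p => toM (P p)) := fun i j =>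
  (contDiff_euclidean.1 hP) (i, j)

variable {P : X → V9} (hP : ContDiff ℝ ∞ P)

include hP

theorem c_lam : ContDiff ℝ ∞ (fun p => lam (P p)) := (cm_toM hP).trace

theorem c_tt : ContDiff ℝ ∞ (fun p => tt (P p)) := (cm_toM hP).trace.sub contDiff_const

theorem c_inv (h : ∀ P : V9, 0 < (lam P) ^ 2 - tt P) :
    ContDiff ℝ ∞ (fun p => ((lam (P p)) ^ 2 - tt (P p))⁻¹) :=
  (((c_lam hP).pow 2).sub (c_tt hP)).inv fun p => (h (P p)).ne'

theorem cm_ell (h : ∀ P : V9, 0 < (lam P) ^ 2 - tt P) : CM (fun p => ell (P p)) :=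
  CM.smul (c_inv hP h) (((cm_toM hP).mul (cm_toM hP)).sub (CM.smul (c_tt hP) (CM.const 1)))

theorem cm_Zz (h : ∀ P : V9, 0 < (lam P) ^ 2 - tt P) : CM (fun p => Zz (P p)) :=
  (cm_toM hP).sub (CM.smul (c_lam hP) (cm_ell hP h))

theorem cm_Pp (h : ∀ P : V9, 0 < (lam P) ^ 2 - tt P) : CM (fun p => Pp (P p)) :=
  (CM.const 1).sub (cm_ell hP h)

theorem cm_Xi (h : ∀ P : V9, 0 < (lam P) ^ 2 - tt P) {H : X → Matrix (Fin 3) (Fin 3) ℝ}
    (hH : CM H) : CM (fun p => Xi (P p) (H p)) :=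
  CM.smul (c_inv hP h) (((((CM.smul (c_lam hP) (CM.const 1)).add (cm_Zz hP h)).mul
    (cm_Pp hP h)).mul hH).mul (cm_ell hP h))

theorem c_vv (h : ∀ P : V9, 0 < (lam P) ^ 2 - tt P) {H : X → Matrix (Fin 3) (Fin 3) ℝ}
    (hH : CM H) (l : Fin 3) : ContDiff ℝ ∞ (fun p => vv (P p) (H p) l) :=
  ((cm_Xi hP h hH).sub (cm_Xi hP h hH).transpose).ax l

theorem c_th (h : ∀ P : V9, 0 < (lam P) ^ 2 - tt P) (pr : Profile)
    {H : X → Matrix (Fin 3) (Fin 3) ℝ} (hH : CM H) (l : Fin 3) :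
    ContDiff ℝ ∞ (fun p => th (P p) pr (H p) l) := by
  have hal : ContDiff ℝ ∞ (fun p => pr.al (tt (P p))) := pr.smooth_al.comp (c_tt hP)
  have hbe : ContDiff ℝ ∞ (fun p => pr.be (tt (P p))) := pr.smooth_be.comp (c_tt hP)
  have hka : ContDiff ℝ ∞ (fun p => pr.ka (tt (P p))) := pr.smooth_ka.comp (c_tt hP)
  have hB := ((cm_Pp hP h).mul hH).mul (cm_Pp hP h)
  have hC := ((cm_Zz hP h).mul hB).sub (hB.mul (cm_Zz hP h))
  have h1 := ((hal.mul hka).div_const 2).neg.mul (hC.ax l)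
  have h2 := ((((c_tt hP).mul (hka.pow 2)).sub (hbe.pow 2)).add
    (((c_tt hP).mul hal).mul hka)).mul (c_vv hP h hH l)
  have h3 := (hal.mul hbe).mul ((cm_Zz hP h).mulVec (fun l => c_vv hP h hH l) l)
  exact contDiff_const.mul ((h1.add h2).add h3)

end smooth

/-! ### linearity -/

theorem toM_lin (H H' : V9) (r : ℝ) : toM (H + r • H') = toM H + r • toM H' := by
  ext i j
  simp [toM]

theorem ax_lin (A B : Matrix (Fin 3) (Fin 3) ℝ) (r : ℝ) : ax (A + r • B) = ax A + r • ax B := by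
  funext l
  simp only [ax_eq, Pi.add_apply, Pi.smul_apply, Matrix.add_apply, Matrix.smul_apply]

theorem Xi_lin (P : V9) (A B : Matrix (Fin 3) (Fin 3) ℝ) (r : ℝ) :
    Xi P (A + r • B) = Xi P A + r • Xi P B := by
  unfold Xi
  rw [Matrix.mul_add, Matrix.add_mul, smul_add, Matrix.mul_smul, Matrix.smul_mul, smul_comm]

theorem vv_lin (P : V9) (A B : Matrix (Fin 3) (Fin 3) ℝ) (r : ℝ) :
    vv P (A + r • B) = vv P A + r • vv P B := by
  unfold vv
  rw [Xi_lin, ← ax_lin, Matrix.transpose_add, Matrix.transpose_smul]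
  congr 1
  rw [smul_sub]
  abel

theorem th_lin (pr : Profile) (P : V9) (A B : Matrix (Fin 3) (Fin 3) ℝ) (r : ℝ) (l : Fin 3) :
    th P pr (A + r • B) l = th P pr A l + r * th P pr B l := by
  have h1 : Zz P * (Pp P * (A + r • B) * Pp P) - (Pp P * (A + r • B) * Pp P) * Zz P =
      (Zz P * (Pp P * A * Pp P) - (Pp P * A * Pp P) * Zz P) +
        r • (Zz P * (Pp P * B * Pp P) - (Pp P * B * Pp P) * Zz P) := by
    simp only [Matrix.mul_add, Matrix.add_mul, Matrix.mul_smul, Matrix.smul_mul, smul_sub]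
    abel
  unfold th
  rw [h1, ax_lin, vv_lin, Matrix.mulVec_add, Matrix.mulVec_smul]
  simp only [Pi.add_apply, Pi.smul_apply, smul_eq_mul]
  ring

/-! ### equivariance -/

theorem ax_cof (M A : Matrix (Fin 3) (Fin 3) ℝ) (hA : Aᵀ = -A) :
    ax (M * A * Mᵀ) = (M.adjugate)ᵀ.mulVec (ax A) := by
  have e : ∀ i j, A j i = -A i j := fun i j => congrFun (congrFun hA i) j
  have d0 : A 0 0 = 0 := by have := e 0 0; linarith
  have d1 : A 1 1 = 0 := by have := e 1 1; linarith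
  have d2 : A 2 2 = 0 := by have := e 2 2; linarith
  have h01 : A 0 1 = -A 1 0 := e 1 0
  have h20 : A 2 0 = -A 0 2 := e 0 2
  have h12 : A 1 2 = -A 2 1 := e 2 1
  rw [Matrix.adjugate_fin_three]
  funext l
  fin_cases l <;>
  · simp [ax, Matrix.mul_apply, Matrix.mulVec, dotProduct, Fin.sum_univ_three, d0, d1, d2, h01, h20,
      h12]
    ring

section rot

variable {R : Matrix (Fin 3) (Fin 3) ℝ} (hR : IsRot R)

include hR

theorem rot_inv : R * Rᵀ = 1 := mul_eq_one_comm.1 hR.1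

theorem rot_adj : (R.adjugate)ᵀ = R := by
  have h1 : R.adjugate = Rᵀ := by
    have h2 : R.adjugate * R = 1 := by rw [Matrix.adjugate_mul, hR.2, one_smul]
    calc R.adjugate = R.adjugate * (R * Rᵀ) := by rw [rot_inv hR, Matrix.mul_one]
      _ = Rᵀ := by rw [← Matrix.mul_assoc, h2, Matrix.one_mul]
  rw [h1, Matrix.transpose_transpose]

theorem ax_rot (A : Matrix (Fin 3) (Fin 3) ℝ) (hA : Aᵀ = -A) :
    ax (R * A * Rᵀ) = R.mulVec (ax A) := by
  rw [ax_cof R A hA, rot_adj hR]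

theorem conj_mul (A B : Matrix (Fin 3) (Fin 3) ℝ) :
    (R * A * Rᵀ) * (R * B * Rᵀ) = R * (A * B) * Rᵀ := by
  calc (R * A * Rᵀ) * (R * B * Rᵀ) = R * A * (Rᵀ * R) * B * Rᵀ := by simp only [Matrix.mul_assoc]
    _ = R * (A * B) * Rᵀ := by rw [hR.1, Matrix.mul_one, Matrix.mul_assoc R A B]

theorem conj_one : R * 1 * Rᵀ = 1 := by rw [Matrix.mul_one, rot_inv hR]

theorem conj_trace (A : Matrix (Fin 3) (Fin 3) ℝ) : (R * A * Rᵀ).trace = A.trace := by
  rw [Matrix.trace_mul_comm, ← Matrix.mul_assoc, hR.1, Matrix.one_mul]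

theorem conj_mulVec (A : Matrix (Fin 3) (Fin 3) ℝ) (v : Fin 3 → ℝ) :
    (R * A * Rᵀ).mulVec (R.mulVec v) = R.mulVec (A.mulVec v) := by
  rw [Matrix.mulVec_mulVec, Matrix.mulVec_mulVec, Matrix.mul_assoc, hR.1, Matrix.mul_one]

variable {P Q : V9} (hQ : toM Q = R * toM P * Rᵀ)

include hQ

theorem lam_rot : lam Q = lam P := by
  unfold lam; rw [hQ, conj_trace hR]

theorem tt_rot : tt Q = tt P := by
  unfold tt; rw [hQ, conj_trace hR]

theorem ell_rot : ell Q = R * ell P * Rᵀ := by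
  unfold ell
  rw [lam_rot hR hQ, tt_rot hR hQ, hQ, conj_mul hR, Matrix.mul_smul, Matrix.smul_mul,
    Matrix.mul_sub, Matrix.sub_mul, Matrix.mul_smul, Matrix.smul_mul, conj_one hR]

theorem Zz_rot : Zz Q = R * Zz P * Rᵀ := by
  unfold Zz
  rw [lam_rot hR hQ, ell_rot hR hQ, hQ, Matrix.mul_sub, Matrix.sub_mul, Matrix.mul_smul,
    Matrix.smul_mul]

theorem Pp_rot : Pp Q = R * Pp P * Rᵀ := by
  unfold Pp
  rw [ell_rot hR hQ, Matrix.mul_sub, Matrix.sub_mul, conj_one hR]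

theorem Xi_rot (H : Matrix (Fin 3) (Fin 3) ℝ) : Xi Q (R * H * Rᵀ) = R * Xi P H * Rᵀ := by
  have h1 : (lam P) • (1 : Matrix (Fin 3) (Fin 3) ℝ) + R * Zz P * Rᵀ =
      R * ((lam P) • (1 : Matrix (Fin 3) (Fin 3) ℝ) + Zz P) * Rᵀ := by
    rw [Matrix.mul_add, Matrix.add_mul, Matrix.mul_smul, Matrix.smul_mul, conj_one hR]
  unfold Xi
  rw [lam_rot hR hQ, tt_rot hR hQ, Zz_rot hR hQ, Pp_rot hR hQ, ell_rot hR hQ, h1, conj_mul hR,
    conj_mul hR, conj_mul hR, Matrix.mul_smul, Matrix.smul_mul]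

theorem vv_rot (H : Matrix (Fin 3) (Fin 3) ℝ) : vv Q (R * H * Rᵀ) = R.mulVec (vv P H) := by
  unfold vv
  rw [Xi_rot hR hQ, ← ax_rot hR _ (by
    rw [Matrix.transpose_sub, Matrix.transpose_transpose, neg_sub])]
  congr 1
  rw [Matrix.mul_sub, Matrix.sub_mul]
  congr 1
  rw [Matrix.transpose_mul, Matrix.transpose_mul, Matrix.transpose_transpose, Matrix.mul_assoc]

theorem th_rot (pr : Profile) (hP : (toM P)ᵀ = toM P) (H : Matrix (Fin 3) (Fin 3) ℝ)
    (hH : Hᵀ = H) : th Q pr (R * H * Rᵀ) = R.mulVec (th P pr H) := by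
  have s1 : (ell P)ᵀ = ell P := by
    unfold ell
    rw [Matrix.transpose_smul, Matrix.transpose_sub, Matrix.transpose_mul, hP,
      Matrix.transpose_smul, Matrix.transpose_one]
  have s2 : (Zz P)ᵀ = Zz P := by
    unfold Zz
    rw [Matrix.transpose_sub, Matrix.transpose_smul, hP, s1]
  have s3 : (Pp P)ᵀ = Pp P := by
    unfold Pp
    rw [Matrix.transpose_sub, Matrix.transpose_one, s1]
  have s4 : (Pp P * H * Pp P)ᵀ = Pp P * H * Pp P := by
    rw [Matrix.transpose_mul, Matrix.transpose_mul, s3, hH, Matrix.mul_assoc]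
  have s5 : (Zz P * (Pp P * H * Pp P) - (Pp P * H * Pp P) * Zz P)ᵀ =
      -(Zz P * (Pp P * H * Pp P) - (Pp P * H * Pp P) * Zz P) := by
    rw [Matrix.transpose_sub, Matrix.transpose_mul (Zz P), Matrix.transpose_mul _ (Zz P), s2, s4,
      neg_sub]
  have s6 : Zz Q * (Pp Q * (R * H * Rᵀ) * Pp Q) - (Pp Q * (R * H * Rᵀ) * Pp Q) * Zz Q =
      R * (Zz P * (Pp P * H * Pp P) - (Pp P * H * Pp P) * Zz P) * Rᵀ := by
    rw [Zz_rot hR hQ, Pp_rot hR hQ, conj_mul hR, conj_mul hR, conj_mul hR, conj_mul hR,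
      Matrix.mul_sub, Matrix.sub_mul]
  unfold th
  rw [s6, ax_rot hR _ s5, vv_rot hR hQ, tt_rot hR hQ, Zz_rot hR hQ, conj_mulVec hR,
    Matrix.mulVec_smul, Matrix.mulVec_add, Matrix.mulVec_add, Matrix.mulVec_smul,
    Matrix.mulVec_smul, Matrix.mulVec_smul]

end rot

end A07x

open A07x

theorem thm_A07 (hA04 : St_A04) : St_A07 := by
  refine ⟨fun pr l => ?_, fun pr P H H' r l => ?_, fun pr R hR P Q H K hP hH hQ hK => ?_⟩
  · exact c_th contDiff_fst hA04.1 pr (cm_toM contDiff_snd) l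
  · rw [toM_lin, th_lin]
  · rw [hK, th_rot hR hQ pr hP _ hH]

end Pool.Agent.FUE
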