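import Pool.Agent.FUE.StA

/-!
# Fueter sections: values of `theta` ([A08])
-/

set_option autoImplicit false

open scoped Manifold ContDiff Matrix

namespace Pool.Agent.FUE

namespace A08x

theorem adj_rot (R : Matrix (Fin 3) (Fin 3) ℝ) (hR : IsRot R) : R.adjugate = Rᵀ := by
  calc R.adjugate = (Rᵀ * R) * R.adjugate := by rw [hR.1, Matrix.one_mul]
    _ = Rᵀ * (R * R.adjugate) := by rw [Matrix.mul_assoc]
    _ = Rᵀ := by rw [Matrix.mul_adjugate, hR.2, one_smul, Matrix.mul_one]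

/-- `ax` of a conjugated antisymmetric matrix -/
theorem ax_conj (R : Matrix (Fin 3) (Fin 3) ℝ) (hR : IsRot R) (x y z : ℝ) :
    ax (R * !![0, -z, y; z, 0, -x; -y, x, 0] * Rᵀ) = R.mulVec ![x, y, z] := by
  have hadj := adj_rot R hR
  rw [Matrix.adjugate_fin_three] at hadj
  have h00 := congr_fun (congr_fun hadj 0) 0
  have h01 := congr_fun (congr_fun hadj 0) 1
  have h02 := congr_fun (congr_fun hadj 0) 2
  have h10 := congr_fun (congr_fun hadj 1) 0
  have h11 := congr_fun (congr_fun hadj 1) 1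
  have h12 := congr_fun (congr_fun hadj 1) 2
  have h20 := congr_fun (congr_fun hadj 2) 0
  have h21 := congr_fun (congr_fun hadj 2) 1
  have h22 := congr_fun (congr_fun hadj 2) 2
  simp [Matrix.transpose_apply] at h00 h01 h02 h10 h11 h12 h20 h21 h22
  funext i
  fin_cases i
  · simp [ax, Matrix.mul_apply, Fin.sum_univ_three, Matrix.mulVec, dotProduct,
      Matrix.transpose_apply]
    linear_combination (x) * h00 + (y) * h10 + (z) * h20
  · simp [ax, Matrix.mul_apply, Fin.sum_univ_three, Matrix.mulVec, dotProduct,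
      Matrix.transpose_apply]
    linear_combination (x) * h01 + (y) * h11 + (z) * h21
  · simp [ax, Matrix.mul_apply, Fin.sum_univ_three, Matrix.mulVec, dotProduct,
      Matrix.transpose_apply]
    linear_combination (x) * h02 + (y) * h12 + (z) * h22

/-- product of two conjugated matrices -/
theorem cmul (R : Matrix (Fin 3) (Fin 3) ℝ) (hR : IsRot R) (A B : Matrix (Fin 3) (Fin 3) ℝ) :
    (R * A * Rᵀ) * (R * B * Rᵀ) = R * (A * B) * Rᵀ := by
  calc (R * A * Rᵀ) * (R * B * Rᵀ) = R * A * (Rᵀ * R) * B * Rᵀ := by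
        simp only [Matrix.mul_assoc]
    _ = R * (A * B) * Rᵀ := by rw [hR.1, Matrix.mul_one, Matrix.mul_assoc R A B]

theorem csub (R A B : Matrix (Fin 3) (Fin 3) ℝ) :
    R * A * Rᵀ - R * B * Rᵀ = R * (A - B) * Rᵀ := by
  rw [Matrix.mul_sub, Matrix.sub_mul]

theorem csmul (R A : Matrix (Fin 3) (Fin 3) ℝ) (t : ℝ) :
    t • (R * A * Rᵀ) = R * (t • A) * Rᵀ := by
  rw [Matrix.mul_smul, Matrix.smul_mul]

theorem ctr (R A : Matrix (Fin 3) (Fin 3) ℝ) : (R * A * Rᵀ)ᵀ = R * Aᵀ * Rᵀ := by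
  rw [Matrix.transpose_mul, Matrix.transpose_mul, Matrix.transpose_transpose, Matrix.mul_assoc]

/-- the explicit form of `∑ h_k T_k` -/
theorem K_eq (s : ℝ) (h : Fin 4 → ℝ) : (∑ k, h k • Tb s k) =
    !![2 * s * h 0, (2 + s ^ 2 - s) * h 3, -(2 + s ^ 2 + s) * h 2;
      (2 + s ^ 2 - s) * h 3, h 0, h 1; -(2 + s ^ 2 + s) * h 2, h 1, -h 0] := by
  rw [Fin.sum_univ_four]
  ext i j
  fin_cases i <;> fin_cases j <;> simp [Tb] <;> ring

end A08x

open A08x in
theorem thm_A08 (hA04 : St_A04) : St_A08 := by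
  intro pr P H R s h hR _hs hP hH
  obtain ⟨hlam, htt, hell, hZ, hPp⟩ := hA04.2 P R s hR hP
  have hpos := hA04.1 P
  rw [hlam, htt] at hpos
  rw [K_eq] at hH
  have hRR : R * Rᵀ = 1 := mul_eq_one_comm.mp hR.1
  have hXi : Xi P (toM H) = R * !![0, 0, 0; h 3, 0, 0; -h 2, 0, 0] * Rᵀ := by
    have h1 : (lam P) • (1 : Matrix (Fin 3) (Fin 3) ℝ) + Zz P =
        R * Matrix.diagonal ![2 + s ^ 2, 2 + s ^ 2 + s, 2 + s ^ 2 - s] * Rᵀ := by
      have h2 : (1 : Matrix (Fin 3) (Fin 3) ℝ) = R * 1 * Rᵀ := by rw [Matrix.mul_one, hRR]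
      rw [hlam, hZ, h2, csmul, ← Matrix.add_mul, ← Matrix.mul_add]
      congr 2
      ext i j
      fin_cases i <;> fin_cases j <;> simp [Matrix.diagonal]
      ring
    unfold Xi
    rw [h1, hPp, hH, hell, cmul R hR, cmul R hR, cmul R hR, hlam, htt, csmul]
    congr 2
    ext i j
    fin_cases i <;> fin_cases j <;>
      simp [Matrix.diagonal, Matrix.mul_apply]
    · field_simp
      ring
    · field_simp
      ring
  have hvv : vv P (toM H) = R.mulVec ![0, h 2, h 3] := by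
    unfold vv
    rw [hXi, ctr, csub, ← ax_conj R hR]
    congr 3
    ext i j
    fin_cases i <;> fin_cases j <;> simp
  have hZB : ax (Zz P * (Pp P * toM H * Pp P) - (Pp P * toM H * Pp P) * Zz P) =
      R.mulVec ![-(2 * s * h 1), 0, 0] := by
    rw [hPp, hH, hZ, cmul R hR, cmul R hR, cmul R hR, cmul R hR, csub, ← ax_conj R hR]
    congr 3
    ext i j
    fin_cases i <;> fin_cases j <;>
      simp [Matrix.diagonal, Matrix.mul_apply] <;> ring
  have hD : (Matrix.diagonal ![0, s, -s]).mulVec ![0, h 2, h 3] = ![0, s * h 2, -s * h 3] := by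
    funext i
    rw [Matrix.mulVec_diagonal]
    fin_cases i <;> simp
  unfold th
  rw [hZB, hvv, htt, hZ, Matrix.mulVec_mulVec, Matrix.mul_assoc, hR.1, Matrix.mul_one,
    ← Matrix.mulVec_mulVec, hD, ← Matrix.mulVec_smul, ← Matrix.mulVec_smul, ← Matrix.mulVec_smul,
    ← Matrix.mulVec_add, ← Matrix.mulVec_add, ← Matrix.mulVec_smul]
  congr 1
  funext i
  fin_cases i <;>
    simp [Profile.a, Profile.b, Profile.c] <;> ring

end Pool.Agent.FUE
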