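import Pool.Agent.FUE.StA

/-!
# FUE/A09 (helper95): the chain rule computation for `theta`
-/

set_option autoImplicit false
set_option linter.unusedVariables false
set_option linter.unusedSimpArgs false

open scoped Manifold ContDiff Matrix
open MeasureTheory

namespace Pool.Agent.FUE.A09x

/-- `f` is differentiable at `y` with derivative `d` in the direction `v` -/
def DV (f : E3 → ℝ) (y v : E3) (d : ℝ) : Prop := DifferentiableAt ℝ f y ∧ fderiv ℝ f y v = d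

theorem DV.of_diff {f : E3 → ℝ} {y : E3} (h : DifferentiableAt ℝ f y) (v : E3) : DV f y v (fderiv ℝ f y v) := ⟨h, rfl⟩

theorem DV.uniq {f : E3 → ℝ} {y v : E3} {d e : ℝ} (h : DV f y v d) (h' : DV f y v e) : d = e := h.2.symm.trans h'.2

theorem DV.congr {f g : E3 → ℝ} {y v : E3} {d : ℝ} (h : DV g y v d) (hfg : f =ᶠ[nhds y] g) : DV f y v d :=
  ⟨hfg.differentiableAt_iff.2 h.1, by rw [hfg.fderiv_eq]; exact h.2⟩

theorem DV.cst (c : ℝ) (y v : E3) : DV (fun _ => c) y v 0 := ⟨differentiableAt_const c, by simp⟩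

theorem DV.add {f g : E3 → ℝ} {y v : E3} {d e : ℝ} (h : DV f y v d) (h' : DV g y v e) : DV (fun z => f z + g z) y v (d + e) := by
  refine ⟨h.1.add h'.1, ?_⟩
  rw [fderiv_fun_add h.1 h'.1, add_apply, h.2, h'.2]

theorem DV.sub {f g : E3 → ℝ} {y v : E3} {d e : ℝ} (h : DV f y v d) (h' : DV g y v e) : DV (fun z => f z - g z) y v (d - e) := by
  refine ⟨h.1.sub h'.1, ?_⟩
  rw [fderiv_fun_sub h.1 h'.1, sub_apply, h.2, h'.2]

theorem DV.mul {f g : E3 → ℝ} {y v : E3} {d e : ℝ} (h : DV f y v d) (h' : DV g y v e) :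
    DV (fun z => f z * g z) y v (d * g y + f y * e) := by
  refine ⟨h.1.mul h'.1, ?_⟩
  rw [fderiv_fun_mul h.1 h'.1]
  simp only [add_apply, smul_apply, smul_eq_mul, h.2, h'.2]
  ring

theorem DV.comp {f : E3 → ℝ} {y v : E3} {d : ℝ} {φ : ℝ → ℝ} {φ' : ℝ} (h : DV f y v d) (hφ : HasDerivAt φ φ' (f y)) :
    DV (fun z => φ (f z)) y v (φ' * d) := by
  have h1 : HasFDerivAt (fun z => φ (f z)) (φ' • fderiv ℝ f y) y := hφ.comp_hasFDerivAt y h.1.hasFDerivAt
  refine ⟨h1.differentiableAt, ?_⟩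
  rw [h1.fderiv, smul_apply, h.2, smul_eq_mul]

theorem DV.sum {ι : Type} [Fintype ι] {f : ι → E3 → ℝ} {y v : E3} {d : ι → ℝ} (h : ∀ i, DV (f i) y v (d i)) :
    DV (fun z => ∑ i, f i z) y v (∑ i, d i) := by
  have h1 : HasFDerivAt (fun z => ∑ i, f i z) (∑ i, fderiv ℝ (f i) y) y :=
    HasFDerivAt.fun_sum (fun i _ => (h i).1.hasFDerivAt)
  refine ⟨h1.differentiableAt, ?_⟩
  rw [h1.fderiv, sum_apply]
  exact Finset.sum_congr rfl (fun i _ => (h i).2)

/-- matrix valued functions -/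
def DM (A : E3 → Matrix (Fin 3) (Fin 3) ℝ) (y v : E3) (D : Matrix (Fin 3) (Fin 3) ℝ) : Prop :=
  ∀ i j, DV (fun z => A z i j) y v (D i j)

theorem DM.uniq {A : E3 → Matrix (Fin 3) (Fin 3) ℝ} {y v : E3} {D D' : Matrix (Fin 3) (Fin 3) ℝ} (h : DM A y v D) (h' : DM A y v D') :
    D = D' := by
  ext i j
  exact (h i j).uniq (h' i j)

theorem DM.congr {A B : E3 → Matrix (Fin 3) (Fin 3) ℝ} {y v : E3} {D : Matrix (Fin 3) (Fin 3) ℝ} (h : DM B y v D) (hAB : A =ᶠ[nhds y] B) :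
    DM A y v D := by
  intro i j
  refine (h i j).congr ?_
  filter_upwards [hAB] with z hz
  rw [hz]

theorem DM.cst (C : Matrix (Fin 3) (Fin 3) ℝ) (y v : E3) : DM (fun _ => C) y v 0 := fun i j => DV.cst _ y v

theorem DM.tr {A : E3 → Matrix (Fin 3) (Fin 3) ℝ} {y v : E3} {D : Matrix (Fin 3) (Fin 3) ℝ} (h : DM A y v D) :
    DM (fun z => (A z)ᵀ) y v Dᵀ := fun i j => h j i

theorem DM.mul {A B : E3 → Matrix (Fin 3) (Fin 3) ℝ} {y v : E3} {D E : Matrix (Fin 3) (Fin 3) ℝ} (h : DM A y v D) (h' : DM B y v E) :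
    DM (fun z => A z * B z) y v (D * B y + A y * E) := by
  intro i j
  have h1 := DV.sum (fun k => (h i k).mul (h' k j))
  have e : (D * B y + A y * E) i j = ∑ k, (D i k * B y k j + A y i k * E k j) := by
    rw [Matrix.add_apply, Matrix.mul_apply, Matrix.mul_apply, ← Finset.sum_add_distrib]
  rw [e]
  simpa only [Matrix.mul_apply] using h1

/-- the diagonal matrix -/
theorem DM_Dg {s : E3 → ℝ} {y v : E3} {d : ℝ} (h : DV s y v d) : DM (fun z => Dg (s z)) y v (d • Tb (s y) 0) := by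
  intro i j
  have hd : DV (fun z => 2 + s z ^ 2) y v (d * (2 * s y)) := by
    have h1 := h.comp (φ := fun t : ℝ => 2 + t ^ 2) (φ' := 2 * s y) (by
      have h2 := (hasDerivAt_pow 2 (s y)).const_add (2 : ℝ)
      simpa using h2)
    rw [mul_comm]
    exact h1
  have hn : DV (fun z => -s z) y v (-d) := by
    have h1 := h.comp (φ := fun t : ℝ => -t) (φ' := -1) (hasDerivAt_neg (s y))
    rwa [neg_one_mul] at h1
  have h0 : DV (fun _ => (0 : ℝ)) y v 0 := DV.cst 0 y v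
  fin_cases i <;> fin_cases j <;> simp [Dg, Tb] <;> first | exact h0 | exact h | exact hd | exact hn

theorem DM_u {u : E3 → V9} {y v : E3} {D : Matrix (Fin 3) (Fin 3) ℝ} (h : DM (fun z => toM (u z)) y v D) :
    toM (fderiv ℝ u y v) = D := by
  have hd : DifferentiableAt ℝ u y := by
    rw [differentiableAt_euclidean]
    rintro ⟨i, j⟩
    exact (h i j).1
  ext i j
  have h1 : HasFDerivAt (fun z => u z (i, j)) ((EuclideanSpace.proj (i, j) : V9 →L[ℝ] ℝ) ∘L (fderiv ℝ u y)) y :=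
    (EuclideanSpace.proj (i, j) : V9 →L[ℝ] ℝ).hasFDerivAt.comp y hd.hasFDerivAt
  have h2 := (h i j).2
  rw [← h2]
  have h3 : fderiv ℝ (fun z => toM (u z) i j) y = (EuclideanSpace.proj (i, j) : V9 →L[ℝ] ℝ) ∘L (fderiv ℝ u y) := h1.fderiv
  rw [h3]
  rfl

/-- the derivative of the entries of `R` -/
noncomputable def Rd (R : E3 → Matrix (Fin 3) (Fin 3) ℝ) (j : Fin 3) (y : E3) : Matrix (Fin 3) (Fin 3) ℝ :=
  Matrix.of fun i l => fderiv ℝ (fun z => R z i l) y (bs j)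

/-- the angular velocity -/
noncomputable def Om (R : E3 → Matrix (Fin 3) (Fin 3) ℝ) (j : Fin 3) (y : E3) : Fin 3 → ℝ := ax ((R y)ᵀ * Rd R j y)

/-- the coefficients -/
noncomputable def hh (R : E3 → Matrix (Fin 3) (Fin 3) ℝ) (s : E3 → ℝ) (j : Fin 3) (y : E3) : Fin 4 → ℝ :=
  ![fderiv ℝ s y (bs j), 2 * s y * Om R j y 0, Om R j y 1, Om R j y 2]

theorem hat_of_anti (A : Matrix (Fin 3) (Fin 3) ℝ) (h : Aᵀ + A = 0) : A = hat (ax A) := by
  have e : ∀ i j, A j i + A i j = 0 := by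
    intro i j
    have := congrFun (congrFun h i) j
    simpa using this
  have e00 := e 0 0
  have e11 := e 1 1
  have e22 := e 2 2
  have e01 := e 0 1
  have e02 := e 0 2
  have e12 := e 1 2
  ext i j
  fin_cases i <;> fin_cases j <;> simp [hat, ax] <;> linarith

theorem hat_T (w : Fin 3 → ℝ) : (hat w)ᵀ = -hat w := by
  ext i j
  fin_cases i <;> fin_cases j <;> simp [hat]

/-- the good points -/
def Gd (R : E3 → Matrix (Fin 3) (Fin 3) ℝ) (s : E3 → ℝ) (u : E3 → V9) (y : E3) : Prop :=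
  (∀ᶠ z in nhds y, IsRot (R z) ∧ 0 < s z ∧ toM (u z) = R z * Dg (s z) * (R z)ᵀ) ∧
    (∀ i j, ContDiffAt ℝ 2 (fun z => R z i j) y) ∧ ContDiffAt ℝ 2 s y

theorem Gd.DR {R : E3 → Matrix (Fin 3) (Fin 3) ℝ} {s : E3 → ℝ} {u : E3 → V9} {y : E3} (h : Gd R s u y) (j : Fin 3) :
    DM R y (bs j) (Rd R j y) := by
  intro i l
  exact DV.of_diff ((h.2.1 i l).differentiableAt (by norm_num)) (bs j)

theorem Gd.rot {R : E3 → Matrix (Fin 3) (Fin 3) ℝ} {s : E3 → ℝ} {u : E3 → V9} {y : E3} (h : Gd R s u y) :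
    (R y)ᵀ * R y = 1 ∧ R y * (R y)ᵀ = 1 ∧ IsRot (R y) ∧ 0 < s y ∧ toM (u y) = R y * Dg (s y) * (R y)ᵀ := by
  have h1 := h.1.self_of_nhds
  exact ⟨h1.1.1, mul_eq_one_comm.1 h1.1.1, h1⟩

theorem Gd.anti {R : E3 → Matrix (Fin 3) (Fin 3) ℝ} {s : E3 → ℝ} {u : E3 → V9} {y : E3} (h : Gd R s u y) (j : Fin 3) :
    (R y)ᵀ * Rd R j y = hat (Om R j y) := by
  have h1 := (h.DR j).tr.mul (h.DR j)
  have h2 : DM (fun z => (R z)ᵀ * R z) y (bs j) 0 := by
    refine (DM.cst 1 y (bs j)).congr ?_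
    filter_upwards [h.1] with z hz
    exact hz.1.1
  have h3 := h1.uniq h2
  refine hat_of_anti _ ?_
  rw [Matrix.transpose_mul, Matrix.transpose_transpose]
  exact h3

theorem Gd.RO {R : E3 → Matrix (Fin 3) (Fin 3) ℝ} {s : E3 → ℝ} {u : E3 → V9} {y : E3} (h : Gd R s u y) (j : Fin 3) :
    Rd R j y = R y * hat (Om R j y) := by
  rw [← h.anti j, ← Matrix.mul_assoc, h.rot.2.1, Matrix.one_mul]

theorem brk (w : Fin 3 → ℝ) (s d : ℝ) :
    hat w * Dg s - Dg s * hat w + d • Tb s 0 = ∑ k, (![d, 2 * s * w 0, w 1, w 2] : Fin 4 → ℝ) k • Tb s k := by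
  rw [Fin.sum_univ_four]
  ext i j
  fin_cases i <;> fin_cases j <;> simp [hat, Dg, Tb, Matrix.mul_apply, Fin.sum_univ_three, Matrix.vecHead, Matrix.vecTail,
    Matrix.vecMul_diagonal] <;> ring

theorem Gd.du {R : E3 → Matrix (Fin 3) (Fin 3) ℝ} {s : E3 → ℝ} {u : E3 → V9} {y : E3} (h : Gd R s u y) (j : Fin 3) :
    toM (du u y j) = R y * (∑ k, hh R s j y k • Tb (s y) k) * (R y)ᵀ := by
  have hs : DV s y (bs j) (fderiv ℝ s y (bs j)) := DV.of_diff (h.2.2.differentiableAt (by norm_num)) (bs j)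
  have h1 := ((h.DR j).mul (DM_Dg hs)).mul (h.DR j).tr
  have h2 : DM (fun z => toM (u z)) y (bs j) _ := h1.congr (by
    filter_upwards [h.1] with z hz
    exact hz.2.2)
  have h3 := DM_u h2
  show toM (fderiv ℝ u y (bs j)) = _
  rw [h3, hh, ← brk, h.RO j, Matrix.transpose_mul, hat_T]
  simp only [Matrix.mul_add, Matrix.add_mul, Matrix.mul_sub, Matrix.sub_mul, Matrix.mul_assoc, Matrix.neg_mul, Matrix.mul_neg]
  abel

/-- the coefficients `Q` -/
noncomputable def Qf (pr : Profile) (t : ℝ) : Fin 3 → ℝ :=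
  ![pr.a t * (pr.b t + pr.c t), pr.b t * (pr.c t + pr.a t), pr.c t * (pr.a t + pr.b t)]

/-- their derivatives -/
noncomputable def Qd (pr : Profile) (t : ℝ) : Fin 3 → ℝ := ![2 * pr.a t, 2 * pr.b t, 2 * pr.c t]

theorem Q_der (hA01 : St_A01) (pr : Profile) (t : ℝ) (ht : 0 < t) (i : Fin 3) :
    HasDerivAt (fun r => Qf pr r i) (Qd pr t i) t := by
  obtain ⟨ha, da, db, dc⟩ := hA01.2.2.1 pr t ht
  obtain ⟨hb, hc, -, -, -⟩ := hA01.2.1 pr t ht.le
  have ha' := ha.ne'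
  have hb' := hb.ne'
  have hc' := hc.ne
  fin_cases i
  · show HasDerivAt (fun r => pr.a r * (pr.b r + pr.c r)) (2 * pr.a t) t
    refine (da.fun_mul (db.fun_add dc)).congr_deriv ?_
    field_simp
    ring
  · show HasDerivAt (fun r => pr.b r * (pr.c r + pr.a r)) (2 * pr.b t) t
    refine (db.fun_mul (dc.fun_add da)).congr_deriv ?_
    field_simp
    ring
  · show HasDerivAt (fun r => pr.c r * (pr.a r + pr.b r)) (2 * pr.c t) t
    refine (dc.fun_mul (da.fun_add db)).congr_deriv ?_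
    field_simp
    ring

theorem tu_eq (hA08 : St_A08) (pr : Profile) {R : E3 → Matrix (Fin 3) (Fin 3) ℝ} {s : E3 → ℝ} {u : E3 → V9} {y : E3}
    (h : Gd R s u y) (l b : Fin 3) :
    tu pr u l b y = ∑ i, R y l i * (1 / 2 * Qf pr (s y) i * Om R b y i) := by
  have h1 := hA08 pr (u y) (du u y b) (R y) (s y) (hh R s b y) h.rot.2.2.1 h.rot.2.2.2.1.le h.rot.2.2.2.2 (h.du b)
  show th (u y) pr (toM (du u y b)) l = _
  rw [h1, Matrix.mulVec, dotProduct, Fin.sum_univ_three, Fin.sum_univ_three]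
  simp [hh, Qf, Profile.a, Profile.b, Profile.c]
  ring

theorem DOm {R : E3 → Matrix (Fin 3) (Fin 3) ℝ} {s : E3 → ℝ} {u : E3 → V9} {x : E3}
    (h : Gd R s u x) (a b : Fin 3) (i : Fin 3) :
    DV (fun y => Om R b y i) x (bs a) (ax ((Rd R a x)ᵀ * Rd R b x + (R x)ᵀ *
      Matrix.of (fun k m => fderiv ℝ (fun y => fderiv ℝ (fun z => R z k m) y (bs b)) x (bs a))) i) := by
  have h1 : DM (Rd R b) x (bs a) (Matrix.of (fun k m => fderiv ℝ (fun y => fderiv ℝ (fun z => R z k m) y (bs b)) x (bs a))) := by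
    intro k m
    refine DV.of_diff ?_ (bs a)
    have h2 : ContDiffAt ℝ 1 (fderiv ℝ (fun z => R z k m)) x := (h.2.1 k m).fderiv_right (by norm_num)
    exact (h2.differentiableAt (by norm_num)).clm_apply (differentiableAt_const _)
  have h3 := (h.DR a).tr.mul h1
  fin_cases i
  · exact h3 2 1
  · exact h3 0 2
  · exact h3 1 0

theorem sym2 {R : E3 → Matrix (Fin 3) (Fin 3) ℝ} {s : E3 → ℝ} {u : E3 → V9} {x : E3}
    (h : Gd R s u x) (a b : Fin 3) :
    Matrix.of (fun k m => fderiv ℝ (fun y => fderiv ℝ (fun z => R z k m) y (bs b)) x (bs a)) =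
      Matrix.of (fun k m => fderiv ℝ (fun y => fderiv ℝ (fun z => R z k m) y (bs a)) x (bs b)) := by
  ext k m
  have h2 : ContDiffAt ℝ 1 (fderiv ℝ (fun z => R z k m)) x := (h.2.1 k m).fderiv_right (by norm_num)
  have hd : DifferentiableAt ℝ (fderiv ℝ (fun z => R z k m)) x := h2.differentiableAt (by norm_num)
  have h3 : IsSymmSndFDerivAt ℝ (fun z => R z k m) x := (h.2.1 k m).isSymmSndFDerivAt (by simp)
  have h4 : ∀ v : E3, fderiv ℝ (fun y => fderiv ℝ (fun z => R z k m) y v) x =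
      (fderiv ℝ (fderiv ℝ (fun z => R z k m)) x).flip v := by
    intro v
    have h5 := hd.hasFDerivAt.clm_apply (hasFDerivAt_const v x)
    rw [h5.fderiv]
    ext w
    simp
  simp only [Matrix.of_apply]
  rw [h4, h4]
  exact h3 (bs a) (bs b)

theorem ax_key {R : E3 → Matrix (Fin 3) (Fin 3) ℝ} {s : E3 → ℝ} {u : E3 → V9} {x : E3}
    (h : Gd R s u x) (a b : Fin 3) (C : Matrix (Fin 3) (Fin 3) ℝ) (i : Fin 3) :
    ax ((Rd R a x)ᵀ * Rd R b x + C) i - ax ((Rd R b x)ᵀ * Rd R a x + C) i =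
      (![-(Om R a x 1 * Om R b x 2 - Om R a x 2 * Om R b x 1), -(Om R a x 2 * Om R b x 0 - Om R a x 0 * Om R b x 2),
        -(Om R a x 0 * Om R b x 1 - Om R a x 1 * Om R b x 0)] : Fin 3 → ℝ) i := by
  have e : ∀ a b : Fin 3, (Rd R a x)ᵀ * Rd R b x = (hat (Om R a x))ᵀ * hat (Om R b x) := by
    intro a b
    rw [h.RO a, h.RO b, Matrix.transpose_mul, Matrix.mul_assoc, ← Matrix.mul_assoc (R x)ᵀ, h.rot.1, Matrix.one_mul]
  rw [e, e]
  generalize Om R a x = wa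
  generalize Om R b x = wb
  fin_cases i <;> simp [ax, hat, Matrix.mul_apply, Fin.sum_univ_three] <;> ring

theorem tu_der (hA01 : St_A01) (hA08 : St_A08) (pr : Profile) {R : E3 → Matrix (Fin 3) (Fin 3) ℝ} {s : E3 → ℝ} {u : E3 → V9}
    {x : E3} (hx : ∀ᶠ y in nhds x, Gd R s u y) (a b l : Fin 3) :
    DV (tu pr u l b) x (bs a) (∑ i, (Rd R a x l i * (1 / 2 * Qf pr (s x) i * Om R b x i) +
      R x l i * (1 / 2 * (Qd pr (s x) i * fderiv ℝ s x (bs a)) * Om R b x i + 1 / 2 * Qf pr (s x) i *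
        ax ((Rd R a x)ᵀ * Rd R b x + (R x)ᵀ *
      Matrix.of (fun k m => fderiv ℝ (fun y => fderiv ℝ (fun z => R z k m) y (bs b)) x (bs a))) i))) := by
  have h := hx.self_of_nhds
  have hs : DV s x (bs a) (fderiv ℝ s x (bs a)) := DV.of_diff (h.2.2.differentiableAt (by norm_num)) (bs a)
  refine DV.congr (g := fun y => ∑ i, R y l i * (1 / 2 * Qf pr (s y) i * Om R b y i)) (DV.sum (fun i => ?_)) ?_
  · refine (h.DR a l i).mul (DV.mul (g := fun y => Om R b y i) (f := fun y => 1 / 2 * Qf pr (s y) i)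
      (d := 1 / 2 * (Qd pr (s x) i * fderiv ℝ s x (bs a))) ?_ (DOm h a b i))
    have h2 := (DV.cst (1 / 2) x (bs a)).mul (hs.comp (Q_der hA01 pr (s x) h.rot.2.2.2.1 i))
    simpa only [zero_mul, zero_add] using h2
  · filter_upwards [hx] with y hy
    exact tu_eq hA08 pr hy l b

theorem fin_alg (pr : Profile) (R : Matrix (Fin 3) (Fin 3) ℝ) (t : ℝ) (ht : 0 < t) (l : Fin 3) (wa wb X Y : Fin 3 → ℝ) (sa sb : ℝ)
    (hXY : ∀ i, X i - Y i = (![-(wa 1 * wb 2 - wa 2 * wb 1), -(wa 2 * wb 0 - wa 0 * wb 2), -(wa 0 * wb 1 - wa 1 * wb 0)] : Fin 3 → ℝ) i) :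
    (∑ i, ((R * hat wa) l i * (1 / 2 * Qf pr t i * wb i) +
      R l i * (1 / 2 * (Qd pr t i * sa) * wb i + 1 / 2 * Qf pr t i * X i))) -
    (∑ i, ((R * hat wb) l i * (1 / 2 * Qf pr t i * wa i) +
      R l i * (1 / 2 * (Qd pr t i * sb) * wa i + 1 / 2 * Qf pr t i * Y i))) =
    R.mulVec (omh pr t ![sa, 2 * t * wa 0, wa 1, wa 2] ![sb, 2 * t * wb 0, wb 1, wb 2]) l := by
  have h0 := hXY 0
  have h1 := hXY 1
  have h2 := hXY 2
  simp only [Matrix.cons_val_zero, Matrix.cons_val_one, Matrix.cons_val] at h0 h1 h2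
  have e : ∀ w : Fin 3 → ℝ, (R * hat w) l 0 = R l 1 * w 2 - R l 2 * w 1 ∧ (R * hat w) l 1 = R l 2 * w 0 - R l 0 * w 2 ∧
      (R * hat w) l 2 = R l 0 * w 1 - R l 1 * w 0 := by
    intro w
    refine ⟨?_, ?_, ?_⟩ <;> simp [Matrix.mul_apply, Fin.sum_univ_three, hat] <;> ring
  rw [Matrix.mulVec, dotProduct]
  simp only [Fin.sum_univ_three]
  rw [(e wa).1, (e wa).2.1, (e wa).2.2, (e wb).1, (e wb).2.1, (e wb).2.2]
  simp only [omh, Qf, Qd, Matrix.cons_val_zero, Matrix.cons_val_one, Matrix.cons_val]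
  have hal : pr.a t = t * pr.al (t ^ 2) := rfl
  rw [hal]
  linear_combination R l 0 * (1 / 2) * (t * pr.al (t ^ 2) * (pr.b t + pr.c t)) * h0 +
    R l 1 * (1 / 2) * (pr.b t * (pr.c t + t * pr.al (t ^ 2))) * h1 +
    R l 2 * (1 / 2) * (pr.c t * (t * pr.al (t ^ 2) + pr.b t)) * h2

end Pool.Agent.FUE.A09x

namespace Pool.Agent.FUE

open A09x

/-- **[A09]** -/
theorem thm_A09 (hA01 : St_A01) (hA04 : St_A04) (hA05 : St_A05) (hA06 : St_A06) (hA08 : St_A08) : St_A09 := by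
  intro pr R s u x hR hs hev
  have hx : ∀ᶠ y in nhds x, Gd R s u y := by
    have h1 : ∀ᶠ y in nhds x, ∀ i j, ContDiffAt ℝ 2 (fun z => R z i j) y := by
      rw [Filter.eventually_all]
      intro i
      rw [Filter.eventually_all]
      intro j
      exact (hR i j).eventually (by simp)
    filter_upwards [hev.eventually_nhds, h1, hs.eventually (by simp)] with y h2 h3 h4
    exact ⟨h2, h3, h4⟩
  have h := hx.self_of_nhds
  have hs0 : s x ≠ 0 := h.rot.2.2.2.1.ne'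
  refine ⟨fun j => hh R s j x, fun j => h.du j, fun j => rfl, ?_, ?_⟩
  · intro j
    have h1 := h.RO j
    show Rd R j x = _
    rw [h1]
    congr 2
    ext i
    fin_cases i
    · simp [hh]
      field_simp
    · rfl
    · rfl
  · intro a b l
    rw [(tu_der hA01 hA08 pr hx a b l).2, (tu_der hA01 hA08 pr hx b a l).2, sym2 h b a]
    rw [h.RO a, h.RO b]
    exact fin_alg pr (R x) (s x) h.rot.2.2.2.1 l (Om R a x) (Om R b x) _ _ _ _
      (fun i => by rw [← h.RO a, ← h.RO b]; exact ax_key h a b _ i)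

end Pool.Agent.FUE
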