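import Pool.Agent.FUE.StA

/-!
# Fueter sections [A10]: `d theta = omega` on tangent vectors (helper67)
-/

set_option autoImplicit false
set_option linter.unusedSimpArgs false
set_option linter.unusedVariables false

open scoped Manifold ContDiff Matrix
open MeasureTheory

namespace Pool.Agent.FUE

namespace A10x

lemma toM_ofM (A : Matrix (Fin 3) (Fin 3) ℝ) : toM (ofM A) = A := by
  ext i j
  rfl

lemma toM_inj {P Q : V9} (h : toM P = toM Q) : P = Q := by
  ext ij
  exact congrFun (congrFun h ij.1) ij.2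

/-- the Cayley type map -/
noncomputable def Cy (q : Fin 3 → ℝ) : Matrix (Fin 3) (Fin 3) ℝ :=
  1 + (2 / (1 + (q 0 ^ 2 + q 1 ^ 2 + q 2 ^ 2))) • (hat q + hat q * hat q)

lemma Cy_rot (q : Fin 3 → ℝ) : IsRot (Cy q) := by
  have hN : (1 + (q 0 ^ 2 + q 1 ^ 2 + q 2 ^ 2)) ≠ 0 := by positivity
  constructor
  · ext i j
    fin_cases i <;> fin_cases j <;>
    · simp [Cy, hat, Matrix.mul_apply, Fin.sum_univ_three, Matrix.one_apply]
      field_simp
      ring
  · rw [Matrix.det_fin_three]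
    simp [Cy, hat, Matrix.mul_apply, Fin.sum_univ_three, Matrix.one_apply]
    field_simp
    ring

lemma rot_mul {R S : Matrix (Fin 3) (Fin 3) ℝ} (hR : IsRot R) (hS : IsRot S) : IsRot (R * S) := by
  constructor
  · rw [Matrix.transpose_mul, Matrix.mul_assoc, ← Matrix.mul_assoc Rᵀ, hR.1, Matrix.one_mul, hS.1]
  · rw [Matrix.det_mul, hR.2, hS.2, one_mul]

/-- the function `theta_l` of two variables -/
noncomputable def Fl (pr : Profile) (l : Fin 3) (p : V9 × V9) : ℝ := th p.1 pr (toM p.2) l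

section th

variable (hA07 : St_A07) (pr : Profile) (l : Fin 3)

include hA07

lemma Fl_smooth : ContDiff ℝ ∞ (Fl pr l) := hA07.1 pr l

lemma Fl_fst (P H K : V9) :
    fderiv ℝ (fun Q : V9 => th Q pr (toM H) l) P K = fderiv ℝ (Fl pr l) (P, H) (K, 0) := by
  have h1 : HasFDerivAt (Fl pr l) (fderiv ℝ (Fl pr l) (P, H)) (P, H) :=
    ((Fl_smooth hA07 pr l).differentiable (by simp) (P, H)).hasFDerivAt
  have h2 : HasFDerivAt (fun Q : V9 => (Q, H)) (ContinuousLinearMap.inl ℝ V9 V9) P :=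
    hasFDerivAt_prodMk_left P H
  have h3 := HasFDerivAt.comp P h1 h2
  have h4 : (Fl pr l ∘ fun Q : V9 => (Q, H)) = fun Q : V9 => th Q pr (toM H) l := rfl
  rw [h4] at h3
  rw [h3.fderiv]
  rfl

lemma Fl_snd (P H L : V9) : fderiv ℝ (Fl pr l) (P, H) (0, L) = Fl pr l (P, L) := by
  have h1 : HasFDerivAt (Fl pr l) (fderiv ℝ (Fl pr l) (P, H)) (P, H) :=
    ((Fl_smooth hA07 pr l).differentiable (by simp) (P, H)).hasFDerivAt
  have h2 : HasDerivAt (fun r : ℝ => (P, H + r • L)) ((0 : V9), L) 0 := by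
    have h5 : HasDerivAt (fun r : ℝ => H + r • L) L 0 := by
      have h6 := ((hasDerivAt_id (0 : ℝ)).smul_const L).const_add H
      rw [one_smul] at h6
      exact h6
    exact (hasDerivAt_const (0 : ℝ) P).prodMk h5
  have h1' : HasFDerivAt (Fl pr l) (fderiv ℝ (Fl pr l) (P, H))
      ((fun r : ℝ => (P, H + r • L)) 0) := by
    show HasFDerivAt (Fl pr l) (fderiv ℝ (Fl pr l) (P, H)) (P, H + (0 : ℝ) • L)
    rw [zero_smul, add_zero]
    exact h1
  have h3 := h1'.comp_hasDerivAt 0 h2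
  have h4 : (Fl pr l ∘ fun r : ℝ => (P, H + r • L)) =
      fun r : ℝ => Fl pr l (P, H) + r * Fl pr l (P, L) := by
    funext r
    exact hA07.2.1 pr P H L r l
  rw [h4] at h3
  have h5 : HasDerivAt (fun r : ℝ => Fl pr l (P, H) + r * Fl pr l (P, L)) (Fl pr l (P, L)) 0 := by
    have h6 := ((hasDerivAt_id (0 : ℝ)).mul_const (Fl pr l (P, L))).const_add (Fl pr l (P, H))
    rw [one_mul] at h6
    exact h6
  exact h3.unique h5

lemma om_eq (P H H' : V9) : om P pr l H H' =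
    fderiv ℝ (Fl pr l) (P, H') (H, 0) - fderiv ℝ (Fl pr l) (P, H) (H', 0) := by
  rw [om, Fl_fst hA07, Fl_fst hA07]

/-- the chain rule -/
lemma chain (u : E3 → V9) (x : E3) (hu : ContDiffAt ℝ 2 u x) (a b : Fin 3) :
    fderiv ℝ (tu pr u l b) x (bs a) - fderiv ℝ (tu pr u l a) x (bs b) =
      om (u x) pr l (du u x a) (du u x b) := by
  have hd : DifferentiableAt ℝ u x := hu.differentiableAt (by norm_num)
  have hd2 : DifferentiableAt ℝ (fderiv ℝ u) x := by
    have h1 : ContDiffAt ℝ 1 (fderiv ℝ u) x := hu.fderiv_right (by norm_num)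
    exact h1.differentiableAt (by norm_num)
  have key : ∀ a b : Fin 3, fderiv ℝ (tu pr u l b) x (bs a) =
      fderiv ℝ (Fl pr l) (u x, du u x b) (du u x a, 0) +
        Fl pr l (u x, fderiv ℝ (fderiv ℝ u) x (bs a) (bs b)) := by
    intro a b
    have h1 : HasFDerivAt (Fl pr l) (fderiv ℝ (Fl pr l) (u x, du u x b)) (u x, du u x b) :=
      ((Fl_smooth hA07 pr l).differentiable (by simp) _).hasFDerivAt
    have h2 : HasFDerivAt (fun y => du u y b)
        ((ContinuousLinearMap.apply ℝ V9 (bs b)).comp (fderiv ℝ (fderiv ℝ u) x)) x :=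
      (ContinuousLinearMap.apply ℝ V9 (bs b)).hasFDerivAt.comp x hd2.hasFDerivAt
    have h3 := HasFDerivAt.comp x h1 (hd.hasFDerivAt.prodMk h2)
    have h4 : (Fl pr l ∘ fun y => (u y, du u y b)) = tu pr u l b := rfl
    rw [h4] at h3
    rw [h3.fderiv]
    have h5 : ((fderiv ℝ (Fl pr l) (u x, du u x b)).comp ((fderiv ℝ u x).prod
        ((ContinuousLinearMap.apply ℝ V9 (bs b)).comp (fderiv ℝ (fderiv ℝ u) x)))) (bs a) =
        fderiv ℝ (Fl pr l) (u x, du u x b)
          (du u x a, fderiv ℝ (fderiv ℝ u) x (bs a) (bs b)) := rfl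
    rw [h5, ← Fl_snd hA07 pr l (u x) (du u x b), ← map_add]
    congr 1
    rw [Prod.mk_add_mk, add_zero, zero_add]
  have hsym : fderiv ℝ (fderiv ℝ u) x (bs a) (bs b) = fderiv ℝ (fderiv ℝ u) x (bs b) (bs a) :=
    (hu.isSymmSndFDerivAt (by simp)) (bs a) (bs b)
  rw [key a b, key b a, hsym, om_eq hA07]
  ring

end th

/-! ### rotations depending on a parameter -/

lemma h2le : (2 : WithTop ℕ∞) ≤ ∞ := ENat.LEInfty.out

/-- the parameter of the rotations -/
noncomputable def qy (w w' : Fin 3 → ℝ) (y : E3) : Fin 3 → ℝ :=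
  fun i => (y 0 * w i + y 1 * w' i) / 2

lemma hat_add (v w : Fin 3 → ℝ) : hat (v + w) = hat v + hat w := by
  ext i j
  fin_cases i <;> fin_cases j <;> simp [hat] <;> ring

lemma hat_smul (r : ℝ) (v : Fin 3 → ℝ) : hat (r • v) = r • hat v := by
  ext i j
  fin_cases i <;> fin_cases j <;> simp [hat]

lemma contDiff_coord (i : Fin 3) : ContDiff ℝ ∞ (fun y : E3 => y i) :=
  (EuclideanSpace.proj i : E3 →L[ℝ] ℝ).contDiff

lemma contDiff_qy (w w' : Fin 3 → ℝ) (i : Fin 3) : ContDiff ℝ ∞ (fun y => qy w w' y i) := by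
  have h0 := contDiff_coord 0
  have h1 := contDiff_coord 1
  unfold qy
  exact ((h0.mul contDiff_const).add (h1.mul contDiff_const)).div_const 2

lemma contDiff_hat {f : E3 → Fin 3 → ℝ} (hf : ∀ i, ContDiff ℝ ∞ (fun y => f y i)) (i j : Fin 3) :
    ContDiff ℝ ∞ (fun y => hat (f y) i j) := by
  have h0 := hf 0
  have h1 := hf 1
  have h2 := hf 2
  fin_cases i <;> fin_cases j <;> simp [hat] <;> first | exact contDiff_const | assumption |
    exact ContDiff.neg (by assumption)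

lemma contDiff_Cy {f : E3 → Fin 3 → ℝ} (hf : ∀ i, ContDiff ℝ ∞ (fun y => f y i)) (i j : Fin 3) :
    ContDiff ℝ ∞ (fun y => Cy (f y) i j) := by
  have h0 := hf 0
  have h1 := hf 1
  have h2 := hf 2
  have h3 := fun i j => contDiff_hat hf i j
  have h4 : (fun y => Cy (f y) i j) = fun y => (1 : Matrix (Fin 3) (Fin 3) ℝ) i j +
      (2 / (1 + (f y 0 ^ 2 + f y 1 ^ 2 + f y 2 ^ 2))) *
        (hat (f y) i j + ∑ k, hat (f y) i k * hat (f y) k j) := by
    funext y
    rw [Cy, Matrix.add_apply, Matrix.smul_apply, Matrix.add_apply, Matrix.mul_apply, smul_eq_mul]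
  rw [h4]
  refine contDiff_const.add (ContDiff.mul (contDiff_const.div ?_ ?_) ((h3 i j).add
    (ContDiff.sum fun k _ => (h3 i k).mul (h3 k j))))
  · exact contDiff_const.add (((h0.pow 2).add (h1.pow 2)).add (h2.pow 2))
  · intro y
    positivity

/-- the derivative at the origin -/
lemma deriv_Cy (v : Fin 3 → ℝ) (i j : Fin 3) :
    HasDerivAt (fun t : ℝ => Cy ((t / 2) • v) i j) (hat v i j) 0 := by
  have h1 : (fun t : ℝ => Cy ((t / 2) • v) i j) = fun t => (1 : Matrix (Fin 3) (Fin 3) ℝ) i j +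
      (2 / (1 + t ^ 2 * ((v 0 ^ 2 + v 1 ^ 2 + v 2 ^ 2) / 4))) *
        (t * (hat v i j / 2) + t ^ 2 * ((hat v * hat v) i j / 4)) := by
    funext t
    rw [Cy, hat_smul, Matrix.add_apply, Matrix.smul_apply, Matrix.add_apply, Matrix.smul_mul,
      Matrix.mul_smul, Matrix.smul_apply, Matrix.smul_apply, Matrix.smul_apply, smul_eq_mul,
      smul_eq_mul, smul_eq_mul, smul_eq_mul, Pi.smul_apply, Pi.smul_apply, Pi.smul_apply,
      smul_eq_mul, smul_eq_mul, smul_eq_mul]
    congr 2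
    · congr 2
      ring
    · ring
  rw [h1]
  obtain ⟨c, hc⟩ : ∃ c : ℝ, c = (v 0 ^ 2 + v 1 ^ 2 + v 2 ^ 2) / 4 := ⟨_, rfl⟩
  obtain ⟨B, hB⟩ : ∃ B : ℝ, B = (hat v * hat v) i j / 4 := ⟨_, rfl⟩
  rw [← hc, ← hB]
  have k1 : HasDerivAt (fun t : ℝ => 1 + t ^ 2 * c) 0 0 := by
    have := ((hasDerivAt_pow 2 (0 : ℝ)).mul_const c).const_add 1
    simpa using this
  have k2 : HasDerivAt (fun t : ℝ => 2 / (1 + t ^ 2 * c)) 0 0 :=
    ((hasDerivAt_const (0 : ℝ) (2 : ℝ)).div k1 (by simp)).congr_deriv (by simp)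
  have k3 : HasDerivAt (fun t : ℝ => t * (hat v i j / 2) + t ^ 2 * B) (hat v i j / 2) 0 :=
    (((hasDerivAt_id (0 : ℝ)).mul_const (hat v i j / 2)).add
      ((hasDerivAt_pow 2 (0 : ℝ)).mul_const B)).congr_deriv (by simp)
  have k4 := (k2.mul k3).const_add ((1 : Matrix (Fin 3) (Fin 3) ℝ) i j)
  have k5 : (0 : ℝ) * ((0 : ℝ) * (hat v i j / 2) + (0 : ℝ) ^ 2 * B) +
      2 / (1 + (0 : ℝ) ^ 2 * c) * (hat v i j / 2) = hat v i j := by
    simp
    ring
  rw [k5] at k4
  exact k4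

/-- derivatives from the restriction to a line -/
lemma fderiv_line {f : E3 → ℝ} (hf : DifferentiableAt ℝ f 0) (v : E3) (d : ℝ)
    (h : HasDerivAt (fun t : ℝ => f (t • v)) d 0) : fderiv ℝ f 0 v = d := by
  have h2 : HasDerivAt (fun t : ℝ => t • v) v 0 := by
    have h6 := (hasDerivAt_id (0 : ℝ)).smul_const v
    rw [one_smul] at h6
    exact h6
  have h1 : HasFDerivAt f (fderiv ℝ f 0) ((fun t : ℝ => t • v) 0) := by
    show HasFDerivAt f (fderiv ℝ f 0) ((0 : ℝ) • v)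
    rw [zero_smul]
    exact hf.hasFDerivAt
  exact (h1.comp_hasDerivAt 0 h2).unique h

lemma qy_zero (w w' : Fin 3 → ℝ) : qy w w' 0 = 0 := by
  funext i
  simp [qy]

lemma qy_bs0 (w w' : Fin 3 → ℝ) (t : ℝ) : qy w w' (t • bs 0) = (t / 2) • w := by
  funext i
  simp [qy, bs]
  ring

lemma qy_bs1 (w w' : Fin 3 → ℝ) (t : ℝ) : qy w w' (t • bs 1) = (t / 2) • w' := by
  funext i
  simp [qy, bs]
  ring

lemma Cy_zero : Cy 0 = 1 := by
  have h1 : hat 0 = 0 := by
    ext i j
    fin_cases i <;> fin_cases j <;> simp [hat]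
  rw [Cy, h1]
  simp

/-- the rotations -/
noncomputable def Ry (R : Matrix (Fin 3) (Fin 3) ℝ) (w w' : Fin 3 → ℝ) (y : E3) :
    Matrix (Fin 3) (Fin 3) ℝ := R * Cy (qy w w' y)

/-- the distances -/
noncomputable def sy (s a a' : ℝ) (y : E3) : ℝ := s + (y 0 * a + y 1 * a')

/-- the points -/
noncomputable def uy (R : Matrix (Fin 3) (Fin 3) ℝ) (w w' : Fin 3 → ℝ) (s a a' : ℝ) (y : E3) :
    V9 := ofM (Ry R w w' y * Dg (sy s a a' y) * (Ry R w w' y)ᵀ)

section par

variable (R : Matrix (Fin 3) (Fin 3) ℝ) (w w' : Fin 3 → ℝ) (s a a' : ℝ)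

lemma contDiff_Ry (i j : Fin 3) : ContDiff ℝ ∞ (fun y => Ry R w w' y i j) := by
  have h1 : (fun y => Ry R w w' y i j) = fun y => ∑ k, R i k * Cy (qy w w' y) k j := by
    funext y
    rw [Ry, Matrix.mul_apply]
  rw [h1]
  exact ContDiff.sum fun k _ => contDiff_const.mul (contDiff_Cy (contDiff_qy w w') k j)

lemma contDiff_sy : ContDiff ℝ ∞ (sy s a a') := by
  have h0 := contDiff_coord 0
  have h1 := contDiff_coord 1
  unfold sy
  exact contDiff_const.add ((h0.mul contDiff_const).add (h1.mul contDiff_const))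

lemma contDiff_Dg (i j : Fin 3) : ContDiff ℝ ∞ (fun y => Dg (sy s a a' y) i j) := by
  have h0 := contDiff_sy s a a'
  have h1 : ContDiff ℝ ∞ (fun y => 2 + sy s a a' y ^ 2) := contDiff_const.add (h0.pow 2)
  have h2 : ContDiff ℝ ∞ (fun y => -sy s a a' y) := h0.neg
  fin_cases i <;> fin_cases j <;> simp [Dg] <;> first | exact contDiff_const | assumption

lemma contDiff_uy : ContDiff ℝ ∞ (uy R w w' s a a') := by
  rw [contDiff_euclidean]
  rintro ⟨i, j⟩
  have h1 : (fun y => uy R w w' s a a' y (i, j)) = fun y =>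
      ∑ k, (∑ l, Ry R w w' y i l * Dg (sy s a a' y) l k) * Ry R w w' y j k := by
    funext y
    show (Ry R w w' y * Dg (sy s a a' y) * (Ry R w w' y)ᵀ) i j = _
    rw [Matrix.mul_apply]
    refine Finset.sum_congr rfl fun k _ => ?_
    rw [Matrix.mul_apply, Matrix.transpose_apply]
  rw [h1]
  exact ContDiff.sum fun k _ => (ContDiff.sum fun l _ => (contDiff_Ry R w w' i l).mul
    (contDiff_Dg s a a' l k)).mul (contDiff_Ry R w w' j k)

/-- the derivative of the rotations -/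
lemma deriv_Ry (v : Fin 3 → ℝ) (b : E3) (hb : ∀ t : ℝ, qy w w' (t • b) = (t / 2) • v)
    (i l : Fin 3) : fderiv ℝ (fun y => Ry R w w' y i l) 0 b = (R * hat v) i l := by
  refine fderiv_line ((contDiff_Ry R w w' i l).differentiable (by simp) 0) b _ ?_
  have h1 : (fun t : ℝ => Ry R w w' (t • b) i l) = fun t =>
      ∑ k, R i k * Cy ((t / 2) • v) k l := by
    funext t
    rw [Ry, Matrix.mul_apply, hb]
  rw [h1, Matrix.mul_apply]
  exact HasDerivAt.fun_sum fun k _ => (deriv_Cy v k l).const_mul (R i k)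

end par

/-- the coefficients are determined -/
lemma ident {R : Matrix (Fin 3) (Fin 3) ℝ} (hR : IsRot R) {s : ℝ} (hs : 0 < s) (g h : Fin 4 → ℝ)
    (h0 : g 0 = h 0) (h1 : R * hat ![g 1 / (2 * s), g 2, g 3] = R * hat ![h 1 / (2 * s), h 2, h 3]) :
    g = h := by
  have h2 := congrArg (fun Z => Rᵀ * Z) h1
  simp only [← Matrix.mul_assoc, hR.1, Matrix.one_mul] at h2
  have e1 := congrFun (congrFun h2 2) 1
  have e2 := congrFun (congrFun h2 0) 2
  have e3 := congrFun (congrFun h2 1) 0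
  simp [hat] at e1 e2 e3
  have hs' : s ≠ 0 := hs.ne'
  have e4 : g 1 = h 1 := by
    field_simp at e1
    exact e1
  funext k
  fin_cases k
  · exact h0
  · exact e4
  · exact e2
  · exact e3

/-- positive distances -/
lemma pos (hA07 : St_A07) (hA09 : St_A09) (pr : Profile) (P H H' : V9)
    (R : Matrix (Fin 3) (Fin 3) ℝ) (s : ℝ) (h h' : Fin 4 → ℝ) (hR : IsRot R) (hs : 0 < s)
    (hP : toM P = R * Dg s * Rᵀ) (hH : toM H = R * (∑ k, h k • Tb s k) * Rᵀ)
    (hH' : toM H' = R * (∑ k, h' k • Tb s k) * Rᵀ) (l : Fin 3) :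
    om P pr l H H' = R.mulVec (omh pr s h h') l := by
  obtain ⟨w, hw⟩ : ∃ w : Fin 3 → ℝ, w = ![h 1 / (2 * s), h 2, h 3] := ⟨_, rfl⟩
  obtain ⟨w', hw'⟩ : ∃ w' : Fin 3 → ℝ, w' = ![h' 1 / (2 * s), h' 2, h' 3] := ⟨_, rfl⟩
  have hR0 : Ry R w w' 0 = R := by
    rw [Ry, qy_zero, Cy_zero, Matrix.mul_one]
  have hs0 : sy s (h 0) (h' 0) 0 = s := by
    simp [sy]
  have hu0 : uy R w w' s (h 0) (h' 0) 0 = P := by
    apply toM_inj
    rw [uy, toM_ofM, hR0, hs0, hP]
  obtain ⟨g, g1, g2, g3, g4⟩ := hA09 pr (Ry R w w') (sy s (h 0) (h' 0))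
    (uy R w w' s (h 0) (h' 0)) 0
    (fun i j => ((contDiff_Ry R w w' i j).contDiffAt).of_le h2le)
    (((contDiff_sy s (h 0) (h' 0)).contDiffAt).of_le h2le)
    (by
      have h1 : ∀ᶠ y in nhds (0 : E3), 0 < sy s (h 0) (h' 0) y := by
        refine ((contDiff_sy s (h 0) (h' 0)).continuous.tendsto 0).eventually_const_lt ?_
        rw [hs0]
        exact hs
      filter_upwards [h1] with y hy
      exact ⟨rot_mul hR (Cy_rot _), hy, toM_ofM _⟩)
  rw [hR0, hs0] at g3 g4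
  rw [hR0, hs0] at g1
  have k0 : g 0 = h := by
    refine ident hR hs _ _ ?_ ?_
    · rw [g2]
      refine fderiv_line ((contDiff_sy s (h 0) (h' 0)).differentiable (by simp) 0) _ _ ?_
      have h1 : (fun t : ℝ => sy s (h 0) (h' 0) (t • bs 0)) = fun t => s + t * h 0 := by
        funext t
        simp [sy, bs]
      rw [h1]
      exact (((hasDerivAt_id (0 : ℝ)).mul_const (h 0)).const_add s).congr_deriv (one_mul _)
    · rw [← g3, ← hw]
      ext i l
      exact deriv_Ry R w w' w (bs 0) (qy_bs0 w w') i l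
  have k1 : g 1 = h' := by
    refine ident hR hs _ _ ?_ ?_
    · rw [g2]
      refine fderiv_line ((contDiff_sy s (h 0) (h' 0)).differentiable (by simp) 0) _ _ ?_
      have h1 : (fun t : ℝ => sy s (h 0) (h' 0) (t • bs 1)) = fun t => s + t * h' 0 := by
        funext t
        simp [sy, bs]
      rw [h1]
      exact (((hasDerivAt_id (0 : ℝ)).mul_const (h' 0)).const_add s).congr_deriv (one_mul _)
    · rw [← g3, ← hw']
      ext i l
      exact deriv_Ry R w w' w' (bs 1) (qy_bs1 w w') i l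
  have d0 : du (uy R w w' s (h 0) (h' 0)) 0 0 = H := by
    apply toM_inj
    rw [g1, k0, hH]
  have d1 : du (uy R w w' s (h 0) (h' 0)) 0 1 = H' := by
    apply toM_inj
    rw [g1, k1, hH']
  have h5 := g4 0 1 l
  rw [chain hA07 pr l _ 0 (((contDiff_uy R w w' s (h 0) (h' 0)).contDiffAt).of_le
    h2le), hu0, d0, d1, k0, k1] at h5
  exact h5

lemma cont_ofM {A : ℝ → Matrix (Fin 3) (Fin 3) ℝ} (hA : Continuous A) :
    Continuous (fun ε => ofM (A ε)) :=
  (PiLp.continuous_toLp 2 _).comp (continuous_pi fun ij => hA.matrix_elem ij.1 ij.2)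

lemma cont_Dg : Continuous Dg := by
  refine continuous_matrix fun i j => ?_
  fin_cases i <;> fin_cases j <;> simp [Dg] <;> fun_prop

lemma cont_Tb (k : Fin 4) : Continuous (fun ε => Tb ε k) := by
  refine continuous_matrix fun i j => ?_
  fin_cases k <;> fin_cases i <;> fin_cases j <;> simp [Tb] <;> fun_prop

lemma cont_omh (pr : Profile) (h h' : Fin 4 → ℝ) (j : Fin 3) :
    Continuous (fun ε => omh pr ε h h' j) := by
  have h1 := pr.smooth_al.continuous
  have h2 := pr.smooth_be.continuous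
  have h3 := pr.smooth_ka.continuous
  fin_cases j <;> simp [omh, Profile.b, Profile.c] <;> fun_prop

lemma cont_om (hA07 : St_A07) (pr : Profile) (l : Fin 3) {P H H' : ℝ → V9} (hP : Continuous P)
    (hH : Continuous H) (hH' : Continuous H') :
    Continuous (fun ε => om (P ε) pr l (H ε) (H' ε)) := by
  have h1 := (Fl_smooth hA07 pr l).continuous_fderiv (by simp)
  have h2 : (fun ε => om (P ε) pr l (H ε) (H' ε)) = fun ε =>
      fderiv ℝ (Fl pr l) (P ε, H' ε) (H ε, 0) - fderiv ℝ (Fl pr l) (P ε, H ε) (H' ε, 0) := by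
    funext ε
    exact om_eq hA07 pr l _ _ _
  rw [h2]
  exact ((h1.comp (hP.prodMk hH')).clm_apply (hH.prodMk continuous_const)).sub
    ((h1.comp (hP.prodMk hH)).clm_apply (hH'.prodMk continuous_const))

end A10x

theorem thm_A10 (hA01 : St_A01) (hA04 : St_A04) (hA05 : St_A05) (hA07 : St_A07) (hA08 : St_A08)
    (hA09 : St_A09) : St_A10 := by
  intro pr P H H' R s h h' hR hs hP hH hH' l
  rcases hs.lt_or_eq with hs' | hs'
  · exact A10x.pos hA07 hA09 pr P H H' R s h h' hR hs' hP hH hH' l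
  · have hPc : Continuous (fun ε => ofM (R * Dg ε * Rᵀ)) := A10x.cont_ofM
      ((continuous_const.matrix_mul A10x.cont_Dg).matrix_mul continuous_const)
    have hHc : ∀ h : Fin 4 → ℝ, Continuous (fun ε => ofM (R * (∑ k, h k • Tb ε k) * Rᵀ)) :=
      fun h => A10x.cont_ofM ((continuous_const.matrix_mul (continuous_finsetSum _ fun k _ =>
        (A10x.cont_Tb k).const_smul (h k))).matrix_mul continuous_const)
    have hf : Continuous (fun ε => om (ofM (R * Dg ε * Rᵀ)) pr l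
        (ofM (R * (∑ k, h k • Tb ε k) * Rᵀ)) (ofM (R * (∑ k, h' k • Tb ε k) * Rᵀ))) :=
      A10x.cont_om hA07 pr l hPc (hHc h) (hHc h')
    have hg : Continuous (fun ε => R.mulVec (omh pr ε h h') l) := by
      have h2 : (fun ε => R.mulVec (omh pr ε h h') l) = fun ε => ∑ j, R l j * omh pr ε h h' j := rfl
      rw [h2]
      exact continuous_finsetSum _ fun j _ => continuous_const.mul (A10x.cont_omh pr h h' j)
    have heq : Set.EqOn (fun ε => om (ofM (R * Dg ε * Rᵀ)) pr l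
        (ofM (R * (∑ k, h k • Tb ε k) * Rᵀ)) (ofM (R * (∑ k, h' k • Tb ε k) * Rᵀ)))
        (fun ε => R.mulVec (omh pr ε h h') l) (Set.Ioi 0) := fun ε hε =>
      A10x.pos hA07 hA09 pr _ _ _ R ε h h' hR hε (A10x.toM_ofM _) (A10x.toM_ofM _)
        (A10x.toM_ofM _) l
    have h3 := (heq.closure hf hg) (by rw [closure_Ioi]; exact Set.self_mem_Ici : (0 : ℝ) ∈ closure (Set.Ioi 0))
    have e1 : P = ofM (R * Dg 0 * Rᵀ) := A10x.toM_inj (by rw [A10x.toM_ofM, hP, hs'])
    have e2 : H = ofM (R * (∑ k, h k • Tb 0 k) * Rᵀ) :=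
      A10x.toM_inj (by rw [A10x.toM_ofM, hH, hs'])
    have e3 : H' = ofM (R * (∑ k, h' k • Tb 0 k) * Rᵀ) :=
      A10x.toM_inj (by rw [A10x.toM_ofM, hH', hs'])
    rw [e1, e2, e3, ← hs']
    exact h3

end Pool.Agent.FUE
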