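import Pool.Agent.FUE.StA

/-!
# Fueter sections: linear algebra of the complex structures (helper42, after the plan of helper16)
-/

set_option autoImplicit false
set_option linter.unusedVariables false

open scoped Manifold ContDiff Matrix
open MeasureTheory

namespace Pool.Agent.FUE

namespace A11x

/-- `Ic` with free parameters -/
noncomputable def J (p b c : ℝ) : Fin 3 → Matrix (Fin 4) (Fin 4) ℝ :=
  ![!![0, -(p / 2), 0, 0;
       2 / p, 0, 0, 0;
       0, 0, 0, -(c / b);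
       0, 0, b / c, 0],
    !![0, 0, -b, 0;
       0, 0, 0, 2 * c / p;
       1 / b, 0, 0, 0;
       0, -(p / (2 * c)), 0, 0],
    !![0, 0, 0, -c;
       0, 0, -(2 * b / p), 0;
       0, p / (2 * b), 0, 0;
       1 / c, 0, 0, 0]]

/-- `omh` with free parameters -/
noncomputable def O (p b c : ℝ) (h h' : Fin 4 → ℝ) : Fin 3 → ℝ :=
  ![p / 2 * (h 0 * h' 1 - h 1 * h' 0) + b * c * (h 2 * h' 3 - h 3 * h' 2),
    b * (h 0 * h' 2 - h 2 * h' 0) + p * c / 2 * (h 3 * h' 1 - h 1 * h' 3),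
    c * (h 0 * h' 3 - h 3 * h' 0) + p * b / 2 * (h 1 * h' 2 - h 2 * h' 1)]

/-- the form with free parameters -/
noncomputable def ip (p b c : ℝ) (h h' : Fin 4 → ℝ) : ℝ :=
  h 0 * h' 0 + (p / 2) ^ 2 * (h 1 * h' 1) + b ^ 2 * (h 2 * h' 2) + c ^ 2 * (h 3 * h' 3)

theorem vec (p b c : ℝ) (h : Fin 4 → ℝ) :
    (J p b c 0).mulVec h = ![-(p / 2) * h 1, 2 / p * h 0, -(c / b) * h 3, b / c * h 2] ∧
    (J p b c 1).mulVec h = ![-b * h 2, 2 * c / p * h 3, 1 / b * h 0, -(p / (2 * c)) * h 1] ∧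
    (J p b c 2).mulVec h = ![-c * h 3, -(2 * b / p) * h 2, p / (2 * b) * h 1, 1 / c * h 0] := by
  refine ⟨?_, ?_, ?_⟩ <;>
  · funext j
    fin_cases j <;> simp [J, Matrix.mulVec, dotProduct, Fin.sum_univ_four]

theorem form (p b c : ℝ) (hp : p ≠ 0) (hb : b ≠ 0) (hc : c ≠ 0) (h h' : Fin 4 → ℝ) (i : Fin 3) :
    O p b c h h' i = ip p b c ((J p b c i).mulVec h) h' := by
  obtain ⟨h0, h1, h2⟩ := vec p b c h
  fin_cases i
  · show O p b c h h' 0 = ip p b c ((J p b c 0).mulVec h) h'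
    rw [h0]
    simp only [O, ip, Matrix.cons_val]
    field_simp
    ring
  · show O p b c h h' 1 = ip p b c ((J p b c 1).mulVec h) h'
    rw [h1]
    simp only [O, ip, Matrix.cons_val]
    field_simp
    ring
  · show O p b c h h' 2 = ip p b c ((J p b c 2).mulVec h) h'
    rw [h2]
    simp only [O, ip, Matrix.cons_val]
    field_simp
    ring

theorem anti (p b c : ℝ) (h h' : Fin 4 → ℝ) (i : Fin 3) : O p b c h h' i = - O p b c h' h i := by
  fin_cases i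
  · show O p b c h h' 0 = - O p b c h' h 0
    simp only [O, Matrix.cons_val]
    ring
  · show O p b c h h' 1 = - O p b c h' h 1
    simp only [O, Matrix.cons_val]
    ring
  · show O p b c h h' 2 = - O p b c h' h 2
    simp only [O, Matrix.cons_val]
    ring

theorem ip_comm (p b c : ℝ) (h h' : Fin 4 → ℝ) : ip p b c h h' = ip p b c h' h := by
  simp only [ip]
  ring

theorem mat_ext (A B : Matrix (Fin 4) (Fin 4) ℝ) (h : ∀ v, A.mulVec v = B.mulVec v) : A = B := by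
  refine Matrix.toLin'.injective (LinearMap.ext fun v => ?_)
  rw [Matrix.toLin'_apply, Matrix.toLin'_apply, h]

theorem vec4 (x y z w x' y' z' w' : ℝ) (h1 : x = x') (h2 : y = y') (h3 : z = z') (h4 : w = w') :
    (![x, y, z, w] : Fin 4 → ℝ) = ![x', y', z', w'] := by
  rw [h1, h2, h3, h4]

theorem vec4' (v : Fin 4 → ℝ) : v = ![v 0, v 1, v 2, v 3] := by
  funext j
  fin_cases j <;> rfl

theorem neg4 (x y z w : ℝ) : -(![x, y, z, w] : Fin 4 → ℝ) = ![-x, -y, -z, -w] := by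
  funext j
  fin_cases j <;> rfl

theorem sq (p b c : ℝ) (hp : p ≠ 0) (hb : b ≠ 0) (hc : c ≠ 0) (i : Fin 3) :
    J p b c i * J p b c i = -1 := by
  refine mat_ext _ _ fun v => ?_
  rw [← Matrix.mulVec_mulVec, Matrix.neg_mulVec, Matrix.one_mulVec]
  obtain ⟨h0, h1, h2⟩ := vec p b c v
  fin_cases i
  · show (J p b c 0).mulVec ((J p b c 0).mulVec v) = -v
    rw [(vec p b c _).1, h0, vec4' v, neg4]
    refine vec4 _ _ _ _ _ _ _ _ ?_ ?_ ?_ ?_ <;> simp only [Matrix.cons_val] <;> field_simp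
  · show (J p b c 1).mulVec ((J p b c 1).mulVec v) = -v
    rw [(vec p b c _).2.1, h1, vec4' v, neg4]
    refine vec4 _ _ _ _ _ _ _ _ ?_ ?_ ?_ ?_ <;> simp only [Matrix.cons_val] <;> field_simp
  · show (J p b c 2).mulVec ((J p b c 2).mulVec v) = -v
    rw [(vec p b c _).2.2, h2, vec4' v, neg4]
    refine vec4 _ _ _ _ _ _ _ _ ?_ ?_ ?_ ?_ <;> simp only [Matrix.cons_val] <;> field_simp

theorem mul (p b c : ℝ) (hp : p ≠ 0) (hb : b ≠ 0) (hc : c ≠ 0) (i : Fin 3) :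
    J p b c i * J p b c (i + 1) = J p b c (i + 2) := by
  refine mat_ext _ _ fun v => ?_
  rw [← Matrix.mulVec_mulVec]
  obtain ⟨h0, h1, h2⟩ := vec p b c v
  fin_cases i
  · show (J p b c 0).mulVec ((J p b c 1).mulVec v) = (J p b c 2).mulVec v
    rw [(vec p b c _).1, h1, h2]
    refine vec4 _ _ _ _ _ _ _ _ ?_ ?_ ?_ ?_ <;> simp only [Matrix.cons_val] <;> field_simp
  · show (J p b c 1).mulVec ((J p b c 2).mulVec v) = (J p b c 0).mulVec v
    rw [(vec p b c _).2.1, h2, h0]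
    refine vec4 _ _ _ _ _ _ _ _ ?_ ?_ ?_ ?_ <;> simp only [Matrix.cons_val] <;> field_simp
  · show (J p b c 2).mulVec ((J p b c 0).mulVec v) = (J p b c 1).mulVec v
    rw [(vec p b c _).2.2, h0, h1]
    refine vec4 _ _ _ _ _ _ _ _ ?_ ?_ ?_ ?_ <;> simp only [Matrix.cons_val] <;> field_simp

theorem mul' (p b c : ℝ) (hp : p ≠ 0) (hb : b ≠ 0) (hc : c ≠ 0) (i : Fin 3) :
    J p b c (i + 1) * J p b c i = -J p b c (i + 2) := by
  refine mat_ext _ _ fun v => ?_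
  rw [← Matrix.mulVec_mulVec, Matrix.neg_mulVec]
  obtain ⟨h0, h1, h2⟩ := vec p b c v
  fin_cases i
  · show (J p b c 1).mulVec ((J p b c 0).mulVec v) = -(J p b c 2).mulVec v
    rw [(vec p b c _).2.1, h0, h2, neg4]
    refine vec4 _ _ _ _ _ _ _ _ ?_ ?_ ?_ ?_ <;> simp only [Matrix.cons_val] <;> field_simp
  · show (J p b c 2).mulVec ((J p b c 1).mulVec v) = -(J p b c 0).mulVec v
    rw [(vec p b c _).2.2, h1, h0, neg4]
    refine vec4 _ _ _ _ _ _ _ _ ?_ ?_ ?_ ?_ <;> simp only [Matrix.cons_val] <;> field_simp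
  · show (J p b c 0).mulVec ((J p b c 2).mulVec v) = -(J p b c 1).mulVec v
    rw [(vec p b c _).1, h2, h1, neg4]
    refine vec4 _ _ _ _ _ _ _ _ ?_ ?_ ?_ ?_ <;> simp only [Matrix.cons_val] <;> field_simp

end A11x

theorem thm_A11 (hA01 : St_A01) : St_A11 := by
  intro pr s hs ip
  have hp : pr.al (s ^ 2) ≠ 0 := (hA01.1 pr _ (sq_nonneg s)).ne'
  have hb : pr.b s ≠ 0 := (hA01.2.1 pr s hs).1.ne'
  have hc : pr.c s ≠ 0 := (hA01.2.1 pr s hs).2.1.ne
  have key : ∀ i h h', omh pr s h h' i = ip ((Ic pr s i).mulVec h) h' :=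
    fun i h h' => A11x.form (pr.al (s ^ 2)) (pr.b s) (pr.c s) hp hb hc h h' i
  refine ⟨key, ?_, fun i => A11x.sq _ _ _ hp hb hc i, fun i => A11x.mul _ _ _ hp hb hc i,
    fun i => A11x.mul' _ _ _ hp hb hc i⟩
  intro i h h'
  have h1 : ip h ((Ic pr s i).mulVec h') = ip ((Ic pr s i).mulVec h') h :=
    A11x.ip_comm (pr.al (s ^ 2)) (pr.b s) (pr.c s) _ _
  rw [h1, ← key, ← key]
  exact A11x.anti (pr.al (s ^ 2)) (pr.b s) (pr.c s) h h' i

end Pool.Agent.FUE
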