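import Pool.Agent.FUE.StA

/-!
# FUE [A12]: intrinsic form of the Fueter equation (helper1 for helper16)
-/

set_option autoImplicit false

namespace Pool.Agent.FUE

namespace A12x

theorem toM_ofM (A : Matrix (Fin 3) (Fin 3) ℝ) : toM (ofM A) = A := by
  ext i j
  rfl

/-- the metric in coordinates -/
noncomputable def ip (pr : Profile) (s : ℝ) (h h' : Fin 4 → ℝ) : ℝ :=
  h 0 * h' 0 + (pr.al (s ^ 2) / 2) ^ 2 * (h 1 * h' 1) + pr.b s ^ 2 * (h 2 * h' 2) +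
    pr.c s ^ 2 * (h 3 * h' 3)

/-- linear in the first argument -/
noncomputable def ipL (pr : Profile) (s : ℝ) (h' : Fin 4 → ℝ) : (Fin 4 → ℝ) →ₗ[ℝ] ℝ where
  toFun h := ip pr s h h'
  map_add' := by
    intro x y
    simp only [ip, Pi.add_apply]
    ring
  map_smul' := by
    intro r x
    simp only [ip, Pi.smul_apply, smul_eq_mul, RingHom.id_apply]
    ring

theorem ip_self (hA01 : St_A01) (pr : Profile) {s : ℝ} (hs : 0 ≤ s) {v : Fin 4 → ℝ}
    (h0 : ip pr s v v = 0) : v = 0 := by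
  have ha : 0 < pr.al (s ^ 2) := hA01.1 pr _ (sq_nonneg s)
  obtain ⟨hb, hc, -⟩ := hA01.2.1 pr s hs
  have e0 : 0 ≤ v 0 * v 0 := mul_self_nonneg _
  have e1 : 0 ≤ (pr.al (s ^ 2) / 2) ^ 2 * (v 1 * v 1) :=
    mul_nonneg (sq_nonneg _) (mul_self_nonneg _)
  have e2 : 0 ≤ pr.b s ^ 2 * (v 2 * v 2) := mul_nonneg (sq_nonneg _) (mul_self_nonneg _)
  have e3 : 0 ≤ pr.c s ^ 2 * (v 3 * v 3) := mul_nonneg (sq_nonneg _) (mul_self_nonneg _)
  rw [ip] at h0
  have z0 : v 0 * v 0 = 0 := by linarith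
  have z1 : (pr.al (s ^ 2) / 2) ^ 2 * (v 1 * v 1) = 0 := by linarith
  have z2 : pr.b s ^ 2 * (v 2 * v 2) = 0 := by linarith
  have z3 : pr.c s ^ 2 * (v 3 * v 3) = 0 := by linarith
  have w1 := (mul_eq_zero.1 z1).resolve_left (by positivity)
  have w2 := (mul_eq_zero.1 z2).resolve_left (by positivity)
  have w3 := (mul_eq_zero.1 z3).resolve_left (pow_ne_zero 2 hc.ne)
  funext i
  fin_cases i
  · exact mul_self_eq_zero.1 z0
  · exact mul_self_eq_zero.1 w1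
  · exact mul_self_eq_zero.1 w2
  · exact mul_self_eq_zero.1 w3

/-- the sum of the forms -/
theorem sum_om (hA10 : St_A10) (hA11 : St_A11) (pr : Profile) (P : V9) (H : Fin 3 → V9)
    (R : Matrix (Fin 3) (Fin 3) ℝ) (s : ℝ) (h : Fin 3 → Fin 4 → ℝ) (hR : IsRot R) (hs : 0 ≤ s)
    (hP : toM P = R * Dg s * R.transpose)
    (hH : ∀ j, toM (H j) = R * (∑ k, h j k • Tb s k) * R.transpose) (H' : V9) (h' : Fin 4 → ℝ)
    (hH' : toM H' = R * (∑ k, h' k • Tb s k) * R.transpose) :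
    ∑ j, om P pr j (H j) H' = ip pr s (∑ j, ∑ i, R j i • (Ic pr s i).mulVec (h j)) h' := by
  have h1 : ∀ j, om P pr j (H j) H' = ∑ i, R j i * ip pr s ((Ic pr s i).mulVec (h j)) h' := by
    intro j
    rw [hA10 pr P (H j) H' R s (h j) h' hR hs hP (hH j) hH' j, Matrix.mulVec, dotProduct]
    refine Finset.sum_congr rfl fun i _ => ?_
    rw [(hA11 pr s hs).1 i (h j) h']
    rfl
  have h2 : ip pr s (∑ j, ∑ i, R j i • (Ic pr s i).mulVec (h j)) h' =
      ipL pr s h' (∑ j, ∑ i, R j i • (Ic pr s i).mulVec (h j)) := rfl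
  rw [h2, map_sum]
  refine Finset.sum_congr rfl fun j _ => ?_
  rw [h1 j, map_sum]
  refine Finset.sum_congr rfl fun i _ => ?_
  rw [map_smul, smul_eq_mul]
  rfl

/-- the equation in coordinates -/
theorem iff_coord (hA01 : St_A01) (hA05 : St_A05) (hA10 : St_A10) (hA11 : St_A11)
    (pr : Profile) (P : V9) (H : Fin 3 → V9)
    (R : Matrix (Fin 3) (Fin 3) ℝ) (s : ℝ) (h : Fin 3 → Fin 4 → ℝ) (hR : IsRot R) (hs : 0 ≤ s)
    (hP : toM P = R * Dg s * R.transpose)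
    (hH : ∀ j, toM (H j) = R * (∑ k, h j k • Tb s k) * R.transpose) :
    (∀ H' : V9, Tan P H' → ∑ j, om P pr j (H j) H' = 0) ↔
      ∑ j, ∑ i, R j i • (Ic pr s i).mulVec (h j) = 0 := by
  constructor
  · intro h1
    apply ip_self hA01 pr hs
    have h2 := toM_ofM (R * (∑ k, (∑ j, ∑ i, R j i • (Ic pr s i).mulVec (h j)) k • Tb s k) *
      R.transpose)
    rw [← sum_om hA10 hA11 pr P H R s h hR hs hP hH _ _ h2]
    exact h1 _ (((hA05 P R s hR hs hP).1 _).2 ⟨_, h2⟩)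
  · intro h1 H' hH'
    obtain ⟨h', h2⟩ := ((hA05 P R s hR hs hP).1 H').1 hH'
    rw [sum_om hA10 hA11 pr P H R s h hR hs hP hH H' h' h2, h1]
    exact map_zero (ipL pr s h')

end A12x

open A12x in
/-- [A12] -/
theorem thm_A12 (hA01 : St_A01) (hA05 : St_A05) (_hA06 : St_A06) (hA10 : St_A10)
    (hA11 : St_A11) : St_A12 := by
  have h1 : ∀ (pr : Profile) (P : V9) (H : Fin 3 → V9),
      FueterPt pr (toM P) (fun j => toM (H j)) ↔
      P ∈ AH ∧ (∀ j, Tan P (H j)) ∧ ∀ H' : V9, Tan P H' → ∑ j, om P pr j (H j) H' = 0 := by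
    intro pr P H
    constructor
    · rintro ⟨R, s, h, hR, hs, hP, hH, h0⟩
      exact ⟨⟨R, s, hR, hs, hP⟩, fun j => ((hA05 P R s hR hs hP).1 _).2 ⟨_, hH j⟩,
        (iff_coord hA01 hA05 hA10 hA11 pr P H R s h hR hs hP hH).2 h0⟩
    · rintro ⟨⟨R, s, hR, hs, hP⟩, hT, h0⟩
      choose h hH using fun j => ((hA05 P R s hR hs hP).1 (H j)).1 (hT j)
      exact ⟨R, s, h, hR, hs, hP, hH,
        (iff_coord hA01 hA05 hA10 hA11 pr P H R s h hR hs hP hH).1 h0⟩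
  refine ⟨h1, fun pr P H R s h hF hR hs hP hH => ?_⟩
  exact (iff_coord hA01 hA05 hA10 hA11 pr P H R s h hR hs hP hH).1 ((h1 pr P H).1 hF).2.2

end Pool.Agent.FUE
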