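import Pool.Agent.FUE.StA

/-!
# Fueter sections: the stress-energy tensor (helper98)

Module `A13`: `thm_A13 : St_A13`.
-/

set_option autoImplicit false
set_option linter.unusedVariables false

open scoped Manifold ContDiff Matrix
open MeasureTheory

namespace Pool.Agent.FUE

namespace A13x

/-- weighted inner product on `ℝ^4` -/
def ipx (A B C : ℝ) (h h' : Fin 4 → ℝ) : ℝ :=
  h 0 * h' 0 + A * (h 1 * h' 1) + B * (h 2 * h' 2) + C * (h 3 * h' 3)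

theorem ipx_add_left (A B C : ℝ) (h k h' : Fin 4 → ℝ) :
    ipx A B C (h + k) h' = ipx A B C h h' + ipx A B C k h' := by
  simp only [ipx, Pi.add_apply]; ring

theorem ipx_sub_left (A B C : ℝ) (h k h' : Fin 4 → ℝ) :
    ipx A B C (h - k) h' = ipx A B C h h' - ipx A B C k h' := by
  simp only [ipx, Pi.sub_apply]; ring

theorem ipx_smul_left (A B C : ℝ) (r : ℝ) (h h' : Fin 4 → ℝ) :
    ipx A B C (r • h) h' = r * ipx A B C h h' := by
  simp only [ipx, Pi.smul_apply, smul_eq_mul]; ring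

theorem ipx_comm (A B C : ℝ) (h h' : Fin 4 → ℝ) : ipx A B C h h' = ipx A B C h' h := by
  simp only [ipx]; ring

/-- products of imaginary quaternions -/
theorem qmul {A : Type} [Ring A] [Algebra ℝ A] (I0 I1 I2 : A) (h00 : I0 * I0 = -1)
    (h11 : I1 * I1 = -1) (h22 : I2 * I2 = -1) (h01 : I0 * I1 = I2) (h12 : I1 * I2 = I0)
    (h20 : I2 * I0 = I1) (h10 : I1 * I0 = -I2) (h21 : I2 * I1 = -I0) (h02 : I0 * I2 = -I1)
    (x0 x1 x2 y0 y1 y2 : ℝ) :
    (x0 • I0 + x1 • I1 + x2 • I2) * (y0 • I0 + y1 • I1 + y2 • I2) =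
      (-(x0 * y0 + x1 * y1 + x2 * y2)) • (1 : A) + (x1 * y2 - x2 * y1) • I0 +
        (x2 * y0 - x0 * y2) • I1 + (x0 * y1 - x1 * y0) • I2 := by
  simp only [add_mul, mul_add, smul_mul_smul_comm, h00, h11, h22, h01, h12, h20, h10, h21, h02]
  module

/-- the cofactor identity for rotations -/
theorem rot_cof (R : Matrix (Fin 3) (Fin 3) ℝ) (hR : IsRot R) (l m : Fin 3) :
    R (l + 2) m = R l (m + 1) * R (l + 1) (m + 2) - R l (m + 2) * R (l + 1) (m + 1) := by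
  have h1 : R.adjugate = Rᵀ := by
    have h2 : Rᵀ * R * R.adjugate = R.adjugate := by rw [hR.1, one_mul]
    rw [← h2, Matrix.mul_assoc, Matrix.mul_adjugate, hR.2, one_smul, Matrix.mul_one]
  rw [Matrix.adjugate_fin_three] at h1
  fin_cases l <;> fin_cases m
  · have := congrFun (congrFun h1 0) 2; simp at this; simp; linarith
  · have := congrFun (congrFun h1 1) 2; simp at this; simp; linarith
  · have := congrFun (congrFun h1 2) 2; simp at this; simp; linarith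
  · have := congrFun (congrFun h1 0) 0; simp at this; simp; linarith
  · have := congrFun (congrFun h1 1) 0; simp at this; simp; linarith
  · have := congrFun (congrFun h1 2) 0; simp at this; simp; linarith
  · have := congrFun (congrFun h1 0) 1; simp at this; simp; linarith
  · have := congrFun (congrFun h1 1) 1; simp at this; simp; linarith
  · have := congrFun (congrFun h1 2) 1; simp at this; simp; linarith

theorem rot_row (R : Matrix (Fin 3) (Fin 3) ℝ) (hR : IsRot R) (l m : Fin 3) :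
    R l 0 * R m 0 + R l 1 * R m 1 + R l 2 * R m 2 = if l = m then 1 else 0 := by
  have h1 : R * Rᵀ = 1 := mul_eq_one_comm.1 hR.1
  have h2 := congrFun (congrFun h1 l) m
  rw [Matrix.mul_apply, Fin.sum_univ_three, Matrix.one_apply] at h2
  exact h2

/-- the combinatorial core -/
theorem core (W : Fin 3 → Fin 3 → Fin 3 → ℝ) (g : Fin 3 → Fin 3 → ℝ)
    (hW : ∀ l a b, W l a b = -W l b a)
    (hg : ∀ i l, g i l = W (i + 2) (i + 1) l - W (i + 1) (i + 2) l) (i l : Fin 3) :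
    g i l = W l (i + 1) (i + 2) - (if i = l then ∑ k, W k (k + 1) (k + 2) else 0) := by
  have h0 : ∀ l a, W l a a = 0 := fun l a => by have := hW l a a; linarith
  rw [hg, Fin.sum_univ_three]
  fin_cases i <;> fin_cases l
  · have h1 := hW 2 1 0; simp; linarith
  · have h1 := hW 1 2 1; have h2 := h0 2 1; simp; linarith
  · have h1 := hW 2 1 2; have h2 := h0 1 2; simp; linarith
  · have h1 := h0 2 0; simp; linarith
  · have h1 := hW 0 2 1; simp; linarith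
  · have h1 := hW 2 0 2; have h2 := h0 0 2; simp; linarith
  · have h1 := hW 0 1 0; have h2 := h0 1 0; simp; linarith
  · have h1 := hW 0 1 0; have h2 := h0 0 1; simp; linarith
  · have h1 := hW 1 0 2; simp; linarith

/-- the complex structure of the direction `l` -/
def JJ (R : Matrix (Fin 3) (Fin 3) ℝ) (I : Fin 3 → Matrix (Fin 4) (Fin 4) ℝ) (l : Fin 3) :
    Matrix (Fin 4) (Fin 4) ℝ := R l 0 • I 0 + R l 1 • I 1 + R l 2 • I 2

theorem JJ_mulVec (R : Matrix (Fin 3) (Fin 3) ℝ) (I : Fin 3 → Matrix (Fin 4) (Fin 4) ℝ)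
    (l : Fin 3) (h : Fin 4 → ℝ) :
    (JJ R I l).mulVec h = ∑ m, R l m • (I m).mulVec h := by
  rw [JJ, Fin.sum_univ_three, Matrix.add_mulVec, Matrix.add_mulVec, Matrix.smul_mulVec,
    Matrix.smul_mulVec, Matrix.smul_mulVec]

section quat

variable (R : Matrix (Fin 3) (Fin 3) ℝ) (hR : IsRot R) (I : Fin 3 → Matrix (Fin 4) (Fin 4) ℝ)
  (h1 : ∀ i, I i * I i = -1) (h2 : ∀ i, I i * I (i + 1) = I (i + 2))
  (h3 : ∀ i, I (i + 1) * I i = -I (i + 2))

include h1 h2 h3 in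
theorem JJ_mul (l m : Fin 3) : JJ R I l * JJ R I m =
    (-(R l 0 * R m 0 + R l 1 * R m 1 + R l 2 * R m 2)) • (1 : Matrix (Fin 4) (Fin 4) ℝ) +
      (R l 1 * R m 2 - R l 2 * R m 1) • I 0 + (R l 2 * R m 0 - R l 0 * R m 2) • I 1 +
      (R l 0 * R m 1 - R l 1 * R m 0) • I 2 :=
  qmul (I 0) (I 1) (I 2) (h1 0) (h1 1) (h1 2) (h2 0) (h2 1) (h2 2) (h3 0) (h3 1) (h3 2)
    _ _ _ _ _ _

include hR h1 h2 h3 in
theorem JJ_sq (l : Fin 3) : JJ R I l * JJ R I l = -1 := by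
  rw [JJ_mul R I h1 h2 h3, rot_row R hR, if_pos rfl, mul_comm (R l 2) (R l 1),
    mul_comm (R l 2) (R l 0), mul_comm (R l 1) (R l 0), sub_self, sub_self, sub_self, zero_smul,
    zero_smul, zero_smul, add_zero, add_zero, add_zero, neg_smul, one_smul]

include hR h1 h2 h3 in
theorem JJ_one (l : Fin 3) : JJ R I l * JJ R I (l + 1) = JJ R I (l + 2) := by
  have e0 := rot_cof R hR l 0
  have e1 := rot_cof R hR l 1
  have e2 := rot_cof R hR l 2
  have hne : l ≠ l + 1 := by fin_cases l <;> decide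
  rw [JJ_mul R I h1 h2 h3, rot_row R hR, if_neg hne, neg_zero, zero_smul, zero_add, JJ]
  have f0 : R (l + 2) 0 = R l 1 * R (l + 1) 2 - R l 2 * R (l + 1) 1 := e0
  have f1 : R (l + 2) 1 = R l 2 * R (l + 1) 0 - R l 0 * R (l + 1) 2 := e1
  have f2 : R (l + 2) 2 = R l 0 * R (l + 1) 1 - R l 1 * R (l + 1) 0 := e2
  rw [f0, f1, f2]

include hR h1 h2 h3 in
theorem JJ_two (l : Fin 3) : JJ R I (l + 1) * JJ R I l = -JJ R I (l + 2) := by
  have e0 := rot_cof R hR l 0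
  have e1 := rot_cof R hR l 1
  have e2 := rot_cof R hR l 2
  have hne : l + 1 ≠ l := by fin_cases l <;> decide
  rw [JJ_mul R I h1 h2 h3, rot_row R hR, if_neg hne, neg_zero, zero_smul, zero_add, JJ]
  have f0 : R (l + 2) 0 = R l 1 * R (l + 1) 2 - R l 2 * R (l + 1) 1 := e0
  have f1 : R (l + 2) 1 = R l 2 * R (l + 1) 0 - R l 0 * R (l + 1) 2 := e1
  have f2 : R (l + 2) 2 = R l 0 * R (l + 1) 1 - R l 1 * R (l + 1) 0 := e2
  rw [f0, f1, f2]
  module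

include hR h1 h2 h3 in
/-- the Fueter equation solved for one derivative -/
theorem fueter_solve (h : Fin 3 → Fin 4 → ℝ) (hF : ∑ j, (JJ R I j).mulVec (h j) = 0)
    (i : Fin 3) :
    h i = (JJ R I (i + 2)).mulVec (h (i + 1)) - (JJ R I (i + 1)).mulVec (h (i + 2)) := by
  have hs : (JJ R I i).mulVec (h i) + (JJ R I (i + 1)).mulVec (h (i + 1)) +
      (JJ R I (i + 2)).mulVec (h (i + 2)) = 0 := by
    rw [Fin.sum_univ_three] at hF
    fin_cases i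
    · exact hF
    · rw [← hF]
      change (JJ R I 1).mulVec (h 1) + (JJ R I 2).mulVec (h 2) + (JJ R I 0).mulVec (h 0) = _
      abel
    · rw [← hF]
      change (JJ R I 2).mulVec (h 2) + (JJ R I 0).mulVec (h 0) + (JJ R I 1).mulVec (h 1) = _
      abel
  have h4 := congrArg (JJ R I i).mulVec hs
  have h5 : JJ R I i * JJ R I (i + 2) = -JJ R I (i + 1) := by
    have := JJ_two R hR I h1 h2 h3 (i + 2)
    have e1 : i + 2 + 1 = i := by fin_cases i <;> rfl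
    have e2 : i + 2 + 2 = i + 1 := by fin_cases i <;> rfl
    rwa [e1, e2] at this
  rw [Matrix.mulVec_add, Matrix.mulVec_add, Matrix.mulVec_mulVec, Matrix.mulVec_mulVec,
    Matrix.mulVec_mulVec, JJ_sq R hR I h1 h2 h3, JJ_one R hR I h1 h2 h3, h5, Matrix.mulVec_zero,
    Matrix.neg_mulVec, Matrix.neg_mulVec, Matrix.one_mulVec] at h4
  have h7 : (JJ R I (i + 2)).mulVec (h (i + 1)) - (JJ R I (i + 1)).mulVec (h (i + 2)) - h i = 0 := by
    rw [← h4]; abel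
  exact (sub_eq_zero.1 h7).symm

end quat

theorem ip_JJ (R : Matrix (Fin 3) (Fin 3) ℝ) (I : Fin 3 → Matrix (Fin 4) (Fin 4) ℝ) (A B C : ℝ)
    (l : Fin 3) (h h' : Fin 4 → ℝ) : ipx A B C ((JJ R I l).mulVec h) h' =
      ∑ m, R l m * ipx A B C ((I m).mulVec h) h' := by
  rw [JJ_mulVec, Fin.sum_univ_three, Fin.sum_univ_three, ipx_add_left, ipx_add_left, ipx_smul_left,
    ipx_smul_left, ipx_smul_left]

/-- `G_il` is the pulled back metric. -/
theorem Gf_eq (hA10 : St_A10) (hA11 : St_A11) (pr : Profile) (P : V9) (H : Fin 3 → V9)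
    (R : Matrix (Fin 3) (Fin 3) ℝ) (s : ℝ) (h : Fin 3 → Fin 4 → ℝ) (hR : IsRot R) (hs : 0 ≤ s)
    (hP : toM P = R * Dg s * Rᵀ) (hH : ∀ j, toM (H j) = R * (∑ k, h j k • Tb s k) * Rᵀ)
    (hF : ∑ j, ∑ i, R j i • (Ic pr s i).mulVec (h j) = 0) (i l : Fin 3) :
    Gf P pr H i l = ipx ((pr.al (s ^ 2) / 2) ^ 2) (pr.b s ^ 2) (pr.c s ^ 2) (h i) (h l) := by
  obtain ⟨a1, a2, a3, a4, a5⟩ := hA11 pr s hs
  have b1 : ∀ i h h', omh pr s h h' i =
      ipx ((pr.al (s ^ 2) / 2) ^ 2) (pr.b s ^ 2) (pr.c s ^ 2) ((Ic pr s i).mulVec h) h' := a1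
  have b2 : ∀ i h h',
      ipx ((pr.al (s ^ 2) / 2) ^ 2) (pr.b s ^ 2) (pr.c s ^ 2) ((Ic pr s i).mulVec h) h' =
      -ipx ((pr.al (s ^ 2) / 2) ^ 2) (pr.b s ^ 2) (pr.c s ^ 2) h ((Ic pr s i).mulVec h') := a2
  let W : Fin 3 → Fin 3 → Fin 3 → ℝ := fun l a b =>
    ipx ((pr.al (s ^ 2) / 2) ^ 2) (pr.b s ^ 2) (pr.c s ^ 2) ((JJ R (Ic pr s) l).mulVec (h a)) (h b)
  have hw : ∀ l i, wf P pr H l i = W l (i + 1) (i + 2) := by
    intro l i
    change om P pr l (H (i + 1)) (H (i + 2)) = _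
    rw [hA10 pr P _ _ R s (h (i + 1)) (h (i + 2)) hR hs hP (hH _) (hH _) l]
    change ∑ m, R l m * omh pr s (h (i + 1)) (h (i + 2)) m = ipx _ _ _ _ _
    rw [ip_JJ]
    exact Finset.sum_congr rfl fun m _ => by rw [b1]
  have hanti : ∀ l a b, W l a b = -W l b a := by
    intro l a b
    change ipx _ _ _ _ _ = -ipx _ _ _ _ _
    rw [ip_JJ, ip_JJ, ← Finset.sum_neg_distrib]
    refine Finset.sum_congr rfl fun m _ => ?_
    rw [b2, ipx_comm, mul_neg]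
  have hF' : ∑ j, (JJ R (Ic pr s) j).mulVec (h j) = 0 := by
    rw [← hF]
    exact Finset.sum_congr rfl fun j _ => JJ_mulVec R (Ic pr s) j (h j)
  have hg : ∀ i l, ipx ((pr.al (s ^ 2) / 2) ^ 2) (pr.b s ^ 2) (pr.c s ^ 2) (h i) (h l) =
      W (i + 2) (i + 1) l - W (i + 1) (i + 2) l := by
    intro i l
    conv_lhs => rw [fueter_solve R hR (Ic pr s) a3 a4 a5 h hF' i]
    rw [ipx_sub_left]
  rw [core W _ hanti hg i l, Gf, hw]
  congr 1
  by_cases hil : i = l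
  · rw [if_pos hil, if_pos hil]
    exact Finset.sum_congr rfl fun k _ => hw k k
  · rw [if_neg hil, if_neg hil]

theorem lam_eq (R : Matrix (Fin 3) (Fin 3) ℝ) (hR : IsRot R) (s : ℝ) (P : V9)
    (hP : toM P = R * Dg s * Rᵀ) : lam P = 2 + s ^ 2 := by
  rw [lam, hP, Matrix.trace_mul_cycle, hR.1, Matrix.one_mul, Matrix.trace_fin_three]
  simp [Dg]

theorem norm_eq (R : Matrix (Fin 3) (Fin 3) ℝ) (hR : IsRot R) (s : ℝ) (η : Fin 4 → ℝ) (H : V9)
    (hH : toM H = R * (∑ k, η k • Tb s k) * Rᵀ) :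
    ‖H‖ ^ 2 = (4 * s ^ 2 + 2) * η 0 ^ 2 + 2 * η 1 ^ 2 + 2 * (2 + s ^ 2 + s) ^ 2 * η 2 ^ 2 +
      2 * (2 + s ^ 2 - s) ^ 2 * η 3 ^ 2 := by
  have h1 : ‖H‖ ^ 2 = ((toM H)ᵀ * toM H).trace := by
    rw [EuclideanSpace.real_norm_sq_eq, Fintype.sum_prod_type, Matrix.trace_fin_three]
    simp only [Matrix.mul_apply, Matrix.transpose_apply, toM, Matrix.of_apply, Fin.sum_univ_three]
    ring
  have h2 : (toM H)ᵀ * toM H =
      R * ((∑ k, η k • Tb s k)ᵀ * (∑ k, η k • Tb s k)) * Rᵀ := by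
    rw [hH, Matrix.transpose_mul, Matrix.transpose_mul, Matrix.transpose_transpose]
    have h3 : Rᵀ * R = 1 := hR.1
    calc R * ((∑ k, η k • Tb s k)ᵀ * Rᵀ) * (R * (∑ k, η k • Tb s k) * Rᵀ)
        = R * (∑ k, η k • Tb s k)ᵀ * (Rᵀ * R) * (∑ k, η k • Tb s k) * Rᵀ := by
          simp only [Matrix.mul_assoc]
      _ = _ := by rw [h3, Matrix.mul_one, Matrix.mul_assoc R]
  rw [h1, h2, Matrix.trace_mul_cycle, hR.1, Matrix.one_mul, Matrix.trace_fin_three]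
  simp [Matrix.mul_apply, Fin.sum_univ_three, Fin.sum_univ_four, Tb]
  ring

theorem toM_sum (R : Matrix (Fin 3) (Fin 3) ℝ) (s : ℝ) (h : Fin 3 → Fin 4 → ℝ) (H : Fin 3 → V9)
    (hH : ∀ j, toM (H j) = R * (∑ k, h j k • Tb s k) * Rᵀ) (v : Fin 3 → ℝ) :
    toM (∑ i, v i • H i) = R * (∑ k, (∑ i, v i * h i k) • Tb s k) * Rᵀ := by
  have h1 : toM (∑ i, v i • H i) = ∑ i, v i • toM (H i) := by
    ext a b
    simp [toM, Fin.sum_univ_three]
  rw [h1]
  simp only [hH, Fin.sum_univ_three, Fin.sum_univ_four]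
  have h2 : ∀ (r : ℝ) (X : Matrix (Fin 3) (Fin 3) ℝ), r • (R * X * Rᵀ) = R * (r • X) * Rᵀ := by
    intro r X
    rw [Matrix.mul_smul, Matrix.smul_mul]
  have h3 : ∀ X Y : Matrix (Fin 3) (Fin 3) ℝ, R * X * Rᵀ + R * Y * Rᵀ = R * (X + Y) * Rᵀ := by
    intro X Y
    rw [Matrix.mul_add, Matrix.add_mul]
  rw [h2, h2, h2, h3, h3]
  congr 2
  module

theorem quad_eq (A B C : ℝ) (h : Fin 3 → Fin 4 → ℝ) (v : Fin 3 → ℝ) :
    ∑ i, ∑ l, v i * v l * ipx A B C (h i) (h l) =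
      (∑ i, v i * h i 0) ^ 2 + A * (∑ i, v i * h i 1) ^ 2 + B * (∑ i, v i * h i 2) ^ 2 +
        C * (∑ i, v i * h i 3) ^ 2 := by
  simp only [Fin.sum_univ_three, ipx]
  ring

/-- comparison of the two norms -/
theorem comp_low (s T δ a b c N : ℝ) (x : Fin 4 → ℝ) (hδ : 0 < δ) (hδ1 : δ ≤ 1) (hs : 0 ≤ s)
    (hsT : s ≤ T) (ha : δ ≤ a) (hb : δ ≤ b) (hc : δ ≤ -c)
    (hN : N = 4 * T ^ 2 + 4 + 2 * (2 + T ^ 2 + T) ^ 2) :
    δ ^ 2 / 4 / N * ((4 * s ^ 2 + 2) * x 0 ^ 2 + 2 * x 1 ^ 2 + 2 * (2 + s ^ 2 + s) ^ 2 * x 2 ^ 2 +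
      2 * (2 + s ^ 2 - s) ^ 2 * x 3 ^ 2) ≤
      x 0 ^ 2 + (a / 2) ^ 2 * x 1 ^ 2 + b ^ 2 * x 2 ^ 2 + c ^ 2 * x 3 ^ 2 := by
  have hT : 0 ≤ T := hs.trans hsT
  have hN0 : 0 < N := by rw [hN]; positivity
  have hs2 : s ^ 2 ≤ T ^ 2 := pow_le_pow_left₀ hs hsT 2
  have n0 : 4 * s ^ 2 + 2 ≤ N := by rw [hN]; nlinarith [sq_nonneg (2 + T ^ 2 + T)]
  have n1 : (2 : ℝ) ≤ N := by rw [hN]; nlinarith [sq_nonneg (2 + T ^ 2 + T), sq_nonneg T]
  have n2 : 2 * (2 + s ^ 2 + s) ^ 2 ≤ N := by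
    have h1 : (2 + s ^ 2 + s) ^ 2 ≤ (2 + T ^ 2 + T) ^ 2 :=
      pow_le_pow_left₀ (by positivity) (by linarith) 2
    rw [hN]; nlinarith [sq_nonneg T]
  have n3 : 2 * (2 + s ^ 2 - s) ^ 2 ≤ N := by
    have h1 : (2 + s ^ 2 - s) ^ 2 ≤ (2 + T ^ 2 + T) ^ 2 :=
      pow_le_pow_left₀ (by nlinarith [sq_nonneg (s - 1)]) (by linarith) 2
    rw [hN]; nlinarith [sq_nonneg T]
  have m0 : δ ^ 2 / 4 ≤ 1 := by nlinarith
  have m1 : δ ^ 2 / 4 ≤ (a / 2) ^ 2 := by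
    have := pow_le_pow_left₀ hδ.le ha 2
    rw [div_pow]; linarith
  have m2 : δ ^ 2 / 4 ≤ b ^ 2 := by
    have := pow_le_pow_left₀ hδ.le hb 2
    nlinarith [sq_nonneg δ]
  have m3 : δ ^ 2 / 4 ≤ c ^ 2 := by
    have := pow_le_pow_left₀ hδ.le hc 2
    nlinarith [sq_nonneg δ]
  calc _ ≤ δ ^ 2 / 4 / N * (N * x 0 ^ 2 + N * x 1 ^ 2 + N * x 2 ^ 2 + N * x 3 ^ 2) := by
        refine mul_le_mul_of_nonneg_left ?_ (by positivity)
        have e0 := mul_le_mul_of_nonneg_right n0 (sq_nonneg (x 0))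
        have e1 := mul_le_mul_of_nonneg_right n1 (sq_nonneg (x 1))
        have e2 := mul_le_mul_of_nonneg_right n2 (sq_nonneg (x 2))
        have e3 := mul_le_mul_of_nonneg_right n3 (sq_nonneg (x 3))
        linarith
    _ = δ ^ 2 / 4 * x 0 ^ 2 + δ ^ 2 / 4 * x 1 ^ 2 + δ ^ 2 / 4 * x 2 ^ 2 +
        δ ^ 2 / 4 * x 3 ^ 2 := by field_simp
    _ ≤ _ := by
        have e0 := mul_le_mul_of_nonneg_right m0 (sq_nonneg (x 0))
        have e1 := mul_le_mul_of_nonneg_right m1 (sq_nonneg (x 1))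
        have e2 := mul_le_mul_of_nonneg_right m2 (sq_nonneg (x 2))
        have e3 := mul_le_mul_of_nonneg_right m3 (sq_nonneg (x 3))
        linarith

theorem comp_sum (s : ℝ) (x : Fin 4 → ℝ) (hs : 0 ≤ s) :
    x 0 ^ 2 + x 1 ^ 2 + x 2 ^ 2 + x 3 ^ 2 ≤
      (4 * s ^ 2 + 2) * x 0 ^ 2 + 2 * x 1 ^ 2 + 2 * (2 + s ^ 2 + s) ^ 2 * x 2 ^ 2 +
      2 * (2 + s ^ 2 - s) ^ 2 * x 3 ^ 2 := by
  have n0 : 1 ≤ 4 * s ^ 2 + 2 := by nlinarith [sq_nonneg s]
  have n2 : 1 ≤ 2 * (2 + s ^ 2 + s) ^ 2 := by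
    have h1 : 1 ≤ 2 + s ^ 2 + s := by nlinarith [sq_nonneg s]
    nlinarith
  have n3 : 1 ≤ 2 * (2 + s ^ 2 - s) ^ 2 := by
    have h1 : 1 ≤ 2 + s ^ 2 - s := by nlinarith [sq_nonneg (s - 1), sq_nonneg s]
    nlinarith
  have e0 := mul_le_mul_of_nonneg_right n0 (sq_nonneg (x 0))
  have e1 := sq_nonneg (x 1)
  have e2 := mul_le_mul_of_nonneg_right n2 (sq_nonneg (x 2))
  have e3 := mul_le_mul_of_nonneg_right n3 (sq_nonneg (x 3))
  linarith

theorem comp_up (s D a b c : ℝ) (x : Fin 4 → ℝ) (hD : 1 ≤ D) (hs : 0 ≤ s) (ha0 : 0 ≤ a)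
    (ha : a ≤ D) (hb0 : 0 ≤ b) (hb : b ≤ D) (hc0 : 0 ≤ -c) (hc : -c ≤ D) :
    x 0 ^ 2 + (a / 2) ^ 2 * x 1 ^ 2 + b ^ 2 * x 2 ^ 2 + c ^ 2 * x 3 ^ 2 ≤
    D ^ 2 * ((4 * s ^ 2 + 2) * x 0 ^ 2 + 2 * x 1 ^ 2 + 2 * (2 + s ^ 2 + s) ^ 2 * x 2 ^ 2 +
      2 * (2 + s ^ 2 - s) ^ 2 * x 3 ^ 2) := by
  refine le_trans ?_ (mul_le_mul_of_nonneg_left (comp_sum s x hs) (sq_nonneg D))
  have m0 : 1 ≤ D ^ 2 := by nlinarith
  have m1 : (a / 2) ^ 2 ≤ D ^ 2 := pow_le_pow_left₀ (by linarith) (by linarith) 2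
  have m2 : b ^ 2 ≤ D ^ 2 := pow_le_pow_left₀ hb0 hb 2
  have m3 : c ^ 2 ≤ D ^ 2 := by
    have := pow_le_pow_left₀ hc0 hc 2
    linarith [neg_sq c]
  have e0 := mul_le_mul_of_nonneg_right m0 (sq_nonneg (x 0))
  have e1 := mul_le_mul_of_nonneg_right m1 (sq_nonneg (x 1))
  have e2 := mul_le_mul_of_nonneg_right m2 (sq_nonneg (x 2))
  have e3 := mul_le_mul_of_nonneg_right m3 (sq_nonneg (x 3))
  linarith

theorem rot_abs (R : Matrix (Fin 3) (Fin 3) ℝ) (hR : IsRot R) (l m : Fin 3) : |R l m| ≤ 1 := by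
  have h := rot_row R hR l l
  rw [if_pos rfl] at h
  refine abs_le_one_iff_mul_self_le_one.2 ?_
  fin_cases m
  · change R l 0 * R l 0 ≤ 1
    nlinarith [mul_self_nonneg (R l 1), mul_self_nonneg (R l 2)]
  · change R l 1 * R l 1 ≤ 1
    nlinarith [mul_self_nonneg (R l 0), mul_self_nonneg (R l 2)]
  · change R l 2 * R l 2 ≤ 1
    nlinarith [mul_self_nonneg (R l 0), mul_self_nonneg (R l 1)]

theorem s_le (s S : ℝ) (_hs : 0 ≤ s) (h : 2 + s ^ 2 ≤ S) : s ≤ |S| := by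
  have h1 : S ≤ |S| := le_abs_self S
  nlinarith [sq_nonneg (s - 1)]

end A13x

open A13x in
theorem thm_A13 (hA01 : St_A01) (hA05 : St_A05) (hA08 : St_A08) (hA10 : St_A10) (hA11 : St_A11)
    (hA12 : St_A12) : St_A13 := by
  intro pr S
  obtain ⟨δ, hδ, hb⟩ := hA01.2.2.2 pr |S|
  have hT : 0 ≤ |S| := abs_nonneg S
  have hδ1 : δ ≤ 1 := by
    obtain ⟨h1, h2, _⟩ := hb 0 le_rfl hT
    by_contra h
    have h3 : 1 < δ := not_le.1 h
    have h4 : δ⁻¹ < 1 := inv_lt_one_of_one_lt₀ h3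
    linarith
  have hD1 : 1 ≤ δ⁻¹ := (one_le_inv₀ hδ).2 hδ1
  have hD0 : 0 < δ⁻¹ := inv_pos.2 hδ
  set D := δ⁻¹ with hD
  set T := |S| with hTdef
  obtain ⟨N, hN⟩ : ∃ N : ℝ, N = 4 * T ^ 2 + 4 + 2 * (2 + T ^ 2 + T) ^ 2 := ⟨_, rfl⟩
  have hN0 : 0 < N := by rw [hN]; positivity
  refine ⟨δ ^ 2 / 4 / N, 3 * (D ^ 2 * (1 + T)) + D ^ 2, by positivity, by positivity, ?_, ?_⟩
  · intro P H hlam hF
    obtain ⟨R, s, h, hR, hs, hP, hH, hE⟩ := hF
    have hG := Gf_eq hA10 hA11 pr P H R s h hR hs hP hH hE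
    have hsT : s ≤ T := s_le s S hs (by rw [← lam_eq R hR s P hP]; exact hlam)
    obtain ⟨q1, q2, q3, q4, q5, q6⟩ := hb s hs hsT
    refine ⟨fun i l => ?_, fun i l => ?_, fun v => ?_, fun v => ?_⟩
    · rw [hG, hG, ipx_comm]
    · have h1 : ∀ k, Gf P pr H k k = wf P pr H k k - ∑ k, wf P pr H k k := fun k => by
        rw [Gf, if_pos rfl]
      by_cases hil : i = l
      · rw [Fin.sum_univ_three, h1 0, h1 1, h1 2, Gf, if_pos hil, if_pos hil, Fin.sum_univ_three]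
        ring
      · rw [Gf, if_neg hil, if_neg hil, sub_zero, sub_zero]
    · simp only [hG]
      rw [quad_eq, norm_eq R hR s (fun k => ∑ i, v i * h i k) _ (toM_sum R s h H hH v)]
      exact comp_low s T δ (pr.al (s ^ 2)) (pr.b s) (pr.c s) N (fun k => ∑ i, v i * h i k)
        hδ hδ1 hs hsT q1 q3 q5 hN
    · simp only [hG]
      rw [quad_eq, norm_eq R hR s (fun k => ∑ i, v i * h i k) _ (toM_sum R s h H hH v)]
      refine (comp_up s D (pr.al (s ^ 2)) (pr.b s) (pr.c s) (fun k => ∑ i, v i * h i k) hD1 hs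
        (hδ.le.trans q1) q2 (hδ.le.trans q3) q4 (hδ.le.trans q5) q6).trans ?_
      refine mul_le_mul_of_nonneg_right ?_ ?_
      · have : 0 ≤ D ^ 2 * (1 + T) := by positivity
        linarith
      · exact (add_nonneg (add_nonneg (add_nonneg (sq_nonneg _) (sq_nonneg _)) (sq_nonneg _))
          (sq_nonneg _)).trans (comp_sum s (fun k => ∑ i, v i * h i k) hs)
  · intro P H hP hlam hTan l
    obtain ⟨R, s, hR, hs, hP'⟩ := hP
    have hsT : s ≤ T := s_le s S hs (by rw [← lam_eq R hR s P hP']; exact hlam)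
    obtain ⟨q1, q2, q3, q4, q5, q6⟩ := hb s hs hsT
    obtain ⟨h, hH⟩ := ((hA05 P R s hR hs hP').1 H).1 hTan
    have hn := norm_eq R hR s h H hH
    have hsum := comp_sum s h hs
    rw [← hn] at hsum
    have hk : ∀ k : Fin 4, |h k| ≤ ‖H‖ := by
      intro k
      refine abs_le_of_sq_le_sq ?_ (norm_nonneg H)
      refine le_trans ?_ hsum
      fin_cases k
      · change h 0 ^ 2 ≤ _
        nlinarith [sq_nonneg (h 1), sq_nonneg (h 2), sq_nonneg (h 3)]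
      · change h 1 ^ 2 ≤ _
        nlinarith [sq_nonneg (h 0), sq_nonneg (h 2), sq_nonneg (h 3)]
      · change h 2 ^ 2 ≤ _
        nlinarith [sq_nonneg (h 0), sq_nonneg (h 1), sq_nonneg (h 3)]
      · change h 3 ^ 2 ≤ _
        nlinarith [sq_nonneg (h 0), sq_nonneg (h 1), sq_nonneg (h 2)]
    have hab : |pr.a s| ≤ T * D := by
      change |s * pr.al (s ^ 2)| ≤ T * D
      rw [abs_mul, abs_of_nonneg hs, abs_of_nonneg (hδ.le.trans q1)]
      exact mul_le_mul hsT q2 (hδ.le.trans q1) hT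
    have hbb : |pr.b s| ≤ D := by rw [abs_of_nonneg (hδ.le.trans q3)]; exact q4
    have hcb : |pr.c s| ≤ D := by
      rw [abs_of_nonpos (by linarith)]; exact q6
    have hal : |pr.al (s ^ 2)| ≤ D := by rw [abs_of_nonneg (hδ.le.trans q1)]; exact q2
    have hH0 := norm_nonneg H
    have g0 : |s * pr.al (s ^ 2) * pr.ka (s ^ 2) * h 1 / 2| ≤ D ^ 2 * (1 + T) * ‖H‖ := by
      have e1 : s * pr.al (s ^ 2) * pr.ka (s ^ 2) * h 1 / 2 =
          pr.al (s ^ 2) * ((pr.b s + pr.c s) / 4) * h 1 := by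
        simp only [Profile.b, Profile.c]; ring
      rw [e1, abs_mul, abs_mul]
      have e2 : |(pr.b s + pr.c s) / 4| ≤ D := by
        rw [abs_div, abs_of_pos (by norm_num : (0 : ℝ) < 4)]
        have := abs_add_le (pr.b s) (pr.c s)
        linarith
      have e3 : |pr.al (s ^ 2)| * |(pr.b s + pr.c s) / 4| ≤ D * D :=
        mul_le_mul hal e2 (abs_nonneg _) hD0.le
      have e4 : D * D ≤ D ^ 2 * (1 + T) := by nlinarith [sq_nonneg D]
      exact mul_le_mul (e3.trans e4) (hk 1) (abs_nonneg _) (by positivity)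
    have g1 : |pr.b s * (pr.c s + pr.a s) * h 2 / 2| ≤ D ^ 2 * (1 + T) * ‖H‖ := by
      rw [abs_div, abs_mul, abs_mul, abs_of_pos (by norm_num : (0 : ℝ) < 2)]
      have e2 : |pr.c s + pr.a s| ≤ D * (1 + T) := by
        have := abs_add_le (pr.c s) (pr.a s)
        linarith
      have e3 : |pr.b s| * |pr.c s + pr.a s| ≤ D * (D * (1 + T)) :=
        mul_le_mul hbb e2 (abs_nonneg _) hD0.le
      have e4 : |pr.b s| * |pr.c s + pr.a s| * |h 2| ≤ D * (D * (1 + T)) * ‖H‖ :=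
        mul_le_mul e3 (hk 2) (abs_nonneg _) (by positivity)
      have e5 : 0 ≤ D ^ 2 * (1 + T) * ‖H‖ := by positivity
      have e6 : D * (D * (1 + T)) * ‖H‖ = D ^ 2 * (1 + T) * ‖H‖ := by ring
      linarith
    have g2 : |pr.c s * (pr.a s + pr.b s) * h 3 / 2| ≤ D ^ 2 * (1 + T) * ‖H‖ := by
      rw [abs_div, abs_mul, abs_mul, abs_of_pos (by norm_num : (0 : ℝ) < 2)]
      have e2 : |pr.a s + pr.b s| ≤ D * (1 + T) := by
        have := abs_add_le (pr.a s) (pr.b s)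
        linarith
      have e3 : |pr.c s| * |pr.a s + pr.b s| ≤ D * (D * (1 + T)) :=
        mul_le_mul hcb e2 (abs_nonneg _) hD0.le
      have e4 : |pr.c s| * |pr.a s + pr.b s| * |h 3| ≤ D * (D * (1 + T)) * ‖H‖ :=
        mul_le_mul e3 (hk 3) (abs_nonneg _) (by positivity)
      have e5 : 0 ≤ D ^ 2 * (1 + T) * ‖H‖ := by positivity
      have e6 : D * (D * (1 + T)) * ‖H‖ = D ^ 2 * (1 + T) * ‖H‖ := by ring
      linarith
    rw [hA08 pr P H R s h hR hs hP' hH]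
    have hm : ∀ g : Fin 3 → ℝ, (∀ m, |g m| ≤ D ^ 2 * (1 + T) * ‖H‖) →
        |R.mulVec g l| ≤ (3 * (D ^ 2 * (1 + T)) + D ^ 2) * ‖H‖ := by
      intro g hg
      have e1 : R.mulVec g l = R l 0 * g 0 + R l 1 * g 1 + R l 2 * g 2 := by
        change ∑ m, R l m * g m = _
        rw [Fin.sum_univ_three]
      have e2 : ∀ m, |R l m * g m| ≤ D ^ 2 * (1 + T) * ‖H‖ := fun m => by
        rw [abs_mul]
        have := mul_le_mul (rot_abs R hR l m) (hg m) (abs_nonneg _) zero_le_one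
        linarith
      have e3 := abs_add_le (R l 0 * g 0 + R l 1 * g 1) (R l 2 * g 2)
      have e4 := abs_add_le (R l 0 * g 0) (R l 1 * g 1)
      have e5 := e2 0
      have e6 := e2 1
      have e7 := e2 2
      have e8 : 0 ≤ D ^ 2 * ‖H‖ := by positivity
      rw [e1]
      calc _ ≤ 3 * (D ^ 2 * (1 + T) * ‖H‖) := by linarith
        _ ≤ 3 * (D ^ 2 * (1 + T) * ‖H‖) + D ^ 2 * ‖H‖ := by linarith
        _ = _ := by ring
    refine hm _ fun m => ?_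
    fin_cases m
    · exact g0
    · exact g1
    · exact g2

end Pool.Agent.FUE
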