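import Pool.Agent.FUE.StA

/-!
# [A14] closedness
-/

set_option autoImplicit false

open scoped Manifold ContDiff Matrix
open MeasureTheory

namespace Pool.Agent.FUE

namespace A14x

/-- matrices as functions -/
abbrev Mt := Matrix (Fin 3) (Fin 3) ℝ

theorem continuous_toM : Continuous (fun P : V9 => toM P) := by
  refine continuous_matrix fun i j => ?_
  show Continuous fun P : V9 => P (i, j)
  fun_prop

theorem continuous_lam : Continuous (fun P : V9 => lam P) := by
  unfold lam
  exact continuous_toM.matrix_trace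

theorem continuous_Dg : Continuous Dg := by
  unfold Dg
  refine continuous_matrix fun i j => ?_
  fin_cases i <;> fin_cases j <;> simp [Matrix.diagonal] <;> fun_prop

theorem rot_entry {R : Mt} (hR : IsRot R) (i j : Fin 3) : R i j ∈ Set.Icc (-1 : ℝ) 1 := by
  have h := congrFun (congrFun hR.1 j) j
  simp only [Matrix.mul_apply, Matrix.transpose_apply, Fin.sum_univ_three, Matrix.one_apply_eq]
    at h
  have h0 := mul_self_nonneg (R 0 j)
  have h1 := mul_self_nonneg (R 1 j)
  have h2 := mul_self_nonneg (R 2 j)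
  constructor
  · fin_cases i
    · show -1 ≤ R 0 j
      nlinarith
    · show -1 ≤ R 1 j
      nlinarith
    · show -1 ≤ R 2 j
      nlinarith
  · fin_cases i
    · show R 0 j ≤ 1
      nlinarith
    · show R 1 j ≤ 1
      nlinarith
    · show R 2 j ≤ 1
      nlinarith

theorem isClosed_rot : IsClosed {R : Mt | IsRot R} := by
  have h1 : IsClosed {R : Mt | Rᵀ * R = 1} :=
    isClosed_eq (by fun_prop) continuous_const
  have h2 : IsClosed {R : Mt | R.det = 1} :=
    isClosed_eq (continuous_id.matrix_det) continuous_const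
  exact h1.inter h2

theorem isCompact_rot : IsCompact {R : Mt | IsRot R} := by
  have hc : IsCompact (Set.pi Set.univ fun _ : Fin 3 => Set.pi Set.univ
      fun _ : Fin 3 => Set.Icc (-1 : ℝ) 1) :=
    isCompact_univ_pi fun _ => isCompact_univ_pi fun _ => isCompact_Icc
  refine IsCompact.of_isClosed_subset hc isClosed_rot ?_
  intro R hR i _ j _
  exact rot_entry hR i j

theorem fc_Mt : FirstCountableTopology Mt :=
  inferInstanceAs (FirstCountableTopology (Fin 3 → Fin 3 → ℝ))

theorem sub (hA04 : St_A04) (P : ℕ → V9) (P' : V9) (R : ℕ → Mt) (s : ℕ → ℝ)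
    (hR : ∀ n, IsRot (R n)) (hs : ∀ n, 0 ≤ s n)
    (hP : ∀ n, toM (P n) = R n * Dg (s n) * (R n)ᵀ)
    (hlim : Filter.Tendsto P Filter.atTop (nhds P')) :
    ∃ (φ : ℕ → ℕ) (R' : Mt) (s' : ℝ), StrictMono φ ∧ IsRot R' ∧ 0 ≤ s' ∧
      toM P' = R' * Dg s' * R'ᵀ ∧
      Filter.Tendsto (fun n => R (φ n)) Filter.atTop (nhds R') ∧
      Filter.Tendsto (fun n => s (φ n)) Filter.atTop (nhds s') := by
  have hlam : Filter.Tendsto (fun n => lam (P n)) Filter.atTop (nhds (lam P')) :=
    (continuous_lam.tendsto P').comp hlim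
  obtain ⟨M, hM⟩ := hlam.bddAbove_range
  have hsM : ∀ n, s n ∈ Set.Icc (0 : ℝ) (|M| + 1) := by
    intro n
    refine ⟨hs n, ?_⟩
    have h1 : lam (P n) ≤ M := hM (Set.mem_range_self n)
    have h2 := (hA04.2 (P n) (R n) (s n) (hR n) (hP n)).1
    have h3 := le_abs_self M
    by_contra hcon
    push Not at hcon
    have h4 : 0 ≤ |M| := abs_nonneg M
    nlinarith
  have hK : IsCompact ({R : Mt | IsRot R} ×ˢ Set.Icc (0 : ℝ) (|M| + 1)) :=
    isCompact_rot.prod isCompact_Icc
  have := fc_Mt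
  obtain ⟨q, hq, φ, hφ, hlimq⟩ := hK.tendsto_subseq (x := fun n => (R n, s n))
    (fun n => ⟨hR n, hsM n⟩)
  have hRl : Filter.Tendsto (fun n => R (φ n)) Filter.atTop (nhds q.1) :=
    (continuous_fst.tendsto q).comp hlimq
  have hsl : Filter.Tendsto (fun n => s (φ n)) Filter.atTop (nhds q.2) :=
    (continuous_snd.tendsto q).comp hlimq
  refine ⟨φ, q.1, q.2, hφ, hq.1, hq.2.1, ?_, hRl, hsl⟩
  have hl1 : Filter.Tendsto (fun n => toM (P (φ n))) Filter.atTop (nhds (toM P')) :=
    (continuous_toM.tendsto P').comp (hlim.comp hφ.tendsto_atTop)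
  have hRt : Filter.Tendsto (fun n => (R (φ n))ᵀ) Filter.atTop (nhds q.1ᵀ) :=
    ((continuous_id.matrix_transpose).tendsto q.1).comp hRl
  have hDl : Filter.Tendsto (fun n => Dg (s (φ n))) Filter.atTop (nhds (Dg q.2)) :=
    (continuous_Dg.tendsto q.2).comp hsl
  have hl2 : Filter.Tendsto (fun n => R (φ n) * Dg (s (φ n)) * (R (φ n))ᵀ) Filter.atTop
      (nhds (q.1 * Dg q.2 * q.1ᵀ)) := (hRl.mul hDl).mul hRt
  have he : (fun n => toM (P (φ n))) = fun n => R (φ n) * Dg (s (φ n)) * (R (φ n))ᵀ := by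
    funext n
    exact hP (φ n)
  rw [he] at hl1
  exact tendsto_nhds_unique hl1 hl2

theorem isClosed_AH (hA04 : St_A04) : IsClosed AH := by
  refine IsSeqClosed.isClosed ?_
  intro P P' hP hlim
  choose R s hR hs hPn using hP
  obtain ⟨φ, R', s', -, hR', hs', hP', -, -⟩ := sub hA04 P P' R s hR hs hPn hlim
  exact ⟨R', s', hR', hs', hP'⟩

/-- the coefficients of a matrix in the basis -/
noncomputable def cf (s : ℝ) (K : Mt) : Fin 4 → ℝ :=
  ![K 1 1, K 1 2, -(K 0 2) / (2 + s ^ 2 + s), K 0 1 / (2 + s ^ 2 - s)]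

theorem p1 {s : ℝ} (hs : 0 ≤ s) : 0 < 2 + s ^ 2 + s := by positivity

theorem p2 (s : ℝ) : 0 < 2 + s ^ 2 - s := by nlinarith [sq_nonneg (s - 1 / 2)]

theorem cf_sum {s : ℝ} (hs : 0 ≤ s) (h : Fin 4 → ℝ) : cf s (∑ k, h k • Tb s k) = h := by
  have h1 := (p1 hs).ne'
  have h2 := (p2 s).ne'
  funext k
  fin_cases k
  · simp [cf, Tb, Fin.sum_univ_four]
  · simp [cf, Tb, Fin.sum_univ_four]
  · simp [cf, Tb, Fin.sum_univ_four]
    field_simp
    try ring
  · simp [cf, Tb, Fin.sum_univ_four]
    field_simp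

theorem tendsto_cf {K : ℕ → Mt} {K' : Mt} {s : ℕ → ℝ} {s' : ℝ} (hs' : 0 ≤ s')
    (hK : Filter.Tendsto K Filter.atTop (nhds K'))
    (hs : Filter.Tendsto s Filter.atTop (nhds s')) :
    Filter.Tendsto (fun n => cf (s n) (K n)) Filter.atTop (nhds (cf s' K')) := by
  have h1 := (p1 hs').ne'
  have h2 := (p2 s').ne'
  have hent : ∀ i j, Filter.Tendsto (fun n => K n i j) Filter.atTop (nhds (K' i j)) := by
    intro i j
    exact ((continuous_id.matrix_elem i j).tendsto K').comp hK
  rw [tendsto_pi_nhds]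
  intro k
  fin_cases k
  · exact hent 1 1
  · exact hent 1 2
  · show Filter.Tendsto (fun n => -(K n 0 2) / (2 + (s n) ^ 2 + s n)) Filter.atTop
      (nhds (-(K' 0 2) / (2 + s' ^ 2 + s')))
    exact (hent 0 2).neg.div (((hs.pow 2).const_add 2).add hs) h1
  · show Filter.Tendsto (fun n => (K n 0 1) / (2 + (s n) ^ 2 - s n)) Filter.atTop
      (nhds ((K' 0 1) / (2 + s' ^ 2 - s')))
    exact (hent 0 1).div (((hs.pow 2).const_add 2).sub hs) h2

theorem continuous_Tb (k : Fin 4) : Continuous (fun s => Tb s k) := by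
  refine continuous_matrix fun i j => ?_
  fin_cases k <;> fin_cases i <;> fin_cases j <;> simp [Tb] <;> fun_prop

theorem continuousAt_Ic (hA01 : St_A01) (pr : Profile) {s : ℝ} (hs : 0 ≤ s) (i : Fin 3)
    (k l : Fin 4) : ContinuousAt (fun s => Ic pr s i k l) s := by
  have hal : ContinuousAt (fun s : ℝ => pr.al (s ^ 2)) s :=
    (pr.smooth_al.continuous.comp (continuous_pow 2)).continuousAt
  have hb : ContinuousAt (fun s : ℝ => pr.b s) s := by
    unfold Profile.b
    exact ((pr.smooth_be.continuous.comp (continuous_pow 2)).add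
      (continuous_id.mul (pr.smooth_ka.continuous.comp (continuous_pow 2)))).continuousAt
  have hc : ContinuousAt (fun s : ℝ => pr.c s) s := by
    unfold Profile.c
    exact ((pr.smooth_be.continuous.comp (continuous_pow 2)).neg.add
      (continuous_id.mul (pr.smooth_ka.continuous.comp (continuous_pow 2)))).continuousAt
  have nal : pr.al (s ^ 2) ≠ 0 := (hA01.1 pr (s ^ 2) (sq_nonneg s)).ne'
  have nb : pr.b s ≠ 0 := (hA01.2.1 pr s hs).1.ne'
  have nc : pr.c s ≠ 0 := (hA01.2.1 pr s hs).2.1.ne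
  have n2b : 2 * pr.b s ≠ 0 := mul_ne_zero two_ne_zero nb
  have n2c : 2 * pr.c s ≠ 0 := mul_ne_zero two_ne_zero nc
  have k2 : ContinuousAt (fun _ : ℝ => (2 : ℝ)) s := continuousAt_const
  have k1 : ContinuousAt (fun _ : ℝ => (1 : ℝ)) s := continuousAt_const
  have e1 := (hal.div k2 two_ne_zero).neg
  have e2 := k2.div hal nal
  have e3 := (hc.div hb nb).neg
  have e4 := hb.div hc nc
  have e5 := hb.neg
  have e6 := (k2.mul hc).div hal nal
  have e7 := k1.div hb nb
  have e8 := (hal.div (k2.mul hc) n2c).neg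
  have e9 := hc.neg
  have e10 := ((k2.mul hb).div hal nal).neg
  have e11 := hal.div (k2.mul hb) n2b
  have e12 := k1.div hc nc
  have k0 : ContinuousAt (fun _ : ℝ => (0 : ℝ)) s := continuousAt_const
  fin_cases i <;> fin_cases k <;> fin_cases l <;>
    first
      | exact k0
      | exact e1
      | exact e2
      | exact e3
      | exact e4
      | exact e5
      | exact e6
      | exact e7
      | exact e8
      | exact e9
      | exact e10
      | exact e11
      | exact e12

end A14x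

open A14x in
theorem thm_A14 (hA01 : St_A01) (hA04 : St_A04) (hA05 : St_A05) (hA07 : St_A07) (hA10 : St_A10)
    (hA11 : St_A11) (hA12 : St_A12) : St_A14 := by
  have _u1 := hA05
  have _u2 := hA07
  have _u3 := hA10
  have _u4 := hA11
  have _u5 := hA12
  refine ⟨isClosed_AH hA04, ?_⟩
  intro pr P H P' H' hF hP hH
  choose R s h hR hs hPn hHn0 hEq using hF
  have hHn : ∀ n j, toM (H n j) = R n * (∑ k, h n j k • Tb (s n) k) * (R n)ᵀ :=
    fun n j => hHn0 n j
  obtain ⟨φ, R', s', hφ, hR', hs', hP', hRl, hsl⟩ := sub hA04 P P' R s hR hs hPn hP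
  have hRt : Filter.Tendsto (fun n => (R (φ n))ᵀ) Filter.atTop (nhds R'ᵀ) :=
    ((continuous_id.matrix_transpose).tendsto R').comp hRl
  have hHl : ∀ j, Filter.Tendsto (fun n => toM (H (φ n) j)) Filter.atTop (nhds (toM (H' j))) := by
    intro j
    exact (continuous_toM.tendsto (H' j)).comp ((hH j).comp hφ.tendsto_atTop)
  have hKl : ∀ j, Filter.Tendsto (fun n => (R (φ n))ᵀ * toM (H (φ n) j) * R (φ n)) Filter.atTop
      (nhds (R'ᵀ * toM (H' j) * R')) := fun j => (hRt.mul (hHl j)).mul hRl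
  have hK : ∀ n j, (R n)ᵀ * toM (H n j) * R n = ∑ k, h n j k • Tb (s n) k := by
    intro n j
    rw [hHn n j]
    have e := (hR n).1
    calc (R n)ᵀ * (R n * (∑ k, h n j k • Tb (s n) k) * (R n)ᵀ) * R n
        = ((R n)ᵀ * R n) * (∑ k, h n j k • Tb (s n) k) * ((R n)ᵀ * R n) := by
          simp only [Matrix.mul_assoc]
      _ = ∑ k, h n j k • Tb (s n) k := by rw [e, Matrix.one_mul, Matrix.mul_one]
  have hcf : ∀ n j, cf (s n) ((R n)ᵀ * toM (H n j) * R n) = h n j := by
    intro n j
    rw [hK n j, cf_sum (hs n)]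
  have hhl : ∀ j, Filter.Tendsto (fun n => h (φ n) j) Filter.atTop
      (nhds (cf s' (R'ᵀ * toM (H' j) * R'))) := by
    intro j
    have := tendsto_cf hs' (hKl j) hsl
    have he : (fun n => cf (s (φ n)) ((R (φ n))ᵀ * toM (H (φ n) j) * R (φ n))) =
        fun n => h (φ n) j := by
      funext n
      exact hcf (φ n) j
    rw [he] at this
    exact this
  have hhk : ∀ j k, Filter.Tendsto (fun n => h (φ n) j k) Filter.atTop
      (nhds (cf s' (R'ᵀ * toM (H' j) * R') k)) := by
    intro j k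
    exact (tendsto_pi_nhds.1 (hhl j)) k
  have hTl : ∀ k, Filter.Tendsto (fun n => Tb (s (φ n)) k) Filter.atTop (nhds (Tb s' k)) := by
    intro k
    exact ((continuous_Tb k).tendsto s').comp hsl
  refine ⟨R', s', fun j => cf s' (R'ᵀ * toM (H' j) * R'), hR', hs', hP', ?_, ?_⟩
  · intro j
    have hl : Filter.Tendsto (fun n => R (φ n) * (∑ k, h (φ n) j k • Tb (s (φ n)) k) *
        (R (φ n))ᵀ) Filter.atTop
        (nhds (R' * (∑ k, cf s' (R'ᵀ * toM (H' j) * R') k • Tb s' k) * R'ᵀ)) := by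
      refine (hRl.mul ?_).mul hRt
      exact tendsto_finsetSum _ fun k _ => (hhk j k).smul (hTl k)
    have he : (fun n => R (φ n) * (∑ k, h (φ n) j k • Tb (s (φ n)) k) * (R (φ n))ᵀ) =
        fun n => toM (H (φ n) j) := by
      funext n
      exact (hHn (φ n) j).symm
    rw [he] at hl
    exact tendsto_nhds_unique (hHl j) hl
  · funext k
    have hRe : ∀ j i, Filter.Tendsto (fun n => R (φ n) j i) Filter.atTop (nhds (R' j i)) := by
      intro j i
      exact ((continuous_id.matrix_elem j i).tendsto R').comp hRl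
    have hl : Filter.Tendsto (fun n => ∑ j, ∑ i, R (φ n) j i *
        ∑ m, Ic pr (s (φ n)) i k m * h (φ n) j m) Filter.atTop
        (nhds (∑ j, ∑ i, R' j i * ∑ m, Ic pr s' i k m * cf s' (R'ᵀ * toM (H' j) * R') m)) := by
      refine tendsto_finsetSum _ fun j _ => tendsto_finsetSum _ fun i _ => ?_
      refine (hRe j i).mul ?_
      refine tendsto_finsetSum _ fun m _ => ?_
      refine Filter.Tendsto.mul ?_ (hhk j m)
      exact (continuousAt_Ic hA01 pr hs' i k m).tendsto.comp hsl
    have hz : ∀ n, ∑ j, ∑ i, R (φ n) j i * ∑ m, Ic pr (s (φ n)) i k m * h (φ n) j m = 0 := by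
      intro n
      have := congrFun (hEq (φ n)) k
      simp only [Finset.sum_apply, Pi.smul_apply, smul_eq_mul, Matrix.mulVec, dotProduct,
        Pi.zero_apply] at this
      exact this
    simp only [hz] at hl
    have := tendsto_nhds_unique hl tendsto_const_nhds
    simp only [Finset.sum_apply, Pi.smul_apply, smul_eq_mul, Matrix.mulVec, dotProduct,
      Pi.zero_apply]
    exact this

end Pool.Agent.FUE
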