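import Pool.Agent.FUE.StA

/-!
# Fueter sections [A15]: smooth division
-/

set_option autoImplicit false

open scoped Manifold ContDiff Matrix Topology
open MeasureTheory

namespace Pool.Agent.FUE

namespace A15x

/-- the parameter integral of smooth division -/
noncomputable def PI (k : ℕ) (F : ℝ → ℝ) (t : ℝ) : ℝ := ∫ τ in (0 : ℝ)..1, τ ^ k * F (t * τ)

theorem PI_deriv (k : ℕ) (F : ℝ → ℝ) (hF : ContDiff ℝ 1 F) (t : ℝ) :
    HasDerivAt (PI k F) (PI (k + 1) (deriv F) t) t := by
  have hF0 : Continuous F := hF.continuous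
  have hF1 : Continuous (deriv F) := hF.continuous_deriv le_rfl
  have hd : ∀ x, HasDerivAt F (deriv F x) x := fun x =>
    (hF.differentiable one_ne_zero x).hasDerivAt
  -- a bound for the derivative
  have hcont : Continuous fun p : ℝ × ℝ => p.2 ^ (k + 1) * deriv F (p.1 * p.2) :=
    (continuous_snd.pow _).mul (hF1.comp (continuous_fst.mul continuous_snd))
  obtain ⟨C, hC⟩ := ((isCompact_closedBall t (1 : ℝ)).prod
    (isCompact_Icc (a := (0 : ℝ)) (b := 1))).exists_bound_of_continuousOn hcont.continuousOn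
  have h1 := intervalIntegral.hasDerivAt_integral_of_dominated_loc_of_deriv_le
    (μ := volume) (a := 0) (b := 1) (F := fun x τ => τ ^ k * F (x * τ))
    (F' := fun x τ => τ ^ (k + 1) * deriv F (x * τ)) (x₀ := t) (s := Metric.closedBall t 1)
    (bound := fun _ => C) (Metric.closedBall_mem_nhds t one_pos)
    (Filter.Eventually.of_forall fun x => by
      have : Continuous fun τ : ℝ => τ ^ k * F (x * τ) :=
        (continuous_id.pow _).mul (hF0.comp (continuous_const.mul continuous_id))
      exact this.aestronglyMeasurable)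
    (by
      have : Continuous fun τ : ℝ => τ ^ k * F (t * τ) :=
        (continuous_id.pow _).mul (hF0.comp (continuous_const.mul continuous_id))
      exact this.intervalIntegrable _ _)
    (by
      have : Continuous fun τ : ℝ => τ ^ (k + 1) * deriv F (t * τ) :=
        (continuous_id.pow _).mul (hF1.comp (continuous_const.mul continuous_id))
      exact this.aestronglyMeasurable)
    (Filter.Eventually.of_forall fun τ hτ x hx => by
      rw [Set.uIoc_of_le zero_le_one] at hτ
      exact hC (x, τ) ⟨hx, ⟨hτ.1.le, hτ.2⟩⟩)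
    intervalIntegrable_const
    (Filter.Eventually.of_forall fun τ _ x _ => by
      have h2 : HasDerivAt (fun x : ℝ => x * τ) τ x := by
        have := (hasDerivAt_id x).mul_const τ
        rw [one_mul] at this
        exact this
      have h3 := ((hd (x * τ)).comp x h2).const_mul (τ ^ k)
      have h4 : τ ^ k * (deriv F (x * τ) * τ) = τ ^ (k + 1) * deriv F (x * τ) := by ring
      rw [h4] at h3
      exact h3)
  exact h1.2

theorem PI_contDiff (n : ℕ) : ∀ (k : ℕ) (F : ℝ → ℝ), ContDiff ℝ ∞ F → ContDiff ℝ n (PI k F) := by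
  induction n with
  | zero =>
    intro k F hF
    rw [Nat.cast_zero, contDiff_zero]
    have h1 : ContDiff ℝ 1 F := hF.of_le (by exact_mod_cast le_top)
    exact continuous_iff_continuousAt.mpr fun t => (PI_deriv k F h1 t).continuousAt
  | succ n ih =>
    intro k F hF
    have h1 : ContDiff ℝ 1 F := hF.of_le (by exact_mod_cast le_top)
    have hd : deriv (PI k F) = PI (k + 1) (deriv F) := funext fun t => (PI_deriv k F h1 t).deriv
    rw [Nat.cast_succ, contDiff_succ_iff_deriv]
    refine ⟨fun t => (PI_deriv k F h1 t).differentiableAt, ?_, ?_⟩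
    · intro h
      exact absurd h (by simp)
    · rw [hd]
      exact ih (k + 1) (deriv F) (contDiff_infty_iff_deriv.mp hF).2

/-- Hadamard's lemma -/
theorem division (F : ℝ → ℝ) (hF : ContDiff ℝ ∞ F) (h0 : F 0 = 0) :
    ∃ g : ℝ → ℝ, ContDiff ℝ ∞ g ∧ ∀ t, t * g t = F t := by
  have h1 : ContDiff ℝ 1 F := hF.of_le (by exact_mod_cast le_top)
  have hF1 : Continuous (deriv F) := h1.continuous_deriv le_rfl
  refine ⟨PI 0 (deriv F), ?_, fun t => ?_⟩
  · rw [contDiff_infty]
    exact fun n => PI_contDiff n 0 (deriv F) (contDiff_infty_iff_deriv.mp hF).2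
  · have h2 : ∀ τ ∈ Set.uIcc (0 : ℝ) 1, HasDerivAt (fun τ => F (t * τ)) (t * deriv F (t * τ)) τ := by
      intro τ _
      have h3 : HasDerivAt (fun τ : ℝ => t * τ) t τ := by
        have := (hasDerivAt_id τ).const_mul t
        rw [mul_one] at this
        exact this
      have h4 := ((h1.differentiable one_ne_zero (t * τ)).hasDerivAt).comp τ h3
      rw [mul_comm] at h4
      exact h4
    have h5 : Continuous fun τ : ℝ => t * deriv F (t * τ) :=
      continuous_const.mul (hF1.comp (continuous_const.mul continuous_id))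
    have h6 := intervalIntegral.integral_eq_sub_of_hasDerivAt h2 (h5.intervalIntegrable _ _)
    rw [intervalIntegral.integral_const_mul] at h6
    have h7 : PI 0 (deriv F) t = ∫ τ in (0 : ℝ)..1, deriv F (t * τ) := by
      unfold PI
      refine intervalIntegral.integral_congr fun τ _ => ?_
      show τ ^ 0 * deriv F (t * τ) = deriv F (t * τ)
      rw [pow_zero, one_mul]
    rw [h7, h6, mul_one, mul_zero, h0, sub_zero]

end A15x

open A15x in
/-- [A15] -/
theorem thm_A15 (hA01 : St_A01) : St_A15 := by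
  intro pr T hT
  -- the cut-off
  have hU : IsClosed {t : ℝ | pr.al t ≤ 0} := isClosed_le pr.smooth_al.continuous continuous_const
  have hK : IsClosed (Set.Icc (0 : ℝ) T) := isClosed_Icc
  have hdis : Disjoint {t : ℝ | pr.al t ≤ 0} (Set.Icc (0 : ℝ) T) := by
    rw [Set.disjoint_left]
    intro t ht ht'
    exact absurd (hA01.1 pr t ht'.1) (not_lt.mpr ht)
  obtain ⟨χ, h0, h1, h01⟩ := exists_contMDiffMap_zero_one_of_isClosed (n := (⊤ : ℕ∞)) 𝓘(ℝ, ℝ) hU hK hdis
  have hχ : ContDiff ℝ ∞ χ := χ.contMDiff.contDiff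
  obtain ⟨al1, hal⟩ : ∃ al1 : ℝ → ℝ, al1 = fun t => χ t * pr.al t + (1 - χ t) := ⟨_, rfl⟩
  have hsm : ContDiff ℝ ∞ al1 := by
    rw [hal]
    exact (hχ.mul pr.smooth_al).add (contDiff_const.sub hχ)
  have hpos : ∀ t, 0 < al1 t := by
    intro t
    have h2 : al1 t = χ t * pr.al t + (1 - χ t) := by rw [hal]
    rw [h2]
    by_cases ht : pr.al t ≤ 0
    · have h3 : χ t = 0 := h0 ht
      rw [h3]
      norm_num
    · push Not at ht
      have h4 := (h01 t).1
      have h5 := (h01 t).2
      rcases h4.eq_or_lt with h6 | h6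
      · rw [← h6]
        norm_num
      · have h7 := mul_pos h6 ht
        linarith
  have heq : ∀ t ∈ Set.Icc (0 : ℝ) T, al1 t = pr.al t := by
    intro t ht
    have h2 : al1 t = χ t * pr.al t + (1 - χ t) := by rw [hal]
    have h3 : χ t = 1 := h1 ht
    rw [h2, h3]
    ring
  obtain ⟨g, hg, hgt⟩ := division (fun t => 1 - 4 / (al1 t) ^ 2)
    (contDiff_const.sub (contDiff_const.div (hsm.pow 2) fun t => (pow_pos (hpos t) 2).ne')) (by
      rw [heq 0 ⟨le_rfl, hT.le⟩, pr.al_zero]
      norm_num)
  refine ⟨g, hg, fun t ht0 htT => ?_⟩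
  rw [hgt, heq t ⟨ht0, htT⟩]

end Pool.Agent.FUE
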