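import Pool.Agent.FUE.StA

/-!
# Fueter sections: smooth complex structures (helper24)
-/

set_option autoImplicit false

open scoped Manifold ContDiff Matrix
open MeasureTheory

namespace Pool.Agent.FUE

namespace A16x

/-- three by three matrices -/
abbrev M3 := Matrix (Fin 3) (Fin 3) ℝ

/-- elementary matrices as points of `V9` -/
noncomputable def E (i j : Fin 3) : V9 := EuclideanSpace.single (i, j) 1

/-! ### matrix valued smooth functions -/

/-- entrywise smooth matrix valued functions -/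
def SM (f : V9 → M3) : Prop := ∀ i j, ContDiff ℝ ∞ (fun P => f P i j)

theorem SM.add {f g : V9 → M3} (hf : SM f) (hg : SM g) : SM (fun P => f P + g P) :=
  fun i j => (hf i j).add (hg i j)

theorem SM.sub {f g : V9 → M3} (hf : SM f) (hg : SM g) : SM (fun P => f P - g P) :=
  fun i j => (hf i j).sub (hg i j)

theorem SM.mul {f g : V9 → M3} (hf : SM f) (hg : SM g) : SM (fun P => f P * g P) := by
  intro i j
  have h : (fun P => (f P * g P) i j) = fun P => ∑ k, f P i k * g P k j := by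
    ext P
    exact Matrix.mul_apply
  rw [h]
  exact ContDiff.sum fun k _ => (hf i k).mul (hg k j)

theorem SM.smul {c : V9 → ℝ} {f : V9 → M3} (hc : ContDiff ℝ ∞ c) (hf : SM f) :
    SM (fun P => c P • f P) := fun i j => hc.mul (hf i j)

theorem SM.tr {f : V9 → M3} (hf : SM f) : SM (fun P => (f P)ᵀ) := fun i j => hf j i

theorem SM.const (A : M3) : SM (fun _ => A) := fun _ _ => contDiff_const

theorem SM.trace {f : V9 → M3} (hf : SM f) : ContDiff ℝ ∞ (fun P => (f P).trace) := by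
  have h : (fun P => (f P).trace) = fun P => ∑ k, f P k k := rfl
  rw [h]
  exact ContDiff.sum fun k _ => hf k k

theorem sm_toM : SM toM := by
  intro i j
  change ContDiff ℝ ∞ (fun P : V9 => P (i, j))
  fun_prop

theorem lam_smooth : ContDiff ℝ ∞ lam := sm_toM.trace

theorem tt_smooth : ContDiff ℝ ∞ tt := sm_toM.trace.sub contDiff_const

theorem sm_ell (hA04 : St_A04) : SM ell := by
  have h1 : ContDiff ℝ ∞ (fun P : V9 => ((lam P) ^ 2 - tt P)⁻¹) :=
    ((lam_smooth.pow 2).sub tt_smooth).inv fun P => (hA04.1 P).ne'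
  exact SM.smul h1 ((sm_toM.mul sm_toM).sub (SM.smul tt_smooth (SM.const 1)))

theorem sm_Zz (hA04 : St_A04) : SM Zz := sm_toM.sub (SM.smul lam_smooth (sm_ell hA04))

theorem sm_Pp (hA04 : St_A04) : SM Pp := (SM.const 1).sub (sm_ell hA04)

/-! ### the two forms are bilinear and smooth -/

theorem th_smooth (hA07 : St_A07) (pr : Profile) (l : Fin 3) (H : V9) :
    ContDiff ℝ ∞ (fun Q : V9 => th Q pr (toM H) l) := by
  have h1 : ContDiff ℝ ∞ (fun Q : V9 => (Q, H)) := contDiff_id.prodMk contDiff_const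
  have h2 : (fun Q : V9 => th Q pr (toM H) l) =
      (fun p : V9 × V9 => th p.1 pr (toM p.2) l) ∘ (fun Q : V9 => (Q, H)) := rfl
  rw [h2]
  exact (hA07.1 pr l).comp h1

theorem om_smooth (hA07 : St_A07) (pr : Profile) (l : Fin 3) (H H' : V9) :
    ContDiff ℝ ∞ (fun P : V9 => om P pr l H H') := by
  have h1 : ContDiff ℝ ∞ (fderiv ℝ (fun Q : V9 => th Q pr (toM H') l)) :=
    (th_smooth hA07 pr l H').fderiv_right (by simp)
  have h2 : ContDiff ℝ ∞ (fderiv ℝ (fun Q : V9 => th Q pr (toM H) l)) :=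
    (th_smooth hA07 pr l H).fderiv_right (by simp)
  exact (h1.clm_apply contDiff_const).sub (h2.clm_apply contDiff_const)

theorem om_anti (pr : Profile) (l : Fin 3) (P H H' : V9) :
    om P pr l H H' = -om P pr l H' H := by
  simp only [om]
  ring

theorem om_lin (hA07 : St_A07) (pr : Profile) (l : Fin 3) (P H K H' : V9) (r : ℝ) :
    om P pr l (H + r • K) H' = om P pr l H H' + r * om P pr l K H' := by
  have h1 : (fun Q : V9 => th Q pr (toM (H + r • K)) l) =
      fun Q : V9 => th Q pr (toM H) l + r * th Q pr (toM K) l := by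
    ext Q
    exact hA07.2.1 pr Q H K r l
  have d1 : DifferentiableAt ℝ (fun Q : V9 => th Q pr (toM H) l) P :=
    ((th_smooth hA07 pr l H).differentiable (by simp)) P
  have d2 : DifferentiableAt ℝ (fun Q : V9 => th Q pr (toM K) l) P :=
    ((th_smooth hA07 pr l K).differentiable (by simp)) P
  simp only [om]
  rw [h1, fderiv_fun_add d1 (d2.const_mul r), fderiv_const_mul d2]
  simp only [map_add, map_smul, add_apply, smul_apply,
    smul_eq_mul]
  ring

/-- `om` as a linear map in the last variable -/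
noncomputable def omL (hA07 : St_A07) (pr : Profile) (l : Fin 3) (P H : V9) : V9 →ₗ[ℝ] ℝ where
  toFun H' := om P pr l H H'
  map_add' K K' := by
    have h := om_lin hA07 pr l P K K' H 1
    rw [one_smul, one_mul] at h
    rw [om_anti, h, om_anti pr l P H K, om_anti pr l P H K']
    ring
  map_smul' r K := by
    have h := om_lin hA07 pr l P 0 K H r
    have h0 := om_lin hA07 pr l P 0 0 H 1
    simp only [smul_zero, add_zero, one_mul, zero_add] at h h0
    have h1 : om P pr l 0 H = 0 := by linarith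
    rw [om_anti, h, om_anti pr l P H K, h1]
    simp

/-- the symmetrised gradient of `H' ↦ om P k H H'` -/
noncomputable def phi (pr : Profile) (k : Fin 3) (P H : V9) : M3 :=
  Matrix.of fun i j => (om P pr k H (E i j) + om P pr k H (E j i)) / 2

theorem sm_phi (hA07 : St_A07) (pr : Profile) (k : Fin 3) (H : V9) :
    SM (fun P => phi pr k P H) := fun i j =>
  ((om_smooth hA07 pr k H (E i j)).add (om_smooth hA07 pr k H (E j i))).div_const 2

theorem phi_lin (hA07 : St_A07) (pr : Profile) (k : Fin 3) (P H K : V9) (r : ℝ) :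
    phi pr k P (H + r • K) = phi pr k P H + r • phi pr k P K := by
  ext i j
  simp only [phi, Matrix.of_apply, Matrix.add_apply, Matrix.smul_apply, smul_eq_mul,
    om_lin hA07 pr k P H K]
  ring

theorem phi_symm (pr : Profile) (k : Fin 3) (P H : V9) : (phi pr k P H)ᵀ = phi pr k P H := by
  ext i j
  simp only [phi, Matrix.of_apply, Matrix.transpose_apply]
  ring

theorem ofM_eq_sum (K : M3) : ofM K = ∑ i, ∑ j, K i j • E i j := by
  ext ⟨a, b⟩
  simp only [ofM, E, EuclideanSpace.single, WithLp.ofLp_sum, Finset.sum_apply, PiLp.smul_apply,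
    smul_eq_mul, PiLp.single_apply, Prod.mk.injEq]
  rw [Finset.sum_eq_single a, Finset.sum_eq_single b]
  · simp
  · intro j _ hj
    simp [hj.symm]
  · simp
  · intro i _ hi
    refine Finset.sum_eq_zero fun j _ => ?_
    simp [hi.symm]
  · simp

/-- pairing of the gradient with a symmetric matrix -/
theorem phi_pair (hA07 : St_A07) (pr : Profile) (k : Fin 3) (P H : V9) (K : M3) (hK : Kᵀ = K) :
    (phi pr k P H * K).trace = om P pr k H (ofM K) := by
  have h1 : om P pr k H (ofM K) = ∑ i, ∑ j, K i j * om P pr k H (E i j) := by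
    change omL hA07 pr k P H (ofM K) = _
    rw [ofM_eq_sum]
    simp only [map_sum, map_smul, smul_eq_mul]
    rfl
  have hs : ∀ i j, K j i = K i j := fun i j => by
    have := congrFun (congrFun hK i) j
    simpa [Matrix.transpose_apply] using this
  have h2 : (phi pr k P H * K).trace =
      (∑ i, ∑ j, K i j * om P pr k H (E i j) + ∑ i, ∑ j, K i j * om P pr k H (E j i)) / 2 := by
    simp only [Matrix.trace, Matrix.diag_apply, Matrix.mul_apply, phi, Matrix.of_apply]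
    rw [← Finset.sum_add_distrib, Finset.sum_div]
    refine Finset.sum_congr rfl fun i _ => ?_
    rw [← Finset.sum_add_distrib, Finset.sum_div]
    refine Finset.sum_congr rfl fun j _ => ?_
    rw [hs i j]
    ring
  have h3 : ∑ i, ∑ j, K i j * om P pr k H (E j i) = ∑ i, ∑ j, K i j * om P pr k H (E i j) := by
    rw [Finset.sum_comm]
    refine Finset.sum_congr rfl fun i _ => Finset.sum_congr rfl fun j _ => ?_
    rw [hs i j]
  rw [h2, h3, h1]
  ring

/-! ### the inverse metric -/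

/-- the inverse metric, as an algebraic expression -/
noncomputable def GG (t la be ka c1 c2 g : ℝ) (L Z Q φ : M3) : M3 :=
  (4 * t * (L * φ).trace + 2 * (Q * φ * Q * Z).trace) • L +
    (2 * (L * φ).trace + g * (Q * φ * Q * Z).trace) • Z +
    (8 * c1) • (Q * φ * Q - ((Q * φ * Q).trace / 2) • Q) +
    ((2 * c2) • (((la • (1 : M3) - Z) * (la • (1 : M3) - Z)) *
        ((be • (1 : M3) + ka • Z) * (be • (1 : M3) + ka • Z)) * (Q * φ * L)) +
      ((2 * c2) • (((la • (1 : M3) - Z) * (la • (1 : M3) - Z)) *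
        ((be • (1 : M3) + ka • Z) * (be • (1 : M3) + ka • Z)) * (Q * φ * L)))ᵀ)

theorem GG_lin (t la be ka c1 c2 g : ℝ) (L Z Q φ ψ : M3) (r : ℝ) :
    GG t la be ka c1 c2 g L Z Q (φ + r • ψ) =
      GG t la be ka c1 c2 g L Z Q φ + r • GG t la be ka c1 c2 g L Z Q ψ := by
  simp only [GG]
  generalize ((la • (1 : M3) - Z) * (la • (1 : M3) - Z)) *
        ((be • (1 : M3) + ka • Z) * (be • (1 : M3) + ka • Z)) = A
  simp only [Matrix.mul_add, Matrix.add_mul, Matrix.mul_smul, Matrix.smul_mul, Matrix.trace_add,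
    Matrix.trace_smul, Matrix.transpose_add, Matrix.transpose_smul, smul_eq_mul]
  module

theorem sm_GG (t la be ka c1 c2 g : V9 → ℝ) (L Z Q φ : V9 → M3) (ht : ContDiff ℝ ∞ t)
    (hla : ContDiff ℝ ∞ la) (hbe : ContDiff ℝ ∞ be) (hka : ContDiff ℝ ∞ ka)
    (hc1 : ContDiff ℝ ∞ c1) (hc2 : ContDiff ℝ ∞ c2) (hg : ContDiff ℝ ∞ g) (hL : SM L)
    (hZ : SM Z) (hQ : SM Q) (hφ : SM φ) :
    SM (fun P => GG (t P) (la P) (be P) (ka P) (c1 P) (c2 P) (g P) (L P) (Z P) (Q P) (φ P)) := by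
  have h1 : ContDiff ℝ ∞ (fun P => (L P * φ P).trace) := (hL.mul hφ).trace
  have h2 : ContDiff ℝ ∞ (fun P => (Q P * φ P * Q P * Z P).trace) :=
    (((hQ.mul hφ).mul hQ).mul hZ).trace
  have h3 : ContDiff ℝ ∞ (fun P => (Q P * φ P * Q P).trace) := ((hQ.mul hφ).mul hQ).trace
  have h4 : SM (fun P => la P • (1 : M3) - Z P) := (SM.smul hla (SM.const 1)).sub hZ
  have h5 : SM (fun P => be P • (1 : M3) + ka P • Z P) :=
    (SM.smul hbe (SM.const 1)).add (SM.smul hka hZ)
  have h6 : SM (fun P => (2 * c2 P) • (((la P • (1 : M3) - Z P) * (la P • (1 : M3) - Z P)) *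
        ((be P • (1 : M3) + ka P • Z P) * (be P • (1 : M3) + ka P • Z P)) *
          (Q P * φ P * L P))) :=
    SM.smul (contDiff_const.mul hc2) (((h4.mul h4).mul (h5.mul h5)).mul ((hQ.mul hφ).mul hL))
  exact (((SM.smul (((contDiff_const.mul ht).mul h1).add (contDiff_const.mul h2)) hL).add
    (SM.smul ((contDiff_const.mul h1).add (hg.mul h2)) hZ)).add
    (SM.smul (contDiff_const.mul hc1) (((hQ.mul hφ).mul hQ).sub
      (SM.smul (h3.div_const 2) hQ)))).add (h6.add h6.tr)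

/-! ### evaluation at the model point -/

/-- conjugation by `R` -/
def cj (R A : M3) : M3 := R * A * Rᵀ

theorem cj_mul {R : M3} (hR : Rᵀ * R = 1) (A B : M3) : cj R A * cj R B = cj R (A * B) := by
  simp only [cj]
  calc R * A * Rᵀ * (R * B * Rᵀ) = R * A * (Rᵀ * R) * B * Rᵀ := by
        simp only [Matrix.mul_assoc]
    _ = R * (A * B) * Rᵀ := by
        rw [hR]
        simp only [Matrix.mul_assoc, Matrix.mul_one]

theorem cj_add (R A B : M3) : cj R A + cj R B = cj R (A + B) := by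
  simp only [cj, Matrix.mul_add, Matrix.add_mul]

theorem cj_sub (R A B : M3) : cj R A - cj R B = cj R (A - B) := by
  simp only [cj, Matrix.mul_sub, Matrix.sub_mul]

theorem cj_smul (R A : M3) (r : ℝ) : r • cj R A = cj R (r • A) := by
  simp only [cj, Matrix.mul_smul, Matrix.smul_mul]

theorem cj_tr (R A : M3) : (cj R A)ᵀ = cj R Aᵀ := by
  simp only [cj, Matrix.transpose_mul, Matrix.transpose_transpose, Matrix.mul_assoc]

theorem cj_trace {R : M3} (hR : Rᵀ * R = 1) (A : M3) : (cj R A).trace = A.trace := by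
  simp only [cj]
  rw [Matrix.trace_mul_comm, ← Matrix.mul_assoc, hR, Matrix.one_mul]

theorem cj_one {R : M3} (hR : Rᵀ * R = 1) : cj R 1 = 1 := by
  simp only [cj, Matrix.mul_one]
  exact mul_eq_one_comm.1 hR

theorem GG_cj {R : M3} (hR : Rᵀ * R = 1) (t la be ka c1 c2 g : ℝ) (L Z Q φ : M3) :
    GG t la be ka c1 c2 g (cj R L) (cj R Z) (cj R Q) (cj R φ) =
      cj R (GG t la be ka c1 c2 g L Z Q φ) := by
  have h1 : la • (1 : M3) - cj R Z = cj R (la • (1 : M3) - Z) := by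
    rw [← cj_sub, ← cj_smul, cj_one hR]
  have h2 : be • (1 : M3) + ka • cj R Z = cj R (be • (1 : M3) + ka • Z) := by
    rw [← cj_add, ← cj_smul, ← cj_smul, cj_one hR]
  simp only [GG]
  rw [h1, h2]
  simp only [cj_mul hR, cj_trace hR, cj_smul, cj_sub, cj_tr, cj_add]

theorem diag_pol (la be ka : ℝ) (z : Fin 3 → ℝ) :
    ((la • (1 : M3) - Matrix.diagonal z) * (la • (1 : M3) - Matrix.diagonal z)) *
        ((be • (1 : M3) + ka • Matrix.diagonal z) * (be • (1 : M3) + ka • Matrix.diagonal z)) =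
      Matrix.diagonal fun i => (la - z i) ^ 2 * (be + ka * z i) ^ 2 := by
  have h1 : la • (1 : M3) - Matrix.diagonal z = Matrix.diagonal fun i => la - z i := by
    rw [Matrix.smul_one_eq_diagonal, Matrix.diagonal_sub]
  have h2 : be • (1 : M3) + ka • Matrix.diagonal z = Matrix.diagonal fun i => be + ka * z i := by
    rw [Matrix.smul_one_eq_diagonal, ← Matrix.diagonal_smul, Matrix.diagonal_add]
    rfl
  rw [h1, h2, Matrix.diagonal_mul_diagonal, Matrix.diagonal_mul_diagonal,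
    Matrix.diagonal_mul_diagonal]
  congr 1
  ext i
  ring

/-- the value of `GG` at the model point -/
theorem GG_model (s be ka al g c1 c2 : ℝ) (ψ : M3) (hψ : ψᵀ = ψ)
    (hb : be + s * ka ≠ 0) (hc : -be + s * ka ≠ 0)
    (hg : s ^ 2 * g = 1 - 4 / al ^ 2) (hc1 : c1 = 1 / al ^ 2)
    (hc2 : c2 = 1 / (be ^ 2 - s ^ 2 * ka ^ 2) ^ 2) :
    GG (s ^ 2) (2 + s ^ 2) be ka c1 c2 g (Matrix.diagonal ![1, 0, 0])
      (Matrix.diagonal ![0, s, -s]) (Matrix.diagonal ![0, 1, 1]) ψ =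
      ∑ m, (![(ψ * Tb s 0).trace, 4 / al ^ 2 * (ψ * Tb s 1).trace,
        1 / (be + s * ka) ^ 2 * (ψ * Tb s 2).trace,
        1 / (-be + s * ka) ^ 2 * (ψ * Tb s 3).trace] : Fin 4 → ℝ) m • Tb s m := by
  have h10 : ψ 1 0 = ψ 0 1 := congrFun (congrFun hψ 0) 1
  have h20 : ψ 2 0 = ψ 0 2 := congrFun (congrFun hψ 0) 2
  have h21 : ψ 2 1 = ψ 1 2 := congrFun (congrFun hψ 1) 2
  have t0 : (ψ * Tb s 0).trace = 2 * s * ψ 0 0 + ψ 1 1 - ψ 2 2 := by
    simp [Tb, Matrix.trace, Fin.sum_univ_three, Matrix.mul_apply]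
    ring
  have t1 : (ψ * Tb s 1).trace = 2 * ψ 1 2 := by
    simp [Tb, Matrix.trace, Fin.sum_univ_three, Matrix.mul_apply]
    rw [h21]
    ring
  have t2 : (ψ * Tb s 2).trace = -2 * (2 + s ^ 2 + s) * ψ 0 2 := by
    simp [Tb, Matrix.trace, Fin.sum_univ_three, Matrix.mul_apply]
    rw [h20]
    ring
  have t3 : (ψ * Tb s 3).trace = 2 * (2 + s ^ 2 - s) * ψ 0 1 := by
    simp [Tb, Matrix.trace, Fin.sum_univ_three, Matrix.mul_apply]
    rw [h10]
    ring
  have u1 : (Matrix.diagonal ![1, 0, 0] * ψ).trace = ψ 0 0 := by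
    simp [Matrix.trace, Fin.sum_univ_three, Matrix.diagonal_mul]
  have u2 : (Matrix.diagonal ![0, 1, 1] * ψ * Matrix.diagonal ![0, 1, 1] *
      Matrix.diagonal ![0, s, -s]).trace = s * (ψ 1 1 - ψ 2 2) := by
    simp [Matrix.trace, Fin.sum_univ_three, Matrix.diagonal_mul, Matrix.mul_diagonal]
    ring
  have u3 : (Matrix.diagonal ![0, 1, 1] * ψ * Matrix.diagonal ![0, 1, 1]).trace =
      ψ 1 1 + ψ 2 2 := by
    simp [Matrix.trace, Fin.sum_univ_three, Matrix.diagonal_mul, Matrix.mul_diagonal]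
  have hbc : be ^ 2 - s ^ 2 * ka ^ 2 = -((be + s * ka) * (-be + s * ka)) := by ring
  have e1 : 2 * c2 * ((2 + s ^ 2 - s) ^ 2 * (be + ka * s) ^ 2) =
      2 * (2 + s ^ 2 - s) ^ 2 / (-be + s * ka) ^ 2 := by
    rw [hc2, hbc]
    field_simp
  have e2 : 2 * c2 * ((2 + s ^ 2 + s) ^ 2 * (be - ka * s) ^ 2) =
      2 * (2 + s ^ 2 + s) ^ 2 / (be + s * ka) ^ 2 := by
    rw [hc2, hbc]
    field_simp
    ring
  simp only [GG]
  rw [diag_pol, t0, t1, t2, t3, u1, u2, u3]
  ext i j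
  fin_cases i <;> fin_cases j
  · simp [Tb, Fin.sum_univ_four, Matrix.diagonal_mul, Matrix.mul_diagonal]
    ring
  · simp [Tb, Fin.sum_univ_four, Matrix.diagonal_mul, Matrix.mul_diagonal]
    rw [h10]
    linear_combination ψ 0 1 * e1
  · simp [Tb, Fin.sum_univ_four, Matrix.diagonal_mul, Matrix.mul_diagonal]
    rw [h20]
    linear_combination ψ 0 2 * e2
  · simp [Tb, Fin.sum_univ_four, Matrix.diagonal_mul, Matrix.mul_diagonal]
    rw [h10]
    linear_combination ψ 0 1 * e1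
  · simp [Tb, Fin.sum_univ_four, Matrix.diagonal_mul, Matrix.mul_diagonal]
    linear_combination (ψ 1 1 - ψ 2 2) * hg + 4 * (ψ 1 1 - ψ 2 2) * hc1
  · simp [Tb, Fin.sum_univ_four, Matrix.diagonal_mul, Matrix.mul_diagonal]
    rw [hc1]
    ring
  · simp [Tb, Fin.sum_univ_four, Matrix.diagonal_mul, Matrix.mul_diagonal]
    rw [h20]
    linear_combination ψ 0 2 * e2
  · simp [Tb, Fin.sum_univ_four, Matrix.diagonal_mul, Matrix.mul_diagonal]
    rw [h21, hc1]
    ring
  · simp [Tb, Fin.sum_univ_four, Matrix.diagonal_mul, Matrix.mul_diagonal]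
    linear_combination -(ψ 1 1 - ψ 2 2) * hg - 4 * (ψ 1 1 - ψ 2 2) * hc1

/-! ### globally smooth coefficients -/

/-- a smooth function which vanishes on `[0, T]` and is positive elsewhere -/
noncomputable def rr (T t : ℝ) : ℝ := expNegInvGlue (-t) + expNegInvGlue (t - T)

theorem rr_smooth (T : ℝ) : ContDiff ℝ ∞ (rr T) := by
  have h1 : ContDiff ℝ ∞ expNegInvGlue := expNegInvGlue.contDiff
  exact (h1.comp contDiff_neg).add (h1.comp (contDiff_id.sub contDiff_const))

theorem rr_nonneg (T t : ℝ) : 0 ≤ rr T t :=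
  add_nonneg (expNegInvGlue.nonneg _) (expNegInvGlue.nonneg _)

theorem rr_zero {T t : ℝ} (h0 : 0 ≤ t) (h1 : t ≤ T) : rr T t = 0 := by
  simp only [rr]
  rw [expNegInvGlue.zero_of_nonpos (by linarith), expNegInvGlue.zero_of_nonpos (by linarith),
    add_zero]

theorem rr_pos {T t : ℝ} (h : t < 0 ∨ T < t) : 0 < rr T t := by
  rcases h with h | h
  · exact add_pos_of_pos_of_nonneg (expNegInvGlue.pos_of_pos (by linarith))
      (expNegInvGlue.nonneg _)
  · exact add_pos_of_nonneg_of_pos (expNegInvGlue.nonneg _)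
      (expNegInvGlue.pos_of_pos (by linarith))

/-- smooth inverse on `[0, T]` -/
theorem exists_inv (F : ℝ → ℝ) (hF : ContDiff ℝ ∞ F) (T : ℝ) (h : ∀ t, 0 ≤ t → t ≤ T → F t ≠ 0) :
    ∃ c : ℝ → ℝ, ContDiff ℝ ∞ c ∧ ∀ t, 0 ≤ t → t ≤ T → c t = 1 / F t := by
  refine ⟨fun t => F t / (F t ^ 2 + rr T t), ?_, ?_⟩
  · refine hF.div ((hF.pow 2).add (rr_smooth T)) fun t => ?_
    by_cases h1 : 0 ≤ t ∧ t ≤ T
    · have := h t h1.1 h1.2
      have h2 : 0 < F t ^ 2 := by positivity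
      have h3 := rr_nonneg T t
      exact (by linarith : 0 < F t ^ 2 + rr T t).ne'
    · have h2 : t < 0 ∨ T < t := by
        by_contra h3
        push Not at h3
        exact h1 h3
      have h3 := rr_pos h2
      have h4 := sq_nonneg (F t)
      exact (by linarith : 0 < F t ^ 2 + rr T t).ne'
  · intro t h0 h1
    have h2 := h t h0 h1
    change F t / (F t ^ 2 + rr T t) = 1 / F t
    rw [rr_zero h0 h1, add_zero]
    field_simp

/-! ### rotations -/

/-- row relations of a rotation -/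
theorem rot_rows {R : M3} (hR : IsRot R) :
    (∀ k, R k 0 ^ 2 + R k 1 ^ 2 + R k 2 ^ 2 = 1) ∧
    (∀ k, R k 1 * R (k + 1) 2 - R k 2 * R (k + 1) 1 = R (k + 2) 0) ∧
    (∀ k, R k 2 * R (k + 1) 0 - R k 0 * R (k + 1) 2 = R (k + 2) 1) ∧
    (∀ k, R k 0 * R (k + 1) 1 - R k 1 * R (k + 1) 0 = R (k + 2) 2) ∧
    (∀ k, R k 0 * R (k + 1) 0 + R k 1 * R (k + 1) 1 + R k 2 * R (k + 1) 2 = 0) := by
  have h1 : R * Rᵀ = 1 := mul_eq_one_comm.1 hR.1
  have h2 : R.adjugate = Rᵀ := by
    have h3 : R.adjugate * R * Rᵀ = Rᵀ := by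
      rw [Matrix.adjugate_mul, hR.2, one_smul, Matrix.one_mul]
    rw [Matrix.mul_assoc, h1, Matrix.mul_one] at h3
    exact h3
  have h4 : ∀ i j, R.adjugate i j = R j i := fun i j => by rw [h2]; rfl
  have h5 : ∀ i j, R i 0 * R j 0 + R i 1 * R j 1 + R i 2 * R j 2 = (1 : M3) i j := fun i j => by
    rw [← h1, Matrix.mul_apply, Fin.sum_univ_three]
    rfl
  simp only [Matrix.adjugate_fin_three] at h4
  refine ⟨fun k => ?_, fun k => ?_, fun k => ?_, fun k => ?_, fun k => ?_⟩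
  · have := h5 k k
    rw [Matrix.one_apply_eq] at this
    linarith
  · fin_cases k
    · have := h4 0 2
      simp at this ⊢
      linarith
    · have := h4 0 0
      simp at this ⊢
      linarith
    · have := h4 0 1
      simp at this ⊢
      linarith
  · fin_cases k
    · have := h4 1 2
      simp at this ⊢
      linarith
    · have := h4 1 0
      simp at this ⊢
      linarith
    · have := h4 1 1
      simp at this ⊢
      linarith
  · fin_cases k
    · have := h4 2 2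
      simp at this ⊢
      linarith
    · have := h4 2 0
      simp at this ⊢
      linarith
    · have := h4 2 1
      simp at this ⊢
      linarith
  · have := h5 k (k + 1)
    rw [Matrix.one_apply_ne (by fin_cases k <;> decide)] at this
    exact this

/-- product of two imaginary quaternions -/
theorem quat_mul (I : Fin 3 → Matrix (Fin 4) (Fin 4) ℝ) (h1 : ∀ i, I i * I i = -1)
    (h2 : ∀ i, I i * I (i + 1) = I (i + 2)) (h3 : ∀ i, I (i + 1) * I i = -I (i + 2))
    (x y : Fin 3 → ℝ) :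
    (∑ l, x l • I l) * (∑ l, y l • I l) =
      -(x 0 * y 0 + x 1 * y 1 + x 2 * y 2) • (1 : Matrix (Fin 4) (Fin 4) ℝ) +
        (x 1 * y 2 - x 2 * y 1) • I 0 + (x 2 * y 0 - x 0 * y 2) • I 1 +
        (x 0 * y 1 - x 1 * y 0) • I 2 := by
  have a0 := h1 0
  have a1 := h1 1
  have a2 := h1 2
  have b0 : I 0 * I 1 = I 2 := h2 0
  have b1 : I 1 * I 2 = I 0 := h2 1
  have b2 : I 2 * I 0 = I 1 := h2 2
  have c0 : I 1 * I 0 = -I 2 := h3 0
  have c1 : I 2 * I 1 = -I 0 := h3 1
  have c2 : I 0 * I 2 = -I 1 := h3 2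
  simp only [Fin.sum_univ_three, Matrix.add_mul, Matrix.mul_add, Matrix.smul_mul, Matrix.mul_smul,
    a0, a1, a2, b0, b1, b2, c0, c1, c2]
  module

/-- the Fueter identity for vectors -/
theorem fueter_vec {R : M3} (hR : IsRot R) (I : Fin 3 → Matrix (Fin 4) (Fin 4) ℝ)
    (h1 : ∀ i, I i * I i = -1)
    (h2 : ∀ i, I i * I (i + 1) = I (i + 2)) (h3 : ∀ i, I (i + 1) * I i = -I (i + 2))
    (h : Fin 3 → Fin 4 → ℝ) (hs : ∑ j, ∑ i, R j i • (I i).mulVec (h j) = 0) (i : Fin 3) :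
    h i = (∑ l, R (i + 2) l • I l).mulVec (h (i + 1)) -
      (∑ l, R (i + 1) l • I l).mulVec (h (i + 2)) := by
  obtain ⟨r1, r2, r3, r4, r5⟩ := rot_rows hR
  set K : Fin 3 → Matrix (Fin 4) (Fin 4) ℝ := fun k => ∑ l, R k l • I l with hK
  have k1 : ∀ k, K k * K k = -1 := fun k => by
    have := quat_mul I h1 h2 h3 (R k) (R k)
    simp only [hK]
    rw [this]
    have e := r1 k
    rw [show R k 0 * R k 0 + R k 1 * R k 1 + R k 2 * R k 2 = 1 by linarith]
    module
  have k2 : ∀ k, K k * K (k + 1) = K (k + 2) := fun k => by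
    have := quat_mul I h1 h2 h3 (R k) (R (k + 1))
    simp only [hK]
    rw [this, r2 k, r3 k, r4 k, r5 k, Fin.sum_univ_three]
    module
  have k3 : ∀ k, K (k + 1) * K k = -K (k + 2) := fun k => by
    have := quat_mul I h1 h2 h3 (R (k + 1)) (R k)
    simp only [hK]
    rw [this, Fin.sum_univ_three,
      show R (k + 1) 0 * R k 0 + R (k + 1) 1 * R k 1 + R (k + 1) 2 * R k 2 = 0 by
        have := r5 k
        linarith,
      show R (k + 1) 1 * R k 2 - R (k + 1) 2 * R k 1 = -R (k + 2) 0 by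
        have := r2 k
        linarith,
      show R (k + 1) 2 * R k 0 - R (k + 1) 0 * R k 2 = -R (k + 2) 1 by
        have := r3 k
        linarith,
      show R (k + 1) 0 * R k 1 - R (k + 1) 1 * R k 0 = -R (k + 2) 2 by
        have := r4 k
        linarith]
    module
  have hs' : ∑ j, (K j).mulVec (h j) = 0 := by
    rw [← hs]
    refine Finset.sum_congr rfl fun j _ => ?_
    simp only [hK, Matrix.sum_mulVec, Matrix.smul_mulVec]
  have hs2 : (K i).mulVec (h i) + (K (i + 1)).mulVec (h (i + 1)) +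
      (K (i + 2)).mulVec (h (i + 2)) = 0 := by
    rw [← hs', Fin.sum_univ_three]
    fin_cases i
    · rfl
    · change (K 1).mulVec (h 1) + (K 2).mulVec (h 2) + (K 0).mulVec (h 0) = _
      abel
    · change (K 2).mulVec (h 2) + (K 0).mulVec (h 0) + (K 1).mulVec (h 1) = _
      abel
  have hs3 : (K i).mulVec ((K i).mulVec (h i) + (K (i + 1)).mulVec (h (i + 1)) +
      (K (i + 2)).mulVec (h (i + 2))) = 0 := by
    rw [hs2, Matrix.mulVec_zero]
  have k3' : K i * K (i + 2) = -K (i + 1) := by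
    have := k3 (i + 2)
    have e1 : i + 2 + 1 = i := by fin_cases i <;> rfl
    have e2 : i + 2 + 2 = i + 1 := by fin_cases i <;> rfl
    rwa [e1, e2] at this
  rw [Matrix.mulVec_add, Matrix.mulVec_add, Matrix.mulVec_mulVec, Matrix.mulVec_mulVec,
    Matrix.mulVec_mulVec, k1, k2, k3', Matrix.neg_mulVec, Matrix.neg_mulVec,
    Matrix.one_mulVec] at hs3
  change h i = (K (i + 2)).mulVec (h (i + 1)) - (K (i + 1)).mulVec (h (i + 2))
  have h4 : (K (i + 2)).mulVec (h (i + 1)) - (K (i + 1)).mulVec (h (i + 2)) - h i = 0 := by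
    rw [← hs3]
    abel
  exact (sub_eq_zero.1 h4).symm

/-! ### the complex structures -/

/-- a linear map -/
noncomputable def mkLin (f : V9 → V9) (h : ∀ (x y : V9) (r : ℝ), f (x + r • y) = f x + r • f y) :
    V9 →L[ℝ] V9 :=
  LinearMap.toContinuousLinearMap
    { toFun := f
      map_add' := fun x y => by simpa using h x y 1
      map_smul' := fun r x => by
        have h0 : f 0 = 0 := by simpa using h 0 0 1
        simpa [h0] using h 0 x r }

theorem mkLin_apply (f : V9 → V9) (h : ∀ (x y : V9) (r : ℝ), f (x + r • y) = f x + r • f y) (x : V9) :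
    mkLin f h x = f x := rfl

/-- the value of the complex structure -/
noncomputable def Jf (pr : Profile) (c1 c2 g : ℝ → ℝ) (k : Fin 3) (P H : V9) : V9 :=
  ofM (GG (tt P) (lam P) (pr.be (tt P)) (pr.ka (tt P)) (c1 (tt P)) (c2 (tt P)) (g (tt P))
    (ell P) (Zz P) (Pp P) (phi pr k P H))

theorem ofM_lin (A B : M3) (r : ℝ) : ofM (A + r • B) = ofM A + r • ofM B := by
  ext ⟨i, j⟩
  simp [ofM]

theorem toM_ofM (A : M3) : toM (ofM A) = A := by
  ext i j
  simp [ofM, toM]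

theorem ofM_toM (P : V9) : ofM (toM P) = P := by
  ext ⟨i, j⟩
  simp [ofM, toM]

theorem Jf_lin (hA07 : St_A07) (pr : Profile) (c1 c2 g : ℝ → ℝ) (k : Fin 3) (P H K : V9)
    (r : ℝ) : Jf pr c1 c2 g k P (H + r • K) = Jf pr c1 c2 g k P H + r • Jf pr c1 c2 g k P K := by
  simp only [Jf]
  rw [phi_lin hA07, GG_lin, ofM_lin]

theorem Jf_smooth (hA04 : St_A04) (hA07 : St_A07) (pr : Profile) (c1 c2 g : ℝ → ℝ)
    (h1 : ContDiff ℝ ∞ c1) (h2 : ContDiff ℝ ∞ c2) (h3 : ContDiff ℝ ∞ g) (k : Fin 3) (H : V9) :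
    ContDiff ℝ ∞ (fun P => Jf pr c1 c2 g k P H) := by
  rw [contDiff_euclidean]
  rintro ⟨i, j⟩
  exact sm_GG tt lam (fun P => pr.be (tt P)) (fun P => pr.ka (tt P)) (fun P => c1 (tt P))
    (fun P => c2 (tt P)) (fun P => g (tt P)) ell Zz Pp (fun P => phi pr k P H) tt_smooth lam_smooth
    (pr.smooth_be.comp tt_smooth) (pr.smooth_ka.comp tt_smooth) (h1.comp tt_smooth)
    (h2.comp tt_smooth) (h3.comp tt_smooth) (sm_ell hA04) (sm_Zz hA04) (sm_Pp hA04)
    (sm_phi hA07 pr k H) i j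

theorem Tb_symm (s : ℝ) (m : Fin 4) : (Tb s m)ᵀ = Tb s m := by
  fin_cases m <;> (ext i j; fin_cases i <;> fin_cases j <;> simp [Tb])

/-- pairing with the basis vectors -/
theorem pair_T (hA07 : St_A07) (hA10 : St_A10) (pr : Profile) (k : Fin 3) (P H : V9) (R : M3)
    (s : ℝ) (h : Fin 4 → ℝ) (hR : IsRot R) (hs : 0 ≤ s) (hP : toM P = R * Dg s * Rᵀ)
    (hH : toM H = R * (∑ k, h k • Tb s k) * Rᵀ) (m : Fin 4) :
    (Rᵀ * phi pr k P H * R * Tb s m).trace =
      ∑ i, R k i * omh pr s h (Pi.single m 1) i := by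
  have h1 : (Rᵀ * phi pr k P H * R * Tb s m).trace = (phi pr k P H * cj R (Tb s m)).trace := by
    simp only [cj]
    rw [Matrix.mul_assoc, Matrix.mul_assoc, Matrix.trace_mul_comm]
    simp only [Matrix.mul_assoc]
  have h2 : (cj R (Tb s m))ᵀ = cj R (Tb s m) := by rw [cj_tr, Tb_symm]
  rw [h1, phi_pair hA07 pr k P H _ h2]
  have h3 : toM (ofM (cj R (Tb s m))) =
      R * (∑ k, (Pi.single m (1 : ℝ) : Fin 4 → ℝ) k • Tb s k) * Rᵀ := by
    rw [toM_ofM, Finset.sum_eq_single m]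
    · simp [cj]
    · intro b _ hb
      simp [Pi.single_eq_of_ne hb]
    · simp
  rw [hA10 pr P H _ R s h (Pi.single m 1) hR hs hP hH h3 k]
  rfl

theorem Jf_eval (hA01 : St_A01) (hA04 : St_A04) (hA07 : St_A07) (hA10 : St_A10)
    (hA11 : St_A11) (pr : Profile) (c1 c2 g : ℝ → ℝ) (k : Fin 3) (P H : V9) (R : M3) (s : ℝ)
    (h : Fin 4 → ℝ) (hR : IsRot R) (hs : 0 ≤ s) (hP : toM P = R * Dg s * Rᵀ)
    (hH : toM H = R * (∑ k, h k • Tb s k) * Rᵀ)
    (hg : s ^ 2 * g (s ^ 2) = 1 - 4 / (pr.al (s ^ 2)) ^ 2)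
    (hc1 : c1 (s ^ 2) = 1 / (pr.al (s ^ 2)) ^ 2)
    (hc2 : c2 (s ^ 2) = 1 / ((pr.be (s ^ 2)) ^ 2 - s ^ 2 * (pr.ka (s ^ 2)) ^ 2) ^ 2) :
    Jf pr c1 c2 g k P H =
      ofM (R * (∑ m, ((∑ l, R k l • Ic pr s l).mulVec h) m • Tb s m) * Rᵀ) := by
  obtain ⟨e1, e2, e3, e4, e5⟩ := hA04.2 P R s hR hP
  have hal : 0 < pr.al (s ^ 2) := hA01.1 pr _ (sq_nonneg s)
  obtain ⟨hb, hc, -, -, -⟩ := hA01.2.1 pr s hs
  obtain ⟨hip, -, -, -, -⟩ := hA11 pr s hs
  have hRR : R * Rᵀ = 1 := mul_eq_one_comm.1 hR.1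
  set ψ : M3 := Rᵀ * phi pr k P H * R with hψ
  have hφ : phi pr k P H = cj R ψ := by
    rw [hψ, cj]
    calc phi pr k P H = (R * Rᵀ) * phi pr k P H * (R * Rᵀ) := by
          rw [hRR, Matrix.one_mul, Matrix.mul_one]
      _ = R * (Rᵀ * phi pr k P H * R) * Rᵀ := by simp only [Matrix.mul_assoc]
  have hψs : ψᵀ = ψ := by
    rw [hψ, Matrix.transpose_mul, Matrix.transpose_mul, Matrix.transpose_transpose, phi_symm,
      Matrix.mul_assoc]
  have hm := pair_T hA07 hA10 pr k P H R s h hR hs hP hH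
  rw [← hψ] at hm
  have q : ∀ m, ((∑ l, R k l • Ic pr s l).mulVec h) m =
      ∑ l, R k l * ((Ic pr s l).mulVec h) m := fun m => by
    simp only [Matrix.sum_mulVec, Matrix.smul_mulVec, Finset.sum_apply, Pi.smul_apply, smul_eq_mul]
  simp only [Jf]
  rw [e1, e2, e3, e4, e5, hφ]
  change ofM (GG (s ^ 2) (2 + s ^ 2) (pr.be (s ^ 2)) (pr.ka (s ^ 2)) (c1 (s ^ 2)) (c2 (s ^ 2))
    (g (s ^ 2)) (cj R (Matrix.diagonal ![1, 0, 0])) (cj R (Matrix.diagonal ![0, s, -s]))
    (cj R (Matrix.diagonal ![0, 1, 1])) (cj R ψ)) = _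
  rw [GG_cj hR.1, GG_model s _ _ (pr.al (s ^ 2)) _ _ _ ψ hψs hb.ne' hc.ne hg hc1 hc2]
  change ofM (R * _ * Rᵀ) = _
  congr 3
  refine Finset.sum_congr rfl fun m _ => ?_
  congr 1
  rw [q]
  have hb' : pr.be (s ^ 2) + s * pr.ka (s ^ 2) ≠ 0 := hb.ne'
  have hc' : -pr.be (s ^ 2) + s * pr.ka (s ^ 2) ≠ 0 := hc.ne
  fin_cases m
  · change (ψ * Tb s 0).trace = _
    rw [hm 0]
    refine Finset.sum_congr rfl fun l _ => ?_
    rw [hip l h (Pi.single 0 1)]
    simp
  · change 4 / (pr.al (s ^ 2)) ^ 2 * (ψ * Tb s 1).trace = _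
    rw [hm 1, Finset.mul_sum]
    refine Finset.sum_congr rfl fun l _ => ?_
    rw [hip l h (Pi.single 1 1)]
    simp
    field_simp
    ring
  · change 1 / (pr.be (s ^ 2) + s * pr.ka (s ^ 2)) ^ 2 * (ψ * Tb s 2).trace = _
    rw [hm 2, Finset.mul_sum]
    refine Finset.sum_congr rfl fun l _ => ?_
    rw [hip l h (Pi.single 2 1)]
    simp [Profile.b]
    field_simp
  · change 1 / (-pr.be (s ^ 2) + s * pr.ka (s ^ 2)) ^ 2 * (ψ * Tb s 3).trace = _
    rw [hm 3, Finset.mul_sum]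
    refine Finset.sum_congr rfl fun l _ => ?_
    rw [hip l h (Pi.single 3 1)]
    simp [Profile.c]
    field_simp

end A16x

open A16x in
theorem thm_A16 (hA01 : St_A01) (hA04 : St_A04) (_hA05 : St_A05) (hA07 : St_A07)
    (hA10 : St_A10) (hA11 : St_A11) (_hA12 : St_A12) (hA15 : St_A15) : St_A16 := by
  intro pr S
  obtain ⟨g, hg, hg'⟩ := hA15 pr (max (S - 2) 1) (lt_max_of_lt_right one_pos)
  have hF : ContDiff ℝ ∞ (fun t : ℝ => ((pr.be t) ^ 2 - t * (pr.ka t) ^ 2) ^ 2) :=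
    (((pr.smooth_be.pow 2).sub (contDiff_id.mul (pr.smooth_ka.pow 2))).pow 2)
  obtain ⟨c2, hc2, hc2'⟩ := exists_inv _ hF (max (S - 2) 1) (fun t h0 _ => by
    obtain ⟨-, -, -, h1, h2⟩ := hA01.2.1 pr (Real.sqrt t) (Real.sqrt_nonneg t)
    rw [Real.sq_sqrt h0] at h1 h2
    have h3 := mul_pos h1 h2
    have h4 : (pr.be t) ^ 2 - t * (pr.ka t) ^ 2 =
        (pr.be t - Real.sqrt t * pr.ka t) * (pr.be t + Real.sqrt t * pr.ka t) := by
      have := Real.sq_sqrt h0
      linear_combination (pr.ka t) ^ 2 * this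
    have h5 : 0 < ((pr.be t) ^ 2 - t * (pr.ka t) ^ 2) ^ 2 := by
      rw [h4]
      positivity
    exact h5.ne')
  have hc1 : ContDiff ℝ ∞ (fun t : ℝ => (1 - t * g t) / 4) :=
    (contDiff_const.sub (contDiff_id.mul hg)).div_const 4
  refine ⟨fun k P => mkLin (Jf pr (fun t => (1 - t * g t) / 4) c2 g k P)
    (fun x y r => Jf_lin hA07 pr _ _ _ k P x y r), fun k => ?_, fun P H hS hF' i => ?_⟩
  · rw [contDiff_clm_apply_iff]
    intro H
    exact Jf_smooth hA04 hA07 pr _ _ _ hc1 hc2 hg k H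
  · obtain ⟨R, s, h, hR, hs, hP, hH, hsum⟩ := hF'
    have hl := (hA04.2 P R s hR hP).1
    have ht : s ^ 2 ≤ max (S - 2) 1 := le_max_of_le_left (by linarith)
    have e1 := hg' (s ^ 2) (sq_nonneg s) ht
    have e2 := hc2' (s ^ 2) (sq_nonneg s) ht
    have e3 : (1 - s ^ 2 * g (s ^ 2)) / 4 = 1 / (pr.al (s ^ 2)) ^ 2 := by
      rw [e1]
      ring
    obtain ⟨-, -, i1, i2, i3⟩ := hA11 pr s hs
    have hv := fueter_vec hR (Ic pr s) i1 i2 i3 h hsum i
    have ev : ∀ k j, Jf pr (fun t => (1 - t * g t) / 4) c2 g k P (H j) =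
        ofM (R * (∑ m, ((∑ l, R k l • Ic pr s l).mulVec (h j)) m • Tb s m) * Rᵀ) :=
      fun k j => Jf_eval hA01 hA04 hA07 hA10 hA11 pr _ _ _ k P (H j) R s (h j) hR hs hP (hH j)
        e1 e3 e2
    change H i = Jf pr (fun t => (1 - t * g t) / 4) c2 g (i + 2) P (H (i + 1)) -
      Jf pr (fun t => (1 - t * g t) / 4) c2 g (i + 1) P (H (i + 2))
    rw [ev, ev]
    have h6 : H i = ofM (R * (∑ m, h i m • Tb s m) * Rᵀ) := by
      rw [← hH i, ofM_toM]
    have h7 : ∀ A B : M3, ofM A - ofM B = ofM (A - B) := fun A B => by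
      ext ⟨a, b⟩
      simp [ofM]
    rw [h6, h7, ← Matrix.sub_mul, ← Matrix.mul_sub, ← Finset.sum_sub_distrib]
    congr 3
    refine Finset.sum_congr rfl fun m _ => ?_
    rw [← sub_smul]
    congr 1
    exact congrFun hv m

end Pool.Agent.FUE
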