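import Pool.Agent.FUE.StE

/-!
# Fueter sections, module E01: compactness of the set of normalised entire solutions
-/

set_option autoImplicit false

open scoped Manifold ContDiff Matrix
open MeasureTheory

namespace Pool.Agent.FUE

namespace E01x

/-- pointwise convergence of the norms of the first derivatives -/
theorem norm_tendsto {f : ℕ → E3 → V9} {v : E3 → V9} (h : CLoc Set.univ f v) (x : E3) :
    Filter.Tendsto (fun n => ‖fderiv ℝ (f n) x‖) Filter.atTop (nhds ‖fderiv ℝ v x‖) := by
  have h1 := (h.2 1).tendsto_at (Set.mem_univ x)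
  have h2 := h1.norm
  simpa only [norm_iteratedFDeriv_one] using h2

end E01x

theorem thm_E01 (hE00 : St_E00) : St_E01 := by
  intro pr S u hu
  obtain ⟨φ, v, hφ, hv, hlam, hc⟩ := hE00 pr S Set.univ u isOpen_univ (by
    intro K _ _
    refine ⟨2, Filter.Eventually.of_forall fun n => ⟨Set.univ, isOpen_univ, Set.subset_univ _,
      Set.subset_univ _, (hu n).flat, fun x _ => ⟨(hu n).size x, (hu n).grad x⟩⟩⟩)
  refine ⟨φ, v, hφ, ⟨hv, fun x => hlam x (Set.mem_univ x), fun x => ?_, ?_⟩, hc⟩
  · exact le_of_tendsto (E01x.norm_tendsto hc x)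
      (Filter.Eventually.of_forall fun n => (hu (φ n)).grad x)
  · refine tendsto_nhds_unique (E01x.norm_tendsto hc 0) ?_
    have h1 : (fun n => ‖fderiv ℝ (u (φ n)) 0‖) = fun _ => (1 : ℝ) := by
      funext n
      exact (hu (φ n)).zero
    rw [h1]
    exact tendsto_const_nhds

end Pool.Agent.FUE
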