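import Pool.Agent.FUE.StE

/-!
# Fueter sections, E02: an entire solution of minimal energy
-/

set_option autoImplicit false

open scoped Manifold ContDiff Matrix
open MeasureTheory

namespace Pool.Agent.FUE

namespace E02x

theorem good {pr : Profile} {S : ℝ} {u : E3 → V9} (h : Ent pr S u) : Good pr S u where
  flat := h.flat
  size := h.size
  grad := ⟨2, h.grad⟩

end E02x

open E02x in
theorem thm_E02 (hE01 : St_E01) (hF02 : St_F02) (hF05 : St_F05) (hF06 : St_F06) (hF08 : St_F08)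
    (hF12 : St_F12) : St_E02 := by
  intro pr S hex
  obtain ⟨u0, hu0⟩ := hex
  have hle : ∀ w, Ent pr S w → ∀ R : ℝ, 0 < R → Phi pr w 0 R ≤ Theta pr w := fun w hw R hR =>
    (hF08 pr S w (good hw)).2.1 0 R hR
  have hT0 : ∀ w, Ent pr S w → 0 ≤ Theta pr w := fun w hw =>
    (hF06 pr S w (good hw) 0 1 one_pos).1.trans (hle w hw 1 one_pos)
  let A : Set ℝ := {r | ∃ w, Ent pr S w ∧ Theta pr w = r}
  have hAne : A.Nonempty := ⟨_, u0, hu0, rfl⟩
  have hAb : BddBelow A := ⟨0, by rintro _ ⟨w, hw, rfl⟩; exact hT0 w hw⟩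
  have hseq : ∀ n : ℕ, ∃ w, Ent pr S w ∧ Theta pr w < sInf A + 1 / ((n : ℝ) + 1) := by
    intro n
    obtain ⟨r, ⟨w, hw, rfl⟩, hr⟩ := exists_lt_of_csInf_lt hAne
      (lt_add_of_pos_right (sInf A) (by positivity : (0 : ℝ) < 1 / ((n : ℝ) + 1)))
    exact ⟨w, hw, hr⟩
  choose u hu hlt using hseq
  obtain ⟨φ, v, hφ, hv, hloc⟩ := hE01 pr S u hu
  have hPhi : ∀ R : ℝ, 0 < R → Phi pr v 0 R ≤ sInf A := by
    intro R hR
    have h1 := hF12 pr S (fun n => u (φ n)) v (fun n => good (hu (φ n))) (good hv) hloc R hR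
    have h2 : Filter.Tendsto (fun n : ℕ => sInf A + 1 / ((φ n : ℝ) + 1)) Filter.atTop
        (nhds (sInf A + 0)) := by
      refine tendsto_const_nhds.add ?_
      have h3 := (tendsto_one_div_add_atTop_nhds_zero_nat (𝕜 := ℝ)).comp hφ.tendsto_atTop
      exact h3
    rw [add_zero] at h2
    refine le_of_tendsto_of_tendsto' h1 h2 fun n => ?_
    exact (hle _ (hu (φ n)) R hR).trans (hlt (φ n)).le
  have hTv : Theta pr v ≤ sInf A := ciSup_le fun n => hPhi _ (by positivity)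
  refine ⟨v, hv, ?_, fun w hw => hTv.trans (csInf_le hAb ⟨w, hw, rfl⟩)⟩
  refine lt_of_lt_of_le ?_ (hle v hv 1 one_pos)
  obtain ⟨c, C, hc, hC, hH⟩ := hF02 pr S
  obtain ⟨-, hen, -, hpt⟩ := hH Set.univ v isOpen_univ hv.flat fun x _ => hv.size x
  have hcont : Continuous (en pr v) := (contDiffOn_univ.1 hen).continuous
  have hen1 : ∀ x, c * ‖fderiv ℝ v x‖ ^ 2 ≤ en pr v x := by
    intro x
    obtain ⟨-, -, -, -, h5, -⟩ := hpt x (Set.mem_univ x)
    exact h5
  have hfi := (hF05 pr S v (good hv) 0 1 one_pos).1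
  have hcf : Continuous fun x : E3 => en pr v x * Real.exp (-(‖x - 0‖ ^ 2 / 1 ^ 2)) := by
    fun_prop
  have hpos : 0 < ∫ x, en pr v x * Real.exp (-(‖x - 0‖ ^ 2 / 1 ^ 2)) := by
    rw [integral_pos_iff_support_of_nonneg _ hfi]
    · refine IsOpen.measure_pos _ hcf.isOpen_support ⟨0, ?_⟩
      have h1 : 0 < en pr v 0 := by
        have h2 := hen1 0
        rw [hv.zero] at h2
        linarith
      exact (mul_pos h1 (Real.exp_pos _)).ne'
    · intro x
      exact mul_nonneg (le_trans (by positivity) (hen1 x)) (Real.exp_pos _).le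
  unfold Phi
  rw [inv_one, one_mul]
  exact hpos

end Pool.Agent.FUE
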