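import Pool.Agent.FUE.StE

/-!
# Fueter sections: module E03 (point picking)
-/

set_option autoImplicit false

namespace Pool.Agent.FUE

theorem thm_E03 : St_E03 := by
  intro u hu hb hunb
  have hg : Continuous fun x => ‖fderiv ℝ u x‖ := (hu.continuous_fderiv one_ne_zero).norm
  have main : ∀ k : ℕ, ∃ y : E3, 0 < ‖fderiv ℝ u y‖ ∧ (k : ℝ) + 1 ≤ ‖fderiv ℝ u y‖ * ‖y‖ ∧
      (k : ℝ) + 1 ≤ ‖y‖ ∧ ∀ x, ‖x - y‖ ≤ ((k : ℝ) + 1) / ‖fderiv ℝ u y‖ →
        ‖fderiv ℝ u x‖ ≤ 2 * ‖fderiv ℝ u y‖ := by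
    intro k
    have hk : (0 : ℝ) ≤ k := Nat.cast_nonneg k
    obtain ⟨z, hz⟩ : ∃ z : E3, 8 * ((k : ℝ) + 1) < ‖z‖ * ‖fderiv ℝ u z‖ := by
      by_contra hne
      push Not at hne
      exact hunb ⟨_, hne⟩
    have hf : Continuous fun x : E3 => (‖z‖ / 2 - ‖x - z‖) * ‖fderiv ℝ u x‖ := by
      refine Continuous.mul ?_ hg
      fun_prop
    obtain ⟨y, hy, hmax⟩ := (isCompact_closedBall z (‖z‖ / 2)).exists_isMaxOn
      ⟨z, Metric.mem_closedBall_self (by positivity)⟩ hf.continuousOn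
    have hmax' : ∀ x : E3, ‖x - z‖ ≤ ‖z‖ / 2 →
        (‖z‖ / 2 - ‖x - z‖) * ‖fderiv ℝ u x‖ ≤ (‖z‖ / 2 - ‖y - z‖) * ‖fderiv ℝ u y‖ := by
      intro x hx
      exact hmax (by rw [Metric.mem_closedBall, dist_eq_norm]; exact hx)
    rw [Metric.mem_closedBall, dist_eq_norm] at hy
    obtain ⟨m, hm⟩ : ∃ m : ℝ, m = ‖fderiv ℝ u y‖ := ⟨_, rfl⟩
    obtain ⟨d, hd⟩ : ∃ d : ℝ, d = ‖z‖ / 2 - ‖y - z‖ := ⟨_, rfl⟩
    rw [← hm, ← hd] at hmax'
    have hm0 : 0 ≤ m := hm ▸ norm_nonneg _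
    have hd0 : 0 ≤ d := by rw [hd]; linarith
    have hdm : 4 * ((k : ℝ) + 1) < d * m := by
      have h := hmax' z (by rw [sub_self, norm_zero]; positivity)
      rw [sub_self, norm_zero, sub_zero] at h
      linarith
    have hmp : 0 < m := by
      rcases hm0.lt_or_eq with h | h
      · exact h
      · rw [← h, mul_zero] at hdm
        linarith
    have hm2 : m ≤ 2 := hm ▸ hb y
    have hyd : d ≤ ‖y‖ := by
      have h : ‖z‖ ≤ ‖y‖ + ‖y - z‖ := by
        have h1 := norm_sub_le y (y - z)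
        rwa [sub_sub_cancel] at h1
      have h2 := norm_nonneg z
      rw [hd]
      linarith
    have hmy : 4 * ((k : ℝ) + 1) < m * ‖y‖ := by
      have h := mul_le_mul_of_nonneg_left hyd hm0
      linarith
    refine ⟨y, ?_, ?_, ?_, ?_⟩
    · rw [← hm]
      exact hmp
    · rw [← hm]
      linarith
    · have h := mul_le_mul_of_nonneg_right hm2 (norm_nonneg y)
      linarith
    · intro x hx
      rw [← hm] at hx ⊢
      have h1 : ((k : ℝ) + 1) / m ≤ d / 4 := by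
        rw [div_le_div_iff₀ hmp (by norm_num)]
        linarith
      have h2 : ‖x - z‖ ≤ ‖x - y‖ + ‖y - z‖ := by
        have h3 := norm_add_le (x - y) (y - z)
        rwa [sub_add_sub_cancel] at h3
      have h4 := hmax' x (by linarith)
      have h5 : d / 2 ≤ ‖z‖ / 2 - ‖x - z‖ := by linarith
      have h6 := mul_le_mul_of_nonneg_right h5 (norm_nonneg (fderiv ℝ u x))
      have hdp : 0 < d := by
        rcases hd0.lt_or_eq with h | h
        · exact h
        · rw [← h, zero_mul] at hdm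
          linarith
      have h7 : d * (‖fderiv ℝ u x‖ / 2) ≤ d * m := by linarith
      have h8 := le_of_mul_le_mul_left h7 hdp
      linarith
  choose y hy using main
  exact ⟨y, hy⟩

end Pool.Agent.FUE
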