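import Pool.Agent.FUE.StE

/-!
# FUE, E04: blow-up limit
-/

set_option autoImplicit false

open scoped Manifold ContDiff Matrix
open MeasureTheory

namespace Pool.Agent.FUE

namespace E04x

theorem flat_mono {pr : Profile} {U V : Set E3} {u : E3 → V9} (h : Flat pr U u) (hVU : V ⊆ U) :
    Flat pr V u :=
  ⟨h.smooth.mono hVU, fun x hx => h.mem x (hVU hx), fun x hx => h.eq x (hVU hx)⟩

theorem lim_le {f : ℕ → E3 → V9} {v : E3 → V9} (h : CLoc Set.univ f v) (x : E3) :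
    Filter.Tendsto (fun n => ‖fderiv ℝ (f n) x‖) Filter.atTop (nhds ‖fderiv ℝ v x‖) := by
  have h1 := ((h.2 1).tendsto_at (Set.mem_univ x)).norm
  simpa only [norm_iteratedFDeriv_one] using h1

end E04x

open E04x in
theorem thm_E04 (hE00 : St_E00) (hF09 : St_F09) : St_E04 := by
  intro pr S u hu y hy
  set m : ℕ → ℝ := fun k => ‖fderiv ℝ u (y k)‖ with hm
  have hm0 : ∀ k, 0 < m k := fun k => (hy k).1
  have hg : ∀ k, Good pr S (fun x => u (y k + (m k)⁻¹ • x)) ∧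
      ∀ x, fderiv ℝ (fun x => u (y k + (m k)⁻¹ • x)) x =
        (m k)⁻¹ • fderiv ℝ u (y k + (m k)⁻¹ • x) := fun k =>
    ⟨(hF09 pr S u (y k) (m k)⁻¹ (inv_pos.2 (hm0 k)) hu).1,
      (hF09 pr S u (y k) (m k)⁻¹ (inv_pos.2 (hm0 k)) hu).2.1⟩
  have hb : ∀ (k : ℕ) (x : E3), ‖x‖ ≤ (k : ℝ) + 1 →
      ‖fderiv ℝ (fun x => u (y k + (m k)⁻¹ • x)) x‖ ≤ 2 := by
    intro k x hx
    rw [(hg k).2, norm_smul, norm_inv, Real.norm_of_nonneg (hm0 k).le]
    have h1 : ‖(y k + (m k)⁻¹ • x) - y k‖ ≤ ((k : ℝ) + 1) / m k := by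
      rw [add_sub_cancel_left, norm_smul, norm_inv, Real.norm_of_nonneg (hm0 k).le,
        inv_mul_eq_div]
      exact div_le_div_of_nonneg_right hx (hm0 k).le
    have h2 := (hy k).2 _ h1
    calc (m k)⁻¹ * ‖fderiv ℝ u (y k + (m k)⁻¹ • x)‖ ≤ (m k)⁻¹ * (2 * m k) :=
          mul_le_mul_of_nonneg_left h2 (inv_nonneg.2 (hm0 k).le)
      _ = 2 := by
          have := (hm0 k).ne'
          field_simp
  have h0 : ∀ k : ℕ, ‖fderiv ℝ (fun x => u (y k + (m k)⁻¹ • x)) 0‖ = 1 := by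
    intro k
    rw [(hg k).2, norm_smul, norm_inv, Real.norm_of_nonneg (hm0 k).le, smul_zero, add_zero]
    exact inv_mul_cancel₀ (hm0 k).ne'
  obtain ⟨φ, v, hφ, hv, hS, hc⟩ := hE00 pr S Set.univ
    (fun k x => u (y k + (m k)⁻¹ • x)) isOpen_univ (by
      intro K hK _
      obtain ⟨r, hr⟩ := hK.isBounded.subset_ball (0 : E3)
      refine ⟨2, ?_⟩
      filter_upwards [Filter.eventually_ge_atTop ⌈r⌉₊] with n hn
      have hrn : r ≤ (n : ℝ) + 1 :=
        ((Nat.le_ceil r).trans (by exact_mod_cast hn)).trans (le_add_of_nonneg_right zero_le_one)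
      refine ⟨Metric.ball 0 ((n : ℝ) + 1), Metric.isOpen_ball,
        hr.trans (Metric.ball_subset_ball hrn), Set.subset_univ _,
        flat_mono (hg n).1.flat (Set.subset_univ _), fun x hx => ⟨(hg n).1.size x, ?_⟩⟩
      exact hb n x (mem_ball_zero_iff.1 hx).le)
  refine ⟨φ, v, hφ, ⟨hv, fun x => hS x (Set.mem_univ x), fun x => ?_, ?_⟩, hc⟩
  · refine le_of_tendsto (lim_le hc x) ?_
    filter_upwards [Filter.eventually_ge_atTop ⌈‖x‖⌉₊] with n hn
    refine hb (φ n) x ?_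
    have h1 : (n : ℝ) ≤ (φ n : ℝ) := by exact_mod_cast hφ.le_apply
    have h2 : ‖x‖ ≤ (n : ℝ) := (Nat.le_ceil _).trans (by exact_mod_cast hn)
    linarith
  · refine tendsto_nhds_unique (lim_le hc 0) ?_
    simp only [h0]
    exact tendsto_const_nhds

end Pool.Agent.FUE
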