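import Pool.Agent.FUE.StE

/-!
# Fueter sections, E05: energies of blow-up limits
-/

set_option autoImplicit false

open scoped Manifold ContDiff Matrix
open MeasureTheory

namespace Pool.Agent.FUE

theorem thm_E05 (hF08 : St_F08) (hF09 : St_F09) (hF12 : St_F12) : St_E05 := by
  intro pr S u hu y ρ v hρ hv hC
  have hg : ∀ n, Good pr S (fun x => u (y n + ρ n • x)) := fun n =>
    (hF09 pr S u (y n) (ρ n) (hρ n) hu).1
  have h1 : ∀ R : ℝ, 0 < R → Filter.Tendsto (fun n => Phi pr u (y n) (ρ n * R)) Filter.atTop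
      (nhds (Phi pr v 0 R)) := by
    intro R hR
    have h2 := hF12 pr S (fun n x => u (y n + ρ n • x)) v hg hv hC R hR
    have h3 : (fun n => Phi pr (fun x => u (y n + ρ n • x)) 0 R) =
        fun n => Phi pr u (y n) (ρ n * R) := by
      funext n
      rw [(hF09 pr S u (y n) (ρ n) (hρ n) hu).2.2.2.2 0 R hR, smul_zero, add_zero]
    rw [h3] at h2
    exact h2
  refine ⟨h1, ?_⟩
  have h4 : ∀ R : ℝ, 0 < R → Phi pr v 0 R ≤ Theta pr u := fun R hR =>
    le_of_tendsto' (h1 R hR) fun n => (hF08 pr S u hu).2.1 (y n) (ρ n * R) (mul_pos (hρ n) hR)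
  unfold Theta at h4 ⊢
  exact ciSup_le fun n => h4 ((n : ℝ) + 1) (by positivity)

end Pool.Agent.FUE
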