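import Pool.Agent.FUE.StH

/-!
# Fueter sections: statements, block E (entire solutions do not exist)

Paper: /team-store/FUE_paper.md, Section 4.
-/

set_option autoImplicit false

open scoped Manifold ContDiff Matrix
open MeasureTheory

namespace Pool.Agent.FUE

/-- **[E00] compactness of flat Fueter maps** with locally bounded gradient, on an open set `U`.
This is `St_Cpt` (helper17, block M) for the constant frame `B j x = bs j` and `W = 0`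
(`Flat pr U u ↔ LocF pr U (fun j _ => bs j) 0 u`). -/
def St_E00 : Prop :=
  ∀ (pr : Profile) (S : ℝ) (U : Set E3) (u : ℕ → E3 → V9), IsOpen U →
    (∀ K : Set E3, IsCompact K → K ⊆ U → ∃ Λ : ℝ, ∀ᶠ n in Filter.atTop,
      ∃ O : Set E3, IsOpen O ∧ K ⊆ O ∧ O ⊆ U ∧ Flat pr O (u n) ∧ ∀ x ∈ O, lam (u n x) ≤ S ∧
        ‖fderiv ℝ (u n) x‖ ≤ Λ) →
    ∃ (φ : ℕ → ℕ) (v : E3 → V9), StrictMono φ ∧ Flat pr U v ∧ (∀ x ∈ U, lam (v x) ≤ S) ∧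
      CLoc U (fun n => u (φ n)) v

/-- **[E01] compactness of `Ent`.**  [E00] with `U = univ`, `Λ = 2`.  `‖Dv‖ ≤ 2`, `‖Dv 0‖ = 1` from
the pointwise convergence of the first derivatives (`CLoc`, `k = 1`). -/
def St_E01 : Prop :=
  ∀ (pr : Profile) (S : ℝ) (u : ℕ → E3 → V9), (∀ n, Ent pr S (u n)) →
    ∃ (φ : ℕ → ℕ) (v : E3 → V9), StrictMono φ ∧ Ent pr S v ∧ CLoc Set.univ (fun n => u (φ n)) v

/-- **[E02] an entire solution of minimal energy.**  `Ent` implies `Good`.  `Theta ≥ 0` on `Ent`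
([F06], [F08]); `I` = infimum; `Theta (u n) → I`; limit `u` of a subsequence ([E01]); [F12] and
`Phi (u n) 0 R ≤ Theta (u n)` ([F08]) give `Phi u 0 R ≤ I` for all `R > 0`, so `Theta u ≤ I`.
Positivity: `Theta u ≥ Phi u 0 1 > 0` because `en ≥ c ‖Du‖^2 ≥ 0` is continuous ([F02]), integrable
with the Gaussian weight ([F05]) and positive at `0`. -/
def St_E02 : Prop :=
  ∀ (pr : Profile) (S : ℝ), (∃ u, Ent pr S u) →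
    ∃ u, Ent pr S u ∧ 0 < Theta pr u ∧ ∀ w, Ent pr S w → Theta pr u ≤ Theta pr w

/-- **[E03] point picking.**  Given `k`, choose `z` with `‖z‖ ‖Du z‖ > 8 (k+1)`; let `y` maximise
`f(y) = (‖z‖/2 - ‖y-z‖) ‖Du y‖` on `closedBall z (‖z‖/2)`; `f y ≥ f z > 4 (k+1)`.  With
`d = ‖z‖/2 - ‖y-z‖ > 0`, `m = ‖Du y‖ > 0`, `d m > 4 (k+1)`; `‖x - y‖ ≤ d/2` gives
`(d/2) ‖Du x‖ ≤ f x ≤ d m`, and `(k+1)/m ≤ d/4`.  `‖y‖ ≥ ‖z‖ - ‖y - z‖ ≥ d`, `m ≤ 2`. -/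
def St_E03 : Prop :=
  ∀ u : E3 → V9, ContDiff ℝ 1 u → (∀ x, ‖fderiv ℝ u x‖ ≤ 2) →
    (¬ ∃ C : ℝ, ∀ x, ‖x‖ * ‖fderiv ℝ u x‖ ≤ C) →
    ∃ y : ℕ → E3, ∀ k : ℕ, 0 < ‖fderiv ℝ u (y k)‖ ∧ (k : ℝ) + 1 ≤ ‖fderiv ℝ u (y k)‖ * ‖y k‖ ∧
      (k : ℝ) + 1 ≤ ‖y k‖ ∧ ∀ x, ‖x - y k‖ ≤ ((k : ℝ) + 1) / ‖fderiv ℝ u (y k)‖ →
        ‖fderiv ℝ u x‖ ≤ 2 * ‖fderiv ℝ u (y k)‖

/-- **[E04] blow-up limit.**  `u_k(x) = u (y_k + m_k⁻¹ x)`, `m_k = ‖Du (y_k)‖`: `Good` ([F09]),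
`‖Du_k x‖ = m_k⁻¹ ‖Du (y_k + m_k⁻¹ x)‖ ≤ 2` for `‖x‖ ≤ k+1`, `‖Du_k 0‖ = 1`.  [E00] with `U = univ`. -/
def St_E04 : Prop :=
  ∀ (pr : Profile) (S : ℝ) (u : E3 → V9), Good pr S u → ∀ y : ℕ → E3,
    (∀ k : ℕ, 0 < ‖fderiv ℝ u (y k)‖ ∧ ∀ x, ‖x - y k‖ ≤ ((k : ℝ) + 1) / ‖fderiv ℝ u (y k)‖ →
        ‖fderiv ℝ u x‖ ≤ 2 * ‖fderiv ℝ u (y k)‖) →
    ∃ (φ : ℕ → ℕ) (v : E3 → V9), StrictMono φ ∧ Ent pr S v ∧
      CLoc Set.univ (fun n x => u (y (φ n) + ‖fderiv ℝ u (y (φ n))‖⁻¹ • x)) v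

/-- **[E05] energies of blow-up limits.**  [F09]: `Phi (u (y + ρ ·)) 0 R = Phi u y (ρ R)`, `Good`;
[F12] gives the convergence; `Phi u (y n) (ρ n R) ≤ Theta u` ([F08]), so `Phi v 0 R ≤ Theta u` for
all `R > 0`, hence `Theta v ≤ Theta u`. -/
def St_E05 : Prop :=
  ∀ (pr : Profile) (S : ℝ) (u : E3 → V9), Good pr S u → ∀ (y : ℕ → E3) (ρ : ℕ → ℝ) (v : E3 → V9),
    (∀ n, 0 < ρ n) → Good pr S v → CLoc Set.univ (fun n x => u (y n + ρ n • x)) v →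
    (∀ R : ℝ, 0 < R → Filter.Tendsto (fun n => Phi pr u (y n) (ρ n * R)) Filter.atTop
      (nhds (Phi pr v 0 R))) ∧ Theta pr v ≤ Theta pr u

/-- **[E06] case B.**  Suppose not; `y` from [E03], `φ, v` from [E04], `m_n = ‖Du (y (φ n))‖`;
`Theta v ≤ Theta u` ([E05]), so `Theta v = Theta u =: Θ`.  `ε` from [F11] with `θ0 = Θ`.  [F08]:
choose `R > 0` with `Phi v 0 R > Θ - ε`; so `Phi u (y (φ n)) (R/m_n) > Θ - ε` for large `n`, and by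
[F06], [F08] `Θ - ε ≤ Phi u (y (φ n)) r ≤ Θ` for `r ≥ R/m_n`; likewise
`Θ - ε ≤ Phi u 0 r ≤ Θ` for `r ≥ r0`.  For `n` large `R/m_n ≤ ‖y (φ n)‖/4`, `r0 ≤ ‖y (φ n)‖/4`
([E03]).  Let `w(x) = u(‖y‖ x)`, `e = y/‖y‖`, `y = y (φ n)`: by [F09] `Good`,
`Phi w 0 r = Phi u 0 (‖y‖ r)`, `Phi w e r = Phi u y (‖y‖ r)`.  [F11] gives `False`. -/
def St_E06 : Prop :=
  ∀ (pr : Profile) (S : ℝ) (u : E3 → V9), Ent pr S u → 0 < Theta pr u →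
    (∀ w, Ent pr S w → Theta pr u ≤ Theta pr w) → ∃ C : ℝ, ∀ x, ‖x‖ * ‖fderiv ℝ u x‖ ≤ C

/-- **[E07] integrability.**  `integrable_fun_norm_addHaar`: `y^2 (y^2)⁻¹ e^{-y²/R²}` on `Ioi 0`. -/
def St_E07 : Prop :=
  ∀ R : ℝ, 0 < R → Integrable (fun x : E3 => (‖x‖ ^ 2)⁻¹ * Real.exp (-(‖x‖ ^ 2 / R ^ 2)))

/-- **[E08] case A.**  `u_j(x) = u((j+1) x)`: `‖Du_j x‖ ≤ C/‖x‖`, `Good` ([F09]); [E00] on `{0}ᶜ`:
`φ, v`.  `Phi u_j 0 R = Phi u 0 ((j+1) R) → Θ = Theta u` ([F09], [F08]) and, by dominated convergence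
(`en u_j x ≤ C' ‖x‖⁻²` by [F02], [E07]; `en` converges pointwise on `{0}ᶜ` because `wf` is
continuous, [A07]), `Phi u_{φ j} 0 R → Phi v 0 R`.  So `Phi v 0 R = Θ` for all `R > 0`.  By [F06]
`∫ gq u_j x x exp(-‖x‖²/R²) ≤ R^3 (Phi u_j 0 (2R) - Phi u_j 0 R) → 0`; by dominated convergence
(`gq x x ≤ ‖x‖² en`) `∫ gq v x x exp(..) = 0`, `gq v x x ≥ c ‖fderiv v x x‖²` is continuous on
`{0}ᶜ` ([F02]), so `fderiv v x x = 0` for `x ≠ 0`.  If `fderiv v x = 0` for all `x ≠ 0` then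
`en v = 0` a.e. and `Phi v 0 1 = 0 < Θ`, contradiction. -/
def St_E08 : Prop :=
  ∀ (pr : Profile) (S : ℝ) (u : E3 → V9), Ent pr S u → 0 < Theta pr u →
    (∃ C : ℝ, ∀ x, ‖x‖ * ‖fderiv ℝ u x‖ ≤ C) →
    ∃ (φ : ℕ → ℕ) (v : E3 → V9), StrictMono φ ∧ Flat pr {0}ᶜ v ∧
      (∀ x : E3, x ≠ 0 → lam (v x) ≤ S) ∧ CLoc {0}ᶜ (fun k x => u (((φ k : ℝ) + 1) • x)) v ∧
      (∀ x : E3, x ≠ 0 → fderiv ℝ v x x = 0) ∧ ∃ x : E3, x ≠ 0 ∧ fderiv ℝ v x ≠ 0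

/-- **[E09] Liouville theorem.**  [E02], [E06], [E08], then [H06], [H08], [H11]. -/
def St_E09 : Prop :=
  ∀ (pr : Profile) (S : ℝ) (u : E3 → V9), ¬ Ent pr S u

end Pool.Agent.FUE
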