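import Mathlib
import Pool.Agent.FUE.StE

/-!
# Fueter sections: E06, case B of the blow-up argument
-/

set_option autoImplicit false

open scoped Manifold ContDiff Matrix
open MeasureTheory

namespace Pool.Agent.FUE

theorem E06x.good_of_ent {pr : Profile} {S : ℝ} {u : E3 → V9} (h : Ent pr S u) : Good pr S u :=
  ⟨h.flat, h.size, 2, h.grad⟩

theorem thm_E06 (hE03 : St_E03) (hE04 : St_E04) (hE05 : St_E05) (hF06 : St_F06) (hF08 : St_F08)
    (hF09 : St_F09) (hF11 : St_F11) : St_E06 := by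
  intro pr S u hu hpos hmin
  by_contra hcon
  have hG : Good pr S u := E06x.good_of_ent hu
  have hC1 : ContDiff ℝ 1 u :=
    (contDiffOn_univ.mp hu.flat.smooth).of_le (by exact_mod_cast le_top)
  obtain ⟨y, hy⟩ := hE03 u hC1 hu.grad hcon
  obtain ⟨φ, v, hφ, hEv, hcl⟩ := hE04 pr S u hG y (fun k => ⟨(hy k).1, (hy k).2.2.2⟩)
  have hGv : Good pr S v := E06x.good_of_ent hEv
  have hm : ∀ n, 0 < ‖fderiv ℝ u (y (φ n))‖ := fun n => (hy (φ n)).1
  obtain ⟨hconv, hle⟩ := hE05 pr S u hG (fun n => y (φ n))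
    (fun n => ‖fderiv ℝ u (y (φ n))‖⁻¹) v (fun n => inv_pos.mpr (hm n)) hGv hcl
  have hΘ : Theta pr v = Theta pr u := le_antisymm hle (hmin v hEv)
  obtain ⟨ε, hε, hbad⟩ := hF11 pr S (Theta pr u) hpos
  obtain ⟨-, hubd, hut⟩ := hF08 pr S u hG
  obtain ⟨-, -, hvt⟩ := hF08 pr S v hGv
  rw [hΘ] at hvt
  have hlt : Theta pr u - ε < Theta pr u := by linarith
  obtain ⟨R, hR, hR0⟩ := ((hvt.eventually (lt_mem_nhds hlt)).and
    (Filter.eventually_gt_atTop (0 : ℝ))).exists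
  obtain ⟨r0, hr0, hr00⟩ := ((hut.eventually (lt_mem_nhds hlt)).and
    (Filter.eventually_gt_atTop (0 : ℝ))).exists
  have hev := (hconv R hR0).eventually (lt_mem_nhds hR)
  obtain ⟨N1, hN1⟩ := exists_nat_ge (4 * R)
  obtain ⟨N2, hN2⟩ := exists_nat_ge (4 * r0)
  obtain ⟨n, hn, hnN⟩ := (hev.and (Filter.eventually_ge_atTop (max N1 N2))).exists
  have hφn : (n : ℝ) ≤ (φ n : ℝ) := by exact_mod_cast hφ.id_le n
  have hn1 : (N1 : ℝ) ≤ n := by exact_mod_cast (le_max_left N1 N2).trans hnN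
  have hn2 : (N2 : ℝ) ≤ n := by exact_mod_cast (le_max_right N1 N2).trans hnN
  set Y : ℝ := ‖y (φ n)‖ with hY
  set m : ℝ := ‖fderiv ℝ u (y (φ n))‖ with hmdef
  have hmn : 0 < m := hm n
  have hYk : (φ n : ℝ) + 1 ≤ Y := (hy (φ n)).2.2.1
  have hmY : (φ n : ℝ) + 1 ≤ m * Y := (hy (φ n)).2.1
  have hY0 : 0 < Y := by
    have : (0 : ℝ) ≤ (φ n : ℝ) := Nat.cast_nonneg _
    linarith
  have h1 : r0 ≤ Y / 4 := by linarith
  have h2 : m⁻¹ * R ≤ Y / 4 := by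
    have h3 : 4 * R ≤ m * Y := by linarith
    rw [inv_mul_le_iff₀ hmn]
    linarith
  obtain ⟨hGw, -, -, -, hPhi⟩ := hF09 pr S u 0 Y hY0 hG
  have hye : (0 : E3) + Y • (Y⁻¹ • y (φ n)) = y (φ n) := by
    rw [zero_add, smul_smul, mul_inv_cancel₀ hY0.ne', one_smul]
  have hy0 : (0 : E3) + Y • (0 : E3) = 0 := by simp
  refine hbad (fun x => u (0 + Y • x)) (Y⁻¹ • y (φ n)) (Theta pr u) hGw ?_ le_rfl ?_ ?_
  · rw [norm_smul, norm_inv, Real.norm_eq_abs, abs_of_pos hY0]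
    exact inv_mul_cancel₀ hY0.ne'
  · intro r hr
    have hr' : 0 < r := by linarith
    have hYr : r0 ≤ Y * r := by nlinarith
    rw [hPhi 0 r hr', hy0]
    refine ⟨?_, hubd 0 (Y * r) (by positivity)⟩
    exact hr0.le.trans ((hF06 pr S u hG 0 r0 hr00).2.1 (Y * r) hYr)
  · intro r hr
    have hr' : 0 < r := by linarith
    have hYr : m⁻¹ * R ≤ Y * r := by nlinarith
    rw [hPhi _ r hr', hye]
    refine ⟨?_, hubd _ (Y * r) (by positivity)⟩
    exact hn.le.trans ((hF06 pr S u hG (y (φ n)) (m⁻¹ * R) (by positivity)).2.1 (Y * r) hYr)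

end Pool.Agent.FUE
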