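import Pool.Agent.FUE.StE

/-!
# Fueter sections: integrability of the inverse square against a Gaussian (helper24)
-/

set_option autoImplicit false

open scoped Manifold ContDiff Matrix
open MeasureTheory

namespace Pool.Agent.FUE

theorem thm_E07 : St_E07 := by
  intro R hR
  have h := (integrable_fun_norm_addHaar (volume : Measure E3)
    (f := fun y : ℝ => (y ^ 2)⁻¹ * Real.exp (-(y ^ 2 / R ^ 2)))).2
  refine h ?_
  have h1 : Integrable (fun y : ℝ => Real.exp (-(1 / R ^ 2) * y ^ 2)) :=
    integrable_exp_neg_mul_sq (by positivity)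
  refine (h1.integrableOn (s := Set.Ioi 0)).congr_fun ?_ measurableSet_Ioi
  intro y hy
  have hy0 : (y : ℝ) ≠ 0 := (Set.mem_Ioi.1 hy).ne'
  have hd : Module.finrank ℝ E3 = 3 := by simp
  simp only [hd, smul_eq_mul]
  rw [← mul_assoc, mul_inv_cancel₀ (pow_ne_zero 2 hy0), one_mul]
  congr 1
  ring

end Pool.Agent.FUE
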