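import Pool.Agent.FUE.StF

/-!
# Fueter sections, module F01: pull back of `omega = d theta`
-/

set_option autoImplicit false

open scoped Manifold ContDiff Matrix
open MeasureTheory

namespace Pool.Agent.FUE

namespace F01x

/-- `theta` as a function of both variables -/
noncomputable def G (pr : Profile) (l : Fin 3) (p : V9 × V9) : ℝ := th p.1 pr (toM p.2) l

/-- the derivative in the second variable -/
theorem snd_deriv (hA07 : St_A07) (pr : Profile) (l : Fin 3) (P H K : V9) :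
    fderiv ℝ (G pr l) (P, H) ((0 : V9), K) = th P pr (toM K) l := by
  have hG : ContDiff ℝ ∞ (G pr l) := hA07.1 pr l
  have hd : DifferentiableAt ℝ (G pr l) (P, H) := (hG.differentiable (by simp)).differentiableAt
  have h1 : HasDerivAt (fun r : ℝ => G pr l ((P, H) + r • ((0 : V9), K)))
      (fderiv ℝ (G pr l) (P, H) ((0 : V9), K)) 0 := by
    have h2 : HasDerivAt (fun r : ℝ => (P, H) + r • ((0 : V9), K)) ((0 : V9), K) 0 := by
      have h3 := ((hasDerivAt_id (0 : ℝ)).smul_const ((0 : V9), K)).const_add (P, H)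
      simpa using h3
    have h4 : HasFDerivAt (G pr l) (fderiv ℝ (G pr l) (P, H))
        ((fun r : ℝ => (P, H) + r • ((0 : V9), K)) 0) := by
      simpa using hd.hasFDerivAt
    exact h4.comp_hasDerivAt 0 h2
  have h5 : (fun r : ℝ => G pr l ((P, H) + r • ((0 : V9), K))) =
      fun r : ℝ => th P pr (toM H) l + r * th P pr (toM K) l := by
    funext r
    unfold G
    simp only [Prod.smul_mk, Prod.mk_add_mk, smul_zero, add_zero]
    exact hA07.2.1 pr P H K r l
  rw [h5] at h1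
  have h6 : HasDerivAt (fun r : ℝ => th P pr (toM H) l + r * th P pr (toM K) l)
      (th P pr (toM K) l) 0 := by
    have h7 := ((hasDerivAt_id (0 : ℝ)).mul_const (th P pr (toM K) l)).const_add
      (th P pr (toM H) l)
    simpa using h7
  exact h1.unique h6

/-- the derivative in the first variable -/
theorem fst_deriv (hA07 : St_A07) (pr : Profile) (l : Fin 3) (P H K : V9) :
    fderiv ℝ (G pr l) (P, H) (K, (0 : V9)) = fderiv ℝ (fun Q : V9 => th Q pr (toM H) l) P K := by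
  have hG : ContDiff ℝ ∞ (G pr l) := hA07.1 pr l
  have hd : DifferentiableAt ℝ (G pr l) (P, H) := (hG.differentiable (by simp)).differentiableAt
  have h1 : HasFDerivAt (fun Q : V9 => (Q, H)) (ContinuousLinearMap.inl ℝ V9 V9) P :=
    hasFDerivAt_prodMk_left P H
  have h2 := hd.hasFDerivAt.comp P h1
  have h3 : (G pr l ∘ fun Q : V9 => (Q, H)) = fun Q : V9 => th Q pr (toM H) l := rfl
  rw [h3] at h2
  rw [h2.fderiv]
  rfl

theorem tu_smooth (hA07 : St_A07) (pr : Profile) {U : Set E3} {u : E3 → V9} (hU : IsOpen U)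
    (hu : ContDiffOn ℝ ∞ u U) (l b : Fin 3) : ContDiffOn ℝ ∞ (tu pr u l b) U := by
  have h1 : ContDiffOn ℝ ∞ (fun y => du u y b) U := by
    have h0 : ContDiffOn ℝ ∞ (fderiv ℝ u) U := hu.fderiv_of_isOpen hU (by simp)
    have h2 : ContDiffOn ℝ ∞ (fun _ : E3 => bs b) U := contDiffOn_const
    exact ContDiffOn.clm_apply h0 h2
  have hG : ContDiff ℝ ∞ (G pr l) := hA07.1 pr l
  have h3 : ContDiffOn ℝ ∞ (fun y => (u y, du u y b)) U := hu.prodMk h1
  have h4 : ContDiffOn ℝ ∞ (G pr l ∘ fun y => (u y, du u y b)) U := hG.comp_contDiffOn h3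
  have h5 : (G pr l ∘ fun y => (u y, du u y b)) = tu pr u l b := rfl
  rw [h5] at h4
  exact h4

theorem tu_deriv (hA07 : St_A07) (pr : Profile) {U : Set E3} {u : E3 → V9} (hU : IsOpen U)
    (hu : ContDiffOn ℝ ∞ u U) {x : E3} (hx : x ∈ U) (l a b : Fin 3) :
    fderiv ℝ (tu pr u l b) x (bs a) =
      fderiv ℝ (fun Q : V9 => th Q pr (toM (du u x b)) l) (u x) (du u x a) +
        th (u x) pr (toM (fderiv ℝ (fderiv ℝ u) x (bs a) (bs b))) l := by
  have hG : ContDiff ℝ ∞ (G pr l) := hA07.1 pr l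
  have hd : DifferentiableAt ℝ (G pr l) (u x, du u x b) :=
    (hG.differentiable (by simp)).differentiableAt
  have hux : ContDiffAt ℝ ∞ u x := hu.contDiffAt (hU.mem_nhds hx)
  have hu1 : HasFDerivAt u (fderiv ℝ u x) x := (hux.differentiableAt (by simp)).hasFDerivAt
  have hu2 : HasFDerivAt (fderiv ℝ u) (fderiv ℝ (fderiv ℝ u) x) x := by
    have h1 : ContDiffAt ℝ 1 (fderiv ℝ u) x := hux.fderiv_right (m := 1) (by norm_cast)
    exact (h1.differentiableAt (by norm_num)).hasFDerivAt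
  have hu3 : HasFDerivAt (fun y => du u y b)
      ((ContinuousLinearMap.apply ℝ V9 (bs b)).comp (fderiv ℝ (fderiv ℝ u) x)) x :=
    (ContinuousLinearMap.apply ℝ V9 (bs b)).hasFDerivAt.comp x hu2
  have h2 := hd.hasFDerivAt.comp x (hu1.prodMk hu3)
  have h3 : (G pr l ∘ fun y => (u y, du u y b)) = tu pr u l b := rfl
  rw [h3] at h2
  rw [h2.fderiv]
  have h4 : ((fderiv ℝ (G pr l) (u x, du u x b)).comp ((fderiv ℝ u x).prod
      ((ContinuousLinearMap.apply ℝ V9 (bs b)).comp (fderiv ℝ (fderiv ℝ u) x)))) (bs a) =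
      fderiv ℝ (G pr l) (u x, du u x b) (du u x a, fderiv ℝ (fderiv ℝ u) x (bs a) (bs b)) := rfl
  have h5 : ((du u x a, fderiv ℝ (fderiv ℝ u) x (bs a) (bs b)) : V9 × V9) =
      (du u x a, (0 : V9)) + ((0 : V9), fderiv ℝ (fderiv ℝ u) x (bs a) (bs b)) := by
    simp
  rw [h4, h5, map_add, fst_deriv hA07, snd_deriv hA07]

theorem om_eq (hA07 : St_A07) (pr : Profile) {U : Set E3} {u : E3 → V9} (hU : IsOpen U)
    (hu : ContDiffOn ℝ ∞ u U) {x : E3} (hx : x ∈ U) (l a b : Fin 3) :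
    om (u x) pr l (du u x a) (du u x b) =
      fderiv ℝ (tu pr u l b) x (bs a) - fderiv ℝ (tu pr u l a) x (bs b) := by
  have hux : ContDiffAt ℝ ∞ u x := hu.contDiffAt (hU.mem_nhds hx)
  have hs : fderiv ℝ (fderiv ℝ u) x (bs a) (bs b) = fderiv ℝ (fderiv ℝ u) x (bs b) (bs a) := by
    have h1 : IsSymmSndFDerivAt ℝ u x := hux.isSymmSndFDerivAt (by
      rw [minSmoothness_of_isRCLikeNormedField]
      exact WithTop.coe_le_coe.2 (by exact_mod_cast (le_top : (2 : ℕ∞) ≤ ⊤)))
    exact h1 (bs a) (bs b)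
  rw [tu_deriv hA07 pr hU hu hx l a b, tu_deriv hA07 pr hU hu hx l b a, hs]
  unfold om
  ring

end F01x

theorem thm_F01 (hA07 : St_A07) : St_F01 := by
  intro pr U u hU hu
  refine ⟨fun l b => F01x.tu_smooth hA07 pr hU hu l b,
    fun x hx l a b => F01x.om_eq hA07 pr hU hu hx l a b, fun x hx l i => ?_⟩
  exact F01x.om_eq hA07 pr hU hu hx l (i + 1) (i + 2)

end Pool.Agent.FUE
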