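import Pool.Agent.FUE.StF

/-!
# Fueter sections, F08: the energy at infinity does not depend on the centre
-/

set_option autoImplicit false

open scoped Manifold ContDiff Matrix
open MeasureTheory

namespace Pool.Agent.FUE

namespace F08x

theorem gauss_int (r : ℝ) (hr : 0 < r) :
    Integrable (fun x : E3 => Real.exp (-(‖x - 0‖ ^ 2 / r ^ 2))) := by
  have hb : (0 : ℝ) < (((r ^ 2)⁻¹ : ℝ) : ℂ).re := by
    rw [Complex.ofReal_re]; positivity
  have h := (GaussianFourier.integrable_cexp_neg_mul_sq_norm_add hb 0 (0 : E3)).norm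
  refine h.congr (Filter.Eventually.of_forall fun x => ?_)
  change ‖Complex.exp _‖ = Real.exp _
  rw [Complex.norm_exp]
  congr 1
  rw [sub_zero, zero_mul, add_zero]
  have e : -(((r ^ 2)⁻¹ : ℝ) : ℂ) * ((‖x‖ : ℝ) : ℂ) ^ 2 = ((-((r ^ 2)⁻¹ * ‖x‖ ^ 2) : ℝ) : ℂ) := by
    push_cast; ring
  rw [e, Complex.ofReal_re]
  ring

theorem quad {a b R : ℝ} (hR : 0 < R) : (a + b) ^ 2 ≤ (1 + 1 / R) * a ^ 2 + (R + 1) * b ^ 2 := by
  have h : 0 ≤ (a - R * b) ^ 2 / R := by positivity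
  have e : (a - R * b) ^ 2 / R = a ^ 2 / R - 2 * a * b + R * b ^ 2 := by
    field_simp
    ring
  have e2 : (1 + 1 / R) * a ^ 2 = a ^ 2 + a ^ 2 / R := by ring
  rw [e2]
  nlinarith

theorem expo (x y : E3) (R : ℝ) (hR : 0 < R) :
    Real.exp (-(‖x - y‖ ^ 2 / R ^ 2)) ≤ Real.exp (‖y‖ ^ 2 / R) *
      Real.exp (-(‖x - 0‖ ^ 2 / (Real.sqrt (1 + 1 / R) * R) ^ 2)) := by
  rw [← Real.exp_add, Real.exp_le_exp, sub_zero]
  have hq : 0 < 1 + 1 / R := by positivity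
  have h1 : (Real.sqrt (1 + 1 / R) * R) ^ 2 = (1 + 1 / R) * R ^ 2 := by
    rw [mul_pow, Real.sq_sqrt hq.le]
  rw [h1]
  have h2 : ‖x‖ ≤ ‖x - y‖ + ‖y‖ := by
    have h3 := norm_add_le (x - y) y
    rwa [sub_add_cancel] at h3
  have h3 : ‖x‖ ^ 2 ≤ (1 + 1 / R) * ‖x - y‖ ^ 2 + (R + 1) * ‖y‖ ^ 2 :=
    (pow_le_pow_left₀ (norm_nonneg x) h2 2).trans (quad hR)
  have h4 : ‖x‖ ^ 2 / ((1 + 1 / R) * R ^ 2) ≤
      ((1 + 1 / R) * ‖x - y‖ ^ 2 + (R + 1) * ‖y‖ ^ 2) / ((1 + 1 / R) * R ^ 2) :=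
    div_le_div_of_nonneg_right h3 (by positivity)
  have h5 : ((1 + 1 / R) * ‖x - y‖ ^ 2 + (R + 1) * ‖y‖ ^ 2) / ((1 + 1 / R) * R ^ 2) =
      ‖x - y‖ ^ 2 / R ^ 2 + ‖y‖ ^ 2 / R := by
    have h6 : (1 + 1 / R) = (R + 1) / R := by field_simp
    rw [h6]
    field_simp
  linarith

end F08x

open F08x in
theorem thm_F08 (hF02 : St_F02) (hF06 : St_F06) (hF07 : St_F07) : St_F08 := by
  intro pr S u hu
  obtain ⟨C0, hC0, hB⟩ := hF07 pr S
  obtain ⟨c, C, hc, hC, hH⟩ := hF02 pr S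
  obtain ⟨-, hen, -, hpt⟩ := hH Set.univ u isOpen_univ hu.flat fun x _ => hu.size x
  obtain ⟨Λ, hΛ⟩ := hu.grad
  have hbdd : BddAbove (Set.range fun n : ℕ => Phi pr u 0 ((n : ℝ) + 1)) := by
    refine ⟨C0, ?_⟩
    rintro _ ⟨n, rfl⟩
    exact hB u hu 0 _ (by positivity)
  have hn : ∀ n : ℕ, Phi pr u 0 ((n : ℝ) + 1) ≤ Theta pr u := fun n => le_ciSup hbdd n
  have hle : ∀ R : ℝ, 0 < R → Phi pr u 0 R ≤ Theta pr u := by
    intro R hR
    refine ((hF06 pr S u hu 0 R hR).2.1 ((⌈R⌉₊ : ℝ) + 1) ?_).trans (hn _)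
    have := Nat.le_ceil R
    linarith
  have hT0 : 0 ≤ Theta pr u := (hF06 pr S u hu 0 1 one_pos).1.trans (hle 1 one_pos)
  have hen0 : ∀ x, 0 ≤ en pr u x := by
    intro x
    obtain ⟨-, -, -, -, h5, -⟩ := hpt x (Set.mem_univ x)
    exact le_trans (by positivity) h5
  have henb : ∀ x, en pr u x ≤ C * Λ ^ 2 := by
    intro x
    obtain ⟨-, -, -, -, -, h6, -⟩ := hpt x (Set.mem_univ x)
    refine h6.trans (mul_le_mul_of_nonneg_left ?_ hC.le)
    exact pow_le_pow_left₀ (norm_nonneg _) (hΛ x) 2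
  have hcont : Continuous (en pr u) := (contDiffOn_univ.1 hen).continuous
  have hgi : ∀ r : ℝ, 0 < r →
      Integrable (fun x => en pr u x * Real.exp (-(‖x - 0‖ ^ 2 / r ^ 2))) := by
    intro r hr
    refine (gauss_int r hr).bdd_mul (c := C * Λ ^ 2) hcont.aestronglyMeasurable ?_
    refine Filter.Eventually.of_forall fun x => ?_
    rw [Real.norm_eq_abs, abs_of_nonneg (hen0 x)]
    exact henb x
  have key : ∀ (y : E3) (R : ℝ), 0 < R → Phi pr u y R ≤
      Real.sqrt (1 + 1 / R) * Real.exp (‖y‖ ^ 2 / R) * Theta pr u := by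
    intro y R hR
    have hq : 0 < 1 + 1 / R := by positivity
    have hs : 0 < Real.sqrt (1 + 1 / R) := Real.sqrt_pos.2 hq
    set R2 := Real.sqrt (1 + 1 / R) * R with hR2
    have hR2p : 0 < R2 := mul_pos hs hR
    have h1 : ∫ x, en pr u x * Real.exp (-(‖x - y‖ ^ 2 / R ^ 2)) ≤
        ∫ x, Real.exp (‖y‖ ^ 2 / R) * (en pr u x * Real.exp (-(‖x - 0‖ ^ 2 / R2 ^ 2))) := by
      refine integral_mono_of_nonneg (Filter.Eventually.of_forall fun x => ?_)
        ((hgi R2 hR2p).const_mul _) (Filter.Eventually.of_forall fun x => ?_)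
      · exact mul_nonneg (hen0 x) (Real.exp_pos _).le
      · have h2 := mul_le_mul_of_nonneg_left (expo x y R hR) (hen0 x)
        refine h2.trans (le_of_eq ?_)
        ring
    rw [integral_const_mul] at h1
    have h3 : ∫ x, en pr u x * Real.exp (-(‖x - 0‖ ^ 2 / R2 ^ 2)) = R2 * Phi pr u 0 R2 := by
      unfold Phi
      rw [← mul_assoc, mul_inv_cancel₀ hR2p.ne', one_mul]
    rw [h3] at h1
    have h4 : Phi pr u y R ≤ R⁻¹ * (Real.exp (‖y‖ ^ 2 / R) * (R2 * Phi pr u 0 R2)) :=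
      mul_le_mul_of_nonneg_left h1 (by positivity)
    have h5 : R⁻¹ * (Real.exp (‖y‖ ^ 2 / R) * (R2 * Phi pr u 0 R2)) =
        Real.sqrt (1 + 1 / R) * Real.exp (‖y‖ ^ 2 / R) * Phi pr u 0 R2 := by
      rw [hR2]
      field_simp
    rw [h5] at h4
    exact h4.trans (mul_le_mul_of_nonneg_left (hle R2 hR2p) (by positivity))
  refine ⟨hbdd, ?_, ?_⟩
  · intro y R hR
    have hlim : Filter.Tendsto (fun R1 : ℝ => Real.sqrt (1 + 1 / R1) *
        Real.exp (‖y‖ ^ 2 / R1) * Theta pr u) Filter.atTop (nhds (1 * 1 * Theta pr u)) := by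
      refine Filter.Tendsto.mul (Filter.Tendsto.mul ?_ ?_) tendsto_const_nhds
      · have h1 : Filter.Tendsto (fun R1 : ℝ => 1 + 1 / R1) Filter.atTop (nhds (1 + 0)) :=
          tendsto_const_nhds.add (tendsto_const_nhds.div_atTop Filter.tendsto_id)
        have h2 := h1.sqrt
        rwa [add_zero, Real.sqrt_one] at h2
      · have h1 : Filter.Tendsto (fun R1 : ℝ => ‖y‖ ^ 2 / R1) Filter.atTop (nhds 0) :=
          tendsto_const_nhds.div_atTop Filter.tendsto_id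
        have h2 := (Real.continuous_exp.tendsto 0).comp h1
        rwa [Real.exp_zero] at h2
    rw [one_mul, one_mul] at hlim
    refine ge_of_tendsto hlim ?_
    filter_upwards [Filter.eventually_ge_atTop R] with R1 hR1
    exact ((hF06 pr S u hu y R hR).2.1 R1 hR1).trans (key y R1 (hR.trans_le hR1))
  · rw [tendsto_order]
    constructor
    · intro a ha
      obtain ⟨n, hn1⟩ := exists_lt_of_lt_ciSup ha
      filter_upwards [Filter.eventually_ge_atTop ((n : ℝ) + 1)] with R hR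
      exact hn1.trans_le ((hF06 pr S u hu 0 ((n : ℝ) + 1) (by positivity)).2.1 R hR)
    · intro a ha
      filter_upwards [Filter.eventually_gt_atTop 0] with R hR
      exact (hle R hR).trans_lt ha

end Pool.Agent.FUE
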