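import Pool.Agent.FUE.StE
import Pool.Agent.FUE.F01
import Pool.Agent.FUE.F08

/-!
# Fueter sections, E08: case A, the homogeneous blow-down limit
-/

set_option autoImplicit false

open scoped Manifold ContDiff Matrix
open MeasureTheory Filter

namespace Pool.Agent.FUE

namespace E08x

/-- the two-form in terms of the derivative of `theta` as a function of both variables -/
theorem om_eq (hA07 : St_A07) (pr : Profile) (l : Fin 3) (P H H' : V9) :
    om P pr l H H' = fderiv ℝ (F01x.G pr l) (P, H') (H, (0 : V9)) -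
      fderiv ℝ (F01x.G pr l) (P, H) (H', (0 : V9)) := by
  rw [F01x.fst_deriv hA07, F01x.fst_deriv hA07]
  rfl

/-- the two-form is continuous -/
theorem om_tendsto (hA07 : St_A07) (pr : Profile) (l : Fin 3) {P H K : ℕ → V9} {P' H' K' : V9}
    (hP : Tendsto P atTop (nhds P')) (hH : Tendsto H atTop (nhds H'))
    (hK : Tendsto K atTop (nhds K')) :
    Tendsto (fun n => om (P n) pr l (H n) (K n)) atTop (nhds (om P' pr l H' K')) := by
  have hG : ContDiff ℝ ∞ (F01x.G pr l) := hA07.1 pr l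
  have hc : Continuous (fderiv ℝ (F01x.G pr l)) := hG.continuous_fderiv (by simp)
  have h1 : ∀ {A B : ℕ → V9} {A' B' : V9}, Tendsto A atTop (nhds A') → Tendsto B atTop (nhds B') →
      Tendsto (fun n => fderiv ℝ (F01x.G pr l) (P n, B n) (A n, (0 : V9))) atTop
        (nhds (fderiv ℝ (F01x.G pr l) (P', B') (A', (0 : V9)))) := by
    intro A B A' B' hA hB
    have h2 : Tendsto (fun n => fderiv ℝ (F01x.G pr l) (P n, B n)) atTop
        (nhds (fderiv ℝ (F01x.G pr l) (P', B'))) :=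
      (hc.tendsto (P', B')).comp (hP.prodMk_nhds hB)
    have h3 : Tendsto (fun n => (A n, (0 : V9))) atTop (nhds (A', (0 : V9))) :=
      hA.prodMk_nhds tendsto_const_nhds
    exact ((isBoundedBilinearMap_apply (𝕜 := ℝ) (E := V9 × V9) (F := ℝ)).continuous.tendsto
      (fderiv ℝ (F01x.G pr l) (P', B'), (A', (0 : V9)))).comp (h2.prodMk_nhds h3)
  rw [om_eq hA07]
  refine ((h1 hH hK).sub (h1 hK hH)).congr (fun n => ?_)
  rw [om_eq hA07]

/-- convergence of the pulled back metric -/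
theorem gu_tendsto (hA07 : St_A07) (pr : Profile) {u : ℕ → E3 → V9} {v : E3 → V9} {x : E3}
    (h0 : Tendsto (fun n => u n x) atTop (nhds (v x)))
    (h1 : ∀ j, Tendsto (fun n => du (u n) x j) atTop (nhds (du v x j))) (i l : Fin 3) :
    Tendsto (fun n => gu pr (u n) x i l) atTop (nhds (gu pr v x i l)) := by
  have hw : ∀ a b : Fin 3, Tendsto (fun n => wf (u n x) pr (du (u n) x) a b) atTop
      (nhds (wf (v x) pr (du v x) a b)) := fun a b => om_tendsto hA07 pr a h0 (h1 _) (h1 _)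
  unfold gu Gf
  refine (hw l i).sub ?_
  split_ifs with hil
  · exact tendsto_finsetSum _ fun k _ => hw k k
  · exact tendsto_const_nhds

theorem en_tendsto (hA07 : St_A07) (pr : Profile) {u : ℕ → E3 → V9} {v : E3 → V9} {x : E3}
    (h0 : Tendsto (fun n => u n x) atTop (nhds (v x)))
    (h1 : ∀ j, Tendsto (fun n => du (u n) x j) atTop (nhds (du v x j))) :
    Tendsto (fun n => en pr (u n) x) atTop (nhds (en pr v x)) :=
  tendsto_finsetSum _ fun i _ => gu_tendsto hA07 pr h0 h1 i i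

theorem gq_tendsto (hA07 : St_A07) (pr : Profile) {u : ℕ → E3 → V9} {v : E3 → V9} {x : E3}
    (h0 : Tendsto (fun n => u n x) atTop (nhds (v x)))
    (h1 : ∀ j, Tendsto (fun n => du (u n) x j) atTop (nhds (du v x j))) (y : E3) :
    Tendsto (fun n => gq pr (u n) x y) atTop (nhds (gq pr v x y)) :=
  tendsto_finsetSum _ fun i _ => tendsto_finsetSum _ fun l _ =>
    (gu_tendsto hA07 pr h0 h1 i l).const_mul _

/-- pointwise convergence of the values -/
theorem cloc_val {U : Set E3} {u : ℕ → E3 → V9} {v : E3 → V9} (h : CLoc U u v) {x : E3}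
    (hx : x ∈ U) : Tendsto (fun n => u n x) atTop (nhds (v x)) := by
  have h1 := (h.2 0).tendsto_at hx
  have h2 := ((ContinuousMultilinearMap.apply ℝ (fun _ : Fin 0 => E3) V9
    (fun _ => (0 : E3))).continuous.tendsto _).comp h1
  exact h2

/-- pointwise convergence of the derivatives -/
theorem cloc_du {U : Set E3} {u : ℕ → E3 → V9} {v : E3 → V9} (h : CLoc U u v) {x : E3}
    (hx : x ∈ U) (j : Fin 3) : Tendsto (fun n => du (u n) x j) atTop (nhds (du v x j)) := by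
  have h1 := (h.2 1).tendsto_at hx
  have h2 := ((ContinuousMultilinearMap.apply ℝ (fun _ : Fin 1 => E3) V9
    (fun _ => bs j)).continuous.tendsto _).comp h1
  have e : ∀ w : E3 → V9, (ContinuousMultilinearMap.apply ℝ (fun _ : Fin 1 => E3) V9
      (fun _ => bs j)) (iteratedFDeriv ℝ 1 w x) = du w x j := by
    intro w
    change iteratedFDeriv ℝ 1 w x (fun _ => bs j) = du w x j
    rw [iteratedFDeriv_one_apply]
    rfl
  rw [e] at h2
  refine h2.congr (fun n => ?_)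
  exact e (u n)

/-- almost every point is not the origin -/
theorem ae_ne0 : ∀ᵐ x : E3, x ≠ 0 :=
  compl_mem_ae_iff.2 (measure_singleton (0 : E3))

/-- scaling about the origin -/
theorem scale (hF09 : St_F09) {pr : Profile} {S : ℝ} {u : E3 → V9} (hG : Good pr S u) {ρ : ℝ}
    (hρ : 0 < ρ) : Good pr S (fun x => u (ρ • x)) ∧
    (∀ x, fderiv ℝ (fun x => u (ρ • x)) x = ρ • fderiv ℝ u (ρ • x)) ∧
    ∀ R, 0 < R → Phi pr (fun x => u (ρ • x)) 0 R = Phi pr u 0 (ρ * R) := by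
  obtain ⟨h1, h2, -, -, h5⟩ := hF09 pr S u 0 ρ hρ hG
  simp only [zero_add] at h1 h2 h5
  refine ⟨h1, h2, fun R hR => ?_⟩
  have h := h5 0 R hR
  rwa [smul_zero] at h

/-- a compact set without the origin stays away from it -/
theorem away {K : Set E3} (hK : IsCompact K) (hK0 : K ⊆ {0}ᶜ) :
    ∃ δ : ℝ, 0 < δ ∧ ∀ x ∈ K, δ < ‖x‖ := by
  have h0 : Kᶜ ∈ nhds (0 : E3) := hK.isClosed.isOpen_compl.mem_nhds (fun h => hK0 h rfl)
  obtain ⟨ε, hε, hb⟩ := Metric.mem_nhds_iff.1 h0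
  refine ⟨ε / 2, by positivity, fun x hx => ?_⟩
  by_contra hcon
  push Not at hcon
  have : x ∈ Kᶜ := hb (by
    rw [mem_ball_zero_iff]
    linarith)
  exact this hx

end E08x

open E08x

/-- `St_E08`. -/
theorem thm_E08 (hA07 : St_A07) (hE00 : St_E00) (hE07 : St_E07) (hF02 : St_F02) (hF06 : St_F06)
    (hF08 : St_F08) (hF09 : St_F09) : St_E08 := by
  intro pr S u hu hΘ ⟨C, hC⟩
  obtain ⟨c2, C2, hc2, hC2, hF⟩ := hF02 pr S
  have hG : Good pr S u := ⟨hu.flat, hu.size, 2, hu.grad⟩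
  have hC0 : 0 ≤ C := by
    have h := hC 0
    rwa [norm_zero, zero_mul] at h
  obtain ⟨w, hw⟩ : ∃ w : ℕ → E3 → V9, w = fun (j : ℕ) (x : E3) => u (((j : ℝ) + 1) • x) :=
    ⟨_, rfl⟩
  have hρ : ∀ j : ℕ, (0 : ℝ) < (j : ℝ) + 1 := fun j => by positivity
  have hwG : ∀ j, Good pr S (w j) := by
    intro j
    rw [hw]
    exact (scale hF09 hG (hρ j)).1
  have hwP : ∀ j R, 0 < R → Phi pr (w j) 0 R = Phi pr u 0 (((j : ℝ) + 1) * R) := by
    intro j R hR
    rw [hw]
    exact (scale hF09 hG (hρ j)).2.2 R hR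
  have hwD : ∀ j x, ‖x‖ * ‖fderiv ℝ (w j) x‖ ≤ C := by
    intro j x
    have h1 : fderiv ℝ (w j) x = ((j : ℝ) + 1) • fderiv ℝ u (((j : ℝ) + 1) • x) := by
      rw [hw]
      exact (scale hF09 hG (hρ j)).2.1 x
    have h2 := hC (((j : ℝ) + 1) • x)
    rw [norm_smul, Real.norm_of_nonneg (hρ j).le] at h2
    rw [h1, norm_smul, Real.norm_of_nonneg (hρ j).le]
    linarith
  have hwD' : ∀ j (x : E3), x ≠ 0 → ‖fderiv ℝ (w j) x‖ ^ 2 ≤ C ^ 2 * (‖x‖ ^ 2)⁻¹ := by
    intro j x hx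
    have hx' : 0 < ‖x‖ := norm_pos_iff.2 hx
    have h1 : (‖x‖ * ‖fderiv ℝ (w j) x‖) ^ 2 ≤ C ^ 2 :=
      pow_le_pow_left₀ (by positivity) (hwD j x) 2
    rw [mul_pow] at h1
    rw [← div_eq_mul_inv, le_div_iff₀ (by positivity)]
    linarith
  -- extraction of the limit
  have hE := hE00 pr S {0}ᶜ w isOpen_compl_singleton (by
    intro K hK hK0
    obtain ⟨δ, hδ, hKδ⟩ := away hK hK0
    refine ⟨C / δ, Eventually.of_forall fun n => ⟨{x | δ < ‖x‖}, ?_, hKδ, ?_, ?_, ?_⟩⟩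
    · exact isOpen_lt continuous_const continuous_norm
    · intro x hx h0
      have hx' : δ < ‖x‖ := hx
      have h0' : x = 0 := h0
      rw [h0', norm_zero] at hx'
      linarith
    · have h := (hwG n).flat
      exact ⟨h.smooth.mono (Set.subset_univ _), fun x _ => h.mem x (Set.mem_univ x),
        fun x _ => h.eq x (Set.mem_univ x)⟩
    · intro x hx
      have hx' : δ < ‖x‖ := hx
      refine ⟨(hwG n).size x, ?_⟩
      rw [le_div_iff₀ hδ]
      have h1 := hwD n x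
      have h2 : ‖fderiv ℝ (w n) x‖ * δ ≤ ‖fderiv ℝ (w n) x‖ * ‖x‖ :=
        mul_le_mul_of_nonneg_left hx'.le (norm_nonneg _)
      linarith [mul_comm ‖x‖ ‖fderiv ℝ (w n) x‖])
  obtain ⟨φ, v, hφ, hv, hvS, hcl⟩ := hE
  -- bounds
  have hFw : ∀ j, Continuous (en pr (w j)) ∧ (∀ i l, Continuous (fun x => gu pr (w j) x i l)) ∧
      (∀ x y : E3, 0 ≤ gq pr (w j) x y) ∧ (∀ x, 0 ≤ en pr (w j) x) ∧
      (∀ x : E3, x ≠ 0 → en pr (w j) x ≤ C2 * C ^ 2 * (‖x‖ ^ 2)⁻¹) ∧
      ∀ x : E3, x ≠ 0 → gq pr (w j) x x ≤ C2 * C ^ 2 := by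
    intro j
    obtain ⟨a1, a2, a3, a4⟩ := hF Set.univ (w j) isOpen_univ (hwG j).flat
      (fun x _ => (hwG j).size x)
    have hen0 : ∀ x, 0 ≤ en pr (w j) x := fun x =>
      le_trans (by positivity) (a4 x (Set.mem_univ x)).2.2.2.2.1
    have hen : ∀ x : E3, x ≠ 0 → en pr (w j) x ≤ C2 * C ^ 2 * (‖x‖ ^ 2)⁻¹ := by
      intro x hx
      refine (a4 x (Set.mem_univ x)).2.2.2.2.2.1.trans ?_
      rw [mul_assoc]
      exact mul_le_mul_of_nonneg_left (hwD' j x hx) hC2.le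
    refine ⟨?_, ?_, ?_, hen0, hen, ?_⟩
    · exact continuousOn_univ.1 a2.continuousOn
    · intro i l
      exact continuousOn_univ.1 (a1 i l).continuousOn
    · intro x y
      exact le_trans (by positivity) ((a4 x (Set.mem_univ x)).2.2.1 y)
    · intro x hx
      have h1 := (a4 x (Set.mem_univ x)).2.2.2.2.2.2.2.2.2 x
      have hx' : 0 < ‖x‖ := norm_pos_iff.2 hx
      refine h1.trans ?_
      have h2 := mul_le_mul_of_nonneg_left (hen x hx) (by positivity : 0 ≤ ‖x‖ ^ 2)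
      refine h2.trans (le_of_eq ?_)
      field_simp
  obtain ⟨b1, -, -, b4⟩ := hF {0}ᶜ v isOpen_compl_singleton hv hvS
  -- pointwise convergence
  have hval : ∀ x : E3, x ≠ 0 → Tendsto (fun n => w (φ n) x) atTop (nhds (v x)) := fun x hx =>
    cloc_val hcl hx
  have hder : ∀ x : E3, x ≠ 0 → ∀ j, Tendsto (fun n => du (w (φ n)) x j) atTop
      (nhds (du v x j)) := fun x hx j => cloc_du hcl hx j
  -- convergence of the energies
  have hlimΘ : ∀ R : ℝ, 0 < R → Tendsto (fun n => Phi pr (w (φ n)) 0 R) atTop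
      (nhds (Theta pr u)) := by
    intro R hR
    have h1 := (hF08 pr S u hG).2.2
    have h2 : Tendsto (fun n : ℕ => ((φ n : ℝ) + 1) * R) atTop atTop := by
      refine Tendsto.atTop_mul_const hR ?_
      exact tendsto_atTop_add_const_right _ _
        (tendsto_natCast_atTop_atTop.comp hφ.tendsto_atTop)
    refine (h1.comp h2).congr (fun n => ?_)
    exact (hwP (φ n) R hR).symm
  have hPv : Tendsto (fun n => ∫ x, en pr (w (φ n)) x * Real.exp (-(‖x - 0‖ ^ 2 / 1 ^ 2))) atTop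
      (nhds (∫ x, en pr v x * Real.exp (-(‖x - 0‖ ^ 2 / 1 ^ 2)))) := by
    refine tendsto_integral_of_dominated_convergence
      (fun x => C2 * C ^ 2 * ((‖x‖ ^ 2)⁻¹ * Real.exp (-(‖x‖ ^ 2 / 1 ^ 2)))) ?_ ?_ ?_ ?_
    · intro n
      refine Continuous.aestronglyMeasurable ?_
      have := (hFw (φ n)).1
      fun_prop
    · exact (hE07 1 one_pos).const_mul _
    · intro n
      filter_upwards [ae_ne0] with x hx
      obtain ⟨-, -, -, d1, d2, -⟩ := hFw (φ n)
      rw [Real.norm_of_nonneg (mul_nonneg (d1 x) (Real.exp_pos _).le), sub_zero, ← mul_assoc]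
      exact mul_le_mul_of_nonneg_right (d2 x hx) (Real.exp_pos _).le
    · filter_upwards [ae_ne0] with x hx
      exact (en_tendsto hA07 pr (hval x hx) (hder x hx)).mul_const _
  have hPvΘ : Phi pr v 0 1 = Theta pr u := by
    refine tendsto_nhds_unique ?_ (hlimΘ 1 one_pos)
    unfold Phi
    exact hPv.const_mul _
  -- the radial energy of the limit vanishes
  have hmeas : ∀ n, AEStronglyMeasurable
      (fun x => gq pr (w (φ n)) x (x - 0) * Real.exp (-(‖x - 0‖ ^ 2 / 1 ^ 2))) := by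
    intro n
    refine Continuous.aestronglyMeasurable ?_
    have h := (hFw (φ n)).2.1
    unfold gq
    refine Continuous.mul ?_ (by fun_prop)
    refine continuous_finsetSum _ fun i _ => continuous_finsetSum _ fun l _ => ?_
    refine Continuous.mul ?_ (h i l)
    fun_prop
  have hlimg : ∀ᵐ x : E3, Tendsto (fun n => gq pr (w (φ n)) x (x - 0) *
      Real.exp (-(‖x - 0‖ ^ 2 / 1 ^ 2))) atTop
        (nhds (gq pr v x (x - 0) * Real.exp (-(‖x - 0‖ ^ 2 / 1 ^ 2)))) := by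
    filter_upwards [ae_ne0] with x hx
    exact (gq_tendsto hA07 pr (hval x hx) (hder x hx) _).mul_const _
  have hbnd : ∀ n, ∀ᵐ x : E3, ‖gq pr (w (φ n)) x (x - 0) * Real.exp (-(‖x - 0‖ ^ 2 / 1 ^ 2))‖ ≤
      C2 * C ^ 2 * Real.exp (-(‖x - 0‖ ^ 2 / 1 ^ 2)) := by
    intro n
    filter_upwards [ae_ne0] with x hx
    obtain ⟨-, -, d0, -, -, d3⟩ := hFw (φ n)
    rw [Real.norm_of_nonneg (mul_nonneg (d0 x _) (Real.exp_pos _).le)]
    refine mul_le_mul_of_nonneg_right ?_ (Real.exp_pos _).le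
    rw [sub_zero]
    exact d3 x hx
  have hbi : Integrable (fun x : E3 => C2 * C ^ 2 * Real.exp (-(‖x - 0‖ ^ 2 / 1 ^ 2))) :=
    (F08x.gauss_int 1 one_pos).const_mul _
  have hlimI := tendsto_integral_of_dominated_convergence _ hmeas hbi hbnd hlimg
  have hle : ∫ x, gq pr v x (x - 0) * Real.exp (-(‖x - 0‖ ^ 2 / 1 ^ 2)) ≤ 0 := by
    have h1 : Tendsto (fun n => (1 : ℝ) ^ 3 * (Phi pr (w (φ n)) 0 (2 * 1) -
        Phi pr (w (φ n)) 0 1)) atTop (nhds ((1 : ℝ) ^ 3 * (Theta pr u - Theta pr u))) :=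
      ((hlimΘ (2 * 1) (by norm_num)).sub (hlimΘ 1 one_pos)).const_mul _
    rw [sub_self, mul_zero] at h1
    exact le_of_tendsto_of_tendsto' hlimI h1 (fun n => (hF06 pr S (w (φ n)) (hwG (φ n)) 0 1
      one_pos).2.2)
  have hvg : ∀ x : E3, x ≠ 0 → ∀ y : E3, c2 * ‖fderiv ℝ v x y‖ ^ 2 ≤ gq pr v x y := fun x hx =>
    (b4 x hx).2.2.1
  have hvg0 : ∀ x : E3, x ≠ 0 → ∀ y : E3, 0 ≤ gq pr v x y := fun x hx y =>
    le_trans (by positivity) (hvg x hx y)
  have hnn : 0 ≤ᵐ[volume] fun x => gq pr v x (x - 0) * Real.exp (-(‖x - 0‖ ^ 2 / 1 ^ 2)) := by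
    filter_upwards [ae_ne0] with x hx
    exact mul_nonneg (hvg0 x hx _) (Real.exp_pos _).le
  have hint : Integrable (fun x => gq pr v x (x - 0) * Real.exp (-(‖x - 0‖ ^ 2 / 1 ^ 2))) := by
    refine hbi.mono' (aestronglyMeasurable_of_tendsto_ae _ hmeas hlimg) ?_
    have hall : ∀ᵐ x : E3, ∀ n, ‖gq pr (w (φ n)) x (x - 0) *
        Real.exp (-(‖x - 0‖ ^ 2 / 1 ^ 2))‖ ≤ C2 * C ^ 2 * Real.exp (-(‖x - 0‖ ^ 2 / 1 ^ 2)) :=
      ae_all_iff.2 hbnd
    filter_upwards [hall, hlimg] with x h1 h2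
    exact le_of_tendsto' h2.norm h1
  have hzero : (fun x => gq pr v x (x - 0) * Real.exp (-(‖x - 0‖ ^ 2 / 1 ^ 2))) =ᵐ[volume] 0 :=
    (integral_eq_zero_iff_of_nonneg_ae hnn hint).1 (le_antisymm hle (integral_nonneg_of_ae hnn))
  have hradae : ∀ᵐ x : E3, fderiv ℝ v x x = 0 := by
    filter_upwards [hzero, ae_ne0] with x h1 hx
    have h2 : gq pr v x (x - 0) * Real.exp (-(‖x - 0‖ ^ 2 / 1 ^ 2)) = 0 := h1
    have h3 : gq pr v x (x - 0) = 0 := (mul_eq_zero.1 h2).resolve_right (Real.exp_pos _).ne'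
    rw [sub_zero] at h3
    have h4 := hvg x hx x
    rw [h3] at h4
    have h5 : ‖fderiv ℝ v x x‖ ^ 2 ≤ 0 := by
      by_contra hcon
      push Not at hcon
      have := mul_pos hc2 hcon
      linarith
    have h6 : ‖fderiv ℝ v x x‖ = 0 := pow_eq_zero_iff (two_ne_zero) |>.1
      (le_antisymm h5 (by positivity))
    exact norm_eq_zero.1 h6
  have hfc : ContinuousOn (fun x => fderiv ℝ v x x) {0}ᶜ := by
    have h1 : ContinuousOn (fderiv ℝ v) {0}ᶜ :=
      hv.smooth.continuousOn_fderiv_of_isOpen isOpen_compl_singleton (by simp)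
    exact h1.clm_apply continuousOn_id
  have hrad : ∀ x : E3, x ≠ 0 → fderiv ℝ v x x = 0 := by
    have h1 : (fun x => fderiv ℝ v x x) =ᵐ[volume.restrict {0}ᶜ] fun _ => (0 : V9) :=
      ae_restrict_of_ae hradae
    have h2 := Measure.eqOn_open_of_ae_eq h1 isOpen_compl_singleton hfc continuousOn_const
    intro x hx
    exact h2 hx
  refine ⟨φ, v, hφ, hv, hvS, ?_, hrad, ?_⟩
  · rw [hw] at hcl
    exact hcl
  · by_contra hcon
    push Not at hcon
    have h1 : ∫ x, en pr v x * Real.exp (-(‖x - 0‖ ^ 2 / 1 ^ 2)) = 0 := by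
      have h2 : (fun x => en pr v x * Real.exp (-(‖x - 0‖ ^ 2 / 1 ^ 2))) =ᵐ[volume]
          fun _ => (0 : ℝ) := by
        filter_upwards [ae_ne0] with x hx
        have h3 := (b4 x hx).2.2.2.2.1
        have h4 := (b4 x hx).2.2.2.2.2.1
        rw [hcon x hx, norm_zero] at h3 h4
        have h5 : en pr v x = 0 := by
          have e3 : c2 * (0 : ℝ) ^ 2 = 0 := by ring
          have e4 : C2 * (0 : ℝ) ^ 2 = 0 := by ring
          rw [e3] at h3
          rw [e4] at h4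
          exact le_antisymm h4 h3
        rw [h5, zero_mul]
      rw [integral_congr_ae h2, integral_zero]
    have h2 : Phi pr v 0 1 = 0 := by
      unfold Phi
      rw [h1, mul_zero]
    rw [hPvΘ] at h2
    exact hΘ.ne' h2

end Pool.Agent.FUE
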