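import Pool.Agent.FUE.StE

/-!
# Fueter sections, module E09: Liouville theorem
-/

set_option autoImplicit false

open scoped Manifold ContDiff Matrix
open MeasureTheory

namespace Pool.Agent.FUE

theorem thm_E09 (hE02 : St_E02) (hE06 : St_E06) (hE08 : St_E08) (hH06 : St_H06) (hH08 : St_H08)
    (hH11 : St_H11) : St_E09 := by
  intro pr S u hu
  obtain ⟨w, hw, hpos, hmin⟩ := hE02 pr S ⟨u, hu⟩
  obtain ⟨φ, v, hφ, hv, hlam, hc, hrad, hne⟩ := hE08 pr S w hw hpos (hE06 pr S w hw hpos hmin)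
  have ht := hH06 pr S v hv hlam hrad hne
  exact hH11 pr w φ v hw.flat hφ hc (hH08 pr v hv ht hrad hne)

end Pool.Agent.FUE
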