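import Pool.Agent.FUE.StF

/-!
# FUE/F02 (helper55): bounds for flat Fueter maps
-/

set_option autoImplicit false

open scoped Manifold ContDiff Matrix
open MeasureTheory

namespace Pool.Agent.FUE

namespace F02x

/-- the bilinear form -/
noncomputable def Bf (G : Fin 3 → Fin 3 → ℝ) (v w : Fin 3 → ℝ) : ℝ := ∑ i, ∑ l, v i * w l * G i l

theorem Bf_add (G : Fin 3 → Fin 3 → ℝ) (hs : ∀ i l, G i l = G l i) (v w : Fin 3 → ℝ) (t : ℝ) :
    Bf G (fun i => v i + t * w i) (fun i => v i + t * w i) =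
      Bf G w w * (t * t) + 2 * Bf G v w * t + Bf G v v := by
  simp only [Bf, Fin.sum_univ_three]
  rw [hs 1 0, hs 2 0, hs 2 1]
  ring

theorem Bf_cs (G : Fin 3 → Fin 3 → ℝ) (hs : ∀ i l, G i l = G l i) (hp : ∀ v, 0 ≤ Bf G v v)
    (v w : Fin 3 → ℝ) : |Bf G v w| ^ 2 ≤ Bf G v v * Bf G w w := by
  have h := discrim_le_zero (a := Bf G w w) (b := 2 * Bf G v w) (c := Bf G v v) (fun t => by
    rw [← Bf_add G hs v w t]
    exact hp _)
  rw [discrim] at h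
  rw [sq_abs]
  nlinarith

theorem Bf_two (G : Fin 3 → Fin 3 → ℝ) (hs : ∀ i l, G i l = G l i) (hp : ∀ v, 0 ≤ Bf G v v)
    (v w : Fin 3 → ℝ) : Bf G (fun i => v i + w i) (fun i => v i + w i) ≤
      2 * Bf G v v + 2 * Bf G w w := by
  have h1 := Bf_add G hs v w 1
  have h2 := Bf_add G hs v w (-1)
  have h3 := hp (fun i => v i + -1 * w i)
  simp only [one_mul] at h1
  rw [h1]
  rw [h2] at h3
  linarith

theorem Bf_tr (G : Fin 3 → Fin 3 → ℝ) (hs : ∀ i l, G i l = G l i) (hp : ∀ v, 0 ≤ Bf G v v)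
    (v : Fin 3 → ℝ) : Bf G v v ≤ (∑ i, v i ^ 2) * ∑ i, G i i := by
  have h1 := hp ![-v 1, v 0, 0]
  have h2 := hp ![-v 2, 0, v 0]
  have h3 := hp ![0, -v 2, v 1]
  simp only [Bf, Fin.sum_univ_three, Matrix.cons_val_zero, Matrix.cons_val_one, Matrix.cons_val] at h1 h2 h3 ⊢
  rw [hs 1 0, hs 2 0, hs 2 1] at h1 h2 h3 ⊢
  nlinarith

theorem sum_bs (v : E3) : ∑ i, v i • bs i = v := by
  ext j
  simp only [bs, Fin.sum_univ_three]
  fin_cases j <;> simp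

theorem norm_bs (i : Fin 3) : ‖bs i‖ = 1 := by
  simp [bs]

theorem clm_sum (f : E3 →L[ℝ] V9) (v : E3) : ∑ i, v i • f (bs i) = f v := by
  conv_rhs => rw [← sum_bs v]
  rw [map_sum]
  simp only [map_smul]

theorem clm_bs_le (f : E3 →L[ℝ] V9) (i : Fin 3) : ‖f (bs i)‖ ≤ ‖f‖ := by
  have h := f.le_opNorm (bs i)
  rwa [norm_bs, mul_one] at h

theorem clm_le (f : E3 →L[ℝ] V9) : ‖f‖ ^ 2 ≤ ∑ i, ‖f (bs i)‖ ^ 2 := by
  have h0 : 0 ≤ ∑ i, ‖f (bs i)‖ ^ 2 := Finset.sum_nonneg fun i _ => by positivity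
  have h : ‖f‖ ≤ Real.sqrt (∑ i, ‖f (bs i)‖ ^ 2) := by
    refine f.opNorm_le_bound (Real.sqrt_nonneg _) (fun v => ?_)
    rw [← clm_sum f v]
    calc ‖∑ i, v i • f (bs i)‖ ≤ ∑ i, ‖v i • f (bs i)‖ := norm_sum_le _ _
      _ = ∑ i, ‖v i‖ * ‖f (bs i)‖ := by simp only [norm_smul]
      _ ≤ Real.sqrt (∑ i, ‖v i‖ ^ 2) * Real.sqrt (∑ i, ‖f (bs i)‖ ^ 2) :=
        Real.sum_mul_le_sqrt_mul_sqrt _ _ _
      _ = Real.sqrt (∑ i, ‖f (bs i)‖ ^ 2) * ‖v‖ := by rw [mul_comm, EuclideanSpace.norm_eq]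
  calc ‖f‖ ^ 2 ≤ Real.sqrt (∑ i, ‖f (bs i)‖ ^ 2) ^ 2 := pow_le_pow_left₀ (norm_nonneg _) h 2
    _ = ∑ i, ‖f (bs i)‖ ^ 2 := Real.sq_sqrt h0

theorem gq_eq (pr : Profile) (u : E3 → V9) (x v : E3) :
    gq pr u x v = Bf (fun i l => gu pr u x i l) v v := rfl

theorem gu_eq (pr : Profile) (u : E3 → V9) (x : E3) (i l : Fin 3) :
    gu pr u x i l = wu pr u x l i - (if i = l then ∑ k, wu pr u x k k else 0) := rfl

theorem contDiff_dir {U : Set E3} (hU : IsOpen U) {f : E3 → ℝ} (hf : ContDiffOn ℝ ∞ f U) (w : E3) :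
    ContDiffOn ℝ ∞ (fun x => fderiv ℝ f x w) U := by
  have h := hf.fderiv_of_isOpen hU (m := ∞) (by norm_num)
  exact h.clm_apply contDiffOn_const

end F02x

open F02x

/-- `St_F02`. -/
theorem thm_F02 (hA04 : St_A04) (hA06 : St_A06) (hA07 : St_A07) (hA13 : St_A13) (hF01 : St_F01) :
    St_F02 := by
  intro pr S
  obtain ⟨c, C, hc, hC, hG, hth⟩ := hA13 pr S
  refine ⟨c, 3 * C, hc, by positivity, ?_⟩
  intro U u hU hu hS
  obtain ⟨ht, -, hw⟩ := hF01 pr U u hU hu.smooth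
  have hwS : ∀ i l, ContDiffOn ℝ ∞ (fun x => wu pr u x l i) U := by
    intro i l
    exact ((contDiff_dir hU (ht l (i + 2)) (bs (i + 1))).sub
      (contDiff_dir hU (ht l (i + 1)) (bs (i + 2)))).congr (fun x hx => hw x hx l i)
  have hgS : ∀ i l, ContDiffOn ℝ ∞ (fun x => gu pr u x i l) U := by
    intro i l
    have h : ContDiffOn ℝ ∞ (fun x => wu pr u x l i - (if i = l then ∑ k, wu pr u x k k else 0)) U := by
      refine (hwS i l).sub ?_
      split_ifs with hil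
      · exact ContDiffOn.sum fun k _ => hwS k k
      · exact contDiffOn_const
    exact h.congr fun x _ => gu_eq pr u x i l
  refine ⟨hgS, ContDiffOn.sum fun i _ => hgS i i, hwS, ?_⟩
  intro x hx
  obtain ⟨g1, g2, g3, g4⟩ := hG (u x) (du u x) (hS x hx) (hu.eq x hx)
  have hfd : ∀ v : E3, ∑ i, v i • du u x i = fderiv ℝ u x v := fun v => clm_sum (fderiv ℝ u x) v
  have hlow : ∀ v : E3, c * ‖fderiv ℝ u x v‖ ^ 2 ≤ gq pr u x v := by
    intro v
    rw [← hfd v]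
    exact g3 v
  have hupp : ∀ v : E3, gq pr u x v ≤ C * ‖fderiv ℝ u x v‖ ^ 2 := by
    intro v
    rw [← hfd v]
    exact g4 v
  have hpos : ∀ v : Fin 3 → ℝ, 0 ≤ Bf (fun i l => gu pr u x i l) v v := by
    intro v
    have h := g3 v
    have h' : 0 ≤ c * ‖∑ i, v i • du u x i‖ ^ 2 := by positivity
    exact h'.trans h
  have hsym : ∀ i l, gu pr u x i l = gu pr u x l i := g1
  have hen : en pr u x = ∑ i, gq pr u x (bs i) := by
    rw [en]
    refine Finset.sum_congr rfl fun i _ => ?_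
    rw [gq]
    simp only [bs, Fin.sum_univ_three]
    fin_cases i <;> simp
  refine ⟨hsym, ?_, hlow, ?_, ?_, ?_, ?_, ?_, ?_, ?_⟩
  · intro i l
    exact g2 i l
  · intro v
    refine (hupp v).trans ?_
    have : 0 ≤ ‖fderiv ℝ u x v‖ ^ 2 := by positivity
    nlinarith
  · have h1 := clm_le (fderiv ℝ u x)
    have h2 : ∑ i, c * ‖fderiv ℝ u x (bs i)‖ ^ 2 ≤ ∑ i, gq pr u x (bs i) :=
      Finset.sum_le_sum fun i _ => hlow (bs i)
    rw [← Finset.mul_sum] at h2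
    rw [hen]
    exact (mul_le_mul_of_nonneg_left h1 hc.le).trans h2
  · have h2 : ∑ i, gq pr u x (bs i) ≤ ∑ i : Fin 3, C * ‖fderiv ℝ u x‖ ^ 2 :=
      Finset.sum_le_sum fun i _ => (hupp (bs i)).trans
        (mul_le_mul_of_nonneg_left (pow_le_pow_left₀ (norm_nonneg _) (clm_bs_le _ i) 2) hC.le)
    rw [hen]
    refine h2.trans ?_
    rw [Fin.sum_univ_three]
    linarith
  · intro l b
    have hT : Tan (u x) (fderiv ℝ u x (bs b)) := by
      refine hA06 u x ?_ ?_ (bs b)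
      · exact (hu.smooth.contDiffAt (hU.mem_nhds hx)).differentiableAt (by norm_num)
      · exact Filter.eventually_of_mem (hU.mem_nhds hx) fun y hy => hu.mem y hy
    have h := hth (u x) (fderiv ℝ u x (bs b)) (hu.mem x hx) (hS x hx) hT l
    have h2 := clm_bs_le (fderiv ℝ u x) b
    calc |tu pr u l b x| ≤ C * ‖fderiv ℝ u x (bs b)‖ := h
      _ ≤ C * ‖fderiv ℝ u x‖ := mul_le_mul_of_nonneg_left h2 hC.le
      _ ≤ 3 * C * ‖fderiv ℝ u x‖ := by
        have : 0 ≤ C * ‖fderiv ℝ u x‖ := by positivity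
        linarith
  · intro v w
    exact Bf_cs _ hsym hpos v w
  · intro v w
    exact Bf_two _ hsym hpos v w
  · intro v
    have h := Bf_tr _ hsym hpos v
    rw [EuclideanSpace.real_norm_sq_eq]
    exact h

end Pool.Agent.FUE
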