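import Pool.Agent.FUE.StF

/-!
# FUE: F03 (helper80): integration by parts
-/

set_option autoImplicit false

open scoped Manifold ContDiff Matrix
open MeasureTheory Filter

namespace Pool.Agent.FUE

namespace F03x

/-- cut off functions -/
theorem cut : ∃ η : ℕ → E3 → ℝ, (∀ n, ContDiff ℝ 1 (η n)) ∧ (∀ n, HasCompactSupport (η n)) ∧
    (∀ n x, |η n x| ≤ 1) ∧ (∀ x, Tendsto (fun n => η n x) atTop (nhds 1)) ∧
    ∃ M : ℝ, 0 ≤ M ∧ (∀ n x i, |fderiv ℝ (η n) x (bs i)| ≤ M) ∧
      ∀ x i, Tendsto (fun n => fderiv ℝ (η n) x (bs i)) atTop (nhds 0) := by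
  let b : ContDiffBump (0 : E3) := ⟨1, 2, one_pos, one_lt_two⟩
  have hbc : ContDiff ℝ 1 (fun x => b x) := b.contDiff
  have hbs : HasCompactSupport (fun x => b x) := b.hasCompactSupport
  have hbd : Continuous (fderiv ℝ (fun x => b x)) := hbc.continuous_fderiv (by norm_num)
  obtain ⟨M, hM⟩ := hbd.bounded_above_of_compact_support (hbs.fderiv ℝ)
  have hM0 : 0 ≤ M := (norm_nonneg _).trans (hM 0)
  have hpos : ∀ n : ℕ, (0 : ℝ) < ((n : ℝ) + 1)⁻¹ := fun n => by positivity
  have hle : ∀ n : ℕ, ((n : ℝ) + 1)⁻¹ ≤ 1 := fun n =>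
    inv_le_one_of_one_le₀ (by linarith [n.cast_nonneg (α := ℝ)])
  have hlim : Tendsto (fun n : ℕ => ((n : ℝ) + 1)⁻¹) atTop (nhds 0) := by
    have := tendsto_one_div_add_atTop_nhds_zero_nat (𝕜 := ℝ)
    simpa only [one_div] using this
  have hder : ∀ (n : ℕ) (x v : E3), fderiv ℝ (fun x : E3 => b (((n : ℝ) + 1)⁻¹ • x)) x v =
      ((n : ℝ) + 1)⁻¹ * fderiv ℝ (fun x => b x) (((n : ℝ) + 1)⁻¹ • x) v := by
    intro n x v
    have h1 : HasFDerivAt (fun x => b x) (fderiv ℝ (fun x => b x) (((n : ℝ) + 1)⁻¹ • x))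
        (((n : ℝ) + 1)⁻¹ • x) := (hbc.differentiable (by norm_num) _).hasFDerivAt
    have h2 : HasFDerivAt (fun x : E3 => ((n : ℝ) + 1)⁻¹ • x)
        (((n : ℝ) + 1)⁻¹ • ContinuousLinearMap.id ℝ E3) x :=
      (((n : ℝ) + 1)⁻¹ • ContinuousLinearMap.id ℝ E3).hasFDerivAt
    have h3 := (h1.comp x h2).fderiv
    have h4 := congrArg (fun L : E3 →L[ℝ] ℝ => L v) h3
    have e : (fun x : E3 => b (((n : ℝ) + 1)⁻¹ • x)) =
      (fun x => b x) ∘ fun x : E3 => ((n : ℝ) + 1)⁻¹ • x := rfl
    rw [e]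
    refine h4.trans ?_
    show fderiv ℝ (fun x => b x) (((n : ℝ) + 1)⁻¹ • x) (((n : ℝ) + 1)⁻¹ • v) = _
    rw [map_smul, smul_eq_mul]
  have hbsn : ∀ i, ‖bs i‖ = 1 := fun i => by simp [bs]
  have hdb : ∀ (n : ℕ) (x : E3) (i : Fin 3),
      |fderiv ℝ (fun x : E3 => b (((n : ℝ) + 1)⁻¹ • x)) x (bs i)| ≤ ((n : ℝ) + 1)⁻¹ * M := by
    intro n x i
    rw [hder, abs_mul, abs_of_pos (hpos n)]
    refine mul_le_mul_of_nonneg_left ?_ (hpos n).le
    refine ((fderiv ℝ (fun x => b x) (((n : ℝ) + 1)⁻¹ • x)).le_opNorm (bs i)).trans ?_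
    rw [hbsn, mul_one]
    exact hM _
  refine ⟨fun n x => b (((n : ℝ) + 1)⁻¹ • x), fun n => hbc.comp (contDiff_const_smul _),
    fun n => hbs.comp_smul (hpos n).ne', fun n x => ?_, fun x => ?_, M, hM0, fun n x i => ?_,
    fun x i => ?_⟩
  · rw [abs_of_nonneg b.nonneg]
    exact b.le_one
  · refine tendsto_const_nhds.congr' ?_
    obtain ⟨N, hN⟩ := exists_nat_gt ‖x‖
    filter_upwards [eventually_ge_atTop N] with n hn
    refine (b.one_of_mem_closedBall ?_).symm
    rw [mem_closedBall_zero_iff, norm_smul, Real.norm_of_nonneg (hpos n).le]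
    show ((n : ℝ) + 1)⁻¹ * ‖x‖ ≤ 1
    have h1 : (N : ℝ) ≤ n := by exact_mod_cast hn
    rw [inv_mul_le_iff₀ (by positivity)]
    linarith
  · refine (hdb n x i).trans ?_
    calc ((n : ℝ) + 1)⁻¹ * M ≤ 1 * M := mul_le_mul_of_nonneg_right (hle n) hM0
      _ = M := one_mul M
  · refine squeeze_zero_norm (fun n => hdb n x i) ?_
    have := hlim.mul_const M
    rwa [zero_mul] at this

/-- integration by parts with compact support -/
theorem ibp {t g : E3 → ℝ} (ht : ContDiff ℝ 1 t) (hg : ContDiff ℝ 1 g) (hs : HasCompactSupport g)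
    (v : E3) : Integrable (fun x => fderiv ℝ t x v * g x) ∧
    Integrable (fun x => t x * fderiv ℝ g x v) ∧
    ∫ x, fderiv ℝ t x v * g x = -∫ x, t x * fderiv ℝ g x v := by
  have htc : Continuous (fun x => fderiv ℝ t x v) :=
    (ht.continuous_fderiv (by norm_num)).clm_apply continuous_const
  have hgc : Continuous (fun x => fderiv ℝ g x v) :=
    (hg.continuous_fderiv (by norm_num)).clm_apply continuous_const
  have hgs : HasCompactSupport (fun x => fderiv ℝ g x v) := hs.fderiv_apply ℝ v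
  have h1 : Integrable (fun x => fderiv ℝ t x v * g x) :=
    (htc.mul hg.continuous).integrable_of_hasCompactSupport hs.mul_left
  have h2 : Integrable (fun x => t x * fderiv ℝ g x v) :=
    (ht.continuous.mul hgc).integrable_of_hasCompactSupport hgs.mul_left
  have h3 : Integrable (fun x => t x * g x) :=
    (ht.continuous.mul hg.continuous).integrable_of_hasCompactSupport hs.mul_left
  have h4 := integral_mul_fderiv_eq_neg_fderiv_mul_of_integrable h1 h2 h3
    (fun x _ => ht.differentiable (by norm_num) x) (fun x _ => hg.differentiable (by norm_num) x)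
  exact ⟨h1, h2, by rw [h4, neg_neg]⟩

end F03x

/-- [F03] -/
theorem thm_F03 (hF01 : St_F01) (hF02 : St_F02) : St_F03 := by
  intro pr S u hu χ hχ hχi hχd l i
  obtain ⟨hflat, hsize, Λ, hΛ⟩ := hu
  have hΛ0 : 0 ≤ Λ := (norm_nonneg _).trans (hΛ 0)
  obtain ⟨ht, -, hw⟩ := hF01 pr Set.univ u isOpen_univ hflat.smooth
  obtain ⟨c, C, hc, hC, hB⟩ := hF02 pr S
  obtain ⟨-, -, hws, hB⟩ := hB Set.univ u isOpen_univ hflat fun x _ => hsize x
  have htc : ∀ l b, ContDiff ℝ 1 (tu pr u l b) := fun l b =>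
    (contDiffOn_univ.1 (ht l b)).of_le (by norm_cast)
  have hwc : Continuous (fun x => wu pr u x l i) := (contDiffOn_univ.1 (hws i l)).continuous
  have htb : ∀ l b x, |tu pr u l b x| ≤ C * Λ := by
    intro l b x
    obtain ⟨-, -, -, -, -, -, h1, -⟩ := hB x (Set.mem_univ x)
    exact (h1 l b).trans (mul_le_mul_of_nonneg_left (hΛ x) hC.le)
  have hwb : ∃ K : ℝ, 0 ≤ K ∧ ∀ x, |wu pr u x l i| ≤ K := by
    refine ⟨C * Λ ^ 2 + C * Λ ^ 2, by positivity, fun x => ?_⟩
    obtain ⟨-, h1, -, -, h2, h3, -, h4, -, h5⟩ := hB x (Set.mem_univ x)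
    have hen : en pr u x ≤ C * Λ ^ 2 := h3.trans
      (mul_le_mul_of_nonneg_left (pow_le_pow_left₀ (norm_nonneg _) (hΛ x) 2) hC.le)
    have hen0 : 0 ≤ en pr u x := (by positivity : 0 ≤ c * ‖fderiv ℝ u x‖ ^ 2).trans h2
    have hbsn : ∀ i, ‖bs i‖ = 1 := fun i => by simp [bs]
    have hgq : ∀ i, gq pr u x (bs i) ≤ en pr u x := by
      intro i
      have := h5 (bs i)
      rwa [hbsn, one_pow, one_mul] at this
    have h6 := h4 (bs i) (bs l)
    have e : ∑ a, ∑ b, bs i a * bs l b * gu pr u x a b = gu pr u x i l := by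
      rw [Finset.sum_eq_single i, Finset.sum_eq_single l]
      · simp [bs]
      · intro b _ hb
        simp [bs, hb]
      · intro h
        exact absurd (Finset.mem_univ _) h
      · intro a _ ha
        refine Finset.sum_eq_zero fun b _ => ?_
        simp [bs, ha]
      · intro h
        exact absurd (Finset.mem_univ _) h
    rw [e] at h6
    have h7 : |gu pr u x i l| ^ 2 ≤ en pr u x ^ 2 := by
      refine h6.trans ?_
      by_cases h0 : 0 ≤ gq pr u x (bs l)
      · calc gq pr u x (bs i) * gq pr u x (bs l) ≤ en pr u x * gq pr u x (bs l) :=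
            mul_le_mul_of_nonneg_right (hgq i) h0
          _ ≤ en pr u x * en pr u x := mul_le_mul_of_nonneg_left (hgq l) hen0
          _ = _ := by ring
      · exfalso
        obtain ⟨-, -, h8, -⟩ := hB x (Set.mem_univ x)
        exact h0 ((by positivity : 0 ≤ c * ‖fderiv ℝ u x (bs l)‖ ^ 2).trans (h8 (bs l)))
    have h8 : |gu pr u x i l| ≤ en pr u x := abs_le_of_sq_le_sq' (by rwa [← sq_abs]) hen0 |> abs_le.2
    rw [h1 i l]
    refine (abs_sub _ _).trans (add_le_add (h8.trans hen) ?_)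
    split_ifs
    · rw [abs_of_nonneg (by linarith)]
      linarith
    · rw [abs_zero]
      positivity
  obtain ⟨K, hK0, hK⟩ := hwb
  obtain ⟨η, hη1, hη2, hη3, hη4, M, hM0, hη5, hη6⟩ := F03x.cut
  have hχc : Continuous χ := hχ.continuous
  have hg : ∀ n, ContDiff ℝ 1 (fun x => η n x * χ x) := fun n => (hη1 n).mul hχ
  have hgs : ∀ n, HasCompactSupport (fun x => η n x * χ x) := fun n => (hη2 n).mul_right
  have hgd : ∀ n x i, fderiv ℝ (fun x => η n x * χ x) x (bs i) =
      η n x * fderiv ℝ χ x (bs i) + fderiv ℝ (η n) x (bs i) * χ x := by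
    intro n x i
    rw [fderiv_fun_mul ((hη1 n).differentiable (by norm_num) x) (hχ.differentiable (by norm_num) x)]
    show η n x * fderiv ℝ χ x (bs i) + χ x * fderiv ℝ (η n) x (bs i) = _
    ring
  have hdc : ∀ (f : E3 → ℝ), ContDiff ℝ 1 f → ∀ i, Continuous fun x => fderiv ℝ f x (bs i) :=
    fun f hf i => (hf.continuous_fderiv (by norm_num)).clm_apply continuous_const
  -- the identity for the cut off functions
  have hid : ∀ n, ∫ x, wu pr u x l i * (η n x * χ x) =
      -∫ x, (tu pr u l (i + 2) x * fderiv ℝ (fun x => η n x * χ x) x (bs (i + 1)) -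
        tu pr u l (i + 1) x * fderiv ℝ (fun x => η n x * χ x) x (bs (i + 2))) := by
    intro n
    obtain ⟨a1, a2, a3⟩ := F03x.ibp (htc l (i + 2)) (hg n) (hgs n) (bs (i + 1))
    obtain ⟨b1, b2, b3⟩ := F03x.ibp (htc l (i + 1)) (hg n) (hgs n) (bs (i + 2))
    have e : (fun x => wu pr u x l i * (η n x * χ x)) = fun x =>
        fderiv ℝ (tu pr u l (i + 2)) x (bs (i + 1)) * (η n x * χ x) -
          fderiv ℝ (tu pr u l (i + 1)) x (bs (i + 2)) * (η n x * χ x) := by
      funext x
      rw [hw x (Set.mem_univ x) l i]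
      ring
    rw [e, integral_sub a1 b1, integral_sub a2 b2, a3, b3]
    ring
  have hL : Tendsto (fun n => ∫ x, wu pr u x l i * (η n x * χ x)) atTop
      (nhds (∫ x, wu pr u x l i * χ x)) := by
    refine tendsto_integral_of_dominated_convergence (fun x => K * |χ x|) (fun n =>
      (hwc.mul ((hη1 n).continuous.mul hχc)).aestronglyMeasurable) (hχi.norm.const_mul K)
      (fun n => Eventually.of_forall fun x => ?_) (Eventually.of_forall fun x => ?_)
    · rw [Real.norm_eq_abs, abs_mul, abs_mul]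
      refine mul_le_mul (hK x) ?_ (by positivity) hK0
      calc |η n x| * |χ x| ≤ 1 * |χ x| := mul_le_mul_of_nonneg_right (hη3 n x) (abs_nonneg _)
        _ = |χ x| := one_mul _
    · have := ((hη4 x).mul_const (χ x)).const_mul (wu pr u x l i)
      rwa [one_mul] at this
  have hR : Tendsto (fun n => ∫ x, (tu pr u l (i + 2) x *
        fderiv ℝ (fun x => η n x * χ x) x (bs (i + 1)) -
        tu pr u l (i + 1) x * fderiv ℝ (fun x => η n x * χ x) x (bs (i + 2)))) atTop
      (nhds (∫ x, (tu pr u l (i + 2) x * fderiv ℝ χ x (bs (i + 1)) -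
        tu pr u l (i + 1) x * fderiv ℝ χ x (bs (i + 2))))) := by
    refine tendsto_integral_of_dominated_convergence (fun x =>
      C * Λ * (|fderiv ℝ χ x (bs (i + 1))| + M * |χ x|) +
        C * Λ * (|fderiv ℝ χ x (bs (i + 2))| + M * |χ x|)) (fun n => ?_) ?_
      (fun n => Eventually.of_forall fun x => ?_) (Eventually.of_forall fun x => ?_)
    · exact (((htc l (i + 2)).continuous.mul (hdc _ (hg n) (i + 1))).sub
        ((htc l (i + 1)).continuous.mul (hdc _ (hg n) (i + 2)))).aestronglyMeasurable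
    · exact (((hχd (i + 1)).norm.add (hχi.norm.const_mul M)).const_mul _).add
        (((hχd (i + 2)).norm.add (hχi.norm.const_mul M)).const_mul _)
    · have hb : ∀ j, |fderiv ℝ (fun x => η n x * χ x) x (bs j)| ≤
          |fderiv ℝ χ x (bs j)| + M * |χ x| := by
        intro j
        rw [hgd]
        refine (abs_add_le _ _).trans (add_le_add ?_ ?_)
        · rw [abs_mul]
          calc |η n x| * |fderiv ℝ χ x (bs j)| ≤ 1 * |fderiv ℝ χ x (bs j)| :=
              mul_le_mul_of_nonneg_right (hη3 n x) (abs_nonneg _)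
            _ = _ := one_mul _
        · rw [abs_mul]
          exact mul_le_mul_of_nonneg_right (hη5 n x j) (abs_nonneg _)
      rw [Real.norm_eq_abs]
      refine (abs_sub _ _).trans (add_le_add ?_ ?_)
      · rw [abs_mul]
        exact mul_le_mul (htb _ _ x) (hb _) (abs_nonneg _) (by positivity)
      · rw [abs_mul]
        exact mul_le_mul (htb _ _ x) (hb _) (abs_nonneg _) (by positivity)
    · have hd : ∀ j, Tendsto (fun n => fderiv ℝ (fun x => η n x * χ x) x (bs j)) atTop
          (nhds (fderiv ℝ χ x (bs j))) := by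
        intro j
        simp only [hgd]
        have := ((hη4 x).mul_const (fderiv ℝ χ x (bs j))).add ((hη6 x j).mul_const (χ x))
        rwa [one_mul, zero_mul, add_zero] at this
      exact ((hd (i + 1)).const_mul _).sub ((hd (i + 2)).const_mul _)
  refine tendsto_nhds_unique hL ?_
  simp only [hid]
  exact hR.neg

end Pool.Agent.FUE
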