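import Pool.Agent.FUE.StF

/-!
# FUE F04: the stress-energy tensor is divergence free, and the energy is a divergence (helper56)
-/

set_option autoImplicit false

open scoped Manifold ContDiff Matrix
open MeasureTheory

namespace Pool.Agent.FUE

namespace F04x

/-- matrices with measurable entries -/
private def Me {α : Type} [MeasurableSpace α] (A : α → Matrix (Fin 3) (Fin 3) ℝ) : Prop :=
  ∀ i j, Measurable fun x => A x i j

section me

variable {α : Type} [MeasurableSpace α] {A B : α → Matrix (Fin 3) (Fin 3) ℝ} {c : α → ℝ}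

private theorem Me.mul (hA : Me A) (hB : Me B) : Me fun x => A x * B x := by
  intro i j
  simp only [Matrix.mul_apply]
  exact Finset.measurable_sum _ fun k _ => (hA i k).mul (hB k j)

private theorem Me.sub (hA : Me A) (hB : Me B) : Me fun x => A x - B x := by
  intro i j
  simp only [Matrix.sub_apply]
  exact (hA i j).sub (hB i j)

private theorem Me.add (hA : Me A) (hB : Me B) : Me fun x => A x + B x := by
  intro i j
  simp only [Matrix.add_apply]
  exact (hA i j).add (hB i j)

private theorem Me.smul (hc : Measurable c) (hA : Me A) : Me fun x => c x • A x := by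
  intro i j
  simp only [Matrix.smul_apply, smul_eq_mul]
  exact hc.mul (hA i j)

private theorem Me.tr (hA : Me A) : Me fun x => (A x)ᵀ := fun i j => hA j i

private theorem Me.const (M : Matrix (Fin 3) (Fin 3) ℝ) : Me fun _ : α => M :=
  fun _ _ => measurable_const

private theorem Me.trace (hA : Me A) : Measurable fun x => (A x).trace := by
  simp only [Matrix.trace, Matrix.diag_apply]
  exact Finset.measurable_sum _ fun k _ => hA k k

private theorem Me.ax (hA : Me A) (l : Fin 3) : Measurable fun x => ax (A x) l := by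
  fin_cases l
  · exact hA 2 1
  · exact hA 0 2
  · exact hA 1 0

end me

private theorem me_toM {u : E3 → V9} (hu : Measurable u) : Me fun x => toM (u x) := by
  intro i j
  have h1 : Continuous fun P : V9 => P (i, j) := by fun_prop
  exact h1.measurable.comp hu

private theorem me_th (pr : Profile) {u w : E3 → V9} (hu : Measurable u) (hw : Measurable w)
    (l : Fin 3) : Measurable fun x => th (u x) pr (toM (w x)) l := by
  have m1 := me_toM hu
  have m2 := me_toM hw
  have hlam : Measurable fun x => lam (u x) := m1.trace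
  have htt : Measurable fun x => tt (u x) := m1.trace.sub measurable_const
  have hinv : Measurable fun x => ((lam (u x)) ^ 2 - tt (u x))⁻¹ := ((hlam.pow_const 2).sub htt).inv
  have hell : Me fun x => ell (u x) :=
    Me.smul hinv ((m1.mul m1).sub (Me.smul htt (Me.const _)))
  have hZ : Me fun x => Zz (u x) := m1.sub (Me.smul hlam hell)
  have hP : Me fun x => Pp (u x) := (Me.const _).sub hell
  have hXi : Me fun x => Xi (u x) (toM (w x)) :=
    Me.smul hinv (((((Me.smul hlam (Me.const _)).add hZ).mul hP).mul m2).mul hell)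
  have hv : ∀ l, Measurable fun x => vv (u x) (toM (w x)) l := (hXi.sub hXi.tr).ax
  have hPHP : Me fun x => Pp (u x) * toM (w x) * Pp (u x) := (hP.mul m2).mul hP
  have hax : ∀ l, Measurable fun x => ax (Zz (u x) * (Pp (u x) * toM (w x) * Pp (u x)) -
      (Pp (u x) * toM (w x) * Pp (u x)) * Zz (u x)) l :=
    ((hZ.mul hPHP).sub (hPHP.mul hZ)).ax
  have hal : Measurable fun x => pr.al (tt (u x)) := pr.smooth_al.continuous.measurable.comp htt
  have hbe : Measurable fun x => pr.be (tt (u x)) := pr.smooth_be.continuous.measurable.comp htt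
  have hka : Measurable fun x => pr.ka (tt (u x)) := pr.smooth_ka.continuous.measurable.comp htt
  have hmv : Measurable fun x => ((Zz (u x)).mulVec (vv (u x) (toM (w x)))) l := by
    simp only [Matrix.mulVec, dotProduct]
    exact Finset.measurable_sum _ fun k _ => (hZ l k).mul (hv k)
  have e1 : (fun x => th (u x) pr (toM (w x)) l) = fun x => (1 / 2 : ℝ) *
      (-(pr.al (tt (u x)) * pr.ka (tt (u x)) / 2) * ax (Zz (u x) * (Pp (u x) * toM (w x) *
        Pp (u x)) - (Pp (u x) * toM (w x) * Pp (u x)) * Zz (u x)) l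
      + (tt (u x) * pr.ka (tt (u x)) ^ 2 - pr.be (tt (u x)) ^ 2 +
        tt (u x) * pr.al (tt (u x)) * pr.ka (tt (u x))) * vv (u x) (toM (w x)) l
      + (pr.al (tt (u x)) * pr.be (tt (u x))) *
        ((Zz (u x)).mulVec (vv (u x) (toM (w x)))) l) := rfl
  rw [e1]
  exact measurable_const.mul ((((((hal.mul hka).div_const 2).neg.mul (hax l)).add
    ((((htt.mul (hka.pow_const 2)).sub (hbe.pow_const 2)).add ((htt.mul hal).mul hka)).mul
      (hv l)))).add ((hal.mul hbe).mul hmv))

private theorem bs_apply (i j : Fin 3) : (bs i) j = if j = i then 1 else 0 := by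
  unfold bs
  rw [PiLp.single_apply]

private theorem bs_norm (i : Fin 3) : ‖bs i‖ = 1 := by
  unfold bs
  rw [PiLp.norm_single, norm_one]

end F04x

open F04x

/-- **[F04]** the stress-energy tensor is divergence free, and the energy is a divergence -/
theorem thm_F04 (hF02 : St_F02) (hF03 : St_F03) : St_F04 := by
  intro pr S u hu χ hχ i0 i1 i2
  obtain ⟨c, C, hc, hC, H⟩ := hF02 pr S
  obtain ⟨g1, g2, g3, g4⟩ := H Set.univ u isOpen_univ hu.flat fun x _ => hu.size x
  obtain ⟨Λ, hΛ⟩ := hu.grad
  have hsm : ContDiff ℝ ∞ u := contDiffOn_univ.mp hu.flat.smooth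
  have hfd : Continuous (fderiv ℝ u) := hsm.continuous_fderiv (by simp)
  have hdu : ∀ b, Continuous fun x => du u x b := fun b => hfd.clm_apply continuous_const
  have hΛ0 : 0 ≤ Λ := (norm_nonneg _).trans (hΛ 0)
  have hen0 : ∀ x, 0 ≤ en pr u x := fun x =>
    (mul_nonneg hc.le (sq_nonneg _)).trans (g4 x trivial).2.2.2.2.1
  have henB : ∀ x, en pr u x ≤ C * Λ ^ 2 := by
    intro x
    refine ((g4 x trivial).2.2.2.2.2.1).trans (mul_le_mul_of_nonneg_left ?_ hC.le)
    exact pow_le_pow_left₀ (norm_nonneg _) (hΛ x) 2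
  have hgu : ∀ x i l, |gu pr u x i l| ≤ en pr u x := by
    intro x i l
    have e1 := (g4 x trivial).2.2.2.2.2.2.2.1 (bs i) (bs l)
    have e2 : ∑ i', ∑ l', (bs i) i' * (bs l) l' * gu pr u x i' l' = gu pr u x i l := by
      simp [bs_apply]
    have e3 := (g4 x trivial).2.2.2.2.2.2.2.2.2 (bs i)
    have e4 := (g4 x trivial).2.2.2.2.2.2.2.2.2 (bs l)
    have e5 : 0 ≤ gq pr u x (bs l) :=
      (mul_nonneg hc.le (sq_nonneg _)).trans ((g4 x trivial).2.2.1 (bs l))
    rw [bs_norm, one_pow, one_mul] at e3 e4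
    rw [e2] at e1
    refine abs_le_of_sq_le_sq ?_ (hen0 x)
    rw [← sq_abs]
    refine e1.trans ?_
    rw [sq]
    exact mul_le_mul e3 e4 e5 (hen0 x)
  have hwu : ∀ x l i, |wu pr u x l i| ≤ 2 * (C * Λ ^ 2) := by
    intro x l i
    rw [(g4 x trivial).2.1 i l]
    have e1 := abs_sub (gu pr u x i l) (if i = l then en pr u x / 2 else 0)
    have e2 : |(if i = l then en pr u x / 2 else 0 : ℝ)| ≤ en pr u x := by
      split_ifs
      · rw [abs_of_nonneg (by have := hen0 x; positivity)]
        have := hen0 x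
        linarith
      · rw [abs_zero]
        exact hen0 x
    have e3 := hgu x i l
    have e4 := henB x
    linarith
  have hmw : ∀ l i, AEStronglyMeasurable (fun x => wu pr u x l i) volume := fun l i =>
    (contDiffOn_univ.mp (g3 i l)).continuous.aestronglyMeasurable
  have hmt : ∀ l b, AEStronglyMeasurable (fun x => tu pr u l b x) volume := fun l b =>
    (me_th pr hsm.continuous.measurable (hdu b).measurable l).aestronglyMeasurable
  have htB : ∀ l b x, |tu pr u l b x| ≤ C * Λ := fun l b x =>
    ((g4 x trivial).2.2.2.2.2.2.1 l b).trans (mul_le_mul_of_nonneg_left (hΛ x) hC.le)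
  have hIw : ∀ l i (φ : E3 → ℝ), Integrable φ → Integrable fun x => wu pr u x l i * φ x :=
    fun l i φ hφ => hφ.bdd_mul (hmw l i) (Filter.Eventually.of_forall fun x => hwu x l i)
  have hIt : ∀ l b (φ : E3 → ℝ), Integrable φ → Integrable fun x => tu pr u l b x * φ x :=
    fun l b φ hφ => hφ.bdd_mul (hmt l b) (Filter.Eventually.of_forall fun x => htB l b x)
  constructor
  · intro l
    have hc1 : ∀ i, ContDiff ℝ 1 fun x => fderiv ℝ χ x (bs i) := fun i =>
      (hχ.fderiv_right (m := 1) (by norm_num)).clm_apply contDiff_const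
    have hsym : ∀ x i j, fderiv ℝ (fun y => fderiv ℝ χ y (bs i)) x (bs j) =
        fderiv ℝ (fun y => fderiv ℝ χ y (bs j)) x (bs i) := by
      intro x i j
      have hd : DifferentiableAt ℝ (fderiv ℝ χ) x :=
        ((hχ.fderiv_right (m := 1) (by norm_num)).differentiable (by norm_num)) x
      have e1 : ∀ i j, fderiv ℝ (fun y => fderiv ℝ χ y (bs i)) x (bs j) =
          fderiv ℝ (fderiv ℝ χ) x (bs j) (bs i) := by
        intro i j
        rw [fderiv_clm_apply hd (differentiableAt_const _)]
        simp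
      rw [e1, e1]
      have e2 : IsSymmSndFDerivAt ℝ χ x :=
        hχ.contDiffAt.isSymmSndFDerivAt (by simp)
      exact e2 _ _
    rw [integral_finsetSum _ fun i _ => hIw l i _ (i1 i)]
    have e1 : ∀ i, ∫ x, wu pr u x l i * fderiv ℝ χ x (bs i) =
        -∫ x, (tu pr u l (i + 2) x * fderiv ℝ (fun y => fderiv ℝ χ y (bs i)) x (bs (i + 1)) -
          tu pr u l (i + 1) x * fderiv ℝ (fun y => fderiv ℝ χ y (bs i)) x (bs (i + 2))) :=
      fun i => hF03 pr S u hu _ (hc1 i) (i1 i) (i2 i) l i
    have e3 : ∀ i ∈ Finset.univ, Integrable fun x => (tu pr u l (i + 2) x *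
        fderiv ℝ (fun y => fderiv ℝ χ y (bs i)) x (bs (i + 1)) -
          tu pr u l (i + 1) x * fderiv ℝ (fun y => fderiv ℝ χ y (bs i)) x (bs (i + 2))) :=
      fun i _ => (hIt l (i + 2) _ (i2 i (i + 1))).sub (hIt l (i + 1) _ (i2 i (i + 2)))
    simp only [e1]
    rw [Finset.sum_neg_distrib, ← integral_finsetSum _ e3]
    have e2 : ∀ x, ∑ i, (tu pr u l (i + 2) x *
        fderiv ℝ (fun y => fderiv ℝ χ y (bs i)) x (bs (i + 1)) -
          tu pr u l (i + 1) x * fderiv ℝ (fun y => fderiv ℝ χ y (bs i)) x (bs (i + 2))) = 0 := by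
      intro x
      rw [Fin.sum_univ_three]
      have a1 : (0 : Fin 3) + 2 = 2 := rfl
      have a2 : (0 : Fin 3) + 1 = 1 := rfl
      have a3 : (1 : Fin 3) + 2 = 0 := rfl
      have a4 : (1 : Fin 3) + 1 = 2 := rfl
      have a5 : (2 : Fin 3) + 2 = 1 := rfl
      have a6 : (2 : Fin 3) + 1 = 0 := rfl
      rw [a1, a2, a3, a4, a5, a6, hsym x 1 0, hsym x 2 0, hsym x 2 1]
      ring
    simp only [e2, integral_zero, neg_zero]
  · have e1 : ∀ x, en pr u x * χ x = ∑ k : Fin 3, -2 * (wu pr u x k k * χ x) := by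
      intro x
      have e2 : ∀ k, wu pr u x k k = gu pr u x k k - en pr u x / 2 := by
        intro k
        rw [(g4 x trivial).2.1 k k, if_pos rfl]
      have e3 : en pr u x = gu pr u x 0 0 + gu pr u x 1 1 + gu pr u x 2 2 := by
        unfold en
        rw [Fin.sum_univ_three]
      rw [Fin.sum_univ_three, e2, e2, e2]
      linear_combination (-2 * χ x) * e3
    have e3 : ∀ k ∈ Finset.univ, Integrable fun x => (tu pr u k (k + 2) x *
        fderiv ℝ χ x (bs (k + 1)) - tu pr u k (k + 1) x * fderiv ℝ χ x (bs (k + 2))) :=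
      fun k _ => (hIt k (k + 2) _ (i1 (k + 1))).sub (hIt k (k + 1) _ (i1 (k + 2)))
    have e4 : ∀ k ∈ Finset.univ, Integrable fun x => -2 * (wu pr u x k k * χ x) :=
      fun k _ => (hIw k k χ i0).const_mul (-2)
    simp only [e1]
    rw [integral_finsetSum _ e4, integral_finsetSum _ e3, Finset.mul_sum]
    refine Finset.sum_congr rfl fun k _ => ?_
    rw [integral_const_mul, hF03 pr S u hu χ (hχ.of_le (by norm_num)) i0 i1 k k]
    ring

end Pool.Agent.FUE
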