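import Pool.Agent.FUE.StF

/-!
# FUE/F05 (helper95): the Gaussian monotonicity formula
-/

set_option autoImplicit false
set_option linter.unusedVariables false
set_option linter.unusedSimpArgs false

open scoped Manifold ContDiff Matrix
open MeasureTheory

namespace Pool.Agent.FUE.F05x

/-- `f` is differentiable at `y` with derivative `d` in the direction `v` -/
def DV (f : E3 → ℝ) (y v : E3) (d : ℝ) : Prop := DifferentiableAt ℝ f y ∧ fderiv ℝ f y v = d

theorem DV.cst (c : ℝ) (y v : E3) : DV (fun _ => c) y v 0 := ⟨differentiableAt_const c, by simp⟩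

theorem DV.add {f g : E3 → ℝ} {y v : E3} {d e : ℝ} (h : DV f y v d) (h' : DV g y v e) : DV (fun z => f z + g z) y v (d + e) := by
  refine ⟨h.1.add h'.1, ?_⟩
  rw [fderiv_fun_add h.1 h'.1, add_apply, h.2, h'.2]

theorem DV.mul {f g : E3 → ℝ} {y v : E3} {d e : ℝ} (h : DV f y v d) (h' : DV g y v e) :
    DV (fun z => f z * g z) y v (d * g y + f y * e) := by
  refine ⟨h.1.mul h'.1, ?_⟩
  rw [fderiv_fun_mul h.1 h'.1]
  simp only [add_apply, smul_apply, smul_eq_mul, h.2, h'.2]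
  ring

theorem DV.comp {f : E3 → ℝ} {y v : E3} {d : ℝ} {φ : ℝ → ℝ} {φ' : ℝ} (h : DV f y v d) (hφ : HasDerivAt φ φ' (f y)) :
    DV (fun z => φ (f z)) y v (φ' * d) := by
  have h1 : HasFDerivAt (fun z => φ (f z)) (φ' • fderiv ℝ f y) y := hφ.comp_hasFDerivAt y h.1.hasFDerivAt
  refine ⟨h1.differentiableAt, ?_⟩
  rw [h1.fderiv, smul_apply, h.2, smul_eq_mul]

theorem DV.sum {ι : Type} [Fintype ι] {f : ι → E3 → ℝ} {y v : E3} {d : ι → ℝ} (h : ∀ i, DV (f i) y v (d i)) :
    DV (fun z => ∑ i, f i z) y v (∑ i, d i) := by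
  have h1 : HasFDerivAt (fun z => ∑ i, f i z) (∑ i, fderiv ℝ (f i) y) y :=
    HasFDerivAt.fun_sum (fun i _ => (h i).1.hasFDerivAt)
  refine ⟨h1.differentiableAt, ?_⟩
  rw [h1.fderiv, sum_apply]
  exact Finset.sum_congr rfl (fun i _ => (h i).2)

/-- coordinates centred at `y` -/
def zc (y : E3) (k : Fin 3) (x : E3) : ℝ := x k - y k

/-- the Gaussian -/
noncomputable def GG (y : E3) (R : ℝ) (x : E3) : ℝ := Real.exp (-(‖x - y‖ ^ 2 / R ^ 2))

theorem nsq (y x : E3) : ‖x - y‖ ^ 2 = ∑ k, zc y k x * zc y k x := by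
  rw [EuclideanSpace.real_norm_sq_eq]
  refine Finset.sum_congr rfl (fun k _ => ?_)
  simp [zc, pow_two]

theorem DV_z (y x : E3) (k i : Fin 3) : DV (zc y k) x (bs i) (if k = i then 1 else 0) := by
  have h1 : HasFDerivAt (zc y k) (EuclideanSpace.proj k : E3 →L[ℝ] ℝ) x := by
    have h2 : HasFDerivAt (fun z : E3 => z k) (EuclideanSpace.proj k : E3 →L[ℝ] ℝ) x :=
      (EuclideanSpace.proj k : E3 →L[ℝ] ℝ).hasFDerivAt
    exact h2.sub_const (y k)
  refine ⟨h1.differentiableAt, ?_⟩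
  rw [h1.fderiv]
  simp [bs, PiLp.single_apply]

theorem DV_G (y x : E3) (R : ℝ) (i : Fin 3) : DV (GG y R) x (bs i) (-(2 / R ^ 2) * zc y i x * GG y R x) := by
  have h1 : DV (fun x => ‖x - y‖ ^ 2) x (bs i) (2 * zc y i x) := by
    have h2 := DV.sum (fun k => (DV_z y x k i).mul (DV_z y x k i))
    have e : (fun x => ‖x - y‖ ^ 2) = fun x => ∑ k, zc y k x * zc y k x := funext (nsq y)
    rw [e]
    convert h2 using 1
    rw [Fin.sum_univ_three]
    fin_cases i <;> simp <;> ring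
  have h3 := h1.comp (φ := fun t => Real.exp (-(t / R ^ 2))) (φ' := Real.exp (-(‖x - y‖ ^ 2 / R ^ 2)) * (-(1 / R ^ 2))) (by
    have h4 : HasDerivAt (fun t : ℝ => -(t / R ^ 2)) (-(1 / R ^ 2)) (‖x - y‖ ^ 2) := ((hasDerivAt_id _).div_const _).fun_neg
    exact h4.exp)
  have e2 : -(2 / R ^ 2) * zc y i x * GG y R x = Real.exp (-(‖x - y‖ ^ 2 / R ^ 2)) * (-(1 / R ^ 2)) * (2 * zc y i x) := by
    simp only [GG]
    ring
  rw [e2]
  exact h3

theorem abs_zc_le (y x : E3) (k : Fin 3) : |zc y k x| ≤ ‖x - y‖ := by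
  have h := PiLp.norm_apply_le (x - y) k
  simpa [zc, Real.norm_eq_abs] using h

theorem gauss_int (b : ℝ) (hb : 0 < b) : Integrable (fun z : E3 => Real.exp (-(b * ‖z‖ ^ 2))) := by
  have h := GaussianFourier.integral_rexp_neg_mul_sq_norm (V := E3) hb
  have h2 : (∫ v : E3, Real.exp (-b * ‖v‖ ^ 2)) ≠ 0 := by
    rw [h]
    positivity
  have h3 : Integrable (fun v : E3 => Real.exp (-b * ‖v‖ ^ 2)) := Integrable.of_integral_ne_zero h2
  simpa only [neg_mul] using h3

theorem pow_gauss_le (b : ℝ) (hb : 0 < b) (k : ℕ) (t : ℝ) (ht : 0 ≤ t) :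
    (1 + t) ^ k * Real.exp (-(b * t ^ 2)) ≤ (k.factorial * Real.exp (1 + 1 / (2 * b))) * Real.exp (-((b / 2) * t ^ 2)) := by
  have h1 : (1 + t) ^ k ≤ k.factorial * Real.exp (1 + t) := by
    have h2 := Real.pow_div_factorial_le_exp (1 + t) (by positivity) k
    rw [div_le_iff₀ (by positivity)] at h2
    linarith
  have h3 : 1 + t ≤ 1 + 1 / (2 * b) + b / 2 * t ^ 2 := by
    have h4 : 0 ≤ (b * t - 1) ^ 2 / (2 * b) := by positivity
    have h5 : (b * t - 1) ^ 2 / (2 * b) = 1 / (2 * b) + b / 2 * t ^ 2 - t := by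
      field_simp
      ring
    linarith
  calc (1 + t) ^ k * Real.exp (-(b * t ^ 2)) ≤ (k.factorial * Real.exp (1 + 1 / (2 * b) + b / 2 * t ^ 2)) * Real.exp (-(b * t ^ 2)) := by
        refine mul_le_mul_of_nonneg_right (h1.trans ?_) (Real.exp_pos _).le
        exact mul_le_mul_of_nonneg_left (Real.exp_le_exp.2 h3) (by positivity)
    _ = (k.factorial * Real.exp (1 + 1 / (2 * b))) * Real.exp (-((b / 2) * t ^ 2)) := by
        rw [mul_assoc, mul_assoc, ← Real.exp_add, ← Real.exp_add]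
        congr 2
        ring

/-- functions dominated by a polynomial times the Gaussian -/
def PG (y : E3) (R : ℝ) (f : E3 → ℝ) : Prop :=
  Continuous f ∧ ∃ (A : ℝ) (k : ℕ), 0 ≤ A ∧ ∀ x, |f x| ≤ A * (1 + ‖x - y‖) ^ k * GG y R x

theorem GG_cont (y : E3) (R : ℝ) : Continuous (GG y R) := by
  unfold GG
  fun_prop

theorem zc_cont (y : E3) (k : Fin 3) : Continuous (zc y k) := by
  unfold zc
  fun_prop

theorem PG.int {y : E3} {R : ℝ} (hR : 0 < R) {f : E3 → ℝ} (h : PG y R f) : Integrable f := by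
  obtain ⟨hc, A, k, hA, hb⟩ := h
  have hβ : 0 < 1 / R ^ 2 := by positivity
  have h1 := (gauss_int (1 / R ^ 2 / 2) (by positivity)).comp_sub_right y
  have h2 := h1.const_mul (A * (k.factorial * Real.exp (1 + 1 / (2 * (1 / R ^ 2)))))
  refine h2.mono' hc.aestronglyMeasurable (Filter.Eventually.of_forall (fun x => ?_))
  rw [Real.norm_eq_abs]
  refine (hb x).trans ?_
  have h3 := pow_gauss_le (1 / R ^ 2) hβ k ‖x - y‖ (norm_nonneg _)
  have e : GG y R x = Real.exp (-(1 / R ^ 2 * ‖x - y‖ ^ 2)) := by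
    unfold GG
    congr 2
    ring
  rw [e, mul_assoc, mul_assoc A]
  exact mul_le_mul_of_nonneg_left h3 hA

theorem GG_pos (y : E3) (R : ℝ) (x : E3) : 0 < GG y R x := Real.exp_pos _

theorem PG.gg (y : E3) (R : ℝ) : PG y R (GG y R) :=
  ⟨GG_cont y R, 1, 0, zero_le_one, fun x => by rw [abs_of_pos (GG_pos y R x)]; simp⟩

theorem PG.bmul {y : E3} {R : ℝ} {f g : E3 → ℝ} (h : PG y R f) (hg : Continuous g) (K : ℝ) (hK : ∀ x, |g x| ≤ K) :
    PG y R (fun x => g x * f x) := by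
  obtain ⟨hc, A, k, hA, hb⟩ := h
  have hK0 : 0 ≤ K := (abs_nonneg _).trans (hK 0)
  refine ⟨hg.mul hc, K * A, k, by positivity, fun x => ?_⟩
  rw [abs_mul]
  calc |g x| * |f x| ≤ K * (A * (1 + ‖x - y‖) ^ k * GG y R x) := mul_le_mul (hK x) (hb x) (abs_nonneg _) hK0
    _ = K * A * (1 + ‖x - y‖) ^ k * GG y R x := by ring

theorem PG.smul {y : E3} {R : ℝ} {f : E3 → ℝ} (h : PG y R f) (c : ℝ) : PG y R (fun x => c * f x) :=
  h.bmul (g := fun _ => c) continuous_const |c| (fun _ => le_rfl)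

theorem PG.z {y : E3} {R : ℝ} {f : E3 → ℝ} (h : PG y R f) (k : Fin 3) : PG y R (fun x => zc y k x * f x) := by
  obtain ⟨hc, A, n, hA, hb⟩ := h
  refine ⟨(zc_cont y k).mul hc, A, n + 1, hA, fun x => ?_⟩
  rw [abs_mul]
  have h1 : |zc y k x| ≤ 1 + ‖x - y‖ := (abs_zc_le y x k).trans (by linarith)
  calc |zc y k x| * |f x| ≤ (1 + ‖x - y‖) * (A * (1 + ‖x - y‖) ^ n * GG y R x) :=
        mul_le_mul h1 (hb x) (abs_nonneg _) (by positivity)
    _ = A * (1 + ‖x - y‖) ^ (n + 1) * GG y R x := by ring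

theorem PG.add {y : E3} {R : ℝ} {f g : E3 → ℝ} (h : PG y R f) (h' : PG y R g) : PG y R (fun x => f x + g x) := by
  obtain ⟨hc, A, n, hA, hb⟩ := h
  obtain ⟨hc', A', n', hA', hb'⟩ := h'
  refine ⟨hc.add hc', A + A', n + n', by positivity, fun x => ?_⟩
  have h1 : (1 : ℝ) ≤ 1 + ‖x - y‖ := by linarith [norm_nonneg (x - y)]
  have h2 : (1 + ‖x - y‖) ^ n ≤ (1 + ‖x - y‖) ^ (n + n') := pow_le_pow_right₀ h1 (by omega)
  have h3 : (1 + ‖x - y‖) ^ n' ≤ (1 + ‖x - y‖) ^ (n + n') := pow_le_pow_right₀ h1 (by omega)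
  have hG := (GG_pos y R x).le
  calc |f x + g x| ≤ |f x| + |g x| := abs_add_le _ _
    _ ≤ A * (1 + ‖x - y‖) ^ n * GG y R x + A' * (1 + ‖x - y‖) ^ n' * GG y R x := add_le_add (hb x) (hb' x)
    _ ≤ A * (1 + ‖x - y‖) ^ (n + n') * GG y R x + A' * (1 + ‖x - y‖) ^ (n + n') * GG y R x := by
        refine add_le_add ?_ ?_
        · exact mul_le_mul_of_nonneg_right (mul_le_mul_of_nonneg_left h2 hA) hG
        · exact mul_le_mul_of_nonneg_right (mul_le_mul_of_nonneg_left h3 hA') hG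
    _ = (A + A') * (1 + ‖x - y‖) ^ (n + n') * GG y R x := by ring

theorem PG.sum {ι : Type} [Fintype ι] {y : E3} {R : ℝ} {f : ι → E3 → ℝ} (h : ∀ i, PG y R (f i)) :
    PG y R (fun x => ∑ i, f i x) := by
  classical
  have key : ∀ s : Finset ι, PG y R (fun x => ∑ i ∈ s, f i x) := by
    intro s
    induction s using Finset.induction_on with
    | empty =>
      simp only [Finset.sum_empty]
      have := (PG.gg y R).smul 0
      simpa using this
    | insert a s ha ih =>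
      simp only [Finset.sum_insert ha]
      exact (h a).add ih
  exact key Finset.univ

/-- the test function -/
noncomputable def ch (y : E3) (R : ℝ) (l : Fin 3) (x : E3) : ℝ := zc y l x * GG y R x

/-- its first derivatives -/
noncomputable def ch1 (y : E3) (R : ℝ) (l i : Fin 3) (x : E3) : ℝ :=
  (if l = i then 1 else 0) * GG y R x + zc y l x * (-(2 / R ^ 2) * zc y i x * GG y R x)

/-- its second derivatives -/
noncomputable def ch2 (y : E3) (R : ℝ) (l i j : Fin 3) (x : E3) : ℝ :=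
  ((if l = i then 1 else 0) * -(2 / R ^ 2)) * (zc y j x * GG y R x) +
    (((if l = j then 1 else 0) * -(2 / R ^ 2)) * (zc y i x * GG y R x) +
    (((if i = j then 1 else 0) * -(2 / R ^ 2)) * (zc y l x * GG y R x) +
      (2 / R ^ 2) ^ 2 * (zc y l x * (zc y i x * (zc y j x * GG y R x)))))

theorem DV_ch (y x : E3) (R : ℝ) (l i : Fin 3) : DV (ch y R l) x (bs i) (ch1 y R l i x) :=
  (DV_z y x l i).mul (DV_G y x R i)

theorem DV_ch1 (y x : E3) (R : ℝ) (l i j : Fin 3) : DV (ch1 y R l i) x (bs j) (ch2 y R l i j x) := by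
  have h := ((DV.cst (if l = i then 1 else 0) x (bs j)).mul (DV_G y x R j)).add
    ((DV_z y x l j).mul (((DV.cst (-(2 / R ^ 2)) x (bs j)).mul (DV_z y x i j)).mul (DV_G y x R j)))
  refine ⟨h.1, h.2.trans ?_⟩
  unfold ch2
  ring

theorem PG_ch (y : E3) (R : ℝ) (l : Fin 3) : PG y R (ch y R l) := (PG.gg y R).z l

theorem PG_ch1 (y : E3) (R : ℝ) (l i : Fin 3) : PG y R (ch1 y R l i) := by
  have h := ((PG.gg y R).smul (if l = i then 1 else 0)).add ((((PG.gg y R).z i).smul (-(2 / R ^ 2))).z l)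
  have e : ch1 y R l i = fun x => (if l = i then 1 else 0) * GG y R x + zc y l x * (-(2 / R ^ 2) * (zc y i x * GG y R x)) := by
    funext x
    unfold ch1
    ring
  rw [e]
  exact h

theorem PG_ch2 (y : E3) (R : ℝ) (l i j : Fin 3) : PG y R (ch2 y R l i j) :=
  (((PG.gg y R).z j).smul _).add ((((PG.gg y R).z i).smul _).add ((((PG.gg y R).z l).smul _).add
    (((((PG.gg y R).z j).z i).z l).smul _)))

theorem ch_cd (y : E3) (R : ℝ) (l : Fin 3) : ContDiff ℝ 2 (ch y R l) := by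
  have h1 : ContDiff ℝ 2 (zc y l) := by
    have h2 : ContDiff ℝ 2 (fun z : E3 => z l) := (EuclideanSpace.proj l : E3 →L[ℝ] ℝ).contDiff
    exact h2.sub contDiff_const
  have h3 : ContDiff ℝ 2 (GG y R) := by
    have h4 : ContDiff ℝ 2 (fun x : E3 => ‖x - y‖ ^ 2) := (contDiff_id.sub contDiff_const).norm_sq ℝ
    exact ((h4.div_const _).neg).exp
  exact h1.mul h3

/-- the facts about `u` used below -/
structure Fac (pr : Profile) (u : E3 → V9) (K : ℝ) : Prop where
  enc : Continuous (en pr u)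
  guc : ∀ i l, Continuous (fun x => gu pr u x i l)
  wuc : ∀ i l, Continuous (fun x => wu pr u x l i)
  enb : ∀ x, |en pr u x| ≤ K
  gub : ∀ x i l, |gu pr u x i l| ≤ K
  wue : ∀ x i l, wu pr u x l i = gu pr u x i l - (if i = l then en pr u x / 2 else 0)

theorem gsum (pr : Profile) (u : E3 → V9) (x : E3) (a b : Fin 3) :
    (∑ i, ∑ l, (bs a) i * (bs b) l * gu pr u x i l) = gu pr u x a b := by
  simp only [Fin.sum_univ_three]
  fin_cases a <;> fin_cases b <;> simp [bs, PiLp.single_apply]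

theorem fac (hF02 : St_F02) (pr : Profile) (S : ℝ) (u : E3 → V9) (hu : Good pr S u) : ∃ K, Fac pr u K := by
  obtain ⟨c, C, hc, hC, h⟩ := hF02 pr S
  obtain ⟨h1, h2, h3, h4⟩ := h Set.univ u isOpen_univ hu.flat (fun x _ => hu.size x)
  obtain ⟨Λ, hΛ⟩ := hu.grad
  have hen : ∀ x, 0 ≤ en pr u x ∧ en pr u x ≤ C * Λ ^ 2 := by
    intro x
    obtain ⟨-, -, -, -, h5, h6, -⟩ := h4 x (Set.mem_univ x)
    refine ⟨(by positivity : (0 : ℝ) ≤ c * ‖fderiv ℝ u x‖ ^ 2).trans h5, h6.trans ?_⟩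
    refine mul_le_mul_of_nonneg_left ?_ hC.le
    exact pow_le_pow_left₀ (norm_nonneg _) (hΛ x) 2
  have hgu : ∀ x i l, |gu pr u x i l| ≤ C * Λ ^ 2 := by
    intro x a b
    obtain ⟨-, -, -, -, -, -, -, h5, -, h6⟩ := h4 x (Set.mem_univ x)
    have h7 := h5 (bs a) (bs b)
    rw [gsum] at h7
    have hb : ∀ i, ‖bs i‖ = 1 := fun i => by simp [bs]
    have h8 : ∀ i, gq pr u x (bs i) ≤ en pr u x := by
      intro i
      have := h6 (bs i)
      rwa [hb, one_pow, one_mul] at this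
    have h9 : ∀ i, 0 ≤ gq pr u x (bs i) := by
      intro i
      obtain ⟨-, -, h10, -⟩ := h4 x (Set.mem_univ x)
      exact (by positivity : (0 : ℝ) ≤ c * ‖fderiv ℝ u x (bs i)‖ ^ 2).trans (h10 (bs i))
    have h11 : |gu pr u x a b| ^ 2 ≤ en pr u x ^ 2 := by
      rw [pow_two (en pr u x)]
      exact h7.trans (mul_le_mul (h8 a) (h8 b) (h9 b) (hen x).1)
    exact (abs_le_of_sq_le_sq' (by simpa using h11) (hen x).1 |> fun h => abs_le.2 h).trans (hen x).2
  refine ⟨C * Λ ^ 2, ?_, ?_, ?_, ?_, hgu, ?_⟩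
  · exact (contDiffOn_univ.1 h2).continuous
  · exact fun i l => (contDiffOn_univ.1 (h1 i l)).continuous
  · exact fun i l => (contDiffOn_univ.1 (h3 i l)).continuous
  · intro x
    rw [abs_of_nonneg (hen x).1]
    exact (hen x).2
  · intro x i l
    obtain ⟨-, h5, -⟩ := h4 x (Set.mem_univ x)
    exact h5 i l

theorem Fac.wub {pr : Profile} {u : E3 → V9} {K : ℝ} (h : Fac pr u K) (x : E3) (i l : Fin 3) : |wu pr u x l i| ≤ 2 * K := by
  rw [h.wue]
  have hK : 0 ≤ K := (abs_nonneg _).trans (h.enb 0)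
  split_ifs
  · have h1 := abs_le.1 (h.gub x i l)
    have h2 := abs_le.1 (h.enb x)
    rw [abs_le]
    constructor <;> linarith
  · rw [sub_zero]
    exact (h.gub x i l).trans (by linarith)

theorem PG_en {pr : Profile} {u : E3 → V9} {K : ℝ} (h : Fac pr u K) (y : E3) (R : ℝ) :
    PG y R (fun x => en pr u x * GG y R x) := (PG.gg y R).bmul h.enc K h.enb

theorem PG_en2 {pr : Profile} {u : E3 → V9} {K : ℝ} (h : Fac pr u K) (y : E3) (R : ℝ) :
    PG y R (fun x => ‖x - y‖ ^ 2 * (en pr u x * GG y R x)) := by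
  have h1 : PG y R (fun x => ∑ k, zc y k x * (zc y k x * (en pr u x * GG y R x))) :=
    PG.sum (fun k => ((PG_en h y R).z k).z k)
  have e : (fun x => ‖x - y‖ ^ 2 * (en pr u x * GG y R x)) =
      fun x => ∑ k, zc y k x * (zc y k x * (en pr u x * GG y R x)) := by
    funext x
    rw [nsq, Finset.sum_mul]
    exact Finset.sum_congr rfl (fun k _ => by ring)
  rw [e]
  exact h1

theorem gq_eq (pr : Profile) (u : E3 → V9) (y x : E3) :
    gq pr u x (x - y) = ∑ i, ∑ l, zc y i x * zc y l x * gu pr u x i l := by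
  unfold gq
  refine Finset.sum_congr rfl (fun i _ => Finset.sum_congr rfl (fun l _ => ?_))
  simp [zc]

theorem PG_gq {pr : Profile} {u : E3 → V9} {K : ℝ} (h : Fac pr u K) (y : E3) (R : ℝ) :
    PG y R (fun x => gq pr u x (x - y) * GG y R x) := by
  have h1 : PG y R (fun x => ∑ i, ∑ l, zc y i x * (zc y l x * (gu pr u x i l * GG y R x))) :=
    PG.sum (fun i => PG.sum (fun l => (((PG.gg y R).bmul (h.guc i l) K (fun x => h.gub x i l)).z l).z i))
  have e : (fun x => gq pr u x (x - y) * GG y R x) =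
      fun x => ∑ i, ∑ l, zc y i x * (zc y l x * (gu pr u x i l * GG y R x)) := by
    funext x
    rw [gq_eq, Finset.sum_mul]
    refine Finset.sum_congr rfl (fun i _ => ?_)
    rw [Finset.sum_mul]
    exact Finset.sum_congr rfl (fun l _ => by ring)
  rw [e]
  exact h1

theorem pointwise {pr : Profile} {u : E3 → V9} {K : ℝ} (h : Fac pr u K) (y x : E3) (R : ℝ) :
    ∑ l, ∑ i, wu pr u x l i * ch1 y R l i x = (1 / R ^ 2) * (‖x - y‖ ^ 2 * (en pr u x * GG y R x)) -
      (1 / 2) * (en pr u x * GG y R x) - (2 / R ^ 2) * (gq pr u x (x - y) * GG y R x) := by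
  rw [gq_eq, nsq]
  have e : en pr u x = ∑ i, gu pr u x i i := rfl
  simp only [h.wue, ch1, Fin.sum_univ_three] at e ⊢
  simp only [e]
  simp
  ring

theorem ident (hF04 : St_F04) {pr : Profile} {u : E3 → V9} {S K : ℝ} (hu : Good pr S u) (h : Fac pr u K) (y : E3) (R : ℝ) (hR : 0 < R) :
    (1 / R ^ 2) * (∫ x, ‖x - y‖ ^ 2 * (en pr u x * GG y R x)) - (1 / 2) * (∫ x, en pr u x * GG y R x) -
      (2 / R ^ 2) * (∫ x, gq pr u x (x - y) * GG y R x) = 0 := by
  have h1 : ∀ l, ∫ x, ∑ i, wu pr u x l i * ch1 y R l i x = 0 := by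
    intro l
    have e1 : ∀ i, (fun x => fderiv ℝ (ch y R l) x (bs i)) = ch1 y R l i := fun i => funext (fun x => (DV_ch y x R l i).2)
    have h2 := (hF04 pr S u hu (ch y R l) (ch_cd y R l) ((PG_ch y R l).int hR)
      (fun i => by rw [e1]; exact (PG_ch1 y R l i).int hR)
      (fun i j => by
        rw [e1]
        have e2 : (fun x => fderiv ℝ (ch1 y R l i) x (bs j)) = ch2 y R l i j := funext (fun x => (DV_ch1 y x R l i j).2)
        rw [e2]
        exact (PG_ch2 y R l i j).int hR)).1 l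
    rw [← h2]
    congr 1
    funext x
    refine Finset.sum_congr rfl (fun i _ => ?_)
    rw [(DV_ch y x R l i).2]
  have h3 : ∀ l, Integrable (fun x => ∑ i, wu pr u x l i * ch1 y R l i x) := by
    intro l
    exact (PG.sum (fun i => (PG_ch1 y R l i).bmul (h.wuc i l) (2 * K) (fun x => h.wub x i l))).int hR
  have h4 : ∫ x, ∑ l, ∑ i, wu pr u x l i * ch1 y R l i x = 0 := by
    rw [integral_finsetSum _ (fun l _ => h3 l)]
    exact Finset.sum_eq_zero (fun l _ => h1 l)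
  simp only [pointwise h] at h4
  have i1 := ((PG_en2 h y R).int hR).const_mul (1 / R ^ 2)
  have i2 := ((PG_en h y R).int hR).const_mul (1 / 2)
  have i3 := ((PG_gq h y R).int hR).const_mul (2 / R ^ 2)
  have i12 : Integrable (fun x => 1 / R ^ 2 * (‖x - y‖ ^ 2 * (en pr u x * GG y R x)) - 1 / 2 * (en pr u x * GG y R x)) := i1.sub i2
  rw [integral_sub i12 i3, integral_sub i1 i2, integral_const_mul, integral_const_mul, integral_const_mul] at h4
  exact h4

theorem der_exp (a r : ℝ) (hr : r ≠ 0) :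
    HasDerivAt (fun t : ℝ => Real.exp (-(a / t ^ 2))) (Real.exp (-(a / r ^ 2)) * (2 * a / r ^ 3)) r := by
  have h1 : HasDerivAt (fun t : ℝ => -(a / t ^ 2)) (2 * a / r ^ 3) r := by
    have h2 := (((hasDerivAt_pow 2 r).fun_inv (pow_ne_zero 2 hr)).const_mul a).fun_neg
    have h3 : -(a * (-(((2 : ℕ) : ℝ) * r ^ (2 - 1)) / (r ^ 2) ^ 2)) = 2 * a / r ^ 3 := by
      field_simp
      norm_num
      ring
    rw [h3] at h2
    simpa only [div_eq_mul_inv] using h2
  exact h1.exp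

theorem der_int {pr : Profile} {u : E3 → V9} {K : ℝ} (h : Fac pr u K) (y : E3) (R : ℝ) (hR : 0 < R) :
    HasDerivAt (fun r => ∫ x, en pr u x * GG y r x) (∫ x, en pr u x * (GG y R x * (2 * ‖x - y‖ ^ 2 / R ^ 3))) R := by
  have hK : 0 ≤ K := (abs_nonneg _).trans (h.enb 0)
  have hs : Set.Ioo (R / 2) (2 * R) ∈ nhds R := Ioo_mem_nhds (by linarith) (by linarith)
  have hb : Integrable (fun x => (K * (2 / (R / 2) ^ 3)) * ∑ k, zc y k x * (zc y k x * GG y (2 * R) x)) :=
    ((PG.sum (fun k => ((PG.gg y (2 * R)).z k).z k)).smul _).int (by linarith)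
  refine (hasDerivAt_integral_of_dominated_loc_of_deriv_le (μ := volume) (F := fun r x => en pr u x * GG y r x)
    (F' := fun r x => en pr u x * (GG y r x * (2 * ‖x - y‖ ^ 2 / r ^ 3))) hs ?_ ?_ ?_ ?_ hb ?_).2
  · exact Filter.Eventually.of_forall (fun r => (h.enc.mul (GG_cont y r)).aestronglyMeasurable)
  · exact (PG_en h y R).int hR
  · have hc : Continuous (fun x => en pr u x * (GG y R x * (2 * ‖x - y‖ ^ 2 / R ^ 3))) := by
      have h1 := h.enc
      have h2 := GG_cont y R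
      fun_prop
    exact hc.aestronglyMeasurable
  · refine Filter.Eventually.of_forall (fun x r hr => ?_)
    have hr0 : 0 < r := lt_trans (by linarith) hr.1
    have hG : GG y r x ≤ GG y (2 * R) x := by
      unfold GG
      refine Real.exp_le_exp.2 (neg_le_neg ?_)
      refine div_le_div_of_nonneg_left (by positivity) (by positivity) ?_
      exact pow_le_pow_left₀ hr0.le hr.2.le 2
    have e : (∑ k, zc y k x * (zc y k x * GG y (2 * R) x)) = ‖x - y‖ ^ 2 * GG y (2 * R) x := by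
      rw [nsq, Finset.sum_mul]
      exact Finset.sum_congr rfl (fun k _ => by ring)
    rw [e, Real.norm_eq_abs, abs_mul]
    have h3 : |GG y r x * (2 * ‖x - y‖ ^ 2 / r ^ 3)| ≤ GG y (2 * R) x * (2 * ‖x - y‖ ^ 2 / (R / 2) ^ 3) := by
      rw [abs_of_nonneg (mul_nonneg (GG_pos y r x).le (by positivity))]
      refine mul_le_mul hG ?_ (by positivity) (GG_pos _ _ _).le
      refine div_le_div_of_nonneg_left (by positivity) (by positivity) ?_
      exact pow_le_pow_left₀ (by linarith) hr.1.le 3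
    calc |en pr u x| * |GG y r x * (2 * ‖x - y‖ ^ 2 / r ^ 3)| ≤ K * (GG y (2 * R) x * (2 * ‖x - y‖ ^ 2 / (R / 2) ^ 3)) :=
          mul_le_mul (h.enb x) h3 (abs_nonneg _) hK
      _ = (K * (2 / (R / 2) ^ 3)) * (‖x - y‖ ^ 2 * GG y (2 * R) x) := by ring
  · refine Filter.Eventually.of_forall (fun x r hr => ?_)
    have hr0 : 0 < r := lt_trans (by linarith) hr.1
    exact (der_exp (‖x - y‖ ^ 2) r hr0.ne').const_mul (en pr u x)

end Pool.Agent.FUE.F05x

namespace Pool.Agent.FUE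

open F05x

/-- **[F05] Gaussian monotonicity formula** -/
theorem thm_F05 (hF02 : St_F02) (hF04 : St_F04) : St_F05 := by
  intro pr S u hu y R hR
  obtain ⟨K, h⟩ := fac hF02 pr S u hu
  refine ⟨(PG_en h y R).int hR, (PG_gq h y R).int hR, ?_⟩
  have h1 := (hasDerivAt_inv hR.ne').fun_mul (der_int h y R hR)
  have h2 := ident hF04 hu h y R hR
  have e3 : (∫ x, en pr u x * (GG y R x * (2 * ‖x - y‖ ^ 2 / R ^ 3))) =
      (2 / R ^ 3) * ∫ x, ‖x - y‖ ^ 2 * (en pr u x * GG y R x) := by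
    rw [← integral_const_mul]
    congr 1
    funext x
    ring
  rw [e3] at h1
  show HasDerivAt (fun r => r⁻¹ * ∫ x, en pr u x * GG y r x) (4 / R ^ 4 * ∫ x, gq pr u x (x - y) * GG y R x) R
  refine h1.congr_deriv ?_
  generalize (∫ x, ‖x - y‖ ^ 2 * (en pr u x * GG y R x)) = I2 at h2 ⊢
  generalize (∫ x, en pr u x * GG y R x) = I0 at h2 ⊢
  generalize (∫ x, gq pr u x (x - y) * GG y R x) = I1 at h2 ⊢
  have hR' := hR.ne'
  field_simp at h2 ⊢
  linear_combination h2

end Pool.Agent.FUE
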