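import Pool.Agent.FUE.StF

/-!
# Fueter sections: [F06] monotonicity of the Gaussian energy
-/

set_option autoImplicit false

open scoped Manifold ContDiff Matrix
open MeasureTheory

namespace Pool.Agent.FUE

namespace F06x

/-- The calculus part. -/
theorem calc_mono (f J : ℝ → ℝ) (hd : ∀ r, 0 < r → HasDerivAt f (4 / r ^ 4 * J r) r)
    (hJ : ∀ r, 0 < r → 0 ≤ J r) (hm : ∀ r s, 0 < r → r ≤ s → J r ≤ J s) (R : ℝ) (hR : 0 < R) :
    (∀ R', R ≤ R' → f R ≤ f R') ∧ J R ≤ R ^ 3 * (f (2 * R) - f R) := by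
  constructor
  · intro R' hR'
    have hmono : MonotoneOn f (Set.Ici R) := by
      apply monotoneOn_of_deriv_nonneg (convex_Ici R)
      · intro r hr
        exact (hd r (lt_of_lt_of_le hR hr)).continuousAt.continuousWithinAt
      · intro r hr
        rw [interior_Ici] at hr
        exact (hd r (lt_trans hR hr)).differentiableAt.differentiableWithinAt
      · intro r hr
        rw [interior_Ici] at hr
        have h0 : 0 < r := lt_trans hR hr
        rw [(hd r h0).deriv]
        exact mul_nonneg (by positivity) (hJ r h0)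
    exact hmono (Set.mem_Ici.2 le_rfl) (Set.mem_Ici.2 hR') hR'
  · have hg : ∀ r, 0 < r → HasDerivAt (fun r => f r + 4 / 3 * J R * (r ^ 3)⁻¹)
        (4 / r ^ 4 * J r - 4 / r ^ 4 * J R) r := by
      intro r hr
      have h1 : HasDerivAt (fun r : ℝ => (r ^ 3)⁻¹) (-(3 * r ^ 2) / (r ^ 3) ^ 2) r := by
        have h := (hasDerivAt_pow 3 r).fun_inv (by positivity : r ^ 3 ≠ 0)
        have e : -(3 * r ^ 2) / (r ^ 3) ^ 2 = -(((3 : ℕ) : ℝ) * r ^ (3 - 1)) / (r ^ 3) ^ 2 := by
          norm_num
        rw [e]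
        exact h
      have h2 := (hd r hr).add (h1.const_mul (4 / 3 * J R))
      have h3 : 4 / r ^ 4 * J r + 4 / 3 * J R * (-(3 * r ^ 2) / (r ^ 3) ^ 2) =
          4 / r ^ 4 * J r - 4 / r ^ 4 * J R := by
        field_simp
        ring
      rw [← h3]
      exact h2
    have hmono : MonotoneOn (fun r => f r + 4 / 3 * J R * (r ^ 3)⁻¹) (Set.Ici R) := by
      apply monotoneOn_of_deriv_nonneg (convex_Ici R)
      · intro r hr
        exact (hg r (lt_of_lt_of_le hR hr)).continuousAt.continuousWithinAt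
      · intro r hr
        rw [interior_Ici] at hr
        exact (hg r (lt_trans hR hr)).differentiableAt.differentiableWithinAt
      · intro r hr
        rw [interior_Ici] at hr
        have h0 : 0 < r := lt_trans hR hr
        rw [(hg r h0).deriv]
        have h1 : J R ≤ J r := hm R r hR (le_of_lt hr)
        have h2 : 0 ≤ 4 / r ^ 4 := by positivity
        nlinarith [mul_le_mul_of_nonneg_left h1 h2]
    have h := hmono (Set.mem_Ici.2 le_rfl) (Set.mem_Ici.2 (by linarith : R ≤ 2 * R)) (by linarith)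
    have hJR : 0 ≤ J R := hJ R hR
    have hR3 : 0 < R ^ 3 := by positivity
    simp only at h
    have e1 : ((2 * R) ^ 3)⁻¹ = (R ^ 3)⁻¹ / 8 := by
      field_simp
      ring
    rw [e1] at h
    have h5 : 7 / 6 * J R * (R ^ 3)⁻¹ ≤ f (2 * R) - f R := by linarith
    have h6 := mul_le_mul_of_nonneg_left h5 hR3.le
    have h7 : R ^ 3 * (7 / 6 * J R * (R ^ 3)⁻¹) = 7 / 6 * J R := by
      field_simp
    rw [h7] at h6
    linarith

end F06x

/-- **[F06] monotonicity.** -/
theorem thm_F06 (hF02 : St_F02) (hF05 : St_F05) : St_F06 := by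
  intro pr S u hu y R hR
  obtain ⟨c, C, hc, -, hcC⟩ := hF02 pr S
  obtain ⟨-, -, -, hb⟩ := hcC Set.univ u isOpen_univ hu.flat (fun x _ => hu.size x)
  have hen : ∀ x, 0 ≤ en pr u x := by
    intro x
    obtain ⟨-, -, -, -, h, -⟩ := hb x (Set.mem_univ x)
    exact le_trans (by positivity) h
  have hgq : ∀ x v, 0 ≤ gq pr u x v := by
    intro x v
    obtain ⟨-, -, h, -⟩ := hb x (Set.mem_univ x)
    exact le_trans (by positivity) (h v)
  have hmain := F06x.calc_mono (fun r => Phi pr u y r)
    (fun r => ∫ x, gq pr u x (x - y) * Real.exp (-(‖x - y‖ ^ 2 / r ^ 2)))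
    (fun r hr => (hF05 pr S u hu y r hr).2.2)
    (fun r _ => integral_nonneg fun x => mul_nonneg (hgq x _) (Real.exp_pos _).le)
    (by
      intro r s hr hrs
      apply integral_mono (hF05 pr S u hu y r hr).2.1
        (hF05 pr S u hu y s (lt_of_lt_of_le hr hrs)).2.1
      intro x
      apply mul_le_mul_of_nonneg_left _ (hgq x _)
      apply Real.exp_le_exp.2
      apply neg_le_neg
      apply div_le_div_of_nonneg_left (by positivity) (by positivity)
      exact pow_le_pow_left₀ hr.le hrs 2) R hR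
  refine ⟨?_, hmain.1, hmain.2⟩
  unfold Phi
  exact mul_nonneg (inv_nonneg.2 hR.le)
    (integral_nonneg fun x => mul_nonneg (hen x) (Real.exp_pos _).le)

end Pool.Agent.FUE
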