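import Pool.Agent.FUE.StF

/-!
# FUE / F07: the uniform energy bound (module by helper13)
-/

set_option autoImplicit false

open scoped Manifold ContDiff Matrix InnerProductSpace
open MeasureTheory

namespace Pool.Agent.FUE

namespace F07x

/-- the Gaussian -/
noncomputable def gs (a : ℝ) (y x : E3) : ℝ := Real.exp (-(a * ‖x - y‖ ^ 2))

theorem gs_pos (a : ℝ) (y x : E3) : 0 < gs a y x := Real.exp_pos _

theorem gs_cont (a : ℝ) (y : E3) : Continuous (gs a y) := by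
  unfold gs; fun_prop

theorem gs_int {a : ℝ} (ha : 0 < a) (y : E3) : Integrable (gs a y) := by
  have h := (GaussianFourier.integrable_cexp_neg_mul_sq_norm_add (V := E3) (b := (a : ℂ))
    (by simpa using ha) 0 0).norm
  have h2 : (fun v : E3 => ‖Complex.exp (-(a : ℂ) * ‖v‖ ^ 2 + 0 * ⟪(0 : E3), v⟫_ℝ)‖) =
      fun v : E3 => Real.exp (-(a * ‖v‖ ^ 2)) := by
    funext v
    rw [Complex.norm_exp]
    congr 1
    simp only [zero_mul, add_zero]
    rw [show (-(a : ℂ) * ((‖v‖ : ℝ) : ℂ) ^ 2) = (((-(a * ‖v‖ ^ 2)) : ℝ) : ℂ) by push_cast; ring]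
    exact Complex.ofReal_re _
  rw [h2] at h
  exact h.comp_sub_right y

theorem sq_bd {a : ℝ} (ha : 0 < a) (y x : E3) :
    ‖x - y‖ ^ 2 * gs a y x ≤ 2 / a * gs (a / 2) y x := by
  have h1 : a / 2 * ‖x - y‖ ^ 2 ≤ Real.exp (a / 2 * ‖x - y‖ ^ 2) := by
    have := Real.add_one_le_exp (a / 2 * ‖x - y‖ ^ 2)
    linarith
  have h2 : gs a y x = gs (a / 2) y x * Real.exp (-(a / 2 * ‖x - y‖ ^ 2)) := by
    unfold gs
    rw [← Real.exp_add]
    congr 1
    ring
  have h3 : Real.exp (a / 2 * ‖x - y‖ ^ 2) * Real.exp (-(a / 2 * ‖x - y‖ ^ 2)) = 1 := by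
    rw [← Real.exp_add, add_neg_cancel, Real.exp_zero]
  have h4 := mul_le_mul_of_nonneg_right h1 (Real.exp_pos (-(a / 2 * ‖x - y‖ ^ 2))).le
  rw [h3] at h4
  have h5 := mul_le_mul_of_nonneg_left h4 (gs_pos (a / 2) y x).le
  rw [mul_one] at h5
  rw [h2]
  have h6 : ‖x - y‖ ^ 2 * (gs (a / 2) y x * Real.exp (-(a / 2 * ‖x - y‖ ^ 2))) =
      2 / a * (gs (a / 2) y x * (a / 2 * ‖x - y‖ ^ 2 * Real.exp (-(a / 2 * ‖x - y‖ ^ 2)))) := by
    field_simp
  rw [h6]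
  exact mul_le_mul_of_nonneg_left h5 (by positivity)

theorem sq_int {a : ℝ} (ha : 0 < a) (y : E3) : Integrable (fun x => ‖x - y‖ ^ 2 * gs a y x) := by
  refine ((gs_int (half_pos ha) y).const_mul (2 / a)).mono'
    (((continuous_id.sub continuous_const).norm.pow 2).mul (gs_cont a y)).aestronglyMeasurable
    (Filter.Eventually.of_forall fun x => ?_)
  rw [Real.norm_of_nonneg (mul_nonneg (by positivity) (gs_pos a y x).le)]
  exact sq_bd ha y x

theorem gs_has (a : ℝ) (y x : E3) :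
    HasFDerivAt (gs a y)
      (gs a y x • (-(a • (2 • (innerSL ℝ (x - y) : E3 →L[ℝ] ℝ)))) : E3 →L[ℝ] ℝ) x := by
  have h1 : HasFDerivAt (fun x : E3 => x - y) (ContinuousLinearMap.id ℝ E3) x :=
    (hasFDerivAt_id x).sub_const y
  have h2 := h1.norm_sq
  have h3 := ((h2.const_mul a).neg).exp
  have h4 : (2 • (innerSL ℝ (x - y)).comp (ContinuousLinearMap.id ℝ E3)) =
      2 • (innerSL ℝ (x - y)) := by
    rw [ContinuousLinearMap.comp_id]
  rw [h4] at h3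
  exact h3

theorem gs_fd (a : ℝ) (y x v : E3) :
    fderiv ℝ (gs a y) x v = -(2 * a * ⟪x - y, v⟫_ℝ) * gs a y x := by
  rw [(gs_has a y x).fderiv]
  simp only [smul_apply, neg_apply, innerSL_apply_apply, smul_eq_mul, nsmul_eq_mul]
  push_cast
  ring

theorem gs_fd2 (a : ℝ) (y x v w : E3) :
    fderiv ℝ (fun z => fderiv ℝ (gs a y) z v) x w =
      (4 * a ^ 2 * (⟪x - y, v⟫_ℝ * ⟪x - y, w⟫_ℝ) - 2 * a * ⟪w, v⟫_ℝ) * gs a y x := by
  have h0 : (fun z => fderiv ℝ (gs a y) z v) =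
      fun z => -(2 * a * ⟪z - y, v⟫_ℝ) * gs a y z := by
    funext z; exact gs_fd a y z v
  have h1 : HasFDerivAt (fun z : E3 => ⟪z - y, v⟫_ℝ) (innerSL ℝ v) x := by
    have h2 : (fun z : E3 => ⟪z - y, v⟫_ℝ) = fun z => innerSL ℝ v z - ⟪y, v⟫_ℝ := by
      funext z
      rw [innerSL_apply_apply, inner_sub_left, real_inner_comm z v]
    rw [h2]
    exact (innerSL ℝ v).hasFDerivAt.sub_const _
  have h3 := ((h1.const_mul (2 * a)).neg).mul (gs_has a y x)
  have h4 : fderiv ℝ (fun z => -(2 * a * ⟪z - y, v⟫_ℝ) * gs a y z) x = _ := h3.fderiv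
  rw [h0, h4]
  simp only [smul_apply, neg_apply, add_apply, innerSL_apply_apply, smul_eq_mul, nsmul_eq_mul,
    Pi.neg_apply]
  rw [real_inner_comm w v]
  push_cast
  ring

theorem norm_bs (i : Fin 3) : ‖bs i‖ = 1 := by
  unfold bs
  simp

theorem abs_inner_bs (z : E3) (i : Fin 3) : |⟪z, bs i⟫_ℝ| ≤ ‖z‖ := by
  have h := abs_real_inner_le_norm z (bs i)
  rwa [norm_bs, mul_one] at h

theorem gs_contDiff (a : ℝ) (y : E3) : ContDiff ℝ 2 (gs a y) :=
  Real.contDiff_exp.comp ((contDiff_const.mul ((contDiff_id.sub contDiff_const).norm_sq ℝ)).neg)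

theorem fd_abs {a : ℝ} (ha : 0 < a) (y x : E3) (i : Fin 3) :
    |fderiv ℝ (gs a y) x (bs i)| ≤ 2 * a * ‖x - y‖ * gs a y x := by
  rw [gs_fd, abs_mul, abs_neg, abs_mul, abs_of_pos (gs_pos a y x),
    abs_of_pos (show (0 : ℝ) < 2 * a by positivity)]
  have := abs_inner_bs (x - y) i
  have := gs_pos a y x
  gcongr

theorem fd_int {a : ℝ} (ha : 0 < a) (y : E3) (i : Fin 3) :
    Integrable (fun x => fderiv ℝ (gs a y) x (bs i)) := by
  have hc : Continuous (fun x => fderiv ℝ (gs a y) x (bs i)) :=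
    ((gs_contDiff a y).continuous_fderiv (by norm_num)).clm_apply continuous_const
  refine ((((gs_int ha y).add (sq_int ha y)).const_mul (2 * a))).mono' hc.aestronglyMeasurable
    (Filter.Eventually.of_forall fun x => ?_)
  rw [Real.norm_eq_abs]
  refine (fd_abs ha y x i).trans ?_
  have h1 : ‖x - y‖ ≤ 1 + ‖x - y‖ ^ 2 := by nlinarith [sq_nonneg (‖x - y‖ - 1)]
  have h2 := gs_pos a y x
  calc 2 * a * ‖x - y‖ * gs a y x ≤ 2 * a * (1 + ‖x - y‖ ^ 2) * gs a y x := by gcongr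
    _ = 2 * a * ((gs a y + fun x => ‖x - y‖ ^ 2 * gs a y x) x) := by
        simp only [Pi.add_apply]; ring

theorem fd2_int {a : ℝ} (ha : 0 < a) (y : E3) (i j : Fin 3) :
    Integrable (fun x => fderiv ℝ (fun z => fderiv ℝ (gs a y) z (bs i)) x (bs j)) := by
  have h0 : (fun x => fderiv ℝ (fun z => fderiv ℝ (gs a y) z (bs i)) x (bs j)) =
      fun x => (4 * a ^ 2 * (⟪x - y, bs i⟫_ℝ * ⟪x - y, bs j⟫_ℝ) - 2 * a * ⟪bs j, bs i⟫_ℝ) *
        gs a y x := by
    funext x; exact gs_fd2 a y x _ _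
  rw [h0]
  have hc : Continuous (fun x => (4 * a ^ 2 * (⟪x - y, bs i⟫_ℝ * ⟪x - y, bs j⟫_ℝ) -
      2 * a * ⟪bs j, bs i⟫_ℝ) * gs a y x) := by
    have := gs_cont a y
    fun_prop
  refine (((sq_int ha y).const_mul (4 * a ^ 2)).add ((gs_int ha y).const_mul (2 * a))).mono'
    hc.aestronglyMeasurable (Filter.Eventually.of_forall fun x => ?_)
  have h1 := abs_inner_bs (x - y) i
  have h2 := abs_inner_bs (x - y) j
  have h3 : |⟪bs j, bs i⟫_ℝ| ≤ 1 := by
    have := abs_inner_bs (bs j) i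
    rwa [norm_bs] at this
  have h4 : |4 * a ^ 2 * (⟪x - y, bs i⟫_ℝ * ⟪x - y, bs j⟫_ℝ) - 2 * a * ⟪bs j, bs i⟫_ℝ| ≤
      4 * a ^ 2 * ‖x - y‖ ^ 2 + 2 * a := by
    refine (abs_sub _ _).trans ?_
    rw [abs_mul (4 * a ^ 2), abs_mul ⟪x - y, bs i⟫_ℝ, abs_mul (2 * a),
      abs_of_pos (show (0 : ℝ) < 4 * a ^ 2 by positivity),
      abs_of_pos (show (0 : ℝ) < 2 * a by positivity)]
    have h5 : |⟪x - y, bs i⟫_ℝ| * |⟪x - y, bs j⟫_ℝ| ≤ ‖x - y‖ ^ 2 := by
      rw [sq]; gcongr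
    have h6 : 2 * a * |⟪bs j, bs i⟫_ℝ| ≤ 2 * a * 1 := by gcongr
    have h7 : 4 * a ^ 2 * (|⟪x - y, bs i⟫_ℝ| * |⟪x - y, bs j⟫_ℝ|) ≤ 4 * a ^ 2 * ‖x - y‖ ^ 2 := by
      gcongr
    linarith
  rw [Real.norm_eq_abs, abs_mul, abs_of_pos (gs_pos a y x)]
  have h5 := mul_le_mul_of_nonneg_right h4 (gs_pos a y x).le
  refine h5.trans (le_of_eq ?_)
  simp only [Pi.add_apply]
  ring

/-- the second moment of the Gaussian -/
noncomputable def J1 : ℝ := ∫ z : E3, ‖z‖ ^ 2 * Real.exp (-(‖z‖ ^ 2))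

theorem J1_nonneg : 0 ≤ J1 := integral_nonneg fun z => by positivity

theorem scal {R : ℝ} (hR : 0 < R) (y : E3) :
    ∫ x : E3, ‖x - y‖ ^ 2 * gs ((R ^ 2)⁻¹) y x = R ^ 5 * J1 := by
  have h1 : ∫ x : E3, ‖x - y‖ ^ 2 * gs ((R ^ 2)⁻¹) y x =
      ∫ x : E3, ‖x‖ ^ 2 * Real.exp (-((R ^ 2)⁻¹ * ‖x‖ ^ 2)) :=
    integral_sub_right_eq_self (fun x : E3 => ‖x‖ ^ 2 * Real.exp (-((R ^ 2)⁻¹ * ‖x‖ ^ 2))) y
  rw [h1]
  have h2 := Measure.integral_comp_inv_smul_of_nonneg (volume : Measure E3)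
    (fun z : E3 => ‖z‖ ^ 2 * Real.exp (-(‖z‖ ^ 2))) hR.le
  have h3 : (fun x : E3 => ‖x‖ ^ 2 * Real.exp (-((R ^ 2)⁻¹ * ‖x‖ ^ 2))) =
      fun x : E3 => R ^ 2 * (‖R⁻¹ • x‖ ^ 2 * Real.exp (-(‖R⁻¹ • x‖ ^ 2))) := by
    funext x
    rw [norm_smul, Real.norm_of_nonneg (by positivity : (0 : ℝ) ≤ R⁻¹), mul_pow, inv_pow,
      ← mul_assoc, ← mul_assoc, mul_inv_cancel₀ (by positivity), one_mul]
  rw [h3, integral_const_mul, h2, finrank_euclideanSpace, Fintype.card_fin, smul_eq_mul]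
  unfold J1
  ring

end F07x

open F07x

theorem thm_F07 (hF02 : St_F02) (hF04 : St_F04) (hF05 : St_F05) : St_F07 := by
  intro pr S
  obtain ⟨c, C, hc, hC, h2⟩ := hF02 pr S
  refine ⟨576 * C ^ 2 * J1 / c + 1, ?_, ?_⟩
  · have := J1_nonneg
    positivity
  intro u hu y R hR
  have hu2 := (h2 Set.univ u isOpen_univ hu.flat (fun x _ => hu.size x)).2.2.2
  set a : ℝ := (R ^ 2)⁻¹ with ha
  have ha0 : 0 < a := by positivity
  have hgs : ∀ x, Real.exp (-(‖x - y‖ ^ 2 / R ^ 2)) = gs a y x := by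
    intro x
    unfold gs
    congr 2
    rw [ha, div_eq_mul_inv, mul_comm]
  have hint : Integrable (fun x => en pr u x * gs a y x) := by
    have h := (hF05 pr S u hu y R hR).1
    simpa only [hgs] using h
  have hb := (hF04 pr S u hu (gs a y) (gs_contDiff a y) (gs_int ha0 y) (fd_int ha0 y)
    (fd2_int ha0 y)).2
  set F : E3 → ℝ := fun x => ∑ k : Fin 3, (tu pr u k (k + 2) x * fderiv ℝ (gs a y) x (bs (k + 1)) -
      tu pr u k (k + 1) x * fderiv ℝ (gs a y) x (bs (k + 2))) with hF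
  have hFb : ∀ x, ‖2 * F x‖ ≤ 1 / 2 * (en pr u x * gs a y x) +
      288 * C ^ 2 * a ^ 2 / c * (‖x - y‖ ^ 2 * gs a y x) := by
    intro x
    obtain ⟨-, -, -, -, he1, -, ht, -, -, -⟩ := hu2 x trivial
    set D : ℝ := ‖fderiv ℝ u x‖ with hD
    have hD0 : 0 ≤ D := norm_nonneg _
    set r : ℝ := ‖x - y‖ with hr
    have hr0 : 0 ≤ r := norm_nonneg _
    have hg := gs_pos a y x
    have hterm : ∀ l b i, |tu pr u l b x * fderiv ℝ (gs a y) x (bs i)| ≤
        C * D * (2 * a * r * gs a y x) := by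
      intro l b i
      rw [abs_mul]
      exact mul_le_mul (ht l b) (fd_abs ha0 y x i) (abs_nonneg _) (by positivity)
    have hFx : |F x| ≤ 6 * (C * D * (2 * a * r * gs a y x)) := by
      rw [hF]
      refine (Finset.abs_sum_le_sum_abs _ _).trans ?_
      have h : ∀ k ∈ (Finset.univ : Finset (Fin 3)),
          |tu pr u k (k + 2) x * fderiv ℝ (gs a y) x (bs (k + 1)) -
            tu pr u k (k + 1) x * fderiv ℝ (gs a y) x (bs (k + 2))| ≤
          2 * (C * D * (2 * a * r * gs a y x)) := by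
        intro k _
        refine (abs_sub _ _).trans ?_
        linarith [hterm k (k + 2) (k + 1), hterm k (k + 1) (k + 2)]
      refine (Finset.sum_le_card_nsmul _ _ _ h).trans (le_of_eq ?_)
      rw [Finset.card_univ, Fintype.card_fin, nsmul_eq_mul]
      push_cast
      ring
    have hAG : 24 * C * a * r * D ≤ c / 2 * D ^ 2 + (24 * C * a * r) ^ 2 / (2 * c) := by
      have h := sq_nonneg (c * D - 24 * C * a * r)
      have h' : 24 * C * a * r * D * (2 * c) ≤ c / 2 * D ^ 2 * (2 * c) + (24 * C * a * r) ^ 2 := by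
        nlinarith
      rw [← sub_nonneg] at h' ⊢
      have h'' : c / 2 * D ^ 2 + (24 * C * a * r) ^ 2 / (2 * c) - 24 * C * a * r * D =
          (c / 2 * D ^ 2 * (2 * c) + (24 * C * a * r) ^ 2 - 24 * C * a * r * D * (2 * c)) /
            (2 * c) := by
        field_simp
      rw [h'']
      exact div_nonneg h' (by positivity)
    rw [norm_mul, Real.norm_eq_abs, Real.norm_eq_abs, abs_of_pos (show (0 : ℝ) < 2 by norm_num)]
    calc 2 * |F x| ≤ 2 * (6 * (C * D * (2 * a * r * gs a y x))) := by gcongr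
      _ = 24 * C * a * r * D * gs a y x := by ring
      _ ≤ (c / 2 * D ^ 2 + (24 * C * a * r) ^ 2 / (2 * c)) * gs a y x := by gcongr
      _ = 1 / 2 * (c * D ^ 2 * gs a y x) + 288 * C ^ 2 * a ^ 2 / c * (r ^ 2 * gs a y x) := by
          field_simp
          ring
      _ ≤ 1 / 2 * (en pr u x * gs a y x) + 288 * C ^ 2 * a ^ 2 / c * (r ^ 2 * gs a y x) := by
          gcongr
  have hbi : Integrable (fun x => 1 / 2 * (en pr u x * gs a y x) +
      288 * C ^ 2 * a ^ 2 / c * (‖x - y‖ ^ 2 * gs a y x)) :=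
    (hint.const_mul _).add ((sq_int ha0 y).const_mul _)
  have h3 := norm_integral_le_of_norm_le hbi (Filter.Eventually.of_forall hFb)
  rw [integral_add (hint.const_mul _) ((sq_int ha0 y).const_mul _), integral_const_mul,
    integral_const_mul, integral_const_mul] at h3
  have h4 : ∫ x, en pr u x * gs a y x ≤ 576 * C ^ 2 * J1 / c * R := by
    have h5 : ∫ x : E3, ‖x - y‖ ^ 2 * gs a y x = R ^ 5 * J1 := scal hR y
    have h6 := (le_abs_self _).trans h3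
    rw [← hb, h5] at h6
    have h7 : 288 * C ^ 2 * a ^ 2 / c * (R ^ 5 * J1) = 288 * C ^ 2 * J1 / c * R := by
      rw [ha]
      field_simp
    rw [h7] at h6
    have h8 : 576 * C ^ 2 * J1 / c * R = 2 * (288 * C ^ 2 * J1 / c * R) := by ring
    rw [h8]
    linarith
  unfold Phi
  have h9 : (fun x => en pr u x * Real.exp (-(‖x - y‖ ^ 2 / R ^ 2))) =
      fun x => en pr u x * gs a y x := by
    funext x; rw [hgs]
  rw [h9]
  calc R⁻¹ * ∫ x, en pr u x * gs a y x ≤ R⁻¹ * (576 * C ^ 2 * J1 / c * R) := by gcongr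
    _ = 576 * C ^ 2 * J1 / c := by field_simp
    _ ≤ 576 * C ^ 2 * J1 / c + 1 := by linarith

end Pool.Agent.FUE
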