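import Pool.Agent.FUE.StF

/-!
# Fueter sections: scaling (helper81)
-/

set_option autoImplicit false

open scoped Manifold ContDiff Matrix
open MeasureTheory

namespace Pool.Agent.FUE

namespace F09x

theorem toM_smul (ρ : ℝ) (H : V9) : toM (ρ • H) = ρ • toM H := by
  ext i j
  simp [toM]

theorem fueter_smul (pr : Profile) (P : Matrix (Fin 3) (Fin 3) ℝ)
    (H : Fin 3 → Matrix (Fin 3) (Fin 3) ℝ) (ρ : ℝ) (h : FueterPt pr P H) :
    FueterPt pr P (fun j => ρ • H j) := by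
  obtain ⟨R, s, g, h1, h2, h3, h4, h5⟩ := h
  refine ⟨R, s, fun j => ρ • g j, h1, h2, h3, fun j => ?_, ?_⟩
  · have e1 : ∑ k, (ρ • g j) k • Tb s k = ρ • ∑ k, g j k • Tb s k := by
      rw [Finset.smul_sum]
      exact Finset.sum_congr rfl fun k _ => by rw [Pi.smul_apply, smul_eq_mul, mul_smul]
    change ρ • H j = _
    rw [e1, h4 j, Matrix.mul_smul, Matrix.smul_mul]
  · have e1 : ∑ j, ∑ i, R j i • (Ic pr s i).mulVec (ρ • g j) =
        ρ • ∑ j, ∑ i, R j i • (Ic pr s i).mulVec (g j) := by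
      rw [Finset.smul_sum]
      refine Finset.sum_congr rfl fun j _ => ?_
      rw [Finset.smul_sum]
      exact Finset.sum_congr rfl fun i _ => by rw [Matrix.mulVec_smul, smul_comm]
    rw [e1, h5, smul_zero]

theorem th_smul (hA07 : St_A07) (pr : Profile) (P H : V9) (ρ : ℝ) (l : Fin 3) :
    th P pr (toM (ρ • H)) l = ρ * th P pr (toM H) l := by
  have h0 := hA07.2.1 pr P 0 0 1 l
  rw [one_smul, add_zero, one_mul] at h0
  have h1 := hA07.2.1 pr P 0 H ρ l
  rw [zero_add] at h1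
  linarith

theorem th_diff (hA07 : St_A07) (pr : Profile) (K : V9) (l : Fin 3) :
    Differentiable ℝ (fun Q : V9 => th Q pr (toM K) l) := by
  have h2 : ContDiff ℝ ∞ (fun Q : V9 => ((Q, K) : V9 × V9)) := contDiff_id.prodMk contDiff_const
  have h0 : ContDiff ℝ ∞ (fun p : V9 × V9 => th p.1 pr (toM p.2) l) := hA07.1 pr l
  generalize hg : (fun p : V9 × V9 => th p.1 pr (toM p.2) l) = g at h0
  have h1 : ContDiff ℝ ∞ (g ∘ fun Q : V9 => ((Q, K) : V9 × V9)) := h0.comp h2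
  have h3 : (g ∘ fun Q : V9 => ((Q, K) : V9 × V9)) = fun Q : V9 => th Q pr (toM K) l := by
    rw [← hg]
    rfl
  rw [h3] at h1
  exact h1.differentiable (by simp)

theorem om_smul (hA07 : St_A07) (pr : Profile) (P H H' : V9) (ρ : ℝ) (l : Fin 3) :
    om P pr l (ρ • H) (ρ • H') = ρ ^ 2 * om P pr l H H' := by
  have hd : ∀ K : V9, DifferentiableAt ℝ (fun Q : V9 => th Q pr (toM K) l) P := fun K =>
    th_diff hA07 pr K l P
  have he : ∀ K : V9, (fun Q : V9 => th Q pr (toM (ρ • K)) l) =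
      fun Q : V9 => ρ * th Q pr (toM K) l := fun K => funext fun Q => th_smul hA07 pr Q K ρ l
  unfold om
  rw [he, he, fderiv_const_mul (hd H'), fderiv_const_mul (hd H)]
  generalize fderiv ℝ (fun Q : V9 => th Q pr (toM H') l) P = L
  generalize fderiv ℝ (fun Q : V9 => th Q pr (toM H) l) P = L'
  rw [_root_.smul_apply, _root_.smul_apply, map_smul, map_smul, smul_eq_mul, smul_eq_mul,
    smul_eq_mul, smul_eq_mul]
  ring

theorem Gf_smul (hA07 : St_A07) (pr : Profile) (P : V9) (H : Fin 3 → V9) (ρ : ℝ) (i l : Fin 3) :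
    Gf P pr (fun j => ρ • H j) i l = ρ ^ 2 * Gf P pr H i l := by
  unfold Gf wf
  simp only [om_smul hA07]
  rw [← Finset.mul_sum]
  split_ifs <;> ring

theorem fd (u : E3 → V9) (hu : Differentiable ℝ u) (y : E3) (ρ : ℝ) (x : E3) :
    fderiv ℝ (fun x => u (y + ρ • x)) x = ρ • fderiv ℝ u (y + ρ • x) := by
  have h1 : HasFDerivAt (fun x : E3 => y + ρ • x) (ρ • ContinuousLinearMap.id ℝ E3) x :=
    ((hasFDerivAt_id x).const_smul ρ).const_add y
  have h2 : HasFDerivAt u (fderiv ℝ u (y + ρ • x)) (y + ρ • x) := (hu _).hasFDerivAt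
  have h3 := (h2.comp x h1).fderiv
  have h4 : (fderiv ℝ u (y + ρ • x)).comp (ρ • ContinuousLinearMap.id ℝ E3) =
      ρ • fderiv ℝ u (y + ρ • x) := by
    ext v
    simp
  rw [h4] at h3
  exact h3

theorem phi_eq (f g : E3 → ℝ) (y : E3) (ρ : ℝ) (hρ : 0 < ρ)
    (h : ∀ x, g x = ρ ^ 2 * f (y + ρ • x)) (z : E3) (R : ℝ) (hR : 0 < R) :
    R⁻¹ * ∫ x, g x * Real.exp (-(‖x - z‖ ^ 2 / R ^ 2)) =
      (ρ * R)⁻¹ * ∫ x, f x * Real.exp (-(‖x - (y + ρ • z)‖ ^ 2 / (ρ * R) ^ 2)) := by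
  set F : E3 → ℝ := fun x => f x * Real.exp (-(‖x - (y + ρ • z)‖ ^ 2 / (ρ * R) ^ 2)) with hF
  have e1 : ∀ x, g x * Real.exp (-(‖x - z‖ ^ 2 / R ^ 2)) = ρ ^ 2 * F (y + ρ • x) := by
    intro x
    have h1 : y + ρ • x - (y + ρ • z) = ρ • (x - z) := by
      rw [smul_sub]
      abel
    rw [h x, hF]
    simp only
    rw [h1, norm_smul, Real.norm_of_nonneg hρ.le, mul_pow, mul_pow,
      mul_div_mul_left _ _ (pow_ne_zero 2 hρ.ne')]
    ring
  have e2 : ∫ x, F (y + ρ • x) = (ρ ^ 3)⁻¹ * ∫ x, F x := by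
    have h1 := Measure.integral_comp_smul (volume : Measure E3) (fun x => F (y + x)) ρ
    rw [integral_add_left_eq_self] at h1
    have h2 : Module.finrank ℝ E3 = 3 := by simp
    rw [h2, abs_of_pos (by positivity), smul_eq_mul] at h1
    exact h1
  calc R⁻¹ * ∫ x, g x * Real.exp (-(‖x - z‖ ^ 2 / R ^ 2))
      = R⁻¹ * ∫ x, ρ ^ 2 * F (y + ρ • x) := by
        congr 1
        exact integral_congr_ae (Filter.Eventually.of_forall e1)
    _ = R⁻¹ * (ρ ^ 2 * ((ρ ^ 3)⁻¹ * ∫ x, F x)) := by rw [integral_const_mul, e2]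
    _ = (ρ * R)⁻¹ * ∫ x, F x := by
        field_simp

end F09x

open F09x in
theorem thm_F09 (hA07 : St_A07) (_hF02 : St_F02) : St_F09 := by
  intro pr S u y ρ hρ hu
  have hsm : ContDiff ℝ ∞ u := contDiffOn_univ.1 hu.flat.smooth
  have hdiff : Differentiable ℝ u := hsm.differentiable (by simp)
  have hfd : ∀ x, fderiv ℝ (fun x => u (y + ρ • x)) x = ρ • fderiv ℝ u (y + ρ • x) :=
    fd u hdiff y ρ
  have hdu : ∀ x, du (fun x => u (y + ρ • x)) x = fun j => ρ • du u (y + ρ • x) j := by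
    intro x
    funext j
    unfold du
    rw [hfd x]
    rfl
  have hgu : ∀ x i l, gu pr (fun x => u (y + ρ • x)) x i l = ρ ^ 2 * gu pr u (y + ρ • x) i l := by
    intro x i l
    unfold gu
    rw [hdu x]
    exact Gf_smul hA07 pr _ _ ρ i l
  have hen : ∀ x, en pr (fun x => u (y + ρ • x)) x = ρ ^ 2 * en pr u (y + ρ • x) := by
    intro x
    unfold en
    rw [Finset.mul_sum]
    exact Finset.sum_congr rfl fun i _ => hgu x i i
  refine ⟨⟨⟨?_, ?_, ?_⟩, ?_, ?_⟩, hfd, ?_, hen, ?_⟩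
  · have h1 : ContDiff ℝ ∞ (fun x => u (y + ρ • x)) :=
      hsm.comp (contDiff_const.add (contDiff_id.const_smul ρ))
    exact h1.contDiffOn
  · intro x _
    exact hu.flat.mem _ (Set.mem_univ _)
  · intro x _
    rw [hdu x]
    have h1 := fueter_smul pr _ _ ρ (hu.flat.eq (y + ρ • x) (Set.mem_univ _))
    simp only [toM_smul]
    exact h1
  · intro x
    exact hu.size _
  · obtain ⟨Λ, hΛ⟩ := hu.grad
    refine ⟨ρ * Λ, fun x => ?_⟩
    rw [hfd x, norm_smul, Real.norm_of_nonneg hρ.le]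
    exact mul_le_mul_of_nonneg_left (hΛ _) hρ.le
  · intro x v
    unfold gq
    rw [Finset.mul_sum]
    refine Finset.sum_congr rfl fun i _ => ?_
    rw [Finset.mul_sum]
    refine Finset.sum_congr rfl fun l _ => ?_
    rw [hgu x i l]
    ring
  · intro z R hR
    exact phi_eq (en pr u) _ y ρ hρ hen z R hR

end Pool.Agent.FUE
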