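import Pool.Agent.FUE.StF

/-!
# Fueter sections: [F10] the energy cannot concentrate on a line
-/

set_option autoImplicit false

open scoped Manifold ContDiff Matrix
open MeasureTheory

namespace Pool.Agent.FUE

namespace F10x

/-! ### the one-dimensional function -/

/-- `h (s) = ∫_{4 s}^{s} exp (-r ^ 2) dr` -/
noncomputable def hh (s : ℝ) : ℝ :=
  (∫ r in (0 : ℝ)..s, Real.exp (-(r ^ 2))) - ∫ r in (0 : ℝ)..(4 * s), Real.exp (-(r ^ 2))

/-- its derivative -/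
noncomputable def h1 (s : ℝ) : ℝ := Real.exp (-(s ^ 2)) - 4 * Real.exp (-(16 * s ^ 2))

/-- its second derivative -/
noncomputable def h2 (s : ℝ) : ℝ :=
  -(2 * s * Real.exp (-(s ^ 2))) + 128 * s * Real.exp (-(16 * s ^ 2))

lemma cont_g : Continuous (fun r : ℝ => Real.exp (-(r ^ 2))) := by fun_prop

lemma hd_g (s : ℝ) : HasDerivAt (fun s : ℝ => ∫ r in (0 : ℝ)..s, Real.exp (-(r ^ 2)))
    (Real.exp (-(s ^ 2))) s :=
  intervalIntegral.integral_hasDerivAt_right (cont_g.intervalIntegrable _ _)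
    (cont_g.stronglyMeasurableAtFilter _ _) cont_g.continuousAt

lemma hd_hh (s : ℝ) : HasDerivAt hh (h1 s) s := by
  have h4 : HasDerivAt (fun s : ℝ => 4 * s) 4 s := by
    simpa using (hasDerivAt_id s).const_mul (4 : ℝ)
  have hc : HasDerivAt (fun s : ℝ => ∫ r in (0 : ℝ)..(4 * s), Real.exp (-(r ^ 2)))
      (Real.exp (-((4 * s) ^ 2)) * 4) s :=
    HasDerivAt.comp (h₂ := fun s : ℝ => ∫ r in (0 : ℝ)..s, Real.exp (-(r ^ 2))) s (hd_g (4 * s)) h4
  have := (hd_g s).sub hc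
  have e : h1 s = Real.exp (-(s ^ 2)) - Real.exp (-((4 * s) ^ 2)) * 4 := by
    unfold h1
    rw [show (4 * s) ^ 2 = 16 * s ^ 2 by ring]
    ring
  rw [e]
  exact this

lemma hd_h1 (s : ℝ) : HasDerivAt h1 (h2 s) s := by
  have a1 : HasDerivAt (fun s : ℝ => -(s ^ 2)) (-(2 * s)) s := by
    simpa using ((hasDerivAt_pow 2 s).fun_neg)
  have a2 : HasDerivAt (fun s : ℝ => -(16 * s ^ 2)) (-(16 * (2 * s))) s := by
    simpa using (((hasDerivAt_pow 2 s).const_mul 16).fun_neg)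
  have := a1.exp.sub (a2.exp.const_mul 4)
  have e : h2 s = Real.exp (-(s ^ 2)) * -(2 * s) -
      4 * (Real.exp (-(16 * s ^ 2)) * -(16 * (2 * s))) := by
    unfold h2
    ring
  rw [e]
  exact this

lemma cd_h1 : ContDiff ℝ ∞ h1 := by
  unfold h1
  fun_prop

lemma cd_hh : ContDiff ℝ ∞ hh := by
  rw [contDiff_infty_iff_deriv]
  refine ⟨fun s => (hd_hh s).differentiableAt, ?_⟩
  have : deriv hh = h1 := funext fun s => (hd_hh s).deriv
  rw [this]
  exact cd_h1

lemma hh_le (s : ℝ) : |hh s| ≤ 3 * |s| * Real.exp (-(s ^ 2)) := by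
  have e : hh s = -∫ r in s..(4 * s), Real.exp (-(r ^ 2)) := by
    unfold hh
    rw [← intervalIntegral.integral_add_adjacent_intervals (a := (0 : ℝ)) (b := s) (c := 4 * s)
      (cont_g.intervalIntegrable _ _) (cont_g.intervalIntegrable _ _)]
    ring
  rw [e, abs_neg]
  have h := intervalIntegral.norm_integral_le_of_norm_le_const (a := s) (b := 4 * s)
    (C := Real.exp (-(s ^ 2))) (f := fun r : ℝ => Real.exp (-(r ^ 2))) (by
      intro r hr
      rw [Real.norm_eq_abs, abs_of_pos (Real.exp_pos _)]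
      apply Real.exp_le_exp.2
      rcases le_total 0 s with hs | hs
      · rw [Set.uIoc_of_le (by linarith)] at hr
        nlinarith [hr.1, hr.2]
      · rw [Set.uIoc_of_ge (by linarith)] at hr
        nlinarith [hr.1, hr.2])
  rw [Real.norm_eq_abs] at h
  have e2 : |4 * s - s| = 3 * |s| := by
    rw [show 4 * s - s = 3 * s by ring, abs_mul]
    norm_num
  rw [e2] at h
  linarith

lemma h1_le (s : ℝ) : |h1 s| ≤ 5 * Real.exp (-(s ^ 2)) := by
  have h : Real.exp (-(16 * s ^ 2)) ≤ Real.exp (-(s ^ 2)) :=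
    Real.exp_le_exp.2 (by nlinarith [sq_nonneg s])
  have p1 := Real.exp_pos (-(s ^ 2))
  have p2 := Real.exp_pos (-(16 * s ^ 2))
  unfold h1
  rw [abs_le]
  constructor <;> linarith

lemma h1_ge (s : ℝ) : -(4 * Real.exp (-(s ^ 2))) ≤ h1 s := by
  have h : Real.exp (-(16 * s ^ 2)) ≤ Real.exp (-(s ^ 2)) :=
    Real.exp_le_exp.2 (by nlinarith [sq_nonneg s])
  have p1 := Real.exp_pos (-(s ^ 2))
  unfold h1
  linarith

lemma h2_le (s : ℝ) : |h2 s| ≤ 130 * |s| * Real.exp (-(s ^ 2)) := by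
  have h : Real.exp (-(16 * s ^ 2)) ≤ Real.exp (-(s ^ 2)) :=
    Real.exp_le_exp.2 (by nlinarith [sq_nonneg s])
  have p1 := Real.exp_pos (-(s ^ 2))
  have p2 := Real.exp_pos (-(16 * s ^ 2))
  unfold h2
  calc |-(2 * s * Real.exp (-(s ^ 2))) + 128 * s * Real.exp (-(16 * s ^ 2))|
      ≤ |-(2 * s * Real.exp (-(s ^ 2)))| + |128 * s * Real.exp (-(16 * s ^ 2))| := abs_add_le _ _
    _ = 2 * |s| * Real.exp (-(s ^ 2)) + 128 * |s| * Real.exp (-(16 * s ^ 2)) := by
        rw [abs_neg, abs_mul, abs_mul, abs_mul, abs_mul, abs_of_pos p1, abs_of_pos p2]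
        norm_num
    _ ≤ 2 * |s| * Real.exp (-(s ^ 2)) + 128 * |s| * Real.exp (-(s ^ 2)) := by
        have := abs_nonneg s
        gcongr
    _ = 130 * |s| * Real.exp (-(s ^ 2)) := by ring

/-! ### Gaussian integrability -/

lemma int_gauss : Integrable (fun x : E3 => Real.exp (-(‖x‖ ^ 2 / 16))) := by
  have h := GaussianFourier.integrable_cexp_neg_mul_sq_norm_add (V := E3)
    (b := ((1 / 16 : ℝ) : ℂ)) (by simp) 0 0
  have h2 := h.norm
  refine h2.congr (Filter.Eventually.of_forall fun x => ?_)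
  simp only [Complex.norm_exp]
  congr 1
  simp only [zero_mul, add_zero, neg_mul, Complex.neg_re]
  rw [show (((1 / 16 : ℝ) : ℂ) * (‖x‖ : ℂ) ^ 2) = (((1 / 16 : ℝ) * ‖x‖ ^ 2 : ℝ) : ℂ) by push_cast; ring,
    Complex.ofReal_re]
  ring

lemma int_bound {f : E3 → ℝ} (hf : Continuous f) (B : ℝ)
    (h : ∀ x, |f x| ≤ B * Real.exp (-(‖x‖ ^ 2 / 16))) : Integrable f :=
  (int_gauss.const_mul B).mono' hf.aestronglyMeasurable
    (Filter.Eventually.of_forall fun x => by simpa using h x)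

/-- absorption of polynomials in the Gaussian -/
lemma absorb (n : ℝ) (hn : 0 ≤ n) :
    (1 + n) ^ 2 * Real.exp (-n) ≤ 5 * Real.exp (-(n / 16)) := by
  have h1 : (15 / 32 : ℝ) * (1 + n) ≤ Real.exp (15 / 32 * n) := by
    have := Real.add_one_le_exp (15 / 32 * n)
    linarith
  have h2 : (15 / 32 * (1 + n)) ^ 2 ≤ Real.exp (15 / 32 * n) ^ 2 := by
    apply pow_le_pow_left₀ _ h1
    positivity
  have h3 : Real.exp (15 / 32 * n) ^ 2 = Real.exp (15 / 16 * n) := by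
    rw [← Real.exp_nat_mul]
    congr 1
    push_cast
    ring
  rw [h3] at h2
  have h4 : Real.exp (-(n / 16)) = Real.exp (15 / 16 * n) * Real.exp (-n) := by
    rw [← Real.exp_add]
    congr 1
    ring
  rw [h4]
  have p := Real.exp_pos (-n)
  have p2 : (1 + n) ^ 2 ≤ 5 * Real.exp (15 / 16 * n) := by nlinarith [sq_nonneg (1 + n)]
  nlinarith

lemma absorb' (n : ℝ) (hn : 0 ≤ n) :
    n * Real.exp (-n) ≤ 2 * Real.exp (-(n / 16)) := by
  have h1 : (15 / 16 : ℝ) * n ≤ Real.exp (15 / 16 * n) := by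
    have := Real.add_one_le_exp (15 / 16 * n)
    linarith
  have h4 : Real.exp (-(n / 16)) = Real.exp (15 / 16 * n) * Real.exp (-n) := by
    rw [← Real.exp_add]
    congr 1
    ring
  rw [h4]
  have p := Real.exp_pos (-n)
  nlinarith [Real.exp_pos (15 / 16 * n)]

/-- the pointwise inequality of the second step -/
lemma young (r y ε : ℝ) (hr : 0 ≤ r) (hε : 0 < ε) :
    2 * Real.sqrt r * y ≤ ε⁻¹ * (y ^ 2 * (1 - Real.exp (-(15 * r)))) + ε * (1 + r) := by
  set z := 1 - Real.exp (-(15 * r)) with hz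
  have hx : Real.exp (-(15 * r)) * (1 + r) ≤ 1 := by
    have h1 : 1 + r ≤ Real.exp (15 * r) := by
      have := Real.add_one_le_exp (15 * r)
      linarith
    have h2 : Real.exp (-(15 * r)) * Real.exp (15 * r) = 1 := by
      rw [← Real.exp_add]
      simp
    have p := Real.exp_pos (-(15 * r))
    nlinarith
  have hz0 : r ≤ z * (1 + r) := by
    rw [hz]
    nlinarith
  have hz1 : 0 ≤ z := by
    rw [hz]
    have : Real.exp (-(15 * r)) ≤ 1 := Real.exp_le_one_iff.2 (by linarith)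
    linarith
  have hs : Real.sqrt r ^ 2 = r := Real.sq_sqrt hr
  have key : 2 * Real.sqrt r * y * ε ≤ y ^ 2 * z + ε ^ 2 * (1 + r) := by
    rcases eq_or_lt_of_le hz1 with h0 | h0
    · have hr0 : r = 0 := by
        rw [← h0] at hz0
        linarith
      rw [hr0, ← h0]
      simp
      positivity
    · -- multiply with `z`
      have h5 : 2 * Real.sqrt r * y * ε * z ≤ (y ^ 2 * z + ε ^ 2 * (1 + r)) * z := by
        have h6 : 0 ≤ (y * z - ε * Real.sqrt r) ^ 2 := sq_nonneg _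
        have h7 : ε ^ 2 * r ≤ ε ^ 2 * (z * (1 + r)) := by gcongr
        nlinarith
      exact le_of_mul_le_mul_right h5 h0
  have h8 : 2 * Real.sqrt r * y = ε⁻¹ * (2 * Real.sqrt r * y * ε) := by field_simp
  rw [h8]
  calc ε⁻¹ * (2 * Real.sqrt r * y * ε) ≤ ε⁻¹ * (y ^ 2 * z + ε ^ 2 * (1 + r)) := by gcongr
    _ = _ := by field_simp


/-! ### the test function -/

/-- the coordinate along `e` -/
noncomputable def qe (e x : E3) : ℝ := ∑ i, x i * e i

/-- the Gaussian transversal to `e` -/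
noncomputable def Qe (e x : E3) : ℝ := Real.exp (-(16 * (‖x‖ ^ 2 - qe e x ^ 2)))

/-- coordinates of the projection -/
noncomputable def xp (e x : E3) (i : Fin 3) : ℝ := x i - qe e x * e i

lemma qe_line (e x : E3) (t : ℝ) (j : Fin 3) : qe e (x + t • bs j) = qe e x + t * e j := by
  unfold qe bs
  fin_cases j <;> simp [Fin.sum_univ_three] <;> ring

lemma co_line (x : E3) (t : ℝ) (i j : Fin 3) :
    (x + t • bs j) i = x i + t * (if i = j then 1 else 0) := by
  unfold bs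
  simp

lemma nsq (x : E3) : ‖x‖ ^ 2 = x 0 ^ 2 + x 1 ^ 2 + x 2 ^ 2 := by
  rw [EuclideanSpace.real_norm_sq_eq, Fin.sum_univ_three]

lemma nsq_line (x : E3) (t : ℝ) (j : Fin 3) :
    ‖x + t • bs j‖ ^ 2 = ‖x‖ ^ 2 + 2 * t * x j + t ^ 2 := by
  rw [nsq, nsq, co_line, co_line, co_line]
  fin_cases j <;> simp <;> ring

lemma cd_qe (e : E3) : ContDiff ℝ ∞ (qe e) := by
  unfold qe
  fun_prop

lemma cd_Qe (e : E3) : ContDiff ℝ ∞ (Qe e) := by
  unfold Qe
  have := cd_qe e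
  exact Real.contDiff_exp.comp ((contDiff_const.mul ((contDiff_id.norm_sq ℝ).sub (this.pow 2))).neg)

lemma cd_xp (e : E3) (i : Fin 3) : ContDiff ℝ ∞ (fun x => xp e x i) := by
  unfold xp
  have := cd_qe e
  fun_prop

/-- the test function of the first step -/
noncomputable def chi (e x : E3) : ℝ := hh (qe e x) * Qe e x

/-- its derivatives -/
noncomputable def dchi (e : E3) (i : Fin 3) (x : E3) : ℝ :=
  h1 (qe e x) * Qe e x * e i - 32 * (hh (qe e x) * Qe e x) * xp e x i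

/-- second derivatives -/
noncomputable def ddchi (e : E3) (i j : Fin 3) (x : E3) : ℝ :=
  h2 (qe e x) * Qe e x * e i * e j - 32 * (h1 (qe e x) * Qe e x) * e i * xp e x j -
    32 * (h1 (qe e x) * Qe e x) * e j * xp e x i -
    32 * (hh (qe e x) * Qe e x) * ((if i = j then 1 else 0) - e i * e j) +
    1024 * (hh (qe e x) * Qe e x) * xp e x i * xp e x j

lemma cd_chi (e : E3) : ContDiff ℝ ∞ (chi e) := by
  unfold chi
  exact (cd_hh.comp (cd_qe e)).mul (cd_Qe e)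

lemma cd_dchi (e : E3) (i : Fin 3) : ContDiff ℝ ∞ (dchi e i) := by
  unfold dchi
  exact ((((cd_h1.comp (cd_qe e)).mul (cd_Qe e)).mul contDiff_const)).sub
    ((contDiff_const.mul ((cd_hh.comp (cd_qe e)).mul (cd_Qe e))).mul (cd_xp e i))

lemma fderiv_line {f : E3 → ℝ} (hf : ContDiff ℝ ∞ f) (x v : E3) (d : ℝ)
    (h : HasDerivAt (fun t : ℝ => f (x + t • v)) d 0) : fderiv ℝ f x v = d := by
  have h1 : DifferentiableAt ℝ f x := (hf.differentiable (by simp)) x
  rw [← h1.lineDeriv_eq_fderiv]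
  exact HasLineDerivAt.lineDeriv h

lemma hd_lin (a b : ℝ) : HasDerivAt (fun t : ℝ => a + t * b) b 0 := by
  simpa using ((hasDerivAt_id (0 : ℝ)).mul_const b).const_add a

/-- the transversal Gaussian along a line -/
lemma hd_Q (n q a b : ℝ) : HasDerivAt
    (fun t : ℝ => Real.exp (-(16 * (n + 2 * t * a + t ^ 2 - (q + t * b) ^ 2))))
    (Real.exp (-(16 * (n - q ^ 2))) * (-32 * (a - q * b))) 0 := by
  have h1 : HasDerivAt (fun t : ℝ => 2 * t * a) (2 * a) 0 := by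
    simpa using (((hasDerivAt_id (0 : ℝ)).const_mul 2).mul_const a)
  have h2 : HasDerivAt (fun t : ℝ => t ^ 2) 0 0 := by
    simpa using (hasDerivAt_pow 2 (0 : ℝ))
  have h3 : HasDerivAt (fun t : ℝ => (q + t * b) ^ 2) (2 * q * b) 0 := by
    simpa using (hd_lin q b).fun_pow 2
  have h4 := ((((h1.const_add n).add h2).sub h3).const_mul 16).fun_neg.exp
  refine (h4.congr_deriv ?_)
  simp
  ring_nf

lemma Qe_line (e x : E3) (t : ℝ) (j : Fin 3) : Qe e (x + t • bs j) =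
    Real.exp (-(16 * (‖x‖ ^ 2 + 2 * t * x j + t ^ 2 - (qe e x + t * e j) ^ 2))) := by
  unfold Qe
  rw [nsq_line, qe_line]

lemma hd_Qe (e x : E3) (j : Fin 3) :
    HasDerivAt (fun t : ℝ => Qe e (x + t • bs j)) (-32 * Qe e x * xp e x j) 0 := by
  have h := hd_Q (‖x‖ ^ 2) (qe e x) (x j) (e j)
  have e1 : (fun t : ℝ => Qe e (x + t • bs j)) = fun t : ℝ =>
    Real.exp (-(16 * (‖x‖ ^ 2 + 2 * t * x j + t ^ 2 - (qe e x + t * e j) ^ 2))) :=
    funext fun t => Qe_line e x t j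
  rw [e1]
  refine h.congr_deriv ?_
  unfold xp Qe
  ring

lemma hd_comp {f : ℝ → ℝ} {f' : ℝ → ℝ} (hf : ∀ s, HasDerivAt f (f' s) s) (e x : E3) (j : Fin 3) :
    HasDerivAt (fun t : ℝ => f (qe e (x + t • bs j))) (f' (qe e x) * e j) 0 := by
  have e1 : (fun t : ℝ => f (qe e (x + t • bs j))) = fun t : ℝ => f (qe e x + t * e j) :=
    funext fun t => by rw [qe_line]
  rw [e1]
  have h := hf (qe e x + 0 * e j)
  have := HasDerivAt.comp (0 : ℝ) h (hd_lin (qe e x) (e j))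
  simpa [Function.comp_def] using this

lemma hd_xp (e x : E3) (i j : Fin 3) : HasDerivAt (fun t : ℝ => xp e (x + t • bs j) i)
    ((if i = j then 1 else 0) - e i * e j) 0 := by
  have e1 : (fun t : ℝ => xp e (x + t • bs j) i) = fun t : ℝ =>
      xp e x i + t * ((if i = j then 1 else 0) - e i * e j) := funext fun t => by
    unfold xp
    rw [co_line, qe_line]
    ring
  rw [e1]
  exact hd_lin _ _

lemma fderiv_chi (e x : E3) (j : Fin 3) : fderiv ℝ (chi e) x (bs j) = dchi e j x := by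
  apply fderiv_line (cd_chi e)
  have h := (hd_comp hd_hh e x j).fun_mul (hd_Qe e x j)
  unfold chi
  refine h.congr_deriv ?_
  unfold dchi
  simp
  ring

lemma fderiv_dchi (e x : E3) (i j : Fin 3) : fderiv ℝ (dchi e i) x (bs j) = ddchi e i j x := by
  apply fderiv_line (cd_dchi e i)
  have hQ := hd_Qe e x j
  have hA := (((hd_comp hd_h1 e x j).fun_mul hQ).mul_const (e i)).fun_sub
    ((((hd_comp hd_hh e x j).fun_mul hQ).const_mul 32).fun_mul (hd_xp e x i j))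
  unfold dchi
  refine hA.congr_deriv ?_
  unfold ddchi
  simp
  ring


/-! ### bounds -/

lemma Qe_pos (e x : E3) : 0 < Qe e x := Real.exp_pos _

section bounds

variable {e : E3} (he : ‖e‖ = 1)

include he

lemma he_sum : e 0 ^ 2 + e 1 ^ 2 + e 2 ^ 2 = 1 := by
  rw [← nsq, he]
  norm_num

lemma xp_sum (x : E3) : xp e x 0 ^ 2 + xp e x 1 ^ 2 + xp e x 2 ^ 2 = ‖x‖ ^ 2 - qe e x ^ 2 := by
  have h := he_sum he
  rw [nsq]
  unfold xp
  have hq : qe e x = x 0 * e 0 + x 1 * e 1 + x 2 * e 2 := by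
    unfold qe
    rw [Fin.sum_univ_three]
  have : x 0 * e 0 + x 1 * e 1 + x 2 * e 2 - qe e x = 0 := by rw [hq]; ring
  linear_combination (-2 * qe e x) * this + qe e x ^ 2 * h

lemma r_nonneg (x : E3) : 0 ≤ ‖x‖ ^ 2 - qe e x ^ 2 := by
  rw [← xp_sum he]
  positivity

lemma abs_qe (x : E3) : |qe e x| ≤ ‖x‖ := by
  refine abs_le_of_sq_le_sq ?_ (norm_nonneg x)
  have := r_nonneg he x
  linarith

lemma abs_e (i : Fin 3) : |e i| ≤ 1 := by
  have h := he_sum he
  have h2 : e i ^ 2 ≤ 1 ^ 2 := by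
    have h3 : e i ^ 2 ≤ ∑ k, e k ^ 2 :=
      Finset.single_le_sum (f := fun k => e k ^ 2) (fun k _ => sq_nonneg _) (Finset.mem_univ i)
    rw [Fin.sum_univ_three, h] at h3
    linarith
  exact abs_le_of_sq_le_sq h2 (by norm_num : (0 : ℝ) ≤ 1)

lemma abs_xp (x : E3) (i : Fin 3) : |xp e x i| ≤ Real.sqrt (‖x‖ ^ 2 - qe e x ^ 2) := by
  apply Real.abs_le_sqrt
  rw [← xp_sum he]
  fin_cases i <;> simp <;> nlinarith [sq_nonneg (xp e x 0), sq_nonneg (xp e x 1), sq_nonneg (xp e x 2)]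

omit he in
lemma sqrt_le (x : E3) : Real.sqrt (‖x‖ ^ 2 - qe e x ^ 2) ≤ ‖x‖ := by
  apply Real.sqrt_le_iff.2 ⟨norm_nonneg x, ?_⟩
  nlinarith [sq_nonneg (qe e x)]

lemma Qe_le (x : E3) : Real.exp (-(qe e x ^ 2)) * Qe e x ≤ Real.exp (-(‖x‖ ^ 2)) := by
  unfold Qe
  rw [← Real.exp_add]
  apply Real.exp_le_exp.2
  have := r_nonneg he x
  nlinarith

lemma HH_le (x : E3) : |hh (qe e x) * Qe e x| ≤ 3 * |qe e x| * Real.exp (-(‖x‖ ^ 2)) := by
  rw [abs_mul, abs_of_pos (Qe_pos e x)]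
  have h1 := hh_le (qe e x)
  have h2 := Qe_le he x
  have h3 := Qe_pos e x
  calc |hh (qe e x)| * Qe e x ≤ (3 * |qe e x| * Real.exp (-(qe e x ^ 2))) * Qe e x := by gcongr
    _ = 3 * |qe e x| * (Real.exp (-(qe e x ^ 2)) * Qe e x) := by ring
    _ ≤ _ := by
      have := abs_nonneg (qe e x)
      gcongr

lemma H1_le (x : E3) : |h1 (qe e x) * Qe e x| ≤ 5 * Real.exp (-(‖x‖ ^ 2)) := by
  rw [abs_mul, abs_of_pos (Qe_pos e x)]
  have h1 := h1_le (qe e x)
  have h2 := Qe_le he x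
  have h3 := Qe_pos e x
  calc |F10x.h1 (qe e x)| * Qe e x ≤ (5 * Real.exp (-(qe e x ^ 2))) * Qe e x := by gcongr
    _ = 5 * (Real.exp (-(qe e x ^ 2)) * Qe e x) := by ring
    _ ≤ _ := by gcongr

lemma H2_le (x : E3) : |h2 (qe e x) * Qe e x| ≤ 130 * |qe e x| * Real.exp (-(‖x‖ ^ 2)) := by
  rw [abs_mul, abs_of_pos (Qe_pos e x)]
  have h1 := h2_le (qe e x)
  have h2 := Qe_le he x
  have h3 := Qe_pos e x
  calc |F10x.h2 (qe e x)| * Qe e x ≤ (130 * |qe e x| * Real.exp (-(qe e x ^ 2))) * Qe e x := by gcongr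
    _ = 130 * |qe e x| * (Real.exp (-(qe e x ^ 2)) * Qe e x) := by ring
    _ ≤ _ := by
      have := abs_nonneg (qe e x)
      gcongr

lemma chi_le (x : E3) : |chi e x| ≤ 15 * Real.exp (-(‖x‖ ^ 2 / 16)) := by
  have h := HH_le he x
  have h2 := abs_qe he x
  have h3 := absorb (‖x‖ ^ 2) (by positivity)
  have h4 : ‖x‖ ≤ (1 + ‖x‖ ^ 2) ^ 2 := by nlinarith [norm_nonneg x, sq_nonneg (‖x‖ - 1)]
  unfold chi
  have p := Real.exp_pos (-(‖x‖ ^ 2))
  calc |hh (qe e x) * Qe e x| ≤ 3 * |qe e x| * Real.exp (-(‖x‖ ^ 2)) := h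
    _ ≤ 3 * (1 + ‖x‖ ^ 2) ^ 2 * Real.exp (-(‖x‖ ^ 2)) := by
      have : |qe e x| ≤ (1 + ‖x‖ ^ 2) ^ 2 := h2.trans h4
      gcongr
    _ ≤ _ := by linarith

lemma dchi_le (i : Fin 3) (x : E3) : |dchi e i x| ≤ 505 * Real.exp (-(‖x‖ ^ 2 / 16)) := by
  have hH := HH_le he x
  have hH1 := H1_le he x
  have hq := abs_qe he x
  have hxi := (abs_xp he x i).trans (sqrt_le x)
  have hei := abs_e he i
  have h3 := absorb (‖x‖ ^ 2) (by positivity)
  have p := Real.exp_pos (-(‖x‖ ^ 2))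
  have n0 := norm_nonneg x
  unfold dchi
  set HH := hh (qe e x) * Qe e x with hHH
  set H1 := h1 (qe e x) * Qe e x with hH1'
  set E := Real.exp (-(‖x‖ ^ 2)) with hE
  have hH' : |HH| ≤ 3 * ‖x‖ * E := hH.trans (by gcongr)
  have t1 : |H1 * e i| ≤ 5 * E := by
    rw [abs_mul]
    calc |H1| * |e i| ≤ (5 * E) * 1 := by gcongr
      _ = _ := by ring
  have t2 : |32 * HH * xp e x i| ≤ 32 * (3 * ‖x‖ * E) * ‖x‖ := by
    rw [abs_mul, abs_mul, abs_of_pos (by norm_num : (0 : ℝ) < 32)]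
    gcongr
  have t3 : |H1 * e i - 32 * HH * xp e x i| ≤ 5 * E + 32 * (3 * ‖x‖ * E) * ‖x‖ :=
    (abs_sub _ _).trans (add_le_add t1 t2)
  have t4 : 5 * E + 32 * (3 * ‖x‖ * E) * ‖x‖ ≤ 101 * ((1 + ‖x‖ ^ 2) ^ 2 * E) := by
    have a1 : 1 ≤ (1 + ‖x‖ ^ 2) ^ 2 := by nlinarith [sq_nonneg ‖x‖]
    have a2 : ‖x‖ ^ 2 ≤ (1 + ‖x‖ ^ 2) ^ 2 := by nlinarith [sq_nonneg ‖x‖]
    nlinarith
  linarith

lemma ddchi_le (i j : Fin 3) (x : E3) :
    |ddchi e i j x| ≤ 20000 * Real.exp (-(‖x‖ ^ 2 / 16)) := by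
  have hH := HH_le he x
  have hH1 := H1_le he x
  have hH2 := H2_le he x
  have hq := abs_qe he x
  have hxi := (abs_xp he x i).trans (sqrt_le x)
  have hxj := (abs_xp he x j).trans (sqrt_le x)
  have hei := abs_e he i
  have hej := abs_e he j
  have h3 := absorb (‖x‖ ^ 2) (by positivity)
  have p := Real.exp_pos (-(‖x‖ ^ 2))
  have n0 := norm_nonneg x
  unfold ddchi
  set HH := hh (qe e x) * Qe e x with hHH
  set H1 := h1 (qe e x) * Qe e x with hH1'
  set H2 := h2 (qe e x) * Qe e x with hH2'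
  set E := Real.exp (-(‖x‖ ^ 2)) with hE
  have hH' : |HH| ≤ 3 * ‖x‖ * E := hH.trans (by gcongr)
  have hH2'' : |H2| ≤ 130 * ‖x‖ * E := hH2.trans (by gcongr)
  have t1 : |H2 * e i * e j| ≤ 130 * ‖x‖ * E := by
    rw [abs_mul, abs_mul]
    calc |H2| * |e i| * |e j| ≤ (130 * ‖x‖ * E) * 1 * 1 := by gcongr
      _ = _ := by ring
  have t2 : |32 * H1 * e i * xp e x j| ≤ 160 * ‖x‖ * E := by
    rw [abs_mul, abs_mul, abs_mul, abs_of_pos (by norm_num : (0 : ℝ) < 32)]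
    calc 32 * |H1| * |e i| * |xp e x j| ≤ 32 * (5 * E) * 1 * ‖x‖ := by gcongr
      _ = _ := by ring
  have t3 : |32 * H1 * e j * xp e x i| ≤ 160 * ‖x‖ * E := by
    rw [abs_mul, abs_mul, abs_mul, abs_of_pos (by norm_num : (0 : ℝ) < 32)]
    calc 32 * |H1| * |e j| * |xp e x i| ≤ 32 * (5 * E) * 1 * ‖x‖ := by gcongr
      _ = _ := by ring
  have hδ : |(if i = j then (1 : ℝ) else 0) - e i * e j| ≤ 2 := by
    have a1 : |(if i = j then (1 : ℝ) else 0)| ≤ 1 := by split_ifs <;> simp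
    have a2 : |e i * e j| ≤ 1 := by
      rw [abs_mul]
      calc |e i| * |e j| ≤ 1 * 1 := by gcongr
        _ = 1 := by norm_num
    have := abs_sub (if i = j then (1 : ℝ) else 0) (e i * e j)
    linarith
  have t4 : |32 * HH * ((if i = j then (1 : ℝ) else 0) - e i * e j)| ≤ 192 * ‖x‖ * E := by
    rw [abs_mul, abs_mul, abs_of_pos (by norm_num : (0 : ℝ) < 32)]
    calc 32 * |HH| * |(if i = j then (1 : ℝ) else 0) - e i * e j| ≤ 32 * (3 * ‖x‖ * E) * 2 := by
          gcongr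
      _ = _ := by ring
  have t5 : |1024 * HH * xp e x i * xp e x j| ≤ 3072 * ‖x‖ ^ 3 * E := by
    rw [abs_mul, abs_mul, abs_mul, abs_of_pos (by norm_num : (0 : ℝ) < 1024)]
    calc 1024 * |HH| * |xp e x i| * |xp e x j| ≤ 1024 * (3 * ‖x‖ * E) * ‖x‖ * ‖x‖ := by gcongr
      _ = _ := by ring
  have t6 : |H2 * e i * e j - 32 * H1 * e i * xp e x j - 32 * H1 * e j * xp e x i -
      32 * HH * ((if i = j then (1 : ℝ) else 0) - e i * e j) + 1024 * HH * xp e x i * xp e x j| ≤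
      130 * ‖x‖ * E + 160 * ‖x‖ * E + 160 * ‖x‖ * E + 192 * ‖x‖ * E + 3072 * ‖x‖ ^ 3 * E := by
    refine (abs_add_le _ _).trans (add_le_add ((abs_sub _ _).trans (add_le_add ((abs_sub _ _).trans
      (add_le_add ((abs_sub _ _).trans (add_le_add t1 t2)) t3)) t4)) t5)
  have t7 : 130 * ‖x‖ * E + 160 * ‖x‖ * E + 160 * ‖x‖ * E + 192 * ‖x‖ * E + 3072 * ‖x‖ ^ 3 * E ≤
      4000 * ((1 + ‖x‖ ^ 2) ^ 2 * E) := by
    have a1 : ‖x‖ ≤ (1 + ‖x‖ ^ 2) ^ 2 := by nlinarith [sq_nonneg (‖x‖ - 1)]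
    have a2 : ‖x‖ ^ 3 ≤ (1 + ‖x‖ ^ 2) ^ 2 := by
      nlinarith [sq_nonneg (‖x‖ - 1), sq_nonneg (‖x‖ ^ 2 - ‖x‖), mul_nonneg n0 n0]
    have b1 : ‖x‖ * E ≤ (1 + ‖x‖ ^ 2) ^ 2 * E := by gcongr
    have b2 : ‖x‖ ^ 3 * E ≤ (1 + ‖x‖ ^ 2) ^ 2 * E := by gcongr
    have b3 : 0 ≤ (1 + ‖x‖ ^ 2) ^ 2 * E := by positivity
    nlinarith
  linarith

lemma int_chi : Integrable (chi e) := int_bound (cd_chi e).continuous _ (chi_le he)

lemma int_dchi (i : Fin 3) : Integrable (fun x => fderiv ℝ (chi e) x (bs i)) := by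
  have : (fun x => fderiv ℝ (chi e) x (bs i)) = dchi e i := funext fun x => fderiv_chi e x i
  rw [this]
  exact int_bound (cd_dchi e i).continuous _ (dchi_le he i)

lemma int_ddchi (i j : Fin 3) :
    Integrable (fun x => fderiv ℝ (fun y => fderiv ℝ (chi e) y (bs i)) x (bs j)) := by
  have h1 : (fun x => fderiv ℝ (chi e) x (bs i)) = dchi e i := funext fun x => fderiv_chi e x i
  rw [h1]
  have : (fun x => fderiv ℝ (dchi e i) x (bs j)) = ddchi e i j :=
    funext fun x => fderiv_dchi e x i j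
  rw [this]
  refine int_bound ?_ _ (ddchi_le he i j)
  rw [← this]
  exact ((cd_dchi e i).continuous_fderiv (by simp)).clm_apply continuous_const

end bounds

/-! ### the Gaussian -/

/-- the Gaussian -/
noncomputable def gs (x : E3) : ℝ := Real.exp (-(‖x‖ ^ 2))

lemma cd_gs : ContDiff ℝ ∞ gs := by
  unfold gs
  exact Real.contDiff_exp.comp ((contDiff_id.norm_sq ℝ).neg)

lemma hd_gs (x : E3) (j : Fin 3) :
    HasDerivAt (fun t : ℝ => gs (x + t • bs j)) (-(2 * x j * gs x)) 0 := by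
  have e1 : (fun t : ℝ => gs (x + t • bs j)) = fun t : ℝ =>
      Real.exp (-(‖x‖ ^ 2 + 2 * t * x j + t ^ 2)) := funext fun t => by
    unfold gs
    rw [nsq_line]
  rw [e1]
  have h1 : HasDerivAt (fun t : ℝ => 2 * t * x j) (2 * x j) 0 := by
    simpa using (((hasDerivAt_id (0 : ℝ)).const_mul 2).mul_const (x j))
  have h2 : HasDerivAt (fun t : ℝ => t ^ 2) 0 0 := by
    simpa using (hasDerivAt_pow 2 (0 : ℝ))
  have h4 := ((h1.const_add (‖x‖ ^ 2)).fun_add h2).fun_neg.exp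
  refine (h4.congr_deriv ?_)
  unfold gs
  simp
  ring_nf

lemma fderiv_gs (x : E3) (j : Fin 3) : fderiv ℝ gs x (bs j) = -(2 * x j * gs x) :=
  fderiv_line cd_gs x (bs j) _ (hd_gs x j)

lemma gs_le (x : E3) : (1 + ‖x‖ ^ 2) * gs x ≤ 5 * Real.exp (-(‖x‖ ^ 2 / 16)) := by
  have h := absorb (‖x‖ ^ 2) (by positivity)
  have p : 0 < gs x := Real.exp_pos _
  have h2 : (1 + ‖x‖ ^ 2) * gs x ≤ (1 + ‖x‖ ^ 2) ^ 2 * gs x := by
    have : (1 + ‖x‖ ^ 2) ≤ (1 + ‖x‖ ^ 2) ^ 2 := by nlinarith [sq_nonneg ‖x‖]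
    gcongr
  exact h2.trans h

lemma int_gs : Integrable gs := by
  refine int_bound cd_gs.continuous 5 fun x => ?_
  have p : 0 < gs x := Real.exp_pos _
  rw [abs_of_pos p]
  have := gs_le x
  nlinarith [sq_nonneg ‖x‖]

lemma int_ngs : Integrable (fun x : E3 => (1 + ‖x‖ ^ 2) * gs x) := by
  refine int_bound ?_ 5 fun x => ?_
  · exact (continuous_const.add (continuous_norm.pow 2)).mul cd_gs.continuous
  have p : 0 < gs x := Real.exp_pos _
  rw [abs_of_nonneg (by positivity)]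
  exact gs_le x

lemma int_dgs (i : Fin 3) : Integrable (fun x => fderiv ℝ gs x (bs i)) := by
  refine int_bound ((cd_gs.continuous_fderiv (by simp)).clm_apply continuous_const) 5 fun x => ?_
  rw [fderiv_gs]
  have p : 0 < gs x := Real.exp_pos _
  have h := gs_le x
  rw [abs_neg, abs_mul, abs_of_pos p]
  have hx : |2 * x i| ≤ 1 + ‖x‖ ^ 2 := by
    have h1 : x i ^ 2 ≤ ‖x‖ ^ 2 := by
      rw [nsq]
      fin_cases i <;> simp <;> nlinarith [sq_nonneg (x 0), sq_nonneg (x 1), sq_nonneg (x 2)]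
    rw [abs_le]
    constructor <;> nlinarith [sq_nonneg (x i - 1), sq_nonneg (x i + 1)]
  calc |2 * x i| * gs x ≤ (1 + ‖x‖ ^ 2) * gs x := by gcongr
    _ ≤ _ := h

lemma int_mul {f g : E3 → ℝ} (hf : Continuous f) (B : ℝ) (hB : ∀ x, |f x| ≤ B)
    (hg : Integrable g) : Integrable (fun x => f x * g x) :=
  hg.bdd_mul hf.aestronglyMeasurable (Filter.Eventually.of_forall fun x => by simpa using hB x)

/-- the weight -/
noncomputable def kk (e x : E3) : ℝ := (1 - Real.exp (-(15 * (‖x‖ ^ 2 - qe e x ^ 2)))) * gs x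

lemma kk_eq (e x : E3) : kk e x = gs x - h1 (qe e x) * Qe e x - 4 * Real.exp (-(16 * ‖x‖ ^ 2)) := by
  have a1 : Real.exp (-(qe e x ^ 2)) * Qe e x =
      Real.exp (-(15 * (‖x‖ ^ 2 - qe e x ^ 2))) * gs x := by
    unfold Qe gs
    rw [← Real.exp_add, ← Real.exp_add]
    congr 1
    ring
  have a2 : Real.exp (-(16 * qe e x ^ 2)) * Qe e x = Real.exp (-(16 * ‖x‖ ^ 2)) := by
    unfold Qe
    rw [← Real.exp_add]
    congr 1
    ring
  unfold kk h1
  linear_combination a1 - 4 * a2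

/-! ### continuity of the pulled back one-forms -/

lemma lam_tt_ne (P : V9) : (lam P) ^ 2 - tt P ≠ 0 := by
  unfold lam tt
  have : 0 < (toM P).trace ^ 2 - ((toM P).trace - 2) := by
    nlinarith [sq_nonneg ((toM P).trace - 1 / 2)]
  exact this.ne'

lemma cont_tu (pr : Profile) (u : E3 → V9) (hu : ContDiff ℝ ∞ u) (l b : Fin 3) :
    Continuous (tu pr u l b) := by
  have h1 : Continuous u := hu.continuous
  have h2 : Continuous (fun x => du u x b) :=
    (hu.continuous_fderiv (by simp)).clm_apply continuous_const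
  have hP : Continuous (fun x => toM (u x)) := by
    unfold toM
    fun_prop
  have hH : Continuous (fun x => toM (du u x b)) := by
    unfold toM
    fun_prop
  have hlam : Continuous (fun x => lam (u x)) := by
    unfold lam
    fun_prop
  have htt : Continuous (fun x => tt (u x)) := by
    unfold tt
    fun_prop
  have hell : Continuous (fun x => ell (u x)) := by
    unfold ell
    exact (((hlam.pow 2).sub htt).inv₀ (fun x => lam_tt_ne (u x))).smul
      ((hP.matrix_mul hP).sub (htt.smul continuous_const))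
  have hal := pr.smooth_al.continuous
  have hbe := pr.smooth_be.continuous
  have hka := pr.smooth_ka.continuous
  have hZ : Continuous (fun x => Zz (u x)) := by
    unfold Zz
    fun_prop
  have hPp : Continuous (fun x => Pp (u x)) := by
    unfold Pp
    fun_prop
  have hXi : Continuous (fun x => Xi (u x) (toM (du u x b))) := by
    unfold Xi
    exact (((hlam.pow 2).sub htt).inv₀ (fun x => lam_tt_ne (u x))).smul (by fun_prop)
  have hax : ∀ A : E3 → Matrix (Fin 3) (Fin 3) ℝ, Continuous A → Continuous (fun x => ax (A x)) := by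
    intro A hA
    unfold ax
    fun_prop
  have hvv : Continuous (fun x => vv (u x) (toM (du u x b))) := by
    unfold vv
    exact hax _ (hXi.sub hXi.matrix_transpose)
  have hth : Continuous (fun x => th (u x) pr (toM (du u x b))) := by
    unfold th
    have hc := hax _ ((hZ.matrix_mul ((hPp.matrix_mul hH).matrix_mul hPp)).sub
      (((hPp.matrix_mul hH).matrix_mul hPp).matrix_mul hZ))
    have hm : Continuous (fun x => (Zz (u x)).mulVec (vv (u x) (toM (du u x b)))) :=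
      hZ.matrix_mulVec hvv
    fun_prop
  unfold tu
  fun_prop

/-! ### the argument -/

/-- `g(x_p, e)` -/
noncomputable def gb (pr : Profile) (u : E3 → V9) (e x : E3) : ℝ :=
  ∑ i, ∑ l, xp e x i * e l * gu pr u x i l

/-- the first integrand -/
noncomputable def J1 (pr : Profile) (u : E3 → V9) (e x : E3) : ℝ :=
  ∑ l, e l * ∑ i, wu pr u x l i * fderiv ℝ (chi e) x (bs i)

/-- the second integrand -/
noncomputable def J2 (pr : Profile) (u : E3 → V9) (e x : E3) : ℝ :=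
  ∑ l : Fin 3, ∑ i : Fin 3, e l * e i * (wu pr u x l i * gs x +
    (tu pr u l (i + 2) x * fderiv ℝ gs x (bs (i + 1)) -
      tu pr u l (i + 1) x * fderiv ℝ gs x (bs (i + 2))))

lemma J1_eq {pr : Profile} {u : E3 → V9} {e : E3} (he : ‖e‖ = 1) (x : E3)
    (hw : ∀ i l, wu pr u x l i = gu pr u x i l - (if i = l then en pr u x / 2 else 0)) :
    J1 pr u e x = (gq pr u x e - en pr u x / 2) * (h1 (qe e x) * Qe e x) -
      32 * (hh (qe e x) * Qe e x) * gb pr u e x := by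
  have h := he_sum he
  have hq : qe e x = x 0 * e 0 + x 1 * e 1 + x 2 * e 2 := by
    unfold qe
    rw [Fin.sum_univ_three]
  have hx : e 0 * xp e x 0 + e 1 * xp e x 1 + e 2 * xp e x 2 = 0 := by
    unfold xp
    linear_combination (-1 : ℝ) * hq - qe e x * h
  unfold J1 gq gb
  simp only [fderiv_chi, hw, dchi]
  generalize h1 (qe e x) * Qe e x = H1
  generalize hh (qe e x) * Qe e x = HH
  generalize en pr u x = E
  have hg : ∀ i l, ∃ g : ℝ, gu pr u x i l = g := fun i l => ⟨_, rfl⟩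
  obtain ⟨g00, h00⟩ := hg 0 0
  obtain ⟨g01, h01⟩ := hg 0 1
  obtain ⟨g02, h02⟩ := hg 0 2
  obtain ⟨g10, h10⟩ := hg 1 0
  obtain ⟨g11, h11⟩ := hg 1 1
  obtain ⟨g12, h12⟩ := hg 1 2
  obtain ⟨g20, h20⟩ := hg 2 0
  obtain ⟨g21, h21⟩ := hg 2 1
  obtain ⟨g22, h22⟩ := hg 2 2
  simp only [Fin.sum_univ_three, h00, h01, h02, h10, h11, h12, h20, h21, h22]
  simp
  linear_combination (-(E / 2) * H1) * h + (32 * HH * (E / 2)) * hx


lemma J2_eq {pr : Profile} {u : E3 → V9} {e : E3} (he : ‖e‖ = 1) (x : E3)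
    (hw : ∀ i l, wu pr u x l i = gu pr u x i l - (if i = l then en pr u x / 2 else 0)) :
    J2 pr u e x = (gq pr u x e - en pr u x / 2) * gs x -
      2 * gs x * ∑ i : Fin 3, e i * ((∑ l, e l * tu pr u l (i + 2) x) * xp e x (i + 1) -
        (∑ l, e l * tu pr u l (i + 1) x) * xp e x (i + 2)) := by
  have h := he_sum he
  unfold J2 gq
  simp only [fderiv_gs, hw]
  generalize gs x = G
  generalize en pr u x = E
  have hg : ∀ i l, ∃ g : ℝ, gu pr u x i l = g := fun i l => ⟨_, rfl⟩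
  obtain ⟨g00, h00⟩ := hg 0 0
  obtain ⟨g01, h01⟩ := hg 0 1
  obtain ⟨g02, h02⟩ := hg 0 2
  obtain ⟨g10, h10⟩ := hg 1 0
  obtain ⟨g11, h11⟩ := hg 1 1
  obtain ⟨g12, h12⟩ := hg 1 2
  obtain ⟨g20, h20⟩ := hg 2 0
  obtain ⟨g21, h21⟩ := hg 2 1
  obtain ⟨g22, h22⟩ := hg 2 2
  have ht : ∀ i l, ∃ g : ℝ, tu pr u i l x = g := fun i l => ⟨_, rfl⟩
  obtain ⟨t00, k00⟩ := ht 0 0
  obtain ⟨t01, k01⟩ := ht 0 1
  obtain ⟨t02, k02⟩ := ht 0 2
  obtain ⟨t10, k10⟩ := ht 1 0
  obtain ⟨t11, k11⟩ := ht 1 1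
  obtain ⟨t12, k12⟩ := ht 1 2
  obtain ⟨t20, k20⟩ := ht 2 0
  obtain ⟨t21, k21⟩ := ht 2 1
  obtain ⟨t22, k22⟩ := ht 2 2
  have c1 : (0 : Fin 3) + 1 = 1 := rfl
  have c2 : (0 : Fin 3) + 2 = 2 := rfl
  have c3 : (1 : Fin 3) + 1 = 2 := rfl
  have c4 : (1 : Fin 3) + 2 = 0 := rfl
  have c5 : (2 : Fin 3) + 1 = 0 := rfl
  have c6 : (2 : Fin 3) + 2 = 1 := rfl
  unfold xp
  simp only [Fin.sum_univ_three, c1, c2, c3, c4, c5, c6, h00, h01, h02, h10, h11, h12, h20, h21, h22,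
    k00, k01, k02, k10, k11, k12, k20, k21, k22]
  simp
  linear_combination (-(E / 2) * G) * h

/-- All pointwise facts on `u` that are used. -/
structure Ctx (pr : Profile) (c C B : ℝ) (u : E3 → V9) : Prop where
  cgu : ∀ i l, Continuous (fun x => gu pr u x i l)
  cen : Continuous (en pr u)
  cwu : ∀ i l, Continuous (fun x => wu pr u x l i)
  ctu : ∀ l b, Continuous (tu pr u l b)
  hw : ∀ x i l, wu pr u x l i = gu pr u x i l - (if i = l then en pr u x / 2 else 0)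
  hgq : ∀ x (v : E3), 0 ≤ gq pr u x v
  hgq' : ∀ x (v : E3), gq pr u x v ≤ ‖v‖ ^ 2 * en pr u x
  hen : ∀ x, c * ‖fderiv ℝ u x‖ ^ 2 ≤ en pr u x
  htu : ∀ x l b, |tu pr u l b x| ≤ C * ‖fderiv ℝ u x‖
  hcs : ∀ x (v w : E3), |∑ i, ∑ l, v i * w l * gu pr u x i l| ^ 2 ≤ gq pr u x v * gq pr u x w
  hB : ∀ x, en pr u x ≤ B
  hD : ∀ x, ‖fderiv ℝ u x‖ ≤ B

/-- the projection as a vector -/
noncomputable def xpv (e x : E3) : E3 := x - qe e x • e

lemma xpv_apply (e x : E3) (i : Fin 3) : xpv e x i = xp e x i := by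
  unfold xpv xp
  simp

lemma xpv_norm {e : E3} (he : ‖e‖ = 1) (x : E3) : ‖xpv e x‖ ^ 2 = ‖x‖ ^ 2 - qe e x ^ 2 := by
  rw [nsq, xpv_apply, xpv_apply, xpv_apply, xp_sum he]

section step

variable {pr : Profile} {c C B : ℝ} {u : E3 → V9} (hc : 0 < c) (hC : 0 < C) (K : Ctx pr c C B u)
  {e : E3} (he : ‖e‖ = 1)

include K

include hc in
lemma en_nonneg (x : E3) : 0 ≤ en pr u x := le_trans (by positivity) (K.hen x)

include he in
lemma gqe_le (x : E3) : gq pr u x e ≤ en pr u x := by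
  have := K.hgq' x e
  rw [he] at this
  linarith

include he in
lemma gb_le (x : E3) : |gb pr u e x| ^ 2 ≤
    (‖x‖ ^ 2 - qe e x ^ 2) * en pr u x * gq pr u x e := by
  have h := K.hcs x (xpv e x) e
  have h2 := K.hgq' x (xpv e x)
  rw [xpv_norm he] at h2
  have h3 := K.hgq x e
  unfold gb
  simp only [xpv_apply] at h
  calc _ ≤ gq pr u x (xpv e x) * gq pr u x e := h
    _ ≤ _ := by gcongr

include hc he in
/-- the pointwise inequality of the first step -/
lemma point1 (x : E3) (η : ℝ) (hη : 0 < η) :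
    en pr u x * kk e x ≤ en pr u x * gs x - 4 * (en pr u x * Real.exp (-(16 * ‖x‖ ^ 2))) +
      2 * J1 pr u e x + 10 * (gq pr u x e * Real.exp (-(‖x‖ ^ 2 / 16))) +
      192 * ((η ^ 2)⁻¹ * (gq pr u x e * Real.exp (-(‖x‖ ^ 2 / 16))) +
        η ^ 2 * (en pr u x * Real.exp (-(‖x‖ ^ 2 / 16)))) := by
  have hE := en_nonneg hc K x
  have hg := K.hgq x e
  have hH1 := H1_le he x
  have hHH := HH_le he x
  have hb := gb_le K he x
  have hr := r_nonneg he x
  have ab := absorb' (‖x‖ ^ 2) (by positivity)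
  have pN : 0 < Real.exp (-(‖x‖ ^ 2)) := Real.exp_pos _
  have pN2 : Real.exp (-(‖x‖ ^ 2)) ≤ Real.exp (-(‖x‖ ^ 2 / 16)) :=
    Real.exp_le_exp.2 (by nlinarith [sq_nonneg ‖x‖])
  rw [kk_eq, J1_eq he x (K.hw x)]
  set E := en pr u x
  set g := gq pr u x e
  set b := gb pr u e x
  set H1 := h1 (qe e x) * Qe e x
  set HH := hh (qe e x) * Qe e x
  set q := qe e x
  set n := ‖x‖ ^ 2 with hn
  have hn0 : 0 ≤ n := by positivity
  set EN := Real.exp (-(n / 16))
  set N := Real.exp (-n)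
  set A := (η ^ 2)⁻¹ * g + η ^ 2 * E with hA
  have hη2 : 0 < η ^ 2 := by positivity
  have hA0 : 0 ≤ A := by positivity
  have hA4 : 4 * (E * g) ≤ A ^ 2 := by
    have h1 : 0 ≤ ((η ^ 2)⁻¹ * g - η ^ 2 * E) ^ 2 := sq_nonneg _
    have h2 : (η ^ 2)⁻¹ * η ^ 2 = 1 := inv_mul_cancel₀ hη2.ne'
    have h3 : A ^ 2 = ((η ^ 2)⁻¹ * g - η ^ 2 * E) ^ 2 + 4 * ((η ^ 2)⁻¹ * η ^ 2) * (E * g) := by
      rw [hA]
      ring
    rw [h3, h2]
    linarith
  have hqb : |q| * |b| ≤ n * A / 2 := by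
    refine (pow_le_pow_iff_left₀ (by positivity) (by positivity) two_ne_zero).1 ?_
    have h1 : (|q| * |b|) ^ 2 = q ^ 2 * |b| ^ 2 := by rw [mul_pow, sq_abs]
    have h2 : q ^ 2 * |b| ^ 2 ≤ q ^ 2 * ((n - q ^ 2) * E * g) := by gcongr
    have h3 : q ^ 2 * (n - q ^ 2) ≤ n ^ 2 := by nlinarith [sq_nonneg q, sq_nonneg (q ^ 2)]
    have h4 : q ^ 2 * ((n - q ^ 2) * E * g) ≤ n ^ 2 * (E * g) := by
      have : q ^ 2 * ((n - q ^ 2) * E * g) = (q ^ 2 * (n - q ^ 2)) * (E * g) := by ring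
      rw [this]
      gcongr
    have h5 : n ^ 2 * (E * g) ≤ (n * A / 2) ^ 2 := by
      have : (n * A / 2) ^ 2 = n ^ 2 * (A ^ 2 / 4) := by ring
      rw [this]
      have h6 : E * g ≤ A ^ 2 / 4 := by linarith
      gcongr
    rw [h1]
    linarith
  have h64 : |64 * HH * b| ≤ 192 * (EN * A) := by
    rw [abs_mul, abs_mul, abs_of_pos (by norm_num : (0 : ℝ) < 64)]
    calc 64 * |HH| * |b| ≤ 64 * (3 * |q| * N) * |b| := by gcongr
      _ = 192 * N * (|q| * |b|) := by ring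
      _ ≤ 192 * N * (n * A / 2) := by gcongr
      _ = 96 * (n * N) * A := by ring
      _ ≤ 96 * (2 * EN) * A := by gcongr
      _ = _ := by ring
  have hgH : |2 * g * H1| ≤ 10 * (g * EN) := by
    rw [abs_mul, abs_mul, abs_of_pos (by norm_num : (0 : ℝ) < 2), abs_of_nonneg hg]
    calc 2 * g * |H1| ≤ 2 * g * (5 * N) := by gcongr
      _ ≤ 2 * g * (5 * EN) := by gcongr
      _ = _ := by ring
  have k1 := (abs_le.1 h64).2
  have k2 := (abs_le.1 hgH).1
  have k3 : 192 * (EN * A) = 192 * ((η ^ 2)⁻¹ * (g * EN) + η ^ 2 * (E * EN)) := by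
    rw [hA]
    ring
  nlinarith

include he in
lemma tau_le (x : E3) (b : Fin 3) : |∑ l, e l * tu pr u l b x| ≤ 3 * (C * ‖fderiv ℝ u x‖) := by
  rw [Fin.sum_univ_three]
  have h : ∀ l, |e l * tu pr u l b x| ≤ C * ‖fderiv ℝ u x‖ := fun l => by
    rw [abs_mul]
    calc |e l| * |tu pr u l b x| ≤ 1 * |tu pr u l b x| := by
          gcongr
          exact abs_e he l
      _ = |tu pr u l b x| := one_mul _
      _ ≤ _ := K.htu x l b
  have h0 := h 0
  have h1 := h 1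
  have h2 := h 2
  have a1 := abs_add_le (e 0 * tu pr u 0 b x + e 1 * tu pr u 1 b x) (e 2 * tu pr u 2 b x)
  have a2 := abs_add_le (e 0 * tu pr u 0 b x) (e 1 * tu pr u 1 b x)
  linarith

include hc hC he in
/-- the pointwise inequality of the second step -/
lemma point2 (x : E3) (η : ℝ) (hη : 0 < η) :
    en pr u x * gs x ≤ 2 * (gq pr u x e * Real.exp (-(‖x‖ ^ 2 / 16))) - 2 * J2 pr u e x +
      36 * C / Real.sqrt c * (η⁻¹ * (en pr u x * kk e x) + η * ((1 + ‖x‖ ^ 2) * gs x)) := by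
  have hE := en_nonneg hc K x
  have hg := K.hgq x e
  have hr := r_nonneg he x
  have hτ := tau_le K he x
  have hxp := abs_xp he x
  have hei := abs_e he
  have pG : 0 < gs x := Real.exp_pos _
  have pN2 : gs x ≤ Real.exp (-(‖x‖ ^ 2 / 16)) :=
    Real.exp_le_exp.2 (by nlinarith [sq_nonneg ‖x‖])
  have hsc : 0 < Real.sqrt c := Real.sqrt_pos.2 hc
  have hsc2 : Real.sqrt c ^ 2 = c := Real.sq_sqrt hc.le
  have hDE := K.hen x
  have hsr : 0 ≤ Real.sqrt (‖x‖ ^ 2 - qe e x ^ 2) := Real.sqrt_nonneg _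
  have hY := young (‖x‖ ^ 2 - qe e x ^ 2) (Real.sqrt c * ‖fderiv ℝ u x‖) η hr hη
  have hz : 0 ≤ 1 - Real.exp (-(15 * (‖x‖ ^ 2 - qe e x ^ 2))) := by
    have : Real.exp (-(15 * (‖x‖ ^ 2 - qe e x ^ 2))) ≤ 1 := Real.exp_le_one_iff.2 (by linarith)
    linarith
  rw [J2_eq he x (K.hw x)]
  have hD : |∑ i : Fin 3, e i * ((∑ l, e l * tu pr u l (i + 2) x) * xp e x (i + 1) -
        (∑ l, e l * tu pr u l (i + 1) x) * xp e x (i + 2))| ≤
      18 * (C * ‖fderiv ℝ u x‖) * Real.sqrt (‖x‖ ^ 2 - qe e x ^ 2) := by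
    have hD0 := norm_nonneg (fderiv ℝ u x)
    have h : ∀ i : Fin 3, |e i * ((∑ l, e l * tu pr u l (i + 2) x) * xp e x (i + 1) -
        (∑ l, e l * tu pr u l (i + 1) x) * xp e x (i + 2))| ≤
        6 * (C * ‖fderiv ℝ u x‖) * Real.sqrt (‖x‖ ^ 2 - qe e x ^ 2) := fun i => by
      rw [abs_mul]
      have t : ∀ a b : Fin 3, |(∑ l, e l * tu pr u l a x) * xp e x b| ≤
          3 * (C * ‖fderiv ℝ u x‖) * Real.sqrt (‖x‖ ^ 2 - qe e x ^ 2) := fun a b => by
        rw [abs_mul]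
        have h1 := hτ a
        have h2 := hxp b
        gcongr
      calc |e i| * |(∑ l, e l * tu pr u l (i + 2) x) * xp e x (i + 1) -
            (∑ l, e l * tu pr u l (i + 1) x) * xp e x (i + 2)|
          ≤ 1 * |(∑ l, e l * tu pr u l (i + 2) x) * xp e x (i + 1) -
            (∑ l, e l * tu pr u l (i + 1) x) * xp e x (i + 2)| := by
              have := hei i
              gcongr
        _ ≤ 1 * (3 * (C * ‖fderiv ℝ u x‖) * Real.sqrt (‖x‖ ^ 2 - qe e x ^ 2) +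
            3 * (C * ‖fderiv ℝ u x‖) * Real.sqrt (‖x‖ ^ 2 - qe e x ^ 2)) := by
              have := (abs_sub _ _).trans (add_le_add (t (i + 2) (i + 1)) (t (i + 1) (i + 2)))
              gcongr
        _ = _ := by ring
    calc _ ≤ ∑ i : Fin 3, |e i * ((∑ l, e l * tu pr u l (i + 2) x) * xp e x (i + 1) -
        (∑ l, e l * tu pr u l (i + 1) x) * xp e x (i + 2))| := Finset.abs_sum_le_sum_abs _ _
      _ ≤ ∑ i : Fin 3, 6 * (C * ‖fderiv ℝ u x‖) * Real.sqrt (‖x‖ ^ 2 - qe e x ^ 2) :=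
        Finset.sum_le_sum fun i _ => h i
      _ = _ := by
        rw [Finset.sum_const]
        simp
        ring
  have hkk : kk e x = (1 - Real.exp (-(15 * (‖x‖ ^ 2 - qe e x ^ 2)))) * gs x := rfl
  rw [hkk]
  generalize (∑ i : Fin 3, e i * ((∑ l, e l * tu pr u l (i + 2) x) * xp e x (i + 1) -
        (∑ l, e l * tu pr u l (i + 1) x) * xp e x (i + 2))) = D at hD ⊢
  set Z := 1 - Real.exp (-(15 * (‖x‖ ^ 2 - qe e x ^ 2)))
  set R := Real.sqrt (‖x‖ ^ 2 - qe e x ^ 2)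
  set F := ‖fderiv ℝ u x‖ with hF
  have hF0 : 0 ≤ F := norm_nonneg _
  set E := en pr u x
  set G := gs x
  set g := gq pr u x e
  set EN := Real.exp (-(‖x‖ ^ 2 / 16))
  set n := ‖x‖ ^ 2 with hn
  have hn0 : 0 ≤ n := by positivity
  -- the estimate of the last term
  have k1 : 2 * R * (Real.sqrt c * F) ≤ η⁻¹ * (E * Z) + η * (1 + n) := by
    have h1 : (Real.sqrt c * F) ^ 2 * Z ≤ E * Z := by
      have : (Real.sqrt c * F) ^ 2 = c * F ^ 2 := by rw [mul_pow, hsc2]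
      rw [this]
      gcongr
    have h2 : η⁻¹ * ((Real.sqrt c * F) ^ 2 * Z) ≤ η⁻¹ * (E * Z) := by gcongr
    have h3 : η * (1 + (n - qe e x ^ 2)) ≤ η * (1 + n) := by
      have := sq_nonneg (qe e x)
      gcongr
      linarith
    linarith
  have k2 : 72 * (C * F) * R = 36 * C / Real.sqrt c * (2 * R * (Real.sqrt c * F)) := by
    field_simp
    ring
  have k3 : 72 * (C * F) * R * G ≤
      36 * C / Real.sqrt c * (η⁻¹ * (E * (Z * G)) + η * ((1 + n) * G)) := by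
    rw [k2]
    calc 36 * C / Real.sqrt c * (2 * R * (Real.sqrt c * F)) * G
        ≤ 36 * C / Real.sqrt c * (η⁻¹ * (E * Z) + η * (1 + n)) * G := by gcongr
      _ = _ := by ring
  have k4 : -(4 * G * D) ≤ 72 * (C * F) * R * G := by
    have h1 := (abs_le.1 hD).1
    have h2 : -D ≤ 18 * (C * F) * R := by linarith
    have h3 : 4 * G * (-D) ≤ 4 * G * (18 * (C * F) * R) := by gcongr
    linarith
  have k5 : g * G ≤ g * EN := by gcongr
  have k6 : 2 * ((g - E / 2) * G - 2 * G * D) = 2 * (g * G) - E * G - 4 * G * D := by ring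
  linarith


/-! ### integrals -/

include hc in
lemma int_en {g : E3 → ℝ} (hg : Integrable g) : Integrable (fun x => en pr u x * g x) :=
  int_mul K.cen B (fun x => by
    rw [abs_of_nonneg (en_nonneg hc K x)]
    exact K.hB x) hg

lemma cont_gq : Continuous (fun x => gq pr u x e) := by
  unfold gq
  have := K.cgu
  fun_prop

include he in
lemma int_gq {g : E3 → ℝ} (hg : Integrable g) : Integrable (fun x => gq pr u x e * g x) :=
  int_mul (cont_gq K) B (fun x => by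
    rw [abs_of_nonneg (K.hgq x e)]
    exact (gqe_le K he x).trans (K.hB x)) hg

include hc in
lemma gu_le (x : E3) (i l : Fin 3) : |gu pr u x i l| ≤ B := by
  have h := K.hcs x (bs i) (bs l)
  have h1 : ∑ i', ∑ l', (bs i) i' * (bs l) l' * gu pr u x i' l' = gu pr u x i l := by
    unfold bs
    fin_cases i <;> fin_cases l <;> simp
  rw [h1] at h
  have n1 : ∀ k : Fin 3, ‖(bs k : E3)‖ ^ 2 = 1 := fun k => by
    unfold bs
    simp
  have h2 := K.hgq' x (bs i)
  have h3 := K.hgq' x (bs l)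
  rw [n1] at h2 h3
  have h4 := K.hgq x (bs i)
  have h5 := K.hgq x (bs l)
  have h6 := en_nonneg hc K x
  have h7 : |gu pr u x i l| ^ 2 ≤ en pr u x ^ 2 := by nlinarith
  have h8 : |gu pr u x i l| ≤ en pr u x :=
    (pow_le_pow_iff_left₀ (by positivity) h6 two_ne_zero).1 h7
  exact h8.trans (K.hB x)

include hc in
lemma wu_le (x : E3) (i l : Fin 3) : |wu pr u x l i| ≤ 2 * B := by
  rw [K.hw]
  have h := gu_le hc K x i l
  have h6 := en_nonneg hc K x
  have h7 := K.hB x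
  have h8 : |(if i = l then en pr u x / 2 else 0)| ≤ B := by
    split_ifs
    · rw [abs_of_nonneg (by positivity)]
      linarith
    · simp
      linarith
  exact (abs_sub _ _).trans (by linarith)

include hc in
lemma int_wu {g : E3 → ℝ} (hg : Integrable g) (i l : Fin 3) :
    Integrable (fun x => wu pr u x l i * g x) :=
  int_mul (K.cwu i l) (2 * B) (fun x => wu_le hc K x i l) hg

include hC in
lemma int_tu {g : E3 → ℝ} (hg : Integrable g) (l b : Fin 3) :
    Integrable (fun x => tu pr u l b x * g x) :=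
  int_mul (K.ctu l b) (C * B) (fun x => (K.htu x l b).trans (by
    have := K.hD x
    gcongr)) hg

include hc he in
lemma int_J1 : Integrable (J1 pr u e) := by
  unfold J1
  refine integrable_finsetSum _ fun l _ => Integrable.const_mul ?_ _
  exact integrable_finsetSum _ fun i _ => int_wu hc K (int_dchi he i) i l

include hc he in
lemma integral_J1 (h : ∀ l, ∫ x, ∑ i, wu pr u x l i * fderiv ℝ (chi e) x (bs i) = 0) :
    ∫ x, J1 pr u e x = 0 := by
  unfold J1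
  rw [integral_finsetSum _ fun l _ => Integrable.const_mul
    (integrable_finsetSum _ fun i _ => int_wu hc K (int_dchi he i) i l) _]
  refine Finset.sum_eq_zero fun l _ => ?_
  rw [integral_const_mul, h, mul_zero]

include hc hC in
lemma int_J2 : Integrable (J2 pr u e) := by
  unfold J2
  refine integrable_finsetSum _ fun l _ => integrable_finsetSum _ fun i _ =>
    Integrable.const_mul ?_ _
  exact (int_wu hc K int_gs i l).add
    ((int_tu hC K (int_dgs _) _ _).sub (int_tu hC K (int_dgs _) _ _))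

include hc hC in
lemma integral_J2 (h : ∀ l i : Fin 3, ∫ x, wu pr u x l i * gs x = -∫ x, (tu pr u l (i + 2) x *
    fderiv ℝ gs x (bs (i + 1)) - tu pr u l (i + 1) x * fderiv ℝ gs x (bs (i + 2)))) :
    ∫ x, J2 pr u e x = 0 := by
  have a1 : ∀ l i : Fin 3, Integrable (fun x => wu pr u x l i * gs x) :=
    fun l i => int_wu hc K int_gs i l
  have a2 : ∀ l i : Fin 3, Integrable (fun x => (tu pr u l (i + 2) x *
    fderiv ℝ gs x (bs (i + 1)) - tu pr u l (i + 1) x * fderiv ℝ gs x (bs (i + 2)))) :=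
    fun l i => (int_tu hC K (int_dgs _) _ _).sub (int_tu hC K (int_dgs _) _ _)
  have a3 : ∀ l i : Fin 3, Integrable (fun x => e l * e i * (wu pr u x l i * gs x +
      (tu pr u l (i + 2) x * fderiv ℝ gs x (bs (i + 1)) -
        tu pr u l (i + 1) x * fderiv ℝ gs x (bs (i + 2))))) :=
    fun l i => ((a1 l i).add (a2 l i)).const_mul _
  unfold J2
  rw [integral_finsetSum _ fun l _ => integrable_finsetSum _ fun i _ => a3 l i]
  refine Finset.sum_eq_zero fun l _ => ?_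
  rw [integral_finsetSum _ fun i _ => a3 l i]
  refine Finset.sum_eq_zero fun i _ => ?_
  rw [integral_const_mul, integral_add (a1 l i) (a2 l i), h l i]
  ring

end step

lemma int_g16 : Integrable (fun x : E3 => Real.exp (-(16 * ‖x‖ ^ 2))) := by
  refine int_bound ?_ 1 fun x => ?_
  · exact Real.continuous_exp.comp ((continuous_const.mul (continuous_norm.pow 2)).neg)
  · rw [abs_of_pos (Real.exp_pos _), one_mul]
    exact Real.exp_le_exp.2 (by nlinarith [sq_nonneg ‖x‖])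

lemma int_kk {e : E3} (he : ‖e‖ = 1) : Integrable (kk e) := by
  refine int_bound ?_ 5 fun x => ?_
  · unfold kk
    have := (cd_qe e).continuous
    exact (continuous_const.sub (Real.continuous_exp.comp ((continuous_const.mul
      ((continuous_norm.pow 2).sub (this.pow 2))).neg))).mul cd_gs.continuous
  · have hr := r_nonneg he x
    have p : 0 < gs x := Real.exp_pos _
    have h := gs_le x
    unfold kk
    have h1 : Real.exp (-(15 * (‖x‖ ^ 2 - qe e x ^ 2))) ≤ 1 := Real.exp_le_one_iff.2 (by linarith)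
    have h2 := Real.exp_pos (-(15 * (‖x‖ ^ 2 - qe e x ^ 2)))
    rw [abs_mul, abs_of_pos p, abs_of_nonneg (by linarith)]
    nlinarith [sq_nonneg ‖x‖]

lemma lin1 {a b c d f : E3 → ℝ} (ha : Integrable a) (hb : Integrable b) (hc : Integrable c)
    (hd : Integrable d) (hf : Integrable f) (k m : ℝ) :
    Integrable (fun x => a x - 4 * b x + 2 * c x + 10 * d x + 192 * (k * d x + m * f x)) ∧
    ∫ x, (a x - 4 * b x + 2 * c x + 10 * d x + 192 * (k * d x + m * f x)) =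
      (∫ x, a x) - 4 * (∫ x, b x) + 2 * (∫ x, c x) + 10 * (∫ x, d x) +
        192 * (k * (∫ x, d x) + m * ∫ x, f x) := by
  have h1 : Integrable (fun x => a x - 4 * b x) := ha.sub (hb.const_mul 4)
  have h2 : Integrable (fun x => a x - 4 * b x + 2 * c x) := h1.add (hc.const_mul 2)
  have h3 : Integrable (fun x => a x - 4 * b x + 2 * c x + 10 * d x) := h2.add (hd.const_mul 10)
  have h4 : Integrable (fun x => k * d x + m * f x) := (hd.const_mul k).add (hf.const_mul m)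
  refine ⟨h3.add (h4.const_mul 192), ?_⟩
  rw [integral_add h3 (h4.const_mul 192), integral_add h2 (hd.const_mul 10),
    integral_add h1 (hc.const_mul 2), integral_sub ha (hb.const_mul 4), integral_const_mul,
    integral_const_mul, integral_const_mul, integral_const_mul,
    integral_add (hd.const_mul k) (hf.const_mul m), integral_const_mul, integral_const_mul]

lemma lin2 {a b c d : E3 → ℝ} (ha : Integrable a) (hb : Integrable b) (hc : Integrable c)
    (hd : Integrable d) (k m n : ℝ) :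
    Integrable (fun x => 2 * a x - 2 * b x + n * (k * c x + m * d x)) ∧
    ∫ x, (2 * a x - 2 * b x + n * (k * c x + m * d x)) =
      2 * (∫ x, a x) - 2 * (∫ x, b x) + n * (k * (∫ x, c x) + m * ∫ x, d x) := by
  have h1 : Integrable (fun x => 2 * a x - 2 * b x) := (ha.const_mul 2).sub (hb.const_mul 2)
  have h4 : Integrable (fun x => k * c x + m * d x) := (hc.const_mul k).add (hd.const_mul m)
  refine ⟨h1.add (h4.const_mul n), ?_⟩
  rw [integral_add h1 (h4.const_mul n), integral_sub (ha.const_mul 2) (hb.const_mul 2),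
    integral_const_mul, integral_const_mul, integral_const_mul,
    integral_add (hc.const_mul k) (hd.const_mul m), integral_const_mul, integral_const_mul]

section final

variable {pr : Profile} {c C B : ℝ} {u : E3 → V9} (hc : 0 < c) (hC : 0 < C) (K : Ctx pr c C B u)
  {e : E3} (he : ‖e‖ = 1)

include hc K he

lemma step1 (h : ∀ l, ∫ x, ∑ i, wu pr u x l i * fderiv ℝ (chi e) x (bs i) = 0)
    (η : ℝ) (hη : 0 < η) :
    ∫ x, en pr u x * kk e x ≤ (∫ x, en pr u x * gs x) -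
      4 * (∫ x, en pr u x * Real.exp (-(16 * ‖x‖ ^ 2))) +
      10 * (∫ x, gq pr u x e * Real.exp (-(‖x‖ ^ 2 / 16))) +
      192 * ((η ^ 2)⁻¹ * (∫ x, gq pr u x e * Real.exp (-(‖x‖ ^ 2 / 16))) +
        η ^ 2 * (∫ x, en pr u x * Real.exp (-(‖x‖ ^ 2 / 16)))) := by
  obtain ⟨j1, j2⟩ := lin1 (int_en hc K int_gs) (int_en hc K int_g16) (int_J1 hc K he)
    (int_gq K he int_gauss) (int_en hc K int_gauss) (η ^ 2)⁻¹ (η ^ 2)
  have hm := integral_mono (int_en hc K (int_kk he)) j1 (fun x => point1 hc K he x η hη)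
  refine hm.trans (le_of_eq ?_)
  rw [j2, integral_J1 hc K he h]
  ring

include hC

lemma step2 (h : ∀ l i : Fin 3, ∫ x, wu pr u x l i * gs x = -∫ x, (tu pr u l (i + 2) x *
    fderiv ℝ gs x (bs (i + 1)) - tu pr u l (i + 1) x * fderiv ℝ gs x (bs (i + 2))))
    (η : ℝ) (hη : 0 < η) :
    ∫ x, en pr u x * gs x ≤ 2 * (∫ x, gq pr u x e * Real.exp (-(‖x‖ ^ 2 / 16))) +
      36 * C / Real.sqrt c * (η⁻¹ * (∫ x, en pr u x * kk e x) +
        η * (∫ x : E3, (1 + ‖x‖ ^ 2) * gs x)) := by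
  obtain ⟨j1, j2⟩ := lin2 (int_gq K he int_gauss) (int_J2 hc hC K (e := e))
    (int_en hc K (int_kk he)) int_ngs η⁻¹ η (36 * C / Real.sqrt c)
  have hm := integral_mono (int_en hc K int_gs) j1 (fun x => point2 hc hC K he x η hη)
  refine hm.trans (le_of_eq ?_)
  rw [j2, integral_J2 hc hC K h]
  ring

end final

lemma Phi_one (pr : Profile) (u : E3 → V9) : Phi pr u 0 1 = ∫ x, en pr u x * gs x := by
  unfold Phi gs
  simp

lemma Phi_quarter (pr : Profile) (u : E3 → V9) :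
    Phi pr u 0 (1 / 4) = 4 * ∫ x, en pr u x * Real.exp (-(16 * ‖x‖ ^ 2)) := by
  unfold Phi
  congr 1
  · norm_num
  · congr 1
    funext x
    rw [sub_zero]
    congr 3
    ring

lemma Phi_four (pr : Profile) (u : E3 → V9) :
    Phi pr u 0 4 = 4⁻¹ * ∫ x, en pr u x * Real.exp (-(‖x‖ ^ 2 / 16)) := by
  unfold Phi
  congr 2
  funext x
  rw [sub_zero]
  congr 3
  norm_num

/-- the arithmetic of the conclusion -/
lemma arith (Φ1 Φ4 GG A16 KK C0 K0 K1 K2 θ0 η : ℝ) (hη : 0 < η) (hη1 : η ≤ 1)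
    (hK1 : K1 = 12 + 192 * (1 + 4 * C0)) (hK20 : 0 < K2)
    (s1 : KK ≤ Φ1 - Φ4 + 10 * GG + 192 * ((η ^ 2)⁻¹ * GG + η ^ 2 * A16))
    (s2 : Φ1 ≤ 2 * GG + K2 * (η⁻¹ * KK + η * K0)) (hA : A16 ≤ 4 * C0) (hδ : GG ≤ η ^ 4)
    (hΦ : Φ1 - Φ4 ≤ 2 * η ^ 4) (hΦ1 : θ0 ≤ Φ1 + η ^ 4) :
    θ0 ≤ η * (3 + K2 * (K1 + K0)) := by
  have hη4 : η ^ 4 ≤ η := by
    calc η ^ 4 = η ^ 3 * η := by ring
      _ ≤ 1 * η := by
        have : η ^ 3 ≤ 1 := pow_le_one₀ hη.le hη1
        gcongr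
      _ = η := one_mul _
  have hη42 : η ^ 4 ≤ η ^ 2 := by
    calc η ^ 4 = η ^ 2 * η ^ 2 := by ring
      _ ≤ 1 * η ^ 2 := by
        have : η ^ 2 ≤ 1 := pow_le_one₀ hη.le hη1
        gcongr
      _ = η ^ 2 := one_mul _
  have hinv : (η ^ 2)⁻¹ * GG ≤ η ^ 2 := by
    calc (η ^ 2)⁻¹ * GG ≤ (η ^ 2)⁻¹ * η ^ 4 := by gcongr
      _ = η ^ 2 := by field_simp
  have hA : η ^ 2 * A16 ≤ η ^ 2 * (4 * C0) := by gcongr
  have hKK1 : KK ≤ η ^ 2 * K1 := by
    have : η ^ 2 * K1 = 12 * η ^ 2 + 192 * (η ^ 2 + η ^ 2 * (4 * C0)) := by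
      rw [hK1]
      ring
    rw [this]
    linarith
  have hKK2 : η⁻¹ * KK ≤ η * K1 := by
    calc η⁻¹ * KK ≤ η⁻¹ * (η ^ 2 * K1) := by gcongr
      _ = η * K1 := by field_simp
  have h3 : K2 * (η⁻¹ * KK + η * K0) ≤ K2 * (η * K1 + η * K0) := by gcongr
  have : η * (3 + K2 * (K1 + K0)) = 3 * η + K2 * (η * K1 + η * K0) := by ring
  rw [this]
  linarith

end F10x

open F10x in
/-- **[F10]** the energy cannot concentrate on a line. -/
theorem thm_F10 (hF02 : St_F02) (hF03 : St_F03) (hF04 : St_F04) (hF07 : St_F07) : St_F10 := by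
  intro pr S θ0 hθ0
  obtain ⟨c, C, hc, hC, h2⟩ := hF02 pr S
  obtain ⟨C0, hC0, h7⟩ := hF07 pr S
  obtain ⟨K0, hK0⟩ : ∃ K0 : ℝ, K0 = ∫ x : E3, (1 + ‖x‖ ^ 2) * gs x := ⟨_, rfl⟩
  have hK00 : 0 ≤ K0 := by
    rw [hK0]
    exact integral_nonneg fun x => by
      have p : 0 < gs x := Real.exp_pos _
      simp only [Pi.zero_apply]
      positivity
  obtain ⟨K1, hK1⟩ : ∃ K1 : ℝ, K1 = 12 + 192 * (1 + 4 * C0) := ⟨_, rfl⟩
  have hK10 : 0 < K1 := by
    rw [hK1]
    positivity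
  have hsc : 0 < Real.sqrt c := Real.sqrt_pos.2 hc
  obtain ⟨K2, hK2⟩ : ∃ K2 : ℝ, K2 = 36 * C / Real.sqrt c := ⟨_, rfl⟩
  have hK20 : 0 < K2 := by
    rw [hK2]
    positivity
  obtain ⟨M, hM⟩ : ∃ M : ℝ, M = 3 + K2 * (K1 + K0) := ⟨_, rfl⟩
  have hM0 : 0 < M := by
    rw [hM]
    positivity
  obtain ⟨η, hη, hη1, hη2⟩ : ∃ η : ℝ, 0 < η ∧ η ≤ 1 ∧ η * M ≤ θ0 / 2 := by
    refine ⟨min 1 (θ0 / (2 * M)), lt_min one_pos (by positivity), min_le_left _ _, ?_⟩
    calc min 1 (θ0 / (2 * M)) * M ≤ θ0 / (2 * M) * M := by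
          gcongr
          exact min_le_right _ _
      _ = θ0 / 2 := by field_simp
  refine ⟨η ^ 4, by positivity, ?_⟩
  intro u e Θ hG he hΘ hΦ1 hΦ4 hδ
  have hflat := h2 Set.univ u isOpen_univ hG.flat (fun x _ => hG.size x)
  obtain ⟨q1, q2, q3, q4⟩ := hflat
  obtain ⟨Λ, hΛ⟩ := hG.grad
  have hΛ0 : 0 ≤ Λ := (norm_nonneg _).trans (hΛ 0)
  have K : Ctx pr c C (Λ + C * Λ ^ 2) u := by
    refine ⟨fun i l => ?_, ?_, fun i l => ?_, fun l b => ?_, ?_, ?_, ?_, ?_, ?_, ?_, ?_, ?_⟩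
    · exact (contDiffOn_univ.1 (q1 i l)).continuous
    · exact (contDiffOn_univ.1 q2).continuous
    · exact (contDiffOn_univ.1 (q3 i l)).continuous
    · exact cont_tu pr u (contDiffOn_univ.1 hG.flat.smooth) l b
    · exact fun x i l => (q4 x (Set.mem_univ x)).2.1 i l
    · exact fun x v => le_trans (by positivity) ((q4 x (Set.mem_univ x)).2.2.1 v)
    · exact fun x v => (q4 x (Set.mem_univ x)).2.2.2.2.2.2.2.2.2 v
    · exact fun x => (q4 x (Set.mem_univ x)).2.2.2.2.1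
    · exact fun x l b => (q4 x (Set.mem_univ x)).2.2.2.2.2.2.1 l b
    · exact fun x v w => (q4 x (Set.mem_univ x)).2.2.2.2.2.2.2.1 v w
    · intro x
      have h1 := (q4 x (Set.mem_univ x)).2.2.2.2.2.1
      have h2 := hΛ x
      have h3 : C * ‖fderiv ℝ u x‖ ^ 2 ≤ C * Λ ^ 2 := by gcongr
      linarith
    · intro x
      have h2 := hΛ x
      have h3 : 0 ≤ C * Λ ^ 2 := by positivity
      linarith
  have d2 : ContDiff ℝ 2 (chi e) := contDiff_infty.1 (cd_chi e) 2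
  have d1 : ContDiff ℝ 1 gs := contDiff_infty.1 cd_gs 1
  have s1 := step1 hc K he ((hF04 pr S u hG (chi e) d2 (int_chi he)
      (fun i => int_dchi he i) (fun i j => int_ddchi he i j)).1) η hη
  have s2 := step2 hc hC K he (hF03 pr S u hG gs d1 int_gs (fun i => int_dgs i)) η hη
  have p1 := Phi_one pr u
  have p4 := Phi_quarter pr u
  have p16 := Phi_four pr u
  have hC0' := h7 u hG 0 4 (by norm_num)
  rw [← p1, ← p4] at s1
  rw [← p1, ← hK0, ← hK2] at s2
  rw [p16] at hC0'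
  have a1 := (abs_le.1 hΦ1).1
  have a1' := (abs_le.1 hΦ1).2
  have a2 := (abs_le.1 hΦ4).1
  have := arith _ _ _ _ _ C0 K0 K1 K2 θ0 η hη hη1 hK1 hK20 s1 s2 (by linarith) hδ
    (by linarith) (by linarith)
  rw [← hM] at this
  linarith

end Pool.Agent.FUE
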