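import Pool.Agent.FUE.StF

/-!
# Fueter sections: [F11] two centres
-/

set_option autoImplicit false

open scoped Manifold ContDiff Matrix
open MeasureTheory

namespace Pool.Agent.FUE

private theorem f11_neg (pr : Profile) (u : E3 → V9) (x v : E3) :
    gq pr u x (-v) = gq pr u x v := by
  unfold gq
  refine Finset.sum_congr rfl fun i _ => Finset.sum_congr rfl fun l _ => ?_
  rw [PiLp.neg_apply, PiLp.neg_apply]
  ring

private theorem f11_exp (x e : E3) (he : ‖e‖ = 1) :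
    Real.exp (-(‖x‖ ^ 2 / 16)) ≤ 3 * Real.exp (-(‖x - e‖ ^ 2 / 8 ^ 2)) := by
  have h1 : ‖x - e‖ ≤ ‖x‖ + 1 := by
    have h2 := norm_sub_le x e
    rwa [he] at h2
  have h3 : ‖x - e‖ ^ 2 ≤ 2 * ‖x‖ ^ 2 + 2 := by
    nlinarith [norm_nonneg (x - e), norm_nonneg x, sq_nonneg (‖x‖ - 1)]
  have h4 : -(‖x‖ ^ 2 / 16) ≤ 1 + -(‖x - e‖ ^ 2 / 8 ^ 2) := by
    nlinarith [sq_nonneg ‖x‖]
  calc Real.exp (-(‖x‖ ^ 2 / 16)) ≤ Real.exp (1 + -(‖x - e‖ ^ 2 / 8 ^ 2)) := Real.exp_le_exp.2 h4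
    _ = Real.exp 1 * Real.exp (-(‖x - e‖ ^ 2 / 8 ^ 2)) := Real.exp_add _ _
    _ ≤ 3 * Real.exp (-(‖x - e‖ ^ 2 / 8 ^ 2)) := by
      refine mul_le_mul_of_nonneg_right ?_ (Real.exp_pos _).le
      exact (Real.exp_one_lt_d9.trans (by norm_num)).le

/-- two centres -/
theorem thm_F11 (hF02 : St_F02) (hF05 : St_F05) (hF06 : St_F06) (hF10 : St_F10) : St_F11 := by
  intro pr S θ0 hθ0
  obtain ⟨δ, hδ, h10⟩ := hF10 pr S θ0 hθ0
  obtain ⟨c, C, hc, hC, h02⟩ := hF02 pr S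
  refine ⟨δ / 3200, by positivity, ?_⟩
  intro u e Θ hu he hΘ h0 h1
  obtain ⟨-, -, -, hpt⟩ := h02 Set.univ u isOpen_univ hu.flat (fun x _ => hu.size x)
  have hnn : ∀ x v, 0 ≤ gq pr u x v := by
    intro x v
    obtain ⟨-, -, h, -⟩ := hpt x (Set.mem_univ x)
    exact le_trans (by positivity) (h v)
  have hadd : ∀ x v w, gq pr u x (v + w) ≤ 2 * gq pr u x v + 2 * gq pr u x w := by
    intro x v w
    obtain ⟨-, -, -, -, -, -, -, -, h, -⟩ := hpt x (Set.mem_univ x)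
    exact h v w
  have hδ2 : δ / 3200 ≤ δ := by linarith
  have hA := (hF05 pr S u hu 0 4 (by norm_num)).2.1
  have hB := (hF05 pr S u hu e 8 (by norm_num)).2.1
  have hA2 := (hF06 pr S u hu 0 4 (by norm_num)).2.2
  have hB2 := (hF06 pr S u hu e 8 (by norm_num)).2.2
  have hA3 : Phi pr u 0 (2 * 4) - Phi pr u 0 4 ≤ δ / 3200 := by
    have h2 := (h0 (2 * 4) (by norm_num)).2
    have h3 := (h0 4 (by norm_num)).1
    exact (sub_le_sub h2 h3).trans_eq (sub_sub_cancel _ _)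
  have hB3 : Phi pr u e (2 * 8) - Phi pr u e 8 ≤ δ / 3200 := by
    have h2 := (h1 (2 * 8) (by norm_num)).2
    have h3 := (h1 8 (by norm_num)).1
    exact (sub_le_sub h2 h3).trans_eq (sub_sub_cancel _ _)
  refine h10 u e Θ hu he hΘ ?_ ?_ ?_
  · obtain ⟨h2, h3⟩ := h0 1 (by norm_num)
    rw [abs_le]
    constructor <;> linarith
  · obtain ⟨h2, h3⟩ := h0 (1 / 4) le_rfl
    rw [abs_le]
    constructor <;> linarith
  · have hle : ∀ x, gq pr u x e * Real.exp (-(‖x‖ ^ 2 / 16)) ≤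
        2 * (gq pr u x (x - 0) * Real.exp (-(‖x - 0‖ ^ 2 / 4 ^ 2))) +
          6 * (gq pr u x (x - e) * Real.exp (-(‖x - e‖ ^ 2 / 8 ^ 2))) := by
      intro x
      have h2 := hadd x x (-(x - e))
      rw [f11_neg, show x + -(x - e) = e by abel] at h2
      have h3 := f11_exp x e he
      have h4 : (4 : ℝ) ^ 2 = 16 := by norm_num
      rw [sub_zero, h4]
      have h5 : 0 < Real.exp (-(‖x‖ ^ 2 / 16)) := Real.exp_pos _
      have h6 := hnn x (x - e)
      have h7 : gq pr u x e * Real.exp (-(‖x‖ ^ 2 / 16)) ≤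
          (2 * gq pr u x x + 2 * gq pr u x (x - e)) * Real.exp (-(‖x‖ ^ 2 / 16)) :=
        mul_le_mul_of_nonneg_right h2 h5.le
      have h8 : gq pr u x (x - e) * Real.exp (-(‖x‖ ^ 2 / 16)) ≤
          gq pr u x (x - e) * (3 * Real.exp (-(‖x - e‖ ^ 2 / 8 ^ 2))) :=
        mul_le_mul_of_nonneg_left h3 h6
      nlinarith
    have hint : Integrable (fun x => 2 * (gq pr u x (x - 0) * Real.exp (-(‖x - 0‖ ^ 2 / 4 ^ 2))) +
        6 * (gq pr u x (x - e) * Real.exp (-(‖x - e‖ ^ 2 / 8 ^ 2)))) :=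
      (hA.const_mul 2).add (hB.const_mul 6)
    have hmono := integral_mono_of_nonneg (μ := (volume : Measure E3))
      (Filter.Eventually.of_forall fun x => mul_nonneg (hnn x e) (Real.exp_pos _).le) hint
      (Filter.Eventually.of_forall hle)
    rw [integral_add (hA.const_mul 2) (hB.const_mul 6), integral_const_mul,
      integral_const_mul] at hmono
    refine hmono.trans ?_
    norm_num at hA2 hB2 hA3 hB3 ⊢
    linarith

end Pool.Agent.FUE
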