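import Pool.Agent.FUE.StF

/-!
# Fueter sections [F12]: continuity of the Gaussian energy
-/

set_option autoImplicit false

open scoped Manifold ContDiff Matrix Topology
open MeasureTheory

namespace Pool.Agent.FUE

namespace F12x

theorem fderiv_left (Ψ : V9 × V9 → ℝ) (hd : Differentiable ℝ Ψ) (P K K' : V9) :
    fderiv ℝ (fun Q : V9 => Ψ (Q, K')) P K = fderiv ℝ Ψ (P, K') (K, 0) := by
  have h2 : HasFDerivAt (fun Q : V9 => (Q, K')) (ContinuousLinearMap.inl ℝ V9 V9) P :=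
    hasFDerivAt_prodMk_left P K'
  have h3 : HasFDerivAt (fun Q : V9 => Ψ (Q, K'))
      ((fderiv ℝ Ψ (P, K')).comp (ContinuousLinearMap.inl ℝ V9 V9)) P :=
    HasFDerivAt.comp (g := Ψ) P (hd (P, K')).hasFDerivAt h2
  rw [h3.fderiv]
  rfl

theorem om_eq (hA07 : St_A07) (pr : Profile) (l : Fin 3) (P H H' : V9) :
    om P pr l H H' = fderiv ℝ (fun p : V9 × V9 => th p.1 pr (toM p.2) l) (P, H') (H, 0) -
      fderiv ℝ (fun p : V9 × V9 => th p.1 pr (toM p.2) l) (P, H) (H', 0) := by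
  have hd : Differentiable ℝ (fun p : V9 × V9 => th p.1 pr (toM p.2) l) :=
    (hA07.1 pr l).differentiable (by simp)
  exact congrArg₂ (fun a b : ℝ => a - b) (fderiv_left _ hd P H H') (fderiv_left _ hd P H' H)

/-- the energy density as a function of the value and the derivative -/
noncomputable def Fe (pr : Profile) (p : V9 × (E3 →L[ℝ] V9)) : ℝ :=
  ∑ i : Fin 3, Gf p.1 pr (fun j => p.2 (bs j)) i i

theorem en_eq (pr : Profile) (u : E3 → V9) (x : E3) : en pr u x = Fe pr (u x, fderiv ℝ u x) := rfl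

theorem Fe_cont (hA07 : St_A07) (pr : Profile) : Continuous (Fe pr) := by
  have h1 : ∀ (l : Fin 3) (a b : E3),
      Continuous fun p : V9 × (E3 →L[ℝ] V9) => om p.1 pr l (p.2 a) (p.2 b) := by
    intro l a b
    have hD : Continuous (fderiv ℝ (fun p : V9 × V9 => th p.1 pr (toM p.2) l)) :=
      (hA07.1 pr l).continuous_fderiv (by simp)
    have he : ∀ a : E3, Continuous fun p : V9 × (E3 →L[ℝ] V9) => p.2 a := fun a =>
      continuous_snd.clm_apply continuous_const
    have h2 : ∀ a b : E3, Continuous fun p : V9 × (E3 →L[ℝ] V9) =>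
        fderiv ℝ (fun p : V9 × V9 => th p.1 pr (toM p.2) l) (p.1, p.2 b) (p.2 a, 0) := fun a b =>
      (hD.comp (continuous_fst.prodMk (he b))).clm_apply ((he a).prodMk continuous_const)
    have h3 : (fun p : V9 × (E3 →L[ℝ] V9) => om p.1 pr l (p.2 a) (p.2 b)) = fun p =>
        fderiv ℝ (fun p : V9 × V9 => th p.1 pr (toM p.2) l) (p.1, p.2 b) (p.2 a, 0) -
        fderiv ℝ (fun p : V9 × V9 => th p.1 pr (toM p.2) l) (p.1, p.2 a) (p.2 b, 0) := by
      funext p
      exact om_eq hA07 pr l p.1 (p.2 a) (p.2 b)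
    rw [h3]
    exact (h2 a b).sub (h2 b a)
  have h4 : ∀ l i : Fin 3,
      Continuous fun p : V9 × (E3 →L[ℝ] V9) => wf p.1 pr (fun j => p.2 (bs j)) l i := fun l i =>
    h1 l (bs (i + 1)) (bs (i + 2))
  unfold Fe
  refine continuous_finsetSum _ fun i _ => ?_
  unfold Gf
  simp only [if_true]
  exact (h4 i i).sub (continuous_finsetSum _ fun k _ => h4 k k)

/-- convergence of values and first derivatives -/
theorem cloc_conv (u : ℕ → E3 → V9) (v : E3 → V9) (h : CLoc Set.univ u v) (K : Set E3)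
    (hK : IsCompact K) :
    TendstoUniformlyOn (fun n x => (u n x, fderiv ℝ (u n) x)) (fun x => (v x, fderiv ℝ v x))
      Filter.atTop K := by
  have h0 := (tendstoLocallyUniformlyOn_iff_tendstoUniformlyOn_of_compact hK).mp
    ((h.2 0).mono (Set.subset_univ K))
  have h1 := (tendstoLocallyUniformlyOn_iff_tendstoUniformlyOn_of_compact hK).mp
    ((h.2 1).mono (Set.subset_univ K))
  have e0 := (continuousMultilinearCurryFin0 ℝ E3 V9).isometry.uniformContinuous.comp_tendstoUniformlyOn h0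
  have e1 := (continuousMultilinearCurryFin1 ℝ E3 V9).isometry.uniformContinuous.comp_tendstoUniformlyOn h1
  have f0 : ∀ w : E3 → V9, (continuousMultilinearCurryFin0 ℝ E3 V9) ∘ iteratedFDeriv ℝ 0 w = w := by
    intro w
    funext x
    rfl
  have f1 : ∀ w : E3 → V9, (continuousMultilinearCurryFin1 ℝ E3 V9) ∘ iteratedFDeriv ℝ 1 w =
      fderiv ℝ w := by
    intro w
    funext x
    apply ContinuousLinearMap.ext
    intro m
    show (continuousMultilinearCurryFin1 ℝ E3 V9) (iteratedFDeriv ℝ 1 w x) m = fderiv ℝ w x m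
    rw [continuousMultilinearCurryFin1_apply, iteratedFDeriv_one_apply]
    rfl
  have e0' : TendstoUniformlyOn u v Filter.atTop K := by
    have : (fun n => (continuousMultilinearCurryFin0 ℝ E3 V9) ∘ iteratedFDeriv ℝ 0 (u n)) = u :=
      funext fun n => f0 (u n)
    rw [f0 v] at e0
    rw [← this]
    exact e0
  have e1' : TendstoUniformlyOn (fun n => fderiv ℝ (u n)) (fderiv ℝ v) Filter.atTop K := by
    have : (fun n => (continuousMultilinearCurryFin1 ℝ E3 V9) ∘ iteratedFDeriv ℝ 1 (u n)) =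
        fun n => fderiv ℝ (u n) := funext fun n => f1 (u n)
    rw [f1 v] at e1
    rw [← this]
    exact e1
  rw [Metric.tendstoUniformlyOn_iff] at e0' e1' ⊢
  intro ε hε
  filter_upwards [e0' ε hε, e1' ε hε] with n h2 h3 x hx
  rw [Prod.dist_eq]
  exact max_lt (h2 x hx) (h3 x hx)

/-- uniform bound for the energy density on a ball -/
theorem en_bound (hA07 : St_A07) (pr : Profile) (u : ℕ → E3 → V9) (v : E3 → V9)
    (hv : ContDiff ℝ ∞ v) (h : CLoc Set.univ u v) (K : Set E3) (hK : IsCompact K) :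
    ∃ M : ℝ, ∀ᶠ n in Filter.atTop, ∀ x ∈ K, |en pr (u n) x| ≤ M := by
  have hvc : Continuous fun x => (v x, fderiv ℝ v x) :=
    hv.continuous.prodMk (hv.continuous_fderiv (by simp))
  obtain ⟨C, hC⟩ := hK.exists_bound_of_continuousOn hvc.continuousOn
  have hcomp : IsCompact (Metric.closedBall (0 : V9 × (E3 →L[ℝ] V9)) (C + 1)) :=
    isCompact_closedBall _ _
  obtain ⟨M, hM⟩ := hcomp.exists_bound_of_continuousOn (Fe_cont hA07 pr).continuousOn
  refine ⟨M, ?_⟩
  have h1 := Metric.tendstoUniformlyOn_iff.mp (cloc_conv u v h K hK) 1 one_pos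
  filter_upwards [h1] with n hn x hx
  rw [en_eq]
  refine hM _ ?_
  rw [mem_closedBall_zero_iff]
  have h2 := hn x hx
  rw [dist_comm, dist_eq_norm] at h2
  have h3 := norm_sub_norm_le (u n x, fderiv ℝ (u n) x) (v x, fderiv ℝ v x)
  have h4 := hC x hx
  linarith

/-- convergence of the integrals over balls -/
theorem ball_conv' (e : ℕ → E3 → ℝ) (e0 : E3 → ℝ) (he : ∀ n, Continuous (e n)) (L R M : ℝ)
    (hM : ∀ᶠ n in Filter.atTop, ∀ x ∈ Metric.closedBall (0 : E3) L, |e n x| ≤ M)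
    (hp : ∀ x, Filter.Tendsto (fun n => e n x) Filter.atTop (𝓝 (e0 x))) :
    Filter.Tendsto (fun n => ∫ x in Metric.closedBall (0 : E3) L,
        e n x * Real.exp (-(‖x‖ ^ 2 / R ^ 2))) Filter.atTop
      (𝓝 (∫ x in Metric.closedBall (0 : E3) L, e0 x * Real.exp (-(‖x‖ ^ 2 / R ^ 2)))) := by
  have hcont : ∀ n, Continuous fun x => e n x * Real.exp (-(‖x‖ ^ 2 / R ^ 2)) := fun n =>
    (he n).mul (Real.continuous_exp.comp ((continuous_norm.pow 2).div_const _).neg)
  refine tendsto_integral_filter_of_dominated_convergence (fun _ => M)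
    (Filter.Eventually.of_forall fun n => (hcont n).aestronglyMeasurable) ?_ ?_ ?_
  · filter_upwards [hM] with n hn
    filter_upwards [ae_restrict_mem Metric.isClosed_closedBall.measurableSet] with x hx
    rw [norm_mul, Real.norm_eq_abs, Real.norm_eq_abs, abs_of_pos (Real.exp_pos _)]
    have h1 := hn x hx
    have h2 : Real.exp (-(‖x‖ ^ 2 / R ^ 2)) ≤ 1 := by
      rw [Real.exp_le_one_iff]
      have : 0 ≤ ‖x‖ ^ 2 / R ^ 2 := by positivity
      linarith
    calc |e n x| * Real.exp (-(‖x‖ ^ 2 / R ^ 2)) ≤ |e n x| * 1 :=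
          mul_le_mul_of_nonneg_left h2 (abs_nonneg _)
      _ ≤ M := by rw [mul_one]; exact h1
  · exact integrableOn_const (hs := measure_closedBall_lt_top.ne)
  · filter_upwards with x
    exact (hp x).mul_const _

theorem ball_conv (hA07 : St_A07) (pr : Profile) (u : ℕ → E3 → V9) (v : E3 → V9)
    (hu : ∀ n, ContDiff ℝ ∞ (u n)) (hv : ContDiff ℝ ∞ v) (h : CLoc Set.univ u v) (L R : ℝ) :
    Filter.Tendsto (fun n => ∫ x in Metric.closedBall (0 : E3) L,
        en pr (u n) x * Real.exp (-(‖x‖ ^ 2 / R ^ 2))) Filter.atTop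
      (𝓝 (∫ x in Metric.closedBall (0 : E3) L, en pr v x * Real.exp (-(‖x‖ ^ 2 / R ^ 2)))) := by
  obtain ⟨M, hM⟩ := en_bound hA07 pr u v hv h _ (isCompact_closedBall (0 : E3) L)
  refine ball_conv' (fun n => en pr (u n)) (en pr v) (fun n => ?_) L R M hM fun x => ?_
  · have h1 : Continuous fun x => (u n x, fderiv ℝ (u n) x) :=
      (hu n).continuous.prodMk ((hu n).continuous_fderiv (by simp))
    have h2 := (Fe_cont hA07 pr).comp h1
    have h3 : en pr (u n) = Fe pr ∘ fun x => (u n x, fderiv ℝ (u n) x) :=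
      funext fun x => en_eq pr (u n) x
    rw [h3]
    exact h2
  · have h1 := (cloc_conv u v h {x} isCompact_singleton).tendsto_at (Set.mem_singleton x)
    have h2 := ((Fe_cont hA07 pr).tendsto (v x, fderiv ℝ v x)).comp h1
    rw [en_eq]
    exact h2

/-- the tails -/
theorem tail (pr : Profile) (S C0 : ℝ) (hF02 : St_F02) (hF05 : St_F05)
    (w : E3 → V9) (hw : Good pr S w) (hC0 : ∀ R : ℝ, 0 < R → Phi pr w 0 R ≤ C0)
    (L R : ℝ) (hR : 0 < R) (hL : 0 < L) :
    |(∫ x, en pr w x * Real.exp (-(‖x‖ ^ 2 / R ^ 2))) - ∫ x in Metric.closedBall (0 : E3) L,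
      en pr w x * Real.exp (-(‖x‖ ^ 2 / R ^ 2))| ≤
      Real.exp (-(L ^ 2 / (2 * R ^ 2))) * (Real.sqrt 2 * R * C0) := by
  obtain ⟨c, C, hc, -, hb⟩ := hF02 pr S
  obtain ⟨-, -, -, hb'⟩ := hb Set.univ w isOpen_univ hw.flat fun x _ => hw.size x
  have hen : ∀ x, 0 ≤ en pr w x := fun x =>
    le_trans (mul_nonneg hc.le (sq_nonneg _)) (hb' x (Set.mem_univ x)).2.2.2.2.1
  have hR2 : 0 < Real.sqrt 2 * R := mul_pos (Real.sqrt_pos.mpr two_pos) hR
  have hsq : (Real.sqrt 2 * R) ^ 2 = 2 * R ^ 2 := by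
    rw [mul_pow, Real.sq_sqrt zero_le_two]
  have hI : ∀ r : ℝ, 0 < r → Integrable fun x => en pr w x * Real.exp (-(‖x‖ ^ 2 / r ^ 2)) := by
    intro r hr
    have h1 := (hF05 pr S w hw 0 r hr).1
    simpa only [sub_zero] using h1
  have hPhi : ∀ r : ℝ, 0 < r →
      ∫ x, en pr w x * Real.exp (-(‖x‖ ^ 2 / r ^ 2)) = r * Phi pr w 0 r := by
    intro r hr
    unfold Phi
    rw [mul_inv_cancel_left₀ hr.ne']
    simp only [sub_zero]
  have hms : MeasurableSet (Metric.closedBall (0 : E3) L) := Metric.isClosed_closedBall.measurableSet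
  have h1 := integral_add_compl hms (hI R hR)
  have h2 : (∫ x, en pr w x * Real.exp (-(‖x‖ ^ 2 / R ^ 2))) -
      ∫ x in Metric.closedBall (0 : E3) L, en pr w x * Real.exp (-(‖x‖ ^ 2 / R ^ 2)) =
      ∫ x in (Metric.closedBall (0 : E3) L)ᶜ, en pr w x * Real.exp (-(‖x‖ ^ 2 / R ^ 2)) := by
    rw [← h1]
    ring
  have hnn : ∀ r x, 0 ≤ en pr w x * Real.exp (-(‖x‖ ^ 2 / r ^ 2)) := fun r x =>
    mul_nonneg (hen x) (Real.exp_pos _).le
  rw [h2, abs_of_nonneg (integral_nonneg fun x => hnn R x)]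
  have hI2 : Integrable fun x => Real.exp (-(L ^ 2 / (2 * R ^ 2))) *
      (en pr w x * Real.exp (-(‖x‖ ^ 2 / (Real.sqrt 2 * R) ^ 2))) :=
    (hI _ hR2).const_mul _
  calc ∫ x in (Metric.closedBall (0 : E3) L)ᶜ, en pr w x * Real.exp (-(‖x‖ ^ 2 / R ^ 2))
      ≤ ∫ x in (Metric.closedBall (0 : E3) L)ᶜ, Real.exp (-(L ^ 2 / (2 * R ^ 2))) *
        (en pr w x * Real.exp (-(‖x‖ ^ 2 / (Real.sqrt 2 * R) ^ 2))) := by
        refine setIntegral_mono_on (hI R hR).integrableOn hI2.integrableOn hms.compl ?_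
        intro x hx
        rw [Set.mem_compl_iff, mem_closedBall_zero_iff, not_le] at hx
        rw [hsq, mul_left_comm, ← Real.exp_add]
        refine mul_le_mul_of_nonneg_left (Real.exp_le_exp.mpr ?_) (hen x)
        have h3 : L ^ 2 ≤ ‖x‖ ^ 2 := pow_le_pow_left₀ hL.le hx.le 2
        have h4 : L ^ 2 / (2 * R ^ 2) ≤ ‖x‖ ^ 2 / (2 * R ^ 2) :=
          div_le_div_of_nonneg_right h3 (by positivity)
        have h5 : ‖x‖ ^ 2 / R ^ 2 = ‖x‖ ^ 2 / (2 * R ^ 2) + ‖x‖ ^ 2 / (2 * R ^ 2) := by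
          field_simp
          ring
        linarith
    _ ≤ ∫ x, Real.exp (-(L ^ 2 / (2 * R ^ 2))) *
        (en pr w x * Real.exp (-(‖x‖ ^ 2 / (Real.sqrt 2 * R) ^ 2))) :=
        setIntegral_le_integral hI2 (Filter.Eventually.of_forall fun x =>
          mul_nonneg (Real.exp_pos _).le (hnn _ x))
    _ = Real.exp (-(L ^ 2 / (2 * R ^ 2))) * (Real.sqrt 2 * R * Phi pr w 0 (Real.sqrt 2 * R)) := by
        rw [integral_const_mul, hPhi _ hR2]
    _ ≤ _ := mul_le_mul_of_nonneg_left (mul_le_mul_of_nonneg_left (hC0 _ hR2) hR2.le)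
        (Real.exp_pos _).le

end F12x

open F12x in
/-- [F12] -/
theorem thm_F12 (hA07 : St_A07) (hF02 : St_F02) (hF05 : St_F05) (hF07 : St_F07) : St_F12 := by
  intro pr S u v hu hv huv R hR
  obtain ⟨C0, hC0, hPhi⟩ := hF07 pr S
  have hsm : ∀ w, Good pr S w → ContDiff ℝ ∞ w := fun w hw =>
    contDiffOn_univ.mp hw.flat.smooth
  have hT : Filter.Tendsto (fun L : ℝ => Real.exp (-(L ^ 2 / (2 * R ^ 2))) *
      (Real.sqrt 2 * R * C0)) Filter.atTop (𝓝 0) := by
    have h1 : Filter.Tendsto (fun L : ℝ => L ^ 2 / (2 * R ^ 2)) Filter.atTop Filter.atTop :=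
      (Filter.tendsto_pow_atTop two_ne_zero).atTop_div_const (by positivity)
    have h2 := Real.tendsto_exp_neg_atTop_nhds_zero.comp h1
    have h3 := h2.mul_const (Real.sqrt 2 * R * C0)
    rw [zero_mul] at h3
    exact h3
  have key : Filter.Tendsto (fun n => ∫ x, en pr (u n) x * Real.exp (-(‖x‖ ^ 2 / R ^ 2)))
      Filter.atTop (𝓝 (∫ x, en pr v x * Real.exp (-(‖x‖ ^ 2 / R ^ 2)))) := by
    rw [Metric.tendsto_atTop]
    intro ε hε
    obtain ⟨L, hL0, hL⟩ : ∃ L : ℝ, 0 < L ∧ Real.exp (-(L ^ 2 / (2 * R ^ 2))) *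
        (Real.sqrt 2 * R * C0) < ε / 3 := by
      have h1 := (hT.eventually_lt_const (show (0 : ℝ) < ε / 3 by linarith)).and
        (Filter.eventually_gt_atTop (0 : ℝ))
      obtain ⟨L, h2, h3⟩ := h1.exists
      exact ⟨L, h3, h2⟩
    obtain ⟨N, hN⟩ := Metric.tendsto_atTop.mp
      (ball_conv hA07 pr u v (fun n => hsm _ (hu n)) (hsm _ hv) huv L R) (ε / 3) (by linarith)
    refine ⟨N, fun n hn => ?_⟩
    have h1 := hN n hn
    have h2 := tail pr S C0 hF02 hF05 (u n) (hu n) (fun r hr => hPhi _ (hu n) 0 r hr) L R hR hL0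
    have h3 := tail pr S C0 hF02 hF05 v hv (fun r hr => hPhi _ hv 0 r hr) L R hR hL0
    rw [Real.dist_eq] at h1 ⊢
    rw [abs_lt] at h1 ⊢
    rw [abs_le] at h2 h3
    constructor <;> linarith [h1.1, h1.2, h2.1, h2.2, h3.1, h3.2]
  have h1 := key.const_mul R⁻¹
  have h2 : ∀ w : E3 → V9, Phi pr w 0 R =
      R⁻¹ * ∫ x, en pr w x * Real.exp (-(‖x‖ ^ 2 / R ^ 2)) := by
    intro w
    unfold Phi
    simp only [sub_zero]
  simp only [h2]
  exact h1

end Pool.Agent.FUE
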