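import Pool.Agent.FUE.StH

/-!
# Fueter sections: smooth diagonalisation away from the bolt (helper60 for helper16)
-/

set_option autoImplicit false

open scoped Manifold ContDiff Matrix
open MeasureTheory

namespace Pool.Agent.FUE

namespace H01x

/-- three by three matrices -/
abbrev M3 := Matrix (Fin 3) (Fin 3) ℝ

/-- the matrix with columns `a, b, a × b` -/
def mk (a b : Fin 3 → ℝ) : M3 :=
  !![a 0, b 0, a 1 * b 2 - a 2 * b 1; a 1, b 1, a 2 * b 0 - a 0 * b 2;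
    a 2, b 2, a 0 * b 1 - a 1 * b 0]

theorem cof {R : M3} (hR : IsRot R) : R 0 2 = R 1 0 * R 2 1 - R 1 1 * R 2 0 ∧
    R 1 2 = -(R 0 0 * R 2 1) + R 0 1 * R 2 0 ∧ R 2 2 = R 0 0 * R 1 1 - R 0 1 * R 1 0 := by
  have h1 : R * Rᵀ = 1 := mul_eq_one_comm.1 hR.1
  have h2 : R.adjugate = Rᵀ := by
    calc R.adjugate = R.adjugate * (R * Rᵀ) := by rw [h1, Matrix.mul_one]
      _ = (R.adjugate * R) * Rᵀ := by rw [Matrix.mul_assoc]
      _ = Rᵀ := by rw [Matrix.adjugate_mul, hR.2, one_smul, Matrix.one_mul]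
  rw [Matrix.adjugate_fin_three] at h2
  refine ⟨?_, ?_, ?_⟩
  · have := congrFun (congrFun h2 2) 0
    simpa using this.symm
  · have := congrFun (congrFun h2 2) 1
    simpa using this.symm
  · have := congrFun (congrFun h2 2) 2
    simpa using this.symm

theorem mk_eq {R : M3} (hR : IsRot R) (e f : ℝ) :
    mk (fun i => e * R i 0) (fun i => f * R i 1) = R * Matrix.diagonal ![e, f, e * f] := by
  obtain ⟨h0, h1, h2⟩ := cof hR
  ext i j
  fin_cases i <;> fin_cases j <;> simp [mk, Matrix.mul_diagonal]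
  · ring
  · ring
  · rw [h0]
    ring
  · ring
  · ring
  · rw [h1]
    ring
  · ring
  · ring
  · rw [h2]
    ring

theorem rot_diag {R : M3} (hR : IsRot R) {e f : ℝ} (he : e * e = 1) (hf : f * f = 1) (s : ℝ) :
    IsRot (R * Matrix.diagonal ![e, f, e * f]) ∧
      (R * Matrix.diagonal ![e, f, e * f]) * Dg s * (R * Matrix.diagonal ![e, f, e * f])ᵀ =
        R * Dg s * Rᵀ := by
  have hd : (Matrix.diagonal ![e, f, e * f])ᵀ = Matrix.diagonal ![e, f, e * f] :=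
    Matrix.diagonal_transpose _
  have hdd : Matrix.diagonal ![e, f, e * f] * Matrix.diagonal ![e, f, e * f] = (1 : M3) := by
    rw [Matrix.diagonal_mul_diagonal]
    ext i j
    fin_cases i <;> fin_cases j <;> simp [he, hf]
    rw [mul_mul_mul_comm, he, hf, one_mul]
  have hdD : Matrix.diagonal ![e, f, e * f] * Dg s * Matrix.diagonal ![e, f, e * f] = Dg s := by
    simp only [Dg]
    rw [Matrix.diagonal_mul_diagonal, Matrix.diagonal_mul_diagonal]
    ext i j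
    fin_cases i <;> fin_cases j <;> simp
    · linear_combination (2 + s ^ 2) * he
    · linear_combination s * hf
    · linear_combination (s * (f * f)) * he + s * hf
  refine ⟨⟨?_, ?_⟩, ?_⟩
  · rw [Matrix.transpose_mul, hd]
    calc Matrix.diagonal ![e, f, e * f] * Rᵀ * (R * Matrix.diagonal ![e, f, e * f])
        = Matrix.diagonal ![e, f, e * f] * (Rᵀ * R) * Matrix.diagonal ![e, f, e * f] := by
          simp only [Matrix.mul_assoc]
      _ = 1 := by rw [hR.1, Matrix.mul_one, hdd]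
  · rw [Matrix.det_mul, hR.2, Matrix.det_diagonal, Fin.prod_univ_three]
    simp
    linear_combination (f * f) * he + hf
  · rw [Matrix.transpose_mul, hd]
    calc R * Matrix.diagonal ![e, f, e * f] * Dg s * (Matrix.diagonal ![e, f, e * f] * Rᵀ)
        = R * (Matrix.diagonal ![e, f, e * f] * Dg s * Matrix.diagonal ![e, f, e * f]) * Rᵀ := by
          simp only [Matrix.mul_assoc]
      _ = R * Dg s * Rᵀ := by rw [hdD]

/-! ### the vectors -/

/-- the vector `A u`, normalised -/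
noncomputable def nv (A : M3) (u : Fin 3 → ℝ) : Fin 3 → ℝ :=
  fun i => (√(∑ k, (A.mulVec u) k ^ 2))⁻¹ * (A.mulVec u) i

theorem diag_mulVec (R : M3) (u : Fin 3 → ℝ) (j : Fin 3) (i : Fin 3) :
    ((R * Matrix.diagonal (Pi.single j 1) * Rᵀ).mulVec u) i = (Rᵀ.mulVec u) j * R i j := by
  rw [Matrix.mul_assoc, ← Matrix.mulVec_mulVec, ← Matrix.mulVec_mulVec]
  rw [Matrix.mulVec, dotProduct, Finset.sum_eq_single j]
  · rw [Matrix.mulVec_diagonal]
    simp
    ring
  · intro b _ hb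
    rw [Matrix.mulVec_diagonal]
    simp [Pi.single_eq_of_ne hb]
  · simp

theorem col_sq {R : M3} (hR : Rᵀ * R = 1) (j : Fin 3) : ∑ k, R k j ^ 2 = 1 := by
  have h := congrFun (congrFun hR j) j
  rw [Matrix.mul_apply, Matrix.one_apply_eq] at h
  rw [← h]
  exact Finset.sum_congr rfl fun k _ => by rw [Matrix.transpose_apply]; ring

theorem sum_sq {R : M3} (hR : Rᵀ * R = 1) (u : Fin 3 → ℝ) (j : Fin 3) :
    ∑ k, ((R * Matrix.diagonal (Pi.single j 1) * Rᵀ).mulVec u) k ^ 2 = (Rᵀ.mulVec u) j ^ 2 := by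
  simp only [diag_mulVec, mul_pow]
  rw [← Finset.mul_sum, col_sq hR, mul_one]

theorem nv_eq {R : M3} (hR : Rᵀ * R = 1) (u : Fin 3 → ℝ) (j : Fin 3)
    (h : ∑ k, ((R * Matrix.diagonal (Pi.single j 1) * Rᵀ).mulVec u) k ^ 2 ≠ 0) :
    ∃ e : ℝ, e * e = 1 ∧
      nv (R * Matrix.diagonal (Pi.single j 1) * Rᵀ) u = fun i => e * R i j := by
  rw [sum_sq hR] at h
  have h1 : (Rᵀ.mulVec u) j ≠ 0 := fun h2 => h (by rw [h2]; ring)
  refine ⟨|(Rᵀ.mulVec u) j|⁻¹ * (Rᵀ.mulVec u) j, ?_, ?_⟩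
  · have h2 : |(Rᵀ.mulVec u) j| * |(Rᵀ.mulVec u) j| = (Rᵀ.mulVec u) j * (Rᵀ.mulVec u) j :=
      abs_mul_abs_self _
    rw [mul_mul_mul_comm, ← mul_inv, h2]
    exact inv_mul_cancel₀ (mul_ne_zero h1 h1)
  · funext i
    rw [nv, sum_sq hR, Real.sqrt_sq_eq_abs, diag_mulVec]
    ring

theorem self_mulVec {R : M3} (hR : Rᵀ * R = 1) (j : Fin 3) :
    (Rᵀ.mulVec (fun i => R i j)) j = 1 := by
  have h := congrFun (congrFun hR j) j
  rw [Matrix.mul_apply, Matrix.one_apply_eq] at h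
  rw [← h]
  rfl

/-! ### smoothness -/

/-- entrywise smooth matrix valued functions -/
def SA (x : E3) (f : E3 → M3) : Prop := ∀ i j, ContDiffAt ℝ ∞ (fun y => f y i j) x

variable {x : E3}

theorem SA.add {f g : E3 → M3} (hf : SA x f) (hg : SA x g) : SA x (fun P => f P + g P) :=
  fun i j => (hf i j).add (hg i j)

theorem SA.sub {f g : E3 → M3} (hf : SA x f) (hg : SA x g) : SA x (fun P => f P - g P) :=
  fun i j => (hf i j).sub (hg i j)

theorem SA.mul {f g : E3 → M3} (hf : SA x f) (hg : SA x g) : SA x (fun P => f P * g P) := by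
  intro i j
  have h : (fun P => (f P * g P) i j) = fun P => ∑ k, f P i k * g P k j := by
    ext P
    exact Matrix.mul_apply
  rw [h]
  exact ContDiffAt.sum fun k _ => (hf i k).mul (hg k j)

theorem SA.smul {c : E3 → ℝ} {f : E3 → M3} (hc : ContDiffAt ℝ ∞ c x) (hf : SA x f) :
    SA x (fun P => c P • f P) := fun i j => hc.mul (hf i j)

theorem SA.const (A : M3) : SA x (fun _ => A) := fun _ _ => contDiffAt_const

theorem SA.trace {f : E3 → M3} (hf : SA x f) : ContDiffAt ℝ ∞ (fun P => (f P).trace) x := by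
  have h : (fun P => (f P).trace) = fun P => ∑ k, f P k k := rfl
  rw [h]
  exact ContDiffAt.sum fun k _ => hf k k

theorem SA.mulVec {f : E3 → M3} (hf : SA x f) (u : Fin 3 → ℝ) (i : Fin 3) :
    ContDiffAt ℝ ∞ (fun P => ((f P).mulVec u) i) x := by
  have h : (fun P => ((f P).mulVec u) i) = fun P => ∑ k, f P i k * u k := rfl
  rw [h]
  exact ContDiffAt.sum fun k _ => (hf i k).mul contDiffAt_const

theorem SA.sumSq {f : E3 → M3} (hf : SA x f) (u : Fin 3 → ℝ) :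
    ContDiffAt ℝ ∞ (fun P => ∑ k, ((f P).mulVec u) k ^ 2) x :=
  ContDiffAt.sum fun k _ => (hf.mulVec u k).pow 2

theorem SA.nv {f : E3 → M3} (hf : SA x f) (u : Fin 3 → ℝ)
    (h : ∑ k, ((f x).mulVec u) k ^ 2 ≠ 0) (i : Fin 3) :
    ContDiffAt ℝ ∞ (fun P => nv (f P) u i) x := by
  have h1 : ContDiffAt ℝ ∞ (fun P => √(∑ k, ((f P).mulVec u) k ^ 2)) x := (hf.sumSq u).sqrt h
  have h2 : √(∑ k, ((f x).mulVec u) k ^ 2) ≠ 0 := by
    have h3 : 0 ≤ ∑ k, ((f x).mulVec u) k ^ 2 := Finset.sum_nonneg fun k _ => sq_nonneg _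
    exact (Real.sqrt_pos.2 (lt_of_le_of_ne h3 (Ne.symm h))).ne'
  exact (h1.inv h2).mul (hf.mulVec u i)

end H01x

open H01x in
theorem thm_H01 (hA04 : St_A04) : St_H01 := by
  intro U v hU hv hAH x hx htx
  have hvx : ContDiffAt ℝ ∞ v x := hv.contDiffAt (hU.mem_nhds hx)
  have sM : SA x (fun y => toM (v y)) := by
    intro i j
    have h1 := contDiffAt_euclidean.1 hvx (i, j)
    exact h1
  have slam : ContDiffAt ℝ ∞ (fun y => lam (v y)) x := sM.trace
  have stt : ContDiffAt ℝ ∞ (fun y => tt (v y)) x := sM.trace.sub contDiffAt_const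
  have sell : SA x (fun y => ell (v y)) := by
    have h1 : ContDiffAt ℝ ∞ (fun y => ((lam (v y)) ^ 2 - tt (v y))⁻¹) x :=
      ((slam.pow 2).sub stt).inv (hA04.1 (v x)).ne'
    exact SA.smul h1 ((sM.mul sM).sub (SA.smul stt (SA.const 1)))
  have sZz : SA x (fun y => Zz (v y)) := sM.sub (SA.smul slam sell)
  have sPp : SA x (fun y => Pp (v y)) := (SA.const 1).sub sell
  have ssq : ContDiffAt ℝ ∞ (fun y => √(tt (v y))) x := stt.sqrt htx.ne'
  have hsx : √(tt (v x)) ≠ 0 := (Real.sqrt_pos.2 htx).ne'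
  let p2 : E3 → M3 := fun y => (1 / 2 : ℝ) • (Pp (v y) + (√(tt (v y)))⁻¹ • Zz (v y))
  have sp2 : SA x p2 :=
    SA.smul contDiffAt_const (sPp.add (SA.smul (ssq.inv hsx) sZz))
  -- pointwise form
  have pt : ∀ y ∈ U, 0 < tt (v y) → ∃ R : M3, IsRot R ∧ toM (v y) = R * Dg √(tt (v y)) * Rᵀ ∧
      ell (v y) = R * Matrix.diagonal (Pi.single 0 1) * Rᵀ ∧
      p2 y = R * Matrix.diagonal (Pi.single 1 1) * Rᵀ := by
    intro y hy hty
    obtain ⟨R, s, hR, hs, hP⟩ := hAH y hy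
    obtain ⟨e1, e2, e3, e4, e5⟩ := hA04.2 (v y) R s hR hP
    have hss : √(tt (v y)) = s := by rw [e2, Real.sqrt_sq hs]
    have hs0 : s ≠ 0 := by
      rintro rfl
      rw [e2] at hty
      simp at hty
    refine ⟨R, hR, ?_, ?_, ?_⟩
    · rw [hss]
      exact hP
    · rw [e3]
      congr 3
      ext i
      fin_cases i <;> simp
    · change (1 / 2 : ℝ) • (Pp (v y) + (√(tt (v y)))⁻¹ • Zz (v y)) = _
      rw [hss, e4, e5]
      have h1 : (1 / 2 : ℝ) • (Matrix.diagonal ![0, 1, 1] + s⁻¹ • Matrix.diagonal ![0, s, -s]) =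
          (Matrix.diagonal (Pi.single 1 1) : M3) := by
        ext i j
        fin_cases i <;> fin_cases j <;> simp [hs0]
        norm_num
      rw [← h1, Matrix.mul_smul, Matrix.smul_mul, Matrix.mul_add, Matrix.add_mul, Matrix.mul_smul,
        Matrix.smul_mul]
  obtain ⟨R0, hR0, hP0, hl0, hq0⟩ := pt x hx htx
  let u1 : Fin 3 → ℝ := fun i => R0 i 0
  let u2 : Fin 3 → ℝ := fun i => R0 i 1
  have n1 : ∑ k, ((ell (v x)).mulVec u1) k ^ 2 ≠ 0 := by
    rw [hl0, sum_sq hR0.1, self_mulVec hR0.1]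
    norm_num
  have n2 : ∑ k, ((p2 x).mulVec u2) k ^ 2 ≠ 0 := by
    rw [hq0, sum_sq hR0.1, self_mulVec hR0.1]
    norm_num
  have s1 := fun i => sell.nv u1 n1 i
  have s2 := fun i => sp2.nv u2 n2 i
  refine ⟨fun y => mk (nv (ell (v y)) u1) (nv (p2 y) u2), ?_, ssq, ?_⟩
  · intro i j
    fin_cases i <;> fin_cases j
    · exact s1 0
    · exact s2 0
    · exact ((s1 1).mul (s2 2)).sub ((s1 2).mul (s2 1))
    · exact s1 1
    · exact s2 1
    · exact ((s1 2).mul (s2 0)).sub ((s1 0).mul (s2 2))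
    · exact s1 2
    · exact s2 2
    · exact ((s1 0).mul (s2 1)).sub ((s1 1).mul (s2 0))
  · have ev1 : ∀ᶠ y in nhds x, y ∈ U := hU.mem_nhds hx
    have ev2 : ∀ᶠ y in nhds x, 0 < tt (v y) :=
      stt.continuousAt.eventually (lt_mem_nhds htx)
    have ev3 : ∀ᶠ y in nhds x, ∑ k, ((ell (v y)).mulVec u1) k ^ 2 ≠ 0 :=
      (sell.sumSq u1).continuousAt.eventually_ne n1
    have ev4 : ∀ᶠ y in nhds x, ∑ k, ((p2 y).mulVec u2) k ^ 2 ≠ 0 :=
      (sp2.sumSq u2).continuousAt.eventually_ne n2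
    filter_upwards [ev1, ev2, ev3, ev4] with y hy hty h3 h4
    obtain ⟨R, hR, hP, hl, hq⟩ := pt y hy hty
    rw [hl] at h3
    rw [hq] at h4
    obtain ⟨e, he, h5⟩ := nv_eq hR.1 u1 0 h3
    obtain ⟨f, hf, h6⟩ := nv_eq hR.1 u2 1 h4
    rw [hl, hq, h5, h6, mk_eq hR]
    obtain ⟨h7, h8⟩ := rot_diag hR he hf √(tt (v y))
    exact ⟨h7, Real.sqrt_pos.2 hty, by rw [h8]; exact hP⟩

end Pool.Agent.FUE
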