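import Pool.Agent.FUE.StH

/-!
# FUE, H02: a pointwise computation
-/

set_option autoImplicit false

open scoped Manifold ContDiff Matrix
open MeasureTheory

namespace Pool.Agent.FUE

namespace H02x

theorem alg (a b c x00 x01 x02 x10 x11 x12 x20 x21 x22 n0 n1 n2 : ℝ) (ha : a ≠ 0) (hb : b ≠ 0)
    (hc : c ≠ 0) (h : a * x00 + b * x11 + c * x22 = 0) (h0 : n0 = b * x21 - c * x12)
    (h1 : n1 = c * x02 - a * x20) (h2 : n2 = a * x10 - b * x01) :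
    ((x21 * (c * x12) - x22 * (b * x11)) - (x11 * (c * x22) - x12 * (b * x21))
        - a * (x21 * x12 - x22 * x11)
        + (a ^ 2 - (b - c) ^ 2) / (2 * b * c) * (n2 * x10 - n1 * x20))
      + ((x02 * (a * x20) - x00 * (c * x22)) - (x22 * (a * x00) - x20 * (c * x02))
        - b * (x02 * x20 - x00 * x22)
        + (b ^ 2 - (c - a) ^ 2) / (2 * c * a) * (n0 * x21 - n2 * x01))
      + ((x10 * (b * x01) - x11 * (a * x00)) - (x00 * (b * x11) - x01 * (a * x10))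
        - c * (x10 * x01 - x11 * x00)
        + (c ^ 2 - (a - b) ^ 2) / (2 * a * b) * (n1 * x02 - n0 * x12)) =
      (a ^ 2 - (b - c) ^ 2) / (2 * b * c) / a * ((a * x00) ^ 2 + (a * x10) ^ 2 + (a * x20) ^ 2)
      + (b ^ 2 - (c - a) ^ 2) / (2 * c * a) / b * ((b * x01) ^ 2 + (b * x11) ^ 2 + (b * x21) ^ 2)
      + (c ^ 2 - (a - b) ^ 2) / (2 * a * b) / c *
        ((c * x02) ^ 2 + (c * x12) ^ 2 + (c * x22) ^ 2) := by
  have hx : x22 = -(a * x00 + b * x11) / c := by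
    field_simp
    linear_combination h
  subst h0 h1 h2 hx
  field_simp
  ring

end H02x

theorem thm_H02 : St_H02 := by
  intro a b c Om nu ha hb hc h h0 h1 h2 q q' T
  have key := H02x.alg a b c (Om 0 0) (Om 0 1) (Om 0 2) (Om 1 0) (Om 1 1) (Om 1 2) (Om 2 0)
    (Om 2 1) (Om 2 2) (nu 0) (nu 1) (nu 2) ha hb hc h h0 h1 h2
  have e1 : T 2 1 0 = (Om 2 1 * (c * Om 1 2) - Om 2 2 * (b * Om 1 1)) -
      (Om 1 1 * (c * Om 2 2) - Om 1 2 * (b * Om 2 1)) - a * (Om 2 1 * Om 1 2 - Om 2 2 * Om 1 1) +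
      (a ^ 2 - (b - c) ^ 2) / (2 * b * c) * (nu 2 * Om 1 0 - nu 1 * Om 2 0) := by
    simp [T, q, q', cross_apply, Matrix.vecHead, Matrix.vecTail]
  have e2 : T 0 2 1 = (Om 0 2 * (a * Om 2 0) - Om 0 0 * (c * Om 2 2)) -
      (Om 2 2 * (a * Om 0 0) - Om 2 0 * (c * Om 0 2)) - b * (Om 0 2 * Om 2 0 - Om 0 0 * Om 2 2) +
      (b ^ 2 - (c - a) ^ 2) / (2 * c * a) * (nu 0 * Om 2 1 - nu 2 * Om 0 1) := by
    simp [T, q, q', cross_apply, Matrix.vecHead, Matrix.vecTail]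
  have e3 : T 1 0 2 = (Om 1 0 * (b * Om 0 1) - Om 1 1 * (a * Om 0 0)) -
      (Om 0 0 * (b * Om 1 1) - Om 0 1 * (a * Om 1 0)) - c * (Om 1 0 * Om 0 1 - Om 1 1 * Om 0 0) +
      (c ^ 2 - (a - b) ^ 2) / (2 * a * b) * (nu 1 * Om 0 2 - nu 0 * Om 1 2) := by
    simp [T, q, q', cross_apply, Matrix.vecHead, Matrix.vecTail]
  rw [e1, e2, e3, key]
  simp [q, q', Fin.sum_univ_three]

end Pool.Agent.FUE
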