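import Pool.Agent.FUE.StH
import Pool.Agent.FUE.A09

/-!
# FUE/H03 (helper57): the Laplacian of the distance to the bolt along a flat Fueter map
-/

set_option autoImplicit false
set_option linter.unusedSimpArgs false

open scoped Manifold ContDiff Matrix
open MeasureTheory

namespace Pool.Agent.FUE.H03x

open A09x

/-- the coefficients `a, b, c` -/
noncomputable def qf (pr : Profile) (t : ℝ) : Fin 3 → ℝ := ![pr.a t, pr.b t, pr.c t]

/-- their derivatives -/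
noncomputable def qd (pr : Profile) (t : ℝ) : Fin 3 → ℝ :=
  ![(pr.a t ^ 2 - (pr.b t - pr.c t) ^ 2) / (2 * pr.b t * pr.c t),
    (pr.b t ^ 2 - (pr.c t - pr.a t) ^ 2) / (2 * pr.c t * pr.a t),
    (pr.c t ^ 2 - (pr.a t - pr.b t) ^ 2) / (2 * pr.a t * pr.b t)]

theorem q_der (hA01 : St_A01) (pr : Profile) (t : ℝ) (ht : 0 < t) (i : Fin 3) :
    HasDerivAt (fun r => qf pr r i) (qd pr t i) t := by
  obtain ⟨-, da, db, dc⟩ := hA01.2.2.1 pr t ht
  fin_cases i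
  · exact da
  · exact db
  · exact dc

/-- `(R A Om_m)_n` -/
noncomputable def VV (pr : Profile) (R : E3 → Matrix (Fin 3) (Fin 3) ℝ) (s : E3 → ℝ) (m n : Fin 3)
    (y : E3) : ℝ := ∑ i, R y n i * (qf pr (s y) i * Om R m y i)

/-- the second derivative part of the derivative of `Om` -/
noncomputable def XX (R : E3 → Matrix (Fin 3) (Fin 3) ℝ) (x : E3) (a b : Fin 3) : Fin 3 → ℝ :=
  ax ((Rd R a x)ᵀ * Rd R b x + (R x)ᵀ *
      Matrix.of (fun k m => fderiv ℝ (fun y => fderiv ℝ (fun z => R z k m) y (bs b)) x (bs a)))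

theorem VV_der (hA01 : St_A01) (pr : Profile) {R : E3 → Matrix (Fin 3) (Fin 3) ℝ} {s : E3 → ℝ}
    {u : E3 → V9} {x : E3} (h : Gd R s u x) (j m n : Fin 3) :
    DV (VV pr R s m n) x (bs j) (∑ i, ((R x * hat (Om R j x)) n i * (qf pr (s x) i * Om R m x i) +
      R x n i * ((qd pr (s x) i * fderiv ℝ s x (bs j)) * Om R m x i +
        qf pr (s x) i * XX R x j m i))) := by
  have hs : DV s x (bs j) (fderiv ℝ s x (bs j)) :=
    DV.of_diff (h.2.2.differentiableAt (by norm_num)) (bs j)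
  rw [← h.RO j]
  refine DV.sum (fun i => ?_)
  refine (h.DR j n i).mul (DV.mul (g := fun y => Om R m y i) (f := fun y => qf pr (s y) i)
      (d := qd pr (s x) i * fderiv ℝ s x (bs j)) ?_ (DOm h j m i))
  exact hs.comp (q_der hA01 pr (s x) h.rot.2.2.2.1 i)

/-- entries of a rotation -/
theorem rot_facts (R : Matrix (Fin 3) (Fin 3) ℝ) (h : IsRot R) :
    (∀ j k, R j 0 * R k 0 + R j 1 * R k 1 + R j 2 * R k 2 = if j = k then 1 else 0) ∧
    R 0 0 = R 1 1 * R 2 2 - R 1 2 * R 2 1 ∧ R 0 1 = R 1 2 * R 2 0 - R 1 0 * R 2 2 ∧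
    R 0 2 = R 1 0 * R 2 1 - R 1 1 * R 2 0 ∧
    R 1 0 = R 2 1 * R 0 2 - R 2 2 * R 0 1 ∧ R 1 1 = R 2 2 * R 0 0 - R 2 0 * R 0 2 ∧
    R 1 2 = R 2 0 * R 0 1 - R 2 1 * R 0 0 ∧
    R 2 0 = R 0 1 * R 1 2 - R 0 2 * R 1 1 ∧ R 2 1 = R 0 2 * R 1 0 - R 0 0 * R 1 2 ∧
    R 2 2 = R 0 0 * R 1 1 - R 0 1 * R 1 0 := by
  have h1 : R * Rᵀ = 1 := mul_eq_one_comm.1 h.1
  have h2 : R.adjugate = Rᵀ := by
    have h3 : R * R.adjugate = 1 := by
      rw [Matrix.mul_adjugate, h.2, one_smul]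
    calc R.adjugate = (Rᵀ * R) * R.adjugate := by rw [h.1, Matrix.one_mul]
      _ = Rᵀ := by rw [Matrix.mul_assoc, h3, Matrix.mul_one]
  have e : ∀ i j, R.adjugate i j = R j i := fun i j => by rw [h2]; rfl
  rw [Matrix.adjugate_fin_three] at e
  refine ⟨?_, ?_, ?_, ?_, ?_, ?_, ?_, ?_, ?_, ?_⟩
  · intro j k
    have h4 := congrFun (congrFun h1 j) k
    rw [Matrix.mul_apply, Fin.sum_univ_three, Matrix.one_apply] at h4
    exact h4
  · have := e 0 0; simp at this; linarith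
  · have := e 1 0; simp at this; linarith
  · have := e 2 0; simp at this; linarith
  · have := e 0 1; simp at this; linarith
  · have := e 1 1; simp at this; linarith
  · have := e 2 1; simp at this; linarith
  · have := e 0 2; simp at this; linarith
  · have := e 1 2; simp at this; linarith
  · have := e 2 2; simp at this; linarith

/-- the four components of the Fueter equation -/
theorem comps (pr : Profile) (R : Matrix (Fin 3) (Fin 3) ℝ) (t : ℝ) (hal : pr.al (t ^ 2) ≠ 0)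
    (hb : pr.b t ≠ 0) (hc : pr.c t ≠ 0) (nu : Fin 3 → ℝ) (w : Fin 3 → Fin 3 → ℝ)
    (h : ∑ j, ∑ i, R j i • (Ic pr t i).mulVec ![nu j, 2 * t * w j 0, w j 1, w j 2] = 0) :
    (∑ j, ∑ i, R j i * (qf pr t i * w j i) = 0) ∧
    (∑ j, (R j 0 * nu j + R j 1 * (qf pr t 2 * w j 2) - R j 2 * (qf pr t 1 * w j 1)) = 0) ∧
    (∑ j, (-(R j 0 * (qf pr t 2 * w j 2)) + R j 1 * nu j + R j 2 * (qf pr t 0 * w j 0)) = 0) ∧
    (∑ j, (R j 0 * (qf pr t 1 * w j 1) - R j 1 * (qf pr t 0 * w j 0) + R j 2 * nu j) = 0) := by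
  have e : ∀ k : Fin 4, ∑ j, ∑ i, R j i * ((Ic pr t i).mulVec
      ![nu j, 2 * t * w j 0, w j 1, w j 2] k) = 0 := by
    intro k
    have h1 := congrFun h k
    simpa [Finset.sum_apply] using h1
  have e0 := e 0
  have e1 := e 1
  have e2 := e 2
  have e3 := e 3
  have ha : pr.a t = t * pr.al (t ^ 2) := rfl
  simp only [Ic, Matrix.mulVec, dotProduct, Fin.sum_univ_three, Fin.sum_univ_four,
    Matrix.of_apply, Matrix.cons_val_zero, Matrix.cons_val_one, Matrix.cons_val] at e0 e1 e2 e3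
  simp only [qf, Fin.sum_univ_three, Matrix.cons_val_zero, Matrix.cons_val_one, Matrix.cons_val, ha]
  generalize pr.al (t ^ 2) = al at *
  generalize pr.b t = b at *
  generalize pr.c t = c at *
  refine ⟨?_, ?_, ?_, ?_⟩
  · linear_combination -e0
  · field_simp at e1
    linear_combination e1 / 2
  · field_simp at e2
    linear_combination e2
  · field_simp at e3
    linear_combination e3


theorem nu_eq (R : Matrix (Fin 3) (Fin 3) ℝ) (hR : IsRot R) (F : Fin 3 → Fin 3 → ℝ)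
    (nu : Fin 3 → ℝ)
    (E1 : ∑ j, (R j 0 * nu j + R j 1 * F j 2 - R j 2 * F j 1) = 0)
    (E2 : ∑ j, (-(R j 0 * F j 2) + R j 1 * nu j + R j 2 * F j 0) = 0)
    (E3 : ∑ j, (R j 0 * F j 1 - R j 1 * F j 0 + R j 2 * nu j) = 0) :
    nu 0 = ∑ i, R 1 i * F 2 i - ∑ i, R 2 i * F 1 i ∧
    nu 1 = ∑ i, R 2 i * F 0 i - ∑ i, R 0 i * F 2 i ∧
    nu 2 = ∑ i, R 0 i * F 1 i - ∑ i, R 1 i * F 0 i := by
  obtain ⟨e, c00, c01, c02, c10, c11, c12, c20, c21, c22⟩ := rot_facts R hR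
  have e00 := e 0 0
  have e01 := e 0 1
  have e02 := e 0 2
  have e11 := e 1 1
  have e12 := e 1 2
  have e22 := e 2 2
  simp at e00 e01 e02 e11 e12 e22
  simp only [Fin.sum_univ_three] at E1 E2 E3 ⊢
  refine ⟨?_, ?_, ?_⟩
  · linear_combination R 0 0 * E1 + R 0 1 * E2 + R 0 2 * E3 - nu 0 * e00 - nu 1 * e01 - nu 2 * e02
      + F 1 2 * c22 + F 1 1 * c21 + F 1 0 * c20 - F 2 2 * c12 - F 2 1 * c11 - F 2 0 * c10
  · linear_combination R 1 0 * E1 + R 1 1 * E2 + R 1 2 * E3 - nu 0 * e01 - nu 1 * e11 - nu 2 * e12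
      + F 2 2 * c02 + F 2 1 * c01 + F 2 0 * c00 - F 0 2 * c22 - F 0 1 * c21 - F 0 0 * c20
  · linear_combination R 2 0 * E1 + R 2 1 * E2 + R 2 2 * E3 - nu 0 * e02 - nu 1 * e12 - nu 2 * e22
      + F 0 2 * c12 + F 0 1 * c11 + F 0 0 * c10 - F 1 2 * c02 - F 1 1 * c01 - F 1 0 * c00

/-- the vector of [H02] -/
def TT (q q' : Fin 3 → ℝ) (w : Fin 3 → Fin 3 → ℝ) (nu : Fin 3 → ℝ) (j m : Fin 3) : Fin 3 → ℝ :=
  (crossProduct (w j) (fun i => q i * w m i))
      - (crossProduct (w m) (fun i => q i * w j i))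
      - (fun i => q i * (crossProduct (w j) (w m)) i)
      + (fun i => q' i * (nu j * w m i - nu m * w j i))

theorem TT_val (q q' : Fin 3 → ℝ) (w : Fin 3 → Fin 3 → ℝ) (nu : Fin 3 → ℝ) (j m : Fin 3) :
    TT q q' w nu j m 0 = (q 1 + q 2 - q 0) * (w j 1 * w m 2 - w j 2 * w m 1)
      + q' 0 * (nu j * w m 0 - nu m * w j 0) ∧
    TT q q' w nu j m 1 = (q 2 + q 0 - q 1) * (w j 2 * w m 0 - w j 0 * w m 2)
      + q' 1 * (nu j * w m 1 - nu m * w j 1) ∧
    TT q q' w nu j m 2 = (q 0 + q 1 - q 2) * (w j 0 * w m 1 - w j 1 * w m 0)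
      + q' 2 * (nu j * w m 2 - nu m * w j 2) := by
  refine ⟨?_, ?_, ?_⟩ <;> simp [TT, cross_apply, Matrix.vecHead, Matrix.vecTail] <;> ring

/-- the derivative of `V` -/
noncomputable def Dd (q q' : Fin 3 → ℝ) (R : Matrix (Fin 3) (Fin 3) ℝ) (w : Fin 3 → Fin 3 → ℝ)
    (nu : Fin 3 → ℝ) (X : Fin 3 → Fin 3 → Fin 3 → ℝ) (j m n : Fin 3) : ℝ :=
  ∑ i, ((R * hat (w j)) n i * (q i * w m i) +
      R n i * ((q' i * nu j) * w m i + q i * X j m i))

theorem Dd_diff (q q' : Fin 3 → ℝ) (R : Matrix (Fin 3) (Fin 3) ℝ) (w : Fin 3 → Fin 3 → ℝ)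
    (nu : Fin 3 → ℝ) (X : Fin 3 → Fin 3 → Fin 3 → ℝ) (j m n : Fin 3)
    (hX : ∀ i, X j m i - X m j i = (![-(w j 1 * w m 2 - w j 2 * w m 1),
      -(w j 2 * w m 0 - w j 0 * w m 2), -(w j 0 * w m 1 - w j 1 * w m 0)] : Fin 3 → ℝ) i) :
    Dd q q' R w nu X j m n - Dd q q' R w nu X m j n =
      R n 0 * TT q q' w nu j m 0 + R n 1 * TT q q' w nu j m 1 + R n 2 * TT q q' w nu j m 2 := by
  have h0 := hX 0
  have h1 := hX 1
  have h2 := hX 2
  simp only [Matrix.cons_val_zero, Matrix.cons_val_one, Matrix.cons_val] at h0 h1 h2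
  have e : ∀ w : Fin 3 → ℝ, (R * hat w) n 0 = R n 1 * w 2 - R n 2 * w 1 ∧
      (R * hat w) n 1 = R n 2 * w 0 - R n 0 * w 2 ∧
      (R * hat w) n 2 = R n 0 * w 1 - R n 1 * w 0 := by
    intro w
    refine ⟨?_, ?_, ?_⟩ <;> simp [Matrix.mul_apply, Fin.sum_univ_three, hat] <;> ring
  obtain ⟨t0, t1, t2⟩ := TT_val q q' w nu j m
  rw [t0, t1, t2]
  simp only [Dd, Fin.sum_univ_three]
  rw [(e (w j)).1, (e (w j)).2.1, (e (w j)).2.2, (e (w m)).1, (e (w m)).2.1, (e (w m)).2.2]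
  linear_combination R n 0 * q 0 * h0 + R n 1 * q 1 * h1 + R n 2 * q 2 * h2

theorem TT_rot (q q' : Fin 3 → ℝ) (R : Matrix (Fin 3) (Fin 3) ℝ) (hR : IsRot R)
    (w : Fin 3 → Fin 3 → ℝ) (nu : Fin 3 → ℝ) :
    (R 0 0 * TT q q' w nu 2 1 0 + R 0 1 * TT q q' w nu 2 1 1 + R 0 2 * TT q q' w nu 2 1 2) +
    (R 1 0 * TT q q' w nu 0 2 0 + R 1 1 * TT q q' w nu 0 2 1 + R 1 2 * TT q q' w nu 0 2 2) +
    (R 2 0 * TT q q' w nu 1 0 0 + R 2 1 * TT q q' w nu 1 0 1 + R 2 2 * TT q q' w nu 1 0 2) =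
    TT q q' (fun i k => ∑ j, R j i * w j k) (fun i => ∑ j, R j i * nu j) 2 1 0 +
    TT q q' (fun i k => ∑ j, R j i * w j k) (fun i => ∑ j, R j i * nu j) 0 2 1 +
    TT q q' (fun i k => ∑ j, R j i * w j k) (fun i => ∑ j, R j i * nu j) 1 0 2 := by
  obtain ⟨-, c00, c01, c02, c10, c11, c12, c20, c21, c22⟩ := rot_facts R hR
  obtain ⟨a0, a1, a2⟩ := TT_val q q' w nu 2 1
  obtain ⟨b0, b1, b2⟩ := TT_val q q' w nu 0 2
  obtain ⟨d0, d1, d2⟩ := TT_val q q' w nu 1 0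
  rw [(TT_val q q' (fun i k => ∑ j, R j i * w j k) (fun i => ∑ j, R j i * nu j) 2 1).1,
    (TT_val q q' (fun i k => ∑ j, R j i * w j k) (fun i => ∑ j, R j i * nu j) 0 2).2.1,
    (TT_val q q' (fun i k => ∑ j, R j i * w j k) (fun i => ∑ j, R j i * nu j) 1 0).2.2]
  rw [a0, a1, a2, b0, b1, b2, d0, d1, d2]
  simp only [Fin.sum_univ_three]
  linear_combination
    ((q 1 + q 2 - q 0) * (w 2 1 * w 1 2 - w 2 2 * w 1 1)
      + q' 0 * (nu 2 * w 1 0 - nu 1 * w 2 0)) * c00 +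
    ((q 2 + q 0 - q 1) * (w 2 2 * w 1 0 - w 2 0 * w 1 2)
      + q' 1 * (nu 2 * w 1 1 - nu 1 * w 2 1)) * c01 +
    ((q 0 + q 1 - q 2) * (w 2 0 * w 1 1 - w 2 1 * w 1 0)
      + q' 2 * (nu 2 * w 1 2 - nu 1 * w 2 2)) * c02 +
    ((q 1 + q 2 - q 0) * (w 0 1 * w 2 2 - w 0 2 * w 2 1)
      + q' 0 * (nu 0 * w 2 0 - nu 2 * w 0 0)) * c10 +
    ((q 2 + q 0 - q 1) * (w 0 2 * w 2 0 - w 0 0 * w 2 2)
      + q' 1 * (nu 0 * w 2 1 - nu 2 * w 0 1)) * c11 +
    ((q 0 + q 1 - q 2) * (w 0 0 * w 2 1 - w 0 1 * w 2 0)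
      + q' 2 * (nu 0 * w 2 2 - nu 2 * w 0 2)) * c12 +
    ((q 1 + q 2 - q 0) * (w 1 1 * w 0 2 - w 1 2 * w 0 1)
      + q' 0 * (nu 1 * w 0 0 - nu 0 * w 1 0)) * c20 +
    ((q 2 + q 0 - q 1) * (w 1 2 * w 0 0 - w 1 0 * w 0 2)
      + q' 1 * (nu 1 * w 0 1 - nu 0 * w 1 1)) * c21 +
    ((q 0 + q 1 - q 2) * (w 1 0 * w 0 1 - w 1 1 * w 0 0)
      + q' 2 * (nu 1 * w 0 2 - nu 0 * w 1 2)) * c22

theorem XX_diff {R : E3 → Matrix (Fin 3) (Fin 3) ℝ} {s : E3 → ℝ} {u : E3 → V9} {x : E3}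
    (h : Gd R s u x) (j m : Fin 3) (i : Fin 3) :
    XX R x j m i - XX R x m j i = (![-(Om R j x 1 * Om R m x 2 - Om R j x 2 * Om R m x 1),
      -(Om R j x 2 * Om R m x 0 - Om R j x 0 * Om R m x 2),
      -(Om R j x 0 * Om R m x 1 - Om R j x 1 * Om R m x 0)] : Fin 3 → ℝ) i := by
  unfold XX
  rw [sym2 h m j]
  exact ax_key h j m _ i

theorem lap_val (pr : Profile) (t : ℝ) (ha : pr.a t ≠ 0) (hb : pr.b t ≠ 0) (hc : pr.c t ≠ 0)
    (R : Matrix (Fin 3) (Fin 3) ℝ) (w : Fin 3 → Fin 3 → ℝ) (nu : Fin 3 → ℝ) :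
    ∑ n, qd pr t n / qf pr t n * ∑ m, (qf pr t n * ∑ j, R j m * w j n) ^ 2 =
      lapS pr t (fun i k => ∑ j, R j i * (![nu j, 2 * t * w j 0, w j 1, w j 2] : Fin 4 → ℝ) k) := by
  have ha' : pr.a t = t * pr.al (t ^ 2) := rfl
  unfold lapS
  simp only [qd, qf, Fin.sum_univ_three, Matrix.cons_val_zero, Matrix.cons_val_one,
    Matrix.cons_val]
  have e1 : ∀ m, pr.al (t ^ 2) / 2 * (R 0 m * (2 * t * w 0 0) + R 1 m * (2 * t * w 1 0)
      + R 2 m * (2 * t * w 2 0)) = pr.a t * (R 0 m * w 0 0 + R 1 m * w 1 0 + R 2 m * w 2 0) := by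
    intro m
    rw [ha']; ring
  rw [e1, e1, e1]
  generalize pr.a t = a at *
  generalize pr.b t = b at *
  generalize pr.c t = c at *
  field_simp
  ring

end Pool.Agent.FUE.H03x

namespace Pool.Agent.FUE

open A09x H03x

/-- **[H03]** -/
theorem thm_H03 (hA01 : St_A01) (hA12 : St_A12) (hH01 : St_H01) (hH02 : St_H02) : St_H03 := by
  intro pr U v hU hv x hxU htt
  obtain ⟨R, hRs, hss, hev⟩ := hH01 U v hU hv.smooth hv.mem x hxU htt
  have hG : ∀ᶠ y in nhds x, Gd R (fun z => √(tt (v z))) v y := by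
    have h1 : ∀ᶠ y in nhds x, ∀ i j, ContDiffAt ℝ 2 (fun z => R z i j) y := by
      rw [Filter.eventually_all]
      intro i
      rw [Filter.eventually_all]
      intro j
      exact ((hRs i j).of_le (WithTop.coe_le_coe.2 le_top)).eventually (by simp)
    have h2 : ∀ᶠ y in nhds x, ContDiffAt ℝ 2 (fun z => √(tt (v z))) y :=
      (hss.of_le (WithTop.coe_le_coe.2 le_top)).eventually (by simp)
    filter_upwards [hev.eventually_nhds, h1, h2] with y h3 h4 h5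
    exact ⟨h3, h4, h5⟩
  set s : E3 → ℝ := fun z => √(tt (v z)) with hs_def
  have hF : ∀ᶠ y in nhds x,
      ∑ j, ∑ i, R y j i • (Ic pr (s y) i).mulVec (hh R s j y) = 0 := by
    filter_upwards [hG, hU.mem_nhds hxU] with y hy hyU
    exact hA12.2 pr (v y) (fun j => du v y j) (R y) (s y) (fun j => hh R s j y) (hv.eq y hyU)
      hy.rot.2.2.1 hy.rot.2.2.2.1.le hy.rot.2.2.2.2 (fun j => hy.du j)
  have hcomp : ∀ᶠ y in nhds x,
      (∑ j, ∑ i, R y j i * (qf pr (s y) i * Om R j y i) = 0) ∧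
      (fderiv ℝ s y (bs 0) = VV pr R s 2 1 y - VV pr R s 1 2 y ∧
      fderiv ℝ s y (bs 1) = VV pr R s 0 2 y - VV pr R s 2 0 y ∧
      fderiv ℝ s y (bs 2) = VV pr R s 1 0 y - VV pr R s 0 1 y) := by
    filter_upwards [hG, hF] with y hy hFy
    have hsy := hy.rot.2.2.2.1
    obtain ⟨hb, hc, -, -, -⟩ := hA01.2.1 pr (s y) hsy.le
    have hal := hA01.1 pr (s y ^ 2) (sq_nonneg _)
    obtain ⟨E0, E1, E2, E3⟩ := comps pr (R y) (s y) hal.ne' hb.ne' hc.ne
      (fun j => fderiv ℝ s y (bs j)) (fun j => Om R j y) hFy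
    refine ⟨E0, ?_⟩
    exact nu_eq (R y) hy.rot.2.2.1 (fun m i => qf pr (s y) i * Om R m y i)
      (fun j => fderiv ℝ s y (bs j)) E1 E2 E3
  have hGx := hG.self_of_nhds
  have hsx := hGx.rot.2.2.2.1
  have hrot := hGx.rot.2.2.1
  obtain ⟨hb, hc, -, -, -⟩ := hA01.2.1 pr (s x) hsx.le
  have hal := hA01.1 pr (s x ^ 2) (sq_nonneg _)
  have ha := (hA01.2.2.1 pr (s x) hsx).1
  refine ⟨R x, fun j => hh R s j x, hrot, hGx.rot.2.2.2.2, fun j => hGx.du j, fun j => rfl, ?_, ?_⟩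
  · have h1 := hF.self_of_nhds
    have h2 : ∀ i : Fin 3, (Ic pr (s x) i).mulVec (fun k => ∑ j, R x j i * hh R s j x k) =
        ∑ j, R x j i • (Ic pr (s x) i).mulVec (hh R s j x) := by
      intro i
      have h3 : (fun k => ∑ j, R x j i * hh R s j x k) = ∑ j, R x j i • hh R s j x := by
        ext k
        simp [Finset.sum_apply]
      rw [h3, Matrix.mulVec_sum]
      exact Finset.sum_congr rfl fun j _ => Matrix.mulVec_smul _ _ _
    show ∑ i, (Ic pr (s x) i).mulVec (fun k => ∑ j, R x j i * hh R s j x k) = 0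
    rw [Finset.sum_congr rfl fun i _ => h2 i, Finset.sum_comm]
    exact h1
  · obtain ⟨E0, -⟩ := hcomp.self_of_nhds
    have hFx := hF.self_of_nhds
    obtain ⟨-, E1, E2, E3⟩ := comps pr (R x) (s x) hal.ne' hb.ne' hc.ne
      (fun j => fderiv ℝ s x (bs j)) (fun j => Om R j x) hFx
    -- the three derivatives
    have hV : ∀ j m n, DV (VV pr R s m n) x (bs j) (Dd (qf pr (s x)) (qd pr (s x)) (R x)
        (fun j => Om R j x) (fun j => fderiv ℝ s x (bs j)) (XX R x) j m n) := fun j m n =>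
      VV_der hA01 pr hGx j m n
    have d0 := ((hV 0 2 1).sub (hV 0 1 2)).congr (f := fun y => fderiv ℝ s y (bs 0))
      (by filter_upwards [hcomp] with y hy; exact hy.2.1)
    have d1 := ((hV 1 0 2).sub (hV 1 2 0)).congr (f := fun y => fderiv ℝ s y (bs 1))
      (by filter_upwards [hcomp] with y hy; exact hy.2.2.1)
    have d2 := ((hV 2 1 0).sub (hV 2 0 1)).congr (f := fun y => fderiv ℝ s y (bs 2))
      (by filter_upwards [hcomp] with y hy; exact hy.2.2.2)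
    have hW : ∀ j m n, _ := fun j m n => Dd_diff (qf pr (s x)) (qd pr (s x)) (R x)
      (fun j => Om R j x) (fun j => fderiv ℝ s x (bs j)) (XX R x) j m n (XX_diff hGx j m)
    have hTR := TT_rot (qf pr (s x)) (qd pr (s x)) (R x) hrot (fun j => Om R j x)
      (fun j => fderiv ℝ s x (bs j))
    have hfin := hH02 (pr.a (s x)) (pr.b (s x)) (pr.c (s x))
      (fun i k => ∑ j, R x j i * Om R j x k) (fun i => ∑ j, R x j i * fderiv ℝ s x (bs j))
      ha.ne' hb.ne' hc.ne ?_ ?_ ?_ ?_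
    · have hfin' : TT (qf pr (s x)) (qd pr (s x)) (fun i k => ∑ j, R x j i * Om R j x k)
          (fun i => ∑ j, R x j i * fderiv ℝ s x (bs j)) 2 1 0 +
          TT (qf pr (s x)) (qd pr (s x)) (fun i k => ∑ j, R x j i * Om R j x k)
          (fun i => ∑ j, R x j i * fderiv ℝ s x (bs j)) 0 2 1 +
          TT (qf pr (s x)) (qd pr (s x)) (fun i k => ∑ j, R x j i * Om R j x k)
          (fun i => ∑ j, R x j i * fderiv ℝ s x (bs j)) 1 0 2 =
          ∑ n, qd pr (s x) n / qf pr (s x) n *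
            ∑ m, (qf pr (s x) n * ∑ j, R x j m * Om R j x n) ^ 2 := hfin
      rw [lap_val pr (s x) ha.ne' hb.ne' hc.ne (R x) (fun j => Om R j x)
        (fun j => fderiv ℝ s x (bs j))] at hfin'
      rw [Fin.sum_univ_three]
      show fderiv ℝ (fun y => fderiv ℝ s y (bs 0)) x (bs 0) +
        fderiv ℝ (fun y => fderiv ℝ s y (bs 1)) x (bs 1) +
        fderiv ℝ (fun y => fderiv ℝ s y (bs 2)) x (bs 2) = lapS pr (s x) _
      rw [d0.2, d1.2, d2.2]
      have w0 := hW 2 1 0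
      have w1 := hW 0 2 1
      have w2 := hW 1 0 2
      have goal2 : lapS pr (s x) (fun i k => ∑ j, R x j i * hh R s j x k) =
          lapS pr (s x) (fun i k => ∑ j, R x j i *
            (![fderiv ℝ s x (bs j), 2 * s x * Om R j x 0, Om R j x 1, Om R j x 2] : Fin 4 → ℝ) k) :=
        rfl
      show _ = lapS pr (s x) (fun i k => ∑ j, R x j i * hh R s j x k)
      rw [goal2]
      linarith
    · simp only [Fin.sum_univ_three, qf, Matrix.cons_val_zero, Matrix.cons_val_one,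
        Matrix.cons_val] at E0 ⊢
      linear_combination E0
    · simp only [Fin.sum_univ_three, qf, Matrix.cons_val_zero, Matrix.cons_val_one,
        Matrix.cons_val] at E1 ⊢
      linear_combination E1
    · simp only [Fin.sum_univ_three, qf, Matrix.cons_val_zero, Matrix.cons_val_one,
        Matrix.cons_val] at E2 ⊢
      linear_combination E2
    · simp only [Fin.sum_univ_three, qf, Matrix.cons_val_zero, Matrix.cons_val_one,
        Matrix.cons_val] at E3 ⊢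
      linear_combination E3

end Pool.Agent.FUE
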