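import Pool.Agent.FUE.StH

/-!
# [H04] positivity
-/

set_option autoImplicit false

open scoped Manifold ContDiff Matrix
open MeasureTheory

namespace Pool.Agent.FUE

namespace H04x

theorem pair {p q δ M x y ν : ℝ} (hδ : 0 < δ) (hp : |p| ≤ M) (hpq : δ ≤ p + q)
    (hν : x - y = ν) :
    δ / 4 * (x ^ 2 + y ^ 2) ≤ p * x ^ 2 + q * y ^ 2 + (2 * (M + δ) ^ 2 / δ + (M + δ)) * ν ^ 2 := by
  have hx : x = y + ν := by linarith
  subst hx
  have hM : 0 ≤ M := (abs_nonneg p).trans hp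
  have hp1 := (abs_le.1 hp).1
  have hp2 := (abs_le.1 hp).2
  have hP : |p - δ / 4| ≤ M + δ := by
    rw [abs_le]
    constructor <;> linarith
  have hP2 : (p - δ / 4) ^ 2 ≤ (M + δ) ^ 2 := by
    rw [← sq_abs (p - δ / 4)]
    exact pow_le_pow_left₀ (abs_nonneg _) hP 2
  have key : 0 ≤ (2 * (M + δ) ^ 2 / δ + (M + δ)) + (p - δ / 4) - 2 * (p - δ / 4) ^ 2 / δ := by
    have h1 : 2 * (p - δ / 4) ^ 2 / δ ≤ 2 * (M + δ) ^ 2 / δ := by
      apply div_le_div_of_nonneg_right _ hδ.le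
      linarith
    have h2 := (abs_le.1 hP).1
    linarith
  have h3 : (p * (y + ν) ^ 2 + q * y ^ 2 + (2 * (M + δ) ^ 2 / δ + (M + δ)) * ν ^ 2)
      - δ / 4 * ((y + ν) ^ 2 + y ^ 2) =
      (p + q - δ) * y ^ 2 + (δ / 2) * (y + (2 * (p - δ / 4) / δ) * ν) ^ 2 +
      ((2 * (M + δ) ^ 2 / δ + (M + δ)) + (p - δ / 4) - 2 * (p - δ / 4) ^ 2 / δ) * ν ^ 2 := by
    field_simp
    ring
  have h4 : 0 ≤ (p + q - δ) * y ^ 2 := mul_nonneg (by linarith) (sq_nonneg _)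
  have h5 : 0 ≤ (δ / 2) * (y + (2 * (p - δ / 4) / δ) * ν) ^ 2 :=
    mul_nonneg (by linarith) (sq_nonneg _)
  have h6 := mul_nonneg key (sq_nonneg ν)
  linarith

theorem diag {p q r δ M x y z : ℝ} (hδ : 0 < δ) (hp : |p| ≤ M) (hq : |q| ≤ M) (hr : |r| ≤ M)
    (hpr : δ ≤ p + r) (hqr : δ ≤ q + r) (hd : δ ≤ p * q + q * r + r * p) (h : x + y + z = 0) :
    δ / (12 * M) * (x ^ 2 + y ^ 2 + z ^ 2) ≤ p * x ^ 2 + q * y ^ 2 + r * z ^ 2 := by
  have hz : z = -x - y := by linarith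
  subst hz
  have hp2 := (abs_le.1 hp).2
  have hq2 := (abs_le.1 hq).2
  have hr2 := (abs_le.1 hr).2
  have hM : 0 < M := by linarith
  have hid : (p + r + (q + r)) * (p * x ^ 2 + q * y ^ 2 + r * (-x - y) ^ 2) =
      (p * q + q * r + r * p) * (x ^ 2 + y ^ 2) + ((p + r) * x + r * y) ^ 2 +
        (r * x + (q + r) * y) ^ 2 := by ring
  have h1 : δ * (x ^ 2 + y ^ 2) ≤
      (p + r + (q + r)) * (p * x ^ 2 + q * y ^ 2 + r * (-x - y) ^ 2) := by
    rw [hid]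
    have := mul_le_mul_of_nonneg_right hd (by positivity : 0 ≤ x ^ 2 + y ^ 2)
    nlinarith [sq_nonneg ((p + r) * x + r * y), sq_nonneg (r * x + (q + r) * y)]
  have h2 : 0 ≤ p * x ^ 2 + q * y ^ 2 + r * (-x - y) ^ 2 := by
    have hpos : 0 < p + r + (q + r) := by linarith
    have h3 : 0 ≤ (p + r + (q + r)) * (p * x ^ 2 + q * y ^ 2 + r * (-x - y) ^ 2) :=
      le_trans (by positivity) h1
    exact nonneg_of_mul_nonneg_right h3 hpos
  have h3 : δ * (x ^ 2 + y ^ 2) ≤ (4 * M) * (p * x ^ 2 + q * y ^ 2 + r * (-x - y) ^ 2) := by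
    refine h1.trans (mul_le_mul_of_nonneg_right ?_ h2)
    linarith
  have h4 : x ^ 2 + y ^ 2 + (-x - y) ^ 2 ≤ 3 * (x ^ 2 + y ^ 2) := by
    nlinarith [sq_nonneg (x - y)]
  have h5 : δ * (x ^ 2 + y ^ 2 + (-x - y) ^ 2) ≤
      (12 * M) * (p * x ^ 2 + q * y ^ 2 + r * (-x - y) ^ 2) := by
    have := mul_le_mul_of_nonneg_left h4 hδ.le
    linarith
  rw [div_mul_eq_mul_div, div_le_iff₀ (by positivity)]
  linarith

/-- the whole form -/
theorem form {p q r δ M : ℝ} (hδ : 0 < δ) (hp : |p| ≤ M) (hq : |q| ≤ M) (hr : |r| ≤ M)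
    (hpq : δ ≤ p + q) (hpr : δ ≤ p + r) (hqr : δ ≤ q + r) (hd : δ ≤ p * q + q * r + r * p)
    {s11 s12 s13 s21 s22 s23 s31 s32 s33 n1 n2 n3 : ℝ} (h0 : s11 + s22 + s33 = 0)
    (h1 : n1 = s23 - s32) (h2 : n2 = s31 - s13) (h3 : n3 = s12 - s21) :
    min (δ / 4) (δ / (12 * M)) * ((s11 ^ 2 + s12 ^ 2 + s13 ^ 2) + (s21 ^ 2 + s22 ^ 2 + s23 ^ 2) +
      (s31 ^ 2 + s32 ^ 2 + s33 ^ 2)) ≤
    (p * (s11 ^ 2 + s12 ^ 2 + s13 ^ 2) + q * (s21 ^ 2 + s22 ^ 2 + s23 ^ 2) +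
      r * (s31 ^ 2 + s32 ^ 2 + s33 ^ 2)) +
      (2 * (M + δ) ^ 2 / δ + (M + δ)) * (n1 ^ 2 + n2 ^ 2 + n3 ^ 2) := by
  have e1 := pair (x := s23) (y := s32) (ν := n1) hδ hq hqr h1.symm
  have e2 := pair (x := s13) (y := s31) (ν := -n2) hδ hp hpr (by linarith)
  have e3 := pair (x := s12) (y := s21) (ν := n3) hδ hp hpq h3.symm
  have e4 := diag hδ hp hq hr hpr hqr hd h0
  have m1 := min_le_left (δ / 4) (δ / (12 * M))
  have m2 := min_le_right (δ / 4) (δ / (12 * M))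
  have k1 := mul_le_mul_of_nonneg_right m1 (by positivity : 0 ≤ s23 ^ 2 + s32 ^ 2)
  have k2 := mul_le_mul_of_nonneg_right m1 (by positivity : 0 ≤ s13 ^ 2 + s31 ^ 2)
  have k3 := mul_le_mul_of_nonneg_right m1 (by positivity : 0 ≤ s12 ^ 2 + s21 ^ 2)
  have k4 := mul_le_mul_of_nonneg_right m2 (by positivity : 0 ≤ s11 ^ 2 + s22 ^ 2 + s33 ^ 2)
  nlinarith

/-- positive lower bound of a continuous positive function on a compact interval -/
theorem lower {f : ℝ → ℝ} {s1 S : ℝ} (hf : ContinuousOn f (Set.Icc s1 S))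
    (hpos : ∀ s ∈ Set.Icc s1 S, 0 < f s) : ∃ δ : ℝ, 0 < δ ∧ ∀ s ∈ Set.Icc s1 S, δ ≤ f s := by
  rcases (Set.Icc s1 S).eq_empty_or_nonempty with he | hne
  · exact ⟨1, one_pos, by simp [he]⟩
  · obtain ⟨x, hx, hmin⟩ := isCompact_Icc.exists_isMinOn hne hf
    exact ⟨f x, hpos x hx, fun s hs => hmin hs⟩

theorem upper {f : ℝ → ℝ} {s1 S : ℝ} (hf : ContinuousOn f (Set.Icc s1 S)) :
    ∃ M : ℝ, ∀ s ∈ Set.Icc s1 S, |f s| ≤ M := by
  obtain ⟨C, hC⟩ := isCompact_Icc.exists_bound_of_continuousOn hf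
  exact ⟨C, fun s hs => by simpa [Real.norm_eq_abs] using hC s hs⟩

theorem eqs (pr : Profile) (s : ℝ) (g : Fin 3 → Fin 4 → ℝ) (hal : pr.al (s ^ 2) ≠ 0)
    (hb : pr.b s ≠ 0) (hc : pr.c s ≠ 0) (h : ∑ i, (Ic pr s i).mulVec (g i) = 0) :
    (pr.al (s ^ 2) / 2 * g 0 1 + pr.b s * g 1 2 + pr.c s * g 2 3 = 0) ∧
    (g 0 0 = pr.b s * g 2 2 - pr.c s * g 1 3) ∧
    (g 1 0 = pr.c s * g 0 3 - pr.al (s ^ 2) / 2 * g 2 1) ∧
    (g 2 0 = pr.al (s ^ 2) / 2 * g 1 1 - pr.b s * g 0 2) := by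
  have h0 := congrFun h 0
  have h1 := congrFun h 1
  have h2 := congrFun h 2
  have h3 := congrFun h 3
  simp [Ic, Fin.sum_univ_three, Matrix.mulVec, dotProduct, Fin.sum_univ_four] at h0 h1 h2 h3
  refine ⟨by linarith, ?_, ?_, ?_⟩
  · field_simp at h1
    linarith
  · field_simp at h2
    linarith
  · field_simp at h3
    linarith

end H04x

open H04x in
theorem thm_H04 (hA01 : St_A01) (hA02 : St_A02) : St_H04 := by
  intro pr s1 S hs1
  -- continuity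
  have cal : Continuous (fun s : ℝ => pr.al (s ^ 2)) :=
    pr.smooth_al.continuous.comp (continuous_pow 2)
  have ca : Continuous pr.a := by
    unfold Profile.a
    exact continuous_id.mul cal
  have cb : Continuous pr.b := by
    unfold Profile.b
    exact (pr.smooth_be.continuous.comp (continuous_pow 2)).add
      (continuous_id.mul (pr.smooth_ka.continuous.comp (continuous_pow 2)))
  have cc : Continuous pr.c := by
    unfold Profile.c
    exact (pr.smooth_be.continuous.comp (continuous_pow 2)).neg.add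
      (continuous_id.mul (pr.smooth_ka.continuous.comp (continuous_pow 2)))
  have habc : ∀ s ∈ Set.Icc s1 S, 0 < pr.a s ∧ 0 < pr.b s ∧ pr.c s < 0 := by
    intro s hs
    have hs0 : 0 < s := lt_of_lt_of_le hs1 hs.1
    exact ⟨(hA01.2.2.1 pr s hs0).1, (hA01.2.1 pr s hs0.le).1, (hA01.2.1 pr s hs0.le).2.1⟩
  have hne : ∀ s ∈ Set.Icc s1 S, 2 * pr.a s * pr.b s * pr.c s ≠ 0 := by
    intro s hs
    obtain ⟨h1, h2, h3⟩ := habc s hs
    exact mul_ne_zero (by positivity) h3.ne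
  set p : ℝ → ℝ := fun s => (pr.a s ^ 2 - (pr.b s - pr.c s) ^ 2) / (2 * pr.a s * pr.b s * pr.c s)
    with hpdef
  set q : ℝ → ℝ := fun s => (pr.b s ^ 2 - (pr.c s - pr.a s) ^ 2) / (2 * pr.a s * pr.b s * pr.c s)
    with hqdef
  set r : ℝ → ℝ := fun s => (pr.c s ^ 2 - (pr.a s - pr.b s) ^ 2) / (2 * pr.a s * pr.b s * pr.c s)
    with hrdef
  have cden : Continuous (fun s => 2 * pr.a s * pr.b s * pr.c s) := by fun_prop
  have cp : ContinuousOn p (Set.Icc s1 S) :=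
    ContinuousOn.div (by fun_prop) cden.continuousOn hne
  have cq : ContinuousOn q (Set.Icc s1 S) :=
    ContinuousOn.div (by fun_prop) cden.continuousOn hne
  have cr : ContinuousOn r (Set.Icc s1 S) :=
    ContinuousOn.div (by fun_prop) cden.continuousOn hne
  -- positivity
  have hpos : ∀ s ∈ Set.Icc s1 S, 0 < p s + q s ∧ 0 < p s + r s ∧ 0 < q s + r s ∧
      0 < p s * q s + q s * r s + r s * p s := by
    intro s hs
    have hs0 : 0 < s := lt_of_lt_of_le hs1 hs.1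
    obtain ⟨ha, hb, hc⟩ := habc s hs
    obtain ⟨-, hX, hY, hZ, hW⟩ := hA02 pr s hs0
    have hn := hne s hs
    have e1 : p s + q s = (pr.a s + pr.b s - pr.c s) / (pr.a s * pr.b s) := by
      simp only [hpdef, hqdef]
      rw [← add_div, div_eq_div_iff hn (by positivity)]
      ring
    have e2 : p s + r s = (pr.b s - pr.c s - pr.a s) / (pr.a s * (-pr.c s)) := by
      simp only [hpdef, hrdef]
      rw [← add_div, div_eq_div_iff hn (mul_ne_zero ha.ne' (neg_ne_zero.2 hc.ne))]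
      ring
    have e3 : q s + r s = (pr.a s - pr.b s - pr.c s) / (pr.b s * (-pr.c s)) := by
      simp only [hqdef, hrdef]
      rw [← add_div, div_eq_div_iff hn (mul_ne_zero hb.ne' (neg_ne_zero.2 hc.ne))]
      ring
    have e4 : p s * q s + q s * r s + r s * p s =
        (pr.b s - pr.c s - pr.a s) * (pr.a s - pr.b s - pr.c s) * (pr.a s + pr.b s - pr.c s) *
          (pr.a s + pr.b s + pr.c s) / (2 * pr.a s * pr.b s * pr.c s) ^ 2 := by
      simp only [hpdef, hqdef, hrdef]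
      rw [div_mul_div_comm, div_mul_div_comm, div_mul_div_comm, ← add_div, ← add_div, ← sq]
      congr 1
      ring
    refine ⟨?_, ?_, ?_, ?_⟩
    · rw [e1]
      positivity
    · rw [e2]
      exact div_pos hX (mul_pos ha (by linarith))
    · rw [e3]
      exact div_pos hY (mul_pos hb (by linarith))
    · rw [e4]
      have h2 : 0 < (2 * pr.a s * pr.b s * pr.c s) ^ 2 := by positivity
      exact div_pos (mul_pos (mul_pos (mul_pos hX hY) hZ) hW) h2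
  obtain ⟨d1, hd1, hd1'⟩ := lower (cp.add cq) (fun s hs => (hpos s hs).1)
  obtain ⟨d2, hd2, hd2'⟩ := lower (cp.add cr) (fun s hs => (hpos s hs).2.1)
  obtain ⟨d3, hd3, hd3'⟩ := lower (cq.add cr) (fun s hs => (hpos s hs).2.2.1)
  obtain ⟨d4, hd4, hd4'⟩ := lower (((cp.mul cq).add (cq.mul cr)).add (cr.mul cp))
    (fun s hs => (hpos s hs).2.2.2)
  obtain ⟨M1, hM1⟩ := upper cp
  obtain ⟨M2, hM2⟩ := upper cq
  obtain ⟨M3, hM3⟩ := upper cr
  obtain ⟨ε, hε, hε'⟩ := hA01.2.2.2 pr S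
  set δ := min (min d1 d2) (min d3 d4) with hδdef
  have hδ : 0 < δ := lt_min (lt_min hd1 hd2) (lt_min hd3 hd4)
  have l1 : δ ≤ d1 := (min_le_left _ _).trans (min_le_left _ _)
  have l2 : δ ≤ d2 := (min_le_left _ _).trans (min_le_right _ _)
  have l3 : δ ≤ d3 := (min_le_right _ _).trans (min_le_left _ _)
  have l4 : δ ≤ d4 := (min_le_right _ _).trans (min_le_right _ _)
  set M := |M1| + |M2| + |M3| + 1 with hMdef
  have hM : 0 < M := by positivity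
  have g1 : M1 ≤ M := by
    have := le_abs_self M1
    have := abs_nonneg M2
    have := abs_nonneg M3
    linarith
  have g2 : M2 ≤ M := by
    have := le_abs_self M2
    have := abs_nonneg M1
    have := abs_nonneg M3
    linarith
  have g3 : M3 ≤ M := by
    have := le_abs_self M3
    have := abs_nonneg M1
    have := abs_nonneg M2
    linarith
  set c0 := min (δ / 4) (δ / (12 * M)) with hc0
  have hc0pos : 0 < c0 := lt_min (by positivity) (by positivity)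
  set K0 := 2 * (M + δ) ^ 2 / δ + (M + δ) with hK0
  have hK0pos : 0 < K0 := by positivity
  set c1 := min 1 (c0 * (ε ^ 2 / 4)) with hc1
  have hc1pos : 0 < c1 := lt_min one_pos (by positivity)
  refine ⟨K0 + 1, c1, by linarith, hc1pos, ?_⟩
  intro s hs hsS g hg
  have hmem : s ∈ Set.Icc s1 S := ⟨hs, hsS⟩
  have hs0 : 0 < s := lt_of_lt_of_le hs1 hs
  obtain ⟨ha, hb, hc⟩ := habc s hmem
  have hal : 0 < pr.al (s ^ 2) := hA01.1 pr (s ^ 2) (sq_nonneg s)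
  obtain ⟨E0, E1, E2, E3⟩ := eqs pr s g hal.ne' hb.ne' hc.ne hg
  obtain ⟨f1, -, f2, -, f3, -⟩ := hε' s hs0.le hsS
  have hF := form (p := p s) (q := q s) (r := r s) hδ ((hM1 s hmem).trans g1)
    ((hM2 s hmem).trans g2) ((hM3 s hmem).trans g3) (l1.trans (hd1' s hmem))
    (l2.trans (hd2' s hmem)) (l3.trans (hd3' s hmem)) (l4.trans (hd4' s hmem))
    (s11 := pr.al (s ^ 2) / 2 * g 0 1) (s12 := pr.al (s ^ 2) / 2 * g 1 1)
    (s13 := pr.al (s ^ 2) / 2 * g 2 1) (s21 := pr.b s * g 0 2) (s22 := pr.b s * g 1 2)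
    (s23 := pr.b s * g 2 2) (s31 := pr.c s * g 0 3) (s32 := pr.c s * g 1 3)
    (s33 := pr.c s * g 2 3) (n1 := g 0 0) (n2 := g 1 0) (n3 := g 2 0) E0 E1 E2 E3
  have hlap : lapS pr s g =
      p s * ((pr.al (s ^ 2) / 2 * g 0 1) ^ 2 + (pr.al (s ^ 2) / 2 * g 1 1) ^ 2 +
        (pr.al (s ^ 2) / 2 * g 2 1) ^ 2) +
      q s * ((pr.b s * g 0 2) ^ 2 + (pr.b s * g 1 2) ^ 2 + (pr.b s * g 2 2) ^ 2) +
      r s * ((pr.c s * g 0 3) ^ 2 + (pr.c s * g 1 3) ^ 2 + (pr.c s * g 2 3) ^ 2) := by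
    unfold lapS
    simp only [Fin.sum_univ_three, hpdef, hqdef, hrdef]
    ring
  rw [hlap]
  simp only [Fin.sum_univ_three, Fin.sum_univ_four]
  -- comparison of the coefficients
  have hA : ε ^ 2 / 4 ≤ (pr.al (s ^ 2) / 2) ^ 2 := by
    have : ε / 2 ≤ pr.al (s ^ 2) / 2 := by linarith
    have := pow_le_pow_left₀ (by positivity : 0 ≤ ε / 2) this 2
    calc ε ^ 2 / 4 = (ε / 2) ^ 2 := by ring
      _ ≤ _ := this
  have hB : ε ^ 2 / 4 ≤ (pr.b s) ^ 2 := by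
    have := pow_le_pow_left₀ hε.le f2 2
    have := sq_nonneg ε
    linarith
  have hC : ε ^ 2 / 4 ≤ (pr.c s) ^ 2 := by
    have h1 := pow_le_pow_left₀ hε.le f3 2
    have h2 := sq_nonneg ε
    have h3 : (-pr.c s) ^ 2 = pr.c s ^ 2 := by ring
    rw [h3] at h1
    linarith
  have cmp : ∀ (w x : ℝ), ε ^ 2 / 4 ≤ w ^ 2 → c1 * x ^ 2 ≤ c0 * (w * x) ^ 2 := by
    intro w x hw
    have h1 : c1 ≤ c0 * w ^ 2 :=
      (min_le_right _ _).trans (mul_le_mul_of_nonneg_left hw hc0pos.le)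
    calc c1 * x ^ 2 ≤ (c0 * w ^ 2) * x ^ 2 := mul_le_mul_of_nonneg_right h1 (sq_nonneg x)
      _ = c0 * (w * x) ^ 2 := by ring
  have cmp0 : ∀ x : ℝ, c1 * x ^ 2 ≤ x ^ 2 := by
    intro x
    have h1 : c1 ≤ 1 := min_le_left _ _
    nlinarith [sq_nonneg x]
  have t1 := cmp _ (g 0 1) hA
  have t2 := cmp _ (g 1 1) hA
  have t3 := cmp _ (g 2 1) hA
  have t4 := cmp _ (g 0 2) hB
  have t5 := cmp _ (g 1 2) hB
  have t6 := cmp _ (g 2 2) hB
  have t7 := cmp _ (g 0 3) hC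
  have t8 := cmp _ (g 1 3) hC
  have t9 := cmp _ (g 2 3) hC
  have u1 := cmp0 (g 0 0)
  have u2 := cmp0 (g 1 0)
  have u3 := cmp0 (g 2 0)
  linarith

end Pool.Agent.FUE
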