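import Pool.Agent.FUE.StH

/-!
# FUE H05: homogeneous subharmonic functions are harmonic (helper56)
-/

set_option autoImplicit false

open scoped Manifold ContDiff Matrix
open MeasureTheory

namespace Pool.Agent.FUE

namespace H05x

private theorem ibp (F : E3 → ℝ) (hF : ContDiff ℝ 1 F) (hc : HasCompactSupport F) (v : E3) :
    ∫ x, fderiv ℝ F x v = 0 := by
  have h := integral_mul_fderiv_eq_neg_fderiv_mul_of_integrable (μ := (volume : Measure E3))
    (f := fun _ => (1 : ℝ)) (g := F) (v := v) (by simp) (by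
      simp only [one_mul]
      exact ((hF.continuous_fderiv (by norm_num)).clm_apply
        continuous_const).integrable_of_hasCompactSupport (hc.fderiv_apply (𝕜 := ℝ) v))
    (by
      simp only [one_mul]
      exact hF.continuous.integrable_of_hasCompactSupport hc)
    (fun x _ => differentiableAt_const _)
    (fun x _ => (hF.differentiable (by norm_num)) x)
  simpa using h

/-- the radial cut-off function -/
private noncomputable def eta (r : ℝ) (b : ContDiffBump r) (x : E3) : ℝ := b (‖x‖ ^ 2)

private theorem eta_smooth (r : ℝ) (b : ContDiffBump r) : ContDiff ℝ ∞ (eta r b) :=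
  b.contDiff.comp (contDiff_norm_sq ℝ)

private theorem eta_fderiv (r : ℝ) (b : ContDiffBump r) (x v : E3) :
    fderiv ℝ (eta r b) x v = deriv b (‖x‖ ^ 2) * (2 * inner ℝ x v) := by
  have h1 : DifferentiableAt ℝ b (‖x‖ ^ 2) :=
    (b.contDiff.differentiable (n := ∞) (by simp)) _
  have h2 : HasFDerivAt (eta r b) ((deriv b (‖x‖ ^ 2)) • (2 • (innerSL ℝ x))) x :=
    h1.hasDerivAt.comp_hasFDerivAt x (hasStrictFDerivAt_norm_sq x).hasFDerivAt
  rw [h2.fderiv]
  simp

private theorem sum_bs (x : E3) : ∑ j, x j • bs j = x := by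
  ext i
  simp [bs, Pi.single_apply]

private theorem bs_inner (x : E3) (j : Fin 3) : inner ℝ x (bs j) = x j := by
  unfold bs
  rw [EuclideanSpace.inner_single_right]
  simp

end H05x

open H05x

/-- **[H05]** homogeneous subharmonic functions are harmonic -/
theorem thm_H05 : St_H05 := by
  intro ψ hψ hhom hsub x₀ hx₀
  have hop : IsOpen ({0}ᶜ : Set E3) := isOpen_compl_singleton
  have hr : 0 < ‖x₀‖ ^ 2 := by
    have := norm_pos_iff.mpr hx₀
    positivity
  set r := ‖x₀‖ ^ 2 with hrd
  let b : ContDiffBump r := ⟨r / 4, r / 2, by positivity, by linarith⟩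
  have hψat : ∀ x : E3, x ≠ 0 → ContDiffAt ℝ 2 ψ x := fun x hx =>
    hψ.contDiffAt (hop.mem_nhds hx)
  have hdψ : ∀ x : E3, x ≠ 0 → ∀ j, ContDiffAt ℝ 1 (fun y => fderiv ℝ ψ y (bs j)) x :=
    fun x hx j => ((hψat x hx).fderiv_right (m := 1) (by norm_num)).clm_apply contDiffAt_const
  have heta0 : ∀ x : E3, ‖x‖ ^ 2 < r / 2 → eta r b x = 0 := by
    intro x hx
    refine b.zero_of_le_dist ?_
    change r / 2 ≤ dist (‖x‖ ^ 2) r
    rw [Real.dist_eq, abs_sub_comm]
    exact (by linarith : r / 2 ≤ r - ‖x‖ ^ 2).trans (le_abs_self _)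
  have heta1 : ∀ x : E3, eta r b x ≠ 0 → ‖x‖ ^ 2 < 3 * r / 2 := by
    intro x hx
    by_contra hlt
    rw [not_lt] at hlt
    refine hx (b.zero_of_le_dist ?_)
    change r / 2 ≤ dist (‖x‖ ^ 2) r
    rw [Real.dist_eq]
    exact (by linarith : r / 2 ≤ ‖x‖ ^ 2 - r).trans (le_abs_self _)
  have hcs : HasCompactSupport (eta r b) := by
    refine HasCompactSupport.of_support_subset_isCompact
      (isCompact_closedBall (0 : E3) (3 * r / 2 + 1)) ?_
    intro x hx
    rw [mem_closedBall_zero_iff]
    have h1 := heta1 x hx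
    nlinarith [norm_nonneg x, sq_nonneg (‖x‖ - 1)]
  have hFC : ∀ j, ContDiff ℝ 1 fun x => eta r b x * fderiv ℝ ψ x (bs j) := by
    intro j
    rw [contDiff_iff_contDiffAt]
    intro x
    by_cases hx : x = 0
    · have h1 : (fun x => eta r b x * fderiv ℝ ψ x (bs j)) =ᶠ[nhds x] fun _ => 0 := by
        have h2 : ∀ᶠ y in nhds x, ‖y‖ ^ 2 < r / 2 := by
          refine (continuous_norm.pow 2).continuousAt.eventually_lt continuousAt_const ?_
          change ‖x‖ ^ 2 < r / 2
          rw [hx, norm_zero]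
          nlinarith
        filter_upwards [h2] with y hy
        rw [heta0 y hy, zero_mul]
      exact contDiffAt_const.congr_of_eventuallyEq h1
    · exact ((eta_smooth r b).contDiffAt.of_le (by simp)).mul (hdψ x hx j)
  have hFcs : ∀ j, HasCompactSupport fun x => eta r b x * fderiv ℝ ψ x (bs j) := fun j =>
    hcs.mul_right
  -- the divergence
  have hdiv : ∀ x, ∑ j, fderiv ℝ (fun x => eta r b x * fderiv ℝ ψ x (bs j)) x (bs j) =
      if x = 0 then 0 else
        eta r b x * ∑ j, fderiv ℝ (fun y => fderiv ℝ ψ y (bs j)) x (bs j) := by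
    intro x
    split_ifs with hx
    · refine Finset.sum_eq_zero fun j _ => ?_
      have h1 : (fun x => eta r b x * fderiv ℝ ψ x (bs j)) =ᶠ[nhds x] fun _ => 0 := by
        have h2 : ∀ᶠ y in nhds x, ‖y‖ ^ 2 < r / 2 := by
          refine (continuous_norm.pow 2).continuousAt.eventually_lt continuousAt_const ?_
          change ‖x‖ ^ 2 < r / 2
          rw [hx, norm_zero]
          nlinarith
        filter_upwards [h2] with y hy
        rw [heta0 y hy, zero_mul]
      rw [h1.fderiv_eq]
      simp
    · have h1 : ∀ j, fderiv ℝ (fun x => eta r b x * fderiv ℝ ψ x (bs j)) x (bs j) =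
          eta r b x * fderiv ℝ (fun y => fderiv ℝ ψ y (bs j)) x (bs j) +
            deriv b (‖x‖ ^ 2) * 2 * (fderiv ℝ ψ x (x j • bs j)) := by
        intro j
        have e1 : DifferentiableAt ℝ (eta r b) x :=
          ((eta_smooth r b).differentiable (by simp)) x
        have e2 : DifferentiableAt ℝ (fun y => fderiv ℝ ψ y (bs j)) x :=
          (hdψ x hx j).differentiableAt (by norm_num)
        rw [fderiv_fun_mul e1 e2]
        simp only [add_apply, smul_apply, smul_eq_mul]
        rw [eta_fderiv, bs_inner, map_smul, smul_eq_mul]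
        ring
      rw [Finset.sum_congr rfl fun j _ => h1 j, Finset.sum_add_distrib, ← Finset.mul_sum,
        ← Finset.mul_sum, ← map_sum, sum_bs, hhom x hx, mul_zero, add_zero]
  have hGc : Continuous fun x =>
      ∑ j, fderiv ℝ (fun x => eta r b x * fderiv ℝ ψ x (bs j)) x (bs j) :=
    continuous_finsetSum _ fun j _ =>
      ((hFC j).continuous_fderiv (by norm_num)).clm_apply continuous_const
  have hInt : ∀ j ∈ Finset.univ, Integrable fun x =>
      fderiv ℝ (fun x => eta r b x * fderiv ℝ ψ x (bs j)) x (bs j) := fun j _ =>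
    (((hFC j).continuous_fderiv (by norm_num)).clm_apply
      continuous_const).integrable_of_hasCompactSupport ((hFcs j).fderiv_apply (𝕜 := ℝ) (bs j))
  have hI : ∫ x, ∑ j, fderiv ℝ (fun x => eta r b x * fderiv ℝ ψ x (bs j)) x (bs j) = 0 := by
    rw [integral_finsetSum _ hInt]
    exact Finset.sum_eq_zero fun j _ => ibp _ (hFC j) (hFcs j) (bs j)
  have hnn : ∀ x, 0 ≤ ∑ j, fderiv ℝ (fun x => eta r b x * fderiv ℝ ψ x (bs j)) x (bs j) := by
    intro x
    rw [hdiv]
    split_ifs with hx
    · exact le_rfl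
    · exact mul_nonneg b.nonneg (hsub x hx)
  have hz := (integral_eq_zero_iff_of_nonneg hnn (integrable_finsetSum _ hInt)).mp hI
  have hz2 := (hGc.ae_eq_iff_eq volume continuous_const).mp hz
  have hz3 := congrFun hz2 x₀
  simp only [hdiv, if_neg hx₀] at hz3
  have h1 : eta r b x₀ = 1 := by
    refine b.one_of_mem_closedBall ?_
    rw [Metric.mem_closedBall, ← hrd, dist_self]
    exact b.rIn_pos.le
  rw [h1, one_mul] at hz3
  exact hz3

end Pool.Agent.FUE
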