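import Pool.Agent.FUE.StH

/-!
# Fueter sections: homogeneous Fueter maps lie in the bolt (helper98)

Module `H06`: `thm_H06 : St_H06`.
-/

set_option autoImplicit false
set_option linter.unusedVariables false

open scoped Manifold ContDiff Matrix Topology
open MeasureTheory

namespace Pool.Agent.FUE

namespace H06x

/-- the cut off convex function of the distance -/
theorem exists_f (K s1 : ℝ) : ∃ f f1 f2 : ℝ → ℝ, ContDiff ℝ ∞ f ∧
    (∀ s, HasDerivAt f (f1 s) s) ∧ (∀ s, HasDerivAt f1 (f2 s) s) ∧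
    (∀ s ≤ s1, f s = 0) ∧ (∀ s, 0 ≤ f1 s) ∧ (∀ s, s1 < s → 0 < f1 s) ∧
    ∀ s, K * f1 s ≤ f2 s := by
  let f1 : ℝ → ℝ := fun s => Real.exp (K * s) * expNegInvGlue (s - s1)
  have hE : ContDiff ℝ ∞ expNegInvGlue := expNegInvGlue.contDiff
  have h1c : ContDiff ℝ ∞ f1 :=
    (contDiff_const.mul contDiff_id).exp.mul (hE.comp (contDiff_id.sub contDiff_const))
  have hcont : Continuous f1 := h1c.continuous
  have hf : ∀ s, HasDerivAt (fun u => ∫ r in s1..u, f1 r) (f1 s) s := fun s =>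
    intervalIntegral.integral_hasDerivAt_right (hcont.intervalIntegrable _ _)
      (hcont.stronglyMeasurableAtFilter _ _) hcont.continuousAt
  have h1 : ∀ s, HasDerivAt f1 (Real.exp (K * s) * K * expNegInvGlue (s - s1) +
      Real.exp (K * s) * deriv expNegInvGlue (s - s1)) s := by
    intro s
    have e1 : HasDerivAt (fun s : ℝ => Real.exp (K * s)) (Real.exp (K * s) * K) s := by
      have := ((hasDerivAt_id s).const_mul K).exp
      simpa using this
    have e2 : HasDerivAt (fun s : ℝ => expNegInvGlue (s - s1)) (deriv expNegInvGlue (s - s1)) s := by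
      have h3 : HasDerivAt expNegInvGlue (deriv expNegInvGlue (s - s1)) (s - s1) :=
        ((hE.differentiable (by simp)) (s - s1)).hasDerivAt
      exact h3.comp_sub_const s s1
    exact e1.mul e2
  refine ⟨fun u => ∫ r in s1..u, f1 r, f1, _, ?_, hf, h1, ?_, ?_, ?_, ?_⟩
  · rw [contDiff_infty_iff_deriv]
    refine ⟨fun s => (hf s).differentiableAt, ?_⟩
    have h2 : deriv (fun u => ∫ r in s1..u, f1 r) = f1 := funext fun s => (hf s).deriv
    rw [h2]
    exact h1c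
  · intro s hs
    change ∫ r in s1..s, f1 r = 0
    rw [intervalIntegral.integral_symm, neg_eq_zero]
    refine intervalIntegral.integral_zero_ae (Filter.Eventually.of_forall fun r hr => ?_)
    rw [Set.uIoc_of_le hs] at hr
    change Real.exp (K * r) * expNegInvGlue (r - s1) = 0
    rw [expNegInvGlue.zero_of_nonpos (by linarith [hr.2]), mul_zero]
  · intro s
    exact mul_nonneg (Real.exp_pos _).le (expNegInvGlue.nonneg _)
  · intro s hs
    exact mul_pos (Real.exp_pos _) (expNegInvGlue.pos_of_pos (by linarith))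
  · intro s
    have h2 : 0 ≤ deriv expNegInvGlue (s - s1) := expNegInvGlue.monotone.deriv_nonneg
    have h3 : 0 ≤ Real.exp (K * s) * deriv expNegInvGlue (s - s1) :=
      mul_nonneg (Real.exp_pos _).le h2
    change K * (Real.exp (K * s) * expNegInvGlue (s - s1)) ≤
      Real.exp (K * s) * K * expNegInvGlue (s - s1) +
        Real.exp (K * s) * deriv expNegInvGlue (s - s1)
    nlinarith

/-- Laplacian of a composition -/
theorem lap_comp (f f1 f2 : ℝ → ℝ) (hf : ∀ s, HasDerivAt f (f1 s) s)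
    (hf1 : ∀ s, HasDerivAt f1 (f2 s) s) (σ : E3 → ℝ) (x : E3) (hσ : ContDiffAt ℝ 2 σ x) :
    ∑ j, fderiv ℝ (fun y => fderiv ℝ (fun z => f (σ z)) y (bs j)) x (bs j) =
      f2 (σ x) * ∑ j, (fderiv ℝ σ x (bs j)) ^ 2 +
        f1 (σ x) * ∑ j, fderiv ℝ (fun y => fderiv ℝ σ y (bs j)) x (bs j) := by
  have hd : ∀ᶠ y in 𝓝 x, DifferentiableAt ℝ σ y :=
    (hσ.eventually (by simp)).mono fun y hy => hy.differentiableAt (by norm_num)
  have hdx : DifferentiableAt ℝ σ x := hσ.differentiableAt (by norm_num)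
  rw [Finset.mul_sum, Finset.mul_sum, ← Finset.sum_add_distrib]
  refine Finset.sum_congr rfl fun j _ => ?_
  have h1 : (fun y => fderiv ℝ (fun z => f (σ z)) y (bs j)) =ᶠ[𝓝 x]
      fun y => f1 (σ y) * fderiv ℝ σ y (bs j) := by
    filter_upwards [hd] with y hy
    have h2 : HasFDerivAt (fun z => f (σ z)) (f1 (σ y) • fderiv ℝ σ y) y :=
      (hf (σ y)).comp_hasFDerivAt y hy.hasFDerivAt
    rw [h2.fderiv]
    rfl
  rw [h1.fderiv_eq]
  have h3 : HasFDerivAt (fun y => f1 (σ y)) (f2 (σ x) • fderiv ℝ σ x) x :=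
    (hf1 (σ x)).comp_hasFDerivAt x hdx.hasFDerivAt
  have h4 : DifferentiableAt ℝ (fun y => fderiv ℝ σ y (bs j)) x := by
    have h5 : ContDiffAt ℝ 1 (fderiv ℝ σ) x := hσ.fderiv_right (by norm_num)
    exact (h5.differentiableAt (by norm_num)).clm_apply (differentiableAt_const _)
  have h6 : HasFDerivAt (fun y => f1 (σ y) * fderiv ℝ σ y (bs j))
      (f1 (σ x) • fderiv ℝ (fun y => fderiv ℝ σ y (bs j)) x +
        (fderiv ℝ σ x (bs j)) • (f2 (σ x) • fderiv ℝ σ x)) x := h3.mul h4.hasFDerivAt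
  rw [h6.fderiv]
  simp only [add_apply, smul_apply, smul_eq_mul]
  ring

theorem tt_eq (P : V9) : tt P = P (0, 0) + P (1, 1) + P (2, 2) - 2 := by
  rw [tt, Matrix.trace_fin_three]
  rfl

theorem tt_smooth : ContDiff ℝ ∞ tt := by
  have h : tt = fun P : V9 => P (0, 0) + P (1, 1) + P (2, 2) - 2 := funext tt_eq
  rw [h]
  fun_prop

theorem rot_row (R : Matrix (Fin 3) (Fin 3) ℝ) (hR : IsRot R) (l m : Fin 3) :
    R l 0 * R m 0 + R l 1 * R m 1 + R l 2 * R m 2 = if l = m then 1 else 0 := by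
  have h1 : R * Rᵀ = 1 := mul_eq_one_comm.1 hR.1
  have h2 := congrFun (congrFun h1 l) m
  rw [Matrix.mul_apply, Fin.sum_univ_three, Matrix.one_apply] at h2
  exact h2

theorem sum_sq_rot (R : Matrix (Fin 3) (Fin 3) ℝ) (hR : IsRot R) (h : Fin 3 → ℝ) :
    ∑ m, (∑ j, R j m * h j) ^ 2 = ∑ j, h j ^ 2 := by
  have e := rot_row R hR
  have e00 := e 0 0
  have e01 := e 0 1
  have e02 := e 0 2
  have e11 := e 1 1
  have e12 := e 1 2
  have e22 := e 2 2
  simp only [Fin.sum_univ_three]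
  rw [if_pos rfl] at e00 e11 e22
  rw [if_neg (by decide)] at e01 e02 e12
  linear_combination (h 0) ^ 2 * e00 + (h 1) ^ 2 * e11 + (h 2) ^ 2 * e22 +
    2 * h 0 * h 1 * e01 + 2 * h 0 * h 2 * e02 + 2 * h 1 * h 2 * e12

theorem eq_zero_of_rot (R : Matrix (Fin 3) (Fin 3) ℝ) (hR : IsRot R) (h : Fin 3 → ℝ)
    (h0 : ∀ m, ∑ j, R j m * h j = 0) (j : Fin 3) : h j = 0 := by
  have h1 := sum_sq_rot R hR h
  have h2 : ∑ m : Fin 3, (∑ j, R j m * h j) ^ 2 = 0 :=
    Finset.sum_eq_zero fun m _ => by rw [h0 m]; norm_num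
  rw [h2] at h1
  have h3 := (Finset.sum_eq_zero_iff_of_nonneg (fun j _ => sq_nonneg (h j))).1 h1.symm j
    (Finset.mem_univ j)
  exact pow_eq_zero_iff (two_ne_zero) |>.1 h3

theorem clm_zero (L : E3 →L[ℝ] V9) (h : ∀ j, L (bs j) = 0) : L = 0 := by
  refine ContinuousLinearMap.coe_injective ?_
  refine (EuclideanSpace.basisFun (Fin 3) ℝ).toBasis.ext fun j => ?_
  have h1 : (EuclideanSpace.basisFun (Fin 3) ℝ).toBasis j = bs j := by
    rw [OrthonormalBasis.coe_toBasis, EuclideanSpace.basisFun_apply]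
    rfl
  rw [h1]
  exact h j

end H06x

open H06x in
theorem thm_H06 (hA01 : St_A01) (hA04 : St_A04) (hA05 : St_A05) (hF02 : St_F02) (hH01 : St_H01)
    (hH03 : St_H03) (hH04 : St_H04) (hH05 : St_H05) : St_H06 := by
  rintro pr S v hv hlam hrad ⟨xa, hxa, hxa'⟩ x0 hx0
  by_contra htt
  have hopen : IsOpen ({0}ᶜ : Set E3) := isOpen_compl_singleton
  have hAH : ∀ x : E3, x ≠ 0 → v x ∈ AH := fun x hx => hv.mem x hx
  have hnonneg : ∀ x : E3, x ≠ 0 → 0 ≤ tt (v x) := by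
    intro x hx
    obtain ⟨R, s, hR, hs, hP⟩ := hAH x hx
    rw [(hA04.2 (v x) R s hR hP).2.1]
    positivity
  have hcd : ∀ x : E3, x ≠ 0 → ContDiffAt ℝ ∞ v x := fun x hx =>
    hv.smooth.contDiffAt (hopen.mem_nhds hx)
  have htt0 : 0 < tt (v x0) := lt_of_le_of_ne (hnonneg x0 hx0) (Ne.symm htt)
  obtain ⟨σ, hσdef⟩ : ∃ σ : E3 → ℝ, σ = fun z => √(tt (v z)) := ⟨_, rfl⟩
  have hσv : ∀ z, σ z = √(tt (v z)) := fun z => by rw [hσdef]
  have hσ0 : 0 < σ x0 := by rw [hσv]; exact Real.sqrt_pos.2 htt0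
  obtain ⟨s1, hs1⟩ : ∃ s1 : ℝ, s1 = σ x0 / 2 := ⟨_, rfl⟩
  have hs10 : 0 < s1 := by rw [hs1]; linarith
  have hs1lt : s1 < σ x0 := by rw [hs1]; linarith
  obtain ⟨K, c, hK, hc, hpos⟩ := hH04 pr s1 (√(S - 2)) hs10
  obtain ⟨f, f1, f2, fsm, hf, hf1, fz, f1n, f1p, fK⟩ := exists_f K s1
  have hσT : ∀ x : E3, x ≠ 0 → σ x ≤ √(S - 2) := fun x hx => by
    rw [hσv]
    refine Real.sqrt_le_sqrt ?_
    have := hlam x hx
    change lam (v x) - 2 ≤ S - 2
    linarith
  have hσcont : ∀ x : E3, x ≠ 0 → ContinuousAt σ x := fun x hx => by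
    rw [hσdef]
    exact Real.continuous_sqrt.continuousAt.comp
      (tt_smooth.continuous.continuousAt.comp (hcd x hx).continuousAt)
  have hzero : ∀ x : E3, x ≠ 0 → σ x < s1 → (fun z => f (σ z)) =ᶠ[𝓝 x] fun _ => (0 : ℝ) := by
    intro x hx hlt
    filter_upwards [(hσcont x hx).eventually (gt_mem_nhds hlt)] with z hz
    exact fz _ (le_of_lt hz)
  have hsm : ∀ x : E3, x ≠ 0 → s1 ≤ σ x → ContDiffAt ℝ ∞ σ x ∧ 0 < tt (v x) := by
    intro x hx hge
    have h1 : 0 < tt (v x) := by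
      rw [hσv] at hge
      exact Real.sqrt_pos.1 (lt_of_lt_of_le hs10 hge)
    obtain ⟨R, _, h2, _⟩ := hH01 {0}ᶜ v hopen hv.smooth (fun x hx => hAH x hx) x hx h1
    rw [hσdef]
    exact ⟨h2, h1⟩
  have hlap : ∀ x : E3, x ≠ 0 → s1 ≤ σ x →
      ∃ (R : Matrix (Fin 3) (Fin 3) ℝ) (h : Fin 3 → Fin 4 → ℝ), IsRot R ∧
      (∀ j, toM (du v x j) = R * (∑ k, h j k • Tb (σ x) k) * Rᵀ) ∧
      f1 (σ x) * (c * ∑ m : Fin 3, ∑ k : Fin 4, (∑ j, R j m * h j k) ^ 2) ≤
        ∑ j, fderiv ℝ (fun y => fderiv ℝ (fun z => f (σ z)) y (bs j)) x (bs j) := by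
    intro x hx hge
    obtain ⟨hc1, h1⟩ := hsm x hx hge
    obtain ⟨R, h, hR, hP, hdu, hds, hFu, hL⟩ := hH03 pr {0}ᶜ v hopen hv x hx h1
    rw [← hσv x] at hdu hFu hL hP
    refine ⟨R, h, hR, hdu, ?_⟩
    rw [lap_comp f f1 f2 hf hf1 σ x (hc1.of_le ENat.LEInfty.out)]
    have h2 := hpos (σ x) hge (hσT x hx) (fun i k => ∑ j, R j i * h j k) hFu
    have h3 : ∑ j, (fderiv ℝ σ x (bs j)) ^ 2 = ∑ m, (∑ j, R j m * h j 0) ^ 2 := by
      rw [sum_sq_rot R hR (fun j => h j 0)]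
      refine Finset.sum_congr rfl fun j _ => ?_
      rw [← hds j, hσdef]
    have hL' : ∑ j, fderiv ℝ (fun y => fderiv ℝ σ y (bs j)) x (bs j) =
        lapS pr (σ x) (fun i k => ∑ j, R j i * h j k) := by
      rw [← hL, hσdef]
    rw [h3, hL']
    have h4 : 0 ≤ ∑ m, (∑ j, R j m * h j 0) ^ 2 := Finset.sum_nonneg fun m _ => sq_nonneg _
    have h5 := mul_le_mul_of_nonneg_left h2 (f1n (σ x))
    have h6 := mul_le_mul_of_nonneg_right (fK (σ x)) h4
    have h7 : f1 (σ x) * (K * ∑ m, (∑ j, R j m * h j 0) ^ 2 +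
        lapS pr (σ x) (fun i k => ∑ j, R j i * h j k)) =
        K * f1 (σ x) * ∑ m, (∑ j, R j m * h j 0) ^ 2 +
        f1 (σ x) * lapS pr (σ x) (fun i k => ∑ j, R j i * h j k) := by ring
    rw [h7] at h5
    linarith
  have hpsi2 : ContDiffOn ℝ 2 (fun z => f (σ z)) {0}ᶜ := by
    intro x hx
    refine ContDiffAt.contDiffWithinAt ?_
    by_cases hlt : σ x < s1
    · exact contDiffAt_const.congr_of_eventuallyEq (hzero x hx hlt)
    · have h1 := (hsm x hx (not_lt.1 hlt)).1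
      exact (fsm.contDiffAt.comp x h1).of_le ENat.LEInfty.out
  have hpsir : ∀ x : E3, x ≠ 0 → fderiv ℝ (fun z => f (σ z)) x x = 0 := by
    intro x hx
    by_cases hlt : σ x < s1
    · rw [(hzero x hx hlt).fderiv_eq, fderiv_fun_const]
      rfl
    · have h1 := (hsm x hx (not_lt.1 hlt)).2
      have hG : DifferentiableAt ℝ (fun P : V9 => f √(tt P)) (v x) := by
        have e1 : DifferentiableAt ℝ (fun P : V9 => √(tt P)) (v x) :=
          ((tt_smooth.differentiable (by simp)) (v x)).sqrt h1.ne'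
        exact (hf _).differentiableAt.comp (v x) e1
      have hvd : DifferentiableAt ℝ v x := (hcd x hx).differentiableAt (by simp)
      have h2 : fderiv ℝ (fun z => f (σ z)) x =
          (fderiv ℝ (fun P : V9 => f √(tt P)) (v x)).comp (fderiv ℝ v x) := by
        rw [hσdef]
        exact fderiv_comp x hG hvd
      rw [h2, ContinuousLinearMap.comp_apply, hrad x hx, map_zero]
  have hnn : ∀ x : E3, x ≠ 0 →
      0 ≤ ∑ j, fderiv ℝ (fun y => fderiv ℝ (fun z => f (σ z)) y (bs j)) x (bs j) := by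
    intro x hx
    by_cases hlt : σ x < s1
    · refine (Finset.sum_eq_zero fun j _ => ?_).ge
      have h1 : (fun y => fderiv ℝ (fun z => f (σ z)) y (bs j)) =ᶠ[𝓝 x] fun _ => (0 : ℝ) := by
        have h0 : fderiv ℝ (fun z => f (σ z)) =ᶠ[𝓝 x] fderiv ℝ (fun _ : E3 => (0 : ℝ)) :=
          (hzero x hx hlt).fderiv
        filter_upwards [h0] with y hy
        rw [hy, fderiv_fun_const]
        rfl
      rw [h1.fderiv_eq, fderiv_fun_const]
      rfl
    · obtain ⟨R, h, hR, hdu, h2⟩ := hlap x hx (not_lt.1 hlt)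
      exact le_trans (mul_nonneg (f1n _) (mul_nonneg hc.le
        (Finset.sum_nonneg fun m _ => Finset.sum_nonneg fun k _ => sq_nonneg _))) h2
  have hharm := hH05 _ hpsi2 hpsir hnn
  have hflat0 : ∀ x : E3, x ≠ 0 → s1 < σ x → fderiv ℝ v x = 0 := by
    intro x hx hgt
    obtain ⟨R, h, hR, hdu, h2⟩ := hlap x hx hgt.le
    rw [hharm x hx] at h2
    have h4 : ∀ m : Fin 3, 0 ≤ ∑ k : Fin 4, (∑ j, R j m * h j k) ^ 2 := fun m =>
      Finset.sum_nonneg fun k _ => sq_nonneg _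
    have h3 : ∑ m : Fin 3, ∑ k : Fin 4, (∑ j, R j m * h j k) ^ 2 = 0 := by
      refine le_antisymm ?_ (Finset.sum_nonneg fun m _ => h4 m)
      by_contra hcon
      have h5 := mul_pos (f1p (σ x) hgt) (mul_pos hc (not_le.1 hcon))
      linarith
    have h6 : ∀ m k, ∑ j, R j m * h j k = 0 := by
      intro m k
      have e1 := (Finset.sum_eq_zero_iff_of_nonneg (fun m _ => h4 m)).1 h3 m (Finset.mem_univ m)
      have e2 := (Finset.sum_eq_zero_iff_of_nonneg (fun k _ => sq_nonneg _)).1 e1 k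
        (Finset.mem_univ k)
      exact (pow_eq_zero_iff two_ne_zero).1 e2
    have h5 : ∀ j k, h j k = 0 := fun j k =>
      eq_zero_of_rot R hR (fun j => h j k) (fun m => h6 m k) j
    refine clm_zero _ fun j => ?_
    have h7 : toM (du v x j) = 0 := by
      rw [hdu j]
      simp [h5]
    ext ab
    exact congrFun (congrFun h7 ab.1) ab.2
  have hconst : ∀ x : E3, x ≠ 0 → v x = v x0 := by
    have hpre : IsPreconnected ({0}ᶜ : Set E3) :=
      (isConnected_compl_singleton_of_one_lt_rank (by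
        rw [← Module.finrank_eq_rank, finrank_euclideanSpace_fin]; norm_num) 0).isPreconnected
    have hu : IsOpen {x : E3 | x ≠ 0 ∧ v x = v x0} := by
      rw [Metric.isOpen_iff]
      rintro y ⟨hy, hvy⟩
      have hσy : s1 < σ y := by
        rw [hσv, hvy, ← hσv]
        exact hs1lt
      have hev : ∀ᶠ z in 𝓝 y, z ≠ 0 ∧ s1 < σ z :=
        (hopen.eventually_mem hy).and ((hσcont y hy).eventually (lt_mem_nhds hσy))
      obtain ⟨ε, hε, hball⟩ := Metric.eventually_nhds_iff_ball.1 hev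
      refine ⟨ε, hε, fun z hz => ⟨(hball z hz).1, ?_⟩⟩
      rw [← hvy]
      exact Metric.isOpen_ball.is_const_of_fderiv_eq_zero (convex_ball y ε).isPreconnected
        (fun w hw => ((hcd w (hball w hw).1).differentiableAt (by simp)).differentiableWithinAt)
        (fun w hw => hflat0 w (hball w hw).1 (hball w hw).2) hz (Metric.mem_ball_self hε)
    have hsub := hpre.subset_of_closure_inter_subset hu ⟨x0, hx0, hx0, rfl⟩ (by
      rintro y ⟨hy1, hy2⟩
      refine ⟨hy2, ?_⟩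
      by_contra hne
      have hev : ∀ᶠ z in 𝓝 y, v z ≠ v x0 :=
        (hcd y hy2).continuousAt.eventually (isOpen_ne.mem_nhds hne)
      obtain ⟨z, hz1, hz2⟩ := ((mem_closure_iff_frequently.1 hy1).and_eventually hev).exists
      exact hz2 hz1.2)
    exact fun x hx => (hsub hx).2
  refine hxa' ?_
  have hev : v =ᶠ[𝓝 xa] fun _ => v x0 := by
    filter_upwards [hopen.mem_nhds hxa] with z hz
    exact hconst z hz
  rw [hev.fderiv_eq, fderiv_fun_const]
  rfl

end Pool.Agent.FUE
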