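import Pool.Agent.FUE.StH

/-!
# Fueter sections: module H07
-/

set_option autoImplicit false

open scoped Manifold ContDiff Matrix
open MeasureTheory

namespace Pool.Agent.FUE

namespace H07x

/-- Differentiation of the relation `P ^ 2 = 2 P`. -/
lemma der (v : E3 → V9) (x : E3) (hd : DifferentiableAt ℝ v x)
    (h : ∀ᶠ y in nhds x, toM (v y) * toM (v y) = (2 : ℝ) • toM (v y)) (w : E3) :
    toM (v x) * toM (fderiv ℝ v x w) + toM (fderiv ℝ v x w) * toM (v x) =
      (2 : ℝ) • toM (fderiv ℝ v x w) := by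
  have hc : ∀ p : Fin 3 × Fin 3, HasFDerivAt (fun y => v y p)
      ((EuclideanSpace.proj p : V9 →L[ℝ] ℝ).comp (fderiv ℝ v x)) x := fun p =>
    (EuclideanSpace.proj p : V9 →L[ℝ] ℝ).hasFDerivAt.comp x hd.hasFDerivAt
  ext i j
  have h1 := (HasFDerivAt.fun_sum (u := Finset.univ)
    (fun k _ => (hc (i, k)).mul (hc (k, j)))).sub ((hc (i, j)).const_mul 2)
  have h2 : (fun y => ∑ k : Fin 3, v y (i, k) * v y (k, j) - 2 * v y (i, j)) =ᶠ[nhds x]
      fun _ => (0 : ℝ) := by
    filter_upwards [h] with y hy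
    have := congrFun (congrFun hy i) j
    rw [Matrix.mul_apply] at this
    simp only [toM, Matrix.of_apply, Matrix.smul_apply, smul_eq_mul] at this
    rw [this, sub_self]
  have h3 := (h1.congr_of_eventuallyEq h2.symm).unique (hasFDerivAt_const (0 : ℝ) x)
  have h4 := congrArg (fun L : E3 →L[ℝ] ℝ => L w) h3
  simp [Fin.sum_univ_three] at h4
  simp [Matrix.mul_apply, toM, Fin.sum_univ_three]
  linarith

lemma cancel (R K L : Matrix (Fin 3) (Fin 3) ℝ) (hR : Rᵀ * R = 1)
    (h : R * K * Rᵀ = R * L * Rᵀ) : K = L := by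
  have h1 : Rᵀ * (R * K * Rᵀ) * R = K := by
    calc Rᵀ * (R * K * Rᵀ) * R = (Rᵀ * R) * K * (Rᵀ * R) := by noncomm_ring
      _ = K := by rw [hR]; simp
  have h2 : Rᵀ * (R * L * Rᵀ) * R = L := by
    calc Rᵀ * (R * L * Rᵀ) * R = (Rᵀ * R) * L * (Rᵀ * R) := by noncomm_ring
      _ = L := by rw [hR]; simp
  rw [← h1, h, h2]

lemma conjmul (R K L : Matrix (Fin 3) (Fin 3) ℝ) (hR : Rᵀ * R = 1) :
    (R * K * Rᵀ) * (R * L * Rᵀ) = R * (K * L) * Rᵀ := by
  calc (R * K * Rᵀ) * (R * L * Rᵀ) = R * K * (Rᵀ * R) * L * Rᵀ := by noncomm_ring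
    _ = R * (K * L) * Rᵀ := by rw [hR]; noncomm_ring

lemma b0 (pr : Profile) : pr.b 0 = Real.pi := by simp [Profile.b, pr.be_zero]

lemma c0 (pr : Profile) : pr.c 0 = -Real.pi := by simp [Profile.c, pr.be_zero]

lemma al0 (pr : Profile) : pr.al (0 ^ 2) = 2 := by simp [pr.al_zero]

/-- Bolt: the relation for the coefficients. -/
lemma coef (h : Fin 4 → ℝ)
    (he : Dg 0 * (∑ k, h k • Tb 0 k) + (∑ k, h k • Tb 0 k) * Dg 0 =
      (2 : ℝ) • (∑ k, h k • Tb 0 k)) : h 0 = 0 ∧ h 1 = 0 := by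
  have h1 := congrFun (congrFun he 1) 1
  have h2 := congrFun (congrFun he 1) 2
  simp only [Matrix.add_apply, Matrix.mul_apply, Matrix.smul_apply, Fin.sum_univ_three] at h1 h2
  simp [Dg, Tb, Fin.sum_univ_four] at h1 h2
  exact ⟨h1, h2⟩

/-- The Fueter equation at the bolt. -/
lemma fuet (pr : Profile) (g : Fin 3 → Fin 4 → ℝ) (h0 : ∀ i, g i 0 = 0) (h1 : ∀ i, g i 1 = 0)
    (h : ∑ i, (Ic pr 0 i).mulVec (g i) = 0) :
    g 0 2 = 0 ∧ g 0 3 = 0 ∧ g 2 3 = g 1 2 ∧ g 2 2 = -g 1 3 := by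
  have hp := Real.pi_pos
  have e0 := congrFun h 0
  have e1 := congrFun h 1
  have e2 := congrFun h 2
  have e3 := congrFun h 3
  simp [Ic, b0, c0, pr.al_zero, Matrix.mulVec, dotProduct, Fin.sum_univ_four, Fin.sum_univ_three,
    h0, h1] at e0 e1 e2 e3
  refine ⟨e3, e2, ?_, ?_⟩
  · have : Real.pi * (g 2 3 - g 1 2) = 0 := by linarith
    rcases mul_eq_zero.mp this with h | h
    · exact absurd h hp.ne'
    · linarith
  · have : Real.pi * (g 2 2 + g 1 3) = 0 := by
      have e : -(2 * Real.pi) / 2 * g 1 3 = -(Real.pi * g 1 3) := by ring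
      rw [e] at e1
      linarith
    rcases mul_eq_zero.mp this with h | h
    · exact absurd h hp.ne'
    · linarith

/-- The relation `P ^ 2 = 2 P` at points of the bolt. -/
lemma bolt_sq (hA04 : St_A04) (P : V9) (hP : P ∈ AH) (ht : tt P = 0) :
    toM P * toM P = (2 : ℝ) • toM P := by
  obtain ⟨R, s, hR, hs, hPe⟩ := hP
  obtain ⟨-, h2, -, -, -⟩ := hA04.2 P R s hR hPe
  rw [ht] at h2
  have hs0 : s = 0 := by
    have := h2.symm
    exact pow_eq_zero_iff (two_ne_zero) |>.mp this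
  subst hs0
  rw [hPe, conjmul R _ _ hR.1]
  have : Dg 0 * Dg 0 = (2 : ℝ) • Dg 0 := by
    ext i j
    fin_cases i <;> fin_cases j <;>
      simp [Dg, Matrix.mul_apply, Matrix.diagonal_apply]
  rw [this]
  simp

lemma vec_sum (x : E3) : x = ∑ j, x j • bs j := by
  ext i
  fin_cases i <;> simp [bs, Fin.sum_univ_three]

end H07x

open H07x

theorem thm_H07 (_hA01 : St_A01) (hA04 : St_A04) (_hA05 : St_A05) (_hA12 : St_A12) : St_H07 := by
  intro pr v hv htt hx0 x hx
  have hU : ({0}ᶜ : Set E3) ∈ nhds x := isOpen_compl_singleton.mem_nhds hx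
  have hd : DifferentiableAt ℝ v x := by
    have := (hv.smooth x hx).contDiffAt hU
    exact this.differentiableAt (by simp)
  have hsq : ∀ᶠ y in nhds x, toM (v y) * toM (v y) = (2 : ℝ) • toM (v y) := by
    filter_upwards [hU] with y hy
    exact bolt_sq hA04 _ (hv.mem y hy) (htt y hy)
  obtain ⟨R, s, h, hR, hs, hP, hH, hF⟩ := hv.eq x hx
  have hs0 : s = 0 := by
    obtain ⟨-, h2, -, -, -⟩ := hA04.2 (v x) R s hR hP
    rw [htt x hx] at h2
    exact pow_eq_zero_iff (two_ne_zero) |>.mp h2.symm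
  subst hs0
  have hRR : R * Rᵀ = 1 := mul_eq_one_comm.mp hR.1
  have hco : ∀ j, h j 0 = 0 ∧ h j 1 = 0 := by
    intro j
    apply coef
    have h1 := der v x hd hsq (bs j)
    have h2 : toM (fderiv ℝ v x (bs j)) = R * (∑ k, h j k • Tb 0 k) * Rᵀ := hH j
    rw [h2, hP, conjmul R _ _ hR.1, conjmul R _ _ hR.1] at h1
    apply cancel R _ _ hR.1
    rw [mul_add, add_mul, h1]
    simp
  set g : Fin 3 → Fin 4 → ℝ := fun i k => ∑ j, R j i * h j k with hg
  have hg0 : ∀ i, g i 0 = 0 := fun i => by simp [hg, (hco _).1]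
  have hg1 : ∀ i, g i 1 = 0 := fun i => by simp [hg, (hco _).2]
  have hgF : ∑ i, (Ic pr 0 i).mulVec (g i) = 0 := by
    rw [← hF, Finset.sum_comm]
    refine Finset.sum_congr rfl fun i _ => ?_
    have : g i = ∑ j, R j i • h j := by
      ext k
      simp [hg]
    rw [this, Matrix.mulVec_sum]
    refine Finset.sum_congr rfl fun j _ => ?_
    rw [Matrix.mulVec_smul]
  obtain ⟨a1, a2, a3, a4⟩ := fuet pr g hg0 hg1 hgF
  -- inversion
  have hhg : ∀ j k, h j k = ∑ i, R j i * g i k := by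
    intro j k
    have h1 : ∀ l, (R * Rᵀ) j l = ∑ i, R j i * R l i := fun l => by
      simp [Matrix.mul_apply]
    have h2 : ∑ i, R j i * g i k = ∑ l, (R * Rᵀ) j l * h l k := by
      simp only [hg, h1, Finset.mul_sum, Finset.sum_mul]
      rw [Finset.sum_comm]
      refine Finset.sum_congr rfl fun l _ => Finset.sum_congr rfl fun i _ => by ring
    rw [h2, hRR]
    simp [Matrix.one_apply]
  -- homogeneity
  have hhom : ∀ k, ∑ j, x j * h j k = 0 := by
    have h1 : ∑ j, x j • du v x j = 0 := by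
      have h2 := hx0 x hx
      have h3 : fderiv ℝ v x (∑ j, x j • bs j) = 0 := by rw [← vec_sum]; exact h2
      rw [map_sum] at h3
      simp only [map_smul] at h3
      exact h3
    have h2 : ∑ j, x j • (∑ k, h j k • Tb 0 k) = 0 := by
      apply cancel R _ _ hR.1
      have h3 : toM (∑ j, x j • du v x j) = ∑ j, x j • toM (du v x j) := by
        ext a b
        simp [toM, Fin.sum_univ_three]
      rw [h1] at h3
      have h4 : toM (0 : V9) = 0 := by ext a b; simp [toM]
      rw [h4] at h3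
      rw [Finset.mul_sum, Finset.sum_mul]
      simp only [mul_zero, zero_mul]
      rw [h3]
      refine Finset.sum_congr rfl fun j _ => ?_
      have := hH j
      simp only at this
      rw [this]
      simp
    have e2 := congrFun (congrFun h2 0) 2
    have e3 := congrFun (congrFun h2 0) 1
    simp [Tb, Fin.sum_univ_three, Fin.sum_univ_four] at e2 e3
    intro k
    fin_cases k
    · simp [(hco _).1]
    · simp [(hco _).2]
    · simp [Fin.sum_univ_three]
      linarith
    · simp [Fin.sum_univ_three]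
      linarith
  -- rotated position vector
  set X : Fin 3 → ℝ := fun i => ∑ j, R j i * x j with hX
  have hXg : ∀ k, ∑ i, X i * g i k = 0 := by
    intro k
    rw [← hhom k]
    simp only [hhg]
    simp only [hX, Fin.sum_univ_three]
    ring
  have f2 : X 1 * g 1 2 - X 2 * g 1 3 = 0 := by
    have := hXg 2
    rw [Fin.sum_univ_three, a1, a4] at this
    linarith
  have f3 : X 1 * g 1 3 + X 2 * g 1 2 = 0 := by
    have := hXg 3
    rw [Fin.sum_univ_three, a2, a3] at this
    linarith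
  have f : (X 1 ^ 2 + X 2 ^ 2) * (g 1 2 ^ 2 + g 1 3 ^ 2) = 0 := by
    have : (X 1 ^ 2 + X 2 ^ 2) * (g 1 2 ^ 2 + g 1 3 ^ 2) =
      (X 1 * g 1 2 - X 2 * g 1 3) ^ 2 + (X 1 * g 1 3 + X 2 * g 1 2) ^ 2 := by ring
    rw [this, f2, f3]
    ring
  rcases mul_eq_zero.mp f with hc | hc
  · right
    have hX1 : X 1 = 0 := by nlinarith [sq_nonneg (X 1), sq_nonneg (X 2)]
    have hX2 : X 2 = 0 := by nlinarith [sq_nonneg (X 1), sq_nonneg (X 2)]
    have hxX : ∀ j, x j = R j 0 * X 0 := by
      intro j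
      have h1 : ∀ l, (R * Rᵀ) j l = ∑ i, R j i * R l i := fun l => by
        simp [Matrix.mul_apply]
      have h2 : ∑ i, R j i * X i = ∑ l, (R * Rᵀ) j l * x l := by
        simp only [hX, h1, Finset.mul_sum, Finset.sum_mul]
        rw [Finset.sum_comm]
        refine Finset.sum_congr rfl fun l _ => Finset.sum_congr rfl fun i _ => by ring
      rw [hRR, Fin.sum_univ_three, hX1, hX2] at h2
      simp [Matrix.one_apply] at h2
      exact h2.symm
    have hR0 : R 0 0 ^ 2 + R 1 0 ^ 2 + R 2 0 ^ 2 = 1 := by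
      have := congrFun (congrFun hR.1 0) 0
      simp [Matrix.mul_apply, Fin.sum_univ_three] at this
      linarith
    have hnorm : ‖x‖ ^ 2 = X 0 ^ 2 := by
      rw [EuclideanSpace.norm_sq_eq]
      simp only [Fin.sum_univ_three, Real.norm_eq_abs, sq_abs]
      rw [hxX 0, hxX 1, hxX 2]
      linear_combination X 0 ^ 2 * hR0
    have hX0 : X 0 ^ 2 ≠ 0 := by
      rw [← hnorm]
      exact pow_ne_zero 2 (norm_ne_zero_iff.mpr hx)
    intro i j
    rw [hnorm, hxX i, hxX j, hP]
    have : (R * Dg 0 * Rᵀ) i j = 2 * R i 0 * R j 0 := by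
      simp only [Matrix.mul_apply, Dg, Fin.sum_univ_three, Matrix.diagonal_apply,
        Matrix.transpose_apply]
      simp
      left
      ring
    rw [this, eq_div_iff hX0]
    ring
  · left
    have hg2 : g 1 2 = 0 := by nlinarith [sq_nonneg (g 1 2), sq_nonneg (g 1 3)]
    have hg3 : g 1 3 = 0 := by nlinarith [sq_nonneg (g 1 2), sq_nonneg (g 1 3)]
    have hh0 : ∀ j k, h j k = 0 := by
      intro j k
      rw [hhg, Fin.sum_univ_three]
      fin_cases k
      · simp [hg0]
      · simp [hg1]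
      · simp [a1, a4, hg2, hg3]
      · simp [a2, a3, hg2, hg3]
    have hdu : ∀ j, du v x j = 0 := by
      intro j
      have h1 := hH j
      simp only [hh0, zero_smul, Finset.sum_const_zero, mul_zero, zero_mul] at h1
      ext ⟨a, b⟩
      have := congrFun (congrFun h1 a) b
      simpa [toM] using this
    ext w : 1
    have hw : fderiv ℝ v x (∑ j, w j • bs j) = 0 := by
      rw [map_sum]
      simp only [map_smul]
      refine Finset.sum_eq_zero fun j _ => ?_
      have : fderiv ℝ v x (bs j) = 0 := hdu j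
      rw [this, smul_zero]
    rw [← vec_sum] at hw
    rw [hw]
    rfl

end Pool.Agent.FUE
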