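import Pool.Agent.FUE.StH

/-!
# Fueter sections: homogeneous bolt valued maps are radial ([H08])
-/

set_option autoImplicit false

open scoped Manifold ContDiff Matrix Topology
open MeasureTheory

namespace Pool.Agent.FUE

namespace H08x

/-- values at the bolt -/
theorem bolt (hA04 : St_A04) (P : V9) (hP : P ∈ AH) (ht : tt P = 0) :
    ∃ η : E3, ‖η‖ = 1 ∧ ∀ i j, toM P i j = 2 * η i * η j := by
  obtain ⟨R, s, hR, hs, hPR⟩ := hP
  have h1 := (hA04.2 P R s hR hPR).2.1
  rw [ht] at h1
  have hs0 : s = 0 := by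
    have : s ^ 2 = 0 := h1.symm
    exact pow_eq_zero_iff (two_ne_zero) |>.mp this
  subst hs0
  refine ⟨WithLp.toLp 2 fun i => R i 0, ?_, ?_⟩
  · have h2 := congr_fun (congr_fun hR.1 0) 0
    rw [Matrix.mul_apply, Fin.sum_univ_three] at h2
    simp only [Matrix.transpose_apply, Matrix.one_apply_eq] at h2
    have h3 : ‖(WithLp.toLp 2 fun i => R i 0 : E3)‖ ^ 2 = 1 := by
      rw [EuclideanSpace.norm_sq_eq, Fin.sum_univ_three]
      simp only [Real.norm_eq_abs, sq_abs]
      linarith
    have h4 := norm_nonneg (WithLp.toLp 2 fun i => R i 0 : E3)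
    nlinarith
  · intro i j
    rw [hPR, Matrix.mul_apply, Fin.sum_univ_three]
    simp [Dg, Matrix.mul_apply, Matrix.transpose_apply, Matrix.diagonal]
    left
    ring

theorem ext_toM (P Q : V9) (h : ∀ i j, toM P i j = toM Q i j) : P = Q := by
  ext ⟨i, j⟩
  exact h i j

/-- the coordinates of the difference to the radial map -/
theorem cont_diff (v : E3 → V9) (x : E3) (hx : x ≠ 0) (hv : ContinuousAt v x) (i j : Fin 3) :
    ContinuousAt (fun y => toM (v y) i j - 2 * y i * y j / ‖y‖ ^ 2) x := by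
  have h1 : ContinuousAt (fun y => toM (v y) i j) x := by
    have : (fun y => toM (v y) i j) = (fun P : V9 => P (i, j)) ∘ v := rfl
    rw [this]
    exact ContinuousAt.comp (by fun_prop) hv
  have h2 : ‖x‖ ^ 2 ≠ 0 := by
    have := norm_pos_iff.mpr hx
    positivity
  refine h1.sub (ContinuousAt.div (by fun_prop) (by fun_prop) h2)

end H08x

open H08x in
theorem thm_H08 (hA04 : St_A04) (hH07 : St_H07) : St_H08 := by
  intro pr v hF ht hrad hne x0 hx0
  by_contra hcon
  have hopen0 : IsOpen ({0}ᶜ : Set E3) := isOpen_compl_singleton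
  have hcont : ∀ x : E3, x ≠ 0 → ContinuousAt v x := fun x hx =>
    (hF.smooth.continuousOn).continuousAt (hopen0.mem_nhds hx)
  have hdiff : ∀ x : E3, x ≠ 0 → DifferentiableAt ℝ v x := fun x hx =>
    (hF.smooth.contDiffAt (hopen0.mem_nhds hx)).differentiableAt (by simp)
  obtain ⟨η, hη, hvη⟩ := bolt hA04 (v x0) (hF.mem x0 hx0) (ht x0 hx0)
  have hη0 : η ≠ 0 := by
    intro h; rw [h, norm_zero] at hη; exact zero_ne_one hη
  -- `x` on the line iff `2 η ηᵀ` is radial at `x`
  have hline1 : ∀ x : E3, x ≠ 0 → (∀ i j, 2 * η i * η j = 2 * x i * x j / ‖x‖ ^ 2) →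
      x ∈ Submodule.span ℝ {η} := by
    intro x hx h
    have hpos : ‖x‖ ^ 2 ≠ 0 := by
      have := norm_pos_iff.mpr hx
      positivity
    have hns : ‖x‖ ^ 2 = x 0 ^ 2 + x 1 ^ 2 + x 2 ^ 2 := by
      rw [EuclideanSpace.norm_sq_eq, Fin.sum_univ_three]
      simp only [Real.norm_eq_abs, sq_abs]
    rw [Submodule.mem_span_singleton]
    refine ⟨η 0 * x 0 + η 1 * x 1 + η 2 * x 2, ?_⟩
    ext i
    have h0 := h i 0
    have h1 := h i 1
    have h2 := h i 2
    rw [eq_div_iff hpos] at h0 h1 h2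
    have e1 : (η i * (η 0 * x 0 + η 1 * x 1 + η 2 * x 2)) * ‖x‖ ^ 2 = x i * ‖x‖ ^ 2 := by
      nth_rewrite 2 [hns]
      linear_combination (x 0 / 2) * h0 + (x 1 / 2) * h1 + (x 2 / 2) * h2
    have e2 := mul_right_cancel₀ hpos e1
    simp only [PiLp.smul_apply, smul_eq_mul]
    linarith
  have hline2 : ∀ x : E3, x ≠ 0 → x ∈ Submodule.span ℝ {η} →
      (∀ i j, 2 * η i * η j = 2 * x i * x j / ‖x‖ ^ 2) := by
    intro x hx h i j
    rw [Submodule.mem_span_singleton] at h
    obtain ⟨a, rfl⟩ := h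
    have ha : a ≠ 0 := by
      intro h; exact hx (by rw [h, zero_smul])
    rw [norm_smul, hη, mul_one, Real.norm_eq_abs, sq_abs]
    simp only [PiLp.smul_apply, smul_eq_mul]
    field_simp
  set S : Set E3 := ((Submodule.span ℝ {η} : Submodule ℝ E3) : Set E3)ᶜ with hS
  have hSpre : IsPreconnected S := by
    have hfr : Module.finrank ℝ (E3 ⧸ (Submodule.span ℝ {η} : Submodule ℝ E3)) = 2 := by
      have h1 := Submodule.finrank_quotient_add_finrank (Submodule.span ℝ {η} : Submodule ℝ E3)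
      rw [finrank_span_singleton hη0] at h1
      simp at h1
      omega
    have hrk : 1 < Module.rank ℝ (E3 ⧸ (Submodule.span ℝ {η} : Submodule ℝ E3)) := by
      rw [← Module.finrank_eq_rank, hfr]
      norm_num
    exact (isConnected_compl_of_one_lt_codim hrk).isPreconnected
  have hSne : ∀ x ∈ S, x ≠ 0 := by
    intro x hx h
    rw [h] at hx
    exact hx (Submodule.zero_mem _)
  have hSopen : IsOpen S := by
    have hcl : IsClosed ((Submodule.span ℝ {η} : Submodule ℝ E3) : Set E3) :=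
      Submodule.closed_of_finiteDimensional _
    exact hcl.isOpen_compl
  have hx0S : x0 ∈ S := by
    intro h
    apply hcon
    intro i j
    rw [hvη i j]
    exact hline2 x0 hx0 h i j
  -- local constancy
  have hloc : ∀ x ∈ S, v x = v x0 → ∀ᶠ y in 𝓝 x, v y = v x0 := by
    intro x hxS hx
    have hxne := hSne x hxS
    have hex : ∃ i j, toM (v x) i j - 2 * x i * x j / ‖x‖ ^ 2 ≠ 0 := by
      by_contra hall
      push Not at hall
      apply hxS
      apply hline1 x hxne
      intro i j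
      have := hall i j
      rw [hx, hvη i j] at this
      linarith
    obtain ⟨i, j, hij⟩ := hex
    have h1 : ∀ᶠ y in 𝓝 x, toM (v y) i j - 2 * y i * y j / ‖y‖ ^ 2 ≠ 0 :=
      (cont_diff v x hxne (hcont x hxne) i j).eventually_ne hij
    have h2 : ∀ᶠ y in 𝓝 x, y ≠ 0 := hopen0.mem_nhds hxne
    obtain ⟨r, hr, hball⟩ := Metric.eventually_nhds_iff_ball.mp (h1.and h2)
    refine Metric.eventually_nhds_iff_ball.mpr ⟨r, hr, fun y hy => ?_⟩
    rw [← hx]
    refine (Metric.isOpen_ball).is_const_of_fderiv_eq_zero (𝕜 := ℝ)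
      (convex_ball x r).isPreconnected ?_ ?_ hy (Metric.mem_ball_self hr)
    · intro z hz
      exact (hdiff z (hball z hz).2).differentiableWithinAt
    · intro z hz
      rcases hH07 pr v hF ht hrad z (hball z hz).2 with h | h
      · simpa using h
      · exact absurd (by rw [h i j, sub_self]) (hball z hz).1
  have hall : ∀ x ∈ S, v x = v x0 := by
    have hAo : IsOpen {x | x ∈ S ∧ v x = v x0} := by
      rw [isOpen_iff_mem_nhds]
      rintro x ⟨hxS, hx⟩
      exact (hSopen.eventually_mem hxS).and (hloc x hxS hx)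
    have hBo : IsOpen {x | x ∈ S ∧ v x ≠ v x0} := by
      rw [isOpen_iff_mem_nhds]
      rintro x ⟨hxS, hx⟩
      exact (hSopen.eventually_mem hxS).and ((hcont x (hSne x hxS)).eventually_ne hx)
    have hdis : Disjoint {x | x ∈ S ∧ v x = v x0} {x | x ∈ S ∧ v x ≠ v x0} := by
      rw [Set.disjoint_left]
      rintro x ⟨_, h1⟩ ⟨_, h2⟩
      exact h2 h1
    have hsub := hSpre.subset_left_of_subset_union hAo hBo hdis
      (fun x hx => by
        by_cases h : v x = v x0
        · exact Or.inl ⟨hx, h⟩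
        · exact Or.inr ⟨hx, h⟩) ⟨x0, hx0S, hx0S, rfl⟩
    intro x hx
    exact (hsub hx).2
  -- all of the complement of the origin
  have hall2 : ∀ x : E3, x ≠ 0 → v x = v x0 := by
    intro x hx
    by_cases hxS : x ∈ S
    · exact hall x hxS
    have hxl : x ∈ (Submodule.span ℝ {η} : Submodule ℝ E3) := by
      by_contra h; exact hxS h
    have hc : Filter.Tendsto (fun t : ℝ => x + t • x0) (𝓝[≠] 0) (𝓝 x) := by
      have : ContinuousAt (fun t : ℝ => x + t • x0) 0 := by fun_prop
      have h2 := this.tendsto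
      simp only [zero_smul, add_zero] at h2
      exact h2.mono_left nhdsWithin_le_nhds
    have h3 := (hcont x hx).tendsto.comp hc
    have h4 : ∀ᶠ t : ℝ in 𝓝[≠] 0, v x0 = (v ∘ fun t : ℝ => x + t • x0) t := by
      filter_upwards [self_mem_nhdsWithin] with t htn
      refine (hall _ ?_).symm
      intro hmem
      apply hx0S
      have h5 : t • x0 ∈ (Submodule.span ℝ {η} : Submodule ℝ E3) := by
        have := Submodule.sub_mem _ hmem hxl
        simpa using this
      have h6 := Submodule.smul_mem _ t⁻¹ h5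
      rwa [smul_smul, inv_mul_cancel₀ htn, one_smul] at h6
    have h5 : Filter.Tendsto (fun _ : ℝ => v x0) (𝓝[≠] (0 : ℝ)) (𝓝 (v x)) :=
      h3.congr' (h4.mono fun t ht => ht.symm)
    exact (tendsto_nhds_unique h5 tendsto_const_nhds)
  obtain ⟨x1, hx1, hd⟩ := hne
  apply hd
  have h1 : v =ᶠ[𝓝 x1] fun _ => v x0 := by
    filter_upwards [hopen0.mem_nhds hx1] with y hy
    exact hall2 y hy
  rw [h1.fderiv_eq, fderiv_fun_const]
  rfl

end Pool.Agent.FUE
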