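import Pool.Agent.FUE.StH

/-!
# FUE/H09 (helper55): smooth unit sections of line fields on balls
-/

set_option autoImplicit false

open scoped Manifold ContDiff Matrix
open MeasureTheory

namespace Pool.Agent.FUE

namespace H09x

theorem step (A B : Matrix (Fin 3) (Fin 3) ℝ) (hAB : ∀ i j, |A i j - B i j| < 1 / 3) (v : Fin 3 → ℝ)
    (hv : v ≠ 0) (hB : B.mulVec v = v) : A.mulVec v ≠ 0 := by
  intro h0
  obtain ⟨i, hi⟩ := Finite.exists_max (fun i => |v i|)
  have hpos : 0 < |v i| := by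
    rcases (abs_nonneg (v i)).lt_or_eq with h | h
    · exact h
    · exfalso
      apply hv
      funext j
      have h1 := hi j
      rw [← h] at h1
      exact abs_eq_zero.1 (le_antisymm h1 (abs_nonneg _))
  have h1 : v i = ∑ j, (B i j - A i j) * v j := by
    have e1 : ∑ j, B i j * v j = v i := congrFun hB i
    have e2 : ∑ j, A i j * v j = 0 := congrFun h0 i
    rw [← e1]
    conv_rhs => rw [Finset.sum_congr rfl (fun j _ => sub_mul (B i j) (A i j) (v j))]
    rw [Finset.sum_sub_distrib, e2, sub_zero]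
  have h2 : |v i| ≤ ∑ j, |B i j - A i j| * |v i| := by
    calc |v i| = |∑ j, (B i j - A i j) * v j| := by rw [← h1]
      _ ≤ ∑ j, |(B i j - A i j) * v j| := Finset.abs_sum_le_sum_abs _ _
      _ ≤ ∑ j, |B i j - A i j| * |v i| := by
        refine Finset.sum_le_sum fun j _ => ?_
        rw [abs_mul]
        exact mul_le_mul_of_nonneg_left (hi j) (abs_nonneg _)
  rw [Fin.sum_univ_three] at h2
  have h3 : ∀ j, |B i j - A i j| * |v i| < 1 / 3 * |v i| := fun j => by
    have := hAB i j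
    rw [abs_sub_comm] at this
    exact mul_lt_mul_of_pos_right this hpos
  have h4 := h3 0
  have h5 := h3 1
  have h6 := h3 2
  linarith

theorem rank_one (L : Matrix (Fin 3) (Fin 3) ℝ) (h1 : Lᵀ = L) (h2 : L * L = L) (h3 : L.trace = 1)
    (ξ : Fin 3 → ℝ) (hξ : ∑ i, ξ i ^ 2 = 1) (hL : L.mulVec ξ = ξ) : ∀ i j, L i j = ξ i * ξ j := by
  have hs : ∀ i j, L i j = L j i := fun i j => by
    conv_lhs => rw [← h1]
    rfl
  have hLξ : ∀ i, ∑ j, L i j * ξ j = ξ i := fun i => congrFun hL i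
  have hLL : ∀ i, ∑ j, L i j * L i j = L i i := fun i => by
    have := congrFun (congrFun h2 i) i
    rw [Matrix.mul_apply] at this
    rw [← this]
    exact Finset.sum_congr rfl fun j _ => by rw [hs j i]
  have hsum : ∑ i, ∑ j, (L i j - ξ i * ξ j) ^ 2 = 0 := by
    have e1 : ∀ i, ∑ j, (L i j - ξ i * ξ j) ^ 2 = L i i - 2 * ξ i ^ 2 + ξ i ^ 2 * 1 := by
      intro i
      have e2 : ∀ j, (L i j - ξ i * ξ j) ^ 2 = L i j * L i j - 2 * ξ i * (L i j * ξ j) + ξ i ^ 2 * ξ j ^ 2 :=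
        fun j => by ring
      rw [Finset.sum_congr rfl fun j _ => e2 j, Finset.sum_add_distrib, Finset.sum_sub_distrib,
        ← Finset.mul_sum, ← Finset.mul_sum, hLL, hLξ, hξ]
      ring
    rw [Finset.sum_congr rfl fun i _ => e1 i, Finset.sum_add_distrib, Finset.sum_sub_distrib,
      ← Finset.mul_sum, ← Finset.sum_mul, hξ]
    have h4 : ∑ i, L i i = 1 := h3
    rw [h4]
    norm_num
  intro i j
  have hi := (Finset.sum_eq_zero_iff_of_nonneg (fun i _ => Finset.sum_nonneg fun j _ => sq_nonneg _)).1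
    hsum i (Finset.mem_univ i)
  have hj := (Finset.sum_eq_zero_iff_of_nonneg (fun j _ => sq_nonneg _)).1 hi j (Finset.mem_univ j)
  have := pow_eq_zero_iff (two_ne_zero) |>.1 hj
  linarith

/-- the iterated products -/
noncomputable def w (L : E3 → Matrix (Fin 3) (Fin 3) ℝ) (N : ℕ) (ξ0 : Fin 3 → ℝ) : ℕ → E3 → Fin 3 → ℝ
  | 0, _ => ξ0
  | k + 1, x => (L ((((k + 1 : ℕ) : ℝ) / N) • x)).mulVec (w L N ξ0 k x)

end H09x

open H09x

/-- `St_H09`. -/
theorem thm_H09 : St_H09 := by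
  intro L r r' hr hr' hsm hL
  -- uniform continuity
  have hsub : Metric.closedBall (0 : E3) r ⊆ Metric.ball 0 r' := Metric.closedBall_subset_ball hr'
  have hcont : ContinuousOn (fun x => (fun i j => L x i j : Fin 3 → Fin 3 → ℝ)) (Metric.closedBall (0 : E3) r) := by
    refine continuousOn_pi.2 fun i => continuousOn_pi.2 fun j => ?_
    exact (hsm i j).continuousOn.mono hsub
  have huc := (isCompact_closedBall (0 : E3) r).uniformContinuousOn_of_continuous hcont
  rw [Metric.uniformContinuousOn_iff] at huc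
  obtain ⟨δ, hδ, huc⟩ := huc (1 / 3) (by norm_num)
  obtain ⟨N, hN⟩ := exists_nat_gt (r / δ)
  have hN0 : (0 : ℝ) < N := lt_trans (by positivity) hN
  have hrN : r / N < δ := by
    rw [div_lt_iff₀ hN0]
    rw [div_lt_iff₀ hδ] at hN
    linarith
  -- the first vector
  obtain ⟨h01, h02, h03⟩ := hL 0 (Metric.mem_ball_self (hr.trans hr'))
  obtain ⟨i₀, hi₀⟩ : ∃ i, L 0 i i ≠ 0 := by
    by_contra hcon
    push Not at hcon
    have : (L 0).trace = 0 := Finset.sum_eq_zero fun i _ => hcon i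
    rw [this] at h03
    norm_num at h03
  set ξ0 : Fin 3 → ℝ := fun i => L 0 i i₀ with hξ0
  have hξ0L : (L 0).mulVec ξ0 = ξ0 := by
    funext i
    have := congrFun (congrFun h02 i) i₀
    rw [Matrix.mul_apply] at this
    exact this
  have hξ00 : ξ0 ≠ 0 := fun h => hi₀ (congrFun h i₀)
  -- points
  have hpt : ∀ x ∈ Metric.ball (0 : E3) r, ∀ k : ℕ, k ≤ N → (((k : ℕ) : ℝ) / N) • x ∈ Metric.ball (0 : E3) r := by
    intro x hx k hk
    rw [mem_ball_zero_iff] at hx ⊢
    rw [norm_smul, Real.norm_of_nonneg (by positivity)]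
    have h1 : (k : ℝ) / N ≤ 1 := by
      rw [div_le_one hN0]
      exact_mod_cast hk
    have h2 : (k : ℝ) / N * ‖x‖ ≤ 1 * ‖x‖ := mul_le_mul_of_nonneg_right h1 (norm_nonneg _)
    linarith
  have hbc : ∀ x ∈ Metric.ball (0 : E3) r, x ∈ Metric.ball (0 : E3) r' := fun x hx =>
    Metric.ball_subset_ball hr'.le hx
  have hw : ∀ k : ℕ, k ≤ N → ∀ x ∈ Metric.ball (0 : E3) r,
      w L N ξ0 k x ≠ 0 ∧ (L ((((k : ℕ) : ℝ) / N) • x)).mulVec (w L N ξ0 k x) = w L N ξ0 k x := by
    intro k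
    induction k with
    | zero =>
      intro _ x hx
      refine ⟨hξ00, ?_⟩
      rw [Nat.cast_zero, zero_div, zero_smul]
      exact hξ0L
    | succ k ih =>
      intro hk x hx
      obtain ⟨i1, i2⟩ := ih (by omega) x hx
      have hp1 := hpt x hx (k + 1) hk
      have hp0 := hpt x hx k (by omega)
      have hidem := (hL _ (hbc _ hp1)).2.1
      constructor
      · refine step _ _ ?_ _ i1 i2
        intro i j
        have hd : dist ((((k + 1 : ℕ) : ℝ) / N) • x) (((k : ℝ) / N) • x) < δ := by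
          rw [dist_eq_norm, ← sub_smul, norm_smul]
          have e1 : ((k + 1 : ℕ) : ℝ) / N - (k : ℝ) / N = 1 / N := by
            push_cast
            ring
          rw [e1, Real.norm_of_nonneg (by positivity)]
          rw [mem_ball_zero_iff] at hx
          have e2 : 1 / (N : ℝ) * ‖x‖ ≤ 1 / N * r := mul_le_mul_of_nonneg_left hx.le (by positivity)
          have e3 : 1 / (N : ℝ) * r = r / N := by ring
          linarith
        have h1 := huc _ (Metric.ball_subset_closedBall hp1) _ (Metric.ball_subset_closedBall hp0) hd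
        have h2 := (dist_le_pi_dist _ _ i).trans_lt h1
        have h3 := (dist_le_pi_dist _ _ j).trans_lt h2
        rwa [Real.dist_eq] at h3
      · change (L _).mulVec ((L _).mulVec _) = (L _).mulVec _
        rw [Matrix.mulVec_mulVec, hidem]
  have hws : ∀ k : ℕ, k ≤ N → ∀ i, ContDiffOn ℝ ∞ (fun x => w L N ξ0 k x i) (Metric.ball (0 : E3) r) := by
    intro k
    induction k with
    | zero =>
      intro _ i
      exact contDiffOn_const
    | succ k ih =>
      intro hk i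
      have hLk : ∀ j, ContDiffOn ℝ ∞ (fun x => L ((((k + 1 : ℕ) : ℝ) / N) • x) i j) (Metric.ball (0 : E3) r) := by
        intro j
        have h1 : ContDiffOn ℝ ∞ (fun x : E3 => (((k + 1 : ℕ) : ℝ) / N) • x) (Metric.ball (0 : E3) r) :=
          (contDiff_id.const_smul _).contDiffOn
        exact (hsm i j).comp h1 (fun x hx => hbc _ (hpt x hx (k + 1) hk))
      have h2 : ContDiffOn ℝ ∞ (fun x => ∑ j, L ((((k + 1 : ℕ) : ℝ) / N) • x) i j * w L N ξ0 k x j)
          (Metric.ball (0 : E3) r) := ContDiffOn.sum fun j _ => (hLk j).mul (ih (by omega) j)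
      exact h2
  -- the unit section
  have hQ : ∀ x ∈ Metric.ball (0 : E3) r, 0 < ∑ i, w L N ξ0 N x i ^ 2 := by
    intro x hx
    have h1 := (hw N le_rfl x hx).1
    obtain ⟨i, hi⟩ := Function.ne_iff.1 h1
    have hi' : w L N ξ0 N x i ≠ 0 := hi
    refine Finset.sum_pos' (fun i _ => sq_nonneg _) ⟨i, Finset.mem_univ i, ?_⟩
    positivity
  have hQs : ContDiffOn ℝ ∞ (fun x => (√(∑ i, w L N ξ0 N x i ^ 2))⁻¹) (Metric.ball (0 : E3) r) := by
    refine ContDiffOn.inv (ContDiffOn.sqrt (ContDiffOn.sum fun i _ => (hws N le_rfl i).pow 2) ?_) ?_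
    · intro x hx
      exact (hQ x hx).ne'
    · intro x hx
      exact (Real.sqrt_pos.2 (hQ x hx)).ne'
  refine ⟨fun x i => (√(∑ i, w L N ξ0 N x i ^ 2))⁻¹ * w L N ξ0 N x i,
    fun i => hQs.mul (hws N le_rfl i), fun x hx => ?_⟩
  have hq := hQ x hx
  have h1 : ∑ i, ((√(∑ i, w L N ξ0 N x i ^ 2))⁻¹ * w L N ξ0 N x i) ^ 2 = 1 := by
    have e : ∀ i, ((√(∑ i, w L N ξ0 N x i ^ 2))⁻¹ * w L N ξ0 N x i) ^ 2 =
        (∑ i, w L N ξ0 N x i ^ 2)⁻¹ * w L N ξ0 N x i ^ 2 := by
      intro i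
      rw [mul_pow, inv_pow, Real.sq_sqrt hq.le]
    rw [Finset.sum_congr rfl fun i _ => e i, ← Finset.mul_sum, inv_mul_cancel₀ hq.ne']
  refine ⟨h1, ?_⟩
  obtain ⟨l1, l2, l3⟩ := hL x (hbc x hx)
  refine rank_one (L x) l1 l2 l3 _ h1 ?_
  have h2 := (hw N le_rfl x hx).2
  rw [div_self hN0.ne', one_smul] at h2
  change (L x).mulVec ((√(∑ i, w L N ξ0 N x i ^ 2))⁻¹ • w L N ξ0 N x) =
      (√(∑ i, w L N ξ0 N x i ^ 2))⁻¹ • w L N ξ0 N x
  rw [Matrix.mulVec_smul, h2]

end Pool.Agent.FUE
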