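import Pool.Agent.FUE.StH

/-!
# Fueter sections: the area form is closed (helper81)
-/

set_option autoImplicit false

open scoped Manifold ContDiff Matrix
open MeasureTheory

namespace Pool.Agent.FUE

namespace H10x

/-- derivative number `m` -/
noncomputable def dd (f : E3 → ℝ) (m : Fin 3) : E3 → ℝ := fun y => fderiv ℝ f y (bs m)

theorem dd_smooth {f : E3 → ℝ} {U : Set E3} (hU : IsOpen U) (hf : ContDiffOn ℝ ∞ f U)
    (m : Fin 3) : ContDiffOn ℝ ∞ (dd f m) U :=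
  ((contDiffOn_infty_iff_fderiv_of_isOpen hU).1 hf).2.clm_apply contDiffOn_const

theorem diffAt {f : E3 → ℝ} {U : Set E3} (hU : IsOpen U) (hf : ContDiffOn ℝ ∞ f U) {x : E3}
    (hx : x ∈ U) : DifferentiableAt ℝ f x :=
  (hf.contDiffAt (hU.mem_nhds hx)).differentiableAt (by simp)

theorem dd_symm {f : E3 → ℝ} {U : Set E3} (hU : IsOpen U) (hf : ContDiffOn ℝ ∞ f U) {x : E3}
    (hx : x ∈ U) (m m' : Fin 3) : dd (dd f m) m' x = dd (dd f m') m x := by
  have h1 : ContDiffAt ℝ ∞ f x := hf.contDiffAt (hU.mem_nhds hx)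
  have h2 : IsSymmSndFDerivAt ℝ f x := h1.isSymmSndFDerivAt (by
    rw [minSmoothness_of_isRCLikeNormedField]
    exact WithTop.coe_le_coe.2 le_top)
  have h3 : DifferentiableAt ℝ (fderiv ℝ f) x :=
    ((((contDiffOn_infty_iff_fderiv_of_isOpen hU).1 hf).2).contDiffAt
      (hU.mem_nhds hx)).differentiableAt (by simp)
  have h4 : ∀ k k' : Fin 3, dd (dd f k) k' x = fderiv ℝ (fderiv ℝ f) x (bs k') (bs k) := by
    intro k k'
    unfold dd
    rw [fderiv_clm_apply h3 (differentiableAt_const _)]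
    simp
  rw [h4, h4]
  exact h2 _ _

theorem dd_add {f g : E3 → ℝ} {x : E3} (hf : DifferentiableAt ℝ f x)
    (hg : DifferentiableAt ℝ g x) (m : Fin 3) :
    dd (fun y => f y + g y) m x = dd f m x + dd g m x := by
  unfold dd
  rw [fderiv_fun_add hf hg]
  rfl

theorem dd_sub {f g : E3 → ℝ} {x : E3} (hf : DifferentiableAt ℝ f x)
    (hg : DifferentiableAt ℝ g x) (m : Fin 3) :
    dd (fun y => f y - g y) m x = dd f m x - dd g m x := by
  unfold dd
  rw [fderiv_fun_sub hf hg]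
  rfl

theorem dd_mul {f g : E3 → ℝ} {x : E3} (hf : DifferentiableAt ℝ f x)
    (hg : DifferentiableAt ℝ g x) (m : Fin 3) :
    dd (fun y => f y * g y) m x = dd f m x * g x + f x * dd g m x := by
  unfold dd
  rw [fderiv_fun_mul hf hg]
  change f x * (fderiv ℝ g x) (bs m) + g x * (fderiv ℝ f x) (bs m) = _
  ring

/-- the summand of `arw` -/
noncomputable def tm (ξ : E3 → Fin 3 → ℝ) (m i : Fin 3) : E3 → ℝ := fun x =>
  ξ x i * (dd (fun y => ξ y (i + 1)) (m + 1) x * dd (fun y => ξ y (i + 2)) (m + 2) x -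
    dd (fun y => ξ y (i + 2)) (m + 1) x * dd (fun y => ξ y (i + 1)) (m + 2) x)

theorem arw_eq (ξ : E3 → Fin 3 → ℝ) (x : E3) (m : Fin 3) : arw ξ x m = ∑ i, tm ξ m i x := rfl

theorem tm_smooth {ξ : E3 → Fin 3 → ℝ} {U : Set E3} (hU : IsOpen U)
    (hξ : ∀ i, ContDiffOn ℝ ∞ (fun x => ξ x i) U) (m i : Fin 3) : ContDiffOn ℝ ∞ (tm ξ m i) U :=
  (hξ i).mul (((dd_smooth hU (hξ (i + 1)) (m + 1)).mul (dd_smooth hU (hξ (i + 2)) (m + 2))).sub
    ((dd_smooth hU (hξ (i + 2)) (m + 1)).mul (dd_smooth hU (hξ (i + 1)) (m + 2))))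

theorem arw_smooth {ξ : E3 → Fin 3 → ℝ} {U : Set E3} (hU : IsOpen U)
    (hξ : ∀ i, ContDiffOn ℝ ∞ (fun x => ξ x i) U) (m : Fin 3) :
    ContDiffOn ℝ ∞ (fun x => arw ξ x m) U :=
  ContDiffOn.sum fun i _ => tm_smooth hU hξ m i

theorem tm_dd {ξ : E3 → Fin 3 → ℝ} {U : Set E3} (hU : IsOpen U)
    (hξ : ∀ i, ContDiffOn ℝ ∞ (fun x => ξ x i) U) {x : E3} (hx : x ∈ U) (m i : Fin 3) :
    dd (tm ξ m i) m x = dd (fun y => ξ y i) m x *
      (dd (fun y => ξ y (i + 1)) (m + 1) x * dd (fun y => ξ y (i + 2)) (m + 2) x -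
        dd (fun y => ξ y (i + 2)) (m + 1) x * dd (fun y => ξ y (i + 1)) (m + 2) x) +
      ξ x i * ((dd (dd (fun y => ξ y (i + 1)) (m + 1)) m x *
          dd (fun y => ξ y (i + 2)) (m + 2) x + dd (fun y => ξ y (i + 1)) (m + 1) x *
          dd (dd (fun y => ξ y (i + 2)) (m + 2)) m x) -
        (dd (dd (fun y => ξ y (i + 2)) (m + 1)) m x *
          dd (fun y => ξ y (i + 1)) (m + 2) x + dd (fun y => ξ y (i + 2)) (m + 1) x *
          dd (dd (fun y => ξ y (i + 1)) (m + 2)) m x)) := by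
  have d0 := diffAt hU (hξ i) hx
  have d1 : ∀ j k, DifferentiableAt ℝ (dd (fun y => ξ y j) k) x := fun j k =>
    diffAt hU (dd_smooth hU (hξ j) k) hx
  unfold tm
  rw [dd_mul d0 (((d1 _ _).fun_mul (d1 _ _)).fun_sub ((d1 _ _).fun_mul (d1 _ _))),
    dd_sub ((d1 _ _).fun_mul (d1 _ _)) ((d1 _ _).fun_mul (d1 _ _)), dd_mul (d1 _ _) (d1 _ _),
    dd_mul (d1 _ _) (d1 _ _)]

theorem dd_sum {f : Fin 3 → E3 → ℝ} {x : E3} (hf : ∀ i, DifferentiableAt ℝ (f i) x)
    (m : Fin 3) : dd (fun y => ∑ i, f i y) m x = ∑ i, dd (f i) m x := by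
  have h1 : (fun y => ∑ i, f i y) = fun y => (f 0 y + f 1 y) + f 2 y :=
    funext fun y => Fin.sum_univ_three _
  rw [h1, Fin.sum_univ_three, dd_add ((hf 0).fun_add (hf 1)) (hf 2), dd_add (hf 0) (hf 1)]

theorem alg (s : Fin 3 → ℝ) (p : Fin 3 → Fin 3 → ℝ) (q : Fin 3 → Fin 3 → Fin 3 → ℝ)
    (hq : ∀ i m m', q i m m' = q i m' m) (ht : ∀ m, ∑ i, s i * p i m = 0)
    (hs : ∑ i, s i ^ 2 = 1) :
    ∑ m : Fin 3, ∑ i : Fin 3, (p i m * (p (i + 1) (m + 1) * p (i + 2) (m + 2) -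
      p (i + 2) (m + 1) * p (i + 1) (m + 2)) +
      s i * ((q (i + 1) (m + 1) m * p (i + 2) (m + 2) + p (i + 1) (m + 1) * q (i + 2) (m + 2) m) -
        (q (i + 2) (m + 1) m * p (i + 1) (m + 2) + p (i + 2) (m + 1) * q (i + 1) (m + 2) m))) =
    0 := by
  have t0 := ht 0
  have t1 := ht 1
  have t2 := ht 2
  rw [Fin.sum_univ_three] at t0 t1 t2 hs
  have f01 : (0 + 1 : Fin 3) = 1 := rfl
  have f02 : (0 + 2 : Fin 3) = 2 := rfl
  have f11 : (1 + 1 : Fin 3) = 2 := rfl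
  have f12 : (1 + 2 : Fin 3) = 0 := rfl
  have f21 : (2 + 1 : Fin 3) = 0 := rfl
  have f22 : (2 + 2 : Fin 3) = 1 := rfl
  simp only [Fin.sum_univ_three, f01, f02, f11, f12, f21, f22]
  have a1 : ∀ i, q i 1 0 = q i 0 1 := fun i => hq i 1 0
  have a2 : ∀ i, q i 2 0 = q i 0 2 := fun i => hq i 2 0
  have a3 : ∀ i, q i 2 1 = q i 1 2 := fun i => hq i 2 1
  simp only [a1, a2, a3]
  linear_combination (-3 * (p 0 0 * (p 1 1 * p 2 2 - p 2 1 * p 1 2)
      - p 0 1 * (p 1 0 * p 2 2 - p 2 0 * p 1 2) + p 0 2 * (p 1 0 * p 2 1 - p 2 0 * p 1 1))) * hs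
    + 3 * (s 0 * (p 1 1 * p 2 2 - p 2 1 * p 1 2) + s 1 * (p 2 1 * p 0 2 - p 0 1 * p 2 2)
      + s 2 * (p 0 1 * p 1 2 - p 1 1 * p 0 2)) * t0
    + 3 * (s 0 * (p 1 2 * p 2 0 - p 2 2 * p 1 0) + s 1 * (p 2 2 * p 0 0 - p 0 2 * p 2 0)
      + s 2 * (p 0 2 * p 1 0 - p 1 2 * p 0 0)) * t1
    + 3 * (s 0 * (p 1 0 * p 2 1 - p 2 0 * p 1 1) + s 1 * (p 2 0 * p 0 1 - p 0 0 * p 2 1)
      + s 2 * (p 0 0 * p 1 1 - p 1 0 * p 0 1)) * t2

theorem div_zero {ξ : E3 → Fin 3 → ℝ} {U : Set E3} (hU : IsOpen U)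
    (hξ : ∀ i, ContDiffOn ℝ ∞ (fun x => ξ x i) U) (h1 : ∀ x ∈ U, ∑ i, ξ x i ^ 2 = 1) {x : E3}
    (hx : x ∈ U) : ∑ m, dd (fun y => arw ξ y m) m x = 0 := by
  have e1 : ∀ m, dd (fun y => arw ξ y m) m x = ∑ i, dd (tm ξ m i) m x := fun m =>
    dd_sum (f := fun i => tm ξ m i) (fun i => diffAt hU (tm_smooth hU hξ m i) hx) m
  have e2 : ∀ m, ∑ i, ξ x i * dd (fun y => ξ y i) m x = 0 := by
    intro m
    have e3 : dd (fun y => ∑ i, ξ y i * ξ y i) m x = 0 := by
      have e4 : (fun y => ∑ i, ξ y i * ξ y i) =ᶠ[nhds x] fun _ => (1 : ℝ) := by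
        filter_upwards [hU.mem_nhds hx] with y hy
        rw [← h1 y hy]
        exact Finset.sum_congr rfl fun i _ => (sq _).symm
      unfold dd
      rw [e4.fderiv_eq, fderiv_const_apply]
      rfl
    have e5 : dd (fun y => ∑ i, ξ y i * ξ y i) m x = ∑ i, dd (fun y => ξ y i * ξ y i) m x :=
      dd_sum (f := fun i y => ξ y i * ξ y i)
        (fun i => (diffAt hU (hξ i) hx).mul (diffAt hU (hξ i) hx)) m
    have e6 : ∑ i, dd (fun y => ξ y i * ξ y i) m x =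
        2 * ∑ i, ξ x i * dd (fun y => ξ y i) m x := by
      rw [Finset.mul_sum]
      refine Finset.sum_congr rfl fun i _ => ?_
      rw [dd_mul (diffAt hU (hξ i) hx) (diffAt hU (hξ i) hx)]
      ring
    rw [e5, e6] at e3
    linarith
  simp only [e1]
  have e7 : ∀ m i, dd (tm ξ m i) m x = _ := fun m i => tm_dd hU hξ hx m i
  simp only [e7]
  exact alg (fun i => ξ x i) (fun i m => dd (fun y => ξ y i) m x)
    (fun i m m' => dd (dd (fun y => ξ y i) m) m' x) (fun i m m' => dd_symm hU (hξ i) hx m m')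
    e2 (h1 x hx)

theorem int_of {f : E3 → ℝ} {r : ℝ} (hr : 2 < r) (hf : ContinuousOn f (Metric.ball 0 r))
    (h0 : ∀ x, 2 < ‖x‖ → f x = 0) : Integrable f := by
  have hs : Metric.closedBall (0 : E3) 2 ⊆ Metric.ball 0 r := Metric.closedBall_subset_ball hr
  have h1 : IntegrableOn f (Metric.closedBall 0 2) :=
    (hf.mono hs).integrableOn_compact (isCompact_closedBall 0 2)
  refine (integrableOn_iff_integrable_of_support_subset ?_).1 h1
  intro x hx
  rw [mem_closedBall_zero_iff]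
  by_contra hc
  exact hx (h0 x (not_le.1 hc))

end H10x

open H10x in
theorem thm_H10 : St_H10 := by
  intro ξ r hr0 hξ h1 η hη h0 hr
  set U : Set E3 := Metric.ball 0 r with hUdef
  have hU : IsOpen U := Metric.isOpen_ball
  have hηd : Differentiable ℝ η := hη.differentiable (by simp)
  have hfη : ∀ (v : E3) (x : E3), 2 < ‖x‖ → fderiv ℝ η x v = 0 := by
    intro v x hx
    have e1 : η =ᶠ[nhds x] fun _ => (0 : ℝ) := by
      have e2 : {y : E3 | 2 < ‖y‖} ∈ nhds x :=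
        (isOpen_lt continuous_const continuous_norm).mem_nhds hx
      filter_upwards [e2] with y hy
      exact h0 y (le_of_lt hy)
    rw [e1.fderiv_eq, fderiv_const_apply]
    rfl
  have hts : tsupport η ⊆ U := by
    have e1 : tsupport η ⊆ Metric.closedBall (0 : E3) 2 := by
      refine closure_minimal ?_ Metric.isClosed_closedBall
      intro x hx
      rw [mem_closedBall_zero_iff]
      by_contra hc
      exact hx (h0 x (le_of_lt (not_le.1 hc)))
    exact e1.trans (Metric.closedBall_subset_ball hr)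
  have hηc : ∀ v : E3, Continuous fun x => fderiv ℝ η x v := fun v =>
    (hη.continuous_fderiv (by simp)).clm_apply continuous_const
  have hA : ∀ m, ContDiffOn ℝ ∞ (fun x => arw ξ x m) U := fun m => arw_smooth hU hξ m
  have i1 : ∀ m, Integrable (fun x => arw ξ x m * fderiv ℝ η x (bs m)) := fun m =>
    int_of hr ((hA m).continuousOn.mul (hηc _).continuousOn) fun x hx => by
      rw [hfη _ x hx, mul_zero]
  have i2 : ∀ m, Integrable (fun x => fderiv ℝ (fun x => arw ξ x m) x (bs m) * η x) := fun m =>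
    int_of hr ((dd_smooth hU (hA m) m).continuousOn.mul hη.continuous.continuousOn) fun x hx => by
      rw [h0 x (le_of_lt hx), mul_zero]
  have i3 : ∀ m, Integrable (fun x => arw ξ x m * η x) := fun m =>
    int_of hr ((hA m).continuousOn.mul hη.continuous.continuousOn) fun x hx => by
      rw [h0 x (le_of_lt hx), mul_zero]
  have e1 : ∀ m, ∫ x, arw ξ x m * fderiv ℝ η x (bs m) =
      -∫ x, fderiv ℝ (fun x => arw ξ x m) x (bs m) * η x := fun m =>
    integral_mul_fderiv_eq_neg_fderiv_mul_of_integrable (i2 m) (i1 m) (i3 m)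
      (fun x hx => diffAt hU (hA m) (hts hx)) (fun x _ => hηd x)
  rw [integral_finsetSum _ fun m _ => i1 m]
  simp only [e1]
  rw [Finset.sum_neg_distrib, ← integral_finsetSum _ fun m _ => i2 m, neg_eq_zero]
  have e2 : ∀ x, ∑ m, fderiv ℝ (fun x => arw ξ x m) x (bs m) * η x = 0 := by
    intro x
    rw [← Finset.sum_mul]
    by_cases hx : x ∈ U
    · have e3 : ∑ m, fderiv ℝ (fun x => arw ξ x m) x (bs m) = 0 := div_zero hU hξ h1 hx
      rw [e3, zero_mul]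
    · rw [h0 x ?_, mul_zero]
      have e4 : ¬ ‖x‖ < r := fun h => hx (mem_ball_zero_iff.2 h)
      linarith [not_lt.1 e4]
  simp only [e2, integral_zero]

end Pool.Agent.FUE
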