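import Pool.Agent.FUE.StH

/-!
# Fueter sections: the radial map is not a limit of rescaled flat Fueter maps

Proof of `St_H11`.  For a smooth unit section `ξ` of the eigenline the number
`⟨ξ, x⟩ * ∑ m, x m * arw ξ x m` is a polynomial in the projection and its first derivatives (`Qp`),
so it converges to the value for the radial map, which is one, uniformly on the annulus.
-/

set_option autoImplicit false

open scoped Manifold ContDiff Matrix
open MeasureTheory

namespace Pool.Agent.FUE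

namespace H11x

/-- entries of the projection -/
noncomputable def el (i j : Fin 3) (P : V9) : ℝ := ell P i j

lemma cd_coord (i j : Fin 3) : ContDiff ℝ ∞ (fun P : V9 => P (i, j)) :=
  (EuclideanSpace.proj (i, j) : V9 →L[ℝ] ℝ).contDiff

lemma lam_eq (P : V9) : lam P = P (0, 0) + P (1, 1) + P (2, 2) := by
  simp [lam, toM, Matrix.trace, Fin.sum_univ_three]

lemma tt_eq (P : V9) : tt P = P (0, 0) + P (1, 1) + P (2, 2) - 2 := by
  simp [tt, toM, Matrix.trace, Fin.sum_univ_three]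

lemma el_eq (i j : Fin 3) (P : V9) : el i j P = ((lam P) ^ 2 - tt P)⁻¹ *
    ((∑ k, P (i, k) * P (k, j)) - tt P * (if i = j then 1 else 0)) := by
  simp [el, ell, toM, Matrix.mul_apply, Matrix.one_apply]

lemma cd_lam : ContDiff ℝ ∞ (fun P : V9 => lam P) := by
  simp only [lam_eq]
  exact ((cd_coord 0 0).add (cd_coord 1 1)).add (cd_coord 2 2)

lemma cd_tt : ContDiff ℝ ∞ (fun P : V9 => tt P) := by
  simp only [tt_eq]
  exact (((cd_coord 0 0).add (cd_coord 1 1)).add (cd_coord 2 2)).sub contDiff_const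

lemma cd_el (hA : ∀ P : V9, 0 < (lam P) ^ 2 - tt P) (i j : Fin 3) : ContDiff ℝ ∞ (el i j) := by
  have h : el i j = fun P => ((lam P) ^ 2 - tt P)⁻¹ *
    ((∑ k, P (i, k) * P (k, j)) - tt P * (if i = j then 1 else 0)) := by
    funext P
    exact el_eq i j P
  rw [h]
  refine ContDiff.mul (ContDiff.inv ((cd_lam.pow 2).sub cd_tt) fun P => (hA P).ne') ?_
  refine ContDiff.sub (ContDiff.sum fun k _ => (cd_coord i k).mul (cd_coord k j)) ?_
  exact cd_tt.mul contDiff_const

/-- the quartic expression -/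
noncomputable def Qp (P : V9) (H : Fin 3 → V9) (x : E3) : ℝ :=
  ∑ m : Fin 3, x m * ∑ l : Fin 3, ∑ i : Fin 3, ∑ p : Fin 3, ∑ q : Fin 3,
    x l * el l i P * el p q P *
      (fderiv ℝ (el (i + 1) p) P (H (m + 1)) * fderiv ℝ (el (i + 2) q) P (H (m + 2)) -
        fderiv ℝ (el (i + 2) p) P (H (m + 1)) * fderiv ℝ (el (i + 1) q) P (H (m + 2)))

/-- convergence of the quartic expression -/
lemma Qp_tendsto (hA : ∀ P : V9, 0 < (lam P) ^ 2 - tt P) (P : ℕ → V9) (H : ℕ → Fin 3 → V9)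
    (x : ℕ → E3) (P0 : V9) (H0 : Fin 3 → V9) (x0 : E3)
    (hP : Filter.Tendsto P Filter.atTop (nhds P0))
    (hH : ∀ m, Filter.Tendsto (fun n => H n m) Filter.atTop (nhds (H0 m)))
    (hx : Filter.Tendsto x Filter.atTop (nhds x0)) :
    Filter.Tendsto (fun n => Qp (P n) (H n) (x n)) Filter.atTop (nhds (Qp P0 H0 x0)) := by
  have hxc : ∀ m : Fin 3, Filter.Tendsto (fun n => x n m) Filter.atTop (nhds (x0 m)) := by
    intro m
    exact ((EuclideanSpace.proj m : E3 →L[ℝ] ℝ).continuous.tendsto x0).comp hx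
  have hel : ∀ i j, Filter.Tendsto (fun n => el i j (P n)) Filter.atTop (nhds (el i j P0)) := by
    intro i j
    exact ((cd_el hA i j).continuous.tendsto P0).comp hP
  have hd : ∀ i j m, Filter.Tendsto (fun n => fderiv ℝ (el i j) (P n) (H n m)) Filter.atTop
      (nhds (fderiv ℝ (el i j) P0 (H0 m))) := by
    intro i j m
    have h1 : Continuous (fderiv ℝ (el i j)) :=
      (cd_el hA i j).continuous_fderiv (by simp)
    have h2 : Filter.Tendsto (fun n => (fderiv ℝ (el i j) (P n), H n m)) Filter.atTop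
        (nhds (fderiv ℝ (el i j) P0, H0 m)) := ((h1.tendsto P0).comp hP).prodMk_nhds (hH m)
    exact (isBoundedBilinearMap_apply.continuous.tendsto (fderiv ℝ (el i j) P0, H0 m)).comp h2
  unfold Qp
  refine tendsto_finsetSum _ fun m _ => (hxc m).mul ?_
  refine tendsto_finsetSum _ fun l _ => ?_
  refine tendsto_finsetSum _ fun i _ => ?_
  refine tendsto_finsetSum _ fun p _ => ?_
  refine tendsto_finsetSum _ fun q _ => ?_
  exact (((hxc l).mul (hel l i)).mul (hel p q)).mul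
    (((hd _ _ _).mul (hd _ _ _)).sub ((hd _ _ _).mul (hd _ _ _)))

/-- the pointwise identity -/
lemma quartic (ξ x : Fin 3 → ℝ) (a : Fin 3 → Fin 3 → ℝ) (h1 : ∑ i, ξ i ^ 2 = 1)
    (h0 : ∀ m, ∑ i, ξ i * a m i = 0) :
    (∑ m : Fin 3, x m * ∑ l : Fin 3, ∑ i : Fin 3, ∑ p : Fin 3, ∑ q : Fin 3,
      x l * (ξ l * ξ i) * (ξ p * ξ q) *
        ((a (m + 1) (i + 1) * ξ p + ξ (i + 1) * a (m + 1) p) *
          (a (m + 2) (i + 2) * ξ q + ξ (i + 2) * a (m + 2) q) -
        (a (m + 1) (i + 2) * ξ p + ξ (i + 2) * a (m + 1) p) *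
          (a (m + 2) (i + 1) * ξ q + ξ (i + 1) * a (m + 2) q))) =
    (∑ l, ξ l * x l) * ∑ m : Fin 3, x m * ∑ i : Fin 3, ξ i * (a (m + 1) (i + 1) * a (m + 2) (i + 2) -
      a (m + 1) (i + 2) * a (m + 2) (i + 1)) := by
  have key : ∀ m i : Fin 3, ∑ p : Fin 3, ξ p * (a m i * ξ p + ξ i * a m p) = a m i := by
    intro m i
    have e : ∀ p, ξ p * (a m i * ξ p + ξ i * a m p) = a m i * ξ p ^ 2 + ξ i * (ξ p * a m p) := by
      intro p
      ring
    simp only [e, Finset.sum_add_distrib, ← Finset.mul_sum, h1, h0]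
    ring
  rw [Finset.mul_sum]
  refine Finset.sum_congr rfl fun m _ => ?_
  have e2 : ∀ l i : Fin 3, (∑ p : Fin 3, ∑ q : Fin 3,
      x l * (ξ l * ξ i) * (ξ p * ξ q) *
        ((a (m + 1) (i + 1) * ξ p + ξ (i + 1) * a (m + 1) p) *
          (a (m + 2) (i + 2) * ξ q + ξ (i + 2) * a (m + 2) q) -
        (a (m + 1) (i + 2) * ξ p + ξ (i + 2) * a (m + 1) p) *
          (a (m + 2) (i + 1) * ξ q + ξ (i + 1) * a (m + 2) q))) =
      (ξ l * x l) * (ξ i * (a (m + 1) (i + 1) * a (m + 2) (i + 2) -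
      a (m + 1) (i + 2) * a (m + 2) (i + 1))) := by
    intro l i
    have e3 : ∀ p q : Fin 3, x l * (ξ l * ξ i) * (ξ p * ξ q) *
        ((a (m + 1) (i + 1) * ξ p + ξ (i + 1) * a (m + 1) p) *
          (a (m + 2) (i + 2) * ξ q + ξ (i + 2) * a (m + 2) q) -
        (a (m + 1) (i + 2) * ξ p + ξ (i + 2) * a (m + 1) p) *
          (a (m + 2) (i + 1) * ξ q + ξ (i + 1) * a (m + 2) q)) =
        x l * (ξ l * ξ i) * ((ξ p * (a (m + 1) (i + 1) * ξ p + ξ (i + 1) * a (m + 1) p)) *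
          (ξ q * (a (m + 2) (i + 2) * ξ q + ξ (i + 2) * a (m + 2) q))) -
        x l * (ξ l * ξ i) * ((ξ p * (a (m + 1) (i + 2) * ξ p + ξ (i + 2) * a (m + 1) p)) *
          (ξ q * (a (m + 2) (i + 1) * ξ q + ξ (i + 1) * a (m + 2) q))) := by
      intro p q
      ring
    simp only [e3, Finset.sum_sub_distrib, ← Finset.mul_sum, ← Finset.sum_mul, key]
    ring
  simp only [e2, ← Finset.mul_sum, ← Finset.sum_mul]
  ring

/-- the quartic expression of a map with a unit section of the eigenline -/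
lemma Qp_section (hA : ∀ P : V9, 0 < (lam P) ^ 2 - tt P) (w : E3 → V9) (ξ : E3 → Fin 3 → ℝ) (x : E3)
    (hw : DifferentiableAt ℝ w x) (hξ : ∀ i, DifferentiableAt ℝ (fun y => ξ y i) x)
    (h1 : ∀ᶠ y in nhds x, ∑ i, ξ y i ^ 2 = 1)
    (h2 : ∀ᶠ y in nhds x, ∀ i j, ell (w y) i j = ξ y i * ξ y j) :
    Qp (w x) (fun m => fderiv ℝ w x (bs m)) x = (∑ l, ξ x l * x l) * ∑ m, x m * arw ξ x m := by
  have hd : ∀ i j h, fderiv ℝ (el i j) (w x) (fderiv ℝ w x h) =
      fderiv ℝ (fun y => ξ y i) x h * ξ x j + ξ x i * fderiv ℝ (fun y => ξ y j) x h := by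
    intro i j h
    have hde : DifferentiableAt ℝ (el i j) (w x) :=
      ((cd_el hA i j).differentiable (by simp)).differentiableAt
    have e1 : fderiv ℝ (fun y => el i j (w y)) x = (fderiv ℝ (el i j) (w x)).comp (fderiv ℝ w x) :=
      fderiv_comp x hde hw
    have e2 : fderiv ℝ (fun y => el i j (w y)) x = fderiv ℝ (fun y => ξ y i * ξ y j) x := by
      refine Filter.EventuallyEq.fderiv_eq ?_
      filter_upwards [h2] with y hy
      exact hy i j
    have e3 : fderiv ℝ (fun y => ξ y i * ξ y j) x =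
        ξ x i • fderiv ℝ (fun y => ξ y j) x + ξ x j • fderiv ℝ (fun y => ξ y i) x :=
      fderiv_fun_mul (hξ i) (hξ j)
    have e4 : fderiv ℝ (el i j) (w x) (fderiv ℝ w x h) =
        ((fderiv ℝ (el i j) (w x)).comp (fderiv ℝ w x)) h := rfl
    rw [e4, ← e1, e2, e3]
    simp only [_root_.add_apply, _root_.smul_apply, smul_eq_mul]
    ring
  have h0 : ∀ m, ∑ i, ξ x i * fderiv ℝ (fun y => ξ y i) x (bs m) = 0 := by
    intro m
    have e1 : fderiv ℝ (fun y => ∑ i, ξ y i ^ 2) x = 0 := by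
      have : fderiv ℝ (fun y => ∑ i, ξ y i ^ 2) x = fderiv ℝ (fun _ : E3 => (1 : ℝ)) x :=
        Filter.EventuallyEq.fderiv_eq h1
      rw [this]
      simp
    have e2 : HasFDerivAt (fun y => ∑ i, ξ y i ^ 2)
        (∑ i, (2 * ξ x i) • fderiv ℝ (fun y => ξ y i) x) x := by
      have e3 : ∀ i : Fin 3, HasFDerivAt (fun y => ξ y i ^ 2)
          ((2 * ξ x i) • fderiv ℝ (fun y => ξ y i) x) x := by
        intro i
        have := (hξ i).hasFDerivAt.pow 2
        simpa using this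
      exact HasFDerivAt.fun_sum fun i _ => e3 i
    rw [e2.fderiv] at e1
    have e4 := congrArg (fun f : E3 →L[ℝ] ℝ => f (bs m)) e1
    simp only [_root_.sum_apply, _root_.smul_apply, smul_eq_mul,
      _root_.zero_apply] at e4
    have e5 : ∑ i, 2 * ξ x i * fderiv ℝ (fun y => ξ y i) x (bs m) =
        2 * ∑ i, ξ x i * fderiv ℝ (fun y => ξ y i) x (bs m) := by
      rw [Finset.mul_sum]
      refine Finset.sum_congr rfl fun i _ => by ring
    rw [e5] at e4
    linarith
  have h1x : ∑ i, ξ x i ^ 2 = 1 := h1.self_of_nhds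
  have h2x : ∀ i j, el i j (w x) = ξ x i * ξ x j := h2.self_of_nhds
  have hq := quartic (ξ x) x (fun m i => fderiv ℝ (fun y => ξ y i) x (bs m)) h1x h0
  unfold Qp arw
  simp only [hd, h2x]
  rw [← hq]

/-- the radial section -/
lemma arw_radial (x : E3) (hx : x ≠ 0) :
    (∑ l, (x l / ‖x‖) * x l) * ∑ m, x m * arw (fun y i => y i / ‖y‖) x m = 1 := by
  have hn : ‖x‖ ≠ 0 := norm_ne_zero_iff.2 hx
  have hx2 : ‖x‖ ^ 2 = x 0 ^ 2 + x 1 ^ 2 + x 2 ^ 2 := by
    rw [EuclideanSpace.norm_sq_eq]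
    simp [Fin.sum_univ_three]
  have hd : ∀ i m : Fin 3, fderiv ℝ (fun y : E3 => y i / ‖y‖) x (bs m) =
      (if i = m then 1 else 0) / ‖x‖ - x i * x m / ‖x‖ ^ 3 := by
    intro i m
    have e1 : HasFDerivAt (fun y : E3 => y i) (EuclideanSpace.proj i : E3 →L[ℝ] ℝ) x :=
      (EuclideanSpace.proj i : E3 →L[ℝ] ℝ).hasFDerivAt
    have e2 : DifferentiableAt ℝ (fun y : E3 => ‖y‖) x :=
      (contDiffAt_norm (n := 1) ℝ hx).differentiableAt (by simp)
    have e3 : fderiv ℝ (fun y : E3 => ‖y‖) x (bs m) = x m / ‖x‖ := by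
      have h1 : HasFDerivAt (fun y : E3 => ‖y‖ ^ 2) (2 • (innerSL ℝ x)) x :=
        (hasStrictFDerivAt_norm_sq x).hasFDerivAt
      have h2 := e2.hasFDerivAt.pow 2
      have h3 := h1.unique h2
      have h4 := congrArg (fun f : E3 →L[ℝ] ℝ => f (bs m)) h3
      have h5 : inner ℝ x (bs m) = x m := by
        rw [bs, EuclideanSpace.inner_single_right]
        simp
      simp only [_root_.smul_apply, innerSL_apply_apply, h5, smul_eq_mul, nsmul_eq_mul] at h4
      field_simp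
      norm_num at h4
      linarith
    have e4 : fderiv ℝ (fun y : E3 => y i / ‖y‖) x (bs m) =
        (EuclideanSpace.proj i : E3 →L[ℝ] ℝ) (bs m) * ‖x‖⁻¹ +
          x i * (-(‖x‖ ^ 2)⁻¹ * fderiv ℝ (fun y : E3 => ‖y‖) x (bs m)) := by
      have h1 : HasFDerivAt (fun y : E3 => (‖y‖)⁻¹) (-(‖x‖ ^ 2)⁻¹ • fderiv ℝ (fun y : E3 => ‖y‖) x) x :=
        (hasDerivAt_inv hn).comp_hasFDerivAt x e2.hasFDerivAt
      have h2 := (e1.mul h1).fderiv
      have h3 : (fun y : E3 => y i / ‖y‖) = fun y : E3 => y i * (‖y‖)⁻¹ := by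
        funext y
        rw [div_eq_mul_inv]
      rw [h3]
      have h4 := congrArg (fun f : E3 →L[ℝ] ℝ => f (bs m)) h2
      simp only [_root_.add_apply, _root_.smul_apply, smul_eq_mul] at h4
      refine h4.trans ?_
      ring
    rw [e4, e3]
    have e5 : (EuclideanSpace.proj i : E3 →L[ℝ] ℝ) (bs m) = if i = m then 1 else 0 := by
      simp [bs]
    rw [e5]
    field_simp
    ring
  have h33 : ‖x‖ ^ 3 ≠ 0 := pow_ne_zero 3 hn
  have ha : ∀ m, arw (fun y i => y i / ‖y‖) x m = x m / ‖x‖ ^ 3 := by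
    intro m
    unfold arw
    simp only [hd, Fin.sum_univ_three]
    fin_cases m
    · simp
      field_simp
      ring
    · simp
      field_simp
      ring
    · simp
      field_simp
      ring
  simp only [ha, Fin.sum_univ_three]
  have e1 : x 0 / ‖x‖ * x 0 + x 1 / ‖x‖ * x 1 + x 2 / ‖x‖ * x 2 = ‖x‖ := by
    field_simp
    linarith
  have e2 : x 0 * (x 0 / ‖x‖ ^ 3) + x 1 * (x 1 / ‖x‖ ^ 3) + x 2 * (x 2 / ‖x‖ ^ 3) = 1 / ‖x‖ := by
    field_simp
    linarith
  rw [e1, e2]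
  field_simp

/-- the radial map -/
noncomputable def rad (x : E3) : V9 :=
  WithLp.toLp 2 fun ij : Fin 3 × Fin 3 => 2 * x ij.1 * x ij.2 / ‖x‖ ^ 2

lemma cd_rad (x : E3) (hx : x ≠ 0) : ContDiffAt ℝ ∞ rad x := by
  rw [contDiffAt_euclidean]
  intro ij
  have h1 : ∀ i : Fin 3, ContDiffAt ℝ ∞ (fun y : E3 => y i) x := fun i =>
    (EuclideanSpace.proj i : E3 →L[ℝ] ℝ).contDiff.contDiffAt
  have hn : ‖x‖ ^ 2 ≠ 0 := pow_ne_zero 2 (norm_ne_zero_iff.2 hx)
  exact ((contDiffAt_const.mul (h1 ij.1)).mul (h1 ij.2)).div (contDiff_norm_sq ℝ).contDiffAt hn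

lemma v_eq_rad (v : E3 → V9)
    (hv : ∀ x : E3, x ≠ 0 → ∀ i j, toM (v x) i j = 2 * x i * x j / ‖x‖ ^ 2) (x : E3) (hx : x ≠ 0) :
    v x = rad x := by
  ext ij
  exact hv x hx ij.1 ij.2

lemma v_ev (v : E3 → V9)
    (hv : ∀ x : E3, x ≠ 0 → ∀ i j, toM (v x) i j = 2 * x i * x j / ‖x‖ ^ 2) (x : E3) (hx : x ≠ 0) :
    v =ᶠ[nhds x] rad := by
  filter_upwards [isOpen_compl_singleton.mem_nhds hx] with y hy
  exact v_eq_rad v hv y hy

lemma norm_sq3 (x : E3) : ‖x‖ ^ 2 = x 0 ^ 2 + x 1 ^ 2 + x 2 ^ 2 := by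
  rw [EuclideanSpace.norm_sq_eq]
  simp [Fin.sum_univ_three]

lemma ell_v (v : E3 → V9)
    (hv : ∀ x : E3, x ≠ 0 → ∀ i j, toM (v x) i j = 2 * x i * x j / ‖x‖ ^ 2) (x : E3) (hx : x ≠ 0)
    (i j : Fin 3) : ell (v x) i j = x i / ‖x‖ * (x j / ‖x‖) := by
  have hn : ‖x‖ ≠ 0 := norm_ne_zero_iff.2 hx
  have hx2 := norm_sq3 x
  have hP : ∀ i j, v x (i, j) = 2 * x i * x j / ‖x‖ ^ 2 := fun i j => hv x hx i j
  have hl : v x (0, 0) + v x (1, 1) + v x (2, 2) = 2 := by
    rw [hP, hP, hP]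
    field_simp
    linarith
  have e : ell (v x) i j = el i j (v x) := rfl
  rw [e, el_eq, lam_eq, tt_eq, hl]
  simp only [hP, Fin.sum_univ_three]
  have e1 : 2 * x i * x 0 / ‖x‖ ^ 2 * (2 * x 0 * x j / ‖x‖ ^ 2) +
      2 * x i * x 1 / ‖x‖ ^ 2 * (2 * x 1 * x j / ‖x‖ ^ 2) +
      2 * x i * x 2 / ‖x‖ ^ 2 * (2 * x 2 * x j / ‖x‖ ^ 2) =
      4 * (x i / ‖x‖ * (x j / ‖x‖)) := by
    field_simp
    linear_combination (-4 * x i * x j) * hx2
  rw [e1]
  ring

lemma Qp_v (hA : ∀ P : V9, 0 < (lam P) ^ 2 - tt P) (v : E3 → V9)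
    (hv : ∀ x : E3, x ≠ 0 → ∀ i j, toM (v x) i j = 2 * x i * x j / ‖x‖ ^ 2) (x : E3) (hx : x ≠ 0) :
    Qp (v x) (fun m => fderiv ℝ v x (bs m)) x = 1 := by
  have hn : ‖x‖ ≠ 0 := norm_ne_zero_iff.2 hx
  have hd : DifferentiableAt ℝ v x :=
    ((cd_rad x hx).differentiableAt (by simp)).congr_of_eventuallyEq (v_ev v hv x hx)
  rw [Qp_section hA v (fun y i => y i / ‖y‖) x hd]
  · exact arw_radial x hx
  · intro i
    have h1 : DifferentiableAt ℝ (fun y : E3 => y i) x :=
      (EuclideanSpace.proj i : E3 →L[ℝ] ℝ).differentiableAt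
    have h2 : DifferentiableAt ℝ (fun y : E3 => ‖y‖) x :=
      (contDiffAt_norm (n := 1) ℝ hx).differentiableAt (by simp)
    have h3 : DifferentiableAt ℝ (fun y : E3 => y i * ‖y‖⁻¹) x := h1.mul (h2.inv hn)
    simpa only [div_eq_mul_inv] using h3
  · filter_upwards [isOpen_compl_singleton.mem_nhds hx] with y hy
    have hny : ‖y‖ ≠ 0 := norm_ne_zero_iff.2 hy
    have := norm_sq3 y
    simp only [Fin.sum_univ_three]
    field_simp
    linarith
  · filter_upwards [isOpen_compl_singleton.mem_nhds hx] with y hy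
    intro i j
    exact ell_v v hv y hy i j

/-- the annulus -/
def An : Set E3 := {x | 1 ≤ ‖x‖ ∧ ‖x‖ ≤ 2}

lemma An_compact : IsCompact An := by
  have h : An = Metric.closedBall 0 2 ∩ {x | 1 ≤ ‖x‖} := by
    ext x
    simp [An, and_comm]
  rw [h]
  exact (isCompact_closedBall (0 : E3) 2).inter_right (isClosed_le continuous_const continuous_norm)

lemma An_ne {x : E3} (hx : x ∈ An) : x ≠ 0 := by
  rintro rfl
  have := hx.1
  simp at this
  linarith

/-- positivity for some index -/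
lemma exists_pos (hA : ∀ P : V9, 0 < (lam P) ^ 2 - tt P) (w : ℕ → E3 → V9) (v : E3 → V9)
    (hC : CLoc {0}ᶜ w v)
    (hv : ∀ x : E3, x ≠ 0 → ∀ i j, toM (v x) i j = 2 * x i * x j / ‖x‖ ^ 2) :
    ∃ k, ∀ x ∈ An, 0 < Qp (w k x) (fun m => fderiv ℝ (w k) x (bs m)) x := by
  by_contra hcon
  push Not at hcon
  choose x hxA hxQ using hcon
  obtain ⟨a, haA, ψ, hψ, hlim⟩ := An_compact.tendsto_subseq hxA
  have ha : a ≠ 0 := An_ne haA
  have hamem : a ∈ ({0}ᶜ : Set E3) := ha
  have hlim' : Filter.Tendsto (fun n => x (ψ n)) Filter.atTop (nhdsWithin a {0}ᶜ) :=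
    tendsto_nhdsWithin_iff.2 ⟨hlim, Filter.Eventually.of_forall fun n => An_ne (hxA (ψ n))⟩
  have hcd : ContDiffAt ℝ ∞ v a := (cd_rad a ha).congr_of_eventuallyEq (v_ev v hv a ha)
  have hk : ∀ k : ℕ, Filter.Tendsto (fun n => iteratedFDeriv ℝ k (w (ψ n)) (x (ψ n))) Filter.atTop
      (nhds (iteratedFDeriv ℝ k v a)) := by
    intro k
    have h1 : TendstoLocallyUniformlyOn (fun n => iteratedFDeriv ℝ k (w (ψ n)))
        (iteratedFDeriv ℝ k v) Filter.atTop {0}ᶜ := by
      intro U hU y hy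
      obtain ⟨t, ht, h⟩ := hC.2 k U hU y hy
      exact ⟨t, ht, hψ.tendsto_atTop.eventually h⟩
    have h2 : ContinuousWithinAt (iteratedFDeriv ℝ k v) {0}ᶜ a := by
      have h3 : ContDiffAt ℝ 0 (iteratedFDeriv ℝ k v) a :=
        hcd.iteratedFDeriv_right (by simp; exact_mod_cast le_top)
      exact h3.continuousAt.continuousWithinAt
    exact h1.tendsto_comp h2 hamem hlim'
  have h0 : Filter.Tendsto (fun n => w (ψ n) (x (ψ n))) Filter.atTop (nhds (v a)) := by
    have h1 := ((ContinuousMultilinearMap.apply ℝ (fun _ : Fin 0 => E3) V9 0).continuous.tendsto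
      (iteratedFDeriv ℝ 0 v a)).comp (hk 0)
    simpa [Function.comp_def] using h1
  have h1 : ∀ m, Filter.Tendsto (fun n => fderiv ℝ (w (ψ n)) (x (ψ n)) (bs m)) Filter.atTop
      (nhds (fderiv ℝ v a (bs m))) := by
    intro m
    have h1 := ((ContinuousMultilinearMap.apply ℝ (fun _ : Fin 1 => E3) V9
      (fun _ => bs m)).continuous.tendsto (iteratedFDeriv ℝ 1 v a)).comp (hk 1)
    simpa [Function.comp_def, iteratedFDeriv_one_apply] using h1
  have hfin := Qp_tendsto hA (fun n => w (ψ n) (x (ψ n)))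
    (fun n m => fderiv ℝ (w (ψ n)) (x (ψ n)) (bs m)) (fun n => x (ψ n)) (v a)
    (fun m => fderiv ℝ v a (bs m)) a h0 h1 hlim
  rw [Qp_v hA v hv a ha] at hfin
  have := le_of_tendsto' hfin fun n => hxQ (ψ n)
  linarith

lemma ell_AH (hA04 : St_A04) (P : V9) (hP : P ∈ AH) :
    (ell P)ᵀ = ell P ∧ ell P * ell P = ell P ∧ (ell P).trace = 1 := by
  obtain ⟨R, s, hR, hs, hPR⟩ := hP
  obtain ⟨-, -, he, -, -⟩ := hA04.2 P R s hR hPR
  have hRR : Rᵀ * R = 1 := hR.1
  have hDD : Matrix.diagonal (![1, 0, 0] : Fin 3 → ℝ) * Matrix.diagonal ![1, 0, 0] =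
      Matrix.diagonal ![1, 0, 0] := by
    rw [Matrix.diagonal_mul_diagonal]
    congr 1
    funext i
    fin_cases i <;> simp
  rw [he]
  refine ⟨?_, ?_, ?_⟩
  · simp [Matrix.transpose_mul, Matrix.mul_assoc]
  · calc R * Matrix.diagonal ![1, 0, 0] * Rᵀ * (R * Matrix.diagonal ![1, 0, 0] * Rᵀ)
        = R * (Matrix.diagonal ![1, 0, 0] * (Rᵀ * R) * Matrix.diagonal ![1, 0, 0]) * Rᵀ := by
          simp only [Matrix.mul_assoc]
      _ = R * Matrix.diagonal ![1, 0, 0] * Rᵀ := by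
          rw [hRR, Matrix.mul_one, hDD]
  · rw [Matrix.trace_mul_comm, ← Matrix.mul_assoc, hRR, Matrix.one_mul, Matrix.trace_diagonal]
    simp [Fin.sum_univ_three]

lemma An_conn : IsPreconnected An := by
  have h : An = (fun p : E3 × ℝ => p.2 • p.1) '' (Metric.sphere 0 1 ×ˢ Set.Icc 1 2) := by
    ext x
    constructor
    · intro hx
      have hn : ‖x‖ ≠ 0 := norm_ne_zero_iff.2 (An_ne hx)
      refine ⟨(‖x‖⁻¹ • x, ‖x‖), ⟨?_, hx.1, hx.2⟩, ?_⟩
      · simp [norm_smul, hn]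
      · show ‖x‖ • (‖x‖⁻¹ • x) = x
        rw [smul_smul, mul_inv_cancel₀ hn, one_smul]
    · rintro ⟨p, ⟨hp1, hp2⟩, rfl⟩
      have h1 : ‖p.1‖ = 1 := by simpa using hp1
      have h2 : ‖p.2 • p.1‖ = p.2 := by
        rw [norm_smul, h1, mul_one, Real.norm_eq_abs, abs_of_nonneg (by linarith [hp2.1])]
      show 1 ≤ ‖p.2 • p.1‖ ∧ ‖p.2 • p.1‖ ≤ 2
      rw [h2]
      exact hp2
  have hr : 1 < Module.rank ℝ E3 := by
    rw [← Module.finrank_eq_rank, finrank_euclideanSpace]
    simp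
  rw [h]
  exact ((isPreconnected_sphere hr 0 1).prod isPreconnected_Icc).image _
    (continuous_snd.smul continuous_fst).continuousOn

/-- the sign is constant -/
lemma sign_const (f : E3 → ℝ) (hf : ContinuousOn f An) (h0 : ∀ x ∈ An, f x ≠ 0) :
    ∃ e : ℝ, e ≠ 0 ∧ ∀ x ∈ An, 0 < e * f x := by
  have hb : (bs 0 : E3) ∈ An := by
    have : ‖(bs 0 : E3)‖ = 1 := by simp [bs]
    constructor
    · rw [this]
    · rw [this]
      norm_num
  rcases lt_or_gt_of_ne (h0 _ hb) with h | h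
  · refine ⟨-1, by norm_num, fun x hx => ?_⟩
    by_contra hc
    have h1 : 0 ≤ f x := by linarith
    obtain ⟨y, hy, hy0⟩ := An_conn.intermediate_value hb hx hf ⟨h.le, h1⟩
    exact h0 y hy hy0
  · refine ⟨1, by norm_num, fun x hx => ?_⟩
    by_contra hc
    have h1 : f x ≤ 0 := by linarith
    obtain ⟨y, hy, hy0⟩ := An_conn.intermediate_value hx hb hf ⟨h1, h.le⟩
    exact h0 y hy hy0

/-- the cut off function -/
noncomputable def gg (x : E3) : ℝ := deriv Real.smoothTransition (2 - ‖x‖ ^ 2)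

lemma st_cd : ContDiff ℝ ∞ Real.smoothTransition := Real.smoothTransition.contDiff

lemma gg_nonneg (x : E3) : 0 ≤ gg x := Real.smoothTransition.monotone.deriv_nonneg

lemma gg_cont : Continuous gg := by
  have h1 : Continuous (deriv Real.smoothTransition) := st_cd.continuous_deriv (by simp)
  exact h1.comp (continuous_const.sub (continuous_norm.pow 2))

lemma dst_one {t : ℝ} (ht : 1 < t) : deriv Real.smoothTransition t = 0 := by
  have h : Real.smoothTransition =ᶠ[nhds t] fun _ => 1 := by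
    filter_upwards [lt_mem_nhds ht] with y hy
    exact Real.smoothTransition.one_of_one_le hy.le
  rw [h.deriv_eq]
  simp

lemma dst_zero {t : ℝ} (ht : t < 0) : deriv Real.smoothTransition t = 0 := by
  have h : Real.smoothTransition =ᶠ[nhds t] fun _ => 0 := by
    filter_upwards [gt_mem_nhds ht] with y hy
    exact Real.smoothTransition.zero_of_nonpos hy.le
  rw [h.deriv_eq]
  simp

lemma gg_off {x : E3} (hx : x ∉ An) : gg x = 0 := by
  unfold gg
  by_cases h1 : ‖x‖ < 1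
  · refine dst_one ?_
    nlinarith [norm_nonneg x]
  · have h2 : ¬ ‖x‖ ≤ 2 := fun h => hx ⟨not_lt.1 h1, h⟩
    refine dst_zero ?_
    nlinarith [norm_nonneg x, not_le.1 h2]

lemma gg_pt : ∃ x ∈ An, gg x ≠ 0 := by
  by_contra hcon
  push Not at hcon
  have h0 : ∀ t, deriv Real.smoothTransition t = 0 := by
    intro t
    by_cases h1 : 1 < t
    · exact dst_one h1
    by_cases h2 : t < 0
    · exact dst_zero h2
    have h3 : t ≤ 1 := not_lt.1 h1
    have h4 : 0 ≤ t := not_lt.1 h2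
    have h5 : ‖(√(2 - t)) • (bs 0 : E3)‖ = √(2 - t) := by
      rw [norm_smul, Real.norm_eq_abs, abs_of_nonneg (Real.sqrt_nonneg _)]
      simp [bs]
    have h6 : √(2 - t) ^ 2 = 2 - t := Real.sq_sqrt (by linarith)
    have h7 : (√(2 - t)) • (bs 0 : E3) ∈ An := by
      constructor
      · rw [h5]
        exact Real.le_sqrt_of_sq_le (by linarith)
      · rw [h5]
        exact Real.sqrt_le_iff.2 ⟨by norm_num, by linarith⟩
    have h8 := hcon _ h7
    unfold gg at h8
    rw [h5, h6] at h8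
    simpa using h8
  have h1 := is_const_of_deriv_eq_zero (st_cd.differentiable (by simp)) h0 0 1
  rw [Real.smoothTransition.zero, Real.smoothTransition.one] at h1
  norm_num at h1

lemma final (hH10 : St_H10) (ξ : E3 → Fin 3 → ℝ)
    (hs : ∀ i, ContDiffOn ℝ ∞ (fun x => ξ x i) (Metric.ball 0 (5 / 2)))
    (h1 : ∀ x ∈ Metric.ball (0 : E3) (5 / 2), ∑ i, ξ x i ^ 2 = 1)
    (hpos : ∀ x ∈ An, 0 < (∑ l, ξ x l * x l) * ∑ m, x m * arw ξ x m) : False := by
  have hcoord : ∀ m : Fin 3, Continuous (fun x : E3 => x m) := fun m =>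
    (EuclideanSpace.proj m : E3 →L[ℝ] ℝ).continuous
  have hAb : An ⊆ Metric.ball 0 (5 / 2) := by
    intro x hx
    rw [mem_ball_zero_iff]
    have := hx.2
    linarith
  have hf : ContinuousOn (fun x : E3 => ∑ l, ξ x l * x l) An := by
    refine continuousOn_finsetSum _ fun l _ => ?_
    exact ((hs l).continuousOn.mono hAb).mul (hcoord l).continuousOn
  obtain ⟨e, he, hsgn⟩ := sign_const _ hf fun x hx h => by
    have := hpos x hx
    rw [h, zero_mul] at this
    exact lt_irrefl _ this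
  have harw : ∀ m, ContinuousOn (fun x => arw ξ x m) (Metric.ball 0 (5 / 2)) := by
    intro m
    have hd : ∀ i k : Fin 3, ContinuousOn (fun x => fderiv ℝ (fun y => ξ y i) x (bs k))
        (Metric.ball 0 (5 / 2)) := by
      intro i k
      exact ((hs i).continuousOn_fderiv_of_isOpen Metric.isOpen_ball (by simp)).clm_apply
        continuousOn_const
    unfold arw
    refine continuousOn_finsetSum _ fun i _ => ?_
    exact (hs i).continuousOn.mul (((hd _ _).mul (hd _ _)).sub ((hd _ _).mul (hd _ _)))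
  set F : E3 → ℝ := fun x => gg x * (e * ∑ m, x m * arw ξ x m) with hF
  have hF0 : ∀ x, x ∉ An → F x = 0 := by
    intro x hx
    rw [hF]
    simp only [gg_off hx, zero_mul]
  have hFA : ∀ x ∈ An, 0 < e * ∑ m, x m * arw ξ x m := by
    intro x hx
    have h2 := hpos x hx
    have h3 := hsgn x hx
    simp only at h3
    by_contra hc
    have hc' : e * ∑ m, x m * arw ξ x m ≤ 0 := not_lt.1 hc
    have h4 : (e * ∑ l, ξ x l * x l) * (e * ∑ m, x m * arw ξ x m) ≤ 0 :=
      mul_nonpos_of_nonneg_of_nonpos h3.le hc'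
    have h5 : (e * ∑ l, ξ x l * x l) * (e * ∑ m, x m * arw ξ x m) =
        e ^ 2 * ((∑ l, ξ x l * x l) * ∑ m, x m * arw ξ x m) := by ring
    rw [h5] at h4
    have h6 : 0 < e ^ 2 := by positivity
    have := mul_pos h6 h2
    linarith
  have hFn : 0 ≤ F := by
    intro x
    by_cases hx : x ∈ An
    · exact mul_nonneg (gg_nonneg x) (hFA x hx).le
    · rw [hF0 x hx]
      exact le_refl _
  have hFc : Continuous F := by
    rw [continuous_iff_continuousAt]
    intro x
    by_cases hx : ‖x‖ < 5 / 2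
    · have hxb : x ∈ Metric.ball (0 : E3) (5 / 2) := by
        rw [mem_ball_zero_iff]
        exact hx
      have hnb := Metric.isOpen_ball.mem_nhds hxb
      refine gg_cont.continuousAt.mul (continuousAt_const.mul ?_)
      have h2 : ContinuousOn (fun x : E3 => ∑ m, x m * arw ξ x m) (Metric.ball 0 (5 / 2)) := by
        refine continuousOn_finsetSum _ fun m _ => ?_
        exact (hcoord m).continuousOn.mul (harw m)
      exact h2.continuousAt hnb
    · have h2 : 2 < ‖x‖ := by linarith [not_lt.1 hx]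
      have h3 : F =ᶠ[nhds x] fun _ => 0 := by
        filter_upwards [(isOpen_lt continuous_const continuous_norm).mem_nhds h2] with y hy
        refine hF0 y fun h => ?_
        have h4 : ‖y‖ ≤ 2 := h.2
        have h5 : 2 < ‖y‖ := hy
        linarith
      exact (continuousAt_congr h3).2 continuousAt_const
  have hFs : HasCompactSupport F := HasCompactSupport.intro An_compact hF0
  obtain ⟨x0, hx0, hg0⟩ := gg_pt
  have hFx : F x0 ≠ 0 := mul_ne_zero hg0 (hFA x0 hx0).ne'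
  have hint : 0 < ∫ x, F x :=
    hFc.integral_pos_of_hasCompactSupport_nonneg_nonzero hFs hFn hFx
  have hη : ContDiff ℝ ∞ (fun x : E3 => Real.smoothTransition (2 - ‖x‖ ^ 2)) :=
    st_cd.comp (contDiff_const.sub (contDiff_norm_sq ℝ))
  have hη0 : ∀ x : E3, 2 ≤ ‖x‖ → Real.smoothTransition (2 - ‖x‖ ^ 2) = 0 := by
    intro x hx
    refine Real.smoothTransition.zero_of_nonpos ?_
    nlinarith
  have h10 := hH10 ξ (5 / 2) (by norm_num) hs h1 _ hη hη0 (by norm_num)
  have hfd : ∀ (x : E3) (m : Fin 3),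
      fderiv ℝ (fun x : E3 => Real.smoothTransition (2 - ‖x‖ ^ 2)) x (bs m) = -2 * (gg x * x m) := by
    intro x m
    have e1 : HasFDerivAt (fun y : E3 => 2 - ‖y‖ ^ 2) (-(2 • (innerSL ℝ x))) x :=
      (hasStrictFDerivAt_norm_sq x).hasFDerivAt.const_sub 2
    have e2 : HasDerivAt Real.smoothTransition (gg x) (2 - ‖x‖ ^ 2) :=
      (st_cd.differentiable (by simp) _).hasDerivAt
    have e3 := e2.comp_hasFDerivAt x e1
    have e4 : fderiv ℝ (fun x : E3 => Real.smoothTransition (2 - ‖x‖ ^ 2)) x =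
        gg x • (-(2 • (innerSL ℝ x))) := e3.fderiv
    have h5 : inner ℝ x (bs m) = x m := by
      rw [bs, EuclideanSpace.inner_single_right]
      simp
    rw [e4]
    simp only [_root_.smul_apply, _root_.neg_apply, innerSL_apply_apply, h5, smul_eq_mul,
      nsmul_eq_mul]
    push_cast
    ring
  have hzero : ∫ x, F x = 0 := by
    have e1 : ∀ x, F x = (-(e / 2)) * ∑ m, arw ξ x m *
        fderiv ℝ (fun x : E3 => Real.smoothTransition (2 - ‖x‖ ^ 2)) x (bs m) := by
      intro x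
      simp only [hfd, hF, Finset.mul_sum]
      refine Finset.sum_congr rfl fun m _ => ?_
      ring
    simp only [e1]
    rw [MeasureTheory.integral_const_mul, h10, mul_zero]
  rw [hzero] at hint
  exact lt_irrefl _ hint

end H11x

theorem thm_H11 (hA04 : St_A04) (hH09 : St_H09) (hH10 : St_H10) : St_H11 := by
  intro pr u φ v hu _ hC hv
  have hus : ContDiff ℝ ∞ u := contDiffOn_univ.1 hu.smooth
  obtain ⟨k, hk⟩ := H11x.exists_pos hA04.1 (fun k x => u (((φ k : ℝ) + 1) • x)) v hC hv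
  set w : E3 → V9 := fun x => u (((φ k : ℝ) + 1) • x) with hw
  have hws : ContDiff ℝ ∞ w := hus.comp (contDiff_id.const_smul ((φ k : ℝ) + 1))
  have hel : ∀ i j, ContDiff ℝ ∞ (fun x => ell (w x) i j) := fun i j =>
    (H11x.cd_el hA04.1 i j).comp hws
  obtain ⟨ξ, hξs, hξ⟩ := hH09 (fun x => ell (w x)) (5 / 2) 3 (by norm_num) (by norm_num)
    (fun i j => (hel i j).contDiffOn)
    (fun x _ => H11x.ell_AH hA04 (w x) (hu.mem _ (Set.mem_univ _)))
  refine H11x.final hH10 ξ hξs (fun x hx => (hξ x hx).1) ?_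
  intro x hx
  have hxb : x ∈ Metric.ball (0 : E3) (5 / 2) := by
    rw [mem_ball_zero_iff]
    have := hx.2
    linarith
  have hnb := Metric.isOpen_ball.mem_nhds hxb
  have hQ := H11x.Qp_section hA04.1 w ξ x (hws.differentiable (by simp) x)
    (fun i => ((hξs i).contDiffAt hnb).differentiableAt (by simp))
    (by
      filter_upwards [hnb] with y hy
      exact (hξ y hy).1)
    (by
      filter_upwards [hnb] with y hy
      exact (hξ y hy).2)
  rw [← hQ]
  exact hk x hx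

end Pool.Agent.FUE
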