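import Pool.Agent.FUE.A01
import Pool.Agent.FUE.A02
import Pool.Agent.FUE.A04
import Pool.Agent.FUE.A11
import Pool.Agent.FUE.H01
import Pool.Agent.FUE.H02
import Pool.Agent.FUE.H04
import Pool.Agent.FUE.H05
import Pool.Agent.FUE.A03
import Pool.Agent.FUE.A14
import Pool.Agent.FUE.A16
import Pool.Agent.FUE.A15
import Pool.Agent.FUE.A13
import Pool.Agent.FUE.A12
import Pool.Agent.FUE.A10
import Pool.Agent.FUE.A09
import Pool.Agent.FUE.A08
import Pool.Agent.FUE.A07
import Pool.Agent.FUE.A06
import Pool.Agent.FUE.A05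
import Pool.Agent.FUE.F01
import Pool.Agent.FUE.F02
import Pool.Agent.FUE.F03
import Pool.Agent.FUE.F04
import Pool.Agent.FUE.F05
import Pool.Agent.FUE.F06
import Pool.Agent.FUE.F07
import Pool.Agent.FUE.F08
import Pool.Agent.FUE.F09
import Pool.Agent.FUE.F10
import Pool.Agent.FUE.F11
import Pool.Agent.FUE.F12
import Pool.Agent.FUE.H03
import Pool.Agent.FUE.H06
import Pool.Agent.FUE.H07
import Pool.Agent.FUE.H08
import Pool.Agent.FUE.H09
import Pool.Agent.FUE.H10
import Pool.Agent.FUE.H11
import Pool.Agent.FUE.E00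
import Pool.Agent.FUE.E01
import Pool.Agent.FUE.E02
import Pool.Agent.FUE.E03
import Pool.Agent.FUE.E04
import Pool.Agent.FUE.E05
import Pool.Agent.FUE.E06
import Pool.Agent.FUE.E07
import Pool.Agent.FUE.E08
import Pool.Agent.FUE.E09

/-!
# Fueter sections: assembly of blocks A, F, H, E
-/

set_option autoImplicit false

namespace Pool.Agent.FUE

theorem all_A01 : St_A01 := thm_A01
theorem all_A02 : St_A02 := thm_A02 all_A01
theorem all_A03 : St_A03 := thm_A03 all_A01 all_A02
theorem all_A04 : St_A04 := thm_A04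
theorem all_A05 : St_A05 := thm_A05 all_A04
theorem all_A06 : St_A06 := thm_A06 all_A04
theorem all_A07 : St_A07 := thm_A07 all_A04
theorem all_A08 : St_A08 := thm_A08 all_A04
theorem all_A09 : St_A09 := thm_A09 all_A01 all_A04 all_A05 all_A06 all_A08
theorem all_A10 : St_A10 := thm_A10 all_A01 all_A04 all_A05 all_A07 all_A08 all_A09
theorem all_A11 : St_A11 := thm_A11 all_A01
theorem all_A12 : St_A12 := thm_A12 all_A01 all_A05 all_A06 all_A10 all_A11
theorem all_A13 : St_A13 := thm_A13 all_A01 all_A05 all_A08 all_A10 all_A11 all_A12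
theorem all_A14 : St_A14 := thm_A14 all_A01 all_A04 all_A05 all_A07 all_A10 all_A11 all_A12
theorem all_A15 : St_A15 := thm_A15 all_A01
theorem all_A16 : St_A16 :=
  thm_A16 all_A01 all_A04 all_A05 all_A07 all_A10 all_A11 all_A12 all_A15

theorem all_F01 : St_F01 := thm_F01 all_A07
theorem all_F02 : St_F02 := thm_F02 all_A04 all_A06 all_A07 all_A13 all_F01
theorem all_F03 : St_F03 := thm_F03 all_F01 all_F02
theorem all_F04 : St_F04 := thm_F04 all_F02 all_F03
theorem all_F05 : St_F05 := thm_F05 all_F02 all_F04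
theorem all_F06 : St_F06 := thm_F06 all_F02 all_F05
theorem all_F07 : St_F07 := thm_F07 all_F02 all_F04 all_F05
theorem all_F08 : St_F08 := thm_F08 all_F02 all_F06 all_F07
theorem all_F09 : St_F09 := thm_F09 all_A07 all_F02
theorem all_F10 : St_F10 := thm_F10 all_F02 all_F03 all_F04 all_F07
theorem all_F11 : St_F11 := thm_F11 all_F02 all_F05 all_F06 all_F10
theorem all_F12 : St_F12 := thm_F12 all_A07 all_F02 all_F05 all_F07

theorem all_H01 : St_H01 := thm_H01 all_A04
theorem all_H03 : St_H03 := thm_H03 all_A01 all_A12 all_H01 thm_H02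
theorem all_H04 : St_H04 := thm_H04 all_A01 all_A02
theorem all_H06 : St_H06 :=
  thm_H06 all_A01 all_A04 all_A05 all_F02 all_H01 all_H03 all_H04 thm_H05
theorem all_H07 : St_H07 := thm_H07 all_A01 all_A04 all_A05 all_A12
theorem all_H08 : St_H08 := thm_H08 all_A04 all_H07
theorem all_H11 : St_H11 := thm_H11 all_A04 thm_H09 thm_H10

/-- no entire solutions, from the compactness theorem -/
theorem E09_of_Cpt (hCpt : St_Cpt) : St_E09 := by
  have hE00 : St_E00 := thm_E00 hCpt
  have hE04 : St_E04 := thm_E04 hE00 all_F09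
  have hE05 : St_E05 := thm_E05 all_F08 all_F09 all_F12
  exact thm_E09 (thm_E02 (thm_E01 hE00) all_F02 all_F05 all_F06 all_F08 all_F12)
    (thm_E06 thm_E03 hE04 hE05 all_F06 all_F08 all_F09 all_F11)
    (thm_E08 all_A07 hE00 thm_E07 all_F02 all_F06 all_F08 all_F09) all_H06 all_H08 all_H11

end Pool.Agent.FUE
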