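import Pool.Agent.FUE.StC

/-!
# FUE/C1 (helper82): curvature one
-/

set_option autoImplicit false
set_option linter.unusedSimpArgs false

open scoped Manifold ContDiff Matrix
open MeasureTheory

namespace Pool.Agent.FUE.C1x

theorem conn_hat (i : Fin 3) :
    (Matrix.of fun k j => (2 * eps i j k - 2 * eps j k i + 2 * eps k i j) / 2 :
      Matrix (Fin 3) (Fin 3) ℝ) = hat (Pi.single i 1) := by
  ext k j
  fin_cases i <;> fin_cases k <;> fin_cases j <;> simp [eps, hat, Pi.single_apply]

theorem ric_hat (j l : Fin 3) :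
    (∑ i, ((hat (Pi.single i 1) * hat (Pi.single j 1) - hat (Pi.single j 1) * hat (Pi.single i 1)) -
      ∑ m, (2 * eps i j m) • hat (Pi.single m 1) : Matrix (Fin 3) (Fin 3) ℝ) i l) =
      if j = l then 2 else 0 := by
  fin_cases j <;> fin_cases l <;>
    simp [eps, hat, Pi.single_apply, Fin.sum_univ_three, Matrix.mul_apply, Matrix.sub_apply,
      Matrix.add_apply, Matrix.smul_apply] <;> norm_num

end Pool.Agent.FUE.C1x

namespace Pool.Agent.FUE

open C1x

/-- **[C1]** -/
theorem thm_C1 : St_C1 := by
  intro M _ _ _ F hF'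
  have hF : ∀ i j k x, F.c i j k x = 2 * eps i j k := hF'
  have hconn : ∀ i x, F.conn i x = hat (Pi.single i 1) := by
    intro i x
    rw [← conn_hat i]
    unfold Frame.conn
    simp only [hF]
  have hric : ∀ j l x, F.ric j l x = if j = l then 2 else 0 := by
    intro j l x
    rw [← ric_hat j l]
    unfold Frame.ric Frame.curv
    have hD : ∀ (i : Fin 3) (r : ℝ), F.D i (fun _ => r) x = 0 := by
      intro i r
      unfold Frame.D
      rw [mfderiv_const]
      rfl
    refine Finset.sum_congr rfl fun i _ => ?_
    simp only [hconn, hF i j, Matrix.sub_apply, Matrix.add_apply, Matrix.of_apply]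
    rw [hD, hD, sub_zero, zero_add]
  refine ⟨hconn, hric, ?_⟩
  intro R hR i x
  simp only [hric]
  unfold ein
  have h1 := congrFun (congrFun hR.1 i) i
  rw [Matrix.mul_apply, Fin.sum_univ_three, Matrix.one_apply_eq] at h1
  simp only [Matrix.transpose_apply] at h1
  simp [Fin.sum_univ_three]
  linear_combination -h1

end Pool.Agent.FUE
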