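import Pool.Agent.FUE.StC

/-!
# FUE/C2 (helper82): on manifolds of curvature one Fueter sections have values in the bolt
-/

set_option autoImplicit false

open scoped Manifold ContDiff Matrix
open MeasureTheory

namespace Pool.Agent.FUE

/-- **[C2]** -/
theorem thm_C2 (hA02 : St_A02) (hA04 : St_A04) (hC1 : St_C1) (hX3 : St_X3) : St_C2 := by
  intro pr M _ _ _ _ F hF u hu x
  have hnn : ∀ z, 0 ≤ tt (u z) := by
    intro z
    obtain ⟨R, s, hR, hs, hP⟩ := hu.mem z
    rw [(hA04.2 (u z) R s hR hP).2.1]
    positivity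
  have hcont : Continuous fun z => (toM (u z)).trace := by
    have h1 : Continuous u := hu.smooth.continuous
    have h2 : Continuous fun P : V9 => (toM P).trace := by
      unfold Matrix.trace toM
      simp only [Matrix.diag_apply, Matrix.of_apply]
      fun_prop
    exact h2.comp h1
  obtain ⟨x0, -, hx0⟩ := isCompact_univ.exists_isMaxOn ⟨x, Set.mem_univ x⟩ hcont.continuousOn
  have hmax : ∀ z, (toM (u z)).trace ≤ (toM (u x0)).trace := fun z => hx0 (Set.mem_univ z)
  have h0 : tt (u x0) ≤ 0 := by
    by_contra hcon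
    push Not at hcon
    obtain ⟨R, hR, hsum⟩ := hX3 pr M F u x0 hu hmax hcon
    have h3 := (hC1 M F hF).2.2 R hR
    simp only [h3, Fin.sum_univ_three, Matrix.cons_val_zero, Matrix.cons_val_one,
      Matrix.cons_val] at hsum
    have h4 := (hA02 pr √(tt (u x0)) (Real.sqrt_pos.2 hcon)).2.2.2.2
    linarith
  refine le_antisymm ?_ (hnn x)
  have h5 := hmax x
  unfold tt at h0 ⊢
  linarith

end Pool.Agent.FUE
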