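import Pool.Agent.FUE.Defs

/-!
# Fueter sections: auxiliary definitions

The forms `theta`, `omega` on the Atiyah-Hitchin manifold as explicit smooth functions on `V9`, flat
Fueter maps, energy, Gaussian energy `Phi`, entire solutions `Ent`, local form `LocF` of the Fueter
equation on a three-manifold.  See /team-store/FUE_paper.md.
-/

set_option autoImplicit false

open scoped Manifold ContDiff Matrix
open MeasureTheory

namespace Pool.Agent.FUE

/-- standard basis vector of `E3` -/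
noncomputable def bs (i : Fin 3) : E3 := EuclideanSpace.single i (1 : ℝ)

section algebra

variable (P : V9)

/-- trace -/
noncomputable def lam : ℝ := (toM P).trace

/-- `s ^ 2` -/
noncomputable def tt : ℝ := (toM P).trace - 2

/-- projection onto the eigenline of the eigenvalue `2 + s ^ 2` -/
noncomputable def ell : Matrix (Fin 3) (Fin 3) ℝ :=
  ((lam P) ^ 2 - tt P)⁻¹ • (toM P * toM P - (tt P) • (1 : Matrix (Fin 3) (Fin 3) ℝ))

/-- the traceless part on the complement of the eigenline -/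
noncomputable def Zz : Matrix (Fin 3) (Fin 3) ℝ := toM P - (lam P) • ell P

/-- projection onto the complement of the eigenline -/
noncomputable def Pp : Matrix (Fin 3) (Fin 3) ℝ := 1 - ell P

/-- the vector `w` of the antisymmetric matrix `v ↦ w × v` -/
def ax (A : Matrix (Fin 3) (Fin 3) ℝ) : Fin 3 → ℝ := ![A 2 1, A 0 2, A 1 0]

/-- the matrix of `v ↦ w × v` -/
def hat (w : Fin 3 → ℝ) : Matrix (Fin 3) (Fin 3) ℝ :=
  !![0, -(w 2), w 1; w 2, 0, -(w 0); -(w 1), w 0, 0]

/-- `ξ' ξᵀ` for the variation `ξ'` of the eigenline -/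
noncomputable def Xi (H : Matrix (Fin 3) (Fin 3) ℝ) : Matrix (Fin 3) (Fin 3) ℝ :=
  ((lam P) ^ 2 - tt P)⁻¹ • (((lam P) • (1 : Matrix (Fin 3) (Fin 3) ℝ) + Zz P) * Pp P * H * ell P)

/-- `ξ × ξ'` -/
noncomputable def vv (H : Matrix (Fin 3) (Fin 3) ℝ) : Fin 3 → ℝ := ax (Xi P H - (Xi P H)ᵀ)

/-- The three one-forms `theta_l` (a vector), explicit, smooth in `P : V9`, linear in `H`. -/
noncomputable def th (pr : Profile) (H : Matrix (Fin 3) (Fin 3) ℝ) : Fin 3 → ℝ :=
  (1 / 2 : ℝ) • (-(pr.al (tt P) * pr.ka (tt P) / 2) •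
      ax (Zz P * (Pp P * H * Pp P) - (Pp P * H * Pp P) * Zz P)
    + (tt P * pr.ka (tt P) ^ 2 - pr.be (tt P) ^ 2 + tt P * pr.al (tt P) * pr.ka (tt P)) • vv P H
    + (pr.al (tt P) * pr.be (tt P)) • (Zz P).mulVec (vv P H))

/-- The two-forms `omega_l = d theta_l`. -/
noncomputable def om (pr : Profile) (l : Fin 3) (H H' : V9) : ℝ :=
  fderiv ℝ (fun Q : V9 => th Q pr (toM H') l) P H - fderiv ℝ (fun Q : V9 => th Q pr (toM H) l) P H'

/-- tangent vectors of `AH` at `P` -/
def Tan (H : V9) : Prop :=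
  (toM H)ᵀ = toM H ∧ (Pp P * toM H).trace = 0 ∧ ((ell P - Zz P) * toM H).trace = 0

/-- the stress-energy tensor `w^l_i` of three vectors: the dual of `omega_l` -/
noncomputable def wf (pr : Profile) (H : Fin 3 → V9) (l i : Fin 3) : ℝ :=
  om P pr l (H (i + 1)) (H (i + 2))

/-- `G_il = w^l_i - delta_il sum_k w^k_k`, the pulled back metric of a Fueter triple -/
noncomputable def Gf (pr : Profile) (H : Fin 3 → V9) (i l : Fin 3) : ℝ :=
  wf P pr H l i - (if i = l then ∑ k, wf P pr H k k else 0)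

end algebra

section flat

/-- derivative of `u` in the direction of the `j`-th basis vector -/
noncomputable def du (u : E3 → V9) (x : E3) (j : Fin 3) : V9 := fderiv ℝ u x (bs j)

/-- Flat Fueter maps on `U`. -/
structure Flat (pr : Profile) (U : Set E3) (u : E3 → V9) : Prop where
  smooth : ContDiffOn ℝ ∞ u U
  mem : ∀ x ∈ U, u x ∈ AH
  eq : ∀ x ∈ U, FueterPt pr (toM (u x)) (fun j => toM (du u x j))

/-- Fueter equation on `U` for the frame `B` and the connection matrices `W`. -/
structure LocF (pr : Profile) (U : Set E3) (B : Fin 3 → E3 → E3) (W : Fin 3 → E3 → V9)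
    (u : E3 → V9) : Prop where
  smooth : ContDiffOn ℝ ∞ u U
  mem : ∀ x ∈ U, u x ∈ AH
  eq : ∀ x ∈ U, FueterPt pr (toM (u x)) (fun j => toM (fderiv ℝ u x (B j x)) +
    (toM (W j x) * toM (u x) - toM (u x) * toM (W j x)))

/-- globally defined flat Fueter maps in a bounded region with bounded gradient -/
structure Good (pr : Profile) (S : ℝ) (u : E3 → V9) : Prop where
  flat : Flat pr Set.univ u
  size : ∀ x, lam (u x) ≤ S
  grad : ∃ Λ : ℝ, ∀ x, ‖fderiv ℝ u x‖ ≤ Λ

/-- normalised entire solutions -/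
structure Ent (pr : Profile) (S : ℝ) (u : E3 → V9) : Prop where
  flat : Flat pr Set.univ u
  size : ∀ x, lam (u x) ≤ S
  grad : ∀ x, ‖fderiv ℝ u x‖ ≤ 2
  zero : ‖fderiv ℝ u 0‖ = 1

variable (pr : Profile) (u : E3 → V9)

/-- pulled back metric -/
noncomputable def gu (x : E3) (i l : Fin 3) : ℝ := Gf (u x) pr (du u x) i l

/-- the quadratic form of the pulled back metric -/
noncomputable def gq (x v : E3) : ℝ := ∑ i, ∑ l, v i * v l * gu pr u x i l

/-- energy density -/
noncomputable def en (x : E3) : ℝ := ∑ i, gu pr u x i i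

/-- stress-energy tensor `w^l_i` -/
noncomputable def wu (x : E3) (l i : Fin 3) : ℝ := wf (u x) pr (du u x) l i

/-- pulled back one-forms `t_lb = theta_l (d_b u)` -/
noncomputable def tu (l b : Fin 3) (x : E3) : ℝ := th (u x) pr (toM (du u x b)) l

/-- Gaussian energy -/
noncomputable def Phi (y : E3) (R : ℝ) : ℝ :=
  R⁻¹ * ∫ x, en pr u x * Real.exp (-(‖x - y‖ ^ 2 / R ^ 2))

end flat

/-- locally uniform convergence of all derivatives on the open set `U` -/
def CLoc {W : Type} [NormedAddCommGroup W] [NormedSpace ℝ W] (U : Set E3) (f : ℕ → E3 → W)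
    (g : E3 → W) : Prop :=
  (∀ K : Set E3, IsCompact K → K ⊆ U →
    ∀ᶠ n in Filter.atTop, ∃ O : Set E3, IsOpen O ∧ K ⊆ O ∧ ContDiffOn ℝ ∞ (f n) O) ∧
  ∀ k : ℕ, TendstoLocallyUniformlyOn (fun n => iteratedFDeriv ℝ k (f n)) (iteratedFDeriv ℝ k g)
    Filter.atTop U

end Pool.Agent.FUE
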