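import Pool.Agent.FUE.Mf1
import Pool.Agent.FUE.Base

/-!
# Fueter sections, part on M: locally uniform convergence of all derivatives and words (helper17)
-/

set_option autoImplicit false

namespace Pool.Agent.FUE

open scoped Manifold ContDiff Topology
open Filter

variable {V : Type} [NormedAddCommGroup V] [NormedSpace ℝ V]

theorem Dl_smooth {U : Set E3} (hU : IsOpen U) {E : E3 → E3} (hE : ContDiffOn ℝ ∞ E U) {h : E3 → V}
    (hh : ContDiffOn ℝ ∞ h U) : ContDiffOn ℝ ∞ (Dl E h) U := by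
  have h1 : ContDiffOn ℝ ∞ (fderiv ℝ h) U := hh.fderiv_of_isOpen hU (by norm_cast)
  exact h1.clm_apply hE

theorem Dlw_smooth {U : Set E3} (hU : IsOpen U) {E : Fin 3 → E3 → E3} (hE : ∀ i, ContDiffOn ℝ ∞ (E i) U)
    (w : List (Fin 3)) {h : E3 → V} (hh : ContDiffOn ℝ ∞ h U) : ContDiffOn ℝ ∞ (Dlw E w h) U := by
  induction w with
  | nil => exact hh
  | cons i w ih => exact Dl_smooth hU (hE i) ih

/-- derivatives of `Dl E h` -/
theorem norm_Dl_le {U : Set E3} (hU : IsOpen U) {E : E3 → E3} (hE : ContDiffOn ℝ ∞ E U) {h : E3 → V}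
    (hh : ContDiffOn ℝ ∞ h U) {y : E3} (hy : y ∈ U) (k : ℕ) :
    ‖iteratedFDeriv ℝ k (Dl E h) y‖ ≤ ∑ i ∈ Finset.range (k + 1),
      (k.choose i : ℝ) * ‖iteratedFDeriv ℝ (i + 1) h y‖ * ‖iteratedFDeriv ℝ (k - i) E y‖ := by
  have h1 : ContDiffOn ℝ ∞ (fderiv ℝ h) U := hh.fderiv_of_isOpen hU (by norm_cast)
  have h2 := norm_iteratedFDerivWithin_clm_apply (n := k) h1 hE hU.uniqueDiffOn hy (by
    exact_mod_cast le_top)
  rw [iteratedFDerivWithin_of_isOpen k hU hy] at h2
  refine h2.trans (le_of_eq ?_)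
  refine Finset.sum_congr rfl fun i _ => ?_
  rw [iteratedFDerivWithin_of_isOpen i hU hy, iteratedFDerivWithin_of_isOpen (k - i) hU hy,
    norm_iteratedFDeriv_fderiv]

/-- uniform convergence on compact subsets -/
theorem cloc_unif {U : Set E3} (hU : IsOpen U) {f : ℕ → E3 → V} {g : E3 → V} (h : CLoc U f g) (k : ℕ)
    {K : Set E3} (hK : IsCompact K) (hKU : K ⊆ U) :
    TendstoUniformlyOn (fun n => iteratedFDeriv ℝ k (f n)) (iteratedFDeriv ℝ k g) atTop K :=
  (tendstoLocallyUniformlyOn_iff_forall_isCompact hU).1 (h.2 k) K hKU hK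

/-- differentiation along a smooth vector field preserves locally uniform convergence of all derivatives -/
theorem cloc_Dl {U : Set E3} (hU : IsOpen U) {E : E3 → E3} (hE : ContDiffOn ℝ ∞ E U) {f : ℕ → E3 → V}
    {g : E3 → V} (hg : ContDiffOn ℝ ∞ g U) (h : CLoc U f g) :
    CLoc U (fun n => Dl E (f n)) (Dl E g) := by
  refine ⟨fun K hK hKU => ?_, fun k => ?_⟩
  · filter_upwards [h.1 K hK hKU] with n hn
    obtain ⟨O, hO, hKO, hf⟩ := hn
    exact ⟨O ∩ U, hO.inter hU, Set.subset_inter hKO hKU,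
      Dl_smooth (hO.inter hU) (hE.mono Set.inter_subset_right) (hf.mono Set.inter_subset_left)⟩
  rw [tendstoLocallyUniformlyOn_iff_forall_isCompact hU]
  intro K hKU hK
  -- bound of the derivatives of `E`
  have hC : ∃ C : ℝ, 0 < C ∧ ∀ i ∈ Finset.range (k + 1), ∀ y ∈ K, ‖iteratedFDeriv ℝ (k - i) E y‖ ≤ C := by
    have h1 : ∀ i : ℕ, ∃ C : ℝ, ∀ y ∈ K, ‖iteratedFDeriv ℝ (k - i) E y‖ ≤ C := by
      intro i
      have h2 : ContinuousOn (iteratedFDeriv ℝ (k - i) E) U := by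
        have h3 : ∀ m : ℕ, ContinuousOn (iteratedFDerivWithin ℝ m E U) U := fun m =>
          hE.continuousOn_iteratedFDerivWithin (by exact_mod_cast le_top) hU.uniqueDiffOn
        exact (h3 (k - i)).congr fun y hy => (iteratedFDerivWithin_of_isOpen (k - i) hU hy).symm
      exact hK.exists_bound_of_continuousOn (h2.mono hKU)
    choose C hC using h1
    refine ⟨∑ i ∈ Finset.range (k + 1), |C i| + 1, by positivity, fun i hi y hy => ?_⟩
    have h4 : |C i| ≤ ∑ i ∈ Finset.range (k + 1), |C i| :=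
      Finset.single_le_sum (f := fun i => |C i|) (fun _ _ => abs_nonneg _) hi
    have h5 := hC i y hy
    have h6 := le_abs_self (C i)
    linarith
  obtain ⟨C, hC0, hC⟩ := hC
  rw [Metric.tendstoUniformlyOn_iff]
  intro ε hε
  set D : ℝ := ∑ i ∈ Finset.range (k + 1), (k.choose i : ℝ) * C with hD
  have hD0 : 0 ≤ D := Finset.sum_nonneg fun i _ => by positivity
  have hev : ∀ᶠ n in atTop, ∀ i ∈ Finset.range (k + 1), ∀ y ∈ K,
      dist (iteratedFDeriv ℝ (i + 1) g y) (iteratedFDeriv ℝ (i + 1) (f n) y) < ε / (D + 1) := by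
    rw [Filter.eventually_all_finset]
    intro i _
    exact (Metric.tendstoUniformlyOn_iff.1 (cloc_unif hU h (i + 1) hK hKU)) _ (by positivity)
  filter_upwards [hev, h.1 K hK hKU] with n hn hO y hy
  obtain ⟨O', hO', hKO', hf'⟩ := hO
  have hyU' := hKU hy
  set O : Set E3 := O' ∩ U with hOdef
  have hO : IsOpen O := hO'.inter hU
  have hyU : y ∈ O := ⟨hKO' hy, hyU'⟩
  have hf : ContDiffOn ℝ ∞ (f n) O := hf'.mono Set.inter_subset_left
  have hgO : ContDiffOn ℝ ∞ g O := hg.mono Set.inter_subset_right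
  have hEO : ContDiffOn ℝ ∞ E O := hE.mono Set.inter_subset_right
  have hmem := hO.mem_nhds hyU
  set d : E3 → V := fun z => g z - f n z with hd
  have hdU : ContDiffOn ℝ ∞ d O := hgO.sub hf
  have e1 : ∀ i : ℕ, iteratedFDeriv ℝ i d y = iteratedFDeriv ℝ i g y - iteratedFDeriv ℝ i (f n) y := by
    intro i
    have := iteratedFDeriv_sub_apply (𝕜 := ℝ) (i := i) (f := g) (g := f n) (x := y)
      ((hgO.contDiffAt hmem).of_le (by exact_mod_cast le_top)) ((hf.contDiffAt hmem).of_le (by exact_mod_cast le_top))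
    exact this
  have e2 : iteratedFDeriv ℝ k (Dl E g) y - iteratedFDeriv ℝ k (Dl E (f n)) y =
      iteratedFDeriv ℝ k (Dl E d) y := by
    have h3 := iteratedFDeriv_sub_apply (𝕜 := ℝ) (i := k) (f := Dl E g) (g := Dl E (f n)) (x := y)
      (((Dl_smooth hO hEO hgO).contDiffAt hmem).of_le (by exact_mod_cast le_top))
      (((Dl_smooth hO hEO hf).contDiffAt hmem).of_le (by exact_mod_cast le_top))
    rw [← h3]
    refine (Filter.EventuallyEq.iteratedFDeriv ℝ ?_ k).self_of_nhds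
    filter_upwards [hmem] with z hz
    have hm := hO.mem_nhds hz
    show fderiv ℝ g z (E z) - fderiv ℝ (f n) z (E z) = fderiv ℝ (fun z => g z - f n z) z (E z)
    rw [fderiv_fun_sub ((hgO.contDiffAt hm).differentiableAt (by norm_cast))
      ((hf.contDiffAt hm).differentiableAt (by norm_cast))]
    rfl
  rw [dist_eq_norm, e2]
  have h4 := norm_Dl_le hO hEO hdU hyU k
  have h5 : ∑ i ∈ Finset.range (k + 1), (k.choose i : ℝ) * ‖iteratedFDeriv ℝ (i + 1) d y‖ *
      ‖iteratedFDeriv ℝ (k - i) E y‖ ≤ ∑ i ∈ Finset.range (k + 1), (k.choose i : ℝ) * C * (ε / (D + 1)) := by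
    refine Finset.sum_le_sum fun i hi => ?_
    have h6 := hn i hi y hy
    rw [dist_eq_norm, ← e1] at h6
    have h7 := hC i hi y hy
    calc (k.choose i : ℝ) * ‖iteratedFDeriv ℝ (i + 1) d y‖ * ‖iteratedFDeriv ℝ (k - i) E y‖
        ≤ (k.choose i : ℝ) * (ε / (D + 1)) * C := by gcongr
      _ = _ := by ring
  rw [← Finset.sum_mul, ← hD] at h5
  have h8 : D * (ε / (D + 1)) < ε := by
    rw [mul_div_assoc', div_lt_iff₀ (by positivity)]
    nlinarith
  linarith

theorem cloc_Dlw {U : Set E3} (hU : IsOpen U) {E : Fin 3 → E3 → E3} (hE : ∀ i, ContDiffOn ℝ ∞ (E i) U)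
    {f : ℕ → E3 → V} {g : E3 → V} (hg : ContDiffOn ℝ ∞ g U) (h : CLoc U f g) (w : List (Fin 3)) :
    CLoc U (fun n => Dlw E w (f n)) (Dlw E w g) := by
  induction w with
  | nil => exact h
  | cons i w ih => exact cloc_Dl hU (hE i) (Dlw_smooth hU hE w hg) ih

/-- pointwise consequence -/
theorem cloc_zero {U : Set E3} (hU : IsOpen U) {f : ℕ → E3 → V} {g : E3 → V} (h : CLoc U f g) {K : Set E3}
    (hK : IsCompact K) (hKU : K ⊆ U) : TendstoUniformlyOn f g atTop K := by
  have h1 := cloc_unif hU h 0 hK hKU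
  rw [Metric.tendstoUniformlyOn_iff] at h1 ⊢
  intro ε hε
  filter_upwards [h1 ε hε] with n hn y hy
  have h2 := hn y hy
  rw [dist_eq_norm] at h2 ⊢
  have h3 : iteratedFDeriv ℝ 0 g y - iteratedFDeriv ℝ 0 (f n) y =
      (continuousMultilinearCurryFin0 ℝ E3 V).symm (g y - f n y) := by
    rw [iteratedFDeriv_zero_eq_comp, iteratedFDeriv_zero_eq_comp, map_sub]
    rfl
  rw [h3, LinearIsometryEquiv.norm_map] at h2
  exact h2

/-- convergence of the first derivative -/
theorem cloc_one {U : Set E3} (hU : IsOpen U) {f : ℕ → E3 → V} {g : E3 → V} (h : CLoc U f g) {K : Set E3}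
    (hK : IsCompact K) (hKU : K ⊆ U) :
    TendstoUniformlyOn (fun n => fderiv ℝ (f n)) (fderiv ℝ g) atTop K := by
  have h1 := cloc_unif hU h 1 hK hKU
  rw [Metric.tendstoUniformlyOn_iff] at h1 ⊢
  intro ε hε
  filter_upwards [h1 ε hε] with n hn y hy
  have h2 := hn y hy
  rw [dist_eq_norm] at h2 ⊢
  refine lt_of_le_of_lt ?_ h2
  refine ContinuousLinearMap.opNorm_le_bound _ (norm_nonneg _) fun v => ?_
  have h3 : (fderiv ℝ g y - fderiv ℝ (f n) y) v =
      (iteratedFDeriv ℝ 1 g y - iteratedFDeriv ℝ 1 (f n) y) (fun _ => v) := by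
    simp [iteratedFDeriv_one_apply]
  rw [h3]
  have h4 := (iteratedFDeriv ℝ 1 g y - iteratedFDeriv ℝ 1 (f n) y).le_opNorm (fun _ : Fin 1 => v)
  simpa using h4

end Pool.Agent.FUE
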