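import Pool.Agent.FUE.StC
import Pool.Agent.FUE.H01
import Pool.Agent.FUE.Mf4

/-!
# Fueter sections: bolt valued Fueter maps in curvature one, local structure

Proof of `St_C3`: a smooth rotation valued frame, the vectors `wv` with `A R = R hat (wv A R)`, the
brackets of the body frame, the structure equations and the Fueter equation at the bolt.
-/

set_option autoImplicit false

open scoped Manifold ContDiff Matrix
open MeasureTheory

namespace Pool.Agent.FUE

namespace C3x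

open H01x

/-! ### the frame -/

theorem mk_rot (a b : Fin 3 → ℝ) (ha : a 0 ^ 2 + a 1 ^ 2 + a 2 ^ 2 = 1)
    (hb : b 0 ^ 2 + b 1 ^ 2 + b 2 ^ 2 = 1) (hab : a 0 * b 0 + a 1 * b 1 + a 2 * b 2 = 0) :
    IsRot (mk a b) := by
  have hc : (a 1 * b 2 - a 2 * b 1) ^ 2 + (a 2 * b 0 - a 0 * b 2) ^ 2 +
      (a 0 * b 1 - a 1 * b 0) ^ 2 = 1 := by
    linear_combination (b 0 ^ 2 + b 1 ^ 2 + b 2 ^ 2) * ha + hb -
      (a 0 * b 0 + a 1 * b 1 + a 2 * b 2) * hab
  constructor
  · ext i j
    fin_cases i <;> fin_cases j <;> simp [mk, Matrix.mul_apply, Fin.sum_univ_three]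
    · linear_combination ha
    · linear_combination hab
    · ring
    · linear_combination hab
    · linear_combination hb
    · ring
    · ring
    · ring
    · linear_combination hc
  · rw [Matrix.det_fin_three]
    simp [mk]
    linear_combination hc

theorem bolt_entry (R : M3) (i j : Fin 3) : (R * Dg 0 * Rᵀ) i j = 2 * (R i 0 * R j 0) := by
  rw [Dg, Matrix.mul_apply]
  simp only [Matrix.mul_diagonal, Matrix.transpose_apply, Fin.sum_univ_three]
  simp
  ring

theorem mk_bolt (a b : Fin 3 → ℝ) (i j : Fin 3) :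
    (mk a b * Dg 0 * (mk a b)ᵀ) i j = 2 * (a i * a j) := by
  have h : ∀ i, mk a b i 0 = a i := by
    intro i
    fin_cases i <;> simp [mk]
  rw [bolt_entry, h, h]

theorem nv_unit (A : M3) (v : Fin 3 → ℝ) (h : ∑ k, (A.mulVec v) k ^ 2 ≠ 0) :
    nv A v 0 ^ 2 + nv A v 1 ^ 2 + nv A v 2 ^ 2 = 1 := by
  have h0 : 0 ≤ ∑ k, (A.mulVec v) k ^ 2 := Finset.sum_nonneg fun k _ => sq_nonneg _
  have h1 : √(∑ k, (A.mulVec v) k ^ 2) ≠ 0 := (Real.sqrt_pos.2 (lt_of_le_of_ne h0 (Ne.symm h))).ne'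
  have h2 : √(∑ k, (A.mulVec v) k ^ 2) ^ 2 = ∑ k, (A.mulVec v) k ^ 2 := Real.sq_sqrt h0
  unfold nv
  rw [mul_pow, mul_pow, mul_pow, inv_pow, h2, ← mul_add, ← mul_add, ← Fin.sum_univ_three
    (fun k => (A.mulVec v) k ^ 2)]
  exact inv_mul_cancel₀ h

theorem frame (hA04 : St_A04) {U : Set E3} {u : E3 → V9} {y : E3} (hU : IsOpen U) (hy : y ∈ U)
    (hus : ContDiffOn ℝ ∞ u U) (hmem : ∀ z ∈ U, u z ∈ AH) (htt : ∀ z ∈ U, tt (u z) = 0) :
    ∃ (O : Set E3) (R : E3 → M3), IsOpen O ∧ y ∈ O ∧ O ⊆ U ∧ (∀ z ∈ O, SA z R) ∧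
      ∀ z ∈ O, IsRot (R z) ∧ toM (u z) = R z * Dg 0 * (R z)ᵀ := by
  have sM : ∀ z ∈ U, SA z (fun y => toM (u y)) := by
    intro z hz i j
    exact contDiffAt_euclidean.1 (hus.contDiffAt (hU.mem_nhds hz)) (i, j)
  have sell : ∀ z ∈ U, SA z (fun y => ell (u y)) := by
    intro z hz
    have slam : ContDiffAt ℝ ∞ (fun y => lam (u y)) z := (sM z hz).trace
    have stt : ContDiffAt ℝ ∞ (fun y => tt (u y)) z := (sM z hz).trace.sub contDiffAt_const
    have h1 : ContDiffAt ℝ ∞ (fun y => ((lam (u y)) ^ 2 - tt (u y))⁻¹) z :=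
      ((slam.pow 2).sub stt).inv (hA04.1 (u z)).ne'
    exact SA.smul h1 (((sM z hz).mul (sM z hz)).sub (SA.smul stt (SA.const 1)))
  have sQ : ∀ z ∈ U, SA z (fun y => (1 : M3) - ell (u y)) := fun z hz => (SA.const 1).sub (sell z hz)
  have pt : ∀ z ∈ U, ∃ R : M3, IsRot R ∧ toM (u z) = R * Dg 0 * Rᵀ ∧
      ell (u z) = R * Matrix.diagonal (Pi.single 0 1) * Rᵀ := by
    intro z hz
    obtain ⟨R, s, hR, hs, hP⟩ := hmem z hz
    obtain ⟨e1, e2, e3, e4, e5⟩ := hA04.2 (u z) R s hR hP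
    have hs0 : s = 0 := by
      rw [htt z hz] at e2
      exact pow_eq_zero_iff (two_ne_zero) |>.1 e2.symm
    refine ⟨R, hR, by rw [hP, hs0], ?_⟩
    rw [e3]
    congr 3
    ext i
    fin_cases i <;> simp
  obtain ⟨R0, hR0, hP0, hl0⟩ := pt y hy
  set v0 : Fin 3 → ℝ := fun i => R0 i 0 with hv0
  set v1 : Fin 3 → ℝ := fun i => R0 i 1 with hv1
  set n0 : E3 → ℝ := fun z => ∑ k, ((ell (u z)).mulVec v0) k ^ 2 with hn0
  set n1 : E3 → ℝ := fun z => ∑ k, (((1 : M3) - ell (u z)).mulVec v1) k ^ 2 with hn1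
  have c0 : ContinuousOn n0 U := fun z hz => ((sell z hz).sumSq v0).continuousAt.continuousWithinAt
  have c1 : ContinuousOn n1 U := fun z hz => ((sQ z hz).sumSq v1).continuousAt.continuousWithinAt
  have m0 : n0 y ≠ 0 := by
    rw [hn0]
    simp only
    rw [hl0, sum_sq hR0.1, self_mulVec hR0.1]
    norm_num
  have m1 : n1 y ≠ 0 := by
    have h1 : ((1 : M3) - ell (u y)).mulVec v1 = v1 := by
      rw [Matrix.sub_mulVec, Matrix.one_mulVec]
      have h2 : (ell (u y)).mulVec v1 = 0 := by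
        funext i
        rw [hl0, diag_mulVec]
        have h3 : (R0ᵀ.mulVec v1) 0 = (R0ᵀ * R0) 0 1 := rfl
        rw [h3, hR0.1]
        simp
      rw [h2, sub_zero]
    rw [hn1]
    simp only
    rw [h1, hv1]
    simp only
    rw [col_sq hR0.1]
    exact one_ne_zero
  set O : Set E3 := (U ∩ n0 ⁻¹' {0}ᶜ) ∩ (U ∩ n1 ⁻¹' {0}ᶜ) with hO
  have hOo : IsOpen O :=
    (c0.isOpen_inter_preimage hU isOpen_compl_singleton).inter
      (c1.isOpen_inter_preimage hU isOpen_compl_singleton)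
  refine ⟨O, fun z => mk (nv (ell (u z)) v0) (nv ((1 : M3) - ell (u z)) v1), hOo,
    ⟨⟨hy, m0⟩, ⟨hy, m1⟩⟩, fun z hz => hz.1.1, ?_, ?_⟩
  · intro z hz
    have s1 := fun i => (sell z hz.1.1).nv v0 hz.1.2 i
    have s2 := fun i => (sQ z hz.1.1).nv v1 hz.2.2 i
    intro i j
    fin_cases i <;> fin_cases j
    · exact s1 0
    · exact s2 0
    · exact ((s1 1).mul (s2 2)).sub ((s1 2).mul (s2 1))
    · exact s1 1
    · exact s2 1
    · exact ((s1 2).mul (s2 0)).sub ((s1 0).mul (s2 2))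
    · exact s1 2
    · exact s2 2
    · exact ((s1 0).mul (s2 1)).sub ((s1 1).mul (s2 0))
  · intro z hz
    obtain ⟨R, hR, hP, hl⟩ := pt z hz.1.1
    have h0 : ∑ k, ((ell (u z)).mulVec v0) k ^ 2 ≠ 0 := hz.1.2
    have h1 : ∑ k, (((1 : M3) - ell (u z)).mulVec v1) k ^ 2 ≠ 0 := hz.2.2
    have a1 := nv_unit _ _ h0
    have b1 := nv_unit _ _ h1
    have h0' := h0
    rw [hl] at h0'
    obtain ⟨e, he, h5⟩ := nv_eq hR.1 v0 0 h0'
    rw [← hl] at h5
    -- the second vector is orthogonal to the first column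
    have h6 : ∑ i, R i 0 * (((1 : M3) - ell (u z)).mulVec v1) i = 0 := by
      have h7 : ∀ i, (((1 : M3) - ell (u z)).mulVec v1) i = v1 i - (Rᵀ.mulVec v1) 0 * R i 0 := by
        intro i
        rw [Matrix.sub_mulVec, Matrix.one_mulVec, hl, Pi.sub_apply, diag_mulVec]
      simp only [h7]
      have h8 : (Rᵀ.mulVec v1) 0 = ∑ i, R i 0 * v1 i := rfl
      have h9 := col_sq hR.1 0
      have h10 : ∀ i, R i 0 * (v1 i - (Rᵀ.mulVec v1) 0 * R i 0) =
          R i 0 * v1 i - (Rᵀ.mulVec v1) 0 * R i 0 ^ 2 := by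
        intro i
        ring
      simp only [h10, Finset.sum_sub_distrib, ← Finset.mul_sum, h9, ← h8]
      ring
    have hab : nv (ell (u z)) v0 0 * nv ((1 : M3) - ell (u z)) v1 0 +
        nv (ell (u z)) v0 1 * nv ((1 : M3) - ell (u z)) v1 1 +
        nv (ell (u z)) v0 2 * nv ((1 : M3) - ell (u z)) v1 2 = 0 := by
      rw [h5]
      unfold nv
      rw [Fin.sum_univ_three] at h6
      linear_combination (e * (√(∑ k, (((1 : M3) - ell (u z)).mulVec v1) k ^ 2))⁻¹) * h6
    refine ⟨mk_rot _ _ a1 b1 hab, ?_⟩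
    ext i j
    rw [mk_bolt, h5, hP]
    rw [bolt_entry]
    linear_combination (-2 * R i 0 * R j 0) * he

/-! ### calculus along the frame -/

/-- derivative of a matrix valued function along a vector field -/
noncomputable def DM (A : E3 → E3) (R : E3 → M3) (z : E3) : M3 :=
  Matrix.of fun i k => Dl A (fun w => R w i k) z

/-- the vector of `Rᵀ (A R)` -/
noncomputable def wv (A : E3 → E3) (R : E3 → M3) (z : E3) : Fin 3 → ℝ := ax ((R z)ᵀ * DM A R z)

theorem hat_ax (X : M3) (h : Xᵀ = -X) : hat (ax X) = X := by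
  have e : ∀ i j, X j i = -X i j := by
    intro i j
    exact congrFun (congrFun h i) j
  have h00 := e 0 0
  have h11 := e 1 1
  have h22 := e 2 2
  have h01 := e 0 1
  have h02 := e 0 2
  have h12 := e 1 2
  ext i j
  fin_cases i <;> fin_cases j <;> simp [hat, ax] <;> linarith

theorem Dl_mul {A : E3 → E3} {f g : E3 → ℝ} {z : E3} (hf : DifferentiableAt ℝ f z)
    (hg : DifferentiableAt ℝ g z) :
    Dl A (fun w => f w * g w) z = Dl A f z * g z + f z * Dl A g z := by
  show fderiv ℝ (fun w => f w * g w) z (A z) = _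
  rw [fderiv_fun_mul hf hg]
  show f z * fderiv ℝ g z (A z) + g z * fderiv ℝ f z (A z) =
    fderiv ℝ f z (A z) * g z + f z * fderiv ℝ g z (A z)
  ring

theorem Dl_sum {A : E3 → E3} {f : Fin 3 → E3 → ℝ} {z : E3}
    (hf : ∀ k, DifferentiableAt ℝ (f k) z) :
    Dl A (fun w => ∑ k, f k w) z = ∑ k, Dl A (f k) z := by
  show fderiv ℝ (fun w => ∑ k, f k w) z (A z) = _
  rw [fderiv_fun_sum fun k _ => hf k]
  simp only [_root_.sum_apply]
  rfl

theorem Dl_congr {V : Type} [NormedAddCommGroup V] [NormedSpace ℝ V] {A : E3 → E3} {f g : E3 → V}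
    {z : E3} (h : f =ᶠ[nhds z] g) : Dl A f z = Dl A g z := by
  show fderiv ℝ f z (A z) = fderiv ℝ g z (A z)
  rw [h.fderiv_eq]

theorem Dl_const {A : E3 → E3} {z : E3} (c : ℝ) : Dl A (fun _ => c) z = 0 := by
  show fderiv ℝ (fun _ => c) z (A z) = 0
  simp

/-- the standing hypotheses -/
structure St (O : Set E3) (B : Fin 3 → E3 → E3) (R : E3 → M3) : Prop where
  op : IsOpen O
  sB : ∀ i, ContDiffOn ℝ ∞ (B i) O
  sR : ∀ i j, ContDiffOn ℝ ∞ (fun z => R z i j) O
  rot : ∀ z ∈ O, IsRot (R z)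
  br : ∀ i j, ∀ z ∈ O, VectorField.lieBracket ℝ (B i) (B j) z = ∑ k, (2 * eps i j k) • B k z

variable {O : Set E3} {B : Fin 3 → E3 → E3} {R : E3 → M3}

theorem St.dR (h : St O B R) {z : E3} (hz : z ∈ O) (i j : Fin 3) :
    DifferentiableAt ℝ (fun z => R z i j) z :=
  ((h.sR i j).contDiffAt (h.op.mem_nhds hz)).differentiableAt (by simp)

theorem St.dB (h : St O B R) {z : E3} (hz : z ∈ O) (i : Fin 3) : DifferentiableAt ℝ (B i) z :=
  ((h.sB i).contDiffAt (h.op.mem_nhds hz)).differentiableAt (by simp)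

theorem St.sE (h : St O B R) (a : Fin 3) : ContDiffOn ℝ ∞ (bf B R a) O := by
  unfold bf
  exact ContDiffOn.sum fun j _ => (h.sR j a).smul (h.sB j)

theorem St.skew (h : St O B R) {z : E3} (hz : z ∈ O) (A : E3 → E3) :
    ((R z)ᵀ * DM A R z)ᵀ = -((R z)ᵀ * DM A R z) := by
  ext i k
  have h1 : (fun w => ∑ l, R w l k * R w l i) =ᶠ[nhds z] fun _ => (if k = i then 1 else 0) := by
    filter_upwards [h.op.mem_nhds hz] with w hw
    have h2 := congrFun (congrFun (h.rot w hw).1 k) i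
    rw [Matrix.mul_apply, Matrix.one_apply] at h2
    exact h2
  have h2 : Dl A (fun w => ∑ l, R w l k * R w l i) z = 0 := by
    rw [Dl_congr h1, Dl_const]
  rw [Dl_sum (f := fun l w => R w l k * R w l i) fun l => (h.dR hz l k).mul (h.dR hz l i)] at h2
  have h3 : ∀ l, Dl A (fun w => R w l k * R w l i) z =
      DM A R z l k * R z l i + R z l k * DM A R z l i := fun l => Dl_mul (h.dR hz l k) (h.dR hz l i)
  simp only [h3, Finset.sum_add_distrib] at h2
  have e1 : ((R z)ᵀ * DM A R z)ᵀ i k = ∑ l, R z l k * DM A R z l i := by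
    rw [Matrix.transpose_apply, Matrix.mul_apply]
    rfl
  have e2 : (-((R z)ᵀ * DM A R z)) i k = -∑ l, DM A R z l k * R z l i := by
    rw [Matrix.neg_apply, Matrix.mul_apply]
    congr 1
    exact Finset.sum_congr rfl fun l _ => mul_comm _ _
  rw [e1, e2]
  linarith

theorem St.DM_eq (h : St O B R) {z : E3} (hz : z ∈ O) (A : E3 → E3) :
    DM A R z = R z * hat (wv A R z) := by
  have h1 : R z * (R z)ᵀ = 1 := mul_eq_one_comm.1 (h.rot z hz).1
  unfold wv
  rw [hat_ax _ (h.skew hz A), ← Matrix.mul_assoc, h1, Matrix.one_mul]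

theorem Dl_bf (f : E3 → ℝ) (a : Fin 3) (z : E3) :
    Dl (bf B R a) f z = ∑ j, R z j a * Dl (B j) f z := by
  show fderiv ℝ f z (∑ j, R z j a • B j z) = _
  rw [map_sum]
  refine Finset.sum_congr rfl fun j _ => ?_
  rw [map_smul]
  rfl

theorem wv_bf (a : Fin 3) (z : E3) (l : Fin 3) :
    wv (bf B R a) R z l = ∑ j, R z j a * wv (B j) R z l := by
  have h1 : DM (bf B R a) R z = ∑ j, R z j a • DM (B j) R z := by
    ext i k
    show Dl (bf B R a) (fun w => R w i k) z = _
    rw [Dl_bf, Matrix.sum_apply]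
    rfl
  have h2 : ∀ X : Fin 3 → M3, ∀ c : Fin 3 → ℝ, ax ((R z)ᵀ * ∑ j, c j • X j) l =
      ∑ j, c j * ax ((R z)ᵀ * X j) l := by
    intro X c
    rw [Finset.mul_sum]
    have h3 : ∀ j, (R z)ᵀ * (c j • X j) = c j • ((R z)ᵀ * X j) := fun j => Matrix.mul_smul _ _ _
    simp only [h3]
    fin_cases l <;> simp [ax, Matrix.sum_apply]
  unfold wv
  rw [h1, h2]

theorem St.swv (h : St O B R) {A : E3 → E3} (hA : ContDiffOn ℝ ∞ A O) (l : Fin 3) :
    ContDiffOn ℝ ∞ (fun z => wv A R z l) O := by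
  have h1 : ∀ i k, ContDiffOn ℝ ∞ (fun z => ((R z)ᵀ * DM A R z) i k) O := by
    intro i k
    have e : (fun z => ((R z)ᵀ * DM A R z) i k) = fun z => ∑ m, R z m i * Dl A (fun w => R w m k) z := by
      funext z
      rw [Matrix.mul_apply]
      rfl
    rw [e]
    exact ContDiffOn.sum fun m _ => (h.sR m i).mul (Dl_smooth h.op hA (h.sR m k))
  fin_cases l
  · exact h1 2 1
  · exact h1 0 2
  · exact h1 1 0

/-- the coefficients of the bracket -/
def nn (θ : Fin 3 → Fin 3 → ℝ) (a b c : Fin 3) : ℝ :=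
  hat (θ a) c b - hat (θ b) c a + 2 * eps a b c

theorem cof_eps {R : M3} (hR : IsRot R) (a b k : Fin 3) :
    ∑ j, ∑ m, R j a * R m b * eps j m k = ∑ c, R k c * eps a b c := by
  have h1 : R * Rᵀ = 1 := mul_eq_one_comm.1 hR.1
  have h2 : R.adjugate = Rᵀ := by
    calc R.adjugate = R.adjugate * (R * Rᵀ) := by rw [h1, Matrix.mul_one]
      _ = (R.adjugate * R) * Rᵀ := by rw [Matrix.mul_assoc]
      _ = Rᵀ := by rw [Matrix.adjugate_mul, hR.2, one_smul, Matrix.one_mul]
  have e : ∀ i j, R.adjugate i j = R j i := fun i j => by rw [h2]; rfl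
  rw [Matrix.adjugate_fin_three] at e
  have e00 := e 0 0
  have e01 := e 0 1
  have e02 := e 0 2
  have e10 := e 1 0
  have e11 := e 1 1
  have e12 := e 1 2
  have e20 := e 2 0
  have e21 := e 2 1
  have e22 := e 2 2
  simp at e00 e01 e02 e10 e11 e12 e20 e21 e22
  fin_cases a <;> fin_cases b <;> fin_cases k <;> simp [eps, Fin.sum_univ_three] <;> linarith

theorem St.bracket (h : St O B R) {z : E3} (hz : z ∈ O) (a b : Fin 3) :
    VectorField.lieBracket ℝ (bf B R a) (bf B R b) z =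
      ∑ c, nn (fun a => wv (bf B R a) R z) a b c • bf B R c z := by
  have hd : ∀ (b : Fin 3) (v : E3), fderiv ℝ (bf B R b) z v =
      ∑ k, (fderiv ℝ (fun w => R w k b) z v • B k z + R z k b • fderiv ℝ (B k) z v) := by
    intro b v
    have h1 : HasFDerivAt (bf B R b) (∑ k, (R z k b • fderiv ℝ (B k) z +
        (fderiv ℝ (fun w => R w k b) z).smulRight (B k z))) z := by
      unfold bf
      exact HasFDerivAt.fun_sum fun k _ => (h.dR hz k b).hasFDerivAt.smul (h.dB hz k).hasFDerivAt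
    rw [h1.fderiv, _root_.sum_apply]
    refine Finset.sum_congr rfl fun k _ => ?_
    simp only [_root_.add_apply, _root_.smul_apply, ContinuousLinearMap.smulRight_apply]
    rw [add_comm]
  have hB : ∀ j k, fderiv ℝ (B k) z (B j z) - fderiv ℝ (B j) z (B k z) =
      ∑ l, (2 * eps j k l) • B l z := fun j k => h.br j k z hz
  have hV : ∀ (a : Fin 3) (k : Fin 3), fderiv ℝ (B k) z (bf B R a z) =
      ∑ j, R z j a • fderiv ℝ (B k) z (B j z) := by
    intro a k
    show fderiv ℝ (B k) z (∑ j, R z j a • B j z) = _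
    rw [map_sum]
    refine Finset.sum_congr rfl fun j _ => ?_
    rw [map_smul]
  have hDM : ∀ (a b k : Fin 3), fderiv ℝ (fun w => R w k b) z (bf B R a z) =
      ∑ c, R z k c * hat (wv (bf B R a) R z) c b := by
    intro a b k
    have h1 := congrFun (congrFun (h.DM_eq hz (bf B R a)) k) b
    rw [Matrix.mul_apply] at h1
    exact h1
  have h1 : VectorField.lieBracket ℝ (bf B R a) (bf B R b) z =
      ∑ k, ((∑ c, R z k c * hat (wv (bf B R a) R z) c b) -
        (∑ c, R z k c * hat (wv (bf B R b) R z) c a)) • B k z +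
      ∑ k, ∑ j, (R z k b * R z j a) • (fderiv ℝ (B k) z (B j z) - fderiv ℝ (B j) z (B k z)) := by
    rw [VectorField.lieBracket, hd, hd]
    simp only [hV, hDM, Finset.sum_add_distrib, sub_smul, Finset.sum_sub_distrib, smul_sub,
      Finset.smul_sum, smul_smul]
    have h2 : ∑ k, ∑ j, (R z k a * R z j b) • fderiv ℝ (B k) z (B j z) =
        ∑ k, ∑ j, (R z k b * R z j a) • fderiv ℝ (B j) z (B k z) := by
      rw [Finset.sum_comm]
      refine Finset.sum_congr rfl fun k _ => Finset.sum_congr rfl fun j _ => ?_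
      rw [mul_comm]
    rw [h2]
    abel
  rw [h1]
  simp only [hB]
  have h3 : ∑ k, ∑ j, (R z k b * R z j a) • ∑ l, (2 * eps j k l) • B l z =
      ∑ l, (2 * ∑ c, R z l c * eps a b c) • B l z := by
    have h4 : ∀ l, ∑ c, R z l c * eps a b c = ∑ k, ∑ j, R z k b * R z j a * eps j k l := by
      intro l
      rw [← cof_eps (h.rot z hz) a b l, Finset.sum_comm]
      refine Finset.sum_congr rfl fun k _ => Finset.sum_congr rfl fun j _ => by ring
    simp only [h4, Finset.smul_sum, smul_smul, Finset.mul_sum, Finset.sum_smul]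
    rw [Finset.sum_comm' (t' := Finset.univ) (s' := fun _ => Finset.univ) (by simp)]
    rw [show (∑ k : Fin 3, ∑ j : Fin 3, ∑ l : Fin 3, (R z j b * R z k a * (2 * eps k j l)) • B l z) =
      ∑ k : Fin 3, ∑ l : Fin 3, ∑ j : Fin 3, (R z j b * R z k a * (2 * eps k j l)) • B l z from
      Finset.sum_congr rfl fun k _ => Finset.sum_comm]
    rw [Finset.sum_comm]
    refine Finset.sum_congr rfl fun l _ => ?_
    rw [Finset.sum_comm]
    refine Finset.sum_congr rfl fun k _ => Finset.sum_congr rfl fun j _ => ?_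
    congr 1
    ring
  rw [h3, ← Finset.sum_add_distrib]
  have h5 : ∑ c, nn (fun a => wv (bf B R a) R z) a b c • bf B R c z =
      ∑ k, (∑ c, nn (fun a => wv (bf B R a) R z) a b c * R z k c) • B k z := by
    simp only [bf, Finset.smul_sum, smul_smul, Finset.sum_smul]
    rw [Finset.sum_comm]
  rw [h5]
  refine Finset.sum_congr rfl fun k _ => ?_
  rw [← add_smul]
  congr 1
  simp only [nn, Fin.sum_univ_three]
  ring

theorem hat_Dl {A : E3 → E3} {θ : E3 → Fin 3 → ℝ} {z : E3} (m k : Fin 3) :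
    Dl A (fun w => hat (θ w) m k) z = hat (fun l => Dl A (fun w => θ w l) z) m k := by
  have hneg : ∀ f : E3 → ℝ, Dl A (fun w => -f w) z = -Dl A f z := by
    intro f
    show fderiv ℝ (fun w => -f w) z (A z) = -(fderiv ℝ f z (A z))
    rw [fderiv_fun_neg]
    rfl
  fin_cases m <;> fin_cases k
  · exact Dl_const 0
  · exact hneg _
  · rfl
  · rfl
  · exact Dl_const 0
  · exact hneg _
  · exact hneg _
  · rfl
  · exact Dl_const 0

theorem hat_diff {θ : E3 → Fin 3 → ℝ} {z : E3} (h : ∀ l, DifferentiableAt ℝ (fun w => θ w l) z)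
    (m k : Fin 3) : DifferentiableAt ℝ (fun w => hat (θ w) m k) z := by
  fin_cases m <;> fin_cases k
  · exact differentiableAt_const 0
  · exact (h 2).neg
  · exact h 1
  · exact h 2
  · exact differentiableAt_const 0
  · exact (h 0).neg
  · exact (h 1).neg
  · exact h 0
  · exact differentiableAt_const 0

/-- the structure equations -/
theorem St.struct (h : St O B R) {z : E3} (hz : z ∈ O) (a b : Fin 3) :
    hat (wv (bf B R a) R z) * hat (wv (bf B R b) R z) -
      hat (wv (bf B R b) R z) * hat (wv (bf B R a) R z) +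
      hat (fun l => Dl (bf B R a) (fun w => wv (bf B R b) R w l) z) -
      hat (fun l => Dl (bf B R b) (fun w => wv (bf B R a) R w l) z) =
    ∑ c, nn (fun a => wv (bf B R a) R z) a b c • hat (wv (bf B R c) R z) := by
  have hθd : ∀ (a l : Fin 3), DifferentiableAt ℝ (fun w => wv (bf B R a) R w l) z := fun a l =>
    ((h.swv (h.sE a) l).contDiffAt (h.op.mem_nhds hz)).differentiableAt (by simp)
  have key : ∀ (a b i k : Fin 3), Dl (bf B R a) (Dl (bf B R b) (fun w => R w i k)) z =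
      (R z * (hat (wv (bf B R a) R z) * hat (wv (bf B R b) R z) +
        hat (fun l => Dl (bf B R a) (fun w => wv (bf B R b) R w l) z))) i k := by
    intro a b i k
    have e1 : Dl (bf B R b) (fun w => R w i k) =ᶠ[nhds z]
        fun w => ∑ m, R w i m * hat (wv (bf B R b) R w) m k := by
      filter_upwards [h.op.mem_nhds hz] with w hw
      have h1 := congrFun (congrFun (h.DM_eq hw (bf B R b)) i) k
      rw [Matrix.mul_apply] at h1
      exact h1
    rw [Dl_congr e1, Dl_sum (f := fun m w => R w i m * hat (wv (bf B R b) R w) m k)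
      fun m => (h.dR hz i m).mul (hat_diff (hθd b) m k)]
    have e2 : ∀ m, Dl (bf B R a) (fun w => R w i m * hat (wv (bf B R b) R w) m k) z =
        DM (bf B R a) R z i m * hat (wv (bf B R b) R z) m k +
          R z i m * hat (fun l => Dl (bf B R a) (fun w => wv (bf B R b) R w l) z) m k := by
      intro m
      rw [Dl_mul (h.dR hz i m) (hat_diff (hθd b) m k), hat_Dl]
      rfl
    simp only [e2]
    rw [Finset.sum_add_distrib, ← Matrix.mul_apply, ← Matrix.mul_apply, h.DM_eq hz (bf B R a),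
      Matrix.mul_add, Matrix.mul_assoc, Matrix.add_apply]
  have hcomm : ∀ i k, Dl (bf B R a) (Dl (bf B R b) (fun w => R w i k)) z -
      Dl (bf B R b) (Dl (bf B R a) (fun w => R w i k)) z =
      (R z * ∑ c, nn (fun a => wv (bf B R a) R z) a b c • hat (wv (bf B R c) R z)) i k := by
    intro i k
    rw [Dl_comm h.op (h.sE a) (h.sE b) (h.sR i k) hz, h.bracket hz a b, map_sum, Finset.mul_sum,
      Matrix.sum_apply]
    refine Finset.sum_congr rfl fun c _ => ?_
    rw [map_smul, Matrix.mul_smul, Matrix.smul_apply, ← h.DM_eq hz (bf B R c)]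
    rfl
  have hmat : R z * (hat (wv (bf B R a) R z) * hat (wv (bf B R b) R z) +
        hat (fun l => Dl (bf B R a) (fun w => wv (bf B R b) R w l) z)) -
      R z * (hat (wv (bf B R b) R z) * hat (wv (bf B R a) R z) +
        hat (fun l => Dl (bf B R b) (fun w => wv (bf B R a) R w l) z)) =
      R z * ∑ c, nn (fun a => wv (bf B R a) R z) a b c • hat (wv (bf B R c) R z) := by
    ext i k
    rw [Matrix.sub_apply, ← key a b i k, ← key b a i k]
    exact hcomm i k
  have h1 := congrArg (fun X => (R z)ᵀ * X) hmat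
  rw [← Matrix.mul_sub, ← Matrix.mul_assoc, ← Matrix.mul_assoc, (h.rot z hz).1, Matrix.one_mul,
    Matrix.one_mul] at h1
  rw [← h1]
  abel

/-! ### the Fueter equation -/

theorem toM_ofM' (A : M3) : toM (ofM A) = A := by
  ext i j
  simp [toM, ofM]

/-- action of `hat e_j` on the first column -/
theorem hat_col {R : M3} (hR : IsRot R) (j i : Fin 3) :
    (hat (Pi.single j 1) * R) i 0 = R j 2 * R i 1 - R j 1 * R i 2 := by
  have h1 : R * Rᵀ = 1 := mul_eq_one_comm.1 hR.1
  have h2 : R.adjugate = Rᵀ := by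
    calc R.adjugate = R.adjugate * (R * Rᵀ) := by rw [h1, Matrix.mul_one]
      _ = (R.adjugate * R) * Rᵀ := by rw [Matrix.mul_assoc]
      _ = Rᵀ := by rw [Matrix.adjugate_mul, hR.2, one_smul, Matrix.one_mul]
  have e : ∀ i j, R.adjugate i j = R j i := fun i j => by rw [h2]; rfl
  rw [Matrix.adjugate_fin_three] at e
  have e00 := e 0 0
  have e01 := e 0 1
  have e02 := e 0 2
  have e10 := e 1 0
  have e11 := e 1 1
  have e12 := e 1 2
  have e20 := e 2 0
  have e21 := e 2 1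
  have e22 := e 2 2
  simp at e00 e01 e02 e10 e11 e12 e20 e21 e22
  fin_cases j <;> fin_cases i <;>
    simp [hat, Matrix.mul_apply, Fin.sum_univ_three] <;> linarith

theorem Tb_entry (R : M3) (x y : ℝ) (i k : Fin 3) :
    (R * (x • Tb 0 2 + y • Tb 0 3) * Rᵀ) i k =
      2 * y * (R i 1 * R k 0 + R i 0 * R k 1) - 2 * x * (R i 2 * R k 0 + R i 0 * R k 2) := by
  simp [Tb, Matrix.mul_apply, Fin.sum_univ_three]
  ring

/-- the covariant derivative -/
theorem St.cov (h : St O B R) {u : E3 → V9} {z : E3} (hz : z ∈ O)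
    (hu : ∀ w ∈ O, toM (u w) = R w * Dg 0 * (R w)ᵀ) (hud : DifferentiableAt ℝ u z) (j : Fin 3) :
    toM (fderiv ℝ u z (B j z)) +
      (hat (Pi.single j 1) * toM (u z) - toM (u z) * hat (Pi.single j 1)) =
    R z * ((wv (B j) R z 1 + R z j 1) • Tb 0 2 + (wv (B j) R z 2 + R z j 2) • Tb 0 3) * (R z)ᵀ := by
  have hut : ∀ i k, toM (u z) i k = 2 * (R z i 0 * R z k 0) := by
    intro i k
    rw [hu z hz, bolt_entry]
  have hD : ∀ i k, toM (fderiv ℝ u z (B j z)) i k =
      2 * (DM (B j) R z i 0 * R z k 0 + R z i 0 * DM (B j) R z k 0) := by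
    intro i k
    have e1 : HasFDerivAt (fun w => u w (i, k))
        ((EuclideanSpace.proj (i, k) : V9 →L[ℝ] ℝ).comp (fderiv ℝ u z)) z :=
      (EuclideanSpace.proj (i, k) : V9 →L[ℝ] ℝ).hasFDerivAt.comp z hud.hasFDerivAt
    have e2 : toM (fderiv ℝ u z (B j z)) i k = Dl (B j) (fun w => u w (i, k)) z := by
      show _ = fderiv ℝ (fun w => u w (i, k)) z (B j z)
      rw [e1.fderiv]
      rfl
    have e3 : (fun w => u w (i, k)) =ᶠ[nhds z] fun w => (2 * R w i 0) * R w k 0 := by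
      filter_upwards [h.op.mem_nhds hz] with w hw
      have := congrFun (congrFun (hu w hw) i) k
      rw [bolt_entry] at this
      have h4 : u w (i, k) = toM (u w) i k := rfl
      rw [h4, this]
      ring
    have e4 : DifferentiableAt ℝ (fun w => 2 * R w i 0) z := (h.dR hz i 0).const_mul 2
    rw [e2, Dl_congr e3, Dl_mul e4 (h.dR hz k 0)]
    have e5 : Dl (B j) (fun w => 2 * R w i 0) z = 2 * DM (B j) R z i 0 := by
      have := Dl_mul (A := B j) (differentiableAt_const (2 : ℝ)) (h.dR hz i 0)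
      rw [this, Dl_const]
      show 0 * _ + 2 * Dl (B j) (fun w => R w i 0) z = 2 * Dl (B j) (fun w => R w i 0) z
      ring
    rw [e5]
    show 2 * DM (B j) R z i 0 * R z k 0 + 2 * R z i 0 * DM (B j) R z k 0 = _
    ring
  have hDM : ∀ i, DM (B j) R z i 0 = R z i 1 * wv (B j) R z 2 - R z i 2 * wv (B j) R z 1 := by
    intro i
    have h1 := congrFun (congrFun (h.DM_eq hz (B j)) i) 0
    rw [Matrix.mul_apply, Fin.sum_univ_three] at h1
    rw [h1]
    simp [hat]
    ring
  have hc := fun i => hat_col (h.rot z hz) j i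
  ext i k
  rw [Tb_entry, Matrix.add_apply, Matrix.sub_apply, hD, hDM, hDM]
  have h1 : (hat (Pi.single j 1) * toM (u z)) i k =
      2 * ((hat (Pi.single j 1) * R z) i 0 * R z k 0) := by
    rw [Matrix.mul_apply, Matrix.mul_apply]
    simp only [hut, Fin.sum_univ_three]
    ring
  have h2 : (toM (u z) * hat (Pi.single j 1)) i k =
      -(2 * (R z i 0 * (hat (Pi.single j 1) * R z) k 0)) := by
    have h3 : ∀ m k, hat (Pi.single j 1 : Fin 3 → ℝ) m k = -hat (Pi.single j 1) k m := by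
      intro m k
      fin_cases m <;> fin_cases k <;> simp [hat]
    rw [Matrix.mul_apply, Matrix.mul_apply]
    simp only [hut, Fin.sum_univ_three]
    rw [h3 0 k, h3 1 k, h3 2 k]
    ring
  rw [h1, h2, hc, hc]
  ring

/-- the equation for the body vectors at the bolt -/
theorem bolt_eq (pr : Profile) (R : M3) (g : Fin 3 → Fin 3 → ℝ)
    (h : ∑ j, ∑ i, R j i • (Ic pr 0 i).mulVec ![0, 0, g j 1, g j 2] = 0) :
    ∑ j, R j 0 * g j 1 = 0 ∧ ∑ j, R j 0 * g j 2 = 0 ∧
      ∑ j, R j 1 * g j 1 = ∑ j, R j 2 * g j 2 ∧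
      ∑ j, R j 2 * g j 1 = -∑ j, R j 1 * g j 2 := by
  have e : ∀ k : Fin 4, ∑ j, ∑ i, R j i * ((Ic pr 0 i).mulVec ![0, 0, g j 1, g j 2] k) = 0 := by
    intro k
    have h1 := congrFun h k
    simpa [Finset.sum_apply] using h1
  have e0 := e 0
  have e1 := e 1
  have e2 := e 2
  have e3 := e 3
  have hal : pr.al (0 ^ 2) = 2 := by
    have h0 : (0 : ℝ) ^ 2 = 0 := by norm_num
    rw [h0, pr.al_zero]
  have hb : pr.b 0 = Real.pi := by
    have h0 : (0 : ℝ) ^ 2 = 0 := by norm_num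
    rw [Profile.b, h0, pr.be_zero]
    ring
  have hc : pr.c 0 = -Real.pi := by
    have h0 : (0 : ℝ) ^ 2 = 0 := by norm_num
    rw [Profile.c, h0, pr.be_zero]
    ring
  have hpi : Real.pi ≠ 0 := Real.pi_ne_zero
  have hd : -Real.pi / Real.pi = -1 := by
    rw [neg_div, div_self hpi]
  have hd' : Real.pi / -Real.pi = -1 := by
    rw [div_neg, div_self hpi]
  simp only [Ic, Matrix.mulVec, dotProduct, Fin.sum_univ_three, Fin.sum_univ_four,
    Matrix.of_apply, Matrix.cons_val_zero, Matrix.cons_val_one, Matrix.cons_val, hal, hb, hc]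
    at e0 e1 e2 e3
  simp only [Fin.sum_univ_three]
  refine ⟨?_, ?_, ?_, ?_⟩
  · rw [hd'] at e3
    linear_combination -e3
  · rw [hd] at e2
    linear_combination e2
  · have : Real.pi * ((R 0 1 * g 0 1 + R 1 1 * g 1 1 + R 2 1 * g 2 1) -
      (R 0 2 * g 0 2 + R 1 2 * g 1 2 + R 2 2 * g 2 2)) = 0 := by linear_combination -e0
    have := (mul_eq_zero.1 this).resolve_left hpi
    linarith
  · have : Real.pi * ((R 0 2 * g 0 1 + R 1 2 * g 1 1 + R 2 2 * g 2 1) +
      (R 0 1 * g 0 2 + R 1 1 * g 1 2 + R 2 1 * g 2 2)) = 0 := by linear_combination -e1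
    have := (mul_eq_zero.1 this).resolve_left hpi
    linarith

theorem Dl_add_one {A : E3 → E3} {f : E3 → ℝ} {z : E3} :
    Dl A (fun w => f w + 1) z = Dl A f z := by
  show fderiv ℝ (fun w => f w + 1) z (A z) = fderiv ℝ f z (A z)
  rw [fderiv_add_const]

theorem inv_rot {R : M3} (hR : IsRot R) (g : Fin 3 → ℝ) (j : Fin 3) :
    g j = R j 0 * (∑ m, R m 0 * g m) + R j 1 * (∑ m, R m 1 * g m) + R j 2 * (∑ m, R m 2 * g m) := by
  have h1 : R * Rᵀ = 1 := mul_eq_one_comm.1 hR.1
  have e : ∀ m, R j 0 * R m 0 + R j 1 * R m 1 + R j 2 * R m 2 = if j = m then 1 else 0 := by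
    intro m
    have h2 := congrFun (congrFun h1 j) m
    rw [Matrix.mul_apply, Fin.sum_univ_three, Matrix.one_apply] at h2
    exact h2
  have h3 : R j 0 * (∑ m, R m 0 * g m) + R j 1 * (∑ m, R m 1 * g m) + R j 2 * (∑ m, R m 2 * g m) =
      ∑ m, (R j 0 * R m 0 + R j 1 * R m 1 + R j 2 * R m 2) * g m := by
    rw [Finset.mul_sum, Finset.mul_sum, Finset.mul_sum, ← Finset.sum_add_distrib,
      ← Finset.sum_add_distrib]
    refine Finset.sum_congr rfl fun m _ => by ring
  rw [h3]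
  simp only [e]
  simp

theorem St.rel (h : St O B R) (hA12 : St_A12) (pr : Profile) {u : E3 → V9}
    (hu : ∀ w ∈ O, toM (u w) = R w * Dg 0 * (R w)ᵀ)
    (hud : ∀ w ∈ O, DifferentiableAt ℝ u w)
    (heq : ∀ w ∈ O, FueterPt pr (toM (u w)) (fun j => toM (fderiv ℝ u w (B j w)) +
      (toM (ofM (hat (Pi.single j 1))) * toM (u w) - toM (u w) * toM (ofM (hat (Pi.single j 1))))))
    {z : E3} (hz : z ∈ O) :
    wv (bf B R 0) R z 1 = 0 ∧ wv (bf B R 0) R z 2 = 0 ∧
    wv (bf B R 2) R z 2 = wv (bf B R 1) R z 1 ∧ wv (bf B R 2) R z 1 = -wv (bf B R 1) R z 2 ∧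
    (∀ j, wv (B j) R z 1 + R z j 1 =
      R z j 1 * (wv (bf B R 1) R z 1 + 1) - R z j 2 * wv (bf B R 1) R z 2) ∧
    ∀ j, wv (B j) R z 2 + R z j 2 =
      R z j 1 * wv (bf B R 1) R z 2 + R z j 2 * (wv (bf B R 1) R z 1 + 1) := by
  have hR := h.rot z hz
  have h1 := heq z hz
  simp only [toM_ofM'] at h1
  have h2 : (fun j => toM (fderiv ℝ u z (B j z)) +
      (hat (Pi.single j 1) * toM (u z) - toM (u z) * hat (Pi.single j 1))) =
      fun j => toM (ofM (toM (fderiv ℝ u z (B j z)) +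
      (hat (Pi.single j 1) * toM (u z) - toM (u z) * hat (Pi.single j 1)))) := by
    funext j
    rw [toM_ofM']
  rw [h2] at h1
  have h3 := hA12.2 pr (u z) _ (R z) 0
    (fun j => ![0, 0, wv (B j) R z 1 + R z j 1, wv (B j) R z 2 + R z j 2]) h1 hR le_rfl (hu z hz)
    (by
      intro j
      rw [toM_ofM', h.cov hz hu (hud z hz) j]
      congr 2
      simp [Fin.sum_univ_four])
  obtain ⟨b1, b2, b3, b4⟩ := bolt_eq pr (R z) (fun j l => wv (B j) R z l + R z j l) h3
  have hG : ∀ a l, ∑ j, R z j a * (wv (B j) R z l + R z j l) =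
      wv (bf B R a) R z l + if a = l then 1 else 0 := by
    intro a l
    have h4 := congrFun (congrFun hR.1 a) l
    rw [Matrix.mul_apply, Matrix.one_apply] at h4
    rw [wv_bf, ← h4]
    simp only [mul_add, Finset.sum_add_distrib, Matrix.transpose_apply]
  have hinv1 := inv_rot hR (fun j => wv (B j) R z 1 + R z j 1)
  have hinv2 := inv_rot hR (fun j => wv (B j) R z 2 + R z j 2)
  rw [hG] at b1 b2
  rw [hG, hG] at b3 b4
  simp only [hG] at hinv1 hinv2
  simp only [Fin.isValue, Fin.reduceEq, if_true, if_false, add_zero] at b1 b2 b3 b4 hinv1 hinv2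
  have c3 : wv (bf B R 2) R z 2 = wv (bf B R 1) R z 1 := by linarith
  refine ⟨b1, b2, c3, b4, ?_, ?_⟩
  · intro j
    rw [hinv1 j, b1, b4]
    ring
  · intro j
    rw [hinv2 j, b2, c3]
    ring

end C3x

open C3x in
theorem thm_C3 (_hA01 : St_A01) (hA04 : St_A04) (hA12 : St_A12) : St_C3 := by
  intro pr U B u y hU hy hB hbr hloc htt
  obtain ⟨O, R, hO, hyO, hOU, hSA, hrot⟩ := frame hA04 hU hy hloc.smooth hloc.mem htt
  have hSt : St O B R := ⟨hO, fun i => (hB i).mono hOU,
    fun i j z hz => (hSA z hz i j).contDiffWithinAt, fun z hz => (hrot z hz).1,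
    fun i j z hz => hbr i j z (hOU hz)⟩
  have hrel := fun z (hz : z ∈ O) => hSt.rel hA12 pr (fun w hw => (hrot w hw).2)
    (fun w hw => (hloc.smooth.contDiffAt (hU.mem_nhds (hOU hw))).differentiableAt (by simp))
    (fun w hw => hloc.eq w (hOU hw)) hz
  refine ⟨R, fun z => wv (bf B R 1) R z 1 + 1, fun z => wv (bf B R 1) R z 2,
    fun z => wv (bf B R 1) R z 0, fun z => wv (bf B R 2) R z 0,
    fun i j => hSA y hyO i j,
    ((hSt.swv (hSt.sE 1) 1).contDiffAt (hO.mem_nhds hyO)).add contDiffAt_const,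
    (hSt.swv (hSt.sE 1) 2).contDiffAt (hO.mem_nhds hyO), ?_⟩
  filter_upwards [hO.mem_nhds hyO] with z hz
  have hn := hO.mem_nhds hz
  obtain ⟨r1, r2, r3, r4, r5, r6⟩ := hrel z hz
  have d1 : ∀ A : E3 → E3, Dl A (fun w => wv (bf B R 0) R w 1) z = 0 := by
    intro A
    rw [Dl_congr (g := fun _ => 0) (by filter_upwards [hn] with w hw; exact (hrel w hw).1)]
    exact Dl_const 0
  have d2 : ∀ A : E3 → E3, Dl A (fun w => wv (bf B R 0) R w 2) z = 0 := by
    intro A
    rw [Dl_congr (g := fun _ => 0) (by filter_upwards [hn] with w hw; exact (hrel w hw).2.1)]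
    exact Dl_const 0
  have d3 : ∀ A : E3 → E3, Dl A (fun w => wv (bf B R 2) R w 2) z =
      Dl A (fun w => wv (bf B R 1) R w 1) z := by
    intro A
    exact Dl_congr (by filter_upwards [hn] with w hw; exact (hrel w hw).2.2.1)
  have d4 : ∀ A : E3 → E3, Dl A (fun w => wv (bf B R 2) R w 1) z =
      -Dl A (fun w => wv (bf B R 1) R w 2) z := by
    intro A
    rw [Dl_congr (g := fun w => -wv (bf B R 1) R w 2)
      (by filter_upwards [hn] with w hw; exact (hrel w hw).2.2.2.1)]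
    show fderiv ℝ (fun w => -wv (bf B R 1) R w 2) z (A z) = -(fderiv ℝ _ z (A z))
    rw [fderiv_fun_neg]
    rfl
  have s01 := hSt.struct hz 0 1
  have s12 := hSt.struct hz 1 2
  have s01a := congrFun (congrFun s01 0) 2
  have s01b := congrFun (congrFun s01 1) 0
  have s12a := congrFun (congrFun s12 0) 2
  have s12b := congrFun (congrFun s12 1) 0
  simp [hat, nn, eps, Fin.sum_univ_three, Matrix.add_apply, Matrix.sub_apply,
    d1, d2, d3, d4, r1, r2, r3, r4] at s01a s01b s12a s12b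
  refine ⟨(hrot z hz).2, ⟨(hrot z hz).1, ?_, ?_, ?_, ?_, ?_⟩, ?_⟩
  · rw [Dl_add_one]
    linarith
  · linarith
  · rw [Dl_add_one]
    linarith
  · rw [Dl_add_one]
    linarith
  · rw [hSt.bracket hz 1 2, Fin.sum_univ_three]
    have n0 : nn (fun a => wv (bf B R a) R z) 1 2 0 = 2 * (wv (bf B R 1) R z 1 + 1) := by
      simp [nn, hat, eps, r3]
      ring
    have n1 : nn (fun a => wv (bf B R a) R z) 1 2 1 = -wv (bf B R 1) R z 0 := by
      simp [nn, hat, eps]
    have n2 : nn (fun a => wv (bf B R a) R z) 1 2 2 = -wv (bf B R 2) R z 0 := by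
      simp [nn, hat, eps]
    rw [n0, n1, n2]
    module
  · intro j
    rw [hSt.cov hz (fun w hw => (hrot w hw).2)
      ((hloc.smooth.contDiffAt (hU.mem_nhds (hOU hz))).differentiableAt (by simp)) j, r5 j, r6 j]
    congr 2
    module

end Pool.Agent.FUE
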