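import Pool.Agent.FUE.StC

/-!
# Fueter sections: maximum principles in the round case (helper98)

Module `C4`: `thm_C4 : St_C4`.
-/

set_option autoImplicit false

open scoped Manifold ContDiff Matrix Topology
open MeasureTheory Filter

namespace Pool.Agent.FUE

namespace C4x

theorem second (f : E3 → ℝ) (y : E3) (hf : ContDiffAt ℝ 2 f y) (P Q : E3 → E3)
    (hQ : DifferentiableAt ℝ Q y) :
    Dl P (Dl Q f) y = fderiv ℝ (fderiv ℝ f) y (P y) (Q y) + fderiv ℝ f y (fderiv ℝ Q y (P y)) := by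
  have hfd : DifferentiableAt ℝ (fderiv ℝ f) y :=
    (hf.fderiv_right (m := 1) (by norm_num)).differentiableAt (by norm_num)
  change fderiv ℝ (fun z => fderiv ℝ f z (Q z)) y (P y) = _
  rw [fderiv_clm_apply hfd hQ]
  simp [add_comm]

theorem comm (f : E3 → ℝ) (y : E3) (hf : ContDiffAt ℝ 2 f y) (A B : E3 → E3)
    (hA : DifferentiableAt ℝ A y) (hB : DifferentiableAt ℝ B y) :
    Dl A (Dl B f) y - Dl B (Dl A f) y = fderiv ℝ f y (VectorField.lieBracket ℝ A B y) := by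
  have hsym : IsSymmSndFDerivAt ℝ f y := hf.isSymmSndFDerivAt (by
    rw [minSmoothness_of_isRCLikeNormedField])
  rw [second f y hf A B hB, second f y hf B A hA, VectorField.lieBracket, map_sub,
    hsym.eq (A y) (B y)]
  abel

theorem maxp (H : E3 → ℝ) (y : E3) (hH : ContDiffAt ℝ ∞ H y) (hmax : IsLocalMax H y)
    (V : E3 → E3) (hV : DifferentiableAt ℝ V y) : Dl V H y = 0 ∧ Dl V (Dl V H) y ≤ 0 := by
  have h0 : fderiv ℝ H y = 0 := hmax.fderiv_eq_zero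
  have hH2 : ContDiffAt ℝ 2 H y := hH.of_le ENat.LEInfty.out
  constructor
  · change fderiv ℝ H y (V y) = 0
    rw [h0]
    rfl
  · rw [second H y hH2 V V hV, h0]
    have h1 := snd_le hH hmax (V y)
    simpa using h1

/-- first and second derivatives of a function of two functions -/
theorem chain (p q k kp kq : E3 → ℝ) (y : E3) (kpp kpq kqp kqq : ℝ)
    (hp : ContDiffAt ℝ 2 p y) (hq : ContDiffAt ℝ 2 q y)
    (hk : ∀ᶠ z in 𝓝 y, HasFDerivAt k (kp z • fderiv ℝ p z + kq z • fderiv ℝ q z) z)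
    (hkp : HasFDerivAt kp (kpp • fderiv ℝ p y + kpq • fderiv ℝ q y) y)
    (hkq : HasFDerivAt kq (kqp • fderiv ℝ p y + kqq • fderiv ℝ q y) y)
    (V : E3 → E3) (hV : DifferentiableAt ℝ V y) :
    Dl V k y = kp y * Dl V p y + kq y * Dl V q y ∧
    Dl V (Dl V k) y = (kpp * Dl V p y + kpq * Dl V q y) * Dl V p y + kp y * Dl V (Dl V p) y +
      ((kqp * Dl V p y + kqq * Dl V q y) * Dl V q y + kq y * Dl V (Dl V q) y) := by
  have h1 : ∀ z, HasFDerivAt k (kp z • fderiv ℝ p z + kq z • fderiv ℝ q z) z →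
      Dl V k z = kp z * Dl V p z + kq z * Dl V q z := by
    intro z hz
    change fderiv ℝ k z (V z) = _
    rw [hz.fderiv]
    rfl
  refine ⟨h1 y hk.self_of_nhds, ?_⟩
  have h2 : Dl V k =ᶠ[𝓝 y] fun z => kp z * Dl V p z + kq z * Dl V q z := by
    filter_upwards [hk] with z hz
    exact h1 z hz
  have hd : ∀ f : E3 → ℝ, ContDiffAt ℝ 2 f y → DifferentiableAt ℝ (Dl V f) y := by
    intro f hf
    have hfd : DifferentiableAt ℝ (fderiv ℝ f) y :=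
      (hf.fderiv_right (m := 1) (by norm_num)).differentiableAt (by norm_num)
    exact hfd.clm_apply hV
  have h3 : HasFDerivAt (fun z => kp z * Dl V p z + kq z * Dl V q z)
      ((kp y • fderiv ℝ (Dl V p) y + Dl V p y • (kpp • fderiv ℝ p y + kpq • fderiv ℝ q y)) +
        (kq y • fderiv ℝ (Dl V q) y + Dl V q y • (kqp • fderiv ℝ p y + kqq • fderiv ℝ q y))) y :=
    (hkp.mul (hd p hp).hasFDerivAt).add (hkq.mul (hd q hq).hasFDerivAt)
  change fderiv ℝ (Dl V k) y (V y) = _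
  rw [h2.fderiv_eq, h3.fderiv]
  change (kp y * fderiv ℝ (Dl V p) y (V y) + Dl V p y * (kpp * fderiv ℝ p y (V y) +
    kpq * fderiv ℝ q y (V y))) + (kq y * fderiv ℝ (Dl V q) y (V y) + Dl V q y *
    (kqp * fderiv ℝ p y (V y) + kqq * fderiv ℝ q y (V y))) = _
  simp only [Dl]
  ring

section formulas

variable (p q : E3 → ℝ) (z : E3) (dp dq : E3 →L[ℝ] ℝ) (hp : HasFDerivAt p dp z)
  (hq : HasFDerivAt q dq z)

include hp in
theorem f_inv (h : p z ≠ 0) : HasFDerivAt (fun z => (p z)⁻¹) (-((p z) ^ 2)⁻¹ • dp) z :=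
  (hasDerivAt_inv h).comp_hasFDerivAt z hp

include hp hq in
theorem f_K (h : p z ≠ 0) : HasFDerivAt (fun z => ((1 + p z ^ 2 + q z ^ 2) / (2 * p z)) ^ 2)
    (((p z ^ 4 - (1 + q z ^ 2) ^ 2) / (2 * p z ^ 3)) • dp +
      ((1 + p z ^ 2 + q z ^ 2) * q z / p z ^ 2) • dq) z := by
  have h1 : HasFDerivAt (fun z => 1 + p z ^ 2 + q z ^ 2) ((2 * p z) • dp + (2 * q z) • dq) z := by
    have := ((hp.pow 2).const_add 1).add (hq.pow 2)
    refine this.congr_fderiv ?_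
    ext v
    simp
  have h2 : HasFDerivAt (fun z => (2 * p z)⁻¹) (-((2 * p z) ^ 2)⁻¹ • (2 : ℝ) • dp) z :=
    (hasDerivAt_inv (mul_ne_zero two_ne_zero h)).comp_hasFDerivAt z (hp.const_mul 2)
  have h3 := (h1.mul h2).pow 2
  have h4 : (fun z => ((1 + p z ^ 2 + q z ^ 2) / (2 * p z)) ^ 2) =
      fun z => ((1 + p z ^ 2 + q z ^ 2) * (2 * p z)⁻¹) ^ 2 := by
    funext z
    rw [div_eq_mul_inv]
  rw [h4]
  refine h3.congr_fderiv ?_
  ext v
  simp
  field_simp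
  ring

include hp hq in
theorem f_Kp (h : p z ≠ 0) : HasFDerivAt (fun z => (p z ^ 4 - (1 + q z ^ 2) ^ 2) / (2 * p z ^ 3))
    ((1 / 2 + 3 * (1 + q z ^ 2) ^ 2 / (2 * p z ^ 4)) • dp +
      (-(2 * (1 + q z ^ 2) * q z / p z ^ 3)) • dq) z := by
  have h1 : HasFDerivAt (fun z => p z ^ 4 - (1 + q z ^ 2) ^ 2)
      ((4 * p z ^ 3) • dp + (-(4 * (1 + q z ^ 2) * q z)) • dq) z := by
    have := (hp.pow 4).sub (((hq.pow 2).const_add 1).pow 2)
    refine this.congr_fderiv ?_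
    ext v
    simp
    ring
  have h2 : HasFDerivAt (fun z => (2 * p z ^ 3)⁻¹)
      (-((2 * p z ^ 3) ^ 2)⁻¹ • (2 : ℝ) • (3 * p z ^ 2) • dp) z := by
    have h5 := (hp.pow 3).const_mul 2
    have h6 := (hasDerivAt_inv (mul_ne_zero two_ne_zero (pow_ne_zero 3 h))).comp_hasFDerivAt z h5
    refine h6.congr_fderiv ?_
    ext v
    simp
  have h3 := h1.mul h2
  have h4 : (fun z => (p z ^ 4 - (1 + q z ^ 2) ^ 2) / (2 * p z ^ 3)) =
      fun z => (p z ^ 4 - (1 + q z ^ 2) ^ 2) * (2 * p z ^ 3)⁻¹ := by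
    funext z
    rw [div_eq_mul_inv]
  rw [h4]
  refine h3.congr_fderiv ?_
  ext v
  simp
  field_simp
  ring

include hp hq in
theorem f_Kq (h : p z ≠ 0) : HasFDerivAt (fun z => (1 + p z ^ 2 + q z ^ 2) * q z / p z ^ 2)
    ((-(2 * (1 + q z ^ 2) * q z / p z ^ 3)) • dp +
      ((1 + 3 * q z ^ 2) / p z ^ 2 + 1) • dq) z := by
  have h1 : HasFDerivAt (fun z => (1 + p z ^ 2 + q z ^ 2) * q z)
      ((2 * p z * q z) • dp + (1 + p z ^ 2 + 3 * q z ^ 2) • dq) z := by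
    have := (((hp.pow 2).const_add 1).add (hq.pow 2)).mul hq
    refine this.congr_fderiv ?_
    ext v
    simp
    ring
  have h2 : HasFDerivAt (fun z => (p z ^ 2)⁻¹) (-((p z ^ 2) ^ 2)⁻¹ • (2 * p z) • dp) z := by
    have h6 := (hasDerivAt_inv (pow_ne_zero 2 h)).comp_hasFDerivAt z (hp.pow 2)
    refine h6.congr_fderiv ?_
    ext v
    simp
  have h3 := h1.mul h2
  have h4 : (fun z => (1 + p z ^ 2 + q z ^ 2) * q z / p z ^ 2) =
      fun z => (1 + p z ^ 2 + q z ^ 2) * q z * (p z ^ 2)⁻¹ := by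
    funext z
    rw [div_eq_mul_inv]
  rw [h4]
  refine h3.congr_fderiv ?_
  ext v
  simp
  field_simp
  ring

include hp hq in
theorem f_Psi (C : ℝ) :
    HasFDerivAt (fun z => q z ^ 2 - C * (2 * p z / (1 + p z ^ 2 + q z ^ 2)) ^ 2)
    ((-(8 * C * p z * (1 + q z ^ 2 - p z ^ 2) / (1 + p z ^ 2 + q z ^ 2) ^ 3)) • dp +
      (2 * q z + 16 * C * p z ^ 2 * q z / (1 + p z ^ 2 + q z ^ 2) ^ 3) • dq) z := by
  have h0 : (1 + p z ^ 2 + q z ^ 2) ≠ 0 := by positivity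
  have h1 : HasFDerivAt (fun z => 1 + p z ^ 2 + q z ^ 2) ((2 * p z) • dp + (2 * q z) • dq) z := by
    have := ((hp.pow 2).const_add 1).add (hq.pow 2)
    refine this.congr_fderiv ?_
    ext v
    simp
  have h2 : HasFDerivAt (fun z => (1 + p z ^ 2 + q z ^ 2)⁻¹)
      (-((1 + p z ^ 2 + q z ^ 2) ^ 2)⁻¹ • ((2 * p z) • dp + (2 * q z) • dq)) z :=
    (hasDerivAt_inv h0).comp_hasFDerivAt z h1
  have h3 := (hq.pow 2).sub ((((hp.const_mul 2).mul h2).pow 2).const_mul C)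
  have h4 : (fun z => q z ^ 2 - C * (2 * p z / (1 + p z ^ 2 + q z ^ 2)) ^ 2) =
      fun z => q z ^ 2 - C * (2 * p z * (1 + p z ^ 2 + q z ^ 2)⁻¹) ^ 2 := by
    funext z
    rw [div_eq_mul_inv]
  rw [h4]
  refine h3.congr_fderiv ?_
  ext v
  simp
  field_simp
  ring

include hp hq in
theorem f_G : HasFDerivAt (fun z => 2 * q z * (p z ^ 2 - q z ^ 2 - 1))
    ((4 * p z * q z) • dp + (2 * (p z ^ 2 - 3 * q z ^ 2 - 1)) • dq) z := by
  have := (hq.const_mul 2).mul (((hp.pow 2).sub (hq.pow 2)).sub_const 1)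
  refine this.congr_fderiv ?_
  ext v
  simp
  ring

end formulas

theorem Dl_cong {V : E3 → E3} {f g : E3 → ℝ} {y : E3} (h : f =ᶠ[𝓝 y] g) :
    Dl V f y = Dl V g y := by
  change fderiv ℝ f y (V y) = fderiv ℝ g y (V y)
  rw [h.fderiv_eq]

theorem Dl_neg' {V : E3 → E3} {f : E3 → ℝ} {y : E3} :
    Dl V (fun z => -f z) y = -Dl V f y := by
  change fderiv ℝ (fun z => -f z) y (V y) = -fderiv ℝ f y (V y)
  rw [fderiv_fun_neg]
  rfl

theorem Dl_bracket (f : E3 → ℝ) (y : E3) (c w1 w2 : ℝ) (E0 E1 E2 : E3 → E3) :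
    fderiv ℝ f y (c • E0 y - w1 • E1 y - w2 • E2 y) =
      c * Dl E0 f y - w1 * Dl E1 f y - w2 * Dl E2 f y := by
  rw [map_sub, map_sub, map_smul, map_smul, map_smul]
  rfl

theorem algebra_a (P Q a b kp kq X1 X2 X3 X4 kpp kpq kqq w1 w2 e0p e0q : ℝ) (hP : P ≠ 0)
    (hkp : kp = (P ^ 4 - (1 + Q ^ 2) ^ 2) / (2 * P ^ 3))
    (hkq : kq = (1 + P ^ 2 + Q ^ 2) * Q / P ^ 2) (hkpp : 0 ≤ kpp) (hkqq : 0 ≤ kqq)
    (h1 : kp * a + kq * b = 0) (h2 : kp * (-b) + kq * a = 0)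
    (h3 : (kpp * a + kpq * b) * a + kp * X1 + ((kpq * a + kqq * b) * b + kq * X2) ≤ 0)
    (h4 : (kpp * (-b) + kpq * a) * (-b) + kp * X3 + ((kpq * (-b) + kqq * a) * a + kq * X4) ≤ 0)
    (h5 : X1 + X3 = 2 * P * e0q - w1 * b - w2 * a)
    (h6 : X2 + X4 = -(2 * P * e0p - w1 * a - w2 * (-b)))
    (h7 : e0p = -(2 * P * Q)) (h8 : e0q = P ^ 2 - Q ^ 2 - 1) : Q = 0 ∧ P ^ 2 = 1 := by
  have hN : 0 < 1 + P ^ 2 + Q ^ 2 := by positivity
  have e1 : (kpp + kqq) * (a ^ 2 + b ^ 2) + kp * (X1 + X3) + kq * (X2 + X4) ≤ 0 := by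
    have e2 : (kpp + kqq) * (a ^ 2 + b ^ 2) + kp * (X1 + X3) + kq * (X2 + X4) =
        ((kpp * a + kpq * b) * a + kp * X1 + ((kpq * a + kqq * b) * b + kq * X2)) +
        ((kpp * (-b) + kpq * a) * (-b) + kp * X3 + ((kpq * (-b) + kqq * a) * a + kq * X4)) := by
      ring
    rw [e2]
    linarith
  have e3 : kp * (X1 + X3) + kq * (X2 + X4) =
      (1 + P ^ 2 + Q ^ 2) * ((P ^ 2 - 1 - Q ^ 2) / P) ^ 2 + 4 * (1 + P ^ 2 + Q ^ 2) * Q ^ 2 := by
    have e4 : kp * (X1 + X3) + kq * (X2 + X4) = 2 * P * (kp * e0q - kq * e0p) +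
        w1 * (kp * (-b) + kq * a) - w2 * (kp * a + kq * b) := by
      rw [h5, h6]
      ring
    rw [e4, h1, h2, h7, h8, hkp, hkq]
    field_simp
    ring
  have e5 : 0 ≤ (kpp + kqq) * (a ^ 2 + b ^ 2) := by positivity
  have e6 : 0 ≤ (1 + P ^ 2 + Q ^ 2) * ((P ^ 2 - 1 - Q ^ 2) / P) ^ 2 := by positivity
  have e7 : 0 ≤ 4 * (1 + P ^ 2 + Q ^ 2) * Q ^ 2 := by positivity
  have e8 : 4 * (1 + P ^ 2 + Q ^ 2) * Q ^ 2 = 0 := by linarith
  have e9 : (1 + P ^ 2 + Q ^ 2) * ((P ^ 2 - 1 - Q ^ 2) / P) ^ 2 = 0 := by linarith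
  have hQ : Q = 0 := by
    rcases mul_eq_zero.1 e8 with h | h
    · exfalso
      linarith
    · exact pow_eq_zero_iff two_ne_zero |>.1 h
  refine ⟨hQ, ?_⟩
  rcases mul_eq_zero.1 e9 with h | h
  · exfalso
    linarith
  · have h9 := pow_eq_zero_iff two_ne_zero |>.1 h
    rcases div_eq_zero_iff.1 h9 with h10 | h10
    · rw [hQ] at h10
      linarith
    · exact absurd h10 hP

end C4x

open C4x in
theorem thm_C4 : St_C4 := by
  intro B R p q w1 w2 y hB hR hp hq hrel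
  have hE : ∀ a, DifferentiableAt ℝ (bf B R a) y := by
    intro a
    have h1 : ContDiffAt ℝ ∞ (fun z => ∑ j, R z j a • B j z) y :=
      ContDiffAt.sum fun j _ => (hR j a).smul (hB j)
    exact h1.differentiableAt (by simp)
  have hp2 : ContDiffAt ℝ 2 p y := hp.of_le ENat.LEInfty.out
  have hq2 : ContDiffAt ℝ 2 q y := hq.of_le ENat.LEInfty.out
  have hdp : ∀ᶠ z in 𝓝 y, HasFDerivAt p (fderiv ℝ p z) z :=
    (hp2.eventually (by norm_num)).mono fun z hz => (hz.differentiableAt (by norm_num)).hasFDerivAt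
  have hdq : ∀ᶠ z in 𝓝 y, HasFDerivAt q (fderiv ℝ q z) z :=
    (hq2.eventually (by norm_num)).mono fun z hz => (hz.differentiableAt (by norm_num)).hasFDerivAt
  obtain ⟨_, r1, r2, r3, r4, r5⟩ := hrel.self_of_nhds
  have hpy := hdp.self_of_nhds
  have hqy := hdq.self_of_nhds
  constructor
  · intro hp0 hmax
    have hev : ∀ᶠ z in 𝓝 y, p z ≠ 0 := hp.continuousAt.eventually_ne hp0
    have hk : ∀ᶠ z in 𝓝 y, HasFDerivAt (fun z => ((1 + p z ^ 2 + q z ^ 2) / (2 * p z)) ^ 2)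
        (((p z ^ 4 - (1 + q z ^ 2) ^ 2) / (2 * p z ^ 3)) • fderiv ℝ p z +
          ((1 + p z ^ 2 + q z ^ 2) * q z / p z ^ 2) • fderiv ℝ q z) z := by
      filter_upwards [hdp, hdq, hev] with z h1 h2 h3
      exact f_K p q z _ _ h1 h2 h3
    have hKs : ContDiffAt ℝ ∞ (fun z => ((1 + p z ^ 2 + q z ^ 2) / (2 * p z)) ^ 2) y :=
      (((contDiffAt_const.add (hp.pow 2)).add (hq.pow 2)).div (contDiffAt_const.mul hp)
        (mul_ne_zero two_ne_zero hp0)).pow 2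
    have c1 := chain p q _ _ _ y _ _ _ _ hp2 hq2 hk (f_Kp p q y _ _ hpy hqy hp0)
      (f_Kq p q y _ _ hpy hqy hp0) (bf B R 1) (hE 1)
    have c2 := chain p q _ _ _ y _ _ _ _ hp2 hq2 hk (f_Kp p q y _ _ hpy hqy hp0)
      (f_Kq p q y _ _ hpy hqy hp0) (bf B R 2) (hE 2)
    have m1 := maxp _ y hKs hmax (bf B R 1) (hE 1)
    have m2 := maxp _ y hKs hmax (bf B R 2) (hE 2)
    rw [c1.1, c1.2] at m1
    rw [c2.1, c2.2, r3, r4] at m2
    have g1 : Dl (bf B R 1) p =ᶠ[𝓝 y] Dl (bf B R 2) q := by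
      filter_upwards [hrel] with z hz
      exact hz.2.2.2.1.symm
    have g2 : Dl (bf B R 2) p =ᶠ[𝓝 y] fun z => -Dl (bf B R 1) q z := by
      filter_upwards [hrel] with z hz
      exact hz.2.2.2.2.1
    have g3 : Dl (bf B R 1) q =ᶠ[𝓝 y] fun z => -Dl (bf B R 2) p z := by
      filter_upwards [hrel] with z hz
      rw [hz.2.2.2.2.1, neg_neg]
    have s1 : Dl (bf B R 1) (Dl (bf B R 1) p) y = Dl (bf B R 1) (Dl (bf B R 2) q) y := Dl_cong g1
    have s2 : Dl (bf B R 2) (Dl (bf B R 2) p) y = -Dl (bf B R 2) (Dl (bf B R 1) q) y :=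
      (Dl_cong g2).trans Dl_neg'
    have s3 : Dl (bf B R 1) (Dl (bf B R 1) q) y = -Dl (bf B R 1) (Dl (bf B R 2) p) y :=
      (Dl_cong g3).trans Dl_neg'
    have s4 : Dl (bf B R 2) (Dl (bf B R 2) q) y = Dl (bf B R 2) (Dl (bf B R 1) p) y :=
      (Dl_cong g1).symm
    have t1 := comm q y hq2 (bf B R 1) (bf B R 2) (hE 1) (hE 2)
    have t2 := comm p y hp2 (bf B R 1) (bf B R 2) (hE 1) (hE 2)
    rw [r5, Dl_bracket, r3] at t1
    rw [r5, Dl_bracket, r4] at t2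
    refine algebra_a (p y) (q y) (Dl (bf B R 1) p y) (Dl (bf B R 1) q y) _ _
      (Dl (bf B R 1) (Dl (bf B R 1) p) y) (Dl (bf B R 1) (Dl (bf B R 1) q) y)
      (Dl (bf B R 2) (Dl (bf B R 2) p) y) (Dl (bf B R 2) (Dl (bf B R 2) q) y)
      (1 / 2 + 3 * (1 + q y ^ 2) ^ 2 / (2 * p y ^ 4)) (-(2 * (1 + q y ^ 2) * q y / p y ^ 3))
      ((1 + 3 * q y ^ 2) / p y ^ 2 + 1) (w1 y) (w2 y) _ _ hp0 rfl rfl ?_ ?_ m1.1 m2.1 m1.2 m2.2
      ?_ ?_ r1 r2
    · positivity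
    · positivity
    · rw [s1, s2]
      linarith
    · rw [s3, s4]
      linarith
  · intro C hpC hmax
    have hN : ∀ z, 1 + p z ^ 2 + q z ^ 2 ≠ 0 := fun z => by positivity
    have hΨs : ContDiffAt ℝ ∞ (fun z => q z ^ 2 - C * (2 * p z / (1 + p z ^ 2 + q z ^ 2)) ^ 2) y :=
      (hq.pow 2).sub (contDiffAt_const.mul (((contDiffAt_const.mul hp).div
        ((contDiffAt_const.add (hp.pow 2)).add (hq.pow 2)) (hN y)).pow 2))
    have m := maxp _ y hΨs hmax (bf B R 0) (hE 0)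
    have hG : Dl (bf B R 0) (fun z => q z ^ 2 - C * (2 * p z / (1 + p z ^ 2 + q z ^ 2)) ^ 2) =ᶠ[𝓝 y]
        fun z => 2 * q z * (p z ^ 2 - q z ^ 2 - 1) := by
      filter_upwards [hdp, hdq, hrel] with z h1 h2 h3
      obtain ⟨_, u1, u2, _⟩ := h3
      change fderiv ℝ (fun z => q z ^ 2 - C * (2 * p z / (1 + p z ^ 2 + q z ^ 2)) ^ 2) z
        (bf B R 0 z) = _
      rw [(f_Psi p q z _ _ h1 h2 C).fderiv]
      change -(8 * C * p z * (1 + q z ^ 2 - p z ^ 2) / (1 + p z ^ 2 + q z ^ 2) ^ 3) *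
        Dl (bf B R 0) p z + (2 * q z + 16 * C * p z ^ 2 * q z / (1 + p z ^ 2 + q z ^ 2) ^ 3) *
        Dl (bf B R 0) q z = _
      rw [u1, u2]
      have := hN z
      field_simp
      ring
    have hq0 : q y = 0 := by
      have h1 := hG.self_of_nhds
      rw [m.1] at h1
      have h2 : 2 * q y * (p y ^ 2 - q y ^ 2 - 1) = 0 := h1.symm
      rcases mul_eq_zero.1 h2 with h3 | h3
      · linarith
      · exfalso
        nlinarith [sq_nonneg (q y)]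
    have h2 := m.2
    rw [Dl_cong hG] at h2
    have h3 : Dl (bf B R 0) (fun z => 2 * q z * (p z ^ 2 - q z ^ 2 - 1)) y =
        (4 * p y * q y) * Dl (bf B R 0) p y +
          (2 * (p y ^ 2 - 3 * q y ^ 2 - 1)) * Dl (bf B R 0) q y := by
      change fderiv ℝ (fun z => 2 * q z * (p z ^ 2 - q z ^ 2 - 1)) y (bf B R 0 y) = _
      rw [(f_G p q y _ _ hpy hqy).fderiv]
      rfl
    rw [h3, r2, hq0] at h2
    have h4 : (4 * p y * 0) * Dl (bf B R 0) p y +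
        (2 * (p y ^ 2 - 3 * 0 ^ 2 - 1)) * (p y ^ 2 - 0 ^ 2 - 1) = 2 * (p y ^ 2 - 1) ^ 2 := by ring
    rw [h4] at h2
    have h5 : 0 < (1 - p y ^ 2) * (1 - p y ^ 2) := mul_pos (by linarith) (by linarith)
    nlinarith

end Pool.Agent.FUE
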