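import Pool.Agent.FUE.Mf2

/-!
# Fueter sections, part on M: the bracket relation in a chart at every point (helper57)
-/

set_option autoImplicit false

namespace Pool.Agent.FUE

open scoped Manifold ContDiff Topology
open Filter

variable {M : Type} [TopologicalSpace M] [ChartedSpace E3 M] [IsManifold (𝓡 3) ∞ M]

/-- the bracket relation in the chart at `x`, at every point of the target -/
theorem bracket_chart_all (F : Frame M) (x : M) (i j : Fin 3) :
    ∀ y ∈ (extChartAt (𝓡 3) x).target,
      VectorField.lieBracket ℝ (Ech F x i) (Ech F x j) y =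
        ∑ k, F.c i j k ((extChartAt (𝓡 3) x).symm y) • Ech F x k y := by
  intro y hy
  set z : M := (extChartAt (𝓡 3) x).symm y with hz
  have hzx : z ∈ (extChartAt (𝓡 3) x).source := (extChartAt (𝓡 3) x).map_target hy
  let τ : E3 → E3 := fun w => extChartAt (𝓡 3) x ((extChartAt (𝓡 3) z).symm w)
  let U : Set E3 := (extChartAt (𝓡 3) z).target ∩
    (extChartAt (𝓡 3) z).symm ⁻¹' (extChartAt (𝓡 3) x).source
  have hU : IsOpen U :=
    (continuousOn_extChartAt_symm z).isOpen_inter_preimage (chart_target_open z)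
      (chart_source_open x)
  have hτ : ContDiffOn ℝ ∞ τ U := by
    rw [← contMDiffOn_iff_contDiffOn]
    exact (chart_smooth x).comp ((symm_smooth z).mono Set.inter_subset_left) fun w hw => hw.2
  set w0 : E3 := extChartAt (𝓡 3) z z with hw0
  have hzz := mem_extChartAt_source (I := 𝓡 3) z
  have hleft : (extChartAt (𝓡 3) z).symm w0 = z := (extChartAt (𝓡 3) z).left_inv hzz
  have hw0U : w0 ∈ U := by
    refine ⟨mem_extChartAt_target (I := 𝓡 3) z, ?_⟩
    show (extChartAt (𝓡 3) z).symm w0 ∈ (extChartAt (𝓡 3) x).source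
    rw [hleft]
    exact hzx
  have hτ0 : τ w0 = y := by
    show extChartAt (𝓡 3) x ((extChartAt (𝓡 3) z).symm w0) = y
    rw [hleft]
    exact (extChartAt (𝓡 3) x).right_inv hy
  -- the transition of the vector fields
  have htr : ∀ l : Fin 3, ∀ w ∈ U, Dl (Ech F z l) τ w = Ech F x l (τ w) := by
    intro l w hw
    have h1 : MDifferentiableAt (𝓡 3) 𝓘(ℝ, E3) (extChartAt (𝓡 3) x)
        ((extChartAt (𝓡 3) z).symm w) :=
      ((chart_smooth x).contMDiffAt ((chart_source_open x).mem_nhds hw.2)).mdifferentiableAt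
        (by norm_cast)
    have h2 := D_chart' F z l hw.1 h1
    show _ = F.D l (extChartAt (𝓡 3) x) ((extChartAt (𝓡 3) x).symm
      (extChartAt (𝓡 3) x ((extChartAt (𝓡 3) z).symm w)))
    rw [(extChartAt (𝓡 3) x).left_inv hw.2]
    exact h2.symm
  have hdτ : DifferentiableAt ℝ τ w0 :=
    (hτ.contDiffAt (hU.mem_nhds hw0U)).differentiableAt (by norm_cast)
  have hsecond : ∀ l m : Fin 3, Dl (Ech F z l) (Dl (Ech F z m) τ) w0 =
      fderiv ℝ (Ech F x m) y (Ech F x l y) := by
    intro l m
    have h1 : Dl (Ech F z m) τ =ᶠ[𝓝 w0] fun w => Ech F x m (τ w) := by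
      filter_upwards [hU.mem_nhds hw0U] with w hw
      exact htr m w hw
    have h2 : DifferentiableAt ℝ (Ech F x m) (τ w0) := by
      rw [hτ0]
      exact ((Ech_smooth F x m).contDiffAt ((chart_target_open x).mem_nhds hy)).differentiableAt
        (by norm_cast)
    show fderiv ℝ (Dl (Ech F z m) τ) w0 (Ech F z l w0) = _
    rw [h1.fderiv_eq]
    have h3 : fderiv ℝ (fun w => Ech F x m (τ w)) w0 =
        (fderiv ℝ (Ech F x m) (τ w0)).comp (fderiv ℝ τ w0) := fderiv_comp w0 h2 hdτ
    rw [h3, ContinuousLinearMap.comp_apply, hτ0]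
    have h4 : fderiv ℝ τ w0 (Ech F z l w0) = Ech F x l y := by
      have := htr l w0 hw0U
      rw [hτ0] at this
      exact this
    rw [h4]
  have hcomm := Dl_comm hU ((Ech_smooth F z i).mono Set.inter_subset_left)
    ((Ech_smooth F z j).mono Set.inter_subset_left) hτ hw0U
  rw [hsecond, hsecond, bracket_chart F z i j, map_sum] at hcomm
  show fderiv ℝ (Ech F x j) y (Ech F x i y) - fderiv ℝ (Ech F x i) y (Ech F x j y) = _
  rw [hcomm]
  refine Finset.sum_congr rfl fun k _ => ?_
  rw [map_smul]
  congr 1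
  have := htr k w0 hw0U
  rw [hτ0] at this
  exact this

/-- antisymmetry of the structure functions -/
theorem c_skew_b (F : Frame M) (i j k : Fin 3) (x : M) : F.c i j k x = -F.c j i k x := by
  have h1 := F.bracket i j x
  have h2 := F.bracket j i x
  have h3 : VectorField.mlieBracket (𝓡 3) (F.e i) (F.e j) x =
      -VectorField.mlieBracket (𝓡 3) (F.e j) (F.e i) x := by
    rw [VectorField.mlieBracket_swap]
    rfl
  rw [h1, h2, ← Finset.sum_neg_distrib, ← sub_eq_zero, ← Finset.sum_sub_distrib] at h3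
  have h4 : ∑ l, (F.c i j l x + F.c j i l x) • F.e l x = 0 := by
    rw [← h3]
    refine Finset.sum_congr rfl fun l _ => ?_
    rw [add_smul, sub_neg_eq_add]
  have h5 := (Fintype.linearIndependent_iff.1 (F.indep x)) (fun l => F.c i j l x + F.c j i l x) h4 k
  linarith

end Pool.Agent.FUE
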