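import Pool.Agent.FUE.Base

/-!
# Fueter sections, part on M: statements (helper17)

`St_Cpt` (compactness of sequences of local solutions) is the interface to the regularity block.
-/

set_option autoImplicit false

namespace Pool.Agent.FUE

open scoped Manifold ContDiff Topology
open Filter

/-- **[CPT]** Compactness: local Fueter maps for frames `B n` and connections `W n` which converge with all
derivatives, in a bounded region and with locally bounded gradients, subconverge with all derivatives. -/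
def St_Cpt : Prop :=
  ∀ (pr : Profile) (S : ℝ) (U : Set E3), IsOpen U →
  ∀ (B : ℕ → Fin 3 → E3 → E3) (W : ℕ → Fin 3 → E3 → V9) (B' : Fin 3 → E3 → E3) (W' : Fin 3 → E3 → V9)
    (u : ℕ → E3 → V9),
  (∀ j, ContDiffOn ℝ ∞ (B' j) U) → (∀ j, ContDiffOn ℝ ∞ (W' j) U) →
  (∀ x ∈ U, LinearIndependent ℝ fun j => B' j x) →
  (∀ j, CLoc U (fun n => B n j) (B' j)) → (∀ j, CLoc U (fun n => W n j) (W' j)) →
  (∀ x ∈ U, ∃ (r : ℝ) (n₀ : ℕ) (L : ℝ), 0 < r ∧ Metric.ball x r ⊆ U ∧ ∀ n, n₀ ≤ n →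
    LocF pr (Metric.ball x r) (B n) (W n) (u n) ∧
    ∀ y ∈ Metric.ball x r, lam (u n y) ≤ S ∧ ‖fderiv ℝ (u n) y‖ ≤ L) →
  ∃ (φ : ℕ → ℕ) (v : E3 → V9), StrictMono φ ∧ LocF pr U B' W' v ∧ (∀ x ∈ U, lam (v x) ≤ S) ∧
    CLoc U (fun n => u (φ n)) v

/-- **[NOE]** There are no normalised entire solutions. -/
def St_Noe : Prop := ∀ (pr : Profile) (S : ℝ) (u : E3 → V9), ¬ Ent pr S u

/-- **[N3]** Sequences of Fueter sections with bounded first derivatives subconverge in `C^∞`. -/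
def St_N3 : Prop :=
  ∀ (pr : Profile) (M : Type) [TopologicalSpace M] [ChartedSpace E3 M] [IsManifold (𝓡 3) ∞ M]
    [CompactSpace M] [T2Space M] (F : Frame M) (S Λ : ℝ) (u : ℕ → M → V9),
    (∀ n, F.IsFueter pr (u n)) → (∀ n x, lam (u n x) ≤ S) → (∀ n j x, ‖F.D j (u n) x‖ ≤ Λ) →
    ∃ (φ : ℕ → ℕ) (v : M → V9), StrictMono φ ∧ F.IsFueter pr v ∧ F.CInf (fun n => u (φ n)) v

/-- **[N4]** Blow-up: a bounded sequence of Fueter sections without entire solutions has bounded first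
derivatives. -/
def St_N4 : Prop :=
  ∀ (pr : Profile) (M : Type) [TopologicalSpace M] [ChartedSpace E3 M] [IsManifold (𝓡 3) ∞ M]
    [CompactSpace M] [T2Space M] (F : Frame M) (S : ℝ) (u : ℕ → M → V9),
    (∀ n, F.IsFueter pr (u n)) → (∀ n x, lam (u n x) ≤ S) →
    ∃ Λ : ℝ, ∀ n j x, ‖F.D j (u n) x‖ ≤ Λ

/-- **[N5]** A-priori bound for positive Ricci curvature. -/
def St_N5 : Prop :=
  ∀ (pr : Profile) (M : Type) [TopologicalSpace M] [ChartedSpace E3 M] [IsManifold (𝓡 3) ∞ M]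
    [CompactSpace M] [T2Space M] (F : Frame M), F.RicPos →
    ∃ S : ℝ, ∀ u : M → V9, F.IsFueter pr u → ∀ x, lam (u x) ≤ S

end Pool.Agent.FUE
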