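import Pool.Agent.FUE.Mf6
import Pool.Agent.FUE.StM

/-!
# Fueter sections, part on M: the equation in charts, gluing (helper17)
-/

set_option autoImplicit false

namespace Pool.Agent.FUE

open scoped Manifold ContDiff Topology
open Filter

theorem toM_ofM (A : Matrix (Fin 3) (Fin 3) ℝ) : toM (ofM A) = A := by
  ext i j
  simp [toM, ofM]

variable {M : Type} [TopologicalSpace M] [ChartedSpace E3 M] [IsManifold (𝓡 3) ∞ M]

/-- the connection in the chart at `p` -/
noncomputable def Wch (F : Frame M) (p : M) (j : Fin 3) (y : E3) : V9 :=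
  ofM (F.conn j ((extChartAt (𝓡 3) p).symm y))

theorem Wch_smooth (F : Frame M) (p : M) (j : Fin 3) :
    ContDiffOn ℝ ∞ (Wch F p j) (extChartAt (𝓡 3) p).target := by
  rw [contDiffOn_euclidean]
  rintro ⟨k, l⟩
  have h : ∀ a b c : Fin 3, ContDiffOn ℝ ∞ (fun y => F.c a b c ((extChartAt (𝓡 3) p).symm y))
      (extChartAt (𝓡 3) p).target := fun a b c => comp_symm_smooth p (F.smooth_c a b c).contMDiffOn
  show ContDiffOn ℝ ∞ (fun y => (F.c j l k ((extChartAt (𝓡 3) p).symm y) -
    F.c l k j ((extChartAt (𝓡 3) p).symm y) + F.c k j l ((extChartAt (𝓡 3) p).symm y)) / 2) _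
  exact (((h _ _ _).sub (h _ _ _)).add (h _ _ _)).div_const 2

/-- the Fueter equation in a chart -/
theorem locF_chart {pr : Profile} {F : Frame M} {u : M → V9} (hu : F.IsFueter pr u) (p : M) :
    LocF pr (extChartAt (𝓡 3) p).target (Ech F p) (Wch F p) (fun y => u ((extChartAt (𝓡 3) p).symm y)) := by
  refine ⟨comp_symm_smooth p hu.smooth.contMDiffOn, fun y _ => hu.mem _, fun y hy => ?_⟩
  have h1 := hu.eq ((extChartAt (𝓡 3) p).symm y)
  have h2 : ∀ j, F.D j u ((extChartAt (𝓡 3) p).symm y) =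
      fderiv ℝ (fun y => u ((extChartAt (𝓡 3) p).symm y)) y (Ech F p j y) := fun j =>
    D_chart' F p j hy (hu.smooth.mdifferentiable (by norm_cast) _)
  have h3 : (fun j => F.cov j u ((extChartAt (𝓡 3) p).symm y)) = fun j =>
      toM (fderiv ℝ (fun y => u ((extChartAt (𝓡 3) p).symm y)) y (Ech F p j y)) +
        (toM (Wch F p j y) * toM (u ((extChartAt (𝓡 3) p).symm y)) -
          toM (u ((extChartAt (𝓡 3) p).symm y)) * toM (Wch F p j y)) := by
    funext j
    unfold Frame.cov Wch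
    rw [h2 j, toM_ofM]
  rw [h3] at h1
  exact h1

/-- Fueter sections from local solutions -/
theorem fueter_of_chart {pr : Profile} {F : Frame M} {v : M → V9} (hv : ContMDiff (𝓡 3) 𝓘(ℝ, V9) ∞ v)
    (h : ∀ x : M, ∃ p : M, x ∈ (extChartAt (𝓡 3) p).source ∧
      LocF pr (extChartAt (𝓡 3) p).target (Ech F p) (Wch F p) (fun y => v ((extChartAt (𝓡 3) p).symm y))) :
    F.IsFueter pr v := by
  refine ⟨hv, fun x => ?_, fun x => ?_⟩
  · obtain ⟨p, hx, hl⟩ := h x
    have h1 := hl.mem _ ((extChartAt (𝓡 3) p).map_source hx)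
    rwa [(extChartAt (𝓡 3) p).left_inv hx] at h1
  · obtain ⟨p, hx, hl⟩ := h x
    have hy := (extChartAt (𝓡 3) p).map_source hx
    have hleft := (extChartAt (𝓡 3) p).left_inv hx
    have h1 := hl.eq _ hy
    have h2 : ∀ j, F.D j v x =
        fderiv ℝ (fun y => v ((extChartAt (𝓡 3) p).symm y)) (extChartAt (𝓡 3) p x)
          (Ech F p j (extChartAt (𝓡 3) p x)) := by
      intro j
      have := D_chart' F p j hy (hv.mdifferentiable (by norm_cast) _)
      rw [hleft] at this
      exact this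
    have h3 : (fun j => F.cov j v x) = fun j =>
        toM (fderiv ℝ (fun y => v ((extChartAt (𝓡 3) p).symm y)) (extChartAt (𝓡 3) p x)
          (Ech F p j (extChartAt (𝓡 3) p x))) +
        (toM (Wch F p j (extChartAt (𝓡 3) p x)) * toM (v ((extChartAt (𝓡 3) p).symm (extChartAt (𝓡 3) p x))) -
          toM (v ((extChartAt (𝓡 3) p).symm (extChartAt (𝓡 3) p x))) * toM (Wch F p j (extChartAt (𝓡 3) p x))) := by
      funext j
      unfold Frame.cov Wch
      rw [← h2 j, toM_ofM, hleft]
    rw [h3]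
    have h4 : v x = v ((extChartAt (𝓡 3) p).symm (extChartAt (𝓡 3) p x)) := by rw [hleft]
    rw [h4]
    exact h1

/-- convergence to a function which agrees with the limit on the open set -/
theorem cloc_congr {V : Type} [NormedAddCommGroup V] [NormedSpace ℝ V] {U : Set E3} (hU : IsOpen U)
    {f : ℕ → E3 → V} {g g' : E3 → V} (h : CLoc U f g) (hg : ∀ y ∈ U, g y = g' y) : CLoc U f g' := by
  refine ⟨h.1, fun k => (h.2 k).congr_right fun y hy => ?_⟩
  refine (Filter.EventuallyEq.iteratedFDeriv ℝ ?_ k).self_of_nhds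
  filter_upwards [hU.mem_nhds hy] with z hz
  exact hg z hz

theorem cloc_subseq {V : Type} [NormedAddCommGroup V] [NormedSpace ℝ V] {U : Set E3}
    {f : ℕ → E3 → V} {g : E3 → V} (h : CLoc U f g) {φ : ℕ → ℕ} (hφ : StrictMono φ) :
    CLoc U (fun n => f (φ n)) g := by
  refine ⟨fun K hK hKU => hφ.tendsto_atTop.eventually (h.1 K hK hKU), fun k => ?_⟩
  intro s hs x hx
  obtain ⟨t, ht, hev⟩ := h.2 k s hs x hx
  exact ⟨t, ht, hφ.tendsto_atTop.eventually hev⟩

theorem cloc_tendsto {V : Type} [NormedAddCommGroup V] [NormedSpace ℝ V] {U : Set E3} (hU : IsOpen U)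
    {f : ℕ → E3 → V} {g : E3 → V} (h : CLoc U f g) {y : E3} (hy : y ∈ U) :
    Tendsto (fun n => f n y) atTop (𝓝 (g y)) :=
  (cloc_zero hU h (isCompact_singleton (x := y)) (Set.singleton_subset_iff.2 hy)).tendsto_at
    (Set.mem_singleton y)

end Pool.Agent.FUE
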