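import Pool.Agent.FUE.StC
import Pool.Agent.FUE.Mf7
import Pool.Agent.FUE.Bca

/-!
# FUE C5: the functions pg, mg on a manifold of curvature one (helper41)
-/

set_option autoImplicit false

open scoped Manifold ContDiff Matrix Topology
open MeasureTheory Filter

namespace Pool.Agent.FUE

namespace C5x

/-- `pg` of a point and three covariant derivatives -/
noncomputable def pgl (P : Matrix (Fin 3) (Fin 3) ℝ) (H : Fin 3 → Matrix (Fin 3) (Fin 3) ℝ) : ℝ :=
  -(1 / 8) * ∑ j, ∑ n, ∑ k, eps j n k * (P * H n) j k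

/-- `mg` of three covariant derivatives -/
noncomputable def mgl (H : Fin 3 → Matrix (Fin 3) (Fin 3) ℝ) : ℝ :=
  (1 / 16) * ∑ n, ∑ i, ∑ j, (H n i j) ^ 2

/-- the body matrices of the covariant derivatives -/
noncomputable def Nm (R : Matrix (Fin 3) (Fin 3) ℝ) (p q : ℝ) (n : Fin 3) :
    Matrix (Fin 3) (Fin 3) ℝ :=
  R n 1 • (p • Tb 0 2 + q • Tb 0 3) + R n 2 • (-q • Tb 0 2 + p • Tb 0 3)

theorem Nm_eq (R : Matrix (Fin 3) (Fin 3) ℝ) (p q : ℝ) (n : Fin 3) :
    Nm R p q n = !![0, 2 * (q * R n 1 + p * R n 2), -2 * (p * R n 1 - q * R n 2);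
      2 * (q * R n 1 + p * R n 2), 0, 0; -2 * (p * R n 1 - q * R n 2), 0, 0] := by
  ext i j
  fin_cases i <;> fin_cases j <;> simp [Nm, Tb] <;> ring

theorem Dg0 : Dg 0 = !![2, 0, 0; 0, 0, 0; 0, 0, 0] := by
  ext i j
  fin_cases i <;> fin_cases j <;> simp [Dg]

theorem rot_r {R : Matrix (Fin 3) (Fin 3) ℝ} (hR : IsRot R) : R * Rᵀ = 1 :=
  mul_eq_one_comm.1 hR.1

theorem row1 {R : Matrix (Fin 3) (Fin 3) ℝ} (hR : IsRot R) (m : Fin 3) :
    R 0 m ^ 2 + R 1 m ^ 2 + R 2 m ^ 2 = 1 := by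
  have h := congrFun (congrFun hR.1 m) m
  rw [Matrix.mul_apply, Fin.sum_univ_three] at h
  simp only [Matrix.transpose_apply, Matrix.one_apply_eq] at h
  linarith

theorem pgl_eq {R : Matrix (Fin 3) (Fin 3) ℝ} (hR : IsRot R) (p q : ℝ) :
    pgl (R * Dg 0 * Rᵀ) (fun n => R * Nm R p q n * Rᵀ) = p := by
  have h1 : ∀ n, R * Dg 0 * Rᵀ * (R * Nm R p q n * Rᵀ) = R * (Dg 0 * Nm R p q n) * Rᵀ := by
    intro n
    calc R * Dg 0 * Rᵀ * (R * Nm R p q n * Rᵀ) = R * Dg 0 * (Rᵀ * R) * Nm R p q n * Rᵀ := by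
          simp only [Matrix.mul_assoc]
      _ = R * (Dg 0 * Nm R p q n) * Rᵀ := by
          rw [hR.1]
          simp only [Matrix.mul_assoc, Matrix.one_mul]
  have h2 : ∀ n j k, (R * (Dg 0 * Nm R p q n) * Rᵀ) j k =
      R j 0 * (4 * (q * R n 1 + p * R n 2) * R k 1 - 4 * (p * R n 1 - q * R n 2) * R k 2) := by
    intro n j k
    rw [Nm_eq, Dg0]
    simp only [Matrix.mul_apply, Fin.sum_univ_three, Matrix.transpose_apply, Matrix.of_apply,
      Matrix.cons_val_zero, Matrix.cons_val_one, Matrix.cons_val, Matrix.cons_val', Matrix.cons_val_fin_one]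
    ring
  have hdet := hR.2
  rw [Matrix.det_fin_three] at hdet
  unfold pgl
  simp only [h1, h2]
  simp only [Fin.sum_univ_three, eps, Fin.reduceEq, Fin.isValue, Fin.reduceAdd, and_self,
    if_true, if_false, and_true, true_and, and_false, false_and, zero_add]
  linear_combination p * hdet

theorem frob (N : Matrix (Fin 3) (Fin 3) ℝ) : ∑ i, ∑ j, N i j ^ 2 = (N * Nᵀ).trace := by
  simp only [Matrix.trace, Matrix.diag, Matrix.mul_apply, Matrix.transpose_apply, pow_two]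

theorem frob_rot {R : Matrix (Fin 3) (Fin 3) ℝ} (hR : IsRot R) (N : Matrix (Fin 3) (Fin 3) ℝ) :
    ∑ i, ∑ j, (R * N * Rᵀ) i j ^ 2 = ∑ i, ∑ j, N i j ^ 2 := by
  rw [frob, frob]
  have h1 : R * N * Rᵀ * (R * N * Rᵀ)ᵀ = R * (N * Nᵀ * Rᵀ) := by
    rw [Matrix.transpose_mul, Matrix.transpose_mul, Matrix.transpose_transpose]
    calc R * N * Rᵀ * (R * (Nᵀ * Rᵀ)) = R * N * (Rᵀ * R) * (Nᵀ * Rᵀ) := by
          simp only [Matrix.mul_assoc]
      _ = R * (N * Nᵀ * Rᵀ) := by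
          rw [hR.1]
          simp only [Matrix.mul_assoc, Matrix.one_mul]
  rw [h1, Matrix.trace_mul_comm, Matrix.mul_assoc, hR.1, Matrix.mul_one]

theorem mgl_eq {R : Matrix (Fin 3) (Fin 3) ℝ} (hR : IsRot R) (p q : ℝ) :
    mgl (fun n => R * Nm R p q n * Rᵀ) = p ^ 2 + q ^ 2 := by
  unfold mgl
  simp only [frob_rot hR]
  have h1 : ∀ n, ∑ i, ∑ j, Nm R p q n i j ^ 2 = 8 * ((p ^ 2 + q ^ 2) * (R n 1 ^ 2 + R n 2 ^ 2)) := by
    intro n
    rw [Nm_eq]
    simp only [Fin.sum_univ_three, Matrix.of_apply,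
      Matrix.cons_val_zero, Matrix.cons_val_one, Matrix.cons_val, Matrix.cons_val', Matrix.cons_val_fin_one]
    ring
  rw [Fin.sum_univ_three, h1, h1, h1]
  linear_combination (1 / 2 * (p ^ 2 + q ^ 2)) * row1 hR 1 + (1 / 2 * (p ^ 2 + q ^ 2)) * row1 hR 2

/-- cofactors of a rotation -/
theorem cof {R : Matrix (Fin 3) (Fin 3) ℝ} (hR : IsRot R) : R.adjugate = Rᵀ := by
  calc R.adjugate = (Rᵀ * R) * R.adjugate := by rw [hR.1, Matrix.one_mul]
    _ = Rᵀ * (R * R.adjugate) := by rw [Matrix.mul_assoc]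
    _ = Rᵀ := by rw [Matrix.mul_adjugate, hR.2, one_smul, Matrix.mul_one]

theorem hat_rot {R : Matrix (Fin 3) (Fin 3) ℝ} (hR : IsRot R) (j : Fin 3) :
    hat (Pi.single j 1) * R = R * hat (fun m => R j m) := by
  have h := cof hR
  rw [Matrix.adjugate_fin_three] at h
  have h00 := congrFun (congrFun h 0) 0
  have h01 := congrFun (congrFun h 0) 1
  have h02 := congrFun (congrFun h 0) 2
  have h10 := congrFun (congrFun h 1) 0
  have h11 := congrFun (congrFun h 1) 1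
  have h12 := congrFun (congrFun h 1) 2
  have h20 := congrFun (congrFun h 2) 0
  have h21 := congrFun (congrFun h 2) 1
  have h22 := congrFun (congrFun h 2) 2
  simp only [Matrix.transpose_apply, Matrix.of_apply, Matrix.cons_val_zero, Matrix.cons_val_one,
    Matrix.cons_val, Matrix.cons_val', Matrix.cons_val_fin_one] at h00 h01 h02 h10 h11 h12 h20 h21 h22
  ext i k
  fin_cases j <;> fin_cases i <;> fin_cases k <;>
    simp [hat, Matrix.mul_apply, Fin.sum_univ_three, Pi.single_apply] <;> linarith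

theorem brk {R : Matrix (Fin 3) (Fin 3) ℝ} (hR : IsRot R) (j : Fin 3) :
    hat (Pi.single j 1) * (R * Dg 0 * Rᵀ) - (R * Dg 0 * Rᵀ) * hat (Pi.single j 1) =
      R * (R j 1 • Tb 0 2 + R j 2 • Tb 0 3) * Rᵀ := by
  have h1 := hat_rot hR j
  have h2 : Rᵀ * hat (Pi.single j 1) = hat (fun m => R j m) * Rᵀ := by
    calc Rᵀ * hat (Pi.single j 1) = Rᵀ * (hat (Pi.single j 1) * R) * Rᵀ := by
          rw [Matrix.mul_assoc, Matrix.mul_assoc, rot_r hR, Matrix.mul_one]
      _ = hat (fun m => R j m) * Rᵀ := by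
          rw [h1, ← Matrix.mul_assoc, hR.1, Matrix.one_mul]
  have h3 : hat (fun m => R j m) * Dg 0 - Dg 0 * hat (fun m => R j m) =
      R j 1 • Tb 0 2 + R j 2 • Tb 0 3 := by
    rw [Dg0]
    ext i k
    fin_cases i <;> fin_cases k <;>
      simp [hat, Tb, Matrix.mul_apply, Fin.sum_univ_three] <;> ring
  rw [← h3]
  calc hat (Pi.single j 1) * (R * Dg 0 * Rᵀ) - (R * Dg 0 * Rᵀ) * hat (Pi.single j 1) =
      (hat (Pi.single j 1) * R) * Dg 0 * Rᵀ - R * Dg 0 * (Rᵀ * hat (Pi.single j 1)) := by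
        simp only [Matrix.mul_assoc]
    _ = R * (hat (fun m => R j m) * Dg 0 - Dg 0 * hat (fun m => R j m)) * Rᵀ := by
        rw [h1, h2, Matrix.mul_sub, Matrix.sub_mul]
        simp only [Matrix.mul_assoc]

section manifold

variable {M : Type} [TopologicalSpace M] [ChartedSpace E3 M] [IsManifold (𝓡 3) ∞ M]

theorem pg_eq (F : Frame M) (u : M → V9) (x : M) :
    F.pg u x = pgl (toM (u x)) (fun n => F.cov n u x) := rfl

theorem mg_eq (F : Frame M) (u : M → V9) (x : M) : F.mg u x = mgl (fun n => F.cov n u x) := rfl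

theorem toM_cont {u : M → V9} (hu : Continuous u) (i j : Fin 3) :
    Continuous fun x => toM (u x) i j :=
  (EuclideanSpace.proj (i, j) : V9 →L[ℝ] ℝ).continuous.comp hu

theorem conn_cont (F : Frame M) (j k l : Fin 3) : Continuous fun y => F.conn j y k l :=
  (((F.smooth_c j l k).continuous.sub (F.smooth_c l k j).continuous).add
    (F.smooth_c k j l).continuous).div_const 2

theorem cov_cont (F : Frame M) {u : M → V9} (hu : ContMDiff (𝓡 3) 𝓘(ℝ, V9) ∞ u) (n i j : Fin 3) :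
    Continuous fun x => F.cov n u x i j := by
  have h : (fun x => F.cov n u x i j) = fun x => toM (F.D n u x) i j +
      ((∑ m, F.conn n x i m * toM (u x) m j) - ∑ m, toM (u x) i m * F.conn n x m j) := by
    funext x
    simp only [Frame.cov, Matrix.add_apply, Matrix.sub_apply, Matrix.mul_apply]
  rw [h]
  refine Continuous.add (toM_cont (D_smooth F n hu).continuous i j) (Continuous.sub ?_ ?_)
  · exact continuous_finsetSum _ fun m _ => (conn_cont F n i m).mul (toM_cont hu.continuous m j)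
  · exact continuous_finsetSum _ fun m _ => (toM_cont hu.continuous i m).mul (conn_cont F n m j)

theorem pg_cont (F : Frame M) {u : M → V9} (hu : ContMDiff (𝓡 3) 𝓘(ℝ, V9) ∞ u) :
    Continuous (F.pg u) := by
  have h : F.pg u = fun x => -(1 / 8) * ∑ j, ∑ n, ∑ k, eps j n k *
      ∑ m, toM (u x) j m * F.cov n u x m k := by
    funext x
    simp only [Frame.pg, Matrix.mul_apply]
  rw [h]
  refine continuous_const.mul (continuous_finsetSum _ fun j _ => continuous_finsetSum _ fun n _ =>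
    continuous_finsetSum _ fun k _ => continuous_const.mul (continuous_finsetSum _ fun m _ => ?_))
  exact (toM_cont hu.continuous j m).mul (cov_cont F hu n m k)

theorem mg_cont (F : Frame M) {u : M → V9} (hu : ContMDiff (𝓡 3) 𝓘(ℝ, V9) ∞ u) :
    Continuous (F.mg u) := by
  refine continuous_const.mul (continuous_finsetSum _ fun n _ => continuous_finsetSum _ fun i _ =>
    continuous_finsetSum _ fun j _ => (cov_cont F hu n i j).pow 2)

/-- the local data at `x` -/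
theorem loc (hBr : ∀ (F : Frame M) (x : M) (i j : Fin 3), ∀ y ∈ (extChartAt (𝓡 3) x).target,
      VectorField.lieBracket ℝ (Ech F x i) (Ech F x j) y =
        ∑ k, F.c i j k ((extChartAt (𝓡 3) x).symm y) • Ech F x k y)
    (hC1 : St_C1) (hC3 : St_C3) (pr : Profile) (F : Frame M) (hF : F.Round) (u : M → V9)
    (hu : F.IsFueter pr u) (h0 : ∀ x, tt (u x) = 0) (x : M) :
    ∃ (R : E3 → Matrix (Fin 3) (Fin 3) ℝ) (p q w1 w2 : E3 → ℝ),
      (∀ i j, ContDiffAt ℝ ∞ (fun z => R z i j) (extChartAt (𝓡 3) x x)) ∧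
      ContDiffAt ℝ ∞ p (extChartAt (𝓡 3) x x) ∧ ContDiffAt ℝ ∞ q (extChartAt (𝓡 3) x x) ∧
      ∀ᶠ z in 𝓝 (extChartAt (𝓡 3) x x), Rel (Ech F x) R p q w1 w2 z ∧
        F.pg u ((extChartAt (𝓡 3) x).symm z) = p z ∧
        F.mg u ((extChartAt (𝓡 3) x).symm z) = p z ^ 2 + q z ^ 2 ∧
        toM (u ((extChartAt (𝓡 3) x).symm z)) = R z * Dg 0 * (R z)ᵀ ∧
        ∀ j, F.cov j u ((extChartAt (𝓡 3) x).symm z) = R z * Nm (R z) (p z) (q z) j * (R z)ᵀ := by
  have hW : Wch F x = fun i _ => ofM (hat (Pi.single i 1)) := by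
    funext i z
    unfold Wch
    rw [(hC1 M F hF).1]
  have hloc := locF_chart hu x
  rw [hW] at hloc
  obtain ⟨R, p, q, w1, w2, hR, hp, hq, hev⟩ := hC3 pr (extChartAt (𝓡 3) x).target (Ech F x)
    (fun y => u ((extChartAt (𝓡 3) x).symm y)) (extChartAt (𝓡 3) x x) (chart_target_open x)
    (mem_extChartAt_target (I := 𝓡 3) x) (fun i => Ech_smooth F x i) (by
      intro i j z hz
      rw [hBr F x i j z hz]
      refine Finset.sum_congr rfl fun k _ => ?_
      rw [hF]) hloc (fun z _ => h0 _)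
  refine ⟨R, p, q, w1, w2, hR, hp, hq, ?_⟩
  filter_upwards [hev, (chart_target_open x).mem_nhds (mem_extChartAt_target (I := 𝓡 3) x)]
    with z hz hzt
  obtain ⟨e1, e2, e3⟩ := hz
  have hcov : ∀ j, F.cov j u ((extChartAt (𝓡 3) x).symm z) =
      R z * Nm (R z) (p z) (q z) j * (R z)ᵀ := by
    intro j
    have h1 := e3 j
    have h2 : F.D j u ((extChartAt (𝓡 3) x).symm z) =
        fderiv ℝ (fun y => u ((extChartAt (𝓡 3) x).symm y)) z (Ech F x j z) :=
      D_chart' F x j hzt (hu.smooth.mdifferentiable (by norm_cast) _)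
    unfold Frame.cov Nm
    rw [h2, (hC1 M F hF).1]
    exact h1
  have hRz : IsRot (R z) := e2.1
  refine ⟨e2, ?_, ?_, e1, hcov⟩
  · rw [pg_eq]
    simp only [hcov]
    rw [e1]
    exact pgl_eq hRz _ _
  · rw [mg_eq]
    simp only [hcov]
    exact mgl_eq hRz _ _

theorem lm {f : M → ℝ} {x : M} (h : IsLocalMax f x) {g : E3 → ℝ}
    (hg : ∀ᶠ z in 𝓝 (extChartAt (𝓡 3) x x), f ((extChartAt (𝓡 3) x).symm z) = g z) :
    IsLocalMax g (extChartAt (𝓡 3) x x) := by
  have hleft := (extChartAt (𝓡 3) x).left_inv (mem_extChartAt_source (I := 𝓡 3) x)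
  have hc : Tendsto (extChartAt (𝓡 3) x).symm (𝓝 (extChartAt (𝓡 3) x x)) (𝓝 x) := by
    have h1 := continuousAt_extChartAt_symm (I := 𝓡 3) x
    unfold ContinuousAt at h1
    rwa [hleft] at h1
  have h2 := hc.eventually h
  have h3 := hg.self_of_nhds
  rw [hleft] at h3
  filter_upwards [h2, hg] with z h4 h5
  rw [← h5, ← h3]
  exact h4

end manifold

end C5x

open C5x in
theorem thm_C5 (hC1 : St_C1) (hC3 : St_C3) (hC4 : St_C4) : St_C5 := by
  intro pr M _ _ _ F hF u hu h0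
  have hbr : ∀ (F : Frame M) (x : M) (i j : Fin 3), ∀ y ∈ (extChartAt (𝓡 3) x).target,
      VectorField.lieBracket ℝ (Ech F x i) (Ech F x j) y =
        ∑ k, F.c i j k ((extChartAt (𝓡 3) x).symm y) • Ech F x k y :=
    fun F x i j => bracket_chart_all F x i j
  have hleft : ∀ x : M, (extChartAt (𝓡 3) x).symm (extChartAt (𝓡 3) x x) = x := fun x =>
    (extChartAt (𝓡 3) x).left_inv (mem_extChartAt_source (I := 𝓡 3) x)
  have hB : ∀ (x : M) (i : Fin 3), ContDiffAt ℝ ∞ (Ech F x i) (extChartAt (𝓡 3) x x) :=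
    fun x i => (Ech_smooth F x i).contDiffAt
      ((chart_target_open x).mem_nhds (mem_extChartAt_target (I := 𝓡 3) x))
  refine ⟨pg_cont F hu.smooth, mg_cont F hu.smooth, ?_, ?_, ?_, ?_⟩
  · intro x
    obtain ⟨R, p, q, w1, w2, -, -, -, hev⟩ := loc hbr hC1 hC3 pr F hF u hu h0 x
    obtain ⟨-, e1, e2, -⟩ := hev.self_of_nhds
    rw [hleft] at e1 e2
    rw [e1, e2]
    nlinarith [sq_nonneg (q (extChartAt (𝓡 3) x x))]
  · intro x hx hmax
    obtain ⟨R, p, q, w1, w2, hR, hp, hq, hev⟩ := loc hbr hC1 hC3 pr F hF u hu h0 x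
    obtain ⟨-, e1, e2, -⟩ := hev.self_of_nhds
    rw [hleft] at e1 e2
    have h1 : IsLocalMax (fun z => ((1 + p z ^ 2 + q z ^ 2) / (2 * p z)) ^ 2)
        (extChartAt (𝓡 3) x x) := by
      refine lm hmax ?_
      filter_upwards [hev] with z hz
      rw [hz.2.1, hz.2.2.1]
      ring
    obtain ⟨h2, h3⟩ := (hC4 (Ech F x) R p q w1 w2 (extChartAt (𝓡 3) x x) (hB x) hR hp hq
      (hev.mono fun z hz => hz.1)).1 (by rw [← e1]; exact hx) h1
    rw [e1, e2, h2, h3]
    norm_num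
  · intro C x hx hmax
    obtain ⟨R, p, q, w1, w2, hR, hp, hq, hev⟩ := loc hbr hC1 hC3 pr F hF u hu h0 x
    obtain ⟨-, e1, e2, -⟩ := hev.self_of_nhds
    rw [hleft] at e1 e2
    refine (hC4 (Ech F x) R p q w1 w2 (extChartAt (𝓡 3) x x) (hB x) hR hp hq
      (hev.mono fun z hz => hz.1)).2 C (by rw [← e1]; exact hx) ?_
    refine lm hmax ?_
    filter_upwards [hev] with z hz
    rw [hz.2.1, hz.2.2.1]
    ring
  · intro x hx j
    obtain ⟨R, p, q, w1, w2, -, -, -, hev⟩ := loc hbr hC1 hC3 pr F hF u hu h0 x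
    obtain ⟨e0, e1, e2, e3, e4⟩ := hev.self_of_nhds
    have e5 := e4 j
    rw [hleft] at e1 e2 e3 e5
    have hq0 : q (extChartAt (𝓡 3) x x) = 0 := by
      rw [e1, e2] at hx
      have h1 : q (extChartAt (𝓡 3) x x) ^ 2 = 0 := by linarith
      exact pow_eq_zero_iff (two_ne_zero) |>.1 h1
    rw [e5, e1, e3, brk e0.1 j, hq0]
    unfold Nm
    rw [neg_zero, zero_smul, zero_smul, add_zero, zero_add, smul_comm _ (p _), smul_comm _ (p _),
      ← smul_add, Matrix.mul_smul, Matrix.smul_mul]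

end Pool.Agent.FUE
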