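import Pool.Agent.FUE.StC

/-!
# Fueter sections: C6, the classification over the round three-sphere

With `mg`, `pg` of block C: the maximum principles of `St_C5` give `pg ≠ 0`, then
`pg ^ 2 = mg = 1`, and `pg` is constant on the connected `M`.
-/

set_option autoImplicit false

open scoped Manifold ContDiff Matrix
open MeasureTheory

namespace Pool.Agent.FUE

namespace C6x

variable {M : Type} [TopologicalSpace M]

/-- first step: `p` does not vanish -/
theorem ne_zero [CompactSpace M] (p m : M → ℝ) (hp : Continuous p)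
    (hm : Continuous m) (hpm : ∀ x, p x ^ 2 ≤ m x)
    (h : ∀ (C : ℝ) (x : M), p x ^ 2 < 1 → ¬ IsLocalMax (fun z => m z - p z ^ 2 -
      C * (2 * p z / (1 + m z)) ^ 2) x) (z : M) : p z ≠ 0 := by
  intro hz
  have hm0 : ∀ x, 0 ≤ m x := fun x => le_trans (sq_nonneg _) (hpm x)
  have : Nonempty M := ⟨z⟩
  obtain ⟨xm, -, hxm⟩ := isCompact_univ.exists_isMaxOn Set.univ_nonempty hm.continuousOn
  have hQ : ∀ x, m x ≤ m xm := fun x => hxm (Set.mem_univ x)
  set Q := m xm with hQdef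
  have hQ0 : 0 ≤ Q := hm0 xm
  have hf : Continuous (fun y => m y - p y ^ 2 - (1 + Q) ^ 3 * (2 * p y / (1 + m y)) ^ 2) := by
    refine (hm.sub (hp.pow 2)).sub (continuous_const.mul (Continuous.pow ?_ 2))
    exact (continuous_const.mul hp).div (continuous_const.add hm)
      (fun y => ne_of_gt (by have := hm0 y; linarith))
  obtain ⟨x, -, hx⟩ := isCompact_univ.exists_isMaxOn Set.univ_nonempty hf.continuousOn
  have hxl : IsLocalMax (fun y => m y - p y ^ 2 - (1 + Q) ^ 3 * (2 * p y / (1 + m y)) ^ 2) x :=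
    Filter.Eventually.of_forall (fun y => hx (Set.mem_univ y))
  refine h ((1 + Q) ^ 3) x ?_ hxl
  have h1 : m z - p z ^ 2 - (1 + Q) ^ 3 * (2 * p z / (1 + m z)) ^ 2 ≤
      m x - p x ^ 2 - (1 + Q) ^ 3 * (2 * p x / (1 + m x)) ^ 2 := hx (Set.mem_univ z)
  rw [hz] at h1
  have h2 : (1 + Q) ^ 3 * (2 * p x / (1 + m x)) ^ 2 ≤ Q := by
    have := hm0 z
    have := hQ x
    have := sq_nonneg (p x)
    have h3 : m z ≤ m x - p x ^ 2 - (1 + Q) ^ 3 * (2 * p x / (1 + m x)) ^ 2 := by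
      simpa using h1
    linarith
  have hmx : 0 < 1 + m x := by have := hm0 x; linarith
  have h4 : (2 * p x / (1 + m x)) ^ 2 * (1 + m x) ^ 2 = 4 * p x ^ 2 := by
    field_simp
    ring
  have h5 : (1 + m x) ^ 2 ≤ (1 + Q) ^ 2 := by
    have := hQ x
    exact pow_le_pow_left₀ hmx.le (by linarith) 2
  have h6 : (1 + Q) ^ 3 * (4 * p x ^ 2) ≤ Q * (1 + Q) ^ 2 := by
    rw [← h4]
    calc (1 + Q) ^ 3 * ((2 * p x / (1 + m x)) ^ 2 * (1 + m x) ^ 2)
        = ((1 + Q) ^ 3 * (2 * p x / (1 + m x)) ^ 2) * (1 + m x) ^ 2 := by ring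
      _ ≤ Q * (1 + m x) ^ 2 := mul_le_mul_of_nonneg_right h2 (sq_nonneg _)
      _ ≤ Q * (1 + Q) ^ 2 := mul_le_mul_of_nonneg_left h5 hQ0
  have h7 : (1 + Q) * (4 * p x ^ 2) ≤ Q := by
    have hQ2 : 0 < (1 + Q) ^ 2 := by positivity
    have : ((1 + Q) * (4 * p x ^ 2)) * (1 + Q) ^ 2 ≤ Q * (1 + Q) ^ 2 := by
      calc ((1 + Q) * (4 * p x ^ 2)) * (1 + Q) ^ 2 = (1 + Q) ^ 3 * (4 * p x ^ 2) := by ring
        _ ≤ _ := h6
    exact le_of_mul_le_mul_right this hQ2
  by_contra hcon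
  push Not at hcon
  nlinarith [mul_nonneg hQ0 (sub_nonneg.2 hcon)]

/-- second step: `p ^ 2 = m = 1` -/
theorem eq_one [CompactSpace M] (p m : M → ℝ) (hp : Continuous p)
    (hm : Continuous m) (hpm : ∀ x, p x ^ 2 ≤ m x) (hp0 : ∀ x, p x ≠ 0)
    (h : ∀ x, p x ≠ 0 → IsLocalMax (fun z => ((1 + m z) / (2 * p z)) ^ 2) x →
      m x = 1 ∧ p x ^ 2 = 1) (z : M) : m z = 1 ∧ p z ^ 2 = 1 := by
  have : Nonempty M := ⟨z⟩
  have hm0 : ∀ x, 0 ≤ m x := fun x => le_trans (sq_nonneg _) (hpm x)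
  have hf : Continuous (fun y => ((1 + m y) / (2 * p y)) ^ 2) :=
    Continuous.pow ((continuous_const.add hm).div (continuous_const.mul hp)
      (fun y => mul_ne_zero two_ne_zero (hp0 y))) 2
  obtain ⟨x, -, hx⟩ := isCompact_univ.exists_isMaxOn Set.univ_nonempty hf.continuousOn
  have hxl : IsLocalMax (fun y => ((1 + m y) / (2 * p y)) ^ 2) x :=
    Filter.Eventually.of_forall (fun y => hx (Set.mem_univ y))
  obtain ⟨hx1, hx2⟩ := h x (hp0 x) hxl
  have h1 : ((1 + m z) / (2 * p z)) ^ 2 ≤ ((1 + m x) / (2 * p x)) ^ 2 := hx (Set.mem_univ z)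
  have h2 : ((1 + m x) / (2 * p x)) ^ 2 = 1 := by
    rw [div_pow, mul_pow, hx1, hx2]
    norm_num
  rw [h2, div_pow, div_le_one (by have := hp0 z; positivity)] at h1
  have h3 := hpm z
  have h4 := hm0 z
  have h5 : (1 + p z ^ 2) ^ 2 ≤ (1 + m z) ^ 2 :=
    pow_le_pow_left₀ (by positivity) (by linarith) 2
  have h6 : (1 - p z ^ 2) ^ 2 ≤ 0 := by nlinarith
  have h7 : p z ^ 2 = 1 := by
    have : (1 - p z ^ 2) = 0 := pow_eq_zero_iff (two_ne_zero) |>.1 (le_antisymm h6 (sq_nonneg _))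
    linarith
  refine ⟨?_, h7⟩
  have h8 : (1 + m z) ^ 2 ≤ 2 ^ 2 := by nlinarith
  have h9 : 1 + m z ≤ 2 := by nlinarith
  rw [h7] at h3
  linarith

/-- a continuous function with square one on a preconnected space is constant -/
theorem const_sign [PreconnectedSpace M] (p : M → ℝ) (hp : Continuous p)
    (h : ∀ x, p x ^ 2 = 1) : (∀ x, p x = 1) ∨ ∀ x, p x = -1 := by
  have h1 : ∀ x, p x = 1 ∨ p x = -1 := fun x => mul_self_eq_one_iff.1 (by rw [← sq]; exact h x)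
  by_contra hcon
  push Not at hcon
  obtain ⟨⟨x, hx⟩, ⟨y, hy⟩⟩ := hcon
  have hx' : p x = -1 := (h1 x).resolve_left hx
  have hy' : p y = 1 := (h1 y).resolve_right hy
  have h0 : (0 : ℝ) ∈ Set.Icc (p x) (p y) := by
    rw [hx', hy']
    constructor <;> norm_num
  obtain ⟨z, hz⟩ := mem_range_of_exists_le_of_exists_ge hp ⟨x, h0.1⟩ ⟨y, h0.2⟩
  have := h z
  rw [hz] at this
  norm_num at this

end C6x

theorem thm_C6 (hC1 : St_C1) (hC2 : St_C2) (hC5 : St_C5) : St_C6 := by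
  intro pr M _ _ _ _ _ F hF u hu
  obtain ⟨hp, hm, hpm, hK, hC, hcov⟩ := hC5 pr M F hF u hu (hC2 pr M F hF u hu)
  have hp0 := C6x.ne_zero (F.pg u) (F.mg u) hp hm hpm hC
  have h1 := C6x.eq_one (F.pg u) (F.mg u) hp hm hpm hp0 hK
  have hconn := (hC1 M F hF).1
  have hD : ∀ i x, toM (F.D i u x) =
      (F.pg u x - 1) • (F.conn i x * toM (u x) - toM (u x) * F.conn i x) := by
    intro i x
    have h2 := hcov x ((h1 x).1.trans (h1 x).2.symm) i
    rw [← hconn i x] at h2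
    unfold Frame.cov at h2
    rw [sub_smul, one_smul, ← h2]
    abel
  rcases C6x.const_sign (F.pg u) hp (fun x => (h1 x).2) with h | h
  · left
    intro i x
    rw [hD, h, sub_self, zero_smul]
  · right
    intro i x
    rw [hD, h]
    norm_num

end Pool.Agent.FUE
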