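import Pool.Agent.FUE.StX
import Pool.Agent.FUE.H03

/-!
# FUE/X2 (helper82): the Laplacian of the distance to the bolt, with connection and curvature terms
-/

set_option autoImplicit false
set_option linter.unusedVariables false
set_option linter.unusedSimpArgs false

open scoped Manifold ContDiff Matrix
open MeasureTheory

namespace Pool.Agent.FUE.X2x

open A09x H03x

/-- the derivative of the entries of `R` along `B j` -/
noncomputable def Rb (B : Fin 3 → E3 → E3) (R : E3 → Matrix (Fin 3) (Fin 3) ℝ) (j : Fin 3)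
    (y : E3) : Matrix (Fin 3) (Fin 3) ℝ :=
  Matrix.of fun i l => fderiv ℝ (fun z => R z i l) y (B j y)

/-- the covariant angular velocity -/
noncomputable def Ob (B : Fin 3 → E3 → E3) (W : Fin 3 → E3 → Matrix (Fin 3) (Fin 3) ℝ)
    (R : E3 → Matrix (Fin 3) (Fin 3) ℝ) (j : Fin 3) (y : E3) : Fin 3 → ℝ :=
  ax ((R y)ᵀ * (Rb B R j y + W j y * R y))

/-- the coefficients -/
noncomputable def hb (B : Fin 3 → E3 → E3) (W : Fin 3 → E3 → Matrix (Fin 3) (Fin 3) ℝ)
    (R : E3 → Matrix (Fin 3) (Fin 3) ℝ) (s : E3 → ℝ) (j : Fin 3) (y : E3) : Fin 4 → ℝ :=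
  ![fderiv ℝ s y (B j y), 2 * s y * Ob B W R j y 0, Ob B W R j y 1, Ob B W R j y 2]

section point

variable {B : Fin 3 → E3 → E3} {W : Fin 3 → E3 → Matrix (Fin 3) (Fin 3) ℝ}
  {R : E3 → Matrix (Fin 3) (Fin 3) ℝ} {s : E3 → ℝ} {u : E3 → V9} {y : E3}

theorem DRb (h : Gd R s u y) (j : Fin 3) : DM R y (B j y) (Rb B R j y) := by
  intro i l
  exact DV.of_diff ((h.2.1 i l).differentiableAt (by norm_num)) (B j y)

theorem antib (h : Gd R s u y) (hW : ∀ j, (W j y)ᵀ = -W j y) (j : Fin 3) :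
    (R y)ᵀ * (Rb B R j y + W j y * R y) = hat (Ob B W R j y) := by
  have h1 := (DRb (B := B) h j).tr.mul (DRb (B := B) h j)
  have h2 : DM (fun z => (R z)ᵀ * R z) y (B j y) 0 := by
    refine (DM.cst 1 y (B j y)).congr ?_
    filter_upwards [h.1] with z hz
    exact hz.1.1
  have h3 := h1.uniq h2
  refine hat_of_anti _ ?_
  rw [Matrix.transpose_mul, Matrix.transpose_transpose, Matrix.transpose_add, Matrix.transpose_mul,
    hW j]
  have h4 : ((Rb B R j y)ᵀ + (R y)ᵀ * -W j y) * R y + (R y)ᵀ * (Rb B R j y + W j y * R y) =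
      (Rb B R j y)ᵀ * R y + (R y)ᵀ * Rb B R j y := by
    simp only [Matrix.mul_add, Matrix.add_mul, Matrix.mul_assoc, Matrix.neg_mul, Matrix.mul_neg]
    abel
  rw [h4]
  exact h3

theorem RbO (h : Gd R s u y) (hW : ∀ j, (W j y)ᵀ = -W j y) (j : Fin 3) :
    Rb B R j y = R y * hat (Ob B W R j y) - W j y * R y := by
  rw [← antib h hW j, ← Matrix.mul_assoc, h.rot.2.1, Matrix.one_mul, add_sub_cancel_right]

theorem dub (h : Gd R s u y) (hW : ∀ j, (W j y)ᵀ = -W j y) (j : Fin 3) :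
    toM (fderiv ℝ u y (B j y)) + (W j y * toM (u y) - toM (u y) * W j y) =
      R y * (∑ k, hb B W R s j y k • Tb (s y) k) * (R y)ᵀ := by
  have hs : DV s y (B j y) (fderiv ℝ s y (B j y)) :=
    DV.of_diff (h.2.2.differentiableAt (by norm_num)) (B j y)
  have h1 := ((DRb (B := B) h j).mul (DM_Dg hs)).mul (DRb (B := B) h j).tr
  have h2 : DM (fun z => toM (u z)) y (B j y) _ := h1.congr (by
    filter_upwards [h.1] with z hz
    exact hz.2.2)
  have h3 := DM_u h2
  rw [h3, hb, ← brk, RbO h hW j, h.rot.2.2.2.2, Matrix.transpose_sub, Matrix.transpose_mul,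
    Matrix.transpose_mul, hat_T, hW j]
  simp only [Matrix.mul_add, Matrix.add_mul, Matrix.mul_sub, Matrix.sub_mul, Matrix.mul_assoc,
    Matrix.neg_mul, Matrix.mul_neg]
  abel

/-- the second derivatives of the entries of `R` -/
noncomputable def R2 (B : Fin 3 → E3 → E3) (R : E3 → Matrix (Fin 3) (Fin 3) ℝ) (j m : Fin 3)
    (y : E3) : Matrix (Fin 3) (Fin 3) ℝ :=
  Matrix.of fun k l => fderiv ℝ (fun z => fderiv ℝ (fun w => R w k l) z (B m z)) y (B j y)

/-- the derivatives of the connection matrices -/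
noncomputable def DWb (B : Fin 3 → E3 → E3) (W : Fin 3 → E3 → Matrix (Fin 3) (Fin 3) ℝ)
    (j m : Fin 3) (y : E3) : Matrix (Fin 3) (Fin 3) ℝ :=
  Matrix.of fun k l => fderiv ℝ (fun z => W m z k l) y (B j y)

/-- the derivative of `Rᵀ (D_m R + W_m R)` along `B j` -/
noncomputable def MM (B : Fin 3 → E3 → E3) (W : Fin 3 → E3 → Matrix (Fin 3) (Fin 3) ℝ)
    (R : E3 → Matrix (Fin 3) (Fin 3) ℝ) (j m : Fin 3) (y : E3) : Matrix (Fin 3) (Fin 3) ℝ :=
  (Rb B R j y)ᵀ * (Rb B R m y + W m y * R y) +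
    (R y)ᵀ * (R2 B R j m y + (DWb B W j m y * R y + W m y * Rb B R j y))

theorem DOb (h : Gd R s u y) (hB : ∀ j, DifferentiableAt ℝ (B j) y)
    (hWd : ∀ m k l, DifferentiableAt ℝ (fun z => W m z k l) y) (j m : Fin 3) (i : Fin 3) :
    DV (fun z => Ob B W R m z i) y (B j y) (ax (MM B W R j m y) i) := by
  have h1 : DM (Rb B R m) y (B j y) (R2 B R j m y) := by
    intro k l
    refine DV.of_diff ?_ (B j y)
    have h2 : ContDiffAt ℝ 1 (fderiv ℝ (fun z => R z k l)) y := (h.2.1 k l).fderiv_right (by norm_num)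
    exact (h2.differentiableAt (by norm_num)).clm_apply (hB m)
  have h2 : DM (W m) y (B j y) (DWb B W j m y) := by
    intro k l
    exact DV.of_diff (hWd m k l) (B j y)
  have h4 : DM (fun z => Rb B R m z + W m z * R z) y (B j y)
      (R2 B R j m y + (DWb B W j m y * R y + W m y * Rb B R j y)) := by
    have h5 := h2.mul (DRb (B := B) h j)
    intro k l
    exact (h1 k l).add (h5 k l)
  have h3 := (DRb (B := B) h j).tr.mul h4
  fin_cases i
  · exact h3 2 1
  · exact h3 0 2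
  · exact h3 1 0

/-- commutator of the derivatives along two vector fields, at a point -/
theorem comm {f : E3 → ℝ} {X Y : E3 → E3} (hf : ContDiffAt ℝ 2 f y) (hX : DifferentiableAt ℝ X y)
    (hY : DifferentiableAt ℝ Y y) :
    fderiv ℝ (fun z => fderiv ℝ f z (Y z)) y (X y) - fderiv ℝ (fun z => fderiv ℝ f z (X z)) y (Y y) =
      fderiv ℝ f y (VectorField.lieBracket ℝ X Y y) := by
  have h2 : ContDiffAt ℝ 1 (fderiv ℝ f) y := hf.fderiv_right (by norm_num)
  have hd : DifferentiableAt ℝ (fderiv ℝ f) y := h2.differentiableAt (by norm_num)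
  have h3 : IsSymmSndFDerivAt ℝ f y := hf.isSymmSndFDerivAt (by simp)
  rw [fderiv_clm_apply hd hY, fderiv_clm_apply hd hX, VectorField.lieBracket]
  have h4 := h3 (X y) (Y y)
  simp only [add_apply, ContinuousLinearMap.comp_apply, ContinuousLinearMap.flip_apply, map_sub]
  rw [h4]
  ring

theorem R2_comm (h : Gd R s u y) (hB : ∀ j, DifferentiableAt ℝ (B j) y) (j m : Fin 3)
    (C : Fin 3 → ℝ) (hC : VectorField.lieBracket ℝ (B j) (B m) y = ∑ k, C k • B k y) :
    R2 B R j m y - R2 B R m j y = ∑ k, C k • Rb B R k y := by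
  ext k l
  have h1 := comm (h.2.1 k l) (hB j) (hB m)
  rw [hC] at h1
  rw [Matrix.sub_apply, Matrix.sum_apply]
  refine h1.trans ?_
  rw [map_sum]
  refine Finset.sum_congr rfl fun p _ => ?_
  rw [map_smul, Matrix.smul_apply]
  rfl

/-- noncommutative algebra -/
theorem alg (R T Oj Om Wj Wm S Wc Oc Djm Dmj : Matrix (Fin 3) (Fin 3) ℝ) (hTR : T * R = 1) :
    ((-(Oj * T) + T * Wj) * (R * Om) +
        T * ((S + (R * Oc - Wc * R)) + (Djm * R + Wm * (R * Oj - Wj * R)))) -
      ((-(Om * T) + T * Wm) * (R * Oj) + T * (S + (Dmj * R + Wj * (R * Om - Wm * R)))) =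
    -(Oj * Om - Om * Oj) + Oc + T * ((Djm - Dmj) + (Wj * Wm - Wm * Wj) - Wc) * R := by
  have hX : ∀ X, T * (R * X) = X := by
    intro X
    rw [← Matrix.mul_assoc, hTR, Matrix.one_mul]
  simp only [Matrix.mul_add, Matrix.add_mul, Matrix.mul_sub, Matrix.sub_mul, Matrix.mul_assoc,
    Matrix.neg_mul, Matrix.mul_neg, hX]
  abel

/-- curvature -/
noncomputable def Cu (B : Fin 3 → E3 → E3) (W : Fin 3 → E3 → Matrix (Fin 3) (Fin 3) ℝ)
    (C : Fin 3 → ℝ) (j m : Fin 3) (y : E3) : Matrix (Fin 3) (Fin 3) ℝ :=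
  (DWb B W j m y - DWb B W m j y) + (W j y * W m y - W m y * W j y) - ∑ k, C k • W k y

theorem MM_diff (h : Gd R s u y) (hW : ∀ j, (W j y)ᵀ = -W j y)
    (hB : ∀ j, DifferentiableAt ℝ (B j) y) (j m : Fin 3)
    (C : Fin 3 → ℝ) (hC : VectorField.lieBracket ℝ (B j) (B m) y = ∑ k, C k • B k y) :
    MM B W R j m y - MM B W R m j y =
      -(hat (Ob B W R j y) * hat (Ob B W R m y) - hat (Ob B W R m y) * hat (Ob B W R j y))
        + ∑ k, C k • hat (Ob B W R k y) + (R y)ᵀ * Cu B W C j m y * R y := by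
  have h1 := R2_comm h hB j m C hC
  have h2 : R2 B R j m y = R2 B R m j y + (R y * (∑ k, C k • hat (Ob B W R k y)) -
      (∑ k, C k • W k y) * R y) := by
    rw [sub_eq_iff_eq_add'] at h1
    rw [h1]
    congr 1
    rw [Matrix.mul_sum, Matrix.sum_mul, ← Finset.sum_sub_distrib]
    refine Finset.sum_congr rfl fun k _ => ?_
    rw [RbO h hW k, smul_sub, Matrix.mul_smul, Matrix.smul_mul]
  have hT : ∀ j, (Rb B R j y)ᵀ = -(hat (Ob B W R j y) * (R y)ᵀ) + (R y)ᵀ * W j y := by
    intro j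
    rw [RbO h hW j, Matrix.transpose_sub, Matrix.transpose_mul, Matrix.transpose_mul, hat_T, hW j,
      Matrix.neg_mul, Matrix.mul_neg, sub_neg_eq_add]
  have hS : ∀ j, Rb B R j y + W j y * R y = R y * hat (Ob B W R j y) := by
    intro j
    rw [RbO h hW j, sub_add_cancel]
  unfold MM Cu
  rw [hS j, hS m, hT j, hT m, h2, RbO h hW j, RbO h hW m]
  exact alg _ _ _ _ _ _ _ _ _ _ _ h.rot.1

theorem ax_sub (A D : Matrix (Fin 3) (Fin 3) ℝ) (i : Fin 3) : ax (A - D) i = ax A i - ax D i := by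
  fin_cases i <;> simp [ax]

theorem ax_rot (R : Matrix (Fin 3) (Fin 3) ℝ) (hR : IsRot R) (w : Fin 3 → ℝ) (i : Fin 3) :
    ax (Rᵀ * hat w * R) i = Rᵀ.mulVec w i := by
  obtain ⟨-, c00, c01, c02, c10, c11, c12, c20, c21, c22⟩ := rot_facts R hR
  fin_cases i
  · simp [ax, hat, Matrix.mul_apply, Fin.sum_univ_three, Matrix.mulVec, dotProduct]
    linear_combination -(w 0 * c00) - w 1 * c10 - w 2 * c20
  · simp [ax, hat, Matrix.mul_apply, Fin.sum_univ_three, Matrix.mulVec, dotProduct]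
    linear_combination -(w 0 * c01) - w 1 * c11 - w 2 * c21
  · simp [ax, hat, Matrix.mul_apply, Fin.sum_univ_three, Matrix.mulVec, dotProduct]
    linear_combination -(w 0 * c02) - w 1 * c12 - w 2 * c22

theorem ax_MM (h : Gd R s u y) (hW : ∀ j, (W j y)ᵀ = -W j y)
    (hB : ∀ j, DifferentiableAt ℝ (B j) y) (j m : Fin 3)
    (C : Fin 3 → ℝ) (hC : VectorField.lieBracket ℝ (B j) (B m) y = ∑ k, C k • B k y)
    (ρ : Fin 3 → ℝ) (hρ : Cu B W C j m y = hat ρ) (i : Fin 3) :
    ax (MM B W R j m y) i - ax (MM B W R m j y) i =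
      -(![Ob B W R j y 1 * Ob B W R m y 2 - Ob B W R j y 2 * Ob B W R m y 1,
        Ob B W R j y 2 * Ob B W R m y 0 - Ob B W R j y 0 * Ob B W R m y 2,
        Ob B W R j y 0 * Ob B W R m y 1 - Ob B W R j y 1 * Ob B W R m y 0] : Fin 3 → ℝ) i +
      (∑ k, C k * Ob B W R k y i + (R y)ᵀ.mulVec ρ i) := by
  rw [← ax_sub, MM_diff h hW hB j m C hC, hρ]
  rw [← ax_rot (R y) h.rot.2.2.1 ρ i]
  generalize (R y)ᵀ * hat ρ * R y = K
  generalize Ob B W R = O
  fin_cases i <;>
    simp [ax, hat, Matrix.mul_apply, Fin.sum_univ_three, Matrix.sum_apply] <;> ring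

end point

/-- the derivative of `τ_m` along `B j` and its antisymmetrization -/
theorem fin_alg (q q' : Fin 3 → ℝ) (R Wj Wm : Matrix (Fin 3) (Fin 3) ℝ) (w : Fin 3 → Fin 3 → ℝ)
    (nu : Fin 3 → ℝ) (j m : Fin 3) (X Y E F : Fin 3 → ℝ)
    (hXY : ∀ i, X i - Y i = -(![w j 1 * w m 2 - w j 2 * w m 1,
        w j 2 * w m 0 - w j 0 * w m 2,
        w j 0 * w m 1 - w j 1 * w m 0] : Fin 3 → ℝ) i + (E i + F i)) (n : Fin 3) :
    (∑ i, ((R * hat (w j) - Wj * R) n i * (q i * w m i) +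
      R n i * ((q' i * nu j) * w m i + q i * X i))) -
    (∑ i, ((R * hat (w m) - Wm * R) n i * (q i * w j i) +
      R n i * ((q' i * nu m) * w j i + q i * Y i))) =
    (R.mulVec (TT q q' w nu j m) + R.mulVec (fun i => q i * E i) + R.mulVec (fun i => q i * F i)
      - Wj.mulVec (R.mulVec (fun i => q i * w m i))
      + Wm.mulVec (R.mulVec (fun i => q i * w j i))) n := by
  have h0 := hXY 0
  have h1 := hXY 1
  have h2 := hXY 2
  simp only [Matrix.cons_val_zero, Matrix.cons_val_one, Matrix.cons_val] at h0 h1 h2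
  have e : ∀ w : Fin 3 → ℝ, (R * hat w) n 0 = R n 1 * w 2 - R n 2 * w 1 ∧
      (R * hat w) n 1 = R n 2 * w 0 - R n 0 * w 2 ∧
      (R * hat w) n 2 = R n 0 * w 1 - R n 1 * w 0 := by
    intro w
    refine ⟨?_, ?_, ?_⟩ <;> simp [Matrix.mul_apply, Fin.sum_univ_three, hat] <;> ring
  obtain ⟨t0, t1, t2⟩ := TT_val q q' w nu j m
  simp only [Pi.add_apply, Pi.sub_apply, Matrix.mulVec, dotProduct, Fin.sum_univ_three,
    Matrix.sub_apply]
  rw [(e (w j)).1, (e (w j)).2.1, (e (w j)).2.2, (e (w m)).1, (e (w m)).2.1, (e (w m)).2.2,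
    t0, t1, t2]
  simp only [Matrix.mul_apply, Fin.sum_univ_three]
  linear_combination R n 0 * q 0 * h0 + R n 1 * q 1 * h1 + R n 2 * q 2 * h2

/-- `(R A Om_m)_n` -/
noncomputable def VB (pr : Profile) (B : Fin 3 → E3 → E3)
    (W : Fin 3 → E3 → Matrix (Fin 3) (Fin 3) ℝ) (R : E3 → Matrix (Fin 3) (Fin 3) ℝ) (s : E3 → ℝ)
    (m n : Fin 3) (y : E3) : ℝ := ∑ i, R y n i * (qf pr (s y) i * Ob B W R m y i)

theorem VB_der (hA01 : St_A01) (pr : Profile) {B : Fin 3 → E3 → E3}
    {W : Fin 3 → E3 → Matrix (Fin 3) (Fin 3) ℝ} {R : E3 → Matrix (Fin 3) (Fin 3) ℝ} {s : E3 → ℝ}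
    {u : E3 → V9} {y : E3} (h : Gd R s u y) (hB : ∀ j, DifferentiableAt ℝ (B j) y)
    (hWd : ∀ m k l, DifferentiableAt ℝ (fun z => W m z k l) y) (j m n : Fin 3) :
    DV (VB pr B W R s m n) y (B j y) (∑ i, ((Rb B R j y) n i * (qf pr (s y) i * Ob B W R m y i) +
      R y n i * ((qd pr (s y) i * fderiv ℝ s y (B j y)) * Ob B W R m y i +
        qf pr (s y) i * ax (MM B W R j m y) i))) := by
  have hs : DV s y (B j y) (fderiv ℝ s y (B j y)) :=
    DV.of_diff (h.2.2.differentiableAt (by norm_num)) (B j y)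
  refine DV.sum (fun i => ?_)
  refine (DRb (B := B) h j n i).mul (DV.mul (g := fun z => Ob B W R m z i)
      (f := fun z => qf pr (s z) i) (d := qd pr (s y) i * fderiv ℝ s y (B j y)) ?_
      (DOb h hB hWd j m i))
  exact hs.comp (q_der hA01 pr (s y) h.rot.2.2.2.1 i)

theorem wl_anti (c : Fin 3 → Fin 3 → Fin 3 → E3 → ℝ) (z : E3)
    (hc : ∀ i j k, c i j k z = -c j i k z) (i : Fin 3) : (wl c i z)ᵀ = -wl c i z := by
  ext k l
  simp only [wl, Matrix.transpose_apply, Matrix.neg_apply, Matrix.of_apply]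
  rw [hc i k l, hc k l i, hc l i k]
  ring

theorem wl_tor (c : Fin 3 → Fin 3 → Fin 3 → E3 → ℝ) (z : E3)
    (hc : ∀ i j k, c i j k z = -c j i k z) (j m k : Fin 3) :
    wl c j z k m - wl c m z k j = c j m k z := by
  simp only [wl, Matrix.of_apply]
  rw [hc m j k, hc m k j, hc k j m]
  ring

end Pool.Agent.FUE.X2x

namespace Pool.Agent.FUE

open A09x H03x X2x

/-- **[X2]** -/
theorem thm_X2 (hA01 : St_A01) (hA04 : St_A04) (hA05 : St_A05) (hA12 : St_A12) (hH01 : St_H01)
    (hX1 : St_X1) : St_X2 := by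
  intro pr U B c u y hU hyU hBs hcs hca hbr hu htt
  obtain ⟨R, hRs, hss, hev⟩ := hH01 U u hU hu.smooth hu.mem y hyU htt
  have hG : ∀ᶠ z in nhds y, Gd R (fun w => √(tt (u w))) u z := by
    have h1 : ∀ᶠ z in nhds y, ∀ i j, ContDiffAt ℝ 2 (fun w => R w i j) z := by
      rw [Filter.eventually_all]
      intro i
      rw [Filter.eventually_all]
      intro j
      exact ((hRs i j).of_le (WithTop.coe_le_coe.2 le_top)).eventually (by simp)
    have h2 : ∀ᶠ z in nhds y, ContDiffAt ℝ 2 (fun w => √(tt (u w))) z :=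
      (hss.of_le (WithTop.coe_le_coe.2 le_top)).eventually (by simp)
    filter_upwards [hev.eventually_nhds, h1, h2] with z h3 h4 h5
    exact ⟨h3, h4, h5⟩
  set s : E3 → ℝ := fun w => √(tt (u w)) with hs_def
  have hWa : ∀ z ∈ U, ∀ j, (wl c j z)ᵀ = -wl c j z := fun z hz j =>
    wl_anti c z (fun i j k => hca i j k z hz) j
  have hF : ∀ᶠ z in nhds y,
      ∑ j, ∑ i, R z j i • (Ic pr (s z) i).mulVec (hb B (wl c) R s j z) = 0 := by
    filter_upwards [hG, hU.mem_nhds hyU] with z hz hzU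
    exact hA12.2 pr (u z) (fun j => ofM (toM (fderiv ℝ u z (B j z)) +
      (toM (ofM (wl c j z)) * toM (u z) - toM (u z) * toM (ofM (wl c j z))))) (R z) (s z)
      (fun j => hb B (wl c) R s j z) (hu.eq z hzU)
      hz.rot.2.2.1 hz.rot.2.2.2.1.le hz.rot.2.2.2.2 (fun j => dub hz (hWa z hzU) j)
  have hcomp : ∀ᶠ z in nhds y,
      (∑ j, ∑ i, R z j i * (qf pr (s z) i * Ob B (wl c) R j z i) = 0) ∧
      (fderiv ℝ s z (B 0 z) = VB pr B (wl c) R s 2 1 z - VB pr B (wl c) R s 1 2 z ∧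
      fderiv ℝ s z (B 1 z) = VB pr B (wl c) R s 0 2 z - VB pr B (wl c) R s 2 0 z ∧
      fderiv ℝ s z (B 2 z) = VB pr B (wl c) R s 1 0 z - VB pr B (wl c) R s 0 1 z) := by
    filter_upwards [hG, hF] with z hz hFz
    have hsz := hz.rot.2.2.2.1
    obtain ⟨hb', hc', -, -, -⟩ := hA01.2.1 pr (s z) hsz.le
    have hal := hA01.1 pr (s z ^ 2) (sq_nonneg _)
    obtain ⟨E0, E1, E2, E3⟩ := comps pr (R z) (s z) hal.ne' hb'.ne' hc'.ne
      (fun j => fderiv ℝ s z (B j z)) (fun j => Ob B (wl c) R j z) hFz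
    refine ⟨E0, ?_⟩
    exact nu_eq (R z) hz.rot.2.2.1 (fun m i => qf pr (s z) i * Ob B (wl c) R m z i)
      (fun j => fderiv ℝ s z (B j z)) E1 E2 E3
  have hGy := hG.self_of_nhds
  have hsy := hGy.rot.2.2.2.1
  have hrot := hGy.rot.2.2.1
  obtain ⟨hb', hc', -, -, -⟩ := hA01.2.1 pr (s y) hsy.le
  have hal := hA01.1 pr (s y ^ 2) (sq_nonneg _)
  have ha' := (hA01.2.2.1 pr (s y) hsy).1
  have hWy := hWa y hyU
  have hBd : ∀ j, DifferentiableAt ℝ (B j) y := fun j =>
    ((hBs j).contDiffAt (hU.mem_nhds hyU)).differentiableAt (by norm_cast)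
  have hcd : ∀ i j k, DifferentiableAt ℝ (c i j k) y := fun i j k =>
    ((hcs i j k).contDiffAt (hU.mem_nhds hyU)).differentiableAt (by norm_cast)
  have hWd : ∀ m k l, DifferentiableAt ℝ (fun z => wl c m z k l) y := by
    intro m k l
    have h8 := ((hcd m l k).fun_sub (hcd l k m)).fun_add (hcd k m l)
    show DifferentiableAt ℝ (fun z => (c m l k z - c l k m z + c k m l z) / 2) y
    simp only [div_eq_mul_inv]
    exact h8.mul_const _
  refine ⟨R y, fun j => hb B (wl c) R s j y, hrot, hGy.rot.2.2.2.2, fun j => dub hGy hWy j,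
    fun j => rfl, ?_, ?_⟩
  · have h1 := hF.self_of_nhds
    have h2 : ∀ i : Fin 3, (Ic pr (s y) i).mulVec (fun k => ∑ j, R y j i * hb B (wl c) R s j y k) =
        ∑ j, R y j i • (Ic pr (s y) i).mulVec (hb B (wl c) R s j y) := by
      intro i
      have h3 : (fun k => ∑ j, R y j i * hb B (wl c) R s j y k) =
          ∑ j, R y j i • hb B (wl c) R s j y := by
        ext k
        simp [Finset.sum_apply]
      rw [h3, Matrix.mulVec_sum]
      exact Finset.sum_congr rfl fun j _ => Matrix.mulVec_smul _ _ _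
    show ∑ i, (Ic pr (s y) i).mulVec (fun k => ∑ j, R y j i * hb B (wl c) R s j y k) = 0
    rw [Finset.sum_congr rfl fun i _ => h2 i, Finset.sum_comm]
    exact h1
  · obtain ⟨E0, N0, N1, N2⟩ := hcomp.self_of_nhds
    -- curvature vectors
    have hCanti : ∀ j m, (Cu B (wl c) (fun k => c j m k y) j m y)ᵀ +
        Cu B (wl c) (fun k => c j m k y) j m y = 0 := by
      intro j m
      have hD : ∀ j m, (DWb B (wl c) j m y)ᵀ = -DWb B (wl c) j m y := by
        intro j m
        ext k l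
        simp only [DWb, Matrix.transpose_apply, Matrix.neg_apply, Matrix.of_apply]
        have h5 : (fun z => wl c m z l k) =ᶠ[nhds y] fun z => -wl c m z k l := by
          filter_upwards [hU.mem_nhds hyU] with z hz
          have := congrFun (congrFun (hWa z hz m) k) l
          simpa using this
        rw [h5.fderiv_eq, fderiv_fun_neg]
        rfl
      unfold Cu
      simp only [Matrix.transpose_add, Matrix.transpose_sub, Matrix.transpose_mul,
        Matrix.transpose_sum, Matrix.transpose_smul, hD, hWy, smul_neg, Finset.sum_neg_distrib,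
        Matrix.mul_neg, Matrix.neg_mul, neg_neg]
      abel
    have hCsym : ∀ j m, Cu B (wl c) (fun k => c j m k y) j m y =
        -Cu B (wl c) (fun k => c m j k y) m j y := by
      intro j m
      unfold Cu
      have h6 : ∑ k, c m j k y • wl c k y = -∑ k, c j m k y • wl c k y := by
        rw [← Finset.sum_neg_distrib]
        refine Finset.sum_congr rfl fun k _ => ?_
        rw [hca m j k y hyU, neg_smul]
      rw [h6]
      abel
    set ρ : Fin 3 → Fin 3 → Fin 3 → ℝ := fun j m => ax (Cu B (wl c) (fun k => c j m k y) j m y)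
      with hρdef
    have hρ : ∀ j m, Cu B (wl c) (fun k => c j m k y) j m y = hat (ρ j m) := fun j m =>
      hat_of_anti _ (hCanti j m)
    have hρa : ∀ j m, ρ j m = -ρ m j := by
      intro j m
      show ax _ = -ax _
      rw [hCsym j m]
      ext i
      fin_cases i <;> simp [ax]
    have hcrv : ∀ j m, crv B c j m y = hat (ρ j m) := fun j m => hρ j m
    -- derivatives of `τ`
    have hV : ∀ j m n, DV (VB pr B (wl c) R s m n) y (B j y) _ := fun j m n =>
      VB_der hA01 pr hGy hBd hWd j m n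
    have d0 := ((hV 0 2 1).sub (hV 0 1 2)).congr (f := fun z => fderiv ℝ s z (B 0 z))
      (by filter_upwards [hcomp] with z hz; exact hz.2.1)
    have d1 := ((hV 1 0 2).sub (hV 1 2 0)).congr (f := fun z => fderiv ℝ s z (B 1 z))
      (by filter_upwards [hcomp] with z hz; exact hz.2.2.1)
    have d2 := ((hV 2 1 0).sub (hV 2 0 1)).congr (f := fun z => fderiv ℝ s z (B 2 z))
      (by filter_upwards [hcomp] with z hz; exact hz.2.2.2)
    simp only [RbO hGy hWy] at d0 d1 d2
    have hfa : ∀ j m n, _ := fun j m n => fin_alg (qf pr (s y)) (qd pr (s y)) (R y) (wl c j y)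
      (wl c m y) (fun j => Ob B (wl c) R j y) (fun j => fderiv ℝ s y (B j y)) j m
      (ax (MM B (wl c) R j m y)) (ax (MM B (wl c) R m j y))
      (fun i => ∑ k, (wl c j y k m - wl c m y k j) * Ob B (wl c) R k y i)
      ((R y)ᵀ.mulVec (ρ j m)) (by
        intro i
        have h7 := ax_MM hGy hWy hBd j m (fun k => c j m k y) (hbr j m) (ρ j m) (hρ j m) i
        rw [h7]
        congr 2
        refine Finset.sum_congr rfl fun k _ => ?_
        rw [wl_tor c y (fun i j k => hca i j k y hyU) j m k]) n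
    have hfin := hX1.2.2.2 (R y) (pr.a (s y)) (pr.b (s y)) (pr.c (s y))
      (fun j => Ob B (wl c) R j y) (fun j => fderiv ℝ s y (B j y)) (fun j => wl c j y) ρ
      hrot ha'.ne' hb'.ne' hc'.ne hWy hρa ?_ ?_
    · have w0 := hfa 2 1 0
      have w1 := hfa 0 2 1
      have w2 := hfa 1 0 2
      have hl := lap_val pr (s y) ha'.ne' hb'.ne' hc'.ne (R y) (fun j => Ob B (wl c) R j y)
        (fun j => fderiv ℝ s y (B j y))
      have hric : (fun j l => rcl B c j l y) = fun j l => ∑ i, hat (ρ i j) i l := by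
        funext j l
        show ∑ i, crv B c i j y i l = _
        exact Finset.sum_congr rfl fun i _ => by rw [hcrv]
      rw [Fin.sum_univ_three]
      show fderiv ℝ (fun z => fderiv ℝ s z (B 0 z)) y (B 0 y) +
        fderiv ℝ (fun z => fderiv ℝ s z (B 1 z)) y (B 1 y) +
        fderiv ℝ (fun z => fderiv ℝ s z (B 2 z)) y (B 2 y) = lapS pr (s y)
          (fun i k => ∑ j, R y j i * (![fderiv ℝ s y (B j y), 2 * s y * Ob B (wl c) R j y 0,
            Ob B (wl c) R j y 1, Ob B (wl c) R j y 2] : Fin 4 → ℝ) k)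
          + (∑ j, ∑ p, wl c j y p j * fderiv ℝ s y (B p y))
          - ∑ i, ![pr.a (s y), pr.b (s y), pr.c (s y)] i * ein (fun j l => rcl B c j l y) (R y) i
      rw [hric, ← hl]
      refine Eq.trans ?_ hfin
      rw [d0.2, d1.2, d2.2]
      show _ = (_ + _) + _
      refine Eq.trans ?_ (congrArg₂ (· + ·) (congrArg₂ (· + ·) w0 w1) w2)
      ring
    · show ∑ i, R y 0 i * (qf pr (s y) i * Ob B (wl c) R 0 y i) +
        ∑ i, R y 1 i * (qf pr (s y) i * Ob B (wl c) R 1 y i) +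
        ∑ i, R y 2 i * (qf pr (s y) i * Ob B (wl c) R 2 y i) = 0
      have h9 := E0
      rw [Fin.sum_univ_three] at h9
      exact h9
    · intro j
      fin_cases j
      · exact N0
      · exact N1
      · exact N2

end Pool.Agent.FUE
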