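import Pool.Agent.FUE.StC
import Pool.Agent.FUE.H03
import Pool.Agent.FUE.X2

/-!
# FUE/C7 (helper82): line fields which are parallel for one of the two flat connections are Fueter
-/

set_option autoImplicit false
set_option linter.unusedSimpArgs false
set_option linter.unusedVariables false

open scoped Manifold ContDiff Matrix
open MeasureTheory

namespace Pool.Agent.FUE.C7x

open A09x H03x X2x

theorem bolt_key (pr : Profile) (R : Matrix (Fin 3) (Fin 3) ℝ) (hR : IsRot R) (σ : ℝ) :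
    ∑ j, ∑ i, R j i • (Ic pr 0 i).mulVec (![0, 0, σ * R j 1, σ * R j 2] : Fin 4 → ℝ) = 0 := by
  have e : ∀ i k, R 0 i * R 0 k + R 1 i * R 1 k + R 2 i * R 2 k = if i = k then 1 else 0 := by
    intro i k
    have h4 := congrFun (congrFun hR.1 i) k
    rw [Matrix.mul_apply, Fin.sum_univ_three, Matrix.one_apply] at h4
    exact h4
  have hb0 : pr.b 0 = Real.pi := by
    simp [Profile.b, pr.be_zero]
  have hc0 : pr.c 0 = -Real.pi := by
    simp [Profile.c, pr.be_zero]
  have hal : pr.al (0 ^ 2) = 2 := by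
    rw [zero_pow two_ne_zero]
    exact pr.al_zero
  have e01 := e 0 1
  have e02 := e 0 2
  have e12 := e 1 2
  have e11 := e 1 1
  have e22 := e 2 2
  simp only [Fin.isValue, Fin.reduceEq, if_false, if_true] at e01 e02 e12 e11 e22
  have hpi := Real.pi_ne_zero
  ext k
  simp only [Ic, hb0, hc0, hal]
  fin_cases k
  · simp [Fin.sum_univ_three, Matrix.mulVec, dotProduct, Fin.sum_univ_four]
    linear_combination (-(Real.pi) * σ) * e11 + Real.pi * σ * e22
  · simp [Fin.sum_univ_three, Matrix.mulVec, dotProduct, Fin.sum_univ_four]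
    linear_combination (-(Real.pi) * σ) * e12 - Real.pi * σ * e12
  · simp [Fin.sum_univ_three, Matrix.mulVec, dotProduct, Fin.sum_univ_four]
    field_simp
    linear_combination σ * e02
  · simp [Fin.sum_univ_three, Matrix.mulVec, dotProduct, Fin.sum_univ_four]
    field_simp
    linear_combination (-σ) * e01

end Pool.Agent.FUE.C7x

namespace Pool.Agent.FUE

open A09x H03x X2x C7x

/-- **[C7]** -/
theorem thm_C7 (hA01 : St_A01) (hA04 : St_A04) (hA12 : St_A12) (hC1 : St_C1) : St_C7 := by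
  intro pr M _ _ _ F hF u hu hm hD
  have hconn := (hC1 M F hF).1
  obtain ⟨σ, hσ⟩ : ∃ σ : ℝ, ∀ i x, F.cov i u x =
      σ • (hat (Pi.single i 1) * toM (u x) - toM (u x) * hat (Pi.single i 1)) := by
    rcases hD with hD | hD
    · refine ⟨1, fun i x => ?_⟩
      unfold Frame.cov
      rw [hD, hconn, zero_add, one_smul]
    · refine ⟨-1, fun i x => ?_⟩
      unfold Frame.cov
      rw [hD, hconn]
      module
  refine ⟨hu, fun x => (hm x).1, fun x => ?_⟩
  obtain ⟨⟨R, s, hR, hs, hP⟩, htr⟩ := hm x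
  have hs0 : s = 0 := by
    have h1 := (hA04.2 (u x) R s hR hP).1
    have h2 : (toM (u x)).trace = 2 + s ^ 2 := h1
    rw [htr] at h2
    have h3 : s ^ 2 = 0 := by linarith
    exact pow_eq_zero_iff two_ne_zero |>.1 h3
  subst hs0
  refine ⟨R, 0, fun j => ![0, 0, σ * R j 1, σ * R j 2], hR, le_refl 0, hP, fun j => ?_,
    bolt_key pr R hR σ⟩
  show F.cov j u x = R * (∑ k, (![0, 0, σ * R j 1, σ * R j 2] : Fin 4 → ℝ) k • Tb 0 k) * Rᵀ
  rw [hσ]
  have hRR : R * Rᵀ = 1 := mul_eq_one_comm.1 hR.1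
  have h1 : Rᵀ * hat (Pi.single j 1) * R = hat (fun i => R j i) := by
    have h2 : Rᵀ * hat (Pi.single j 1) * R = hat (ax (Rᵀ * hat (Pi.single j 1) * R)) := by
      refine hat_of_anti _ ?_
      rw [Matrix.transpose_mul, Matrix.transpose_mul, Matrix.transpose_transpose, hat_T]
      simp only [Matrix.mul_assoc, Matrix.neg_mul, Matrix.mul_neg]
      abel
    rw [h2]
    congr 1
    ext i
    rw [ax_rot R hR]
    simp [Matrix.mulVec, dotProduct, Pi.single_apply]
  have h3 : hat (Pi.single j 1) = R * hat (fun i => R j i) * Rᵀ := by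
    rw [← h1]
    simp only [Matrix.mul_assoc, hRR, Matrix.mul_one]
    rw [← Matrix.mul_assoc, hRR, Matrix.one_mul]
  have h4 := brk (fun i => R j i) 0 0
  rw [zero_smul, add_zero] at h4
  have h5 : (∑ k, (![0, 0, σ * R j 1, σ * R j 2] : Fin 4 → ℝ) k • Tb 0 k) =
      σ • (∑ k, (![0, 2 * 0 * R j 0, R j 1, R j 2] : Fin 4 → ℝ) k • Tb 0 k) := by
    rw [Finset.smul_sum]
    refine Finset.sum_congr rfl fun k _ => ?_
    rw [smul_smul]
    congr 1
    fin_cases k <;> simp
  show σ • (hat (Pi.single j 1) * toM (u x) - toM (u x) * hat (Pi.single j 1)) =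
    R * (∑ k, (![0, 0, σ * R j 1, σ * R j 2] : Fin 4 → ℝ) k • Tb 0 k) * Rᵀ
  rw [h5, ← h4, h3, hP]
  have hX : ∀ X, Rᵀ * (R * X) = X := by
    intro X
    rw [← Matrix.mul_assoc, hR.1, Matrix.one_mul]
  simp only [Matrix.mul_assoc, hX, Matrix.mul_sub, Matrix.sub_mul, Matrix.mul_smul,
    Matrix.smul_mul, smul_sub]

end Pool.Agent.FUE
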