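import Pool.Agent.FUE.Mf1

/-!
# Fueter sections, part on M: commutators and the maximum principle (helper17)
-/

set_option autoImplicit false

namespace Pool.Agent.FUE

open scoped Manifold ContDiff Topology
open Filter

variable {V : Type} [NormedAddCommGroup V] [NormedSpace ℝ V]

/-- commutator of two derivatives in Euclidean space -/
theorem Dl_comm {U : Set E3} (hU : IsOpen U) {A B : E3 → E3} (hA : ContDiffOn ℝ ∞ A U) (hB : ContDiffOn ℝ ∞ B U)
    {f : E3 → V} (hf : ContDiffOn ℝ ∞ f U) {y : E3} (hy : y ∈ U) :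
    Dl A (Dl B f) y - Dl B (Dl A f) y = fderiv ℝ f y (VectorField.lieBracket ℝ A B y) := by
  have hfd : DifferentiableAt ℝ (fderiv ℝ f) y := by
    have h1 : ContDiffAt ℝ 2 f y := (hf.contDiffAt (hU.mem_nhds hy)).of_le (by norm_cast)
    exact (h1.fderiv_right (m := 1) (by norm_num)).differentiableAt (by norm_num)
  have hAd : DifferentiableAt ℝ A y := (hA.contDiffAt (hU.mem_nhds hy)).differentiableAt (by norm_cast)
  have hBd : DifferentiableAt ℝ B y := (hB.contDiffAt (hU.mem_nhds hy)).differentiableAt (by norm_cast)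
  have hsym : IsSymmSndFDerivAt ℝ f y :=
    (hf.contDiffAt (hU.mem_nhds hy)).isSymmSndFDerivAt (by
      rw [minSmoothness_of_isRCLikeNormedField]
      norm_cast)
  have key : ∀ (P Q : E3 → E3), DifferentiableAt ℝ Q y →
      Dl P (Dl Q f) y = fderiv ℝ (fderiv ℝ f) y (P y) (Q y) + fderiv ℝ f y (fderiv ℝ Q y (P y)) := by
    intro P Q hQ
    show fderiv ℝ (fun z => fderiv ℝ f z (Q z)) y (P y) = _
    rw [fderiv_clm_apply hfd hQ]
    simp [add_comm]
  rw [key A B hBd, key B A hAd, VectorField.lieBracket, map_sub, hsym.eq (A y) (B y)]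
  abel

section Mfd

variable {M : Type} [TopologicalSpace M] [ChartedSpace E3 M] [IsManifold (𝓡 3) ∞ M]

/-- the bracket relation in the chart at `x`, at the point `x` -/
theorem bracket_chart (F : Frame M) (x : M) (i j : Fin 3) :
    VectorField.lieBracket ℝ (Ech F x i) (Ech F x j) (extChartAt (𝓡 3) x x) =
      ∑ k, F.c i j k x • Ech F x k (extChartAt (𝓡 3) x x) := by
  have : IsManifold (𝓡 3) 1 M := IsManifold.of_le (n := ∞) (by norm_cast)
  have hx := mem_extChartAt_source (I := 𝓡 3) x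
  have hxt := mem_extChartAt_target (I := 𝓡 3) x
  have hpull : ∀ l : Fin 3, ∀ z ∈ (extChartAt (𝓡 3) x).target,
      VectorField.mpullbackWithin 𝓘(ℝ, E3) (𝓡 3) (extChartAt (𝓡 3) x).symm (F.e l) (Set.range (𝓡 3)) z =
        Ech F x l z := by
    intro l z hz
    rw [VectorField.mpullbackWithin_apply]
    have h1 := mfderiv_extChartAt_comp_mfderivWithin_extChartAt_symm (I := 𝓡 3) hz
    have h2 := mfderivWithin_extChartAt_symm_comp_mfderiv_extChartAt (I := 𝓡 3) hz
    rw [ContinuousLinearMap.inverse_eq h2 h1]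
    rfl
  have h3 := F.bracket i j x
  have h4 : VectorField.mlieBracket (𝓡 3) (F.e i) (F.e j) x =
      (mfderiv (𝓡 3) 𝓘(ℝ, E3) (extChartAt (𝓡 3) x) x).inverse
        ((VectorField.lieBracket ℝ (Ech F x i) (Ech F x j) (extChartAt (𝓡 3) x x) : E3)) := by
    rw [← VectorField.mlieBracketWithin_univ, VectorField.mlieBracketWithin_apply]
    congr 1
    have h5 : ((extChartAt (𝓡 3) x).symm ⁻¹' Set.univ ∩ Set.range (𝓡 3)) = Set.univ := by
      simp
    rw [h5, VectorField.lieBracketWithin_univ]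
    have h6 : ∀ l : Fin 3, (VectorField.mpullbackWithin 𝓘(ℝ, E3) (𝓡 3) (extChartAt (𝓡 3) x).symm (F.e l)
        (Set.range (𝓡 3)) : E3 → E3) =ᶠ[𝓝 (extChartAt (𝓡 3) x x : E3)] Ech F x l := by
      intro l
      filter_upwards [(chart_target_open x).mem_nhds hxt] with z hz
      exact hpull l z hz
    exact Filter.EventuallyEq.lieBracket_vectorField_eq (𝕜 := ℝ) (E := E3) (h6 i) (h6 j)
  have hinv : (mfderiv (𝓡 3) 𝓘(ℝ, E3) (extChartAt (𝓡 3) x) x).IsInvertible :=
    isInvertible_mfderiv_extChartAt hx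
  have h7 : (mfderiv (𝓡 3) 𝓘(ℝ, E3) (extChartAt (𝓡 3) x) x)
      (VectorField.mlieBracket (𝓡 3) (F.e i) (F.e j) x) =
        VectorField.lieBracket ℝ (Ech F x i) (Ech F x j) (extChartAt (𝓡 3) x x) := by
    rw [h4]
    exact hinv.self_apply_inverse _
  rw [← h7, h3, map_sum]
  refine Finset.sum_congr rfl fun k _ => ?_
  rw [map_smul]
  congr 1
  show _ = F.D k (extChartAt (𝓡 3) x) ((extChartAt (𝓡 3) x).symm (extChartAt (𝓡 3) x x))
  rw [(extChartAt (𝓡 3) x).left_inv hx]
  rfl

/-- **the commutator relation on `M`** -/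
theorem D_comm (F : Frame M) (i j : Fin 3) {f : M → V} (hf : ContMDiff (𝓡 3) 𝓘(ℝ, V) ∞ f) (x : M) :
    F.D i (F.D j f) x - F.D j (F.D i f) x = ∑ k, F.c i j k x • F.D k f x := by
  have hx := mem_extChartAt_source (I := 𝓡 3) x
  have hxt := mem_extChartAt_target (I := 𝓡 3) x
  have hleft := (extChartAt (𝓡 3) x).left_inv hx
  have h1 := Dw_chart F x [i, j] hf hxt
  have h2 := Dw_chart F x [j, i] hf hxt
  rw [hleft] at h1 h2
  have h3 : ∀ k, F.D k f x = fderiv ℝ (fun y => f ((extChartAt (𝓡 3) x).symm y)) (extChartAt (𝓡 3) x x)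
      (Ech F x k (extChartAt (𝓡 3) x x)) := by
    intro k
    have := Dw_chart F x [k] hf hxt
    rw [hleft] at this
    exact this
  have h4 := Dl_comm (chart_target_open x) (Ech_smooth F x i) (Ech_smooth F x j)
    (comp_symm_smooth x hf.contMDiffOn) hxt
  rw [bracket_chart F x i j, map_sum] at h4
  show F.DW [i, j] f x - F.DW [j, i] f x = _
  rw [h1, h2]
  refine h4.trans (Finset.sum_congr rfl fun k _ => ?_)
  rw [map_smul, h3]

end Mfd

end Pool.Agent.FUE
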