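import Pool.Agent.FUE.StS
import Pool.Agent.FUE.Mf2

/-!
# Fueter sections: the left invariant frame of the unit three-sphere (helper98)

Module `S3`: `thm_S3 : St_S3`.
-/

set_option autoImplicit false

open scoped Manifold ContDiff Matrix Topology
open Filter

namespace Pool.Agent.FUE

namespace S3x

section gen

variable {M : Type} [TopologicalSpace M] [ChartedSpace E3 M] [IsManifold (𝓡 3) ∞ M]
variable {V : Type} [NormedAddCommGroup V] [NormedSpace ℝ V]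

/-- the derivative of a function along a vector field -/
noncomputable def dv (e : ∀ x : M, TangentSpace (𝓡 3) x) (f : M → V) (x : M) : V :=
  mfderiv (𝓡 3) 𝓘(ℝ, V) f x (e x)

theorem dv_smoothOn (e : ∀ x : M, TangentSpace (𝓡 3) x)
    (he : ContMDiff (𝓡 3) (𝓡 3).tangent ∞ (fun x => (⟨x, e x⟩ : TangentBundle (𝓡 3) M)))
    {f : M → V} {s : Set M} (hs : IsOpen s)
    (hf : ContMDiffOn (𝓡 3) 𝓘(ℝ, V) ∞ f s) : ContMDiffOn (𝓡 3) 𝓘(ℝ, V) ∞ (dv e f) s := by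
  have : IsManifold (𝓡 3) 1 M := IsManifold.of_le (n := ∞) (by norm_cast)
  have h1 := hf.contMDiffOn_tangentMapWithin (m := ∞) (by norm_cast) hs.uniqueMDiffOn
  have h2 := (contMDiff_snd_tangentBundle_modelSpace V 𝓘(ℝ, V) (n := ∞)).comp_contMDiffOn
    (h1.comp he.contMDiffOn (fun x hx => hx))
  refine h2.congr ?_
  intro x hx
  show dv e f x = (tangentMapWithin (𝓡 3) 𝓘(ℝ, V) f s ⟨x, e x⟩).2
  unfold dv tangentMapWithin
  simp only
  rw [mfderivWithin_of_isOpen hs hx]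

/-- the vector field in the chart at `p` -/
noncomputable def Ev (e : ∀ x : M, TangentSpace (𝓡 3) x) (p : M) (y : E3) : E3 :=
  dv e (extChartAt (𝓡 3) p) ((extChartAt (𝓡 3) p).symm y)

theorem Ev_smooth (e : ∀ x : M, TangentSpace (𝓡 3) x)
    (he : ContMDiff (𝓡 3) (𝓡 3).tangent ∞ (fun x => (⟨x, e x⟩ : TangentBundle (𝓡 3) M))) (p : M) :
    ContDiffOn ℝ ∞ (Ev e p) (extChartAt (𝓡 3) p).target :=
  comp_symm_smooth p (dv_smoothOn e he (chart_source_open p) (chart_smooth p))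

/-- the derivative in a chart -/
theorem d_chart (p : M) {f : M → V} {x : M} (v : TangentSpace (𝓡 3) x)
    (hx : x ∈ (extChartAt (𝓡 3) p).source) (hf : MDifferentiableAt (𝓡 3) 𝓘(ℝ, V) f x) :
    (mfderiv (𝓡 3) 𝓘(ℝ, V) f x v : V) =
      fderiv ℝ (fun y => f ((extChartAt (𝓡 3) p).symm y)) (extChartAt (𝓡 3) p x)
      (mfderiv (𝓡 3) 𝓘(ℝ, E3) (extChartAt (𝓡 3) p) x v : E3) := by
  have hy : extChartAt (𝓡 3) p x ∈ (extChartAt (𝓡 3) p).target := (extChartAt (𝓡 3) p).map_source hx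
  have hsymm : MDifferentiableAt 𝓘(ℝ, E3) (𝓡 3) (extChartAt (𝓡 3) p).symm (extChartAt (𝓡 3) p x) :=
    ((symm_smooth p).contMDiffAt ((chart_target_open p).mem_nhds hy)).mdifferentiableAt (by norm_cast)
  have hch : MDifferentiableAt (𝓡 3) 𝓘(ℝ, E3) (extChartAt (𝓡 3) p) x :=
    ((chart_smooth p).contMDiffAt ((chart_source_open p).mem_nhds hx)).mdifferentiableAt (by norm_cast)
  have hleft : (extChartAt (𝓡 3) p).symm (extChartAt (𝓡 3) p x) = x := (extChartAt (𝓡 3) p).left_inv hx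
  have hg : MDifferentiableAt 𝓘(ℝ, E3) 𝓘(ℝ, V) (f ∘ (extChartAt (𝓡 3) p).symm) (extChartAt (𝓡 3) p x) := by
    refine MDifferentiableAt.comp _ ?_ hsymm
    rw [hleft]
    exact hf
  have h1 : f =ᶠ[𝓝 x] (f ∘ (extChartAt (𝓡 3) p).symm) ∘ (extChartAt (𝓡 3) p) := by
    filter_upwards [(chart_source_open p).mem_nhds hx] with z hz
    simp only [Function.comp_apply]
    rw [(extChartAt (𝓡 3) p).left_inv hz]
  have h2 : (mfderiv (𝓡 3) 𝓘(ℝ, V) f x : E3 →L[ℝ] V) =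
      (fderiv ℝ (f ∘ (extChartAt (𝓡 3) p).symm) (extChartAt (𝓡 3) p x)).comp
        (mfderiv (𝓡 3) 𝓘(ℝ, E3) (extChartAt (𝓡 3) p) x : E3 →L[ℝ] E3) := by
    refine (h1.mfderiv_eq).trans ((mfderiv_comp x hg hch).trans ?_)
    rw [mfderiv_eq_fderiv]
    rfl
  exact congrArg (fun L : E3 →L[ℝ] V => L v) h2

theorem dv_chart (e : ∀ x : M, TangentSpace (𝓡 3) x) (p : M) {f : M → V} {y : E3}
    (hy : y ∈ (extChartAt (𝓡 3) p).target)
    (hf : MDifferentiableAt (𝓡 3) 𝓘(ℝ, V) f ((extChartAt (𝓡 3) p).symm y)) :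
    dv e f ((extChartAt (𝓡 3) p).symm y) =
      Dl (Ev e p) (fun y => f ((extChartAt (𝓡 3) p).symm y)) y := by
  have h := d_chart p (e ((extChartAt (𝓡 3) p).symm y)) ((extChartAt (𝓡 3) p).map_target hy) hf
  rw [(extChartAt (𝓡 3) p).right_inv hy] at h
  exact h

/-- the bracket in the chart at `x` -/
theorem mlie_chart (e e' : ∀ x : M, TangentSpace (𝓡 3) x) (x : M) :
    (mfderiv (𝓡 3) 𝓘(ℝ, E3) (extChartAt (𝓡 3) x) x (VectorField.mlieBracket (𝓡 3) e e' x) : E3) =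
      VectorField.lieBracket ℝ (Ev e x) (Ev e' x) (extChartAt (𝓡 3) x x) := by
  have : IsManifold (𝓡 3) 1 M := IsManifold.of_le (n := ∞) (by norm_cast)
  have hx := mem_extChartAt_source (I := 𝓡 3) x
  have hxt := mem_extChartAt_target (I := 𝓡 3) x
  have hpull : ∀ e : ∀ x : M, TangentSpace (𝓡 3) x, ∀ z ∈ (extChartAt (𝓡 3) x).target,
      VectorField.mpullbackWithin 𝓘(ℝ, E3) (𝓡 3) (extChartAt (𝓡 3) x).symm e (Set.range (𝓡 3)) z =
        Ev e x z := by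
    intro l z hz
    rw [VectorField.mpullbackWithin_apply]
    have h1 := mfderiv_extChartAt_comp_mfderivWithin_extChartAt_symm (I := 𝓡 3) hz
    have h2 := mfderivWithin_extChartAt_symm_comp_mfderiv_extChartAt (I := 𝓡 3) hz
    rw [ContinuousLinearMap.inverse_eq h2 h1]
    rfl
  have h4 : VectorField.mlieBracket (𝓡 3) e e' x =
      (mfderiv (𝓡 3) 𝓘(ℝ, E3) (extChartAt (𝓡 3) x) x).inverse
        ((VectorField.lieBracket ℝ (Ev e x) (Ev e' x) (extChartAt (𝓡 3) x x) : E3)) := by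
    rw [← VectorField.mlieBracketWithin_univ, VectorField.mlieBracketWithin_apply]
    congr 1
    have h5 : ((extChartAt (𝓡 3) x).symm ⁻¹' Set.univ ∩ Set.range (𝓡 3)) = Set.univ := by
      simp
    rw [h5, VectorField.lieBracketWithin_univ]
    have h6 : ∀ l : ∀ x : M, TangentSpace (𝓡 3) x,
        (VectorField.mpullbackWithin 𝓘(ℝ, E3) (𝓡 3) (extChartAt (𝓡 3) x).symm l
        (Set.range (𝓡 3)) : E3 → E3) =ᶠ[𝓝 (extChartAt (𝓡 3) x x : E3)] Ev l x := by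
      intro l
      filter_upwards [(chart_target_open x).mem_nhds hxt] with z hz
      exact hpull l z hz
    exact Filter.EventuallyEq.lieBracket_vectorField_eq (𝕜 := ℝ) (E := E3) (h6 e) (h6 e')
  have hinv : (mfderiv (𝓡 3) 𝓘(ℝ, E3) (extChartAt (𝓡 3) x) x).IsInvertible :=
    isInvertible_mfderiv_extChartAt hx
  rw [h4]
  exact hinv.self_apply_inverse _

/-- derivative of a function along a bracket -/
theorem mlie_apply (e e' : ∀ x : M, TangentSpace (𝓡 3) x)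
    (he : ContMDiff (𝓡 3) (𝓡 3).tangent ∞ (fun x => (⟨x, e x⟩ : TangentBundle (𝓡 3) M)))
    (he' : ContMDiff (𝓡 3) (𝓡 3).tangent ∞ (fun x => (⟨x, e' x⟩ : TangentBundle (𝓡 3) M)))
    {f : M → V} (hf : ContMDiff (𝓡 3) 𝓘(ℝ, V) ∞ f) (J J' : V →L[ℝ] V)
    (hJ : ∀ z, dv e f z = J (f z)) (hJ' : ∀ z, dv e' f z = J' (f z)) (x : M) :
    (mfderiv (𝓡 3) 𝓘(ℝ, V) f x (VectorField.mlieBracket (𝓡 3) e e' x) : V) =
      J' (J (f x)) - J (J' (f x)) := by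
  have hx := mem_extChartAt_source (I := 𝓡 3) x
  have hxt := mem_extChartAt_target (I := 𝓡 3) x
  have hleft := (extChartAt (𝓡 3) x).left_inv hx
  have hmd : ∀ z, MDifferentiableAt (𝓡 3) 𝓘(ℝ, V) f z := fun z =>
    hf.mdifferentiable (by norm_cast) z
  rw [d_chart x _ hx (hmd x), mlie_chart]
  have hg := comp_symm_smooth x (V := V) hf.contMDiffOn
  have h4 := Dl_comm (chart_target_open x) (Ev_smooth e he x) (Ev_smooth e' he' x) hg hxt
  refine h4.symm.trans ?_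
  have key : ∀ (l : ∀ x : M, TangentSpace (𝓡 3) x) (K : V →L[ℝ] V), (∀ z, dv l f z = K (f z)) →
      ∀ y ∈ (extChartAt (𝓡 3) x).target, Dl (Ev l x) (fun y => f ((extChartAt (𝓡 3) x).symm y)) y =
        K (f ((extChartAt (𝓡 3) x).symm y)) := by
    intro l K hK y hy
    rw [← dv_chart l x hy (hmd _), hK]
  have key2 : ∀ (l l' : ∀ x : M, TangentSpace (𝓡 3) x) (K K' : V →L[ℝ] V),
      (∀ z, dv l f z = K (f z)) → (∀ z, dv l' f z = K' (f z)) →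
      Dl (Ev l x) (Dl (Ev l' x) (fun y => f ((extChartAt (𝓡 3) x).symm y)))
        (extChartAt (𝓡 3) x x) = K' (K (f x)) := by
    intro l l' K K' hK hK'
    have h5 : Dl (Ev l' x) (fun y => f ((extChartAt (𝓡 3) x).symm y)) =ᶠ[𝓝 (extChartAt (𝓡 3) x x)]
        fun y => K' (f ((extChartAt (𝓡 3) x).symm y)) := by
      filter_upwards [(chart_target_open x).mem_nhds hxt] with z hz
      exact key l' K' hK' z hz
    have h6 : DifferentiableAt ℝ (fun y => f ((extChartAt (𝓡 3) x).symm y))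
        (extChartAt (𝓡 3) x x) :=
      (hg.contDiffAt ((chart_target_open x).mem_nhds hxt)).differentiableAt (by norm_cast)
    change fderiv ℝ (Dl (Ev l' x) (fun y => f ((extChartAt (𝓡 3) x).symm y)))
      (extChartAt (𝓡 3) x x) (Ev l x (extChartAt (𝓡 3) x x)) = _
    have h8 : HasFDerivAt (fun y => K' (f ((extChartAt (𝓡 3) x).symm y)))
        (K'.comp (fderiv ℝ (fun y => f ((extChartAt (𝓡 3) x).symm y)) (extChartAt (𝓡 3) x x)))
        (extChartAt (𝓡 3) x x) := K'.hasFDerivAt.comp _ h6.hasFDerivAt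
    rw [h5.fderiv_eq, h8.fderiv]
    have h7 := key l K hK _ hxt
    rw [hleft] at h7
    exact congrArg K' h7
  rw [key2 e e' J J' hJ hJ', key2 e' e J' J hJ' hJ]

end gen

/-- the unit sphere -/
abbrev Sph : Type := Metric.sphere (0 : E4) 1

/-- `Jq i` as a linear map -/
noncomputable def Jl (i : Fin 3) : E4 →L[ℝ] E4 :=
  LinearMap.toContinuousLinearMap
    { toFun := Jq i
      map_add' := fun x y => by
        ext k
        fin_cases i <;> fin_cases k <;> simp [Jq] <;> ring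
      map_smul' := fun r x => by
        ext k
        fin_cases i <;> fin_cases k <;> simp [Jq] }

theorem Jl_apply (i : Fin 3) (x : E4) : Jl i x = Jq i x := rfl

theorem inner_Jq (x : E4) (i j : Fin 3) :
    inner ℝ (Jq i x) (Jq j x) = if i = j then ‖x‖ ^ 2 else 0 := by
  rw [EuclideanSpace.real_norm_sq_eq, PiLp.inner_apply, Fin.sum_univ_four, Fin.sum_univ_four]
  fin_cases i <;> fin_cases j <;> simp [Jq] <;> ring

theorem inner_self_Jq (x : E4) (i : Fin 3) : inner ℝ x (Jq i x) = 0 := by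
  fin_cases i <;> simp [Jq, PiLp.inner_apply, Fin.sum_univ_four] <;> ring

theorem norm_Jq (x : E4) (i : Fin 3) : ‖Jq i x‖ ^ 2 = ‖x‖ ^ 2 := by
  rw [← real_inner_self_eq_norm_sq, inner_Jq, if_pos rfl]

/-- the flow as a map to `ℝ⁴` -/
noncomputable def fl (i : Fin 3) (p : ℝ × Sph) : E4 :=
  Real.cos p.1 • (p.2 : E4) + Real.sin p.1 • Jl i (p.2 : E4)

theorem fl_mem (i : Fin 3) (p : ℝ × Sph) : fl i p ∈ Metric.sphere (0 : E4) 1 := by
  have hx : ‖(p.2 : E4)‖ = 1 := by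
    have := p.2.2
    rwa [mem_sphere_zero_iff_norm] at this
  rw [mem_sphere_zero_iff_norm]
  have h1 : ‖fl i p‖ ^ 2 = 1 := by
    rw [fl, norm_add_sq_real, norm_smul, norm_smul, real_inner_smul_left, real_inner_smul_right,
      Jl_apply, inner_self_Jq, mul_pow, mul_pow, norm_Jq, hx, Real.norm_eq_abs, Real.norm_eq_abs,
      sq_abs, sq_abs]
    have := Real.sin_sq_add_cos_sq p.1
    linarith
  have h2 : 0 ≤ ‖fl i p‖ := norm_nonneg _
  nlinarith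

theorem fl_zero (i : Fin 3) (x : Sph) : fl i (0, x) = x := by
  rw [fl]
  simp

theorem fl_smooth (i : Fin 3) :
    ContMDiff (𝓘(ℝ, ℝ).prod (𝓡 3)) 𝓘(ℝ, E4) ∞ (fl i) := by
  have h1 : ContMDiff (𝓘(ℝ, ℝ).prod (𝓡 3)) 𝓘(ℝ, ℝ) ∞ (fun p : ℝ × Sph => Real.cos p.1) :=
    Real.contDiff_cos.contMDiff.comp contMDiff_fst
  have h2 : ContMDiff (𝓘(ℝ, ℝ).prod (𝓡 3)) 𝓘(ℝ, ℝ) ∞ (fun p : ℝ × Sph => Real.sin p.1) :=
    Real.contDiff_sin.contMDiff.comp contMDiff_fst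
  have h3 : ContMDiff (𝓘(ℝ, ℝ).prod (𝓡 3)) 𝓘(ℝ, E4) ∞ (fun p : ℝ × Sph => (p.2 : E4)) :=
    contMDiff_coe_sphere.comp contMDiff_snd
  have h4 : ContMDiff (𝓘(ℝ, ℝ).prod (𝓡 3)) 𝓘(ℝ, E4) ∞ (fun p : ℝ × Sph => Jl i (p.2 : E4)) :=
    (Jl i).contDiff.contMDiff.comp h3
  exact (h1.smul h3).add (h2.smul h4)

/-- the flow -/
noncomputable def Fl (i : Fin 3) : ℝ × Sph → Sph := Set.codRestrict (fl i) _ (fl_mem i)

theorem Fl_smooth (i : Fin 3) : ContMDiff (𝓘(ℝ, ℝ).prod (𝓡 3)) (𝓡 3) ∞ (Fl i) :=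
  (fl_smooth i).codRestrict_sphere (fl_mem i)

theorem Fl_zero (i : Fin 3) (x : Sph) : Fl i (0, x) = x := Subtype.ext (fl_zero i x)

/-- the left invariant vector fields -/
noncomputable def ev (i : Fin 3) (x : Sph) : TangentSpace (𝓡 3) x :=
  (show E3 from (mfderiv (𝓘(ℝ, ℝ).prod (𝓡 3)) (𝓡 3) (Fl i) ((0 : ℝ), x) : (ℝ × E3) →L[ℝ] E3)
    ((1 : ℝ), (0 : E3)))

theorem bundle_eq (x y : Sph) (h : y = x) (v : E3) :
    (⟨y, v⟩ : TangentBundle (𝓡 3) Sph) = ⟨x, v⟩ := by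
  subst h
  rfl

theorem ev_smooth (i : Fin 3) : ContMDiff (𝓡 3) (𝓡 3).tangent ∞
    (fun x => (⟨x, ev i x⟩ : TangentBundle (𝓡 3) Sph)) := by
  let fg : Sph → TangentBundle 𝓘(ℝ, ℝ) ℝ := fun _ => ⟨(0 : ℝ), (1 : ℝ)⟩
  have sfg : ContMDiff (𝓡 3) 𝓘(ℝ, ℝ).tangent ∞ fg := contMDiff_const
  let fv : Sph → TangentBundle (𝓡 3) Sph := fun x => ⟨x, (0 : E3)⟩
  have sfv : ContMDiff (𝓡 3) (𝓡 3).tangent ∞ fv := Bundle.contMDiff_zeroSection _ _
  let F₁ : Sph → TangentBundle 𝓘(ℝ, ℝ) ℝ × TangentBundle (𝓡 3) Sph := fun x => (fg x, fv x)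
  have S₁ : ContMDiff (𝓡 3) (𝓘(ℝ, ℝ).tangent.prod (𝓡 3).tangent) ∞ F₁ := sfg.prodMk sfv
  let F₂ : TangentBundle 𝓘(ℝ, ℝ) ℝ × TangentBundle (𝓡 3) Sph →
      TangentBundle (𝓘(ℝ, ℝ).prod (𝓡 3)) (ℝ × Sph) :=
    (equivTangentBundleProd 𝓘(ℝ, ℝ) ℝ (𝓡 3) Sph).symm
  have S₂ : ContMDiff (𝓘(ℝ, ℝ).tangent.prod (𝓡 3).tangent) (𝓘(ℝ, ℝ).prod (𝓡 3)).tangent ∞ F₂ :=
    contMDiff_equivTangentBundleProd_symm
  let F₃ : TangentBundle (𝓘(ℝ, ℝ).prod (𝓡 3)) (ℝ × Sph) → TangentBundle (𝓡 3) Sph :=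
    tangentMap (𝓘(ℝ, ℝ).prod (𝓡 3)) (𝓡 3) (Fl i)
  have S₃ : ContMDiff (𝓘(ℝ, ℝ).prod (𝓡 3)).tangent (𝓡 3).tangent ∞ F₃ :=
    (Fl_smooth i).contMDiff_tangentMap (m := ∞) (by norm_cast)
  have S := (S₃.comp S₂).comp S₁
  have h : (fun x => (⟨x, ev i x⟩ : TangentBundle (𝓡 3) Sph)) = (F₃ ∘ F₂) ∘ F₁ := by
    funext x
    exact (bundle_eq x _ (Fl_zero i x) (ev i x)).symm
  rw [h]
  exact S

/-- the inclusion -/
noncomputable def inc (x : Sph) : E4 := x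

theorem inc_smooth : ContMDiff (𝓡 3) 𝓘(ℝ, E4) ∞ inc := contMDiff_coe_sphere

theorem inc_base (x y : Sph) (h : y = x) :
    (mfderiv (𝓡 3) 𝓘(ℝ, E4) inc y : E3 →L[ℝ] E4) =
      (mfderiv (𝓡 3) 𝓘(ℝ, E4) inc x : E3 →L[ℝ] E4) := by
  subst h
  rfl

theorem dinc (i : Fin 3) (x : Sph) : (mfderiv (𝓡 3) 𝓘(ℝ, E4) inc x (ev i x) : E4) = Jl i x := by
  have hfl : MDifferentiableAt (𝓘(ℝ, ℝ).prod (𝓡 3)) 𝓘(ℝ, E4) (fl i) ((0 : ℝ), x) :=
    (fl_smooth i).mdifferentiable (by norm_cast) _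
  have hFl : MDifferentiableAt (𝓘(ℝ, ℝ).prod (𝓡 3)) (𝓡 3) (Fl i) ((0 : ℝ), x) :=
    (Fl_smooth i).mdifferentiable (by norm_cast) _
  have hinc : MDifferentiableAt (𝓡 3) 𝓘(ℝ, E4) inc (Fl i ((0 : ℝ), x)) :=
    inc_smooth.mdifferentiable (by norm_cast) _
  have h1 : (mfderiv (𝓘(ℝ, ℝ).prod (𝓡 3)) 𝓘(ℝ, E4) (fl i) ((0 : ℝ), x) : (ℝ × E3) →L[ℝ] E4) =
      (mfderiv (𝓡 3) 𝓘(ℝ, E4) inc (Fl i ((0 : ℝ), x)) : E3 →L[ℝ] E4).comp
        (mfderiv (𝓘(ℝ, ℝ).prod (𝓡 3)) (𝓡 3) (Fl i) ((0 : ℝ), x) : (ℝ × E3) →L[ℝ] E3) :=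
    mfderiv_comp ((0 : ℝ), x) hinc hFl
  rw [inc_base x _ (Fl_zero i x)] at h1
  have h2 : (mfderiv (𝓡 3) 𝓘(ℝ, E4) inc x (ev i x) : E4) =
      (mfderiv (𝓘(ℝ, ℝ).prod (𝓡 3)) 𝓘(ℝ, E4) (fl i) ((0 : ℝ), x) : (ℝ × E3) →L[ℝ] E4)
        ((1 : ℝ), (0 : E3)) := by
    rw [h1]
    rfl
  rw [h2]
  have h3 := mfderiv_prod_eq_add_apply (v := (((1 : ℝ), (0 : E3)) : ℝ × E3)) hfl
  refine h3.trans ?_
  have h4 : HasDerivAt (fun t : ℝ => fl i (t, x)) (Jl i x) 0 := by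
    have e1 := ((Real.hasDerivAt_cos 0).smul_const (x : E4)).add
      ((Real.hasDerivAt_sin 0).smul_const (Jl i (x : E4)))
    simp only [Real.sin_zero, neg_zero, zero_smul, Real.cos_zero, one_smul, zero_add] at e1
    exact e1
  have h5 : (mfderiv 𝓘(ℝ, ℝ) 𝓘(ℝ, E4) (fun t : ℝ => fl i (t, x)) (0 : ℝ) : ℝ →L[ℝ] E4) (1 : ℝ) =
      Jl i x := by
    have h7 : fderiv ℝ (fun t : ℝ => fl i (t, x)) 0 (1 : ℝ) = Jl i x := by
      rw [fderiv_apply_one_eq_deriv]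
      exact h4.deriv
    rw [mfderiv_eq_fderiv]
    exact h7
  have h6 : (mfderiv (𝓡 3) 𝓘(ℝ, E4) (fun z : Sph => fl i ((0 : ℝ), z)) x : E3 →L[ℝ] E4)
      (0 : E3) = 0 := map_zero _
  exact (congrArg₂ (· + ·) h5 h6).trans (add_zero _)

theorem dinc_inj (x : Sph) (v w : TangentSpace (𝓡 3) x)
    (h : (mfderiv (𝓡 3) 𝓘(ℝ, E4) inc x v : E4) = (mfderiv (𝓡 3) 𝓘(ℝ, E4) inc x w : E4)) :
    v = w :=
  mfderiv_coe_sphere_injective x h

theorem Jq_indep (x : Sph) : LinearIndependent ℝ (fun i => Jq i (x : E4)) := by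
  have hx : ‖(x : E4)‖ = 1 := by
    have := x.2
    rwa [mem_sphere_zero_iff_norm] at this
  have h1 : Orthonormal ℝ (fun i => Jq i (x : E4)) := by
    rw [orthonormal_iff_ite]
    intro i j
    rw [inner_Jq, hx, one_pow]
  exact h1.linearIndependent

theorem ev_indep (x : Sph) : LinearIndependent ℝ (fun i => ev i x) := by
  have h1 : LinearIndependent ℝ
      ((mfderiv (𝓡 3) 𝓘(ℝ, E4) inc x : E3 →L[ℝ] E4).toLinearMap ∘ fun i => (ev i x : E3)) := by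
    have h2 : ((mfderiv (𝓡 3) 𝓘(ℝ, E4) inc x : E3 →L[ℝ] E4).toLinearMap ∘
        fun i => (ev i x : E3)) = fun i => Jq i (x : E4) := by
      funext i
      exact dinc i x
    rw [h2]
    exact Jq_indep x
  exact h1.of_comp _

theorem Jq_bracket (i j : Fin 3) (x : E4) :
    Jl j (Jl i x) - Jl i (Jl j x) = ∑ k, (2 * eps i j k) • Jl k x := by
  simp only [Jl_apply, Fin.sum_univ_three]
  ext a
  fin_cases i <;> fin_cases j <;> fin_cases a <;> simp [Jq, eps] <;> ring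

theorem ev_bracket (i j : Fin 3) (x : Sph) :
    VectorField.mlieBracket (𝓡 3) (ev i) (ev j) x = ∑ k, (2 * eps i j k) • ev k x := by
  refine dinc_inj x _ _ ?_
  have h1 := mlie_apply (ev i) (ev j) (ev_smooth i) (ev_smooth j) inc_smooth (Jl i) (Jl j)
    (fun z => dinc i z) (fun z => dinc j z) x
  refine h1.trans ((Jq_bracket i j x).trans ?_)
  rw [map_sum]
  refine Finset.sum_congr rfl fun k _ => ?_
  rw [map_smul]
  exact congrArg (fun w : E4 => (2 * eps i j k) • w) (dinc k x).symm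

/-- the left invariant frame -/
noncomputable def fr : Frame Sph where
  e := ev
  smooth_e := ev_smooth
  indep := ev_indep
  c := fun i j k _ => 2 * eps i j k
  smooth_c := fun _ _ _ => contMDiff_const
  bracket := ev_bracket

end S3x

open S3x in
theorem thm_S3 : St_S3 := ⟨fun x i j => inner_Jq x i j, fr, fun _ _ _ _ => rfl,
  fun x i => dinc i x⟩

end Pool.Agent.FUE
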