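import Pool.Agent.FUE.AllX
import Pool.Agent.FUE.C1
import Pool.Agent.FUE.C2
import Pool.Agent.FUE.C3
import Pool.Agent.FUE.C4
import Pool.Agent.FUE.C5
import Pool.Agent.FUE.C6
import Pool.Agent.FUE.C7
import Pool.Agent.FUE.S3

/-!
# Fueter sections: assembly of block C
-/

set_option autoImplicit false

namespace Pool.Agent.FUE

theorem all_C2 : St_C2 := thm_C2 all_A02 all_A04 thm_C1 all_X3
theorem all_C3 : St_C3 := thm_C3 all_A01 all_A04 all_A12
theorem all_C5 : St_C5 := thm_C5 thm_C1 all_C3 thm_C4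
theorem all_C6 : St_C6 := thm_C6 thm_C1 all_C2 all_C5
theorem all_C7 : St_C7 := thm_C7 all_A01 all_A04 all_A12 thm_C1

end Pool.Agent.FUE
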