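import Pool.Agent.FUE.Mc3

/-!
# Fueter sections: CPT, compactness of sequences of local solutions (helper17)
-/

set_option autoImplicit false

namespace Pool.Agent.FUE

open scoped Manifold ContDiff Topology Matrix
open Filter

theorem lam_cont : Continuous fun P : V9 => lam P := by
  have h : (fun P : V9 => lam P) = fun P : V9 => ∑ i, P (i, i) := by
    funext P
    rfl
  rw [h]
  exact continuous_finsetSum _ fun i _ => (EuclideanSpace.proj (i, i) : V9 →L[ℝ] ℝ).continuous

theorem tendsto_apply {V V' : Type} [NormedAddCommGroup V] [NormedSpace ℝ V] [NormedAddCommGroup V']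
    [NormedSpace ℝ V'] {L : ℕ → V →L[ℝ] V'} {L' : V →L[ℝ] V'} {a : ℕ → V} {a' : V}
    (hL : Tendsto L atTop (𝓝 L')) (ha : Tendsto a atTop (𝓝 a')) :
    Tendsto (fun n => L n (a n)) atTop (𝓝 (L' a')) := by
  have h : Continuous fun p : (V →L[ℝ] V') × V => p.1 p.2 := continuous_fst.clm_apply continuous_snd
  exact (h.tendsto (L', a')).comp (hL.prodMk_nhds ha)

theorem thm_Cpt (hSec : Rg.St_Sec) (hRgv : Rg.St_Rgv) (hAav : Rg.St_Aav) (hA14 : St_A14) : St_Cpt := by
  intro pr S U hU B W B' W' u hB' hW' hi hB hW hloc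
  have hl := fun x (hx : x ∈ U) => cpt_local hSec hRgv hU hB' hW' hB hW hx (hi x hx) (hloc x hx)
  obtain ⟨φ, v, hφ, hvs, hvc⟩ := hAav U u hU fun x hx => by
    obtain ⟨r, n₀, hr, hb, h1, h2⟩ := hl x hx
    exact ⟨r, hr, n₀, fun n hn => (h1 n hn).smooth, h2⟩
  have hc : CLoc U (fun n => u (φ n)) v := by
    refine ⟨fun K hK hKU => ?_, fun k => (tendstoLocallyUniformlyOn_iff_forall_isCompact hU).2
      fun K hKU hK => hvc k K hKU hK⟩
    choose! r n₀ hr hb h1 h2 using hl
    obtain ⟨t, htK, ht⟩ := hK.elim_nhds_subcover (fun x => Metric.ball x (r x))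
      (fun x hx => Metric.ball_mem_nhds x (hr x (hKU hx)))
    have hev : ∀ᶠ n in atTop, ∀ x ∈ t, n₀ x ≤ φ n := by
      rw [Filter.eventually_all_finset]
      intro x _
      exact hφ.tendsto_atTop.eventually (eventually_ge_atTop (n₀ x))
    filter_upwards [hev] with n hn
    refine ⟨⋃ x ∈ t, Metric.ball x (r x), isOpen_biUnion fun _ _ => Metric.isOpen_ball, ht, fun y hy => ?_⟩
    obtain ⟨x, hxt, hy⟩ := Set.mem_iUnion₂.1 hy
    exact (((h1 x (hKU (htK x hxt)) (φ n) (hn x hxt)).smooth).contDiffAt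
      (Metric.isOpen_ball.mem_nhds hy)).contDiffWithinAt
  refine ⟨φ, v, hφ, ⟨hvs, fun x hx => ?_, fun x hx => ?_⟩, fun x hx => ?_, hc⟩
  · obtain ⟨r, n₀, hr, hb, h1, h2⟩ := hl x hx
    refine hA14.1.mem_of_tendsto (cloc_tendsto hU hc hx) ?_
    filter_upwards [hφ.tendsto_atTop.eventually (eventually_ge_atTop n₀)] with n hn
    exact (h1 (φ n) hn).mem x (Metric.mem_ball_self hr)
  · obtain ⟨r, n₀, hr, hb, h1, h2⟩ := hl x hx
    have hshift : Tendsto (fun n : ℕ => n + n₀) atTop atTop := tendsto_add_atTop_nat n₀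
    have hge : ∀ n : ℕ, n₀ ≤ φ (n + n₀) := fun n => (Nat.le_add_left n₀ n).trans (hφ.id_le _)
    have t1 : Tendsto (fun n => u (φ (n + n₀)) x) atTop (𝓝 (v x)) := (cloc_tendsto hU hc hx).comp hshift
    have t2 : Tendsto (fun n => fderiv ℝ (u (φ (n + n₀))) x) atTop (𝓝 (fderiv ℝ v x)) :=
      ((cloc_one hU hc (isCompact_singleton (x := x)) (Set.singleton_subset_iff.2 hx)).tendsto_at
        (Set.mem_singleton x)).comp hshift
    have t3 : ∀ j, Tendsto (fun n => B (φ (n + n₀)) j x) atTop (𝓝 (B' j x)) := fun j =>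
      (cloc_tendsto hU (cloc_subseq (hB j) hφ) hx).comp hshift
    have t4 : ∀ j, Tendsto (fun n => W (φ (n + n₀)) j x) atTop (𝓝 (W' j x)) := fun j =>
      (cloc_tendsto hU (cloc_subseq (hW j) hφ) hx).comp hshift
    have hconv : ∀ (L X Y : V9), toM (L + Rg.sec_br X Y) = toM L + (toM X * toM Y - toM Y * toM X) := by
      intro L X Y
      rw [Rg.sec_toM_add, Rg.sec_br_apply, Rg.sec_toM_ofM]
    have key := hA14.2 pr (fun n => u (φ (n + n₀)) x)
      (fun n j => fderiv ℝ (u (φ (n + n₀))) x (B (φ (n + n₀)) j x) +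
        Rg.sec_br (W (φ (n + n₀)) j x) (u (φ (n + n₀)) x)) (v x)
      (fun j => fderiv ℝ v x (B' j x) + Rg.sec_br (W' j x) (v x)) (fun n => ?_) t1 (fun j => ?_)
    · simp only [hconv] at key
      exact key
    · have h3 := (h1 _ (hge n)).eq x (Metric.mem_ball_self hr)
      simp only [hconv]
      exact h3
    · exact (tendsto_apply t2 (t3 j)).add (tendsto_apply ((Rg.sec_br.continuous.tendsto _).comp (t4 j)) t1)
  · obtain ⟨r, n₀, L, hr, hb, h1⟩ := hloc x hx
    refine le_of_tendsto ((lam_cont.tendsto _).comp (cloc_tendsto hU hc hx)) ?_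
    filter_upwards [hφ.tendsto_atTop.eventually (eventually_ge_atTop n₀)] with n hn
    exact ((h1 (φ n) hn).2 x (Metric.mem_ball_self hr)).1

end Pool.Agent.FUE
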