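import Pool.Agent.FUE.RgSt

/-!
# FUE REG AAA: Arzela-Ascoli, locally uniform version (helper41)
-/

set_option autoImplicit false

open scoped ContDiff Topology
open Metric Filter

namespace Pool.Agent.FUE.Rg

theorem aaa_unif (D U : Set E3) (hD : Dense D) (hU : IsOpen U) (g : ℕ → E3 → ℝ)
    (hg : ∀ q ∈ D ∩ U, ∃ L : ℝ, Tendsto (fun n => g n q) atTop (𝓝 L)) (x : E3) (hx : x ∈ U)
    (H : ∃ r > 0, ∃ (n₀ : ℕ) (C : ℝ), ∀ n ≥ n₀, ∀ y ∈ ball x r, ∀ z ∈ ball x r,
      |g n y - g n z| ≤ C * dist y z) :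
    ∃ r > 0, ball x r ⊆ U ∧ UniformCauchySeqOn g atTop (ball x r) := by
  obtain ⟨r, hr, n₀, C, hC⟩ := H
  obtain ⟨r', hr', hU'⟩ := Metric.isOpen_iff.1 hU x hx
  have hρ : 0 < min r r' := lt_min hr hr'
  refine ⟨min r r' / 2, half_pos hρ, ?_, ?_⟩
  · exact (ball_subset_ball (by linarith [min_le_right r r'])).trans hU'
  rw [Metric.uniformCauchySeqOn_iff]
  intro ε hε
  set ρ := min r r' with hρd
  have hC' : 0 < |C| + 1 := by positivity
  set η := min (ρ / 2) (ε / (4 * (|C| + 1))) with hη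
  have hη0 : 0 < η := lt_min (half_pos hρ) (by positivity)
  have hη1 : (|C| + 1) * η ≤ ε / 4 := by
    have h1 : η ≤ ε / (4 * (|C| + 1)) := min_le_right _ _
    have h2 : (|C| + 1) * η ≤ (|C| + 1) * (ε / (4 * (|C| + 1))) :=
      mul_le_mul_of_nonneg_left h1 hC'.le
    have h3 : (|C| + 1) * (ε / (4 * (|C| + 1))) = ε / 4 := by
      field_simp
    linarith
  have hcov : closedBall x (ρ / 2) ⊆ ⋃ q ∈ D ∩ ball x ρ, ball q η := by
    intro y hy
    obtain ⟨q, hq1, hq2⟩ := hD.exists_dist_lt y hη0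
    simp only [Set.mem_iUnion]
    refine ⟨q, ⟨hq1, ?_⟩, ?_⟩
    · rw [mem_ball]
      rw [mem_closedBall] at hy
      have h1 : η ≤ ρ / 2 := min_le_left _ _
      have h2 := dist_triangle q y x
      rw [dist_comm q y] at h2
      linarith
    · exact hq2
  obtain ⟨b, hb, hbf, hbc⟩ := (isCompact_closedBall x (ρ / 2)).elim_finite_subcover_image
    (fun q _ => isOpen_ball) hcov
  have hev : ∀ᶠ n in atTop, ∀ q ∈ b, ∀ L : ℝ, Tendsto (fun n => g n q) atTop (𝓝 L) →
      |g n q - L| < ε / 8 := by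
    rw [Filter.eventually_all_finite hbf]
    intro q hq
    have hqU : q ∈ D ∩ U := ⟨(hb hq).1, hU' (ball_subset_ball (min_le_right _ _) (hb hq).2)⟩
    obtain ⟨L, hL⟩ := hg q hqU
    have h1 : ∀ᶠ n in atTop, |g n q - L| < ε / 8 := by
      have h2 := (Metric.tendsto_nhds.1 hL) (ε / 8) (by positivity)
      simpa [Real.dist_eq] using h2
    filter_upwards [h1] with n hn L' hL'
    rw [tendsto_nhds_unique hL' hL]
    exact hn
  obtain ⟨N, hN⟩ := Filter.eventually_atTop.1 hev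
  refine ⟨max N n₀, ?_⟩
  intro m hm n hn y hy
  have hy' : y ∈ closedBall x (ρ / 2) := ball_subset_closedBall hy
  have hy2 := hbc hy'
  simp only [Set.mem_iUnion] at hy2
  obtain ⟨q, hq, hyq⟩ := hy2
  have hqU : q ∈ D ∩ U := ⟨(hb hq).1, hU' (ball_subset_ball (min_le_right _ _) (hb hq).2)⟩
  obtain ⟨L, hL⟩ := hg q hqU
  have hyr : y ∈ ball x r := ball_subset_ball (by linarith [min_le_left r r']) hy
  have hqr : q ∈ ball x r := ball_subset_ball (min_le_left _ _) (hb hq).2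
  have hd : dist y q < η := hyq
  have key : ∀ k, n₀ ≤ k → |g k y - g k q| ≤ ε / 4 := by
    intro k hk
    refine le_trans (hC k hk y hyr q hqr) (le_trans ?_ hη1)
    have h1 : C ≤ |C| + 1 := by linarith [le_abs_self C]
    exact mul_le_mul h1 hd.le dist_nonneg hC'.le
  have k1 := key m (le_trans (le_max_right _ _) hm)
  have k2 := key n (le_trans (le_max_right _ _) hn)
  have k3 := hN m (le_trans (le_max_left _ _) hm) q hq L hL
  have k4 := hN n (le_trans (le_max_left _ _) hn) q hq L hL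
  rw [Real.dist_eq]
  rw [abs_le] at k1 k2
  rw [abs_lt] at k3 k4 ⊢
  constructor <;> linarith [k1.1, k1.2, k2.1, k2.2, k3.1, k3.2, k4.1, k4.2]

theorem thm_Aaa (h1 : St_Aax) : St_Aaa := by
  classical
  intro J _ U F hU H
  obtain ⟨D, hDc, hDd⟩ := TopologicalSpace.exists_countable_dense E3
  have hcD : Countable D := hDc.to_subtype
  have hcS : Countable {q : D // (q : E3) ∈ U} := Subtype.countable
  obtain ⟨φ, hφ, hL⟩ := h1 (J × {q : D // (q : E3) ∈ U}) (fun n jq => F n jq.1 jq.2) (by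
    rintro ⟨j, q, hq⟩
    obtain ⟨r, hr, n₀, C, hC⟩ := H q hq j
    exact ⟨n₀, C, fun n hn => (hC n hn q (mem_ball_self hr) q (mem_ball_self hr)).1⟩)
  have hpt : ∀ j, ∀ q ∈ D ∩ U, ∃ L : ℝ, Tendsto (fun n => F (φ n) j q) atTop (𝓝 L) := by
    intro j q hq
    exact hL (j, ⟨⟨q, hq.1⟩, hq.2⟩)
  have hu : ∀ j, ∀ x ∈ U, ∃ r > 0, ball x r ⊆ U ∧
      UniformCauchySeqOn (fun n => F (φ n) j) atTop (ball x r) := by
    intro j x hx
    refine aaa_unif D U hDd hU (fun n => F (φ n) j) (hpt j) x hx ?_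
    obtain ⟨r, hr, n₀, C, hC⟩ := H x hx j
    exact ⟨r, hr, n₀, C, fun n hn y hy z hz =>
      (hC (φ n) (le_trans hn (hφ.le_apply)) y hy z hz).2⟩
  have hG : ∀ j, ∀ x ∈ U, ∃ L : ℝ, Tendsto (fun n => F (φ n) j x) atTop (𝓝 L) := by
    intro j x hx
    obtain ⟨r, hr, _, hc⟩ := hu j x hx
    have h2 : CauchySeq fun n => F (φ n) j x := by
      rw [Metric.cauchySeq_iff]
      intro ε hε
      obtain ⟨N, hN⟩ := Metric.uniformCauchySeqOn_iff.1 hc ε hε
      exact ⟨N, fun m hm n hn => hN m hm n hn x (mem_ball_self hr)⟩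
    exact cauchySeq_tendsto_of_complete h2
  refine ⟨φ, fun j x => if h : ∃ L : ℝ, Tendsto (fun n => F (φ n) j x) atTop (𝓝 L) then
    h.choose else 0, hφ, ?_⟩
  intro j u hu' x hx
  obtain ⟨r, hr, hrU, hc⟩ := hu j x hx
  refine ⟨ball x r, mem_nhdsWithin_of_mem_nhds (ball_mem_nhds x hr), ?_⟩
  have h3 : TendstoUniformlyOn (fun n => F (φ n) j) (fun x =>
      if h : ∃ L : ℝ, Tendsto (fun n => F (φ n) j x) atTop (𝓝 L) then h.choose else 0) atTop
      (ball x r) := by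
    refine hc.tendstoUniformlyOn_of_tendsto ?_
    intro y hy
    have h4 := hG j y (hrU hy)
    rw [dif_pos h4]
    exact h4.choose_spec
  exact h3 u hu'

end Pool.Agent.FUE.Rg
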