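import Pool.Agent.FUE.RgSt

/-!
# FUE, regularity, module AAB: Arzela-Ascoli in `C^∞` for scalar functions (helper25)
-/

set_option autoImplicit false

open scoped ContDiff Topology
open Metric Filter

namespace Pool.Agent.FUE.Rg

theorem aab_vec (v : E3) : v = ∑ k, v k • EuclideanSpace.single k (1 : ℝ) := by
  have h1 := (EuclideanSpace.basisFun (Fin 3) ℝ).sum_repr v
  simp only [EuclideanSpace.basisFun_apply, EuclideanSpace.basisFun_repr] at h1
  exact h1.symm

/-- a linear form is determined by its values at the basis vectors -/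
theorem aab_lin (L : E3 →L[ℝ] ℝ) :
    L = ∑ k, L (EuclideanSpace.single k (1 : ℝ)) • (EuclideanSpace.proj k : E3 →L[ℝ] ℝ) := by
  ext v
  conv_lhs => rw [aab_vec v]
  rw [map_sum, ContinuousLinearMap.sum_apply]
  refine Finset.sum_congr rfl fun k _ => ?_
  rw [map_smul, ContinuousLinearMap.smul_apply, smul_eq_mul, smul_eq_mul, mul_comm]
  rfl

theorem aab_norm (L : E3 →L[ℝ] ℝ) (C : Fin 3 → ℝ)
    (h : ∀ k, |L (EuclideanSpace.single k (1 : ℝ))| ≤ C k) : ‖L‖ ≤ ∑ k, C k := by
  have hC : ∀ k, 0 ≤ C k := fun k => (abs_nonneg _).trans (h k)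
  refine ContinuousLinearMap.opNorm_le_bound _ (Finset.sum_nonneg fun k _ => hC k) fun v => ?_
  conv_lhs => rw [aab_vec v]
  rw [map_sum, Finset.sum_mul]
  refine (norm_sum_le _ _).trans (Finset.sum_le_sum fun k _ => ?_)
  rw [map_smul, smul_eq_mul, norm_mul, mul_comm]
  have h1 : ‖v k‖ ≤ ‖v‖ := PiLp.norm_apply_le v k
  exact mul_le_mul (h k) h1 (norm_nonneg _) (hC k)

theorem aab_sm (h1 : St_Cal) (p : E3) (R : ℝ) (f : E3 → ℝ) (hf : Sm p R f) (l : List (Fin 3)) :
    Sm p R (pds l f) := by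
  induction l with
  | nil => exact hf
  | cons k l ih => exact (h1 p R).2.1 k _ ih

/-- the derivative of a smooth function -/
theorem aab_der (h1 : St_Cal) (p : E3) (R : ℝ) (f : E3 → ℝ) (hf : Sm p R f) (l : List (Fin 3))
    (y : E3) (hy : y ∈ ball p R) : HasFDerivAt (pds l f)
      (∑ k, pds (k :: l) f y • (EuclideanSpace.proj k : E3 →L[ℝ] ℝ)) y := by
  have h2 := aab_sm h1 p R f hf l
  have h3 : ContDiffAt ℝ ∞ (pds l f) y := h2.contDiffAt (isOpen_ball.mem_nhds hy)
  have h4 := (h3.differentiableAt (by simp)).hasFDerivAt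
  have h5 : fderiv ℝ (pds l f) y =
      ∑ k, pds (k :: l) f y • (EuclideanSpace.proj k : E3 →L[ℝ] ℝ) := aab_lin _
  rw [h5] at h4
  exact h4

theorem thm_Aab (h1 : St_Cal) (h2 : St_Aaa) : St_Aab := by
  intro ι _ U f hU hf
  haveI : Countable (ι × List (Fin 3)) := inferInstance
  obtain ⟨φ, G, hφ, hG⟩ := h2 (ι × List (Fin 3)) U (fun n j => pds j.2 (f n j.1)) hU (by
    rintro x hx ⟨i, l⟩
    obtain ⟨r, hr, n₀, h3⟩ := hf x hx
    obtain ⟨hsm, hbd⟩ := h3 i
    obtain ⟨C₀, hC₀⟩ := hbd l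
    choose C hC using fun k : Fin 3 => hbd (k :: l)
    refine ⟨r, hr, n₀, |C₀| + ∑ k, |C k|, fun n hn y hy z hz => ⟨?_, ?_⟩⟩
    · have h4 : 0 ≤ ∑ k, |C k| := Finset.sum_nonneg fun k _ => abs_nonneg _
      have h5 := (hC₀ n hn y hy).trans (le_abs_self C₀)
      linarith
    · have h4 : ∀ w ∈ ball x r, HasFDerivAt (pds l (f n i))
          (∑ k, pds (k :: l) (f n i) w • (EuclideanSpace.proj k : E3 →L[ℝ] ℝ)) w :=
        fun w hw => aab_der h1 x r (f n i) (hsm n hn) l w hw
      have h5 : ∀ w ∈ ball x r, ‖fderiv ℝ (pds l (f n i)) w‖ ≤ |C₀| + ∑ k, |C k| := by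
        intro w hw
        have h6 := aab_norm (fderiv ℝ (pds l (f n i)) w) (fun k => |C k|) (fun k =>
          (hC k n hn w hw).trans (le_abs_self _))
        have h7 := abs_nonneg C₀
        linarith
      have h6 := (convex_ball x r).norm_image_sub_le_of_norm_fderiv_le (𝕜 := ℝ)
        (fun w hw => (h4 w hw).differentiableAt) h5 hz hy
      rw [Real.norm_eq_abs, ← dist_eq_norm] at h6
      exact h6)
  -- the derivatives of the limit functions
  have hD : ∀ i l, ∀ x ∈ U, HasFDerivAt (G (i, l))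
      (∑ k, G (i, k :: l) x • (EuclideanSpace.proj k : E3 →L[ℝ] ℝ)) x := by
    intro i l x hx
    obtain ⟨r, hr, n₀, h3⟩ := hf x hx
    obtain ⟨hsm, -⟩ := h3 i
    have hu : ∀ k : Fin 3, TendstoUniformlyOnFilter
        (fun n y => pds (k :: l) (f (φ n) i) y • (EuclideanSpace.proj k : E3 →L[ℝ] ℝ))
        (fun y => G (i, k :: l) y • (EuclideanSpace.proj k : E3 →L[ℝ] ℝ)) atTop (𝓝 x) := by
      intro k
      have h4 := (tendstoLocallyUniformlyOn_iff_filter.1 (hG (i, k :: l))) x hx
      rw [hU.nhdsWithin_eq hx] at h4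
      have h5 : UniformContinuous fun a : ℝ => a • (EuclideanSpace.proj k : E3 →L[ℝ] ℝ) :=
        (ContinuousLinearMap.smulRight (ContinuousLinearMap.id ℝ ℝ)
          (EuclideanSpace.proj k : E3 →L[ℝ] ℝ)).uniformContinuous
      exact h5.comp_tendstoUniformlyOnFilter h4
    have hsum : TendstoUniformlyOnFilter
        (fun n y => ∑ k, pds (k :: l) (f (φ n) i) y • (EuclideanSpace.proj k : E3 →L[ℝ] ℝ))
        (fun y => ∑ k, G (i, k :: l) y • (EuclideanSpace.proj k : E3 →L[ℝ] ℝ)) atTop (𝓝 x) := by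
      have h4 := ((hu 0).add (hu 1)).add (hu 2)
      simp only [Fin.sum_univ_three]
      exact h4
    refine hasFDerivAt_of_tendstoUniformlyOnFilter (l := atTop)
      (f := fun n => pds l (f (φ n) i)) hsum ?_ ?_
    · have h4 : ∀ᶠ n in (atTop : Filter ℕ), n₀ ≤ n := eventually_ge_atTop n₀
      have h5 : ∀ᶠ y in 𝓝 x, y ∈ ball x r := isOpen_ball.mem_nhds (mem_ball_self hr)
      filter_upwards [h4.prod_mk h5] with q hq
      exact aab_der h1 x r (f (φ q.1) i) (hsm _ (hq.1.trans (hφ.id_le q.1))) l q.2 hq.2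
    · filter_upwards [hU.mem_nhds hx] with y hy
      exact (hG (i, l)).tendsto_at hy
  have hpd : ∀ i l k, ∀ x ∈ U, pd k (G (i, l)) x = G (i, k :: l) x := by
    intro i l k x hx
    unfold pd
    rw [(hD i l x hx).fderiv, ContinuousLinearMap.sum_apply]
    rw [Finset.sum_eq_single k]
    · rw [ContinuousLinearMap.smul_apply, smul_eq_mul]
      have h3 : (EuclideanSpace.proj k : E3 →L[ℝ] ℝ) (EuclideanSpace.single k (1 : ℝ)) = 1 := by
        simp
      rw [h3, mul_one]
    · intro j _ hj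
      rw [ContinuousLinearMap.smul_apply, smul_eq_mul]
      have h3 : (EuclideanSpace.proj j : E3 →L[ℝ] ℝ) (EuclideanSpace.single k (1 : ℝ)) = 0 := by
        simp [hj]
      rw [h3, mul_zero]
    · intro hk
      exact absurd (Finset.mem_univ k) hk
  have hsmooth : ∀ (m : ℕ) (i : ι) (l : List (Fin 3)), ContDiffOn ℝ m (G (i, l)) U := by
    intro m
    induction m with
    | zero =>
      intro i l
      have h3 : ContinuousOn (G (i, l)) U := fun x hx =>
        (hD i l x hx).continuousAt.continuousWithinAt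
      exact contDiffOn_zero.2 h3
    | succ m ih =>
      intro i l
      have e : (((m + 1 : ℕ) : ℕ∞) : WithTop ℕ∞) = ((m : ℕ∞) : WithTop ℕ∞) + 1 := rfl
      show ContDiffOn ℝ (((m + 1 : ℕ) : ℕ∞) : WithTop ℕ∞) (G (i, l)) U
      rw [e, contDiffOn_succ_iff_fderiv_of_isOpen hU]
      refine ⟨fun x hx => (hD i l x hx).differentiableAt.differentiableWithinAt, ?_, ?_⟩
      · intro h3
        exact absurd h3 (by simp)
      · have h3 : ContDiffOn ℝ m
            (fun x => ∑ k, G (i, k :: l) x • (EuclideanSpace.proj k : E3 →L[ℝ] ℝ)) U :=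
          ContDiffOn.sum fun k _ => (ih i (k :: l)).smul contDiffOn_const
        exact h3.congr fun x hx => (hD i l x hx).fderiv
  have hpds : ∀ i l, ∀ x ∈ U, pds l (G (i, [])) x = G (i, l) x := by
    intro i l
    induction l with
    | nil =>
      intro x _
      rfl
    | cons k l ih =>
      intro x hx
      rw [← hpd i l k x hx]
      show pd k (pds l (G (i, []))) x = pd k (G (i, l)) x
      unfold pd
      have h3 : pds l (G (i, [])) =ᶠ[𝓝 x] G (i, l) := by
        filter_upwards [hU.mem_nhds hx] with y hy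
        exact ih y hy
      rw [h3.fderiv_eq]
  refine ⟨φ, fun i => G (i, []), hφ, fun i => ?_, fun i l => ?_⟩
  · exact contDiffOn_infty.2 fun m => hsmooth m i []
  · exact (hG (i, l)).congr_right fun x hx => (hpds i l x hx).symm

end Pool.Agent.FUE.Rg
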