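import Pool.Agent.FUE.RgSt

/-!
# FUE REG AAV: Arzela-Ascoli for maps to V9 (helper41)
-/

set_option autoImplicit false

open scoped ContDiff Topology
open Metric Filter

namespace Pool.Agent.FUE.Rg

theorem aav_pds (h1 : St_Cal) (p : E3) (R : ℝ) (f g : E3 → ℝ) (hf : Sm p R f) (hg : Sm p R g)
    (l : List (Fin 3)) : Sm p R (pds l f) ∧ Sm p R (pds l g) ∧
      ∀ x ∈ ball p R, pds l (fun y => f y - g y) x = pds l f x - pds l g x := by
  induction l with
  | nil => exact ⟨hf, hg, fun x _ => rfl⟩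
  | cons k l ih =>
    obtain ⟨i1, i2, i3⟩ := ih
    refine ⟨(h1 p R).2.1 k _ i1, (h1 p R).2.1 k _ i2, ?_⟩
    intro x hx
    have hs : Sm p R fun y => pds l f y - pds l g y := ContDiffOn.sub i1 i2
    have h2 : pd k (pds l fun y => f y - g y) x = pd k (fun y => pds l f y - pds l g y) x := by
      refine (((h1 p R).2.2.2.2.2.2 (fun y => pds l f y - pds l g y)
        (pds l fun y => f y - g y) (fun y hy => (i3 y hy).symm)).2 x hx k).symm
    change pd k (pds l fun y => f y - g y) x = pd k (pds l f) x - pd k (pds l g) x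
    rw [h2]
    unfold pd
    have hb : ball p R ∈ 𝓝 x := isOpen_ball.mem_nhds hx
    have d1 : DifferentiableAt ℝ (pds l f) x := (i1.contDiffAt hb).differentiableAt (by simp)
    have d2 : DifferentiableAt ℝ (pds l g) x := (i2.contDiffAt hb).differentiableAt (by simp)
    rw [fderiv_fun_sub d1 d2]
    rfl

theorem thm_Aav (h1 : St_Cal) (h2 : St_Aab) (h3 : St_Cnv) : St_Aav := by
  classical
  intro U u hU H
  obtain ⟨φ, g, hφ, hg, hc⟩ := h2 (Fin 3 × Fin 3) U (fun n i y => u n y i) hU (by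
    intro x hx
    obtain ⟨r, hr, n₀, hs, hb⟩ := H x hx
    refine ⟨r, hr, n₀, fun i => ⟨fun n hn => ((h3 x r).2.2 (u n) (hs n hn)).1 i, ?_⟩⟩
    intro l
    obtain ⟨C, hC⟩ := hb l.length
    refine ⟨C, fun n hn y hy => ?_⟩
    obtain ⟨c1, c2⟩ := (h3 x r).2.2 (u n) (hs n hn)
    exact le_trans ((h3 x r).1 _ (c1 i) y hy l) (le_trans ((c2 y hy l.length).1 i) (hC n hn y hy)))
  set v : E3 → V9 := fun x => WithLp.toLp 2 fun i => g i x with hv
  have sv : ContDiffOn ℝ ∞ v U := by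
    rw [contDiffOn_euclidean]
    exact hg
  refine ⟨φ, v, hφ, sv, ?_⟩
  intro k
  rw [← tendstoLocallyUniformlyOn_iff_forall_isCompact hU, Metric.tendstoLocallyUniformlyOn_iff]
  intro ε hε x hx
  obtain ⟨r, hr, n₀, hs, hb⟩ := H x hx
  obtain ⟨r', hr', hU'⟩ := Metric.isOpen_iff.1 hU x hx
  set ρ := min r r' with hρ
  have hρ0 : 0 < ρ := lt_min hr hr'
  have hN : 0 < ((Finset.univ : Finset ((Fin 3 × Fin 3) × (Fin k → Fin 3))).card : ℝ) + 1 := by
    positivity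
  set δ := ε / (((Finset.univ : Finset ((Fin 3 × Fin 3) × (Fin k → Fin 3))).card : ℝ) + 1)
    with hδ
  have hδ0 : 0 < δ := div_pos hε hN
  have hch : ∀ il : (Fin 3 × Fin 3) × (Fin k → Fin 3), ∃ t ∈ 𝓝 x, ∀ᶠ n in atTop, ∀ y ∈ t,
      |pds (List.ofFn il.2) (g il.1) y - pds (List.ofFn il.2) (fun y => u (φ n) y il.1) y| < δ := by
    intro il
    obtain ⟨t, ht, hn⟩ := Metric.tendstoLocallyUniformlyOn_iff.1 (hc il.1 (List.ofFn il.2)) δ hδ0
      x hx
    rw [hU.nhdsWithin_eq hx] at ht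
    refine ⟨t, ht, ?_⟩
    filter_upwards [hn] with n hn y hy
    have := hn y hy
    rwa [Real.dist_eq] at this
  choose t ht hn using hch
  have hT : (⋂ il, t il) ∩ ball x ρ ∈ 𝓝 x :=
    Filter.inter_mem (Filter.iInter_mem.2 ht) (ball_mem_nhds x hρ0)
  refine ⟨(⋂ il, t il) ∩ ball x ρ, mem_nhdsWithin_of_mem_nhds hT, ?_⟩
  have hall : ∀ᶠ n in atTop, ∀ il, ∀ y ∈ t il,
      |pds (List.ofFn il.2) (g il.1) y - pds (List.ofFn il.2) (fun y => u (φ n) y il.1) y| < δ :=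
    Filter.eventually_all.2 hn
  filter_upwards [hall, eventually_ge_atTop n₀] with n hn1 hn2 y hy
  have hφn : n₀ ≤ φ n := le_trans hn2 hφ.le_apply
  have sb : ball x ρ ⊆ U := (ball_subset_ball (min_le_right _ _)).trans hU'
  have su : ContDiffOn ℝ ∞ (u (φ n)) (ball x ρ) :=
    (hs (φ n) hφn).mono (ball_subset_ball (min_le_left _ _))
  have sv' : ContDiffOn ℝ ∞ v (ball x ρ) := sv.mono sb
  have hbn : ball x ρ ∈ 𝓝 y := isOpen_ball.mem_nhds hy.2
  have cu : ContDiffAt ℝ (k : ℕ) (u (φ n)) y := (su.contDiffAt hbn).of_le (by exact_mod_cast le_top)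
  have cv : ContDiffAt ℝ (k : ℕ) v y := (sv'.contDiffAt hbn).of_le (by exact_mod_cast le_top)
  have sd : ContDiffOn ℝ ∞ (v - u (φ n)) (ball x ρ) := sv'.sub su
  rw [dist_eq_norm, ← iteratedFDeriv_sub_apply cv cu]
  obtain ⟨c1, c2⟩ := (h3 x ρ).2.2 (v - u (φ n)) sd
  refine lt_of_le_of_lt (c2 y hy.2 k).2 ?_
  have hsum : ∑ i, ‖iteratedFDeriv ℝ k (fun z => (v - u (φ n)) z i) y‖ ≤
      ∑ il : (Fin 3 × Fin 3) × (Fin k → Fin 3), δ := by
    have hsp : ∑ _il : (Fin 3 × Fin 3) × (Fin k → Fin 3), δ =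
        ∑ _i : Fin 3 × Fin 3, ∑ _l : Fin k → Fin 3, δ := Fintype.sum_prod_type _
    rw [hsp]
    refine Finset.sum_le_sum fun i _ => ?_
    refine le_trans ((h3 x ρ).2.1 _ (c1 i) y hy.2 k) ?_
    refine Finset.sum_le_sum fun l _ => ?_
    have hgi : Sm x ρ (g i) := (hg i).mono sb
    have hui : Sm x ρ (fun y => u (φ n) y i) := ((h3 x ρ).2.2 (u (φ n)) su).1 i
    have e1 : (fun z => (v - u (φ n)) z i) = fun z => g i z - u (φ n) z i := by
      funext z
      rfl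
    rw [e1, (aav_pds h1 x ρ (g i) (fun z => u (φ n) z i) hgi hui (List.ofFn l)).2.2 y hy.2]
    exact (hn1 (i, l) y (Set.mem_iInter.1 hy.1 (i, l))).le
  refine lt_of_le_of_lt hsum ?_
  rw [Finset.sum_const, nsmul_eq_mul, hδ, mul_div_assoc', div_lt_iff₀ hN]
  nlinarith

end Pool.Agent.FUE.Rg
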