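import Pool.Agent.FUE.RgSt

/-!
# FUE, regularity: diagonal sequence (helper81)
-/

set_option autoImplicit false

open scoped ContDiff
open Metric

namespace Pool.Agent.FUE.Rg

theorem thm_Aax : St_Aax := by
  intro J _ a h
  choose n₀ C hC using h
  let b : ℕ → J → ℝ := fun n j => if n₀ j ≤ n then a n j else 0
  have hK : IsCompact (Set.univ.pi fun j : J => Set.Icc (-|C j|) |C j|) :=
    isCompact_univ_pi fun j => isCompact_Icc
  have hb : ∀ n, b n ∈ Set.univ.pi fun j : J => Set.Icc (-|C j|) |C j| := by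
    intro n j _
    by_cases hn : n₀ j ≤ n
    · have h1 : b n j = a n j := if_pos hn
      have h2 := (hC j n hn).trans (le_abs_self _)
      rw [h1]
      exact abs_le.1 h2
    · have h1 : b n j = 0 := if_neg hn
      rw [h1]
      exact ⟨neg_nonpos.2 (abs_nonneg _), abs_nonneg _⟩
  obtain ⟨L, -, φ, hφ, hL⟩ := hK.tendsto_subseq hb
  refine ⟨φ, hφ, fun j => ⟨L j, ?_⟩⟩
  have h1 : Filter.Tendsto (fun n => b (φ n) j) Filter.atTop (nhds (L j)) :=
    (tendsto_pi_nhds.1 hL) j
  refine h1.congr' ?_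
  filter_upwards [Filter.eventually_ge_atTop (n₀ j)] with n hn
  exact if_pos (hn.trans (hφ.id_le n))

end Pool.Agent.FUE.Rg
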