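import Pool.Agent.FUE.RgSt

/-!
# FUE, regularity: module BEC (helper51)

The coefficients of the prolonged system, with uniform bounds.
-/

set_option autoImplicit false

open scoped ContDiff
open Metric

namespace Pool.Agent.FUE.Rg

section calcs

variable {N τ : Type} [Fintype τ] {p : N → E3} {R : ℝ} {w : N → τ → E3 → ℝ}

theorem bec_G1 (w : τ → E3 → ℝ) (x : E3) : 0 ≤ G1 w x :=
  Finset.sum_nonneg fun _ _ => Finset.sum_nonneg fun _ _ => abs_nonneg _

theorem bec_le (w : τ → E3 → ℝ) (x : E3) (k : Fin 3) (t : τ) : |pd k (w t) x| ≤ G1 w x := by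
  have h1 : |pd k (w t) x| ≤ ∑ t, |pd k (w t) x| :=
    Finset.single_le_sum (f := fun t => |pd k (w t) x|) (fun _ _ => abs_nonneg _)
      (Finset.mem_univ t)
  have h2 : ∑ t, |pd k (w t) x| ≤ ∑ k, ∑ t, |pd k (w t) x| :=
    Finset.single_le_sum (f := fun k => ∑ t, |pd k (w t) x|)
      (fun _ _ => Finset.sum_nonneg fun _ _ => abs_nonneg _) (Finset.mem_univ k)
  exact h1.trans h2

/-- smooth families, bounded, with derivatives at most linear in `Dw` -/
def bec_N (p : N → E3) (R : ℝ) (w : N → τ → E3 → ℝ) (g : N → E3 → ℝ) : Prop :=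
  (∀ n, Sm (p n) R (g n)) ∧ ∃ C : ℝ, 0 ≤ C ∧ ∀ n, ∀ x ∈ ball (p n) R, |g n x| ≤ C ∧
    ∀ j, |pd j (g n) x| ≤ C * (1 + G1 (w n) x)

theorem bec_const (h1 : St_Cal) (c : ℝ) : bec_N p R w (fun _ _ => c) := by
  refine ⟨fun n => (h1 (p n) R).1 c, |c|, abs_nonneg c, fun n x _ => ⟨le_rfl, fun j => ?_⟩⟩
  rw [(h1 (p n) R).2.2.2.1 c j x, abs_zero]
  exact mul_nonneg (abs_nonneg c) (add_nonneg zero_le_one (bec_G1 _ _))

theorem bec_add (h1 : St_Cal) {g h : N → E3 → ℝ} (hg : bec_N p R w g) (hh : bec_N p R w h) :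
    bec_N p R w (fun n x => g n x + h n x) := by
  obtain ⟨g1, C, hC, g2⟩ := hg
  obtain ⟨k1, D, hD, k2⟩ := hh
  refine ⟨fun n => ((h1 (p n) R).2.2.1 (g n) (h n) (g1 n) (k1 n)).1, C + D, add_nonneg hC hD,
    fun n x hx => ?_⟩
  obtain ⟨a1, a2⟩ := g2 n x hx
  obtain ⟨b1, b2⟩ := k2 n x hx
  obtain ⟨-, -, e1⟩ := (h1 (p n) R).2.2.1 (g n) (h n) (g1 n) (k1 n)
  refine ⟨(abs_add_le _ _).trans (add_le_add a1 b1), fun j => ?_⟩
  rw [(e1 x hx j).1, add_mul]
  exact (abs_add_le _ _).trans (add_le_add (a2 j) (b2 j))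

theorem bec_mul (h1 : St_Cal) {g h : N → E3 → ℝ} (hg : bec_N p R w g) (hh : bec_N p R w h) :
    bec_N p R w (fun n x => g n x * h n x) := by
  obtain ⟨g1, C, hC, g2⟩ := hg
  obtain ⟨k1, D, hD, k2⟩ := hh
  refine ⟨fun n => ((h1 (p n) R).2.2.1 (g n) (h n) (g1 n) (k1 n)).2.1, 2 * (C * D),
    by positivity, fun n x hx => ?_⟩
  obtain ⟨a1, a2⟩ := g2 n x hx
  obtain ⟨b1, b2⟩ := k2 n x hx
  obtain ⟨-, -, e1⟩ := (h1 (p n) R).2.2.1 (g n) (h n) (g1 n) (k1 n)
  have hCD : 0 ≤ C * D := mul_nonneg hC hD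
  have hG := bec_G1 (w n) x
  constructor
  · rw [abs_mul]
    have := mul_le_mul a1 b1 (abs_nonneg _) hC
    linarith
  · intro j
    rw [(e1 x hx j).2]
    refine (abs_add_le _ _).trans ?_
    rw [abs_mul, abs_mul]
    have e2 : |pd j (g n) x| * |h n x| ≤ C * (1 + G1 (w n) x) * D :=
      mul_le_mul (a2 j) b1 (abs_nonneg _) (mul_nonneg hC (by linarith))
    have e3 : |g n x| * |pd j (h n) x| ≤ C * (D * (1 + G1 (w n) x)) :=
      mul_le_mul a1 (b2 j) (abs_nonneg _) hC
    calc |pd j (g n) x| * |h n x| + |g n x| * |pd j (h n) x| ≤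
        C * (1 + G1 (w n) x) * D + C * (D * (1 + G1 (w n) x)) := add_le_add e2 e3
      _ = 2 * (C * D) * (1 + G1 (w n) x) := by ring

theorem bec_sum (h1 : St_Cal) {κ : Type} (T : Finset κ) {g : κ → N → E3 → ℝ}
    (hg : ∀ t, bec_N p R w (g t)) : bec_N p R w (fun n x => ∑ t ∈ T, g t n x) := by
  choose g1 C hC g2 using hg
  refine ⟨fun n => ((h1 (p n) R).2.2.2.2.1 κ T (fun t => g t n) (fun t _ => g1 t n)).1,
    ∑ t ∈ T, C t, Finset.sum_nonneg fun t _ => hC t, fun n x hx => ⟨?_, fun j => ?_⟩⟩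
  · exact (Finset.abs_sum_le_sum_abs _ _).trans (Finset.sum_le_sum fun t _ => (g2 t n x hx).1)
  · rw [((h1 (p n) R).2.2.2.2.1 κ T (fun t => g t n) (fun t _ => g1 t n)).2 x hx j,
      Finset.sum_mul]
    exact (Finset.abs_sum_le_sum_abs _ _).trans
      (Finset.sum_le_sum fun t _ => (g2 t n x hx).2 j)

theorem bec_cont {Ψ : (τ → ℝ) → ℝ} (hΨ : Continuous Ψ)
    (hb : ∃ K : ℝ, ∀ n t, ∀ x ∈ ball (p n) R, |w n t x| ≤ K) :
    ∃ C : ℝ, 0 ≤ C ∧ ∀ n, ∀ x ∈ ball (p n) R, |Ψ fun t => w n t x| ≤ C := by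
  obtain ⟨K, hK⟩ := hb
  obtain ⟨C, hC⟩ := (isCompact_closedBall (0 : τ → ℝ) (max K 0)).exists_bound_of_continuousOn
    hΨ.continuousOn
  refine ⟨max C 0, le_max_right _ _, fun n x hx => ?_⟩
  have h1 : (fun t => w n t x) ∈ closedBall (0 : τ → ℝ) (max K 0) := by
    rw [mem_closedBall_zero_iff, pi_norm_le_iff_of_nonneg (le_max_right _ _)]
    intro t
    rw [Real.norm_eq_abs]
    exact (hK n t x hx).trans (le_max_left _ _)
  have h2 := hC _ h1
  rw [Real.norm_eq_abs] at h2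
  exact h2.trans (le_max_left _ _)

theorem bec_comp [DecidableEq τ] (h2 : St_Chn) (hw : ∀ n t, Sm (p n) R (w n t))
    (hb : ∃ K : ℝ, ∀ n t, ∀ x ∈ ball (p n) R, |w n t x| ≤ K) {Φ : (τ → ℝ) → ℝ}
    (hΦ : ContDiff ℝ ∞ Φ) : bec_N p R w (fun n x => Φ fun t => w n t x) := by
  obtain ⟨k1, k2⟩ := h2 τ Φ hΦ
  obtain ⟨C₀, hC₀, hC₀'⟩ := bec_cont hΦ.continuous hb
  have h3 : ∀ s : τ, ∃ C : ℝ, 0 ≤ C ∧ ∀ n, ∀ x ∈ ball (p n) R,
      |fderiv ℝ Φ (fun t => w n t x) (Pi.single s 1)| ≤ C :=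
    fun s => bec_cont (Ψ := fun y => fderiv ℝ Φ y (Pi.single s 1)) (k1 s).continuous hb
  choose C hC hC' using h3
  have hS : 0 ≤ ∑ s, C s := Finset.sum_nonneg fun s _ => hC s
  refine ⟨fun n => (k2 (p n) R (w n) (hw n)).1, C₀ + ∑ s, C s, add_nonneg hC₀ hS,
    fun n x hx => ⟨?_, fun j => ?_⟩⟩
  · have := hC₀' n x hx
    linarith
  · rw [(k2 (p n) R (w n) (hw n)).2 x hx j]
    have hG := bec_G1 (w n) x
    calc |∑ s, fderiv ℝ Φ (fun t => w n t x) (Pi.single s 1) * pd j (w n s) x| ≤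
        ∑ s, |fderiv ℝ Φ (fun t => w n t x) (Pi.single s 1) * pd j (w n s) x| :=
          Finset.abs_sum_le_sum_abs _ _
      _ ≤ ∑ s, C s * G1 (w n) x := by
          refine Finset.sum_le_sum fun s _ => ?_
          rw [abs_mul]
          exact mul_le_mul (hC' s n x hx) (bec_le _ _ _ _) (abs_nonneg _) (hC s)
      _ = (∑ s, C s) * G1 (w n) x := by rw [Finset.sum_mul]
      _ ≤ (C₀ + ∑ s, C s) * (1 + G1 (w n) x) := by
          apply mul_le_mul _ _ hG (add_nonneg hC₀ hS)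
          · linarith
          · linarith

end calcs

section main

variable {σ N : Type} [Fintype σ] {p : N → E3} {R R₁ : ℝ} {f : N → σ → E3 → ℝ}

theorem bec_mono {q : E3} (h : R₁ ≤ R) {g : E3 → ℝ} (hg : Sm q R g) : Sm q R₁ g :=
  ContDiffOn.mono hg (ball_subset_ball h)

theorem bec_pds (h1 : St_Cal) {q : E3} {g : E3 → ℝ} (hg : Sm q R g) (l : List (Fin 3)) :
    Sm q R (pds l g) := by
  induction l with
  | nil => exact hg
  | cons k l ih => exact (h1 q R).2.1 k _ ih

/-- families with bounded derivatives -/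
theorem bec_BD {τ : Type} [Fintype τ] {w : N → τ → E3 → ℝ} (h1 : St_Cal) (hR : R₁ < R)
    {g : N → E3 → ℝ} (hs : ∀ n, Sm (p n) R (g n)) (hg : BD p R g) (l : List (Fin 3)) :
    bec_N p R₁ w (fun n => pds l (g n)) := by
  obtain ⟨C, hC⟩ := hg R₁ hR l
  have h3 : ∀ j, ∃ D : ℝ, ∀ n, ∀ x ∈ ball (p n) R₁, |pds (j :: l) (g n) x| ≤ D :=
    fun j => hg R₁ hR (j :: l)
  choose D hD using h3
  have hS : 0 ≤ ∑ j, |D j| := Finset.sum_nonneg fun _ _ => abs_nonneg _
  refine ⟨fun n => bec_mono hR.le (bec_pds h1 (hs n) l), |C| + ∑ j, |D j|,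
    add_nonneg (abs_nonneg _) hS, fun n x hx => ⟨?_, fun j => ?_⟩⟩
  · have e1 := hC n x hx
    have e2 := le_abs_self C
    linarith
  · have e1 : |pd j (pds l (g n)) x| ≤ D j := hD j n x hx
    have e2 : |D j| ≤ ∑ j, |D j| :=
      Finset.single_le_sum (f := fun j => |D j|) (fun _ _ => abs_nonneg _) (Finset.mem_univ j)
    have e3 := le_abs_self (D j)
    have e4 : |C| + ∑ j, |D j| ≤ (|C| + ∑ j, |D j|) * (1 + G1 (w n) x) := by
      have := bec_G1 (w n) x
      exact le_mul_of_one_le_right (add_nonneg (abs_nonneg _) hS) (by linarith)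
    have e5 := abs_nonneg C
    linarith

/-- the form of the conclusion -/
theorem bec_fin {τ : Type} [Fintype τ] {w : N → τ → E3 → ℝ} {L : N → E3 → ℝ}
    {A : N → Fin 3 → τ → E3 → ℝ} {B : N → E3 → ℝ}
    (hA : ∀ k r, bec_N p R₁ w (fun n => A n k r)) (hB : bec_N p R₁ w B)
    (he : ∀ n, ∀ x ∈ ball (p n) R₁, L n x = ∑ k, ∑ r, A n k r x * pd k (w n r) x + B n x) :
    ∃ C : ℝ, 0 ≤ C ∧ ∀ n, ∃ (A : Fin 3 → τ → E3 → ℝ) (B : E3 → ℝ),
      (∀ k r, Sm (p n) R₁ (A k r)) ∧ Sm (p n) R₁ B ∧ ∀ x ∈ ball (p n) R₁,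
        (∀ k r, |A k r x| ≤ C) ∧ |B x| ≤ C ∧
        (∀ j k r, |pd j (A k r) x| ≤ C * (1 + G1 (w n) x)) ∧
        (∀ j, |pd j B x| ≤ C * (1 + G1 (w n) x)) ∧
        L n x = ∑ k, ∑ r, A k r x * pd k (w n r) x + B x := by
  choose a1 C hC a2 using hA
  obtain ⟨b1, D, hD, b2⟩ := hB
  have hS : ∀ k r, C k r ≤ ∑ k, ∑ r, C k r := by
    intro k r
    have e1 : C k r ≤ ∑ r, C k r :=
      Finset.single_le_sum (f := fun r => C k r) (fun r _ => hC k r) (Finset.mem_univ r)
    have e2 : ∑ r, C k r ≤ ∑ k, ∑ r, C k r :=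
      Finset.single_le_sum (f := fun k => ∑ r, C k r)
        (fun k _ => Finset.sum_nonneg fun r _ => hC k r) (Finset.mem_univ k)
    exact e1.trans e2
  have hS0 : 0 ≤ ∑ k, ∑ r, C k r :=
    Finset.sum_nonneg fun k _ => Finset.sum_nonneg fun r _ => hC k r
  refine ⟨∑ k, ∑ r, C k r + D, add_nonneg hS0 hD, fun n => ⟨A n, B n, fun k r => a1 k r n, b1 n,
    fun x hx => ⟨fun k r => ?_, ?_, fun j k r => ?_, fun j => ?_, he n x hx⟩⟩⟩
  · have e1 := (a2 k r n x hx).1
    have e2 := hS k r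
    linarith
  · have e1 := (b2 n x hx).1
    linarith
  · refine ((a2 k r n x hx).2 j).trans ?_
    refine mul_le_mul_of_nonneg_right ?_ (add_nonneg zero_le_one (bec_G1 _ _))
    have e2 := hS k r
    linarith
  · refine ((b2 n x hx).2 j).trans ?_
    refine mul_le_mul_of_nonneg_right ?_ (add_nonneg zero_le_one (bec_G1 _ _))
    linarith

end main

theorem bec_id {τ : Type} [Fintype τ] [DecidableEq τ] (D : τ → ℝ)
    (e : Fin 3 → Fin 3 → Fin 3 → ℝ) (G : Fin 3 → τ → ℝ) (l : Fin 3) (ρ : Fin 3 → τ) :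
    ∑ k, ∑ r, ((if k = l then D r else 0) +
      (-1) * ∑ j, if r = ρ j then ∑ a, e a k j else 0) * G k r =
      (∑ r, D r * G l r) - ∑ a, ∑ i, ∑ j, e a i j * G i (ρ j) := by
  have hA : ∀ k, ∑ r, (if k = l then D r else 0) * G k r =
      if k = l then ∑ r, D r * G k r else 0 := by
    intro k
    split_ifs with hk
    · rfl
    · simp only [zero_mul, Finset.sum_const_zero]
  have hB : ∀ k, ∑ r, (∑ j, if r = ρ j then ∑ a, e a k j else 0) * G k r =
      ∑ j, ∑ a, e a k j * G k (ρ j) := by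
    intro k
    have e1 : ∀ r, (∑ j, if r = ρ j then ∑ a, e a k j else 0) * G k r =
        ∑ j, if r = ρ j then (∑ a, e a k j) * G k r else 0 := by
      intro r
      rw [Finset.sum_mul]
      refine Finset.sum_congr rfl fun j _ => ?_
      rw [ite_mul, zero_mul]
    rw [Finset.sum_congr rfl fun r _ => e1 r, Finset.sum_comm]
    refine Finset.sum_congr rfl fun j _ => ?_
    rw [Finset.sum_ite_eq' Finset.univ (ρ j), if_pos (Finset.mem_univ _), Finset.sum_mul]
  have e2 : ∀ k, ∑ r, ((if k = l then D r else 0) +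
      (-1) * ∑ j, if r = ρ j then ∑ a, e a k j else 0) * G k r =
      (if k = l then ∑ r, D r * G k r else 0) - ∑ j, ∑ a, e a k j * G k (ρ j) := by
    intro k
    rw [← hA k, ← hB k, ← Finset.sum_sub_distrib]
    refine Finset.sum_congr rfl fun r _ => ?_
    ring
  rw [Finset.sum_congr rfl fun k _ => e2 k, Finset.sum_sub_distrib,
    Finset.sum_ite_eq' Finset.univ l, if_pos (Finset.mem_univ _)]
  congr 1
  have e3 : ∀ k, ∑ j, ∑ a, e a k j * G k (ρ j) = ∑ a, ∑ j, e a k j * G k (ρ j) :=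
    fun k => Finset.sum_comm
  rw [Finset.sum_congr rfl fun k _ => e3 k, Finset.sum_comm]

open Classical in
/-- BEC. The coefficients of the equations for `pro f`, with uniform bounds. -/
theorem thm_Bec (h1 : St_Cal) (h2 : St_Chn) (h4 : St_Peq) : St_Bec := by
  intro σ N _ S p R f H R₁ hR q
  obtain ⟨o, s⟩ := q
  -- smoothness and bounds of `w`
  have hsm : ∀ n t, Sm (p n) R (pro (f n) t) := by
    rintro n ⟨o, t⟩
    cases o with
    | none => exact H.sm n t
    | some k => exact (h1 (p n) R).2.1 k _ (H.sm n t)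
  have hsm1 : ∀ n t, Sm (p n) R₁ (pro (f n) t) := fun n t => bec_mono hR.le (hsm n t)
  have hsub : ∀ n, ball (p n) R₁ ⊆ ball (p n) R := fun n => ball_subset_ball hR.le
  have hbd : ∃ K : ℝ, ∀ n t, ∀ x ∈ ball (p n) R₁, |pro (f n) t x| ≤ K := by
    have h5 : ∀ t : Option (Fin 3) × σ, ∃ C : ℝ, ∀ n, ∀ x ∈ ball (p n) R,
        |pro (f n) t x| ≤ C := by
      rintro ⟨o, t⟩
      cases o with
      | none => exact H.bd t
      | some k => exact H.d1 t k
    choose C hC using h5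
    refine ⟨∑ t, |C t|, fun n t x hx => ?_⟩
    have e1 := hC t n x (hsub n hx)
    have e2 : |C t| ≤ ∑ t, |C t| :=
      Finset.single_le_sum (f := fun t => |C t|) (fun _ _ => abs_nonneg _) (Finset.mem_univ t)
    have e3 := le_abs_self (C t)
    linarith
  have hbe : ∀ a i l, bec_N p R₁ (fun n => pro (f n)) (fun n => pds l (f n (S.ei a i))) :=
    fun a i l => bec_BD h1 hR (fun n => H.sm n _) (H.be a i) l
  rcases H.eq s with hs | hs
  · -- all derivatives of `f s` are bounded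
    have h5 : ∀ i j, bec_N p R₁ (fun n => pro (f n))
        (fun n => pd i (pd j (pro (f n) (o, s)))) := by
      intro i j
      cases o with
      | none => exact bec_BD h1 hR (fun n => H.sm n s) hs [i, j]
      | some k => exact bec_BD h1 hR (fun n => H.sm n s) hs [i, j, k]
    refine bec_fin (w := fun n => pro (f n)) (A := fun _ _ _ _ => 0)
      (B := fun n => Lap (fun a i => f n (S.ei a i)) (pro (f n) (o, s)))
      (fun k r => bec_const h1 0) ?_ (fun n x hx => ?_)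
    · exact bec_sum h1 _ fun a => bec_sum h1 _ fun i => bec_sum h1 _ fun j =>
        bec_mul h1 (bec_mul h1 (hbe a i []) (hbe a j [])) (h5 i j)
    · simp only [zero_mul, Finset.sum_const_zero, zero_add]
  · cases o with
    | none =>
      refine bec_fin (w := fun n => pro (f n)) (A := fun _ _ _ _ => 0)
        (B := fun n x => S.F s fun r => pro (f n) r x)
        (fun k r => bec_const h1 0) (bec_comp h2 hsm1 hbd (S.sm s)) (fun n x hx => ?_)
      simp only [zero_mul, Finset.sum_const_zero, zero_add]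
      exact hs n x (hsub n hx)
    | some l =>
      have h5 : ∀ r : Option (Fin 3) × σ, bec_N p R₁ (fun n => pro (f n))
          (fun n x => fderiv ℝ (S.F s) (fun t => pro (f n) t x) (Pi.single r 1)) :=
        fun r => bec_comp h2 hsm1 hbd ((h2 _ (S.F s) (S.sm s)).1 r)
      refine bec_fin (w := fun n => pro (f n)) (A := fun n k r x =>
        (if k = l then fderiv ℝ (S.F s) (fun t => pro (f n) t x) (Pi.single r 1) else 0) +
          (-1) * ∑ j, if r = (some j, s) then ∑ a, (pd l (f n (S.ei a k)) x * f n (S.ei a j) x +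
            f n (S.ei a k) x * pd l (f n (S.ei a j)) x) else 0)
        (B := fun _ _ => 0) (fun k r => ?_) (bec_const h1 0) (fun n x hx => ?_)
      · refine bec_add h1 ?_ (bec_mul h1 (bec_const h1 (-1)) (bec_sum h1 _ fun j => ?_))
        · by_cases hk : k = l
          · simp only [hk, if_true]
            exact h5 r
          · simp only [hk, if_false]
            exact bec_const h1 0
        · by_cases hk : r = (some j, s)
          · simp only [hk, if_true]
            exact bec_sum h1 _ fun a => bec_add h1 (bec_mul h1 (hbe a k [l]) (hbe a j []))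
              (bec_mul h1 (hbe a k []) (hbe a j [l]))
          · simp only [hk, if_false]
            exact bec_const h1 0
      · have h6 := (h4 σ S).2 (p n) R (f n) (H.sm n) s (hs n) x (hsub n hx) (some l)
        have h7 : Lap (fun a i => f n (S.ei a i)) (pro (f n) (some l, s)) x =
            (∑ r, fderiv ℝ (S.F s) (fun t => pro (f n) t x) (Pi.single r 1) *
              pd l (pro (f n) r) x) -
            ∑ a, ∑ i, ∑ j, (pd l (f n (S.ei a i)) x * f n (S.ei a j) x +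
              f n (S.ei a i) x * pd l (f n (S.ei a j)) x) *
                pd i (pro (f n) (some j, s)) x := h6
        rw [h7, add_zero]
        exact (bec_id (fun r => fderiv ℝ (S.F s) (fun t => pro (f n) t x) (Pi.single r 1))
          (fun a i j => pd l (f n (S.ei a i)) x * f n (S.ei a j) x +
            f n (S.ei a i) x * pd l (f n (S.ei a j)) x) (fun k r => pd k (pro (f n) r) x) l
          (fun j => (some j, s))).symm

end Pool.Agent.FUE.Rg
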