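import Pool.Agent.FUE.RgBqb

/-!
# FUE REG BER: the interior gradient estimate (helper41)
-/

set_option autoImplicit false

open scoped ContDiff
open Metric

namespace Pool.Agent.FUE.Rg

theorem thm_Ber (h1 : St_Cal) (h2 : St_Bqb) (h3 : St_Cut) : St_Ber := by
  intro σ _ lam Λ R R' hl hΛ hR' hR
  obtain ⟨κ, C, hκ, hC, H⟩ := h2 σ lam Λ hl hΛ
  obtain ⟨C', H'⟩ := h3 lam Λ κ (κ + Fintype.card σ * Λ ^ 2) C R R' hl hΛ hκ (by positivity) hC
    hR' hR
  refine ⟨1 + C', ?_⟩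
  intro p e w A B hB x hx k s
  have sP := bqb_smP h1 p R w hB.sw
  have sQ := bqb_smQ p R w hB.sw
  have sκ : Sm p R fun _ => κ := (h1 p R).1 κ
  have sKQ : Sm p R fun x => κ + Q2 w x := ((h1 p R).2.2.1 (fun _ => κ) (Q2 w) sκ sQ).1
  have sφ : Sm p R fun x => P2 w x * (κ + Q2 w x) :=
    ((h1 p R).2.2.1 (P2 w) (fun x => κ + Q2 w x) sP sKQ).2.1
  have h4 := H' p e (P2 w) (fun x => P2 w x * (κ + Q2 w x)) hB.se sφ hB.be (by
    intro y hy
    have hP := bqb_P0 w y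
    have hQ := bqb_Q0 w y
    have hQ' := bqb_Q1 Λ w y (hB.bw y hy)
    refine ⟨hP, ?_, ?_, H R p e w A B hB y hy⟩
    · nlinarith [mul_nonneg hP hQ]
    · rw [mul_comm]
      exact mul_le_mul_of_nonneg_right (by linarith) hP) x hx
  have h5 : pd k (w s) x ^ 2 ≤ P2 w x := by
    unfold P2
    exact Finset.single_le_sum (f := fun q : Fin 3 × σ => pd q.1 (w q.2) x ^ 2)
      (fun _ _ => sq_nonneg _) (Finset.mem_univ (k, s))
  have h6 : |pd k (w s) x| ^ 2 ≤ C' := by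
    rw [sq_abs]
    linarith
  nlinarith [sq_nonneg (|pd k (w s) x| - 1), abs_nonneg (pd k (w s) x)]

end Pool.Agent.FUE.Rg
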