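import Pool.Agent.FUE.RgSt

/-!
# FUE, regularity, module BEU: uniform bounds for the second derivatives (helper56)
-/

set_option autoImplicit false

open scoped ContDiff
open Metric

namespace Pool.Agent.FUE.Rg

private theorem beu_G1 {σ : Type} [Fintype σ] (w : σ → E3 → ℝ) (x : E3) : 0 ≤ G1 w x :=
  Finset.sum_nonneg fun _ _ => Finset.sum_nonneg fun _ _ => abs_nonneg _

/-- **BEU.** Uniform bounds for the second derivatives. -/
theorem thm_Beu (h1 : St_Cal) (h2 : St_Ber) (h3 : St_Bec) : St_Beu := by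
  intro σ N _ S p R f hS R' hR' q k
  rcases le_or_gt R' 0 with h0 | h0
  · refine ⟨0, fun n x hx => ?_⟩
    rw [ball_eq_empty.mpr h0] at hx
    exact absurd hx (Set.notMem_empty x)
  · have hR1 : (R' + R) / 2 < R := by linarith
    have hR2 : R' < (R' + R) / 2 := by linarith
    choose cq cq0 hcq using h3 σ N S p R f hS ((R' + R) / 2) hR1
    choose b0 hb0 using hS.bd
    choose b1 hb1 using hS.d1
    obtain ⟨lam, hlam, hel⟩ := hS.el
    have hΛ1 : ∀ q, cq q ≤ (∑ q, cq q) + (∑ s, |b0 s|) + ∑ s, ∑ k, |b1 s k| := by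
      intro q
      have e1 : cq q ≤ ∑ q, cq q :=
        Finset.single_le_sum (fun q _ => cq0 q) (Finset.mem_univ q)
      have e2 : 0 ≤ ∑ s, |b0 s| := Finset.sum_nonneg fun _ _ => abs_nonneg _
      have e3 : 0 ≤ ∑ s, ∑ k, |b1 s k| :=
        Finset.sum_nonneg fun _ _ => Finset.sum_nonneg fun _ _ => abs_nonneg _
      linarith
    have hΛ2 : ∀ s, b0 s ≤ (∑ q, cq q) + (∑ s, |b0 s|) + ∑ s, ∑ k, |b1 s k| := by
      intro s
      have e1 : 0 ≤ ∑ q, cq q := Finset.sum_nonneg fun q _ => cq0 q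
      have e2 : |b0 s| ≤ ∑ s, |b0 s| :=
        Finset.single_le_sum (f := fun s => |b0 s|) (fun q _ => abs_nonneg _) (Finset.mem_univ s)
      have e3 : 0 ≤ ∑ s, ∑ k, |b1 s k| :=
        Finset.sum_nonneg fun _ _ => Finset.sum_nonneg fun _ _ => abs_nonneg _
      have e4 := le_abs_self (b0 s)
      linarith
    have hΛ3 : ∀ s k, b1 s k ≤ (∑ q, cq q) + (∑ s, |b0 s|) + ∑ s, ∑ k, |b1 s k| := by
      intro s k
      have e1 : 0 ≤ ∑ q, cq q := Finset.sum_nonneg fun q _ => cq0 q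
      have e2 : 0 ≤ ∑ s, |b0 s| := Finset.sum_nonneg fun _ _ => abs_nonneg _
      have e3 : |b1 s k| ≤ ∑ k, |b1 s k| :=
        Finset.single_le_sum (f := fun k => |b1 s k|) (fun q _ => abs_nonneg _)
          (Finset.mem_univ k)
      have e5 : ∑ k, |b1 s k| ≤ ∑ s, ∑ k, |b1 s k| :=
        Finset.single_le_sum (f := fun s => ∑ k, |b1 s k|)
          (fun q _ => Finset.sum_nonneg fun _ _ => abs_nonneg _) (Finset.mem_univ s)
      have e4 := le_abs_self (b1 s k)
      linarith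
    generalize hΛd : (∑ q, cq q) + (∑ s, |b0 s|) + ∑ s, ∑ k, |b1 s k| = Λ at hΛ1 hΛ2 hΛ3
    have hΛ : 0 ≤ Λ := le_trans (cq0 q) (hΛ1 q)
    obtain ⟨C, hC⟩ := h2 (Option (Fin 3) × σ) lam Λ ((R' + R) / 2) R' hlam hΛ h0 hR2
    refine ⟨C, fun n x hx => ?_⟩
    choose A B hA hB hAB using fun q => hcq q n
    have hsub : ball (p n) ((R' + R) / 2) ⊆ ball (p n) R := ball_subset_ball hR1.le
    have hsm : ∀ s, Sm (p n) ((R' + R) / 2) (f n s) := fun s => (hS.sm n s).mono hsub
    have hc2 := (h1 (p n) ((R' + R) / 2)).2.1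
    have hbrn : Brn lam Λ ((R' + R) / 2) (p n) (fun a i => f n (S.ei a i)) (pro (f n)) A B := by
      refine ⟨fun a i => hsm _, ?_, hA, hB, ?_, ?_, ?_, ?_, ?_, ?_, ?_, ?_, ?_⟩
      · rintro ⟨_ | j, s⟩
        · exact hsm s
        · exact hc2 j _ (hsm s)
      · intro y hy a i
        exact (hb0 _ n y (hsub hy)).trans (hΛ2 _)
      · intro y hy k a i
        exact (hb1 _ k n y (hsub hy)).trans (hΛ3 _ k)
      · rintro y hy ⟨_ | j, s⟩
        · exact (hb0 s n y (hsub hy)).trans (hΛ2 s)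
        · exact (hb1 s j n y (hsub hy)).trans (hΛ3 s j)
      · intro y hy s k t
        exact ((hAB s y hy).1 k t).trans (hΛ1 s)
      · intro y hy s
        exact ((hAB s y hy).2.1).trans (hΛ1 s)
      · intro y hy j s k t
        exact ((hAB s y hy).2.2.1 j k t).trans (mul_le_mul_of_nonneg_right (hΛ1 s)
          (add_nonneg zero_le_one (beu_G1 _ _)))
      · intro y hy j s
        exact ((hAB s y hy).2.2.2.1 j).trans (mul_le_mul_of_nonneg_right (hΛ1 s)
          (add_nonneg zero_le_one (beu_G1 _ _)))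
      · intro y hy ξ
        exact hel n y (hsub hy) ξ
      · intro y hy s
        exact (hAB s y hy).2.2.2.2
    exact hC (p n) _ _ A B hbrn x hx k q

end Pool.Agent.FUE.Rg
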