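import Pool.Agent.FUE.RgSt

/-!
# FUE, regularity: lower bound for `Lap Q2` (helper81)
-/

set_option autoImplicit false

open scoped ContDiff
open Metric

namespace Pool.Agent.FUE.Rg

theorem bq1_abs_le {σ : Type} [Fintype σ] (w : σ → E3 → ℝ) (x : E3) (k : Fin 3) (s : σ) :
    |pd k (w s) x| ≤ Real.sqrt (P2 w x) := by
  apply Real.abs_le_sqrt
  unfold P2
  exact Finset.single_le_sum (f := fun q : Fin 3 × σ => pd q.1 (w q.2) x ^ 2)
    (fun q _ => sq_nonneg _) (Finset.mem_univ (k, s))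

theorem bq1_G1_le {σ : Type} [Fintype σ] (w : σ → E3 → ℝ) (x : E3) :
    G1 w x ≤ 3 * (Fintype.card σ : ℝ) * Real.sqrt (P2 w x) := by
  unfold G1
  calc ∑ k : Fin 3, ∑ s, |pd k (w s) x| ≤ ∑ _k : Fin 3, ∑ _s : σ, Real.sqrt (P2 w x) :=
        Finset.sum_le_sum fun k _ => Finset.sum_le_sum fun s _ => bq1_abs_le w x k s
    _ = 3 * (Fintype.card σ : ℝ) * Real.sqrt (P2 w x) := by
        rw [Finset.sum_const, Finset.sum_const, Finset.card_univ, Finset.card_univ,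
          Fintype.card_fin, nsmul_eq_mul, nsmul_eq_mul]
        push_cast
        ring

theorem bq1_lap_le {σ : Type} [Fintype σ] {lam Λ R : ℝ} {p : E3} {e : Fin 3 → Fin 3 → E3 → ℝ}
    {w : σ → E3 → ℝ} {A : σ → Fin 3 → σ → E3 → ℝ} {B : σ → E3 → ℝ} (hΛ : 0 ≤ Λ)
    (h : Brn lam Λ R p e w A B) {x : E3} (hx : x ∈ ball p R) (s : σ) :
    |Lap e (w s) x| ≤ Λ * (G1 w x + 1) := by
  rw [h.eq x hx s]
  have h1 : |∑ k, ∑ t, A s k t x * pd k (w t) x| ≤ Λ * G1 w x := by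
    refine (Finset.abs_sum_le_sum_abs _ _).trans ?_
    unfold G1
    rw [Finset.mul_sum]
    refine Finset.sum_le_sum fun k _ => ?_
    refine (Finset.abs_sum_le_sum_abs _ _).trans ?_
    rw [Finset.mul_sum]
    refine Finset.sum_le_sum fun t _ => ?_
    rw [abs_mul]
    exact mul_le_mul_of_nonneg_right (h.bA x hx s k t) (abs_nonneg _)
  calc |∑ k, ∑ t, A s k t x * pd k (w t) x + B s x|
      ≤ |∑ k, ∑ t, A s k t x * pd k (w t) x| + |B s x| := abs_add_le _ _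
    _ ≤ Λ * G1 w x + Λ := add_le_add h1 (h.bB x hx s)
    _ = Λ * (G1 w x + 1) := by ring

theorem bq1_gam {σ : Type} [Fintype σ] {lam Λ R : ℝ} {p : E3} {e : Fin 3 → Fin 3 → E3 → ℝ}
    {w : σ → E3 → ℝ} {A : σ → Fin 3 → σ → E3 → ℝ} {B : σ → E3 → ℝ}
    (h : Brn lam Λ R p e w A B) {x : E3} (hx : x ∈ ball p R) (s : σ) :
    lam * ∑ i, pd i (w s) x ^ 2 ≤ Gam e (w s) (w s) x := by
  have h1 := h.el x hx fun i => pd i (w s) x
  refine h1.trans (le_of_eq ?_)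
  unfold Gam De
  exact Finset.sum_congr rfl fun a _ => by rw [sq]

theorem bq1_P2 {σ : Type} [Fintype σ] (w : σ → E3 → ℝ) (x : E3) :
    P2 w x = ∑ s, ∑ i, pd i (w s) x ^ 2 := by
  unfold P2
  rw [Fintype.sum_prod_type, Finset.sum_comm]

theorem thm_Bq1 (h2 : St_Lpc) : St_Bq1 := by
  intro σ _ lam Λ hlam hΛ
  set m : ℝ := (Fintype.card σ : ℝ) with hm
  have hm0 : 0 ≤ m := Nat.cast_nonneg _
  refine ⟨2 * m * Λ ^ 2 * (3 * m + 1), by positivity, ?_⟩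
  intro R p e w A B h x hx
  have e1 : Lap e (Q2 w) x = ∑ s, (2 * (w s x * Lap e (w s) x) + 2 * Gam e (w s) (w s) x) :=
    ((h2 p R e h.se).2.2.2.2.2 σ Finset.univ w (fun s _ => h.sw s) x hx).2
  rw [e1]
  have hG := bq1_G1_le w x
  rw [← hm] at hG
  have hG0 : 0 ≤ G1 w x := Finset.sum_nonneg fun k _ => Finset.sum_nonneg fun s _ => abs_nonneg _
  have hP : 0 ≤ Real.sqrt (P2 w x) := Real.sqrt_nonneg _
  have e2 : ∀ s, -(2 * Λ ^ 2 * (G1 w x + 1)) + 2 * (lam * ∑ i, pd i (w s) x ^ 2) ≤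
      2 * (w s x * Lap e (w s) x) + 2 * Gam e (w s) (w s) x := by
    intro s
    have a1 : |w s x * Lap e (w s) x| ≤ Λ * (Λ * (G1 w x + 1)) := by
      rw [abs_mul]
      exact mul_le_mul (h.bw x hx s) (bq1_lap_le hΛ h hx s) (abs_nonneg _) hΛ
    have a2 := neg_abs_le (w s x * Lap e (w s) x)
    have a3 := bq1_gam h hx s
    nlinarith
  have e3 : ∑ s, (-(2 * Λ ^ 2 * (G1 w x + 1)) + 2 * (lam * ∑ i, pd i (w s) x ^ 2)) =
      2 * lam * P2 w x - m * (2 * Λ ^ 2 * (G1 w x + 1)) := by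
    rw [Finset.sum_add_distrib, Finset.sum_const, Finset.card_univ, nsmul_eq_mul, ← hm, bq1_P2,
      ← Finset.mul_sum, ← Finset.mul_sum]
    ring
  refine le_trans ?_ ((le_of_eq e3.symm).trans (Finset.sum_le_sum fun s _ => e2 s))
  have e4 : m * (2 * Λ ^ 2 * (G1 w x + 1)) ≤
      m * (2 * Λ ^ 2 * (3 * m * Real.sqrt (P2 w x) + 1)) := by
    gcongr
  have e5 : 3 * m * Real.sqrt (P2 w x) + 1 ≤ (3 * m + 1) * (Real.sqrt (P2 w x) + 1) := by
    nlinarith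
  have e6 : m * (2 * Λ ^ 2 * (3 * m * Real.sqrt (P2 w x) + 1)) ≤
      m * (2 * Λ ^ 2 * ((3 * m + 1) * (Real.sqrt (P2 w x) + 1))) := by
    gcongr
  have e7 : m * (2 * Λ ^ 2 * ((3 * m + 1) * (Real.sqrt (P2 w x) + 1))) =
      2 * m * Λ ^ 2 * (3 * m + 1) * (Real.sqrt (P2 w x) + 1) := by ring
  linarith

end Pool.Agent.FUE.Rg
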