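import Pool.Agent.FUE.Defs

/-!
# FUE, regularity: statements of the modules (helper41)

Second order systems `∑_a D²u (e_a, e_a) = F(c, u, Du)` with bounded first derivatives have all
derivatives bounded in the interior (Bernstein's method, no integrals), and sequences with locally
bounded derivatives have `C^∞` convergent subsequences (Arzela-Ascoli).
Everything is written for scalar components `E3 → ℝ` and partial derivatives.
The file `Rg<Name>.lean` proves `thm_<Name> : St_<Name>`; hypotheses `h : St_X` may be used.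
-/

set_option autoImplicit false

open scoped ContDiff
open Metric

namespace Pool.Agent.FUE.Rg

/-- partial derivative number `k` -/
noncomputable def pd (k : Fin 3) (f : E3 → ℝ) : E3 → ℝ :=
  fun x => fderiv ℝ f x (EuclideanSpace.single k 1)

/-- iterated partial derivatives -/
noncomputable def pds : List (Fin 3) → (E3 → ℝ) → E3 → ℝ
  | [], f => f
  | k :: l, f => pd k (pds l f)

/-- smooth on the open ball -/
def Sm (p : E3) (R : ℝ) (f : E3 → ℝ) : Prop := ContDiffOn ℝ ∞ f (ball p R)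

/-- All partial derivatives of the functions `f n` are bounded, uniformly in `n`, on the balls
around `p n` of every smaller radius. -/
def BD {N : Type} (p : N → E3) (R : ℝ) (f : N → E3 → ℝ) : Prop :=
  ∀ R' < R, ∀ l : List (Fin 3), ∃ C : ℝ, ∀ n, ∀ x ∈ ball (p n) R', |pds l (f n) x| ≤ C

/-- `∑_a D²f (e_a, e_a)` for the vectors `e_a = (e a 0, e a 1, e a 2)` -/
noncomputable def Lap (e : Fin 3 → Fin 3 → E3 → ℝ) (f : E3 → ℝ) : E3 → ℝ :=
  fun x => ∑ a, ∑ i, ∑ j, e a i x * e a j x * pd i (pd j f) x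

/-- the derivative of `f` in the direction `e_a` -/
noncomputable def De (e : Fin 3 → Fin 3 → E3 → ℝ) (a : Fin 3) (f : E3 → ℝ) : E3 → ℝ :=
  fun x => ∑ i, e a i x * pd i f x

/-- `∑_a (e_a f) (e_a g)` -/
noncomputable def Gam (e : Fin 3 → Fin 3 → E3 → ℝ) (f g : E3 → ℝ) : E3 → ℝ :=
  fun x => ∑ a, De e a f x * De e a g x

/-- `f` for `none`, the partial derivative number `k` for `some k` -/
noncomputable def pdo : Option (Fin 3) → (E3 → ℝ) → E3 → ℝ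
  | none, f => f
  | some k, f => pd k f

/-- the functions together with their first partial derivatives -/
noncomputable def pro {σ : Type} (f : σ → E3 → ℝ) : Option (Fin 3) × σ → E3 → ℝ :=
  fun q => pdo q.1 (f q.2)

/-- CAL. Calculus of partial derivatives.

Proof. `ContDiffOn` on the open ball; (1) `contDiffOn_infty_iff_fderiv_of_isOpen` (or the same with
`contDiffOn_succ_iff_fderiv_of_isOpen`) and evaluation at a vector; (2) `fderiv_mul` etc at a point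
of the ball, where the functions are differentiable; (3) symmetry of the second derivative
(`ContDiffAt.isSymmSndFDerivAt`, with `minSmoothness` for the real numbers); (4) the functions
agree near the point. -/
def St_Cal : Prop := ∀ (p : E3) (R : ℝ),
  (∀ c : ℝ, Sm p R fun _ => c) ∧
  (∀ (k : Fin 3) (f : E3 → ℝ), Sm p R f → Sm p R (pd k f)) ∧
  (∀ f g : E3 → ℝ, Sm p R f → Sm p R g → Sm p R (fun x => f x + g x) ∧
    Sm p R (fun x => f x * g x) ∧ ∀ x ∈ ball p R, ∀ k,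
      pd k (fun x => f x + g x) x = pd k f x + pd k g x ∧
      pd k (fun x => f x * g x) x = pd k f x * g x + f x * pd k g x) ∧
  (∀ (c : ℝ) (k : Fin 3) (x : E3), pd k (fun _ => c) x = 0) ∧
  (∀ (τ : Type) (T : Finset τ) (f : τ → E3 → ℝ), (∀ t ∈ T, Sm p R (f t)) →
    Sm p R (fun x => ∑ t ∈ T, f t x) ∧ ∀ x ∈ ball p R, ∀ k,
      pd k (fun x => ∑ t ∈ T, f t x) x = ∑ t ∈ T, pd k (f t) x) ∧
  (∀ f : E3 → ℝ, Sm p R f → ∀ x ∈ ball p R, ∀ i j, pd i (pd j f) x = pd j (pd i f) x) ∧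
  (∀ f g : E3 → ℝ, (∀ x ∈ ball p R, f x = g x) →
    (Sm p R f → Sm p R g) ∧ ∀ x ∈ ball p R, ∀ k, pd k f x = pd k g x)

/-- CHN. Composition with a smooth function of several variables.

Proof. `ContDiff.comp_contDiffOn`, `contDiffOn_pi`; the chain rule at a point (`fderiv_comp'`,
`fderiv_pi`), and a linear map `L : (σ → ℝ) → ℝ` is `v ↦ ∑ v s * L (Pi.single s 1)`
(`pi_eq_sum_univ`). -/
def St_Chn : Prop := ∀ (σ : Type) [Fintype σ] [DecidableEq σ] (F : (σ → ℝ) → ℝ), ContDiff ℝ ∞ F →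
  (∀ s, ContDiff ℝ ∞ fun y => fderiv ℝ F y (Pi.single s 1)) ∧
  ∀ (p : E3) (R : ℝ) (f : σ → E3 → ℝ), (∀ s, Sm p R (f s)) →
    Sm p R (fun x => F fun s => f s x) ∧ ∀ x ∈ ball p R, ∀ k,
      pd k (fun x => F fun s => f s x) x =
        ∑ s, fderiv ℝ F (fun s => f s x) (Pi.single s 1) * pd k (f s) x

/-- LPC. Calculus of `Lap`.

Proof. From CAL. (3): Leibniz rule twice; the mixed terms `e a i * e a j * (pd i f * pd j g + pd j f
* pd i g)` add up to `2 Gam`. (4) Leibniz rule for the product of three functions and the symmetry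
of the second derivatives (`pd l (pd i (pd j f)) = pd i (pd j (pd l f))` on the ball). -/
def St_Lpc : Prop := ∀ (p : E3) (R : ℝ) (e : Fin 3 → Fin 3 → E3 → ℝ), (∀ a i, Sm p R (e a i)) →
  (∀ f, Sm p R f → Sm p R (Lap e f)) ∧
  (∀ f g, Sm p R f → Sm p R g → ∀ x ∈ ball p R,
    Lap e (fun x => f x + g x) x = Lap e f x + Lap e g x) ∧
  (∀ f g, Sm p R f → Sm p R g → ∀ x ∈ ball p R,
    Lap e (fun x => f x * g x) x = Lap e f x * g x + f x * Lap e g x + 2 * Gam e f g x) ∧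
  (∀ f, Sm p R f → ∀ x ∈ ball p R, ∀ l, pd l (Lap e f) x = Lap e (pd l f) x +
    ∑ a, ∑ i, ∑ j, (pd l (e a i) x * e a j x + e a i x * pd l (e a j) x) * pd i (pd j f) x) ∧
  (∀ (c : ℝ) (x : E3), Lap e (fun _ => c) x = 0) ∧
  (∀ (τ : Type) (T : Finset τ) (f : τ → E3 → ℝ), (∀ t ∈ T, Sm p R (f t)) → ∀ x ∈ ball p R,
    Lap e (fun x => ∑ t ∈ T, f t x) x = ∑ t ∈ T, Lap e (f t) x ∧
    Lap e (fun x => ∑ t ∈ T, f t x ^ 2) x =
      ∑ t ∈ T, (2 * (f t x * Lap e (f t) x) + 2 * Gam e (f t) (f t) x))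

/-- MXP. Maximum principle at a point.

Proof. `x` is a local maximum (`IsLocalMax`), so `fderiv ℝ ψ x = 0`. For each `a` the function
`g t = ψ (x + t v)`, `v = (e a 0 x, e a 1 x, e a 2 x)`, has a local maximum at `0`, `deriv g 0 = 0`,
`deriv (deriv g) 0 = ∑_i ∑_j v_i v_j pd i (pd j ψ) x`; if it were positive, `0` would be a local
minimum (`isLocalMin_of_deriv_deriv_pos`), so `g` would be constant near `0` and the second
derivative `0`. -/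
def St_Mxp : Prop := ∀ (p : E3) (R : ℝ) (ψ : E3 → ℝ) (x : E3), Sm p R ψ → x ∈ ball p R →
  (∀ y ∈ ball p R, ψ y ≤ ψ x) → (∀ k, pd k ψ x = 0) ∧
  ∀ e : Fin 3 → Fin 3 → E3 → ℝ, Lap e ψ x ≤ 0

/-- RIN. The inequality behind Bernstein's method (real numbers).

Proof. `(κ + q) Lp ≥ κ lam b² - (κ + Q)(C₄ a² + C₂ a³ + C₂ a)`, because `2 lam b² - C₂ a b ≥ lam b² -
C₂² a² / (4 lam)`; `a² Lq ≥ 2 lam a⁴ - C₁ (a³ + a²)`; `2 g ≥ -2 C₃ a² b ≥ - κ lam b² - C₃² a⁴ / (κ lam)`.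
Choose `κ` with `C₃² / (κ lam) ≤ lam / 2`; then the sum is at least `(3/2) lam a⁴` minus a polynomial
of degree 3 in `a`, and `a³ ≤ ε a⁴ + C_ε`. -/
def St_Rin : Prop := ∀ lam C₁ C₂ C₃ Q : ℝ, 0 < lam → 0 ≤ C₁ → 0 ≤ C₂ → 0 ≤ C₃ → 0 ≤ Q →
  ∃ κ C : ℝ, 0 < κ ∧ 0 ≤ C ∧ ∀ a b q Lp Lq g : ℝ, 0 ≤ a → 0 ≤ b → 0 ≤ q → q ≤ Q →
    2 * lam * a ^ 2 - C₁ * (a + 1) ≤ Lq → 2 * lam * b ^ 2 - C₂ * a * (b + a ^ 2 + 1) ≤ Lp →
    |g| ≤ C₃ * a ^ 2 * b → lam * a ^ 4 - C ≤ (κ + q) * Lp + a ^ 2 * Lq + 2 * g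

/-- `∑ |pd k (w s) x|` -/
noncomputable def G1 {σ : Type} [Fintype σ] (w : σ → E3 → ℝ) (x : E3) : ℝ :=
  ∑ k, ∑ s, |pd k (w s) x|

/-- `∑ (w s x)²` -/
noncomputable def Q2 {σ : Type} [Fintype σ] (w : σ → E3 → ℝ) (x : E3) : ℝ := ∑ s, w s x ^ 2

/-- `∑ (pd k (w s) x)²` -/
noncomputable def P2 {σ : Type} [Fintype σ] (w : σ → E3 → ℝ) (x : E3) : ℝ :=
  ∑ q : Fin 3 × σ, pd q.1 (w q.2) x ^ 2

/-- `∑ (pd i (pd k (w s)) x)²` -/
noncomputable def H2 {σ : Type} [Fintype σ] (w : σ → E3 → ℝ) (x : E3) : ℝ :=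
  ∑ i, ∑ q : Fin 3 × σ, pd i (pd q.1 (w q.2)) x ^ 2

/-- The hypotheses of the interior estimate: bounds `Λ` for the vectors `e_a` and their first
derivatives, for `w` and for the coefficients of `Lap e (w s) = ∑ A s k t * pd k (w t) + B s`; the
derivatives of the coefficients are at most linear in `Dw`. -/
structure Brn {σ : Type} [Fintype σ] (lam Λ R : ℝ) (p : E3) (e : Fin 3 → Fin 3 → E3 → ℝ)
    (w : σ → E3 → ℝ) (A : σ → Fin 3 → σ → E3 → ℝ) (B : σ → E3 → ℝ) : Prop where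
  se : ∀ a i, Sm p R (e a i)
  sw : ∀ s, Sm p R (w s)
  sA : ∀ s k t, Sm p R (A s k t)
  sB : ∀ s, Sm p R (B s)
  be : ∀ x ∈ ball p R, ∀ a i, |e a i x| ≤ Λ
  de : ∀ x ∈ ball p R, ∀ k a i, |pd k (e a i) x| ≤ Λ
  bw : ∀ x ∈ ball p R, ∀ s, |w s x| ≤ Λ
  bA : ∀ x ∈ ball p R, ∀ s k t, |A s k t x| ≤ Λ
  bB : ∀ x ∈ ball p R, ∀ s, |B s x| ≤ Λ
  dA : ∀ x ∈ ball p R, ∀ j s k t, |pd j (A s k t) x| ≤ Λ * (1 + G1 w x)
  dB : ∀ x ∈ ball p R, ∀ j s, |pd j (B s) x| ≤ Λ * (1 + G1 w x)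
  el : ∀ x ∈ ball p R, ∀ ξ : Fin 3 → ℝ, lam * ∑ i, ξ i ^ 2 ≤ ∑ a, (∑ i, e a i x * ξ i) ^ 2
  eq : ∀ x ∈ ball p R, ∀ s, Lap e (w s) x = ∑ k, ∑ t, A s k t x * pd k (w t) x + B s x

/-- BQ1. Lower bound for `Lap Q2`.

Proof. Let `a = sqrt P2`, `m` = number of elements of `σ`; `|pd k (w s)| ≤ a`, `G1 ≤ 3 m a`. LPC:
`Lap Q2 = ∑_s (2 w_s Lap w_s + 2 Gam w_s w_s)`, and `∑_s Gam w_s w_s = ∑_s ∑_a (∑_i e a i pd i w_s)² ≥ lam P2`
by `el`, and `|Lap w_s| ≤ Λ (G1 + 1)` by `eq`. -/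
def St_Bq1 : Prop := ∀ (σ : Type) [Fintype σ] (lam Λ : ℝ), 0 < lam → 0 ≤ Λ →
  ∃ C₁ : ℝ, 0 ≤ C₁ ∧
  ∀ (R : ℝ) (p : E3) (e : Fin 3 → Fin 3 → E3 → ℝ) (w : σ → E3 → ℝ)
    (A : σ → Fin 3 → σ → E3 → ℝ) (B : σ → E3 → ℝ), Brn lam Λ R p e w A B → ∀ x ∈ ball p R,
    2 * lam * P2 w x - C₁ * (Real.sqrt (P2 w x) + 1) ≤ Lap e (Q2 w) x

/-- BQ2. Lower bound for `Lap P2`.

Proof. Let `a = sqrt P2`, `b = sqrt H2`; `|pd k (w s)| ≤ a`, `|pd i (pd k (w s))| ≤ b`, `G1 ≤ 3 m a`, `P2 = a²`.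
LPC: `Lap P2 = ∑_(k, s) (2 pd k w_s Lap (pd k w_s) + 2 Gam (pd k w_s) (pd k w_s))`; the second terms
add up to at least `2 lam H2` (`el` with `ξ_i = pd i (pd k w_s)`). By LPC (4) `Lap (pd k w_s) =
pd k (Lap w_s) - ∑ (pd k (e a i) e a j + e a i pd k (e a j)) pd i (pd j w_s)`, and `Lap w_s = ∑ A pd w + B` on
the whole ball (CAL (7)), so `|pd k (Lap w_s)| ≤ Λ (1 + G1) G1 + Λ ∑ |pd k (pd j w_t)| + Λ (1 + G1)`. So
`|Lap (pd k w_s)| ≤ C (b + a² + a + 1) ≤ 2 C (b + a² + 1)`. -/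
def St_Bq2 : Prop := ∀ (σ : Type) [Fintype σ] (lam Λ : ℝ), 0 < lam → 0 ≤ Λ →
  ∃ C₂ : ℝ, 0 ≤ C₂ ∧
  ∀ (R : ℝ) (p : E3) (e : Fin 3 → Fin 3 → E3 → ℝ) (w : σ → E3 → ℝ)
    (A : σ → Fin 3 → σ → E3 → ℝ) (B : σ → E3 → ℝ), Brn lam Λ R p e w A B → ∀ x ∈ ball p R,
    2 * lam * H2 w x - C₂ * Real.sqrt (P2 w x) * (Real.sqrt (H2 w x) + P2 w x + 1) ≤
      Lap e (P2 w) x

/-- BQ3. The mixed term.

Proof. With `a`, `b` as in BQ2: `De e a' P2 = ∑_(k, s) 2 pd k w_s De e a' (pd k w_s)`, at most `C a b` in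
absolute value (all functions are smooth, CAL), and `De e a' Q2 = ∑_s 2 w_s De e a' w_s`, at most `C a`. -/
def St_Bq3 : Prop := ∀ (σ : Type) [Fintype σ] (lam Λ : ℝ), 0 < lam → 0 ≤ Λ →
  ∃ C₃ : ℝ, 0 ≤ C₃ ∧
  ∀ (R : ℝ) (p : E3) (e : Fin 3 → Fin 3 → E3 → ℝ) (w : σ → E3 → ℝ)
    (A : σ → Fin 3 → σ → E3 → ℝ) (B : σ → E3 → ℝ), Brn lam Λ R p e w A B → ∀ x ∈ ball p R,
    |Gam e (P2 w) (Q2 w) x| ≤ C₃ * P2 w x * Real.sqrt (H2 w x)

/-- BQB. The function `φ = P2 (κ + Q2)` satisfies `Lap φ ≥ lam P2² - C`.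

Proof. `Lap (P2 * (κ + Q2)) = (κ + Q2) Lap P2 + P2 Lap Q2 + 2 Gam P2 Q2` by LPC (`Gam e f (κ + g) =
Gam e f g`), BQ1, BQ2, BQ3 and RIN with `a = sqrt P2`, `b = sqrt H2`, `Q = m Λ²`. -/
def St_Bqb : Prop := ∀ (σ : Type) [Fintype σ] (lam Λ : ℝ), 0 < lam → 0 ≤ Λ →
  ∃ κ C : ℝ, 0 < κ ∧ 0 ≤ C ∧
  ∀ (R : ℝ) (p : E3) (e : Fin 3 → Fin 3 → E3 → ℝ) (w : σ → E3 → ℝ)
    (A : σ → Fin 3 → σ → E3 → ℝ) (B : σ → E3 → ℝ), Brn lam Λ R p e w A B → ∀ x ∈ ball p R,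
    lam * P2 w x ^ 2 - C ≤ Lap e (fun x => P2 w x * (κ + Q2 w x)) x

/-- CUT. From the differential inequality to a bound.

Proof. Let `R₁ = (R' + R) / 2`, `ζ = R₁² - ∑ (x_i - p_i)²` (smooth), `ψ = ζ² φ` on the closed ball of
radius `R₁` (compact, contained in `ball p R`); `x₀` a maximum point. If `ψ x₀ = 0` then `φ = 0`
on the open ball. Otherwise `x₀` is in the open ball of radius `R₁`, and MXP (on this ball) gives
`pd k ψ x₀ = 0` and `Lap ψ x₀ ≤ 0`, where `pd k ψ = 2 ζ pd k ζ φ + ζ² pd k φ`, so `ζ pd k φ = - 2 φ pd k ζ` at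
`x₀`, and by LPC `Lap ψ = ζ² Lap φ + 2 Gam (ζ²) φ + φ Lap (ζ²) = ζ² Lap φ - 8 φ Gam ζ ζ + φ (2 ζ Lap ζ + 2 Gam ζ ζ)`.
As `|Gam ζ ζ|, |ζ Lap ζ| ≤ C₅` (`|e| ≤ Λ`), `ζ² (lam P² - C) ≤ 8 C₅ φ`. With `t = ζ² P`, multiplied by `ζ²`:
`lam t² ≤ C R₁⁸ + 8 C₅ K t`, so `t ≤ 1 + (C R₁⁸ + 8 C₅ K) / lam`. For `x` in the ball of radius `R'`:
`(R₁² - R'²)² κ P x ≤ ψ x ≤ ψ x₀ ≤ K t`. -/
def St_Cut : Prop := ∀ lam Λ κ K C R R' : ℝ, 0 < lam → 0 ≤ Λ → 0 < κ → 0 ≤ K → 0 ≤ C → 0 < R' →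
  R' < R → ∃ C' : ℝ, ∀ (p : E3) (e : Fin 3 → Fin 3 → E3 → ℝ) (P φ : E3 → ℝ),
    (∀ a i, Sm p R (e a i)) → Sm p R φ → (∀ x ∈ ball p R, ∀ a i, |e a i x| ≤ Λ) →
    (∀ x ∈ ball p R, 0 ≤ P x ∧ κ * P x ≤ φ x ∧ φ x ≤ K * P x ∧ lam * P x ^ 2 - C ≤ Lap e φ x) →
    ∀ x ∈ ball p R', P x ≤ C'

/-- BER. The interior gradient estimate.

Proof. BQB and CUT with `φ = P2 (κ + Q2)`, `K = κ + m Λ²`; `(pd k (w s) x)² ≤ P2 w x`. -/
def St_Ber : Prop := ∀ (σ : Type) [Fintype σ] (lam Λ R R' : ℝ), 0 < lam → 0 ≤ Λ → 0 < R' → R' < R →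
  ∃ C : ℝ, ∀ (p : E3) (e : Fin 3 → Fin 3 → E3 → ℝ) (w : σ → E3 → ℝ)
    (A : σ → Fin 3 → σ → E3 → ℝ) (B : σ → E3 → ℝ), Brn lam Λ R p e w A B →
    ∀ x ∈ ball p R', ∀ k s, |pd k (w s) x| ≤ C

/-- A system `Lap (f s) = F s (f, Df)` (`s : σ`), `Lap` with the vectors `e_a = (f (ei a i))_i`. -/
structure FSys (σ : Type) [Fintype σ] where
  ei : Fin 3 → Fin 3 → σ
  F : σ → (Option (Fin 3) × σ → ℝ) → ℝ
  sm : ∀ s, ContDiff ℝ ∞ (F s)

/-- A family of solutions of a system with bounded first derivatives. Each of the functions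
`f n s` (`s` fixed) has all derivatives bounded or satisfies its equation. -/
structure FSol {σ N : Type} [Fintype σ] (S : FSys σ) (p : N → E3) (R : ℝ)
    (f : N → σ → E3 → ℝ) : Prop where
  sm : ∀ n s, Sm (p n) R (f n s)
  bd : ∀ s, ∃ C : ℝ, ∀ n, ∀ x ∈ ball (p n) R, |f n s x| ≤ C
  d1 : ∀ s k, ∃ C : ℝ, ∀ n, ∀ x ∈ ball (p n) R, |pd k (f n s) x| ≤ C
  be : ∀ a i, BD p R fun n => f n (S.ei a i)
  el : ∃ lam : ℝ, 0 < lam ∧ ∀ n, ∀ x ∈ ball (p n) R, ∀ ξ : Fin 3 → ℝ,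
    lam * ∑ i, ξ i ^ 2 ≤ ∑ a, (∑ i, f n (S.ei a i) x * ξ i) ^ 2
  eq : ∀ s, (BD p R fun n => f n s) ∨ ∀ n, ∀ x ∈ ball (p n) R,
    Lap (fun a i => f n (S.ei a i)) (f n s) x = S.F s fun q => pro (f n) q x

open Classical in
/-- The right hand sides of the equations for `pro f`; for `q = (some l, s)` this is
`∑_r ∂_r (F s) * pd l (pro f r) - ∑ pd l (e a i * e a j) * pd i (pd j (f s))`. -/
noncomputable def pF {σ : Type} [Fintype σ] (S : FSys σ) :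
    Option (Fin 3) × σ → (Option (Fin 3) × (Option (Fin 3) × σ) → ℝ) → ℝ
  | (none, s), Y => S.F s fun r => Y (none, r)
  | (some l, s), Y => (∑ r, fderiv ℝ (S.F s) (fun r => Y (none, r)) (Pi.single r 1) * Y (some l, r)) -
      ∑ a, ∑ i, ∑ j, (Y (none, (some l, S.ei a i)) * Y (none, (none, S.ei a j)) +
        Y (none, (none, S.ei a i)) * Y (none, (some l, S.ei a j))) * Y (some i, (some j, s))

/-- PEQ. The equations for the first derivatives.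

Proof. LPC (4) and CHN, as `Lap (f s) = F s (pro f)` on the whole ball (CAL (7)). The smoothness of
`pF`: CHN, sums and products of smooth functions. -/
def St_Peq : Prop := ∀ (σ : Type) [Fintype σ] (S : FSys σ),
  (∀ q, ContDiff ℝ ∞ (pF S q)) ∧
  ∀ (p : E3) (R : ℝ) (f : σ → E3 → ℝ), (∀ s, Sm p R (f s)) → ∀ s,
    (∀ x ∈ ball p R, Lap (fun a i => f (S.ei a i)) (f s) x = S.F s fun q => pro f q x) →
    ∀ x ∈ ball p R, ∀ o, Lap (fun a i => f (S.ei a i)) (pdo o (f s)) x =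
      pF S (o, s) fun q => pro (pro f) q x

/-- BEC. The coefficients of the equations for `pro f`, with uniform bounds.

Proof. Let `w = pro (f n)`, `e a i = f n (ei a i)`, `q = (o, s)`. If `f n s` has all derivatives bounded
(first case of `eq`): `A = 0`, `B = Lap e (w q)`, which is bounded on the smaller balls with its
derivatives, as the derivatives of `f n s` and of the `e a i` are bounded (`pds l (pd k f) =
pds (l ++ [k]) f`, Leibniz rule). In the second case for `q = (none, s)`: `A = 0`, `B = F s (w)`, and for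
`q = (some l, s)`: `B = 0` and (PEQ)
`A k r = δ_kl ∂_r (F s) (w) - [r = (some j, s)] ∑_a (pd l (e a k) * e a j + e a k * pd l (e a j))`.
`w` is bounded (`bd`, `d1`), so `F s (w)`, `∂_r (F s) (w)` and the second derivatives `∂_r' ∂_r (F s) (w)` are
bounded, uniformly in `n` (continuous functions are bounded on compact sets; CHN); the
derivative of `F s (w)` is at most `C G1 w`, and that of `A k r` at most `C G1 w + C` (CHN, CAL). -/
def St_Bec : Prop := ∀ (σ N : Type) [Fintype σ] (S : FSys σ) (p : N → E3) (R : ℝ)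
  (f : N → σ → E3 → ℝ), FSol S p R f → ∀ R₁ < R, ∀ q : Option (Fin 3) × σ,
    ∃ C : ℝ, 0 ≤ C ∧ ∀ n, ∃ (A : Fin 3 → Option (Fin 3) × σ → E3 → ℝ) (B : E3 → ℝ),
      (∀ k r, Sm (p n) R₁ (A k r)) ∧ Sm (p n) R₁ B ∧ ∀ x ∈ ball (p n) R₁,
        (∀ k r, |A k r x| ≤ C) ∧ |B x| ≤ C ∧
        (∀ j k r, |pd j (A k r) x| ≤ C * (1 + G1 (pro (f n)) x)) ∧
        (∀ j, |pd j B x| ≤ C * (1 + G1 (pro (f n)) x)) ∧
        Lap (fun a i => f n (S.ei a i)) (pro (f n) q) x =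
          ∑ k, ∑ r, A k r x * pd k (pro (f n) r) x + B x

/-- BEU. Uniform bounds for the second derivatives.

Proof. We may assume `0 < R'`. Let `R₁ = (R' + R) / 2`. Apply BER on the balls of radius `R₁`, with
the index type `Option (Fin 3) × σ`, to `w = pro (f n)`, `e a i = f n (ei a i)` and the coefficients of
BEC (`Λ` = the maximum of the finitely many bounds: BEC, `bd`, `d1`, `be`). -/
def St_Beu : Prop := ∀ (σ N : Type) [Fintype σ] (S : FSys σ) (p : N → E3) (R : ℝ)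
  (f : N → σ → E3 → ℝ), FSol S p R f → ∀ R' < R, ∀ (q : Option (Fin 3) × σ) (k : Fin 3),
    ∃ C : ℝ, ∀ n, ∀ x ∈ ball (p n) R', |pd k (pro (f n) q) x| ≤ C

/-- PRO. Prolongation.

Proof. `S' = (ei a i := (none, ei a i), F := pF S)`, smooth by PEQ. `sm`: CAL. `bd`: `bd` and `d1`.
`d1`: BEU. `be`, `el`: `pro f (none, s) = f s`. `eq`: PEQ; if all derivatives of `f n s` are
bounded, so are those of `pd k (f n s)` (`pds l (pd k f) = pds (l ++ [k]) f`). -/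
def St_Pro : Prop := ∀ (σ N : Type) [Fintype σ] (S : FSys σ) (p : N → E3) (R : ℝ)
  (f : N → σ → E3 → ℝ), FSol S p R f →
  ∃ S' : FSys (Option (Fin 3) × σ), ∀ R' < R, FSol S' p R' fun n => pro (f n)

/-- REG. All derivatives are bounded.

Proof. Induction on `m`: for all `σ`, `S`, `f`, `R`, `FSol S p R f` implies for all `s`, `R' < R` and
lists `l` of length `m` the bound for `pds l (f n s)` on the balls of radius `R'`. `m = 0`: `bd`.
`m + 1`: `l = l' ++ [k]`, `pds l g = pds l' (pd k g)`; apply the induction hypothesis to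
`pro (f n)`, `(some k, s)`, on the balls of radius `(R' + R) / 2` (PRO). -/
def St_Reg : Prop := ∀ (σ N : Type) [Fintype σ] (S : FSys σ) (p : N → E3) (R : ℝ)
  (f : N → σ → E3 → ℝ), FSol S p R f → ∀ s, BD p R fun n => f n s

/-- ELL. Ellipticity from the determinant.

Proof. `det B * ξ = adj(B) (B ξ)`, the entries of the adjugate are at most `2 Λ²`, so
`δ |ξ_i| ≤ 2 Λ² ∑_a |(B ξ)_a|`, and Cauchy-Schwarz. -/
def St_Ell : Prop := ∀ δ Λ : ℝ, 0 < δ → ∃ lam : ℝ, 0 < lam ∧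
  ∀ B : Matrix (Fin 3) (Fin 3) ℝ, (∀ a i, |B a i| ≤ Λ) → δ ≤ |B.det| → ∀ ξ : Fin 3 → ℝ,
    lam * ∑ i, ξ i ^ 2 ≤ ∑ a, (∑ i, B a i * ξ i) ^ 2

/-- CNV. Partial derivatives and `iteratedFDeriv`.

Proof. For functions `f : E3 → W` with values in a normed space put `∂_k f x = fderiv ℝ f x e_k`. On
the ball `‖iteratedFDeriv (n+1) f x‖ = ‖iteratedFDeriv n (fderiv f) x‖` (`norm_iteratedFDeriv_fderiv`),
`∂_k f = (evaluation at e_k) ∘ fderiv f` and `fderiv f x = ∑_k (∂_k f x) ⊗ (k-th coordinate)`; the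
linear maps have norm at most one (`ContinuousLinearMap.norm_iteratedFDeriv_comp_left` or
`ContinuousLinearMap.iteratedFDeriv_comp_left`; the smoothness is only needed near `x`). (1) and
(2) by induction on the length, for all `f` at once. (3): the `i`-th coordinate is a linear map of
norm at most one, and `u = ∑_i u_i • e_i`. -/
def St_Cnv : Prop := ∀ (p : E3) (R : ℝ),
  (∀ f : E3 → ℝ, Sm p R f → ∀ x ∈ ball p R, ∀ l : List (Fin 3),
    |pds l f x| ≤ ‖iteratedFDeriv ℝ l.length f x‖) ∧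
  (∀ f : E3 → ℝ, Sm p R f → ∀ x ∈ ball p R, ∀ n : ℕ,
    ‖iteratedFDeriv ℝ n f x‖ ≤ ∑ l : Fin n → Fin 3, |pds (List.ofFn l) f x|) ∧
  ∀ u : E3 → V9, ContDiffOn ℝ ∞ u (ball p R) → (∀ i, Sm p R fun x => u x i) ∧
    ∀ x ∈ ball p R, ∀ n : ℕ,
      (∀ i, ‖iteratedFDeriv ℝ n (fun x => u x i) x‖ ≤ ‖iteratedFDeriv ℝ n u x‖) ∧
      ‖iteratedFDeriv ℝ n u x‖ ≤ ∑ i, ‖iteratedFDeriv ℝ n (fun x => u x i) x‖

/-- RGV. The regularity theorem for maps `u : ball → V9`: second order equation with right hand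
side a smooth function `F` of coefficient functions `c`, of `u` and its first derivatives. The
vectors of the second order operator are the rows of the matrix `(c (bi a i))`.

Proof. `N` = the type of all `(y₀, c, u)` which satisfy the hypotheses, `p (y₀, c, u) = y₀`, `σ = κ ⊕ V9
components`, `f (y₀, c, u)` = the functions `c` and the components of `u`, the system `F (inl s) = 0`,
`F (inr i) = F i`. `FSol` with the radius `r`: `sm`, `bd`, `d1` from CNV, `be` and the first case of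
`eq` for `c` from CNV (1), `el` from ELL, the second case of `eq` from the equation. REG with
`R' = r / 2` and CNV (2), (3) give the bound. -/
def St_Rgv : Prop := ∀ (κ : Type) [Fintype κ] (bi : Fin 3 → Fin 3 → κ)
  (F : Fin 3 × Fin 3 → (κ → ℝ) × (Fin 3 × Fin 3 → ℝ) × (Fin 3 → Fin 3 × Fin 3 → ℝ) → ℝ),
  (∀ i, ContDiff ℝ ∞ (F i)) → ∀ (Λ : ℕ → ℝ) (δ r : ℝ), 0 < δ → 0 < r →
  ∃ C : ℕ → ℝ, ∀ (y₀ : E3) (c : κ → E3 → ℝ) (u : E3 → V9),
    (∀ s, Sm y₀ r (c s)) → ContDiffOn ℝ ∞ u (ball y₀ r) →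
    (∀ k s, ∀ x ∈ ball y₀ r, ‖iteratedFDeriv ℝ k (c s) x‖ ≤ Λ k) →
    (∀ x ∈ ball y₀ r, ‖u x‖ ≤ Λ 0 ∧ ‖fderiv ℝ u x‖ ≤ Λ 0 ∧
      δ ≤ |(Matrix.of fun a i => c (bi a i) x).det| ∧
      ∀ i, Lap (fun a j => c (bi a j)) (fun y => u y i) x =
        F i (fun s => c s x, fun j => u x j, fun k j => pd k (fun y => u y j) x)) →
    ∀ k, ∀ x ∈ ball y₀ (r / 2), ‖iteratedFDeriv ℝ k u x‖ ≤ C k

/-- AAX. Diagonal sequence.

Proof. Truncate the numbers `a n j` to `[-C j, C j]` (`C j` the bound for `n ≥ n₀ j`); the product of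
these intervals is compact and first countable, so there is `φ` such that the truncated sequences
converge along `φ` (`IsCompact.tendsto_subseq`, `isCompact_univ_pi`). -/
def St_Aax : Prop := ∀ (J : Type) [Countable J] (a : ℕ → J → ℝ),
  (∀ j, ∃ (n₀ : ℕ) (C : ℝ), ∀ n ≥ n₀, |a n j| ≤ C) →
  ∃ φ : ℕ → ℕ, StrictMono φ ∧
    ∀ j, ∃ L : ℝ, Filter.Tendsto (fun n => a (φ n) j) Filter.atTop (nhds L)

/-- AAA. Arzela-Ascoli.

Proof. Let `D` be a countable dense subset of `U` (`TopologicalSpace.exists_countable_dense` in the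
subtype `U`). AAX for `J × D` and the numbers `F n j q`. Near `x ∈ U` the functions `F n j` (`n ≥ n₀`) are
Lipschitz with the same constant, so `F (φ n) j` is uniformly Cauchy on a small ball around `x`
(cover it by finitely many tiny balls around points of `D`); `G j y` = the limit. -/
def St_Aaa : Prop := ∀ (J : Type) [Countable J] (U : Set E3) (F : ℕ → J → E3 → ℝ), IsOpen U →
  (∀ x ∈ U, ∀ j, ∃ r > 0, ∃ (n₀ : ℕ) (C : ℝ), ∀ n ≥ n₀, ∀ y ∈ ball x r, ∀ z ∈ ball x r,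
    |F n j y| ≤ C ∧ |F n j y - F n j z| ≤ C * dist y z) →
  ∃ (φ : ℕ → ℕ) (G : J → E3 → ℝ), StrictMono φ ∧
    ∀ j, TendstoLocallyUniformlyOn (fun n => F (φ n) j) (G j) Filter.atTop U

/-- AAB. `C^∞` version.

Proof. AAA for `J = ι × List (Fin 3)`, `F n (i, l) = pds l (f n i)` (Lipschitz on a ball by the bounds
for `pds (k :: l)`, mean value theorem `Convex.norm_image_sub_le_of_norm_fderiv_le`), limit
functions `G (i, l)`; `g i = G (i, [])`. The derivatives `fderiv (pds l (f n i)) =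
∑_k pds (k :: l) (f n i) • (k-th coordinate)` converge locally uniformly, so
`hasFDerivAt_of_tendstoLocallyUniformlyOn` shows that `G (i, l)` is differentiable on `U` with
`pd k (G (i, l)) = G (i, k :: l)`. By induction on `m` all `G (i, l)` are `C^m` on `U`
(`contDiffOn_succ_iff_fderiv_of_isOpen`), and `pds l (g i) = G (i, l)` on `U`. -/
def St_Aab : Prop := ∀ (ι : Type) [Fintype ι] (U : Set E3) (f : ℕ → ι → E3 → ℝ), IsOpen U →
  (∀ x ∈ U, ∃ r > 0, ∃ n₀ : ℕ, ∀ i, (∀ n ≥ n₀, Sm x r (f n i)) ∧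
    ∀ l, ∃ C : ℝ, ∀ n ≥ n₀, ∀ y ∈ ball x r, |pds l (f n i) y| ≤ C) →
  ∃ (φ : ℕ → ℕ) (g : ι → E3 → ℝ), StrictMono φ ∧ (∀ i, ContDiffOn ℝ ∞ (g i) U) ∧
    ∀ i l, TendstoLocallyUniformlyOn (fun n => pds l (f (φ n) i)) (pds l (g i)) Filter.atTop U

/-- AAV. The version for maps to `V9`, with `iteratedFDeriv`.

Proof. AAB with the components, CNV; `v x = (g i x)_i`; `iteratedFDeriv` of the difference
`u (φ n) - v` near a point of `U` (`iteratedFDeriv_sub` or the version for `ContDiffAt`) and CNV (2), (3);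
locally uniform convergence on an open set is uniform convergence on the compact subsets
(`tendstoLocallyUniformlyOn_iff_forall_isCompact`). -/
def St_Aav : Prop := ∀ (U : Set E3) (u : ℕ → E3 → V9), IsOpen U →
  (∀ x ∈ U, ∃ r > 0, ∃ n₀ : ℕ, (∀ n ≥ n₀, ContDiffOn ℝ ∞ (u n) (ball x r)) ∧
    ∀ k : ℕ, ∃ C : ℝ, ∀ n ≥ n₀, ∀ y ∈ ball x r, ‖iteratedFDeriv ℝ k (u n) y‖ ≤ C) →
  ∃ (φ : ℕ → ℕ) (v : E3 → V9), StrictMono φ ∧ ContDiffOn ℝ ∞ v U ∧
    ∀ k : ℕ, ∀ K ⊆ U, IsCompact K →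
      TendstoUniformlyOn (fun n => iteratedFDeriv ℝ k (u (φ n))) (iteratedFDeriv ℝ k v)
        Filter.atTop K

end Pool.Agent.FUE.Rg
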