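import Mathlib
import Pool.Agent.FUE.RgSt

/-!
# FUE, regularity: BQ2, the lower bound for `Lap P2`
-/

set_option autoImplicit false

open scoped ContDiff
open Metric

namespace Pool.Agent.FUE.Rg

theorem bq2_p {σ : Type} [Fintype σ] (w : σ → E3 → ℝ) (x : E3) (k : Fin 3) (s : σ) :
    |pd k (w s) x| ≤ Real.sqrt (P2 w x) := by
  apply Real.abs_le_sqrt
  exact Finset.single_le_sum (f := fun q : Fin 3 × σ => pd q.1 (w q.2) x ^ 2)
    (fun i _ => sq_nonneg _) (Finset.mem_univ (k, s))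

theorem bq2_h {σ : Type} [Fintype σ] (w : σ → E3 → ℝ) (x : E3) (i k : Fin 3) (s : σ) :
    |pd i (pd k (w s)) x| ≤ Real.sqrt (H2 w x) := by
  apply Real.abs_le_sqrt
  have h1 : pd i (pd k (w s)) x ^ 2 ≤ ∑ q : Fin 3 × σ, pd i (pd q.1 (w q.2)) x ^ 2 :=
    Finset.single_le_sum (f := fun q : Fin 3 × σ => pd i (pd q.1 (w q.2)) x ^ 2)
      (fun i _ => sq_nonneg _) (Finset.mem_univ (k, s))
  have h2 : ∑ q : Fin 3 × σ, pd i (pd q.1 (w q.2)) x ^ 2 ≤ H2 w x :=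
    Finset.single_le_sum (f := fun i => ∑ q : Fin 3 × σ, pd i (pd q.1 (w q.2)) x ^ 2)
      (fun i _ => Finset.sum_nonneg fun q _ => sq_nonneg _) (Finset.mem_univ i)
  exact h1.trans h2

theorem bq2_p0 {σ : Type} [Fintype σ] (w : σ → E3 → ℝ) (x : E3) : 0 ≤ P2 w x :=
  Finset.sum_nonneg fun q _ => sq_nonneg _

theorem bq2_g {σ : Type} [Fintype σ] (w : σ → E3 → ℝ) (x : E3) :
    G1 w x ≤ 3 * (Fintype.card σ : ℝ) * Real.sqrt (P2 w x) := by
  have h : G1 w x ≤ ∑ _k : Fin 3, ∑ _s : σ, Real.sqrt (P2 w x) :=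
    Finset.sum_le_sum fun k _ => Finset.sum_le_sum fun s _ => bq2_p w x k s
  refine h.trans (le_of_eq ?_)
  simp only [Finset.sum_const, Finset.card_univ, Fintype.card_fin, nsmul_eq_mul]
  push_cast
  ring

/-- the bound for `pd k (Lap w_s)` -/
theorem bq2_dl (h1 : St_Cal) {σ : Type} [Fintype σ] {lam Λ R : ℝ} {p : E3}
    {e : Fin 3 → Fin 3 → E3 → ℝ} {w : σ → E3 → ℝ} {A : σ → Fin 3 → σ → E3 → ℝ}
    {B : σ → E3 → ℝ} (hΛ : 0 ≤ Λ) (hb : Brn lam Λ R p e w A B) (x : E3) (hx : x ∈ ball p R)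
    (k : Fin 3) (s : σ) (hL : Sm p R (Lap e (w s))) :
    |pd k (Lap e (w s)) x| ≤
      3 * (Fintype.card σ : ℝ) * (Λ * (1 + 3 * (Fintype.card σ : ℝ) * Real.sqrt (P2 w x)) *
        Real.sqrt (P2 w x) + Λ * Real.sqrt (H2 w x)) +
      Λ * (1 + 3 * (Fintype.card σ : ℝ) * Real.sqrt (P2 w x)) := by
  classical
  obtain ⟨_, c2, c3, _, c5, _, c7⟩ := h1 p R
  have hag := (c7 (Lap e (w s)) (fun x => ∑ k, ∑ t, A s k t x * pd k (w t) x + B s x)
    (fun y hy => hb.eq y hy s)).2 x hx k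
  rw [hag]
  have sA : ∀ k' t, Sm p R (fun x => A s k' t x * pd k' (w t) x) := fun k' t =>
    (c3 _ _ (hb.sA s k' t) (c2 k' _ (hb.sw t))).2.1
  have sA1 : ∀ k', Sm p R (fun x => ∑ t, A s k' t x * pd k' (w t) x) := fun k' =>
    (c5 σ Finset.univ (fun t x => A s k' t x * pd k' (w t) x) (fun t _ => sA k' t)).1
  have sA2 : Sm p R (fun x => ∑ k', ∑ t, A s k' t x * pd k' (w t) x) :=
    (c5 (Fin 3) Finset.univ (fun k' x => ∑ t, A s k' t x * pd k' (w t) x) (fun k' _ => sA1 k')).1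
  have e1 := ((c3 _ _ sA2 (hb.sB s)).2.2 x hx k).1
  rw [e1]
  have e2 := (c5 (Fin 3) Finset.univ (fun k' x => ∑ t, A s k' t x * pd k' (w t) x)
    (fun k' _ => sA1 k')).2 x hx k
  rw [e2]
  have e3 : ∀ k', pd k (fun x => ∑ t, A s k' t x * pd k' (w t) x) x =
      ∑ t, (pd k (A s k' t) x * pd k' (w t) x + A s k' t x * pd k (pd k' (w t)) x) := by
    intro k'
    rw [(c5 σ Finset.univ (fun t x => A s k' t x * pd k' (w t) x) (fun t _ => sA k' t)).2 x hx k]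
    exact Finset.sum_congr rfl fun t _ =>
      ((c3 _ _ (hb.sA s k' t) (c2 k' _ (hb.sw t))).2.2 x hx k).2
  have hG := bq2_g w x
  set m : ℝ := (Fintype.card σ : ℝ) with hm
  set a := Real.sqrt (P2 w x) with ha
  set b := Real.sqrt (H2 w x) with hbb
  have ha0 : 0 ≤ a := Real.sqrt_nonneg _
  have hb0 : 0 ≤ b := Real.sqrt_nonneg _
  have hm0 : 0 ≤ m := Nat.cast_nonneg _
  have hD : Λ * (1 + G1 w x) ≤ Λ * (1 + 3 * m * a) :=
    mul_le_mul_of_nonneg_left (by linarith) hΛ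
  have ht : ∀ k' t, |pd k (A s k' t) x * pd k' (w t) x + A s k' t x * pd k (pd k' (w t)) x| ≤
      Λ * (1 + 3 * m * a) * a + Λ * b := by
    intro k' t
    refine (abs_add_le _ _).trans (add_le_add ?_ ?_)
    · rw [abs_mul]
      exact mul_le_mul ((hb.dA x hx k s k' t).trans hD) (bq2_p w x k' t) (abs_nonneg _)
        (by positivity)
    · rw [abs_mul]
      exact mul_le_mul (hb.bA x hx s k' t) (bq2_h w x k k' t) (abs_nonneg _) hΛ
  refine (abs_add_le _ _).trans (add_le_add ?_ ((hb.dB x hx k s).trans hD))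
  calc |∑ k', pd k (fun x => ∑ t, A s k' t x * pd k' (w t) x) x|
      ≤ ∑ k', |pd k (fun x => ∑ t, A s k' t x * pd k' (w t) x) x| :=
        Finset.abs_sum_le_sum_abs _ _
    _ ≤ ∑ _k' : Fin 3, m * (Λ * (1 + 3 * m * a) * a + Λ * b) := by
        refine Finset.sum_le_sum fun k' _ => ?_
        rw [e3 k']
        refine (Finset.abs_sum_le_sum_abs _ _).trans ?_
        refine (Finset.sum_le_sum fun t _ => ht k' t).trans (le_of_eq ?_)
        simp only [Finset.sum_const, Finset.card_univ, nsmul_eq_mul]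
        rfl
    _ = 3 * m * (Λ * (1 + 3 * m * a) * a + Λ * b) := by
        simp only [Finset.sum_const, Finset.card_univ, Fintype.card_fin, nsmul_eq_mul]
        push_cast
        ring

/-- the bound for `Lap (pd k w_s)` -/
theorem bq2_ld (h1 : St_Cal) (h2 : St_Lpc) {σ : Type} [Fintype σ] {lam Λ R : ℝ} {p : E3}
    {e : Fin 3 → Fin 3 → E3 → ℝ} {w : σ → E3 → ℝ} {A : σ → Fin 3 → σ → E3 → ℝ}
    {B : σ → E3 → ℝ} (hΛ : 0 ≤ Λ) (hb : Brn lam Λ R p e w A B) (x : E3) (hx : x ∈ ball p R)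
    (k : Fin 3) (s : σ) :
    |Lap e (pd k (w s)) x| ≤
      (54 * Λ ^ 2 + 9 * (Fintype.card σ : ℝ) * Λ + 9 * (Fintype.card σ : ℝ) ^ 2 * Λ + Λ) *
        (Real.sqrt (H2 w x) + P2 w x + 1) := by
  obtain ⟨l1, _, _, l4, _, _⟩ := h2 p R e hb.se
  have hd := bq2_dl h1 hΛ hb x hx k s (l1 _ (hb.sw s))
  have h4 := l4 (w s) (hb.sw s) x hx k
  have hsq : P2 w x = Real.sqrt (P2 w x) ^ 2 := (Real.sq_sqrt (bq2_p0 w x)).symm
  have hS : |∑ a, ∑ i, ∑ j, (pd k (e a i) x * e a j x + e a i x * pd k (e a j) x) *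
      pd i (pd j (w s)) x| ≤ 54 * Λ ^ 2 * Real.sqrt (H2 w x) := by
    have ht : ∀ a i j, |(pd k (e a i) x * e a j x + e a i x * pd k (e a j) x) *
        pd i (pd j (w s)) x| ≤ 2 * Λ ^ 2 * Real.sqrt (H2 w x) := by
      intro a i j
      rw [abs_mul]
      refine mul_le_mul ?_ (bq2_h w x i j s) (abs_nonneg _) (by positivity)
      refine (abs_add_le _ _).trans ?_
      rw [abs_mul, abs_mul]
      have u1 : |pd k (e a i) x| * |e a j x| ≤ Λ * Λ :=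
        mul_le_mul (hb.de x hx k a i) (hb.be x hx a j) (abs_nonneg _) hΛ
      have u2 : |e a i x| * |pd k (e a j) x| ≤ Λ * Λ :=
        mul_le_mul (hb.be x hx a i) (hb.de x hx k a j) (abs_nonneg _) hΛ
      nlinarith
    calc |∑ a, ∑ i, ∑ j, (pd k (e a i) x * e a j x + e a i x * pd k (e a j) x) *
          pd i (pd j (w s)) x|
        ≤ ∑ _a : Fin 3, ∑ _i : Fin 3, ∑ _j : Fin 3, 2 * Λ ^ 2 * Real.sqrt (H2 w x) := by
          refine (Finset.abs_sum_le_sum_abs _ _).trans (Finset.sum_le_sum fun a _ => ?_)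
          refine (Finset.abs_sum_le_sum_abs _ _).trans (Finset.sum_le_sum fun i _ => ?_)
          exact (Finset.abs_sum_le_sum_abs _ _).trans (Finset.sum_le_sum fun j _ => ht a i j)
      _ = 54 * Λ ^ 2 * Real.sqrt (H2 w x) := by
          simp only [Finset.sum_const, Finset.card_univ, Fintype.card_fin, nsmul_eq_mul]
          push_cast
          ring
  have heq : Lap e (pd k (w s)) x = pd k (Lap e (w s)) x -
      ∑ a, ∑ i, ∑ j, (pd k (e a i) x * e a j x + e a i x * pd k (e a j) x) *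
      pd i (pd j (w s)) x := by
    rw [h4]; ring
  rw [heq]
  refine (abs_sub _ _).trans ((add_le_add hd hS).trans ?_)
  rw [hsq]
  have ha0 : 0 ≤ Real.sqrt (P2 w x) := Real.sqrt_nonneg _
  have hb0 : 0 ≤ Real.sqrt (H2 w x) := Real.sqrt_nonneg _
  have hss : Real.sqrt (Real.sqrt (P2 w x) ^ 2) = Real.sqrt (P2 w x) := Real.sqrt_sq ha0
  rw [hss]
  set m : ℝ := (Fintype.card σ : ℝ) with hm
  set a := Real.sqrt (P2 w x) with ha
  set b := Real.sqrt (H2 w x) with hbb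
  have hm0 : 0 ≤ m := Nat.cast_nonneg _
  have haa : 2 * a ≤ a ^ 2 + 1 := by nlinarith [sq_nonneg (a - 1)]
  have v1 : 0 ≤ m * Λ := mul_nonneg hm0 hΛ
  have v2 : 0 ≤ m ^ 2 * Λ := mul_nonneg (sq_nonneg _) hΛ
  have v3 : m * Λ * (2 * a) ≤ m * Λ * (a ^ 2 + 1) := mul_le_mul_of_nonneg_left haa v1
  have v4 : 0 ≤ m * Λ * a ^ 2 := mul_nonneg v1 (sq_nonneg _)
  have v5 : 0 ≤ m ^ 2 * Λ * a ^ 2 := mul_nonneg v2 (sq_nonneg _)
  have v6 : 0 ≤ m * Λ * b := mul_nonneg v1 hb0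
  have v7 : 0 ≤ m ^ 2 * Λ * b := mul_nonneg v2 hb0
  have v8 : 0 ≤ Λ * b := mul_nonneg hΛ hb0
  have v9 : 0 ≤ Λ * a ^ 2 := mul_nonneg hΛ (sq_nonneg _)
  have v10 : 0 ≤ Λ ^ 2 * a ^ 2 := by positivity
  have v11 : 0 ≤ Λ ^ 2 := by positivity
  nlinarith

theorem thm_Bq2 (h1 : St_Cal) (h2 : St_Lpc) : St_Bq2 := by
  intro σ _ lam Λ hlam hΛ
  refine ⟨6 * (Fintype.card σ : ℝ) * (54 * Λ ^ 2 + 9 * (Fintype.card σ : ℝ) * Λ +
    9 * (Fintype.card σ : ℝ) ^ 2 * Λ + Λ), by positivity, ?_⟩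
  intro R p e w A B hb x hx
  obtain ⟨_, c2, _, _, _, _, _⟩ := h1 p R
  obtain ⟨_, _, _, _, _, l6⟩ := h2 p R e hb.se
  have hL : Lap e (P2 w) x = ∑ q : Fin 3 × σ, (2 * (pd q.1 (w q.2) x *
      Lap e (pd q.1 (w q.2)) x) + 2 * Gam e (pd q.1 (w q.2)) (pd q.1 (w q.2)) x) :=
    (l6 (Fin 3 × σ) Finset.univ (fun q => pd q.1 (w q.2))
      (fun q _ => c2 q.1 _ (hb.sw q.2)) x hx).2
  set K : ℝ := 54 * Λ ^ 2 + 9 * (Fintype.card σ : ℝ) * Λ +
    9 * (Fintype.card σ : ℝ) ^ 2 * Λ + Λ with hK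
  have hK0 : 0 ≤ K := by positivity
  have hH0 : 0 ≤ Real.sqrt (H2 w x) := Real.sqrt_nonneg _
  have ha0 : 0 ≤ Real.sqrt (P2 w x) := Real.sqrt_nonneg _
  have hP0 := bq2_p0 w x
  have hg : ∀ q : Fin 3 × σ, lam * ∑ i, pd i (pd q.1 (w q.2)) x ^ 2 ≤
      Gam e (pd q.1 (w q.2)) (pd q.1 (w q.2)) x := by
    intro q
    refine (hb.el x hx (fun i => pd i (pd q.1 (w q.2)) x)).trans (le_of_eq ?_)
    unfold Gam De
    exact Finset.sum_congr rfl fun a _ => by rw [sq]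
  have hl : ∀ q : Fin 3 × σ, -(Real.sqrt (P2 w x) * (K * (Real.sqrt (H2 w x) + P2 w x + 1))) ≤
      pd q.1 (w q.2) x * Lap e (pd q.1 (w q.2)) x := by
    intro q
    have h := bq2_ld h1 h2 hΛ hb x hx q.1 q.2
    have h3 : |pd q.1 (w q.2) x * Lap e (pd q.1 (w q.2)) x| ≤
        Real.sqrt (P2 w x) * (K * (Real.sqrt (H2 w x) + P2 w x + 1)) := by
      rw [abs_mul]
      exact mul_le_mul (bq2_p w x q.1 q.2) h (abs_nonneg _) ha0
    exact (abs_le.mp h3).1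
  have hsum : ∑ q : Fin 3 × σ, (2 * (-(Real.sqrt (P2 w x) * (K * (Real.sqrt (H2 w x) +
      P2 w x + 1)))) + 2 * (lam * ∑ i, pd i (pd q.1 (w q.2)) x ^ 2)) ≤ Lap e (P2 w) x := by
    rw [hL]
    exact Finset.sum_le_sum fun q _ => add_le_add
      (mul_le_mul_of_nonneg_left (hl q) (by norm_num))
      (mul_le_mul_of_nonneg_left (hg q) (by norm_num))
  refine le_trans (le_of_eq ?_) hsum
  rw [Finset.sum_add_distrib, Finset.sum_const, ← Finset.mul_sum, ← Finset.mul_sum,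
    Finset.sum_comm]
  simp only [Finset.card_univ, Fintype.card_prod, Fintype.card_fin, nsmul_eq_mul]
  unfold H2
  push_cast
  ring

end Pool.Agent.FUE.Rg
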