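import Pool.Agent.FUE.RgSt

/-!
# FUE, regularity: BQ3, the mixed term
-/

set_option autoImplicit false

open scoped ContDiff
open Metric

namespace Pool.Agent.FUE.Rg

theorem bq3_pd_sq (h1 : St_Cal) {τ : Type} [Fintype τ] (p : E3) (R : ℝ) (g : τ → E3 → ℝ)
    (hg : ∀ t, Sm p R (g t)) (x : E3) (hx : x ∈ ball p R) (k : Fin 3) :
    pd k (fun x => ∑ t, g t x ^ 2) x = ∑ t, 2 * g t x * pd k (g t) x := by
  obtain ⟨-, -, c3, -, c5, -, -⟩ := h1 p R
  have h2 : (fun x => ∑ t, g t x ^ 2) =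
      fun x => ∑ t ∈ Finset.univ, (fun t x => g t x * g t x) t x := by
    funext y
    exact Finset.sum_congr rfl fun t _ => pow_two _
  rw [h2, (c5 τ Finset.univ (fun t x => g t x * g t x)
    (fun t _ => (c3 _ _ (hg t) (hg t)).2.1)).2 x hx k]
  refine Finset.sum_congr rfl fun t _ => ?_
  rw [((c3 _ _ (hg t) (hg t)).2.2 x hx k).2]
  ring

theorem bq3_pd_le (h1 : St_Cal) {τ : Type} [Fintype τ] (p : E3) (R : ℝ) (g : τ → E3 → ℝ)
    (hg : ∀ t, Sm p R (g t)) (x : E3) (hx : x ∈ ball p R) (k : Fin 3) (G D : ℝ) (hG0 : 0 ≤ G)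
    (hG : ∀ t, |g t x| ≤ G) (hD : ∀ t, |pd k (g t) x| ≤ D) :
    |pd k (fun x => ∑ t, g t x ^ 2) x| ≤ Fintype.card τ * (2 * G * D) := by
  rw [bq3_pd_sq h1 p R g hg x hx k]
  refine (Finset.abs_sum_le_sum_abs _ _).trans ?_
  have h3 : ∀ t ∈ (Finset.univ : Finset τ), |2 * g t x * pd k (g t) x| ≤ 2 * G * D := by
    intro t _
    rw [abs_mul, abs_mul, abs_two]
    exact mul_le_mul (mul_le_mul_of_nonneg_left (hG t) (by norm_num)) (hD t) (abs_nonneg _)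
      (by positivity)
  refine (Finset.sum_le_sum h3).trans ?_
  rw [Finset.sum_const, nsmul_eq_mul, Finset.card_univ]

theorem bq3_De_le (e : Fin 3 → Fin 3 → E3 → ℝ) (a : Fin 3) (f : E3 → ℝ) (x : E3) (L D : ℝ)
    (hL : ∀ i, |e a i x| ≤ L) (hD : ∀ i, |pd i f x| ≤ D) (hL0 : 0 ≤ L) :
    |De e a f x| ≤ 3 * (L * D) := by
  unfold De
  refine (Finset.abs_sum_le_sum_abs _ _).trans ?_
  have h3 : ∀ i ∈ (Finset.univ : Finset (Fin 3)), |e a i x * pd i f x| ≤ L * D := by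
    intro i _
    rw [abs_mul]
    exact mul_le_mul (hL i) (hD i) (abs_nonneg _) hL0
  refine (Finset.sum_le_sum h3).trans ?_
  rw [Finset.sum_const, nsmul_eq_mul, Finset.card_univ, Fintype.card_fin]
  norm_num

theorem thm_Bq3 (h1 : St_Cal) : St_Bq3 := by
  intro σ _ lam Λ hlam hΛ
  refine ⟨3 * (3 * (Λ * (Fintype.card (Fin 3 × σ) * 2)) *
    (3 * (Λ * (Fintype.card σ * (2 * Λ))))), by positivity, ?_⟩
  intro R p e w A B hB x hx
  have hP0 : 0 ≤ P2 w x := Finset.sum_nonneg fun q _ => sq_nonneg _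
  set a : ℝ := Real.sqrt (P2 w x) with ha
  set b : ℝ := Real.sqrt (H2 w x) with hb
  have ha0 : 0 ≤ a := Real.sqrt_nonneg _
  have hb0 : 0 ≤ b := Real.sqrt_nonneg _
  have haa : a * a = P2 w x := Real.mul_self_sqrt hP0
  have hsq : ∀ (r s : ℝ), r ^ 2 ≤ s → |r| ≤ Real.sqrt s := fun r s h => Real.abs_le_sqrt h
  have hd1 : ∀ q : Fin 3 × σ, |pd q.1 (w q.2) x| ≤ a := fun q =>
    hsq _ _ (Finset.single_le_sum (f := fun q : Fin 3 × σ => pd q.1 (w q.2) x ^ 2)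
      (fun _ _ => sq_nonneg _) (Finset.mem_univ q))
  have hd2 : ∀ (i : Fin 3) (q : Fin 3 × σ), |pd i (pd q.1 (w q.2)) x| ≤ b := by
    intro i q
    refine hsq _ _ ?_
    refine le_trans (Finset.single_le_sum
      (f := fun q : Fin 3 × σ => pd i (pd q.1 (w q.2)) x ^ 2)
      (fun _ _ => sq_nonneg _) (Finset.mem_univ q)) ?_
    exact Finset.single_le_sum
      (f := fun i : Fin 3 => ∑ q : Fin 3 × σ, pd i (pd q.1 (w q.2)) x ^ 2)
      (fun _ _ => Finset.sum_nonneg fun _ _ => sq_nonneg _) (Finset.mem_univ i)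
  have hsm : ∀ q : Fin 3 × σ, Sm p R (pd q.1 (w q.2)) := fun q =>
    (h1 p R).2.1 q.1 _ (hB.sw q.2)
  have hP : ∀ k, |pd k (P2 w) x| ≤ Fintype.card (Fin 3 × σ) * (2 * a * b) := fun k =>
    bq3_pd_le h1 p R (fun (q : Fin 3 × σ) => pd q.1 (w q.2)) hsm x hx k a b ha0 hd1 (hd2 k)
  have hQ : ∀ k, |pd k (Q2 w) x| ≤ Fintype.card σ * (2 * Λ * a) := fun k =>
    bq3_pd_le h1 p R w hB.sw x hx k Λ a hΛ (hB.bw x hx) (fun s => hd1 (k, s))
  unfold Gam
  refine (Finset.abs_sum_le_sum_abs _ _).trans ?_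
  have h3 : ∀ j ∈ (Finset.univ : Finset (Fin 3)), |De e j (P2 w) x * De e j (Q2 w) x| ≤
      (3 * (Λ * (Fintype.card (Fin 3 × σ) * (2 * a * b)))) *
        (3 * (Λ * (Fintype.card σ * (2 * Λ * a)))) := by
    intro j _
    rw [abs_mul]
    exact mul_le_mul (bq3_De_le e j _ x Λ _ (hB.be x hx j) hP hΛ)
      (bq3_De_le e j _ x Λ _ (hB.be x hx j) hQ hΛ) (abs_nonneg _) (by positivity)
  refine (Finset.sum_le_sum h3).trans ?_
  rw [Finset.sum_const, nsmul_eq_mul, Finset.card_univ, Fintype.card_fin, ← haa]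
  refine le_of_eq ?_
  push_cast
  ring

end Pool.Agent.FUE.Rg
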