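import Pool.Agent.FUE.RgSt

/-!
# FUE REG BQB: the differential inequality (helper41)
-/

set_option autoImplicit false

open scoped ContDiff
open Metric

namespace Pool.Agent.FUE.Rg

theorem bqb_smP {σ : Type} [Fintype σ] (h1 : St_Cal) (p : E3) (R : ℝ) (w : σ → E3 → ℝ)
    (hw : ∀ s, Sm p R (w s)) : Sm p R (P2 w) := by
  unfold Sm P2
  refine ContDiffOn.sum fun q _ => ?_
  exact ((h1 p R).2.1 q.1 (w q.2) (hw q.2)).pow 2

theorem bqb_smQ {σ : Type} [Fintype σ] (p : E3) (R : ℝ) (w : σ → E3 → ℝ)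
    (hw : ∀ s, Sm p R (w s)) : Sm p R (Q2 w) := by
  unfold Sm Q2
  refine ContDiffOn.sum fun q _ => ?_
  exact (hw q).pow 2

theorem bqb_P0 {σ : Type} [Fintype σ] (w : σ → E3 → ℝ) (x : E3) : 0 ≤ P2 w x :=
  Finset.sum_nonneg fun _ _ => sq_nonneg _

theorem bqb_Q0 {σ : Type} [Fintype σ] (w : σ → E3 → ℝ) (x : E3) : 0 ≤ Q2 w x :=
  Finset.sum_nonneg fun _ _ => sq_nonneg _

theorem bqb_Q1 {σ : Type} [Fintype σ] (Λ : ℝ) (w : σ → E3 → ℝ) (x : E3)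
    (hw : ∀ s, |w s x| ≤ Λ) : Q2 w x ≤ Fintype.card σ * Λ ^ 2 := by
  unfold Q2
  refine le_trans (Finset.sum_le_card_nsmul _ _ (Λ ^ 2) ?_) ?_
  · intro s _
    exact sq_le_sq' (by linarith [neg_abs_le (w s x), hw s]) (le_trans (le_abs_self _) (hw s))
  · rw [nsmul_eq_mul, Finset.card_univ]

theorem thm_Bqb (h1 : St_Cal) (h2 : St_Lpc) (h3 : St_Bq1) (h4 : St_Bq2) (h5 : St_Bq3)
    (h6 : St_Rin) : St_Bqb := by
  intro σ _ lam Λ hl hΛ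
  obtain ⟨C₁, hC₁, H1⟩ := h3 σ lam Λ hl hΛ
  obtain ⟨C₂, hC₂, H2'⟩ := h4 σ lam Λ hl hΛ
  obtain ⟨C₃, hC₃, H3⟩ := h5 σ lam Λ hl hΛ
  obtain ⟨κ, C, hκ, hC, H⟩ := h6 lam C₁ C₂ C₃ (Fintype.card σ * Λ ^ 2) hl hC₁ hC₂ hC₃
    (by positivity)
  refine ⟨κ, C, hκ, hC, ?_⟩
  intro R p e w A B hB x hx
  have sP := bqb_smP h1 p R w hB.sw
  have sQ := bqb_smQ p R w hB.sw
  have sκ : Sm p R fun _ => κ := (h1 p R).1 κ
  have sKQ : Sm p R fun x => κ + Q2 w x := ((h1 p R).2.2.1 (fun _ => κ) (Q2 w) sκ sQ).1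
  have hP := bqb_P0 w x
  have hQ := bqb_Q0 w x
  have hQ' := bqb_Q1 Λ w x (hB.bw x hx)
  have ha : Real.sqrt (P2 w x) ^ 2 = P2 w x := Real.sq_sqrt hP
  have hb : Real.sqrt (H2 w x) ^ 2 = H2 w x := Real.sq_sqrt
    (Finset.sum_nonneg fun _ _ => Finset.sum_nonneg fun _ _ => sq_nonneg _)
  have e1 : Lap e (fun y => κ + Q2 w y) x = Lap e (Q2 w) x := by
    rw [(h2 p R e hB.se).2.1 (fun _ => κ) (Q2 w) sκ sQ x hx, (h2 p R e hB.se).2.2.2.2.1 κ x,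
      zero_add]
  have e2 : Gam e (P2 w) (fun y => κ + Q2 w y) x = Gam e (P2 w) (Q2 w) x := by
    unfold Gam
    refine Finset.sum_congr rfl fun a _ => ?_
    congr 1
    unfold De
    refine Finset.sum_congr rfl fun i _ => ?_
    rw [(((h1 p R).2.2.1 (fun _ => κ) (Q2 w) sκ sQ).2.2 x hx i).1, (h1 p R).2.2.2.1 κ i x,
      zero_add]
  have e3 : Lap e (fun y => P2 w y * (κ + Q2 w y)) x =
      (κ + Q2 w x) * Lap e (P2 w) x + P2 w x * Lap e (Q2 w) x +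
        2 * Gam e (P2 w) (Q2 w) x := by
    rw [(h2 p R e hB.se).2.2.1 (P2 w) (fun y => κ + Q2 w y) sP sKQ x hx, e1, e2]
    ring
  have g1 := H1 R p e w A B hB x hx
  have g2 := H2' R p e w A B hB x hx
  have g3 := H3 R p e w A B hB x hx
  have g4 := H (Real.sqrt (P2 w x)) (Real.sqrt (H2 w x)) (Q2 w x) (Lap e (P2 w) x)
    (Lap e (Q2 w) x) (Gam e (P2 w) (Q2 w) x) (Real.sqrt_nonneg _) (Real.sqrt_nonneg _) hQ hQ'
    (by rw [ha]; exact g1) (by rw [ha, hb]; exact g2) (by rw [ha]; exact g3)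
  have h4' : Real.sqrt (P2 w x) ^ 4 = P2 w x ^ 2 := by
    rw [← ha, ← pow_mul, Real.sqrt_sq (Real.sqrt_nonneg _)]
  rw [h4', ha] at g4
  rw [e3]
  exact g4

end Pool.Agent.FUE.Rg
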