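import Pool.Agent.FUE.RgSt

/-!
# FUE, regularity, module CAL: calculus of the derivatives `pd`
-/

set_option autoImplicit false

open scoped ContDiff
open Metric

namespace Pool.Agent.FUE.Rg

theorem cal_at {p : E3} {R : ℝ} {f : E3 → ℝ} (hf : Sm p R f) {x : E3} (hx : x ∈ ball p R) :
    ContDiffAt ℝ ∞ f x :=
  hf.contDiffAt (isOpen_ball.mem_nhds hx)

theorem cal_diff {p : E3} {R : ℝ} {f : E3 → ℝ} (hf : Sm p R f) {x : E3} (hx : x ∈ ball p R) :
    DifferentiableAt ℝ f x :=
  (cal_at hf hx).differentiableAt (by simp)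

theorem cal_fd {p : E3} {R : ℝ} {f : E3 → ℝ} (hf : Sm p R f) :
    ContDiffOn ℝ ∞ (fderiv ℝ f) (ball p R) :=
  ContDiffOn.fderiv_of_isOpen hf isOpen_ball (by simp)

theorem cal_pd {p : E3} {R : ℝ} (k : Fin 3) {f : E3 → ℝ} (hf : Sm p R f) : Sm p R (pd k f) :=
  (cal_fd hf).clm_apply contDiffOn_const

theorem cal_pdpd {p : E3} {R : ℝ} {f : E3 → ℝ} (hf : Sm p R f) {x : E3} (hx : x ∈ ball p R)
    (i j : Fin 3) : pd i (pd j f) x =
      fderiv ℝ (fderiv ℝ f) x (EuclideanSpace.single i 1) (EuclideanSpace.single j 1) := by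
  have h1 : DifferentiableAt ℝ (fderiv ℝ f) x :=
    ((cal_fd hf).contDiffAt (isOpen_ball.mem_nhds hx)).differentiableAt (by simp)
  show fderiv ℝ (fun y => fderiv ℝ f y (EuclideanSpace.single j 1)) x
    (EuclideanSpace.single i 1) = _
  rw [fderiv_clm_apply h1 (differentiableAt_const _)]
  simp

theorem thm_Cal : St_Cal := by
  intro p R
  refine ⟨fun c => contDiffOn_const, fun k f hf => cal_pd k hf, ?_, ?_, ?_, ?_, ?_⟩
  · intro f g hf hg
    refine ⟨ContDiffOn.add hf hg, ContDiffOn.mul hf hg, ?_⟩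
    intro x hx k
    have h1 := cal_diff hf hx
    have h2 := cal_diff hg hx
    constructor
    · show fderiv ℝ (fun x => f x + g x) x _ = _
      rw [fderiv_fun_add h1 h2]
      rfl
    · show fderiv ℝ (fun x => f x * g x) x _ = _
      rw [fderiv_fun_mul h1 h2]
      simp only [add_apply, smul_apply, smul_eq_mul]
      show f x * pd k g x + g x * pd k f x = _
      ring
  · intro c k x
    show fderiv ℝ (fun _ => c) x _ = 0
    simp
  · intro τ T f hf
    refine ⟨ContDiffOn.sum fun t ht => hf t ht, ?_⟩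
    intro x hx k
    show fderiv ℝ (fun x => ∑ t ∈ T, f t x) x _ = _
    rw [fderiv_fun_sum fun t ht => cal_diff (hf t ht) hx, sum_apply]
    rfl
  · intro f hf x hx i j
    rw [cal_pdpd hf hx, cal_pdpd hf hx]
    exact (cal_at hf hx).isSymmSndFDerivAt (by
      rw [minSmoothness_of_isRCLikeNormedField]
      exact WithTop.coe_le_coe.2 (le_top : (2 : ℕ∞) ≤ ⊤)) _ _
  · intro f g hfg
    refine ⟨fun hf => ContDiffOn.congr hf fun x hx => (hfg x hx).symm, ?_⟩
    intro x hx k
    have h1 : f =ᶠ[nhds x] g := by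
      filter_upwards [isOpen_ball.mem_nhds hx] with y hy
      exact hfg y hy
    show fderiv ℝ f x _ = fderiv ℝ g x _
    rw [h1.fderiv_eq]

end Pool.Agent.FUE.Rg
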