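import Pool.Agent.FUE.RgSt

/-!
# FUE, regularity: CHN, the chain rule for smooth functions of several scalar functions
-/

set_option autoImplicit false

open scoped ContDiff
open Metric

namespace Pool.Agent.FUE.Rg

theorem chn_lin {σ : Type} [Fintype σ] [DecidableEq σ] (L : (σ → ℝ) →L[ℝ] ℝ) (v : σ → ℝ) :
    L v = ∑ s, L (Pi.single s 1) * v s := by
  conv_lhs => rw [pi_eq_sum_univ v]
  rw [map_sum]
  refine Finset.sum_congr rfl fun s _ => ?_
  rw [map_smul, smul_eq_mul, mul_comm]
  congr 2
  funext j
  rw [Pi.single_apply]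
  by_cases h : s = j
  · subst h; simp
  · rw [if_neg h, if_neg (fun h' => h h'.symm)]

theorem thm_Chn : St_Chn := by
  intro σ _ _ F hF
  refine ⟨fun s => ?_, fun p R f hf => ?_⟩
  · exact (hF.fderiv_right (m := ∞) (by simp)).clm_apply contDiff_const
  · have hpi : ContDiffOn ℝ ∞ (fun x s => f s x) (ball p R) := contDiffOn_pi.2 fun s => hf s
    refine ⟨hF.comp_contDiffOn hpi, fun x hx k => ?_⟩
    have hfd : ∀ s, DifferentiableAt ℝ (f s) x := fun s =>
      ((hf s).contDiffAt (isOpen_ball.mem_nhds hx)).differentiableAt (by simp)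
    have hFd : DifferentiableAt ℝ F (fun s => f s x) :=
      (hF.differentiable (by simp)).differentiableAt
    have h1 : HasFDerivAt (fun x s => f s x)
        (ContinuousLinearMap.pi fun s => fderiv ℝ (f s) x) x :=
      hasFDerivAt_pi.2 fun s => (hfd s).hasFDerivAt
    have h2 : HasFDerivAt (fun x => F fun s => f s x)
        ((fderiv ℝ F fun s => f s x).comp
          (ContinuousLinearMap.pi fun s => fderiv ℝ (f s) x)) x :=
      HasFDerivAt.comp (g := F) x hFd.hasFDerivAt h1
    unfold pd
    rw [h2.fderiv, ContinuousLinearMap.comp_apply, chn_lin]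
    rfl

end Pool.Agent.FUE.Rg
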