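import Pool.Agent.FUE.RgSt

/-!
# FUE, regularity: CNV, iterated partial derivatives and `iteratedFDeriv`
-/

set_option autoImplicit false

open scoped ContDiff
open Metric

namespace Pool.Agent.FUE.Rg

theorem cnv_comp {E F G : Type} [NormedAddCommGroup E] [NormedSpace ℝ E] [NormedAddCommGroup F]
    [NormedSpace ℝ F] [NormedAddCommGroup G] [NormedSpace ℝ G] (L : F →L[ℝ] G) (hL : ‖L‖ ≤ 1)
    (f : E → F) (x : E) (n : ℕ) (hf : ContDiffAt ℝ ∞ f x) :
    ‖iteratedFDeriv ℝ n (fun y => L (f y)) x‖ ≤ ‖iteratedFDeriv ℝ n f x‖ := by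
  have h := L.norm_iteratedFDeriv_comp_left (n := n) hf (by exact_mod_cast le_top)
  calc ‖iteratedFDeriv ℝ n (fun y => L (f y)) x‖ ≤ ‖L‖ * ‖iteratedFDeriv ℝ n f x‖ := h
    _ ≤ 1 * ‖iteratedFDeriv ℝ n f x‖ := mul_le_mul_of_nonneg_right hL (norm_nonneg _)
    _ = _ := one_mul _

theorem cnv_sum {E F : Type} [NormedAddCommGroup E] [NormedSpace ℝ E] [NormedAddCommGroup F]
    [NormedSpace ℝ F] {τ : Type} (T : Finset τ) (f : τ → E → F) (x : E) (n : ℕ)
    (hf : ∀ t ∈ T, ContDiffAt ℝ ∞ (f t) x) :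
    ‖iteratedFDeriv ℝ n (fun y => ∑ t ∈ T, f t y) x‖ ≤ ∑ t ∈ T, ‖iteratedFDeriv ℝ n (f t) x‖ := by
  rw [iteratedFDeriv_fun_sum_apply fun t ht => (hf t ht).of_le (by exact_mod_cast le_top)]
  exact norm_sum_le _ _

theorem cnv_at {p : E3} {R : ℝ} {x : E3} (hx : x ∈ ball p R) {F : Type} [NormedAddCommGroup F]
    [NormedSpace ℝ F] {f : E3 → F} (hf : ContDiffOn ℝ ∞ f (ball p R)) : ContDiffAt ℝ ∞ f x :=
  hf.contDiffAt (isOpen_ball.mem_nhds hx)

theorem cnv_ev (k : Fin 3) : ‖(ContinuousLinearMap.apply ℝ ℝ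
    (EuclideanSpace.single k (1 : ℝ) : E3) : (E3 →L[ℝ] ℝ) →L[ℝ] ℝ)‖ ≤ 1 := by
  refine ContinuousLinearMap.opNorm_le_bound _ zero_le_one fun L => ?_
  rw [one_mul, ContinuousLinearMap.apply_apply]
  refine (L.le_opNorm _).trans ?_
  rw [PiLp.norm_single, norm_one, mul_one]

theorem cnv_pj {ι : Type} [Fintype ι] (k : ι) :
    ‖(EuclideanSpace.proj k : EuclideanSpace ℝ ι →L[ℝ] ℝ)‖ ≤ 1 := by
  refine ContinuousLinearMap.opNorm_le_bound _ zero_le_one fun v => ?_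
  rw [one_mul]
  exact PiLp.norm_apply_le v k

theorem cnv_A (p : E3) (R : ℝ) (g : E3 → ℝ) (hg : Sm p R g) (x : E3) (hx : x ∈ ball p R)
    (n : ℕ) (k : Fin 3) :
    ‖iteratedFDeriv ℝ n (pd k g) x‖ ≤ ‖iteratedFDeriv ℝ (n + 1) g x‖ := by
  rw [← norm_iteratedFDeriv_fderiv]
  exact cnv_comp _ (cnv_ev k) (fderiv ℝ g) x n ((cnv_at hx hg).fderiv_right (by simp))

theorem cnv_fd (g : E3 → ℝ) (y : E3) :
    fderiv ℝ g y = ∑ k, pd k g y • (EuclideanSpace.proj k : E3 →L[ℝ] ℝ) := by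
  ext v
  have hv : v = ∑ k, v k • (EuclideanSpace.single k (1 : ℝ) : E3) := by
    ext j
    simp [Finset.sum_apply, Pi.single_apply]
  conv_lhs => rw [hv]
  rw [map_sum, sum_apply]
  refine Finset.sum_congr rfl fun k _ => ?_
  rw [map_smul, smul_apply, smul_eq_mul, smul_eq_mul, mul_comm]
  rfl

theorem cnv_B (h1 : St_Cal) (p : E3) (R : ℝ) (g : E3 → ℝ) (hg : Sm p R g) (x : E3)
    (hx : x ∈ ball p R) (n : ℕ) :
    ‖iteratedFDeriv ℝ (n + 1) g x‖ ≤ ∑ k, ‖iteratedFDeriv ℝ n (pd k g) x‖ := by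
  rw [← norm_iteratedFDeriv_fderiv]
  have h2 : fderiv ℝ g = fun y => ∑ k ∈ Finset.univ,
      (fun k y => (ContinuousLinearMap.toSpanSingleton ℝ
        (EuclideanSpace.proj k : E3 →L[ℝ] ℝ)) (pd k g y)) k y := by
    funext y
    rw [cnv_fd]
    rfl
  have h3 : ∀ k, ContDiffAt ℝ ∞ (pd k g) x := fun k => cnv_at hx ((h1 p R).2.1 k g hg)
  rw [h2]
  refine (cnv_sum Finset.univ _ x n fun k _ => ?_).trans (Finset.sum_le_sum fun k _ => ?_)
  · exact (ContinuousLinearMap.contDiff _).contDiffAt.comp x (h3 k)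
  · refine cnv_comp _ ?_ (pd k g) x n (h3 k)
    rw [ContinuousLinearMap.norm_toSpanSingleton]
    exact cnv_pj k

theorem cnv_sm (h1 : St_Cal) (p : E3) (R : ℝ) (f : E3 → ℝ) (hf : Sm p R f) :
    ∀ l : List (Fin 3), Sm p R (pds l f)
  | [] => hf
  | k :: l => (h1 p R).2.1 k _ (cnv_sm h1 p R f hf l)

theorem cnv_1 (h1 : St_Cal) (p : E3) (R : ℝ) (f : E3 → ℝ) (hf : Sm p R f) (x : E3)
    (hx : x ∈ ball p R) : ∀ (l : List (Fin 3)) (n : ℕ),
      ‖iteratedFDeriv ℝ n (pds l f) x‖ ≤ ‖iteratedFDeriv ℝ (n + l.length) f x‖ := by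
  intro l
  induction l with
  | nil => intro n; exact le_rfl
  | cons k l ih =>
    intro n
    have h2 := ih (n + 1)
    have h3 := cnv_A p R (pds l f) (cnv_sm h1 p R f hf l) x hx n k
    have h4 : n + (k :: l).length = n + 1 + l.length := by rw [List.length_cons]; ring
    rw [h4]
    exact h3.trans h2

theorem cnv_2 (h1 : St_Cal) (p : E3) (R : ℝ) (f : E3 → ℝ) (hf : Sm p R f) (x : E3)
    (hx : x ∈ ball p R) : ∀ (n j : ℕ), ‖iteratedFDeriv ℝ (j + n) f x‖ ≤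
      ∑ l : Fin n → Fin 3, ‖iteratedFDeriv ℝ j (pds (List.ofFn l) f) x‖ := by
  intro n
  induction n with
  | zero =>
    intro j
    simp [pds]
  | succ n ih =>
    intro j
    have h2 := ih (j + 1)
    have h3 : j + (n + 1) = j + 1 + n := by ring
    rw [h3]
    refine h2.trans ?_
    have h4 : ∀ l ∈ (Finset.univ : Finset (Fin n → Fin 3)),
        ‖iteratedFDeriv ℝ (j + 1) (pds (List.ofFn l) f) x‖ ≤
          ∑ k, ‖iteratedFDeriv ℝ j (pds (k :: List.ofFn l) f) x‖ := fun l _ =>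
      cnv_B h1 p R _ (cnv_sm h1 p R f hf (List.ofFn l)) x hx j
    refine (Finset.sum_le_sum h4).trans (le_of_eq ?_)
    rw [Finset.sum_comm, ← Finset.sum_product' (s := Finset.univ) (t := Finset.univ)
      (f := fun k l => ‖iteratedFDeriv ℝ j (pds (k :: List.ofFn l) f) x‖), Finset.univ_product_univ]
    refine Fintype.sum_equiv (Fin.consEquiv fun _ => Fin 3) _ _ ?_
    intro q
    have h5 : (Fin.consEquiv fun _ : Fin (n + 1) => Fin 3) q = Fin.cons q.1 q.2 := rfl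
    rw [h5, List.ofFn_cons]

theorem cnv_3 (p : E3) (R : ℝ) (u : E3 → V9) (hu : ContDiffOn ℝ ∞ u (ball p R)) :
    (∀ i, Sm p R fun x => u x i) ∧ ∀ x ∈ ball p R, ∀ n : ℕ,
      (∀ i, ‖iteratedFDeriv ℝ n (fun x => u x i) x‖ ≤ ‖iteratedFDeriv ℝ n u x‖) ∧
      ‖iteratedFDeriv ℝ n u x‖ ≤ ∑ i, ‖iteratedFDeriv ℝ n (fun x => u x i) x‖ := by
  have h1 : ∀ i, Sm p R fun x => u x i := fun i =>
    (EuclideanSpace.proj i : V9 →L[ℝ] ℝ).contDiff.comp_contDiffOn hu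
  refine ⟨h1, fun x hx n => ⟨fun i => ?_, ?_⟩⟩
  · exact cnv_comp _ (cnv_pj i) u x n (cnv_at hx hu)
  · have h2 : u = fun y => ∑ i ∈ Finset.univ, (fun i y => (ContinuousLinearMap.toSpanSingleton ℝ
        (EuclideanSpace.single i (1 : ℝ) : V9)) (u y i)) i y := by
      funext y
      ext j
      simp [Finset.sum_apply, Pi.single_apply]
    have h3 : ∀ i, ContDiffAt ℝ ∞ (fun y => u y i) x := fun i => cnv_at hx (h1 i)
    conv_lhs => rw [h2]
    refine (cnv_sum Finset.univ _ x n fun k _ => ?_).trans (Finset.sum_le_sum fun k _ => ?_)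
    · exact (ContinuousLinearMap.contDiff _).contDiffAt.comp x (h3 k)
    · refine cnv_comp _ ?_ (fun y => u y k) x n (h3 k)
      rw [ContinuousLinearMap.norm_toSpanSingleton, PiLp.norm_single, norm_one]

theorem thm_Cnv (h1 : St_Cal) : St_Cnv := by
  intro p R
  refine ⟨fun f hf x hx l => ?_, fun f hf x hx n => ?_, fun u hu => cnv_3 p R u hu⟩
  · have h2 := cnv_1 h1 p R f hf x hx l 0
    rw [norm_iteratedFDeriv_zero, Real.norm_eq_abs, zero_add] at h2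
    exact h2
  · have h2 := cnv_2 h1 p R f hf x hx n 0
    rw [zero_add] at h2
    simp only [norm_iteratedFDeriv_zero, Real.norm_eq_abs] at h2
    exact h2

end Pool.Agent.FUE.Rg
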