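import Pool.Agent.FUE.RgSt

/-!
# FUE, regularity: cut-off and maximum principle (helper60)
-/

set_option autoImplicit false

open scoped ContDiff
open Metric

namespace Pool.Agent.FUE.Rg

/-- the cut-off function -/
noncomputable def cut_z (p : E3) (r : ℝ) : E3 → ℝ := fun x => r ^ 2 - ∑ i, (x i - p i) ^ 2

theorem cut_coord (p : E3) (i : Fin 3) (x : E3) :
    HasFDerivAt (fun y : E3 => y i - p i) (EuclideanSpace.proj i : E3 →L[ℝ] ℝ) x :=
  ((EuclideanSpace.proj i : E3 →L[ℝ] ℝ).hasFDerivAt).sub_const (p i)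

theorem cut_pd_coord (p : E3) (i k : Fin 3) (x : E3) :
    pd k (fun y : E3 => -2 * (y i - p i)) x = if k = i then -2 else 0 := by
  unfold pd
  have h := (cut_coord p i x).const_mul (-2)
  rw [h.fderiv]
  change -2 * (EuclideanSpace.single k (1 : ℝ) : E3) i = _
  rw [PiLp.single_apply]
  by_cases hk : k = i
  · rw [if_pos hk.symm, if_pos hk, mul_one]
  · rw [if_neg (fun h => hk h.symm), if_neg hk, mul_zero]

theorem cut_pd (p : E3) (r : ℝ) (k : Fin 3) :
    pd k (cut_z p r) = fun x => -2 * (x k - p k) := by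
  funext x
  unfold pd cut_z
  have h1 : ∀ i : Fin 3, HasFDerivAt (fun y : E3 => (y i - p i) ^ 2)
      ((2 * (x i - p i)) • (EuclideanSpace.proj i : E3 →L[ℝ] ℝ)) x := by
    intro i
    have h := (cut_coord p i x).pow 2
    simp only [Nat.add_one_sub_one, pow_one, nsmul_eq_mul, Nat.cast_ofNat] at h
    exact h
  have h2 := (HasFDerivAt.fun_sum (u := Finset.univ) fun i _ => h1 i).const_sub (r ^ 2)
  rw [h2.fderiv]
  rw [neg_apply, ContinuousLinearMap.sum_apply]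
  have h3 : ∀ i : Fin 3, ((2 * (x i - p i)) • (EuclideanSpace.proj i : E3 →L[ℝ] ℝ))
      (EuclideanSpace.single k 1) = if i = k then 2 * (x i - p i) else 0 := by
    intro i
    change (2 * (x i - p i)) * (EuclideanSpace.single k (1 : ℝ) : E3) i = _
    rw [PiLp.single_apply]
    split_ifs <;> simp
  rw [Finset.sum_congr rfl fun i _ => h3 i, Finset.sum_ite_eq']
  simp

theorem cut_smooth (p q : E3) (r R : ℝ) : Sm q R (cut_z p r) := by
  unfold Sm
  apply ContDiff.contDiffOn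
  unfold cut_z
  refine contDiff_const.sub (ContDiff.sum fun i _ => ContDiff.pow ?_ 2)
  exact ((EuclideanSpace.proj i : E3 →L[ℝ] ℝ).contDiff).sub contDiff_const

theorem cut_dist (p x : E3) : ∑ i, (x i - p i) ^ 2 = dist x p ^ 2 := by
  rw [EuclideanSpace.dist_eq, Real.sq_sqrt (Finset.sum_nonneg fun i _ => sq_nonneg _)]
  refine Finset.sum_congr rfl fun i _ => ?_
  rw [Real.dist_eq, sq_abs]

/-- the algebra at the maximum point -/
theorem cut_alg (E : Fin 3 → Fin 3 → ℝ) (z f Lz Lf : ℝ) (zk gk : Fin 3 → ℝ) (hz : z ≠ 0)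
    (hmax : ∀ k, (zk k * z + z * zk k) * f + z * z * gk k = 0)
    (hL : (Lz * z + z * Lz + 2 * ∑ a, (∑ i, E a i * zk i) * ∑ i, E a i * zk i) * f +
      z * z * Lf + 2 * ∑ a, (∑ i, E a i * (zk i * z + z * zk i)) * ∑ i, E a i * gk i ≤ 0) :
    z ^ 2 * Lf ≤ f * (6 * (∑ a, (∑ i, E a i * zk i) * ∑ i, E a i * zk i) - 2 * z * Lz) := by
  have h1 : ∀ k, z * gk k = -2 * f * zk k := by
    intro k
    apply mul_left_cancel₀ hz
    linear_combination hmax k
  have h2 : ∀ a, (∑ i, E a i * (zk i * z + z * zk i)) * ∑ i, E a i * gk i =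
      -4 * f * ((∑ i, E a i * zk i) * ∑ i, E a i * zk i) := by
    intro a
    have h3 : ∑ i, E a i * (zk i * z + z * zk i) = 2 * z * ∑ i, E a i * zk i := by
      rw [Finset.mul_sum]
      refine Finset.sum_congr rfl fun i _ => ?_
      ring
    have h4 : z * ∑ i, E a i * gk i = -2 * f * ∑ i, E a i * zk i := by
      rw [Finset.mul_sum, Finset.mul_sum]
      refine Finset.sum_congr rfl fun i _ => ?_
      linear_combination E a i * h1 i
    rw [h3]
    linear_combination 2 * (∑ i, E a i * zk i) * h4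
  rw [Finset.sum_congr rfl fun a _ => h2 a, ← Finset.mul_sum] at hL
  linarith

theorem thm_Cut (h1 : St_Cal) (h2 : St_Lpc) (h3 : St_Mxp) : St_Cut := by
  intro lam Λ κ K C R R' hlam hΛ hκ hK hC hR' hRR
  set R₁ := (R' + R) / 2 with hR₁
  have hr1 : R' < R₁ := by rw [hR₁]; linarith
  have hr2 : R₁ < R := by rw [hR₁]; linarith
  have hr0 : 0 < R₁ := by linarith
  set T := 1 + (C * R₁ ^ 8 + 684 * Λ ^ 2 * R₁ ^ 2 * K) / lam with hT
  have hT0 : 0 ≤ T := by rw [hT]; positivity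
  have hδ : 0 < R₁ ^ 2 - R' ^ 2 := by nlinarith
  refine ⟨K * T / ((R₁ ^ 2 - R' ^ 2) ^ 2 * κ), ?_⟩
  intro p e P φ he hφ hbe hall
  have hsub : ball p R₁ ⊆ ball p R := ball_subset_ball hr2.le
  have he1 : ∀ a i, Sm p R₁ (e a i) := fun a i => (he a i).mono hsub
  have hφ1 : Sm p R₁ φ := hφ.mono hsub
  set ζ := cut_z p R₁ with hζd
  have hζ : Sm p R₁ ζ := cut_smooth p p R₁ R₁
  have hζc : Continuous ζ := by
    rw [← continuousOn_univ]
    have h := (cut_smooth p p R₁ R₁)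
    rw [hζd]
    unfold cut_z
    fun_prop
  have hζv : ∀ x, ζ x = R₁ ^ 2 - dist x p ^ 2 := by
    intro x
    rw [← cut_dist]
    rfl
  have hcont : ContinuousOn (fun x => (ζ x * ζ x) * φ x) (closedBall p R₁) :=
    (hζc.mul hζc).continuousOn.mul (hφ.continuousOn.mono (closedBall_subset_ball hr2))
  obtain ⟨x₀, hx₀, hmax⟩ := (isCompact_closedBall p R₁).exists_isMaxOn
    ⟨p, mem_closedBall_self hr0.le⟩ hcont
  have hmax' : ∀ y ∈ closedBall p R₁, (ζ y * ζ y) * φ y ≤ (ζ x₀ * ζ x₀) * φ x₀ :=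
    fun y hy => hmax hy
  have key : (ζ x₀ * ζ x₀) * φ x₀ ≤ K * T := by
    by_cases hpos : (ζ x₀ * ζ x₀) * φ x₀ ≤ 0
    · exact hpos.trans (mul_nonneg hK hT0)
    rw [not_le] at hpos
    have hz0 : ζ x₀ ≠ 0 := by
      intro h
      rw [h, mul_zero, zero_mul] at hpos
      exact lt_irrefl _ hpos
    have hd : dist x₀ p ≤ R₁ := hx₀
    have hx0 : x₀ ∈ ball p R₁ := by
      rw [mem_ball]
      refine lt_of_le_of_ne hd fun h => hz0 ?_
      rw [hζv, h, sub_self]
    have hzpos : 0 < ζ x₀ := by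
      rw [hζv]
      have h4 : dist x₀ p < R₁ := hx0
      nlinarith [dist_nonneg (x := x₀) (y := p)]
    have hz1 : ζ x₀ ≤ R₁ ^ 2 := by
      rw [hζv]
      nlinarith [sq_nonneg (dist x₀ p)]
    obtain ⟨hP0, hP1, hP2, hP3⟩ := hall x₀ (hsub hx0)
    have hf0 : 0 ≤ φ x₀ := le_trans (mul_nonneg hκ.le hP0) hP1
    -- calculus on the ball of radius R₁
    obtain ⟨-, -, c3, -, -, -, -⟩ := h1 p R₁
    obtain ⟨hs1, hs2, hs3⟩ := c3 ζ ζ hζ hζ
    obtain ⟨ht1, ht2, ht3⟩ := c3 _ φ hs2 hφ1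
    obtain ⟨-, -, l3, -, -, -⟩ := h2 p R₁ e he1
    obtain ⟨m1, m2⟩ := h3 p R₁ _ x₀ ht2 hx0 (fun y hy => hmax' y (ball_subset_closedBall hy))
    have m2' := m2 e
    have q1 : ∀ k, (pd k ζ x₀ * ζ x₀ + ζ x₀ * pd k ζ x₀) * φ x₀ + ζ x₀ * ζ x₀ * pd k φ x₀ = 0 := by
      intro k
      rw [← (hs3 x₀ hx0 k).2, ← (ht3 x₀ hx0 k).2]
      exact m1 k
    rw [l3 _ φ hs2 hφ1 x₀ hx0, l3 ζ ζ hζ hζ x₀ hx0] at m2'
    have q2 : Gam e ζ ζ x₀ = ∑ a, (∑ i, e a i x₀ * pd i ζ x₀) * ∑ i, e a i x₀ * pd i ζ x₀ := rfl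
    have q3 : Gam e (fun x => ζ x * ζ x) φ x₀ = ∑ a, (∑ i, e a i x₀ *
        (pd i ζ x₀ * ζ x₀ + ζ x₀ * pd i ζ x₀)) * ∑ i, e a i x₀ * pd i φ x₀ := by
      unfold Gam De
      refine Finset.sum_congr rfl fun a _ => ?_
      congr 1
      refine Finset.sum_congr rfl fun i _ => ?_
      rw [(hs3 x₀ hx0 i).2]
    rw [q3] at m2'
    have q4 := cut_alg (fun a i => e a i x₀) (ζ x₀) (φ x₀) (Lap e ζ x₀) (Lap e φ x₀)
      (fun k => pd k ζ x₀) (fun k => pd k φ x₀) hz0 q1 m2'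
    -- bounds
    have b0 : ∀ k, |pd k ζ x₀| ≤ 2 * R₁ := by
      intro k
      rw [hζd, cut_pd]
      have h4 : (x₀ k - p k) ^ 2 ≤ R₁ ^ 2 := by
        have h5 := cut_dist p x₀
        have h6 : (x₀ k - p k) ^ 2 ≤ ∑ i, (x₀ i - p i) ^ 2 :=
          Finset.single_le_sum (f := fun i => (x₀ i - p i) ^ 2) (fun i _ => sq_nonneg _)
            (Finset.mem_univ k)
        have h7 : dist x₀ p ^ 2 ≤ R₁ ^ 2 := by
          apply pow_le_pow_left₀ dist_nonneg hd
        linarith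
      have h8 : |x₀ k - p k| ≤ R₁ := abs_le_of_sq_le_sq h4 hr0.le
      rw [abs_mul]
      simp only [abs_neg, Nat.abs_ofNat]
      linarith
    have b1 : ∀ a, |∑ i, e a i x₀ * pd i ζ x₀| ≤ 6 * Λ * R₁ := by
      intro a
      refine (Finset.abs_sum_le_sum_abs _ _).trans ?_
      have h4 : ∀ i ∈ (Finset.univ : Finset (Fin 3)), |e a i x₀ * pd i ζ x₀| ≤ Λ * (2 * R₁) := by
        intro i _
        rw [abs_mul]
        exact mul_le_mul (hbe x₀ (hsub hx0) a i) (b0 i) (abs_nonneg _) hΛ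
      refine (Finset.sum_le_sum h4).trans ?_
      rw [Finset.sum_const, Finset.card_univ, Fintype.card_fin, nsmul_eq_mul]
      push_cast
      linarith
    have b2 : ∑ a, (∑ i, e a i x₀ * pd i ζ x₀) * ∑ i, e a i x₀ * pd i ζ x₀ ≤
        108 * Λ ^ 2 * R₁ ^ 2 := by
      have h4 : ∀ a ∈ (Finset.univ : Finset (Fin 3)),
          (∑ i, e a i x₀ * pd i ζ x₀) * ∑ i, e a i x₀ * pd i ζ x₀ ≤ (6 * Λ * R₁) ^ 2 := by
        intro a _
        rw [← sq]
        exact sq_le_sq' (by linarith [neg_le_of_abs_le (b1 a)]) (le_of_abs_le (b1 a))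
      refine (Finset.sum_le_sum h4).trans ?_
      rw [Finset.sum_const, Finset.card_univ, Fintype.card_fin, nsmul_eq_mul]
      push_cast
      linarith
    have b3 : -(18 * Λ ^ 2) ≤ Lap e ζ x₀ := by
      unfold Lap
      have h4 : ∀ i j, pd i (pd j ζ) x₀ = if i = j then -2 else 0 := by
        intro i j
        rw [hζd, cut_pd]
        exact cut_pd_coord p j i x₀
      have h5 : ∀ a ∈ (Finset.univ : Finset (Fin 3)), -(6 * Λ ^ 2) ≤
          ∑ i, ∑ j, e a i x₀ * e a j x₀ * pd i (pd j ζ) x₀ := by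
        intro a _
        have h6 : ∀ i ∈ (Finset.univ : Finset (Fin 3)), -(2 * Λ ^ 2) ≤
            ∑ j, e a i x₀ * e a j x₀ * pd i (pd j ζ) x₀ := by
          intro i _
          have h7 : ∑ j, e a i x₀ * e a j x₀ * pd i (pd j ζ) x₀ = -2 * (e a i x₀) ^ 2 := by
            have h8 : ∀ j ∈ (Finset.univ : Finset (Fin 3)),
                e a i x₀ * e a j x₀ * pd i (pd j ζ) x₀ =
                if i = j then -2 * (e a i x₀ * e a j x₀) else 0 := by
              intro j _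
              rw [h4]
              split_ifs <;> ring
            rw [Finset.sum_congr rfl h8, Finset.sum_ite_eq]
            simp only [Finset.mem_univ, if_true]
            ring
          rw [h7]
          have h9 : (e a i x₀) ^ 2 ≤ Λ ^ 2 := by
            have := hbe x₀ (hsub hx0) a i
            exact sq_le_sq' (by linarith [neg_le_of_abs_le this]) (le_of_abs_le this)
          linarith
        refine le_trans ?_ (Finset.sum_le_sum h6)
        rw [Finset.sum_const, Finset.card_univ, Fintype.card_fin, nsmul_eq_mul]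
        push_cast
        linarith
      refine le_trans ?_ (Finset.sum_le_sum h5)
      rw [Finset.sum_const, Finset.card_univ, Fintype.card_fin, nsmul_eq_mul]
      push_cast
      linarith
    set D := 684 * Λ ^ 2 * R₁ ^ 2 with hD
    have hD0 : 0 ≤ D := by rw [hD]; positivity
    have b4 : 6 * (∑ a, (∑ i, e a i x₀ * pd i ζ x₀) * ∑ i, e a i x₀ * pd i ζ x₀) -
        2 * ζ x₀ * Lap e ζ x₀ ≤ D := by
      have h5 : -(ζ x₀ * Lap e ζ x₀) ≤ R₁ ^ 2 * (18 * Λ ^ 2) := by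
        have h6 : -(ζ x₀ * Lap e ζ x₀) ≤ ζ x₀ * (18 * Λ ^ 2) := by nlinarith
        have h7 : ζ x₀ * (18 * Λ ^ 2) ≤ R₁ ^ 2 * (18 * Λ ^ 2) :=
          mul_le_mul_of_nonneg_right hz1 (by positivity)
        linarith
      rw [hD]
      linarith
    have b5 : ζ x₀ ^ 2 * Lap e φ x₀ ≤ K * P x₀ * D := by
      refine q4.trans ((mul_le_mul_of_nonneg_left b4 hf0).trans ?_)
      exact mul_le_mul_of_nonneg_right hP2 hD0
    have b6 : ζ x₀ ^ 2 * (lam * P x₀ ^ 2 - C) ≤ K * P x₀ * D :=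
      le_trans (mul_le_mul_of_nonneg_left hP3 (sq_nonneg _)) b5
    set t := ζ x₀ ^ 2 * P x₀ with ht
    have ht0 : 0 ≤ t := mul_nonneg (sq_nonneg _) hP0
    have b7 : lam * t ^ 2 ≤ C * R₁ ^ 8 + D * K * t := by
      have h5 := mul_le_mul_of_nonneg_left b6 (sq_nonneg (ζ x₀))
      have h6 : ζ x₀ ^ 4 ≤ (R₁ ^ 2) ^ 4 := pow_le_pow_left₀ hzpos.le hz1 4
      have h7 : C * ζ x₀ ^ 4 ≤ C * R₁ ^ 8 := by
        have : (R₁ ^ 2) ^ 4 = R₁ ^ 8 := by ring
        rw [this] at h6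
        exact mul_le_mul_of_nonneg_left h6 hC
      have h8 : lam * t ^ 2 = ζ x₀ ^ 2 * (ζ x₀ ^ 2 * (lam * P x₀ ^ 2 - C)) + C * ζ x₀ ^ 4 := by
        rw [ht]
        ring
      have h9 : ζ x₀ ^ 2 * (K * P x₀ * D) = D * K * t := by
        rw [ht]
        ring
      linarith
    have b8 : t ≤ T := by
      rw [hT]
      by_cases h5 : t ≤ 1
      · have : 0 ≤ (C * R₁ ^ 8 + D * K) / lam := by positivity
        linarith
      · rw [not_le] at h5
        have h6 : lam * t ≤ C * R₁ ^ 8 + D * K := by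
          have h7 : C * R₁ ^ 8 ≤ C * R₁ ^ 8 * t :=
            le_mul_of_one_le_right (by positivity) h5.le
          have h8 : lam * t * t ≤ (C * R₁ ^ 8 + D * K) * t := by nlinarith
          exact le_of_mul_le_mul_right h8 (by linarith)
        have h9 : t ≤ (C * R₁ ^ 8 + D * K) / lam := by
          rw [le_div_iff₀ hlam]
          linarith
        linarith
    calc (ζ x₀ * ζ x₀) * φ x₀ ≤ (ζ x₀ * ζ x₀) * (K * P x₀) :=
          mul_le_mul_of_nonneg_left hP2 (mul_self_nonneg _)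
      _ = K * t := by rw [ht]; ring
      _ ≤ K * T := mul_le_mul_of_nonneg_left b8 hK
  intro x hx
  have hxd : dist x p < R' := hx
  have hxR : x ∈ ball p R := by
    rw [mem_ball]
    linarith
  obtain ⟨hP0, hP1, -, -⟩ := hall x hxR
  have hzx : R₁ ^ 2 - R' ^ 2 ≤ ζ x := by
    rw [hζv]
    nlinarith [dist_nonneg (x := x) (y := p)]
  have h5 := hmax' x (by rw [mem_closedBall]; linarith)
  have h6 : (R₁ ^ 2 - R' ^ 2) ^ 2 ≤ ζ x * ζ x := by nlinarith
  rw [le_div_iff₀ (by positivity)]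
  have h7 : (R₁ ^ 2 - R' ^ 2) ^ 2 * (κ * P x) ≤ (ζ x * ζ x) * φ x :=
    mul_le_mul h6 hP1 (mul_nonneg hκ.le hP0) (mul_self_nonneg _)
  linarith

end Pool.Agent.FUE.Rg
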