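import Pool.Agent.FUE.RgSt

/-!
# FUE, regularity, module LPC: calculus of `Lap` (helper56)
-/

set_option autoImplicit false

open scoped ContDiff
open Metric

namespace Pool.Agent.FUE.Rg

private theorem lpc_add (h1 : St_Cal) (p : E3) (R : ℝ) (f g : E3 → ℝ) (hf : Sm p R f)
    (hg : Sm p R g) (x : E3) (hx : x ∈ ball p R) (i j : Fin 3) :
    pd i (pd j fun x => f x + g x) x = pd i (pd j f) x + pd i (pd j g) x := by
  obtain ⟨c1, c2, c3, c4, c5, c6, c7⟩ := h1 p R
  have e1 := (c7 (pd j fun x => f x + g x) (fun x => pd j f x + pd j g x)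
    (fun y hy => ((c3 f g hf hg).2.2 y hy j).1)).2 x hx i
  rw [e1]
  exact ((c3 (pd j f) (pd j g) (c2 j f hf) (c2 j g hg)).2.2 x hx i).1

private theorem lpc_mul (h1 : St_Cal) (p : E3) (R : ℝ) (f g : E3 → ℝ) (hf : Sm p R f)
    (hg : Sm p R g) (x : E3) (hx : x ∈ ball p R) (i j : Fin 3) :
    pd i (pd j fun x => f x * g x) x = pd i (pd j f) x * g x + pd j f x * pd i g x +
      (pd i f x * pd j g x + f x * pd i (pd j g) x) := by
  obtain ⟨c1, c2, c3, c4, c5, c6, c7⟩ := h1 p R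
  have e1 := (c7 (pd j fun x => f x * g x) (fun x => pd j f x * g x + f x * pd j g x)
    (fun y hy => ((c3 f g hf hg).2.2 y hy j).2)).2 x hx i
  have s1 := c2 j f hf
  have s2 := c2 j g hg
  rw [e1, ((c3 (fun x => pd j f x * g x) (fun x => f x * pd j g x) (c3 _ _ s1 hg).2.1
    (c3 _ _ hf s2).2.1).2.2 x hx i).1, ((c3 (pd j f) g s1 hg).2.2 x hx i).2,
    ((c3 f (pd j g) hf s2).2.2 x hx i).2]

private theorem lpc_sum (h1 : St_Cal) (p : E3) (R : ℝ) (τ : Type) (T : Finset τ)
    (f : τ → E3 → ℝ) (hf : ∀ t ∈ T, Sm p R (f t)) (x : E3) (hx : x ∈ ball p R) (i j : Fin 3) :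
    pd i (pd j fun x => ∑ t ∈ T, f t x) x = ∑ t ∈ T, pd i (pd j (f t)) x := by
  obtain ⟨c1, c2, c3, c4, c5, c6, c7⟩ := h1 p R
  have e1 := (c7 (pd j fun x => ∑ t ∈ T, f t x) (fun x => ∑ t ∈ T, pd j (f t) x)
    (fun y hy => (c5 τ T f hf).2 y hy j)).2 x hx i
  rw [e1]
  exact (c5 τ T (fun t => pd j (f t)) (fun t ht => c2 j _ (hf t ht))).2 x hx i

/-- **LPC.** Calculus of `Lap`. -/
theorem thm_Lpc (h1 : St_Cal) : St_Lpc := by
  intro p R e he
  have hadd := lpc_add h1 p R
  have hmul := lpc_mul h1 p R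
  have hsum := lpc_sum h1 p R
  obtain ⟨c1, c2, c3, c4, c5, c6, c7⟩ := h1 p R
  have hT : ∀ f, Sm p R f → ∀ a i j, Sm p R fun x => e a i x * e a j x * pd i (pd j f) x :=
    fun f hf a i j => (c3 _ _ (c3 _ _ (he a i) (he a j)).2.1 (c2 i _ (c2 j _ hf))).2.1
  have hT1 : ∀ f, Sm p R f → ∀ a i, Sm p R fun x => ∑ j, e a i x * e a j x * pd i (pd j f) x :=
    fun f hf a i => (c5 (Fin 3) Finset.univ (fun j x => e a i x * e a j x * pd i (pd j f) x)
      (fun j _ => hT f hf a i j)).1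
  have hT2 : ∀ f, Sm p R f → ∀ a, Sm p R fun x =>
      ∑ i, ∑ j, e a i x * e a j x * pd i (pd j f) x :=
    fun f hf a => (c5 (Fin 3) Finset.univ
      (fun i x => ∑ j, e a i x * e a j x * pd i (pd j f) x) (fun i _ => hT1 f hf a i)).1
  have hLm : ∀ f g, Sm p R f → Sm p R g → ∀ x ∈ ball p R,
      Lap e (fun x => f x * g x) x = Lap e f x * g x + f x * Lap e g x + 2 * Gam e f g x := by
    intro f g hf hg x hx
    unfold Lap Gam De
    rw [Finset.sum_mul, Finset.mul_sum, Finset.mul_sum, ← Finset.sum_add_distrib,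
      ← Finset.sum_add_distrib]
    refine Finset.sum_congr rfl fun a _ => ?_
    simp only [Fin.sum_univ_three, hmul f g hf hg x hx]
    ring
  have hLs : ∀ (τ : Type) (T : Finset τ) (f : τ → E3 → ℝ), (∀ t ∈ T, Sm p R (f t)) →
      ∀ x ∈ ball p R, Lap e (fun x => ∑ t ∈ T, f t x) x = ∑ t ∈ T, Lap e (f t) x := by
    intro τ T f hf x hx
    unfold Lap
    rw [Finset.sum_comm' (t' := Finset.univ) (s' := fun _ => T) (by simp)]
    refine Finset.sum_congr rfl fun a _ => ?_
    rw [Finset.sum_comm' (t' := Finset.univ) (s' := fun _ => T) (by simp)]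
    refine Finset.sum_congr rfl fun i _ => ?_
    rw [Finset.sum_comm' (t' := Finset.univ) (s' := fun _ => T) (by simp)]
    refine Finset.sum_congr rfl fun j _ => ?_
    rw [hsum τ T f hf x hx i j, Finset.mul_sum]
  refine ⟨?_, ?_, hLm, ?_, ?_, ?_⟩
  · intro f hf
    exact (c5 (Fin 3) Finset.univ
      (fun a x => ∑ i, ∑ j, e a i x * e a j x * pd i (pd j f) x) (fun a _ => hT2 f hf a)).1
  · intro f g hf hg x hx
    unfold Lap
    rw [← Finset.sum_add_distrib]
    refine Finset.sum_congr rfl fun a _ => ?_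
    simp only [Fin.sum_univ_three, hadd f g hf hg x hx]
    ring
  · intro f hf x hx l
    have e1 : pd l (Lap e f) x =
        ∑ a, ∑ i, ∑ j, pd l (fun x => e a i x * e a j x * pd i (pd j f) x) x := by
      have e2 := (c5 (Fin 3) Finset.univ
        (fun a x => ∑ i, ∑ j, e a i x * e a j x * pd i (pd j f) x)
        (fun a _ => hT2 f hf a)).2 x hx l
      have e3 : pd l (Lap e f) x =
          pd l (fun x => ∑ a, ∑ i, ∑ j, e a i x * e a j x * pd i (pd j f) x) x := rfl
      rw [e3, e2]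
      refine Finset.sum_congr rfl fun a _ => ?_
      rw [(c5 (Fin 3) Finset.univ (fun i x => ∑ j, e a i x * e a j x * pd i (pd j f) x)
        (fun i _ => hT1 f hf a i)).2 x hx l]
      refine Finset.sum_congr rfl fun i _ => ?_
      exact (c5 (Fin 3) Finset.univ (fun j x => e a i x * e a j x * pd i (pd j f) x)
        (fun j _ => hT f hf a i j)).2 x hx l
    have e4 : ∀ i j, pd l (pd i (pd j f)) x = pd i (pd j (pd l f)) x := by
      intro i j
      rw [c6 (pd j f) (c2 j f hf) x hx l i]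
      exact (c7 (pd l (pd j f)) (pd j (pd l f)) (fun y hy => c6 f hf y hy l j)).2 x hx i
    rw [e1]
    unfold Lap
    rw [← Finset.sum_add_distrib]
    refine Finset.sum_congr rfl fun a _ => ?_
    rw [← Finset.sum_add_distrib]
    refine Finset.sum_congr rfl fun i _ => ?_
    rw [← Finset.sum_add_distrib]
    refine Finset.sum_congr rfl fun j _ => ?_
    rw [((c3 (fun x => e a i x * e a j x) (pd i (pd j f)) (c3 _ _ (he a i) (he a j)).2.1
      (c2 i _ (c2 j _ hf))).2.2 x hx l).2, ((c3 _ _ (he a i) (he a j)).2.2 x hx l).2, e4 i j]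
    ring
  · intro c x
    have e1 : ∀ j, pd j (fun _ : E3 => c) = fun _ => 0 := fun j => funext fun y => c4 c j y
    unfold Lap
    simp only [e1, c4, mul_zero, Finset.sum_const_zero]
  · intro τ T f hf x hx
    refine ⟨hLs τ T f hf x hx, ?_⟩
    have e1 : (fun x => ∑ t ∈ T, f t x ^ 2) = fun x => ∑ t ∈ T, f t x * f t x :=
      funext fun y => Finset.sum_congr rfl fun t _ => sq (f t y)
    rw [e1, hLs τ T (fun t x => f t x * f t x) (fun t ht => (c3 _ _ (hf t ht) (hf t ht)).2.1) x hx]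
    refine Finset.sum_congr rfl fun t ht => ?_
    rw [hLm (f t) (f t) (hf t ht) (hf t ht) x hx]
    ring

end Pool.Agent.FUE.Rg
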