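import Pool.Agent.FUE.RgSt

/-!
# FUE, regularity: Mxp (helper80): the second derivative test at an interior maximum
-/

set_option autoImplicit false

open scoped ContDiff
open Metric

namespace Pool.Agent.FUE.Rg

theorem mxp_exp (L : E3 →L[ℝ] ℝ) (v : E3) :
    L v = ∑ i, v i * L (EuclideanSpace.single i 1) := by
  conv_lhs => rw [← (EuclideanSpace.basisFun (Fin 3) ℝ).sum_repr v]
  rw [map_sum]
  refine Finset.sum_congr rfl fun i _ => ?_
  rw [map_smul, EuclideanSpace.basisFun_apply, EuclideanSpace.basisFun_repr, smul_eq_mul]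

theorem mxp_line {p : E3} {R : ℝ} {f : E3 → ℝ} (hf : Sm p R f) (x v : E3) (t : ℝ)
    (ht : x + t • v ∈ ball p R) :
    HasDerivAt (fun s : ℝ => f (x + s • v)) (∑ i, v i * pd i f (x + t • v)) t := by
  have h1 : DifferentiableAt ℝ f (x + t • v) :=
    (hf.contDiffAt (isOpen_ball.mem_nhds ht)).differentiableAt (by simp)
  have h2 : HasDerivAt (fun s : ℝ => x + s • v) v t := by
    simpa using ((hasDerivAt_id t).smul_const v).const_add x
  have h3 := h1.hasFDerivAt.comp_hasDerivAt t h2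
  rw [mxp_exp] at h3
  exact h3

theorem mxp_dir (hC : St_Cal) {p : E3} {R : ℝ} {ψ : E3 → ℝ} {x : E3} (hψ : Sm p R ψ)
    (hx : x ∈ ball p R) (hmax : ∀ y ∈ ball p R, ψ y ≤ ψ x) (v : E3) :
    ∑ i, ∑ j, v i * v j * pd i (pd j ψ) x ≤ 0 := by
  by_contra hpos
  push Not at hpos
  have hpd : ∀ j, Sm p R (pd j ψ) := fun j => (hC p R).2.1 j ψ hψ
  have hnb : ∀ᶠ t in nhds (0 : ℝ), x + t • v ∈ ball p R := by
    have h1 : Filter.Tendsto (fun t : ℝ => x + t • v) (nhds 0) (nhds (x + (0 : ℝ) • v)) :=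
      (continuous_const.add (continuous_id.smul continuous_const)).tendsto 0
    rw [zero_smul, add_zero] at h1
    exact h1.eventually (isOpen_ball.mem_nhds hx)
  have hx0 : x + (0 : ℝ) • v ∈ ball p R := by
    rw [zero_smul, add_zero]
    exact hx
  have hg : ∀ᶠ t in nhds (0 : ℝ), deriv (fun s : ℝ => ψ (x + s • v)) t =
      ∑ j, v j * pd j ψ (x + t • v) := hnb.mono fun t ht => (mxp_line hψ x v t ht).deriv
  have hlm : IsLocalMax (fun s : ℝ => ψ (x + s • v)) 0 := by
    refine hnb.mono fun t ht => ?_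
    show ψ (x + t • v) ≤ ψ (x + (0 : ℝ) • v)
    rw [zero_smul, add_zero]
    exact hmax _ ht
  have hh : HasDerivAt (fun t : ℝ => ∑ j, v j * pd j ψ (x + t • v))
      (∑ i, ∑ j, v i * v j * pd i (pd j ψ) x) 0 := by
    have h1 : HasDerivAt (fun t : ℝ => ∑ j, v j * pd j ψ (x + t • v))
        (∑ j, v j * ∑ i, v i * pd i (pd j ψ) (x + (0 : ℝ) • v)) 0 :=
      HasDerivAt.fun_sum fun j _ => (mxp_line (hpd j) x v 0 hx0).const_mul (v j)
    have e : ∑ j, v j * ∑ i, v i * pd i (pd j ψ) (x + (0 : ℝ) • v) =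
        ∑ i, ∑ j, v i * v j * pd i (pd j ψ) x := by
      rw [Finset.sum_comm]
      refine Finset.sum_congr rfl fun j _ => ?_
      rw [Finset.mul_sum]
      refine Finset.sum_congr rfl fun i _ => ?_
      rw [zero_smul, add_zero]
      ring
    rw [e] at h1
    exact h1
  have hdd : deriv (deriv (fun s : ℝ => ψ (x + s • v))) 0 =
      ∑ i, ∑ j, v i * v j * pd i (pd j ψ) x := by
    rw [Filter.EventuallyEq.deriv_eq hg]
    exact hh.deriv
  have hd0 : deriv (fun s : ℝ => ψ (x + s • v)) 0 = 0 := hlm.deriv_eq_zero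
  have hmin := isLocalMin_of_deriv_deriv_pos (by rw [hdd]; exact hpos) hd0
    (mxp_line hψ x v 0 hx0).continuousAt
  have hconst : (fun s : ℝ => ψ (x + s • v)) =ᶠ[nhds 0] fun _ => ψ (x + (0 : ℝ) • v) := by
    refine (hlm.and hmin).mono fun t ht => ?_
    exact le_antisymm ht.1 ht.2
  have h4 : deriv (fun s : ℝ => ψ (x + s • v)) =ᶠ[nhds 0] fun _ => 0 := by
    refine hconst.deriv.trans ?_
    refine Filter.Eventually.of_forall fun t => ?_
    exact deriv_const _ _
  have h5 := h4.deriv_eq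
  rw [hdd, deriv_const] at h5
  exact hpos.ne' h5

/-- [MXP] -/
theorem thm_Mxp (h1 : St_Cal) : St_Mxp := by
  intro p R ψ x hψ hx hmax
  refine ⟨fun k => ?_, fun e => ?_⟩
  · have hlm : IsLocalMax ψ x := by
      filter_upwards [isOpen_ball.mem_nhds hx] with y hy
      exact hmax y hy
    show fderiv ℝ ψ x (EuclideanSpace.single k 1) = 0
    rw [hlm.fderiv_eq_zero]
    rfl
  · refine Finset.sum_nonpos fun a _ => ?_
    exact mxp_dir h1 hψ hx hmax (WithLp.toLp 2 fun i => e a i x)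

end Pool.Agent.FUE.Rg
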