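import Pool.Agent.FUE.RgSt

/-!
# FUE, regularity: the equations for the first derivatives (helper81)
-/

set_option autoImplicit false

open scoped ContDiff
open Metric

namespace Pool.Agent.FUE.Rg

theorem peq_sm (h1 : St_Cal) {σ : Type} {p : E3} {R : ℝ} {f : σ → E3 → ℝ}
    (hf : ∀ s, Sm p R (f s)) (q : Option (Fin 3) × σ) : Sm p R (pro f q) := by
  rcases q with ⟨o, s⟩
  cases o with
  | none => exact hf s
  | some k => exact (h1 p R).2.1 k (f s) (hf s)

open Classical in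
theorem peq_cd (h2 : St_Chn) (σ : Type) [Fintype σ] (S : FSys σ) (q : Option (Fin 3) × σ) :
    ContDiff ℝ ∞ (pF S q) := by
  rcases q with ⟨o, s⟩
  have hπ : ContDiff ℝ ∞ (fun Y : Option (Fin 3) × (Option (Fin 3) × σ) → ℝ =>
      fun r => Y (none, r)) := contDiff_pi.2 fun r => contDiff_apply ℝ ℝ (none, r)
  cases o with
  | none => exact (S.sm s).comp hπ
  | some l =>
    have hd := (h2 (Option (Fin 3) × σ) (S.F s) (S.sm s)).1
    have hc : ∀ q : Option (Fin 3) × (Option (Fin 3) × σ), ContDiff ℝ ∞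
        (fun Y : Option (Fin 3) × (Option (Fin 3) × σ) → ℝ => Y q) := fun q =>
      contDiff_apply ℝ ℝ q
    change ContDiff ℝ ∞ (fun Y : Option (Fin 3) × (Option (Fin 3) × σ) → ℝ =>
      (∑ r, fderiv ℝ (S.F s) (fun r => Y (none, r)) (Pi.single r 1) * Y (some l, r)) -
      ∑ a, ∑ i, ∑ j, (Y (none, (some l, S.ei a i)) * Y (none, (none, S.ei a j)) +
        Y (none, (none, S.ei a i)) * Y (none, (some l, S.ei a j))) * Y (some i, (some j, s)))
    refine ContDiff.sub (ContDiff.sum fun r _ => ?_) (ContDiff.sum fun a _ =>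
      ContDiff.sum fun i _ => ContDiff.sum fun j _ => ?_)
    · exact ((hd r).comp hπ).mul (hc _)
    · exact (((hc _).mul (hc _)).add ((hc _).mul (hc _))).mul (hc _)

open Classical in
theorem peq_two (h1 : St_Cal) (h2 : St_Chn) (h3 : St_Lpc) (σ : Type) [Fintype σ] (S : FSys σ)
    (p : E3) (R : ℝ) (f : σ → E3 → ℝ) (hf : ∀ s, Sm p R (f s)) (s : σ)
    (hL : ∀ x ∈ ball p R, Lap (fun a i => f (S.ei a i)) (f s) x = S.F s fun q => pro f q x)
    (x : E3) (hx : x ∈ ball p R) (l : Fin 3) :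
    Lap (fun a i => f (S.ei a i)) (pd l (f s)) x =
      (∑ r, fderiv ℝ (S.F s) (fun r => pro f r x) (Pi.single r 1) * pd l (pro f r) x) -
      ∑ a, ∑ i, ∑ j, (pd l (f (S.ei a i)) x * f (S.ei a j) x +
        f (S.ei a i) x * pd l (f (S.ei a j)) x) * pd i (pd j (f s)) x := by
  have e1 := (h3 p R (fun a i => f (S.ei a i)) (fun a i => hf _)).2.2.2.1 (f s) (hf s) x hx l
  have e2 := ((h1 p R).2.2.2.2.2.2 _ (fun x => S.F s fun q => pro f q x) hL).2 x hx l
  have e3 := ((h2 (Option (Fin 3) × σ) (S.F s) (S.sm s)).2 p R (fun q => pro f q)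
    (fun q => peq_sm h1 hf q)).2 x hx l
  rw [e2, e3] at e1
  linarith

theorem thm_Peq (h1 : St_Cal) (h2 : St_Chn) (h3 : St_Lpc) : St_Peq := by
  intro σ _ S
  refine ⟨peq_cd h2 σ S, ?_⟩
  intro p R f hf s hL x hx o
  cases o with
  | none => exact hL x hx
  | some l => exact peq_two h1 h2 h3 σ S p R f hf s hL x hx l

end Pool.Agent.FUE.Rg
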