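import Pool.Agent.FUE.RgSt

/-!
# FUE, regularity: Pro (helper80): prolongation of systems
-/

set_option autoImplicit false

open scoped ContDiff
open Metric

namespace Pool.Agent.FUE.Rg

theorem pro_pds (k : Fin 3) (f : E3 → ℝ) : ∀ l : List (Fin 3), pds l (pd k f) = pds (l ++ [k]) f
  | [] => rfl
  | j :: l => congrArg (pd j) (pro_pds k f l)

theorem pro_mono {N : Type} {p : N → E3} {R R' : ℝ} (hR : R' < R) {f : N → E3 → ℝ}
    (h : BD p R f) : BD p R' f := fun R'' hR'' l => h R'' (hR''.trans hR) l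

theorem pro_pd {N : Type} {p : N → E3} {R : ℝ} {f : N → E3 → ℝ} (h : BD p R f) (k : Fin 3) :
    BD p R fun n => pd k (f n) := by
  intro R' hR' l
  obtain ⟨C, hC⟩ := h R' hR' (l ++ [k])
  refine ⟨C, fun n x hx => ?_⟩
  rw [pro_pds]
  exact hC n x hx

/-- [PRO] -/
theorem thm_Pro (h1 : St_Cal) (h2 : St_Peq) (h3 : St_Beu) : St_Pro := by
  intro σ N _ S p R f H
  refine ⟨{ ei := fun a i => (none, S.ei a i), F := pF S, sm := (h2 σ S).1 }, fun R' hR' => ?_⟩
  have hb : ∀ n, ball (p n) R' ⊆ ball (p n) R := fun n => ball_subset_ball hR'.le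
  refine
    { sm := ?_
      bd := ?_
      d1 := fun q k => h3 σ N S p R f H R' hR' q k
      be := fun a i => pro_mono hR' (H.be a i)
      el := ?_
      eq := ?_ }
  · rintro n ⟨o, s⟩
    cases o with
    | none => exact (H.sm n s).mono (hb n)
    | some k => exact ((h1 (p n) R).2.1 k _ (H.sm n s)).mono (hb n)
  · rintro ⟨o, s⟩
    cases o with
    | none =>
      obtain ⟨C, hC⟩ := H.bd s
      exact ⟨C, fun n x hx => hC n x (hb n hx)⟩
    | some k =>
      obtain ⟨C, hC⟩ := H.d1 s k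
      exact ⟨C, fun n x hx => hC n x (hb n hx)⟩
  · obtain ⟨lam, hl, hel⟩ := H.el
    exact ⟨lam, hl, fun n x hx ξ => hel n x (hb n hx) ξ⟩
  · rintro ⟨o, s⟩
    rcases H.eq s with h | h
    · left
      cases o with
      | none => exact pro_mono hR' h
      | some k => exact pro_mono hR' (pro_pd h k)
    · right
      intro n x hx
      exact (h2 σ S).2 (p n) R (f n) (H.sm n) s (h n) x (hb n hx) o

end Pool.Agent.FUE.Rg
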