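import Pool.Agent.FUE.RgSt

/-!
# FUE/RgReg (helper55): all derivatives are bounded
-/

set_option autoImplicit false

open scoped ContDiff
open Metric

namespace Pool.Agent.FUE.Rg

theorem reg_append (l : List (Fin 3)) (k : Fin 3) (g : E3 → ℝ) : pds (l ++ [k]) g = pds l (pd k g) := by
  induction l with
  | nil => rfl
  | cons a l ih =>
    change pd a (pds (l ++ [k]) g) = pd a (pds l (pd k g))
    rw [ih]

theorem reg_ind (h2 : St_Pro) (m : ℕ) : ∀ (σ N : Type) [Fintype σ] (S : FSys σ) (p : N → E3) (R : ℝ)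
    (f : N → σ → E3 → ℝ), FSol S p R f → ∀ s, ∀ R' < R, ∀ l : List (Fin 3), l.length = m →
      ∃ C : ℝ, ∀ n, ∀ x ∈ ball (p n) R', |pds l (f n s) x| ≤ C := by
  induction m with
  | zero =>
    intro σ N _ S p R f hf s R' hR l hl
    have hl' : l = [] := List.length_eq_zero_iff.1 hl
    subst hl'
    obtain ⟨C, hC⟩ := hf.bd s
    exact ⟨C, fun n x hx => hC n x (ball_subset_ball hR.le hx)⟩
  | succ m ih =>
    intro σ N _ S p R f hf s R' hR l hl
    rcases List.eq_nil_or_concat l with h | ⟨l', k, h⟩
    · subst h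
      simp at hl
    · subst h
      rw [List.concat_eq_append] at hl ⊢
      rw [List.length_append, List.length_singleton] at hl
      obtain ⟨S', hS'⟩ := h2 σ N S p R f hf
      have hR1 : (R' + R) / 2 < R := by linarith
      have hR2 : R' < (R' + R) / 2 := by linarith
      obtain ⟨C, hC⟩ := ih (Option (Fin 3) × σ) N S' p ((R' + R) / 2) (fun n => pro (f n)) (hS' _ hR1)
        (some k, s) R' hR2 l' (by omega)
      refine ⟨C, fun n x hx => ?_⟩
      rw [reg_append]
      exact hC n x hx

/-- `St_Reg`. -/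
theorem thm_Reg (h2 : St_Pro) : St_Reg := by
  intro σ N _ S p R f hf s R' hR l
  exact reg_ind h2 l.length σ N S p R f hf s R' hR l rfl

end Pool.Agent.FUE.Rg
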