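import Pool.Agent.FUE.RgSt

/-!
# FUE, regularity: the module RGV (the regularity theorem for maps to `V9`)
-/

set_option autoImplicit false

open scoped ContDiff
open Metric

namespace Pool.Agent.FUE.Rg

/-- the right hand sides as functions of the coefficient functions, the components and their
first derivatives -/
noncomputable def rgv_F {κ : Type}
    (F : Fin 3 × Fin 3 → (κ → ℝ) × (Fin 3 × Fin 3 → ℝ) × (Fin 3 → Fin 3 × Fin 3 → ℝ) → ℝ) :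
    κ ⊕ (Fin 3 × Fin 3) → (Option (Fin 3) × (κ ⊕ (Fin 3 × Fin 3)) → ℝ) → ℝ
  | Sum.inl _, _ => 0
  | Sum.inr i, Y => F i (fun t => Y (none, Sum.inl t), fun j => Y (none, Sum.inr j),
      fun k j => Y (some k, Sum.inr j))

theorem rgv_F_smooth {κ : Type} [Fintype κ]
    (F : Fin 3 × Fin 3 → (κ → ℝ) × (Fin 3 × Fin 3 → ℝ) × (Fin 3 → Fin 3 × Fin 3 → ℝ) → ℝ)
    (hF : ∀ i, ContDiff ℝ ∞ (F i)) (s : κ ⊕ (Fin 3 × Fin 3)) : ContDiff ℝ ∞ (rgv_F F s) := by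
  rcases s with s | i
  · exact contDiff_const
  · have h1 : ContDiff ℝ ∞ fun Y : Option (Fin 3) × (κ ⊕ (Fin 3 × Fin 3)) → ℝ =>
        ((fun t => Y (none, Sum.inl t), fun j => Y (none, Sum.inr j),
          fun k j => Y (some k, Sum.inr j)) :
            (κ → ℝ) × (Fin 3 × Fin 3 → ℝ) × (Fin 3 → Fin 3 × Fin 3 → ℝ)) := by
      refine ContDiff.prodMk ?_ (ContDiff.prodMk ?_ ?_)
      · exact contDiff_pi.2 fun t => contDiff_apply ℝ ℝ _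
      · exact contDiff_pi.2 fun t => contDiff_apply ℝ ℝ _
      · exact contDiff_pi.2 fun k => contDiff_pi.2 fun j => contDiff_apply ℝ ℝ _
    exact (hF i).comp h1

/-- the system -/
noncomputable def rgv_sys {κ : Type} [Fintype κ] (bi : Fin 3 → Fin 3 → κ)
    (F : Fin 3 × Fin 3 → (κ → ℝ) × (Fin 3 × Fin 3 → ℝ) × (Fin 3 → Fin 3 × Fin 3 → ℝ) → ℝ)
    (hF : ∀ i, ContDiff ℝ ∞ (F i)) : FSys (κ ⊕ (Fin 3 × Fin 3)) where
  ei a i := Sum.inl (bi a i)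
  F := rgv_F F
  sm := rgv_F_smooth F hF

/-- the functions of the system: the coefficients and the components of `u` -/
noncomputable def rgv_f {κ : Type} (c : κ → E3 → ℝ) (u : E3 → V9) :
    κ ⊕ (Fin 3 × Fin 3) → E3 → ℝ
  | Sum.inl s, x => c s x
  | Sum.inr i, x => u x i

/-- the hypotheses on the data -/
structure rgv_H {κ : Type} [Fintype κ] (bi : Fin 3 → Fin 3 → κ)
    (F : Fin 3 × Fin 3 → (κ → ℝ) × (Fin 3 × Fin 3 → ℝ) × (Fin 3 → Fin 3 × Fin 3 → ℝ) → ℝ)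
    (Λ : ℕ → ℝ) (δ r : ℝ) (y₀ : E3) (c : κ → E3 → ℝ) (u : E3 → V9) : Prop where
  sc : ∀ s, Sm y₀ r (c s)
  su : ContDiffOn ℝ ∞ u (ball y₀ r)
  bc : ∀ k s, ∀ x ∈ ball y₀ r, ‖iteratedFDeriv ℝ k (c s) x‖ ≤ Λ k
  hx : ∀ x ∈ ball y₀ r, ‖u x‖ ≤ Λ 0 ∧ ‖fderiv ℝ u x‖ ≤ Λ 0 ∧
    δ ≤ |(Matrix.of fun a i => c (bi a i) x).det| ∧
    ∀ i, Lap (fun a j => c (bi a j)) (fun y => u y i) x =
      F i (fun s => c s x, fun j => u x j, fun k j => pd k (fun y => u y j) x)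

/-- the type of all data -/
def rgv_N {κ : Type} [Fintype κ] (bi : Fin 3 → Fin 3 → κ)
    (F : Fin 3 × Fin 3 → (κ → ℝ) × (Fin 3 × Fin 3 → ℝ) × (Fin 3 → Fin 3 × Fin 3 → ℝ) → ℝ)
    (Λ : ℕ → ℝ) (δ r : ℝ) : Type :=
  {n : E3 × (κ → E3 → ℝ) × (E3 → V9) // rgv_H bi F Λ δ r n.1 n.2.1 n.2.2}

theorem thm_Rgv (h2 : St_Reg) (h3 : St_Ell) (h4 : St_Cnv) : St_Rgv := by
  intro κ _ bi F hF Λ δ r hδ hr
  obtain ⟨lam, hlam, hel⟩ := h3 δ (Λ 0) hδ
  -- the family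
  let p : rgv_N bi F Λ δ r → E3 := fun n => n.1.1
  let f : rgv_N bi F Λ δ r → κ ⊕ (Fin 3 × Fin 3) → E3 → ℝ := fun n => rgv_f n.1.2.1 n.1.2.2
  have hc0 : ∀ (n : rgv_N bi F Λ δ r) (l : List (Fin 3)) (s : κ), ∀ x ∈ ball (p n) r,
      |pds l (f n (Sum.inl s)) x| ≤ Λ l.length := by
    intro n l s x hx
    have h := (h4 n.1.1 r).1 (n.1.2.1 s) (n.2.sc s) x hx l
    exact h.trans (n.2.bc _ s x hx)
  have hBD : ∀ s : κ, BD p r fun n => f n (Sum.inl s) := by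
    intro s R' hR' l
    refine ⟨Λ l.length, fun n x hx => hc0 n l s x ?_⟩
    exact ball_subset_ball hR'.le hx
  have hsol : FSol (rgv_sys bi F hF) p r f := by
    refine ⟨?_, ?_, ?_, ?_, ?_, ?_⟩
    · rintro n (s | i)
      · exact n.2.sc s
      · exact ((h4 n.1.1 r).2.2 n.1.2.2 n.2.su).1 i
    · rintro (s | i)
      · exact ⟨Λ 0, fun n x hx => hc0 n [] s x hx⟩
      · refine ⟨Λ 0, fun n x hx => ?_⟩
        have h := (n.2.hx x hx).1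
        have h5 : ‖(n.1.2.2 x) i‖ ≤ ‖n.1.2.2 x‖ := PiLp.norm_apply_le _ i
        exact h5.trans h
    · rintro (s | i) k
      · exact ⟨Λ 1, fun n x hx => hc0 n [k] s x hx⟩
      · refine ⟨Λ 0, fun n x hx => ?_⟩
        have hsm := ((h4 n.1.1 r).2.2 n.1.2.2 n.2.su)
        have h5 := (h4 n.1.1 r).1 (fun x => n.1.2.2 x i) (hsm.1 i) x hx [k]
        have h6 := (hsm.2 x hx 1).1 i
        have h7 : ‖iteratedFDeriv ℝ 1 n.1.2.2 x‖ = ‖fderiv ℝ n.1.2.2 x‖ :=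
          norm_iteratedFDeriv_one _
        exact h5.trans (h6.trans (h7.le.trans (n.2.hx x hx).2.1))
    · exact fun a i => hBD (bi a i)
    · refine ⟨lam, hlam, fun n x hx ξ => ?_⟩
      exact hel (Matrix.of fun a i => n.1.2.1 (bi a i) x) (fun a i => hc0 n [] (bi a i) x hx)
        (n.2.hx x hx).2.2.1 ξ
    · rintro (s | i)
      · exact Or.inl (hBD s)
      · exact Or.inr fun n x hx => (n.2.hx x hx).2.2.2 i
  have hreg := h2 _ _ (rgv_sys bi F hF) p r f hsol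
  have hC : ∀ (i : Fin 3 × Fin 3) (l : List (Fin 3)), ∃ C : ℝ, ∀ n : rgv_N bi F Λ δ r,
      ∀ x ∈ ball (p n) (r / 2), |pds l (f n (Sum.inr i)) x| ≤ C := fun i l =>
    hreg (Sum.inr i) (r / 2) (by linarith) l
  choose C hC using hC
  refine ⟨fun k => ∑ i : Fin 3 × Fin 3, ∑ l : Fin k → Fin 3, C i (List.ofFn l), ?_⟩
  intro y₀ c u hc hu hbc hx k x hxb
  let n : rgv_N bi F Λ δ r := ⟨(y₀, c, u), ⟨hc, hu, hbc, hx⟩⟩
  have hxb' : x ∈ ball y₀ r := ball_subset_ball (by linarith) hxb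
  have hsm := ((h4 y₀ r).2.2 u hu)
  refine ((hsm.2 x hxb' k).2).trans (Finset.sum_le_sum fun i _ => ?_)
  refine ((h4 y₀ r).2.1 (fun x => u x i) (hsm.1 i) x hxb' k).trans (Finset.sum_le_sum fun l _ => ?_)
  exact hC i (List.ofFn l) n x hxb

end Pool.Agent.FUE.Rg
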