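import Pool.Agent.FUE.RgSt

/-!
# FUE/RgRin (helper55): the inequality behind Bernstein's method
-/

set_option autoImplicit false

namespace Pool.Agent.FUE.Rg

theorem rin_poly (lam M : ℝ) (hl : 0 < lam) (hM : 0 ≤ M) :
    ∃ C : ℝ, 0 ≤ C ∧ ∀ a : ℝ, 0 ≤ a → M * (a ^ 3 + a ^ 2 + a) ≤ lam / 2 * a ^ 4 + C := by
  refine ⟨3 * M + 3 * M * (6 * M / lam) ^ 3, by positivity, fun a ha => ?_⟩
  have h3 : 0 ≤ a ^ 3 := by positivity
  have h1 : a ^ 3 + a ^ 2 + a ≤ 3 * (1 + a ^ 3) := by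
    rcases le_total a 1 with h | h
    · have h4 : a ^ 2 ≤ 1 := pow_le_one₀ ha h
      linarith
    · have h4 : a ^ 2 ≤ a ^ 3 := pow_le_pow_right₀ h (by norm_num)
      have h5 : a ^ 1 ≤ a ^ 3 := pow_le_pow_right₀ h (by norm_num)
      rw [pow_one] at h5
      linarith
  have h2 : M * (a ^ 3 + a ^ 2 + a) ≤ M * (3 * (1 + a ^ 3)) := mul_le_mul_of_nonneg_left h1 hM
  rcases le_total (6 * M / lam) a with h | h
  · have h4 : 6 * M ≤ a * lam := (div_le_iff₀ hl).1 h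
    have h5 : 6 * M * a ^ 3 ≤ a * lam * a ^ 3 := mul_le_mul_of_nonneg_right h4 h3
    have h6 : 0 ≤ 3 * M * (6 * M / lam) ^ 3 := by positivity
    nlinarith
  · have h4 : a ^ 3 ≤ (6 * M / lam) ^ 3 := pow_le_pow_left₀ ha h 3
    have h5 : 3 * M * a ^ 3 ≤ 3 * M * (6 * M / lam) ^ 3 := mul_le_mul_of_nonneg_left h4 (by linarith)
    have h6 : 0 ≤ lam / 2 * a ^ 4 := by positivity
    nlinarith

/-- `St_Rin`. -/
theorem thm_Rin : St_Rin := by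
  intro lam C₁ C₂ C₃ Q hl h1 h2 h3 hQ
  have hl0 : lam ≠ 0 := hl.ne'
  obtain ⟨κ, hκ, hκ2⟩ : ∃ κ : ℝ, 0 < κ ∧ 2 * C₃ ^ 2 ≤ κ * lam ^ 2 := by
    refine ⟨2 * C₃ ^ 2 / lam ^ 2 + 1, by positivity, ?_⟩
    rw [add_mul, div_mul_cancel₀ _ (by positivity)]
    nlinarith [sq_nonneg lam]
  obtain ⟨C, hC, hC2⟩ := rin_poly lam ((κ + Q) * (C₂ ^ 2 / (4 * lam)) + (κ + Q) * C₂ + C₁) hl (by positivity)
  refine ⟨κ, C, hκ, hC, ?_⟩
  intro a b q Lp Lq g ha hb hq hqQ hLq hLp hg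
  set C₄ := C₂ ^ 2 / (4 * lam) with hC₄
  have hC₄0 : 0 ≤ C₄ := by positivity
  have hC₄l : C₄ * (4 * lam) = C₂ ^ 2 := div_mul_cancel₀ _ (by positivity)
  -- the first term
  have e1 : lam * b ^ 2 - C₄ * a ^ 2 ≤ 2 * lam * b ^ 2 - C₂ * a * b := by
    have h := sq_nonneg (2 * lam * b - C₂ * a)
    have h' : 0 ≤ 4 * lam * (lam * b ^ 2 + C₄ * a ^ 2 - C₂ * a * b) := by
      have : 4 * lam * (lam * b ^ 2 + C₄ * a ^ 2 - C₂ * a * b) =
          4 * lam ^ 2 * b ^ 2 + C₄ * (4 * lam) * a ^ 2 - 4 * lam * C₂ * a * b := by ring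
      rw [this, hC₄l]
      nlinarith
    have h'' := nonneg_of_mul_nonneg_right h' (by positivity)
    linarith
  have e2 : lam * b ^ 2 - (C₄ * a ^ 2 + C₂ * a ^ 3 + C₂ * a) ≤ Lp := by
    have : C₂ * a * (b + a ^ 2 + 1) = C₂ * a * b + C₂ * a ^ 3 + C₂ * a := by ring
    linarith
  have hP : 0 ≤ C₄ * a ^ 2 + C₂ * a ^ 3 + C₂ * a := by positivity
  have e3 : κ * lam * b ^ 2 - (κ + Q) * (C₄ * a ^ 2 + C₂ * a ^ 3 + C₂ * a) ≤ (κ + q) * Lp := by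
    have s1 := mul_le_mul_of_nonneg_left e2 (show 0 ≤ κ + q by linarith)
    have s2 : 0 ≤ q * (lam * b ^ 2) := by positivity
    have s3 : 0 ≤ (Q - q) * (C₄ * a ^ 2 + C₂ * a ^ 3 + C₂ * a) := mul_nonneg (by linarith) hP
    nlinarith
  -- the second term
  have e4 : 2 * lam * a ^ 4 - C₁ * (a ^ 3 + a ^ 2) ≤ a ^ 2 * Lq := by
    have s1 := mul_le_mul_of_nonneg_left hLq (show 0 ≤ a ^ 2 by positivity)
    nlinarith
  -- the third term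
  have e5 : -(κ * lam * b ^ 2) - lam / 2 * a ^ 4 ≤ 2 * g := by
    have s1 := (abs_le.1 hg).1
    have s2 : 2 * (C₃ * a ^ 2 * b) ≤ κ * lam * b ^ 2 + lam / 2 * a ^ 4 := by
      have t1 := sq_nonneg (κ * lam * b - C₃ * a ^ 2)
      have t2 : C₃ ^ 2 * a ^ 4 ≤ κ * lam * (lam / 2 * a ^ 4) := by
        have : 0 ≤ a ^ 4 := by positivity
        nlinarith
      have t3 : 0 ≤ κ * lam * (κ * lam * b ^ 2 + lam / 2 * a ^ 4 - 2 * (C₃ * a ^ 2 * b)) := by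
        nlinarith
      have t4 := nonneg_of_mul_nonneg_right t3 (by positivity)
      linarith
    linarith
  have e6 := hC2 a ha
  have hκQ : 0 ≤ κ + Q := by linarith
  have r1 : 0 ≤ (κ + Q) * C₄ * (a ^ 3 + a) := by positivity
  have r2 : 0 ≤ (κ + Q) * C₂ * a ^ 2 := by positivity
  have r3 : 0 ≤ C₁ * a := by positivity
  nlinarith

end Pool.Agent.FUE.Rg
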