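import Pool.Agent.FUE.RgSt
import Pool.Agent.FUE.RgAaa
import Pool.Agent.FUE.RgAab
import Pool.Agent.FUE.RgAav
import Pool.Agent.FUE.RgAax
import Pool.Agent.FUE.RgBec
import Pool.Agent.FUE.RgBer
import Pool.Agent.FUE.RgBeu
import Pool.Agent.FUE.RgBq1
import Pool.Agent.FUE.RgBq2
import Pool.Agent.FUE.RgBq3
import Pool.Agent.FUE.RgBqb
import Pool.Agent.FUE.RgCal
import Pool.Agent.FUE.RgChn
import Pool.Agent.FUE.RgCnv
import Pool.Agent.FUE.RgCut
import Pool.Agent.FUE.RgEll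
import Pool.Agent.FUE.RgLpc
import Pool.Agent.FUE.RgMxp
import Pool.Agent.FUE.RgPeq
import Pool.Agent.FUE.RgPro
import Pool.Agent.FUE.RgReg
import Pool.Agent.FUE.RgRgv
import Pool.Agent.FUE.RgRin

/-!
# FUE, regularity: all modules together (helper41)
-/

set_option autoImplicit false

namespace Pool.Agent.FUE.Rg

theorem all_Cal : St_Cal := thm_Cal

theorem all_Chn : St_Chn := thm_Chn

theorem all_Lpc : St_Lpc := thm_Lpc all_Cal

theorem all_Cnv : St_Cnv := thm_Cnv all_Cal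

theorem all_Mxp : St_Mxp := thm_Mxp all_Cal

theorem all_Bqb : St_Bqb := thm_Bqb all_Cal all_Lpc (thm_Bq1 all_Lpc) (thm_Bq2 all_Cal all_Lpc)
  (thm_Bq3 all_Cal) thm_Rin

theorem all_Ber : St_Ber := thm_Ber all_Cal all_Bqb (thm_Cut all_Cal all_Lpc all_Mxp)

theorem all_Peq : St_Peq := thm_Peq all_Cal all_Chn all_Lpc

theorem all_Bec : St_Bec := thm_Bec all_Cal all_Chn all_Peq

theorem all_Beu : St_Beu := thm_Beu all_Cal all_Ber all_Bec

theorem all_Pro : St_Pro := thm_Pro all_Cal all_Peq all_Beu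

theorem all_Reg : St_Reg := thm_Reg all_Pro

theorem all_Rgv : St_Rgv := thm_Rgv all_Reg thm_Ell all_Cnv

theorem all_Aaa : St_Aaa := thm_Aaa thm_Aax

theorem all_Aab : St_Aab := thm_Aab all_Cal all_Aaa

theorem all_Aav : St_Aav := thm_Aav all_Cal all_Aab all_Cnv

end Pool.Agent.FUE.Rg
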