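import Pool.Agent.FUE.Base

/-!
# Fueter sections: statements, block A (profile, pointwise algebra)

Every statement is one module `Pool/Agent/FUE/<Name>.lean`, `theorem thm_<Name> (hyp) : St_<Name>`.
Paper: /team-store/FUE_paper.md, Sections 1 and 2.
-/

set_option autoImplicit false

open scoped Manifold ContDiff Matrix
open MeasureTheory

namespace Pool.Agent.FUE

/-- **[A01] positivity at the bolt.**  `al > 0` on `[0, oo)`: for `t = s^2 > 0` from `a_pos`, at `0`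
from `al_zero`.  `b > 0 > c` on `[0, oo)` from `b_pos`, `c_neg`, `be_zero`.  Derivatives: unfold
`Profile.a` etc. in `ode_a`, `ode_b`, `ode_c`.  The second half: `al, b, c` are continuous, so on the
compact interval `[0, T]` they are bounded away from zero and bounded. -/
def St_A01 : Prop :=
  (∀ (pr : Profile) (t : ℝ), 0 ≤ t → 0 < pr.al t) ∧
  (∀ (pr : Profile) (s : ℝ), 0 ≤ s → 0 < pr.b s ∧ pr.c s < 0 ∧ 0 ≤ pr.a s ∧
    0 < pr.be (s ^ 2) - s * pr.ka (s ^ 2) ∧ 0 < pr.be (s ^ 2) + s * pr.ka (s ^ 2)) ∧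
  (∀ (pr : Profile) (s : ℝ), 0 < s → 0 < pr.a s ∧
    HasDerivAt pr.a ((pr.a s ^ 2 - (pr.b s - pr.c s) ^ 2) / (2 * pr.b s * pr.c s)) s ∧
    HasDerivAt pr.b ((pr.b s ^ 2 - (pr.c s - pr.a s) ^ 2) / (2 * pr.c s * pr.a s)) s ∧
    HasDerivAt pr.c ((pr.c s ^ 2 - (pr.a s - pr.b s) ^ 2) / (2 * pr.a s * pr.b s)) s) ∧
  (∀ (pr : Profile) (T : ℝ), ∃ δ : ℝ, 0 < δ ∧ ∀ s : ℝ, 0 ≤ s → s ≤ T →
    δ ≤ pr.al (s ^ 2) ∧ pr.al (s ^ 2) ≤ δ⁻¹ ∧ δ ≤ pr.b s ∧ pr.b s ≤ δ⁻¹ ∧ δ ≤ -pr.c s ∧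
      -pr.c s ≤ δ⁻¹)

/-- **[A02] inequalities of the Atiyah-Hitchin profile** (paper, Section 1).  Put `X = b-c-a`,
`Y = a-b-c`, `Z = a+b-c`, `c0 = 1/(-2abc) > 0`.  The equations are `a' = c0 a X Z`, `b' = c0 b Y Z`,
`c' = -c0 c X Y`.  Hence `X' + c0 (aZ - cY) X = c0 b Y Z`, `Y' + c0 (bZ - cX) Y = c0 a X Z`,
`(b-a)' = -c0 Z (a+b+c) (b-a)`, `(a+b+c)' = c0 (aXZ + bYZ - cXY)`.  As `s -> 0+`: `X -> 2 pi`,
`Y / s = al - 2 ka -> 1`, `b - a -> pi`, `a+b+c -> 0` (all functions are continuous at `0`).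
So `X, Y > 0` on some `(0, s1)`.  Let `s0 < s1` and suppose `X` or `Y` has a zero in `[s0, oo)`; let
`S` be the infimum of the zeros of `X Y` on `[s0, oo)`: `X, Y > 0` on `[s0, S)`, `X Y = 0` at `S`.
On `[s0, S]` the coefficients `p = c0 (aZ - cY)`, `q = c0 (bZ - cX)` are continuous, hence bounded
above by a constant `C`, and `X' >= -C X`, `Y' >= -C Y` there, so `X e^{Cs}`, `Y e^{Cs}` are monotone
on `[s0, S]`: `X(S), Y(S) > 0`, contradiction.  Then `a+b+c` is strictly increasing with limit `0`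
at `0`: positive.  `b - a`: `(b-a) e^{C s}` is monotone as long as `b - a > 0` (same argument), so
`b - a > 0` on `(0, oo)`. -/
def St_A02 : Prop :=
  ∀ (pr : Profile) (s : ℝ), 0 < s → pr.a s < pr.b s ∧ 0 < pr.b s - pr.c s - pr.a s ∧
    0 < pr.a s - pr.b s - pr.c s ∧ 0 < pr.a s + pr.b s - pr.c s ∧ 0 < pr.a s + pr.b s + pr.c s

/-- **[A03] growth.**  From [A02]: `a' = X Z / (-2 b c) >= 1/2` because `X > -c` (as `a < b`) and
`Z > b`; `a 0 = 0`, `a` continuous: `a s >= s / 2`.  `(b-a)' <= 0`, `c' > 0`, `b' > 0` on `(0, oo)`,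
all three continuous on `[0, oo)` with values `pi, -pi, pi` at `0`. -/
def St_A03 : Prop :=
  ∀ (pr : Profile) (s : ℝ), 0 ≤ s → s / 2 ≤ pr.a s ∧ pr.b s - pr.a s ≤ Real.pi ∧
    -Real.pi ≤ pr.c s ∧ pr.c s < 0 ∧ Real.pi ≤ pr.b s ∧ pr.a s ≤ pr.b s

/-- **[A04] the projections at `P = R D_s Rᵀ`.**  `P^2 - s^2 = R diag((2+s^2)^2 - s^2, 0, 0) Rᵀ`,
`lam^2 - tt = (2+s^2)^2 - s^2 > 0`.  Also `lam^2 - tt = tt^2 + 3 tt + 4 > 0` for every `P : V9`. -/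
def St_A04 : Prop :=
  (∀ P : V9, 0 < (lam P) ^ 2 - tt P) ∧
  ∀ (P : V9) (R : Matrix (Fin 3) (Fin 3) ℝ) (s : ℝ), IsRot R → toM P = R * Dg s * Rᵀ →
    lam P = 2 + s ^ 2 ∧ tt P = s ^ 2 ∧ ell P = R * Matrix.diagonal ![1, 0, 0] * Rᵀ ∧
      Zz P = R * Matrix.diagonal ![0, s, -s] * Rᵀ ∧ Pp P = R * Matrix.diagonal ![0, 1, 1] * Rᵀ

/-- **[A05] tangent vectors.**  With [A04], `K = Rᵀ H R`: `Tan` says `K` symmetric,
`K22 + K33 = 0`, `K11 = s (K22 - K33)`, i.e. `K = K22 T0 + K23 T1 - K13/(2+s^2+s) T2 +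
K12/(2+s^2-s) T3` (`2+s^2-s > 0`). The coefficients are unique (entries of `K`). -/
def St_A05 : Prop :=
  ∀ (P : V9) (R : Matrix (Fin 3) (Fin 3) ℝ) (s : ℝ), IsRot R → 0 ≤ s → toM P = R * Dg s * Rᵀ →
    (∀ H : V9, Tan P H ↔ ∃ h : Fin 4 → ℝ, toM H = R * (∑ k, h k • Tb s k) * Rᵀ) ∧
    ∀ h h' : Fin 4 → ℝ, R * (∑ k, h k • Tb s k) * Rᵀ = R * (∑ k, h' k • Tb s k) * Rᵀ → h = h'

/-- **[A06] derivatives are tangent.**  On `AH`: `toM P` symmetric, `tr P^2 = lam^2 + 2 tt`,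
`tr P^3 = lam^3`.  Differentiate along `v`: with `H` the derivative and `τ = tr H`:
`2 tr(PH) = 2 lam τ + 2 τ`, `3 tr(P^2 H) = 3 lam^2 τ`.  So `tr(ell H) = (lam^2 τ - tt τ)/(lam^2-tt)
= τ`, i.e. `tr(Pp H) = 0`, and `tr(Zz H) = tr(PH) - lam tr(ell H) = τ = tr(ell H)`. -/
def St_A06 : Prop :=
  ∀ (u : E3 → V9) (x : E3), DifferentiableAt ℝ u x → (∀ᶠ y in nhds x, u y ∈ AH) →
    ∀ v : E3, Tan (u x) (fderiv ℝ u x v)

/-- **[A07] `theta` is smooth and linear in `H`, and equivariant.**  Smooth: `th` is built from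
polynomials in the entries, `(lam^2 - tt)⁻¹` ([A04]) and `al, be, ka` of `tt P`.  Linearity: clear.
Equivariance: `lam, tt` are invariant, `ell, Zz, Pp, Xi` are conjugated, and
`ax (R A Rᵀ) = R (ax A)` for `A` antisymmetric, `R` a rotation. -/
def St_A07 : Prop :=
  (∀ (pr : Profile) (l : Fin 3), ContDiff ℝ ∞ (fun p : V9 × V9 => th p.1 pr (toM p.2) l)) ∧
  (∀ (pr : Profile) (P H H' : V9) (r : ℝ) (l : Fin 3),
    th P pr (toM (H + r • H')) l = th P pr (toM H) l + r * th P pr (toM H') l) ∧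
  ∀ (pr : Profile) (R : Matrix (Fin 3) (Fin 3) ℝ), IsRot R → ∀ (P Q H K : V9),
    (toM P)ᵀ = toM P → (toM H)ᵀ = toM H → toM Q = R * toM P * Rᵀ → toM K = R * toM H * Rᵀ → th Q pr (toM K) = R.mulVec (th P pr (toM H))

/-- **[A08] values of `theta`** (paper (TH)).  By [A07] it is enough to take `R = 1`, or compute
directly with [A04]: with `K = sum h_k T_k` one has `Pp K Pp = [[0,0,0],[0,h0,h1],[0,h1,-h0]]`,
`Z B - B Z = 2 s h1 (E_23 - E_32)`, `ax` of it `(-2 s h1, 0, 0)`,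
`Xi = [[0,0,0],[h3,0,0],[-h2,0,0]]`, `vv = (0, h2, h3)`. -/
def St_A08 : Prop :=
  ∀ (pr : Profile) (P H : V9) (R : Matrix (Fin 3) (Fin 3) ℝ) (s : ℝ) (h : Fin 4 → ℝ),
    IsRot R → 0 ≤ s → toM P = R * Dg s * Rᵀ → toM H = R * (∑ k, h k • Tb s k) * Rᵀ →
    th P pr (toM H) = R.mulVec ![s * pr.al (s ^ 2) * pr.ka (s ^ 2) * h 1 / 2,
      pr.b s * (pr.c s + pr.a s) * h 2 / 2, pr.c s * (pr.a s + pr.b s) * h 3 / 2]

/-- The hyperkaehler forms at `D_s` in the basis `Tb s`. -/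
noncomputable def omh (pr : Profile) (s : ℝ) (h h' : Fin 4 → ℝ) : Fin 3 → ℝ :=
  ![pr.al (s ^ 2) / 2 * (h 0 * h' 1 - h 1 * h' 0) + pr.b s * pr.c s * (h 2 * h' 3 - h 3 * h' 2),
    pr.b s * (h 0 * h' 2 - h 2 * h' 0) + pr.al (s ^ 2) * pr.c s / 2 * (h 3 * h' 1 - h 1 * h' 3),
    pr.c s * (h 0 * h' 3 - h 3 * h' 0) + pr.al (s ^ 2) * pr.b s / 2 * (h 1 * h' 2 - h 2 * h' 1)]

/-- **[A09] smooth rotation valued and scalar functions with prescribed first derivatives, and the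
chain rule computation** (paper (OM)).  Let `R : E3 → Matrix`, `s : E3 → ℝ` be `C^2` near `x`
(entries of `R`), `R` rotation valued and `0 ≤ s` near `x`, `u = R D_s Rᵀ`.  With `Om j` the vector
`ax (Rᵀ ∂_j R)` one has `∂_j R = R (hat (Om j))` (`Rᵀ R = 1` gives antisymmetry),
`∂_j u = R (sum h_k T_k) Rᵀ`, `h = (∂_j s, 2 s Om1, Om2, Om3)` (`[hat w, D_s] = 2 s w1 T1 + w2 T2
+ w3 T3`), hence by [A08] `theta(u)(∂_j u) = (1/2) R (Q Om j)`, `Q = (a(b+c), b(c+a), c(a+b))`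
(`a (b+c) = 2 s^2 al ka`).  `∂_a Om_b - ∂_b Om_a = -Om_a × Om_b` (`∂_a ∂_b R` symmetric).  Hence
`∂_a (theta(u)(∂_b u)) - ∂_b (theta(u)(∂_a u)) = (1/2) R (Om_a × Q Om_b - Om_b × Q Om_a -
Q (Om_a × Om_b) + Q' (∂_a s Om_b - ∂_b s Om_a))`, and for `s(x) > 0` the first component of the
bracket is `(Q2+Q3-Q1)(Om_a2 Om_b3 - Om_a3 Om_b2) + Q1' (∂_a s Om_b1 - ∂_b s Om_a1)`,
`Q2 + Q3 - Q1 = 2 b c`, `Q1' = 2 a` (from the equations; cyclic for the others).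
Statement: the formula for `s(x) > 0`. -/
def St_A09 : Prop :=
  ∀ (pr : Profile) (R : E3 → Matrix (Fin 3) (Fin 3) ℝ) (s : E3 → ℝ) (u : E3 → V9) (x : E3),
    (∀ i j, ContDiffAt ℝ 2 (fun y => R y i j) x) → ContDiffAt ℝ 2 s x →
    (∀ᶠ y in nhds x, IsRot (R y) ∧ 0 < s y ∧ toM (u y) = R y * Dg (s y) * (R y)ᵀ) →
    ∃ h : Fin 3 → Fin 4 → ℝ,
      (∀ j, toM (du u x j) = R x * (∑ k, h j k • Tb (s x) k) * (R x)ᵀ) ∧
      (∀ j, h j 0 = fderiv ℝ s x (bs j)) ∧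
      (∀ j, Matrix.of (fun i l => fderiv ℝ (fun y => R y i l) x (bs j)) =
        R x * hat ![h j 1 / (2 * s x), h j 2, h j 3]) ∧
      ∀ a b l, fderiv ℝ (tu pr u l b) x (bs a) - fderiv ℝ (tu pr u l a) x (bs b) =
        (R x).mulVec (omh pr (s x) (h a) (h b)) l

/-- **[A10] `d theta = omega` on tangent vectors** (paper (OM)).  From [A09] for `s > 0`: given `P =
R0 D_{s0} R0ᵀ`, `s0 > 0`, and coefficients `h, h'`, put `w = (h1/(2 s0), h2, h3)`, `w'` likewise;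
choose `R(y) = R0 * C(y_0 w + y_1 w')` with the Cayley type (or exponential) map `C` rotation
valued, smooth, `C(0) = 1`, derivative `hat`; `s(y) = s0 + y_0 h_0 + y_1 h'_0`,
`u = R D_s Rᵀ`: `∂_0 u = H`, `∂_1 u = H'` at `0`.  The chain rule ([F01] or directly) gives
`om (u 0) l (∂_0 u)(∂_1 u) = ∂_0 (t_l1) - ∂_1 (t_l0)`.  For `s = 0`: both sides are continuous along
`P_ε = R D_ε Rᵀ`, `H_ε = R (sum h_k T_k(ε)) Rᵀ` as `ε -> 0+` (`om` is continuous in `(P, H, H')` by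
[A07]; `al, be, ka` continuous). -/
def St_A10 : Prop :=
  ∀ (pr : Profile) (P H H' : V9) (R : Matrix (Fin 3) (Fin 3) ℝ) (s : ℝ) (h h' : Fin 4 → ℝ),
    IsRot R → 0 ≤ s → toM P = R * Dg s * Rᵀ → toM H = R * (∑ k, h k • Tb s k) * Rᵀ →
    toM H' = R * (∑ k, h' k • Tb s k) * Rᵀ →
    ∀ l, om P pr l H H' = R.mulVec (omh pr s h h') l

/-- **[A11] linear algebra of the complex structures.**  `<h,h'> = h0 h0' + (al/2)^2 h1 h1' +
b^2 h2 h2' + c^2 h3 h3'` and `omh_i(h,h') = <I_i h, h'>`, `I_i` the matrices `Ic`; `I_1 I_2 = I_3`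
etc., `I_i^2 = -1`, `<I_i h, I_i h'> = <h, h'>`.  Finite computations with `al, b, c ≠ 0`. -/
def St_A11 : Prop :=
  ∀ (pr : Profile) (s : ℝ), 0 ≤ s →
    let ip : (Fin 4 → ℝ) → (Fin 4 → ℝ) → ℝ := fun h h' => h 0 * h' 0 +
      (pr.al (s ^ 2) / 2) ^ 2 * (h 1 * h' 1) + pr.b s ^ 2 * (h 2 * h' 2) + pr.c s ^ 2 * (h 3 * h' 3)
    (∀ i h h', omh pr s h h' i = ip ((Ic pr s i).mulVec h) h') ∧
    (∀ i h h', ip ((Ic pr s i).mulVec h) h' = -ip h ((Ic pr s i).mulVec h')) ∧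
    (∀ i, Ic pr s i * Ic pr s i = -1) ∧ (∀ i, Ic pr s i * Ic pr s (i + 1) = Ic pr s (i + 2)) ∧
    (∀ i, Ic pr s (i + 1) * Ic pr s i = -Ic pr s (i + 2))

/-- **[A12] intrinsic form of the Fueter equation** (paper (FC)), independent of `R`.
`sum_j om_j(P)(H_j, H') = sum_j sum_i R_ji omh_i(h_j, h') = <sum_j sum_i R_ji I_i h_j, h'>` by [A10],
[A11]; the form `<,>` is nondegenerate.  Use [A05] for the coefficients.  In particular the
equation holds for EVERY representation `P = R D_s Rᵀ`, `0 ≤ s` (last part). -/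
def St_A12 : Prop :=
  (∀ (pr : Profile) (P : V9) (H : Fin 3 → V9), FueterPt pr (toM P) (fun j => toM (H j)) ↔
    P ∈ AH ∧ (∀ j, Tan P (H j)) ∧ ∀ H' : V9, Tan P H' → ∑ j, om P pr j (H j) H' = 0) ∧
  ∀ (pr : Profile) (P : V9) (H : Fin 3 → V9) (R : Matrix (Fin 3) (Fin 3) ℝ) (s : ℝ)
    (h : Fin 3 → Fin 4 → ℝ), FueterPt pr (toM P) (fun j => toM (H j)) → IsRot R → 0 ≤ s →
    toM P = R * Dg s * Rᵀ → (∀ j, toM (H j) = R * (∑ k, h j k • Tb s k) * Rᵀ) →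
    ∑ j, ∑ i, R j i • (Ic pr s i).mulVec (h j) = 0

/-- **[A13] stress-energy tensor** (paper (G)).  Let `H` be a Fueter triple at `P = R D_s Rᵀ` with
coefficients `h j`; body vectors `g i = sum_j R_ji h_j` satisfy `sum_i I_i g_i = 0`, i.e.
`g_i = I_{i+2} g_{i+1} - I_{i+1} g_{i+2}` (multiply by `I_i`).  So `<g_i, g_l> =
omh_{i+2}(g_{i+1}, g_l) - omh_{i+1}(g_{i+2}, g_l)`, which gives `omh_l(g_{i+1}, g_{i+2}) =
<g_i, g_l> - (1/2) δ_il sum <g_k, g_k>` (for `i = l`: sum of the three identities; for `i ≠ l`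
directly).  Both sides transform by `R` (cofactor of `R` is `R`), hence `wf l i = <h_i, h_l> -
(1/2) δ_il sum <h_k, h_k>` and `Gf i l = <h_i, h_l>`.  The norm of `H = R (sum h_k T_k) Rᵀ` in `V9`
is `‖H‖^2 = (4 s^2 + 2) h0^2 + 2 h1^2 + 2 (2+s^2+s)^2 h2^2 + 2 (2+s^2-s)^2 h3^2`, comparable with
`<h,h>` for `s ≤ T` by [A01]. `|theta(P)(H)| ≤ C ‖H‖` for tangent `H` by [A08]. -/
def St_A13 : Prop :=
  ∀ (pr : Profile) (S : ℝ), ∃ c C : ℝ, 0 < c ∧ 0 < C ∧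
    (∀ (P : V9) (H : Fin 3 → V9), lam P ≤ S → FueterPt pr (toM P) (fun j => toM (H j)) →
      (∀ i l, Gf P pr H i l = Gf P pr H l i) ∧
      (∀ i l, wf P pr H l i = Gf P pr H i l - (if i = l then (∑ k, Gf P pr H k k) / 2 else 0)) ∧
      (∀ v : Fin 3 → ℝ, c * ‖∑ i, v i • H i‖ ^ 2 ≤ ∑ i, ∑ l, v i * v l * Gf P pr H i l) ∧
      ∀ v : Fin 3 → ℝ, ∑ i, ∑ l, v i * v l * Gf P pr H i l ≤ C * ‖∑ i, v i • H i‖ ^ 2) ∧
    ∀ (P H : V9), P ∈ AH → lam P ≤ S → Tan P H → ∀ l, |th P pr (toM H) l| ≤ C * ‖H‖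

/-- **[A14] closedness.**  `FueterPt` passes to limits.  From [A12]: `AH` is closed (compactness of
the rotation group: if `P_n = R_n D_{s_n} R_nᵀ -> P` then `s_n^2 = lam P_n - 2` converges, take a
convergent subsequence of `R_n`), `Tan` is a closed condition in `(P, H)` (`ell, Zz, Pp` are
continuous), and for tangent `H'` at `P = R D_s Rᵀ` approximate by tangent `H'_n` at `P_n` (along
the subsequence, `H'_n = R_n (sum h_k T_k(s_n)) R_nᵀ`), `om` continuous. Alternatively directly: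
`R_n, s_n, h_n` converge along a subsequence (`h_n` = entries of `R_nᵀ H_n R_n`). -/
def St_A14 : Prop :=
  IsClosed AH ∧ ∀ (pr : Profile) (P : ℕ → V9) (H : ℕ → Fin 3 → V9) (P' : V9) (H' : Fin 3 → V9),
    (∀ n, FueterPt pr (toM (P n)) (fun j => toM (H n j))) →
    Filter.Tendsto P Filter.atTop (nhds P') →
    (∀ j, Filter.Tendsto (fun n => H n j) Filter.atTop (nhds (H' j))) →
    FueterPt pr (toM P') (fun j => toM (H' j))

/-- **[A15] smooth division.**  `g(t) = ∫_0^1 f'(t τ) dτ` for `f` smooth with `f 0 = 0`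
(smoothness of parameter integrals on a compact interval), applied to `f(t) = 1 - 4 / al(t)^2`
near `[0, T]`: first replace `al` by a smooth function without zeros which agrees with `al` on
`[0, T]` (multiply by a cut-off: `al1 = χ al + (1 - χ)` with `χ = 1` on a neighbourhood `[−η/2, T+1]`
inside the open set where `al > 0`, `χ = 0` outside a larger interval in that set, `0 ≤ χ ≤ 1`). -/
def St_A15 : Prop :=
  ∀ (pr : Profile) (T : ℝ), 0 < T → ∃ g : ℝ → ℝ, ContDiff ℝ ∞ g ∧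
    ∀ t, 0 ≤ t → t ≤ T → t * g t = 1 - 4 / (pr.al t) ^ 2

/-- **[A16] smooth complex structures** (paper (J)).  For every `S` there are globally smooth
`J k : V9 → (V9 →L[ℝ] V9)` such that for `P ∈ AH`, `lam P ≤ S`, every Fueter triple satisfies
`H_i = J_{i+2}(P) H_{i+1} - J_{i+1}(P) H_{i+2}`.  Proof: `J k P H = G(P)(φ)`, `φ ∈ V9` the
gradient of `H' ↦ om P k H H'` (`φ = sum_ij om P k H (E_ij) E_ij`, smooth), symmetrised, and
`G(P)(φ) = 4 t φ11 ell + 2 φ11 Z + 2 <B,Z> ell + (8/al^2) B0 + g(t) <B,Z> Z + (N + Nᵀ)`,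
`φ11 = tr(ell φ)`, `B = Pp φ Pp`, `B0 = B - (tr B/2) Pp`, `<B,Z> = tr(B Z)`, `g` of [A15],
`N = h(Z) Pp φ ell`, `h(Z) = 2 (lam - Z)^2 (-be - ka Z)^2 / (be^2 - t ka^2)^2` (on the image of
`Pp`, where `Z^2 = t`); all coefficients (`1/al^2`, `1/(be^2 - t ka^2)^2`, functions of `t = tt P`)
are replaced by globally smooth functions of `t` which agree on `[0, T]`, `T = S - 2` (cut-off as in
[A15]).  At `P = R D_s Rᵀ` one checks `G(P) φ = <φ,n> n + (4/al^2) <φ,T1> T1 + b^-2 <φ,K2> K2 +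
c^-2 <φ,K3> K3`, `<,>` Frobenius, so `<G φ, H'>_g = <φ, H'>` for tangent `H'`, hence
`J_k = R (sum_i R_ki I_i) Rᵀ` in coordinates by [A10], [A11].  Then the identity is
`g_i = I_{i+2} g_{i+1} - I_{i+1} g_{i+2}` ([A13]) rotated. -/
def St_A16 : Prop :=
  ∀ (pr : Profile) (S : ℝ), ∃ J : Fin 3 → V9 → (V9 →L[ℝ] V9), (∀ k, ContDiff ℝ ∞ (J k)) ∧
    ∀ (P : V9) (H : Fin 3 → V9), lam P ≤ S → FueterPt pr (toM P) (fun j => toM (H j)) →
      ∀ i, H i = J (i + 2) P (H (i + 1)) - J (i + 1) P (H (i + 2))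

end Pool.Agent.FUE
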