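import Pool.Agent.FUE.RgSt
import Pool.Agent.FUE.StA

/-!
# FUE SEC: the second order equation of Fueter sections (helper41)
-/

set_option autoImplicit false

open scoped ContDiff Topology Matrix
open Metric Filter

namespace Pool.Agent.FUE.Rg

/-- index type of the coefficient functions -/
abbrev KI : Type := (Fin 3 × Fin 3) ⊕ (Fin 3 × (Fin 3 × Fin 3))

/-- the components of the frame vectors and of the connection matrices -/
def cf (B : Fin 3 → E3 → E3) (W : Fin 3 → E3 → V9) : KI → E3 → ℝ :=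
  Sum.elim (fun q y => B q.1 y q.2) (fun q y => W q.1 y q.2)

/-- the space of coefficients, values and first derivatives -/
abbrev YY : Type := (Option (Fin 3) × KI → ℝ) × (Fin 3 × Fin 3 → ℝ) × (Fin 3 → Fin 3 × Fin 3 → ℝ)

/-- SEC. The second order equation. -/
def St_Sec : Prop := ∀ (pr : Profile) (S : ℝ), ∃ F : Fin 3 × Fin 3 → YY → ℝ,
  (∀ i, ContDiff ℝ ∞ (F i)) ∧
  ∀ (y₀ : E3) (r : ℝ) (B : Fin 3 → E3 → E3) (W : Fin 3 → E3 → V9) (u : E3 → V9),
    (∀ a, ContDiffOn ℝ ∞ (B a) (ball y₀ r)) → (∀ a, ContDiffOn ℝ ∞ (W a) (ball y₀ r)) →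
    LocF pr (ball y₀ r) B W u → (∀ x ∈ ball y₀ r, lam (u x) ≤ S) →
    ∀ x ∈ ball y₀ r, ∀ i, Lap (fun a j y => B a y j) (fun y => u y i) x =
      F i (fun s => pro (cf B W) s x, fun j => u x j, fun k j => pd k (fun y => u y j) x)

/-- the bracket of matrices on `V9` -/
noncomputable def sec_b0 (X Y : V9) : V9 := ofM (toM X * toM Y - toM Y * toM X)

theorem sec_toM_ofM (A : Matrix (Fin 3) (Fin 3) ℝ) : toM (ofM A) = A := by
  ext i j
  rfl

theorem sec_ofM_toM (X : V9) : ofM (toM X) = X := by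
  ext i
  rfl

theorem sec_toM_inj {X Y : V9} (h : toM X = toM Y) : X = Y := by
  rw [← sec_ofM_toM X, h, sec_ofM_toM]

theorem sec_toM_add (X Y : V9) : toM (X + Y) = toM X + toM Y := by
  ext i j
  rfl

theorem sec_toM_smul (c : ℝ) (X : V9) : toM (c • X) = c • toM X := by
  ext i j
  rfl

theorem sec_ofM_add (X Y : Matrix (Fin 3) (Fin 3) ℝ) : ofM (X + Y) = ofM X + ofM Y := by
  ext i
  rfl

theorem sec_ofM_smul (c : ℝ) (X : Matrix (Fin 3) (Fin 3) ℝ) : ofM (c • X) = c • ofM X := by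
  ext i
  rfl

/-- the bracket as a bilinear map -/
noncomputable def sec_b1 : V9 →ₗ[ℝ] V9 →L[ℝ] V9 where
  toFun X := LinearMap.toContinuousLinearMap
    { toFun := fun Y => sec_b0 X Y
      map_add' := fun Y Z => by
        unfold sec_b0
        rw [sec_toM_add, ← sec_ofM_add]
        congr 1
        rw [Matrix.mul_add, Matrix.add_mul]
        abel
      map_smul' := fun c Y => by
        unfold sec_b0
        rw [sec_toM_smul, RingHom.id_apply, ← sec_ofM_smul]
        congr 1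
        rw [Matrix.mul_smul, Matrix.smul_mul, smul_sub] }
  map_add' X Z := by
    ext1 Y
    change sec_b0 (X + Z) Y = sec_b0 X Y + sec_b0 Z Y
    unfold sec_b0
    rw [sec_toM_add, ← sec_ofM_add]
    congr 1
    rw [Matrix.mul_add, Matrix.add_mul]
    abel
  map_smul' c X := by
    ext1 Y
    change sec_b0 (c • X) Y = c • sec_b0 X Y
    unfold sec_b0
    rw [sec_toM_smul, ← sec_ofM_smul]
    congr 1
    rw [Matrix.mul_smul, Matrix.smul_mul, smul_sub]

/-- the bracket as a continuous bilinear map -/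
noncomputable def sec_br : V9 →L[ℝ] V9 →L[ℝ] V9 := LinearMap.toContinuousLinearMap sec_b1

theorem sec_br_apply (X Y : V9) : sec_br X Y = ofM (toM X * toM Y - toM Y * toM X) := rfl

section expr

variable (J : Fin 3 → V9 → (V9 →L[ℝ] V9))

noncomputable def fU (y : YY) : V9 := WithLp.toLp 2 y.2.1

noncomputable def fP (j : Fin 3) (y : YY) : V9 := WithLp.toLp 2 (y.2.2 j)

noncomputable def fE (a : Fin 3) (y : YY) : V9 := ∑ j, y.1 (none, Sum.inl (a, j)) • fP j y

noncomputable def fW (a : Fin 3) (y : YY) : V9 := WithLp.toLp 2 fun q => y.1 (none, Sum.inr (a, q))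

noncomputable def fdW (a b : Fin 3) (y : YY) : V9 :=
  ∑ j, y.1 (none, Sum.inl (a, j)) • (WithLp.toLp 2 fun q => y.1 (some j, Sum.inr (b, q)) : V9)

noncomputable def fG (a b : Fin 3) (y : YY) : V9 :=
  ∑ j, (∑ i, y.1 (none, Sum.inl (a, i)) * y.1 (some i, Sum.inl (b, j))) • fP j y

noncomputable def fH (a : Fin 3) (y : YY) : V9 := fE a y + sec_br (fW a y) (fU y)

noncomputable def fT (a b : Fin 3) (y : YY) : V9 :=
  sec_br (fdW a b y) (fU y) + sec_br (fW b y) (fE a y)

noncomputable def fF (y : YY) : V9 :=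
  ∑ i, (fderiv ℝ (J (i + 2)) (fU y) (fE i y) (fH (i + 1) y) -
      fderiv ℝ (J (i + 1)) (fU y) (fE i y) (fH (i + 2) y) - fG i i y - fT i i y) +
    ∑ k, J k (fU y) (fG (k + 1) (k + 2) y - fG (k + 2) (k + 1) y + fT (k + 1) (k + 2) y -
      fT (k + 2) (k + 1) y)

theorem sec_sm_fU : ContDiff ℝ ∞ fU := by unfold fU; fun_prop

theorem sec_sm_fP (j : Fin 3) : ContDiff ℝ ∞ (fP j) := by unfold fP; fun_prop

theorem sec_sm_fE (a : Fin 3) : ContDiff ℝ ∞ (fE a) := by
  unfold fE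
  refine ContDiff.sum fun j _ => ?_
  have := sec_sm_fP j
  fun_prop

theorem sec_sm_fW (a : Fin 3) : ContDiff ℝ ∞ (fW a) := by unfold fW; fun_prop

theorem sec_sm_fdW (a b : Fin 3) : ContDiff ℝ ∞ (fdW a b) := by
  unfold fdW
  refine ContDiff.sum fun j _ => ?_
  fun_prop

theorem sec_sm_fG (a b : Fin 3) : ContDiff ℝ ∞ (fG a b) := by
  unfold fG
  refine ContDiff.sum fun j _ => ?_
  have h1 := sec_sm_fP j
  have h2 : ContDiff ℝ ∞ fun y : YY =>
      ∑ i, y.1 (none, Sum.inl (a, i)) * y.1 (some i, Sum.inl (b, j)) := by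
    refine ContDiff.sum fun i _ => ?_
    fun_prop
  exact h2.smul h1

theorem sec_sm_br (f g : YY → V9) (hf : ContDiff ℝ ∞ f) (hg : ContDiff ℝ ∞ g) :
    ContDiff ℝ ∞ fun y => sec_br (f y) (g y) :=
  (sec_br.contDiff.comp hf).clm_apply hg

theorem sec_sm_fH (a : Fin 3) : ContDiff ℝ ∞ (fH a) := by
  unfold fH
  exact (sec_sm_fE a).add (sec_sm_br _ _ (sec_sm_fW a) sec_sm_fU)

theorem sec_sm_fT (a b : Fin 3) : ContDiff ℝ ∞ (fT a b) := by
  unfold fT
  exact (sec_sm_br _ _ (sec_sm_fdW a b) sec_sm_fU).add (sec_sm_br _ _ (sec_sm_fW b) (sec_sm_fE a))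

theorem sec_sm_fF (hJ : ∀ k, ContDiff ℝ ∞ (J k)) : ContDiff ℝ ∞ (fF J) := by
  unfold fF
  have hJ' : ∀ k, ContDiff ℝ ∞ (fderiv ℝ (J k)) := fun k =>
    (hJ k).fderiv_right (by simp)
  refine ContDiff.add (ContDiff.sum fun i _ => ?_) (ContDiff.sum fun k _ => ?_)
  · have a1 := ((((hJ' (i + 2)).comp sec_sm_fU).clm_apply (sec_sm_fE i)).clm_apply
      (sec_sm_fH (i + 1)))
    have a2 := ((((hJ' (i + 1)).comp sec_sm_fU).clm_apply (sec_sm_fE i)).clm_apply
      (sec_sm_fH (i + 2)))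
    exact ((a1.sub a2).sub (sec_sm_fG i i)).sub (sec_sm_fT i i)
  · exact ((hJ k).comp sec_sm_fU).clm_apply ((((sec_sm_fG (k + 1) (k + 2)).sub
      (sec_sm_fG (k + 2) (k + 1))).add (sec_sm_fT (k + 1) (k + 2))).sub (sec_sm_fT (k + 2) (k + 1)))

end expr

/-- A linear map in coordinates. -/
theorem sec_lin {V : Type} [NormedAddCommGroup V] [NormedSpace ℝ V] (L : E3 →L[ℝ] V) (v : E3) :
    L v = ∑ j, v j • L (EuclideanSpace.single j 1) := by
  have h : v = ∑ j, v j • (EuclideanSpace.single j (1 : ℝ) : E3) := by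
    ext i
    simp [Finset.sum_apply, Pi.single_apply]
  conv_lhs => rw [h]
  rw [map_sum]
  simp only [map_smul]

theorem sec_pd {ι : Type} [Fintype ι] (f : E3 → EuclideanSpace ℝ ι) (x : E3)
    (hf : DifferentiableAt ℝ f x) (j : Fin 3) (q : ι) :
    pd j (fun y => f y q) x = (fderiv ℝ f x (EuclideanSpace.single j 1)) q := by
  have h := ((EuclideanSpace.proj q : EuclideanSpace ℝ ι →L[ℝ] ℝ).hasFDerivAt
    (x := f x)).comp x hf.hasFDerivAt
  unfold pd
  have h2 : HasFDerivAt (fun y => f y q)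
      ((EuclideanSpace.proj q : EuclideanSpace ℝ ι →L[ℝ] ℝ).comp (fderiv ℝ f x)) x := h
  rw [h2.fderiv]
  rfl

theorem sec_pdpd (u : E3 → V9) (p : E3) (r : ℝ) (hu : ContDiffOn ℝ ∞ u (ball p r)) (x : E3)
    (hx : x ∈ ball p r) (i j : Fin 3) (q : Fin 3 × Fin 3) :
    pd i (pd j fun y => u y q) x =
      (fderiv ℝ (fderiv ℝ u) x (EuclideanSpace.single i 1) (EuclideanSpace.single j 1)) q := by
  have hb : ball p r ∈ 𝓝 x := isOpen_ball.mem_nhds hx
  have hd : ∀ y ∈ ball p r, DifferentiableAt ℝ u y := fun y hy =>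
    (hu.contDiffAt (isOpen_ball.mem_nhds hy)).differentiableAt (by simp)
  have hS : DifferentiableAt ℝ (fderiv ℝ u) x :=
    ((hu.contDiffAt hb).fderiv_right (m := ∞) (by simp)).differentiableAt (by simp)
  have h1 : pd j (fun y => u y q) =ᶠ[𝓝 x]
      fun y => (fderiv ℝ u y (EuclideanSpace.single j 1)) q := by
    filter_upwards [hb] with y hy
    exact sec_pd u y (hd y hy) j q
  have h2 : HasFDerivAt (fun y => fderiv ℝ u y (EuclideanSpace.single j 1))
      ((fderiv ℝ (fderiv ℝ u) x).flip (EuclideanSpace.single j 1)) x := by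
    have h3 := hS.hasFDerivAt.clm_apply (hasFDerivAt_const (EuclideanSpace.single j (1 : ℝ)) x)
    simpa using h3
  have h4 := sec_pd (fun y => fderiv ℝ u y (EuclideanSpace.single j 1)) x
    h2.differentiableAt i q
  have h5 : pd i (pd j fun y => u y q) x =
      pd i (fun y => (fderiv ℝ u y (EuclideanSpace.single j 1)) q) x := by
    unfold pd at h1 ⊢
    rw [h1.fderiv_eq]
  rw [h5, h4, h2.fderiv]
  rfl

theorem sec_main (J : Fin 3 → V9 → (V9 →L[ℝ] V9)) (hJ : ∀ k, ContDiff ℝ ∞ (J k)) (p : E3)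
    (r : ℝ) (B : Fin 3 → E3 → E3) (W : Fin 3 → E3 → V9) (u : E3 → V9)
    (hB : ∀ a, ContDiffOn ℝ ∞ (B a) (ball p r)) (hW : ∀ a, ContDiffOn ℝ ∞ (W a) (ball p r))
    (hu : ContDiffOn ℝ ∞ u (ball p r))
    (hE : ∀ y ∈ ball p r, ∀ i, fderiv ℝ u y (B i y) + sec_br (W i y) (u y) =
      J (i + 2) (u y) (fderiv ℝ u y (B (i + 1) y) + sec_br (W (i + 1) y) (u y)) -
        J (i + 1) (u y) (fderiv ℝ u y (B (i + 2) y) + sec_br (W (i + 2) y) (u y)))
    (x : E3) (hx : x ∈ ball p r) (e h : Fin 3 → V9) (G T S : Fin 3 → Fin 3 → V9)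
    (he : ∀ a, e a = fderiv ℝ u x (B a x))
    (hh : ∀ a, h a = fderiv ℝ u x (B a x) + sec_br (W a x) (u x))
    (hG : ∀ a b, G a b = fderiv ℝ u x (fderiv ℝ (B b) x (B a x)))
    (hT : ∀ a b, T a b = sec_br (fderiv ℝ (W b) x (B a x)) (u x) +
      sec_br (W b x) (fderiv ℝ u x (B a x)))
    (hS : ∀ a b, S a b = fderiv ℝ (fderiv ℝ u) x (B a x) (B b x)) :
    ∑ a, S a a = ∑ i, (fderiv ℝ (J (i + 2)) (u x) (e i) (h (i + 1)) -
      fderiv ℝ (J (i + 1)) (u x) (e i) (h (i + 2)) - G i i - T i i) +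
      ∑ k, J k (u x) (G (k + 1) (k + 2) - G (k + 2) (k + 1) + T (k + 1) (k + 2) -
        T (k + 2) (k + 1)) := by
  have hb : ball p r ∈ 𝓝 x := isOpen_ball.mem_nhds hx
  have du : HasFDerivAt u (fderiv ℝ u x) x :=
    ((hu.contDiffAt hb).differentiableAt (by simp)).hasFDerivAt
  have dS : HasFDerivAt (fderiv ℝ u) (fderiv ℝ (fderiv ℝ u) x) x :=
    (((hu.contDiffAt hb).fderiv_right (m := ∞) (by simp)).differentiableAt (by simp)).hasFDerivAt
  have dB : ∀ b, HasFDerivAt (B b) (fderiv ℝ (B b) x) x := fun b =>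
    (((hB b).contDiffAt hb).differentiableAt (by simp)).hasFDerivAt
  have dW : ∀ b, HasFDerivAt (W b) (fderiv ℝ (W b) x) x := fun b =>
    (((hW b).contDiffAt hb).differentiableAt (by simp)).hasFDerivAt
  have dJ : ∀ k, HasFDerivAt (J k) (fderiv ℝ (J k) (u x)) (u x) := fun k =>
    ((hJ k).differentiable (by simp) (u x)).hasFDerivAt
  have sym : ∀ a b, S a b = S b a := by
    intro a b
    rw [hS, hS]
    have := (hu.contDiffAt hb).isSymmSndFDerivAt (by
      rw [minSmoothness_of_isRCLikeNormedField]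
      exact WithTop.coe_le_coe.2 (le_top : (2 : ℕ∞) ≤ ⊤))
    exact this.eq _ _
  have dH : ∀ b, ∃ H' : E3 →L[ℝ] V9,
      HasFDerivAt (fun y => fderiv ℝ u y (B b y) + sec_br (W b y) (u y)) H' x ∧
      ∀ a, H' (B a x) = G a b + S a b + T a b := by
    intro b
    have h1 := dS.clm_apply (dB b)
    have h2 := sec_br.hasFDerivAt_of_bilinear (dW b) du
    refine ⟨_, h1.add h2, ?_⟩
    intro a
    rw [hG, hS, hT]
    simp only [_root_.add_apply, ContinuousLinearMap.comp_apply,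
      ContinuousLinearMap.flip_apply, ContinuousLinearMap.precompR_apply,
      ContinuousLinearMap.precompL_apply, ContinuousLinearMap.compL_apply]
    abel
  choose H' hH1 hH2 using dH
  have key : ∀ i, G i i + S i i + T i i =
      (J (i + 2) (u x) (G i (i + 1) + S i (i + 1) + T i (i + 1)) +
        fderiv ℝ (J (i + 2)) (u x) (e i) (h (i + 1))) -
      (J (i + 1) (u x) (G i (i + 2) + S i (i + 2) + T i (i + 2)) +
        fderiv ℝ (J (i + 1)) (u x) (e i) (h (i + 2))) := by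
    intro i
    have k1 := ((dJ (i + 2)).comp x du).clm_apply (hH1 (i + 1))
    have k2 := ((dJ (i + 1)).comp x du).clm_apply (hH1 (i + 2))
    have k3 := k1.sub k2
    have k4 : (fun y => fderiv ℝ u y (B i y) + sec_br (W i y) (u y)) =ᶠ[𝓝 x]
        fun y => J (i + 2) (u y) (fderiv ℝ u y (B (i + 1) y) + sec_br (W (i + 1) y) (u y)) -
        J (i + 1) (u y) (fderiv ℝ u y (B (i + 2) y) + sec_br (W (i + 2) y) (u y)) := by
      filter_upwards [hb] with y hy
      exact hE y hy i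
    have k5 := k3.congr_of_eventuallyEq k4
    have k6 := (hH1 i).unique k5
    have k7 := congrArg (fun L : E3 →L[ℝ] V9 => L (B i x)) k6
    simp only [_root_.sub_apply, _root_.add_apply,
      ContinuousLinearMap.comp_apply, ContinuousLinearMap.flip_apply, hH2] at k7
    rw [k7, he, hh, hh]
    rfl
  have q0 := key 0
  have q1 := key 1
  have q2 := key 2
  have a01 : (0 : Fin 3) + 1 = 1 := rfl
  have a02 : (0 : Fin 3) + 2 = 2 := rfl
  have a11 : (1 : Fin 3) + 1 = 2 := rfl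
  have a12 : (1 : Fin 3) + 2 = 0 := rfl
  have a21 : (2 : Fin 3) + 1 = 0 := rfl
  have a22 : (2 : Fin 3) + 2 = 1 := rfl
  rw [a01, a02] at q0
  rw [a11, a12] at q1
  rw [a21, a22] at q2
  rw [Fin.sum_univ_three, Fin.sum_univ_three, Fin.sum_univ_three, a01, a02, a11, a12, a21, a22]
  have r0 : S 0 0 = (G 0 0 + S 0 0 + T 0 0) - G 0 0 - T 0 0 := by abel
  have r1 : S 1 1 = (G 1 1 + S 1 1 + T 1 1) - G 1 1 - T 1 1 := by abel
  have r2 : S 2 2 = (G 2 2 + S 2 2 + T 2 2) - G 2 2 - T 2 2 := by abel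
  rw [r0, r1, r2, q0, q1, q2, sym 1 0, sym 2 0, sym 2 1]
  simp only [map_add, map_sub]
  abel

theorem thm_Sec (hA : St_A16) : St_Sec := by
  intro pr S
  obtain ⟨J, hJ, hF⟩ := hA pr S
  refine ⟨fun i y => fF J y i, ?_, ?_⟩
  · intro i
    exact (contDiff_euclidean.1 (sec_sm_fF J hJ)) i
  intro p r B W u hB hW hL hS x hx q
  have hu := hL.smooth
  have hb : ball p r ∈ 𝓝 x := isOpen_ball.mem_nhds hx
  have du : DifferentiableAt ℝ u x := (hu.contDiffAt hb).differentiableAt (by simp)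
  have dB : ∀ b, DifferentiableAt ℝ (B b) x := fun b =>
    ((hB b).contDiffAt hb).differentiableAt (by simp)
  have dW : ∀ b, DifferentiableAt ℝ (W b) x := fun b =>
    ((hW b).contDiffAt hb).differentiableAt (by simp)
  have hE : ∀ y ∈ ball p r, ∀ i, fderiv ℝ u y (B i y) + sec_br (W i y) (u y) =
      J (i + 2) (u y) (fderiv ℝ u y (B (i + 1) y) + sec_br (W (i + 1) y) (u y)) -
        J (i + 1) (u y) (fderiv ℝ u y (B (i + 2) y) + sec_br (W (i + 2) y) (u y)) := by
    intro y hy i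
    refine hF (u y) (fun i => fderiv ℝ u y (B i y) + sec_br (W i y) (u y)) (hS y hy) ?_ i
    have h1 := hL.eq y hy
    have h2 : (fun j => toM (fderiv ℝ u y (B j y) + sec_br (W j y) (u y))) =
        fun j => toM (fderiv ℝ u y (B j y)) +
          (toM (W j y) * toM (u y) - toM (u y) * toM (W j y)) := by
      funext j
      rw [sec_toM_add, sec_br_apply, sec_toM_ofM]
    rw [h2]
    exact h1
  set Y : YY := (fun s => pro (cf B W) s x, fun j => u x j, fun k j => pd k (fun y => u y j) x)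
    with hY
  have i1 : fU Y = u x := by
    ext j
    rfl
  have i2 : ∀ j, fP j Y = fderiv ℝ u x (EuclideanSpace.single j 1) := by
    intro j
    ext k
    exact sec_pd u x du j k
  have i3 : ∀ a, fE a Y = fderiv ℝ u x (B a x) := by
    intro a
    rw [sec_lin (fderiv ℝ u x) (B a x)]
    unfold fE
    refine Finset.sum_congr rfl fun j _ => ?_
    rw [i2]
    rfl
  have i4 : ∀ a, fW a Y = W a x := by
    intro a
    ext j
    rfl
  have i5 : ∀ a b, fdW a b Y = fderiv ℝ (W b) x (B a x) := by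
    intro a b
    rw [sec_lin (fderiv ℝ (W b) x) (B a x)]
    unfold fdW
    refine Finset.sum_congr rfl fun j _ => ?_
    congr 1
    ext k
    exact sec_pd (W b) x (dW b) j k
  have i6 : ∀ a b, fG a b Y = fderiv ℝ u x (fderiv ℝ (B b) x (B a x)) := by
    intro a b
    rw [sec_lin (fderiv ℝ u x)]
    unfold fG
    refine Finset.sum_congr rfl fun j _ => ?_
    rw [i2]
    congr 1
    rw [sec_lin (fderiv ℝ (B b) x) (B a x)]
    simp only [WithLp.ofLp_sum, Finset.sum_apply, PiLp.smul_apply, smul_eq_mul]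
    refine Finset.sum_congr rfl fun i _ => ?_
    congr 1
    exact sec_pd (B b) x (dB b) i j
  have i7 : ∀ a, fH a Y = fderiv ℝ u x (B a x) + sec_br (W a x) (u x) := by
    intro a
    unfold fH
    rw [i3, i4, i1]
  have i8 : ∀ a b, fT a b Y = sec_br (fderiv ℝ (W b) x (B a x)) (u x) +
      sec_br (W b x) (fderiv ℝ u x (B a x)) := by
    intro a b
    unfold fT
    rw [i5, i1, i4, i3]
  have hm := sec_main J hJ p r B W u hB hW hu hE x hx (fun a => fE a Y) (fun a => fH a Y)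
    (fun a b => fG a b Y) (fun a b => fT a b Y)
    (fun a b => fderiv ℝ (fderiv ℝ u) x (B a x) (B b x)) i3 i7 i6 i8 (fun _ _ => rfl)
  have hl : Lap (fun a j y => B a y j) (fun y => u y q) x =
      (∑ a, fderiv ℝ (fderiv ℝ u) x (B a x) (B a x)) q := by
    unfold Lap
    rw [WithLp.ofLp_sum, Finset.sum_apply]
    refine Finset.sum_congr rfl fun a _ => ?_
    rw [sec_lin (fderiv ℝ (fderiv ℝ u) x) (B a x), _root_.sum_apply,
      WithLp.ofLp_sum, Finset.sum_apply]
    refine Finset.sum_congr rfl fun i _ => ?_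
    rw [_root_.smul_apply, sec_lin _ (B a x), PiLp.smul_apply, WithLp.ofLp_sum, Finset.sum_apply,
      smul_eq_mul, Finset.mul_sum]
    refine Finset.sum_congr rfl fun j _ => ?_
    rw [sec_pdpd u p r hu x hx i j q, PiLp.smul_apply, smul_eq_mul]
    ring
  rw [hl, hm]
  change _ = fF J Y q
  unfold fF
  rw [i1]

end Pool.Agent.FUE.Rg
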