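import Pool.Agent.FUE.AllA
import Pool.Agent.FUE.Mc4
import Pool.Agent.FUE.RgAll
import Pool.Agent.FUE.RgSec

/-!
# Fueter sections: assembly of the compactness theorem and of the Liouville theorem
-/

set_option autoImplicit false

namespace Pool.Agent.FUE

theorem all_Cpt : St_Cpt := thm_Cpt (Rg.thm_Sec all_A16) Rg.all_Rgv Rg.all_Aav all_A14

/-- no entire solutions -/
theorem all_E09 : St_E09 := E09_of_Cpt all_Cpt

end Pool.Agent.FUE
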