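import Pool.Agent.FUE.StQ

/-!
# Fueter sections: Legendre's formulas and the imaginary modulus (helper60 for helper16)
-/

set_option autoImplicit false

open scoped ContDiff

namespace Pool.Agent.FUE

namespace Q2x

open Real MeasureTheory Set Filter

/-- the square of the modulus of the integrand -/
noncomputable def g (m θ : ℝ) : ℝ := 1 - m * sin θ ^ 2

theorem g_ge {m r : ℝ} (hr1 : r ≤ 1) (hm : m ≤ 1 - r) (θ : ℝ) : r ≤ g m θ := by
  unfold g
  have h1 := sin_sq_le_one θ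
  have h2 := sq_nonneg (sin θ)
  nlinarith [mul_nonneg (sub_nonneg.2 hr1) (sub_nonneg.2 h1),
    mul_nonneg (sub_nonneg.2 hm) h2]

theorem g_pos {m : ℝ} (hm : m < 1) (θ : ℝ) : 0 < g m θ := by
  have h := g_ge (m := m) (r := min 1 (1 - m)) (min_le_left _ _)
    (by have := min_le_right 1 (1 - m); linarith) θ
  exact lt_of_lt_of_le (lt_min one_pos (by linarith)) h

theorem g_cont (m : ℝ) : Continuous fun θ => g m θ := by
  unfold g
  fun_prop

theorem sg_cont (m : ℝ) : Continuous fun θ => √(g m θ) := (g_cont m).sqrt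

theorem sg_ne {m : ℝ} (hm : m < 1) (θ : ℝ) : √(g m θ) ≠ 0 := (sqrt_pos.2 (g_pos hm θ)).ne'

theorem inv_cont {m : ℝ} (hm : m < 1) : Continuous fun θ => (√(g m θ))⁻¹ :=
  (sg_cont m).inv₀ (sg_ne hm)

theorem eP_eq (m : ℝ) : eP m = ∫ θ in (0 : ℝ)..(π / 2), sin θ ^ 2 / √(g m θ) := rfl

theorem eQ_eq (m : ℝ) : eQ m = ∫ θ in (0 : ℝ)..(π / 2), cos θ ^ 2 / √(g m θ) := rfl

theorem iP {m : ℝ} (hm : m < 1) :
    IntervalIntegrable (fun θ => sin θ ^ 2 / √(g m θ)) volume 0 (π / 2) :=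
  (((continuous_sin.pow 2).div (sg_cont m) (sg_ne hm))).intervalIntegrable _ _

theorem iQ {m : ℝ} (hm : m < 1) :
    IntervalIntegrable (fun θ => cos θ ^ 2 / √(g m θ)) volume 0 (π / 2) :=
  (((continuous_cos.pow 2).div (sg_cont m) (sg_ne hm))).intervalIntegrable _ _

theorem eK_eq {m : ℝ} (hm : m < 1) : eK m = ∫ θ in (0 : ℝ)..(π / 2), (√(g m θ))⁻¹ := by
  rw [eK, eP_eq, eQ_eq, ← intervalIntegral.integral_add (iP hm) (iQ hm)]
  refine intervalIntegral.integral_congr fun θ _ => ?_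
  change sin θ ^ 2 / √(g m θ) + cos θ ^ 2 / √(g m θ) = _
  rw [← add_div, sin_sq_add_cos_sq, one_div]

theorem eE_eq {m : ℝ} (hm : m < 1) : eE m = ∫ θ in (0 : ℝ)..(π / 2), √(g m θ) := by
  rw [eE, eP_eq, eQ_eq, ← intervalIntegral.integral_const_mul,
    ← intervalIntegral.integral_add (iQ hm) ((iP hm).const_mul _)]
  refine intervalIntegral.integral_congr fun θ _ => ?_
  change cos θ ^ 2 / √(g m θ) + (1 - m) * (sin θ ^ 2 / √(g m θ)) = √(g m θ)
  have h1 : cos θ ^ 2 / √(g m θ) + (1 - m) * (sin θ ^ 2 / √(g m θ)) = g m θ / √(g m θ) := by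
    rw [cos_sq', g]
    ring
  rw [h1, div_sqrt]

theorem d_g (m θ : ℝ) : HasDerivAt (fun m => g m θ) (-sin θ ^ 2) m := by
  have h := (hasDerivAt_id m).mul_const (sin θ ^ 2)
  have h2 := h.const_sub 1
  simp only [one_mul] at h2
  exact h2

theorem d_sg {m : ℝ} (hm : m < 1) (θ : ℝ) :
    HasDerivAt (fun m => √(g m θ)) (-sin θ ^ 2 / (2 * √(g m θ))) m :=
  (d_g m θ).sqrt (g_pos hm θ).ne'

theorem d_inv {m : ℝ} (hm : m < 1) (θ : ℝ) :
    HasDerivAt (fun m => (√(g m θ))⁻¹) (sin θ ^ 2 / (2 * √(g m θ) ^ 3)) m := by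
  have h := (d_sg hm θ).inv (sg_ne hm θ)
  refine h.congr_deriv ?_
  have h1 := sg_ne hm θ
  field_simp

/-- derivative under the integral sign -/
theorem d_int {m : ℝ} (hm : m < 1) (F F' : ℝ → ℝ → ℝ) (hc : ∀ x < 1, Continuous (F x))
    (hc' : ∀ x < 1, Continuous (F' x)) (hd : ∀ x < 1, ∀ θ, HasDerivAt (fun x => F x θ) (F' x θ) x)
    (hb : ∀ r : ℝ, 0 < r → r ≤ 1 → ∃ C, ∀ x ≤ 1 - r, ∀ θ, ‖F' x θ‖ ≤ C) :
    HasDerivAt (fun x => ∫ θ in (0 : ℝ)..(π / 2), F x θ) (∫ θ in (0 : ℝ)..(π / 2), F' m θ) m := by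
  obtain ⟨C, hC⟩ := hb (min 1 ((1 - m) / 2)) (lt_min one_pos (by linarith)) (min_le_left _ _)
  have hs : Iio (1 - min 1 ((1 - m) / 2)) ∈ nhds m := by
    apply Iio_mem_nhds
    have := min_le_right 1 ((1 - m) / 2)
    linarith
  have hlt : ∀ x ∈ Iio (1 - min 1 ((1 - m) / 2)), x < 1 := by
    intro x hx
    have h1 : x < 1 - min 1 ((1 - m) / 2) := hx
    have h2 : 0 < min 1 ((1 - m) / 2) := lt_min one_pos (by linarith)
    linarith
  refine (intervalIntegral.hasDerivAt_integral_of_dominated_loc_of_deriv_le (bound := fun _ => C)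
    hs ?_ ((hc m hm).intervalIntegrable _ _) (hc' m hm).aestronglyMeasurable ?_
    intervalIntegrable_const ?_).2
  · filter_upwards [hs] with x hx
    exact (hc x (hlt x hx)).aestronglyMeasurable
  · exact Eventually.of_forall fun θ _ x hx => hC x (le_of_lt hx) θ
  · exact Eventually.of_forall fun θ _ x hx => hd x (hlt x hx) θ

theorem sg_ge {x r : ℝ} (hr1 : r ≤ 1) (hx : x ≤ 1 - r) (θ : ℝ) : √r ≤ √(g x θ) :=
  sqrt_le_sqrt (g_ge hr1 hx θ)

theorem dK {m : ℝ} (hm : m < 1) :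
    HasDerivAt eK (∫ θ in (0 : ℝ)..(π / 2), sin θ ^ 2 / (2 * √(g m θ) ^ 3)) m := by
  have h := d_int hm (fun x θ => (√(g x θ))⁻¹) (fun x θ => sin θ ^ 2 / (2 * √(g x θ) ^ 3))
    (fun x hx => inv_cont hx)
    (fun x hx => (continuous_sin.pow 2).div (continuous_const.mul ((sg_cont x).pow 3))
      fun θ => mul_ne_zero two_ne_zero (pow_ne_zero 3 (sg_ne hx θ)))
    (fun x hx θ => d_inv hx θ) (by
      intro r hr hr1
      refine ⟨1 / (2 * √r ^ 3), fun x hx θ => ?_⟩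
      have h1 := sg_ge hr1 hx θ
      have h2 : 0 < √r := sqrt_pos.2 hr
      rw [norm_eq_abs, abs_of_nonneg (by positivity)]
      have h3 := sin_sq_le_one θ
      gcongr)
  refine h.congr_of_eventuallyEq ?_
  filter_upwards [Iio_mem_nhds hm] with x hx
  exact eK_eq hx

theorem dE {m : ℝ} (hm : m < 1) :
    HasDerivAt eE (∫ θ in (0 : ℝ)..(π / 2), -sin θ ^ 2 / (2 * √(g m θ))) m := by
  have h := d_int hm (fun x θ => √(g x θ)) (fun x θ => -sin θ ^ 2 / (2 * √(g x θ)))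
    (fun x _ => sg_cont x)
    (fun x hx => (continuous_sin.pow 2).neg.div (continuous_const.mul (sg_cont x))
      fun θ => mul_ne_zero two_ne_zero (sg_ne hx θ))
    (fun x hx θ => d_sg hx θ) (by
      intro r hr hr1
      refine ⟨1 / (2 * √r), fun x hx θ => ?_⟩
      have h1 := sg_ge hr1 hx θ
      have h2 : 0 < √r := sqrt_pos.2 hr
      rw [norm_eq_abs, neg_div, abs_neg, abs_of_nonneg (by positivity)]
      have h3 := sin_sq_le_one θ
      gcongr)
  refine h.congr_of_eventuallyEq ?_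
  filter_upwards [Iio_mem_nhds hm] with x hx
  exact eE_eq hx

theorem d_theta {m : ℝ} (hm : m < 1) (θ : ℝ) :
    HasDerivAt (fun θ => sin θ * cos θ / √(g m θ))
      (cos θ ^ 2 / √(g m θ) - (1 - m) * (sin θ ^ 2 / √(g m θ) ^ 3)) θ := by
  have h1 : HasDerivAt (fun θ => g m θ) (-(m * (2 * sin θ * cos θ))) θ := by
    have h := ((hasDerivAt_sin θ).pow 2).const_mul m
    have h2 := h.const_sub 1
    refine h2.congr_deriv ?_
    norm_num
  have h2 := ((hasDerivAt_sin θ).mul (hasDerivAt_cos θ)).div (h1.sqrt (g_pos hm θ).ne')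
    (sg_ne hm θ)
  refine h2.congr_deriv ?_
  have h3 := sg_ne hm θ
  have h4 : √(g m θ) ^ 2 = 1 - m * sin θ ^ 2 := by
    rw [sq_sqrt (g_pos hm θ).le]
    rfl
  have h5 := sin_sq_add_cos_sq θ
  set S := √(g m θ) with hS
  have e1 : ((cos θ * cos θ + sin θ * -sin θ) * S -
      sin θ * cos θ * (-(m * (2 * sin θ * cos θ)) / (2 * S))) / S ^ 2 =
      ((cos θ ^ 2 - sin θ ^ 2) * S ^ 2 + m * sin θ ^ 2 * cos θ ^ 2) / S ^ 3 := by
    field_simp
    ring
  have e2 : cos θ ^ 2 / S - (1 - m) * (sin θ ^ 2 / S ^ 3) =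
      (cos θ ^ 2 * S ^ 2 - (1 - m) * sin θ ^ 2) / S ^ 3 := by
    field_simp
  rw [e2]
  refine Eq.trans ?_ (e1.trans ?_)
  · rfl
  · congr 1
    rw [h4]
    linear_combination (m * sin θ ^ 2) * h5

theorem ftc {m : ℝ} (hm : m < 1) :
    ∫ θ in (0 : ℝ)..(π / 2), sin θ ^ 2 / (2 * √(g m θ) ^ 3) = eQ m / (2 * (1 - m)) := by
  have c1 : Continuous fun θ => cos θ ^ 2 / √(g m θ) :=
    (continuous_cos.pow 2).div (sg_cont m) (sg_ne hm)
  have c2 : Continuous fun θ => sin θ ^ 2 / √(g m θ) ^ 3 :=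
    (continuous_sin.pow 2).div ((sg_cont m).pow 3) fun θ => pow_ne_zero 3 (sg_ne hm θ)
  have h1 : ∫ θ in (0 : ℝ)..(π / 2), (cos θ ^ 2 / √(g m θ) -
      (1 - m) * (sin θ ^ 2 / √(g m θ) ^ 3)) = 0 := by
    rw [intervalIntegral.integral_eq_sub_of_hasDerivAt (fun θ _ => d_theta hm θ)
      ((c1.sub (continuous_const.mul c2)).intervalIntegrable _ _)]
    simp
  have i2 : IntervalIntegrable (fun θ => (1 - m) * (sin θ ^ 2 / √(g m θ) ^ 3)) volume 0 (π / 2) :=
    (continuous_const.mul c2).intervalIntegrable _ _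
  rw [intervalIntegral.integral_sub (c1.intervalIntegrable _ _) i2,
    intervalIntegral.integral_const_mul, ← eQ_eq] at h1
  have h2 : ∫ θ in (0 : ℝ)..(π / 2), sin θ ^ 2 / (2 * √(g m θ) ^ 3) =
      (1 / 2) * ∫ θ in (0 : ℝ)..(π / 2), sin θ ^ 2 / √(g m θ) ^ 3 := by
    rw [← intervalIntegral.integral_const_mul]
    refine intervalIntegral.integral_congr fun θ _ => ?_
    have h3 := sg_ne hm θ
    change sin θ ^ 2 / (2 * √(g m θ) ^ 3) = 1 / 2 * (sin θ ^ 2 / √(g m θ) ^ 3)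
    field_simp
  rw [h2]
  have h4 : (1 - m) ≠ 0 := by linarith
  field_simp
  linarith

/-- the substitution -/
theorem subst {m : ℝ} (hm : m < 1) (θ : ℝ) :
    √(g (-m / (1 - m)) (π / 2 - θ)) = √(g m θ) / √(1 - m) := by
  have h1 : (0 : ℝ) < 1 - m := by linarith
  rw [← sqrt_div (g_pos hm θ).le]
  congr 1
  unfold g
  rw [sin_pi_div_two_sub, cos_sq']
  field_simp
  ring

theorem eP_im {m : ℝ} (hm : m < 1) : eP (-m / (1 - m)) = √(1 - m) * eQ m := by
  have h1 : (0 : ℝ) < 1 - m := by linarith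
  have h2 := intervalIntegral.integral_comp_sub_left (a := 0) (b := π / 2)
    (fun θ => sin θ ^ 2 / √(g (-m / (1 - m)) θ)) (π / 2)
  rw [sub_self, sub_zero] at h2
  rw [eP_eq, ← h2, eQ_eq, ← intervalIntegral.integral_const_mul]
  refine intervalIntegral.integral_congr fun θ _ => ?_
  have h3 := sg_ne hm θ
  have h4 : √(1 - m) ≠ 0 := (sqrt_pos.2 h1).ne'
  rw [subst hm, sin_pi_div_two_sub]
  field_simp

theorem eQ_im {m : ℝ} (hm : m < 1) : eQ (-m / (1 - m)) = √(1 - m) * eP m := by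
  have h1 : (0 : ℝ) < 1 - m := by linarith
  have h2 := intervalIntegral.integral_comp_sub_left (a := 0) (b := π / 2)
    (fun θ => cos θ ^ 2 / √(g (-m / (1 - m)) θ)) (π / 2)
  rw [sub_self, sub_zero] at h2
  rw [eQ_eq, ← h2, eP_eq, ← intervalIntegral.integral_const_mul]
  refine intervalIntegral.integral_congr fun θ _ => ?_
  have h3 := sg_ne hm θ
  have h4 : √(1 - m) ≠ 0 := (sqrt_pos.2 h1).ne'
  rw [subst hm, cos_pi_div_two_sub]
  field_simp

end Q2x

open Q2x in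
theorem thm_Q2 : St_Q2 := by
  intro m hm
  refine ⟨?_, ?_, eP_im hm, eQ_im hm⟩
  · rw [← ftc hm]
    exact dK hm
  · have h1 : ∫ θ in (0 : ℝ)..(Real.pi / 2), -Real.sin θ ^ 2 / (2 * √(g m θ)) = -(eP m / 2) := by
      have h2 : -(eP m / 2) = (-1 / 2) * eP m := by ring
      rw [h2, eP_eq, ← intervalIntegral.integral_const_mul]
      refine intervalIntegral.integral_congr fun θ _ => ?_
      have h3 := sg_ne hm θ
      change -Real.sin θ ^ 2 / (2 * √(g m θ)) = -1 / 2 * (Real.sin θ ^ 2 / √(g m θ))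
      field_simp
    rw [← h1]
    exact dE hm

end Pool.Agent.FUE
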