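import Pool.Agent.FUE.StQ

/-!
# FUE/Q3 (helper82): even and odd analytic functions
-/

set_option autoImplicit false

open scoped ContDiff Topology
open Filter

namespace Pool.Agent.FUE.Q3x

/-- the power series of an even function at the origin -/
theorem even_local (f : ℝ → ℝ) (hf : AnalyticAt ℝ f 0) (hev : ∀ s, f (-s) = f s) :
    ∃ g : ℝ → ℝ, AnalyticAt ℝ g 0 ∧ ∀ᶠ s in 𝓝 (0 : ℝ), f s = g (s ^ 2) := by
  obtain ⟨p, hp⟩ := hf
  have hp1 := hasFPowerSeriesAt_iff.1 hp
  simp only [zero_add, smul_eq_mul] at hp1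
  -- odd coefficients vanish
  have hq : HasFPowerSeriesAt f
      (FormalMultilinearSeries.ofScalars ℝ (fun n => (-1 : ℝ) ^ n * p.coeff n)) 0 := by
    refine hasFPowerSeriesAt_iff.2 ?_
    have h1 : ∀ᶠ z in 𝓝 (0 : ℝ), HasSum (fun n => (-z) ^ n * p.coeff n) (f (-z)) := by
      have h2 : Tendsto (fun z : ℝ => -z) (𝓝 0) (𝓝 0) := by
        have := (continuous_neg (G := ℝ)).tendsto 0
        simpa using this
      exact h2.eventually hp1
    filter_upwards [h1] with z hz
    rw [zero_add, ← hev z]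
    have h2 : (fun n => z ^ n • (FormalMultilinearSeries.ofScalars ℝ
        (fun n => (-1 : ℝ) ^ n * p.coeff n)).coeff n) = fun n => (-z) ^ n * p.coeff n := by
      funext n
      rw [FormalMultilinearSeries.coeff_ofScalars, smul_eq_mul, neg_pow z n]
      ring
    rw [h2]
    exact hz
  have hodd : ∀ n, p.coeff (2 * n + 1) = 0 := by
    intro n
    have h3 := hp.eq_formalMultilinearSeries hq
    have h4 : p.coeff (2 * n + 1) = (-1 : ℝ) ^ (2 * n + 1) * p.coeff (2 * n + 1) := by
      conv_lhs => rw [h3]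
      rw [FormalMultilinearSeries.coeff_ofScalars]
    have h5 : (-1 : ℝ) ^ (2 * n + 1) = -1 := by
      rw [pow_succ, pow_mul]
      norm_num
    rw [h5] at h4
    linarith
  refine ⟨fun t => ∑' n, t ^ n * p.coeff (2 * n), ?_, ?_⟩
  · refine ⟨FormalMultilinearSeries.ofScalars ℝ (fun n => p.coeff (2 * n)),
      hasFPowerSeriesAt_iff.2 ?_⟩
    have h1 : ∀ᶠ t in 𝓝 (0 : ℝ), HasSum (fun n => (√|t|) ^ n * p.coeff n) (f (√|t|)) := by
      have h2 : Tendsto (fun t : ℝ => √|t|) (𝓝 0) (𝓝 0) := by
        have : Continuous fun t : ℝ => √|t| := by fun_prop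
        have := this.tendsto 0
        simpa using this
      exact h2.eventually hp1
    filter_upwards [h1] with t ht
    rw [zero_add]
    simp only [FormalMultilinearSeries.coeff_ofScalars, smul_eq_mul]
    refine Summable.hasSum ?_
    have h3 := ht.summable.abs
    have h4 : Summable (fun n : ℕ => |(√|t|) ^ (2 * n) * p.coeff (2 * n)|) :=
      h3.comp_injective (i := fun n : ℕ => 2 * n) (fun a b h => by simpa using h)
    refine Summable.of_abs ?_
    refine h4.congr fun n => ?_
    rw [abs_mul, abs_mul, pow_mul, Real.sq_sqrt (abs_nonneg t), abs_pow, abs_pow, abs_abs]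
  · filter_upwards [hp1] with s hs
    have h1 : HasSum (fun n : ℕ => s ^ (2 * n) * p.coeff (2 * n)) (f s) := by
      have h2 := (Function.Injective.hasSum_iff (g := fun n : ℕ => 2 * n)
        (f := fun n : ℕ => s ^ n * p.coeff n) (a := f s) (fun a b h => by simpa using h) (by
          intro n hn
          have h6 : Odd n := by
            rw [← Nat.not_even_iff_odd]
            rintro ⟨k, hk⟩
            exact hn ⟨k, by simp only; omega⟩
          obtain ⟨k, rfl⟩ := h6
          rw [hodd, mul_zero])).2 hs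
      exact h2
    rw [← h1.tsum_eq]
    refine tsum_congr fun n => ?_
    rw [pow_mul]

theorem even_smooth (f : ℝ → ℝ) (hf : AnalyticOnNhd ℝ f Set.univ) (hev : ∀ s, f (-s) = f s) :
    ∃ g : ℝ → ℝ, ContDiff ℝ ∞ g ∧ ∀ s, f s = g (s ^ 2) := by
  obtain ⟨g0, hg0, hfg⟩ := even_local f (hf 0 (Set.mem_univ _)) hev
  obtain ⟨δ1, hδ1, h1⟩ := Metric.eventually_nhds_iff.1 hg0.eventually_analyticAt
  obtain ⟨δ2, hδ2, h2⟩ := Metric.eventually_nhds_iff.1 hfg
  obtain ⟨δ, hδ, hδa, hδb⟩ : ∃ δ : ℝ, 0 < δ ∧ δ ≤ δ1 ∧ δ ≤ δ2 ^ 2 :=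
    ⟨min δ1 (δ2 ^ 2), by positivity, min_le_left _ _, min_le_right _ _⟩
  have hA : ∀ t, |t| < δ → AnalyticAt ℝ g0 t := by
    intro t ht
    refine h1 ?_
    rw [Real.dist_eq, sub_zero]
    exact ht.trans_le hδa
  have hB : ∀ s, s ^ 2 < δ → f s = g0 (s ^ 2) := by
    intro s hs
    refine h2 ?_
    rw [Real.dist_eq, sub_zero]
    exact abs_lt_of_sq_lt_sq (hs.trans_le hδb) hδ2.le
  set h0 : ℝ → ℝ := fun t => if t ≤ 0 then g0 t else f (√t) with hh0
  have hh : ∀ t, -δ < t → ContDiffAt ℝ ∞ h0 t := by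
    intro t ht
    rcases le_or_gt t 0 with h3 | h3
    · have h4 : h0 =ᶠ[𝓝 t] g0 := by
        have h5 : ∀ᶠ z in 𝓝 t, z < δ := (continuous_id.tendsto t).eventually (gt_mem_nhds (h3.trans_lt hδ))
        filter_upwards [h5] with z hz
        by_cases hz0 : z ≤ 0
        · simp [hh0, hz0]
        · have hz1 : 0 < z := not_le.1 hz0
          have h6 := hB (√z) (by rw [Real.sq_sqrt hz1.le]; exact hz)
          rw [Real.sq_sqrt hz1.le] at h6
          simp [hh0, hz0, h6]
      refine ContDiffAt.congr_of_eventuallyEq ?_ h4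
      refine (hA t ?_).contDiffAt
      rw [abs_lt]
      exact ⟨ht, h3.trans_lt hδ⟩
    · have h4 : h0 =ᶠ[𝓝 t] fun z => f (√z) := by
        filter_upwards [lt_mem_nhds h3] with z hz
        simp [hh0, not_le.2 hz]
      refine ContDiffAt.congr_of_eventuallyEq ?_ h4
      have h5 : ContDiffAt ℝ ∞ f (√t) := (hf _ (Set.mem_univ _)).contDiffAt
      exact h5.comp t (Real.contDiffAt_sqrt h3.ne')
  set χ : ℝ → ℝ := fun t => Real.smoothTransition ((t + δ / 2) * (4 / δ)) with hχ
  have hχs : ContDiff ℝ ∞ χ := by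
    refine Real.smoothTransition.contDiff.comp ?_
    fun_prop
  refine ⟨fun t => χ t * h0 t, ?_, ?_⟩
  · rw [contDiff_iff_contDiffAt]
    intro t
    rcases lt_or_ge (-δ) t with h3 | h3
    · exact hχs.contDiffAt.mul (hh t h3)
    · have h4 : (fun t => χ t * h0 t) =ᶠ[𝓝 t] fun _ => 0 := by
        filter_upwards [gt_mem_nhds (show t < -(δ / 2) by linarith)] with z hz
        have h5 : χ z = 0 := by
          refine Real.smoothTransition.zero_of_nonpos ?_
          refine mul_nonpos_of_nonpos_of_nonneg (by linarith) (by positivity)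
        rw [h5, zero_mul]
      exact contDiffAt_const.congr_of_eventuallyEq h4
  · intro s
    have h3 : χ (s ^ 2) = 1 := by
      refine Real.smoothTransition.one_of_one_le ?_
      have h4 : 1 ≤ (δ / 2) * (4 / δ) := by
        field_simp
        norm_num
      refine h4.trans ?_
      refine mul_le_mul_of_nonneg_right ?_ (by positivity)
      nlinarith [sq_nonneg s]
    show f s = χ (s ^ 2) * h0 (s ^ 2)
    rw [h3, one_mul]
    by_cases hs : s ^ 2 ≤ 0
    · have hs0 : s = 0 := by
        have := le_antisymm hs (sq_nonneg s)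
        exact pow_eq_zero_iff two_ne_zero |>.1 this
      simp only [hh0, if_pos hs]
      exact hB s (hs.trans_lt hδ)
    · simp only [hh0, if_neg hs]
      rw [Real.sqrt_sq_eq_abs]
      rcases abs_choice s with h5 | h5
      · rw [h5]
      · rw [h5, hev]

end Pool.Agent.FUE.Q3x

namespace Pool.Agent.FUE

open Q3x

/-- **[Q3]** -/
theorem thm_Q3 : St_Q3 := by
  refine ⟨fun f hf hev => even_smooth f hf hev, fun f hf hodd => ?_⟩
  have hf0 : f 0 = 0 := by
    have := hodd 0
    rw [neg_zero] at this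
    linarith
  have h1 : AnalyticOnNhd ℝ (dslope f 0) Set.univ := by
    intro s _
    by_cases hs : s = 0
    · subst hs
      obtain ⟨p, hp⟩ := hf 0 (Set.mem_univ _)
      exact ⟨_, HasFPowerSeriesAt.has_fpower_series_dslope_fslope hp⟩
    · have h2 : dslope f 0 =ᶠ[𝓝 s] fun z => z⁻¹ * f z := by
        filter_upwards [isOpen_ne.mem_nhds hs] with z hz
        rw [dslope_of_ne _ hz, slope_def_field, hf0]
        field_simp
        ring
      refine AnalyticAt.congr ?_ h2.symm
      exact (analyticAt_id.inv hs).mul (hf s (Set.mem_univ _))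
  have h3 : ∀ s, s * dslope f 0 s = f s := by
    intro s
    have := sub_smul_dslope f 0 s
    rw [hf0] at this
    simpa using this
  obtain ⟨g, hg, hgf⟩ := even_smooth (dslope f 0) h1 (by
    intro s
    by_cases hs : s = 0
    · rw [hs, neg_zero]
    · have h4 := h3 s
      have h5 := h3 (-s)
      rw [hodd] at h5
      have h6 : s * dslope f 0 (-s) = s * dslope f 0 s := by linarith
      exact mul_left_cancel₀ hs h6)
  exact ⟨g, hg, fun s => by rw [← hgf, h3]⟩

end Pool.Agent.FUE
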