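import Pool.Agent.FUE.StQ

/-!
# Fueter sections, block Q, module Q4 (helper69): the parameter as a function of the arc length
-/

set_option autoImplicit false

open scoped ContDiff Topology NNReal ENNReal
open Filter Set

namespace Pool.Agent.FUE

namespace Q4x

/-- a primitive of an analytic function is analytic -/
theorem prim {f F : ℝ → ℝ} {x : ℝ} (hf : AnalyticAt ℝ f x)
    (hF : ∀ᶠ y in 𝓝 x, HasDerivAt F (f y) y) : AnalyticAt ℝ F x := by
  obtain ⟨p, r, hp⟩ := hf
  set c : ℕ → ℝ := fun n => p.coeff (n - 1) / n with hc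
  set q : FormalMultilinearSeries ℝ ℝ ℝ := FormalMultilinearSeries.ofScalars ℝ c with hq
  have hrad : r ≤ q.radius := by
    refine ENNReal.le_of_forall_nnreal_lt fun s hs => ?_
    obtain ⟨C, hC0, hC⟩ := p.norm_mul_pow_le_of_lt_radius (lt_of_lt_of_le hs hp.r_le)
    refine q.le_radius_of_bound (C * s) fun n => ?_
    rw [hq, FormalMultilinearSeries.ofScalars_norm]
    rcases n with _ | n
    · simp only [hc, Nat.cast_zero, div_zero, norm_zero, zero_mul]
      positivity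
    · have h1 : ‖c (n + 1)‖ ≤ ‖p n‖ := by
        rw [FormalMultilinearSeries.norm_apply_eq_norm_coef]
        simp only [hc, Nat.add_sub_cancel, norm_div]
        refine div_le_self (norm_nonneg _) ?_
        rw [Real.norm_eq_abs, abs_of_nonneg (Nat.cast_nonneg _)]
        push_cast
        linarith [(Nat.cast_nonneg n : (0 : ℝ) ≤ (n : ℝ))]
      calc ‖c (n + 1)‖ * (s : ℝ) ^ (n + 1) ≤ ‖p n‖ * (s : ℝ) ^ (n + 1) :=
            mul_le_mul_of_nonneg_right h1 (by positivity)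
        _ = ‖p n‖ * (s : ℝ) ^ n * s := by ring
        _ ≤ C * s := mul_le_mul_of_nonneg_right (hC n) (by positivity)
  have hpos : 0 < q.radius := lt_of_lt_of_le hp.r_pos hrad
  have hG0 : HasFPowerSeriesOnBall q.sum q 0 r :=
    (q.hasFPowerSeriesOnBall hpos).mono hp.r_pos hrad
  have hG : HasFPowerSeriesOnBall (fun y => q.sum (y - x)) q x r := by
    have h := hG0.comp_sub x
    rwa [zero_add] at h
  set G : ℝ → ℝ := fun y => q.sum (y - x) with hGdef
  have hGd : ∀ y ∈ Metric.eball x r, HasDerivAt G (f y) y := by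
    intro y hy
    have h1 : DifferentiableAt ℝ G y := (hG.analyticAt_of_mem hy).differentiableAt
    have h2 := hG.fderiv.hasSum (y := y - x) (by simpa [edist_eq_enorm_sub] using hy)
    have h3 := hp.hasSum (y := y - x) (by simpa [edist_eq_enorm_sub] using hy)
    have h4 := (ContinuousLinearMap.apply ℝ ℝ (1 : ℝ)).hasSum h2
    rw [add_sub_cancel] at h3 h4
    have h5 : deriv G y = f y := by
      refine HasSum.unique ?_ h3
      have e : (fun n => (ContinuousLinearMap.apply ℝ ℝ (1 : ℝ)) ((q.derivSeries n) fun _ => y - x)) =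
          fun n => (p n) fun _ => y - x := by
        funext n
        rw [FormalMultilinearSeries.apply_eq_pow_smul_coeff,
          FormalMultilinearSeries.apply_eq_pow_smul_coeff, ContinuousLinearMap.apply_apply,
          smul_apply, FormalMultilinearSeries.derivSeries_coeff_one, hq,
          FormalMultilinearSeries.coeff_ofScalars]
        simp only [hc, Nat.add_sub_cancel, nsmul_eq_mul, smul_eq_mul]
        have : ((n : ℝ) + 1) ≠ 0 := by positivity
        push_cast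
        field_simp
      rw [← e]
      exact h4
    rw [← h5]
    exact h1.hasDerivAt
  have hmem : ∀ᶠ y in 𝓝 x, y ∈ Metric.eball x r := Metric.eball_mem_nhds x hp.r_pos
  obtain ⟨ε, hε, hball⟩ := Metric.eventually_nhds_iff_ball.1 (hF.and hmem)
  have hconst : ∀ y ∈ Metric.ball x ε, F y - G y = F x - G x := by
    intro y hy
    have h1 : ∀ z ∈ Metric.ball x ε, HasDerivAt (fun z => F z - G z) 0 z := by
      intro z hz
      have h := (hball z hz).1.sub (hGd z (hball z hz).2)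
      rwa [sub_self] at h
    have hcv := convex_ball x ε
    refine (convex_ball x ε).is_const_of_fderivWithin_eq_zero (𝕜 := ℝ) (f := fun z => F z - G z) ?_ ?_ hy
      (Metric.mem_ball_self hε)
    · exact fun z hz => (h1 z hz).differentiableAt.differentiableWithinAt
    · intro z hz
      rw [fderivWithin_of_isOpen Metric.isOpen_ball hz]
      ext
      simp [(h1 z hz).deriv]
  have hev : F =ᶠ[𝓝 x] fun y => G y + (F x - G x) := by
    filter_upwards [Metric.ball_mem_nhds x hε] with y hy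
    rw [← hconst y hy]
    ring
  exact (hG.analyticAt.add analyticAt_const).congr hev.symm

theorem posP (hQ1 : St_Q1) {m : ℝ} (hm : m < 1) : 0 < eP m := (hQ1.2.2.1 m hm).1

theorem posQ (hQ1 : St_Q1) {m : ℝ} (hm : m < 1) : 0 < eQ m := (hQ1.2.2.1 m hm).2

theorem posK (hQ1 : St_Q1) {m : ℝ} (hm : m < 1) : 0 < eK m :=
  add_pos (posP hQ1 hm) (posQ hQ1 hm)

theorem posE (hQ1 : St_Q1) {m : ℝ} (hm : m < 1) : 0 < eE m :=
  add_pos (posQ hQ1 hm) (mul_pos (sub_pos.2 hm) (posP hQ1 hm))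

theorem posR (hQ1 : St_Q1) {m : ℝ} (hm : m < 1) : 0 < eE m * eP m * eQ m / eK m :=
  div_pos (mul_pos (mul_pos (posE hQ1 hm) (posP hQ1 hm)) (posQ hQ1 hm)) (posK hQ1 hm)

theorem posS (hQ1 : St_Q1) {m : ℝ} (hm : m < 1) : 0 < fS m :=
  div_pos (Real.sqrt_pos.2 (posR hQ1 hm)) (sub_pos.2 hm)

theorem anS (hQ1 : St_Q1) {m : ℝ} (hm : m < 1) : AnalyticAt ℝ fS m := by
  have hP : AnalyticAt ℝ eP m := hQ1.1 m hm
  have hQ : AnalyticAt ℝ eQ m := hQ1.2.1 m hm
  have hK : AnalyticAt ℝ eK m := hP.add hQ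
  have h1 : AnalyticAt ℝ (fun x : ℝ => 1 - x) m := analyticAt_const.sub analyticAt_id
  have hE : AnalyticAt ℝ eE m := hQ.add (h1.mul hP)
  have hR : AnalyticAt ℝ (fun x => eE x * eP x * eQ x / eK x) m :=
    ((hE.mul hP).mul hQ).div hK (posK hQ1 hm).ne'
  have hs : AnalyticAt ℝ Real.sqrt (eE m * eP m * eQ m / eK m) :=
    (Real.contDiffAt_sqrt (n := ω) (posR hQ1 hm).ne').analyticAt
  have hc : AnalyticAt ℝ (fun x => Real.sqrt (eE x * eP x * eQ x / eK x)) m :=
    AnalyticAt.fun_comp (g := Real.sqrt) hs hR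
  exact hc.div h1 (sub_pos.2 hm).ne'

theorem contS (hQ1 : St_Q1) : ContinuousOn fS (Iio 1) := fun _ hm =>
  (anS hQ1 hm).continuousAt.continuousWithinAt

/-- the arc length -/
noncomputable def sg (m : ℝ) : ℝ := ∫ t in (0 : ℝ)..m, fS t

theorem sg_zero : sg 0 = 0 := intervalIntegral.integral_same

theorem sg_deriv (hQ1 : St_Q1) {m : ℝ} (hm : m < 1) : HasDerivAt sg (fS m) m := by
  have hsub : uIcc 0 m ⊆ Iio 1 := fun x hx =>
    lt_of_le_of_lt (mem_uIcc.1 hx |>.elim (fun h => h.2.trans (le_max_right 0 m))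
      fun h => h.2.trans (le_max_left 0 m)) (max_lt one_pos hm)
  exact intervalIntegral.integral_hasDerivAt_right ((contS hQ1).mono hsub).intervalIntegrable
    ((contS hQ1).stronglyMeasurableAtFilter isOpen_Iio m hm) (anS hQ1 hm).continuousAt

theorem sg_an (hQ1 : St_Q1) {m : ℝ} (hm : m < 1) : AnalyticAt ℝ sg m :=
  prim (anS hQ1 hm) (by
    filter_upwards [isOpen_Iio.mem_nhds hm] with y hy
    exact sg_deriv hQ1 hy)

theorem sg_cont (hQ1 : St_Q1) : ContinuousOn sg (Iio 1) := fun _ hm =>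
  (sg_deriv hQ1 hm).continuousAt.continuousWithinAt

theorem sg_mono (hQ1 : St_Q1) : StrictMonoOn sg (Iio 1) := by
  refine strictMonoOn_of_deriv_pos (convex_Iio 1) (sg_cont hQ1) fun x hx => ?_
  rw [interior_Iio] at hx
  rw [(sg_deriv hQ1 hx).deriv]
  exact posS hQ1 hx

/-- the imaginary modulus -/
noncomputable def ph (m : ℝ) : ℝ := -m / (1 - m)

theorem ph_lt {m : ℝ} (hm : m < 1) : ph m < 1 := by
  unfold ph
  rw [div_lt_one (sub_pos.2 hm)]
  linarith

theorem ph_deriv {m : ℝ} (hm : m < 1) : HasDerivAt ph (-(1 / (1 - m) ^ 2)) m := by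
  have h0 : (1 - m) ≠ 0 := (sub_pos.2 hm).ne'
  have h1 : HasDerivAt (fun x : ℝ => -x) (-1) m := (hasDerivAt_id m).neg
  have h2 : HasDerivAt (fun x : ℝ => 1 - x) (-1) m := (hasDerivAt_id m).const_sub 1
  have h3 := h1.div h2 h0
  have e : (-1 * (1 - m) - -m * -1) / (1 - m) ^ 2 = -(1 / (1 - m) ^ 2) := by
    field_simp
    ring
  rw [e] at h3
  exact h3

theorem fS_ph (hQ1 : St_Q1) (hQ2 : St_Q2) {m : ℝ} (hm : m < 1) :
    fS (ph m) * (-(1 / (1 - m) ^ 2)) = -fS m := by
  have h1 : 0 < 1 - m := sub_pos.2 hm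
  obtain ⟨_, _, hP, hQ⟩ := hQ2 m hm
  have hP' : eP (ph m) = √(1 - m) * eQ m := hP
  have hQ' : eQ (ph m) = √(1 - m) * eP m := hQ
  set r : ℝ := √(1 - m) with hr
  have hr0 : 0 < r := Real.sqrt_pos.2 h1
  have hr2 : r ^ 2 = 1 - m := Real.sq_sqrt h1.le
  have e1 : 1 - ph m = 1 / (1 - m) := by
    unfold ph
    field_simp
    ring
  have hK' : eK (ph m) = r * eK m := by
    unfold eK
    rw [hP', hQ']
    ring
  have hE' : eE (ph m) = eE m / r := by
    unfold eE
    rw [e1, hP', hQ', ← hr2]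
    field_simp
    ring
  have hPp := posP hQ1 hm
  have hQp := posQ hQ1 hm
  have hKp := posK hQ1 hm
  have hEp := posE hQ1 hm
  have e2 : eE (ph m) * eP (ph m) * eQ (ph m) / eK (ph m) = eE m * eP m * eQ m / eK m := by
    rw [hK', hE', hP', hQ']
    field_simp
  unfold fS
  rw [e2, e1]
  field_simp

theorem sg_ph (hQ1 : St_Q1) (hQ2 : St_Q2) {m : ℝ} (hm : m < 1) : sg (ph m) = -sg m := by
  have hd : ∀ x ∈ Iio (1 : ℝ), HasDerivAt (fun x => sg (ph x) + sg x) 0 x := by
    intro x hx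
    have h1 : HasDerivAt (fun x => sg (ph x)) (fS (ph x) * (-(1 / (1 - x) ^ 2))) x :=
      HasDerivAt.comp (h₂ := sg) x (sg_deriv hQ1 (ph_lt hx)) (ph_deriv hx)
    have h2 := h1.add (sg_deriv hQ1 hx)
    rw [fS_ph hQ1 hQ2 hx, neg_add_cancel] at h2
    exact h2
  have h3 := isOpen_Iio.is_const_of_deriv_eq_zero (𝕜 := ℝ) isPreconnected_Iio
    (f := fun x => sg (ph x) + sg x)
    (fun x hx => (hd x hx).differentiableAt.differentiableWithinAt)
    (fun x hx => (hd x hx).deriv) hm (mem_Iio.2 (one_pos : (0 : ℝ) < 1))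
  have h4 : ph 0 = 0 := by simp [ph]
  simp only [h4, sg_zero, add_zero] at h3
  linarith

theorem fS_low (hQ1 : St_Q1) {m : ℝ} (h0 : 0 ≤ m) (hm : m < 1) : 1 / 2 * (1 / (1 - m)) ≤ fS m := by
  obtain ⟨hP, hQ⟩ := hQ1.2.2.2.1 m hm h0
  have hpi := Real.pi_gt_three
  have hP1 : 3 / 4 ≤ eP m := by linarith
  have hQ1' : 3 / 4 ≤ eQ m := by linarith
  have hE : eQ m ≤ eE m := by
    unfold eE
    have := mul_pos (sub_pos.2 hm) (posP hQ1 hm)
    linarith
  have hK : 0 < eK m := posK hQ1 hm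
  have hR : (1 / 2 : ℝ) ^ 2 ≤ eE m * eP m * eQ m / eK m := by
    rw [le_div_iff₀ hK]
    have h1 : eQ m * eP m * eQ m ≤ eE m * eP m * eQ m := by
      have h2 : 0 ≤ eP m * eQ m := by positivity
      nlinarith [mul_le_mul_of_nonneg_right hE h2]
    have h3 : 9 / 16 * eP m ≤ eQ m * eP m * eQ m := by
      have h4 : 9 / 16 ≤ eQ m * eQ m := by nlinarith
      nlinarith [mul_le_mul_of_nonneg_right h4 (le_trans (by norm_num) hP1 : (0 : ℝ) ≤ eP m)]
    have h5 : 9 / 16 * eQ m ≤ eQ m * eP m * eQ m := by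
      have h4 : 9 / 16 ≤ eP m * eQ m := by nlinarith
      nlinarith [mul_le_mul_of_nonneg_right h4 (le_trans (by norm_num) hQ1' : (0 : ℝ) ≤ eQ m)]
    have hKe : eK m = eP m + eQ m := rfl
    rw [hKe]
    nlinarith
  have hs : 1 / 2 ≤ √(eE m * eP m * eQ m / eK m) := Real.le_sqrt_of_sq_le hR
  unfold fS
  rw [mul_one_div]
  exact div_le_div_of_nonneg_right hs (sub_pos.2 hm).le

theorem sg_low (hQ1 : St_Q1) {m : ℝ} (h0 : 0 ≤ m) (hm : m < 1) :
    -(1 / 2 * Real.log (1 - m)) ≤ sg m := by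
  have hd : ∀ x < 1, HasDerivAt (fun x => sg x + 1 / 2 * Real.log (1 - x))
      (fS x + 1 / 2 * (-1 / (1 - x))) x := by
    intro x hx
    have h2 : HasDerivAt (fun x : ℝ => 1 - x) (-1) x := (hasDerivAt_id x).const_sub 1
    exact (sg_deriv hQ1 hx).add ((h2.log (sub_pos.2 hx).ne').const_mul (1 / 2))
  have hmono : MonotoneOn (fun x => sg x + 1 / 2 * Real.log (1 - x)) (Ico 0 1) := by
    refine monotoneOn_of_deriv_nonneg (convex_Ico 0 1)
      (fun x hx => (hd x hx.2).continuousAt.continuousWithinAt)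
      (fun x hx => ?_) fun x hx => ?_
    · rw [interior_Ico] at hx
      exact (hd x hx.2).differentiableAt.differentiableWithinAt
    · rw [interior_Ico] at hx
      rw [(hd x hx.2).deriv]
      have h := fS_low hQ1 hx.1.le hx.2
      have e : -1 / (1 - x) = -(1 / (1 - x)) := by ring
      rw [e]
      linarith
  have h := hmono (left_mem_Ico.2 one_pos) ⟨h0, hm⟩ h0
  simp only [sg_zero, sub_zero, Real.log_one, mul_zero, add_zero] at h
  linarith

theorem sg_surj_nonneg (hQ1 : St_Q1) {s : ℝ} (hs : 0 ≤ s) : ∃ m < 1, sg m = s := by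
  have he : 0 < Real.exp (-(2 * s)) := Real.exp_pos _
  have he1 : Real.exp (-(2 * s)) ≤ 1 := Real.exp_le_one_iff.2 (by linarith)
  set b : ℝ := 1 - Real.exp (-(2 * s)) with hb
  have hb0 : 0 ≤ b := by linarith
  have hb1 : b < 1 := by linarith
  have h1 : s ≤ sg b := by
    have h := sg_low hQ1 hb0 hb1
    have e : 1 - b = Real.exp (-(2 * s)) := by rw [hb]; ring
    rw [e, Real.log_exp] at h
    linarith
  have hc : ContinuousOn sg (Icc 0 b) := (sg_cont hQ1).mono fun x hx => lt_of_le_of_lt hx.2 hb1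
  obtain ⟨m, hm, hms⟩ := intermediate_value_Icc hb0 hc
    (show s ∈ Icc (sg 0) (sg b) from ⟨by rw [sg_zero]; exact hs, h1⟩)
  exact ⟨m, lt_of_le_of_lt hm.2 hb1, hms⟩

theorem sg_surj (hQ1 : St_Q1) (hQ2 : St_Q2) (s : ℝ) : ∃ m < 1, sg m = s := by
  rcases le_total 0 s with hs | hs
  · exact sg_surj_nonneg hQ1 hs
  · obtain ⟨m, hm, hms⟩ := sg_surj_nonneg hQ1 (neg_nonneg.2 hs)
    exact ⟨ph m, ph_lt hm, by rw [sg_ph hQ1 hQ2 hm, hms, neg_neg]⟩

end Q4x

open Q4x in
theorem thm_Q4 (hQ1 : St_Q1) (hQ2 : St_Q2) : St_Q4 := by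
  choose μ hμ1 hμs using sg_surj hQ1 hQ2
  have hinj : ∀ m < 1, ∀ m' < 1, sg m = sg m' → m = m' := fun m hm m' hm' h =>
    (sg_mono hQ1).injOn hm hm' h
  have hinv : ∀ m < 1, μ (sg m) = m := fun m hm => hinj _ (hμ1 _) _ hm (hμs _)
  have han : ∀ s, AnalyticAt ℝ μ s := by
    intro s
    have hA := sg_an hQ1 (hμ1 s)
    have hne : fS (μ s) ≠ 0 := (posS hQ1 (hμ1 s)).ne'
    have hsd : HasStrictDerivAt sg (fS (μ s)) (μ s) := by
      have h := hA.hasStrictDerivAt
      rwa [(sg_deriv hQ1 (hμ1 s)).deriv] at h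
    have hcd : ContDiffAt ℝ ω sg (μ s) := hA.contDiffAt
    set g : ℝ → ℝ := hsd.localInverse sg (fS (μ s)) (μ s) hne with hg
    have hgr : ∀ᶠ y in 𝓝 (sg (μ s)), sg (g y) = y := hsd.eventually_right_inverse hne
    have hga : g (sg (μ s)) = μ s := (hsd.eventually_left_inverse hne).self_of_nhds
    have hgan : AnalyticAt ℝ g (sg (μ s)) := by
      have h := hcd.to_localInverse (f' := ContinuousLinearEquiv.unitsEquivAut ℝ (Units.mk0 _ hne))
        (hsd.hasStrictFDerivAt_equiv hne).hasFDerivAt (by simp)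
      exact h.analyticAt
    rw [hμs s] at hgr hga hgan
    have hgc : ContinuousAt g s := hgan.continuousAt
    have h1 : ∀ᶠ y in 𝓝 s, g y < 1 := by
      have : Iio (1 : ℝ) ∈ 𝓝 (g s) := isOpen_Iio.mem_nhds (by rw [hga]; exact hμ1 s)
      exact hgc this
    refine hgan.congr ?_
    filter_upwards [hgr, h1] with y hy1 hy2
    have h2 := hinv (g y) hy2
    rw [hy1] at h2
    exact h2.symm
  have hμ0 : μ 0 = 0 := by
    have h := hinv 0 one_pos
    rwa [sg_zero] at h
  refine ⟨μ, fun s _ => han s, hμ1, hμ0, ?_, ?_, ?_⟩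
  · intro s hs
    have h1 : sg 0 < sg (μ s) := by rw [sg_zero, hμs]; exact hs
    exact ((sg_mono hQ1).lt_iff_lt (mem_Iio.2 (one_pos : (0 : ℝ) < 1)) (hμ1 s)).1 h1
  · intro s
    have h1 : sg (ph (μ s)) = -s := by rw [sg_ph hQ1 hQ2 (hμ1 s), hμs]
    have h2 := hinv (ph (μ s)) (ph_lt (hμ1 s))
    rw [h1] at h2
    exact h2
  · intro s
    refine HasDerivAt.of_local_left_inverse (han s).continuousAt (sg_deriv hQ1 (hμ1 s))
      (posS hQ1 (hμ1 s)).ne' (Eventually.of_forall fun y => hμs y)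

end Pool.Agent.FUE
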