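import Pool.Agent.FUE.StQ

/-!
# Fueter sections [Q5]: the Atiyah-Hitchin equations for the explicit solution (helper67)
-/

set_option autoImplicit false

open scoped ContDiff

namespace Pool.Agent.FUE

namespace Q5x

section alg

variable {m P Q : ℝ} (hm : 0 < m) (hm1 : m < 1) (hP : 0 < P) (hQ : 0 < Q)

include hm hm1 hP hQ

lemma idA : 2 * ((P + Q) * P * Q / (Q + (1 - m) * P)) + m *
    ((((Q / (2 * (1 - m)) * P + (P + Q) * ((Q / (1 - m) - P) / (2 * m))) * Q + (P + Q) * P *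
      (Q / (2 * (1 - m)) - (Q / (1 - m) - P) / (2 * m))) * (Q + (1 - m) * P) -
      (P + Q) * P * Q * (-(P / 2))) / (Q + (1 - m) * P) ^ 2) =
    (P + Q) * P * Q / (Q + (1 - m) * P) *
    ((4 * m ^ 2 * ((P + Q) * P * Q / (Q + (1 - m) * P)) -
      (4 * ((P + Q) * (Q + (1 - m) * P) * P / Q) + 8 * ((P + Q) * (Q + (1 - m) * P)) +
        4 * ((P + Q) * (Q + (1 - m) * P) * Q / P))) / (-8 * ((P + Q) * (Q + (1 - m) * P))) *
      ((Q + (1 - m) * P) / (P + Q) / (1 - m))) := by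
  have h1 : 0 < 1 - m := by linarith
  have h2 : 0 < P + Q := by linarith
  have h3 : 0 < Q + (1 - m) * P := by positivity
  have h1' := h1.ne'
  have h2' := h2.ne'
  have h3' := h3.ne'
  have hm' := hm.ne'
  have hP' := hP.ne'
  have hQ' := hQ.ne'
  field_simp
  ring

lemma idB : ((((Q / (2 * (1 - m)) * (Q + (1 - m) * P) + (P + Q) * (-(P / 2))) * P +
      (P + Q) * (Q + (1 - m) * P) * ((Q / (1 - m) - P) / (2 * m))) * Q -
      (P + Q) * (Q + (1 - m) * P) * P * (Q / (2 * (1 - m)) - (Q / (1 - m) - P) / (2 * m))) /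
        Q ^ 2) =
    (P + Q) * (Q + (1 - m) * P) * P / Q *
    ((4 * ((P + Q) * (Q + (1 - m) * P) * P / Q) -
      (4 * ((P + Q) * (Q + (1 - m) * P) * Q / P) + 4 * m ^ 2 * ((P + Q) * P * Q /
        (Q + (1 - m) * P)) + 8 * m * ((P + Q) * Q))) / (-8 * m * ((P + Q) * Q)) *
      (Q / (P + Q) / (1 - m))) := by
  have h1 : 0 < 1 - m := by linarith
  have h2 : 0 < P + Q := by linarith
  have h3 : 0 < Q + (1 - m) * P := by positivity
  have h1' := h1.ne'
  have h2' := h2.ne'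
  have h3' := h3.ne'
  have hm' := hm.ne'
  have hP' := hP.ne'
  have hQ' := hQ.ne'
  field_simp
  ring

lemma idC : -((((Q / (2 * (1 - m)) * (Q + (1 - m) * P) + (P + Q) * (-(P / 2))) * Q +
      (P + Q) * (Q + (1 - m) * P) * (Q / (2 * (1 - m)) - (Q / (1 - m) - P) / (2 * m))) * P -
      (P + Q) * (Q + (1 - m) * P) * Q * ((Q / (1 - m) - P) / (2 * m))) /
        P ^ 2) =
    (P + Q) * (Q + (1 - m) * P) * Q / P *
    ((4 * ((P + Q) * (Q + (1 - m) * P) * Q / P) -
      (4 * m ^ 2 * ((P + Q) * P * Q / (Q + (1 - m) * P)) +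
        4 * ((P + Q) * (Q + (1 - m) * P) * P / Q) - 8 * m * ((P + Q) * P))) /
          (8 * m * ((P + Q) * P)) * (P / (P + Q) / (1 - m))) := by
  have h1 : 0 < 1 - m := by linarith
  have h2 : 0 < P + Q := by linarith
  have h3 : 0 < Q + (1 - m) * P := by positivity
  have h1' := h1.ne'
  have h2' := h2.ne'
  have h3' := h3.ne'
  have hm' := hm.ne'
  have hP' := hP.ne'
  have hQ' := hQ.ne'
  field_simp
  ring

end alg

lemma finA {a W W' m R : ℝ} (ha : 0 < a) (hW : a * a = W) (h : 2 * W + m * W' = W * R) :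
    2 * 1 * a + 2 * m * (W' / (2 * a)) = R * a := by
  have ha' := ha.ne'
  rw [← hW] at h
  have h1 : 2 * 1 * a + 2 * m * (W' / (2 * a)) = (2 * (a * a) + m * W') / a := by
    field_simp
  rw [h1, h]
  field_simp

lemma finB {a W W' R : ℝ} (ha : 0 < a) (hW : a * a = W) (h : W' = W * R) :
    2 * (W' / (2 * a)) = R * a := by
  have ha' := ha.ne'
  rw [← hW] at h
  have h1 : 2 * (W' / (2 * a)) = W' / a := by
    field_simp
  rw [h1, h]
  field_simp

end Q5x

theorem thm_Q5 (hQ1 : St_Q1) (hQ2 : St_Q2) : St_Q5 := by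
  intro m hm hm1
  obtain ⟨q1, q2, q3, -⟩ := hQ1
  obtain ⟨hP, hQ⟩ := q3 m hm1
  obtain ⟨dK, dE, -, -⟩ := hQ2 m hm1
  have h1m : 0 < 1 - m := by linarith
  have dP0 : HasDerivAt eP (deriv eP m) m := (q1 m hm1).differentiableAt.hasDerivAt
  have dQ0 : HasDerivAt eQ (deriv eQ m) m := (q2 m hm1).differentiableAt.hasDerivAt
  have e1 : deriv eP m + deriv eQ m = eQ m / (2 * (1 - m)) := (dP0.add dQ0).unique dK
  have e2 : deriv eQ m + (-1 * eP m + (1 - m) * deriv eP m) = -(eP m / 2) := by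
    have h1 : HasDerivAt (fun m : ℝ => 1 - m) (-1) m := (hasDerivAt_id m).const_sub 1
    exact (dQ0.add (h1.mul dP0)).unique dE
  have e3 : deriv eP m = (eQ m / (1 - m) - eP m) / (2 * m) := by
    have h1 : m * deriv eP m = eQ m / (2 * (1 - m)) - eP m / 2 := by linarith
    have hm' := hm.ne'
    have h1m' := h1m.ne'
    have h2 : eQ m / (2 * (1 - m)) - eP m / 2 = (eQ m / (1 - m) - eP m) / 2 := by
      field_simp
    rw [h2] at h1
    rw [eq_div_iff (by positivity)]
    linarith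
  have e4 : deriv eQ m = eQ m / (2 * (1 - m)) - (eQ m / (1 - m) - eP m) / (2 * m) := by
    rw [← e3]
    linarith
  rw [e3] at dP0
  rw [e4] at dQ0
  have hK : eK m = eP m + eQ m := rfl
  have hE : eE m = eQ m + (1 - m) * eP m := rfl
  have hK0 : 0 < eK m := by rw [hK]; positivity
  have hE0 : 0 < eE m := by rw [hE]; positivity
  have dWA := ((dK.mul dP0).mul dQ0).div dE hE0.ne'
  have dWB := ((dK.mul dE).mul dP0).div dQ0 hQ.ne'
  have dWC := ((dK.mul dE).mul dQ0).div dP0 hP.ne'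
  obtain ⟨a, ha⟩ : ∃ a, a = √(eK m * eP m * eQ m / eE m) := ⟨_, rfl⟩
  obtain ⟨b, hb⟩ : ∃ b, b = √(eK m * eE m * eP m / eQ m) := ⟨_, rfl⟩
  obtain ⟨c, hc⟩ : ∃ c, c = √(eK m * eE m * eQ m / eP m) := ⟨_, rfl⟩
  have hWA : 0 < eK m * eP m * eQ m / eE m := by positivity
  have hWB : 0 < eK m * eE m * eP m / eQ m := by positivity
  have hWC : 0 < eK m * eE m * eQ m / eP m := by positivity
  have ha0 : 0 < a := by rw [ha]; exact Real.sqrt_pos.2 hWA
  have hb0 : 0 < b := by rw [hb]; exact Real.sqrt_pos.2 hWB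
  have hc0 : 0 < c := by rw [hc]; exact Real.sqrt_pos.2 hWC
  have haa : a * a = eK m * eP m * eQ m / eE m := by rw [ha]; exact Real.mul_self_sqrt hWA.le
  have hbb : b * b = eK m * eE m * eP m / eQ m := by rw [hb]; exact Real.mul_self_sqrt hWB.le
  have hcc : c * c = eK m * eE m * eQ m / eP m := by rw [hc]; exact Real.mul_self_sqrt hWC.le
  have hKn := hK0.ne'
  have hEn := hE0.ne'
  have hPn := hP.ne'
  have hQn := hQ.ne'
  have hab : a * b = eK m * eP m := by
    have e : eK m * eP m * eQ m / eE m * (eK m * eE m * eP m / eQ m) = (eK m * eP m) ^ 2 := by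
      field_simp
    rw [ha, hb, ← Real.sqrt_mul hWA.le, e, Real.sqrt_sq (by positivity)]
  have hca : c * a = eK m * eQ m := by
    have e : eK m * eE m * eQ m / eP m * (eK m * eP m * eQ m / eE m) = (eK m * eQ m) ^ 2 := by
      field_simp
    rw [ha, hc, ← Real.sqrt_mul hWC.le, e, Real.sqrt_sq (by positivity)]
  have hbc : b * c = eK m * eE m := by
    have e : eK m * eE m * eP m / eQ m * (eK m * eE m * eQ m / eP m) = (eK m * eE m) ^ 2 := by
      field_simp
    rw [hb, hc, ← Real.sqrt_mul hWB.le, e, Real.sqrt_sq (by positivity)]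
  have hSA : √(eE m * eP m * eQ m / eK m) = a * (eE m / eK m) := by
    have e : eE m * eP m * eQ m / eK m = eK m * eP m * eQ m / eE m * (eE m / eK m) ^ 2 := by
      field_simp
    rw [e, Real.sqrt_mul hWA.le, Real.sqrt_sq (by positivity), ← ha]
  have hSB : √(eE m * eP m * eQ m / eK m) = b * (eQ m / eK m) := by
    have e : eE m * eP m * eQ m / eK m = eK m * eE m * eP m / eQ m * (eQ m / eK m) ^ 2 := by
      field_simp
    rw [e, Real.sqrt_mul hWB.le, Real.sqrt_sq (by positivity), ← hb]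
  have hSC : √(eE m * eP m * eQ m / eK m) = c * (eP m / eK m) := by
    have e : eE m * eP m * eQ m / eK m = eK m * eE m * eQ m / eP m * (eP m / eK m) ^ 2 := by
      field_simp
    rw [e, Real.sqrt_mul hWC.le, Real.sqrt_sq (by positivity), ← hc]
  have hfA : fA m = 2 * m * a := by rw [fA, ha]
  have hfB : fB m = 2 * b := by rw [fB, hb]
  have hfC : fC m = -(2 * c) := by rw [fC, hc]
  have iA := Q5x.idA hm hm1 hP hQ
  have iB := Q5x.idB hm hm1 hP hQ
  have iC := Q5x.idC hm hm1 hP hQ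
  rw [← hK, ← hE] at iA iB iC
  simp only [Pi.mul_apply] at dWA dWB dWC
  have sA := dWA.sqrt hWA.ne'
  have sB := dWB.sqrt hWB.ne'
  have sC := dWC.sqrt hWC.ne'
  have eA : √((eK * eP * eQ / eE) m) = a := ha.symm
  have eB : √((eK * eE * eP / eQ) m) = b := hb.symm
  have eC : √((eK * eE * eQ / eP) m) = c := hc.symm
  rw [eA] at sA
  rw [eB] at sB
  rw [eC] at sC
  refine ⟨?_, ?_, ?_⟩
  · have d := ((hasDerivAt_id m).const_mul 2).mul sA
    refine HasDerivAt.congr_deriv (f := fA) d ?_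
    rw [hfA, hfB, hfC, fS, hSA, eA]
    have h2 : (2 * b - -(2 * c)) ^ 2 = 4 * (eK m * eE m * eP m / eQ m) + 8 * (eK m * eE m) +
        4 * (eK m * eE m * eQ m / eP m) := by
      rw [← hbb, ← hcc, ← hbc]; ring
    have h3 : (2 * m * a) ^ 2 = 4 * m ^ 2 * (eK m * eP m * eQ m / eE m) := by
      rw [← haa]; ring
    have h4 : 2 * (2 * b) * -(2 * c) = -8 * (eK m * eE m) := by rw [← hbc]; ring
    rw [h2, h3, h4]
    refine (Q5x.finA ha0 haa iA).trans ?_
    ring
  · have d := sB.const_mul 2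
    refine HasDerivAt.congr_deriv (f := fB) d ?_
    rw [hfA, hfB, hfC, fS, hSB]
    have h2 : (-(2 * c) - 2 * m * a) ^ 2 = 4 * (eK m * eE m * eQ m / eP m) +
        4 * m ^ 2 * (eK m * eP m * eQ m / eE m) + 8 * m * (eK m * eQ m) := by
      rw [← haa, ← hcc, ← hca]; ring
    have h3 : (2 * b) ^ 2 = 4 * (eK m * eE m * eP m / eQ m) := by
      rw [← hbb]; ring
    have h4 : 2 * -(2 * c) * (2 * m * a) = -8 * m * (eK m * eQ m) := by rw [← hca]; ring
    rw [h2, h3, h4]
    refine (Q5x.finB hb0 hbb iB).trans ?_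
    ring
  · have d := (sC.const_mul 2).neg
    refine HasDerivAt.congr_deriv (f := fC) d ?_
    rw [hfA, hfB, hfC, fS, hSC]
    have h2 : (2 * m * a - 2 * b) ^ 2 = 4 * m ^ 2 * (eK m * eP m * eQ m / eE m) +
        4 * (eK m * eE m * eP m / eQ m) - 8 * m * (eK m * eP m) := by
      rw [← haa, ← hbb, ← hab]; ring
    have h3 : (-(2 * c)) ^ 2 = 4 * (eK m * eE m * eQ m / eP m) := by
      rw [← hcc]; ring
    have h4 : 2 * (2 * m * a) * (2 * b) = 8 * m * (eK m * eP m) := by rw [← hab]; ring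
    rw [h2, h3, h4]
    have h5 := Q5x.finB hc0 hcc iC
    rw [neg_div, mul_neg] at h5
    refine h5.trans ?_
    ring

end Pool.Agent.FUE
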