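import Pool.Agent.FUE.StQ

/-!
# Fueter sections, module Q6 (helper1 for helper16)
-/

set_option autoImplicit false

open scoped ContDiff

namespace Pool.Agent.FUE

namespace Q6x

theorem an_sqrt {f : ℝ → ℝ} {x : ℝ} (hf : AnalyticAt ℝ f x) (h : 0 < f x) :
    AnalyticAt ℝ (fun y => √(f y)) x := by
  have h1 : AnalyticAt ℝ (fun y => Real.exp (Real.log (f y) * (1 / 2))) x :=
    ((hf.log h).mul analyticAt_const).rexp'
  refine h1.congr ?_
  filter_upwards [hf.continuousAt.eventually (lt_mem_nhds h)] with y hy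
  rw [mul_one_div, Real.exp_half, Real.exp_log hy]

section

variable (hQ1 : St_Q1) {m : ℝ} (hm : m < 1)
include hQ1 hm

theorem P_pos : 0 < eP m := (hQ1.2.2.1 m hm).1

theorem Q_pos : 0 < eQ m := (hQ1.2.2.1 m hm).2

theorem K_pos : 0 < eK m := add_pos (P_pos hQ1 hm) (Q_pos hQ1 hm)

theorem E_pos : 0 < eE m :=
  add_pos (Q_pos hQ1 hm) (mul_pos (sub_pos.2 hm) (P_pos hQ1 hm))

theorem P_an : AnalyticAt ℝ eP m := hQ1.1 m hm

theorem Q_an : AnalyticAt ℝ eQ m := hQ1.2.1 m hm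

theorem K_an : AnalyticAt ℝ eK m := (P_an hQ1 hm).add (Q_an hQ1 hm)

theorem E_an : AnalyticAt ℝ eE m :=
  (Q_an hQ1 hm).add ((analyticAt_const.sub analyticAt_id).mul (P_an hQ1 hm))

theorem A_an : AnalyticAt ℝ fA m := by
  have h1 := P_pos hQ1 hm
  have h2 := Q_pos hQ1 hm
  have h3 := K_pos hQ1 hm
  have h4 := E_pos hQ1 hm
  exact (analyticAt_const.mul analyticAt_id).mul (an_sqrt
    ((((K_an hQ1 hm).mul (P_an hQ1 hm)).mul (Q_an hQ1 hm)).div (E_an hQ1 hm) h4.ne')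
    (by show 0 < eK m * eP m * eQ m / eE m; positivity))

theorem B_an : AnalyticAt ℝ fB m := by
  have h1 := P_pos hQ1 hm
  have h2 := Q_pos hQ1 hm
  have h3 := K_pos hQ1 hm
  have h4 := E_pos hQ1 hm
  exact analyticAt_const.mul (an_sqrt
    ((((K_an hQ1 hm).mul (E_an hQ1 hm)).mul (P_an hQ1 hm)).div (Q_an hQ1 hm) h2.ne')
    (by show 0 < eK m * eE m * eP m / eQ m; positivity))

theorem C_an : AnalyticAt ℝ fC m := by
  have h1 := P_pos hQ1 hm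
  have h2 := Q_pos hQ1 hm
  have h3 := K_pos hQ1 hm
  have h4 := E_pos hQ1 hm
  exact (analyticAt_const.mul (an_sqrt
    ((((K_an hQ1 hm).mul (E_an hQ1 hm)).mul (Q_an hQ1 hm)).div (P_an hQ1 hm) h1.ne')
    (by show 0 < eK m * eE m * eQ m / eP m; positivity))).neg

theorem S_pos : 0 < fS m := by
  have h1 := P_pos hQ1 hm
  have h2 := Q_pos hQ1 hm
  have h3 := K_pos hQ1 hm
  have h4 := E_pos hQ1 hm
  have h5 : 0 < 1 - m := sub_pos.2 hm
  rw [fS]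
  positivity

theorem B_pos : 0 < fB m := by
  have h1 := P_pos hQ1 hm
  have h2 := Q_pos hQ1 hm
  have h3 := K_pos hQ1 hm
  have h4 := E_pos hQ1 hm
  rw [fB]
  positivity

theorem C_neg : fC m < 0 := by
  have h1 := P_pos hQ1 hm
  have h2 := Q_pos hQ1 hm
  have h3 := K_pos hQ1 hm
  have h4 := E_pos hQ1 hm
  rw [fC, neg_lt_zero]
  positivity

theorem A_pos (hm0 : 0 < m) : 0 < fA m := by
  have h1 := P_pos hQ1 hm
  have h2 := Q_pos hQ1 hm
  have h3 := K_pos hQ1 hm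
  have h4 := E_pos hQ1 hm
  rw [fA]
  positivity

/-- the values at the dual parameter -/
theorem dual (hQ2 : St_Q2) : fA (-m / (1 - m)) = -fA m ∧ fB (-m / (1 - m)) = -fC m ∧
    fC (-m / (1 - m)) = -fB m := by
  obtain ⟨-, -, hP, hQ⟩ := hQ2 m hm
  have h1 := P_pos hQ1 hm
  have h2 := Q_pos hQ1 hm
  have h3 := K_pos hQ1 hm
  have h4 := E_pos hQ1 hm
  have h5 : 0 < 1 - m := sub_pos.2 hm
  obtain ⟨w, hw⟩ : ∃ w : ℝ, w = √(1 - m) := ⟨_, rfl⟩
  have hw0 : 0 < w := by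
    rw [hw]
    exact Real.sqrt_pos.2 h5
  have hww : w ^ 2 = 1 - m := by
    rw [hw]
    exact Real.sq_sqrt h5.le
  rw [← hw] at hP hQ
  have hK : eK (-m / (1 - m)) = w * eK m := by
    rw [eK, hP, hQ, eK]
    ring
  have hE : eE (-m / (1 - m)) = eE m / w := by
    rw [eE, hP, hQ, eE]
    rw [eq_div_iff hw0.ne', ← hww]
    have h6 : (1 : ℝ) - m = w ^ 2 := hww.symm
    field_simp
    have h7 : m = 1 - w ^ 2 := by linarith
    rw [h7]
    ring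
  refine ⟨?_, ?_, ?_⟩
  · rw [fA, fA, hK, hP, hQ, hE]
    have h6 : w * eK m * (w * eQ m) * (w * eP m) / (eE m / w) =
        (1 - m) ^ 2 * (eK m * eP m * eQ m / eE m) := by
      rw [← hww]
      field_simp
    rw [h6, Real.sqrt_mul (by positivity), Real.sqrt_sq h5.le]
    field_simp
  · rw [fB, fC, hK, hP, hQ, hE]
    have h6 : w * eK m * (eE m / w) * (w * eQ m) / (w * eP m) =
        eK m * eE m * eQ m / eP m := by
      field_simp
    rw [h6, neg_neg]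
  · rw [fB, fC, hK, hP, hQ, hE]
    have h6 : w * eK m * (eE m / w) * (w * eP m) / (w * eQ m) =
        eK m * eE m * eP m / eQ m := by
      field_simp
    rw [h6]

end

section zero

variable (hQ1 : St_Q1)
include hQ1

theorem K0 : eK 0 = Real.pi / 2 := by
  rw [eK, hQ1.2.2.2.2.1, hQ1.2.2.2.2.2.1]
  ring

theorem E0 : eE 0 = Real.pi / 2 := by
  rw [eE, hQ1.2.2.2.2.1, hQ1.2.2.2.2.2.1]
  ring

theorem S0 : fS 0 = Real.pi / 4 := by
  rw [fS, K0 hQ1, E0 hQ1, hQ1.2.2.2.2.1, hQ1.2.2.2.2.2.1]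
  have h1 : Real.pi / 2 * (Real.pi / 4) * (Real.pi / 4) / (Real.pi / 2) = (Real.pi / 4) ^ 2 := by
    have := Real.pi_ne_zero
    field_simp
  rw [h1, Real.sqrt_sq (by positivity)]
  ring

theorem B0 : fB 0 = Real.pi := by
  rw [fB, K0 hQ1, E0 hQ1, hQ1.2.2.2.2.1, hQ1.2.2.2.2.2.1]
  have h1 : Real.pi / 2 * (Real.pi / 2) * (Real.pi / 4) / (Real.pi / 4) = (Real.pi / 2) ^ 2 := by
    have := Real.pi_ne_zero
    field_simp
  rw [h1, Real.sqrt_sq (by positivity)]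
  ring

theorem C0 : fC 0 = -Real.pi := by
  rw [fC, K0 hQ1, E0 hQ1, hQ1.2.2.2.2.1, hQ1.2.2.2.2.2.1]
  have h1 : Real.pi / 2 * (Real.pi / 2) * (Real.pi / 4) / (Real.pi / 4) = (Real.pi / 2) ^ 2 := by
    have := Real.pi_ne_zero
    field_simp
  rw [h1, Real.sqrt_sq (by positivity)]
  ring

theorem dK0 : HasDerivAt eK (Real.pi / 8) 0 := by
  have h1 := hQ1.2.2.2.2.2.2.1.add hQ1.2.2.2.2.2.2.2
  have h2 : 3 * Real.pi / 32 + Real.pi / 32 = Real.pi / 8 := by ring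
  rw [h2] at h1
  exact h1

theorem dE0 : HasDerivAt eE (-(Real.pi / 8)) 0 := by
  have h1 := hQ1.2.2.2.2.2.2.2.add (((hasDerivAt_const (0 : ℝ) (1 : ℝ)).sub
    (hasDerivAt_id (0 : ℝ))).mul hQ1.2.2.2.2.2.2.1)
  refine h1.congr_deriv ?_
  simp only [Pi.sub_apply, id_eq, sub_zero, zero_sub, one_mul, neg_mul]
  rw [hQ1.2.2.2.2.1]
  ring

theorem dA0 : HasDerivAt fA (Real.pi / 2) 0 := by
  have h0 : (0 : ℝ) < 1 := one_pos
  have h1 := P_pos hQ1 h0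
  have h2 := Q_pos hQ1 h0
  have h3 := K_pos hQ1 h0
  have h4 := E_pos hQ1 h0
  have h5 : AnalyticAt ℝ (fun m => √(eK m * eP m * eQ m / eE m)) 0 := an_sqrt
    ((((K_an hQ1 h0).mul (P_an hQ1 h0)).mul (Q_an hQ1 h0)).div (E_an hQ1 h0) h4.ne')
    (by show 0 < eK 0 * eP 0 * eQ 0 / eE 0; positivity)
  have h6 := (((hasDerivAt_id (0 : ℝ)).const_mul 2).mul h5.differentiableAt.hasDerivAt)
  refine h6.congr_deriv ?_
  simp only [id_eq, mul_zero, zero_mul, add_zero, mul_one]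
  rw [K0 hQ1, E0 hQ1, hQ1.2.2.2.2.1, hQ1.2.2.2.2.2.1]
  have h7 : Real.pi / 2 * (Real.pi / 4) * (Real.pi / 4) / (Real.pi / 2) = (Real.pi / 4) ^ 2 := by
    have := Real.pi_ne_zero
    field_simp
  rw [h7, Real.sqrt_sq (by positivity)]
  ring

theorem dB0 : HasDerivAt fB (Real.pi / 8) 0 := by
  have hp := Real.pi_pos
  have h1 := (((dK0 hQ1).mul (dE0 hQ1)).mul hQ1.2.2.2.2.2.2.1).div hQ1.2.2.2.2.2.2.2
    (by rw [hQ1.2.2.2.2.2.1]; positivity)
  have h2 := (h1.sqrt (by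
    simp only [Pi.mul_apply, Pi.div_apply]
    rw [K0 hQ1, E0 hQ1, hQ1.2.2.2.2.1, hQ1.2.2.2.2.2.1]
    positivity)).const_mul 2
  refine h2.congr_deriv ?_
  simp only [Pi.mul_apply, Pi.div_apply]
  rw [K0 hQ1, E0 hQ1, hQ1.2.2.2.2.1, hQ1.2.2.2.2.2.1]
  have h7 : Real.pi / 2 * (Real.pi / 2) * (Real.pi / 4) / (Real.pi / 4) = (Real.pi / 2) ^ 2 := by
    field_simp
  rw [h7, Real.sqrt_sq (by positivity)]
  field_simp
  ring

theorem dC0 : HasDerivAt fC (Real.pi / 8) 0 := by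
  have hp := Real.pi_pos
  have h1 := (((dK0 hQ1).mul (dE0 hQ1)).mul hQ1.2.2.2.2.2.2.2).div hQ1.2.2.2.2.2.2.1
    (by rw [hQ1.2.2.2.2.1]; positivity)
  have h2 := ((h1.sqrt (by
    simp only [Pi.mul_apply, Pi.div_apply]
    rw [K0 hQ1, E0 hQ1, hQ1.2.2.2.2.1, hQ1.2.2.2.2.2.1]
    positivity)).const_mul 2).neg
  refine h2.congr_deriv ?_
  simp only [Pi.mul_apply, Pi.div_apply]
  rw [K0 hQ1, E0 hQ1, hQ1.2.2.2.2.1, hQ1.2.2.2.2.2.1]
  have h7 : Real.pi / 2 * (Real.pi / 2) * (Real.pi / 4) / (Real.pi / 4) = (Real.pi / 2) ^ 2 := by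
    field_simp
  rw [h7, Real.sqrt_sq (by positivity)]
  field_simp
  ring

end zero

/-- the derivative at `0` of `s g(s²)` -/
theorem deriv_odd {g : ℝ → ℝ} (hg : ContDiff ℝ ∞ g) {f : ℝ → ℝ} (hf : ∀ s, f s = s * g (s ^ 2))
    {d : ℝ} (hd : HasDerivAt f d 0) : g 0 = d := by
  have h1 : f = fun s => s * g (s ^ 2) := funext hf
  have h2 : DifferentiableAt ℝ (fun s : ℝ => g (s ^ 2)) 0 :=
    ((hg.differentiable (by simp)).comp (differentiable_id.pow 2)).differentiableAt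
  have h3 := (hasDerivAt_id (0 : ℝ)).mul h2.hasDerivAt
  have h4 : HasDerivAt f (g 0) 0 := by
    rw [h1]
    refine h3.congr_deriv ?_
    simp
  exact h4.unique hd

end Q6x

open Q6x in
/-- **Q6** -/
theorem thm_Q6 (hQ1 : St_Q1) (hQ2 : St_Q2) (hQ3 : St_Q3) (hQ4 : St_Q4) (hQ5 : St_Q5) : St_Q6 := by
  obtain ⟨μ, hμ, hμ1, hμ0, hμp, hμs, hμd⟩ := hQ4
  have hA : AnalyticOnNhd ℝ (fun s => fA (μ s)) Set.univ := fun s hs =>
    (A_an hQ1 (hμ1 s)).comp (hμ s hs)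
  have hB : AnalyticOnNhd ℝ (fun s => fB (μ s)) Set.univ := fun s hs =>
    (B_an hQ1 (hμ1 s)).comp (hμ s hs)
  have hC : AnalyticOnNhd ℝ (fun s => fC (μ s)) Set.univ := fun s hs =>
    (C_an hQ1 (hμ1 s)).comp (hμ s hs)
  have eA : ∀ s, fA (μ (-s)) = -fA (μ s) := fun s => by
    rw [hμs]
    exact (dual hQ1 (hμ1 s) hQ2).1
  have eB : ∀ s, fB (μ (-s)) = -fC (μ s) := fun s => by
    rw [hμs]
    exact (dual hQ1 (hμ1 s) hQ2).2.1
  have eC : ∀ s, fC (μ (-s)) = -fB (μ s) := fun s => by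
    rw [hμs]
    exact (dual hQ1 (hμ1 s) hQ2).2.2
  obtain ⟨al, hal, hal'⟩ := hQ3.2 _ hA eA
  obtain ⟨be, hbe, hbe'⟩ := hQ3.1 (fun s => (fB (μ s) - fC (μ s)) * (1 / 2))
    (fun s hs => ((hB s hs).sub (hC s hs)).mul analyticAt_const) (fun s => by
      rw [eB, eC]
      ring)
  obtain ⟨ka, hka, hka'⟩ := hQ3.2 (fun s => (fB (μ s) + fC (μ s)) * (1 / 2))
    (fun s hs => ((hB s hs).add (hC s hs)).mul analyticAt_const) (fun s => by
      rw [eB, eC]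
      ring)
  have kb : ∀ s, be (s ^ 2) + s * ka (s ^ 2) = fB (μ s) := fun s => by
    rw [← hbe', ← hka']
    ring
  have kc : ∀ s, -be (s ^ 2) + s * ka (s ^ 2) = fC (μ s) := fun s => by
    rw [← hbe', ← hka']
    ring
  have kaa : ∀ s, s * al (s ^ 2) = fA (μ s) := fun s => (hal' s).symm
  have hpi := Real.pi_pos
  have hd0 : HasDerivAt μ (4 / Real.pi) 0 := by
    have h1 := hμd 0
    rw [hμ0, S0 hQ1, inv_div] at h1
    exact h1
  have comp0 : ∀ {f : ℝ → ℝ} {d : ℝ}, HasDerivAt f d 0 →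
      HasDerivAt (fun s => f (μ s)) (d * (4 / Real.pi)) 0 := by
    intro f d hf
    have h1 : HasDerivAt f d (μ 0) := by
      rw [hμ0]
      exact hf
    exact h1.comp 0 hd0
  have chain : ∀ {f : ℝ → ℝ} {X : ℝ} (s : ℝ), HasDerivAt f (X * fS (μ s)) (μ s) →
      HasDerivAt (fun s => f (μ s)) X s := by
    intro f X s hf
    have h1 := hf.comp s (hμd s)
    rw [mul_assoc, mul_inv_cancel₀ (S_pos hQ1 (hμ1 s)).ne', mul_one] at h1
    exact h1
  refine ⟨⟨al, be, ka, hal, hbe, hka, ?_, ?_, ?_, ?_, ?_, ?_, ?_, ?_, ?_⟩⟩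
  · rw [deriv_odd hal hal' (comp0 (dA0 hQ1))]
    field_simp
    ring
  · have h1 := hbe' 0
    rw [hμ0, B0 hQ1, C0 hQ1] at h1
    have h2 : ((0 : ℝ)) ^ 2 = 0 := by norm_num
    rw [h2] at h1
    rw [← h1]
    ring
  · rw [deriv_odd hka hka' (((comp0 (dB0 hQ1)).add (comp0 (dC0 hQ1))).mul_const (1 / 2))]
    field_simp
    norm_num
  · intro s hs
    rw [kaa]
    exact A_pos hQ1 (hμ1 s) (hμp s hs)
  · intro s hs
    rw [kb]
    exact B_pos hQ1 (hμ1 s)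
  · intro s hs
    rw [kc]
    exact C_neg hQ1 (hμ1 s)
  · intro s hs
    rw [kb, kc, kaa, funext kaa]
    exact chain s (hQ5 (μ s) (hμp s hs) (hμ1 s)).1
  · intro s hs
    rw [kb, kc, kaa, funext kb]
    exact chain s (hQ5 (μ s) (hμp s hs) (hμ1 s)).2.1
  · intro s hs
    rw [kb, kc, kaa, funext kc]
    exact chain s (hQ5 (μ s) (hμp s hs) (hμ1 s)).2.2

end Pool.Agent.FUE
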