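import Pool.Agent.FUE.Q1
import Pool.Agent.FUE.Q2
import Pool.Agent.FUE.Q3
import Pool.Agent.FUE.Q4
import Pool.Agent.FUE.Q5
import Pool.Agent.FUE.Q6

/-!
# Fueter sections: the Atiyah-Hitchin profile exists
-/

set_option autoImplicit false

namespace Pool.Agent.FUE

theorem all_Q4 : St_Q4 := thm_Q4 thm_Q1 thm_Q2
theorem all_Q5 : St_Q5 := thm_Q5 thm_Q1 thm_Q2
theorem all_Q6 : Nonempty Profile := thm_Q6 thm_Q1 thm_Q2 thm_Q3 all_Q4 all_Q5

end Pool.Agent.FUE
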