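import Pool.Agent.FUE.Mf10

/-!
# Fueter sections, part on M: the blow-up argument N4 (helper17)
-/

set_option autoImplicit false

namespace Pool.Agent.FUE

open scoped Manifold ContDiff Topology
open Filter

theorem norm_bs (j : Fin 3) : ‖bs j‖ = 1 := by
  unfold bs
  simp

theorem bs_indep : LinearIndependent ℝ fun j => bs j := by
  rw [Fintype.linearIndependent_iff]
  intro g hg i
  have h1 : (∑ j, g j • bs j) i = 0 := by
    rw [hg]
    rfl
  simpa [bs, Finset.sum_apply, Pi.single_apply] using h1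

theorem norm_proj_smulRight_le (v : E3 →L[ℝ] V9) (j : Fin 3) : ‖v (bs j)‖ ≤ ‖v‖ := by
  have := v.le_opNorm (bs j)
  rwa [norm_bs, mul_one] at this

theorem near_two {X E : Type} [TopologicalSpace X] [NormedAddCommGroup E] [NormedSpace ℝ E]
    {S : X → (E →L[ℝ] E)} {a' : X} (hT : ContinuousAt S a') (T : E →L[ℝ] E)
    (h : ‖(S a').comp T‖ < 2) :
    ∃ O : Set X, IsOpen O ∧ a' ∈ O ∧ ∃ N ∈ 𝓝 T, ∀ z ∈ O, ∀ T ∈ N, ‖(S z).comp T‖ < 2 := by
  have hc : ContinuousAt (fun q : X × (E →L[ℝ] E) => (S q.1).comp q.2) (a', T) := by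
    have h0 : ContinuousAt (fun q : X × (E →L[ℝ] E) => S q.1) (a', T) :=
      ContinuousAt.comp (f := fun q : X × (E →L[ℝ] E) => q.1) (x := (a', T)) hT
        continuous_fst.continuousAt
    exact h0.clm_comp continuous_snd.continuousAt
  have h2 : {q : X × (E →L[ℝ] E) | ‖(S q.1).comp q.2‖ < 2} ∈ 𝓝 (a', T) :=
    hc.norm.eventually (gt_mem_nhds h)
  obtain ⟨O₂, hO₂, Nb, hNb, hsub⟩ := mem_nhds_prod_iff.1 h2
  obtain ⟨O₃, hO₃sub, hO₃, haO₃⟩ := mem_nhds_iff.1 hO₂
  exact ⟨O₃, hO₃, haO₃, Nb, hNb, fun z hz T hT' => hsub (Set.mk_mem_prod (hO₃sub hz) hT')⟩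

theorem inv_cont {TT : E3 → (E3 →L[ℝ] E3)} {a' : E3} (hT : ContinuousAt TT a') (hi : (TT a').IsInvertible) :
    ContinuousAt (fun z => (TT z).inverse) a' := by
  have hinvc : ContinuousAt (ContinuousLinearMap.inverse : (E3 →L[ℝ] E3) → (E3 →L[ℝ] E3)) (TT a') :=
    (hi.contDiffAt_map_inverse (n := 0)).continuousAt
  exact hinvc.tendsto.comp hT.tendsto

theorem inv_comp_lt (A : E3 →L[ℝ] E3) (hi : A.IsInvertible) : ‖A.inverse.comp A‖ < 2 := by
    have e : A.inverse.comp A = ContinuousLinearMap.id ℝ E3 := hi.inverse_comp_self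
    rw [e]
    exact lt_of_le_of_lt ContinuousLinearMap.norm_id_le (by norm_num)

theorem near_id {TT : E3 → (E3 →L[ℝ] E3)} {a' : E3} (hT : ContinuousAt TT a') (hi : (TT a').IsInvertible) :
    ∃ O : Set E3, IsOpen O ∧ a' ∈ O ∧ ∃ N ∈ 𝓝 (TT a'), ∀ z ∈ O, ∀ T ∈ N, ‖(TT z).inverse.comp T‖ < 2 :=
  near_two (inv_cont hT hi) (TT a') (inv_comp_lt (TT a') hi)

variable {M : Type} [TopologicalSpace M] [ChartedSpace E3 M] [IsManifold (𝓡 3) ∞ M]

/-- the derivative as a linear map on the coordinates of the frame -/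
noncomputable def frA (F : Frame M) (f : M → V9) (x : M) : E3 →L[ℝ] V9 :=
  ∑ j, (EuclideanSpace.proj j : E3 →L[ℝ] ℝ).smulRight (F.D j f x)

theorem frA_apply (F : Frame M) (f : M → V9) (x : M) (h : E3) : frA F f x h = ∑ j, h j • F.D j f x := by
  unfold frA
  rw [sum_apply]
  rfl

theorem frA_bs (F : Frame M) (f : M → V9) (x : M) (j : Fin 3) : frA F f x (bs j) = F.D j f x := by
  rw [frA_apply, Finset.sum_eq_single j]
  · simp [bs]
  · intro i _ hi
    simp [bs, hi]
  · simp

theorem frA_continuous (F : Frame M) {f : M → V9} (hf : ContMDiff (𝓡 3) 𝓘(ℝ, V9) ∞ f) : Continuous (frA F f) := by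
  unfold frA
  refine continuous_finsetSum _ fun j _ => ?_
  have h1 : Continuous fun w : V9 => (EuclideanSpace.proj j : E3 →L[ℝ] ℝ).smulRight w :=
    (ContinuousLinearMap.smulRightL ℝ E3 V9 (EuclideanSpace.proj j : E3 →L[ℝ] ℝ)).continuous
  exact h1.comp (D_smooth F j hf).continuous

/-- `frA` in a chart -/
theorem frA_chart (F : Frame M) (p : M) {f : M → V9} (hf : ContMDiff (𝓡 3) 𝓘(ℝ, V9) ∞ f) {y : E3}
    (hy : y ∈ (extChartAt (𝓡 3) p).target) : frA F f ((extChartAt (𝓡 3) p).symm y) =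
      (fderiv ℝ (fun y => f ((extChartAt (𝓡 3) p).symm y)) y).comp (frT fun j => Ech F p j y) := by
  ext1 h
  rw [frA_apply, ContinuousLinearMap.comp_apply, frT_apply, map_sum]
  refine Finset.sum_congr rfl fun j _ => ?_
  rw [map_smul, D_chart' F p j hy (hf.mdifferentiable (by norm_cast) _)]
  rfl

theorem thm_N4 (hC : St_Cpt) (hE : St_Noe) : St_N4 := by
  intro pr M _ _ _ _ _ F S u hu hS
  by_contra hcon
  push Not at hcon
  choose N J X hX using fun k : ℕ => hcon (k + 1)
  have hmax : ∀ k, ∃ x, ∀ z, ‖frA F (u (N k)) z‖ ≤ ‖frA F (u (N k)) x‖ := by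
    intro k
    have hne : Nonempty M := ⟨X 0⟩
    obtain ⟨x, -, hx⟩ := isCompact_univ.exists_isMaxOn (Set.univ_nonempty (α := M))
      (frA_continuous F (hu (N k)).smooth).norm.continuousOn
    exact ⟨x, fun z => hx (Set.mem_univ z)⟩
  choose x hx using hmax
  set m : ℕ → ℝ := fun k => ‖frA F (u (N k)) (x k)‖ with hm
  have hmk : ∀ k : ℕ, (k : ℝ) + 1 < m k := by
    intro k
    have h1 := norm_proj_smulRight_le (frA F (u (N k)) (X k)) (J k)
    rw [frA_bs] at h1
    exact (hX k).trans_le (h1.trans (hx k (X k)))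
  have hmpos : ∀ k : ℕ, 0 < m k := fun k => by
    have := hmk k
    have : (0 : ℝ) ≤ k := Nat.cast_nonneg k
    linarith
  -- a convergent subsequence of the maximum points
  have hsc : SecondCountableTopology M := ChartedSpace.secondCountable_of_sigmaCompact E3 M
  obtain ⟨p, -, φ, hφ, hlim⟩ := isCompact_univ.tendsto_subseq (fun k => Set.mem_univ (x k))
  have hpt := mem_extChartAt_target (I := 𝓡 3) p
  have hps := mem_extChartAt_source (I := 𝓡 3) p
  have hUo := chart_target_open p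
  set a : ℕ → E3 := fun k => extChartAt (𝓡 3) p (x (φ k)) with ha
  set a' : E3 := extChartAt (𝓡 3) p p with ha'
  have halim : Tendsto a atTop (𝓝 a') :=
    (continuousAt_extChartAt (I := 𝓡 3) p).tendsto.comp hlim
  have hsrc : ∀ᶠ k in atTop, x (φ k) ∈ (extChartAt (𝓡 3) p).source :=
    hlim.eventually ((chart_source_open p).mem_nhds hps)
  set TT : E3 → (E3 →L[ℝ] E3) := fun y => frT fun j => Ech F p j y with hTT
  have hTTc : ContinuousOn TT (extChartAt (𝓡 3) p).target :=
    frT_continuousOn fun j => (Ech_smooth F p j).continuousOn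
  have hTTa : ContinuousAt TT a' := hTTc.continuousAt (hUo.mem_nhds hpt)
  have hTTi : ∀ y ∈ (extChartAt (𝓡 3) p).target, (TT y).IsInvertible := fun y hy =>
    frT_invertible (Ech_indep F p hy)
  have hTlim : Tendsto (fun k => TT (a k)) atTop (𝓝 (TT a')) := hTTa.tendsto.comp halim
  set ε : ℕ → ℝ := fun k => (m (φ k))⁻¹ with hε
  have hεpos : ∀ k, 0 < ε k := fun k => inv_pos.2 (hmpos _)
  have hεlim : Tendsto ε atTop (𝓝 0) := by
    have h1 : Tendsto (fun k => m (φ k)) atTop atTop := by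
      refine tendsto_atTop_mono (fun k => ?_) tendsto_natCast_atTop_atTop
      have h2 := hmk (φ k)
      have h3 : (k : ℝ) ≤ φ k := by exact_mod_cast hφ.id_le k
      linarith
    exact tendsto_inv_atTop_zero.comp h1
  have hAlim : Tendsto (fun k => ε k • TT (a k)) atTop (𝓝 0) := by
    have h1 := hεlim.smul hTlim
    have h2 : (0 : ℝ) • TT a' = 0 := zero_smul ℝ (TT a')
    rw [← h2]
    exact h1
  have hinvc : ContinuousAt (ContinuousLinearMap.inverse : (E3 →L[ℝ] E3) → (E3 →L[ℝ] E3)) (TT a') :=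
    ((hTTi a' hpt).contDiffAt_map_inverse (n := 0)).continuousAt
  have hTinv : Tendsto (fun k => (TT (a k)).inverse) atTop (𝓝 (TT a').inverse) := hinvc.tendsto.comp hTlim
  -- the rescaled maps
  set w : ℕ → E3 → V9 := fun k y => u (N (φ k)) ((extChartAt (𝓡 3) p).symm (a k + (ε k • TT (a k)) y)) with hw
  set O : ℕ → Set E3 := fun k => {y | a k + (ε k • TT (a k)) y ∈ (extChartAt (𝓡 3) p).target} with hO
  have hTk : ∀ᶠ k in atTop, a k ∈ (extChartAt (𝓡 3) p).target := halim.eventually (hUo.mem_nhds hpt)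
  have hwl : ∀ᶠ k in atTop, LocF pr (O k)
      (fun j y => (TT (a k)).inverse (Ech F p j (a k + (ε k • TT (a k)) y)))
      (fun j y => ε k • Wch F p j (a k + (ε k • TT (a k)) y)) (w k) := by
    filter_upwards [hTk] with k hk
    exact locF_rescale hUo (locF_chart (hu (N (φ k))) p) (a k) (hTTi _ hk) (ε k)
  have hOk : ∀ K : Set E3, IsCompact K → ∀ᶠ k in atTop, K ⊆ O k := by
    intro K hK
    filter_upwards [affine_mem hUo halim hpt hAlim hK] with k hk y hy
    exact hk y hy
  -- the derivative of the rescaled maps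
  have hfd : ∀ k y, y ∈ O k → fderiv ℝ (w k) y =
      (fderiv ℝ (fun y => u (N (φ k)) ((extChartAt (𝓡 3) p).symm y)) (a k + (ε k • TT (a k)) y)).comp
        (ε k • TT (a k)) := by
    intro k y hy
    have hd : DifferentiableAt ℝ (fun y => u (N (φ k)) ((extChartAt (𝓡 3) p).symm y)) (a k + (ε k • TT (a k)) y) :=
      ((locF_chart (hu (N (φ k))) p).smooth.contDiffAt (hUo.mem_nhds hy)).differentiableAt (by norm_cast)
    exact fderiv_affine hd
  have hgrad : ∀ K : Set E3, IsCompact K → ∀ᶠ k in atTop, ∀ y ∈ K, ‖fderiv ℝ (w k) y‖ ≤ 2 := by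
    intro K hK
    obtain ⟨O₃, hO₃, haO₃, Nb, hNb, hsub⟩ := near_id hTTa (hTTi a' hpt)
    filter_upwards [affine_mem hO₃ halim haO₃ hAlim hK, hTlim.eventually hNb, hOk K hK] with k h3 h4 h5 y hy
    have h6 : ‖(TT (a k + (ε k • TT (a k)) y)).inverse.comp (TT (a k))‖ < 2 :=
      hsub _ (h3 y hy) _ h4
    have hyU : a k + (ε k • TT (a k)) y ∈ (extChartAt (𝓡 3) p).target := h5 hy
    set z := a k + (ε k • TT (a k)) y with hz
    have h7 := frA_chart F p (hu (N (φ k))).smooth hyU
    have h8 : ‖frA F (u (N (φ k))) ((extChartAt (𝓡 3) p).symm z)‖ ≤ m (φ k) := hx (φ k) _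
    rw [hfd k y (h5 hy)]
    set L := fderiv ℝ (fun y => u (N (φ k)) ((extChartAt (𝓡 3) p).symm y)) z with hL
    have h9 : L.comp (ε k • TT (a k)) = ε k • ((L.comp (TT z)).comp ((TT z).inverse.comp (TT (a k)))) := by
      rw [ContinuousLinearMap.comp_smul]
      congr 1
      rw [ContinuousLinearMap.comp_assoc, ← ContinuousLinearMap.comp_assoc (TT z), (hTTi z hyU).self_comp_inverse,
        ContinuousLinearMap.id_comp]
    have h10 : L.comp (TT z) = frA F (u (N (φ k))) ((extChartAt (𝓡 3) p).symm z) := h7.symm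
    rw [h9, norm_smul, h10, Real.norm_of_nonneg (hεpos k).le]
    calc ε k * ‖(frA F (u (N (φ k))) ((extChartAt (𝓡 3) p).symm z)).comp ((TT z).inverse.comp (TT (a k)))‖
        ≤ ε k * (m (φ k) * 2) := by
          refine mul_le_mul_of_nonneg_left ?_ (hεpos k).le
          refine (ContinuousLinearMap.opNorm_comp_le _ _).trans ?_
          exact mul_le_mul h8 h6.le (norm_nonneg _) (hmpos _).le
      _ = 2 := by
          rw [hε]
          simp only
          have := (hmpos (φ k)).ne'
          field_simp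
  have hone : ∀ᶠ k in atTop, ‖fderiv ℝ (w k) 0‖ = 1 := by
    filter_upwards [hsrc] with k hk
    have hak : a k ∈ (extChartAt (𝓡 3) p).target := (extChartAt (𝓡 3) p).map_source hk
    have h0 : a k + (ε k • TT (a k)) 0 = a k := by simp
    have h0O : (0 : E3) ∈ O k := by
      show a k + (ε k • TT (a k)) 0 ∈ (extChartAt (𝓡 3) p).target
      rw [h0]
      exact hak
    have h7 := frA_chart F p (hu (N (φ k))).smooth hak
    rw [hfd k 0 h0O, h0, ContinuousLinearMap.comp_smul, norm_smul, Real.norm_of_nonneg (hεpos k).le]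
    have h8 : (fderiv ℝ (fun y => u (N (φ k)) ((extChartAt (𝓡 3) p).symm y)) (a k)).comp (TT (a k)) =
        frA F (u (N (φ k))) (x (φ k)) := by
      rw [← h7]
      congr 1
      exact (extChartAt (𝓡 3) p).left_inv hk
    rw [h8]
    exact inv_mul_cancel₀ (hmpos (φ k)).ne'
  -- convergence of the frames and connections
  have hB : ∀ j, CLoc Set.univ (fun k y => (TT (a k)).inverse (Ech F p j (a k + (ε k • TT (a k)) y)))
      (fun _ => bs j) := by
    intro j
    have h1 := cloc_rescale hUo (Ech_smooth F p j) halim hpt hAlim hTinv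
    have h2 : (TT a').inverse (Ech F p j a') = bs j := by
      have h3 : Ech F p j a' = TT a' (bs j) := (frT_bs (fun j => Ech F p j a') j).symm
      rw [h3]
      exact (hTTi a' hpt).inverse_apply_self _
    rw [h2] at h1
    exact h1
  have hW : ∀ j, CLoc Set.univ (fun k y => ε k • Wch F p j (a k + (ε k • TT (a k)) y)) (fun _ => (0 : V9)) := by
    intro j
    have hL : Tendsto (fun k => ε k • ContinuousLinearMap.id ℝ V9) atTop (𝓝 0) := by
      have h1 := hεlim.smul_const (ContinuousLinearMap.id ℝ V9)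
      have h2 : (0 : ℝ) • ContinuousLinearMap.id ℝ V9 = 0 := zero_smul ℝ (ContinuousLinearMap.id ℝ V9)
      rw [← h2]
      exact h1
    exact cloc_rescale hUo (Wch_smooth F p j) halim hpt hAlim hL
  obtain ⟨ψ, v, hψ, hv, hvS, hvc⟩ := hC pr S Set.univ isOpen_univ
    (fun k j y => (TT (a k)).inverse (Ech F p j (a k + (ε k • TT (a k)) y)))
    (fun k j y => ε k • Wch F p j (a k + (ε k • TT (a k)) y)) (fun j _ => bs j) (fun _ _ => 0) w
    (fun j => contDiffOn_const) (fun j => contDiffOn_const) (fun _ _ => bs_indep) hB hW (by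
      intro y₀ _
      have hK : IsCompact (Metric.closedBall y₀ 1) := isCompact_closedBall _ _
      have hev := (hwl.and (hOk _ hK)).and (hgrad _ hK)
      rw [eventually_atTop] at hev
      obtain ⟨n₀, hn₀⟩ := hev
      refine ⟨1, n₀, 2, one_pos, Set.subset_univ _, fun n hn => ?_⟩
      obtain ⟨⟨h1, h2⟩, h3⟩ := hn₀ n hn
      refine ⟨h1.mono (Metric.ball_subset_closedBall.trans h2), fun y hy => ⟨hS _ _, ?_⟩⟩
      exact h3 y (Metric.ball_subset_closedBall hy))
  refine hE pr S v ⟨⟨hv.smooth, hv.mem, fun y hy => ?_⟩, fun y => hvS y (Set.mem_univ y), fun y => ?_, ?_⟩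
  · have h1 := hv.eq y hy
    have h2 : (fun j => toM (fderiv ℝ v y (bs j)) + (toM (0 : V9) * toM (v y) - toM (v y) * toM (0 : V9))) =
        fun j => toM (du v y j) := by
      funext j
      rw [toM_zero, Matrix.zero_mul, Matrix.mul_zero, sub_zero, add_zero]
      rfl
    rw [h2] at h1
    exact h1
  · have h1 := (cloc_one isOpen_univ hvc (isCompact_singleton (x := y)) (Set.subset_univ _)).tendsto_at
      (Set.mem_singleton y)
    have h2 : ∀ᶠ k in atTop, ‖fderiv ℝ (w (ψ k)) y‖ ≤ 2 := by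
      filter_upwards [hψ.tendsto_atTop.eventually (hgrad {y} isCompact_singleton)] with k hk
      exact hk y (Set.mem_singleton y)
    exact le_of_tendsto h1.norm h2
  · have h1 := (cloc_one isOpen_univ hvc (isCompact_singleton (x := (0 : E3))) (Set.subset_univ _)).tendsto_at
      (Set.mem_singleton (0 : E3))
    have h2 : Tendsto (fun k => ‖fderiv ℝ (w (ψ k)) 0‖) atTop (𝓝 1) := by
      refine tendsto_const_nhds.congr' ?_
      filter_upwards [hψ.tendsto_atTop.eventually hone] with k hk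
      exact hk.symm
    exact tendsto_nhds_unique h1.norm h2

end Pool.Agent.FUE
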