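import Pool.Agent.FUE.Mf7

/-!
# Fueter sections, part on M: N3, bounded first derivatives (helper17)
-/

set_option autoImplicit false

namespace Pool.Agent.FUE

open scoped Manifold ContDiff Topology
open Filter

theorem cloc_const {V : Type} [NormedAddCommGroup V] [NormedSpace ℝ V] {U : Set E3} (hU : IsOpen U)
    {f : E3 → V} (hf : ContDiffOn ℝ ∞ f U) : CLoc U (fun _ => f) f := by
  refine ⟨fun K _ hKU => Eventually.of_forall fun _ => ⟨U, hU, hKU, hf⟩, fun k => ?_⟩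
  intro s hs x hx
  refine ⟨Set.univ, univ_mem, Eventually.of_forall fun n y _ => ?_⟩
  exact refl_mem_uniformity hs

theorem LocF.mono {pr : Profile} {U O : Set E3} {B : Fin 3 → E3 → E3} {W : Fin 3 → E3 → V9} {u : E3 → V9}
    (h : LocF pr U B W u) (hO : O ⊆ U) : LocF pr O B W u :=
  ⟨h.smooth.mono hO, fun x hx => h.mem x (hO hx), fun x hx => h.eq x (hO hx)⟩

variable {M : Type} [TopologicalSpace M] [ChartedSpace E3 M] [IsManifold (𝓡 3) ∞ M]

/-- convergence in one chart -/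
theorem chart_step (hC : St_Cpt) {pr : Profile} {F : Frame M} {S Λ : ℝ} {u : ℕ → M → V9}
    (hu : ∀ n, F.IsFueter pr (u n)) (hS : ∀ n x, lam (u n x) ≤ S) (hΛ : ∀ n j x, ‖F.D j (u n) x‖ ≤ Λ) (p : M) :
    ∃ (φ : ℕ → ℕ) (v : E3 → V9), StrictMono φ ∧
      LocF pr (extChartAt (𝓡 3) p).target (Ech F p) (Wch F p) v ∧
      CLoc (extChartAt (𝓡 3) p).target (fun n y => u (φ n) ((extChartAt (𝓡 3) p).symm y)) v := by
  have hU := chart_target_open p
  have hloc : ∀ x ∈ (extChartAt (𝓡 3) p).target, ∃ (r : ℝ) (n₀ : ℕ) (L : ℝ), 0 < r ∧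
      Metric.ball x r ⊆ (extChartAt (𝓡 3) p).target ∧ ∀ n, n₀ ≤ n →
      LocF pr (Metric.ball x r) (Ech F p) (Wch F p) (fun y => u n ((extChartAt (𝓡 3) p).symm y)) ∧
      ∀ y ∈ Metric.ball x r, lam (u n ((extChartAt (𝓡 3) p).symm y)) ≤ S ∧
        ‖fderiv ℝ (fun y => u n ((extChartAt (𝓡 3) p).symm y)) y‖ ≤ L := by
    intro x hx
    obtain ⟨r, hr, hball⟩ := Metric.isOpen_iff.1 hU x hx
    have hcb : Metric.closedBall x (r / 2) ⊆ (extChartAt (𝓡 3) p).target :=
      (Metric.closedBall_subset_ball (by linarith)).trans hball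
    obtain ⟨C, hC0, hCb⟩ := frame_bound (V := V9) (isCompact_closedBall x (r / 2)) (B := Ech F p)
      (fun j => (Ech_smooth F p j).continuousOn.mono hcb) (fun y hy => Ech_indep F p (hcb hy))
    have hbb : Metric.ball x (r / 2) ⊆ (extChartAt (𝓡 3) p).target := Metric.ball_subset_closedBall.trans hcb
    refine ⟨r / 2, 0, C * (3 * Λ), by linarith, hbb, fun n _ => ⟨(locF_chart (hu n) p).mono hbb, fun y hy =>
      ⟨hS n _, ?_⟩⟩⟩
    refine (hCb y (Metric.ball_subset_closedBall hy) _).trans ?_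
    refine mul_le_mul_of_nonneg_left ?_ hC0.le
    have h2 : ∀ j, ‖(fderiv ℝ (fun y => u n ((extChartAt (𝓡 3) p).symm y)) y) (Ech F p j y)‖ ≤ Λ := by
      intro j
      have := D_chart' F p j (hbb hy) ((hu n).smooth.mdifferentiable (by norm_cast) _)
      unfold Dl at this
      rw [← this]
      exact hΛ n j _
    calc ∑ j, ‖(fderiv ℝ (fun y => u n ((extChartAt (𝓡 3) p).symm y)) y) (Ech F p j y)‖ ≤ ∑ _j : Fin 3, Λ :=
          Finset.sum_le_sum fun j _ => h2 j
      _ = 3 * Λ := by simp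
  obtain ⟨φ, v, hφ, hv, -, hc⟩ := hC pr S (extChartAt (𝓡 3) p).target hU (fun _ => Ech F p) (fun _ => Wch F p)
    (Ech F p) (Wch F p) (fun n y => u n ((extChartAt (𝓡 3) p).symm y)) (Ech_smooth F p) (Wch_smooth F p)
    (fun x hx => Ech_indep F p hx) (fun j => cloc_const hU (Ech_smooth F p j))
    (fun j => cloc_const hU (Wch_smooth F p j)) hloc
  exact ⟨φ, v, hφ, hv, hc⟩

/-- convergence in finitely many charts -/
theorem charts_step (hC : St_Cpt) {pr : Profile} {F : Frame M} {S Λ : ℝ} {u : ℕ → M → V9}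
    (hu : ∀ n, F.IsFueter pr (u n)) (hS : ∀ n x, lam (u n x) ≤ S) (hΛ : ∀ n j x, ‖F.D j (u n) x‖ ≤ Λ)
    (P : Finset M) :
    ∃ φ : ℕ → ℕ, StrictMono φ ∧ ∀ p ∈ P, ∃ v : E3 → V9,
      LocF pr (extChartAt (𝓡 3) p).target (Ech F p) (Wch F p) v ∧
      CLoc (extChartAt (𝓡 3) p).target (fun n y => u (φ n) ((extChartAt (𝓡 3) p).symm y)) v := by
  classical
  induction P using Finset.induction_on with
  | empty => exact ⟨id, strictMono_id, fun p hp => absurd hp (Finset.notMem_empty p)⟩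
  | insert p P _ ih =>
    obtain ⟨φ, hφ, h⟩ := ih
    obtain ⟨φ', v', hφ', hv', hc'⟩ := chart_step hC (fun n => hu (φ n)) (fun n x => hS (φ n) x)
      (fun n j x => hΛ (φ n) j x) p
    refine ⟨fun n => φ (φ' n), hφ.comp hφ', fun q hq => ?_⟩
    rw [Finset.mem_insert] at hq
    rcases hq with rfl | hq
    · exact ⟨v', hv', hc'⟩
    · obtain ⟨v, hv, hc⟩ := h q hq
      exact ⟨v, hv, cloc_subseq hc hφ'⟩

theorem thm_N3 (hC : St_Cpt) : St_N3 := by
  intro pr M _ _ _ _ _ F S Λ u hu hS hΛ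
  -- finitely many charts
  obtain ⟨P, hP⟩ : ∃ P : Finset M, ∀ x : M, ∃ p ∈ P, x ∈ (extChartAt (𝓡 3) p).source := by
    obtain ⟨P, hP⟩ := isCompact_univ.elim_finite_subcover (fun p : M => (extChartAt (𝓡 3) p).source)
      (fun p => chart_source_open p) (fun x _ => Set.mem_iUnion.2 ⟨x, mem_extChartAt_source x⟩)
    refine ⟨P, fun x => ?_⟩
    have := hP (Set.mem_univ x)
    simpa using this
  obtain ⟨φ, hφ, h⟩ := charts_step hC hu hS hΛ P
  choose p hpP hp using hP
  choose! v hv hc using h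
  -- the limit
  set w : M → V9 := fun x => v (p x) (extChartAt (𝓡 3) (p x) x) with hw
  have hlim : ∀ q ∈ P, ∀ x ∈ (extChartAt (𝓡 3) q).source,
      Tendsto (fun n => u (φ n) x) atTop (𝓝 (v q (extChartAt (𝓡 3) q x))) := by
    intro q hq x hx
    have h1 := cloc_tendsto (chart_target_open q) (hc q hq) ((extChartAt (𝓡 3) q).map_source hx)
    rwa [(extChartAt (𝓡 3) q).left_inv hx] at h1
  have hwv : ∀ q ∈ P, ∀ x ∈ (extChartAt (𝓡 3) q).source, w x = v q (extChartAt (𝓡 3) q x) := by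
    intro q hq x hx
    exact tendsto_nhds_unique (hlim (p x) (hpP x) x (hp x)) (hlim q hq x hx)
  have hwchart : ∀ q ∈ P, ∀ y ∈ (extChartAt (𝓡 3) q).target, w ((extChartAt (𝓡 3) q).symm y) = v q y := by
    intro q hq y hy
    rw [hwv q hq _ ((extChartAt (𝓡 3) q).map_target hy), (extChartAt (𝓡 3) q).right_inv hy]
  have hwsm : ContMDiff (𝓡 3) 𝓘(ℝ, V9) ∞ w := by
    intro x
    have hx := hp x
    have h1 : ContMDiffOn (𝓡 3) 𝓘(ℝ, V9) ∞ (fun z => v (p x) (extChartAt (𝓡 3) (p x) z))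
        (extChartAt (𝓡 3) (p x)).source :=
      (contMDiffOn_iff_contDiffOn.2 (hv (p x) (hpP x)).smooth).comp (chart_smooth (p x))
        fun z hz => (extChartAt (𝓡 3) (p x)).map_source hz
    have h2 : ContMDiffOn (𝓡 3) 𝓘(ℝ, V9) ∞ w (extChartAt (𝓡 3) (p x)).source :=
      h1.congr fun z hz => hwv (p x) (hpP x) z hz
    exact h2.contMDiffAt ((chart_source_open (p x)).mem_nhds hx)
  have hloc : ∀ q ∈ P, LocF pr (extChartAt (𝓡 3) q).target (Ech F q) (Wch F q)
      (fun y => w ((extChartAt (𝓡 3) q).symm y)) := by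
    intro q hq
    have h1 := hv q hq
    refine ⟨h1.smooth.congr fun y hy => hwchart q hq y hy, fun y hy => ?_, fun y hy => ?_⟩
    · rw [hwchart q hq y hy]
      exact h1.mem y hy
    · have h2 : fderiv ℝ (fun y => w ((extChartAt (𝓡 3) q).symm y)) y = fderiv ℝ (v q) y := by
        refine Filter.EventuallyEq.fderiv_eq ?_
        filter_upwards [(chart_target_open q).mem_nhds hy] with z hz
        exact hwchart q hq z hz
      rw [h2, hwchart q hq y hy]
      exact h1.eq y hy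
  refine ⟨φ, w, hφ, fueter_of_chart hwsm fun x => ⟨p x, hp x, hloc (p x) (hpP x)⟩, ?_⟩
  refine cinf_of_cloc F (fun n => u (φ n)) w (fun n => (hu (φ n)).smooth) hwsm (P : Set M)
    (fun x => ⟨p x, hpP x, hp x⟩) fun q hq => ?_
  exact cloc_congr (chart_target_open q) (hc q hq) fun y hy => (hwchart q hq y hy).symm

end Pool.Agent.FUE
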