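import Pool.Agent.FUE.StY

/-!
# FUE P1: asymptotics of the Atiyah-Hitchin profile
-/

set_option autoImplicit false

open scoped Manifold ContDiff Matrix

namespace Pool.Agent.FUE

namespace P1x

theorem anti (f f' : ℝ → ℝ) (h : ∀ s, 1 ≤ s → HasDerivAt f (f' s) s)
    (h' : ∀ s, 1 ≤ s → f' s ≤ 0) : ∀ s, 1 ≤ s → f s ≤ f 1 := by
  intro s hs
  have h2 : AntitoneOn f (Set.Ici 1) := by
    apply antitoneOn_of_deriv_nonpos (convex_Ici 1)
    · exact fun x hx => (h x hx).continuousAt.continuousWithinAt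
    · intro x hx
      rw [interior_Ici] at hx
      exact (h x (le_of_lt hx)).differentiableAt.differentiableWithinAt
    · intro x hx
      rw [interior_Ici] at hx
      rw [(h x (le_of_lt hx)).deriv]
      exact h' x (le_of_lt hx)
  exact h2 (Set.mem_Ici.2 le_rfl) (Set.mem_Ici.2 hs) hs

theorem log_le (s : ℝ) (hs : 1 ≤ s) : Real.log s ≤ 2 * √s := by
  have h0 : 0 < √s := Real.sqrt_pos.2 (by linarith)
  have h1 : Real.log s = 2 * Real.log √s := by
    conv_lhs => rw [← Real.sq_sqrt (show (0 : ℝ) ≤ s by linarith)]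
    rw [Real.log_pow]
    norm_num
  have h2 := Real.log_le_sub_one_of_pos h0
  rw [h1]
  linarith

/-- derivative of `a` -/
theorem a_form (A B c : ℝ) (hB : 0 < B) (hc : c < 0) :
    (A ^ 2 - (B - c) ^ 2) / (2 * B * c) =
      (1 + (B - A) / (-c)) * (1 + (A - B - c) / (2 * B)) := by
  have h1 : B ≠ 0 := hB.ne'
  have h2 : c ≠ 0 := hc.ne
  field_simp
  ring

theorem e_form (A B c : ℝ) (hA : 0 < A) (hB : 0 < B) (hc : c < 0) :
    (B ^ 2 - (c - A) ^ 2) / (2 * c * A) - (A ^ 2 - (B - c) ^ 2) / (2 * B * c) =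
      -(((A + B) ^ 2 - c ^ 2) / (2 * A * B * (-c)) * (B - A)) := by
  have h0 : A ≠ 0 := hA.ne'
  have h1 : B ≠ 0 := hB.ne'
  have h2 : c ≠ 0 := hc.ne
  field_simp
  ring

theorem e_le (A B c : ℝ) (hA : 0 < A) (hB : Real.pi ≤ B) (hc : c < 0) (hc' : -Real.pi ≤ c)
    (hAB : A ≤ B) :
    (B ^ 2 - (c - A) ^ 2) / (2 * c * A) - (A ^ 2 - (B - c) ^ 2) / (2 * B * c) ≤
      -((B - A) / Real.pi) := by
  have hpi := Real.pi_pos
  have hB0 : 0 < B := by linarith
  rw [e_form A B c hA hB0 hc]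
  apply neg_le_neg
  rw [div_eq_mul_one_div, mul_comm (B - A)]
  apply mul_le_mul_of_nonneg_right _ (by linarith)
  rw [div_le_div_iff₀ hpi (by have := mul_pos hA hB0; nlinarith)]
  have h1 : 2 * A * B ≤ (A + B) ^ 2 - c ^ 2 := by nlinarith
  have h2 : 0 < 2 * A * B := by positivity
  have h3 : 2 * A * B * (-c) ≤ 2 * A * B * Real.pi := by
    apply mul_le_mul_of_nonneg_left _ h2.le
    linarith
  have h4 : 2 * A * B * Real.pi ≤ ((A + B) ^ 2 - c ^ 2) * Real.pi :=
    mul_le_mul_of_nonneg_right h1 hpi.le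
  linarith

theorem a_ge (A B c : ℝ) (hB : 0 < B) (hc : c < 0) (hAB : A ≤ B) (hY : 0 < A - B - c) :
    1 ≤ (A ^ 2 - (B - c) ^ 2) / (2 * B * c) := by
  rw [a_form A B c hB hc]
  have h1 : 0 ≤ (B - A) / (-c) := div_nonneg (by linarith) (by linarith)
  have h2 : 0 ≤ (A - B - c) / (2 * B) := div_nonneg (by linarith) (by linarith)
  nlinarith [mul_nonneg h1 h2]

theorem a_le (A B c s K : ℝ) (hs : 1 ≤ s) (hsA : s / 2 ≤ A) (hB : 0 < B) (hc : c < 0)
    (hc' : -Real.pi ≤ c) (hAB : A ≤ B) (hY : 0 < A - B - c) (hK : (-c)⁻¹ ≤ K) :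
    (A ^ 2 - (B - c) ^ 2) / (2 * B * c) ≤
      1 + (1 + Real.pi) * K * (B - A) + Real.pi / s := by
  rw [a_form A B c hB hc]
  have hpi := Real.pi_pos
  have hs0 : 0 < s := by linarith
  have h1 : 0 ≤ (B - A) / (-c) := div_nonneg (by linarith) (by linarith)
  have h1' : (B - A) / (-c) ≤ K * (B - A) := by
    rw [div_eq_mul_inv, mul_comm]
    exact mul_le_mul_of_nonneg_right hK (by linarith)
  have h2 : 0 ≤ (A - B - c) / (2 * B) := div_nonneg (by linarith) (by linarith)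
  have h2' : (A - B - c) / (2 * B) ≤ Real.pi / s := by
    rw [div_le_div_iff₀ (by linarith) hs0]
    have h3 : A - B - c ≤ Real.pi := by linarith
    have h4 : s ≤ 2 * B := by linarith
    calc (A - B - c) * s ≤ Real.pi * s := mul_le_mul_of_nonneg_right h3 hs0.le
      _ ≤ Real.pi * (2 * B) := mul_le_mul_of_nonneg_left h4 hpi.le
  have h5 : Real.pi / s ≤ Real.pi := by
    rw [div_le_iff₀ hs0]
    nlinarith
  have h6 : (B - A) / (-c) * ((A - B - c) / (2 * B)) ≤ K * (B - A) * Real.pi := by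
    apply mul_le_mul h1' (h2'.trans h5) h2 (h1.trans h1')
  nlinarith [h6, h1', h2']

end P1x

open P1x in
theorem thm_P1 (hA01 : St_A01) (hA02 : St_A02) (hA03 : St_A03) : St_P1 := by
  intro pr
  obtain ⟨-, h2, h3, -⟩ := hA01
  have hpi := Real.pi_pos
  have hc1 : pr.c 1 < 0 := (h2 pr 1 zero_le_one).2.1
  -- the bound for `1/|c|`
  set K : ℝ := (-pr.c 1)⁻¹ + 2 with hK
  have hcK : ∀ s, 1 ≤ s → (-pr.c s)⁻¹ ≤ K := by
    intro s hs
    have h4 := anti (fun r => (-pr.c r)⁻¹ + 2 * r⁻¹)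
      (fun r => -(-((pr.c r ^ 2 - (pr.a r - pr.b r) ^ 2) / (2 * pr.a r * pr.b r))) /
        (-pr.c r) ^ 2 + 2 * (-(r ^ 2)⁻¹)) ?_ ?_ s hs
    · have h5 : 0 < 2 * s⁻¹ := by positivity
      simp only [inv_one, mul_one] at h4
      linarith
    · intro r hr
      have hr0 : 0 < r := by linarith
      have hc : pr.c r < 0 := (h2 pr r hr0.le).2.1
      have hc' : (-pr.c) r ≠ 0 := by
        show -pr.c r ≠ 0
        exact ne_of_gt (by linarith)
      exact (((h3 pr r hr0).2.2.2.neg).inv hc').add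
        ((hasDerivAt_inv hr0.ne').const_mul 2)
    · intro r hr
      have hr0 : 0 < r := by linarith
      have hc : pr.c r < 0 := (h2 pr r hr0.le).2.1
      obtain ⟨ha1, -, -, -, -, ha2⟩ := hA03 pr r hr0.le
      have ha : 0 < pr.a r := (h3 pr r hr0).1
      have hb : 0 < pr.b r := (h2 pr r hr0.le).1
      have h5 : (pr.c r ^ 2 - (pr.a r - pr.b r) ^ 2) / (2 * pr.a r * pr.b r) / (-pr.c r) ^ 2 ≤
          2 * (r ^ 2)⁻¹ := by
        have hc2 : 0 < (-pr.c r) ^ 2 := pow_pos (by linarith) 2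
        rw [div_div, ← div_eq_mul_inv, div_le_div_iff₀ (by positivity) (by positivity)]
        have h6 : r ^ 2 ≤ 4 * (pr.a r * pr.b r) := by nlinarith
        have h7 : 0 ≤ (pr.a r - pr.b r) ^ 2 := sq_nonneg _
        have h8 : 0 < pr.c r ^ 2 := by nlinarith
        have h9 : (pr.c r ^ 2 - (pr.a r - pr.b r) ^ 2) * r ^ 2 ≤ pr.c r ^ 2 * r ^ 2 :=
          mul_le_mul_of_nonneg_right (by linarith) (by positivity)
        have h10 : pr.c r ^ 2 * r ^ 2 ≤ pr.c r ^ 2 * (4 * (pr.a r * pr.b r)) :=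
          mul_le_mul_of_nonneg_left h6 h8.le
        nlinarith
      have h6 : -(-((pr.c r ^ 2 - (pr.a r - pr.b r) ^ 2) / (2 * pr.a r * pr.b r))) /
        (-pr.c r) ^ 2 = (pr.c r ^ 2 - (pr.a r - pr.b r) ^ 2) / (2 * pr.a r * pr.b r) /
          (-pr.c r) ^ 2 := by rw [neg_neg]
      show -(-((pr.c r ^ 2 - (pr.a r - pr.b r) ^ 2) / (2 * pr.a r * pr.b r))) /
        (-pr.c r) ^ 2 + 2 * (-(r ^ 2)⁻¹) ≤ 0
      rw [h6]
      linarith
  have hK0 : 0 ≤ K := by
    have h4 : 0 < (-pr.c 1)⁻¹ := inv_pos.2 (by linarith)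
    linarith
  -- lower bound
  have hlow : ∀ s, 1 ≤ s → pr.a 1 - 1 ≤ pr.a s - s := by
    intro s hs
    have h4 := anti (fun r => r - pr.a r)
      (fun r => 1 - (pr.a r ^ 2 - (pr.b r - pr.c r) ^ 2) / (2 * pr.b r * pr.c r)) ?_ ?_ s hs
    · linarith
    · intro r hr
      have hr0 : 0 < r := by linarith
      exact (hasDerivAt_id r).sub (h3 pr r hr0).2.1
    · intro r hr
      have hr0 : 0 < r := by linarith
      obtain ⟨hb, hc, -⟩ := h2 pr r hr0.le
      obtain ⟨hab, -, hY, -⟩ := hA02 pr r hr0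
      have h5 := a_ge (pr.a r) (pr.b r) (pr.c r) hb hc hab.le hY
      show 1 - (pr.a r ^ 2 - (pr.b r - pr.c r) ^ 2) / (2 * pr.b r * pr.c r) ≤ 0
      linarith
  -- upper bound
  have hup : ∀ s, 1 ≤ s → pr.a s - s - Real.pi * Real.log s ≤
      pr.a 1 - 1 + Real.pi * (1 + Real.pi) * K * (pr.b 1 - pr.a 1) := by
    intro s hs
    have h4 := anti (fun r => pr.a r - r + Real.pi * (1 + Real.pi) * K * (pr.b r - pr.a r) -
        Real.pi * Real.log r)
      (fun r => (pr.a r ^ 2 - (pr.b r - pr.c r) ^ 2) / (2 * pr.b r * pr.c r) - 1 +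
        Real.pi * (1 + Real.pi) * K *
          ((pr.b r ^ 2 - (pr.c r - pr.a r) ^ 2) / (2 * pr.c r * pr.a r) -
            (pr.a r ^ 2 - (pr.b r - pr.c r) ^ 2) / (2 * pr.b r * pr.c r)) -
        Real.pi * r⁻¹) ?_ ?_ s hs
    · simp only [Real.log_one, mul_zero, sub_zero] at h4
      have hs0 : 0 < s := by linarith
      obtain ⟨hab, -⟩ := hA02 pr s hs0
      have h5 : 0 ≤ Real.pi * (1 + Real.pi) * K * (pr.b s - pr.a s) :=
        mul_nonneg (by positivity) (by linarith)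
      linarith
    · intro r hr
      have hr0 : 0 < r := by linarith
      obtain ⟨-, hda, hdb, -⟩ := h3 pr r hr0
      exact ((hda.sub (hasDerivAt_id r)).add ((hdb.sub hda).const_mul _)).sub
        ((Real.hasDerivAt_log hr0.ne').const_mul _)
    · intro r hr
      have hr0 : 0 < r := by linarith
      obtain ⟨hb, hc, -⟩ := h2 pr r hr0.le
      obtain ⟨hab, -, hY, -⟩ := hA02 pr r hr0
      obtain ⟨ha1, -, hc', -, hb', -⟩ := hA03 pr r hr0.le
      have ha : 0 < pr.a r := (h3 pr r hr0).1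
      have h5 := a_le (pr.a r) (pr.b r) (pr.c r) r K hr ha1 hb hc hc' hab.le hY (hcK r hr)
      have h6 := e_le (pr.a r) (pr.b r) (pr.c r) ha hb' hc hc' hab.le
      have h7 : Real.pi * (1 + Real.pi) * K *
          ((pr.b r ^ 2 - (pr.c r - pr.a r) ^ 2) / (2 * pr.c r * pr.a r) -
            (pr.a r ^ 2 - (pr.b r - pr.c r) ^ 2) / (2 * pr.b r * pr.c r)) ≤
          Real.pi * (1 + Real.pi) * K * (-((pr.b r - pr.a r) / Real.pi)) :=
        mul_le_mul_of_nonneg_left h6 (by positivity)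
      have h8 : Real.pi * (1 + Real.pi) * K * (-((pr.b r - pr.a r) / Real.pi)) =
          -((1 + Real.pi) * K * (pr.b r - pr.a r)) := by
        field_simp
      rw [h8] at h7
      have h9 : Real.pi * r⁻¹ = Real.pi / r := (div_eq_mul_inv _ _).symm
      show (pr.a r ^ 2 - (pr.b r - pr.c r) ^ 2) / (2 * pr.b r * pr.c r) - 1 +
        Real.pi * (1 + Real.pi) * K *
          ((pr.b r ^ 2 - (pr.c r - pr.a r) ^ 2) / (2 * pr.c r * pr.a r) -
            (pr.a r ^ 2 - (pr.b r - pr.c r) ^ 2) / (2 * pr.b r * pr.c r)) -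
        Real.pi * r⁻¹ ≤ 0
      rw [h9]
      linarith
  set D : ℝ := Real.pi * (1 + Real.pi) * K * (pr.b 1 - pr.a 1) with hD
  have hD0 : 0 ≤ D := by
    obtain ⟨hab, -⟩ := hA02 pr 1 one_pos
    exact mul_nonneg (by positivity) (by linarith)
  refine ⟨|pr.a 1 - 1| + D + 2 * Real.pi, by positivity, ?_⟩
  intro s hs
  have h1s : 1 ≤ √s := by
    rw [Real.one_le_sqrt]
    exact hs
  have h4 := hlow s hs
  have h5 := hup s hs
  have h6 := log_le s hs
  have h7 : Real.pi * Real.log s ≤ Real.pi * (2 * √s) := mul_le_mul_of_nonneg_left h6 hpi.le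
  have h8 := neg_abs_le (pr.a 1 - 1)
  have h9 := le_abs_self (pr.a 1 - 1)
  have h10 : |pr.a 1 - 1| + D ≤ (|pr.a 1 - 1| + D) * √s := by
    have : 0 ≤ |pr.a 1 - 1| + D := by positivity
    nlinarith
  have h11 : 0 ≤ 2 * Real.pi * √s := by positivity
  rw [abs_le]
  constructor
  · nlinarith
  · nlinarith

end Pool.Agent.FUE
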