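import Pool.Agent.FUE.StY
import Pool.Agent.FUE.H04

/-!
# [P2] lower bound of the second order term
-/

set_option autoImplicit false

open scoped Manifold ContDiff Matrix
open MeasureTheory

namespace Pool.Agent.FUE

namespace P2x

theorem pairK {P Q K x y ν : ℝ} (h : 0 < P + Q) (hK : 0 ≤ P * Q + K * (P + Q)) (hν : x - y = ν) :
    0 ≤ P * x ^ 2 + Q * y ^ 2 + K * ν ^ 2 := by
  subst hν
  have e : (P + Q) * (P * x ^ 2 + Q * y ^ 2 + K * (x - y) ^ 2) =
      (P * x + Q * y) ^ 2 + (P * Q + K * (P + Q)) * (x - y) ^ 2 := by ring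
  have h2 : 0 ≤ (P + Q) * (P * x ^ 2 + Q * y ^ 2 + K * (x - y) ^ 2) := by
    rw [e]
    have := mul_nonneg hK (sq_nonneg (x - y))
    have := sq_nonneg (P * x + Q * y)
    linarith
  exact nonneg_of_mul_nonneg_right h2 h

theorem diag0 {p q r x y z : ℝ} (hpr : 0 < p + r) (hqr : 0 < q + r)
    (hd : 0 < p * q + q * r + r * p) (h : x + y + z = 0) :
    0 ≤ p * x ^ 2 + q * y ^ 2 + r * z ^ 2 := by
  have hz : z = -x - y := by linarith
  subst hz
  have hid : (p + r + (q + r)) * (p * x ^ 2 + q * y ^ 2 + r * (-x - y) ^ 2) =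
      (p * q + q * r + r * p) * (x ^ 2 + y ^ 2) + ((p + r) * x + r * y) ^ 2 +
        (r * x + (q + r) * y) ^ 2 := by ring
  have h1 : 0 ≤ (p + r + (q + r)) * (p * x ^ 2 + q * y ^ 2 + r * (-x - y) ^ 2) := by
    rw [hid]
    positivity
  exact nonneg_of_mul_nonneg_right h1 (by linarith)

end P2x

open P2x in
theorem thm_P2 (hA01 : St_A01) (hA02 : St_A02) (hA03 : St_A03) : St_P2 := by
  intro pr
  refine ⟨6 * Real.pi, by positivity, ?_⟩
  intro s hs g hg
  have hpi := Real.pi_pos
  have hs0 : 0 < s := by linarith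
  obtain ⟨hbpos, hcneg, -, -, -⟩ := hA01.2.1 pr s hs0.le
  have hapos := (hA01.2.2.1 pr s hs0).1
  have hal : 0 < pr.al (s ^ 2) := hA01.1 pr (s ^ 2) (sq_nonneg s)
  obtain ⟨-, hX, hY, hZ, hW⟩ := hA02 pr s hs0
  obtain ⟨has, hba, hcpi, -, hbpi, hab⟩ := hA03 pr s hs0.le
  obtain ⟨E0, E1, E2, E3⟩ := H04x.eqs pr s g hal.ne' hbpos.ne' hcneg.ne hg
  set a := pr.a s with ha
  set b := pr.b s with hb
  set c := pr.c s with hc
  have hbs : s / 2 ≤ b := has.trans hab
  set p : ℝ := (a ^ 2 - (b - c) ^ 2) / (2 * a * b * c) with hp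
  set q : ℝ := (b ^ 2 - (c - a) ^ 2) / (2 * a * b * c) with hq
  set r : ℝ := (c ^ 2 - (a - b) ^ 2) / (2 * a * b * c) with hr
  have hn : 2 * a * b * c ≠ 0 := mul_ne_zero (by positivity) hcneg.ne
  have hc' : 0 < -c := by linarith
  have ep : p = (b - c - a) * (a + b - c) / (2 * a * b * (-c)) := by
    rw [hp, div_eq_div_iff hn (by positivity)]
    ring
  have eq : q = (a - b - c) * (a + b - c) / (2 * a * b * (-c)) := by
    rw [hq, div_eq_div_iff hn (by positivity)]
    ring
  have er : r = -((b - c - a) * (a - b - c)) / (2 * a * b * (-c)) := by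
    rw [hr, div_eq_div_iff hn (by positivity)]
    ring
  have hppos : 0 < p := by
    rw [ep]
    positivity
  have hqpos : 0 < q := by
    rw [eq]
    positivity
  have e2 : p + r = (b - c - a) / (a * (-c)) := by
    rw [ep, er, ← add_div, div_eq_div_iff (by positivity) (by positivity)]
    ring
  have e3 : q + r = (a - b - c) / (b * (-c)) := by
    rw [eq, er, ← add_div, div_eq_div_iff (by positivity) (by positivity)]
    ring
  have hpr : 0 < p + r := by
    rw [e2]
    positivity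
  have hqr : 0 < q + r := by
    rw [e3]
    positivity
  have e4 : p * q + q * r + r * p =
      (b - c - a) * (a - b - c) * (a + b - c) * (a + b + c) / (2 * a * b * (-c)) ^ 2 := by
    rw [ep, eq, er, div_mul_div_comm, div_mul_div_comm, div_mul_div_comm, ← add_div, ← add_div,
      ← sq]
    congr 1
    ring
  have hd : 0 < p * q + q * r + r * p := by
    rw [e4]
    positivity
  -- the bounds
  have bX : b - c - a ≤ 2 * Real.pi := by linarith
  have bY : a - b - c ≤ -c := by linarith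
  have bZ : a + b - c ≤ 3 * b := by linarith
  have hXYZ : (b - c - a) * (a - b - c) * (a + b - c) ≤ (2 * Real.pi) * (-c) * (3 * b) := by
    have h1 : (b - c - a) * (a - b - c) ≤ (2 * Real.pi) * (-c) :=
      mul_le_mul bX bY hY.le (by positivity)
    exact mul_le_mul h1 bZ hZ.le (by positivity)
  have haa : s ^ 2 / 4 ≤ a * a := by
    have := mul_le_mul has has (by positivity) hapos.le
    linarith
  have hab2 : s ^ 2 / 4 ≤ a * b := by
    have := mul_le_mul has hbs (by positivity) hapos.le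
    linarith
  have hK1 : 0 ≤ p * r + (6 * Real.pi / s ^ 2) * (p + r) := by
    have e : p * r + (6 * Real.pi / s ^ 2) * (p + r) =
        (b - c - a) * (24 * Real.pi * (a * b) * b * (-c) -
          s ^ 2 * ((b - c - a) * (a - b - c) * (a + b - c))) /
          (s ^ 2 * (2 * a * b * (-c)) ^ 2) := by
      rw [e2, ep, er]
      field_simp
      ring
    rw [e]
    apply div_nonneg _ (by positivity)
    apply mul_nonneg hX.le
    have h1 : s ^ 2 * ((b - c - a) * (a - b - c) * (a + b - c)) ≤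
        s ^ 2 * ((2 * Real.pi) * (-c) * (3 * b)) :=
      mul_le_mul_of_nonneg_left hXYZ (by positivity)
    have h2 : (s ^ 2 / 4) * (24 * Real.pi * b * (-c)) ≤ (a * b) * (24 * Real.pi * b * (-c)) :=
      mul_le_mul_of_nonneg_right hab2 (by positivity)
    linarith
  have hK2 : 0 ≤ q * r + (6 * Real.pi / s ^ 2) * (q + r) := by
    have e : q * r + (6 * Real.pi / s ^ 2) * (q + r) =
        (a - b - c) * (24 * Real.pi * (a * a) * b * (-c) -
          s ^ 2 * ((b - c - a) * (a - b - c) * (a + b - c))) /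
          (s ^ 2 * (2 * a * b * (-c)) ^ 2) := by
      rw [e3, eq, er]
      field_simp
      ring
    rw [e]
    apply div_nonneg _ (by positivity)
    apply mul_nonneg hY.le
    have h1 : s ^ 2 * ((b - c - a) * (a - b - c) * (a + b - c)) ≤
        s ^ 2 * ((2 * Real.pi) * (-c) * (3 * b)) :=
      mul_le_mul_of_nonneg_left hXYZ (by positivity)
    have h2 : (s ^ 2 / 4) * (24 * Real.pi * b * (-c)) ≤ (a * a) * (24 * Real.pi * b * (-c)) :=
      mul_le_mul_of_nonneg_right haa (by positivity)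
    linarith
  -- the pairs
  have f1 := pairK (x := b * g 2 2) (y := c * g 1 3) (ν := g 0 0) hqr hK2 E1.symm
  have f2 := pairK (x := pr.al (s ^ 2) / 2 * g 2 1) (y := c * g 0 3) (ν := -g 1 0) hpr hK1
    (by linarith)
  have f3 := diag0 hpr hqr hd E0
  have f4 : 0 ≤ p * (pr.al (s ^ 2) / 2 * g 1 1) ^ 2 := by positivity
  have f5 : 0 ≤ q * (b * g 0 2) ^ 2 := by positivity
  have f6 : 0 ≤ 6 * Real.pi / s ^ 2 * g 2 0 ^ 2 := by positivity
  have hlap : lapS pr s g =
      p * ((pr.al (s ^ 2) / 2 * g 0 1) ^ 2 + (pr.al (s ^ 2) / 2 * g 1 1) ^ 2 +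
        (pr.al (s ^ 2) / 2 * g 2 1) ^ 2) +
      q * ((b * g 0 2) ^ 2 + (b * g 1 2) ^ 2 + (b * g 2 2) ^ 2) +
      r * ((c * g 0 3) ^ 2 + (c * g 1 3) ^ 2 + (c * g 2 3) ^ 2) := by
    unfold lapS
    simp only [Fin.sum_univ_three, ← ha, ← hb, ← hc, ← hp, ← hq, ← hr]
    ring
  rw [hlap]
  simp only [Fin.sum_univ_three]
  have f2' : (-g 1 0) ^ 2 = g 1 0 ^ 2 := by ring
  rw [f2'] at f2
  linarith

end Pool.Agent.FUE
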