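import Pool.Agent.FUE.StX

/-!
# Fueter sections, X1: algebra
-/

set_option autoImplicit false

open scoped Manifold ContDiff Matrix
open MeasureTheory

namespace Pool.Agent.FUE

namespace X1x

/-- a rotation is its own cofactor matrix -/
theorem cof {R : Matrix (Fin 3) (Fin 3) ℝ} (hR : IsRot R) : Rᵀ = Matrix.adjugate R := by
  have h1 : R * Matrix.adjugate R = 1 := by rw [Matrix.mul_adjugate, hR.2, one_smul]
  calc Rᵀ = Rᵀ * (R * Matrix.adjugate R) := by rw [h1, mul_one]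
    _ = Rᵀ * R * Matrix.adjugate R := by rw [mul_assoc]
    _ = Matrix.adjugate R := by rw [hR.1, one_mul]

theorem cofs {R : Matrix (Fin 3) (Fin 3) ℝ} (hR : IsRot R) :
    R 0 0 = R 1 1 * R 2 2 - R 1 2 * R 2 1 ∧ R 1 0 = R 0 2 * R 2 1 - R 0 1 * R 2 2 ∧
    R 2 0 = R 0 1 * R 1 2 - R 0 2 * R 1 1 ∧
    R 0 1 = R 1 2 * R 2 0 - R 1 0 * R 2 2 ∧ R 1 1 = R 0 0 * R 2 2 - R 0 2 * R 2 0 ∧
    R 2 1 = R 0 2 * R 1 0 - R 0 0 * R 1 2 ∧
    R 0 2 = R 1 0 * R 2 1 - R 1 1 * R 2 0 ∧ R 1 2 = R 0 1 * R 2 0 - R 0 0 * R 2 1 ∧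
    R 2 2 = R 0 0 * R 1 1 - R 0 1 * R 1 0 := by
  have h := cof hR
  rw [Matrix.adjugate_fin_three] at h
  have f := fun i j => congrFun (congrFun h i) j
  have h00 := f 0 0
  have h01 := f 0 1
  have h02 := f 0 2
  have h10 := f 1 0
  have h11 := f 1 1
  have h12 := f 1 2
  have h20 := f 2 0
  have h21 := f 2 1
  have h22 := f 2 2
  simp at h00 h01 h02 h10 h11 h12 h20 h21 h22
  refine ⟨?_, ?_, ?_, ?_, ?_, ?_, ?_, ?_, ?_⟩ <;> linarith

theorem part1 (R : Matrix (Fin 3) (Fin 3) ℝ) (X : Fin 3 → Fin 3 → Fin 3 → ℝ) (hR : IsRot R)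
    (hX : ∀ j m, X j m = -X m j) :
    Lx (fun j m => R.mulVec (X j m)) = Lx (fun j m => ∑ p, ∑ r, (R p j * R r m) • X p r) := by
  obtain ⟨c00, c10, c20, c01, c11, c21, c02, c12, c22⟩ := cofs hR
  have x12 : ∀ i, X 1 2 i = -X 2 1 i := fun i => congrFun (hX 1 2) i
  have x20 : ∀ i, X 2 0 i = -X 0 2 i := fun i => congrFun (hX 2 0) i
  have x01 : ∀ i, X 0 1 i = -X 1 0 i := fun i => congrFun (hX 0 1) i
  have x00 : ∀ j i, X j j i = 0 := by
    intro j i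
    have h := congrFun (hX j j) i
    rw [Pi.neg_apply] at h
    linarith
  unfold Lx
  simp only [Matrix.mulVec, dotProduct, Fin.sum_univ_three, Pi.add_apply, Pi.smul_apply,
    smul_eq_mul, x12, x20, x01, x00]
  linear_combination X 2 1 0 * c00 + X 0 2 0 * c10 + X 1 0 0 * c20 + X 2 1 1 * c01 +
    X 0 2 1 * c11 + X 1 0 1 * c21 + X 2 1 2 * c02 + X 0 2 2 * c12 + X 1 0 2 * c22

theorem part2 (W : Fin 3 → Matrix (Fin 3) (Fin 3) ℝ) (τ : Fin 3 → Fin 3 → ℝ)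
    (hW : ∀ i, (W i)ᵀ = -W i) :
    Lx (fun j m => (∑ k, (W j k m - W m k j) • τ k) - (W j).mulVec (τ m) + (W m).mulVec (τ j)) =
      ∑ j, ∑ p, W j p j * (τ (p + 2) (p + 1) - τ (p + 1) (p + 2)) := by
  have w10 : ∀ i, W i 1 0 = -W i 0 1 := fun i => congrFun (congrFun (hW i) 0) 1
  have w20 : ∀ i, W i 2 0 = -W i 0 2 := fun i => congrFun (congrFun (hW i) 0) 2
  have w21 : ∀ i, W i 2 1 = -W i 1 2 := fun i => congrFun (congrFun (hW i) 1) 2
  have w00 : ∀ i j, W i j j = 0 := by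
    intro i j
    have h : W i j j = -W i j j := congrFun (congrFun (hW i) j) j
    linarith
  have a1 : (0 : Fin 3) + 2 = 2 := rfl
  have a2 : (0 : Fin 3) + 1 = 1 := rfl
  have a3 : (1 : Fin 3) + 2 = 0 := rfl
  have a4 : (1 : Fin 3) + 1 = 2 := rfl
  have a5 : (2 : Fin 3) + 2 = 1 := rfl
  have a6 : (2 : Fin 3) + 1 = 0 := rfl
  unfold Lx
  simp only [Matrix.mulVec, dotProduct, Fin.sum_univ_three, Pi.add_apply, Pi.sub_apply,
    Pi.smul_apply, smul_eq_mul, w10, w20, w21, w00, a1, a2, a3, a4, a5, a6]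
  ring

theorem part3 (S : Matrix (Fin 3) (Fin 3) ℝ) (ρ : Fin 3 → Fin 3 → Fin 3 → ℝ) (hS : Sᵀ = S)
    (hρ : ∀ j m, ρ j m = -ρ m j) : Lx (fun j m => S.mulVec (ρ j m)) =
      -∑ n, ∑ l, S n l * ((∑ i, hat (ρ i n) i l) -
        (if n = l then (∑ m, ∑ i, hat (ρ i m) i m) / 2 else 0)) := by
  have s10 : S 1 0 = S 0 1 := congrFun (congrFun hS 0) 1
  have s20 : S 2 0 = S 0 2 := congrFun (congrFun hS 0) 2
  have s21 : S 2 1 = S 1 2 := congrFun (congrFun hS 1) 2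
  have x12 : ∀ i, ρ 1 2 i = -ρ 2 1 i := fun i => congrFun (hρ 1 2) i
  have x20 : ∀ i, ρ 2 0 i = -ρ 0 2 i := fun i => congrFun (hρ 2 0) i
  have x01 : ∀ i, ρ 0 1 i = -ρ 1 0 i := fun i => congrFun (hρ 0 1) i
  have x00 : ∀ j i, ρ j j i = 0 := by
    intro j i
    have h := congrFun (hρ j j) i
    rw [Pi.neg_apply] at h
    linarith
  unfold Lx
  simp [Matrix.mulVec, dotProduct, Fin.sum_univ_three, hat, s10, s20, s21, x12, x20, x01, x00]
  ring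

/-- the vectors of the computation [H02] -/
def Tq (q q' : Fin 3 → ℝ) (Om : Fin 3 → Fin 3 → ℝ) (nu : Fin 3 → ℝ) :
    Fin 3 → Fin 3 → Fin 3 → ℝ := fun j m => (crossProduct (Om j) (fun i => q i * Om m i))
      - (crossProduct (Om m) (fun i => q i * Om j i))
      - (fun i => q i * (crossProduct (Om j) (Om m)) i)
      + (fun i => q' i * (nu j * Om m i - nu m * Om j i))

theorem Tq0 (q q' : Fin 3 → ℝ) (Om : Fin 3 → Fin 3 → ℝ) (nu : Fin 3 → ℝ) (j m : Fin 3) :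
    Tq q q' Om nu j m 0 = (Om j 1 * (q 2 * Om m 2) - Om j 2 * (q 1 * Om m 1)) -
      (Om m 1 * (q 2 * Om j 2) - Om m 2 * (q 1 * Om j 1)) -
      q 0 * (Om j 1 * Om m 2 - Om j 2 * Om m 1) + q' 0 * (nu j * Om m 0 - nu m * Om j 0) := by
  simp [Tq, cross_apply, Matrix.vecHead, Matrix.vecTail]

theorem Tq1 (q q' : Fin 3 → ℝ) (Om : Fin 3 → Fin 3 → ℝ) (nu : Fin 3 → ℝ) (j m : Fin 3) :
    Tq q q' Om nu j m 1 = (Om j 2 * (q 0 * Om m 0) - Om j 0 * (q 2 * Om m 2)) -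
      (Om m 2 * (q 0 * Om j 0) - Om m 0 * (q 2 * Om j 2)) -
      q 1 * (Om j 2 * Om m 0 - Om j 0 * Om m 2) + q' 1 * (nu j * Om m 1 - nu m * Om j 1) := by
  simp [Tq, cross_apply, Matrix.vecHead, Matrix.vecTail]

theorem Tq2 (q q' : Fin 3 → ℝ) (Om : Fin 3 → Fin 3 → ℝ) (nu : Fin 3 → ℝ) (j m : Fin 3) :
    Tq q q' Om nu j m 2 = (Om j 0 * (q 1 * Om m 1) - Om j 1 * (q 0 * Om m 0)) -
      (Om m 0 * (q 1 * Om j 1) - Om m 1 * (q 0 * Om j 0)) -
      q 2 * (Om j 0 * Om m 1 - Om j 1 * Om m 0) + q' 2 * (nu j * Om m 2 - nu m * Om j 2) := by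
  simp [Tq, cross_apply, Matrix.vecHead, Matrix.vecTail]

theorem Tq_skew (q q' : Fin 3 → ℝ) (Om : Fin 3 → Fin 3 → ℝ) (nu : Fin 3 → ℝ) (j m : Fin 3) :
    Tq q q' Om nu j m = -Tq q q' Om nu m j := by
  funext i
  rw [Pi.neg_apply]
  have h0 : Tq q q' Om nu j m 0 = -Tq q q' Om nu m j 0 := by
    rw [Tq0, Tq0]
    ring
  have h1 : Tq q q' Om nu j m 1 = -Tq q q' Om nu m j 1 := by
    rw [Tq1, Tq1]
    ring
  have h2 : Tq q q' Om nu j m 2 = -Tq q q' Om nu m j 2 := by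
    rw [Tq2, Tq2]
    ring
  fin_cases i
  · exact h0
  · exact h1
  · exact h2

theorem Tq_rot (q q' : Fin 3 → ℝ) (Om : Fin 3 → Fin 3 → ℝ) (nu : Fin 3 → ℝ)
    (R : Matrix (Fin 3) (Fin 3) ℝ) :
    Lx (fun j m => ∑ p, ∑ r, (R p j * R r m) • Tq q q' Om nu p r) =
      Lx (Tq q q' (fun m n => ∑ j, R j m * Om j n) (fun i => ∑ j, R j i * nu j)) := by
  unfold Lx
  simp only [Fin.sum_univ_three, Pi.add_apply, Pi.smul_apply, smul_eq_mul, Tq0, Tq1, Tq2]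
  ring

theorem partA (hH02 : St_H02) (R : Matrix (Fin 3) (Fin 3) ℝ) (a b c : ℝ)
    (Om : Fin 3 → Fin 3 → ℝ) (nu : Fin 3 → ℝ) (hR : IsRot R) (ha : a ≠ 0) (hb : b ≠ 0)
    (hc : c ≠ 0) (q q' : Fin 3 → ℝ) (hq : q = ![a, b, c])
    (hq' : q' = ![(a ^ 2 - (b - c) ^ 2) / (2 * b * c), (b ^ 2 - (c - a) ^ 2) / (2 * c * a),
      (c ^ 2 - (a - b) ^ 2) / (2 * a * b)])
    (τ : Fin 3 → Fin 3 → ℝ) (hτ : τ = fun m => R.mulVec (fun i => q i * Om m i))
    (h0 : τ 0 0 + τ 1 1 + τ 2 2 = 0)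
    (h1 : ∀ j, nu j = τ (j + 2) (j + 1) - τ (j + 1) (j + 2)) :
    Lx (fun j m => R.mulVec (Tq q q' Om nu j m)) =
      ∑ n, q' n / q n * ∑ m, (q n * ∑ j, R j m * Om j n) ^ 2 := by
  obtain ⟨c00, c10, c20, c01, c11, c21, c02, c12, c22⟩ := cofs hR
  have q0 : q 0 = a := by rw [hq]; rfl
  have q1 : q 1 = b := by rw [hq]; rfl
  have q2 : q 2 = c := by rw [hq]; rfl
  have ht : ∀ m n, τ m n = R n 0 * (a * Om m 0) + R n 1 * (b * Om m 1) + R n 2 * (c * Om m 2) := by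
    intro m n
    rw [hτ]
    simp only [Matrix.mulVec, dotProduct, Fin.sum_univ_three, q0, q1, q2]
  have n0 : nu 0 = τ 2 1 - τ 1 2 := h1 0
  have n1 : nu 1 = τ 0 2 - τ 2 0 := h1 1
  have n2 : nu 2 = τ 1 0 - τ 0 1 := h1 2
  rw [ht, ht, ht] at h0
  rw [ht, ht] at n0 n1 n2
  rw [part1 R _ hR (Tq_skew q q' Om nu), Tq_rot]
  have key := hH02 a b c (fun m n => ∑ j, R j m * Om j n) (fun i => ∑ j, R j i * nu j) ha hb hc
    ?_ ?_ ?_ ?_
  · rw [hq, hq']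
    exact key
  · simp only [Fin.sum_univ_three]
    linear_combination h0
  · simp only [Fin.sum_univ_three, n0, n1, n2]
    linear_combination -(b * Om 0 1) * c02 - (b * Om 1 1) * c12 - (b * Om 2 1) * c22 +
      (c * Om 0 2) * c01 + (c * Om 1 2) * c11 + (c * Om 2 2) * c21
  · simp only [Fin.sum_univ_three, n0, n1, n2]
    linear_combination -(c * Om 0 2) * c00 - (c * Om 1 2) * c10 - (c * Om 2 2) * c20 +
      (a * Om 0 0) * c02 + (a * Om 1 0) * c12 + (a * Om 2 0) * c22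
  · simp only [Fin.sum_univ_three, n0, n1, n2]
    linear_combination -(a * Om 0 0) * c01 - (a * Om 1 0) * c11 - (a * Om 2 0) * c21 +
      (b * Om 0 1) * c00 + (b * Om 1 1) * c10 + (b * Om 2 1) * c20

theorem Lx_add (X Y : Fin 3 → Fin 3 → Fin 3 → ℝ) :
    Lx (fun j m => X j m + Y j m) = Lx X + Lx Y := by
  unfold Lx
  simp only [Pi.add_apply]
  ring

theorem partC (R : Matrix (Fin 3) (Fin 3) ℝ) (q : Fin 3 → ℝ) (ρ : Fin 3 → Fin 3 → Fin 3 → ℝ)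
    (hρ : ∀ j m, ρ j m = -ρ m j) :
    Lx (fun j m => R.mulVec (fun i => q i * (Rᵀ.mulVec (ρ j m)) i)) =
      -∑ i, q i * ein (fun j l => ∑ i, hat (ρ i j) i l) R i := by
  have h1 : ∀ j m, R.mulVec (fun i => q i * (Rᵀ.mulVec (ρ j m)) i) =
      (R * Matrix.diagonal q * Rᵀ).mulVec (ρ j m) := by
    intro j m
    rw [← Matrix.mulVec_mulVec, ← Matrix.mulVec_mulVec]
    congr 1
    funext i
    rw [Matrix.mulVec_diagonal]
  have hS : (R * Matrix.diagonal q * Rᵀ)ᵀ = R * Matrix.diagonal q * Rᵀ := by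
    rw [Matrix.transpose_mul, Matrix.transpose_mul, Matrix.transpose_transpose,
      Matrix.diagonal_transpose, mul_assoc]
  have h2 := part3 (R * Matrix.diagonal q * Rᵀ) ρ hS hρ
  simp only [h1]
  rw [h2]
  congr 1
  have h3 : ∀ n l, (R * Matrix.diagonal q * Rᵀ) n l = ∑ i, q i * (R n i * R l i) := by
    intro n l
    rw [Matrix.mul_apply]
    refine Finset.sum_congr rfl fun i _ => ?_
    rw [Matrix.mul_diagonal, Matrix.transpose_apply]
    ring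
  have h4 : ∀ Y : Fin 3 → Fin 3 → ℝ, ∑ n, ∑ l, (R * Matrix.diagonal q * Rᵀ) n l * Y n l =
      ∑ i, q i * ∑ n, ∑ l, R n i * R l i * Y n l := by
    intro Y
    simp only [h3, Fin.sum_univ_three]
    ring
  exact h4 _

end X1x

open X1x in
theorem thm_X1 (hH02 : St_H02) : St_X1 := by
  refine ⟨part1, part2, part3, ?_⟩
  intro R a b c Om nu W ρ hR ha hb hc hW hρ q q' τ T h0 h1
  have hA := partA hH02 R a b c Om nu hR ha hb hc q q' rfl rfl τ rfl h0 h1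
  have hB := part2 W τ hW
  have hC := partC R q ρ hρ
  have hB' : ∑ j, ∑ p, W j p j * (τ (p + 2) (p + 1) - τ (p + 1) (p + 2)) =
      ∑ j, ∑ p, W j p j * nu p := by
    refine Finset.sum_congr rfl fun j _ => Finset.sum_congr rfl fun p _ => ?_
    rw [h1]
  rw [hB'] at hB
  have hk : ∀ j m, R.mulVec (fun i => q i * (∑ k, (W j k m - W m k j) * Om k i)) =
      ∑ k, (W j k m - W m k j) • τ k := by
    intro j m
    funext n
    simp only [τ, Matrix.mulVec, dotProduct, Finset.sum_apply, Pi.smul_apply, smul_eq_mul,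
      Finset.mul_sum]
    rw [Finset.sum_comm]
    refine Finset.sum_congr rfl fun k _ => Finset.sum_congr rfl fun i _ => ?_
    ring
  have hsum : (fun j m => R.mulVec (T j m)
      + R.mulVec (fun i => q i * (∑ k, (W j k m - W m k j) * Om k i))
      + R.mulVec (fun i => q i * (Rᵀ.mulVec (ρ j m)) i)
      - (W j).mulVec (τ m) + (W m).mulVec (τ j)) =
      fun j m => (R.mulVec (Tq q q' Om nu j m)
      + ((∑ k, (W j k m - W m k j) • τ k) - (W j).mulVec (τ m) + (W m).mulVec (τ j)))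
      + R.mulVec (fun i => q i * (Rᵀ.mulVec (ρ j m)) i) := by
    funext j m
    rw [hk]
    change R.mulVec (Tq q q' Om nu j m) + _ + _ - _ + _ = _
    abel
  rw [hsum, Lx_add, Lx_add, hA, hB, hC]
  ring

end Pool.Agent.FUE
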