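import Pool.Agent.FUE.StX

/-!
# FUE X3: the inequality at a maximum point
-/

set_option autoImplicit false

open scoped Manifold ContDiff Matrix
open MeasureTheory

namespace Pool.Agent.FUE

namespace X3x

theorem toM_ofM (A : Matrix (Fin 3) (Fin 3) ℝ) : toM (ofM A) = A := by
  ext i j
  rfl

theorem tt_eq (P : V9) : tt P = P (0, 0) + P (1, 1) + P (2, 2) - 2 := by
  simp [tt, toM, Matrix.trace, Fin.sum_univ_three]

theorem tt_smooth : ContDiff ℝ ∞ tt := by
  have : tt = fun P : V9 => P (0, 0) + P (1, 1) + P (2, 2) - 2 := funext tt_eq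
  rw [this]
  fun_prop

variable {M : Type} [TopologicalSpace M] [ChartedSpace E3 M] [IsManifold (𝓡 3) ∞ M]

theorem skew (F : Frame M) (i j k : Fin 3) (z : M) : F.c i j k z = -F.c j i k z := by
  have h1 := F.bracket i j z
  have h2 := F.bracket j i z
  have h3 : VectorField.mlieBracket (𝓡 3) (F.e i) (F.e j) z =
      -VectorField.mlieBracket (𝓡 3) (F.e j) (F.e i) z := VectorField.mlieBracket_swap_apply
  have h4 : ∑ k, (F.c i j k z + F.c j i k z) • F.e k z = 0 := by
    simp only [add_smul, Finset.sum_add_distrib]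
    rw [← h1, ← h2, h3, neg_add_cancel]
  have h5 := Fintype.linearIndependent_iff.1 (F.indep z) _ h4 k
  linarith

theorem conn_sm (F : Frame M) (j k l : Fin 3) :
    ContMDiff (𝓡 3) 𝓘(ℝ, ℝ) ∞ (fun y => F.conn j y k l) :=
  (((F.smooth_c j l k).sub (F.smooth_c l k j)).add (F.smooth_c k j l)).div_const 2

theorem crv_eq (F : Frame M) (x : M) (i j : Fin 3) {y : E3}
    (hy : y ∈ (extChartAt (𝓡 3) x).target) :
    crv (Ech F x) (fun i j k z => F.c i j k ((extChartAt (𝓡 3) x).symm z)) i j y =
      F.curv i j ((extChartAt (𝓡 3) x).symm y) := by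
  have h1 : ∀ i j k l, Dl (Ech F x i) (fun z =>
      wl (fun i j k z => F.c i j k ((extChartAt (𝓡 3) x).symm z)) j z k l) y =
      F.D i (fun p => F.conn j p k l) ((extChartAt (𝓡 3) x).symm y) := fun i j k l =>
    (D_chart' F x i hy ((conn_sm F j k l).mdifferentiable (by norm_cast) _)).symm
  unfold crv Frame.curv
  have h2 : (Matrix.of fun k l => Dl (Ech F x i) (fun z =>
      wl (fun i j k z => F.c i j k ((extChartAt (𝓡 3) x).symm z)) j z k l) y -
      Dl (Ech F x j) (fun z =>
      wl (fun i j k z => F.c i j k ((extChartAt (𝓡 3) x).symm z)) i z k l) y) =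
      Matrix.of fun k l => F.D i (fun p => F.conn j p k l) ((extChartAt (𝓡 3) x).symm y) -
        F.D j (fun p => F.conn i p k l) ((extChartAt (𝓡 3) x).symm y) := by
    ext k l
    rw [Matrix.of_apply, Matrix.of_apply, h1, h1]
  rw [h2]
  rfl

theorem rcl_eq (F : Frame M) (x : M) (j l : Fin 3) {y : E3}
    (hy : y ∈ (extChartAt (𝓡 3) x).target) :
    rcl (Ech F x) (fun i j k z => F.c i j k ((extChartAt (𝓡 3) x).symm z)) j l y =
      F.ric j l ((extChartAt (𝓡 3) x).symm y) := by
  unfold rcl Frame.ric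
  refine Finset.sum_congr rfl fun i _ => ?_
  rw [crv_eq F x i j hy]

theorem locF {pr : Profile} (F : Frame M) {u : M → V9} (hu : F.IsFueter pr u) (x : M) :
    LocF pr (extChartAt (𝓡 3) x).target (Ech F x) (fun i z => ofM
      (wl (fun i j k z => F.c i j k ((extChartAt (𝓡 3) x).symm z)) i z))
      (fun z => u ((extChartAt (𝓡 3) x).symm z)) where
  smooth := comp_symm_smooth x hu.smooth.contMDiffOn
  mem := fun z _ => hu.mem _
  eq := fun z hz => by
    have h := hu.eq ((extChartAt (𝓡 3) x).symm z)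
    have h1 : ∀ j, F.cov j u ((extChartAt (𝓡 3) x).symm z) =
        toM (fderiv ℝ (fun z => u ((extChartAt (𝓡 3) x).symm z)) z (Ech F x j z)) +
        (toM (ofM (wl (fun i j k z => F.c i j k ((extChartAt (𝓡 3) x).symm z)) j z)) *
          toM (u ((extChartAt (𝓡 3) x).symm z)) - toM (u ((extChartAt (𝓡 3) x).symm z)) *
          toM (ofM (wl (fun i j k z => F.c i j k ((extChartAt (𝓡 3) x).symm z)) j z))) := by
      intro j
      have h2 := D_chart' F x j hz (hu.smooth.mdifferentiable (by norm_cast) _)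
      rw [toM_ofM]
      unfold Frame.cov
      rw [h2]
      rfl
    have h3 := funext h1
    rw [h3] at h
    exact h

end X3x

theorem thm_X3 (_hA01 : St_A01) (_hA04 : St_A04) (hH04 : St_H04) (hX2 : St_X2) : St_X3 := by
  intro pr M _ _ _ F u x hu hmax hpos
  set e := extChartAt (𝓡 3) x with he
  set y : E3 := e x with hy
  have hyt : y ∈ e.target := mem_extChartAt_target x
  have hleft : e.symm y = x := e.left_inv (mem_extChartAt_source (I := 𝓡 3) x)
  have hposy : 0 < tt (u (e.symm y)) := by rw [hleft]; exact hpos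
  obtain ⟨R, h, hR, -, -, hd0, heq, hlap⟩ := hX2 pr e.target (Ech F x)
    (fun i j k z => F.c i j k (e.symm z)) (fun z => u (e.symm z)) y (chart_target_open x) hyt
    (Ech_smooth F x) (fun i j k => comp_symm_smooth x (F.smooth_c i j k).contMDiffOn)
    (fun i j k z _ => X3x.skew F i j k _) (fun i j => by
      have h1 := bracket_chart F x i j
      simp only [hleft]
      exact h1) (X3x.locF F hu x) hposy
  set s : E3 → ℝ := fun z => √(tt (u (e.symm z))) with hs
  have hus : ContDiffAt ℝ ∞ (fun z => u (e.symm z)) y :=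
    (comp_symm_smooth x hu.smooth.contMDiffOn).contDiffAt ((chart_target_open x).mem_nhds hyt)
  have hsm : ContDiffAt ℝ ∞ s y :=
    (X3x.tt_smooth.contDiffAt.comp y hus).sqrt hposy.ne'
  have hsmax : IsLocalMax s y := by
    refine Filter.Eventually.of_forall fun z => ?_
    refine Real.sqrt_le_sqrt ?_
    unfold tt
    rw [hleft]
    have := hmax (e.symm z)
    linarith
  have hf0 : fderiv ℝ s y = 0 := hsmax.fderiv_eq_zero
  have hh0 : ∀ j, h j 0 = 0 := fun j => by
    rw [← hd0 j]
    change fderiv ℝ s y (Ech F x j y) = 0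
    rw [hf0]
    rfl
  have hsnd : ∑ j, Dl (Ech F x j) (Dl (Ech F x j) s) y ≤ 0 := by
    refine Finset.sum_nonpos fun j _ => ?_
    change fderiv ℝ (fun z => fderiv ℝ s z (Ech F x j z)) y (Ech F x j y) ≤ 0
    have hfd : DifferentiableAt ℝ (fderiv ℝ s) y := by
      have h1 : ContDiffAt ℝ 2 s y := hsm.of_le (by norm_cast)
      exact (h1.fderiv_right (m := 1) (by norm_num)).differentiableAt (by norm_num)
    have hE : DifferentiableAt ℝ (Ech F x j) y :=
      ((Ech_smooth F x j).contDiffAt ((chart_target_open x).mem_nhds hyt)).differentiableAt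
        (by norm_cast)
    rw [fderiv_clm_apply hfd hE]
    have := snd_le hsm hsmax (Ech F x j y)
    simpa [hf0] using this
  have hspos : 0 < √(tt (u (e.symm y))) := Real.sqrt_pos.2 hposy
  obtain ⟨K, c, hK, hc, H⟩ := hH04 pr (√(tt (u (e.symm y)))) (√(tt (u (e.symm y)))) hspos
  have hH := H _ le_rfl le_rfl _ heq
  have hg0 : ∑ m, (∑ j, R j m * h j 0) ^ 2 = 0 := by
    simp [hh0]
  have hl0 : 0 ≤ lapS pr √(tt (u (e.symm y))) (fun i k => ∑ j, R j i * h j k) := by
    have h1 : (0 : ℝ) ≤ c * ∑ m : Fin 3, ∑ k : Fin 4, (∑ j, R j m * h j k) ^ 2 :=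
      mul_nonneg hc.le (Finset.sum_nonneg fun _ _ => Finset.sum_nonneg fun _ _ => sq_nonneg _)
    have h2 : (∑ m : Fin 3, (∑ j, R j m * h j 0) ^ 2) = 0 := hg0
    have h3 := h1.trans hH
    simp only [h2, mul_zero, zero_add] at h3
    exact h3
  have hW : (∑ j, ∑ p, wl (fun i j k z => F.c i j k (e.symm z)) j y p j * h p 0) = 0 := by
    simp [hh0]
  have hric : (fun j l => rcl (Ech F x) (fun i j k z => F.c i j k (e.symm z)) j l y) =
      fun j l => F.ric j l x := by
    funext j l
    have := X3x.rcl_eq F x j l hyt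
    rw [this]
    congr 1
  rw [hW, hric, add_zero] at hlap
  refine ⟨R, hR, ?_⟩
  have h5 : u (e.symm y) = u x := by rw [hleft]
  simp only [h5] at hlap hl0
  have h6 : ∑ j, Dl (Ech F x j) (Dl (Ech F x j) fun z => √(tt (u (e.symm z)))) y ≤ 0 := hsnd
  linarith

end Pool.Agent.FUE
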