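import Pool.Agent.FUE.StX

/-!
# FUE X4: a priori bound for positive Ricci curvature (helper41)
-/

set_option autoImplicit false

open scoped Manifold ContDiff Matrix
open MeasureTheory

namespace Pool.Agent.FUE

namespace X4x

variable {M : Type} [TopologicalSpace M] [ChartedSpace E3 M] [IsManifold (𝓡 3) ∞ M]

theorem conn_sm (F : Frame M) (j k l : Fin 3) :
    ContMDiff (𝓡 3) 𝓘(ℝ, ℝ) ∞ (fun y => F.conn j y k l) :=
  (((F.smooth_c j l k).sub (F.smooth_c l k j)).add (F.smooth_c k j l)).div_const 2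

theorem conn_cont (F : Frame M) (j k l : Fin 3) : Continuous fun y => F.conn j y k l :=
  (conn_sm F j k l).continuous

theorem curv_cont (F : Frame M) (i j k l : Fin 3) : Continuous fun x => F.curv i j x k l := by
  have h : (fun x => F.curv i j x k l) = fun x =>
      (F.D i (fun y => F.conn j y k l) x - F.D j (fun y => F.conn i y k l) x) +
      ((∑ m, F.conn i x k m * F.conn j x m l) - ∑ m, F.conn j x k m * F.conn i x m l) -
      ∑ m, F.c i j m x * F.conn m x k l := by
    funext x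
    simp only [Frame.curv, Matrix.sub_apply, Matrix.add_apply, Matrix.of_apply, Matrix.mul_apply,
      Matrix.sum_apply, Matrix.smul_apply, smul_eq_mul]
  rw [h]
  have h1 : Continuous (F.D i (fun y => F.conn j y k l)) :=
    (D_smooth F i (conn_sm F j k l)).continuous
  have h2 : Continuous (F.D j (fun y => F.conn i y k l)) :=
    (D_smooth F j (conn_sm F i k l)).continuous
  refine Continuous.sub (Continuous.add (h1.sub h2) (Continuous.sub ?_ ?_)) ?_
  · exact continuous_finsetSum _ fun m _ => (conn_cont F i k m).mul (conn_cont F j m l)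
  · exact continuous_finsetSum _ fun m _ => (conn_cont F j k m).mul (conn_cont F i m l)
  · exact continuous_finsetSum _ fun m _ => (F.smooth_c i j m).continuous.mul (conn_cont F m k l)

theorem ric_cont (F : Frame M) (j l : Fin 3) : Continuous (F.ric j l) := by
  have h : F.ric j l = fun x => ∑ i, F.curv i j x i l := rfl
  rw [h]
  exact continuous_finsetSum _ fun i _ => curv_cont F i j i l

theorem sph : IsCompact {v : Fin 3 → ℝ | ∑ i, v i ^ 2 = 1} := by
  refine Metric.isCompact_of_isClosed_isBounded ?_ ?_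
  · refine isClosed_eq ?_ continuous_const
    exact continuous_finsetSum _ fun i _ => (continuous_apply i).pow 2
  · refine (Metric.isBounded_closedBall (x := (0 : Fin 3 → ℝ)) (r := 1)).subset ?_
    intro v hv
    rw [Metric.mem_closedBall, dist_zero_right, pi_norm_le_iff_of_nonneg zero_le_one]
    intro i
    have h1 : v i ^ 2 ≤ ∑ i, v i ^ 2 :=
      Finset.single_le_sum (f := fun i => v i ^ 2) (fun _ _ => sq_nonneg _) (Finset.mem_univ i)
    rw [hv] at h1
    rw [Real.norm_eq_abs, ← sq_abs] at *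
    exact (sq_le_one_iff₀ (abs_nonneg _)).1 h1

/-- the value of `G` on the unit vector `v` -/
noncomputable def gg (F : Frame M) (x : M) (v : Fin 3 → ℝ) : ℝ :=
  ∑ n, ∑ l, v n * v l * (F.ric n l x - (if n = l then (∑ m, F.ric m m x) / 2 else 0))

theorem col (R : Matrix (Fin 3) (Fin 3) ℝ) (hR : IsRot R) (i : Fin 3) :
    ∑ n, R n i ^ 2 = 1 := by
  have h := congrFun (congrFun hR.1 i) i
  rw [Matrix.mul_apply] at h
  simpa [Matrix.transpose_apply, pow_two] using h

theorem row (R : Matrix (Fin 3) (Fin 3) ℝ) (hR : IsRot R) (n l : Fin 3) :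
    ∑ i, R n i * R l i = if n = l then 1 else 0 := by
  have h2 : R * Rᵀ = 1 := mul_eq_one_comm.1 hR.1
  have h := congrFun (congrFun h2 n) l
  rw [Matrix.mul_apply, Matrix.one_apply] at h
  simpa [Matrix.transpose_apply] using h

theorem ein_id (r : Fin 3 → Fin 3 → ℝ) (R : Matrix (Fin 3) (Fin 3) ℝ) (hR : IsRot R) :
    ein r R 0 + ein r R 1 = -∑ n, ∑ l, r n l * R n 2 * R l 2 := by
  have h00 := row R hR 0 0
  have h01 := row R hR 0 1
  have h02 := row R hR 0 2
  have h11 := row R hR 1 1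
  have h12 := row R hR 1 2
  have h22 := row R hR 2 2
  have hc2 := col R hR 2
  rw [Fin.sum_univ_three] at hc2
  rw [Fin.sum_univ_three] at h00 h01 h02 h11 h12 h22
  simp only [if_true, Fin.reduceEq, if_false] at h00 h01 h02 h11 h12 h22
  simp only [ein, Fin.sum_univ_three, Fin.reduceEq, if_true, if_false, sub_zero]
  linear_combination (r 0 0 - (r 0 0 + r 1 1 + r 2 2) / 2) * h00 +
    (r 1 1 - (r 0 0 + r 1 1 + r 2 2) / 2) * h11 + (r 2 2 - (r 0 0 + r 1 1 + r 2 2) / 2) * h22 +
    (r 0 1 + r 1 0) * h01 + (r 0 2 + r 2 0) * h02 + (r 1 2 + r 2 1) * h12 +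
    ((r 0 0 + r 1 1 + r 2 2) / 2) * hc2

end X4x

open X4x in
theorem thm_X4 (hA03 : St_A03) (hX3 : St_X3) : St_X4 := by
  intro pr M _ _ _ _ F hF
  by_cases hM : Nonempty M
  swap
  · exact ⟨0, fun u _ x => (hM ⟨x⟩).elim⟩
  have hK : IsCompact ((Set.univ : Set M) ×ˢ {v : Fin 3 → ℝ | ∑ i, v i ^ 2 = 1}) :=
    isCompact_univ.prod sph
  have hQ : Continuous fun p : M × (Fin 3 → ℝ) => ∑ j, ∑ l, F.ric j l p.1 * p.2 j * p.2 l := by
    refine continuous_finsetSum _ fun j _ => continuous_finsetSum _ fun l _ => ?_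
    exact (((ric_cont F j l).comp continuous_fst).mul
      ((continuous_apply j).comp continuous_snd)).mul ((continuous_apply l).comp continuous_snd)
  have hG : Continuous fun p : M × (Fin 3 → ℝ) => gg F p.1 p.2 := by
    unfold gg
    refine continuous_finsetSum _ fun n _ => continuous_finsetSum _ fun l _ => ?_
    refine (((continuous_apply n).comp continuous_snd).mul
      ((continuous_apply l).comp continuous_snd)).mul (Continuous.sub ?_ ?_)
    · exact (ric_cont F n l).comp continuous_fst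
    · split_ifs
      · exact (continuous_finsetSum _ fun m _ => (ric_cont F m m).comp continuous_fst).div_const 2
      · exact continuous_const
  have hne : ((Set.univ : Set M) ×ˢ {v : Fin 3 → ℝ | ∑ i, v i ^ 2 = 1}).Nonempty := by
    refine ⟨(hM.some, ![1, 0, 0]), trivial, ?_⟩
    simp [Fin.sum_univ_three]
  obtain ⟨p₀, hp₀, hmin⟩ := hK.exists_isMinOn hne hQ.continuousOn
  obtain ⟨K, hKb⟩ := hK.exists_bound_of_continuousOn hG.continuousOn
  set κ : ℝ := ∑ j, ∑ l, F.ric j l p₀.1 * p₀.2 j * p₀.2 l with hκ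
  have hκ0 : 0 < κ := by
    refine hF p₀.1 p₀.2 ?_
    intro h0
    have h1 : ∑ i, p₀.2 i ^ 2 = 1 := hp₀.2
    rw [h0] at h1
    simp at h1
  refine ⟨2 + (4 * Real.pi * K / κ) ^ 2, ?_⟩
  intro u hu z
  have hcu : Continuous u := hu.smooth.continuous
  have hct : Continuous fun z => (toM (u z)).trace := by
    have h1 : (fun z => (toM (u z)).trace) = fun z => ∑ i : Fin 3, u z (i, i) := by
      funext z
      rfl
    rw [h1]
    refine continuous_finsetSum _ fun i _ => ?_
    exact (EuclideanSpace.proj (i, i) : V9 →L[ℝ] ℝ).continuous.comp hcu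
  obtain ⟨x, -, hx⟩ := isCompact_univ.exists_isMaxOn (⟨z, trivial⟩ : (Set.univ : Set M).Nonempty)
    hct.continuousOn
  have hx' : ∀ z, (toM (u z)).trace ≤ (toM (u x)).trace := fun z => hx trivial
  refine le_trans (hx' z) ?_
  have htt : (toM (u x)).trace = 2 + tt (u x) := by
    unfold tt
    ring
  rw [htt]
  by_cases ht : 0 < tt (u x)
  swap
  · have h1 : 0 ≤ (4 * Real.pi * K / κ) ^ 2 := sq_nonneg _
    linarith
  obtain ⟨R, hR, hin⟩ := hX3 pr M F u x hu hx' ht
  set s := √(tt (u x)) with hs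
  have hs0 : 0 ≤ s := Real.sqrt_nonneg _
  obtain ⟨a1, a2, a3, a4, a5, a6⟩ := hA03 pr s hs0
  set r : Fin 3 → Fin 3 → ℝ := fun j l => F.ric j l x with hr
  have hb : ∀ i, |ein r R i| ≤ K := by
    intro i
    have h1 := hKb (x, fun n => R n i) ⟨trivial, col R hR i⟩
    rw [Real.norm_eq_abs] at h1
    exact h1
  have hid := ein_id r R hR
  have hmn : κ ≤ ∑ n, ∑ l, r n l * R n 2 * R l 2 := by
    have h1 := hmin (show (x, fun n => R n 2) ∈ (Set.univ : Set M) ×ˢ
      {v : Fin 3 → ℝ | ∑ i, v i ^ 2 = 1} from ⟨trivial, col R hR 2⟩)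
    exact h1
  rw [Fin.sum_univ_three] at hin
  simp only [Matrix.cons_val_zero, Matrix.cons_val_one, Matrix.cons_val] at hin
  have hb1 := hb 1
  have hb2 := hb 2
  have hK0 : 0 ≤ K := le_trans (abs_nonneg _) hb1
  have hpi := Real.pi_pos
  have q1 : (pr.b s - pr.a s) * ein r R 1 ≤ Real.pi * K := by
    have h1 : (pr.b s - pr.a s) * ein r R 1 ≤ (pr.b s - pr.a s) * K :=
      mul_le_mul_of_nonneg_left (le_trans (le_abs_self _) hb1) (by linarith)
    have h2 : (pr.b s - pr.a s) * K ≤ Real.pi * K := mul_le_mul_of_nonneg_right a2 hK0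
    linarith
  have q2 : pr.c s * ein r R 2 ≤ Real.pi * K := by
    have h1 : (-pr.c s) * (-ein r R 2) ≤ (-pr.c s) * K :=
      mul_le_mul_of_nonneg_left (le_trans (neg_le_abs _) hb2) (by linarith)
    have h2 : (-pr.c s) * K ≤ Real.pi * K := mul_le_mul_of_nonneg_right (by linarith) hK0
    linarith
  have q3 : pr.a s * κ ≤ 2 * Real.pi * K := by
    have h1 : pr.a s * κ ≤ pr.a s * ∑ n, ∑ l, r n l * R n 2 * R l 2 :=
      mul_le_mul_of_nonneg_left hmn (by linarith)
    have h2 : ∑ n, ∑ l, r n l * R n 2 * R l 2 = -(ein r R 0 + ein r R 1) := by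
      rw [hid, neg_neg]
    rw [h2] at h1
    nlinarith
  have q4 : s ≤ 4 * Real.pi * K / κ := by
    rw [le_div_iff₀ hκ0]
    have h1 : s / 2 * κ ≤ pr.a s * κ := mul_le_mul_of_nonneg_right a1 hκ0.le
    linarith
  have q5 : tt (u x) = s ^ 2 := (Real.sq_sqrt ht.le).symm
  rw [q5]
  have q6 : s ^ 2 ≤ (4 * Real.pi * K / κ) ^ 2 := pow_le_pow_left₀ hs0 q4 2
  linarith

end Pool.Agent.FUE
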