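import Pool.Agent.FUE.StY
import Pool.Agent.FUE.Mf7
import Pool.Agent.FUE.X4

/-!
# Fueter sections: the inequality at a maximum point of `s / f`

Proof of `St_Y1`: in the chart at the maximum point `x` the function `σ - t₀ f`, where `σ` is the
distance to the bolt and `t₀ = σ(x) / f(x)`, has a local maximum at `x`.
-/

set_option autoImplicit false

open scoped Manifold ContDiff Matrix Topology
open MeasureTheory

namespace Pool.Agent.FUE

namespace Y1x

section euc

/-- second derivative along a vector field at a local maximum -/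
theorem snd_vec {H : E3 → ℝ} {y : E3} (hH : ContDiffAt ℝ ∞ H y) (hmax : IsLocalMax H y)
    {B : E3 → E3} (hB : DifferentiableAt ℝ B y) : Dl B H y = 0 ∧ Dl B (Dl B H) y ≤ 0 := by
  have h3 : fderiv ℝ H y = 0 := hmax.fderiv_eq_zero
  constructor
  · show fderiv ℝ H y (B y) = 0
    rw [h3]
    rfl
  · show fderiv ℝ (fun z => fderiv ℝ H z (B z)) y (B y) ≤ 0
    have hfd : DifferentiableAt ℝ (fderiv ℝ H) y := by
      have h1 : ContDiffAt ℝ 2 H y := hH.of_le (by norm_cast)
      exact (h1.fderiv_right (m := 1) (by norm_num)).differentiableAt (by norm_num)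
    rw [fderiv_clm_apply hfd hB]
    have := snd_le hH hmax (B y)
    simpa [h3] using this

theorem Dl_sub_mul {B : E3 → E3} {s f : E3 → ℝ} {t : ℝ} {z : E3} (hs : DifferentiableAt ℝ s z)
    (hf : DifferentiableAt ℝ f z) :
    Dl B (fun w => s w - t * f w) z = Dl B s z - t * Dl B f z := by
  have h1 : HasFDerivAt (fun w => s w - t * f w) (fderiv ℝ s z - t • fderiv ℝ f z) z :=
    hs.hasFDerivAt.sub (hf.hasFDerivAt.const_mul t)
  show fderiv ℝ (fun w => s w - t * f w) z (B z) = _
  rw [h1.fderiv]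
  rfl

theorem Dl_congr {B : E3 → E3} {s f : E3 → ℝ} {z : E3} (h : s =ᶠ[𝓝 z] f) : Dl B s z = Dl B f z := by
  show fderiv ℝ s z (B z) = fderiv ℝ f z (B z)
  rw [h.fderiv_eq]

/-- comparison of two functions touching at a point -/
theorem touch {U : Set E3} (hU : IsOpen U) {y : E3} (hy : y ∈ U) {s f : E3 → ℝ} {t : ℝ}
    (hs : ContDiffOn ℝ ∞ s U) (hf : ContDiffOn ℝ ∞ f U)
    (hle : ∀ z ∈ U, s z ≤ t * f z) (heq : s y = t * f y) {B : E3 → E3} (hB : ContDiffOn ℝ ∞ B U) :
    Dl B s y = t * Dl B f y ∧ Dl B (Dl B s) y ≤ t * Dl B (Dl B f) y := by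
  have hn := hU.mem_nhds hy
  have hH : ContDiffOn ℝ ∞ (fun w => s w - t * f w) U := hs.sub (contDiffOn_const.mul hf)
  have hmax : IsLocalMax (fun w => s w - t * f w) y := by
    filter_upwards [hn] with z hz
    have := hle z hz
    rw [heq]
    linarith
  have hsd : ∀ z ∈ U, DifferentiableAt ℝ s z := fun z hz =>
    (hs.contDiffAt (hU.mem_nhds hz)).differentiableAt (by simp)
  have hfd : ∀ z ∈ U, DifferentiableAt ℝ f z := fun z hz =>
    (hf.contDiffAt (hU.mem_nhds hz)).differentiableAt (by simp)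
  have hBd : DifferentiableAt ℝ B y := (hB.contDiffAt hn).differentiableAt (by simp)
  obtain ⟨h1, h2⟩ := snd_vec (hH.contDiffAt hn) hmax hBd
  have e1 : ∀ z ∈ U, Dl B (fun w => s w - t * f w) z = Dl B s z - t * Dl B f z := fun z hz =>
    Dl_sub_mul (hsd z hz) (hfd z hz)
  have hs1 : DifferentiableAt ℝ (Dl B s) y :=
    ((Dl_smooth hU hB hs).contDiffAt hn).differentiableAt (by simp)
  have hf1 : DifferentiableAt ℝ (Dl B f) y :=
    ((Dl_smooth hU hB hf).contDiffAt hn).differentiableAt (by simp)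
  have e2 : Dl B (Dl B (fun w => s w - t * f w)) y = Dl B (Dl B s) y - t * Dl B (Dl B f) y := by
    rw [← Dl_sub_mul hs1 hf1]
    refine Dl_congr ?_
    filter_upwards [hn] with z hz
    exact e1 z hz
  rw [e1 y hy] at h1
  rw [e2] at h2
  exact ⟨by linarith, by linarith⟩

end euc

section mfd

variable {M : Type} [TopologicalSpace M] [ChartedSpace E3 M] [IsManifold (𝓡 3) ∞ M]

/-- the structure functions are skew -/
theorem c_skew (F : Frame M) (i j k : Fin 3) (x : M) : F.c i j k x = -F.c j i k x := by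
  have h1 := F.bracket i j x
  have h2 := F.bracket j i x
  have h3 : VectorField.mlieBracket (𝓡 3) (F.e i) (F.e j) x =
      -VectorField.mlieBracket (𝓡 3) (F.e j) (F.e i) x := by
    rw [VectorField.mlieBracket_swap]
    rfl
  have h4 : ∑ k, (F.c i j k x + F.c j i k x) • F.e k x = 0 := by
    simp only [add_smul, Finset.sum_add_distrib]
    rw [← h1, ← h2, h3]
    exact neg_add_cancel _
  have h5 := Fintype.linearIndependent_iff.1 (F.indep x) _ h4 k
  linarith

/-- the structure functions in a chart -/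
noncomputable def cc (F : Frame M) (p : M) (i j k : Fin 3) (z : E3) : ℝ :=
  F.c i j k ((extChartAt (𝓡 3) p).symm z)

theorem crv_chart (F : Frame M) (p : M) (i j : Fin 3) {y : E3} (hy : y ∈ (extChartAt (𝓡 3) p).target) :
    crv (Ech F p) (cc F p) i j y = F.curv i j ((extChartAt (𝓡 3) p).symm y) := by
  have hD : ∀ (i j k l : Fin 3), F.D i (fun y => F.conn j y k l) ((extChartAt (𝓡 3) p).symm y) =
      Dl (Ech F p i) (fun z => wl (cc F p) j z k l) y := by
    intro i j k l
    exact D_chart' F p i hy ((X4x.conn_sm F j k l).mdifferentiable (by simp) _)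
  have hW : ∀ j, wl (cc F p) j y = F.conn j ((extChartAt (𝓡 3) p).symm y) := fun j => rfl
  unfold crv Frame.curv
  simp only [hD, hW]
  rfl

theorem rcl_chart (F : Frame M) (p : M) (j l : Fin 3) {y : E3} (hy : y ∈ (extChartAt (𝓡 3) p).target) :
    rcl (Ech F p) (cc F p) j l y = F.ric j l ((extChartAt (𝓡 3) p).symm y) := by
  unfold rcl Frame.ric
  refine Finset.sum_congr rfl fun i _ => ?_
  rw [crv_chart F p i j hy]

theorem sum_sq (R : Matrix (Fin 3) (Fin 3) ℝ) (hR : IsRot R) (h : Fin 3 → ℝ) :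
    ∑ m, (∑ j, R j m * h j) ^ 2 = ∑ j, h j ^ 2 := by
  have e1 : ∀ m, (∑ j, R j m * h j) ^ 2 = ∑ j, ∑ l, (h j * h l) * (R j m * R l m) := by
    intro m
    rw [pow_two, Finset.sum_mul_sum]
    refine Finset.sum_congr rfl fun j _ => Finset.sum_congr rfl fun l _ => by ring
  simp only [e1]
  rw [Finset.sum_comm]
  refine Finset.sum_congr rfl fun j _ => ?_
  rw [Finset.sum_comm]
  simp only [← Finset.mul_sum, X4x.row R hR]
  simp [pow_two]

theorem tt_cont : Continuous (fun P : V9 => tt P) := by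
  have h : (fun P : V9 => tt P) = fun P => (∑ i : Fin 3, P (i, i)) - 2 := by
    funext P
    simp [tt, toM, Matrix.trace]
  rw [h]
  exact (continuous_finsetSum _ fun i _ =>
    (EuclideanSpace.proj (i, i) : V9 →L[ℝ] ℝ).continuous).sub continuous_const

theorem tt_cd : ContDiff ℝ ∞ (fun P : V9 => tt P) := by
  have h : (fun P : V9 => tt P) = fun P => (∑ i : Fin 3, P (i, i)) - 2 := by
    funext P
    simp [tt, toM, Matrix.trace]
  rw [h]
  exact (ContDiff.sum fun i _ =>
    (EuclideanSpace.proj (i, i) : V9 →L[ℝ] ℝ).contDiff).sub contDiff_const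

end mfd

end Y1x

open Y1x in
theorem thm_Y1 (_hA01 : St_A01) (_hA04 : St_A04) (hX2 : St_X2) : St_Y1 := by
  intro pr M _ _ _ F u f x hu hf hfpos hmax htt
  set U : Set E3 := (extChartAt (𝓡 3) x).target with hU
  have hUo : IsOpen U := chart_target_open x
  set y0 : E3 := extChartAt (𝓡 3) x x with hy0
  have hyU : y0 ∈ U := mem_extChartAt_target (I := 𝓡 3) x
  have hleft : (extChartAt (𝓡 3) x).symm y0 = x :=
    (extChartAt (𝓡 3) x).left_inv (mem_extChartAt_source (I := 𝓡 3) x)
  set u' : E3 → V9 := fun z => u ((extChartAt (𝓡 3) x).symm z) with hu'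
  set f' : E3 → ℝ := fun z => f ((extChartAt (𝓡 3) x).symm z) with hf'
  have hu's : ContDiffOn ℝ ∞ u' U := comp_symm_smooth x hu.smooth.contMDiffOn
  have hf's : ContDiffOn ℝ ∞ f' U := comp_symm_smooth x hf.contMDiffOn
  have hu'y : u' y0 = u x := by
    rw [hu']
    simp only
    rw [hleft]
  have hf'y : f' y0 = f x := by
    rw [hf']
    simp only
    rw [hleft]
  have hBs : ∀ i, ContDiffOn ℝ ∞ (Ech F x i) U := fun i => Ech_smooth F x i
  have hloc : LocF pr U (Ech F x) (fun i z => ofM (wl (cc F x) i z)) u' := locF_chart hu x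
  obtain ⟨R, h, hR, hRu, hcov, hD1, heq, hlap⟩ := hX2 pr U (Ech F x) (cc F x) u' y0 hUo hyU hBs
    (fun i j k => comp_symm_smooth x (F.smooth_c i j k).contMDiffOn)
    (fun i j k z _ => c_skew F i j k _)
    (fun i j => by
      have := bracket_chart F x i j
      rw [← hy0] at this
      rw [this]
      refine Finset.sum_congr rfl fun k _ => ?_
      show F.c i j k x • _ = F.c i j k ((extChartAt (𝓡 3) x).symm y0) • _
      rw [hleft]) hloc (by rw [hu'y]; exact htt)
  rw [hu'y] at hRu heq hlap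
  -- the smooth set
  set O : Set E3 := U ∩ {z | 0 < tt (u' z)} with hO
  have hOo : IsOpen O := by
    have : ContinuousOn (fun z => tt (u' z)) U := tt_cont.comp_continuousOn hu's.continuousOn
    exact this.isOpen_inter_preimage hUo isOpen_Ioi
  have hyO : y0 ∈ O := ⟨hyU, by
    show 0 < tt (u' y0)
    rw [hu'y]
    exact htt⟩
  have hσs : ContDiffOn ℝ ∞ (fun z => √(tt (u' z))) O := by
    refine ContDiffOn.sqrt ?_ fun z hz => ne_of_gt hz.2
    exact tt_cd.comp_contDiffOn (hu's.mono Set.inter_subset_left)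
  set t0 : ℝ := √(tt (u x)) / f x with ht0
  have hfx := hfpos x
  have ht0n : 0 ≤ t0 := div_nonneg (Real.sqrt_nonneg _) hfx.le
  have hle : ∀ z ∈ O, √(tt (u' z)) ≤ t0 * f' z := by
    intro z hz
    have hfz : 0 < f' z := hfpos _
    refine Real.sqrt_le_iff.2 ⟨mul_nonneg ht0n hfz.le, ?_⟩
    have h1 := hmax ((extChartAt (𝓡 3) x).symm z)
    have h2 : tt (u' z) / f' z ^ 2 ≤ tt (u x) / f x ^ 2 := h1
    have h3 : t0 ^ 2 = tt (u x) / f x ^ 2 := by
      rw [ht0, div_pow, Real.sq_sqrt htt.le]
    rw [mul_pow, h3]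
    rw [div_le_iff₀ (by positivity)] at h2
    exact h2
  have heq0 : √(tt (u' y0)) = t0 * f' y0 := by
    rw [hu'y, hf'y, ht0]
    field_simp
  have htouch := fun j => touch hOo hyO hσs (hf's.mono Set.inter_subset_left) hle heq0
    ((hBs j).mono Set.inter_subset_left)
  have hFD : ∀ j, F.D j f x = Dl (Ech F x j) f' y0 := by
    intro j
    have := Dw_chart F x [j] hf hyU
    rw [hleft] at this
    exact this
  have hFDD : ∀ j, F.D j (F.D j f) x = Dl (Ech F x j) (Dl (Ech F x j) f') y0 := by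
    intro j
    have := Dw_chart F x [j, j] hf hyU
    rw [hleft] at this
    exact this
  have hh0 : ∀ j, h j 0 = t0 * F.D j f x := by
    intro j
    rw [hFD j, ← (htouch j).1, ← hD1 j]
  refine ⟨R, fun i k => ∑ j, R j i * h j k, hR, heq, ?_, ?_⟩
  · rw [sum_sq R hR (fun j => h j 0)]
    simp only [hh0, mul_pow, ← Finset.mul_sum, ht0]
  · have hric : ∀ j l, rcl (Ech F x) (cc F x) j l y0 = F.ric j l x := by
      intro j l
      rw [rcl_chart F x j l hyU, hleft]
    have hwl : ∀ j p, wl (cc F x) j y0 p j = F.conn j x p j := by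
      intro j p
      show F.conn j ((extChartAt (𝓡 3) x).symm y0) p j = _
      rw [hleft]
    simp only [hric, hwl, hh0] at hlap
    have h5 : ∑ j, Dl (Ech F x j) (Dl (Ech F x j) fun z => √(tt (u' z))) y0 ≤
        t0 * ∑ j, F.D j (F.D j f) x := by
      rw [Finset.mul_sum]
      refine Finset.sum_le_sum fun j _ => ?_
      rw [hFDD j]
      exact (htouch j).2
    have h6 : √(tt (u x)) * (F.lap f x / f x) = t0 * F.lap f x := by
      rw [ht0]
      field_simp
    have h7 : t0 * F.lap f x = t0 * ∑ j, F.D j (F.D j f) x -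
        ∑ j, ∑ p, F.conn j x p j * (t0 * F.D p f x) := by
      unfold Frame.lap
      rw [mul_sub]
      congr 1
      rw [Finset.mul_sum]
      refine Finset.sum_congr rfl fun j _ => ?_
      rw [Finset.mul_sum]
      refine Finset.sum_congr rfl fun p _ => by ring
    rw [h6, h7]
    linarith

end Pool.Agent.FUE
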