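import Pool.Agent.FUE.StY
import Pool.Agent.FUE.X4

/-!
# FUE Y2: a priori bound under the spectral Ricci condition (helper67)
-/

set_option autoImplicit false

open scoped Manifold ContDiff Matrix
open MeasureTheory

namespace Pool.Agent.FUE

namespace Y2x

variable {M : Type} [TopologicalSpace M] [ChartedSpace E3 M] [IsManifold (𝓡 3) ∞ M]

theorem lap_cont (F : Frame M) {f : M → ℝ} (hf : ContMDiff (𝓡 3) 𝓘(ℝ, ℝ) ∞ f) :
    Continuous (F.lap f) := by
  have h : F.lap f = fun x => ∑ j, F.D j (F.D j f) x -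
      ∑ j, ∑ p, F.conn j x p j * F.D p f x := rfl
  rw [h]
  refine Continuous.sub ?_ ?_
  · exact continuous_finsetSum _ fun j _ => (D_smooth F j (D_smooth F j hf)).continuous
  · exact continuous_finsetSum _ fun j _ => continuous_finsetSum _ fun p _ =>
      (X4x.conn_cont F j p j).mul (D_smooth F p hf).continuous

/-- the final estimate -/
theorem fin {A B lam s : ℝ} (hB : 0 ≤ B) (hl : 0 < lam) (hs : 1 ≤ s)
    (h : lam * s ≤ A * √s + B) : s ^ 2 ≤ ((A + B) / lam) ^ 4 := by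
  have h1 : 1 ≤ √s := Real.one_le_sqrt.2 hs
  have h2 : √s * √s = s := Real.mul_self_sqrt (by linarith)
  have h3 : lam * √s ≤ A + B := by
    have h4 : lam * s ≤ (A + B) * √s := by nlinarith
    have h5 : (lam * √s) * √s ≤ (A + B) * √s := by rw [mul_assoc, h2]; exact h4
    exact le_of_mul_le_mul_right h5 (by linarith)
  have h6 : √s ≤ (A + B) / lam := by
    rw [le_div_iff₀ hl]
    linarith
  have h7 : s ^ 2 = √s ^ 4 := by
    calc s ^ 2 = (√s * √s) ^ 2 := by rw [h2]
      _ = √s ^ 4 := by ring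
  rw [h7]
  exact pow_le_pow_left₀ (by linarith) h6 4

end Y2x

open X4x Y2x in
theorem thm_Y2 (hA03 : St_A03) (hP1 : St_P1) (hP2 : St_P2) (hY1 : St_Y1) : St_Y2 := by
  intro pr M _ _ _ _ F hF
  by_cases hM : Nonempty M
  swap
  · exact ⟨0, fun u _ x => (hM ⟨x⟩).elim⟩
  obtain ⟨f, hf, hf0, hfl⟩ := hF
  obtain ⟨C1, hC1, hP1⟩ := hP1 pr
  obtain ⟨C2, hC2, hP2⟩ := hP2 pr
  have hfc : Continuous f := hf.continuous
  have hK : IsCompact ((Set.univ : Set M) ×ˢ {v : Fin 3 → ℝ | ∑ i, v i ^ 2 = 1}) :=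
    isCompact_univ.prod sph
  have hQ : Continuous fun p : M × (Fin 3 → ℝ) => ∑ j, ∑ l, F.ric j l p.1 * p.2 j * p.2 l := by
    refine continuous_finsetSum _ fun j _ => continuous_finsetSum _ fun l _ => ?_
    exact (((ric_cont F j l).comp continuous_fst).mul
      ((continuous_apply j).comp continuous_snd)).mul ((continuous_apply l).comp continuous_snd)
  have hG : Continuous fun p : M × (Fin 3 → ℝ) => gg F p.1 p.2 := by
    unfold gg
    refine continuous_finsetSum _ fun n _ => continuous_finsetSum _ fun l _ => ?_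
    refine (((continuous_apply n).comp continuous_snd).mul
      ((continuous_apply l).comp continuous_snd)).mul (Continuous.sub ?_ ?_)
    · exact (ric_cont F n l).comp continuous_fst
    · split_ifs
      · exact (continuous_finsetSum _ fun m _ => (ric_cont F m m).comp continuous_fst).div_const 2
      · exact continuous_const
  have hL : Continuous fun p : M × (Fin 3 → ℝ) =>
      (∑ j, ∑ l, F.ric j l p.1 * p.2 j * p.2 l) - F.lap f p.1 / f p.1 :=
    hQ.sub (((lap_cont F hf).div hfc fun x => (hf0 x).ne').comp continuous_fst)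
  have hDc : Continuous fun x => ∑ j, (F.D j f x) ^ 2 / f x ^ 2 :=
    continuous_finsetSum _ fun j _ => ((D_smooth F j hf).continuous.pow 2).div (hfc.pow 2)
      fun x => (pow_pos (hf0 x) 2).ne'
  have hne : ((Set.univ : Set M) ×ˢ {v : Fin 3 → ℝ | ∑ i, v i ^ 2 = 1}).Nonempty := by
    refine ⟨(hM.some, ![1, 0, 0]), trivial, ?_⟩
    simp [Fin.sum_univ_three]
  obtain ⟨p₀, hp₀, hmin⟩ := hK.exists_isMinOn hne hL.continuousOn
  obtain ⟨K, hKb⟩ := hK.exists_bound_of_continuousOn hG.continuousOn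
  obtain ⟨K', hKb'⟩ := hK.exists_bound_of_continuousOn hQ.continuousOn
  obtain ⟨D, hD⟩ := isCompact_univ.exists_bound_of_continuousOn hDc.continuousOn
  obtain ⟨lam, hlam⟩ : ∃ lam : ℝ, lam = (∑ j, ∑ l, F.ric j l p₀.1 * p₀.2 j * p₀.2 l) -
      F.lap f p₀.1 / f p₀.1 := ⟨_, rfl⟩
  have hlam0 : 0 < lam := by
    have h1 : ∑ i, p₀.2 i ^ 2 = 1 := hp₀.2
    have h2 := hfl p₀.1 p₀.2 (by
      intro h0
      rw [h0] at h1
      simp at h1)
    rw [h1, mul_one] at h2
    rw [hlam, sub_pos, div_lt_iff₀ (hf0 _)]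
    exact h2
  have hM' : (Set.univ : Set M).Nonempty := ⟨hM.some, trivial⟩
  obtain ⟨x₁, -, hx₁⟩ := isCompact_univ.exists_isMinOn hM' hfc.continuousOn
  obtain ⟨x₂, -, hx₂⟩ := isCompact_univ.exists_isMaxOn hM' hfc.continuousOn
  have hx₁' : ∀ z, f x₁ ≤ f z := fun z => hx₁ trivial
  have hx₂' : ∀ z, f z ≤ f x₂ := fun z => hx₂ trivial
  have hpi := Real.pi_pos
  have hD0 : 0 ≤ D := le_trans (norm_nonneg _) (hD hM.some trivial)
  have hK0 : 0 ≤ K := le_trans (norm_nonneg _) (hKb _ hp₀)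
  have hK0' : 0 ≤ K' := le_trans (norm_nonneg _) (hKb' _ hp₀)
  obtain ⟨T, hT⟩ : ∃ T : ℝ, T = 1 + ((C1 * K' + (C2 * D + 2 * Real.pi * K)) / lam) ^ 4 := ⟨_, rfl⟩
  have hT1 : 1 ≤ T := by
    have h1 : 0 ≤ ((C1 * K' + (C2 * D + 2 * Real.pi * K)) / lam) ^ 4 := by positivity
    linarith
  refine ⟨2 + T * (f x₂ / f x₁) ^ 2, ?_⟩
  intro u hu z
  have hcu : Continuous u := hu.smooth.continuous
  have htc : Continuous fun z => tt (u z) := by
    have h1 : (fun z => tt (u z)) = fun z => (∑ i : Fin 3, u z (i, i)) - 2 := by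
      funext z
      rfl
    rw [h1]
    refine Continuous.sub (continuous_finsetSum _ fun i _ => ?_) continuous_const
    exact (EuclideanSpace.proj (i, i) : V9 →L[ℝ] ℝ).continuous.comp hcu
  have hct : Continuous fun z => tt (u z) / f z ^ 2 :=
    htc.div (hfc.pow 2) fun x => (pow_pos (hf0 x) 2).ne'
  obtain ⟨x, -, hx⟩ := isCompact_univ.exists_isMaxOn hM' hct.continuousOn
  have hx' : ∀ z, tt (u z) / f z ^ 2 ≤ tt (u x) / f x ^ 2 := fun z => hx trivial
  have key : tt (u x) ≤ T := by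
    by_contra hcon
    push Not at hcon
    have ht1 : 1 ≤ tt (u x) := by linarith
    have ht : 0 < tt (u x) := by linarith
    obtain ⟨R, g, hR, hI, hgs, hin⟩ := hY1 pr M F u f x hu hf hf0 hx' ht
    obtain ⟨s, hs⟩ : ∃ s : ℝ, s = √(tt (u x)) := ⟨_, rfl⟩
    rw [← hs] at hI hgs hin
    have hs1 : 1 ≤ s := by rw [hs]; exact Real.one_le_sqrt.2 ht1
    have hs2 : s ^ 2 = tt (u x) := by rw [hs]; exact Real.sq_sqrt ht.le
    obtain ⟨a1, a2, a3, a4, a5, a6⟩ := hA03 pr s (by linarith)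
    have b1 := hP1 s hs1
    have b2 := hP2 s hs1 g hI
    obtain ⟨r, hr⟩ : ∃ r : Fin 3 → Fin 3 → ℝ, r = fun j l => F.ric j l x := ⟨_, rfl⟩
    have hb : ∀ i, |ein r R i| ≤ K := by
      intro i
      have h1 := hKb (x, fun n => R n i) ⟨trivial, col R hR i⟩
      rw [Real.norm_eq_abs] at h1
      rw [hr]
      exact h1
    obtain ⟨Q, hQd⟩ : ∃ Q : ℝ, Q = ∑ n, ∑ l, r n l * R n 2 * R l 2 := ⟨_, rfl⟩
    have hid := ein_id r R hR
    rw [← hQd] at hid
    have hQb : |Q| ≤ K' := by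
      have h1 := hKb' (x, fun n => R n 2) ⟨trivial, col R hR 2⟩
      rw [Real.norm_eq_abs] at h1
      rw [hQd, hr]
      exact h1
    have hmn : lam ≤ Q - F.lap f x / f x := by
      have h1 := hmin (show (x, fun n => R n 2) ∈ (Set.univ : Set M) ×ˢ
        {v : Fin 3 → ℝ | ∑ i, v i ^ 2 = 1} from ⟨trivial, col R hR 2⟩)
      rw [hQd, hr, hlam]
      exact h1
    rw [Fin.sum_univ_three] at hin
    simp only [Matrix.cons_val_zero, Matrix.cons_val_one, Matrix.cons_val] at hin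
    rw [← hr] at hin
    have hb1 := hb 1
    have hb2 := hb 2
    have q1 : (pr.b s - pr.a s) * ein r R 1 ≤ Real.pi * K := by
      have h1 : (pr.b s - pr.a s) * ein r R 1 ≤ (pr.b s - pr.a s) * K :=
        mul_le_mul_of_nonneg_left (le_trans (le_abs_self _) hb1) (by linarith)
      have h2 : (pr.b s - pr.a s) * K ≤ Real.pi * K := mul_le_mul_of_nonneg_right a2 hK0
      linarith
    have q2 : pr.c s * ein r R 2 ≤ Real.pi * K := by
      have h1 : (-pr.c s) * (-ein r R 2) ≤ (-pr.c s) * K :=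
        mul_le_mul_of_nonneg_left (le_trans (neg_le_abs _) hb2) (by linarith)
      have h2 : (-pr.c s) * K ≤ Real.pi * K := mul_le_mul_of_nonneg_right (by linarith) hK0
      linarith
    have q3 : C2 / s ^ 2 * ∑ m, (g m 0) ^ 2 ≤ C2 * D := by
      have h1 := hD x trivial
      have h2 : ∑ j, (F.D j f x) ^ 2 / f x ^ 2 ≤ D := le_trans (le_abs_self _) h1
      have h3 : C2 / s ^ 2 * ∑ m, (g m 0) ^ 2 = C2 * ∑ j, (F.D j f x) ^ 2 / f x ^ 2 := by
        rw [hgs, ← Finset.sum_div]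
        have hf0' := (hf0 x).ne'
        have hs0' : s ≠ 0 := by linarith
        field_simp
      rw [h3]
      exact mul_le_mul_of_nonneg_left h2 hC2.le
    have q4 : s * (F.lap f x / f x) ≤ s * (Q - lam) :=
      mul_le_mul_of_nonneg_left (by linarith) (by linarith)
    have q5 : (s - pr.a s) * Q ≤ C1 * K' * √s := by
      have h1 : (s - pr.a s) * Q ≤ |s - pr.a s| * |Q| := by
        rw [← abs_mul]
        exact le_abs_self _
      have h2 : |s - pr.a s| ≤ C1 * √s := by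
        rw [abs_sub_comm]
        exact b1
      have h3 : |s - pr.a s| * |Q| ≤ (C1 * √s) * K' :=
        mul_le_mul h2 hQb (abs_nonneg _) (by positivity)
      linarith
    have q6 : ein r R 0 = -Q - ein r R 1 := by linarith
    rw [q6] at hin
    have q7 : lam * s ≤ C1 * K' * √s + (C2 * D + 2 * Real.pi * K) := by nlinarith
    have q8 := Y2x.fin (by positivity) hlam0 hs1 q7
    rw [hs2] at q8
    linarith
  have htr : (toM (u z)).trace = 2 + tt (u z) := by
    unfold tt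
    ring
  rw [htr]
  have h1 := hx' z
  rw [div_le_iff₀ (pow_pos (hf0 z) 2)] at h1
  have h2 : tt (u x) / f x ^ 2 * f z ^ 2 ≤ T / f x₁ ^ 2 * f x₂ ^ 2 := by
    have h3 : tt (u x) / f x ^ 2 * f z ^ 2 ≤ T / f x ^ 2 * f z ^ 2 := by
      have := hf0 x
      gcongr
    have h4 : T / f x ^ 2 * f z ^ 2 ≤ T / f x₁ ^ 2 * f x₂ ^ 2 := by
      have h5 := hx₁' x
      have h6 := hx₂' z
      have h7 := hf0 x₁
      have h8 := hf0 z
      gcongr
    exact h3.trans h4
  have h9 : T / f x₁ ^ 2 * f x₂ ^ 2 = T * (f x₂ / f x₁) ^ 2 := by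
    rw [div_pow]
    ring
  linarith

end Pool.Agent.FUE
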