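import Pool.Agent.FUE.AllM
import Pool.Agent.FUE.X1
import Pool.Agent.FUE.X2
import Pool.Agent.FUE.X3
import Pool.Agent.FUE.X4
import Pool.Agent.FUE.Y2
import Pool.Agent.FUE.P1
import Pool.Agent.FUE.P2
import Pool.Agent.FUE.Y1
import Pool.Agent.FUE.Mf8
import Pool.Agent.FUE.Mf11

/-!
# Fueter sections: assembly of blocks X, Y and of the part on M
-/

set_option autoImplicit false

open scoped Manifold ContDiff

namespace Pool.Agent.FUE

theorem all_X1 : St_X1 := thm_X1 thm_H02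
theorem all_X2 : St_X2 := thm_X2 all_A01 all_A04 all_A05 all_A12 all_H01 all_X1
theorem all_X3 : St_X3 := thm_X3 all_A01 all_A04 all_H04 all_X2
theorem all_X4 : St_X4 := thm_X4 all_A03 all_X3
theorem all_P1 : St_P1 := thm_P1 all_A01 all_A02 all_A03
theorem all_P2 : St_P2 := thm_P2 all_A01 all_A02 all_A03
theorem all_Y1 : St_Y1 := thm_Y1 all_A01 all_A04 all_X2
theorem all_Y2 : St_Y2 := thm_Y2 all_A03 all_P1 all_P2 all_Y1

/-- the `C^∞` compactness of bounded families of Fueter sections -/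
theorem partA (hCpt : St_Cpt) (pr : Profile) (M : Type) [TopologicalSpace M] [ChartedSpace E3 M]
    [IsManifold (𝓡 3) ∞ M] [CompactSpace M] [T2Space M] (F : Frame M) (S : ℝ) (u : ℕ → M → V9)
    (hu : ∀ n, F.IsFueter pr (u n)) (hS : ∀ n x, (toM (u n x)).trace ≤ S) :
    ∃ (φ : ℕ → ℕ) (v : M → V9), StrictMono φ ∧ F.IsFueter pr v ∧
      F.CInf (fun n => u (φ n)) v := by
  obtain ⟨Λ, hΛ⟩ := thm_N4 hCpt (E09_of_Cpt hCpt) pr M F S u hu hS
  exact thm_N3 hCpt pr M F S Λ u hu hS hΛ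

end Pool.Agent.FUE
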