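import Pool.Agent.FUE.StT
import Pool.Agent.FUE.S3
import Pool.Agent.FUE.A09

/-!
# FUE/C8 (helper62): the Fueter sections over the unit three-sphere
-/

set_option autoImplicit false

open scoped Manifold ContDiff Matrix Topology
open Filter

namespace Pool.Agent.FUE

namespace C8x

open S3x A09x

section gen

variable {M : Type} [TopologicalSpace M] [ChartedSpace E3 M] [IsManifold (𝓡 3) ∞ M]
variable {V : Type} [NormedAddCommGroup V] [NormedSpace ℝ V]

theorem clm_zero {b : Fin 3 → E3} (hb : LinearIndependent ℝ b) (L : E3 →L[ℝ] V)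
    (h : ∀ i, L (b i) = 0) : L = 0 := by
  have h2 : (L : E3 →ₗ[ℝ] V) = 0 := by
    refine (basisOfLinearIndependentOfCardEqFinrank hb (by simp)).ext fun i => ?_
    simp [h i]
  ext1 v
  exact congrArg (fun A : E3 →ₗ[ℝ] V => A v) h2

/-- functions without derivative along the frame are constant -/
theorem const_of_D (F : Frame M) [PreconnectedSpace M] {f : M → V}
    (hf : ContMDiff (𝓡 3) 𝓘(ℝ, V) ∞ f) (h : ∀ i x, F.D i f x = 0) (x y : M) : f x = f y := by
  have hloc : IsLocallyConstant f := by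
    rw [IsLocallyConstant.iff_eventually_eq]
    intro p
    have hp := mem_extChartAt_source (I := 𝓡 3) p
    have hpt := mem_extChartAt_target (I := 𝓡 3) p
    obtain ⟨r, hr, hball⟩ := Metric.isOpen_iff.1 (chart_target_open p) _ hpt
    have hg := comp_symm_smooth p (V := V) hf.contMDiffOn
    have hder : Set.EqOn (fderiv ℝ (fun y => f ((extChartAt (𝓡 3) p).symm y))) 0
        (Metric.ball (extChartAt (𝓡 3) p p) r) := by
      intro y hy
      have hyt := hball hy
      refine clm_zero (Ech_indep F p hyt) _ fun i => ?_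
      have h1 := D_chart' F p i hyt (hf.mdifferentiable (by norm_cast) _)
      rw [h i] at h1
      exact h1.symm
    have hconst : ∀ y ∈ Metric.ball (extChartAt (𝓡 3) p p) r,
        f ((extChartAt (𝓡 3) p).symm y) = f p := by
      intro y hy
      have h1 := IsOpen.is_const_of_fderiv_eq_zero (𝕜 := ℝ) Metric.isOpen_ball
        (convex_ball (extChartAt (𝓡 3) p p : E3) r).isPreconnected
        ((hg.mono hball).differentiableOn (by norm_cast)) hder hy (Metric.mem_ball_self hr)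
      rw [h1, (extChartAt (𝓡 3) p).left_inv hp]
    have hcont := continuousAt_extChartAt (I := 𝓡 3) p
    filter_upwards [(chart_source_open p).mem_nhds hp,
      hcont.preimage_mem_nhds (Metric.ball_mem_nhds _ hr)] with z hz hz2
    have h1 := hconst _ hz2
    rwa [(extChartAt (𝓡 3) p).left_inv hz] at h1
  exact hloc.apply_eq_of_preconnectedSpace x y

/-- derivatives of matrix valued functions in the chart at `x` -/
theorem DM_of_smooth (F : Frame M) {u : M → V9} (hu : ContMDiff (𝓡 3) 𝓘(ℝ, V9) ∞ u) (j : Fin 3)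
    (x : M) : DM (fun y => toM (u ((extChartAt (𝓡 3) x).symm y))) (extChartAt (𝓡 3) x x)
      (F.D j (extChartAt (𝓡 3) x) x) (toM (F.D j u x)) := by
  have hx := mem_extChartAt_source (I := 𝓡 3) x
  have hxt := mem_extChartAt_target (I := 𝓡 3) x
  have hg := comp_symm_smooth x (V := V9) hu.contMDiffOn
  have hd : DifferentiableAt ℝ (fun y => u ((extChartAt (𝓡 3) x).symm y)) (extChartAt (𝓡 3) x x) :=
    (hg.contDiffAt ((chart_target_open x).mem_nhds hxt)).differentiableAt (by norm_cast)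
  have h1 := D_chart F x j hx (hu.mdifferentiable (by norm_cast) _)
  intro a b
  have h2 : HasFDerivAt (fun y => u ((extChartAt (𝓡 3) x).symm y) (a, b))
      ((EuclideanSpace.proj (a, b) : V9 →L[ℝ] ℝ) ∘L
        (fderiv ℝ (fun y => u ((extChartAt (𝓡 3) x).symm y)) (extChartAt (𝓡 3) x x)))
      (extChartAt (𝓡 3) x x) :=
    (EuclideanSpace.proj (a, b) : V9 →L[ℝ] ℝ).hasFDerivAt.comp (extChartAt (𝓡 3) x x) hd.hasFDerivAt
  refine ⟨h2.differentiableAt, ?_⟩
  change fderiv ℝ (fun y => u ((extChartAt (𝓡 3) x).symm y) (a, b)) (extChartAt (𝓡 3) x x)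
    (F.D j (extChartAt (𝓡 3) x) x) = (F.D j u x) (a, b)
  rw [h2.fderiv, h1]
  rfl

end gen

section algebra

theorem toM_ofM (A : Matrix (Fin 3) (Fin 3) ℝ) : toM (ofM A) = A := by
  ext i j
  simp [toM, ofM]

theorem toM_inj {X Y : V9} (h : toM X = toM Y) : X = Y := by
  ext ⟨i, j⟩
  exact congrFun (congrFun h i) j

theorem Dg0 : Dg 0 = !![2, 0, 0; 0, 0, 0; 0, 0, 0] := by
  ext i j
  fin_cases i <;> fin_cases j <;> simp [Dg]

/-- points of the bolt are `2 p pᵀ` -/
theorem unit_of_mem {P : V9} (hP : P ∈ AH) (ht : tt P = 0) :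
    ∃ p : Fin 3 → ℝ, ∑ k, p k ^ 2 = 1 ∧ ∀ i j, toM P i j = 2 * p i * p j := by
  obtain ⟨R, s, hR, -, hPR⟩ := hP
  have htr : (toM P).trace = 2 + s ^ 2 := by
    rw [hPR, Matrix.trace_mul_comm, ← Matrix.mul_assoc, hR.1, Matrix.one_mul, Matrix.trace_fin_three]
    simp [Dg]
  have hs : s = 0 := by
    unfold tt at ht
    have h3 : s ^ 2 = 0 := by linarith
    exact pow_eq_zero_iff two_ne_zero |>.1 h3
  subst hs
  refine ⟨fun i => R i 0, ?_, fun i j => ?_⟩
  · have h1 := congrFun (congrFun hR.1 0) 0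
    rw [Matrix.mul_apply] at h1
    simp only [Matrix.transpose_apply, Matrix.one_apply_eq] at h1
    rw [← h1]
    exact Finset.sum_congr rfl fun k _ => by ring
  · rw [hPR, Dg0]
    simp only [Matrix.mul_apply, Fin.sum_univ_three, Matrix.transpose_apply, Matrix.of_apply,
      Matrix.cons_val_zero, Matrix.cons_val_one, Matrix.cons_val, Matrix.cons_val',
      Matrix.cons_val_fin_one]
    ring

/-- unit vectors are first columns of rotations -/
theorem exists_rot (n : Fin 3 → ℝ) (hn : ∑ k, n k ^ 2 = 1) :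
    ∃ R : Matrix (Fin 3) (Fin 3) ℝ, IsRot R ∧ ∀ i, R i 0 = n i := by
  rw [Fin.sum_univ_three] at hn
  by_cases h : n 1 ^ 2 + n 2 ^ 2 = 0
  · have h1 : n 1 = 0 := by nlinarith [sq_nonneg (n 1), sq_nonneg (n 2)]
    have h2 : n 2 = 0 := by nlinarith [sq_nonneg (n 1), sq_nonneg (n 2)]
    have h0 : n 0 * n 0 = 1 := by nlinarith
    refine ⟨!![n 0, 0, 0; 0, n 0, 0; 0, 0, 1], ⟨?_, ?_⟩, fun i => ?_⟩
    · ext i j
      fin_cases i <;> fin_cases j <;>
        simp [Matrix.mul_apply, Fin.sum_univ_three, h0]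
    · rw [Matrix.det_fin_three]
      simp [h0]
    · fin_cases i <;> simp [h1, h2]
  · have hpos : 0 < n 1 ^ 2 + n 2 ^ 2 := lt_of_le_of_ne (by positivity) (Ne.symm h)
    set ρ := √(n 1 ^ 2 + n 2 ^ 2) with hρ
    have hρ0 : ρ ≠ 0 := (Real.sqrt_pos.2 hpos).ne'
    have hρ2 : ρ ^ 2 = n 1 ^ 2 + n 2 ^ 2 := Real.sq_sqrt hpos.le
    obtain ⟨t, ht⟩ : ∃ t : ℝ, ρ * t = 1 := ⟨ρ⁻¹, mul_inv_cancel₀ hρ0⟩
    have htt : t ^ 2 * (n 1 ^ 2 + n 2 ^ 2) = 1 := by
      rw [← hρ2]
      linear_combination (ρ * t + 1) * ht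
    refine ⟨!![n 0, 0, ρ; n 1, -(n 2) * t, -(n 0 * n 1) * t; n 2, n 1 * t, -(n 0 * n 2) * t],
      ⟨?_, ?_⟩, fun i => ?_⟩
    · ext i j
      fin_cases i <;> fin_cases j <;>
        simp [Matrix.mul_apply, Fin.sum_univ_three]
      · linear_combination hn
      · ring
      · linear_combination (n 0 * t) * hρ2 - n 0 * ρ * ht
      · ring
      · linear_combination htt
      · ring
      · linear_combination (n 0 * t) * hρ2 - n 0 * ρ * ht
      · ring
      · linear_combination hρ2 + n 0 ^ 2 * htt + hn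
    · rw [Matrix.det_fin_three]
      simp
      linear_combination (n 0 ^ 2) * htt + (ρ * t) * hρ2 - ρ ^ 2 * ht + hn +
        2 * (n 1 ^ 2 + n 2 ^ 2) * ht - hρ2
    · fin_cases i <;> simp

/-- the matrix `2 p pᵀ` -/
def Cp (p : Fin 3 → ℝ) : Matrix (Fin 3) (Fin 3) ℝ := Matrix.of fun i j => 2 * p i * p j

theorem mem_of_unit {P : V9} {n : Fin 3 → ℝ} (hn : ∑ k, n k ^ 2 = 1)
    (hP : ∀ i j, toM P i j = 2 * n i * n j) : P ∈ AH ∧ (toM P).trace = 2 := by
  obtain ⟨R, hR, hRn⟩ := exists_rot n hn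
  refine ⟨⟨R, 0, hR, le_rfl, ?_⟩, ?_⟩
  · ext i j
    rw [hP, Dg0]
    simp only [Matrix.mul_apply, Fin.sum_univ_three, Matrix.transpose_apply, Matrix.of_apply,
      Matrix.cons_val_zero, Matrix.cons_val_one, Matrix.cons_val, Matrix.cons_val',
      Matrix.cons_val_fin_one, hRn]
    ring
  · rw [Matrix.trace_fin_three, hP, hP, hP]
    rw [Fin.sum_univ_three] at hn
    linear_combination 2 * hn

end algebra

section sphere

/-- `Jp i` as a linear map -/
noncomputable def Jpl (i : Fin 3) : E4 →L[ℝ] E4 :=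
  LinearMap.toContinuousLinearMap
    { toFun := Jp i
      map_add' := fun x y => by
        ext k
        fin_cases i <;> fin_cases k <;> simp [Jp] <;> ring
      map_smul' := fun r x => by
        ext k
        fin_cases i <;> fin_cases k <;> simp [Jp] }

/-- the rotation relating the right and the left invariant frames -/
noncomputable def Rt (z : E4) : Matrix (Fin 3) (Fin 3) ℝ :=
  Matrix.of fun k i => inner ℝ (Jp k z) (Jq i z)

theorem Rt_alg (z : E4) (j k i : Fin 3) :
    inner ℝ (Jp k z) (Jq i (Jq j z)) + inner ℝ (Jp k (Jq j z)) (Jq i z) =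
      ((2 : ℝ) • (Rt z * hat (Pi.single j 1))) k i := by
  simp only [Rt, Matrix.smul_apply, Matrix.mul_apply, Fin.sum_univ_three, Matrix.of_apply,
    PiLp.inner_apply, Fin.sum_univ_four]
  fin_cases j <;> fin_cases k <;> fin_cases i <;>
    simp [Jp, Jq, hat] <;> ring

theorem Rt_left {z : E4} (hz : ‖z‖ = 1) : (Rt z)ᵀ * Rt z = 1 := by
  have h1 : z 0 ^ 2 + z 1 ^ 2 + z 2 ^ 2 + z 3 ^ 2 = 1 := by
    have h2 := EuclideanSpace.real_norm_sq_eq z
    rw [hz, Fin.sum_univ_four] at h2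
    linarith
  ext i j
  simp only [Rt, Matrix.mul_apply, Fin.sum_univ_three, Matrix.of_apply, Matrix.transpose_apply,
    PiLp.inner_apply, Fin.sum_univ_four]
  fin_cases i <;> fin_cases j <;> simp [Jp, Jq]
  · linear_combination (z 0 ^ 2 + z 1 ^ 2 + z 2 ^ 2 + z 3 ^ 2 + 1) * h1
  · ring
  · ring
  · ring
  · linear_combination (z 0 ^ 2 + z 1 ^ 2 + z 2 ^ 2 + z 3 ^ 2 + 1) * h1
  · ring
  · ring
  · ring
  · linear_combination (z 0 ^ 2 + z 1 ^ 2 + z 2 ^ 2 + z 3 ^ 2 + 1) * h1

theorem hatT (j : Fin 3) : (hat (Pi.single j 1))ᵀ = -hat (Pi.single j 1) := by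
  ext a b
  fin_cases j <;> fin_cases a <;> fin_cases b <;> simp [hat]

theorem DM_Rt (F : Frame Sph)
    (hF : ∀ (x : Sph) (i : Fin 3),
      (mfderiv (𝓡 3) 𝓘(ℝ, E4) (fun y : Sph => (y : E4)) x (F.e i x) : E4) = Jq i x)
    (j : Fin 3) (x : Sph) :
    DM (fun y => Rt (inc ((extChartAt (𝓡 3) x).symm y))) (extChartAt (𝓡 3) x x)
      (F.D j (extChartAt (𝓡 3) x) x) ((2 : ℝ) • (Rt (inc x) * hat (Pi.single j 1))) := by
  have hx := mem_extChartAt_source (I := 𝓡 3) x
  have hxt := mem_extChartAt_target (I := 𝓡 3) x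
  have hleft := (extChartAt (𝓡 3) x).left_inv hx
  have hg := comp_symm_smooth x (V := E4) inc_smooth.contMDiffOn
  have hd : DifferentiableAt ℝ (fun y => inc ((extChartAt (𝓡 3) x).symm y))
      (extChartAt (𝓡 3) x x) :=
    (hg.contDiffAt ((chart_target_open x).mem_nhds hxt)).differentiableAt (by norm_cast)
  have h1 := D_chart F x j hx (inc_smooth.mdifferentiable (by norm_cast) _)
  have h2 : F.D j inc x = Jq j (inc x) := hF x j
  intro k i
  have h3 : HasFDerivAt (fun y => Jpl k (inc ((extChartAt (𝓡 3) x).symm y)))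
      ((Jpl k).comp (fderiv ℝ (fun y => inc ((extChartAt (𝓡 3) x).symm y))
        (extChartAt (𝓡 3) x x))) (extChartAt (𝓡 3) x x) :=
    (Jpl k).hasFDerivAt.comp _ hd.hasFDerivAt
  have h4 : HasFDerivAt (fun y => Jl i (inc ((extChartAt (𝓡 3) x).symm y)))
      ((Jl i).comp (fderiv ℝ (fun y => inc ((extChartAt (𝓡 3) x).symm y))
        (extChartAt (𝓡 3) x x))) (extChartAt (𝓡 3) x x) :=
    (Jl i).hasFDerivAt.comp _ hd.hasFDerivAt
  have h5 := h3.inner ℝ h4
  refine ⟨h5.differentiableAt, ?_⟩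
  refine (congrArg (fun L : E3 →L[ℝ] ℝ => L (F.D j (extChartAt (𝓡 3) x) x)) h5.fderiv).trans ?_
  rw [← Rt_alg]
  simp only [ContinuousLinearMap.comp_apply, ContinuousLinearMap.prod_apply, fderivInnerCLM_apply]
  rw [← h1, h2, hleft]
  rfl

theorem Rt_smooth (k i : Fin 3) : ContDiff ℝ ∞ (fun z : E4 => Rt z k i) := by
  have h1 : ContDiff ℝ ∞ (fun z : E4 => Jpl k z) := (Jpl k).contDiff
  have h2 : ContDiff ℝ ∞ (fun z : E4 => Jl i z) := (Jl i).contDiff
  exact h1.inner ℝ h2

/-- the product `Rt u Rtᵀ` as a function of the point and the value -/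
noncomputable def G (q : E4 × V9) : V9 := ofM (Rt q.1 * toM q.2 * (Rt q.1)ᵀ)

theorem G_apply (q : E4 × V9) (a b : Fin 3) :
    G q (a, b) = ∑ k, (∑ l, Rt q.1 a l * toM q.2 l k) * Rt q.1 b k := by
  have h1 : G q (a, b) = (Rt q.1 * toM q.2 * (Rt q.1)ᵀ) a b := rfl
  rw [h1]
  simp only [Matrix.mul_apply, Matrix.transpose_apply]

theorem G_smooth : ContDiff ℝ ∞ G := by
  rw [contDiff_euclidean]
  rintro ⟨a, b⟩
  have hR : ∀ k i, ContDiff ℝ ∞ (fun q : E4 × V9 => Rt q.1 k i) := fun k i =>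
    (Rt_smooth k i).comp contDiff_fst
  have hP : ∀ k i, ContDiff ℝ ∞ (fun q : E4 × V9 => toM q.2 k i) := by
    intro k i
    have h1 : ContDiff ℝ ∞ (fun P : V9 => toM P k i) :=
      (EuclideanSpace.proj (k, i) : V9 →L[ℝ] ℝ).contDiff
    exact h1.comp contDiff_snd
  have h3 : (fun q : E4 × V9 => G q (a, b)) =
      fun q : E4 × V9 => ∑ k, (∑ l, Rt q.1 a l * toM q.2 l k) * Rt q.1 b k := by
    funext q
    exact G_apply q a b
  rw [h3]
  exact ContDiff.sum fun k _ => (ContDiff.sum fun l _ => (hR a l).mul (hP l k)).mul (hR b k)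

theorem pr_smooth {u : Sph → V9} (hu : ContMDiff (𝓡 3) 𝓘(ℝ, V9) ∞ u) :
    ContMDiff (𝓡 3) 𝓘(ℝ, E4 × V9) ∞ (fun x => (inc x, u x)) :=
  inc_smooth.prodMk_space hu

theorem G_smooth2 : ContMDiff 𝓘(ℝ, E4 × V9) 𝓘(ℝ, V9) ∞ G := G_smooth.contMDiff

theorem conj_smooth1 {u : Sph → V9} (hu : ContMDiff (𝓡 3) 𝓘(ℝ, V9) ∞ u) :
    ContMDiff (𝓡 3) 𝓘(ℝ, V9) ∞ (G ∘ (fun x => (inc x, u x))) :=
  ContMDiff.comp (I := 𝓡 3) (I' := 𝓘(ℝ, E4 × V9)) (I'' := 𝓘(ℝ, V9)) G_smooth2 (pr_smooth hu)

theorem conj_smooth2 {u : Sph → V9} (hu : ContMDiff (𝓡 3) 𝓘(ℝ, V9) ∞ u) :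
    ContMDiff (𝓡 3) 𝓘(ℝ, V9) ∞ (fun x => G (inc x, u x)) := conj_smooth1 hu

/-- the product `Rt u Rtᵀ` is smooth -/
theorem conj_smooth {u : Sph → V9} (hu : ContMDiff (𝓡 3) 𝓘(ℝ, V9) ∞ u) :
    ContMDiff (𝓡 3) 𝓘(ℝ, V9) ∞ (fun x => ofM (Rt (inc x) * toM (u x) * (Rt (inc x))ᵀ)) :=
  conj_smooth2 hu

theorem alg0 (R U H : Matrix (Fin 3) (Fin 3) ℝ) (hH : Hᵀ = -H) :
    ((2 : ℝ) • (R * H) * U + R * ((-2 : ℝ) • (H * U - U * H))) * Rᵀ +
      R * U * ((2 : ℝ) • (R * H))ᵀ = 0 := by
  rw [Matrix.transpose_smul, Matrix.transpose_mul, hH]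
  simp only [two_smul, neg_smul]
  noncomm_ring

theorem alg1 (R U H : Matrix (Fin 3) (Fin 3) ℝ) (hH : Hᵀ = -H) :
    (((2 : ℝ) • (R * H))ᵀ * U + Rᵀ * 0) * R + Rᵀ * U * ((2 : ℝ) • (R * H)) =
      (-2 : ℝ) • (H * (Rᵀ * U * R) - (Rᵀ * U * R) * H) := by
  rw [Matrix.transpose_smul, Matrix.transpose_mul, hH]
  simp only [two_smul, neg_smul]
  noncomm_ring

theorem norm_inc (x : Sph) : ‖inc x‖ = 1 := by
  have := x.2
  rwa [mem_sphere_zero_iff_norm] at this

theorem conj_const (F : Frame Sph) [PreconnectedSpace Sph]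
    (hF : ∀ (x : Sph) (i : Fin 3),
      (mfderiv (𝓡 3) 𝓘(ℝ, E4) (fun y : Sph => (y : E4)) x (F.e i x) : E4) = Jq i x)
    {u : Sph → V9} (hu : ContMDiff (𝓡 3) 𝓘(ℝ, V9) ∞ u)
    (hD : ∀ i x, toM (F.D i u x) =
      (-2 : ℝ) • (hat (Pi.single i 1) * toM (u x) - toM (u x) * hat (Pi.single i 1)))
    (x y : Sph) : Rt (inc x) * toM (u x) * (Rt (inc x))ᵀ = Rt (inc y) * toM (u y) * (Rt (inc y))ᵀ := by
  have hw := conj_smooth hu
  have h0 : ∀ j x, F.D j (fun x => ofM (Rt (inc x) * toM (u x) * (Rt (inc x))ᵀ)) x = 0 := by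
    intro j x
    have h1 := DM_of_smooth F hw j x
    simp only [toM_ofM] at h1
    have hR := DM_Rt F hF j x
    have hU := DM_of_smooth F hu j x
    have h2 := (hR.mul hU).mul hR.tr
    have h3 := h1.uniq h2
    have hleft := (extChartAt (𝓡 3) x).left_inv (mem_extChartAt_source (I := 𝓡 3) x)
    rw [hleft, hD, alg0 _ _ _ (hatT j)] at h3
    refine toM_inj (h3.trans ?_)
    ext a b
    rfl
  have h4 := const_of_D F hw h0 x y
  have h5 := congrArg toM h4
  rwa [toM_ofM, toM_ofM] at h5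

end sphere

end C8x

open C8x S3x A09x in
/-- **[C8]** -/
theorem thm_C8 (hC1 : St_C1) (hC2 : St_C2) (hC6 : St_C6) (hC7 : St_C7) : St_C8 := by
  intro pr F hround hF u
  have : PreconnectedSpace Sph := by
    refine Subtype.preconnectedSpace (isPreconnected_sphere ?_ 0 1)
    rw [← Module.finrank_eq_rank]
    simp
  have hconn := (hC1 Sph F hround).1
  let x0 : Sph := ⟨EuclideanSpace.single 0 1, by simp⟩
  have hRR : ∀ x : Sph, Rt (inc x) * (Rt (inc x))ᵀ = 1 := fun x =>
    mul_eq_one_comm.1 (Rt_left (norm_inc x))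
  constructor
  · intro hu
    have ht := hC2 pr Sph F hround u hu
    obtain ⟨q, hq, hqu⟩ := unit_of_mem (hu.mem x0) (ht x0)
    rcases hC6 pr Sph F hround u hu with hD | hD
    · refine ⟨q, hq, Or.inl fun x i j => ?_⟩
      rw [← hqu, const_of_D F hu.smooth (fun i x => toM_inj ((hD i x).trans rfl)) x x0]
    · simp only [hconn] at hD
      have hc := conj_const F hF hu.smooth hD
      refine ⟨fun k => ∑ i, Rt (inc x0) k i * q i, ?_, Or.inr fun x i j => ?_⟩
      · have h1 := Rt_left (norm_inc x0)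
        have e : ∀ i j, ∑ k, Rt (inc x0) k i * Rt (inc x0) k j = if i = j then 1 else 0 := by
          intro i j
          have h2 := congrFun (congrFun h1 i) j
          rw [Matrix.mul_apply, Matrix.one_apply] at h2
          simpa only [Matrix.transpose_apply] using h2
        have e00 := e 0 0
        have e11 := e 1 1
        have e22 := e 2 2
        have e01 := e 0 1
        have e02 := e 0 2
        have e12 := e 1 2
        simp only [Fin.sum_univ_three, Fin.isValue, Fin.reduceEq, if_false, if_true] at e00 e11 e22 e01 e02 e12 hq ⊢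
        linear_combination q 0 ^ 2 * e00 + q 1 ^ 2 * e11 + q 2 ^ 2 * e22 + 2 * q 0 * q 1 * e01 +
          2 * q 0 * q 2 * e02 + 2 * q 1 * q 2 * e12 + hq
      · have h1 : toM (u x) = (Rt (inc x))ᵀ * (Rt (inc x0) * toM (u x0) * (Rt (inc x0))ᵀ) *
            Rt (inc x) := by
          rw [← hc x x0]
          have h2 := Rt_left (norm_inc x)
          calc toM (u x) = ((Rt (inc x))ᵀ * Rt (inc x)) * toM (u x) *
                ((Rt (inc x))ᵀ * Rt (inc x)) := by rw [h2, Matrix.one_mul, Matrix.mul_one]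
            _ = _ := by simp only [Matrix.mul_assoc]
        have h3 : ∀ k l, inner ℝ (Jp k (x : E4)) (Jq l (x : E4)) = Rt (inc x) k l := fun _ _ => rfl
        simp only [h3]
        rw [h1]
        simp only [Matrix.mul_apply, Matrix.transpose_apply, hqu, Fin.sum_univ_three]
        ring
  · rintro ⟨p, hp, hu | hu⟩
    · have hc : u = fun _ => ofM (Cp p) := by
        funext x
        refine toM_inj ?_
        rw [toM_ofM]
        ext i j
        exact hu x i j
      refine hC7 pr Sph F hround u ?_ (fun x => mem_of_unit hp (hu x)) (Or.inl fun i x => ?_)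
      · rw [hc]
        exact contMDiff_const
      · rw [hc]
        have h1 : F.D i (fun _ : Sph => ofM (Cp p)) x = 0 := by
          unfold Frame.D
          rw [mfderiv_const]
          rfl
        rw [h1]
        rfl
    · have h3 : ∀ (x : Sph) k l, inner ℝ (Jp k (x : E4)) (Jq l (x : E4)) = Rt (inc x) k l :=
        fun _ _ _ => rfl
      simp only [h3] at hu
      have hU : ∀ x, toM (u x) = (Rt (inc x))ᵀ * Cp p * Rt (inc x) := by
        intro x
        ext i j
        rw [hu]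
        simp only [Matrix.mul_apply, Matrix.transpose_apply, Cp, Fin.sum_univ_three, Matrix.of_apply]
        ring
      have hsm : ContMDiff (𝓡 3) 𝓘(ℝ, V9) ∞ u := by
        have hG : ContDiff ℝ ∞ (fun q : E4 => ofM ((Rt q)ᵀ * Cp p * Rt q)) := by
          rw [contDiff_euclidean]
          rintro ⟨a, b⟩
          have hR : ∀ k i, ContDiff ℝ ∞ (fun q : E4 => Rt q k i) := by
            intro k i
            have h1 : ContDiff ℝ ∞ (fun q : E4 => Jpl k q) := (Jpl k).contDiff
            have h2 : ContDiff ℝ ∞ (fun q : E4 => Jl i q) := (Jl i).contDiff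
            exact h1.inner ℝ h2
          have h4 : (fun q : E4 => ofM ((Rt q)ᵀ * Cp p * Rt q) (a, b)) =
              fun q : E4 => ∑ k, (∑ l, Rt q l a * Cp p l k) * Rt q k b := by
            funext q
            change ((Rt q)ᵀ * Cp p * Rt q) a b = _
            simp only [Matrix.mul_apply, Matrix.transpose_apply]
          rw [h4]
          exact ContDiff.sum fun k _ => (ContDiff.sum fun l _ => (hR l a).mul contDiff_const).mul
            (hR k b)
        have h5 : u = (fun q : E4 => ofM ((Rt q)ᵀ * Cp p * Rt q)) ∘ inc := by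
          funext x
          refine toM_inj ?_
          rw [Function.comp_apply, toM_ofM, hU]
        rw [h5]
        exact hG.contMDiff.comp inc_smooth
      refine hC7 pr Sph F hround u hsm (fun x => ?_) (Or.inr fun j x => ?_)
      · refine mem_of_unit (n := fun i => ∑ k, p k * Rt (inc x) k i) ?_ (hu x)
        have h1 := hRR x
        have e : ∀ i j, ∑ k, Rt (inc x) i k * Rt (inc x) j k = if i = j then 1 else 0 := by
          intro i j
          have h2 := congrFun (congrFun h1 i) j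
          rw [Matrix.mul_apply, Matrix.one_apply] at h2
          simpa only [Matrix.transpose_apply] using h2
        have e00 := e 0 0
        have e11 := e 1 1
        have e22 := e 2 2
        have e01 := e 0 1
        have e02 := e 0 2
        have e12 := e 1 2
        simp only [Fin.sum_univ_three, Fin.isValue, Fin.reduceEq, if_false, if_true] at e00 e11 e22 e01 e02 e12 hp ⊢
        linear_combination p 0 ^ 2 * e00 + p 1 ^ 2 * e11 + p 2 ^ 2 * e22 + 2 * p 0 * p 1 * e01 +
          2 * p 0 * p 2 * e02 + 2 * p 1 * p 2 * e12 + hp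
      · rw [hconn]
        have h1 := DM_of_smooth F hsm j x
        have hR := DM_Rt F hF j x
        have h2 := (hR.tr.mul (DM.cst (Cp p) _ _)).mul hR
        have h6 : (fun y => toM (u ((extChartAt (𝓡 3) x).symm y))) =
            fun y => (Rt (inc ((extChartAt (𝓡 3) x).symm y)))ᵀ * Cp p *
              Rt (inc ((extChartAt (𝓡 3) x).symm y)) := by
          funext y
          exact hU _
        rw [h6] at h1
        have h7 := h1.uniq h2
        have hleft := (extChartAt (𝓡 3) x).left_inv (mem_extChartAt_source (I := 𝓡 3) x)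
        rw [hleft, alg1 _ _ _ (hatT j), ← hU] at h7
        exact h7

end Pool.Agent.FUE
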