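import Mathlib

/-!
# Fueter sections of the Atiyah-Hitchin bundle: definitions

`V9` = real `3 x 3` matrices.  The Atiyah-Hitchin manifold `X_AH` as a manifold with `SO(3)` action
is `AH` = symmetric matrices with eigenvalues `2 + s^2, s, -s` for some `s ≥ 0`, acted on by
conjugation (principal orbits `SO(3)/(Z_2 x Z_2)` for `s > 0`, the bolt `RP^2` for `s = 0`, normal
slice at the bolt = the representation of `O(2)` of weight two).  Its metric is the Bianchi IX
metric `ds^2 + a^2 sigma_1^2 + b^2 sigma_2^2 + c^2 sigma_3^2`, where `a, b, c` solve the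
Atiyah-Hitchin equations (`Profile`).
-/

set_option autoImplicit false

open scoped Manifold ContDiff Matrix

namespace Pool.Agent.FUE

/-- euclidean three space -/
abbrev E3 := EuclideanSpace ℝ (Fin 3)

/-- real three by three matrices as a euclidean space -/
abbrev V9 := EuclideanSpace ℝ (Fin 3 × Fin 3)

/-- the matrix of a point of `V9` -/
def toM (P : V9) : Matrix (Fin 3) (Fin 3) ℝ := Matrix.of fun i j => P (i, j)

/-- the point of `V9` of a matrix -/
noncomputable def ofM (A : Matrix (Fin 3) (Fin 3) ℝ) : V9 :=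
  WithLp.toLp 2 fun ij : Fin 3 × Fin 3 => A ij.1 ij.2

/-- The Atiyah-Hitchin profile: the three functions `a, b, c` of the arc length `s`, solving the
Atiyah-Hitchin equations, with the boundary behaviour at the bolt `s = 0`.  The functions are
written as `a = s al(s^2)`, `b = be(s^2) + s ka(s^2)`, `c = -be(s^2) + s ka(s^2)` with smooth
`al, be, ka`: this is the smoothness of the metric at the bolt. -/
structure Profile where
  al : ℝ → ℝ
  be : ℝ → ℝ
  ka : ℝ → ℝ
  smooth_al : ContDiff ℝ ∞ al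
  smooth_be : ContDiff ℝ ∞ be
  smooth_ka : ContDiff ℝ ∞ ka
  al_zero : al 0 = 2
  be_zero : be 0 = Real.pi
  ka_zero : ka 0 = 1 / 2
  a_pos : ∀ s : ℝ, 0 < s → 0 < s * al (s ^ 2)
  b_pos : ∀ s : ℝ, 0 < s → 0 < be (s ^ 2) + s * ka (s ^ 2)
  c_neg : ∀ s : ℝ, 0 < s → -be (s ^ 2) + s * ka (s ^ 2) < 0
  ode_a : ∀ s : ℝ, 0 < s → HasDerivAt (fun r : ℝ => r * al (r ^ 2))
    (((s * al (s ^ 2)) ^ 2 - ((be (s ^ 2) + s * ka (s ^ 2)) - (-be (s ^ 2) + s * ka (s ^ 2))) ^ 2) /
      (2 * (be (s ^ 2) + s * ka (s ^ 2)) * (-be (s ^ 2) + s * ka (s ^ 2)))) s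
  ode_b : ∀ s : ℝ, 0 < s → HasDerivAt (fun r : ℝ => be (r ^ 2) + r * ka (r ^ 2))
    (((be (s ^ 2) + s * ka (s ^ 2)) ^ 2 - ((-be (s ^ 2) + s * ka (s ^ 2)) - s * al (s ^ 2)) ^ 2) /
      (2 * (-be (s ^ 2) + s * ka (s ^ 2)) * (s * al (s ^ 2)))) s
  ode_c : ∀ s : ℝ, 0 < s → HasDerivAt (fun r : ℝ => -be (r ^ 2) + r * ka (r ^ 2))
    (((-be (s ^ 2) + s * ka (s ^ 2)) ^ 2 - (s * al (s ^ 2) - (be (s ^ 2) + s * ka (s ^ 2))) ^ 2) /
      (2 * (s * al (s ^ 2)) * (be (s ^ 2) + s * ka (s ^ 2)))) s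

namespace Profile

variable (pr : Profile)

/-- the coefficient `a` -/
noncomputable def a (s : ℝ) : ℝ := s * pr.al (s ^ 2)

/-- the coefficient `b` -/
noncomputable def b (s : ℝ) : ℝ := pr.be (s ^ 2) + s * pr.ka (s ^ 2)

/-- the coefficient `c` -/
noncomputable def c (s : ℝ) : ℝ := -pr.be (s ^ 2) + s * pr.ka (s ^ 2)

end Profile

/-- rotations of three space -/
def IsRot (R : Matrix (Fin 3) (Fin 3) ℝ) : Prop := Rᵀ * R = 1 ∧ R.det = 1

/-- the point of the normal geodesic at distance `s` from the bolt -/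
def Dg (s : ℝ) : Matrix (Fin 3) (Fin 3) ℝ := Matrix.diagonal ![2 + s ^ 2, s, -s]

/-- The Atiyah-Hitchin manifold: symmetric matrices with eigenvalues `2 + s^2, s, -s`, `s ≥ 0`. -/
def AH : Set V9 := {P | ∃ R s, IsRot R ∧ 0 ≤ s ∧ toM P = R * Dg s * Rᵀ}

/-- Basis of the tangent space of `AH` at `Dg s`: `Tb s 0` is the unit normal `d/ds`, `Tb s 1` is
`(2s)^{-1} K_1`, `Tb s 2 = K_2`, `Tb s 3 = K_3`, where `K_i` is the derivative of the rotation
about the `i`-th axis. -/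
def Tb (s : ℝ) : Fin 4 → Matrix (Fin 3) (Fin 3) ℝ :=
  ![!![2 * s, 0, 0; 0, 1, 0; 0, 0, -1],
    !![0, 0, 0; 0, 0, 1; 0, 1, 0],
    !![0, 0, -(2 + s ^ 2 + s); 0, 0, 0; -(2 + s ^ 2 + s), 0, 0],
    !![0, 2 + s ^ 2 - s, 0; 2 + s ^ 2 - s, 0, 0; 0, 0, 0]]

/-- The matrices of the complex structures `I_1, I_2, I_3` of the Atiyah-Hitchin metric at `Dg s`
with respect to the basis `Tb s`: `I_i (d/ds) = K_i / a_i` and `I_1 I_2 = I_3`. -/
noncomputable def Ic (pr : Profile) (s : ℝ) : Fin 3 → Matrix (Fin 4) (Fin 4) ℝ :=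
  ![!![0, -(pr.al (s ^ 2) / 2), 0, 0;
       2 / pr.al (s ^ 2), 0, 0, 0;
       0, 0, 0, -(pr.c s / pr.b s);
       0, 0, pr.b s / pr.c s, 0],
    !![0, 0, -pr.b s, 0;
       0, 0, 0, 2 * pr.c s / pr.al (s ^ 2);
       1 / pr.b s, 0, 0, 0;
       0, -(pr.al (s ^ 2) / (2 * pr.c s)), 0, 0],
    !![0, 0, 0, -pr.c s;
       0, 0, -(2 * pr.b s / pr.al (s ^ 2)), 0;
       0, pr.al (s ^ 2) / (2 * pr.b s), 0, 0;
       1 / pr.c s, 0, 0, 0]]

/-- The Fueter equation for a point `P` of `AH` and three tangent vectors `H j` (the derivatives in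
the directions `e_j`): at `P = R (Dg s) Rᵀ` the complex structure `I(e_j)` is
`∑_i R_{ji} I_{R e_i}`, where `I_{R e_i}` is conjugate to `I_i` by the action of `R`. -/
def FueterPt (pr : Profile) (P : Matrix (Fin 3) (Fin 3) ℝ)
    (H : Fin 3 → Matrix (Fin 3) (Fin 3) ℝ) : Prop :=
  ∃ (R : Matrix (Fin 3) (Fin 3) ℝ) (s : ℝ) (h : Fin 3 → Fin 4 → ℝ), IsRot R ∧ 0 ≤ s ∧
    P = R * Dg s * Rᵀ ∧ (∀ j, H j = R * (∑ k, h j k • Tb s k) * Rᵀ) ∧
    ∑ j, ∑ i, R j i • (Ic pr s i).mulVec (h j) = 0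

section manifold

variable (M : Type) [TopologicalSpace M] [ChartedSpace E3 M] [IsManifold (𝓡 3) ∞ M]

/-- A global frame of a three-manifold; it carries the metric and the orientation for which the
frame is oriented and orthonormal.  `c i j k` are the structure functions. -/
structure Frame where
  e : Fin 3 → ∀ x : M, TangentSpace (𝓡 3) x
  smooth_e : ∀ i, ContMDiff (𝓡 3) (𝓡 3).tangent ∞ (fun x => (⟨x, e i x⟩ : TangentBundle (𝓡 3) M))
  indep : ∀ x, LinearIndependent ℝ (fun i => e i x)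
  c : Fin 3 → Fin 3 → Fin 3 → M → ℝ
  smooth_c : ∀ i j k, ContMDiff (𝓡 3) 𝓘(ℝ, ℝ) ∞ (c i j k)
  bracket : ∀ i j x, VectorField.mlieBracket (𝓡 3) (e i) (e j) x = ∑ k, c i j k x • e k x

variable {M}

namespace Frame

variable (F : Frame M)

/-- derivative of a vector valued function along `e i` -/
noncomputable def D {W : Type} [NormedAddCommGroup W] [NormedSpace ℝ W] (i : Fin 3) (f : M → W)
    (x : M) : W := mfderiv (𝓡 3) 𝓘(ℝ, W) f x (F.e i x)

/-- The Levi-Civita connection (Koszul formula for an orthonormal frame): the `(k, j)` entry is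
`⟨∇_{e_i} e_j, e_k⟩`. -/
noncomputable def conn (i : Fin 3) (x : M) : Matrix (Fin 3) (Fin 3) ℝ :=
  Matrix.of fun k j => (F.c i j k x - F.c j k i x + F.c k i j x) / 2

/-- Curvature: the `(k, l)` entry is `⟨R(e_i, e_j) e_l, e_k⟩`. -/
noncomputable def curv (i j : Fin 3) (x : M) : Matrix (Fin 3) (Fin 3) ℝ :=
  Matrix.of (fun k l => F.D i (fun y => F.conn j y k l) x - F.D j (fun y => F.conn i y k l) x)
    + (F.conn i x * F.conn j x - F.conn j x * F.conn i x) - ∑ m, F.c i j m x • F.conn m x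

/-- The Ricci tensor `Ric(e_j, e_l)`. -/
noncomputable def ric (j l : Fin 3) (x : M) : ℝ := ∑ i, F.curv i j x i l

/-- positive Ricci curvature -/
def RicPos : Prop := ∀ x (v : Fin 3 → ℝ), v ≠ 0 → 0 < ∑ j, ∑ l, F.ric j l x * v j * v l

/-- covariant derivative along `e i` of the section of `Fr(M) x_{SO(3)} AH` which is `u` in the
frame `e` -/
noncomputable def cov (i : Fin 3) (u : M → V9) (x : M) : Matrix (Fin 3) (Fin 3) ℝ :=
  toM (F.D i u x) + (F.conn i x * toM (u x) - toM (u x) * F.conn i x)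

/-- Fueter sections of the Atiyah-Hitchin bundle: `∑ I(e_j) ∇_{e_j} u = 0` -/
structure IsFueter (pr : Profile) (u : M → V9) : Prop where
  smooth : ContMDiff (𝓡 3) 𝓘(ℝ, V9) ∞ u
  mem : ∀ x, u x ∈ AH
  eq : ∀ x, FueterPt pr (toM (u x)) (fun j => F.cov j u x)

/-- iterated derivatives along the frame -/
noncomputable def DD : List (Fin 3) → (M → V9) → M → V9
  | [], f => f
  | i :: w, f => F.D i (DD w f)

/-- convergence in the `C^∞` topology -/
def CInf (u : ℕ → M → V9) (v : M → V9) : Prop :=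
  ∀ w : List (Fin 3), TendstoUniformly (fun n => F.DD w (u n)) (F.DD w v) Filter.atTop

end Frame

end manifold

/-- Compactness of the space of Fueter sections: (A) every sequence of Fueter sections staying in a
bounded region has a `C^∞` convergent subsequence, for every metric; (B) if the Ricci curvature is
positive this holds for every sequence of Fueter sections. -/
def Main : Prop :=
  ∀ (pr : Profile) (M : Type) [TopologicalSpace M] [ChartedSpace E3 M] [IsManifold (𝓡 3) ∞ M]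
    [CompactSpace M] [T2Space M] (F : Frame M),
    (∀ (S : ℝ) (u : ℕ → M → V9), (∀ n, F.IsFueter pr (u n)) → (∀ n x, (toM (u n x)).trace ≤ S) →
      ∃ (φ : ℕ → ℕ) (v : M → V9), StrictMono φ ∧ F.IsFueter pr v ∧ F.CInf (fun n => u (φ n)) v) ∧
    (F.RicPos → ∀ u : ℕ → M → V9, (∀ n, F.IsFueter pr (u n)) →
      ∃ (φ : ℕ → ℕ) (v : M → V9), StrictMono φ ∧ F.IsFueter pr v ∧ F.CInf (fun n => u (φ n)) v)

end Pool.Agent.FUE
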