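import Pool.Agent.FUE.StE
import Pool.Agent.FUE.StM
import Pool.Agent.FUE.Mf8

/-!
# FUE E00: compactness of flat Fueter maps (helper41)
-/

set_option autoImplicit false

open scoped Manifold ContDiff Matrix
open MeasureTheory

namespace Pool.Agent.FUE

namespace E00x

theorem eqm (u : E3 → V9) (x : E3) :
    (fun j => toM (fderiv ℝ u x ((fun (j : Fin 3) (_ : E3) => bs j) j x)) +
      (toM ((fun (_ : Fin 3) (_ : E3) => (0 : V9)) j x) * toM (u x) -
        toM (u x) * toM ((fun (_ : Fin 3) (_ : E3) => (0 : V9)) j x))) =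
      fun j => toM (du u x j) := by
  funext j
  have h0 : toM (0 : V9) = 0 := rfl
  simp only [h0, Matrix.zero_mul, Matrix.mul_zero, sub_zero, add_zero, du]

theorem toLoc {pr : Profile} {O : Set E3} {u : E3 → V9} (h : Flat pr O u) :
    LocF pr O (fun j _ => bs j) (fun _ _ => 0) u := by
  refine ⟨h.smooth, h.mem, fun x hx => ?_⟩
  have h1 := eqm u x
  simp only at h1
  rw [h1]
  exact h.eq x hx

theorem ofLoc {pr : Profile} {O : Set E3} {u : E3 → V9}
    (h : LocF pr O (fun j _ => bs j) (fun _ _ => 0) u) : Flat pr O u := by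
  refine ⟨h.smooth, h.mem, fun x hx => ?_⟩
  have h1 := eqm u x
  have h2 := h.eq x hx
  simp only at h1
  rw [h1] at h2
  exact h2

theorem bs_indep : LinearIndependent ℝ bs := by
  rw [Fintype.linearIndependent_iff]
  intro g hg i
  have h1 := congrArg (fun v : E3 => v i) hg
  simpa [bs, Pi.single_apply] using h1

end E00x

open E00x in
theorem thm_E00 (hCpt : St_Cpt) : St_E00 := by
  intro pr S U u hU H
  obtain ⟨φ, v, hφ, hL, hS, hC⟩ := hCpt pr S U hU (fun _ j _ => bs j) (fun _ _ _ => 0)
    (fun j _ => bs j) (fun _ _ => 0) u (fun _ => contDiffOn_const) (fun _ => contDiffOn_const)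
    (fun _ _ => bs_indep) (fun _ => cloc_const hU contDiffOn_const)
    (fun _ => cloc_const hU contDiffOn_const) (by
      intro x hx
      obtain ⟨r, hr, hrU⟩ := Metric.isOpen_iff.1 hU x hx
      have hsub : Metric.closedBall x (r / 2) ⊆ U :=
        (Metric.closedBall_subset_ball (by linarith)).trans hrU
      obtain ⟨Λ, hev⟩ := H (Metric.closedBall x (r / 2)) (isCompact_closedBall _ _) hsub
      obtain ⟨n₀, hn⟩ := Filter.eventually_atTop.1 hev
      refine ⟨r / 2, n₀, Λ, by linarith, Metric.ball_subset_closedBall.trans hsub, ?_⟩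
      intro n hnn
      obtain ⟨O, hO, hKO, -, hfl, hb⟩ := hn n hnn
      have hbO : Metric.ball x (r / 2) ⊆ O := Metric.ball_subset_closedBall.trans hKO
      exact ⟨(toLoc hfl).mono hbO, fun y hy => hb y (hbO hy)⟩)
  exact ⟨φ, v, hφ, ofLoc hL, hS, hC⟩

end Pool.Agent.FUE
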