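import Pool.Agent.FUE.Mf7
import Pool.Agent.FUE.RgSec

/-!
# Fueter sections, compactness CPT: convergence of the coefficients (helper17)
-/

set_option autoImplicit false

namespace Pool.Agent.FUE

open scoped Manifold ContDiff Topology
open Filter

variable {V V' : Type} [NormedAddCommGroup V] [NormedSpace ℝ V] [NormedAddCommGroup V'] [NormedSpace ℝ V']

/-- composition with a continuous linear map -/
theorem cloc_clm {U : Set E3} (hU : IsOpen U) (L : V →L[ℝ] V') {f : ℕ → E3 → V} {g : E3 → V}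
    (hg : ContDiffOn ℝ ∞ g U) (h : CLoc U f g) : CLoc U (fun n y => L (f n y)) (fun y => L (g y)) := by
  refine ⟨fun K hK hKU => ?_, fun k => ?_⟩
  · filter_upwards [h.1 K hK hKU] with n hn
    obtain ⟨O, hO, hKO, hf⟩ := hn
    exact ⟨O, hO, hKO, L.contDiff.comp_contDiffOn hf⟩
  rw [tendstoLocallyUniformlyOn_iff_forall_isCompact hU]
  intro K hKU hK
  rw [Metric.tendstoUniformlyOn_iff]
  intro ε hε
  have hC : 0 < ‖L‖ + 1 := by positivity
  filter_upwards [(Metric.tendstoUniformlyOn_iff.1 (cloc_unif hU h k hK hKU)) (ε / (‖L‖ + 1)) (by positivity),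
    h.1 K hK hKU] with n hn hO y hy
  obtain ⟨O, hO, hKO, hf⟩ := hO
  have h1 := hn y hy
  rw [dist_eq_norm] at h1 ⊢
  have hga : ContDiffAt ℝ ∞ g y := hg.contDiffAt (hU.mem_nhds (hKU hy))
  have hfa : ContDiffAt ℝ ∞ (f n) y := hf.contDiffAt (hO.mem_nhds (hKO hy))
  have hda : ContDiffAt ℝ ∞ (fun z => g z - f n z) y := hga.sub hfa
  have e1 : iteratedFDeriv ℝ k (fun z => g z - f n z) y = iteratedFDeriv ℝ k g y - iteratedFDeriv ℝ k (f n) y :=
    iteratedFDeriv_sub_apply (𝕜 := ℝ) (i := k) (hga.of_le (by exact_mod_cast le_top))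
      (hfa.of_le (by exact_mod_cast le_top))
  have e2 : iteratedFDeriv ℝ k (fun z => L (g z) - L (f n z)) y =
      iteratedFDeriv ℝ k (fun z => L (g z)) y - iteratedFDeriv ℝ k (fun z => L (f n z)) y :=
    iteratedFDeriv_sub_apply (𝕜 := ℝ) (i := k)
      ((L.contDiff.contDiffAt.comp y hga).of_le (by exact_mod_cast le_top))
      ((L.contDiff.contDiffAt.comp y hfa).of_le (by exact_mod_cast le_top))
  have e3 : (fun z => L (g z) - L (f n z)) = L ∘ fun z => g z - f n z := by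
    funext z
    simp
  have h2 := L.norm_iteratedFDeriv_comp_left hda (n := k) (by exact_mod_cast le_top)
  rw [← e3, e2, e1] at h2
  refine h2.trans_lt ?_
  calc ‖L‖ * ‖iteratedFDeriv ℝ k g y - iteratedFDeriv ℝ k (f n) y‖
      ≤ (‖L‖ + 1) * ‖iteratedFDeriv ℝ k g y - iteratedFDeriv ℝ k (f n) y‖ := by
        gcongr
        linarith
    _ < (‖L‖ + 1) * (ε / (‖L‖ + 1)) := by gcongr
    _ = ε := by field_simp

/-- the coefficient functions are smooth -/
theorem cf_smooth {U : Set E3} (hU : IsOpen U) {B : Fin 3 → E3 → E3} {W : Fin 3 → E3 → V9}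
    (hB : ∀ j, ContDiffOn ℝ ∞ (B j) U) (hW : ∀ j, ContDiffOn ℝ ∞ (W j) U) (s : Option (Fin 3) × Rg.KI) :
    ContDiffOn ℝ ∞ (Rg.pro (Rg.cf B W) s) U := by
  have h1 : ∀ q : Rg.KI, ContDiffOn ℝ ∞ (Rg.cf B W q) U := by
    rintro (q | q)
    · exact (EuclideanSpace.proj q.2 : E3 →L[ℝ] ℝ).contDiff.comp_contDiffOn (hB q.1)
    · exact (EuclideanSpace.proj q.2 : V9 →L[ℝ] ℝ).contDiff.comp_contDiffOn (hW q.1)
  obtain ⟨o, q⟩ := s
  rcases o with _ | k
  · exact h1 q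
  · exact Dl_smooth hU (E := fun _ => EuclideanSpace.single k 1) contDiffOn_const (h1 q)

/-- the coefficient functions converge -/
theorem cf_cloc {U : Set E3} (hU : IsOpen U) {B : ℕ → Fin 3 → E3 → E3} {W : ℕ → Fin 3 → E3 → V9}
    {B' : Fin 3 → E3 → E3} {W' : Fin 3 → E3 → V9}
    (hB' : ∀ j, ContDiffOn ℝ ∞ (B' j) U) (hW' : ∀ j, ContDiffOn ℝ ∞ (W' j) U)
    (hB : ∀ j, CLoc U (fun n => B n j) (B' j)) (hW : ∀ j, CLoc U (fun n => W n j) (W' j))
    (s : Option (Fin 3) × Rg.KI) :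
    CLoc U (fun n => Rg.pro (Rg.cf (B n) (W n)) s) (Rg.pro (Rg.cf B' W') s) := by
  have h1 : ∀ q : Rg.KI, CLoc U (fun n => Rg.cf (B n) (W n) q) (Rg.cf B' W' q) := by
    rintro (q | q)
    · exact cloc_clm hU (EuclideanSpace.proj q.2 : E3 →L[ℝ] ℝ) (hB' q.1) (hB q.1)
    · exact cloc_clm hU (EuclideanSpace.proj q.2 : V9 →L[ℝ] ℝ) (hW' q.1) (hW q.1)
  obtain ⟨o, q⟩ := s
  rcases o with _ | k
  · exact h1 q
  · exact cloc_Dl hU (E := fun _ => EuclideanSpace.single k 1) contDiffOn_const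
      (cf_smooth hU hB' hW' (none, q)) (h1 q)

/-- uniform bounds for all indices from uniform bounds for large indices -/
theorem bound_all {K : Set E3} {n₀ : ℕ} {f : ℕ → E3 → ℝ} (h1 : ∀ n, n₀ ≤ n → ∃ c, ∀ y ∈ K, f n y ≤ c) {C : ℝ}
    (h2 : ∀ᶠ n in atTop, ∀ y ∈ K, f n y ≤ C) : ∃ C', ∀ n, n₀ ≤ n → ∀ y ∈ K, f n y ≤ C' := by
  obtain ⟨n₁, hn₁⟩ := eventually_atTop.1 h2
  choose! c hc using h1
  refine ⟨(∑ n ∈ Finset.range n₁, |c n|) + |C|, fun n hn y hy => ?_⟩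
  rcases lt_or_ge n n₁ with h | h
  · have h3 := hc n hn y hy
    have h4 : |c n| ≤ ∑ n ∈ Finset.range n₁, |c n| :=
      Finset.single_le_sum (f := fun n => |c n|) (fun _ _ => abs_nonneg _) (Finset.mem_range.2 h)
    have h5 := le_abs_self (c n)
    have h6 := abs_nonneg C
    linarith
  · have h3 := hn₁ n h y hy
    have h5 := le_abs_self C
    have h6 : 0 ≤ ∑ n ∈ Finset.range n₁, |c n| := Finset.sum_nonneg fun _ _ => abs_nonneg _
    linarith

/-- uniform bounds of the derivatives of a convergent sequence -/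
theorem cloc_bound {U : Set E3} (hU : IsOpen U) {f : ℕ → E3 → V} {g : E3 → V} (hg : ContDiffOn ℝ ∞ g U)
    (h : CLoc U f g) {K : Set E3} (hK : IsCompact K) (hKU : K ⊆ U) :
    ∃ n₀ : ℕ, (∀ n, n₀ ≤ n → ∃ O : Set E3, IsOpen O ∧ K ⊆ O ∧ ContDiffOn ℝ ∞ (f n) O) ∧
      ∀ k : ℕ, ∃ C : ℝ, ∀ n, n₀ ≤ n → ∀ y ∈ K, ‖iteratedFDeriv ℝ k (f n) y‖ ≤ C := by
  have hcont : ∀ {O : Set E3} (_ : IsOpen O) {f : E3 → V} (_ : ContDiffOn ℝ ∞ f O) (k : ℕ),
      ContinuousOn (iteratedFDeriv ℝ k f) O := by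
    intro O hO f hf k
    have h3 : ContinuousOn (iteratedFDerivWithin ℝ k f O) O :=
      hf.continuousOn_iteratedFDerivWithin (by exact_mod_cast le_top) hO.uniqueDiffOn
    exact h3.congr fun y hy => (iteratedFDerivWithin_of_isOpen k hO hy).symm
  obtain ⟨n₀, hn₀⟩ := eventually_atTop.1 (h.1 K hK hKU)
  refine ⟨n₀, hn₀, fun k => ?_⟩
  obtain ⟨C, hC⟩ := hK.exists_bound_of_continuousOn ((hcont hU hg k).mono hKU)
  refine bound_all (C := C + 1) (fun n hn => ?_) ?_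
  · obtain ⟨O, hO, hKO, hf⟩ := hn₀ n hn
    exact hK.exists_bound_of_continuousOn ((hcont hO hf k).mono hKO)
  · filter_upwards [(Metric.tendstoUniformlyOn_iff.1 (cloc_unif hU h k hK hKU)) 1 one_pos] with n hn y hy
    have h1 := hn y hy
    rw [dist_eq_norm] at h1
    have h2 := hC y hy
    have h3 : iteratedFDeriv ℝ k (f n) y = iteratedFDeriv ℝ k g y -
        (iteratedFDeriv ℝ k g y - iteratedFDeriv ℝ k (f n) y) := by abel
    rw [h3]
    have := norm_sub_le (iteratedFDeriv ℝ k g y) (iteratedFDeriv ℝ k g y - iteratedFDeriv ℝ k (f n) y)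
    linarith

end Pool.Agent.FUE
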