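import Pool.Agent.FUE.Mc1

/-!
# Fueter sections, compactness CPT: local bounds of all derivatives (helper17)
-/

set_option autoImplicit false

namespace Pool.Agent.FUE

open scoped Manifold ContDiff Topology Matrix
open Filter

/-- points of `AH` are bounded in terms of the trace -/
theorem AH_norm_le {P : V9} (hP : P ∈ AH) : ‖P‖ ≤ lam P + 1 := by
  obtain ⟨R, s, ⟨hR, -⟩, hs, h⟩ := hP
  have hR' : R * Rᵀ = 1 := by
    rw [mul_eq_one_comm]
    exact hR
  have hsym : (toM P)ᵀ = toM P := by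
    rw [h, Matrix.transpose_mul, Matrix.transpose_mul, Matrix.transpose_transpose]
    unfold Dg
    rw [Matrix.diagonal_transpose, Matrix.mul_assoc]
  have h1 : ‖P‖ ^ 2 = (toM P * (toM P)ᵀ).trace := by
    rw [EuclideanSpace.real_norm_sq_eq, Fintype.sum_prod_type]
    simp only [Matrix.trace, Matrix.diag_apply, Matrix.mul_apply, Matrix.transpose_apply, toM, Matrix.of_apply]
    refine Finset.sum_congr rfl fun i _ => Finset.sum_congr rfl fun j _ => ?_
    ring
  have h2 : (toM P * (toM P)ᵀ).trace = (Dg s * Dg s).trace := by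
    rw [hsym, h]
    have e : R * Dg s * Rᵀ * (R * Dg s * Rᵀ) = R * (Dg s * Dg s) * Rᵀ := by
      calc R * Dg s * Rᵀ * (R * Dg s * Rᵀ) = R * Dg s * (Rᵀ * R) * Dg s * Rᵀ := by
            simp only [Matrix.mul_assoc]
        _ = R * (Dg s * Dg s) * Rᵀ := by
            rw [hR, Matrix.mul_one]
            simp only [Matrix.mul_assoc]
    rw [e, Matrix.trace_mul_comm, ← Matrix.mul_assoc, hR, Matrix.one_mul]
  have h3 : lam P = 2 + s ^ 2 := by
    unfold lam
    rw [h, Matrix.trace_mul_comm, ← Matrix.mul_assoc, hR, Matrix.one_mul]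
    unfold Dg
    simp [Fin.sum_univ_three]
  have h4 : (Dg s * Dg s).trace = (2 + s ^ 2) ^ 2 + 2 * s ^ 2 := by
    unfold Dg
    simp [Fin.sum_univ_three]
    ring
  have h5 : ‖P‖ ^ 2 ≤ (lam P + 1) ^ 2 := by
    rw [h1, h2, h4, h3]
    nlinarith [sq_nonneg s]
  have h6 : 0 ≤ lam P + 1 := by
    rw [h3]
    positivity
  exact (pow_le_pow_iff_left₀ (norm_nonneg P) h6 two_ne_zero).1 h5

variable {V : Type} [NormedAddCommGroup V] [NormedSpace ℝ V]

/-- joint convergence -/
theorem cloc_joint {U : Set E3} (hU : IsOpen U) {f : ℕ → E3 → V} {g : E3 → V} (h : CLoc U f g) {x : E3}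
    (hx : x ∈ U) (hg : ContinuousAt g x) :
    Tendsto (fun q : ℕ × E3 => f q.1 q.2) (atTop ×ˢ 𝓝 x) (𝓝 (g x)) := by
  obtain ⟨r, hr, hball⟩ := Metric.isOpen_iff.1 hU x hx
  have hcb : Metric.closedBall x (r / 2) ⊆ U := (Metric.closedBall_subset_ball (by linarith)).trans hball
  rw [Metric.tendsto_nhds]
  intro ε hε
  have h1 := Metric.tendstoUniformlyOn_iff.1 (cloc_zero hU h (isCompact_closedBall x (r / 2)) hcb) (ε / 2)
    (by linarith)
  have h2 : ∀ᶠ y in 𝓝 x, y ∈ Metric.closedBall x (r / 2) ∧ dist (g y) (g x) < ε / 2 :=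
    Filter.Eventually.and (Metric.closedBall_mem_nhds x (by linarith))
      ((Metric.tendsto_nhds.1 hg) (ε / 2) (by linarith))
  filter_upwards [h1.prod_mk h2] with q hq
  obtain ⟨hq1, hq2, hq3⟩ := hq
  have h3 := hq1 q.2 hq2
  have h4 := dist_triangle (f q.1 q.2) (g q.2) (g x)
  rw [dist_comm] at h3
  linarith

/-- the determinant of three vectors -/
noncomputable def dt (v : Fin 3 → E3) : ℝ := (Matrix.of fun a i => v a i).det

theorem dt_continuous : Continuous dt := by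
  unfold dt
  refine Continuous.matrix_det ?_
  refine continuous_matrix fun i j => ?_
  simp only [Matrix.of_apply]
  exact (EuclideanSpace.proj j : E3 →L[ℝ] ℝ).continuous.comp (continuous_apply i)

theorem dt_ne_zero {v : Fin 3 → E3} (hv : LinearIndependent ℝ v) : dt v ≠ 0 := by
  have h1 : LinearIndependent ℝ fun a => (Matrix.of fun a i => v a i : Matrix (Fin 3) (Fin 3) ℝ) a := by
    have := hv.map' (EuclideanSpace.equiv (Fin 3) ℝ).toLinearEquiv.toLinearMap (LinearEquiv.ker _)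
    exact this
  have h2 := (Matrix.linearIndependent_rows_iff_isUnit (K := ℝ)
    (A := (Matrix.of fun a i => v a i : Matrix (Fin 3) (Fin 3) ℝ))).1 h1
  have h3 := (Matrix.isUnit_iff_isUnit_det _).1 h2
  exact h3.ne_zero

/-- lower bound of the determinant near a point -/
theorem det_bound {U : Set E3} (hU : IsOpen U) {B : ℕ → Fin 3 → E3 → E3} {B' : Fin 3 → E3 → E3}
    (hB' : ∀ j, ContDiffOn ℝ ∞ (B' j) U) (hB : ∀ j, CLoc U (fun n => B n j) (B' j)) {x : E3} (hx : x ∈ U)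
    (hi : LinearIndependent ℝ fun j => B' j x) :
    ∃ (δ r : ℝ) (n₀ : ℕ), 0 < δ ∧ 0 < r ∧ ∀ n, n₀ ≤ n → ∀ y ∈ Metric.ball x r, δ ≤ |dt fun j => B n j y| := by
  have h1 : Tendsto (fun q : ℕ × E3 => fun j => B q.1 j q.2) (atTop ×ˢ 𝓝 x) (𝓝 fun j => B' j x) := by
    rw [tendsto_pi_nhds]
    intro j
    exact cloc_joint hU (hB j) hx ((hB' j).contDiffAt (hU.mem_nhds hx)).continuousAt
  have h2 : Tendsto (fun q : ℕ × E3 => |dt fun j => B q.1 j q.2|) (atTop ×ˢ 𝓝 x) (𝓝 |dt fun j => B' j x|) :=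
    ((dt_continuous.abs).tendsto _).comp h1
  have h3 : 0 < |dt fun j => B' j x| := abs_pos.2 (dt_ne_zero hi)
  have h4 := h2.eventually (lt_mem_nhds (half_lt_self h3))
  obtain ⟨p, hp, q, hq, hpq⟩ := Filter.eventually_prod_iff.1 h4
  obtain ⟨n₀, hn₀⟩ := eventually_atTop.1 hp
  obtain ⟨r, hr, hball⟩ := Metric.mem_nhds_iff.1 hq
  exact ⟨|dt fun j => B' j x| / 2, r, n₀, by linarith, hr, fun n hn y hy => (hpq (hn₀ n hn) (hball hy)).le⟩

end Pool.Agent.FUE
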