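import Pool.Agent.FUE.Mc2
import Pool.Agent.FUE.Mf8

/-!
# Fueter sections, compactness CPT: the theorem (helper17)
-/

set_option autoImplicit false

namespace Pool.Agent.FUE

open scoped Manifold ContDiff Topology Matrix
open Filter

/-- local bounds of all derivatives -/
theorem cpt_local (hSec : Rg.St_Sec) (hRgv : Rg.St_Rgv) {pr : Profile} {S : ℝ} {U : Set E3} (hU : IsOpen U)
    {B : ℕ → Fin 3 → E3 → E3} {W : ℕ → Fin 3 → E3 → V9} {B' : Fin 3 → E3 → E3} {W' : Fin 3 → E3 → V9}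
    {u : ℕ → E3 → V9} (hB' : ∀ j, ContDiffOn ℝ ∞ (B' j) U) (hW' : ∀ j, ContDiffOn ℝ ∞ (W' j) U)
    (hB : ∀ j, CLoc U (fun n => B n j) (B' j)) (hW : ∀ j, CLoc U (fun n => W n j) (W' j)) {x : E3} (hx : x ∈ U)
    (hi : LinearIndependent ℝ fun j => B' j x)
    (hloc : ∃ (r : ℝ) (n₀ : ℕ) (L : ℝ), 0 < r ∧ Metric.ball x r ⊆ U ∧ ∀ n, n₀ ≤ n →
      LocF pr (Metric.ball x r) (B n) (W n) (u n) ∧
      ∀ y ∈ Metric.ball x r, lam (u n y) ≤ S ∧ ‖fderiv ℝ (u n) y‖ ≤ L) :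
    ∃ (r : ℝ) (n₀ : ℕ), 0 < r ∧ Metric.ball x r ⊆ U ∧
      (∀ n, n₀ ≤ n → LocF pr (Metric.ball x r) (B n) (W n) (u n)) ∧
      ∀ k : ℕ, ∃ C : ℝ, ∀ n, n₀ ≤ n → ∀ y ∈ Metric.ball x r, ‖iteratedFDeriv ℝ k (u n) y‖ ≤ C := by
  obtain ⟨r₁, n₁, L, hr₁, hball, hn₁⟩ := hloc
  obtain ⟨δ, r₂, n₂, hδ, hr₂, hn₂⟩ := det_bound hU hB' hB hx hi
  set r : ℝ := min r₁ r₂ / 2 with hr
  have hmin : 0 < min r₁ r₂ := lt_min hr₁ hr₂
  have hr0 : 0 < r := by rw [hr]; linarith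
  have hrr₁ : r < r₁ := by
    have := min_le_left r₁ r₂
    rw [hr]; linarith
  have hrr₂ : r < r₂ := by
    have := min_le_right r₁ r₂
    rw [hr]; linarith
  have hKU : Metric.closedBall x r ⊆ U := (Metric.closedBall_subset_ball hrr₁).trans hball
  have hK : IsCompact (Metric.closedBall x r) := isCompact_closedBall x r
  have hbb : Metric.ball x r ⊆ Metric.ball x r₁ := Metric.ball_subset_ball hrr₁.le
  have hbb₂ : Metric.ball x r ⊆ Metric.ball x r₂ := Metric.ball_subset_ball hrr₂.le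
  -- the coefficients
  have h1 : ∀ s : Option (Fin 3) × Rg.KI, ∃ n₀ : ℕ,
      (∀ n, n₀ ≤ n → ∃ O : Set E3, IsOpen O ∧ Metric.closedBall x r ⊆ O ∧
        ContDiffOn ℝ ∞ (Rg.pro (Rg.cf (B n) (W n)) s) O) ∧
      ∀ k : ℕ, ∃ C : ℝ, ∀ n, n₀ ≤ n → ∀ y ∈ Metric.closedBall x r,
        ‖iteratedFDeriv ℝ k (Rg.pro (Rg.cf (B n) (W n)) s) y‖ ≤ C := fun s =>
    cloc_bound hU (cf_smooth hU hB' hW' s) (cf_cloc hU hB' hW' hB hW s) hK hKU
  choose N hN1 hN2 using h1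
  choose C hC using hN2
  have hBs : ∀ j, ∃ n₀ : ℕ, ∀ n, n₀ ≤ n → ContDiffOn ℝ ∞ (B n j) (Metric.ball x r) := by
    intro j
    obtain ⟨n₀, hn₀⟩ := eventually_atTop.1 ((hB j).1 _ hK hKU)
    refine ⟨n₀, fun n hn => ?_⟩
    obtain ⟨O, _, hKO, hf⟩ := hn₀ n hn
    exact hf.mono (Metric.ball_subset_closedBall.trans hKO)
  have hWs : ∀ j, ∃ n₀ : ℕ, ∀ n, n₀ ≤ n → ContDiffOn ℝ ∞ (W n j) (Metric.ball x r) := by
    intro j
    obtain ⟨n₀, hn₀⟩ := eventually_atTop.1 ((hW j).1 _ hK hKU)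
    refine ⟨n₀, fun n hn => ?_⟩
    obtain ⟨O, _, hKO, hf⟩ := hn₀ n hn
    exact hf.mono (Metric.ball_subset_closedBall.trans hKO)
  choose NB hNB using hBs
  choose NW hNW using hWs
  set n₀ : ℕ := n₁ + n₂ + (∑ s, N s) + (∑ j, NB j) + ∑ j, NW j with hn₀
  have hNs : ∀ s, N s ≤ n₀ := fun s => by
    have : N s ≤ ∑ s, N s := Finset.single_le_sum (fun _ _ => Nat.zero_le _) (Finset.mem_univ s)
    omega
  have hNBs : ∀ j, NB j ≤ n₀ := fun s => by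
    have : NB s ≤ ∑ s, NB s := Finset.single_le_sum (fun _ _ => Nat.zero_le _) (Finset.mem_univ s)
    omega
  have hNWs : ∀ j, NW j ≤ n₀ := fun s => by
    have : NW s ≤ ∑ s, NW s := Finset.single_le_sum (fun _ _ => Nat.zero_le _) (Finset.mem_univ s)
    omega
  have hn₁' : n₁ ≤ n₀ := by omega
  have hn₂' : n₂ ≤ n₀ := by omega
  -- the second order equation and the regularity theorem
  obtain ⟨F, hF, heq⟩ := hSec pr S
  set Λ : ℕ → ℝ := fun k => (∑ s, |C s k|) + |S| + 1 + |L| with hΛ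
  obtain ⟨D, hD⟩ := hRgv (Option (Fin 3) × Rg.KI) (fun a i => (none, Sum.inl (a, i))) F hF Λ δ r hδ hr0
  refine ⟨r / 2, n₀, by linarith, (Metric.ball_subset_ball (by linarith)).trans (hbb.trans hball),
    fun n hn => ((hn₁ n (hn₁'.trans hn)).1.mono hbb).mono (Metric.ball_subset_ball (by linarith)),
    fun k => ⟨D k, fun n hn => ?_⟩⟩
  have hl := (hn₁ n (hn₁'.trans hn)).1.mono hbb
  have hl2 := (hn₁ n (hn₁'.trans hn)).2
  have hBn : ∀ a, ContDiffOn ℝ ∞ (B n a) (Metric.ball x r) := fun a => hNB a n ((hNBs a).trans hn)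
  have hWn : ∀ a, ContDiffOn ℝ ∞ (W n a) (Metric.ball x r) := fun a => hNW a n ((hNWs a).trans hn)
  refine hD x (Rg.pro (Rg.cf (B n) (W n))) (u n) (fun s => cf_smooth Metric.isOpen_ball hBn hWn s) hl.smooth
    (fun k s y hy => ?_) (fun y hy => ⟨?_, ?_, ?_, ?_⟩) k
  · have h2 := hC s k n ((hNs s).trans hn) y (Metric.ball_subset_closedBall hy)
    have h3 : |C s k| ≤ ∑ s, |C s k| :=
      Finset.single_le_sum (f := fun s => |C s k|) (fun _ _ => abs_nonneg _) (Finset.mem_univ s)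
    have h4 := le_abs_self (C s k)
    have h5 := abs_nonneg S
    have h6 := abs_nonneg L
    rw [hΛ]
    simp only
    linarith
  · have h2 := AH_norm_le (hl.mem y hy)
    have h3 := (hl2 y (hbb hy)).1
    have h4 := le_abs_self S
    have h5 : 0 ≤ ∑ s, |C s 0| := Finset.sum_nonneg fun _ _ => abs_nonneg _
    have h6 := abs_nonneg L
    rw [hΛ]
    simp only
    linarith
  · have h3 := (hl2 y (hbb hy)).2
    have h4 := le_abs_self L
    have h5 : 0 ≤ ∑ s, |C s 0| := Finset.sum_nonneg fun _ _ => abs_nonneg _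
    have h6 := abs_nonneg S
    rw [hΛ]
    simp only
    linarith
  · exact hn₂ n (hn₂'.trans hn) y (hbb₂ hy)
  · exact heq x r (B n) (W n) (u n) hBn hWn hl (fun y hy => (hl2 y (hbb hy)).1) y hy

end Pool.Agent.FUE
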