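import Pool.Agent.FUE.Defs

/-!
# Fueter sections, part on M: the vector fields in charts (helper17)
-/

set_option autoImplicit false

namespace Pool.Agent.FUE

open scoped Manifold ContDiff Topology
open Filter

variable {M : Type} [TopologicalSpace M] [ChartedSpace E3 M] [IsManifold (𝓡 3) ∞ M]
variable {V : Type} [NormedAddCommGroup V] [NormedSpace ℝ V]

/-- iterated derivatives of maps to any normed space -/
noncomputable def Frame.DW (F : Frame M) : List (Fin 3) → (M → V) → M → V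
  | [], f => f
  | i :: w, f => F.D i (DW F w f)

theorem DD_eq_DW (F : Frame M) (w : List (Fin 3)) (f : M → V9) : F.DD w f = F.DW w f := by
  induction w with
  | nil => rfl
  | cons i w ih =>
    show F.D i (F.DD w f) = F.D i (F.DW w f)
    rw [ih]

/-- derivative in the direction of a vector field, Euclidean case -/
noncomputable def Dl (E : E3 → E3) (f : E3 → V) (y : E3) : V := fderiv ℝ f y (E y)

/-- words, Euclidean case -/
noncomputable def Dlw (E : Fin 3 → E3 → E3) : List (Fin 3) → (E3 → V) → (E3 → V)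
  | [], f => f
  | i :: w, f => Dl (E i) (Dlw E w f)

theorem D_smoothOn (F : Frame M) (i : Fin 3) {f : M → V} {s : Set M} (hs : IsOpen s)
    (hf : ContMDiffOn (𝓡 3) 𝓘(ℝ, V) ∞ f s) : ContMDiffOn (𝓡 3) 𝓘(ℝ, V) ∞ (F.D i f) s := by
  have : IsManifold (𝓡 3) 1 M := IsManifold.of_le (n := ∞) (by norm_cast)
  have h1 := hf.contMDiffOn_tangentMapWithin (m := ∞) (by norm_cast) hs.uniqueMDiffOn
  have h2 := (contMDiff_snd_tangentBundle_modelSpace V 𝓘(ℝ, V) (n := ∞)).comp_contMDiffOn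
    (h1.comp (F.smooth_e i).contMDiffOn (fun x hx => hx))
  refine h2.congr ?_
  intro x hx
  show F.D i f x = (tangentMapWithin (𝓡 3) 𝓘(ℝ, V) f s ⟨x, F.e i x⟩).2
  unfold Frame.D tangentMapWithin
  simp only
  rw [mfderivWithin_of_isOpen hs hx]

theorem D_smooth (F : Frame M) (i : Fin 3) {f : M → V} (hf : ContMDiff (𝓡 3) 𝓘(ℝ, V) ∞ f) :
    ContMDiff (𝓡 3) 𝓘(ℝ, V) ∞ (F.D i f) := by
  rw [← contMDiffOn_univ] at hf ⊢
  exact D_smoothOn F i isOpen_univ hf

theorem Dw_smooth (F : Frame M) (w : List (Fin 3)) {f : M → V} (hf : ContMDiff (𝓡 3) 𝓘(ℝ, V) ∞ f) :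
    ContMDiff (𝓡 3) 𝓘(ℝ, V) ∞ (F.DW w f) := by
  induction w with
  | nil => exact hf
  | cons i w ih => exact D_smooth F i ih

/-- the vector fields in the chart at `p` -/
noncomputable def Ech (F : Frame M) (p : M) (i : Fin 3) (y : E3) : E3 :=
  F.D i (extChartAt (𝓡 3) p) ((extChartAt (𝓡 3) p).symm y)

theorem chart_smooth (p : M) : ContMDiffOn (𝓡 3) 𝓘(ℝ, E3) ∞ (extChartAt (𝓡 3) p) (extChartAt (𝓡 3) p).source := by
  have := contMDiffOn_extChartAt (I := 𝓡 3) (n := ∞) (x := p)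
  rwa [extChartAt_source]

omit [IsManifold (𝓡 3) ∞ M] in
theorem chart_source_open (p : M) : IsOpen (extChartAt (𝓡 3) p).source := isOpen_extChartAt_source p

omit [IsManifold (𝓡 3) ∞ M] in
theorem chart_target_open (p : M) : IsOpen (extChartAt (𝓡 3) p).target := isOpen_extChartAt_target p

theorem symm_smooth (p : M) : ContMDiffOn 𝓘(ℝ, E3) (𝓡 3) ∞ (extChartAt (𝓡 3) p).symm (extChartAt (𝓡 3) p).target :=
  contMDiffOn_extChartAt_symm p

/-- smooth functions in a chart -/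
theorem comp_symm_smooth (p : M) {f : M → V}
    (hf : ContMDiffOn (𝓡 3) 𝓘(ℝ, V) ∞ f (extChartAt (𝓡 3) p).source) :
    ContDiffOn ℝ ∞ (fun y => f ((extChartAt (𝓡 3) p).symm y)) (extChartAt (𝓡 3) p).target := by
  rw [← contMDiffOn_iff_contDiffOn]
  exact hf.comp (symm_smooth p) fun y hy => (extChartAt (𝓡 3) p).map_target hy

theorem Ech_smooth (F : Frame M) (p : M) (i : Fin 3) :
    ContDiffOn ℝ ∞ (Ech F p i) (extChartAt (𝓡 3) p).target :=
  comp_symm_smooth p (D_smoothOn F i (chart_source_open p) (chart_smooth p))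

/-- the derivative in a chart -/
theorem D_chart (F : Frame M) (p : M) (i : Fin 3) {f : M → V} {x : M} (hx : x ∈ (extChartAt (𝓡 3) p).source)
    (hf : MDifferentiableAt (𝓡 3) 𝓘(ℝ, V) f x) :
    F.D i f x = fderiv ℝ (fun y => f ((extChartAt (𝓡 3) p).symm y)) (extChartAt (𝓡 3) p x)
      (F.D i (extChartAt (𝓡 3) p) x) := by
  have hy : extChartAt (𝓡 3) p x ∈ (extChartAt (𝓡 3) p).target := (extChartAt (𝓡 3) p).map_source hx
  have hsymm : MDifferentiableAt 𝓘(ℝ, E3) (𝓡 3) (extChartAt (𝓡 3) p).symm (extChartAt (𝓡 3) p x) :=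
    ((symm_smooth p).contMDiffAt ((chart_target_open p).mem_nhds hy)).mdifferentiableAt (by norm_cast)
  have hch : MDifferentiableAt (𝓡 3) 𝓘(ℝ, E3) (extChartAt (𝓡 3) p) x :=
    ((chart_smooth p).contMDiffAt ((chart_source_open p).mem_nhds hx)).mdifferentiableAt (by norm_cast)
  have hleft : (extChartAt (𝓡 3) p).symm (extChartAt (𝓡 3) p x) = x := (extChartAt (𝓡 3) p).left_inv hx
  have hg : MDifferentiableAt 𝓘(ℝ, E3) 𝓘(ℝ, V) (f ∘ (extChartAt (𝓡 3) p).symm) (extChartAt (𝓡 3) p x) := by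
    refine MDifferentiableAt.comp _ ?_ hsymm
    rw [hleft]
    exact hf
  have h1 : f =ᶠ[𝓝 x] (f ∘ (extChartAt (𝓡 3) p).symm) ∘ (extChartAt (𝓡 3) p) := by
    filter_upwards [(chart_source_open p).mem_nhds hx] with z hz
    simp only [Function.comp_apply]
    rw [(extChartAt (𝓡 3) p).left_inv hz]
  have h2 : (mfderiv (𝓡 3) 𝓘(ℝ, V) f x : E3 →L[ℝ] V) =
      (fderiv ℝ (f ∘ (extChartAt (𝓡 3) p).symm) (extChartAt (𝓡 3) p x)).comp
        (mfderiv (𝓡 3) 𝓘(ℝ, E3) (extChartAt (𝓡 3) p) x : E3 →L[ℝ] E3) := by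
    refine (h1.mfderiv_eq).trans ((mfderiv_comp x hg hch).trans ?_)
    rw [mfderiv_eq_fderiv]
    rfl
  exact congrArg (fun L : E3 →L[ℝ] V => L (F.e i x)) h2

/-- the derivative in a chart, at a point of the target -/
theorem D_chart' (F : Frame M) (p : M) (i : Fin 3) {f : M → V} {y : E3} (hy : y ∈ (extChartAt (𝓡 3) p).target)
    (hf : MDifferentiableAt (𝓡 3) 𝓘(ℝ, V) f ((extChartAt (𝓡 3) p).symm y)) :
    F.D i f ((extChartAt (𝓡 3) p).symm y) =
      Dl (Ech F p i) (fun y => f ((extChartAt (𝓡 3) p).symm y)) y := by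
  rw [D_chart F p i ((extChartAt (𝓡 3) p).map_target hy) hf, (extChartAt (𝓡 3) p).right_inv hy]
  rfl

/-- iterated derivatives in a chart -/
theorem Dw_chart (F : Frame M) (p : M) (w : List (Fin 3)) {f : M → V} (hf : ContMDiff (𝓡 3) 𝓘(ℝ, V) ∞ f)
    {y : E3} (hy : y ∈ (extChartAt (𝓡 3) p).target) :
    F.DW w f ((extChartAt (𝓡 3) p).symm y) =
      Dlw (Ech F p) w (fun y => f ((extChartAt (𝓡 3) p).symm y)) y := by
  induction w generalizing y with
  | nil => rfl
  | cons i w ih =>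
    show F.D i (F.DW w f) _ = Dl (Ech F p i) (Dlw (Ech F p) w fun y => f ((extChartAt (𝓡 3) p).symm y)) y
    rw [D_chart' F p i hy ((Dw_smooth F w hf).mdifferentiable (by norm_cast) _)]
    unfold Dl
    have : (fun y => F.DW w f ((extChartAt (𝓡 3) p).symm y)) =ᶠ[𝓝 y]
        Dlw (Ech F p) w (fun y => f ((extChartAt (𝓡 3) p).symm y)) := by
      filter_upwards [(chart_target_open p).mem_nhds hy] with z hz
      exact ih hz
    rw [this.fderiv_eq]

/-- the vector fields are linearly independent in a chart -/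
theorem Ech_indep (F : Frame M) (p : M) {y : E3} (hy : y ∈ (extChartAt (𝓡 3) p).target) :
    LinearIndependent ℝ fun i => Ech F p i y := by
  have hx := (extChartAt (𝓡 3) p).map_target hy
  have h1 := F.indep ((extChartAt (𝓡 3) p).symm y)
  have : IsManifold (𝓡 3) 1 M := IsManifold.of_le (n := ∞) (by norm_cast)
  have h2 : (mfderiv (𝓡 3) 𝓘(ℝ, E3) (extChartAt (𝓡 3) p) ((extChartAt (𝓡 3) p).symm y)).IsInvertible :=
    isInvertible_mfderiv_extChartAt hx
  have h3 := h1.map' (mfderiv (𝓡 3) 𝓘(ℝ, E3) (extChartAt (𝓡 3) p) ((extChartAt (𝓡 3) p).symm y)).toLinearMap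
    (LinearMap.ker_eq_bot.2 h2.injective)
  exact h3

end Pool.Agent.FUE
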