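import Pool.Agent.FUE.Mf9

/-!
# Fueter sections, part on M: rescaling of the Fueter equation (helper17)
-/

set_option autoImplicit false

namespace Pool.Agent.FUE

open scoped Manifold ContDiff Topology
open Filter

theorem toM_smul (ε : ℝ) (P : V9) : toM (ε • P) = ε • toM P := by
  ext i j
  simp [toM]

theorem toM_zero : toM (0 : V9) = 0 := by
  ext i j
  simp [toM]

theorem toM_add (P Q : V9) : toM (P + Q) = toM P + toM Q := by
  ext i j
  simp [toM]

theorem FueterPt.smul {pr : Profile} {P : Matrix (Fin 3) (Fin 3) ℝ} {H : Fin 3 → Matrix (Fin 3) (Fin 3) ℝ}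
    (h : FueterPt pr P H) (ε : ℝ) : FueterPt pr P (fun j => ε • H j) := by
  obtain ⟨R, s, g, hR, hs, hP, hH, he⟩ := h
  refine ⟨R, s, fun j k => ε * g j k, hR, hs, hP, fun j => ?_, ?_⟩
  · show ε • H j = _
    rw [hH j]
    have h1 : (∑ k, (ε * g j k) • Tb s k) = ε • ∑ k, g j k • Tb s k := by
      rw [Finset.smul_sum]
      refine Finset.sum_congr rfl fun k _ => ?_
      rw [smul_smul]
    rw [h1, Matrix.mul_smul, Matrix.smul_mul]
  · have h1 : ∀ j i, R j i • (Ic pr s i).mulVec (fun k => ε * g j k) = ε • (R j i • (Ic pr s i).mulVec (g j)) := by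
      intro j i
      have : (fun k => ε * g j k) = ε • g j := rfl
      rw [this, Matrix.mulVec_smul, smul_comm]
    simp only [h1, ← Finset.smul_sum]
    rw [he, smul_zero]

theorem fderiv_affine {V : Type} [NormedAddCommGroup V] [NormedSpace ℝ V] {v : E3 → V} {a : E3} {A : E3 →L[ℝ] E3}
    {y : E3} (h : DifferentiableAt ℝ v (a + A y)) :
    fderiv ℝ (fun z => v (a + A z)) y = (fderiv ℝ v (a + A y)).comp A := by
  have h1 : HasFDerivAt (fun z => a + A z) A y := A.hasFDerivAt.const_add a
  exact (h.hasFDerivAt.comp y h1).fderiv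

/-- the equation for a rescaled map -/
theorem locF_rescale {pr : Profile} {U : Set E3} (hU : IsOpen U) {B : Fin 3 → E3 → E3} {W : Fin 3 → E3 → V9}
    {v : E3 → V9} (h : LocF pr U B W v) (a : E3) {T : E3 →L[ℝ] E3} (hT : T.IsInvertible) (ε : ℝ) :
    LocF pr {y | a + (ε • T) y ∈ U} (fun j y => T.inverse (B j (a + (ε • T) y)))
      (fun j y => ε • W j (a + (ε • T) y)) (fun y => v (a + (ε • T) y)) := by
  refine ⟨h.smooth.comp (contDiff_const.add (ε • T).contDiff).contDiffOn fun z hz => hz,
    fun y hy => h.mem _ hy, fun y hy => ?_⟩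
  have hyU : a + (ε • T) y ∈ U := hy
  have hd : DifferentiableAt ℝ v (a + (ε • T) y) :=
    (h.smooth.contDiffAt (hU.mem_nhds hyU)).differentiableAt (by norm_cast)
  have h1 := (h.eq _ hyU).smul ε
  have h2 : (fun j => ε • (toM (fderiv ℝ v (a + (ε • T) y) (B j (a + (ε • T) y))) +
        (toM (W j (a + (ε • T) y)) * toM (v (a + (ε • T) y)) -
          toM (v (a + (ε • T) y)) * toM (W j (a + (ε • T) y))))) = fun j =>
      toM (fderiv ℝ (fun y => v (a + (ε • T) y)) y (T.inverse (B j (a + (ε • T) y)))) +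
        (toM (ε • W j (a + (ε • T) y)) * toM (v (a + (ε • T) y)) -
          toM (v (a + (ε • T) y)) * toM (ε • W j (a + (ε • T) y))) := by
    funext j
    have e1 : fderiv ℝ (fun y => v (a + (ε • T) y)) y (T.inverse (B j (a + (ε • T) y))) =
        ε • fderiv ℝ v (a + (ε • T) y) (B j (a + (ε • T) y)) := by
      have e2 : (ε • T) (T.inverse (B j (a + (ε • T) y))) = ε • B j (a + (ε • T) y) := by
        show ε • T (T.inverse (B j (a + (ε • T) y))) = _
        rw [hT.self_apply_inverse]
      rw [fderiv_affine hd, ContinuousLinearMap.comp_apply, e2, map_smul]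
    rw [e1, toM_smul, toM_smul, smul_add, smul_sub, Matrix.smul_mul, Matrix.mul_smul]
  rw [h2] at h1
  exact h1

end Pool.Agent.FUE
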