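import Pool.Agent.FUE.Mf11

/-!
# Fueter sections: part (A), compactness of bounded families (helper17)
-/

set_option autoImplicit false

namespace Pool.Agent.FUE

open scoped Manifold ContDiff Topology
open Filter

/-- **[N]** Part (A): sequences of Fueter sections in a bounded region subconverge in `C^∞`. -/
def St_N : Prop :=
  ∀ (pr : Profile) (M : Type) [TopologicalSpace M] [ChartedSpace E3 M] [IsManifold (𝓡 3) ∞ M]
    [CompactSpace M] [T2Space M] (F : Frame M) (S : ℝ) (u : ℕ → M → V9),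
    (∀ n, F.IsFueter pr (u n)) → (∀ n x, (toM (u n x)).trace ≤ S) →
    ∃ (φ : ℕ → ℕ) (v : M → V9), StrictMono φ ∧ F.IsFueter pr v ∧ F.CInf (fun n => u (φ n)) v

theorem thm_N (hN3 : St_N3) (hN4 : St_N4) : St_N := by
  intro pr M _ _ _ _ _ F S u hu hS
  obtain ⟨Λ, hΛ⟩ := hN4 pr M F S u hu hS
  exact hN3 pr M F S Λ u hu hS hΛ

end Pool.Agent.FUE
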