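import Pool.Agent.FUE.Mf2

/-!
# Fueter sections, part on M: the maximum principle (helper17)
-/

set_option autoImplicit false

namespace Pool.Agent.FUE

open scoped Manifold ContDiff Topology
open Filter

/-- second derivatives at a local maximum -/
theorem snd_le {H : E3 → ℝ} {y : E3} (hH : ContDiffAt ℝ ∞ H y) (hmax : IsLocalMax H y) (v : E3) :
    fderiv ℝ (fderiv ℝ H) y v v ≤ 0 := by
  by_contra hcon
  push Not at hcon
  have hH2 : ContDiffAt ℝ 2 H y := hH.of_le (by norm_cast)
  have hd0 : fderiv ℝ H y = 0 := hmax.fderiv_eq_zero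
  -- the line
  set L : ℝ → E3 := fun t => y + t • v with hL
  have hL0 : L 0 = y := by simp [hL]
  have hLd : ∀ t, HasDerivAt L v t := by
    intro t
    have := ((hasDerivAt_id t).smul_const v).const_add y
    rw [one_smul] at this
    exact this
  have hLc : Continuous L := by
    rw [hL]
    fun_prop
  have hev : ∀ᶠ z in 𝓝 y, DifferentiableAt ℝ H z := by
    have h1 : ∀ᶠ z in 𝓝 y, ContDiffAt ℝ 2 H z := hH2.eventually (by norm_num)
    filter_upwards [h1] with z hz
    exact hz.differentiableAt (by norm_num)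
  have hev' : ∀ᶠ t in 𝓝 (0 : ℝ), DifferentiableAt ℝ H (L t) := by
    have : Tendsto L (𝓝 0) (𝓝 y) := by
      have := hLc.tendsto 0
      rwa [hL0] at this
    exact this.eventually hev
  set g : ℝ → ℝ := fun t => H (L t) with hg
  have hg1 : ∀ᶠ t in 𝓝 (0 : ℝ), deriv g t = fderiv ℝ H (L t) v := by
    filter_upwards [hev'] with t ht
    exact (ht.hasFDerivAt.comp_hasDerivAt t (hLd t)).deriv
  have hg1' : deriv g =ᶠ[𝓝 0] fun t => fderiv ℝ H (L t) v := hg1
  have hfd : DifferentiableAt ℝ (fderiv ℝ H) (L 0) := by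
    rw [hL0]
    exact (hH2.fderiv_right (m := 1) (by norm_num)).differentiableAt (by norm_num)
  have hg2 : deriv (deriv g) 0 = fderiv ℝ (fderiv ℝ H) y v v := by
    rw [hg1'.deriv_eq]
    have h1 : HasDerivAt (fun t => fderiv ℝ H (L t)) (fderiv ℝ (fderiv ℝ H) (L 0) v) 0 :=
      hfd.hasFDerivAt.comp_hasDerivAt 0 (hLd 0)
    have h2 : HasDerivAt (fun t => fderiv ℝ H (L t) v) (fderiv ℝ (fderiv ℝ H) (L 0) v v) 0 := by
      have := h1.clm_apply (hasDerivAt_const (0 : ℝ) v)
      simpa using this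
    rw [h2.deriv, hL0]
  have hg10 : deriv g 0 = 0 := by
    rw [hg1.self_of_nhds, hL0, hd0]
    rfl
  have hgc : ContinuousAt g 0 := by
    have h1 : ContinuousAt H (L 0) := by
      rw [hL0]
      exact hH.continuousAt
    exact h1.comp hLc.continuousAt
  have hmin := isLocalMin_of_deriv_deriv_pos (by rw [hg2]; exact hcon) hg10 hgc
  have hmaxg : IsLocalMax g 0 := by
    have h1 : ∀ᶠ t in 𝓝 (0 : ℝ), H (L t) ≤ H y := by
      have : Tendsto L (𝓝 0) (𝓝 y) := by
        have := hLc.tendsto 0
        rwa [hL0] at this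
      exact this.eventually hmax
    filter_upwards [h1] with t ht
    rw [hg]
    simp only
    rw [hL0]
    exact ht
  have hconst : g =ᶠ[𝓝 0] fun _ => g 0 := by
    filter_upwards [hmin, hmaxg] with t h1 h2
    exact le_antisymm h2 h1
  have h3 : deriv g =ᶠ[𝓝 0] deriv (fun _ => g 0) := hconst.deriv
  have h4 : deriv (deriv g) 0 = 0 := by
    rw [h3.deriv_eq]
    simp
  rw [hg2] at h4
  linarith

section Mfd

variable {M : Type} [TopologicalSpace M] [ChartedSpace E3 M] [IsManifold (𝓡 3) ∞ M]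

/-- first derivatives vanish at a local maximum -/
theorem D_eq_zero_of_max (F : Frame M) {h : M → ℝ} (hh : ContMDiff (𝓡 3) 𝓘(ℝ, ℝ) ∞ h) {x : M}
    (hmax : IsLocalMax h x) (i : Fin 3) : F.D i h x = 0 ∧ F.D i (F.D i h) x ≤ 0 := by
  have hx := mem_extChartAt_source (I := 𝓡 3) x
  have hxt := mem_extChartAt_target (I := 𝓡 3) x
  have hleft := (extChartAt (𝓡 3) x).left_inv hx
  set y := extChartAt (𝓡 3) x x with hy
  set H : E3 → ℝ := fun y => h ((extChartAt (𝓡 3) x).symm y) with hH
  have hsm : ContDiffOn ℝ ∞ H (extChartAt (𝓡 3) x).target := comp_symm_smooth x hh.contMDiffOn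
  have hHa : ContDiffAt ℝ ∞ H y := hsm.contDiffAt ((chart_target_open x).mem_nhds hxt)
  have hcont : ContinuousAt (extChartAt (𝓡 3) x).symm y := continuousAt_extChartAt_symm x
  have hmaxH : IsLocalMax H y := by
    have h1 : ∀ᶠ z in 𝓝 ((extChartAt (𝓡 3) x).symm y), h z ≤ h x := by
      rw [hleft]
      exact hmax
    filter_upwards [hcont.eventually h1] with z hz
    rw [hH]
    simp only
    rw [hleft]
    exact hz
  have h1 := Dw_chart F x [i] hh hxt
  have h2 := Dw_chart F x [i, i] hh hxt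
  rw [hleft] at h1 h2
  have h3 : fderiv ℝ H y = 0 := hmaxH.fderiv_eq_zero
  constructor
  · refine h1.trans ?_
    show fderiv ℝ H y (Ech F x i y) = 0
    rw [h3]
    rfl
  · refine (le_of_eq h2).trans ?_
    show fderiv ℝ (fun z => fderiv ℝ H z (Ech F x i z)) y (Ech F x i y) ≤ 0
    have hfd : DifferentiableAt ℝ (fderiv ℝ H) y := by
      have h1 : ContDiffAt ℝ 2 H y := hHa.of_le (by norm_cast)
      exact (h1.fderiv_right (m := 1) (by norm_num)).differentiableAt (by norm_num)
    have hE : DifferentiableAt ℝ (Ech F x i) y :=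
      ((Ech_smooth F x i).contDiffAt ((chart_target_open x).mem_nhds hxt)).differentiableAt (by norm_cast)
    rw [fderiv_clm_apply hfd hE]
    have := snd_le hHa hmaxH (Ech F x i y)
    simpa [h3] using this

end Mfd

end Pool.Agent.FUE
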