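import Pool.Agent.FUE.Mf4

/-!
# Fueter sections, part on M: convergence in charts and on M (helper17)
-/

set_option autoImplicit false

namespace Pool.Agent.FUE

open scoped Manifold ContDiff Topology
open Filter

variable {M : Type} [TopologicalSpace M] [ChartedSpace E3 M] [IsManifold (𝓡 3) ∞ M]

omit [IsManifold (𝓡 3) ∞ M] in
/-- a compact neighbourhood of a point in the target of a chart, pulled back to `M` -/
theorem chart_compact (p : M) {x : M} (hx : x ∈ (extChartAt (𝓡 3) p).source) :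
    ∃ K : Set E3, IsCompact K ∧ K ⊆ (extChartAt (𝓡 3) p).target ∧
      {z : M | z ∈ (extChartAt (𝓡 3) p).source ∧ extChartAt (𝓡 3) p z ∈ K} ∈ 𝓝 x := by
  have hy : extChartAt (𝓡 3) p x ∈ (extChartAt (𝓡 3) p).target := (extChartAt (𝓡 3) p).map_source hx
  obtain ⟨r, hr, hball⟩ := Metric.isOpen_iff.1 (chart_target_open p) _ hy
  refine ⟨Metric.closedBall (extChartAt (𝓡 3) p x) (r / 2), isCompact_closedBall _ _,
    (Metric.closedBall_subset_ball (by linarith)).trans hball, ?_⟩
  have hc : ContinuousAt (extChartAt (𝓡 3) p) x := continuousAt_extChartAt' hx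
  filter_upwards [(chart_source_open p).mem_nhds hx,
    hc (Metric.closedBall_mem_nhds _ (half_pos hr))] with z h1 h2
  exact ⟨h1, h2⟩

/-- convergence in a family of charts which covers `M` gives `C^∞` convergence on `M` -/
theorem cinf_of_cloc [CompactSpace M] (F : Frame M) (u : ℕ → M → V9) (v : M → V9)
    (hu : ∀ n, ContMDiff (𝓡 3) 𝓘(ℝ, V9) ∞ (u n)) (hv : ContMDiff (𝓡 3) 𝓘(ℝ, V9) ∞ v) (P : Set M)
    (hP : ∀ x : M, ∃ p ∈ P, x ∈ (extChartAt (𝓡 3) p).source)
    (h : ∀ p ∈ P, CLoc (extChartAt (𝓡 3) p).target (fun n y => u n ((extChartAt (𝓡 3) p).symm y))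
      (fun y => v ((extChartAt (𝓡 3) p).symm y))) : F.CInf u v := by
  intro w
  rw [← tendstoLocallyUniformly_iff_tendstoUniformly_of_compactSpace]
  rw [Metric.tendstoLocallyUniformly_iff]
  intro ε hε x
  obtain ⟨p, hp, hx⟩ := hP x
  obtain ⟨K, hK, hKU, hnh⟩ := chart_compact p hx
  refine ⟨_, hnh, ?_⟩
  have h1 := cloc_Dlw (chart_target_open p) (fun i => Ech_smooth F p i)
    (comp_symm_smooth p hv.contMDiffOn) (h p hp) w
  have h2 := Metric.tendstoUniformlyOn_iff.1 (cloc_zero (chart_target_open p) h1 hK hKU) ε hε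
  filter_upwards [h2] with n hn z hz
  obtain ⟨hz1, hz2⟩ := hz
  have h3 := hn _ hz2
  have hleft := (extChartAt (𝓡 3) p).left_inv hz1
  have e1 := Dw_chart F p w hv (hKU hz2)
  have e2 := Dw_chart F p w (hu n) (hKU hz2)
  rw [hleft] at e1 e2
  rw [DD_eq_DW, DD_eq_DW, e1, e2]
  exact h3

end Pool.Agent.FUE
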