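import Pool.Agent.FUE.Mf5

/-!
# Fueter sections, part on M: frames as linear maps, bounds of the derivative (helper17)
-/

set_option autoImplicit false

namespace Pool.Agent.FUE

open scoped Manifold ContDiff Topology
open Filter

variable {V : Type} [NormedAddCommGroup V] [NormedSpace ℝ V]

/-- the linear map `h ↦ ∑ j, h j • b j` -/
noncomputable def frT (b : Fin 3 → E3) : E3 →L[ℝ] E3 :=
  ∑ j, (EuclideanSpace.proj j : E3 →L[ℝ] ℝ).smulRight (b j)

theorem frT_apply (b : Fin 3 → E3) (h : E3) : frT b h = ∑ j, h j • b j := by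
  unfold frT
  rw [sum_apply]
  rfl

theorem frT_bs (b : Fin 3 → E3) (j : Fin 3) : frT b (bs j) = b j := by
  rw [frT_apply, Finset.sum_eq_single j]
  · simp [bs]
  · intro i _ hi
    simp [bs, hi]
  · simp

theorem frT_invertible {b : Fin 3 → E3} (hb : LinearIndependent ℝ b) : (frT b).IsInvertible := by
  have hinj : Function.Injective (frT b : E3 →ₗ[ℝ] E3) := by
    rw [← LinearMap.ker_eq_bot, LinearMap.ker_eq_bot']
    intro h hh
    have h1 : ∑ j, h j • b j = 0 := by
      rw [← frT_apply]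
      exact hh
    have h2 := (Fintype.linearIndependent_iff.1 hb) (fun j => h j) h1
    ext j
    exact h2 j
  refine ⟨(LinearEquiv.ofInjectiveEndo (frT b : E3 →ₗ[ℝ] E3) hinj).toContinuousLinearEquiv, ?_⟩
  ext h
  rfl

theorem frT_continuousOn {U : Set E3} {B : Fin 3 → E3 → E3} (hB : ∀ j, ContinuousOn (B j) U) :
    ContinuousOn (fun y => frT fun j => B j y) U := by
  unfold frT
  refine continuousOn_finsetSum _ fun j _ => ?_
  have h1 : Continuous fun w : E3 => (EuclideanSpace.proj j : E3 →L[ℝ] ℝ).smulRight w := by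
    have := (ContinuousLinearMap.smulRightL ℝ E3 E3 (EuclideanSpace.proj j : E3 →L[ℝ] ℝ)).continuous
    exact this
  exact h1.comp_continuousOn (hB j)

theorem comp_frT_norm_le (b : Fin 3 → E3) (L : E3 →L[ℝ] V) : ‖L.comp (frT b)‖ ≤ ∑ j, ‖L (b j)‖ := by
  refine ContinuousLinearMap.opNorm_le_bound _ (Finset.sum_nonneg fun _ _ => norm_nonneg _) fun h => ?_
  rw [ContinuousLinearMap.comp_apply, frT_apply, map_sum, Finset.sum_mul]
  refine (norm_sum_le _ _).trans (Finset.sum_le_sum fun j _ => ?_)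
  rw [map_smul, norm_smul, mul_comm]
  refine mul_le_mul_of_nonneg_left ?_ (norm_nonneg _)
  exact PiLp.norm_apply_le h j

/-- the derivative is controlled by the derivatives along a frame -/
theorem frame_bound {K : Set E3} (hK : IsCompact K) {B : Fin 3 → E3 → E3}
    (hB : ∀ j, ContinuousOn (B j) K) (hi : ∀ y ∈ K, LinearIndependent ℝ fun j => B j y) :
    ∃ C : ℝ, 0 < C ∧ ∀ y ∈ K, ∀ L : E3 →L[ℝ] V, ‖L‖ ≤ C * ∑ j, ‖L (B j y)‖ := by
  have h1 : ContinuousOn (fun y => (frT fun j => B j y).inverse) K := by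
    intro y hy
    have h2 : ContinuousAt (ContinuousLinearMap.inverse : (E3 →L[ℝ] E3) → (E3 →L[ℝ] E3)) (frT fun j => B j y) :=
      ((frT_invertible (hi y hy)).contDiffAt_map_inverse (n := 0)).continuousAt
    exact ContinuousAt.comp_continuousWithinAt (f := fun y => frT fun j => B j y) h2 (frT_continuousOn hB y hy)
  obtain ⟨C, hC⟩ := hK.exists_bound_of_continuousOn h1
  refine ⟨|C| + 1, by positivity, fun y hy L => ?_⟩
  have h3 : L = (L.comp (frT fun j => B j y)).comp (frT fun j => B j y).inverse := by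
    rw [ContinuousLinearMap.comp_assoc, (frT_invertible (hi y hy)).self_comp_inverse,
      ContinuousLinearMap.comp_id]
  have h4 : ‖L‖ ≤ ‖L.comp (frT fun j => B j y)‖ * ‖(frT fun j => B j y).inverse‖ := by
    conv_lhs => rw [h3]
    exact ContinuousLinearMap.opNorm_comp_le _ _
  have h5 := comp_frT_norm_le (fun j => B j y) L
  have h6 : ‖(frT fun j => B j y).inverse‖ ≤ |C| + 1 := by
    have := hC y hy
    have := le_abs_self C
    linarith
  have h7 : 0 ≤ ∑ j, ‖L (B j y)‖ := Finset.sum_nonneg fun _ _ => norm_nonneg _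
  calc ‖L‖ ≤ _ := h4
    _ ≤ (∑ j, ‖L (B j y)‖) * (|C| + 1) := by gcongr
    _ = _ := mul_comm _ _

end Pool.Agent.FUE
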