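import Pool.Agent.FUE.Mf8

/-!
# Fueter sections, part on M: rescaling of smooth functions (helper17)
-/

set_option autoImplicit false

namespace Pool.Agent.FUE

open scoped Manifold ContDiff Topology
open Filter

variable {V V' : Type} [NormedAddCommGroup V] [NormedSpace ℝ V] [NormedAddCommGroup V'] [NormedSpace ℝ V']

/-- the derivatives of a rescaled function -/
theorem norm_rescale_le {O : Set E3} (hO : IsOpen O) {G : E3 → V'} (hG : ContDiffOn ℝ ∞ G O) (a : E3)
    (A : E3 →L[ℝ] E3) (L : V' →L[ℝ] V) {y : E3} (hy : a + A y ∈ O) (k : ℕ) :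
    ‖iteratedFDeriv ℝ k (fun z => L (G (a + A z))) y‖ ≤ ‖L‖ * ‖iteratedFDeriv ℝ k G (a + A y)‖ * ‖A‖ ^ k := by
  set G' : E3 → V' := fun z => G (a + z) with hG'
  set s : Set E3 := (fun z => a + z) ⁻¹' O with hs
  have hsO : IsOpen s := hO.preimage (by fun_prop)
  have hG's : ContDiffOn ℝ ∞ G' s := hG.comp (contDiff_const.add contDiff_id).contDiffOn fun z hz => hz
  have hys : A y ∈ s := hy
  have hpre : IsOpen (A ⁻¹' s) := hsO.preimage A.continuous
  have h1 : iteratedFDeriv ℝ k (G' ∘ A) y =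
      (iteratedFDeriv ℝ k G' (A y)).compContinuousLinearMap fun _ => A := by
    have := A.iteratedFDerivWithin_comp_right hG's hsO.uniqueDiffOn hpre.uniqueDiffOn hys (i := k)
      (by exact_mod_cast le_top)
    rwa [iteratedFDerivWithin_of_isOpen k hpre hys, iteratedFDerivWithin_of_isOpen k hsO hys] at this
  have h2 : ‖iteratedFDeriv ℝ k (G' ∘ A) y‖ ≤ ‖iteratedFDeriv ℝ k G (a + A y)‖ * ‖A‖ ^ k := by
    rw [h1]
    refine (ContinuousMultilinearMap.norm_compContinuousLinearMap_le _ _).trans (le_of_eq ?_)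
    rw [Finset.prod_const, Finset.card_univ, Fintype.card_fin, hG', iteratedFDeriv_comp_add_left]
  have h3 : ContDiffAt ℝ ∞ (G' ∘ A) y :=
    (hG's.contDiffAt (hsO.mem_nhds hys)).comp y A.contDiff.contDiffAt
  have h4 := L.norm_iteratedFDeriv_comp_left h3 (n := k) (by exact_mod_cast le_top)
  calc ‖iteratedFDeriv ℝ k (fun z => L (G (a + A z))) y‖ = ‖iteratedFDeriv ℝ k (L ∘ (G' ∘ A)) y‖ := rfl
    _ ≤ ‖L‖ * ‖iteratedFDeriv ℝ k (G' ∘ A) y‖ := h4
    _ ≤ ‖L‖ * (‖iteratedFDeriv ℝ k G (a + A y)‖ * ‖A‖ ^ k) := by gcongr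
    _ = _ := by ring

/-- points of a compact set under small affine maps -/
theorem affine_mem {O : Set E3} (hO : IsOpen O) {a : ℕ → E3} {a' : E3} (ha : Tendsto a atTop (𝓝 a')) (ha' : a' ∈ O)
    {A : ℕ → E3 →L[ℝ] E3} (hA : Tendsto A atTop (𝓝 0)) {K : Set E3} (hK : IsCompact K) :
    ∀ᶠ n in atTop, ∀ y ∈ K, a n + A n y ∈ O := by
  obtain ⟨r, hr, hball⟩ := Metric.isOpen_iff.1 hO a' ha'
  obtain ⟨C, hC⟩ := hK.isBounded.exists_norm_le
  have h1 : ∀ᶠ n in atTop, dist (a n) a' < r / 2 := (Metric.tendsto_nhds.1 ha) _ (by linarith)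
  have h2 : ∀ᶠ n in atTop, dist (A n) 0 < r / (2 * (|C| + 1)) := (Metric.tendsto_nhds.1 hA) _ (by positivity)
  filter_upwards [h1, h2] with n h1 h2 y hy
  apply hball
  rw [Metric.mem_ball, dist_eq_norm]
  rw [dist_eq_norm] at h1
  rw [dist_eq_norm, sub_zero] at h2
  have h3 : ‖A n y‖ ≤ ‖A n‖ * (|C| + 1) := by
    refine ((A n).le_opNorm y).trans ?_
    have := hC y hy
    have := le_abs_self C
    gcongr
    linarith
  have h4 : ‖A n‖ * (|C| + 1) < r / 2 := by
    have := mul_lt_mul_of_pos_right h2 (show (0 : ℝ) < |C| + 1 by positivity)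
    have e : r / (2 * (|C| + 1)) * (|C| + 1) = r / 2 := by field_simp
    linarith
  have h5 : a n + A n y - a' = (a n - a') + A n y := by abel
  rw [h5]
  have := norm_add_le (a n - a') (A n y)
  linarith

/-- rescaled functions converge to a constant with all derivatives -/
theorem cloc_rescale {O : Set E3} (hO : IsOpen O) {G : E3 → V'} (hG : ContDiffOn ℝ ∞ G O)
    {a : ℕ → E3} {a' : E3} (ha : Tendsto a atTop (𝓝 a')) (ha' : a' ∈ O)
    {A : ℕ → E3 →L[ℝ] E3} (hA : Tendsto A atTop (𝓝 0)) {L : ℕ → V' →L[ℝ] V} {L' : V' →L[ℝ] V}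
    (hL : Tendsto L atTop (𝓝 L')) :
    CLoc Set.univ (fun n y => L n (G (a n + A n y))) (fun _ => L' (G a')) := by
  have hopen : ∀ n, IsOpen {y : E3 | a n + A n y ∈ O} := fun n => hO.preimage (by fun_prop)
  have hsm : ∀ n, ContDiffOn ℝ ∞ (fun y => L n (G (a n + A n y))) {y : E3 | a n + A n y ∈ O} := by
    intro n
    have h1 : ContDiffOn ℝ ∞ (fun y => G (a n + A n y)) {y : E3 | a n + A n y ∈ O} :=
      hG.comp (contDiff_const.add (A n).contDiff).contDiffOn fun z hz => hz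
    exact (L n).contDiff.comp_contDiffOn h1
  refine ⟨fun K hK _ => ?_, fun k => ?_⟩
  · filter_upwards [affine_mem hO ha ha' hA hK] with n hn
    exact ⟨_, hopen n, fun y hy => hn y hy, hsm n⟩
  rw [tendstoLocallyUniformlyOn_iff_forall_isCompact isOpen_univ]
  intro K _ hK
  have hLb : ∀ᶠ n in atTop, ‖L n‖ ≤ ‖L'‖ + 1 := by
    have h1 : Tendsto (fun n => ‖L n‖) atTop (𝓝 ‖L'‖) := hL.norm
    filter_upwards [h1.eventually (gt_mem_nhds (lt_add_one ‖L'‖))] with n hn
    exact hn.le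
  rcases Nat.eq_zero_or_pos k with rfl | hk
  · -- uniform convergence
    rw [Metric.tendstoUniformlyOn_iff]
    intro ε hε
    have hc : ContinuousAt (fun p : (V' →L[ℝ] V) × E3 => p.1 (G p.2)) (L', a') := by
      have h1 : ContinuousAt G a' := (hG.contDiffAt (hO.mem_nhds ha')).continuousAt
      exact (continuous_fst.continuousAt).clm_apply
        (ContinuousAt.comp (f := fun p : (V' →L[ℝ] V) × E3 => p.2) h1 continuous_snd.continuousAt)
    have h2 : {p : (V' →L[ℝ] V) × E3 | dist (p.1 (G p.2)) (L' (G a')) < ε} ∈ 𝓝 (L', a') :=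
      hc.eventually (Metric.ball_mem_nhds _ hε)
    obtain ⟨N, hN, O₂, hO₂, hsub⟩ := mem_nhds_prod_iff.1 h2
    obtain ⟨O₃, hO₃sub, hO₃, haO₃⟩ := mem_nhds_iff.1 hO₂
    filter_upwards [affine_mem hO₃ ha haO₃ hA hK, hL.eventually hN] with n h3 h4 y hy
    have h5 := hsub (Set.mk_mem_prod h4 (hO₃sub (h3 y hy)))
    have h6 : dist (L n (G (a n + A n y))) (L' (G a')) < ε := h5
    rw [dist_eq_norm] at h6 ⊢
    have h7 : iteratedFDeriv ℝ 0 (fun _ : E3 => L' (G a')) y -
        iteratedFDeriv ℝ 0 (fun y => L n (G (a n + A n y))) y =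
        (continuousMultilinearCurryFin0 ℝ E3 V).symm (L' (G a') - L n (G (a n + A n y))) := by
      rw [iteratedFDeriv_zero_eq_comp, iteratedFDeriv_zero_eq_comp, map_sub]
      rfl
    rw [h7, LinearIsometryEquiv.norm_map, norm_sub_rev]
    exact h6
  · -- derivatives tend to zero
    rw [Metric.tendstoUniformlyOn_iff]
    intro ε hε
    have hcont : ContinuousAt (iteratedFDeriv ℝ k G) a' := by
      have h3 : ContinuousOn (iteratedFDerivWithin ℝ k G O) O :=
        hG.continuousOn_iteratedFDerivWithin (by exact_mod_cast le_top) hO.uniqueDiffOn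
      have h4 : ContinuousOn (iteratedFDeriv ℝ k G) O :=
        h3.congr fun y hy => (iteratedFDerivWithin_of_isOpen k hO hy).symm
      exact h4.continuousAt (hO.mem_nhds ha')
    have h1 : {z : E3 | ‖iteratedFDeriv ℝ k G z‖ < ‖iteratedFDeriv ℝ k G a'‖ + 1} ∈ 𝓝 a' :=
      hcont.norm.eventually (gt_mem_nhds (lt_add_one _))
    obtain ⟨O₃, hO₃sub, hO₃, haO₃⟩ := mem_nhds_iff.1 h1
    have hA' : Tendsto (fun n => (‖L'‖ + 1) * (‖iteratedFDeriv ℝ k G a'‖ + 1) * ‖A n‖ ^ k) atTop (𝓝 0) := by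
      have h2 : Tendsto (fun n => ‖A n‖ ^ k) atTop (𝓝 0) := by
        have := hA.norm.pow k
        rwa [norm_zero, zero_pow hk.ne'] at this
      simpa using h2.const_mul ((‖L'‖ + 1) * (‖iteratedFDeriv ℝ k G a'‖ + 1))
    filter_upwards [affine_mem hO₃ ha haO₃ hA hK, affine_mem hO ha ha' hA hK, hLb,
      hA'.eventually (gt_mem_nhds hε)] with n h3 h4 h5 h6 y hy
    rw [iteratedFDeriv_const_of_ne hk.ne', Pi.zero_apply, dist_zero_left]
    have h7 := norm_rescale_le hO hG (a n) (A n) (L n) (h4 y hy) k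
    have h8 : ‖iteratedFDeriv ℝ k G (a n + A n y)‖ ≤ ‖iteratedFDeriv ℝ k G a'‖ + 1 := (hO₃sub (h3 y hy)).le
    calc _ ≤ _ := h7
      _ ≤ (‖L'‖ + 1) * (‖iteratedFDeriv ℝ k G a'‖ + 1) * ‖A n‖ ^ k := by gcongr
      _ < ε := h6

end Pool.Agent.FUE
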