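import Pool.Agent.FUE.StQ

/-!
# Fueter sections: module Q1 (analyticity and values of the elliptic integrals)
-/

set_option autoImplicit false

open scoped Topology Interval
open MeasureTheory

namespace Pool.Agent.FUE

namespace Q1x

/-- the complex integrand -/
noncomputable def g (w : ℝ → ℝ) (z : ℂ) (θ : ℝ) : ℂ :=
  (w θ : ℂ) * (1 - z * ((Real.sin θ ^ 2 : ℝ) : ℂ)) ^ (-(1 / 2) : ℂ)

/-- its derivative -/
noncomputable def g' (w : ℝ → ℝ) (z : ℂ) (θ : ℝ) : ℂ :=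
  (w θ : ℂ) * (-(1 / 2) * (1 - z * ((Real.sin θ ^ 2 : ℝ) : ℂ)) ^ (-(1 / 2) - 1 : ℂ) *
    (-((Real.sin θ ^ 2 : ℝ) : ℂ)))

theorem re_eq (z : ℂ) (s : ℝ) : (1 - z * (s : ℂ)).re = 1 - z.re * s := by
  simp

theorem re_lb (z : ℂ) (d θ : ℝ) (hd1 : d ≤ 1) (hz : z.re ≤ 1 - d) :
    d ≤ (1 - z * ((Real.sin θ ^ 2 : ℝ) : ℂ)).re := by
  rw [re_eq]
  have h0 := sq_nonneg (Real.sin θ)
  have h1 := Real.sin_sq_le_one θ
  rcases le_or_gt z.re 0 with h | h
  · nlinarith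
  · nlinarith

theorem slit (z : ℂ) (θ : ℝ) (hz : z.re < 1) :
    (1 - z * ((Real.sin θ ^ 2 : ℝ) : ℂ)) ∈ Complex.slitPlane := by
  left
  have h := re_lb z (min 1 (1 - z.re)) θ (min_le_left _ _)
    (by linarith [min_le_right 1 (1 - z.re)])
  exact lt_of_lt_of_le (lt_min one_pos (by linarith)) h

theorem cont (w : ℝ → ℝ) (hw : Continuous w) (z : ℂ) (hz : z.re < 1) : Continuous (g w z) := by
  unfold g
  refine (Complex.continuous_ofReal.comp hw).mul ?_
  refine Continuous.cpow ?_ continuous_const fun θ => slit z θ hz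
  refine continuous_const.sub (continuous_const.mul ?_)
  exact Complex.continuous_ofReal.comp (Real.continuous_sin.pow 2)

theorem cont' (w : ℝ → ℝ) (hw : Continuous w) (z : ℂ) (hz : z.re < 1) : Continuous (g' w z) := by
  unfold g'
  have hs : Continuous fun θ : ℝ => ((Real.sin θ ^ 2 : ℝ) : ℂ) :=
    Complex.continuous_ofReal.comp (Real.continuous_sin.pow 2)
  refine (Complex.continuous_ofReal.comp hw).mul ((continuous_const.mul ?_).mul hs.neg)
  refine Continuous.cpow ?_ continuous_const fun θ => slit z θ hz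
  exact continuous_const.sub (continuous_const.mul hs)

theorem der (w : ℝ → ℝ) (z : ℂ) (θ : ℝ) (hz : z.re < 1) :
    HasDerivAt (fun z => g w z θ) (g' w z θ) z := by
  unfold g g'
  refine HasDerivAt.const_mul _ ?_
  have h1 : HasDerivAt (fun z : ℂ => 1 - z * ((Real.sin θ ^ 2 : ℝ) : ℂ))
      (-((Real.sin θ ^ 2 : ℝ) : ℂ)) z := by
    have h2 := ((hasDerivAt_id z).mul_const ((Real.sin θ ^ 2 : ℝ) : ℂ)).const_sub 1
    simpa using h2
  exact h1.cpow_const (slit z θ hz)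

theorem bnd (w : ℝ → ℝ) (z : ℂ) (d θ : ℝ) (hd : 0 < d) (hd1 : d ≤ 1) (hz : z.re ≤ 1 - d) :
    ‖g' w z θ‖ ≤ |w θ| * d ^ (-(3 / 2) : ℝ) := by
  have h1 := re_lb z d θ hd1 hz
  have h2 : d ≤ ‖1 - z * ((Real.sin θ ^ 2 : ℝ) : ℂ)‖ := h1.trans (Complex.re_le_norm _)
  have h3 : (1 - z * ((Real.sin θ ^ 2 : ℝ) : ℂ)) ≠ 0 := by
    rw [← norm_pos_iff]
    exact hd.trans_le h2
  have h4 : ‖(1 - z * ((Real.sin θ ^ 2 : ℝ) : ℂ)) ^ (-(1 / 2) - 1 : ℂ)‖ ≤ d ^ (-(3 / 2) : ℝ) := by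
    have e : (-(1 / 2) - 1 : ℂ) = ((-(3 / 2) : ℝ) : ℂ) := by
      push_cast
      norm_num
    rw [e, Complex.norm_cpow_of_ne_zero h3, Complex.ofReal_im, mul_zero, Real.exp_zero, div_one,
      Complex.ofReal_re]
    exact Real.rpow_le_rpow_of_nonpos hd h2 (by norm_num)
  unfold g'
  rw [norm_mul, norm_mul, norm_mul, norm_neg, norm_neg, Complex.norm_real, Complex.norm_real,
    Real.norm_eq_abs, Real.norm_eq_abs]
  refine mul_le_mul_of_nonneg_left ?_ (abs_nonneg _)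
  have h5 : |Real.sin θ ^ 2| ≤ 1 := by
    rw [abs_of_nonneg (sq_nonneg _)]
    exact Real.sin_sq_le_one θ
  have h6 : ‖(1 / 2 : ℂ)‖ ≤ 1 := by
    norm_num
  have h7 := norm_nonneg ((1 - z * ((Real.sin θ ^ 2 : ℝ) : ℂ)) ^ (-(1 / 2) - 1 : ℂ))
  calc ‖(1 / 2 : ℂ)‖ * ‖(1 - z * ((Real.sin θ ^ 2 : ℝ) : ℂ)) ^ (-(1 / 2) - 1 : ℂ)‖ *
        |Real.sin θ ^ 2|
      ≤ 1 * ‖(1 - z * ((Real.sin θ ^ 2 : ℝ) : ℂ)) ^ (-(1 / 2) - 1 : ℂ)‖ * 1 := by gcongr
    _ = ‖(1 - z * ((Real.sin θ ^ 2 : ℝ) : ℂ)) ^ (-(1 / 2) - 1 : ℂ)‖ := by ring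
    _ ≤ _ := h4

theorem hder (w : ℝ → ℝ) (hw : Continuous w) (z₀ : ℂ) (hz : z₀.re < 1) :
    HasDerivAt (fun z => ∫ θ in (0 : ℝ)..(Real.pi / 2), g w z θ)
      (∫ θ in (0 : ℝ)..(Real.pi / 2), g' w z₀ θ) z₀ := by
  obtain ⟨d, hd⟩ : ∃ d : ℝ, d = min 1 ((1 - z₀.re) / 2) := ⟨_, rfl⟩
  have hd0 : 0 < d := hd ▸ lt_min one_pos (by linarith)
  have hd1 : d ≤ 1 := hd ▸ min_le_left _ _
  have hd2 : d ≤ (1 - z₀.re) / 2 := hd ▸ min_le_right _ _
  have hball : ∀ z ∈ Metric.ball z₀ d, z.re ≤ 1 - d := by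
    intro z hz'
    rw [Metric.mem_ball, dist_eq_norm] at hz'
    have h1 := Complex.re_le_norm (z - z₀)
    rw [Complex.sub_re] at h1
    linarith
  refine (intervalIntegral.hasDerivAt_integral_of_dominated_loc_of_deriv_le
    (F := g w) (F' := g' w) (s := Metric.ball z₀ d)
    (bound := fun θ => |w θ| * d ^ (-(3 / 2) : ℝ)) (Metric.ball_mem_nhds z₀ hd0)
    ?_ ?_ ?_ ?_ ?_ ?_).2
  · filter_upwards [Metric.ball_mem_nhds z₀ hd0] with z hz'
    exact (cont w hw z (by linarith [hball z hz'])).aestronglyMeasurable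
  · exact (cont w hw z₀ hz).intervalIntegrable _ _
  · exact (cont' w hw z₀ hz).aestronglyMeasurable
  · exact Filter.Eventually.of_forall fun θ _ z hz' => bnd w z d θ hd0 hd1 (hball z hz')
  · exact ((hw.abs).mul continuous_const).intervalIntegrable _ _
  · exact Filter.Eventually.of_forall fun θ _ z hz' =>
      der w z θ (by linarith [hball z hz'])

theorem pos_arg (m θ : ℝ) (hm : m < 1) : 0 < 1 - m * Real.sin θ ^ 2 := by
  have h := re_lb (m : ℂ) (min 1 (1 - m)) θ (min_le_left _ _)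
    (by rw [Complex.ofReal_re]; linarith [min_le_right 1 (1 - m)])
  rw [re_eq, Complex.ofReal_re] at h
  exact lt_of_lt_of_le (lt_min one_pos (by linarith)) h

theorem g_real (w : ℝ → ℝ) (m θ : ℝ) (hm : m < 1) :
    g w (m : ℂ) θ = ((w θ / √(1 - m * Real.sin θ ^ 2) : ℝ) : ℂ) := by
  have h := pos_arg m θ hm
  unfold g
  have e : (1 - (m : ℂ) * ((Real.sin θ ^ 2 : ℝ) : ℂ)) ^ (-(1 / 2) : ℂ) =
      (((1 - m * Real.sin θ ^ 2) ^ (-(1 / 2) : ℝ) : ℝ) : ℂ) := by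
    rw [Complex.ofReal_cpow h.le]
    push_cast
    rfl
  rw [e, Real.rpow_neg h.le, ← Real.sqrt_eq_rpow, div_eq_mul_inv]
  push_cast
  rfl

theorem int_real (w : ℝ → ℝ) (m : ℝ) (hm : m < 1) :
    (∫ θ in (0 : ℝ)..(Real.pi / 2), g w (m : ℂ) θ).re =
      ∫ θ in (0 : ℝ)..(Real.pi / 2), w θ / √(1 - m * Real.sin θ ^ 2) := by
  have e : (∫ θ in (0 : ℝ)..(Real.pi / 2), g w (m : ℂ) θ) =
      ((∫ θ in (0 : ℝ)..(Real.pi / 2), w θ / √(1 - m * Real.sin θ ^ 2) : ℝ) : ℂ) := by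
    rw [← intervalIntegral.integral_ofReal]
    exact intervalIntegral.integral_congr fun θ _ => g_real w m θ hm
  rw [e, Complex.ofReal_re]

theorem ana (w : ℝ → ℝ) (hw : Continuous w) :
    AnalyticOnNhd ℝ (fun m : ℝ => ∫ θ in (0 : ℝ)..(Real.pi / 2), w θ / √(1 - m * Real.sin θ ^ 2))
      (Set.Iio 1) := by
  have hopen : IsOpen {z : ℂ | z.re < 1} := isOpen_lt Complex.continuous_re continuous_const
  have hd : DifferentiableOn ℂ (fun z => ∫ θ in (0 : ℝ)..(Real.pi / 2), g w z θ)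
      {z : ℂ | z.re < 1} := fun z hz => (hder w hw z hz).differentiableAt.differentiableWithinAt
  have ha := hd.analyticOnNhd hopen
  intro m hm
  have h1 : AnalyticAt ℂ (fun z => ∫ θ in (0 : ℝ)..(Real.pi / 2), g w z θ) (m : ℂ) :=
    ha (m : ℂ) (by simpa using hm)
  refine h1.re_ofReal.congr ?_
  filter_upwards [isOpen_Iio.mem_nhds hm] with x hx
  exact int_real w x hx

theorem der0 (w : ℝ → ℝ) (hw : Continuous w) :
    HasDerivAt (fun m : ℝ => ∫ θ in (0 : ℝ)..(Real.pi / 2), w θ / √(1 - m * Real.sin θ ^ 2))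
      ((∫ θ in (0 : ℝ)..(Real.pi / 2), w θ * Real.sin θ ^ 2) / 2) 0 := by
  have h0 : ((0 : ℝ) : ℂ).re < 1 := by simp
  have h1 := (hder w hw ((0 : ℝ) : ℂ) h0).real_of_complex
  have e : (∫ θ in (0 : ℝ)..(Real.pi / 2), g' w ((0 : ℝ) : ℂ) θ) =
      (((∫ θ in (0 : ℝ)..(Real.pi / 2), w θ * Real.sin θ ^ 2) / 2 : ℝ) : ℂ) := by
    rw [← intervalIntegral.integral_div, ← intervalIntegral.integral_ofReal]
    refine intervalIntegral.integral_congr fun θ _ => ?_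
    unfold g'
    simp only [Complex.ofReal_zero, zero_mul, sub_zero, Complex.one_cpow]
    push_cast
    ring
  rw [e, Complex.ofReal_re] at h1
  refine h1.congr_of_eventuallyEq ?_
  filter_upwards [isOpen_Iio.mem_nhds (show (0 : ℝ) < 1 by norm_num)] with x hx
  exact (int_real w x hx).symm

theorem cr (w : ℝ → ℝ) (hw : Continuous w) (m : ℝ) (hm : m < 1) :
    Continuous fun θ : ℝ => w θ / √(1 - m * Real.sin θ ^ 2) := by
  refine hw.div ?_ fun θ => (Real.sqrt_pos.2 (pos_arg m θ hm)).ne'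
  fun_prop

end Q1x

theorem thm_Q1 : St_Q1 := by
  have cs : Continuous fun θ : ℝ => Real.sin θ ^ 2 := Real.continuous_sin.pow 2
  have cc : Continuous fun θ : ℝ => Real.cos θ ^ 2 := Real.continuous_cos.pow 2
  have hpi := Real.pi_pos
  have i1 : ∫ θ in (0 : ℝ)..(Real.pi / 2), Real.sin θ ^ 2 = Real.pi / 4 := by
    rw [integral_sin_sq]
    simp
    ring
  have i2 : ∫ θ in (0 : ℝ)..(Real.pi / 2), Real.cos θ ^ 2 = Real.pi / 4 := by
    rw [integral_cos_sq]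
    simp
    ring
  have i3 : ∫ θ in (0 : ℝ)..(Real.pi / 2), Real.cos θ ^ 2 * Real.sin θ ^ 2 = Real.pi / 16 := by
    have e : (fun θ : ℝ => Real.cos θ ^ 2 * Real.sin θ ^ 2) =
        fun θ => Real.sin θ ^ 2 * Real.cos θ ^ 2 := by
      funext θ
      ring
    rw [e, integral_sin_sq_mul_cos_sq]
    have e1 : 4 * (Real.pi / 2) = 2 * Real.pi := by ring
    rw [e1, Real.sin_two_pi, mul_zero, Real.sin_zero]
    ring
  have i4 : ∫ θ in (0 : ℝ)..(Real.pi / 2), Real.sin θ ^ 2 * Real.sin θ ^ 2 =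
      3 * Real.pi / 16 := by
    have e : (fun θ : ℝ => Real.sin θ ^ 2 * Real.sin θ ^ 2) =
        fun θ => Real.sin θ ^ 2 - Real.cos θ ^ 2 * Real.sin θ ^ 2 := by
      funext θ
      have h := Real.sin_sq_add_cos_sq θ
      have h1 : Real.cos θ ^ 2 = 1 - Real.sin θ ^ 2 := by linarith
      rw [h1]
      ring
    have c3 : Continuous fun θ : ℝ => Real.cos θ ^ 2 * Real.sin θ ^ 2 := cc.mul cs
    rw [e, intervalIntegral.integral_sub (cs.intervalIntegrable _ _)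
      (c3.intervalIntegrable _ _), i1, i3]
    ring
  refine ⟨Q1x.ana _ cs, Q1x.ana _ cc, ?_, ?_, ?_, ?_, ?_, ?_⟩
  · intro m hm
    constructor
    · refine intervalIntegral.intervalIntegral_pos_of_pos_on
        ((Q1x.cr _ cs m hm).intervalIntegrable _ _) ?_ (by positivity)
      intro θ hθ
      have h1 := Real.sin_pos_of_pos_of_lt_pi hθ.1 (by linarith [hθ.2])
      have h2 := Real.sqrt_pos.2 (Q1x.pos_arg m θ hm)
      positivity
    · refine intervalIntegral.intervalIntegral_pos_of_pos_on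
        ((Q1x.cr _ cc m hm).intervalIntegrable _ _) ?_ (by positivity)
      intro θ hθ
      have h1 := Real.cos_pos_of_mem_Ioo (⟨by linarith [hθ.1], hθ.2⟩ :
        θ ∈ Set.Ioo (-(Real.pi / 2)) (Real.pi / 2))
      have h2 := Real.sqrt_pos.2 (Q1x.pos_arg m θ hm)
      positivity
  · intro m hm hm0
    have key : ∀ w : ℝ → ℝ, Continuous w → (∀ θ, 0 ≤ w θ) →
        ∫ θ in (0 : ℝ)..(Real.pi / 2), w θ ≤
          ∫ θ in (0 : ℝ)..(Real.pi / 2), w θ / √(1 - m * Real.sin θ ^ 2) := by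
      intro w hw h0
      refine intervalIntegral.integral_mono_on (by positivity) (hw.intervalIntegrable _ _)
        ((Q1x.cr w hw m hm).intervalIntegrable _ _) fun θ _ => ?_
      have h1 := Real.sqrt_pos.2 (Q1x.pos_arg m θ hm)
      rw [le_div_iff₀ h1]
      have h2 : √(1 - m * Real.sin θ ^ 2) ≤ 1 := by
        rw [Real.sqrt_le_one]
        have h3 := mul_nonneg hm0 (sq_nonneg (Real.sin θ))
        linarith
      exact mul_le_of_le_one_right (h0 θ) h2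
    constructor
    · rw [← i1]
      exact key _ cs fun θ => sq_nonneg _
    · rw [← i2]
      exact key _ cc fun θ => sq_nonneg _
  · unfold eP
    simp only [zero_mul, sub_zero, Real.sqrt_one, div_one]
    exact i1
  · unfold eQ
    simp only [zero_mul, sub_zero, Real.sqrt_one, div_one]
    exact i2
  · have h := Q1x.der0 _ cs
    rw [i4] at h
    have e : 3 * Real.pi / 16 / 2 = 3 * Real.pi / 32 := by ring
    rw [e] at h
    exact h
  · have h := Q1x.der0 _ cc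
    rw [i3] at h
    have e : Real.pi / 16 / 2 = Real.pi / 32 := by ring
    rw [e] at h
    exact h

end Pool.Agent.FUE
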