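import Pool.Agent.FUE.RgSt

/-!
# FUE, regularity: ellipticity from the determinant
-/

set_option autoImplicit false

open scoped ContDiff
open Metric

namespace Pool.Agent.FUE.Rg

theorem ell_cof {L a b c d : ℝ} (hL : 0 ≤ L) (ha : |a| ≤ L) (hb : |b| ≤ L) (hc : |c| ≤ L)
    (hd : |d| ≤ L) : (a * b - c * d) ^ 2 ≤ 4 * L ^ 4 := by
  have h1 : |a * b| ≤ L * L := by
    rw [abs_mul]; exact mul_le_mul ha hb (abs_nonneg _) hL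
  have h2 : |c * d| ≤ L * L := by
    rw [abs_mul]; exact mul_le_mul hc hd (abs_nonneg _) hL
  have h3 : |a * b - c * d| ≤ 2 * L ^ 2 := by
    have h4 := abs_sub (a * b) (c * d)
    nlinarith
  have h5 : (a * b - c * d) ^ 2 ≤ (2 * L ^ 2) ^ 2 := by
    rw [← sq_abs]
    exact pow_le_pow_left₀ (abs_nonneg _) h3 2
  calc (a * b - c * d) ^ 2 ≤ (2 * L ^ 2) ^ 2 := h5
    _ = 4 * L ^ 4 := by ring

theorem ell_row {L δ D x y0 y1 y2 c0 c1 c2 : ℝ} (hδ : 0 < δ) (hD : δ ≤ |D|)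
    (h0 : c0 ^ 2 ≤ 4 * L ^ 4) (h1 : c1 ^ 2 ≤ 4 * L ^ 4) (h2 : c2 ^ 2 ≤ 4 * L ^ 4)
    (h : D * x = c0 * y0 + c1 * y1 + c2 * y2) :
    δ ^ 2 * x ^ 2 ≤ 12 * L ^ 4 * (y0 ^ 2 + y1 ^ 2 + y2 ^ 2) := by
  have hDD : δ ^ 2 ≤ D ^ 2 := by
    rw [← sq_abs D]
    exact pow_le_pow_left₀ hδ.le hD 2
  have e1 : δ ^ 2 * x ^ 2 ≤ D ^ 2 * x ^ 2 := mul_le_mul_of_nonneg_right hDD (sq_nonneg x)
  have e2 : D ^ 2 * x ^ 2 = (c0 * y0 + c1 * y1 + c2 * y2) ^ 2 := by rw [← h]; ring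
  have e3 : (c0 * y0 + c1 * y1 + c2 * y2) ^ 2 ≤
      (c0 ^ 2 + c1 ^ 2 + c2 ^ 2) * (y0 ^ 2 + y1 ^ 2 + y2 ^ 2) := by
    nlinarith [sq_nonneg (c0 * y1 - c1 * y0), sq_nonneg (c0 * y2 - c2 * y0),
      sq_nonneg (c1 * y2 - c2 * y1)]
  have e4 : (c0 ^ 2 + c1 ^ 2 + c2 ^ 2) * (y0 ^ 2 + y1 ^ 2 + y2 ^ 2) ≤
      12 * L ^ 4 * (y0 ^ 2 + y1 ^ 2 + y2 ^ 2) := by
    refine mul_le_mul_of_nonneg_right ?_ (by positivity)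
    linarith
  linarith

theorem thm_Ell : St_Ell := by
  intro δ Λ hδ
  obtain ⟨L, hL0, hΛ⟩ : ∃ L : ℝ, 0 < L ∧ Λ ≤ L := ⟨|Λ| + 1, by positivity,
    (le_abs_self Λ).trans (by linarith)⟩
  refine ⟨δ ^ 2 / (36 * L ^ 4), by positivity, fun B hB hdet ξ => ?_⟩
  have hb : ∀ a i, |B a i| ≤ L := fun a i => (hB a i).trans hΛ
  have hc : ∀ a i b j c k d l, (B a i * B b j - B c k * B d l) ^ 2 ≤ 4 * L ^ 4 :=
    fun a i b j c k d l => ell_cof hL0.le (hb _ _) (hb _ _) (hb _ _) (hb _ _)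
  simp only [Fin.sum_univ_three]
  rw [Matrix.det_fin_three] at hdet
  set y0 := B 0 0 * ξ 0 + B 0 1 * ξ 1 + B 0 2 * ξ 2 with hy0
  set y1 := B 1 0 * ξ 0 + B 1 1 * ξ 1 + B 1 2 * ξ 2 with hy1
  set y2 := B 2 0 * ξ 0 + B 2 1 * ξ 1 + B 2 2 * ξ 2 with hy2
  have r0 := ell_row (x := ξ 0) (y0 := y0) (y1 := y1) (y2 := y2) hδ hdet
    (hc 1 1 2 2 1 2 2 1) (hc 0 2 2 1 0 1 2 2) (hc 0 1 1 2 0 2 1 1)
    (by rw [hy0, hy1, hy2]; ring)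
  have r1 := ell_row (x := ξ 1) (y0 := y0) (y1 := y1) (y2 := y2) hδ hdet
    (hc 1 2 2 0 1 0 2 2) (hc 0 0 2 2 0 2 2 0) (hc 0 2 1 0 0 0 1 2)
    (by rw [hy0, hy1, hy2]; ring)
  have r2 := ell_row (x := ξ 2) (y0 := y0) (y1 := y1) (y2 := y2) hδ hdet
    (hc 1 0 2 1 1 1 2 0) (hc 0 1 2 0 0 0 2 1) (hc 0 0 1 1 0 1 1 0)
    (by rw [hy0, hy1, hy2]; ring)
  have hpos : (0 : ℝ) < 36 * L ^ 4 := by positivity
  rw [div_mul_eq_mul_div, div_le_iff₀ hpos]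
  nlinarith

end Pool.Agent.FUE.Rg
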