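import Pool.Agent.FUE.StX

/-!
# Fueter sections: statements, block C (the round three-sphere and its quotients)

`F.Round`: the structure functions are those of the left invariant orthonormal frame
`[e_i, e_{i+1}] = 2 e_{i+2}` of the unit sphere `S³ = SU(2)` (curvature one).  The Fueter sections
are exactly the Hopf line fields: sections with values in the bolt (`u = 2 ξ ξᵀ`), with `ξ` parallel
for one of the two flat metric connections `D` and `D + 2 e_i ×`.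
-/

set_option autoImplicit false

open scoped Manifold ContDiff Matrix
open MeasureTheory

namespace Pool.Agent.FUE

/-- Levi-Civita symbol -/
def eps (i j k : Fin 3) : ℝ :=
  if j = i + 1 ∧ k = i + 2 then 1 else if j = i + 2 ∧ k = i + 1 then -1 else 0

section manifold

variable {M : Type} [TopologicalSpace M] [ChartedSpace E3 M] [IsManifold (𝓡 3) ∞ M]

/-- The structure functions of the left invariant orthonormal frame of the unit three-sphere: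
`[e_0, e_1] = 2 e_2`, `[e_1, e_2] = 2 e_0`, `[e_2, e_0] = 2 e_1`. -/
def Frame.Round (F : Frame M) : Prop := ∀ i j k x, F.c i j k x = 2 * eps i j k

/-- `-(1/2) ξ · curl ξ` for `u = 2 ξ ξᵀ` -/
noncomputable def Frame.pg (F : Frame M) (u : M → V9) (x : M) : ℝ :=
  -(1 / 8) * ∑ j, ∑ n, ∑ k, eps j n k * (toM (u x) * F.cov n u x) j k

/-- `(1/2) |∇ ξ|^2` for `u = 2 ξ ξᵀ` -/
noncomputable def Frame.mg (F : Frame M) (u : M → V9) (x : M) : ℝ :=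
  (1 / 16) * ∑ n, ∑ i, ∑ j, (F.cov n u x i j) ^ 2

end manifold

/-- **[C1] curvature one.**  `conn i = (eps_ijk)_{kj} = hat e_i`; `curv i j = [hat e_i, hat e_j] -
2 hat(e_i × e_j) = -hat(e_i × e_j)` (the derivatives of the constant entries vanish),
`ric = 2`, `G = -1`: `∑_nl R_ni R_li (2 δ - 3 δ) = -1`. -/
def St_C1 : Prop :=
  ∀ (M : Type) [TopologicalSpace M] [ChartedSpace E3 M] [IsManifold (𝓡 3) ∞ M] (F : Frame M),
    F.Round → (∀ i x, F.conn i x = hat (Pi.single i 1)) ∧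
      (∀ j l x, F.ric j l x = if j = l then 2 else 0) ∧
      ∀ R : Matrix (Fin 3) (Fin 3) ℝ, IsRot R → ∀ i x, ein (fun j l => F.ric j l x) R i = -1

/-- **[C2] values in the bolt.**  At a maximum point `x` of the trace (`M` compact; `M` empty is
trivial) suppose `tt (u x) > 0`: [X3], [C1] give `0 ≤ -(a+b+c)`, contradicting `a+b+c > 0` ([A02]).
So `tt (u z) ≤ tt (u x) ≤ 0` and `tt ≥ 0` on `AH`. -/
def St_C2 : Prop :=
  ∀ (pr : Profile) (M : Type) [TopologicalSpace M] [ChartedSpace E3 M] [IsManifold (𝓡 3) ∞ M]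
    [CompactSpace M] (F : Frame M), F.Round → ∀ u : M → V9, F.IsFueter pr u → ∀ x, tt (u x) = 0

/-- body frame: columns of `R` in the frame `B` -/
noncomputable def bf (B : Fin 3 → E3 → E3) (R : E3 → Matrix (Fin 3) (Fin 3) ℝ) (a : Fin 3)
    (z : E3) : E3 := ∑ j, R z j a • B j z

/-- The relations at `z` of a bolt valued Fueter map in curvature one: `∇_v ξ = q v - p ξ × v` on
`ξ^⊥`, `ξ = R e_0`. -/
def Rel (B : Fin 3 → E3 → E3) (R : E3 → Matrix (Fin 3) (Fin 3) ℝ) (p q w1 w2 : E3 → ℝ)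
    (z : E3) : Prop :=
  IsRot (R z) ∧ Dl (bf B R 0) p z = -(2 * p z * q z) ∧ Dl (bf B R 0) q z = p z ^ 2 - q z ^ 2 - 1 ∧
    Dl (bf B R 2) q z = Dl (bf B R 1) p z ∧ Dl (bf B R 2) p z = -Dl (bf B R 1) q z ∧
    VectorField.lieBracket ℝ (bf B R 1) (bf B R 2) z =
      (2 * p z) • bf B R 0 z - w1 z • bf B R 1 z - w2 z • bf B R 2 z

/-- **[C3] local structure.**  `u = 2 L`, `L` a smooth rank one projection; `R` smooth: columns
`ξ = L v0/|L v0|`, `E2` = normalised projection to `ξ^⊥` of a fixed vector, `ξ × E2`.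
`hat(Om_j) = Rᵀ (D_j R + hat(e_j) R)`, `D_j = Dl (B j)`, so `cov_j u = R [hat Om_j, D_0] Rᵀ =
R (Om_j2 T2 + Om_j3 T3) Rᵀ` (`Dg 0 = diag(2,0,0)`, `Tb 0 2 = -2 E13`, `Tb 0 3 = 2 E12`).  Body
components `Omh_a = ∑_j R_ja Om_j`.  The Fueter equation at `s = 0` ([A12] last part, `b = π`,
`c = -π`, `al = 2`) says `Omh_1 = (w0, 0, 0)`, `Omh_2 = (w1, p, q)`, `Omh_3 = (w2, -q, p)`.
`D_j Om_m - D_m Om_j = -Om_j × Om_m + ∑_k 2 eps_jmk Om_k - Rᵀ(e_j × e_m)` (as in [X2]), in the body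
frame `E_a = bf B R a`: `E_a Omh_b - E_b Omh_a = -Omh_a × Omh_b + ∑_c n_abc Omh_c - e_a × e_b` with
`[E_a, E_b] = ∑_c n_abc E_c`, `n_ab = Omh_a × e_b - Omh_b × e_a`.  So
`[E_2, E_3] = 2p E_1 - w1 E_2 - w2 E_3`, `[E_1, E_2] = -q E_2 + (w0 + p) E_3`,
`[E_1, E_3] = -(w0 + p) E_2 - q E_3` and: `(a,b) = (1,2)`: `E_1 p = -2pq`, `E_1 q = p²-q²-1`;
`(2,3)`: `E_3 p = -E_2 q`, `E_3 q = E_2 p` (indices 1,2,3 here are 0,1,2 in Lean). -/
def St_C3 : Prop :=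
  ∀ (pr : Profile) (U : Set E3) (B : Fin 3 → E3 → E3) (u : E3 → V9) (y : E3), IsOpen U → y ∈ U →
    (∀ i, ContDiffOn ℝ ∞ (B i) U) →
    (∀ i j, ∀ z ∈ U, VectorField.lieBracket ℝ (B i) (B j) z = ∑ k, (2 * eps i j k) • B k z) →
    LocF pr U B (fun i _ => ofM (hat (Pi.single i 1))) u → (∀ z ∈ U, tt (u z) = 0) →
    ∃ (R : E3 → Matrix (Fin 3) (Fin 3) ℝ) (p q w1 w2 : E3 → ℝ),
      (∀ i j, ContDiffAt ℝ ∞ (fun z => R z i j) y) ∧ ContDiffAt ℝ ∞ p y ∧ ContDiffAt ℝ ∞ q y ∧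
      ∀ᶠ z in nhds y, toM (u z) = R z * Dg 0 * (R z)ᵀ ∧ Rel B R p q w1 w2 z ∧
        ∀ j, toM (fderiv ℝ u z (B j z)) +
          (hat (Pi.single j 1) * toM (u z) - toM (u z) * hat (Pi.single j 1)) =
          R z * (R z j 1 • (p z • Tb 0 2 + q z • Tb 0 3) +
            R z j 2 • (-(q z) • Tb 0 2 + p z • Tb 0 3)) * (R z)ᵀ

/-- **[C4] maximum principles.**  Write `E_a = bf B R a` (`a = 0,1,2`), `Dl (E_a) f = E_a f`.  At a
local maximum `y` of a function `K` smooth near `y`: `fderiv K y = 0`, `E_a E_a K (y) ≤ 0` ([Mf3]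
`snd_le`).  (a) `J = (1+p²+q²)/(2p)`, `K = J²`, `J ≠ 0`: so `E_a J = 0` at `y` and
`0 ≥ ∑_{a=1,2} E_a E_a K = 2 J ∑_{a=1,2} E_a E_a J`.  With `E_2 q = E_1 p`, `E_2 p = -E_1 q` near `y`
and the bracket of `E_1, E_2`: `∑_{a=1,2} E_a E_a q = -[E_1,E_2] p`, `∑ E_a E_a p = [E_1,E_2] q`,
so at `y` (the `w` terms are multiples of `E_2 J`, `E_1 J`)
`∑ E_a E_a J = 2p (J_p E_0 q - J_q E_0 p) + (J_pp + J_qq) e`, `e = (E_1 p)² + (E_1 q)²`, equal to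
`((p²-1-q²)² + 4p²q²)/p + ((1+p²+q²)/p³) e`; times `J`: `(1+p²+q²)/(2p²)` times
`(p²-1-q²)² + 4p²q² + (1+p²+q²) e/p² ≥ 0`, so `p² - 1 - q² = 0`, `pq = 0`.
(b) `κ = 2p/(1+p²+q²)` satisfies `E_0 κ = 0` near `y`; so `E_0 Ψ = 2q(p²-q²-1)`, zero at `y`, hence
`q = 0` there (`p² < 1`), and `E_0 E_0 Ψ = 2 (p²-1)² > 0`, contradiction. -/
def St_C4 : Prop :=
  ∀ (B : Fin 3 → E3 → E3) (R : E3 → Matrix (Fin 3) (Fin 3) ℝ) (p q w1 w2 : E3 → ℝ) (y : E3),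
    (∀ i, ContDiffAt ℝ ∞ (B i) y) → (∀ i j, ContDiffAt ℝ ∞ (fun z => R z i j) y) →
    ContDiffAt ℝ ∞ p y → ContDiffAt ℝ ∞ q y → (∀ᶠ z in nhds y, Rel B R p q w1 w2 z) →
    (p y ≠ 0 → IsLocalMax (fun z => ((1 + p z ^ 2 + q z ^ 2) / (2 * p z)) ^ 2) y →
      q y = 0 ∧ p y ^ 2 = 1) ∧
    ∀ C : ℝ, p y ^ 2 < 1 →
      ¬ IsLocalMax (fun z => q z ^ 2 - C * (2 * p z / (1 + p z ^ 2 + q z ^ 2)) ^ 2) y

/-- **[C5] the functions `pg`, `mg` on `M`.**  In the chart at `x` ([Mf1] `D_chart`; bracket relation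
at all points of the chart target, [Mf6] `bracket_chart_all`): [C3] at the centre.  Then near the
centre `pg = p`, `mg = p² + q²` (finite computations with `R` a rotation:
`∑_jnk eps_jnk R_j0 R_n2 R_k1 = -1` etc.), and [C4].  Last part: `q = 0`, `[hat e_j, R D_0 Rᵀ] =
R [hat(Rᵀ e_j), D_0] Rᵀ = R (R_j1 T2 + R_j2 T3) Rᵀ`. -/
def St_C5 : Prop :=
  ∀ (pr : Profile) (M : Type) [TopologicalSpace M] [ChartedSpace E3 M] [IsManifold (𝓡 3) ∞ M]
    (F : Frame M), F.Round → ∀ u : M → V9, F.IsFueter pr u → (∀ x, tt (u x) = 0) →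
    Continuous (F.pg u) ∧ Continuous (F.mg u) ∧ (∀ x, F.pg u x ^ 2 ≤ F.mg u x) ∧
    (∀ x, F.pg u x ≠ 0 → IsLocalMax (fun z => ((1 + F.mg u z) / (2 * F.pg u z)) ^ 2) x →
      F.mg u x = 1 ∧ F.pg u x ^ 2 = 1) ∧
    (∀ (C : ℝ) (x : M), F.pg u x ^ 2 < 1 → ¬ IsLocalMax (fun z => F.mg u z - F.pg u z ^ 2 -
      C * (2 * F.pg u z / (1 + F.mg u z)) ^ 2) x) ∧
    ∀ x, F.mg u x = F.pg u x ^ 2 → ∀ j, F.cov j u x =
      F.pg u x • (hat (Pi.single j 1) * toM (u x) - toM (u x) * hat (Pi.single j 1))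

/-- **[C6] classification.**  `Q` = maximum of `mg`.  (i) `pg ≠ 0` everywhere: if `pg z = 0`, let
`C = (1+Q)³`, `x` a maximum point of `mg - pg² - C (2 pg/(1+mg))²`; its value is `≥ mg z ≥ 0`, so
`pg(x)² ≤ Q (1+Q)²/(4C) < 1`, contradiction to [C5].  (ii) `K = ((1+mg)/(2pg))² ≥ 1` is continuous; at
its maximum point it equals `1` ([C5]), so `K = 1`, `(1 - |pg|)² + (mg - pg²) = 0`: `|pg| = 1 = mg`
everywhere, and `pg` is constant as `M` is connected.  (iii) `D_j u = cov_j u - [hat e_j, u] =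
(pg - 1) [hat e_j, u]`, `conn j = hat e_j` ([C1]).  (`M` empty: trivial.) -/
def St_C6 : Prop :=
  ∀ (pr : Profile) (M : Type) [TopologicalSpace M] [ChartedSpace E3 M] [IsManifold (𝓡 3) ∞ M]
    [CompactSpace M] [PreconnectedSpace M] (F : Frame M), F.Round → ∀ u : M → V9,
    F.IsFueter pr u → (∀ i x, toM (F.D i u x) = 0) ∨
      ∀ i x, toM (F.D i u x) = (-2 : ℝ) • (F.conn i x * toM (u x) - toM (u x) * F.conn i x)

/-- **[C7] converse.**  `cov_j u = σ [hat e_j, u]`, `σ = ±1`.  `u x = R D_0 Rᵀ`,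
`[hat e_j, u] = R (R_j1 T2 + R_j2 T3) Rᵀ`, `h_j = σ (0, 0, R_j1, R_j2)`, body vectors `g_0 = 0`,
`g_1 = σ (0,0,1,0)`, `g_2 = σ (0,0,0,1)`, and `I_1 g_1 + I_2 g_2 = -σ (b + c) = 0` at `s = 0`. -/
def St_C7 : Prop :=
  ∀ (pr : Profile) (M : Type) [TopologicalSpace M] [ChartedSpace E3 M] [IsManifold (𝓡 3) ∞ M]
    (F : Frame M), F.Round → ∀ u : M → V9, ContMDiff (𝓡 3) 𝓘(ℝ, V9) ∞ u →
    (∀ x, u x ∈ AH ∧ (toM (u x)).trace = 2) →
    ((∀ i x, toM (F.D i u x) = 0) ∨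
      ∀ i x, toM (F.D i u x) = (-2 : ℝ) • (F.conn i x * toM (u x) - toM (u x) * F.conn i x)) →
    F.IsFueter pr u

end Pool.Agent.FUE
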