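import Pool.Agent.FUE.StA

/-!
# Fueter sections: statements, block F (flat case: energy, Gaussian monotonicity, line lemma)

Paper: /team-store/FUE_paper.md, Section 3.
-/

set_option autoImplicit false

open scoped Manifold ContDiff Matrix
open MeasureTheory

namespace Pool.Agent.FUE

/-- **[F01] pull back of `omega = d theta`.**  `tu l b y = th (u y) pr (toM (du u y b)) l` is smooth
([A07]); `∂_a (tu l b) = D_P th[∂_a u](∂_b u) + th(u)(∂_a ∂_b u)` (linearity in `H`), and the second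
term is symmetric in `a, b`. -/
def St_F01 : Prop :=
  ∀ (pr : Profile) (U : Set E3) (u : E3 → V9), IsOpen U → ContDiffOn ℝ ∞ u U →
    (∀ l b, ContDiffOn ℝ ∞ (tu pr u l b) U) ∧
    (∀ x ∈ U, ∀ l a b, om (u x) pr l (du u x a) (du u x b) =
      fderiv ℝ (tu pr u l b) x (bs a) - fderiv ℝ (tu pr u l a) x (bs b)) ∧
    ∀ x ∈ U, ∀ l i, wu pr u x l i = fderiv ℝ (tu pr u l (i + 2)) x (bs (i + 1)) -
      fderiv ℝ (tu pr u l (i + 1)) x (bs (i + 2))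

/-- **[F02] bounds for flat Fueter maps.**  [A13] at every point, [A06] for tangency;
`∑_i ‖du u x i‖^2` lies between `‖fderiv u x‖^2` and `3 ‖fderiv u x‖^2`.  Also continuity of
`en`, `gu`, `wu`, `tu` (smooth by [F01]). -/
def St_F02 : Prop :=
  ∀ (pr : Profile) (S : ℝ), ∃ c C : ℝ, 0 < c ∧ 0 < C ∧ ∀ (U : Set E3) (u : E3 → V9), IsOpen U →
    Flat pr U u → (∀ x ∈ U, lam (u x) ≤ S) →
    (∀ i l, ContDiffOn ℝ ∞ (fun x => gu pr u x i l) U) ∧ ContDiffOn ℝ ∞ (en pr u) U ∧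
    (∀ i l, ContDiffOn ℝ ∞ (fun x => wu pr u x l i) U) ∧
    ∀ x ∈ U, (∀ i l, gu pr u x i l = gu pr u x l i) ∧
      (∀ i l, wu pr u x l i = gu pr u x i l - (if i = l then en pr u x / 2 else 0)) ∧
      (∀ v : E3, c * ‖fderiv ℝ u x v‖ ^ 2 ≤ gq pr u x v) ∧
      (∀ v : E3, gq pr u x v ≤ C * ‖fderiv ℝ u x v‖ ^ 2) ∧
      c * ‖fderiv ℝ u x‖ ^ 2 ≤ en pr u x ∧ en pr u x ≤ C * ‖fderiv ℝ u x‖ ^ 2 ∧
      (∀ l b, |tu pr u l b x| ≤ C * ‖fderiv ℝ u x‖) ∧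
      (∀ v w : E3, |∑ i, ∑ l, v i * w l * gu pr u x i l| ^ 2 ≤ gq pr u x v * gq pr u x w) ∧
      (∀ v w : E3, gq pr u x (v + w) ≤ 2 * gq pr u x v + 2 * gq pr u x w) ∧
      (∀ v : E3, gq pr u x v ≤ ‖v‖ ^ 2 * en pr u x)

/-- **[F03] integration by parts** (paper (W)).  For compactly supported `χ` this is
`∫ (∂_a t) χ = -∫ t ∂_a χ` and [F01].  In general multiply `χ` by `η(x/N)`, `η` a smooth bump
function equal to one near `0`, and let `N → ∞`: `wu` and `tu` are bounded ([F02], `Good`),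
dominated convergence. -/
def St_F03 : Prop :=
  ∀ (pr : Profile) (S : ℝ) (u : E3 → V9), Good pr S u → ∀ χ : E3 → ℝ, ContDiff ℝ 1 χ →
    Integrable χ → (∀ i, Integrable (fun x => fderiv ℝ χ x (bs i))) → ∀ l i,
    ∫ x, wu pr u x l i * χ x = -∫ x, (tu pr u l (i + 2) x * fderiv ℝ χ x (bs (i + 1)) -
      tu pr u l (i + 1) x * fderiv ℝ χ x (bs (i + 2)))

/-- **[F04] the stress-energy tensor is divergence free, and the energy is a divergence.**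
(a) apply [F03] to `∂_i χ`, sum over `i`: the right side is antisymmetric in the second derivatives of
`χ`.  (b) `en = -2 ∑_k wu k k` ([F02]) and [F03]. -/
def St_F04 : Prop :=
  ∀ (pr : Profile) (S : ℝ) (u : E3 → V9), Good pr S u → ∀ χ : E3 → ℝ, ContDiff ℝ 2 χ →
    Integrable χ → (∀ i, Integrable (fun x => fderiv ℝ χ x (bs i))) →
    (∀ i j, Integrable (fun x => fderiv ℝ (fun y => fderiv ℝ χ y (bs i)) x (bs j))) →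
    (∀ l, ∫ x, ∑ i, wu pr u x l i * fderiv ℝ χ x (bs i) = 0) ∧
    ∫ x, en pr u x * χ x = 2 * ∫ x, ∑ k : Fin 3, (tu pr u k (k + 2) x * fderiv ℝ χ x (bs (k + 1)) -
      tu pr u k (k + 1) x * fderiv ℝ χ x (bs (k + 2)))

/-- **[F05] Gaussian monotonicity formula** (paper (Mono)).  `en` is bounded and continuous, so the
integrals converge and `Φ` may be differentiated under the integral:
`Φ' = R⁻² ∫ en (2 ‖x-y‖²/R² - 1) G`, `G = exp(-‖x-y‖²/R²)`.  [F04](a) with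
`χ = (x-y)_l G`, summed over `l`, `wu l i = gu i l - δ en/2`:
`-(1/2) ∫ en G - (2/R²) ∫ (gq(x-y) - ‖x-y‖² en / 2) G = 0`, i.e.
`∫ en G (‖x-y‖²/R² - 1/2) = (2/R²) ∫ gq(x-y) G`. -/
def St_F05 : Prop :=
  ∀ (pr : Profile) (S : ℝ) (u : E3 → V9), Good pr S u → ∀ (y : E3) (R : ℝ), 0 < R →
    Integrable (fun x => en pr u x * Real.exp (-(‖x - y‖ ^ 2 / R ^ 2))) ∧
    Integrable (fun x => gq pr u x (x - y) * Real.exp (-(‖x - y‖ ^ 2 / R ^ 2))) ∧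
    HasDerivAt (fun r => Phi pr u y r)
      (4 / R ^ 4 * ∫ x, gq pr u x (x - y) * Real.exp (-(‖x - y‖ ^ 2 / R ^ 2))) R

/-- **[F06] monotonicity.**  `gq ≥ 0` ([F02]).  Second part: for `r ∈ [R, 2R]` the Gaussian with
parameter `r` is at least the one with parameter `R`, so
`Φ(2R) - Φ(R) ≥ (∫_R^{2R} 4 r⁻⁴ dr) I = (7/6) R⁻³ I`. -/
def St_F06 : Prop :=
  ∀ (pr : Profile) (S : ℝ) (u : E3 → V9), Good pr S u → ∀ (y : E3) (R : ℝ), 0 < R →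
    0 ≤ Phi pr u y R ∧ (∀ R', R ≤ R' → Phi pr u y R ≤ Phi pr u y R') ∧
    ∫ x, gq pr u x (x - y) * Real.exp (-(‖x - y‖ ^ 2 / R ^ 2)) ≤
      R ^ 3 * (Phi pr u y (2 * R) - Phi pr u y R)

/-- **[F07] uniform energy bound** (paper (Bd)).  [F04](b) with the Gaussian `G` centred at `y`:
`∂_a G = -2 (x-y)_a R⁻² G`, `|t| ≤ C ‖Du‖ ≤ C' en^{1/2}` ([F02]); Cauchy-Schwarz:
`E := ∫ en G ≤ C'' ∫ en^{1/2} ‖x-y‖ R⁻² G ≤ C'' E^{1/2} (∫ ‖x-y‖² R⁻⁴ G)^{1/2} =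
C''' E^{1/2} R^{1/2}`, hence `E ≤ C0 R`. -/
def St_F07 : Prop :=
  ∀ (pr : Profile) (S : ℝ), ∃ C0 : ℝ, 0 < C0 ∧ ∀ u : E3 → V9, Good pr S u →
    ∀ (y : E3) (R : ℝ), 0 < R → Phi pr u y R ≤ C0

/-- The energy at infinity. -/
noncomputable def Theta (pr : Profile) (u : E3 → V9) : ℝ := ⨆ n : ℕ, Phi pr u 0 ((n : ℝ) + 1)

/-- **[F08] the energy at infinity does not depend on the centre** (paper (Sh)).  For `δ > 0`:
`‖x‖² ≤ (1+δ) ‖x-y‖² + (1+1/δ) ‖y‖²`, so `exp(-‖x-y‖²/R²) ≤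
exp(((1+1/δ)/(1+δ)) ‖y‖²/R²) exp(-‖x‖²/((1+δ) R²))` and
`Φ(y,R) ≤ Φ(y,R1) ≤ (1+δ)^{1/2} exp(C_δ ‖y‖²/R1²) Φ(0,(1+δ)^{1/2} R1)` for all `R1 ≥ R`; let
`R1 → ∞`, then `δ → 0` (bounded by [F07]). -/
def St_F08 : Prop :=
  ∀ (pr : Profile) (S : ℝ) (u : E3 → V9), Good pr S u →
    BddAbove (Set.range fun n : ℕ => Phi pr u 0 ((n : ℝ) + 1)) ∧
    (∀ (y : E3) (R : ℝ), 0 < R → Phi pr u y R ≤ Theta pr u) ∧
    Filter.Tendsto (fun R : ℝ => Phi pr u 0 R) Filter.atTop (nhds (Theta pr u))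

/-- **[F09] scaling.**  `u'(x) = u(y + ρ x)`: `du u' x j = ρ du u (y + ρ x) j`, so the Fueter
equation is preserved (multiply the coefficients by `ρ`), `om` is bilinear on the tangent vectors
(for `om`: definition and linearity of `th` in `H`), so `gu, en, gq` are multiplied by `ρ²`; change
of variables in the integral. -/
def St_F09 : Prop :=
  ∀ (pr : Profile) (S : ℝ) (u : E3 → V9) (y : E3) (ρ : ℝ), 0 < ρ → Good pr S u →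
    Good pr S (fun x => u (y + ρ • x)) ∧
    (∀ x, fderiv ℝ (fun x => u (y + ρ • x)) x = ρ • fderiv ℝ u (y + ρ • x)) ∧
    (∀ x v, gq pr (fun x => u (y + ρ • x)) x v = ρ ^ 2 * gq pr u (y + ρ • x) v) ∧
    (∀ x, en pr (fun x => u (y + ρ • x)) x = ρ ^ 2 * en pr u (y + ρ • x)) ∧
    ∀ z R, 0 < R → Phi pr (fun x => u (y + ρ • x)) z R = Phi pr u (y + ρ • z) (ρ * R)

/-- **[F10] the energy cannot concentrate on a line** (paper (Line)).  Write `x_e = ⟪x, e⟫`,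
`x_p = x - x_e e`, `W_{t,l} = exp(-‖x_p‖²/t² - x_e²/l²)`, `F(t,l) = ∫ en W_{t,l}`,
`F(t,t) = t Φ(u,0,t)`.  [F04](a) with `χ = x_e W`, direction `e` (`∑_l e_l wu l i = ∑_l e_l gu i l -
e_i en/2`): `(1/2) ∫ en W (1 - 2 x_e²/l²) = ∫ gq(e) W (1 - 2 x_e²/l²) - (2/t²) ∫ g(e, x_p) x_e W`.
For `t ∈ {1/4, 1}`, `l ∈ [1/4, 1]` the right side is `O(√δ)`: `W (1 + ‖x‖^2 + ‖x‖^4) ≤
C exp(-‖x‖²/16)`, `g(e, x_p)² ≤ gq(e) gq(x_p) ≤ gq(e) ‖x‖² en`, `∫ gq(e) exp(-‖x‖²/16) ≤ δ`,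
`∫ en exp(-‖x‖²/16) = 4 Φ(u,0,4) ≤ 4 C0`.  So `|∂_l (F/l)| = O(√δ)`, `F(t,1) = Φ(u,0,t) + O(√δ) =
Θ + O(√δ)` (`δ ≤ 1`) for `t = 1/4, 1` and by subtraction
`∫ en (e^{-‖x_p‖²} - e^{-16 ‖x_p‖²}) e^{-x_e²} = O(√δ)`, so `∫_{‖x_p‖ ≥ 1/2} en e^{-‖x‖²} = O(√δ)`.
`gq(e) - en/2 = ∑_{l,i} e_l e_i wu l i`; [F03] with `χ = ζ(x_p) e^{-x_e²}`, `ζ` smooth, `0 ≤ ζ ≤ 1`,
`ζ = 1` for `‖x_p‖ ≤ 1/2`, `ζ = 0` for `‖x_p‖ ≥ 2` (sum over `l, i` with weights `e_l e_i`: the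
right side is `∫ (τ × e)·∇χ`-type, the derivative of `χ` along `e` drops out, the rest lives in
`1/2 ≤ ‖x_p‖ ≤ 2`): `(1/2) ∫ en χ = ∫ gq(e) χ + O((∫_{1/2 ≤ ‖x_p‖ ≤ 2} en e^{-x_e²})^{1/2}) =
O(δ^{1/4})`.  But `∫ en χ ≥ F(1,1) - ∫_{‖x_p‖ ≥ 1/2} en e^{-‖x‖²} ≥ Θ - O(√δ) ≥ θ0 - O(√δ)`. -/
def St_F10 : Prop :=
  ∀ (pr : Profile) (S θ0 : ℝ), 0 < θ0 → ∃ δ : ℝ, 0 < δ ∧ ∀ (u : E3 → V9) (e : E3) (Θ : ℝ),
    Good pr S u → ‖e‖ = 1 → θ0 ≤ Θ → |Phi pr u 0 1 - Θ| ≤ δ → |Phi pr u 0 (1 / 4) - Θ| ≤ δ →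
    ∫ x, gq pr u x e * Real.exp (-(‖x‖ ^ 2 / 16)) ≤ δ → False

/-- **[F11] two centres.**  `gq(e) ≤ 2 gq(x) + 2 gq(x - e)` ([F02], `gq(-v) = gq(v)`).  By [F06]
with `R = 4`, centre `0`: `∫ gq(x) exp(-‖x‖²/16) ≤ 64 (Φ(0,8) - Φ(0,4)) ≤ 64 ε`; with `R = 8`,
centre `e`: `∫ gq(x-e) exp(-‖x-e‖²/64) ≤ 512 (Φ(e,16) - Φ(e,8)) ≤ 512 ε` and
`exp(-‖x‖²/16) ≤ e^{1/32} exp(-‖x-e‖²/64)`.  Then [F10]. -/
def St_F11 : Prop :=
  ∀ (pr : Profile) (S θ0 : ℝ), 0 < θ0 → ∃ ε : ℝ, 0 < ε ∧ ∀ (u : E3 → V9) (e : E3) (Θ : ℝ),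
    Good pr S u → ‖e‖ = 1 → θ0 ≤ Θ →
    (∀ r : ℝ, 1 / 4 ≤ r → Θ - ε ≤ Phi pr u 0 r ∧ Phi pr u 0 r ≤ Θ) →
    (∀ r : ℝ, 1 / 4 ≤ r → Θ - ε ≤ Phi pr u e r ∧ Phi pr u e r ≤ Θ) → False

/-- **[F12] continuity of the Gaussian energy.**  On a ball of radius `L` the integrands converge
uniformly (`en` is a continuous function of `u`, `Du`: `en pr u x = -2 ∑_k wf (u x) pr (du u x) k k`
and `om` is continuous, [A07]).  Tails: for `‖x‖ ≥ L`, `exp(-‖x‖²/R²) ≤ exp(-L²/(2R²))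
exp(-‖x‖²/(2R²))` and `∫ en exp(-‖x‖²/(2R²)) ≤ √2 R C0` by [F07], for all `u n` and for `v`. -/
def St_F12 : Prop :=
  ∀ (pr : Profile) (S : ℝ) (u : ℕ → E3 → V9) (v : E3 → V9), (∀ n, Good pr S (u n)) →
    Good pr S v → CLoc Set.univ u v → ∀ R : ℝ, 0 < R →
    Filter.Tendsto (fun n => Phi pr (u n) 0 R) Filter.atTop (nhds (Phi pr v 0 R))

end Pool.Agent.FUE
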