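import Pool.Agent.FUE.StF

/-!
# Fueter sections: statements, block H (homogeneous maps)

Paper: /team-store/FUE_paper.md, Section 5.
-/

set_option autoImplicit false

open scoped Manifold ContDiff Matrix
open MeasureTheory

namespace Pool.Agent.FUE

/-- **[H01] smooth diagonalisation away from the bolt.**  `s = √tt` is smooth where `tt > 0`.  At `x`
let `v x = R0 D R0ᵀ`.  `p1 = ell (v y)`, `p2 = (Pp + s⁻¹ Zz)/2` are the orthogonal projections onto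
the eigenlines of `2+s^2` and `s` ([A04] at the point `y`).  `E1 = p1 (R0 e1)` normalised,
`E2 = p2 (R0 e2)` normalised, `E3 = E1 × E2`; columns of `R`.  Near `x` the vectors are nonzero,
`E1 ⟂ E2` (different eigenvalues), `E3` is an eigenvector for `-s`, `det = 1`. -/
def St_H01 : Prop :=
  ∀ (U : Set E3) (v : E3 → V9), IsOpen U → ContDiffOn ℝ ∞ v U → (∀ x ∈ U, v x ∈ AH) →
    ∀ x ∈ U, 0 < tt (v x) → ∃ R : E3 → Matrix (Fin 3) (Fin 3) ℝ,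
      (∀ i j, ContDiffAt ℝ ∞ (fun y => R y i j) x) ∧
      ContDiffAt ℝ ∞ (fun y => √(tt (v y))) x ∧
      ∀ᶠ y in nhds x, IsRot (R y) ∧ 0 < √(tt (v y)) ∧
        toM (v y) = R y * Dg √(tt (v y)) * (R y)ᵀ

/-- The second derivative of the distance function on a Fueter triple with body coefficients `g`:
`∑_n p_n ∑_m sigma_nm^2`. -/
noncomputable def lapS (pr : Profile) (s : ℝ) (g : Fin 3 → Fin 4 → ℝ) : ℝ :=
  ∑ m, ((pr.a s ^ 2 - (pr.b s - pr.c s) ^ 2) / (2 * pr.a s * pr.b s * pr.c s) *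
      (pr.al (s ^ 2) / 2 * g m 1) ^ 2
    + (pr.b s ^ 2 - (pr.c s - pr.a s) ^ 2) / (2 * pr.a s * pr.b s * pr.c s) * (pr.b s * g m 2) ^ 2
    + (pr.c s ^ 2 - (pr.a s - pr.b s) ^ 2) / (2 * pr.a s * pr.b s * pr.c s) * (pr.c s * g m 3) ^ 2)

/-- **[H02] a pointwise computation** (paper, 5.1 and 9).  Abstract form, used in the flat case and
on manifolds.  `A = diag(a,b,c)`.  Let `Om_j ∈ ℝ³`, `nu_j ∈ ℝ` (body components `Omh i = ∑_j R_ji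
Om_j`, `nuh`) satisfy the Fueter equation in the form `∑_m (R A Om_m)_m = 0`,
`nu_j = ∑_{n,m} eps_jnm (R A Om_m)_n`.  Then `(1/2) ∑_{jnm} eps_jnm (R (Om_j × A Om_m -
Om_m × A Om_j - A (Om_j × Om_m) + A' (nu_j Om_m - nu_m Om_j)))_n = ∑_n p_n ∑_m sigma_nm^2`,
`sigma_nm = a_n Omh_m^n`, `p_n = a_n'/a_n`.  As the expression is invariant under `R` one may put
`R = 1` (replace `Om_j` by `Omh_j`).  Component 1 of the first three terms is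
`(b + c - a)(Om_j × Om_m)_1`; for the pair (1,2) the total is `(p1+p2) σ12 σ21 +
(σ12-σ21)(p1 σ12 - p2 σ21) = p1 σ12^2 + p2 σ21^2`, and the diagonal terms
`-∑ (p_i+p_j) σ_ii σ_jj = ∑ p_i σ_ii^2` because `∑ σ_ii = 0`.
`p_1 + p_2 = (a+b-c)/(ab)`, etc.  Statement for `R = 1`, coordinates: `Om j i`, `nu j`. -/
def St_H02 : Prop :=
  ∀ (a b c : ℝ) (Om : Fin 3 → Fin 3 → ℝ) (nu : Fin 3 → ℝ), a ≠ 0 → b ≠ 0 → c ≠ 0 →
    a * Om 0 0 + b * Om 1 1 + c * Om 2 2 = 0 →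
    nu 0 = b * Om 2 1 - c * Om 1 2 → nu 1 = c * Om 0 2 - a * Om 2 0 →
    nu 2 = a * Om 1 0 - b * Om 0 1 →
    let q : Fin 3 → ℝ := ![a, b, c]
    let q' : Fin 3 → ℝ := ![(a ^ 2 - (b - c) ^ 2) / (2 * b * c), (b ^ 2 - (c - a) ^ 2) / (2 * c * a),
      (c ^ 2 - (a - b) ^ 2) / (2 * a * b)]
    let T : Fin 3 → Fin 3 → Fin 3 → ℝ := fun j m => (crossProduct (Om j) (fun i => q i * Om m i))
      - (crossProduct (Om m) (fun i => q i * Om j i))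
      - (fun i => q i * (crossProduct (Om j) (Om m)) i)
      + (fun i => q' i * (nu j * Om m i - nu m * Om j i))
    (T 2 1 0 + T 0 2 1 + T 1 0 2) =
      ∑ n, q' n / q n * ∑ m, (q n * Om m n) ^ 2

/-- **[H03] Laplacian of the distance to the bolt along a flat Fueter map** (paper, 5.1).  Lifts
`R, s = √tt` by [H01], `Om_j = ax (Rᵀ ∂_j R)`, `∂_j R = R hat(Om_j)`, `nu_j = ∂_j s`,
`du v x j = R (sum h_k T_k) Rᵀ`, `h_j = (nu_j, 2 s Om_j1, Om_j2, Om_j3)` ([A09] first part).  The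
Fueter equation ([A12], last part) for the body vectors says `∑_m (R A Om_m)_m = 0` and
`nu_j = ∑ eps_jnm (R A Om_m)_n` NEAR `x`.  Differentiate: `∑_j ∂_j nu_j =
∑ eps_jnm ∂_j (R A Om_m)_n = (1/2) ∑ eps_jnm (∂_j(R A Om_m) - ∂_m (R A Om_j))_n`, with
`∂_j Om_m - ∂_m Om_j = -Om_j × Om_m` this is the expression of [H02] (rotate to the body frame:
`∑ eps_jnm R_.. ` is invariant). -/
def St_H03 : Prop :=
  ∀ (pr : Profile) (U : Set E3) (v : E3 → V9), IsOpen U → Flat pr U v → ∀ x ∈ U, 0 < tt (v x) →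
    ∃ (R : Matrix (Fin 3) (Fin 3) ℝ) (h : Fin 3 → Fin 4 → ℝ), IsRot R ∧
      toM (v x) = R * Dg √(tt (v x)) * Rᵀ ∧
      (∀ j, toM (du v x j) = R * (∑ k, h j k • Tb √(tt (v x)) k) * Rᵀ) ∧
      (∀ j, fderiv ℝ (fun z => √(tt (v z))) x (bs j) = h j 0) ∧
      (∑ i, (Ic pr √(tt (v x)) i).mulVec (fun k => ∑ j, R j i * h j k) = 0) ∧
      ∑ j, fderiv ℝ (fun y => fderiv ℝ (fun z => √(tt (v z))) y (bs j)) x (bs j) =
        lapS pr √(tt (v x)) (fun i k => ∑ j, R j i * h j k)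

/-- **[H04] positivity** (paper, 5.1).  `σ_1m = (al/2) g_m1`, `σ_2m = b g_m2`, `σ_3m = c g_m3`,
`ν_m = g_m0`.  The equation says `σ11+σ22+σ33 = 0`, `ν_1 = σ23-σ32`, `ν_2 = σ31-σ13`,
`ν_3 = σ12-σ21`.  With `σ = S + antisymmetric part`, for each pair `i < j` with third index `k`:
`p_i σ_ij^2 + p_j σ_ji^2 = (p_i+p_j) S_ij^2 ± (p_i-p_j) S_ij ν_k + ((p_i+p_j)/4) ν_k^2`.
By [A02] with `X,Y,Z,W > 0`: `p1+p2 = Z/(ab) > 0`, `p1+p3 = -X/(ac) > 0`, `p2+p3 = -Y/(bc) > 0`, and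
`p1 p2 + p2 p3 + p3 p1 = XYZW/(4 a^2 b^2 c^2) > 0` so `p1 x^2+p2 y^2+p3 z^2` is positive definite on
`x+y+z = 0`.  All these are continuous and positive on the compact `[s1, S]`: bounded below, so for
`K` large the whole form is bounded below by a positive multiple of `∑ S_ij^2 + ∑ ν_k^2`, hence of
`∑ g_mk^2` (`al, b, c` bounded and bounded away from zero, [A01]). -/
def St_H04 : Prop :=
  ∀ (pr : Profile) (s1 S : ℝ), 0 < s1 → ∃ K c : ℝ, 0 < K ∧ 0 < c ∧ ∀ s : ℝ, s1 ≤ s → s ≤ S →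
    ∀ g : Fin 3 → Fin 4 → ℝ, ∑ i, (Ic pr s i).mulVec (g i) = 0 →
      c * ∑ m, ∑ k, (g m k) ^ 2 ≤ K * ∑ m, (g m 0) ^ 2 + lapS pr s g

/-- **[H05] homogeneous subharmonic functions are harmonic.**  `ψ` is `C^2` on `ℝ³ - 0`,
`x·∇ψ = 0`, `Δψ ≥ 0`.  For `η = η0(‖x‖²)` smooth, nonnegative, with compact support in `ℝ³ - 0`:
`∫ Δψ η = -∫ ∇ψ·∇η = -∫ 2 η0'(‖x‖²) x·∇ψ = 0` (integration by parts of compactly supported `C^1`
functions), so `Δψ = 0` on the support; every annulus is covered. -/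
def St_H05 : Prop :=
  ∀ ψ : E3 → ℝ, ContDiffOn ℝ 2 ψ {0}ᶜ → (∀ x : E3, x ≠ 0 → fderiv ℝ ψ x x = 0) →
    (∀ x : E3, x ≠ 0 → 0 ≤ ∑ j, fderiv ℝ (fun y => fderiv ℝ ψ y (bs j)) x (bs j)) →
    ∀ x : E3, x ≠ 0 → ∑ j, fderiv ℝ (fun y => fderiv ℝ ψ y (bs j)) x (bs j) = 0

/-- **[H06] homogeneous Fueter maps lie in the bolt** (paper, 5.2).  Suppose `tt (v x0) > 0`,
`s2 = √tt (v x0)`, `s1 = s2/2`, `T = √(max (S-2) ..)` an upper bound of `s∘v`; `K, c` from [H04]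
on `[s1, T]`.  `f(s) = 0` for `s ≤ s1`, `f(s) = (s-s1)^4 e^{Ks}` for `s ≥ s1`: `C^3`, and
`f'' ≥ K f' ≥ 0`, `f' > 0` for `s > s1`.  `ψ(x) = f(√tt (v x))` is `C^2` on `ℝ³ - 0` (zero near
points with `√tt < s1`, smooth near points with `tt > 0`), `fderiv ψ x x = 0`, and where `tt > 0`:
`Δψ = f'' ∑ (∂_j s)^2 + f' Δs ≥ f' (K ∑_j h_j0^2 + lapS) ≥ c f' ∑ g^2` ([H03], [H04];
`∑_j h_j0^2 = ∑_i g_i0^2`).  [H05]: `Δψ = 0`, so `g = 0`, `h = 0`, `fderiv v = 0` on `{s > s1}`.  The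
set `{x ≠ 0 : tt (v x) = tt (v x0)}` is closed in `ℝ³ - 0` and open (near such a point `fderiv v = 0`,
`v` is locally constant), and `ℝ³ - 0` is connected: `tt ∘ v` is constant, `> s1^2`, so
`fderiv v = 0` everywhere: contradiction. -/
def St_H06 : Prop :=
  ∀ (pr : Profile) (S : ℝ) (v : E3 → V9), Flat pr {0}ᶜ v → (∀ x : E3, x ≠ 0 → lam (v x) ≤ S) →
    (∀ x : E3, x ≠ 0 → fderiv ℝ v x x = 0) → (∃ x : E3, x ≠ 0 ∧ fderiv ℝ v x ≠ 0) →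
    ∀ x : E3, x ≠ 0 → tt (v x) = 0

/-- **[H07] bolt valued Fueter maps, pointwise** (paper, 5.2).  `v x = R D_0 Rᵀ = 2 ξ ξᵀ`,
`ξ = R e1`.  Near `x` all `v y` satisfy `P^2 = 2 P`; differentiating, `HP + PH = 2H`, so the block of
`Rᵀ H R` on `e2, e3` vanishes: `h_j0 = h_j1 = 0`.  The Fueter equation at `s = 0` (`b = π`,
`c = -π`, `al = 2`) for the body vectors `g_i = ∑_j R_ji h_j`: `g_0 = 0`, `g_1 = (0,0,p,q)`,
`g_2 = (0,0,-q,p)`.  `fderiv v x x = 0` gives `∑ x̂_i g_i = 0`, `x̂ = Rᵀ x`: `x̂_1 p = x̂_2 q`,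
`x̂_1 q = -x̂_2 p`, so `(x̂_1^2 + x̂_2^2)(p^2+q^2) = 0`: either `fderiv v x = 0`, or `x̂_1 = x̂_2 = 0`,
`ξ = ± x/‖x‖`. -/
def St_H07 : Prop :=
  ∀ (pr : Profile) (v : E3 → V9), Flat pr {0}ᶜ v → (∀ x : E3, x ≠ 0 → tt (v x) = 0) →
    (∀ x : E3, x ≠ 0 → fderiv ℝ v x x = 0) → ∀ x : E3, x ≠ 0 →
    fderiv ℝ v x = 0 ∨ ∀ i j, toM (v x) i j = 2 * x i * x j / ‖x‖ ^ 2

/-- **[H08] homogeneous bolt valued maps are radial** (paper, 5.2).  Suppose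
`v x0 ≠ 2 x0 x0ᵀ/‖x0‖²` for some `x0 ≠ 0`, `v x0 = 2 η ηᵀ`, `‖η‖ = 1` (so `x0 ∉ ℝ η`).  Let
`C = {x ∉ ℝ η : v x = v x0}`.  `C` is closed in `ℝ³ - ℝη`; for `x ∈ C`,
`v x = 2 η ηᵀ ≠ 2 x xᵀ/‖x‖²`, the same holds near `x`, so `fderiv v = 0` near `x` by [H07] and `v` is
constant near `x`: `C` is open.  `ℝ³ - ℝη` is connected and contains `x0 ∈ C`; so `v = v x0` off
`ℝη`, by continuity on `ℝ³ - 0`, and `fderiv v = 0` everywhere: contradiction. -/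
def St_H08 : Prop :=
  ∀ (pr : Profile) (v : E3 → V9), Flat pr {0}ᶜ v → (∀ x : E3, x ≠ 0 → tt (v x) = 0) →
    (∀ x : E3, x ≠ 0 → fderiv ℝ v x x = 0) → (∃ x : E3, x ≠ 0 ∧ fderiv ℝ v x ≠ 0) →
    ∀ x : E3, x ≠ 0 → ∀ i j, toM (v x) i j = 2 * x i * x j / ‖x‖ ^ 2

/-- **[H09] smooth unit sections of line fields on balls** (paper, 5.3).  `L` is uniformly continuous
on the closed ball of radius `r`; `N` with `‖L x - L y‖` (all entries, hence operator norm) `< 1/2`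
whenever `‖x - y‖ ≤ r/N`.  `ξ0` a unit vector in the range of `L 0`;
`w(x) = L(x) L((1-1/N)x) ⋯ L((1/N)x) ξ0`: inductively `L((k/N)x) ⋯ ξ0 ≠ 0` because it lies in the
range of `L((k-1)/N x)` before applying, and `‖L y z - z‖ = ‖(L y - L y') z‖ < ‖z‖` for `z` in the
range of `L y'`.  `ξ = w/‖w‖` is smooth, in the range of `L x`; `L x` has rank one. -/
def St_H09 : Prop :=
  ∀ (L : E3 → Matrix (Fin 3) (Fin 3) ℝ) (r r' : ℝ), 0 < r → r < r' →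
    (∀ i j, ContDiffOn ℝ ∞ (fun x => L x i j) (Metric.ball 0 r')) →
    (∀ x ∈ Metric.ball (0 : E3) r', (L x)ᵀ = L x ∧ L x * L x = L x ∧ (L x).trace = 1) →
    ∃ ξ : E3 → Fin 3 → ℝ, (∀ i, ContDiffOn ℝ ∞ (fun x => ξ x i) (Metric.ball 0 r)) ∧
      ∀ x ∈ Metric.ball (0 : E3) r, (∑ i, ξ x i ^ 2 = 1) ∧ ∀ i j, L x i j = ξ x i * ξ x j

/-- the vector dual to the pulled back area form of the unit sphere -/
noncomputable def arw (ξ : E3 → Fin 3 → ℝ) (x : E3) (m : Fin 3) : ℝ :=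
  ∑ i : Fin 3, ξ x i * (fderiv ℝ (fun y => ξ y (i + 1)) x (bs (m + 1)) *
      fderiv ℝ (fun y => ξ y (i + 2)) x (bs (m + 2)) -
    fderiv ℝ (fun y => ξ y (i + 2)) x (bs (m + 1)) *
      fderiv ℝ (fun y => ξ y (i + 1)) x (bs (m + 2)))

/-- **[H10] the area form is closed** (paper, 5.3).  `arw ξ x m = ⟨ξ, ∂_{m+1} ξ × ∂_{m+2} ξ⟩`.
`∑_m ∂_m arw_m = 3 det(∂_1 ξ, ∂_2 ξ, ∂_3 ξ)` (second derivatives cancel in pairs) `= 0` as all
`∂_i ξ ⟂ ξ`.  Integration by parts for compactly supported smooth `η`. -/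
def St_H10 : Prop :=
  ∀ (ξ : E3 → Fin 3 → ℝ) (r : ℝ), 0 < r →
    (∀ i, ContDiffOn ℝ ∞ (fun x => ξ x i) (Metric.ball 0 r)) →
    (∀ x ∈ Metric.ball (0 : E3) r, ∑ i, ξ x i ^ 2 = 1) → ∀ η : E3 → ℝ, ContDiff ℝ ∞ η →
    (∀ x, 2 ≤ ‖x‖ → η x = 0) → 2 < r → ∫ x, ∑ m, arw ξ x m * fderiv ℝ η x (bs m) = 0

/-- **[H11] the radial map is not a limit** (paper, 5.3).  `u_k(x) = u((φ k + 1) x)` is smooth on
`ℝ³`, `L_k = ell ∘ u_k` is a smooth rank one projection ([A04]); `ξ_k` on `ball 0 (5/2)` from [H09].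
On the annulus `1/2 < ‖x‖ < 5/2`, `n = x/‖x‖`: `L_k -> ell (2 n nᵀ) = n nᵀ` with first derivatives,
uniformly on `{1 ≤ ‖x‖ ≤ 2}`.  For large `k`, `⟨ξ_k, n⟩² = ⟨n, L_k n⟩ > 1/2` on the connected set
`{1 ≤ ‖x‖ ≤ 2}`, so the sign is constant; replace `ξ_k` by `-ξ_k` if necessary (`arw` changes sign,
harmless): `ξ_k = L_k n/√⟨n, L_k n⟩ -> n` with first derivatives, so `arw ξ_k -> n/‖x‖²` uniformly on
`{1 ≤ ‖x‖ ≤ 2}`.  [H10] with `η = χ(‖x‖²)`, `χ = 1` on `(-∞, 1]`, `0` on `[4, ∞)`, nonincreasing,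
not constant: `0 = ∫ ∑ arw_m ∂_m η -> ∫ 2 χ'(‖x‖²) ‖x‖⁻¹ dx < 0` (`∂_m η = 0` off the annulus). -/
def St_H11 : Prop :=
  ∀ (pr : Profile) (u : E3 → V9) (φ : ℕ → ℕ) (v : E3 → V9), Flat pr Set.univ u → StrictMono φ →
    CLoc {0}ᶜ (fun k x => u (((φ k : ℝ) + 1) • x)) v →
    (∀ x : E3, x ≠ 0 → ∀ i j, toM (v x) i j = 2 * x i * x j / ‖x‖ ^ 2) → False

end Pool.Agent.FUE
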