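import Pool.Agent.FUE.Defs

/-!
# Fueter sections: statements, block Q (existence of the Atiyah-Hitchin profile)

Explicit solution with complete elliptic integrals (Atiyah-Hitchin, Gibbons-Manton), parameter
`m = k² ∈ (-∞, 1)`; the Weyl type symmetry `(a,b,c)(-s) = (-a,-c,-b)(s)` is `m ↦ -m/(1-m)`.
With `P = ∫ sin²/√(1 - m sin²)`, `Q = ∫ cos²/√(1 - m sin²)` over `[0, π/2]`, `K = P + Q`,
`E = Q + (1-m) P`:  `a = 2 m √(K P Q/E)`, `b = 2 √(K E P/Q)`, `c = -2 √(K E Q/P)`,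
`ds/dm = √(E P Q/K)/(1-m)`.  (Numerically verified.)
-/

set_option autoImplicit false

open scoped ContDiff

namespace Pool.Agent.FUE

/-- `∫_0^{π/2} sin² θ (1 - m sin² θ)^{-1/2} dθ` -/
noncomputable def eP (m : ℝ) : ℝ :=
  ∫ θ in (0 : ℝ)..(Real.pi / 2), Real.sin θ ^ 2 / √(1 - m * Real.sin θ ^ 2)

/-- `∫_0^{π/2} cos² θ (1 - m sin² θ)^{-1/2} dθ` -/
noncomputable def eQ (m : ℝ) : ℝ :=
  ∫ θ in (0 : ℝ)..(Real.pi / 2), Real.cos θ ^ 2 / √(1 - m * Real.sin θ ^ 2)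

/-- first complete elliptic integral -/
noncomputable def eK (m : ℝ) : ℝ := eP m + eQ m

/-- second complete elliptic integral -/
noncomputable def eE (m : ℝ) : ℝ := eQ m + (1 - m) * eP m

/-- coefficient `a` -/
noncomputable def fA (m : ℝ) : ℝ := 2 * m * √(eK m * eP m * eQ m / eE m)

/-- coefficient `b` -/
noncomputable def fB (m : ℝ) : ℝ := 2 * √(eK m * eE m * eP m / eQ m)

/-- coefficient `c` -/
noncomputable def fC (m : ℝ) : ℝ := -(2 * √(eK m * eE m * eQ m / eP m))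

/-- derivative of the arc length -/
noncomputable def fS (m : ℝ) : ℝ := √(eE m * eP m * eQ m / eK m) / (1 - m)

/-- **[Q1] analyticity and values.**  For complex `z` with `Re z < 1`, `1 - z sin² θ` has positive real
part; `z ↦ ∫ sin² θ (1 - z sin² θ)^{-1/2}` is holomorphic on `Re z < 1` (differentiation under the
integral, locally dominated) and real on the real axis; so `eP` is real analytic on `m < 1`
(`AnalyticAt.re_ofReal`), same for `eQ`.  The derivative at `0` is `∫ sin⁴/2 = 3π/32`,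
`∫ cos² sin²/2 = π/32`. For `0 ≤ m < 1` the factor `(1 - m sin²)^{-1/2}` is `≥ 1`. -/
def St_Q1 : Prop :=
  AnalyticOnNhd ℝ eP (Set.Iio 1) ∧ AnalyticOnNhd ℝ eQ (Set.Iio 1) ∧
    (∀ m < 1, 0 < eP m ∧ 0 < eQ m) ∧ (∀ m < 1, 0 ≤ m → Real.pi / 4 ≤ eP m ∧ Real.pi / 4 ≤ eQ m) ∧
    eP 0 = Real.pi / 4 ∧ eQ 0 = Real.pi / 4 ∧ HasDerivAt eP (3 * Real.pi / 32) 0 ∧
    HasDerivAt eQ (Real.pi / 32) 0

/-- **[Q2] Legendre's formulas and the imaginary modulus.**  `K = ∫ Δ⁻¹`, `Δ = √(1 - m sin²)`,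
`E = ∫ Δ`.  `E' = -∫ sin²/(2Δ) = -P/2`; `K' = ∫ sin²/(2Δ³) = Q/(2(1-m))`: the difference
`(1-m) sin²/Δ³ - cos²/Δ` is `-d/dθ (sin θ cos θ/Δ)`.  Second part: substitute `θ → π/2 - θ`,
`1 + (m/(1-m)) sin² θ = (1 - m cos² θ)/(1-m)`. -/
def St_Q2 : Prop :=
  ∀ m < 1, HasDerivAt eK (eQ m / (2 * (1 - m))) m ∧ HasDerivAt eE (-(eP m / 2)) m ∧
    eP (-m / (1 - m)) = √(1 - m) * eQ m ∧ eQ (-m / (1 - m)) = √(1 - m) * eP m

/-- **[Q3] even and odd analytic functions.**  Even: power series `∑ c_n s^n` at `0` with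
`c_(odd) = 0`, `g(t) = ∑ c_2n t^n` near `0`; `g(t) = f(√t)` for `t > 0`; together smooth (analytic)
on some `(-η, ∞)`; multiply by a smooth cut-off which is `1` for `t ≥ -η/4` and `0` for `t ≤ -η/2`.
Odd: `f = s f1` with `f1 = dslope f 0` even and analytic. -/
def St_Q3 : Prop :=
  (∀ f : ℝ → ℝ, AnalyticOnNhd ℝ f Set.univ → (∀ s, f (-s) = f s) →
    ∃ g : ℝ → ℝ, ContDiff ℝ ∞ g ∧ ∀ s, f s = g (s ^ 2)) ∧
  ∀ f : ℝ → ℝ, AnalyticOnNhd ℝ f Set.univ → (∀ s, f (-s) = -f s) →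
    ∃ g : ℝ → ℝ, ContDiff ℝ ∞ g ∧ ∀ s, f s = s * g (s ^ 2)

/-- **[Q4] the parameter as a function of the arc length.**  `σ(m) = ∫_0^m fS`, strictly increasing
and analytic on `m < 1` ([Q1]), `fS m ≥ c/(1-m)` for `0 ≤ m < 1` (`E ≥ Q`, `PQ/(P+Q) ≥ min(P,Q)/2`),
so `σ → ∞` as `m → 1`.  `σ(-m/(1-m)) = -σ(m)`: derivatives, with [Q2] `E P Q/K` is invariant
under `m ↦ -m/(1-m)`.  So `σ` is a bijection from `(-∞, 1)` onto `ℝ`; `μ` is its inverse, analytic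
(`OpenPartialHomeomorph.analyticAt_symm'` or similar, `σ' > 0`). -/
def St_Q4 : Prop :=
  ∃ μ : ℝ → ℝ, AnalyticOnNhd ℝ μ Set.univ ∧ (∀ s, μ s < 1) ∧ μ 0 = 0 ∧ (∀ s, 0 < s → 0 < μ s) ∧
    (∀ s, μ (-s) = -μ s / (1 - μ s)) ∧ ∀ s, HasDerivAt μ (fS (μ s))⁻¹ s

/-- **[Q5] the Atiyah-Hitchin equations.**  From [Q2]: `P' = (Q/(1-m) - P)/(2m)`,
`Q' = Q/(2(1-m)) - P'` (`K' = P' + Q'`, `E' = Q' + (1-m) P' - P`).  `A² = 4 m² K P Q/E`,
`B² = 4 K E P/Q`, `C² = 4 K E Q/P`, `B C = -4 K E`, `C A = -4 m K Q`, `A B = 4 m K P`,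
`A S = 2 m P Q/(1-m)`, `B S = 2 E P/(1-m)`, `C S = -2 E Q/(1-m)`.  So
`((A² - (B-C)²)/(2 B C)) S / A = -(A² - (B-C)²)/(16 m (1-m) K²)` is a rational function of
`m, P, Q`, equal to `(log A)' = 1/m + (K'/K + P'/P + Q'/Q - E'/E)/2`; similarly the others. -/
def St_Q5 : Prop :=
  ∀ m : ℝ, 0 < m → m < 1 →
    HasDerivAt fA ((fA m ^ 2 - (fB m - fC m) ^ 2) / (2 * fB m * fC m) * fS m) m ∧
    HasDerivAt fB ((fB m ^ 2 - (fC m - fA m) ^ 2) / (2 * fC m * fA m) * fS m) m ∧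
    HasDerivAt fC ((fC m ^ 2 - (fA m - fB m) ^ 2) / (2 * fA m * fB m) * fS m) m

/-- **[Q6] the Atiyah-Hitchin profile exists.**  `a = fA ∘ μ`, `b = fB ∘ μ`, `c = fC ∘ μ` are analytic
on `ℝ`; `a` is odd, `b(-s) = -c(s)` ([Q2], [Q4]); so `(b-c)/2` is even, `(b+c)/2` odd; [Q3] gives
`al, be, ka` with `a = s al(s²)`, `(b-c)/2 = be(s²)`, `(b+c)/2 = s ka(s²)`.  `al 0 = a'(0) =
fA'(0) μ'(0) = (π/2)(4/π) = 2`; `be 0 = fB 0 = π`; `ka 0 = b'(0) = (fB)'(0) μ'(0) = (π/8)(4/π) = 1/2`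
([Q1] derivatives at `0`; `(b+c)/2` has derivative `b'(0)` at `0` as `c'(0) = b'(0)`).  Signs: clear.
The equations: [Q5], chain rule, [Q4]. -/
def St_Q6 : Prop := Nonempty Profile

end Pool.Agent.FUE
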