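import Pool.Agent.FUE.StC

/-!
# Fueter sections: statement S3 (the left invariant frame of the unit three-sphere)
-/

set_option autoImplicit false

open scoped Manifold ContDiff Matrix

namespace Pool.Agent.FUE

/-- euclidean four space = quaternions -/
abbrev E4 := EuclideanSpace ℝ (Fin 4)

instance factE4 : Fact (Module.finrank ℝ E4 = 3 + 1) := ⟨by simp⟩

/-- right multiplication by the quaternions `i, j, k` -/
noncomputable def Jq (i : Fin 3) (x : E4) : E4 :=
  WithLp.toLp 2 (![![-(x 1), x 0, x 3, -(x 2)], ![-(x 2), -(x 3), x 0, x 1],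
    ![-(x 3), x 2, -(x 1), x 0]] i)

/-- **[S3] the unit sphere of `ℝ⁴` has a frame of left invariant vector fields, orthonormal for the
induced metric, with `[e_0, e_1] = 2 e_2` etc.**  `x ↦ Jq i x` is linear, `⟪Jq i x, Jq j x⟫ = δ_ij ‖x‖²`,
`⟪Jq i x, x⟫ = 0`.  The inclusion `ι` of the sphere is smooth, its derivative at `x` is injective with
range `x^⊥` (Mathlib: `contMDiff_coe_sphere`, `range_mfderiv_coe_sphere`,
`mfderiv_coe_sphere_injective`): `e i x` is the vector with `dι (e i x) = Jq i x`.  Smoothness of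
`e i`: the flow `(t, x) ↦ (cos t) x + (sin t) Jq i x` is a smooth map `ℝ × S³ → S³`
(`ContMDiff.codRestrict_sphere`) and `e i x` is its `t`-derivative at `0` (tangent map applied to the
smooth section `x ↦ ((0, x), (1, 0))`), or in charts.  Bracket: `dι [V, W] = V (dι W) - W (dι V)` (as
in `Mf2.D_comm` / `bracket_chart`: work in the chart at `x`, `f = ι`), so
`dι [e i, e j] = Jq j (Jq i x) - Jq i (Jq j x) = ∑_k 2 eps_ijk Jq k x`; injectivity of `dι`. -/
def St_S3 : Prop :=
  (∀ (x : E4) (i j : Fin 3), inner ℝ (Jq i x) (Jq j x) = if i = j then ‖x‖ ^ 2 else 0) ∧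
  ∃ F : Frame (Metric.sphere (0 : E4) 1), F.Round ∧ ∀ (x : Metric.sphere (0 : E4) 1) (i : Fin 3),
    (mfderiv (𝓡 3) 𝓘(ℝ, E4) (fun y : Metric.sphere (0 : E4) 1 => (y : E4)) x (F.e i x) : E4) =
      Jq i x

end Pool.Agent.FUE
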