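import Pool.Agent.FUE.StS

/-!
# Fueter sections: statement C8 (explicit form on the unit three-sphere)
-/

set_option autoImplicit false

open scoped Manifold ContDiff Matrix

namespace Pool.Agent.FUE

/-- left multiplication by the quaternions `i, j, k` -/
noncomputable def Jp (i : Fin 3) (x : E4) : E4 :=
  WithLp.toLp 2 (![![-(x 1), x 0, -(x 3), x 2], ![-(x 2), x 3, x 0, -(x 1)],
    ![-(x 3), -(x 2), x 1, x 0]] i)

/-- **[C8] the Fueter sections over the round three-sphere are the two families of Hopf line fields**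
`x ↦ ℝ x p` and `x ↦ ℝ p x`, `p` a unit imaginary quaternion.  In the left invariant frame
`e_i(x) = x q_i` the field `p x` has the components `n_i = ∑_k p_k Rt_ki`, `Rt_ki = ⟪q_k x, x q_i⟫`,
a rotation matrix.  Both directions from [C6], [C7] (`conn i = hat e_i`, [C1]).  `D_j Rt_ki =
⟪q_k x q_j, x q_i⟫ + ⟪q_k x, x q_j q_i⟫ = 2 ∑_l eps_jil Rt_kl` (derivative along `x q_j` of the
restriction of a polynomial), i.e. `D_j Rt = 2 Rt hat(e_j)`.  (a) `D_j u = 0` for all `j`: `u` is constant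
on the connected sphere (the frame spans the tangent space), `u = 2 p pᵀ` because `u x0 ∈ AH` has
trace `2`.  (b) `D_j u = -2 [hat e_j, u]`: `D_j (Rt u Rtᵀ) = 0`, so `Rt u Rtᵀ = 2 p pᵀ` is constant and
`u = 2 n nᵀ`, `n = Rtᵀ p`.  Conversely these `u` are smooth, in `AH` with trace `2`
(`2 n nᵀ = R D_0 Rᵀ` for a rotation `R` with first column `n`), and satisfy the equations. -/
def St_C8 : Prop :=
  ∀ (pr : Profile) (F : Frame (Metric.sphere (0 : E4) 1)), F.Round →
    (∀ (x : Metric.sphere (0 : E4) 1) (i : Fin 3),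
      (mfderiv (𝓡 3) 𝓘(ℝ, E4) (fun y : Metric.sphere (0 : E4) 1 => (y : E4)) x (F.e i x) : E4) =
        Jq i x) →
    ∀ u : Metric.sphere (0 : E4) 1 → V9, F.IsFueter pr u ↔
      ∃ p : Fin 3 → ℝ, ∑ k, p k ^ 2 = 1 ∧
        ((∀ x i j, toM (u x) i j = 2 * p i * p j) ∨
          ∀ (x : Metric.sphere (0 : E4) 1) (i j : Fin 3), toM (u x) i j =
            2 * (∑ k, p k * inner ℝ (Jp k x) (Jq i x)) *
              (∑ k, p k * inner ℝ (Jp k x) (Jq j x)))

end Pool.Agent.FUE
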