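import Pool.Agent.FUE.StH
import Pool.Agent.FUE.Mf3

/-!
# Fueter sections: statements, block X (the Laplacian of the distance to the bolt on a
three-manifold, a priori bound for positive Ricci curvature)

Paper: /team-store/FUE_paper.md, Section 9.
-/

set_option autoImplicit false

open scoped Manifold ContDiff Matrix
open MeasureTheory

namespace Pool.Agent.FUE

/-- half of `sum eps_jnm X_jm^n` for `X` antisymmetric in `j, m` (`X j m n`) -/
def Lx (X : Fin 3 → Fin 3 → Fin 3 → ℝ) : ℝ := X 2 1 0 + X 0 2 1 + X 1 0 2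

/-- `G(E_i, E_i)`, `G = r - (tr r / 2) g`, `E_i = R e_i` -/
noncomputable def ein (r : Fin 3 → Fin 3 → ℝ) (R : Matrix (Fin 3) (Fin 3) ℝ) (i : Fin 3) : ℝ :=
  ∑ n, ∑ l, R n i * R l i * (r n l - (if n = l then (∑ m, r m m) / 2 else 0))

/-- connection matrices of the structure functions `c` (same formula as `Frame.conn`) -/
noncomputable def wl (c : Fin 3 → Fin 3 → Fin 3 → E3 → ℝ) (i : Fin 3) (y : E3) :
    Matrix (Fin 3) (Fin 3) ℝ :=
  Matrix.of fun k j => (c i j k y - c j k i y + c k i j y) / 2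

/-- curvature (same formula as `Frame.curv`) -/
noncomputable def crv (B : Fin 3 → E3 → E3) (c : Fin 3 → Fin 3 → Fin 3 → E3 → ℝ) (i j : Fin 3)
    (y : E3) : Matrix (Fin 3) (Fin 3) ℝ :=
  Matrix.of (fun k l => Dl (B i) (fun z => wl c j z k l) y - Dl (B j) (fun z => wl c i z k l) y)
    + (wl c i y * wl c j y - wl c j y * wl c i y) - ∑ m, c i j m y • wl c m y

/-- Ricci tensor (same formula as `Frame.ric`) -/
noncomputable def rcl (B : Fin 3 → E3 → E3) (c : Fin 3 → Fin 3 → Fin 3 → E3 → ℝ) (j l : Fin 3)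
    (y : E3) : ℝ := ∑ i, crv B c i j y i l

/-- **[X1] algebra.**  (1) for `X` antisymmetric in `j, m` and a rotation `R`:
`Lx (R X_jm) = Lx (sum_pq R_pj R_qm X_pq)` (a rotation is its own cofactor matrix, or
`cross (R v) (R w) = R (cross v w)`).  (2) the connection terms: expand, with
`W j p p = 0`, `W j p q = - W j q p`, and use `ring`.  (3) the curvature term, for symmetric `S`:
expand.  (4): (1)-(3) and [H02] applied to `Omh i = sum_j R_ji Om_j`. -/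
def St_X1 : Prop :=
  (∀ (R : Matrix (Fin 3) (Fin 3) ℝ) (X : Fin 3 → Fin 3 → Fin 3 → ℝ), IsRot R →
    (∀ j m, X j m = -X m j) →
    Lx (fun j m => R.mulVec (X j m)) = Lx (fun j m => ∑ p, ∑ r, (R p j * R r m) • X p r)) ∧
  (∀ (W : Fin 3 → Matrix (Fin 3) (Fin 3) ℝ) (τ : Fin 3 → Fin 3 → ℝ), (∀ i, (W i)ᵀ = -W i) →
    Lx (fun j m => (∑ k, (W j k m - W m k j) • τ k) - (W j).mulVec (τ m) + (W m).mulVec (τ j)) =
      ∑ j, ∑ p, W j p j * (τ (p + 2) (p + 1) - τ (p + 1) (p + 2))) ∧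
  (∀ (S : Matrix (Fin 3) (Fin 3) ℝ) (ρ : Fin 3 → Fin 3 → Fin 3 → ℝ), Sᵀ = S →
    (∀ j m, ρ j m = -ρ m j) → Lx (fun j m => S.mulVec (ρ j m)) =
      -∑ n, ∑ l, S n l * ((∑ i, hat (ρ i n) i l) -
        (if n = l then (∑ m, ∑ i, hat (ρ i m) i m) / 2 else 0))) ∧
  ∀ (R : Matrix (Fin 3) (Fin 3) ℝ) (a b c : ℝ) (Om : Fin 3 → Fin 3 → ℝ) (nu : Fin 3 → ℝ)
    (W : Fin 3 → Matrix (Fin 3) (Fin 3) ℝ) (ρ : Fin 3 → Fin 3 → Fin 3 → ℝ),
    IsRot R → a ≠ 0 → b ≠ 0 → c ≠ 0 → (∀ i, (W i)ᵀ = -W i) → (∀ j m, ρ j m = -ρ m j) →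
    let q : Fin 3 → ℝ := ![a, b, c]
    let q' : Fin 3 → ℝ := ![(a ^ 2 - (b - c) ^ 2) / (2 * b * c), (b ^ 2 - (c - a) ^ 2) / (2 * c * a),
      (c ^ 2 - (a - b) ^ 2) / (2 * a * b)]
    let τ : Fin 3 → Fin 3 → ℝ := fun m => R.mulVec (fun i => q i * Om m i)
    let T : Fin 3 → Fin 3 → Fin 3 → ℝ := fun j m => (crossProduct (Om j) (fun i => q i * Om m i))
      - (crossProduct (Om m) (fun i => q i * Om j i))
      - (fun i => q i * (crossProduct (Om j) (Om m)) i)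
      + (fun i => q' i * (nu j * Om m i - nu m * Om j i))
    (τ 0 0 + τ 1 1 + τ 2 2 = 0) → (∀ j, nu j = τ (j + 2) (j + 1) - τ (j + 1) (j + 2)) →
    Lx (fun j m => R.mulVec (T j m)
      + R.mulVec (fun i => q i * (∑ k, (W j k m - W m k j) * Om k i))
      + R.mulVec (fun i => q i * (Rᵀ.mulVec (ρ j m)) i)
      - (W j).mulVec (τ m) + (W m).mulVec (τ j)) =
      (∑ n, q' n / q n * ∑ m, (q n * ∑ j, R j m * Om j n) ^ 2)
        + (∑ j, ∑ p, W j p j * nu p)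
        - ∑ i, q i * ein (fun j l => ∑ i, hat (ρ i j) i l) R i

/-- **[X2] the Laplacian of the distance to the bolt** (paper, Section 9).  Write `D_j = Dl (B j)`,
`W_j = wl c j` (antisymmetric by `c i j k = - c j i k`), `c_jmk = (W_j)_km - (W_m)_kj`.  [H01]: near
`y` smooth `R, s = √tt`; `hat(Om_j) = Rᵀ (D_j R + W_j R)` (antisymmetric), `nu_j = D_j s`,
`D_j u + [W_j, u] = R (sum_k h_jk T_k) Rᵀ`, `h_j = (nu_j, 2 s Om_j1, Om_j2, Om_j3)`, as in [A09].
[A12] (last part) NEAR `y`: the body vectors satisfy `sum Ic_i g_i = 0`, which says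
`sum_m tau_m^m = 0`, `nu_j = tau_{j+2}^{j+1} - tau_{j+1}^{j+2}`, `tau_m = R A Om_m`,
`A = diag(a,b,c)`.  Differentiate the last identity at `y`: `sum_j D_j nu_j = Lx (D_j tau_m -
D_m tau_j)`.  `D_j tau_m = R (Om_j x A Om_m + nu_j A' Om_m + A D_j Om_m) - W_j tau_m`, and from
`(D_j+W_j)(D_m+W_m)R - (D_m+W_m)(D_j+W_j)R = sum_k c_jmk (D_k + W_k) R + crv_jm R` (only the bracket
relation AT `y` is used, and symmetry of second derivatives: `Dl_comm`)
`D_j Om_m - D_m Om_j = - Om_j x Om_m + sum_k c_jmk Om_k + Rᵀ rho_jm`, `hat(rho_jm) = crv_jm`.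
This is the expression of [X1] (4).  Finally `lapS` = `sum q'_n/q_n sum_m sigma_nm^2`
(`(al/2) g_m1 = a Omh_m^1`), `q' ` = derivatives of `a, b, c` ([A01], `a = s al`). -/
def St_X2 : Prop :=
  ∀ (pr : Profile) (U : Set E3) (B : Fin 3 → E3 → E3) (c : Fin 3 → Fin 3 → Fin 3 → E3 → ℝ)
    (u : E3 → V9) (y : E3), IsOpen U → y ∈ U → (∀ i, ContDiffOn ℝ ∞ (B i) U) →
    (∀ i j k, ContDiffOn ℝ ∞ (c i j k) U) → (∀ i j k, ∀ z ∈ U, c i j k z = -c j i k z) →
    (∀ i j, VectorField.lieBracket ℝ (B i) (B j) y = ∑ k, c i j k y • B k y) →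
    LocF pr U B (fun i z => ofM (wl c i z)) u → 0 < tt (u y) →
    ∃ (R : Matrix (Fin 3) (Fin 3) ℝ) (h : Fin 3 → Fin 4 → ℝ), IsRot R ∧
      toM (u y) = R * Dg √(tt (u y)) * Rᵀ ∧
      (∀ j, toM (fderiv ℝ u y (B j y)) + (wl c j y * toM (u y) - toM (u y) * wl c j y) =
        R * (∑ k, h j k • Tb √(tt (u y)) k) * Rᵀ) ∧
      (∀ j, Dl (B j) (fun z => √(tt (u z))) y = h j 0) ∧
      (∑ i, (Ic pr √(tt (u y)) i).mulVec (fun k => ∑ j, R j i * h j k) = 0) ∧
      ∑ j, Dl (B j) (Dl (B j) (fun z => √(tt (u z)))) y =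
        lapS pr √(tt (u y)) (fun i k => ∑ j, R j i * h j k)
          + (∑ j, ∑ p, wl c j y p j * h p 0)
          - ∑ i, ![pr.a √(tt (u y)), pr.b √(tt (u y)), pr.c √(tt (u y))] i *
              ein (fun j l => rcl B c j l y) R i

section manifold

/-- **[X3] the inequality at a maximum point** (paper, Section 9).  In the chart at `x`: `B i =
Ech F x i`, `c i j k = F.c i j k ∘ symm` ([Mf2] `bracket_chart`; `skew` from `F.indep`,
`F.bracket` and the antisymmetry of the bracket), `F.cov`, `F.ric x` are the chart expressions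
(`D_chart`).  `√tt ∘ u` has a local maximum at the centre, so `h j 0 = 0` and
`∑_j D_j D_j √tt ≤ 0` (`snd_le`, `D_eq_zero_of_max` in [Mf3]; `tt ∘ u` is positive near the point).
`lapS ≥ 0` by [H04] (`g m 0 = 0`, `s1 = S = s`). -/
def St_X3 : Prop :=
  ∀ (pr : Profile) (M : Type) [TopologicalSpace M] [ChartedSpace E3 M] [IsManifold (𝓡 3) ∞ M]
    (F : Frame M) (u : M → V9) (x : M), F.IsFueter pr u →
    (∀ z, (toM (u z)).trace ≤ (toM (u x)).trace) → 0 < tt (u x) →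
    ∃ R : Matrix (Fin 3) (Fin 3) ℝ, IsRot R ∧
      0 ≤ ∑ i, ![pr.a √(tt (u x)), pr.b √(tt (u x)), pr.c √(tt (u x))] i *
        ein (fun j l => F.ric j l x) R i

/-- **[X4] a priori bound for positive Ricci curvature** (paper, Section 9).  `F.ric j l` are
continuous (smooth) functions on the compact `M`, so there are `κ > 0`, `K` with
`Ric(E,E) ≥ κ` and `|G(E,E)| ≤ K` for every unit vector.  At a maximum point `x` of the trace with
`s = √(tt (u x)) > 0`, [X3]: `a G11 + b G22 + c G33 ≥ 0`, `G11 + G22 = -Ric33`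
(`G_ii = Ric_ii - scal/2` in the basis `E_i = R e_i`), so
`a Ric33 ≤ (b-a) G22 + c G33 ≤ 2 π K` ([A03]) and `a ≥ s/2`: `s ≤ 4 π K / κ`.  So
`tr ≤ 2 + (4 π K/κ)^2` everywhere. -/
def St_X4 : Prop :=
  ∀ (pr : Profile) (M : Type) [TopologicalSpace M] [ChartedSpace E3 M] [IsManifold (𝓡 3) ∞ M]
    [CompactSpace M] (F : Frame M), F.RicPos → ∃ S : ℝ, ∀ u : M → V9,
    F.IsFueter pr u → ∀ x, (toM (u x)).trace ≤ S

end manifold

end Pool.Agent.FUE
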