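import Pool.Agent.FUE.StX

/-!
# Fueter sections: statements, block Y (a priori bound under a spectral Ricci condition)

Generalisation of block X: instead of `Ric > 0` it is enough that there is a smooth `f > 0` with
`Δ f < ric_min f` (the Schroedinger operator `-Δ + ric_min` is positive); `f = 1` is `Ric > 0`.
-/

set_option autoImplicit false

open scoped Manifold ContDiff Matrix
open MeasureTheory

namespace Pool.Agent.FUE

/-- **[P1] asymptotics of the profile.**  Write `ε = b - a ∈ (0, π]` ([A02], [A03]), `c = -|c|`: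
`a' = (1 + ε/|c|)(1 + (|c| - ε)/(2b))`, `|c| - ε = Y ∈ (0, π]`, so `a' ≥ 1` and (for `s ≥ 1`,
`b ≥ a ≥ s/2`) `a' - 1 ≤ ε/|c| + π/s + (ε/|c|) π/s`.  `(1/|c|)' = (c² - ε²)/(2 a b c²) ≤ 1/(2ab) ≤
2/s²`, so `1/|c| ≤ K` on `[1, ∞)`.  `ε' = -((a+b-c)(a+b+c)/(2 a b |c|)) ε ≤ -ε/π` because
`(a+b)² - c² ≥ 2ab` (`b ≥ π ≥ |c|`) and `|c| ≤ π`.  So `a - s + π (1+π) K ε - π log s` is
nonincreasing on `[1, ∞)` and `a - s` is nondecreasing; `log s ≤ 2 √s`. -/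
def St_P1 : Prop :=
  ∀ pr : Profile, ∃ C : ℝ, 0 < C ∧ ∀ s : ℝ, 1 ≤ s → |pr.a s - s| ≤ C * √s

/-- **[P2] lower bound of the second order term.**  Notation of [H04].  For each pair `i < j`, `k`
the third index: `(p_i+p_j) S² ± (p_i-p_j) S ν_k + ((p_i+p_j)/4) ν_k² ≥ (p_i p_j/(p_i+p_j)) ν_k²`
(complete the square, `p_i + p_j > 0`).  The pair (1,2) is nonnegative, `p1 p3/(p1+p3) =
-XYZ/(4 a b² |c|) ≥ -6π/s²` and `p2 p3/(p2+p3) = -XYZ/(4 a² b |c|) ≥ -6π/s²`, because `0 < X ≤ 2π`,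
`0 < Y ≤ |c|`, `0 < Z ≤ 3b` (`|c| ≤ π ≤ b`), `b ≥ a ≥ s/2` ([A02], [A03]).  The diagonal terms
`p1 S11² + p2 S22² + p3 S33²` are nonnegative on `S11 + S22 + S33 = 0` ([H04]). -/
def St_P2 : Prop :=
  ∀ pr : Profile, ∃ C : ℝ, 0 < C ∧ ∀ s : ℝ, 1 ≤ s → ∀ g : Fin 3 → Fin 4 → ℝ,
    ∑ i, (Ic pr s i).mulVec (g i) = 0 → -(C / s ^ 2 * ∑ m, (g m 0) ^ 2) ≤ lapS pr s g

section manifold

variable {M : Type} [TopologicalSpace M] [ChartedSpace E3 M] [IsManifold (𝓡 3) ∞ M]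

/-- Laplacian of a function: `∑ (e_j e_j f - (∇_{e_j} e_j) f)` -/
noncomputable def Frame.lap (F : Frame M) (f : M → ℝ) (x : M) : ℝ :=
  ∑ j, F.D j (F.D j f) x - ∑ j, ∑ p, F.conn j x p j * F.D p f x

/-- There is a smooth positive function `f` with `Δ f < Ric(v, v) f` for all unit vectors `v`: the
Schroedinger operator `-Δ + (smallest eigenvalue of Ric)` is positive.  For `f = 1` this is
`Ric > 0`. -/
def Frame.SpecPos (F : Frame M) : Prop :=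
  ∃ f : M → ℝ, ContMDiff (𝓡 3) 𝓘(ℝ, ℝ) ∞ f ∧ (∀ x, 0 < f x) ∧
    ∀ x (v : Fin 3 → ℝ), v ≠ 0 →
      F.lap f x * (∑ j, v j ^ 2) < (∑ j, ∑ l, F.ric j l x * v j * v l) * f x

end manifold

/-- **[Y1] the inequality at a maximum point of `s/f`.**  As [X3] with [X2] in full.  In the chart at
`x`: `σ = √(tt ∘ u)` is smooth near the centre and `log σ - log f` has a local maximum there (`tt/f²`
has one), so `D_j σ = σ D_j f/f` and `∑_j (D_j D_j σ)/σ - ∑_j (D_j D_j f)/f ≤ 0` (second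
derivatives along `B j` at a critical point: `snd_le`; the squares of the first derivatives cancel).
With [X2]: `g i k = ∑_j R_ji h_jk`, `∑_m g_m0² = ∑_j h_j0²` (`R` orthogonal) and
`∑ D_j D_j σ = lapS + ∑ W_j(p,j) h_p0 - ∑ a_i G(E_i,E_i)`. -/
def St_Y1 : Prop :=
  ∀ (pr : Profile) (M : Type) [TopologicalSpace M] [ChartedSpace E3 M] [IsManifold (𝓡 3) ∞ M]
    (F : Frame M) (u : M → V9) (f : M → ℝ) (x : M), F.IsFueter pr u →
    ContMDiff (𝓡 3) 𝓘(ℝ, ℝ) ∞ f → (∀ z, 0 < f z) →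
    (∀ z, tt (u z) / f z ^ 2 ≤ tt (u x) / f x ^ 2) → 0 < tt (u x) →
    ∃ (R : Matrix (Fin 3) (Fin 3) ℝ) (g : Fin 3 → Fin 4 → ℝ), IsRot R ∧
      ∑ i, (Ic pr √(tt (u x)) i).mulVec (g i) = 0 ∧
      ∑ m, (g m 0) ^ 2 = (√(tt (u x)) / f x) ^ 2 * ∑ j, (F.D j f x) ^ 2 ∧
      lapS pr √(tt (u x)) g -
        ∑ i, ![pr.a √(tt (u x)), pr.b √(tt (u x)), pr.c √(tt (u x))] i *
          ein (fun j l => F.ric j l x) R i ≤ √(tt (u x)) * (F.lap f x / f x)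

/-- **[Y2] a priori bound.**  `M` compact: constants `0 < m ≤ f ≤ m'`, `|G(E,E)|, |Ric(E,E)| ≤ K`,
`Δf/f ≤ Ric(E,E) - λ` for unit vectors `E`, `∑ (D_j f)²/f² ≤ D`.  At a maximum point `x` of
`tt/f²`, `s = √tt (u x)`.  If `s < 1`: `tt (u z) ≤ (m'/m)²`.  If `s ≥ 1`: [Y1], [P2]:
`s (Ric33 - λ) ≥ -C D - (a G11 + b G22 + c G33)` and `a G11 + b G22 + c G33 = -a Ric33 +
(b-a) G22 + c G33 ≤ -a Ric33 + 2πK` ([A03], as in [X4]); so `λ s ≤ (s - a) Ric33 + CD + 2πK ≤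
C' K √s + CD + 2πK` ([P1]), which bounds `s` by some `S0 ≥ 1`, and `tt (u z) ≤ S0² (m'/m)²`. -/
def St_Y2 : Prop :=
  ∀ (pr : Profile) (M : Type) [TopologicalSpace M] [ChartedSpace E3 M] [IsManifold (𝓡 3) ∞ M]
    [CompactSpace M] (F : Frame M), F.SpecPos → ∃ S : ℝ, ∀ u : M → V9,
    F.IsFueter pr u → ∀ x, (toM (u x)).trace ≤ S

end Pool.Agent.FUE
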