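import Pool.Agent.FUE.Defs

/-!
# Fueter sections of the Atiyah-Hitchin bundle: the definitions of the final statements

The profile, `AH`, `Tb`, `Ic`, `FueterPt` are in `Defs.lean`.  Here `M` is a manifold modelled on a
normed space `E` (in the theorems `E = E3 = EuclideanSpace ℝ (Fin 3)`), with a global frame.
-/

set_option autoImplicit false

open scoped Manifold ContDiff Matrix

namespace Pool.Agent.FUE.T

variable {E : Type} [NormedAddCommGroup E] [NormedSpace ℝ E] (M : Type) [TopologicalSpace M]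
  [ChartedSpace E M]

/-- vector fields on `M` -/
abbrev VF : Type := ∀ x : M, TangentSpace 𝓘(ℝ, E) x

variable {M}

/-- smooth vector fields -/
def SmoothVF [IsManifold 𝓘(ℝ, E) ∞ M] (V : VF (E := E) M) : Prop :=
  ContMDiff 𝓘(ℝ, E) 𝓘(ℝ, E).tangent ∞ (fun x => (⟨x, V x⟩ : TangentBundle 𝓘(ℝ, E) M))

/-- derivative along a vector field of a function with values in a normed space -/
noncomputable def der (V : VF (E := E) M) {W : Type} [NormedAddCommGroup W] [NormedSpace ℝ W]
    (f : M → W) (x : M) : W := mfderiv 𝓘(ℝ, E) 𝓘(ℝ, W) f x (V x)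

/-- smooth functions with values in a normed space -/
def Smooth (E : Type) [NormedAddCommGroup E] [NormedSpace ℝ E] {M : Type} [TopologicalSpace M]
    [ChartedSpace E M] {W : Type} [NormedAddCommGroup W] [NormedSpace ℝ W] (f : M → W) : Prop :=
  ContMDiff 𝓘(ℝ, E) 𝓘(ℝ, W) ∞ f

/-- A global frame; it carries the metric and the orientation for which the frame is oriented and
orthonormal.  `c i j k` are the structure functions. -/
structure Frame (E : Type) [NormedAddCommGroup E] [NormedSpace ℝ E] (M : Type)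
    [TopologicalSpace M] [ChartedSpace E M] [IsManifold 𝓘(ℝ, E) ∞ M] where
  e : Fin 3 → VF (E := E) M
  smooth_e : ∀ i, SmoothVF (e i)
  indep : ∀ x, LinearIndependent ℝ (fun i => e i x)
  c : Fin 3 → Fin 3 → Fin 3 → M → ℝ
  smooth_c : ∀ i j k, Smooth E (c i j k)
  bracket : ∀ i j x, VectorField.mlieBracket 𝓘(ℝ, E) (e i) (e j) x = ∑ k, c i j k x • e k x

namespace Frame

variable [IsManifold 𝓘(ℝ, E) ∞ M] (F : Frame E M)

/-- derivative along `e i` of a function with values in a normed space -/
noncomputable def D (i : Fin 3) {W : Type} [NormedAddCommGroup W] [NormedSpace ℝ W] (f : M → W) :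
    M → W := der (F.e i) f

/-- The Levi-Civita connection (Koszul formula for an orthonormal frame): the `(k, j)` entry is
`⟨∇_{e_i} e_j, e_k⟩`. -/
noncomputable def conn (i : Fin 3) (x : M) : Matrix (Fin 3) (Fin 3) ℝ :=
  Matrix.of fun k j => (F.c i j k x - F.c j k i x + F.c k i j x) / 2

/-- Curvature: the `(k, l)` entry is `⟨R(e_i, e_j) e_l, e_k⟩`. -/
noncomputable def curv (i j : Fin 3) (x : M) : Matrix (Fin 3) (Fin 3) ℝ :=
  Matrix.of (fun k l => F.D i (fun y => F.conn j y k l) x - F.D j (fun y => F.conn i y k l) x)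
    + (F.conn i x * F.conn j x - F.conn j x * F.conn i x) - ∑ m, F.c i j m x • F.conn m x

/-- The Ricci tensor `Ric(e_j, e_l)`. -/
noncomputable def ric (j l : Fin 3) (x : M) : ℝ := ∑ i, F.curv i j x i l

/-- the Ricci curvature `Ric(v, v)`, `v` given by its components in the frame -/
noncomputable def Ric (x : M) (v : Fin 3 → ℝ) : ℝ := ∑ j, ∑ l, F.ric j l x * v j * v l

/-- positive Ricci curvature -/
def RicPos : Prop := ∀ x (v : Fin 3 → ℝ), v ≠ 0 → 0 < F.Ric x v

/-- Laplace operator of the metric: `∑ (e_j e_j f - (∇_{e_j} e_j) f)` -/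
noncomputable def lap (f : M → ℝ) (x : M) : ℝ :=
  ∑ j, F.D j (F.D j f) x - ∑ j, ∑ p, F.conn j x p j * F.D p f x

/-- There is a smooth function `f > 0` with `Δ f < Ric(v, v) f` for all unit vectors `v`: the
Schroedinger operator `-Δ + (lowest eigenvalue of Ric)` is positive. -/
def SpecPos : Prop :=
  ∃ f : M → ℝ, Smooth E f ∧ (∀ x, 0 < f x) ∧
    ∀ x (v : Fin 3 → ℝ), v ≠ 0 → F.lap f x * (∑ j, v j ^ 2) < F.Ric x v * f x

/-- covariant derivative along `e i` of the section of `Fr(M) x_{SO(3)} AH` which is `u` in the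
frame `e` -/
noncomputable def cov (i : Fin 3) (u : M → V9) (x : M) : Matrix (Fin 3) (Fin 3) ℝ :=
  toM (F.D i u x) + (F.conn i x * toM (u x) - toM (u x) * F.conn i x)

/-- Fueter sections of the Atiyah-Hitchin bundle: smooth sections with
`∑ I(e_j) ∇_{e_j} u = 0` -/
def IsFueter (pr : Profile) (u : M → V9) : Prop :=
  Smooth E u ∧ (∀ x, u x ∈ AH) ∧ ∀ x, FueterPt pr (toM (u x)) (fun j => F.cov j u x)

/-- iterated derivatives along the frame, for a word `w` -/
noncomputable def DD (w : List (Fin 3)) (f : M → V9) : M → V9 := w.foldr (fun i g => F.D i g) f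

/-- convergence in the `C^∞` topology: all iterated derivatives converge uniformly on `M` -/
def CInf (u : ℕ → M → V9) (v : M → V9) : Prop :=
  ∀ w : List (Fin 3), TendstoUniformly (fun n => F.DD w (u n)) (F.DD w v) Filter.atTop

/-- Every sequence of Fueter sections in the set `A` has a subsequence which converges in `C^∞` to
a Fueter section. -/
def SeqCompact (pr : Profile) (A : Set (M → V9)) : Prop :=
  ∀ u : ℕ → M → V9, (∀ n, F.IsFueter pr (u n) ∧ u n ∈ A) →
    ∃ (φ : ℕ → ℕ) (v : M → V9), StrictMono φ ∧ F.IsFueter pr v ∧ F.CInf (fun n => u (φ n)) v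

end Frame

end Pool.Agent.FUE.T
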