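import Pool.Agent.FUE.Text

/-!
# Definitions for the statement about round three-manifolds
-/

set_option autoImplicit false

open scoped Manifold ContDiff Matrix

namespace Pool.Agent.FUE.T

/-- Levi-Civita symbol -/
def eps (i j k : Fin 3) : ℝ :=
  if j = i + 1 ∧ k = i + 2 then 1 else if j = i + 2 ∧ k = i + 1 then -1 else 0

/-- euclidean four space = quaternions -/
abbrev E4 := EuclideanSpace ℝ (Fin 4)

/-- right multiplication by the quaternions `i, j, k` -/
noncomputable def Jq (i : Fin 3) (x : E4) : E4 :=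
  WithLp.toLp 2 (![![-(x 1), x 0, x 3, -(x 2)], ![-(x 2), -(x 3), x 0, x 1],
    ![-(x 3), x 2, -(x 1), x 0]] i)

/-- left multiplication by the quaternions `i, j, k` -/
noncomputable def Jp (i : Fin 3) (x : E4) : E4 :=
  WithLp.toLp 2 (![![-(x 1), x 0, -(x 3), x 2], ![-(x 2), x 3, x 0, -(x 1)],
    ![-(x 3), -(x 2), x 1, x 0]] i)

/-- `u` takes values in the bolt, the orbit of minimal area: `u x = 2 ξ ξᵀ`, a line field -/
def IsBolt {M : Type} (u : M → V9) : Prop := ∀ x, u x ∈ AH ∧ (toM (u x)).trace = 2

section generic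

variable {E : Type} [NormedAddCommGroup E] [NormedSpace ℝ E] {M : Type} [TopologicalSpace M]
  [ChartedSpace E M] [IsManifold 𝓘(ℝ, E) ∞ M] (F : Frame E M)

/-- The structure functions are those of the left invariant orthonormal frame of the unit
three-sphere: `[e_0, e_1] = 2 e_2`, `[e_1, e_2] = 2 e_0`, `[e_2, e_0] = 2 e_1`. -/
def Frame.Round : Prop := ∀ i j k x, F.c i j k x = 2 * eps i j k

/-- `u` is parallel for the flat connection `D` of the frame (the frame is parallel). -/
def Frame.ParL (u : M → V9) : Prop := ∀ i x, toM (F.D i u x) = 0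

/-- `u` is parallel for the second flat connection `D + 2 conn`. -/
def Frame.ParR (u : M → V9) : Prop := ∀ i x, toM (F.D i u x) +
  (2 : ℝ) • (F.conn i x * toM (u x) - toM (u x) * F.conn i x) = 0

/-- smooth line fields which are parallel for one of the two flat connections -/
def Frame.IsHopf (u : M → V9) : Prop := Smooth E u ∧ IsBolt u ∧ (F.ParL u ∨ F.ParR u)

/-- The frame, moved to `E4` by the map `ι`, is the left invariant one: `e_i (x) = x q_i`, with the
quaternions `q_0, q_1, q_2 = i, j, k`. -/
def Frame.LeftInv (ι : M → E4) : Prop := ∀ x i, (der (F.e i) ι x : E4) = Jq i (ι x)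

end generic

/-- The line field `x ↦ ℝ x p`, `p` an imaginary unit quaternion, written in the left invariant
frame: it has the constant components `p_i`. -/
def LineL {M : Type} (u : M → V9) : Prop :=
  ∃ p : Fin 3 → ℝ, ∑ k, p k ^ 2 = 1 ∧ ∀ x i j, toM (u x) i j = 2 * p i * p j

/-- the components `⟨p x, x q_i⟩` of the field `x ↦ p x` in the left invariant frame, `p` an imaginary
quaternion -/
noncomputable def comp (p : Fin 3 → ℝ) (x : E4) (i : Fin 3) : ℝ :=
  ∑ k, p k * inner ℝ (Jp k x) (Jq i x)

/-- The line field `x ↦ ℝ p x`, `p` an imaginary unit quaternion, written in the left invariant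
frame. -/
def LineR {M : Type} (ι : M → E4) (u : M → V9) : Prop :=
  ∃ p : Fin 3 → ℝ, ∑ k, p k ^ 2 = 1 ∧
    ∀ x i j, toM (u x) i j = 2 * comp p (ι x) i * comp p (ι x) j

/-- the sphere in `E4` is a three-manifold -/
instance factE4 : Fact (Module.finrank ℝ E4 = 3 + 1) := ⟨by simp⟩

/-- the unit three-sphere -/
def S3 : Type := Metric.sphere (0 : E4) 1

/-- the inclusion of the unit three-sphere -/
def S3.incl : S3 → E4 := Subtype.val

instance S3.topology : TopologicalSpace S3 := inferInstanceAs (TopologicalSpace (Metric.sphere (0 : E4) 1))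

noncomputable instance S3.charts : ChartedSpace E3 S3 :=
  inferInstanceAs (ChartedSpace E3 (Metric.sphere (0 : E4) 1))

instance S3.manifold : IsManifold 𝓘(ℝ, E3) ∞ S3 :=
  inferInstanceAs (IsManifold 𝓘(ℝ, E3) ∞ (Metric.sphere (0 : E4) 1))

end Pool.Agent.FUE.T
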