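import Pool.Agent.FUE.Text
import Pool.Agent.FUE.StY
import Pool.Agent.FUE.StC

/-!
# The definitions of `Text.lean` agree with those of `Defs.lean`
-/

set_option autoImplicit false

open scoped Manifold ContDiff Matrix

namespace Pool.Agent.FUE.T

variable {M : Type} [TopologicalSpace M] [ChartedSpace E3 M] [IsManifold (𝓡 3) ∞ M]

/-- the frame of `Defs.lean` -/
def Frame.toF (F : Frame E3 M) : Pool.Agent.FUE.Frame M where
  e := F.e
  smooth_e := F.smooth_e
  indep := F.indep
  c := F.c
  smooth_c := F.smooth_c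
  bracket := F.bracket

theorem fueter_iff (F : Frame E3 M) (pr : Profile) (u : M → V9) :
    F.IsFueter pr u ↔ F.toF.IsFueter pr u :=
  ⟨fun h => ⟨h.1, h.2.1, h.2.2⟩, fun h => ⟨h.smooth, h.mem, h.eq⟩⟩

theorem DD_eq (F : Frame E3 M) (w : List (Fin 3)) (f : M → V9) : F.DD w f = F.toF.DD w f := by
  induction w with
  | nil => rfl
  | cons i w ih =>
    show F.D i (F.DD w f) = F.toF.D i (F.toF.DD w f)
    rw [ih]
    rfl

theorem cinf_iff (F : Frame E3 M) (u : ℕ → M → V9) (v : M → V9) :
    F.CInf u v ↔ F.toF.CInf u v := by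
  constructor
  · intro h w
    have := h w
    simp only [DD_eq] at this
    exact this
  · intro h w
    have := h w
    simp only [DD_eq]
    exact this

theorem ricPos_iff (F : Frame E3 M) : F.RicPos ↔ F.toF.RicPos := Iff.rfl

theorem specPos_iff (F : Frame E3 M) : F.SpecPos ↔ F.toF.SpecPos := Iff.rfl

end Pool.Agent.FUE.T
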